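import Pool.Agent.H.MP_b5a980_ag.Conn0

set_option autoImplicit false
set_option linter.unusedSectionVars false
set_option linter.style.longLine false

/-!
Adic completions of modules with connection: definitions (MP_b5a980_ag, part D).
-/

namespace B5a

universe u v w

open MvPowerSeries

variable {n : ℕ} {K : Type u} [Field K] {M : Type v} [AddCommGroup M]
  [Module (MvPowerSeries (Fin n) K) M] [Module K M] [IsScalarTower K (MvPowerSeries (Fin n) K) M]

/-- Derivatives map `I^(s+1)` into `I^s`. Proof. `Submodule.pow_induction_on_left'` or induction on `s` with `pow_succ` and `Submodule.mul_induction_on`. -/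
theorem pderiv_mem_pow (I : Ideal (MvPowerSeries (Fin n) K)) (i : Fin n) (s : ℕ)
    {a : MvPowerSeries (Fin n) K} (h : a ∈ I ^ (s + 1)) : pderiv K i a ∈ I ^ s := by
  induction s generalizing a with
  | zero =>
    rw [pow_zero, Ideal.one_eq_top]
    exact Submodule.mem_top
  | succ s ih =>
    rw [pow_succ] at h
    refine Submodule.mul_induction_on h ?_ ?_
    · intro x hx y hy
      rw [Derivation.leibniz, smul_eq_mul, smul_eq_mul]
      refine Ideal.add_mem _ (Ideal.mul_mem_right _ _ hx) ?_
      rw [mul_comm, pow_succ]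
      exact Ideal.mul_mem_mul (ih hx) hy
    · intro x y hx hy
      rw [map_add]
      exact Ideal.add_mem _ hx hy

/-- Proof. `Submodule.smul_induction_on`. -/
theorem nab_mem_pow (C : Conn n K M) (I : Ideal (MvPowerSeries (Fin n) K)) (i : Fin n) (s : ℕ)
    {m : M} (h : m ∈ (I ^ (s + 1) • ⊤ : Submodule (MvPowerSeries (Fin n) K) M)) :
    C.nab i m ∈ (I ^ s • ⊤ : Submodule (MvPowerSeries (Fin n) K) M) := by
  refine Submodule.smul_induction_on h ?_ ?_
  · intro r hr x _
    rw [C.leib]
    exact Submodule.add_mem _ (Submodule.smul_mem_smul (pderiv_mem_pow I i s hr) trivial)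
      (Submodule.smul_mem_smul (Ideal.pow_le_pow_right (Nat.le_succ s) hr) trivial)
  · intro x y hx hy
    rw [map_add]
    exact Submodule.add_mem _ hx hy

/-- `∂_i : M / I^(s+1) M → M / I^s M`. -/
noncomputable def hstep (C : Conn n K M) (I : Ideal (MvPowerSeries (Fin n) K)) (i : Fin n) (s : ℕ) :
    (M ⧸ (I ^ (s + 1) • ⊤ : Submodule (MvPowerSeries (Fin n) K) M)) →ₗ[K]
      (M ⧸ (I ^ s • ⊤ : Submodule (MvPowerSeries (Fin n) K) M)) :=
  (Submodule.Quotient.restrictScalarsEquiv K
      (I ^ s • ⊤ : Submodule (MvPowerSeries (Fin n) K) M)).toLinearMap ∘ₗ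
    (Submodule.mapQ ((I ^ (s + 1) • ⊤ : Submodule (MvPowerSeries (Fin n) K) M).restrictScalars K)
      ((I ^ s • ⊤ : Submodule (MvPowerSeries (Fin n) K) M).restrictScalars K) (C.nab i)
      fun _ hx => nab_mem_pow C I i s hx) ∘ₗ
    (Submodule.Quotient.restrictScalarsEquiv K
      (I ^ (s + 1) • ⊤ : Submodule (MvPowerSeries (Fin n) K) M)).symm.toLinearMap

theorem hstep_mk (C : Conn n K M) (I : Ideal (MvPowerSeries (Fin n) K)) (i : Fin n) (s : ℕ) (m : M) :
    hstep C I i s (Submodule.Quotient.mk m) = Submodule.Quotient.mk (C.nab i m) := rfl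

theorem Ah0_val_le (I : Ideal (MvPowerSeries (Fin n) K)) (c : AdicCompletion I M) {s t : ℕ}
    (hst : s ≤ t) {m : M} (h : c.val t = Submodule.Quotient.mk m) :
    c.val s = Submodule.Quotient.mk m := by
  have h1 := c.property hst
  rw [h] at h1
  exact h1.symm

theorem Ah0_exists (I : Ideal (MvPowerSeries (Fin n) K)) (c : AdicCompletion I M) (t : ℕ) :
    ∃ m : M, c.val t = Submodule.Quotient.mk m := by
  obtain ⟨m, hm⟩ := Submodule.Quotient.mk_surjective _ (c.val t)
  exact ⟨m, hm.symm⟩

/-- The connection on the `I`-adic completion of a module with connection: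
`(∂_i c) mod I^s = ∂_i (c mod I^(s+1))`. -/
noncomputable def hconn (C : Conn n K M) (I : Ideal (MvPowerSeries (Fin n) K)) :
    Conn n K (AdicCompletion I M) where
  nab i :=
    { toFun := fun c => ⟨fun s => hstep C I i s (c.val (s + 1)), by
        intro s t hst
        obtain ⟨m, hm⟩ := Ah0_exists I c (t + 1)
        have hm' := Ah0_val_le I c (Nat.succ_le_succ hst) hm
        show AdicCompletion.transitionMap I M hst (hstep C I i t (c.val (t + 1))) =
          hstep C I i s (c.val (s + 1))
        rw [hm, hm', hstep_mk, hstep_mk]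
        rfl⟩
      map_add' := by
        intro x y
        refine AdicCompletion.ext fun s => ?_
        exact map_add (hstep C I i s) _ _
      map_smul' := by
        intro a x
        refine AdicCompletion.ext fun s => ?_
        exact map_smul (hstep C I i s) a _ }
  leib := by
    intro i r x
    refine AdicCompletion.ext fun s => ?_
    obtain ⟨m, hm⟩ := Ah0_exists I x (s + 1)
    have hm' := Ah0_val_le I x (Nat.le_succ s) hm
    show hstep C I i s (r • x.val (s + 1)) =
      pderiv K i r • x.val s + r • hstep C I i s (x.val (s + 1))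
    rw [hm, hm', hstep_mk, ← Submodule.Quotient.mk_smul, hstep_mk, C.leib,
      ← Submodule.Quotient.mk_smul, ← Submodule.Quotient.mk_smul, ← Submodule.Quotient.mk_add]
  comm := by
    intro i j x
    refine AdicCompletion.ext fun s => ?_
    obtain ⟨m, hm⟩ := Ah0_exists I x (s + 1 + 1)
    show hstep C I i s (hstep C I j (s + 1) (x.val (s + 1 + 1))) =
      hstep C I j s (hstep C I i (s + 1) (x.val (s + 1 + 1)))
    rw [hm, hstep_mk, hstep_mk, hstep_mk, hstep_mk, C.comm]

theorem hconn_val (C : Conn n K M) (I : Ideal (MvPowerSeries (Fin n) K)) (i : Fin n)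
    (c : AdicCompletion I M) (s : ℕ) :
    ((hconn C I).nab i c).val s = hstep C I i s (c.val (s + 1)) := rfl

theorem hconn_val_mk (C : Conn n K M) (I : Ideal (MvPowerSeries (Fin n) K)) (i : Fin n)
    (c : AdicCompletion I M) (s : ℕ) (m : M) (h : c.val (s + 1) = Submodule.Quotient.mk m) :
    ((hconn C I).nab i c).val s = Submodule.Quotient.mk (C.nab i m) := by
  rw [hconn_val, h, hstep_mk]

/-- The completion of an `R`-linear map. -/
noncomputable def hmap {M' : Type w} [AddCommGroup M'] [Module (MvPowerSeries (Fin n) K) M']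
    (I : Ideal (MvPowerSeries (Fin n) K)) (u : M →ₗ[MvPowerSeries (Fin n) K] M') :
    AdicCompletion I M →ₗ[MvPowerSeries (Fin n) K] AdicCompletion I M' where
  toFun c := AdicCompletion.map I u c
  map_add' := by
    intro x y
    exact (AdicCompletion.map I u).map_add x y
  map_smul' := by
    intro r x
    refine AdicCompletion.ext fun s => ?_
    exact ((LinearMap.reduceModIdeal (I ^ s) u).restrictScalars (MvPowerSeries (Fin n) K)).map_smul r
      (x.val s)

theorem hmap_val {M' : Type w} [AddCommGroup M'] [Module (MvPowerSeries (Fin n) K) M']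
    (I : Ideal (MvPowerSeries (Fin n) K)) (u : M →ₗ[MvPowerSeries (Fin n) K] M')
    (c : AdicCompletion I M) (s : ℕ) (m : M) (h : c.val s = Submodule.Quotient.mk m) :
    (hmap I u c).val s = Submodule.Quotient.mk (u m) := by
  show LinearMap.reduceModIdeal (I ^ s) u (c.val s) = _
  rw [h]
  rfl

theorem hmap_comp {M' : Type w} [AddCommGroup M'] [Module (MvPowerSeries (Fin n) K) M']
    {M'' : Type*} [AddCommGroup M''] [Module (MvPowerSeries (Fin n) K) M'']
    (I : Ideal (MvPowerSeries (Fin n) K)) (u : M →ₗ[MvPowerSeries (Fin n) K] M')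
    (v : M' →ₗ[MvPowerSeries (Fin n) K] M'') (c : AdicCompletion I M) :
    hmap I v (hmap I u c) = hmap I (v ∘ₗ u) c :=
  AdicCompletion.map_comp_apply I u v c

/-- The completion of an `R`-linear map commuting with the connections commutes with the connections. -/
theorem hmap_nab {M' : Type w} [AddCommGroup M'] [Module (MvPowerSeries (Fin n) K) M'] [Module K M']
    [IsScalarTower K (MvPowerSeries (Fin n) K) M'] (C : Conn n K M) (C' : Conn n K M')
    (I : Ideal (MvPowerSeries (Fin n) K)) (u : M →ₗ[MvPowerSeries (Fin n) K] M')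
    (h : ∀ i x, u (C.nab i x) = C'.nab i (u x)) (i : Fin n) (c : AdicCompletion I M) :
    hmap I u ((hconn C I).nab i c) = (hconn C' I).nab i (hmap I u c) := by
  refine AdicCompletion.ext fun s => ?_
  obtain ⟨m, hm⟩ := Ah0_exists I c (s + 1)
  rw [hmap_val I u _ s _ (hconn_val_mk C I i c s m hm),
    hconn_val_mk C' I i _ s _ (hmap_val I u c (s + 1) m hm), h]

end B5a
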