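import Pool.Agent.H.MP_b5a980_ag.Lc0

set_option autoImplicit false
set_option linter.unusedSectionVars false
set_option linter.style.longLine false

/-!
Artin-Rees for localisations (MP_b5a980_ag, part D).
-/

namespace B5a

universe u v w

open MvPowerSeries

variable {n : ℕ} {K : Type u} [Field K]

theorem AhB_inj {a b : MvPowerSeries (Fin n) K} (h : inc n K a = inc n K b) : a = b := by
  by_contra hne
  have h1 : inc n K (a - b) ≠ 0 := inc_ne_zero (sub_ne_zero.2 hne)
  rw [map_sub, h, sub_self] at h1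
  exact h1 rfl

/-- Proof. An element of `I^s • ⊤` is a finite sum of `a • x`, `a ∈ I^s`; `Submodule.smul_induction_on`. -/
theorem mem_pow_loc {g : MvPowerSeries (Fin n) K} (hg : g ≠ 0) (I : Ideal (MvPowerSeries (Fin n) K))
    (s : ℕ) (x : loc g) :
    x ∈ (I ^ s • ⊤ : Submodule (MvPowerSeries (Fin n) K) (loc g)) ↔
      ∃ (N : ℕ) (a : MvPowerSeries (Fin n) K), a ∈ I ^ s ∧ inc n K g ^ N * (x : FF n K) = inc n K a := by
  have hg0 : inc n K g ≠ 0 := inc_ne_zero hg
  constructor
  · intro hx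
    refine Submodule.smul_induction_on hx ?_ ?_
    · intro a ha y _
      obtain ⟨N, r, hr⟩ := y.2
      refine ⟨N, a * r, Ideal.mul_mem_right r _ ha, ?_⟩
      rw [map_mul, ← hr, Submodule.coe_smul, Algebra.smul_def]
      change inc n K g ^ N * (inc n K a * (y : FF n K)) = _
      ring
    · rintro x y ⟨N, a, ha, hN⟩ ⟨N', a', ha', hN'⟩
      refine ⟨N + N', g ^ N' * a + g ^ N * a',
        Ideal.add_mem _ (Ideal.mul_mem_left _ _ ha) (Ideal.mul_mem_left _ _ ha'), ?_⟩
      rw [map_add, map_mul, map_mul, map_pow, map_pow, ← hN, ← hN', Submodule.coe_add]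
      ring
  · rintro ⟨N, a, ha, hN⟩
    have hy : (inc n K g ^ N)⁻¹ ∈ loc g :=
      ⟨N, 1, by rw [map_one, mul_inv_cancel₀ (pow_ne_zero N hg0)]⟩
    have hx : x = a • (⟨(inc n K g ^ N)⁻¹, hy⟩ : loc g) := by
      apply Subtype.ext
      rw [Submodule.coe_smul, Algebra.smul_def]
      change (x : FF n K) = inc n K a * (inc n K g ^ N)⁻¹
      rw [← hN]
      field_simp
    rw [hx]
    exact Submodule.smul_mem_smul ha Submodule.mem_top

/-- Artin-Rees: division by a nonzero `f`.

Proof. `Ideal.exists_pow_inf_eq_pow_smul` for `M = R` (noetherian) and `N = ` the ideal generated by `f` gives `c` with `I^(s+c) ∩ f R ⊆ I^s • (f R)`, so (domain) `f r ∈ I^(s+c)` implies `r ∈ I^s`. For `y ∈ loc g` with `f y ∈ I^(s+c) • ⊤`: `mem_pow_loc`: `g^N f y = inc a`, `a ∈ I^(s+c)`; enlarge `N` such that `g^N y = inc b`; `a = f b` (`inc` is injective), `b ∈ I^s`. -/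
theorem ar_loc {g : MvPowerSeries (Fin n) K} (hg : g ≠ 0) (I : Ideal (MvPowerSeries (Fin n) K))
    {f : MvPowerSeries (Fin n) K} (hf : f ≠ 0) :
    ∃ c : ℕ, ∀ (s : ℕ) (y : loc g),
      f • y ∈ (I ^ (s + c) • ⊤ : Submodule (MvPowerSeries (Fin n) K) (loc g)) →
      y ∈ (I ^ s • ⊤ : Submodule (MvPowerSeries (Fin n) K) (loc g)) := by
  obtain ⟨c, hc⟩ := Ideal.exists_pow_inf_eq_pow_smul I
    (Ideal.span {f} : Submodule (MvPowerSeries (Fin n) K) (MvPowerSeries (Fin n) K))
  have hdiv : ∀ (s : ℕ) (r : MvPowerSeries (Fin n) K), f * r ∈ I ^ (s + c) → r ∈ I ^ s := by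
    intro s r hr
    have h1 : f * r ∈ (I ^ (s + c) • ⊤ ⊓ Ideal.span {f} :
        Submodule (MvPowerSeries (Fin n) K) (MvPowerSeries (Fin n) K)) := by
      refine ⟨?_, Ideal.mem_span_singleton.2 (dvd_mul_right f r)⟩
      have h2 := Submodule.smul_mem_smul (N := (⊤ : Submodule (MvPowerSeries (Fin n) K)
        (MvPowerSeries (Fin n) K))) hr (Submodule.mem_top (x := (1 : MvPowerSeries (Fin n) K)))
      have h2' : (f * r) • (1 : MvPowerSeries (Fin n) K) = f * r := by
        rw [smul_eq_mul, mul_one]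
      rw [h2'] at h2
      exact h2
    rw [hc (s + c) (Nat.le_add_left c s), Nat.add_sub_cancel] at h1
    have h3 : f * r ∈ I ^ s * Ideal.span {f} := by
      have h4 : (I ^ s • (I ^ c • ⊤ ⊓ Ideal.span {f}) :
          Submodule (MvPowerSeries (Fin n) K) (MvPowerSeries (Fin n) K)) ≤
          I ^ s • Ideal.span {f} := Submodule.smul_mono le_rfl inf_le_right
      exact h4 h1
    rw [Ideal.mem_mul_span_singleton] at h3
    obtain ⟨z, hz, hzf⟩ := h3
    have h5 : z = r := by
      rw [mul_comm z f] at hzf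
      exact mul_left_cancel₀ hf hzf
    rw [← h5]
    exact hz
  refine ⟨c, fun s y hy => ?_⟩
  rw [mem_pow_loc hg] at hy ⊢
  obtain ⟨N, a, ha, hN⟩ := hy
  obtain ⟨N', b, hb⟩ := y.2
  refine ⟨N + N', g ^ N * b, ?_, ?_⟩
  · apply hdiv
    have h1 : f * (g ^ N * b) = g ^ N' * a := by
      apply AhB_inj
      rw [map_mul, map_mul, map_mul, map_pow, map_pow, ← hN, ← hb, Submodule.coe_smul,
        Algebra.smul_def]
      change _ = inc n K g ^ N' * (inc n K g ^ N * (inc n K f * (y : FF n K)))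
      ring
    rw [h1]
    exact Ideal.mul_mem_left _ _ ha
  · rw [map_mul, map_pow, ← hb]
    ring

end B5a
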