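import Pool.Agent.H.MP_b5a980_ag.Bo0

set_option autoImplicit false
set_option linter.unusedSectionVars false
set_option linter.style.longLine false

/-!
The telescope construction: definitions (MP_b5a980_ag, part D).
-/

namespace B5a

universe u v w

open MvPowerSeries

variable {n : ℕ} {K : Type u} [Field K] {M : Type v} [AddCommGroup M]
  [Module (MvPowerSeries (Fin n) K) M] [Module K M] [IsScalarTower K (MvPowerSeries (Fin n) K) M]

theorem Te0_pderiv_comm (i j : Fin n) (r : MvPowerSeries (Fin n) K) :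
    pderiv K i (pderiv K j r) = pderiv K j (pderiv K i r) := by
  by_cases hij : i = j
  · rw [hij]
  · ext β
    rw [coeff_pderiv, coeff_pderiv, coeff_pderiv, coeff_pderiv]
    have h1 : (β + (Finsupp.single i 1 : Fin n →₀ ℕ)) j = β j := by
      simp [hij]
    have h2 : (β + (Finsupp.single j 1 : Fin n →₀ ℕ)) i = β i := by
      simp [Ne.symm hij]
    have h3 : β + (Finsupp.single i 1 : Fin n →₀ ℕ) + Finsupp.single j 1 =
        β + Finsupp.single j 1 + Finsupp.single i 1 := add_right_comm _ _ _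
    rw [h1, h2, h3]
    ring

/-- The connection on sequences: `(∂_i b)_j = ∂_i b_j + (j+1) (∂_i f) b_(j+1)`. -/
noncomputable def sqconn (C : Conn n K M) (f : MvPowerSeries (Fin n) K) : Conn n K (ℕ → M) where
  nab i :=
    { toFun := fun b j => C.nab i (b j) + ((j : ℕ) + 1) • (pderiv K i f • b (j + 1))
      map_add' := by
        intro x y
        funext j
        change C.nab i (x j + y j) + ((j : ℕ) + 1) • (pderiv K i f • (x (j + 1) + y (j + 1))) =
          (C.nab i (x j) + ((j : ℕ) + 1) • (pderiv K i f • x (j + 1))) +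
            (C.nab i (y j) + ((j : ℕ) + 1) • (pderiv K i f • y (j + 1)))
        rw [map_add, smul_add, smul_add]
        abel
      map_smul' := by
        intro c x
        funext j
        change C.nab i (c • x j) + ((j : ℕ) + 1) • (pderiv K i f • (c • x (j + 1))) =
          c • (C.nab i (x j) + ((j : ℕ) + 1) • (pderiv K i f • x (j + 1)))
        rw [map_smul, smul_add, smul_comm (pderiv K i f) c, smul_comm ((j : ℕ) + 1) c] }
  leib := by
    intro i r b
    funext j
    change C.nab i (r • b j) + ((j : ℕ) + 1) • (pderiv K i f • (r • b (j + 1))) =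
      pderiv K i r • b j + r • (C.nab i (b j) + ((j : ℕ) + 1) • (pderiv K i f • b (j + 1)))
    rw [C.leib, smul_add, smul_comm (pderiv K i f) r, smul_comm ((j : ℕ) + 1) r]
    abel
  comm := by
    intro i k b
    funext j
    change C.nab i (C.nab k (b j) + ((j : ℕ) + 1) • (pderiv K k f • b (j + 1))) +
      ((j : ℕ) + 1) • (pderiv K i f • (C.nab k (b (j + 1)) +
        ((j + 1 : ℕ) + 1) • (pderiv K k f • b (j + 1 + 1)))) =
      C.nab k (C.nab i (b j) + ((j : ℕ) + 1) • (pderiv K i f • b (j + 1))) +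
      ((j : ℕ) + 1) • (pderiv K k f • (C.nab i (b (j + 1)) +
        ((j + 1 : ℕ) + 1) • (pderiv K i f • b (j + 1 + 1))))
    rw [map_add, map_add, map_nsmul, map_nsmul, C.leib, C.leib, C.comm i k, Te0_pderiv_comm i k]
    simp only [smul_add]
    rw [smul_comm (pderiv K i f) ((j + 1 : ℕ) + 1), smul_comm (pderiv K k f) ((j + 1 : ℕ) + 1),
      smul_comm (pderiv K i f) (pderiv K k f)]
    abel

/-- The map `(d m)_j = m_(j-1) - f m_j` on sequences (`m_(-1) = 0`). -/
noncomputable def sqd (f : MvPowerSeries (Fin n) K) :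
    (ℕ → M) →ₗ[MvPowerSeries (Fin n) K] (ℕ → M) where
  toFun m j := (match j with
    | 0 => 0
    | (k + 1) => m k) - f • m j
  map_add' := by
    intro x y
    funext j
    cases j with
    | zero => simp only [Pi.add_apply, smul_add]; abel
    | succ k => simp only [Pi.add_apply, smul_add]; abel
  map_smul' := by
    intro c x
    funext j
    cases j with
    | zero => simp only [Pi.smul_apply, RingHom.id_apply, zero_sub, smul_neg]; rw [smul_comm]
    | succ k => simp only [Pi.smul_apply, RingHom.id_apply, smul_sub]; rw [smul_comm f c]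

theorem sqd_zero (f : MvPowerSeries (Fin n) K) (m : ℕ → M) : sqd f m 0 = - (f • m 0) := by
  show 0 - f • m 0 = _
  rw [zero_sub]

theorem sqd_succ (f : MvPowerSeries (Fin n) K) (m : ℕ → M) (k : ℕ) :
    sqd f m (k + 1) = m k - f • m (k + 1) := rfl

theorem sqd_nab (C : Conn n K M) (f : MvPowerSeries (Fin n) K) (i : Fin n) (m : ℕ → M) :
    sqd f ((sqconn C f).nab i m) = (sqconn C f).nab i (sqd f m) := by
  funext j
  cases j with
  | zero =>
    rw [sqd_zero]
    change -(f • (C.nab i (m 0) + ((0 : ℕ) + 1) • (pderiv K i f • m (0 + 1)))) =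
      C.nab i (sqd f m 0) + ((0 : ℕ) + 1) • (pderiv K i f • sqd f m (0 + 1))
    rw [sqd_zero, sqd_succ, map_neg, C.leib, zero_add, one_smul, one_smul, smul_sub, smul_add,
      smul_comm f (pderiv K i f)]
    abel
  | succ k =>
    rw [sqd_succ]
    change C.nab i (m k) + ((k : ℕ) + 1) • (pderiv K i f • m (k + 1)) -
      f • (C.nab i (m (k + 1)) + ((k + 1 : ℕ) + 1) • (pderiv K i f • m (k + 1 + 1))) =
      C.nab i (sqd f m (k + 1)) + ((k + 1 : ℕ) + 1) • (pderiv K i f • sqd f m (k + 1 + 1))
    rw [sqd_succ, sqd_succ, map_sub, C.leib, smul_sub, smul_add, smul_sub,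
      smul_comm f ((k + 1 : ℕ) + 1), smul_comm f (pderiv K i f),
      add_smul (k + 1 : ℕ) 1 (pderiv K i f • m (k + 1)), one_smul]
    abel

/-- An `R`-linear map applied to all terms of a sequence. -/
noncomputable def sqmap {M' : Type w} [AddCommGroup M'] [Module (MvPowerSeries (Fin n) K) M']
    (φ : M →ₗ[MvPowerSeries (Fin n) K] M') : (ℕ → M) →ₗ[MvPowerSeries (Fin n) K] (ℕ → M') where
  toFun b j := φ (b j)
  map_add' := by
    intro x y
    funext j
    simp only [Pi.add_apply, map_add]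
  map_smul' := by
    intro c x
    funext j
    simp only [Pi.smul_apply, RingHom.id_apply, map_smul]

theorem sqmap_sqd {M' : Type w} [AddCommGroup M'] [Module (MvPowerSeries (Fin n) K) M'] [Module K M']
    [IsScalarTower K (MvPowerSeries (Fin n) K) M'] (φ : M →ₗ[MvPowerSeries (Fin n) K] M')
    (f : MvPowerSeries (Fin n) K) (m : ℕ → M) : sqmap φ (sqd f m) = sqd f (sqmap φ m) := by
  funext j
  cases j with
  | zero =>
    rw [sqd_zero]
    change φ (sqd f m 0) = -(f • φ (m 0))
    rw [sqd_zero, map_neg, map_smul]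
  | succ k =>
    rw [sqd_succ]
    change φ (sqd f m (k + 1)) = φ (m k) - f • φ (m (k + 1))
    rw [sqd_succ, map_sub, map_smul]

theorem sqmap_nab {M' : Type w} [AddCommGroup M'] [Module (MvPowerSeries (Fin n) K) M'] [Module K M']
    [IsScalarTower K (MvPowerSeries (Fin n) K) M'] (φ : M →ₗ[MvPowerSeries (Fin n) K] M')
    (C : Conn n K M) (C' : Conn n K M') (h : ∀ i x, φ (C.nab i x) = C'.nab i (φ x))
    (f : MvPowerSeries (Fin n) K) (i : Fin n) (b : ℕ → M) :
    sqmap φ ((sqconn C f).nab i b) = (sqconn C' f).nab i (sqmap φ b) := by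
  funext j
  change φ (C.nab i (b j) + ((j : ℕ) + 1) • (pderiv K i f • b (j + 1))) =
    C'.nab i (φ (b j)) + ((j : ℕ) + 1) • (pderiv K i f • φ (b (j + 1)))
  rw [map_add, h, map_nsmul, map_smul]

/-- The connection on a product. -/
noncomputable def prodConn {M' : Type w} [AddCommGroup M'] [Module (MvPowerSeries (Fin n) K) M']
    [Module K M'] (C : Conn n K M) (C' : Conn n K M') : Conn n K (M × M') where
  nab i := (C.nab i).prodMap (C'.nab i)
  leib := by
    intro i r x
    exact Prod.ext (C.leib i r x.1) (C'.leib i r x.2)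
  comm := by
    intro i j x
    exact Prod.ext (C.comm i j x.1) (C'.comm i j x.2)

/-- `(b, m) ↦ (δ b + d m, - δ m)`. -/
noncomputable def teldel (X : BObj n K) (f : MvPowerSeries (Fin n) K) :
    ((ℕ → X.Γ) × (ℕ → X.Γ)) →ₗ[MvPowerSeries (Fin n) K] ((ℕ → X.Γ) × (ℕ → X.Γ)) :=
  LinearMap.prod
    ((sqmap X.δ).comp (LinearMap.fst _ _ _) + (sqd f).comp (LinearMap.snd _ _ _))
    (- (sqmap X.δ).comp (LinearMap.snd _ _ _))

theorem teldel_apply (X : BObj n K) (f : MvPowerSeries (Fin n) K) (b m : ℕ → X.Γ) :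
    teldel X f (b, m) = (sqmap X.δ b + sqd f m, - sqmap X.δ m) := rfl

/-- The telescope of `X`: sequences `b` in degree `q` and `m` in degree `q + 1`, with differential
`(b, m) ↦ (δ b + d m, - δ m)`. -/
noncomputable def TObj (f : MvPowerSeries (Fin n) K) (X : BObj n K) : BObj n K where
  Γ := (ℕ → X.Γ) × (ℕ → X.Γ)
  C := prodConn (sqconn X.C f) (sqconn X.C f)
  δ := teldel X f
  G q :=
    { carrier := {x | (∀ j, x.1 j ∈ X.G q) ∧ ∀ j, x.2 j ∈ X.G (q + 1)}
      add_mem' := fun hx hy => ⟨fun j => Submodule.add_mem _ (hx.1 j) (hy.1 j),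
        fun j => Submodule.add_mem _ (hx.2 j) (hy.2 j)⟩
      zero_mem' := ⟨fun _ => Submodule.zero_mem _, fun _ => Submodule.zero_mem _⟩
      smul_mem' := fun c _ hx => ⟨fun j => Submodule.smul_mem _ c (hx.1 j),
        fun j => Submodule.smul_mem _ c (hx.2 j)⟩ }
  δδ := by
    rintro ⟨b, m⟩
    rw [teldel_apply, teldel_apply]
    refine Prod.ext ?_ ?_
    · funext j
      have h1 : ∀ c : ℕ → X.Γ, sqmap X.δ (sqmap X.δ c) = 0 := fun c => funext fun j => X.δδ (c j)
      change (sqmap X.δ (sqmap X.δ b + sqd f m) + sqd f (- sqmap X.δ m)) j = 0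
      rw [map_add, map_neg, h1, sqmap_sqd, zero_add, add_neg_cancel]
      rfl
    · funext j
      change (- sqmap X.δ (- sqmap X.δ m)) j = 0
      rw [map_neg, neg_neg]
      exact X.δδ (m j)
  δC := by
    rintro i ⟨b, m⟩
    refine Prod.ext ?_ ?_
    · change sqmap X.δ ((sqconn X.C f).nab i b) + sqd f ((sqconn X.C f).nab i m) =
        (sqconn X.C f).nab i (sqmap X.δ b + sqd f m)
      rw [map_add, sqd_nab, sqmap_nab X.δ X.C X.C X.δC]
    · change - sqmap X.δ ((sqconn X.C f).nab i m) = (sqconn X.C f).nab i (- sqmap X.δ m)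
      rw [map_neg, sqmap_nab X.δ X.C X.C X.δC]
  δG := by
    rintro q ⟨b, m⟩ ⟨hb, hm⟩
    refine ⟨fun j => ?_, fun j => ?_⟩
    · change X.δ (b j) + sqd f m j ∈ X.G (q + 1)
      refine Submodule.add_mem _ (X.δG q _ (hb j)) ?_
      cases j with
      | zero =>
        rw [sqd_zero]
        exact Submodule.neg_mem _ (Submodule.smul_mem _ _ (hm 0))
      | succ k =>
        rw [sqd_succ]
        exact Submodule.sub_mem _ (hm k) (Submodule.smul_mem _ _ (hm (k + 1)))
    · change - X.δ (m j) ∈ X.G (q + 1 + 1)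
      exact Submodule.neg_mem _ (X.δG (q + 1) _ (hm j))
  GC := by
    rintro q i ⟨b, m⟩ ⟨hb, hm⟩
    have key : ∀ (q : ℤ) (c : ℕ → X.Γ), (∀ j, c j ∈ X.G q) → ∀ j,
        X.C.nab i (c j) + ((j : ℕ) + 1) • (pderiv K i f • c (j + 1)) ∈ X.G q := fun q c hc j =>
      Submodule.add_mem _ (X.GC q i _ (hc j))
        (Submodule.smul_of_tower_mem _ _ (Submodule.smul_mem _ _ (hc (j + 1))))
    exact ⟨key q b hb, key (q + 1) m hm⟩

end B5a
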