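import Pool.Agent.H.MP_b5a980_ag.Ah0
import Pool.Agent.H.MP_b5a980_ag.Te0

set_option autoImplicit false
set_option linter.unusedSectionVars false
set_option linter.style.longLine false

/-!
Summation of series in a completion (MP_b5a980_ag, part D).
-/

namespace B5a

universe u v w

open MvPowerSeries

variable {n : ℕ} {K : Type u} [Field K] {M : Type v} [AddCommGroup M]
  [Module (MvPowerSeries (Fin n) K) M] [Module K M] [IsScalarTower K (MvPowerSeries (Fin n) K) M]

/-- The map `M / I^s M → M / J^s M` for `I ≤ J`. -/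
noncomputable def qfac (M : Type v) [AddCommGroup M] [Module (MvPowerSeries (Fin n) K) M]
    {I J : Ideal (MvPowerSeries (Fin n) K)} (h : I ≤ J) (s : ℕ) :
    (M ⧸ (I ^ s • ⊤ : Submodule (MvPowerSeries (Fin n) K) M)) →ₗ[MvPowerSeries (Fin n) K]
      (M ⧸ (J ^ s • ⊤ : Submodule (MvPowerSeries (Fin n) K) M)) :=
  Submodule.factor (Submodule.smul_mono_left (Ideal.pow_right_mono h s))

omit [Module K M] [IsScalarTower K (MvPowerSeries (Fin n) K) M] in
theorem AhC_rep {I : Ideal (MvPowerSeries (Fin n) K)} (b : ℕ → AdicCompletion I M) (t : ℕ) :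
    ∃ m : ℕ → M, ∀ j, (b j).val t = Submodule.Quotient.mk (m j) := by
  choose m hm using fun j => Submodule.Quotient.mk_surjective _ ((b j).val t)
  exact ⟨m, fun j => (hm j).symm⟩

omit [Module K M] [IsScalarTower K (MvPowerSeries (Fin n) K) M] in
theorem AhC_le {I : Ideal (MvPowerSeries (Fin n) K)} (c : AdicCompletion I M) {s t : ℕ}
    (hst : s ≤ t) {m : M} (h : c.val t = Submodule.Quotient.mk m) :
    c.val s = Submodule.Quotient.mk m := by
  have h1 := c.property hst
  rw [h] at h1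
  exact h1.symm

omit [Module K M] [IsScalarTower K (MvPowerSeries (Fin n) K) M] in
theorem AhC_sum {I J : Ideal (MvPowerSeries (Fin n) K)} (h : I ≤ J) (f : MvPowerSeries (Fin n) K)
    (b : ℕ → AdicCompletion I M) (s : ℕ) (m : ℕ → M)
    (hm : ∀ j, j < s → (b j).val s = Submodule.Quotient.mk (m j)) :
    ∑ j ∈ Finset.range s, f ^ j • qfac M h s ((b j).val s) =
      Submodule.Quotient.mk (∑ j ∈ Finset.range s, f ^ j • m j) := by
  have h1 : (Submodule.Quotient.mk (∑ j ∈ Finset.range s, f ^ j • m j) :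
      M ⧸ (J ^ s • ⊤ : Submodule (MvPowerSeries (Fin n) K) M)) =
      ∑ j ∈ Finset.range s, f ^ j • Submodule.Quotient.mk (m j) := by
    rw [← Submodule.mkQ_apply, map_sum]
    refine Finset.sum_congr rfl fun j _ => ?_
    rw [map_smul, Submodule.mkQ_apply]
  rw [h1]
  refine Finset.sum_congr rfl fun j hj => ?_
  rw [hm j (Finset.mem_range.1 hj)]
  rfl

omit [Module K M] [IsScalarTower K (MvPowerSeries (Fin n) K) M] in
theorem AhC_mem {J : Ideal (MvPowerSeries (Fin n) K)} {f : MvPowerSeries (Fin n) K} (hf : f ∈ J)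
    {s t : ℕ} (hst : s ≤ t) (m : M) :
    f ^ t • m ∈ (J ^ s • ⊤ : Submodule (MvPowerSeries (Fin n) K) M) :=
  Submodule.smul_mem_smul (Ideal.pow_le_pow_right hst (Ideal.pow_mem_pow hf t)) trivial

/-- The map `(b_j) ↦ Σ f^j b_j` from sequences in the `I`-adic completion to the `J`-adic completion,
for `I ≤ J` and `f ∈ J`. Fill: compatibility (the terms with `j ≥ s` vanish modulo `J^s`). -/
noncomputable def tsm (M : Type v) [AddCommGroup M] [Module (MvPowerSeries (Fin n) K) M]
    {I J : Ideal (MvPowerSeries (Fin n) K)} (h : I ≤ J) {f : MvPowerSeries (Fin n) K} (hf : f ∈ J) :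
    (ℕ → AdicCompletion I M) →ₗ[MvPowerSeries (Fin n) K] AdicCompletion J M where
  toFun b := ⟨fun s => ∑ j ∈ Finset.range s, f ^ j • qfac M h s ((b j).val s), by
    intro s t hst
    obtain ⟨m, hm⟩ := AhC_rep b t
    show AdicCompletion.transitionMap J M hst
      (∑ j ∈ Finset.range t, f ^ j • qfac M h t ((b j).val t)) =
      ∑ j ∈ Finset.range s, f ^ j • qfac M h s ((b j).val s)
    rw [AhC_sum h f b t m fun j _ => hm j, AhC_sum h f b s m fun j _ => AhC_le (b j) hst (hm j)]
    refine (Submodule.Quotient.eq _).2 ?_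
    obtain ⟨r, rfl⟩ := Nat.exists_eq_add_of_le hst
    rw [Finset.sum_range_add, LinearMap.id_apply, add_sub_cancel_left]
    exact Submodule.sum_mem _ fun j _ => AhC_mem hf (Nat.le_add_right s j) _⟩
  map_add' := by
    intro x y
    refine AdicCompletion.ext fun s => ?_
    show ∑ j ∈ Finset.range s, f ^ j • qfac M h s ((x j).val s + (y j).val s) =
      ∑ j ∈ Finset.range s, f ^ j • qfac M h s ((x j).val s) +
        ∑ j ∈ Finset.range s, f ^ j • qfac M h s ((y j).val s)
    rw [← Finset.sum_add_distrib]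
    refine Finset.sum_congr rfl fun j _ => ?_
    rw [map_add, smul_add]
  map_smul' := by
    intro a x
    refine AdicCompletion.ext fun s => ?_
    show ∑ j ∈ Finset.range s, f ^ j • qfac M h s (a • (x j).val s) =
      a • ∑ j ∈ Finset.range s, f ^ j • qfac M h s ((x j).val s)
    rw [Finset.smul_sum]
    refine Finset.sum_congr rfl fun j _ => ?_
    rw [map_smul, smul_comm]

theorem tsm_val {I J : Ideal (MvPowerSeries (Fin n) K)} (h : I ≤ J) {f : MvPowerSeries (Fin n) K}
    (hf : f ∈ J) (b : ℕ → AdicCompletion I M) (s : ℕ) :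
    (tsm M h hf b).val s = ∑ j ∈ Finset.range s, f ^ j • qfac M h s ((b j).val s) := rfl

/-- If `m_j` represents `b_j` modulo `I^s` then `Σ_(j<s) f^j m_j` represents the sum modulo `J^s`. -/
theorem tsm_val_mk {I J : Ideal (MvPowerSeries (Fin n) K)} (h : I ≤ J) {f : MvPowerSeries (Fin n) K}
    (hf : f ∈ J) (b : ℕ → AdicCompletion I M) (s : ℕ) (m : ℕ → M)
    (hm : ∀ j, j < s → (b j).val s = Submodule.Quotient.mk (m j)) :
    (tsm M h hf b).val s = Submodule.Quotient.mk (∑ j ∈ Finset.range s, f ^ j • m j) := by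
  rw [tsm_val, AhC_sum h f b s m hm]

theorem AhC_tel (f : MvPowerSeries (Fin n) K) (m : ℕ → M) (s : ℕ) :
    ∑ j ∈ Finset.range (s + 1), f ^ j • sqd f m j = - (f ^ (s + 1) • m s) := by
  induction s with
  | zero => rw [zero_add, Finset.sum_range_one, sqd_zero, pow_zero, one_smul, pow_one]
  | succ s ih =>
    rw [Finset.sum_range_succ, ih, sqd_succ, smul_sub, smul_smul, ← pow_succ]
    abel

theorem AhC_nab (C : Conn n K M) (f : MvPowerSeries (Fin n) K) (i : Fin n) (m : ℕ → M) (s : ℕ) :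
    C.nab i (∑ j ∈ Finset.range (s + 1), f ^ j • m j) =
      ∑ j ∈ Finset.range s, f ^ j • (sqconn C f).nab i m j + f ^ s • C.nab i (m s) := by
  induction s with
  | zero =>
    rw [zero_add, Finset.sum_range_one, Finset.sum_range_zero, pow_zero, one_smul, one_smul,
      zero_add]
  | succ s ih =>
    rw [Finset.sum_range_succ, map_add, ih, Finset.sum_range_succ _ s, C.leib,
      Derivation.leibniz_pow, Nat.add_sub_cancel]
    have h1 : (sqconn C f).nab i m s =
      C.nab i (m s) + ((s : ℕ) + 1) • (pderiv K i f • m (s + 1)) := rfl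
    rw [h1, smul_add, smul_assoc, smul_eq_mul, mul_smul, smul_comm (f ^ s) ((s : ℕ) + 1)]
    abel

/-- Proof. Modulo `J^s`: telescoping sum `Σ_(j<s) f^j (m_(j-1) - f m_j) = - f^s m_(s-1) = 0`. -/
theorem tsm_sqd {I J : Ideal (MvPowerSeries (Fin n) K)} (h : I ≤ J) {f : MvPowerSeries (Fin n) K}
    (hf : f ∈ J) (m : ℕ → AdicCompletion I M) : tsm M h hf (sqd f m) = 0 := by
  refine AdicCompletion.ext fun s => ?_
  obtain ⟨μ, hμ⟩ := AhC_rep m s
  have h1 : ∀ j, (sqd f m j).val s = Submodule.Quotient.mk (sqd f μ j) := by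
    intro j
    cases j with
    | zero =>
      rw [sqd_zero, sqd_zero]
      show - (f • (m 0).val s) = _
      rw [hμ]
      rfl
    | succ k =>
      rw [sqd_succ, sqd_succ]
      show (m k).val s - f • (m (k + 1)).val s = _
      rw [hμ, hμ]
      rfl
  rw [tsm_val_mk h hf _ s _ fun j _ => h1 j]
  show _ = (0 : M ⧸ (J ^ s • ⊤ : Submodule (MvPowerSeries (Fin n) K) M))
  rw [Submodule.Quotient.mk_eq_zero]
  cases s with
  | zero =>
    rw [Finset.sum_range_zero]
    exact Submodule.zero_mem _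
  | succ s =>
    rw [AhC_tel]
    exact Submodule.neg_mem _ (AhC_mem hf le_rfl _)

/-- Proof. Modulo `J^s`, with representatives `m_j` of `b_j` modulo `I^(s+1)`: the left side is the class of `Σ_(j<s) f^j (∂ m_j + (j+1) (∂f) m_(j+1))` (for `j + 1 = s` the term `m_s` occurs: it is a representative of `b_s`), the right side the class of `∂ (Σ_(j<s+1) f^j m_j) = Σ_(j<s+1) (f^j ∂ m_j + j f^(j-1) (∂f) m_j)`; the difference is `f^s ∂ m_s`. -/
theorem tsm_nab (C : Conn n K M) {I J : Ideal (MvPowerSeries (Fin n) K)} (h : I ≤ J)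
    {f : MvPowerSeries (Fin n) K} (hf : f ∈ J) (i : Fin n) (b : ℕ → AdicCompletion I M) :
    tsm M h hf ((sqconn (hconn C I) f).nab i b) = (hconn C J).nab i (tsm M h hf b) := by
  refine AdicCompletion.ext fun s => ?_
  obtain ⟨μ, hμ⟩ := AhC_rep b (s + 1)
  have h1 : ∀ j, ((sqconn (hconn C I) f).nab i b j).val s =
      Submodule.Quotient.mk ((sqconn C f).nab i μ j) := by
    intro j
    change ((hconn C I).nab i (b j)).val s + ((j : ℕ) + 1) • (pderiv K i f • (b (j + 1)).val s) =
      Submodule.Quotient.mk (C.nab i (μ j) + ((j : ℕ) + 1) • (pderiv K i f • μ (j + 1)))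
    rw [hconn_val_mk C I i (b j) s (μ j) (hμ j), AhC_le (b (j + 1)) (Nat.le_succ s) (hμ (j + 1))]
    rfl
  rw [tsm_val_mk h hf _ s _ fun j _ => h1 j,
    hconn_val_mk C J i _ s _ (tsm_val_mk h hf b (s + 1) μ fun j _ => hμ j), AhC_nab, eq_comm]
  refine (Submodule.Quotient.eq _).2 ?_
  rw [add_sub_cancel_left]
  exact AhC_mem hf le_rfl _

/-- The summation commutes with completed maps. -/
theorem tsm_map {M' : Type w} [AddCommGroup M'] [Module (MvPowerSeries (Fin n) K) M']
    (u : M →ₗ[MvPowerSeries (Fin n) K] M') {I J : Ideal (MvPowerSeries (Fin n) K)} (h : I ≤ J)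
    {f : MvPowerSeries (Fin n) K} (hf : f ∈ J) (b : ℕ → AdicCompletion I M) :
    tsm M' h hf (fun j => hmap I u (b j)) = hmap J u (tsm M h hf b) := by
  refine AdicCompletion.ext fun s => ?_
  obtain ⟨μ, hμ⟩ := AhC_rep b s
  have h1 : (tsm M h hf b).val s = Submodule.Quotient.mk (∑ j ∈ Finset.range s, f ^ j • μ j) :=
    AhC_sum h f b s μ fun j _ => hμ j
  have h2 : (tsm M' h hf (fun j => hmap I u (b j))).val s =
      Submodule.Quotient.mk (∑ j ∈ Finset.range s, f ^ j • u (μ j)) :=
    AhC_sum h f _ s _ fun j _ => hmap_val I u (b j) s (μ j) (hμ j)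
  rw [hmap_val J u _ s _ h1, h2, map_sum]
  congr 1
  refine Finset.sum_congr rfl fun j _ => ?_
  rw [map_smul]

end B5a
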