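import Pool.Agent.H.MP_b5a980_ag.AhC

set_option autoImplicit false
set_option linter.unusedSectionVars false
set_option linter.style.longLine false

/-!
Kernel of the summation map (MP_b5a980_ag, part D).
-/

namespace B5a

universe u v w

open MvPowerSeries

variable {n : ℕ} {K : Type u} [Field K] {M : Type v} [AddCommGroup M]
  [Module (MvPowerSeries (Fin n) K) M]

/-- Artin-Rees property for division by `f`. -/
def ARP (M : Type v) [AddCommGroup M] [Module (MvPowerSeries (Fin n) K) M]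
    (I : Ideal (MvPowerSeries (Fin n) K)) (f : MvPowerSeries (Fin n) K) : Prop :=
  ∃ c : ℕ, ∀ (s : ℕ) (y : M),
    f • y ∈ (I ^ (s + c) • ⊤ : Submodule (MvPowerSeries (Fin n) K) M) →
    y ∈ (I ^ s • ⊤ : Submodule (MvPowerSeries (Fin n) K) M)

theorem AhD_exists (I : Ideal (MvPowerSeries (Fin n) K)) (c : AdicCompletion I M) (t : ℕ) :
    ∃ m : M, c.val t = Submodule.Quotient.mk m := by
  obtain ⟨m, hm⟩ := Submodule.Quotient.mk_surjective _ (c.val t)
  exact ⟨m, hm.symm⟩

theorem AhD_val_le (I : Ideal (MvPowerSeries (Fin n) K)) (c : AdicCompletion I M) {s t : ℕ}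
    (hst : s ≤ t) {m : M} (h : c.val t = Submodule.Quotient.mk m) :
    c.val s = Submodule.Quotient.mk m := by
  have h1 := c.property hst
  rw [h] at h1
  exact h1.symm

theorem AhD_val_mk {I J : Ideal (MvPowerSeries (Fin n) K)} (h : I ≤ J)
    {f : MvPowerSeries (Fin n) K} (hf : f ∈ J) (b : ℕ → AdicCompletion I M) (s : ℕ) (m : ℕ → M)
    (hm : ∀ j, j < s → (b j).val s = Submodule.Quotient.mk (m j)) :
    (tsm M h hf b).val s = Submodule.Quotient.mk (∑ j ∈ Finset.range s, f ^ j • m j) := by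
  change ∑ j ∈ Finset.range s, f ^ j • qfac M h s ((b j).val s) =
    (J ^ s • ⊤ : Submodule (MvPowerSeries (Fin n) K) M).mkQ (∑ j ∈ Finset.range s, f ^ j • m j)
  rw [map_sum]
  refine Finset.sum_congr rfl fun j hj => ?_
  rw [hm j (Finset.mem_range.1 hj), map_smul]
  rfl

/-- Proof. Let `m` represent `c` modulo `I^(s+c0)`; `f m ∈ I^(s+c0) M`, so `m ∈ I^s M`. -/
theorem arp_nz {I : Ideal (MvPowerSeries (Fin n) K)} {f : MvPowerSeries (Fin n) K} (h : ARP M I f)
    (c : AdicCompletion I M) (hc : f • c = 0) : c = 0 := by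
  obtain ⟨c0, h0⟩ := h
  refine AdicCompletion.ext fun s => ?_
  obtain ⟨m, hm⟩ := AhD_exists I c (s + c0)
  have h1 : (f • c).val (s + c0) = 0 := by rw [hc]; rfl
  rw [AdicCompletion.val_smul_apply, hm, ← Submodule.Quotient.mk_smul,
    Submodule.Quotient.mk_eq_zero] at h1
  rw [AhD_val_le I c (Nat.le_add_right s c0) hm, AdicCompletion.val_zero_apply,
    Submodule.Quotient.mk_eq_zero]
  exact h0 s m h1

/-- Proof. `m_0 = 0` as `f m_0 = 0`, then `m_(k+1) = 0` inductively. -/
theorem sqd_inj {I : Ideal (MvPowerSeries (Fin n) K)} {f : MvPowerSeries (Fin n) K} (h : ARP M I f)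
    (m : ℕ → AdicCompletion I M) (hm : sqd f m = 0) : m = 0 := by
  funext j
  induction j with
  | zero =>
    have h1 := congrFun hm 0
    refine arp_nz h _ ?_
    change 0 - f • m 0 = 0 at h1
    rwa [zero_sub, neg_eq_zero] at h1
  | succ j ih =>
    have h1 := congrFun hm (j + 1)
    refine arp_nz h _ ?_
    change m j - f • m (j + 1) = 0 at h1
    rw [ih] at h1
    change 0 - f • m (j + 1) = 0 at h1
    rwa [zero_sub, neg_eq_zero] at h1

theorem AhD_pow (I : Ideal (MvPowerSeries (Fin n) K)) (f : MvPowerSeries (Fin n) K) (s : ℕ) :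
    (I ⊔ Ideal.span {f}) ^ s ≤ I ^ s ⊔ Ideal.span {f} := by
  induction s with
  | zero =>
    rw [pow_zero, pow_zero]
    exact le_sup_left
  | succ s ih =>
    rw [pow_succ, pow_succ]
    refine (Ideal.mul_mono_left ih).trans ?_
    rw [Ideal.sup_mul, Ideal.mul_sup]
    refine sup_le (sup_le le_sup_left ?_) ?_
    · exact Ideal.mul_le_right.trans le_sup_right
    · exact Ideal.mul_le_left.trans le_sup_right

/-- Elements of `(I + (f))^s M` are in `I^s M + f M`. -/
theorem sup_pow_le (I : Ideal (MvPowerSeries (Fin n) K)) (f : MvPowerSeries (Fin n) K) (s : ℕ)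
    {x : M} (h : x ∈ ((I ⊔ Ideal.span {f}) ^ s • ⊤ : Submodule (MvPowerSeries (Fin n) K) M)) :
    ∃ (y : M) (z : M), z ∈ (I ^ s • ⊤ : Submodule (MvPowerSeries (Fin n) K) M) ∧ x = z + f • y := by
  have h1 : x ∈ ((I ^ s ⊔ Ideal.span {f}) • ⊤ : Submodule (MvPowerSeries (Fin n) K) M) :=
    Submodule.smul_mono_left (AhD_pow I f s) h
  rw [Submodule.sup_smul, Submodule.mem_sup] at h1
  obtain ⟨z, hz, w, hw, hzw⟩ := h1
  rw [Submodule.ideal_span_singleton_smul, Submodule.mem_smul_pointwise_iff_exists] at hw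
  obtain ⟨y, -, hy⟩ := hw
  exact ⟨y, z, hz, by rw [← hzw, ← hy]⟩

/-- Proof. For `s ≥ 1` let `m_j` (`j < s`) represent `b_j` modulo `I^s`; `Σ_(j<s) f^j m_j ∈ J^s M` (`tsm_val_mk`, `J = I + (f)`), so by `sup_pow_le` `m_0 = f y_s + z_s`, `z_s ∈ I^s M`. So there are `y_s ∈ M` (all `s`) such that `f y_s` represents `b_0` modulo `I^s`. `f (y_(s+1) - y_s) ∈ I^s M`, so with the constant `c` of `hI` `y_(s+1) - y_s ∈ I^(s-c) M` for `s ≥ c`; `Y_s = y_(s+c)` is an adic Cauchy sequence (`AdicCompletion.AdicCauchySequence.mk`), and `f • (its class) = b_0`. -/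
theorem tsm_ker0 {I : Ideal (MvPowerSeries (Fin n) K)} {f : MvPowerSeries (Fin n) K}
    (hI : ARP M I f) (h : I ≤ I ⊔ Ideal.span {f}) (hf : f ∈ I ⊔ Ideal.span {f})
    (b : ℕ → AdicCompletion I M) (hb : tsm M h hf b = 0) :
    ∃ y : AdicCompletion I M, b 0 = f • y := by
  obtain ⟨c0, hc0⟩ := hI
  have hex : ∀ s : ℕ, ∃ y : M, (b 0).val s = Submodule.Quotient.mk (f • y) := by
    intro s
    rcases Nat.eq_zero_or_pos s with hs | hs
    · obtain ⟨m, hm⟩ := AhD_exists I (b 0) s
      refine ⟨0, ?_⟩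
      rw [hm, Submodule.Quotient.eq, hs, pow_zero, Submodule.one_smul]
      exact Submodule.mem_top
    · choose m hm using fun j => AhD_exists I (b j) s
      have h1 := AhD_val_mk h hf b s m fun j _ => hm j
      rw [hb] at h1
      have h2 : (0 : AdicCompletion (I ⊔ Ideal.span {f}) M).val s = 0 := rfl
      rw [h2] at h1
      have h3 := (Submodule.Quotient.mk_eq_zero _).1 h1.symm
      obtain ⟨y, z, hz, hyz⟩ := sup_pow_le I f s h3
      obtain ⟨t, rfl⟩ : ∃ t, s = t + 1 := ⟨s - 1, by omega⟩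
      have h4 : ∑ j ∈ Finset.range (t + 1), f ^ j • m j =
          f • (∑ j ∈ Finset.range t, f ^ j • m (j + 1)) + m 0 := by
        rw [Finset.sum_range_succ', pow_zero, one_smul, Finset.smul_sum]
        congr 1
        refine Finset.sum_congr rfl fun j _ => ?_
        rw [smul_smul, pow_succ']
      refine ⟨y - ∑ j ∈ Finset.range t, f ^ j • m (j + 1), ?_⟩
      rw [hm 0, Submodule.Quotient.eq]
      have h5 : m 0 - f • (y - ∑ j ∈ Finset.range t, f ^ j • m (j + 1)) = z := by
        rw [h4] at hyz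
        rw [smul_sub, sub_sub_eq_add_sub, add_comm (m 0), hyz, add_sub_cancel_right]
      rw [h5]
      exact hz
  choose y hy using hex
  have hstep : ∀ s : ℕ, y (s + c0) ≡ y (s + 1 + c0) [SMOD (I ^ s • ⊤ :
      Submodule (MvPowerSeries (Fin n) K) M)] := by
    intro s
    rw [SModEq.sub_mem]
    apply hc0
    rw [smul_sub, ← Submodule.Quotient.eq, ← hy (s + c0)]
    exact AhD_val_le I (b 0) (by omega) (hy (s + 1 + c0))
  refine ⟨AdicCompletion.mk I M (AdicCompletion.AdicCauchySequence.mk I M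
    (fun s => y (s + c0)) hstep), ?_⟩
  refine AdicCompletion.ext fun s => ?_
  rw [AdicCompletion.val_smul_apply, AhD_val_le I (b 0) (Nat.le_add_right s c0) (hy (s + c0)),
    Submodule.Quotient.mk_smul]
  rfl

/-- Shifting a sequence multiplies the sum by `f`. -/
theorem AhD_cons {I J : Ideal (MvPowerSeries (Fin n) K)} (h : I ≤ J)
    {f : MvPowerSeries (Fin n) K} (hf : f ∈ J) (c d : ℕ → AdicCompletion I M) (h0 : d 0 = 0)
    (h1 : ∀ j, d (j + 1) = c j) : tsm M h hf d = f • tsm M h hf c := by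
  refine AdicCompletion.ext fun s => ?_
  choose m hm using fun j => AhD_exists I (c j) s
  have h2 := AhD_val_mk h hf c s m fun j _ => hm j
  have h3 := AhD_val_mk h hf d s (fun j => Nat.casesOn j 0 m) (by
    intro j _
    cases j with
    | zero => rw [h0]; rfl
    | succ j => rw [h1]; exact hm j)
  rw [AdicCompletion.val_smul_apply, h2, h3, ← Submodule.Quotient.mk_smul, Submodule.Quotient.eq]
  cases s with
  | zero =>
    rw [Finset.sum_range_zero, Finset.sum_range_zero, smul_zero, sub_zero]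
    exact Submodule.zero_mem _
  | succ t =>
    have h4 : ∑ j ∈ Finset.range (t + 1), f ^ j • (Nat.casesOn j 0 m : M) =
        ∑ j ∈ Finset.range t, f ^ (j + 1) • m j := by
      rw [Finset.sum_range_succ']
      change ∑ j ∈ Finset.range t, f ^ (j + 1) • m j + f ^ 0 • (0 : M) = _
      rw [smul_zero, add_zero]
    have h5 : f • ∑ j ∈ Finset.range (t + 1), f ^ j • m j =
        ∑ j ∈ Finset.range t, f ^ (j + 1) • m j + f ^ (t + 1) • m t := by
      rw [Finset.sum_range_succ, smul_add, Finset.smul_sum, smul_smul, pow_succ']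
      congr 1
      refine Finset.sum_congr rfl fun j _ => ?_
      rw [smul_smul, pow_succ']
    rw [h4, h5, sub_add_cancel_left]
    exact Submodule.neg_mem _ (Submodule.smul_mem_smul (Ideal.pow_mem_pow hf _) trivial)

theorem AhD_tsm_sqd {I J : Ideal (MvPowerSeries (Fin n) K)} (h : I ≤ J)
    {f : MvPowerSeries (Fin n) K} (hf : f ∈ J) (m : ℕ → AdicCompletion I M) :
    tsm M h hf (sqd f m) = 0 := by
  let _ : Module K M := Module.compHom M (C : K →+* MvPowerSeries (Fin n) K)
  have _ : IsScalarTower K (MvPowerSeries (Fin n) K) M := by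
    refine ⟨fun x y z => ?_⟩
    rw [MvPowerSeries.smul_eq_C_mul, mul_smul]
    rfl
  exact tsm_sqd h hf m

/-- Proof. `tsm b = b_0 + f (tsm (shift b))` where `b_0` is mapped to the `J`-completion. If `b_0 = - f m_0` then `f • tsm (b_1 - m_0, b_2, ..) = tsm b = 0`, so `tsm (b_1 - m_0, b_2, ..) = 0` by `arp_nz` for `J`. Iterate with `tsm_ker0`: choose `m_0, m_1, ..` recursively with `tsm (b_(k+1) - m_k, b_(k+2), ..) = 0` and `b_(k+1) - m_k = - f m_(k+1)`. -/
theorem tsm_ker {I : Ideal (MvPowerSeries (Fin n) K)} {f : MvPowerSeries (Fin n) K}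
    (hI : ARP M I f) (hJ : ARP M (I ⊔ Ideal.span {f}) f) (h : I ≤ I ⊔ Ideal.span {f})
    (hf : f ∈ I ⊔ Ideal.span {f}) (b : ℕ → AdicCompletion I M) (hb : tsm M h hf b = 0) :
    ∃ m : ℕ → AdicCompletion I M, b = sqd f m := by
  have hstep : ∀ b' : {b' : ℕ → AdicCompletion I M // tsm M h hf b' = 0},
      ∃ (m : AdicCompletion I M) (b'' : {b' : ℕ → AdicCompletion I M // tsm M h hf b' = 0}),
        b'.1 0 = -(f • m) ∧ b''.1 0 = b'.1 1 - m ∧ ∀ j, b''.1 (j + 1) = b'.1 (j + 2) := by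
    rintro ⟨b', hb'⟩
    obtain ⟨y, hy⟩ := tsm_ker0 hI h hf b' hb'
    obtain ⟨c, hc0, hc1⟩ : ∃ c : ℕ → AdicCompletion I M, c 0 = b' 1 - -y ∧
        ∀ j, c (j + 1) = b' (j + 2) :=
      ⟨fun j => Nat.casesOn j (b' 1 - -y) fun j => b' (j + 2), rfl, fun _ => rfl⟩
    obtain ⟨d, hd0, hd1⟩ : ∃ d : ℕ → AdicCompletion I M, d 0 = 0 ∧ ∀ j, d (j + 1) = c j :=
      ⟨fun j => Nat.casesOn j 0 c, rfl, fun _ => rfl⟩
    have h1 : b' = d + sqd f (fun j => Nat.casesOn j (-y) fun _ => 0) := by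
      funext j
      rw [Pi.add_apply]
      match j with
      | 0 =>
        change b' 0 = d 0 + (0 - f • -y)
        rw [hd0, hy, smul_neg, sub_neg_eq_add, zero_add, zero_add]
      | 1 =>
        change b' 1 = d (0 + 1) + (-y - f • (0 : AdicCompletion I M))
        rw [hd1, hc0, smul_zero, sub_zero, sub_add_cancel]
      | (j + 2) =>
        change b' (j + 2) = d (j + 1 + 1) + (0 - f • (0 : AdicCompletion I M))
        rw [hd1, hc1, smul_zero, sub_zero, add_zero]
    have h2 : tsm M h hf c = 0 := by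
      refine arp_nz hJ _ ?_
      rw [← AhD_cons h hf c d hd0 hd1]
      have h3 := hb'
      rw [h1, map_add, AhD_tsm_sqd, add_zero] at h3
      exact h3
    refine ⟨-y, ⟨c, h2⟩, ?_, hc0, hc1⟩
    rw [smul_neg, neg_neg]
    exact hy
  choose m nxt h1 h2 h3 using hstep
  obtain ⟨B, hB0, hB1⟩ : ∃ B : ℕ → {b' : ℕ → AdicCompletion I M // tsm M h hf b' = 0},
      B 0 = ⟨b, hb⟩ ∧ ∀ k, B (k + 1) = nxt (B k) :=
    ⟨fun k => Nat.rec ⟨b, hb⟩ (fun _ x => nxt x) k, rfl, fun _ => rfl⟩
  have hBj : ∀ k j, (B k).1 (j + 1) = b (k + j + 1) := by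
    intro k
    induction k with
    | zero =>
      intro j
      rw [hB0, zero_add]
    | succ k ih =>
      intro j
      rw [hB1, h3, ih (j + 1)]
      congr 1
      omega
  refine ⟨fun k => m (B k), ?_⟩
  funext j
  cases j with
  | zero =>
    change b 0 = 0 - f • m (B 0)
    rw [zero_sub, ← h1, hB0]
  | succ k =>
    change b (k + 1) = m (B k) - f • m (B (k + 1))
    have h4 := h1 (B (k + 1))
    have h5 : (B (k + 1)).1 0 = (B k).1 1 - m (B k) := by rw [hB1, h2]
    have h6 : (B k).1 1 = b (k + 1) := hBj k 0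
    rw [h5, h6] at h4
    rw [sub_eq_add_neg, ← h4, add_sub_cancel]

end B5a
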