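import Pool.Agent.H.MP_b5a980_ag.AhC

set_option autoImplicit false
set_option linter.unusedSectionVars false
set_option linter.style.longLine false

/-!
Surjectivity of the summation map (MP_b5a980_ag, part D).
-/

namespace B5a

universe u v w

open MvPowerSeries

variable {n : ℕ} {K : Type u} [Field K] {M : Type v} [AddCommGroup M]
  [Module (MvPowerSeries (Fin n) K) M]

/-- Product of an element of `I^a` and an element of `I^b M`. -/
theorem AhE_smul_mem {I : Ideal (MvPowerSeries (Fin n) K)} {a b : ℕ} {r : MvPowerSeries (Fin n) K}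
    {x : M} (hr : r ∈ I ^ a) (hx : x ∈ (I ^ b • ⊤ : Submodule (MvPowerSeries (Fin n) K) M)) :
    r • x ∈ (I ^ (a + b) • ⊤ : Submodule (MvPowerSeries (Fin n) K) M) := by
  rw [pow_add, Submodule.mul_smul]
  exact Submodule.smul_mem_smul hr hx

/-- Decomposition of elements of `(I + (f))^s M`. -/
theorem sup_pow_sum (I : Ideal (MvPowerSeries (Fin n) K)) (f : MvPowerSeries (Fin n) K) (s : ℕ)
    {x : M} (h : x ∈ ((I ⊔ Ideal.span {f}) ^ s • ⊤ : Submodule (MvPowerSeries (Fin n) K) M)) :
    ∃ z : ℕ → M, (∀ j, j ≤ s → z j ∈ (I ^ (s - j) • ⊤ : Submodule (MvPowerSeries (Fin n) K) M)) ∧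
      x = ∑ j ∈ Finset.range (s + 1), f ^ j • z j := by
  induction s generalizing x with
  | zero =>
    refine ⟨fun _ => x, ?_, ?_⟩
    · intro j _
      rw [Nat.zero_sub, pow_zero, Ideal.one_eq_top, Submodule.top_smul]
      trivial
    · rw [zero_add, Finset.sum_range_one, pow_zero, one_smul]
  | succ s ih =>
    rw [pow_succ', Submodule.mul_smul] at h
    refine Submodule.smul_induction_on h ?_ ?_
    · intro r hr y hy
      obtain ⟨z, hz, hy'⟩ := ih hy
      obtain ⟨i, hi, g, hg, rfl⟩ := Submodule.mem_sup.1 hr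
      obtain ⟨a, rfl⟩ := Ideal.mem_span_singleton'.1 hg
      let w : ℕ → M := fun j => Nat.casesOn j 0 (fun k => a • z k)
      refine ⟨fun j => (if j ≤ s then i • z j else 0) + w j, ?_, ?_⟩
      · intro j hj
        refine Submodule.add_mem _ ?_ ?_
        · split_ifs with hjs
          · have h1 := AhE_smul_mem (a := 1) (by rw [pow_one]; exact hi) (hz j hjs)
            have h2 : 1 + (s - j) = s + 1 - j := by lia
            rwa [h2] at h1
          · exact Submodule.zero_mem _
        · cases j with
          | zero => exact Submodule.zero_mem _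
          | succ k =>
            show a • z k ∈ _
            have h2 : s + 1 - (k + 1) = s - k := by lia
            rw [h2]
            exact Submodule.smul_mem _ _ (hz k (by lia))
      · have e1 : ∑ j ∈ Finset.range (s + 1 + 1), f ^ j • (if j ≤ s then i • z j else 0) = i • y := by
          rw [Finset.sum_range_succ, if_neg (by lia), smul_zero, add_zero, hy', Finset.smul_sum]
          refine Finset.sum_congr rfl fun j hj => ?_
          rw [if_pos (by have := Finset.mem_range.1 hj; lia), smul_comm]
        have e2 : ∑ j ∈ Finset.range (s + 1 + 1), f ^ j • w j = (a * f) • y := by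
          rw [Finset.sum_range_succ', hy', Finset.smul_sum]
          have h0 : f ^ 0 • w 0 = 0 := smul_zero _
          rw [h0, add_zero]
          refine Finset.sum_congr rfl fun j _ => ?_
          show f ^ (j + 1) • (a • z j) = _
          rw [smul_smul, smul_smul]
          congr 1
          ring
        rw [add_smul, ← e1, ← e2, ← Finset.sum_add_distrib]
        exact Finset.sum_congr rfl fun j _ => (smul_add _ _ _).symm
    · rintro y y' ⟨z, hz, rfl⟩ ⟨z', hz', rfl⟩
      refine ⟨fun j => z j + z' j, fun j hj => Submodule.add_mem _ (hz j hj) (hz' j hj), ?_⟩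
      rw [← Finset.sum_add_distrib]
      exact Finset.sum_congr rfl fun j _ => (smul_add _ _ _).symm

/-- Reindexing of a triangular sum. -/
theorem AhE_tri (F : ℕ → ℕ → M) (N : ℕ) :
    ∑ t ∈ Finset.range N, ∑ j ∈ Finset.range (t + 1), F t j =
      ∑ j ∈ Finset.range N, ∑ s ∈ Finset.range (N - j), F (j + s) j := by
  rw [Finset.sum_comm' (t' := Finset.range N) (s' := fun j => Finset.Ico j N)]
  · refine Finset.sum_congr rfl fun j _ => ?_
    rw [Finset.sum_Ico_eq_sum_range]
  · intro t j
    simp only [Finset.mem_range, Finset.mem_Ico]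
    lia

/-- Values of the summation map on represented elements. -/
theorem AhE_val_mk {I J : Ideal (MvPowerSeries (Fin n) K)} (h : I ≤ J) {f : MvPowerSeries (Fin n) K}
    (hf : f ∈ J) (b : ℕ → AdicCompletion I M) (s : ℕ) (m : ℕ → M)
    (hm : ∀ j, (b j).val s = Submodule.Quotient.mk (m j)) :
    (tsm M h hf b).val s = Submodule.Quotient.mk (∑ j ∈ Finset.range s, f ^ j • m j) := by
  have h1 : (tsm M h hf b).val s =
      ∑ j ∈ Finset.range s, f ^ j • qfac M h s ((b j).val s) := rfl
  rw [h1, ← Submodule.mkQ_apply, map_sum]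
  refine Finset.sum_congr rfl fun j _ => ?_
  rw [hm j, map_smul]
  rfl

/-- Surjectivity of the summation map. -/
theorem tsm_surj {I : Ideal (MvPowerSeries (Fin n) K)} {f : MvPowerSeries (Fin n) K}
    (h : I ≤ I ⊔ Ideal.span {f}) (hf : f ∈ I ⊔ Ideal.span {f})
    (c : AdicCompletion (I ⊔ Ideal.span {f}) M) :
    ∃ b : ℕ → AdicCompletion I M, tsm M h hf b = c := by
  obtain ⟨a, rfl⟩ := AdicCompletion.mk_surjective (I ⊔ Ideal.span {f}) M c
  let a' : ℕ → M := fun N => if N = 0 then 0 else a N
  have hd : ∀ s, a' (s + 1) - a' s ∈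
      ((I ⊔ Ideal.span {f}) ^ s • ⊤ : Submodule (MvPowerSeries (Fin n) K) M) := by
    intro s
    rcases Nat.eq_zero_or_pos s with hs | hs
    · rw [hs, pow_zero, Ideal.one_eq_top, Submodule.top_smul]
      trivial
    · have h1 : a' (s + 1) = a (s + 1) := if_neg (by lia)
      have h2 : a' s = a s := if_neg (by lia)
      rw [h1, h2]
      exact (Submodule.Quotient.eq _).1
        (AdicCompletion.AdicCauchySequence.mk_eq_mk (Nat.le_succ s) a)
  choose z hz hzs using fun s => sup_pow_sum I f s (hd s)
  have hN : ∀ N, a' N = ∑ j ∈ Finset.range N, ∑ s ∈ Finset.range (N - j),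
      f ^ j • z (j + s) j := by
    intro N
    rw [← AhE_tri (fun t j => f ^ j • z t j) N, ← Finset.sum_congr rfl fun s _ => hzs s,
      Finset.sum_range_sub]
    exact (sub_zero _).symm
  have hC : ∀ j N, (∑ s ∈ Finset.range N, z (j + s) j) ≡ (∑ s ∈ Finset.range (N + 1), z (j + s) j)
      [SMOD (I ^ N • ⊤ : Submodule (MvPowerSeries (Fin n) K) M)] := by
    intro j N
    rw [SModEq.comm, SModEq.sub_mem, Finset.sum_range_succ, add_sub_cancel_left]
    have h1 := hz (j + N) j (by lia)
    rwa [Nat.add_sub_cancel_left] at h1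
  refine ⟨fun j => AdicCompletion.mk I M
    (AdicCompletion.AdicCauchySequence.mk I M (fun N => ∑ s ∈ Finset.range N, z (j + s) j)
      (hC j)), ?_⟩
  refine AdicCompletion.ext fun N => ?_
  rw [AhE_val_mk h hf _ N (fun j => ∑ s ∈ Finset.range N, z (j + s) j) fun j => rfl]
  show _ = Submodule.Quotient.mk (a N)
  have ha : (Submodule.Quotient.mk (a N) : M ⧸ ((I ⊔ Ideal.span {f}) ^ N • ⊤ :
      Submodule (MvPowerSeries (Fin n) K) M)) = Submodule.Quotient.mk (a' N) := by
    rcases Nat.eq_zero_or_pos N with hs | hs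
    · subst hs
      rw [Submodule.Quotient.eq, pow_zero, Ideal.one_eq_top, Submodule.top_smul]
      trivial
    · have h1 : a' N = a N := if_neg (by lia)
      rw [h1]
  rw [ha, Submodule.Quotient.eq, hN, ← Finset.sum_sub_distrib]
  refine Submodule.sum_mem _ fun j hj => ?_
  have hj' := Finset.mem_range.1 hj
  rw [Finset.smul_sum, ← Finset.sum_sdiff (Finset.range_subset_range.2 (Nat.sub_le N j)),
    add_sub_cancel_right]
  refine Submodule.sum_mem _ fun s hs => ?_
  rw [Finset.mem_sdiff, Finset.mem_range, Finset.mem_range] at hs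
  have h1 := hz (j + s) j (by lia)
  rw [Nat.add_sub_cancel_left] at h1
  have h2 : z (j + s) j ∈ ((I ⊔ Ideal.span {f}) ^ s • ⊤ :
      Submodule (MvPowerSeries (Fin n) K) M) :=
    Submodule.smul_mono_left (Ideal.pow_right_mono h s) h1
  have h3 := AhE_smul_mem (Ideal.pow_mem_pow hf j) h2
  exact Submodule.smul_mono_left (Ideal.pow_le_pow_right (by lia)) h3

end B5a
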