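import Mathlib

set_option autoImplicit false
set_option linter.unusedSectionVars false
set_option linter.style.longLine false

/-!
Powers of the maximal ideal of `K[[x_1..x_n]]` described by coefficients: definitions (MP_b5a980_ag).
-/

namespace B5a

universe u v w

open MvPowerSeries

instance instIsDomainPS (n : ℕ) (K : Type u) [Field K] : IsDomain (MvPowerSeries (Fin n) K) :=
  NoZeroDivisors.to_isDomain _

/-- `mI n K e`: the `e`-th power of the maximal ideal of `K[[x_1..x_n]]`:
the series all of whose coefficients in degrees `< e` vanish. -/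
def mI (n : ℕ) (K : Type u) [Field K] (e : ℕ) : Ideal (MvPowerSeries (Fin n) K) where
  carrier := {g | ∀ β : Fin n →₀ ℕ, β.degree < e → coeff β g = 0}
  add_mem' := by
    intro a b ha hb β hβ
    rw [map_add, ha β hβ, hb β hβ, add_zero]
  zero_mem' := by
    intro β _
    simp
  smul_mem' := by
    intro c x hx β hβ
    rw [smul_eq_mul, coeff_mul]
    refine Finset.sum_eq_zero fun p hp => ?_
    have h2 : p.1 + p.2 = β := by simpa using hp
    have h3 : p.2.degree < e := by
      have : p.1.degree + p.2.degree = β.degree := by rw [← h2, map_add]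
      omega
    rw [hx p.2 h3, mul_zero]

variable {n : ℕ} {K : Type u} [Field K]

theorem mem_mI {e : ℕ} {g : MvPowerSeries (Fin n) K} :
    g ∈ mI n K e ↔ ∀ β : Fin n →₀ ℕ, β.degree < e → coeff β g = 0 := Iff.rfl

theorem mI_zero : mI n K 0 = ⊤ := by
  ext g
  simp [mem_mI]

theorem mI_anti {e e' : ℕ} (h : e ≤ e') : mI n K e' ≤ mI n K e := by
  intro g hg β hβ
  exact hg β (lt_of_lt_of_le hβ h)

/-- homogeneous component of degree `e` (used for the Euler field). -/
noncomputable def homog (e : ℕ) (g : MvPowerSeries (Fin n) K) : MvPowerSeries (Fin n) K :=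
  ∑ β ∈ Finset.finsuppAntidiag Finset.univ e, monomial β (coeff β g)

end B5a
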