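import Pool.Agent.H.MP_b5a980_ag.Conn0
import Pool.Agent.H.MP_b5a980_ag.MI0

set_option autoImplicit false
set_option linter.unusedSectionVars false
set_option linter.style.longLine false

/-!
Free modules over the ring of differential operators: definitions (MP_b5a980_ag, part B).
-/

namespace B5a

universe u v w

open MvPowerSeries

/-- The free module `D^t`; `(j, γ) ↦ r` stands for `r ∂^γ e_j`. -/
abbrev Pm (n : ℕ) (K : Type u) [Field K] (t : ℕ) :=
  (Fin t × (Fin n →₀ ℕ)) →₀ MvPowerSeries (Fin n) K

variable {n : ℕ} {K : Type u} [Field K]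

/-- left multiplication by `∂_l` : `∂_l (r ∂^γ e_j) = (∂_l r) ∂^γ e_j + r ∂^(γ + e_l) e_j`. -/
noncomputable def pmnab (n : ℕ) (K : Type u) [Field K] (t : ℕ) (l : Fin n) :
    Pm n K t →ₗ[K] Pm n K t :=
  Finsupp.mapRange.linearMap ((pderiv K l : Derivation K _ _) :
    MvPowerSeries (Fin n) K →ₗ[K] MvPowerSeries (Fin n) K) +
  Finsupp.lmapDomain (MvPowerSeries (Fin n) K) K
    (fun p : Fin t × (Fin n →₀ ℕ) => (p.1, p.2 + Finsupp.single l 1))

theorem Pm0_pderiv_comm (i j : Fin n) (r : MvPowerSeries (Fin n) K) :
    pderiv K i (pderiv K j r) = pderiv K j (pderiv K i r) := by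
  by_cases hij : i = j
  · rw [hij]
  · ext β
    rw [coeff_pderiv, coeff_pderiv, coeff_pderiv, coeff_pderiv]
    have h1 : (β + (Finsupp.single i 1 : Fin n →₀ ℕ)) j = β j := by
      simp [hij]
    have h2 : (β + (Finsupp.single j 1 : Fin n →₀ ℕ)) i = β i := by
      simp [Ne.symm hij]
    have h3 : β + (Finsupp.single i 1 : Fin n →₀ ℕ) + Finsupp.single j 1 =
        β + Finsupp.single j 1 + Finsupp.single i 1 := add_right_comm _ _ _
    rw [h1, h2, h3]
    ring

theorem Pm0_single (t : ℕ) (l : Fin n) (p : Fin t × (Fin n →₀ ℕ)) (r : MvPowerSeries (Fin n) K) :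
    pmnab n K t l (Finsupp.single p r) =
      Finsupp.single p (pderiv K l r) + Finsupp.single (p.1, p.2 + Finsupp.single l 1) r := by
  unfold pmnab
  rw [LinearMap.add_apply]
  congr 1
  · simp [Finsupp.mapRange.linearMap_apply]
  · simp [Finsupp.lmapDomain_apply, Finsupp.mapDomain_single]

/-- The connection on the free module. -/
noncomputable def pmc (n : ℕ) (K : Type u) [Field K] (t : ℕ) : Conn n K (Pm n K t) where
  nab := pmnab n K t
  leib := by
    intro i r m
    induction m using Finsupp.induction_linear with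
    | zero => simp
    | add x y hx hy =>
      rw [smul_add, map_add, hx, hy, map_add, smul_add, smul_add]
      abel
    | single p s =>
      rw [Finsupp.smul_single, Pm0_single, Pm0_single, smul_add, Finsupp.smul_single,
        Finsupp.smul_single, Finsupp.smul_single]
      simp only [smul_eq_mul, Derivation.leibniz]
      rw [Finsupp.single_add, mul_comm s (pderiv K i r)]
      abel
  comm := by
    intro i j m
    induction m using Finsupp.induction_linear with
    | zero => simp
    | add x y hx hy => rw [map_add, map_add, hx, hy, map_add, map_add]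
    | single p s =>
      rw [Pm0_single, Pm0_single, map_add, map_add, Pm0_single, Pm0_single, Pm0_single,
        Pm0_single, Pm0_pderiv_comm i j s]
      simp only []
      rw [add_right_comm p.2 (Finsupp.single j 1)]
      abel

/-- the canonical generators -/
noncomputable def pe (n : ℕ) (K : Type u) [Field K] (t : ℕ) (j : Fin t) : Pm n K t :=
  Finsupp.single (j, 0) 1

/-- The filtration of the free module with `e_j` in degree `a_j`: the coefficient of `∂^γ e_j` lies
in `m^(i - a_j + |γ|)`. -/
def PV {t : ℕ} (a : Fin t → ℤ) (i : ℤ) : Submodule (MvPowerSeries (Fin n) K) (Pm n K t) where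
  carrier := {φ | ∀ p : Fin t × (Fin n →₀ ℕ), φ p ∈ mI n K (i - a p.1 + p.2.degree).toNat}
  add_mem' := by
    intro x y hx hy p
    exact Submodule.add_mem _ (hx p) (hy p)
  zero_mem' := by
    intro p
    exact Submodule.zero_mem _
  smul_mem' := by
    intro r x hx p
    exact Submodule.smul_mem _ r (hx p)

/-- The covering map `D^t → M` attached to elements `u_j` of `M`. -/
noncomputable def cov {M : Type v} [AddCommGroup M] [Module (MvPowerSeries (Fin n) K) M] [Module K M]
    [IsScalarTower K (MvPowerSeries (Fin n) K) M] (C : Conn n K M) {t : ℕ} (u : Fin t → M) : Pm n K t →ₗ[MvPowerSeries (Fin n) K] M :=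
  Finsupp.linearCombination _ (fun p : Fin t × (Fin n →₀ ℕ) => C.pw p.2 (u p.1))

end B5a
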