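import Pool.Agent.H.MP_b5a980_ag.ConnA
import Pool.Agent.H.MP_b5a980_ag.Pm0

set_option autoImplicit false
set_option linter.unusedSectionVars false
set_option linter.style.longLine false

/-!
Free modules: the covering map (MP_b5a980_ag, part B).
-/

namespace B5a

universe u v w

open MvPowerSeries

variable {n : ℕ} {K : Type u} [Field K] {M : Type v} [AddCommGroup M]
  [Module (MvPowerSeries (Fin n) K) M] [Module K M] [IsScalarTower K (MvPowerSeries (Fin n) K) M]

theorem pmnab_single (t : ℕ) (l : Fin n) (j : Fin t) (γ : Fin n →₀ ℕ) (r : MvPowerSeries (Fin n) K) :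
    (pmc n K t).nab l (Finsupp.single (j, γ) r) =
      Finsupp.single (j, γ) (pderiv K l r) + Finsupp.single (j, γ + Finsupp.single l 1) r := by
  change pmnab n K t l (Finsupp.single (j, γ) r) = _
  unfold pmnab
  rw [LinearMap.add_apply, Finsupp.mapRange.linearMap_apply, Finsupp.mapRange_single,
    Finsupp.lmapDomain_apply, Finsupp.mapDomain_single]
  rfl

/-- Proof. Induction on the degree of `γ` with `pmnab_single` (`∂_l 1 = 0`). -/
theorem pm_pw (t : ℕ) (j : Fin t) (γ : Fin n →₀ ℕ) :
    (pmc n K t).pw γ (pe n K t j) = Finsupp.single (j, γ) 1 := by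
  induction hd : γ.degree generalizing γ with
  | zero =>
    have h0 : γ = 0 := by
      by_contra h
      obtain ⟨i, γ', -, h2⟩ := Conn.exists_single_of_ne_zero h
      omega
    rw [h0, Conn.pw_zero]
    rfl
  | succ d ih =>
    have h : γ ≠ 0 := by
      rintro rfl
      simp at hd
    obtain ⟨i, γ', h1, h2⟩ := Conn.exists_single_of_ne_zero h
    rw [h1, ← Conn.nab_pw, ih γ' (by omega), pmnab_single]
    have h3 : pderiv K i (1 : MvPowerSeries (Fin n) K) = 0 := Derivation.map_one_eq_zero _
    rw [h3, Finsupp.single_zero, zero_add]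

/-- Proof. Check on `Finsupp.single` with `leib` for `C` and `nab_pw`. -/
theorem cov_nab (C : Conn n K M) {t : ℕ} (u : Fin t → M) (l : Fin n) (φ : Pm n K t) :
    cov C u ((pmc n K t).nab l φ) = C.nab l (cov C u φ) := by
  induction φ using Finsupp.induction_linear with
  | zero => simp
  | add f g hf hg => rw [map_add, map_add, map_add, map_add, hf, hg]
  | single p r =>
    obtain ⟨j, γ⟩ := p
    rw [pmnab_single, map_add]
    unfold cov
    rw [Finsupp.linearCombination_single, Finsupp.linearCombination_single,
      Finsupp.linearCombination_single, C.leib, C.nab_pw]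

theorem cov_pe (C : Conn n K M) {t : ℕ} (u : Fin t → M) (j : Fin t) :
    cov C u (pe n K t j) = u j := by
  unfold cov pe
  rw [Finsupp.linearCombination_single, one_smul, C.pw_zero]

end B5a
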