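import Pool.Agent.H.MP_b5a980_ag.MIB
import Pool.Agent.H.MP_b5a980_ag.PmA

set_option autoImplicit false
set_option linter.unusedSectionVars false
set_option linter.style.longLine false

/-!
Artin-Rees: finitely many symbols (MP_b5a980_ag, B1).
-/

namespace B5a

universe u v w

open MvPowerSeries

variable {n : ℕ} {K : Type u} [Field K]

/-- All terms have order at most `j` (as an integer; `j = -1` means zero). -/
def OrdLe {t : ℕ} (j : ℤ) (φ : Pm n K t) : Prop :=
  ∀ p : Fin t × (Fin n →₀ ℕ), j < p.2.degree → φ p = 0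

/-- Laurent polynomials in `T` with coefficients in `R[ξ]`. -/
abbrev ArA_L (n : ℕ) (K : Type u) [Field K] :=
  AddMonoidAlgebra (MvPowerSeries (Fin n) K) (ℤ × (Fin n →₀ ℕ))

/-- The monomials `X^β Ξ^γ t^c`. -/
noncomputable def ArA_Mon (n : ℕ) (K : Type u) [Field K] : Submonoid (ArA_L n K) where
  carrier := {f | ∃ (β γ : Fin n →₀ ℕ) (c : ℕ),
    f = AddMonoidAlgebra.single ((β.degree : ℤ) - γ.degree - c, γ) (monomial β 1)}
  one_mem' := by
    refine ⟨0, 0, 0, ?_⟩
    rw [AddMonoidAlgebra.one_def, MvPowerSeries.monomial_zero_one]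
    simp
    rfl
  mul_mem' := by
    rintro _ _ ⟨β, γ, c, rfl⟩ ⟨β', γ', c', rfl⟩
    refine ⟨β + β', γ + γ', c + c', ?_⟩
    rw [AddMonoidAlgebra.single_mul_single, MvPowerSeries.monomial_mul_monomial, one_mul,
      Prod.mk_add_mk, map_add, map_add]
    congr 2
    push_cast
    ring

/-- The generators `X_l`, `Ξ_l`, `t`. -/
noncomputable def ArA_gens (n : ℕ) (K : Type u) [Field K] : Set (ArA_L n K) :=
  (Set.range fun l : Fin n => AddMonoidAlgebra.single ((1 : ℤ), (0 : Fin n →₀ ℕ)) (X l)) ∪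
    (Set.range fun l : Fin n => AddMonoidAlgebra.single ((-1 : ℤ), (Finsupp.single l 1 : Fin n →₀ ℕ)) 1) ∪
    {AddMonoidAlgebra.single ((-1 : ℤ), (0 : Fin n →₀ ℕ)) 1}

/-- The algebra generated by `X_l`, `Ξ_l`, `t`. -/
noncomputable def ArA_S (n : ℕ) (K : Type u) [Field K] :
    Subalgebra (MvPowerSeries (Fin n) K) (ArA_L n K) :=
  Algebra.adjoin _ (ArA_gens n K)

theorem ArA_noeth : IsNoetherianRing (ArA_S n K) := by
  refine isNoetherianRing_of_fg (Subalgebra.fg_def.2 ⟨ArA_gens n K, ?_, rfl⟩)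
  exact ((Set.finite_range _).union (Set.finite_range _)).union (Set.finite_singleton _)

theorem ArA_noeth_pi (S : Type*) [CommRing S] [IsNoetherianRing S] (t : ℕ) :
    IsNoetherian S (Fin t → S) := inferInstance

theorem ArA_gens_le : ArA_gens n K ⊆ (ArA_Mon n K : Set (ArA_L n K)) := by
  rintro f ((⟨l, rfl⟩ | ⟨l, rfl⟩) | hf)
  · refine ⟨Finsupp.single l 1, 0, 0, ?_⟩
    simp [X_def]
  · refine ⟨0, Finsupp.single l 1, 0, ?_⟩
    rw [MvPowerSeries.monomial_zero_one]
    simp
  · rw [Set.mem_singleton_iff] at hf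
    refine ⟨0, 0, 1, ?_⟩
    rw [hf, MvPowerSeries.monomial_zero_one]
    simp

theorem ArA_mem_span {g : ArA_L n K} (hg : g ∈ ArA_S n K) :
    g ∈ Submodule.span (MvPowerSeries (Fin n) K) (ArA_Mon n K : Set (ArA_L n K)) := by
  have h1 : g ∈ Subalgebra.toSubmodule (ArA_S n K) := hg
  rw [ArA_S, Algebra.adjoin_eq_span] at h1
  exact Submodule.span_mono (Submonoid.closure_le.2 ArA_gens_le) h1

theorem ArA_X_mem (β : Fin n →₀ ℕ) :
    (AddMonoidAlgebra.single ((β.degree : ℤ), (0 : Fin n →₀ ℕ)) (monomial β 1) : ArA_L n K) ∈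
      ArA_S n K := by
  induction β using Finsupp.induction_linear with
  | zero =>
    have h := (ArA_S n K).one_mem
    rw [AddMonoidAlgebra.one_def] at h
    rw [MvPowerSeries.monomial_zero_one, map_zero, Nat.cast_zero]
    exact h
  | add f g hf hg =>
    have h := (ArA_S n K).mul_mem hf hg
    rw [AddMonoidAlgebra.single_mul_single, MvPowerSeries.monomial_mul_monomial, one_mul,
      Prod.mk_add_mk, add_zero] at h
    rw [map_add, Nat.cast_add]
    exact h
  | single l b =>
    have h : (AddMonoidAlgebra.single ((1 : ℤ), (0 : Fin n →₀ ℕ)) (X l) : ArA_L n K) ∈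
        ArA_S n K := Algebra.subset_adjoin (Or.inl (Or.inl ⟨l, rfl⟩))
    have h2 := (ArA_S n K).pow_mem h b
    rw [AddMonoidAlgebra.single_pow, MvPowerSeries.X_pow_eq] at h2
    convert h2 using 2
    simp

theorem ArA_Xi_mem (γ : Fin n →₀ ℕ) :
    (AddMonoidAlgebra.single (-(γ.degree : ℤ), γ) 1 : ArA_L n K) ∈ ArA_S n K := by
  induction γ using Finsupp.induction_linear with
  | zero =>
    have h := (ArA_S n K).one_mem
    rw [AddMonoidAlgebra.one_def] at h
    rw [map_zero, Nat.cast_zero, neg_zero]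
    exact h
  | add f g hf hg =>
    have h := (ArA_S n K).mul_mem hf hg
    rw [AddMonoidAlgebra.single_mul_single, one_mul, Prod.mk_add_mk] at h
    rw [map_add, Nat.cast_add, neg_add]
    exact h
  | single l b =>
    have h : (AddMonoidAlgebra.single ((-1 : ℤ), (Finsupp.single l 1 : Fin n →₀ ℕ)) 1 :
        ArA_L n K) ∈ ArA_S n K := Algebra.subset_adjoin (Or.inl (Or.inr ⟨l, rfl⟩))
    have h2 := (ArA_S n K).pow_mem h b
    rw [AddMonoidAlgebra.single_pow, one_pow] at h2
    convert h2 using 2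
    ext1 <;> simp

theorem ArA_t_mem (c : ℕ) :
    (AddMonoidAlgebra.single (-(c : ℤ), (0 : Fin n →₀ ℕ)) 1 : ArA_L n K) ∈ ArA_S n K := by
  have h : (AddMonoidAlgebra.single ((-1 : ℤ), (0 : Fin n →₀ ℕ)) 1 : ArA_L n K) ∈
      ArA_S n K := Algebra.subset_adjoin (Or.inr rfl)
  have h2 := (ArA_S n K).pow_mem h c
  rw [AddMonoidAlgebra.single_pow, one_pow] at h2
  convert h2 using 2
  ext1 <;> simp

theorem ArA_Mon_mem (β γ : Fin n →₀ ℕ) (c : ℕ) :
    (AddMonoidAlgebra.single ((β.degree : ℤ) - γ.degree - c, γ) (monomial β 1) : ArA_L n K) ∈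
      ArA_S n K := by
  have h := (ArA_S n K).mul_mem ((ArA_S n K).mul_mem (ArA_X_mem β) (ArA_Xi_mem γ)) (ArA_t_mem c)
  rw [AddMonoidAlgebra.single_mul_single, AddMonoidAlgebra.single_mul_single, Prod.mk_add_mk,
    Prod.mk_add_mk, mul_one, mul_one, zero_add, add_zero] at h
  exact h

theorem ArA_single_mem (k : ℤ) (γ : Fin n →₀ ℕ) {c : MvPowerSeries (Fin n) K}
    (hc : c ∈ mI n K (k + γ.degree).toNat) :
    (AddMonoidAlgebra.single (k, γ) c : ArA_L n K) ∈ ArA_S n K := by
  obtain ⟨e, he⟩ : ∃ e : ℕ, e = (k + γ.degree).toNat := ⟨_, rfl⟩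
  rw [← he, ← add_zero e] at hc
  obtain ⟨d, -, hd⟩ := exists_sum_mI hc
  have h1 : (AddMonoidAlgebra.single (k, γ) c : ArA_L n K) =
      ∑ β ∈ Finset.finsuppAntidiag Finset.univ e,
        d β • (AddMonoidAlgebra.single (k, γ) (monomial β 1) : ArA_L n K) := by
    rw [hd]
    have h2 : ∀ β : Fin n →₀ ℕ, (AddMonoidAlgebra.single (k, γ) (monomial β 1 * d β) : ArA_L n K) =
        d β • (AddMonoidAlgebra.single (k, γ) (monomial β 1) : ArA_L n K) := by
      intro β
      rw [AddMonoidAlgebra.smul_single, smul_eq_mul, mul_comm]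
    simp only [← h2]
    exact map_sum (AddMonoidAlgebra.singleAddHom (R := MvPowerSeries (Fin n) K) (k, γ)) _ _
  rw [h1]
  refine (ArA_S n K).sum_mem fun β hβ => (ArA_S n K).smul_mem ?_ _
  rw [MIB_mem_antidiag] at hβ
  obtain ⟨c', hc'⟩ : ∃ c' : ℕ, (c' : ℤ) = (β.degree : ℤ) - γ.degree - k := by
    refine ⟨((β.degree : ℤ) - γ.degree - k).toNat, Int.toNat_of_nonneg ?_⟩
    have : k + γ.degree ≤ (e : ℤ) := by
      rw [he]
      exact Int.self_le_toNat _
    rw [hβ]
    linarith
  have h3 := ArA_Mon_mem (K := K) β γ c'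
  rw [show (β.degree : ℤ) - γ.degree - c' = k by rw [hc']; ring] at h3
  exact h3

/-- `s` is the symbol of order `j` of `φ` in degree `i`. -/
def ArA_IsSym {t : ℕ} (a : Fin t → ℤ) (i : ℤ) (j : ℕ) (φ : Pm n K t)
    (s : Fin t → ArA_S n K) : Prop :=
  ∀ (l : Fin t) (z : ℤ × (Fin n →₀ ℕ)),
    (s l : ArA_L n K).coeff z = if z.1 = i - a l ∧ z.2.degree = j then φ (l, z.2) else 0

theorem ArA_exists_sym {t : ℕ} (a : Fin t → ℤ) (i : ℤ) (j : ℕ) {φ : Pm n K t}
    (hφ : φ ∈ (PV a i : Submodule (MvPowerSeries (Fin n) K) (Pm n K t))) :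
    ∃ s : Fin t → ArA_S n K, ArA_IsSym a i j φ s := by
  classical
  have h1 : ∀ l : Fin t, ∃ f : ArA_S n K, ∀ z : ℤ × (Fin n →₀ ℕ),
      (f : ArA_L n K).coeff z = if z.1 = i - a l ∧ z.2.degree = j then φ (l, z.2) else 0 := by
    intro l
    refine ⟨⟨∑ γ ∈ Finset.finsuppAntidiag Finset.univ j,
      (AddMonoidAlgebra.single (i - a l, γ) (φ (l, γ)) : ArA_L n K),
      (ArA_S n K).sum_mem fun γ _ => ArA_single_mem _ _ (hφ (l, γ))⟩, fun z => ?_⟩
    change (∑ γ ∈ Finset.finsuppAntidiag Finset.univ j,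
      (AddMonoidAlgebra.single (i - a l, γ) (φ (l, γ)) : ArA_L n K)).coeff z = _
    rw [AddMonoidAlgebra.coeff_sum, Finsupp.finsetSum_apply]
    simp only [AddMonoidAlgebra.coeff_single, Finsupp.single_apply]
    obtain ⟨z1, z2⟩ := z
    by_cases h2 : z1 = i - a l ∧ z2.degree = j
    · rw [if_pos h2, Finset.sum_eq_single z2]
      · rw [if_pos (by rw [h2.1])]
      · intro γ _ hγ
        rw [if_neg]
        intro h
        exact hγ (congrArg Prod.snd h)
      · intro h
        exact absurd (MIB_mem_antidiag.2 h2.2) h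
    · rw [if_neg h2]
      refine Finset.sum_eq_zero fun γ hγ => ?_
      rw [if_neg]
      intro h
      rw [MIB_mem_antidiag] at hγ
      have h3 : i - a l = z1 := congrArg Prod.fst h
      have h4 : γ = z2 := congrArg Prod.snd h
      exact h2 ⟨h3.symm, by rw [← h4]; exact hγ⟩
  choose s hs using h1
  exact ⟨s, hs⟩

/-- Top coefficients of `∂^γ w`. -/
theorem ArA_pw_top {t : ℕ} (o : ℕ) {w : Pm n K t} (hw : OrdLe (o : ℤ) w) :
    ∀ (d : ℕ) (γ : Fin n →₀ ℕ), γ.degree = d → ∀ p : Fin t × (Fin n →₀ ℕ),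
      o + d ≤ p.2.degree → (pmc n K t).pw γ w p = if γ ≤ p.2 then w (p.1, p.2 - γ) else 0 := by
  intro d
  induction d with
  | zero =>
    intro γ hγ p _
    rw [Finsupp.degree_eq_zero_iff] at hγ
    rw [hγ, Conn.pw_zero, if_pos (by simp), tsub_zero]
  | succ d ih =>
    intro γ hγ p hp
    have h0 : γ ≠ 0 := by
      rintro rfl
      simp at hγ
    obtain ⟨l, γ', h1, h2⟩ := Conn.exists_single_of_ne_zero h0
    have hγ' : γ'.degree = d := by omega
    have hz : (pmc n K t).pw γ' w p = 0 := by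
      rw [ih γ' hγ' p (by omega)]
      split_ifs with h
      · refine hw _ ?_
        have h3 : (p.2 - γ').degree + γ'.degree = p.2.degree := by
          rw [← map_add, tsub_add_cancel_of_le h]
        change (o : ℤ) < ((p.2 - γ').degree : ℤ)
        have : o < (p.2 - γ').degree := by omega
        exact_mod_cast this
      · rfl
    have hn : ∀ ψ : Pm n K t, (pmc n K t).nab l ψ p =
        pderiv K l (ψ p) + if Finsupp.single l 1 ≤ p.2 then ψ (p.1, p.2 - Finsupp.single l 1) else 0 := by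
      intro ψ
      induction ψ using Finsupp.induction_linear with
      | zero => simp
      | add f g hf hg =>
        rw [map_add, Finsupp.add_apply, hf, hg, Finsupp.add_apply, map_add]
        split_ifs
        · rw [Finsupp.add_apply]; abel
        · abel
      | single q r =>
        obtain ⟨j, δ⟩ := q
        obtain ⟨p1, p2⟩ := p
        rw [pmnab_single, Finsupp.add_apply]
        congr 1
        · classical
          rw [Finsupp.single_apply, Finsupp.single_apply]
          split_ifs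
          · rfl
          · rw [map_zero]
        · classical
          by_cases h : Finsupp.single l 1 ≤ p2
          · rw [if_pos h, Finsupp.single_apply, Finsupp.single_apply]
            have h5 : ((j, δ + Finsupp.single l 1) = (p1, p2)) ↔ ((j, δ) = (p1, p2 - Finsupp.single l 1)) := by
              rw [Prod.mk.injEq, Prod.mk.injEq]
              constructor
              · rintro ⟨h6, h7⟩
                exact ⟨h6, by rw [← h7, add_tsub_cancel_right]⟩
              · rintro ⟨h6, h7⟩
                exact ⟨h6, by rw [h7, tsub_add_cancel_of_le h]⟩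
            simp only [h5]
          · rw [if_neg h, Finsupp.single_apply, if_neg]
            intro h6
            apply h
            have h7 : δ + Finsupp.single l 1 = p2 := congrArg Prod.snd h6
            rw [← h7]
            exact le_add_self
    rw [h1, ← Conn.nab_pw, hn, hz, map_zero, zero_add]
    by_cases h : Finsupp.single l 1 ≤ p.2
    · rw [if_pos h]
      have h3 : (p.2 - Finsupp.single l 1).degree + 1 = p.2.degree := by
        have h4 := congrArg Finsupp.degree (tsub_add_cancel_of_le h)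
        rw [map_add, Finsupp.degree_single] at h4
        exact h4
      rw [ih γ' hγ' (p.1, p.2 - Finsupp.single l 1) (by
        change o + d ≤ (p.2 - Finsupp.single l 1).degree
        omega)]
      have h5 : (γ' ≤ p.2 - Finsupp.single l 1) ↔ (γ' + Finsupp.single l 1 ≤ p.2) := by
        rw [le_tsub_iff_right h]
      simp only [h5]
      rw [tsub_tsub, add_comm (Finsupp.single l 1) γ']
    · rw [if_neg h, if_neg]
      intro h6
      exact h (le_trans le_add_self h6)

/-- The elements of the algebra act on symbols by elements of the filtration. -/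
theorem ArA_act {t : ℕ} (a : Fin t → ℤ) {b : ℤ} {o : ℕ} {w : Pm n K t} (hw : OrdLe (o : ℤ) w)
    {s : Fin t → ArA_S n K} (hs : ArA_IsSym a b o w s) (i : ℤ) (j : ℕ) {g : ArA_L n K}
    (hg : g ∈ Submodule.span (MvPowerSeries (Fin n) K) (ArA_Mon n K : Set (ArA_L n K))) :
    ∃ ψ ∈ (pmc n K t).V w (i - b), ∀ p : Fin t × (Fin n →₀ ℕ), j ≤ p.2.degree →
      ψ p = if p.2.degree = j then (g * (s p.1 : ArA_L n K)).coeff (i - a p.1, p.2) else 0 := by
  induction hg using Submodule.span_induction with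
  | zero =>
    refine ⟨0, Submodule.zero_mem _, fun p _ => ?_⟩
    rw [zero_mul]
    simp
  | add x y _ _ hx hy =>
    obtain ⟨ψ, h1, h2⟩ := hx
    obtain ⟨ψ', h3, h4⟩ := hy
    refine ⟨ψ + ψ', Submodule.add_mem _ h1 h3, fun p hp => ?_⟩
    rw [Finsupp.add_apply, h2 p hp, h4 p hp, add_mul, AddMonoidAlgebra.coeff_add,
      Finsupp.add_apply]
    split_ifs
    · rfl
    · rw [add_zero]
  | smul r x _ hx =>
    obtain ⟨ψ, h1, h2⟩ := hx
    refine ⟨r • ψ, Submodule.smul_mem _ r h1, fun p hp => ?_⟩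
    rw [Finsupp.smul_apply, h2 p hp, smul_mul_assoc, AddMonoidAlgebra.coeff_smul,
      Finsupp.smul_apply]
    split_ifs
    · rfl
    · rw [smul_zero]
  | mem x hx =>
    obtain ⟨β, γ, c, rfl⟩ := hx
    have hco : ∀ p : Fin t × (Fin n →₀ ℕ),
        ((AddMonoidAlgebra.single ((β.degree : ℤ) - γ.degree - c, γ) (monomial β 1) : ArA_L n K) *
          (s p.1 : ArA_L n K)).coeff (i - a p.1, p.2) =
        if γ ≤ p.2 ∧ (β.degree : ℤ) - γ.degree - c = i - b ∧ (p.2 - γ).degree = o then
          monomial β 1 * w (p.1, p.2 - γ) else 0 := by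
      intro p
      by_cases hγ : γ ≤ p.2
      · rw [AddMonoidAlgebra.coeff_single_mul_eq_mul_coeff
          (m₂ := (i - a p.1 - ((β.degree : ℤ) - γ.degree - c), p.2 - γ))]
        · have h7 := hs p.1 (i - a p.1 - ((β.degree : ℤ) - γ.degree - c), p.2 - γ)
          rw [h7]
          by_cases h2 : (β.degree : ℤ) - γ.degree - c = i - b ∧ (p.2 - γ).degree = o
          · have h8 : i - a p.1 - ((β.degree : ℤ) - γ.degree - c) = b - a p.1 := by
              rw [h2.1]
              ring
            rw [if_pos (show i - a p.1 - ((β.degree : ℤ) - γ.degree - c) = b - a p.1 ∧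
              (p.2 - γ).degree = o from ⟨h8, h2.2⟩),
              if_pos (show γ ≤ p.2 ∧ (β.degree : ℤ) - γ.degree - c = i - b ∧
                (p.2 - γ).degree = o from ⟨hγ, h2⟩)]
          · have h9 : ¬ (i - a p.1 - ((β.degree : ℤ) - γ.degree - c) = b - a p.1 ∧
                (p.2 - γ).degree = o) := by
              rintro ⟨h3, h4⟩
              apply h2
              refine ⟨?_, h4⟩
              linarith
            rw [if_neg h9, if_neg (show ¬ (γ ≤ p.2 ∧ (β.degree : ℤ) - γ.degree - c = i - b ∧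
                (p.2 - γ).degree = o) from fun h => h2 h.2), mul_zero]
        · rintro ⟨z1, z2⟩ _
          rw [Prod.mk_add_mk, Prod.mk.injEq, Prod.mk.injEq]
          constructor
          · rintro ⟨h3, h4⟩
            refine ⟨by linarith, ?_⟩
            rw [← h4, add_tsub_cancel_left]
          · rintro ⟨h3, h4⟩
            refine ⟨by linarith, ?_⟩
            rw [h4, add_tsub_cancel_of_le hγ]
      · rw [AddMonoidAlgebra.coeff_single_mul_of_forall_add_ne, if_neg (fun h => hγ h.1)]
        rintro ⟨z1, z2⟩ h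
        rw [Prod.mk_add_mk, Prod.mk.injEq] at h
        apply hγ
        rw [← h.2]
        exact le_self_add
    by_cases hcase : (β.degree : ℤ) - γ.degree - c = i - b ∧ γ.degree + o = j
    · refine ⟨(monomial β 1 : MvPowerSeries (Fin n) K) • (pmc n K t).pw γ w,
        Submodule.subset_span ⟨β, γ, ?_, rfl⟩, fun p hp => ?_⟩
      · rw [← hcase.1]
        have : (0 : ℤ) ≤ (c : ℤ) := Int.natCast_nonneg c
        linarith
      · rw [Finsupp.smul_apply, ArA_pw_top o hw γ.degree γ rfl p (by omega), hco]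
        by_cases hγ : γ ≤ p.2
        · have h3 : (p.2 - γ).degree + γ.degree = p.2.degree := by
            rw [← map_add, tsub_add_cancel_of_le hγ]
          rw [if_pos hγ, smul_eq_mul]
          by_cases hj : p.2.degree = j
          · rw [if_pos hj, if_pos ⟨hγ, hcase.1, by omega⟩]
          · rw [if_neg hj, hw, mul_zero]
            change (o : ℤ) < ((p.2 - γ).degree : ℤ)
            have : o < (p.2 - γ).degree := by omega
            exact_mod_cast this
        · rw [if_neg hγ, smul_zero, if_neg (show ¬ (γ ≤ p.2 ∧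
            (β.degree : ℤ) - γ.degree - c = i - b ∧ (p.2 - γ).degree = o) from fun h => hγ h.1),
            ite_self]
    · refine ⟨0, Submodule.zero_mem _, fun p hp => ?_⟩
      rw [hco, Finsupp.zero_apply]
      by_cases hj : p.2.degree = j
      · rw [if_pos hj, if_neg]
        rintro ⟨h3, h4, h5⟩
        apply hcase
        refine ⟨h4, ?_⟩
        have h6 : (p.2 - γ).degree + γ.degree = p.2.degree := by
          rw [← map_add, tsub_add_cancel_of_le h3]
        omega
      · rw [if_neg hj]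

/-- Finitely many elements of a compatible filtration whose symbols generate all symbols.

Proof. Work in the module `Q = Fin t → 𝓛`, `𝓛` = Laurent polynomials in `T` over `MvPolynomial (Fin n) R` (`R = K[[x]]`, variables `ξ_1..ξ_n`), or in any model of it (for instance `(Fin t × (Fin n →₀ ℕ) × ℤ) →₀ R`). Let `𝓢 ⊆ 𝓛` be the `R`-subalgebra generated by `X_l = x_l T`, `Ξ_l = ξ_l T⁻¹` and `t = T⁻¹`; it is a finitely generated algebra over the Noetherian ring `R`, so it is Noetherian (`R` Noetherian: instance; `isNoetherianRing` of an `Algebra.FiniteType` algebra; the subalgebra is a quotient of `MvPolynomial (Fin n ⊕ Fin n ⊕ Unit) R`). For `φ` in `Pm`, `i ∈ ℤ`, `j ∈ ℕ` let `σ(i,j,φ) = Σ_(l, |γ| = j) φ(l,γ) ξ^γ T^i e_l`. The module `𝓟 = span_𝓢 {e_l T^(a_l)}` is Noetherian and contains `σ(i,j,φ)` for `φ ∈ PV a i`: a coefficient `c ∈ m^(e)`, `e = (i - a_l + j)⁺` is a sum of `c_β x^β`, `|β| = e`, and `x^β ξ^γ T^i e_l = X^β Ξ^γ t^(e - (i - a_l + j)) e_l T^(a_l)`. Let `𝓦` be the `𝓢`-span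 of the set of all `σ(i,j,w)`, `w ∈ W i`, `OrdLe j w`. It is finitely generated, so generated by finitely many elements of this set (`Submodule.fg_span_iff..` or `exists finite subset`): `σ(b_q, o_q, w_q)`. Given `φ ∈ W i`, `OrdLe j φ` (`j ≥ 0`): `σ(i,j,φ) = Σ_q g_q σ(b_q,o_q,w_q)` with `g_q ∈ 𝓢`, and every element of `𝓢` is an `R`-combination of monomials `X^β Ξ^γ t^c`, of `T`-degree `|β| - |γ| - c` and `ξ`-degree `|γ|`. Comparing the terms of `T`-degree `i` and `ξ`-degree `j` only the monomials with `|β| - |γ| - c = i - b_q`, `|γ| = j - o_q` contribute. Let `ψ = Σ_q Σ r x^β • pw γ w_q` (the same coefficients `r`, over those monomials): `|β| - |γ| ≥ i - b_q`, so `ψ ∈ ⨆ V (w q) (i - b q)`; the symbol of order `j` of `x^β pw γ w_q` is `x^β ξ^γ` times the symbol of order `o_q` of `w_q` (`pmnab_single`: the top part of `∂_l φ` is `ξ_l φ`), and its order is at most `|γ| + o_q = j`. So `φ - ψ` has order at most `j - 1`. -/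
theorem exists_symbol_gens {t : ℕ} (a : Fin t → ℤ)
    {W : ℤ → Submodule (MvPowerSeries (Fin n) K) (Pm n K t)} (hW : Compat (pmc n K t) W)
    (hle : ∀ i, W i ≤ PV a i) :
    ∃ (s : ℕ) (w : Fin s → Pm n K t) (b : Fin s → ℤ), (∀ q, w q ∈ W (b q)) ∧
      ∀ (i : ℤ) (j : ℕ) (φ : Pm n K t), φ ∈ W i → OrdLe j φ →
        ∃ ψ ∈ ⨆ q, (pmc n K t).V (w q) (i - b q), OrdLe ((j : ℤ) - 1) (φ - ψ) := by
  classical
  have _hNo : IsNoetherianRing (ArA_S n K) := ArA_noeth (n := n) (K := K)
  set Sy : Set (Fin t → ArA_S n K) :=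
    {s | ∃ (b : ℤ) (o : ℕ) (w : Pm n K t), w ∈ W b ∧ OrdLe (o : ℤ) w ∧ ArA_IsSym a b o w s} with hSy
  have hN : IsNoetherian (ArA_S n K) (Fin t → ArA_S n K) := ArA_noeth_pi (ArA_S n K) t
  have hfg : (Submodule.span (ArA_S n K) Sy).FG := IsNoetherian.noetherian _
  obtain ⟨F, hF, hspan⟩ := (Submodule.fg_span_iff_fg_span_finset_subset Sy).1 hfg
  have hd : ∀ k : Fin F.card, ∃ (b : ℤ) (o : ℕ) (w : Pm n K t), w ∈ W b ∧ OrdLe (o : ℤ) w ∧
      ArA_IsSym a b o w (F.equivFin.symm k : Fin t → ArA_S n K) := fun k =>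
    hF (F.equivFin.symm k).2
  choose b o w hw ho hsym using hd
  refine ⟨F.card, w, b, hw, fun i j φ hφ hj => ?_⟩
  obtain ⟨s, hs⟩ := ArA_exists_sym a i j (hle i hφ)
  have h1 : s ∈ Submodule.span (ArA_S n K) Sy := Submodule.subset_span ⟨i, j, φ, hφ, hj, hs⟩
  have hrange : (F : Set (Fin t → ArA_S n K)) =
      Set.range (fun k : Fin F.card => (F.equivFin.symm k : Fin t → ArA_S n K)) := by
    ext x
    constructor
    · intro hx
      exact ⟨F.equivFin ⟨x, hx⟩, by simp⟩
    · rintro ⟨k, rfl⟩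
      exact (F.equivFin.symm k).2
  rw [hspan, hrange, Submodule.mem_span_range_iff_exists_fun] at h1
  obtain ⟨g, hg⟩ := h1
  have h2 := fun k : Fin F.card => ArA_act a (ho k) (hsym k) i j (ArA_mem_span (g k).2)
  choose ψ hψ hψp using h2
  refine ⟨∑ k, ψ k, Submodule.sum_mem _ fun k _ => Submodule.mem_iSup_of_mem k (hψ k),
    fun p hp => ?_⟩
  have hp' : j ≤ p.2.degree := by
    have : (j : ℤ) - 1 < (p.2.degree : ℤ) := hp
    omega
  rw [Finsupp.sub_apply, Finsupp.finsetSum_apply]
  rw [Finset.sum_congr rfl fun k _ => hψp k p hp']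
  by_cases hpj : p.2.degree = j
  · simp only [if_pos hpj]
    have h3 := hs p.1 (i - a p.1, p.2)
    rw [if_pos ⟨rfl, hpj⟩] at h3
    have h4 : (s p.1 : ArA_L n K) = ∑ k, (g k : ArA_L n K) *
        ((F.equivFin.symm k : Fin t → ArA_S n K) p.1 : ArA_L n K) := by
      rw [← hg, Finset.sum_apply]
      simp
    rw [h4, AddMonoidAlgebra.coeff_sum, Finsupp.finsetSum_apply] at h3
    rw [h3]
    exact sub_self _
  · simp only [if_neg hpj, Finset.sum_const_zero, sub_zero]
    refine hj p ?_
    have : j < p.2.degree := lt_of_le_of_ne hp' (Ne.symm hpj)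
    exact_mod_cast this

end B5a
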