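import Pool.Agent.H.MP_b5a980_ag.VpA

set_option autoImplicit false
set_option linter.unusedSectionVars false
set_option linter.style.longLine false

/-!
Maps of modules with canonical filtrations (MP_b5a980_ag, B3).
-/

namespace B5a

universe u v w

open MvPowerSeries

variable {n : ℕ} {K : Type u} [Field K] {M : Type v} [AddCommGroup M]
  [Module (MvPowerSeries (Fin n) K) M] [Module K M] [IsScalarTower K (MvPowerSeries (Fin n) K) M]
  {M' : Type w} [AddCommGroup M'] [Module (MvPowerSeries (Fin n) K) M'] [Module K M']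
  [IsScalarTower K (MvPowerSeries (Fin n) K) M']

theorem VpB_csmul (φ : M →ₗ[MvPowerSeries (Fin n) K] M') (c : K) (m : M) :
    φ (c • m) = c • φ m := φ.map_smul_of_tower c m

theorem VpB_theta {C : Conn n K M} {C' : Conn n K M'}
    (φ : M →ₗ[MvPowerSeries (Fin n) K] M') (hφ : ∀ i m, φ (C.nab i m) = C'.nab i (φ m))
    (m : M) : φ (C.theta m) = C'.theta (φ m) := by
  rw [C.theta_apply, C'.theta_apply, map_sum]
  refine Finset.sum_congr rfl fun i _ => ?_
  rw [map_smul, hφ]

/-- Proof. Induction on the polynomial; `φ` is `K`-linear since it is `R`-linear (`LinearMap.map_smul_of_tower` or `C c • `). -/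
theorem map_aeval_theta {C : Conn n K M} {C' : Conn n K M'}
    (φ : M →ₗ[MvPowerSeries (Fin n) K] M') (hφ : ∀ i m, φ (C.nab i m) = C'.nab i (φ m))
    (c : Polynomial K) (m : M) :
    φ (Polynomial.aeval C.theta c m) = Polynomial.aeval C'.theta c (φ m) := by
  have hk : ∀ k : ℕ, ∀ x, φ ((C.theta ^ k) x) = (C'.theta ^ k) (φ x) := by
    intro k
    induction k with
    | zero => intro x; rfl
    | succ k ih =>
      intro x
      rw [pow_succ, pow_succ, Module.End.mul_apply, Module.End.mul_apply, ih, VpB_theta φ hφ]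
  induction c using Polynomial.induction_on' with
  | add p q hp hq =>
    rw [map_add, map_add, LinearMap.add_apply, LinearMap.add_apply, map_add, hp, hq]
  | monomial k c =>
    rw [Polynomial.aeval_monomial, Polynomial.aeval_monomial, Module.End.mul_apply,
      Module.End.mul_apply, Module.algebraMap_end_apply, Module.algebraMap_end_apply,
      VpB_csmul, hk]

/-- Proof. Induction on the degree of `γ`. -/
theorem map_pw {C : Conn n K M} {C' : Conn n K M'}
    (φ : M →ₗ[MvPowerSeries (Fin n) K] M') (hφ : ∀ i m, φ (C.nab i m) = C'.nab i (φ m))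
    (γ : Fin n →₀ ℕ) (m : M) : φ (C.pw γ m) = C'.pw γ (φ m) := by
  have key : ∀ (d : ℕ) (γ : Fin n →₀ ℕ), γ.degree = d → φ (C.pw γ m) = C'.pw γ (φ m) := by
    intro d
    induction d with
    | zero =>
      intro γ hγ
      have h0 : γ = 0 := by
        by_contra h
        obtain ⟨i, γ', _, h2⟩ := Conn.exists_single_of_ne_zero h
        omega
      subst h0
      rw [Conn.pw_zero, Conn.pw_zero]
    | succ d ih =>
      intro γ hγ
      have h0 : γ ≠ 0 := by
        rintro rfl
        simp at hγ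
      obtain ⟨i, γ', h1, h2⟩ := Conn.exists_single_of_ne_zero h0
      have h3 := ih γ' (by omega)
      rw [h1, ← Conn.nab_pw, ← Conn.nab_pw, hφ, h3]
  exact key _ γ rfl

/-- Proof. The generators are mapped to the generators (`map_pw`). -/
theorem map_V {C : Conn n K M} {C' : Conn n K M'}
    (φ : M →ₗ[MvPowerSeries (Fin n) K] M') (hφ : ∀ i m, φ (C.nab i m) = C'.nab i (φ m))
    (u : M) (d : ℤ) : (C.V u d).map φ = C'.V (φ u) d := by
  rw [Conn.V, Conn.V, Submodule.map_span]
  congr 1
  ext y
  constructor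
  · rintro ⟨_, ⟨β, γ, h, rfl⟩, rfl⟩
    refine ⟨β, γ, h, ?_⟩
    rw [map_smul, map_pw φ hφ]
  · rintro ⟨β, γ, h, rfl⟩
    refine ⟨_, ⟨β, γ, h, rfl⟩, ?_⟩
    rw [map_smul, map_pw φ hφ]

/-- Connection maps preserve canonical filtrations.

Proof. `good_sandwich` for the filtration `(W i).comap φ` (compatible; contains `N`: `m ∈ N` gives `φ m ∈ N' ≤ W i`) and `gen_le` (`map_aeval_theta`, the difference is 0). -/
theorem vpack_map {lam : K →+ ℚ} {C : Conn n K M} {C' : Conn n K M'}
    {N : Submodule (MvPowerSeries (Fin n) K) M} {N' : Submodule (MvPowerSeries (Fin n) K) M'}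
    {V : ℤ → Submodule (MvPowerSeries (Fin n) K) M} {W : ℤ → Submodule (MvPowerSeries (Fin n) K) M'}
    (hV : VPack lam C N V) (hW : VPack lam C' N' W) (φ : M →ₗ[MvPowerSeries (Fin n) K] M')
    (hφ : ∀ i m, φ (C.nab i m) = C'.nab i (φ m)) (hN : ∀ m ∈ N, φ m ∈ N')
    (hex : ∀ i m, m ∈ V i → ∃ j, φ m ∈ W j) : ∀ i m, m ∈ V i → φ m ∈ W i := by
  have hNW : ∀ i, N' ≤ W i := by
    obtain ⟨t, u, a, h⟩ := hW.good
    intro i
    rw [h i]
    exact le_sup_left
  have hc : Compat C (fun i => (W i).comap φ) := by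
    refine ⟨fun i => Submodule.comap_mono (hW.compat.anti i), ?_, ?_⟩
    · intro i l m hm
      rw [Submodule.mem_comap] at hm ⊢
      rw [map_smul]
      exact hW.compat.x_mem _ _ _ hm
    · intro i l m hm
      rw [Submodule.mem_comap] at hm ⊢
      rw [hφ]
      exact hW.compat.nab_mem _ _ _ hm
  obtain ⟨N0, h0⟩ := good_sandwich hV.good hc (fun i m hm => hNW i (hN m hm)) hex
  refine gen_le hV.gr hW.gr hW.compat φ.toAddMonoidHom N0 (fun i m hm => h0 i hm) ?_
  intro c i j m _ _ _ _
  have e : Polynomial.aeval C'.theta c (φ.toAddMonoidHom m) -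
      φ.toAddMonoidHom (Polynomial.aeval C.theta c m) = 0 := by
    change Polynomial.aeval C'.theta c (φ m) - φ (Polynomial.aeval C.theta c m) = 0
    rw [map_aeval_theta φ hφ, sub_self]
  rw [e]
  exact Submodule.zero_mem _

end B5a
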