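import Pool.Agent.H.MP_b5a980_ag.PmA
import Pool.Agent.H.MP_b5a980_ag.VpB

set_option autoImplicit false
set_option linter.unusedSectionVars false
set_option linter.style.longLine false

/-!
Free modules: the filtration (MP_b5a980_ag, part B).
-/

namespace B5a

universe u v w

open MvPowerSeries

variable {n : ℕ} {K : Type u} [Field K] {M : Type v} [AddCommGroup M]
  [Module (MvPowerSeries (Fin n) K) M] [Module K M] [IsScalarTower K (MvPowerSeries (Fin n) K) M]

theorem PmB_single_mem {t : ℕ} {a : Fin t → ℤ} {i : ℤ} {j : Fin t} {γ : Fin n →₀ ℕ}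
    {r : MvPowerSeries (Fin n) K} (hr : r ∈ mI n K (i - a j + γ.degree).toNat) :
    (Finsupp.single (j, γ) r : Pm n K t) ∈ PV a i := by
  classical
  intro p
  by_cases hp : (j, γ) = p
  · rw [← hp, Finsupp.single_eq_same]
    exact hr
  · rw [Finsupp.single_apply, if_neg hp]
    exact Submodule.zero_mem _

theorem PmB_sum {t : ℕ} (φ : Pm n K t) :
    φ = ∑ p ∈ φ.support, (Finsupp.single (p.1, p.2) (φ p) : Pm n K t) :=
  (Finsupp.sum_single φ).symm

/-- Proof. anti, x_mem: `mI_anti`, `mul_mem_mI`, `X_mem_mI`. nab_mem: the coefficient of `nab_l φ` at `(j,γ)` is `∂_l (φ (j,γ)) + (φ (j, γ - e_l) if γ_l ≥ 1)`; `pderiv_mem_mI` and the exponents `i - 1 - a_j + |γ|` match (`toNat` of a nonpositive number is 0, `mI 0 = ⊤`). -/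
theorem PV_compat {t : ℕ} (a : Fin t → ℤ) : Compat (pmc n K t) (PV a) := by
  refine ⟨fun i φ hφ p => ?_, fun i l φ hφ p => ?_, fun i l φ hφ => ?_⟩
  · exact mI_anti (Int.toNat_le_toNat (by omega)) (hφ p)
  · rw [Finsupp.smul_apply, smul_eq_mul]
    exact mI_anti (by omega) (mul_mem_mI (X_mem_mI l) (hφ p))
  · rw [PmB_sum φ, map_sum]
    refine Submodule.sum_mem _ fun p _ => ?_
    rw [pmnab_single]
    refine Submodule.add_mem _ (PmB_single_mem ?_) (PmB_single_mem ?_)
    · rcases Nat.eq_zero_or_pos (i - a p.1 + p.2.degree).toNat with h0 | h0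
      · have h1 : (i - 1 - a p.1 + p.2.degree).toNat = 0 := by omega
        rw [h1, mI_zero]
        exact Submodule.mem_top
      · have h1 : (i - a p.1 + p.2.degree).toNat = (i - 1 - a p.1 + p.2.degree).toNat + 1 := by
          omega
        exact pderiv_mem_mI (h1 ▸ hφ p) l
    · refine mI_anti (le_of_eq ?_) (hφ p)
      rw [map_add, Finsupp.degree_single]
      push_cast
      congr 1
      ring

/-- Proof. `≥`: `V_le` (`pe j ∈ PV a (a j)`, `PV_compat`). `≤`: an element of `PV a i` is a finite sum of `single (j,γ) r`, `r ∈ mI e`, `e = (i - a_j + |γ|).toNat`; write `r = Σ_{|β| = e} x^β c_β` (`exists_sum_mI` with remaining exponent 0) and `single (j,γ) (c x^β) = c • x^β • pw γ (pe j)` with `|β| - |γ| ≥ i - a_j`. -/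
theorem PV_eq {t : ℕ} (a : Fin t → ℤ) (i : ℤ) :
    (PV a i : Submodule (MvPowerSeries (Fin n) K) (Pm n K t)) =
      ⨆ j, (pmc n K t).V (pe n K t j) (i - a j) := by
  apply le_antisymm
  · intro φ hφ
    rw [PmB_sum φ]
    refine Submodule.sum_mem _ fun p _ => ?_
    refine Submodule.mem_iSup_of_mem p.1 ?_
    obtain ⟨c, -, hc⟩ := exists_sum_mI (a := (i - a p.1 + p.2.degree).toNat) (e := 0) (hφ p)
    have h1 : (Finsupp.single (p.1, p.2) (φ p) : Pm n K t) = φ p •
        (pmc n K t).pw p.2 (pe n K t p.1) := by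
      rw [pm_pw, Finsupp.smul_single, smul_eq_mul, mul_one]
    rw [h1, hc, Finset.sum_smul]
    refine Submodule.sum_mem _ fun β hβ => ?_
    rw [mul_comm, mul_smul]
    refine Submodule.smul_mem _ _ ((pmc n K t).ConnD_gen_mem _ _ _ ?_)
    rw [MIB_mem_antidiag] at hβ
    omega
  · refine iSup_le fun j => ?_
    have h1 : (pe n K t j) ∈ (PV a (a j) : Submodule (MvPowerSeries (Fin n) K) (Pm n K t)) := by
      refine PmB_single_mem ?_
      have h2 : (a j - a j + ((0 : Fin n →₀ ℕ).degree : ℕ)).toNat = 0 := by simp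
      rw [h2, mI_zero]
      exact Submodule.mem_top
    have h3 := (pmc n K t).V_le (PV_compat a) h1 (i - a j)
    rwa [sub_add_cancel] at h3

/-- Proof. `PV_eq`, `Submodule.map_iSup`, `map_V`, `cov_pe`. -/
theorem map_cov_PV (C : Conn n K M) {t : ℕ} (u : Fin t → M) (a : Fin t → ℤ) (i : ℤ) :
    (PV a i).map (cov C u) = ⨆ l, C.V (u l) (i - a l) := by
  rw [PV_eq, Submodule.map_iSup]
  refine iSup_congr fun j => ?_
  rw [map_V (C := pmc n K t) (C' := C) (cov C u) (fun l m => cov_nab C u l m), cov_pe]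

end B5a
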