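import Pool.Agent.H.MP_b5a980_ag.ArA
import Pool.Agent.H.MP_b5a980_ag.PmB

set_option autoImplicit false
set_option linter.unusedSectionVars false
set_option linter.style.longLine false

/-!
Artin-Rees for canonical filtrations (MP_b5a980_ag, B1).
-/

namespace B5a

universe u v w

open MvPowerSeries

variable {n : ℕ} {K : Type u} [Field K] {M : Type v} [AddCommGroup M]
  [Module (MvPowerSeries (Fin n) K) M] [Module K M] [IsScalarTower K (MvPowerSeries (Fin n) K) M]

/-- Proof. `exists_symbol_gens`; `≥`: `V_le` and `hW`. `≤`: for `φ ∈ W i` choose `j` with `OrdLe j φ` (finite support) and induct on `j`: `φ - ψ ∈ W i` again (`ψ ∈ W i` by `≥`), with smaller order; order `-1` means `φ = 0` (`0 ≤ degree`). `N = ⊥`: `bot_sup_eq`. -/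
theorem artin_rees_free {t : ℕ} (a : Fin t → ℤ)
    {W : ℤ → Submodule (MvPowerSeries (Fin n) K) (Pm n K t)} (hW : Compat (pmc n K t) W)
    (hle : ∀ i, W i ≤ PV a i) : GoodRel (pmc n K t) ⊥ W := by
  obtain ⟨s, w, b, hw, hstep⟩ := exists_symbol_gens a hW hle
  refine ⟨s, w, b, fun i => ?_⟩
  rw [bot_sup_eq]
  have hge : (⨆ q, (pmc n K t).V (w q) (i - b q)) ≤ W i := by
    refine iSup_le fun q => ?_
    have h := (pmc n K t).V_le hW (hw q) (i - b q)
    rwa [sub_add_cancel] at h
  refine le_antisymm ?_ hge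
  have key : ∀ (j : ℕ) (φ : Pm n K t), φ ∈ W i → OrdLe ((j : ℤ) - 1) φ →
      φ ∈ ⨆ q, (pmc n K t).V (w q) (i - b q) := by
    intro j
    induction j with
    | zero =>
      intro φ _ h
      have h0 : φ = 0 := by
        ext1 p
        refine h p ?_
        push_cast
        omega
      rw [h0]
      exact Submodule.zero_mem _
    | succ j ih =>
      intro φ hφ h
      have e : (((j + 1 : ℕ) : ℤ) - 1) = (j : ℤ) := by
        push_cast
        ring
      rw [e] at h
      obtain ⟨ψ, hψ, hd⟩ := hstep i j φ hφ h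
      have h1 := ih (φ - ψ) (Submodule.sub_mem _ hφ (hge hψ)) hd
      have h2 := Submodule.add_mem _ h1 hψ
      rwa [sub_add_cancel] at h2
  intro φ hφ
  refine key (φ.support.sup (fun p => p.2.degree) + 1) φ hφ ?_
  intro p hp
  by_contra hne
  have h1 : p ∈ φ.support := Finsupp.mem_support_iff.2 hne
  have h2 : p.2.degree ≤ φ.support.sup (fun p => p.2.degree) :=
    Finset.le_sup (f := fun p : Fin t × (Fin n →₀ ℕ) => p.2.degree) h1
  push_cast at hp
  omega

/-- Proof. Write `V i = N ⊔ (PV a i).map (cov C u)` (`map_cov_PV`). The filtration `W' i = PV a i ⊓ (W i).comap (cov C u)` of the free module is compatible (`PV_compat`, `cov_nab`), so good (`artin_rees_free`): `W' i = ⨆ V (w s) (i - b s)`. `W i = N ⊔ (W' i).map (cov C u)`: for `m ∈ W i ≤ V i` write `m = m0 + cov φ`, `m0 ∈ N`, `φ ∈ PV a i`; `cov φ = m - m0 ∈ W i`. Then `map_V`. -/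
theorem artin_rees {C : Conn n K M} {N : Submodule (MvPowerSeries (Fin n) K) M}
    {V W : ℤ → Submodule (MvPowerSeries (Fin n) K) M} (hV : GoodRel C N V) (hW : Compat C W)
    (hN : ∀ i, N ≤ W i) (hle : ∀ i, W i ≤ V i) : GoodRel C N W := by
  obtain ⟨t, u, a, hVe⟩ := hV
  have hVe' : ∀ i, V i = N ⊔ (PV a i).map (cov C u) := by
    intro i
    rw [map_cov_PV, hVe i]
  have hc : Compat (pmc n K t) (fun i => PV a i ⊓ (W i).comap (cov C u)) := by
    have hP := PV_compat (n := n) (K := K) a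
    refine ⟨fun i => inf_le_inf (hP.anti i) (Submodule.comap_mono (hW.anti i)), ?_, ?_⟩
    · rintro i l m ⟨h1, h2⟩
      refine ⟨hP.x_mem i l m h1, ?_⟩
      change cov C u ((X l : MvPowerSeries (Fin n) K) • m) ∈ W (i + 1)
      rw [map_smul]
      exact hW.x_mem i l _ h2
    · rintro i l m ⟨h1, h2⟩
      refine ⟨hP.nab_mem i l m h1, ?_⟩
      change cov C u ((pmc n K t).nab l m) ∈ W (i - 1)
      rw [cov_nab]
      exact hW.nab_mem i l _ h2
  obtain ⟨s, w, b, hw⟩ := artin_rees_free a hc (fun i => inf_le_left)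
  refine ⟨s, fun q => cov C u (w q), b, fun i => ?_⟩
  have h1 : (⨆ l, C.V (cov C u (w l)) (i - b l)) =
      (PV a i ⊓ (W i).comap (cov C u)).map (cov C u) := by
    have h2 : PV a i ⊓ (W i).comap (cov C u) = ⨆ l, (pmc n K t).V (w l) (i - b l) := by
      have h3 := hw i
      rwa [bot_sup_eq] at h3
    rw [h2, Submodule.map_iSup]
    refine iSup_congr fun q => ?_
    rw [map_V (C := pmc n K t) (C' := C) (cov C u) (fun l m => cov_nab C u l m)]
  rw [h1]
  apply le_antisymm
  · intro m hm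
    have h3 := hle i hm
    rw [hVe' i, Submodule.mem_sup] at h3
    obtain ⟨m0, hm0, y, hy, rfl⟩ := h3
    obtain ⟨φ, hφ, rfl⟩ := hy
    refine Submodule.add_mem_sup hm0 (Submodule.mem_map_of_mem ⟨hφ, ?_⟩)
    change cov C u φ ∈ W i
    have h4 := Submodule.sub_mem _ hm (hN i hm0)
    rwa [add_sub_cancel_left] at h4
  · exact sup_le (hN i) (Submodule.map_le_iff_le_comap.2 inf_le_right)

end B5a
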