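import Pool.Agent.H.MP_b5a980_ag.Ce0

set_option autoImplicit false
set_option linter.unusedSectionVars false
set_option linter.style.longLine false

/-!
The filtered complex of continuous functionals on the Cech - de Rham complex: definitions (MP_b5a980_ag, part D).
-/

namespace B5a

universe u v w

open MvPowerSeries

variable {n r : ℕ} {K : Type u} [Field K]

/-- A family of submodules `W I` of the Cech cochains, stable under the de Rham and Cech
differentials and closed under taking components. -/
structure WSys (W : Finset (Fin n) → Submodule (MvPowerSeries (Fin n) K) (Fm r (FF n K))) : Prop where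
  nab_mem : ∀ (I : Finset (Fin n)) (i : Fin n), i ∉ I → ∀ c ∈ W I,
    (cconn n r K).nab i c ∈ W (insert i I)
  cech_mem : ∀ (I : Finset (Fin n)), ∀ c ∈ W I, cech n r K c ∈ W I
  comp : ∀ (I : Finset (Fin n)) (S : Finset (Fin r)), ∀ c ∈ W I, Pi.single S (c S) ∈ W I

/-- Families of functionals `λ_I` on `W I`. -/
abbrev DW (W : Finset (Fin n) → Submodule (MvPowerSeries (Fin n) K) (Fm r (FF n K))) : Type u :=
  ∀ I, Module.Dual K (W I)

/-- the connection between the members of the system -/
noncomputable def Dc0_nab {W : Finset (Fin n) → Submodule (MvPowerSeries (Fin n) K) (Fm r (FF n K))}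
    (hW : WSys W) (I : Finset (Fin n)) (i : Fin n) (hi : i ∉ I) : W I →ₗ[K] W (insert i I) where
  toFun c := ⟨(cconn n r K).nab i c, hW.nab_mem I i hi c c.2⟩
  map_add' x y := Subtype.ext (map_add ((cconn n r K).nab i) (x : Fm r (FF n K)) y)
  map_smul' a x := Subtype.ext (map_smul ((cconn n r K).nab i) a (x : Fm r (FF n K)))

/-- the Cech differential on the members of the system -/
noncomputable def Dc0_cech {W : Finset (Fin n) → Submodule (MvPowerSeries (Fin n) K) (Fm r (FF n K))}
    (hW : WSys W) (I : Finset (Fin n)) : W I →ₗ[K] W I where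
  toFun c := ⟨cech n r K c, hW.cech_mem I c c.2⟩
  map_add' x y := Subtype.ext (map_add (cech n r K) (x : Fm r (FF n K)) y)
  map_smul' a x := Subtype.ext
    (LinearMap.map_smul_of_tower (cech n r K) a (x : Fm r (FF n K)))

/-- the value of the differential -/
noncomputable def Dc0_val {W : Finset (Fin n) → Submodule (MvPowerSeries (Fin n) K) (Fm r (FF n K))}
    (hW : WSys W) (lam : DW W) (I : Finset (Fin n)) (c : W I) : K :=
  -(∑ i ∈ (Iᶜ).attach, sg (i : Fin n) I •
    lam (insert (i : Fin n) I) (Dc0_nab hW I i (Finset.mem_compl.mp i.2) c)) +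
    ((-1 : ℤ) ^ (n - I.card)) • lam I (Dc0_cech hW I c)

/-- The differential on families of functionals:
`(d λ)_I c = - Σ_{i ∉ I} ± λ_(I ∪ i) (∂_i c) + (-1)^(n - |I|) λ_I (δ c)`. Fill the two proofs of linearity (everything is a finite sum of linear expressions). -/
noncomputable def dDual {W : Finset (Fin n) → Submodule (MvPowerSeries (Fin n) K) (Fm r (FF n K))}
    (hW : WSys W) : DW W →ₗ[K] DW W where
  toFun lam := fun I =>
    { toFun := fun c => -(∑ i ∈ (Iᶜ).attach, sg (i : Fin n) I •
          lam (insert (i : Fin n) I) ⟨(cconn n r K).nab i c,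
            hW.nab_mem I i (Finset.mem_compl.mp i.2) c c.2⟩) +
        ((-1 : ℤ) ^ (n - I.card)) • lam I ⟨cech n r K c, hW.cech_mem I c c.2⟩
      map_add' := by
        intro x y
        change Dc0_val hW lam I (x + y) = Dc0_val hW lam I x + Dc0_val hW lam I y
        unfold Dc0_val
        simp only [map_add, smul_add, Finset.sum_add_distrib]
        abel
      map_smul' := by
        intro a x
        change Dc0_val hW lam I (a • x) = a • Dc0_val hW lam I x
        unfold Dc0_val
        rw [smul_add, smul_neg, Finset.smul_sum, map_smul (Dc0_cech hW I), map_smul (lam I),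
          smul_comm a]
        congr 2
        refine Finset.sum_congr rfl fun i _ => ?_
        rw [map_smul (Dc0_nab hW I i _), map_smul (lam _), smul_comm a] }
  map_add' := by
    intro x y
    refine funext fun I => LinearMap.ext fun c => ?_
    change Dc0_val hW (x + y) I c = Dc0_val hW x I c + Dc0_val hW y I c
    unfold Dc0_val
    simp only [Pi.add_apply, LinearMap.add_apply, smul_add, Finset.sum_add_distrib]
    abel
  map_smul' := by
    intro a x
    refine funext fun I => LinearMap.ext fun c => ?_
    change Dc0_val hW (a • x) I c = a • Dc0_val hW x I c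
    unfold Dc0_val
    rw [smul_add, smul_neg, Finset.smul_sum, Pi.smul_apply, LinearMap.smul_apply, smul_comm a]
    congr 2
    refine Finset.sum_congr rfl fun i _ => ?_
    rw [Pi.smul_apply, LinearMap.smul_apply, smul_comm a]

/-- Continuity of a functional on a submodule. -/
def ContW (W : Submodule (MvPowerSeries (Fin n) K) (Fm r (FF n K))) (lam : Module.Dual K W) : Prop :=
  ∀ c : W, ∃ N : ℕ, ∀ a ∈ mI n K N, lam (a • c) = 0

/-- Continuous families with `λ_I = 0` for `|I| > n - p`, where `λ_I` only depends on the component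
of Cech degree `2n - m - |I|`. -/
noncomputable def dualF {W : Finset (Fin n) → Submodule (MvPowerSeries (Fin n) K) (Fm r (FF n K))}
    (_hW : WSys W) (p m : ℤ) : Submodule K (DW W) where
  carrier := {lam | (∀ I, ContW (W I) (lam I)) ∧ (∀ I, (n : ℤ) - p < I.card → lam I = 0) ∧
    ∀ (I : Finset (Fin n)) (c : W I), (∀ S : Finset (Fin r), (S.card : ℤ) = 2 * n - m - I.card →
      (c : Fm r (FF n K)) S = 0) → lam I c = 0}
  add_mem' := by
    rintro x y ⟨hx1, hx2, hx3⟩ ⟨hy1, hy2, hy3⟩
    refine ⟨fun I c => ?_, fun I h => ?_, fun I c h => ?_⟩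
    · obtain ⟨N, hN⟩ := hx1 I c
      obtain ⟨N', hN'⟩ := hy1 I c
      refine ⟨max N N', fun a ha => ?_⟩
      rw [Pi.add_apply, LinearMap.add_apply, hN a (mI_anti (le_max_left _ _) ha),
        hN' a (mI_anti (le_max_right _ _) ha), add_zero]
    · rw [Pi.add_apply, hx2 I h, hy2 I h, add_zero]
    · rw [Pi.add_apply, LinearMap.add_apply, hx3 I c h, hy3 I c h, add_zero]
  zero_mem' := ⟨fun _ _ => ⟨0, fun _ _ => rfl⟩, fun _ _ => rfl, fun _ _ _ => rfl⟩
  smul_mem' := by
    rintro k x ⟨hx1, hx2, hx3⟩
    refine ⟨fun I c => ?_, fun I h => ?_, fun I c h => ?_⟩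
    · obtain ⟨N, hN⟩ := hx1 I c
      refine ⟨N, fun a ha => ?_⟩
      rw [Pi.smul_apply, LinearMap.smul_apply, hN a ha, smul_zero]
    · rw [Pi.smul_apply, hx2 I h, smul_zero]
    · rw [Pi.smul_apply, LinearMap.smul_apply, hx3 I c h, smul_zero]

end B5a
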