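import Pool.Agent.H.MP_b5a980_ag.MIA

set_option autoImplicit false
set_option linter.unusedSectionVars false
set_option linter.style.longLine false

/-!
Powers of the maximal ideal: generators (MP_b5a980_ag).
-/

namespace B5a

universe u v w

open MvPowerSeries

variable {n : ℕ} {K : Type u} [Field K]

theorem MIB_exists_le (a : ℕ) : ∀ (m : ℕ) (δ : Fin n →₀ ℕ), δ.degree = a + m →
    ∃ β : Fin n →₀ ℕ, β ≤ δ ∧ β.degree = a := by
  intro m
  induction m with
  | zero => exact fun δ h => ⟨δ, le_rfl, h⟩
  | succ m ih =>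
    intro δ h
    have h0 : δ ≠ 0 := by
      rintro rfl
      rw [map_zero] at h
      omega
    obtain ⟨i, hi⟩ := Finsupp.ne_iff.1 h0
    have h1 : Finsupp.single i 1 ≤ δ := by
      rw [Finsupp.single_le_iff]
      exact Nat.one_le_iff_ne_zero.2 hi
    have h2 : (δ - Finsupp.single i 1) + Finsupp.single i 1 = δ := tsub_add_cancel_of_le h1
    have h3 : (δ - Finsupp.single i 1).degree = a + m := by
      have h4 := congrArg Finsupp.degree h2
      rw [map_add, Finsupp.degree_single] at h4
      omega
    obtain ⟨β, hβ, hd⟩ := ih _ h3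
    exact ⟨β, hβ.trans tsub_le_self, hd⟩

theorem MIB_mem_antidiag {a : ℕ} {β : Fin n →₀ ℕ} :
    β ∈ Finset.finsuppAntidiag Finset.univ a ↔ β.degree = a := by
  rw [Finset.mem_finsuppAntidiag, Finsupp.degree_eq_sum]
  simp

/-- Decomposition along the monomials of degree `a`: an element of `m^(a+e)` is a combination of
the monomials of degree `a` with coefficients in `m^e`. -/
theorem exists_sum_mI {a e : ℕ} {g : MvPowerSeries (Fin n) K} (hg : g ∈ mI n K (a + e)) :
    ∃ c : (Fin n →₀ ℕ) → MvPowerSeries (Fin n) K, (∀ β, c β ∈ mI n K e) ∧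
      g = ∑ β ∈ Finset.finsuppAntidiag Finset.univ a, monomial β 1 * c β := by
  classical
  have hex : ∀ δ : Fin n →₀ ℕ, ∃ β : Fin n →₀ ℕ, a ≤ δ.degree → β ≤ δ ∧ β.degree = a := by
    intro δ
    by_cases h : a ≤ δ.degree
    · obtain ⟨m, hm⟩ := Nat.exists_eq_add_of_le h
      obtain ⟨β, hβ⟩ := MIB_exists_le a m δ hm
      exact ⟨β, fun _ => hβ⟩
    · exact ⟨0, fun h' => absurd h' h⟩
  choose p hp using hex
  let c : (Fin n →₀ ℕ) → MvPowerSeries (Fin n) K := fun β μ =>
    if β.degree = a ∧ p (β + μ) = β then coeff (β + μ) g else 0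
  refine ⟨c, ?_, ?_⟩
  · intro β μ hμ
    change (if β.degree = a ∧ p (β + μ) = β then coeff (β + μ) g else 0) = 0
    split_ifs with h
    · refine hg _ ?_
      rw [map_add]
      omega
    · rfl
  · ext δ
    rw [map_sum]
    have hterm : ∀ β ∈ Finset.finsuppAntidiag (Finset.univ : Finset (Fin n)) a,
        coeff δ (monomial β (1 : K) * c β) =
        if β = p δ ∧ β ≤ δ then coeff δ g else 0 := by
      intro β hβ
      rw [MIB_mem_antidiag] at hβ
      rw [coeff_monomial_mul]
      by_cases hle : β ≤ δ
      · rw [if_pos hle, one_mul]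
        change (if β.degree = a ∧ p (β + (δ - β)) = β then coeff (β + (δ - β)) g else 0) = _
        rw [add_tsub_cancel_of_le hle]
        by_cases hpe : p δ = β
        · rw [if_pos ⟨hβ, hpe⟩, if_pos ⟨hpe.symm, hle⟩]
        · rw [if_neg (fun h => hpe h.2), if_neg (fun h => hpe h.1.symm)]
      · rw [if_neg hle, if_neg (fun h => hle h.2)]
    rw [Finset.sum_congr rfl hterm]
    by_cases hδ : a ≤ δ.degree
    · obtain ⟨h1, h2⟩ := hp δ hδ
      rw [Finset.sum_eq_single (p δ)]
      · rw [if_pos ⟨rfl, h1⟩]
      · intro β _ hne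
        rw [if_neg (fun h => hne h.1)]
      · intro h
        exact absurd (MIB_mem_antidiag.2 h2) h
    · rw [hg δ (by omega), Finset.sum_eq_zero]
      intro β _
      split_ifs <;> rfl

/-- An element of `m^(e+1)` is a combination of the variables with coefficients in `m^e`. -/
theorem exists_sum_X_mI {e : ℕ} {g : MvPowerSeries (Fin n) K} (hg : g ∈ mI n K (e + 1)) :
    ∃ c : Fin n → MvPowerSeries (Fin n) K, (∀ i, c i ∈ mI n K e) ∧
      g = ∑ i, X i * c i := by
  classical
  rw [add_comm] at hg
  obtain ⟨c, hc, hg2⟩ := exists_sum_mI hg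
  refine ⟨fun i => c (Finsupp.single i 1), fun i => hc _, ?_⟩
  have himg : Finset.finsuppAntidiag (Finset.univ : Finset (Fin n)) 1 =
      Finset.univ.image fun i : Fin n => (Finsupp.single i 1 : Fin n →₀ ℕ) := by
    ext β
    rw [MIB_mem_antidiag, Finset.mem_image]
    constructor
    · intro h
      have h0 : β ≠ 0 := by
        rintro rfl
        rw [map_zero] at h
        omega
      obtain ⟨i, hi⟩ := Finsupp.ne_iff.1 h0
      refine ⟨i, Finset.mem_univ _, ?_⟩
      have h1 : Finsupp.single i 1 ≤ β := by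
        rw [Finsupp.single_le_iff]
        exact Nat.one_le_iff_ne_zero.2 hi
      have h2 : (β - Finsupp.single i 1) + Finsupp.single i 1 = β := tsub_add_cancel_of_le h1
      have h3 := congrArg Finsupp.degree h2
      rw [map_add, Finsupp.degree_single, h] at h3
      have h4 : (β - Finsupp.single i 1).degree = 0 := by omega
      rw [Finsupp.degree_eq_zero_iff] at h4
      rw [h4, zero_add] at h2
      exact h2
    · rintro ⟨i, _, rfl⟩
      exact Finsupp.degree_single i 1
  rw [hg2, himg, Finset.sum_image]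
  · rfl
  · intro i _ j _ hij
    exact Finsupp.single_left_injective one_ne_zero hij

/-- `mI` is the power of the maximal ideal. -/
theorem mI_eq_pow (e : ℕ) :
    mI n K e = (IsLocalRing.maximalIdeal (MvPowerSeries (Fin n) K)) ^ e := by
  have hmax : IsLocalRing.maximalIdeal (MvPowerSeries (Fin n) K) = mI n K 1 := by
    ext g
    rw [IsLocalRing.mem_maximalIdeal, mem_nonunits_iff]
    constructor
    · intro h
      exact (isUnit_or_mem_mI_one g).resolve_left h
    · intro h h2
      rw [mem_mI_one] at h
      rw [MvPowerSeries.isUnit_iff_constantCoeff, h] at h2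
      exact not_isUnit_zero h2
  induction e with
  | zero => rw [mI_zero, pow_zero, Ideal.one_eq_top]
  | succ e ih =>
    rw [pow_succ, ← ih, hmax]
    apply le_antisymm
    · intro g hg
      obtain ⟨c, hc, rfl⟩ := exists_sum_X_mI hg
      refine Ideal.sum_mem _ fun i _ => ?_
      have h1 := Ideal.mul_mem_mul (hc i) (X_mem_mI i)
      rw [mul_comm (c i) (X i)] at h1
      exact h1
    · rw [Ideal.mul_le]
      intro g hg h hh
      exact mul_mem_mI hg hh

end B5a
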