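import Pool.Agent.H.MP_b5a980_ag.Dv0
import Pool.Agent.H.MP_b5a980_ag.MIB

set_option autoImplicit false
set_option linter.unusedSectionVars false
set_option linter.style.longLine false

/-!
Extension of continuous functionals (MP_b5a980_ag, part D).
-/

namespace B5a

universe u v w

open MvPowerSeries

section Vec

variable {K : Type u} [Field K] {V : Type v} [AddCommGroup V] [Module K V]

/-- Extension of a functional on `A` which vanishes on `A ∩ B` to one vanishing on `B`. -/
theorem DvE_ext0 (A B : Submodule K V) (f : A →ₗ[K] K)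
    (hf : ∀ x : A, (x : V) ∈ B → f x = 0) :
    ∃ F : Module.Dual K V, (∀ x : A, F x = f x) ∧ ∀ x ∈ B, F x = 0 := by
  have h1 : f ∈ LinearMap.range ((B.mkQ ∘ₗ A.subtype).dualMap) := by
    rw [LinearMap.range_dualMap_eq_dualAnnihilator_ker, Submodule.mem_dualAnnihilator]
    intro x hx
    refine hf x ?_
    rw [LinearMap.mem_ker, LinearMap.comp_apply, Submodule.mkQ_apply,
      Submodule.Quotient.mk_eq_zero] at hx
    exact hx
  obtain ⟨g, hg⟩ := h1
  refine ⟨g ∘ₗ B.mkQ, fun x => ?_, fun x hx => ?_⟩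
  · rw [← hg]
    rfl
  · rw [LinearMap.comp_apply, Submodule.mkQ_apply, (Submodule.Quotient.mk_eq_zero B).2 hx, map_zero]

/-- Glueing of two functionals which agree on the intersection. -/
theorem DvE_glue (A B : Submodule K V) (f g : Module.Dual K V)
    (h : ∀ x ∈ A, x ∈ B → f x = g x) :
    ∃ F : Module.Dual K V, (∀ x ∈ A, F x = f x) ∧ ∀ x ∈ B, F x = g x := by
  obtain ⟨H, h1, h2⟩ := DvE_ext0 A B ((f - g) ∘ₗ A.subtype) (fun x hx => by
    change f x - g x = 0
    rw [h x x.2 hx, sub_self])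
  refine ⟨g + H, fun x hx => ?_, fun x hx => ?_⟩
  · have h3 : H x = f x - g x := h1 ⟨x, hx⟩
    rw [LinearMap.add_apply, h3, add_sub_cancel]
  · rw [LinearMap.add_apply, h2 x hx, add_zero]

end Vec

section Inj

/-- The continuous functionals on the ring. -/
def DvE_E (n : ℕ) (K : Type u) [Field K] :
    Submodule K (Module.Dual K (MvPowerSeries (Fin n) K)) where
  carrier := {e | ∃ N : ℕ, ∀ r ∈ mI n K N, e r = 0}
  add_mem' := by
    rintro a b ⟨N, hN⟩ ⟨N', hN'⟩
    refine ⟨max N N', fun r hr => ?_⟩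
    rw [LinearMap.add_apply, hN r (mI_anti (le_max_left _ _) hr),
      hN' r (mI_anti (le_max_right _ _) hr), add_zero]
  zero_mem' := ⟨0, fun r _ => rfl⟩
  smul_mem' := by
    rintro c a ⟨N, hN⟩
    refine ⟨N, fun r hr => ?_⟩
    rw [LinearMap.smul_apply, hN r hr, smul_zero]

variable {n : ℕ} {K : Type u} [Field K]

/-- The action of the ring on the continuous functionals. -/
noncomputable def DvE_act (r : MvPowerSeries (Fin n) K) (e : DvE_E n K) : DvE_E n K :=
  ⟨e.1 ∘ₗ LinearMap.mulLeft K r, by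
    obtain ⟨N, hN⟩ := e.2
    refine ⟨N, fun s hs => ?_⟩
    rw [LinearMap.comp_apply, LinearMap.mulLeft_apply]
    exact hN _ (Ideal.mul_mem_left _ _ hs)⟩

theorem DvE_act_apply (r s : MvPowerSeries (Fin n) K) (e : DvE_E n K) :
    (DvE_act r e).1 s = e.1 (r * s) := rfl

theorem DvE_E_ext {e e' : DvE_E n K} (h : ∀ s, e.1 s = e'.1 s) : e = e' := by
  apply Subtype.ext
  exact LinearMap.ext h

noncomputable instance DvE_mod : Module (MvPowerSeries (Fin n) K) (DvE_E n K) where
  smul := DvE_act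
  one_smul e := by
    refine DvE_E_ext fun s => ?_
    change e.1 (1 * s) = e.1 s
    rw [one_mul]
  mul_smul r r' e := by
    refine DvE_E_ext fun s => ?_
    change e.1 (r * r' * s) = e.1 (r' * (r * s))
    congr 1
    ring
  smul_zero r := by
    refine DvE_E_ext fun s => ?_
    rfl
  smul_add r e e' := by
    refine DvE_E_ext fun s => ?_
    rfl
  add_smul r r' e := by
    refine DvE_E_ext fun s => ?_
    change e.1 ((r + r') * s) = e.1 (r * s) + e.1 (r' * s)
    rw [add_mul, map_add]
  zero_smul e := by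
    refine DvE_E_ext fun s => ?_
    change e.1 (0 * s) = 0
    rw [zero_mul, map_zero]

theorem DvE_smul_apply (r s : MvPowerSeries (Fin n) K) (e : DvE_E n K) :
    (r • e).1 s = e.1 (r * s) := rfl

/-- A functional on an ideal which is continuous at every element vanishes on a deep step. -/
theorem DvE_deep (J : Ideal (MvPowerSeries (Fin n) K)) (f : J →ₗ[K] K)
    (hf : ∀ x : J, ∃ N : ℕ, ∀ r ∈ mI n K N, f (r • x) = 0) :
    ∃ N : ℕ, ∀ x : J, (x : MvPowerSeries (Fin n) K) ∈ mI n K N → f x = 0 := by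
  classical
  obtain ⟨s, hs⟩ := (isNoetherianRing_iff_ideal_fg (MvPowerSeries (Fin n) K)).1 inferInstance J
  have hsJ : ∀ x ∈ s, x ∈ J := fun x hx => hs ▸ Ideal.subset_span hx
  choose N hN using hf
  let N0 : ℕ := s.sup fun x => if h : x ∈ J then N ⟨x, h⟩ else 0
  have hN0 : ∀ x ∈ s, ∀ h : x ∈ J, ∀ r ∈ mI n K N0, f (r • (⟨x, h⟩ : J)) = 0 := by
    intro x hx h r hr
    refine hN ⟨x, h⟩ r (mI_anti ?_ hr)
    have h1 := Finset.le_sup (f := fun x => if h : x ∈ J then N ⟨x, h⟩ else 0) hx
    rw [dif_pos h] at h1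
    exact h1
  have h2 : ∀ x : J, ∀ r ∈ mI n K N0, f (r • x) = 0 := by
    rintro ⟨x, hx⟩
    have hx' : x ∈ Submodule.span (MvPowerSeries (Fin n) K) (s : Set (MvPowerSeries (Fin n) K)) := by
      have h3 : Submodule.span (MvPowerSeries (Fin n) K) (s : Set (MvPowerSeries (Fin n) K)) = J := hs
      rw [h3]
      exact hx
    induction hx' using Submodule.span_induction with
    | mem y hy => exact hN0 y hy hx
    | zero =>
      intro r _
      have : (r • (⟨0, hx⟩ : J)) = 0 := by
        apply Subtype.ext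
        simp
      rw [this, map_zero]
    | add y z hy hz ihy ihz =>
      intro r hr
      have hy' : y ∈ J := by
        have h3 : Submodule.span (MvPowerSeries (Fin n) K) (s : Set (MvPowerSeries (Fin n) K)) = J := hs
        rw [← h3]
        exact hy
      have hz' : z ∈ J := by
        have h3 : Submodule.span (MvPowerSeries (Fin n) K) (s : Set (MvPowerSeries (Fin n) K)) = J := hs
        rw [← h3]
        exact hz
      have : (r • (⟨y + z, hx⟩ : J)) = r • ⟨y, hy'⟩ + r • ⟨z, hz'⟩ := by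
        apply Subtype.ext
        simp [mul_add]
      rw [this, map_add, ihy hy' r hr, ihz hz' r hr, add_zero]
    | smul c y hy ihy =>
      intro r hr
      have hy' : y ∈ J := by
        have h3 : Submodule.span (MvPowerSeries (Fin n) K) (s : Set (MvPowerSeries (Fin n) K)) = J := hs
        rw [← h3]
        exact hy
      have : (r • (⟨c • y, hx⟩ : J)) = (r * c) • ⟨y, hy'⟩ := by
        apply Subtype.ext
        simp [mul_assoc]
      rw [this]
      exact ihy hy' _ (Ideal.mul_mem_right _ _ hr)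
  obtain ⟨k, hk⟩ := Ideal.exists_pow_inf_eq_pow_smul
    (IsLocalRing.maximalIdeal (MvPowerSeries (Fin n) K)) J
  refine ⟨k + N0, fun x hx => ?_⟩
  have h3 : (x : MvPowerSeries (Fin n) K) ∈ mI n K N0 • J := by
    have h4 := hk (k + N0) (Nat.le_add_right _ _)
    have h5 : (x : MvPowerSeries (Fin n) K) ∈
        (IsLocalRing.maximalIdeal (MvPowerSeries (Fin n) K)) ^ (k + N0) •
          (⊤ : Submodule (MvPowerSeries (Fin n) K) (MvPowerSeries (Fin n) K)) ⊓ J := by
      refine ⟨?_, x.2⟩
      rw [← mI_eq_pow, smul_eq_mul, Ideal.mul_top]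
      exact hx
    rw [h4, Nat.add_sub_cancel_left, ← mI_eq_pow] at h5
    exact Submodule.smul_mono le_rfl
      (inf_le_right : (IsLocalRing.maximalIdeal (MvPowerSeries (Fin n) K)) ^ k •
        (⊤ : Submodule (MvPowerSeries (Fin n) K) (MvPowerSeries (Fin n) K)) ⊓ J ≤ J) h5
  have h6 : ∀ y ∈ mI n K N0 • J, ∃ hy : y ∈ J, f ⟨y, hy⟩ = 0 := by
    intro y hy
    refine Submodule.smul_induction_on hy (fun r hr z hz => ?_) (fun y z ihy ihz => ?_)
    · exact ⟨Ideal.mul_mem_left _ _ hz, h2 ⟨z, hz⟩ r hr⟩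
    · obtain ⟨hy1, hy2⟩ := ihy
      obtain ⟨hz1, hz2⟩ := ihz
      refine ⟨J.add_mem hy1 hz1, ?_⟩
      have : (⟨y + z, J.add_mem hy1 hz1⟩ : J) = ⟨y, hy1⟩ + ⟨z, hz1⟩ := rfl
      rw [this, map_add, hy2, hz2, add_zero]
  obtain ⟨_, h7⟩ := h6 _ h3
  exact h7

/-- Baer's criterion for the continuous functionals. -/
theorem DvE_baer : Module.Baer (MvPowerSeries (Fin n) K) (DvE_E n K) := by
  intro J g
  let f : J →ₗ[K] K :=
    { toFun := fun x => (g x).1 1
      map_add' := fun x y => by
        rw [map_add]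
        rfl
      map_smul' := fun c x => by
        have h1 : (c • x : J) = (C c : MvPowerSeries (Fin n) K) • x := by
          apply Subtype.ext
          change c • (x : MvPowerSeries (Fin n) K) = C c * (x : MvPowerSeries (Fin n) K)
          rw [MvPowerSeries.smul_eq_C_mul]
        rw [h1, map_smul, DvE_smul_apply, ← MvPowerSeries.smul_eq_C_mul, map_smul]
        rfl }
  have hg : ∀ (x : J) (s : MvPowerSeries (Fin n) K), f (s • x) = (g x).1 s := by
    intro x s
    change (g (s • x)).1 1 = _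
    rw [map_smul, DvE_smul_apply, mul_one]
  obtain ⟨N, hN⟩ := DvE_deep J f (fun x => by
    obtain ⟨N, hN⟩ := (g x).2
    exact ⟨N, fun r hr => by rw [hg, hN r hr]⟩)
  obtain ⟨F, hF1, hF2⟩ := DvE_ext0 (J.restrictScalars K) ((mI n K N).restrictScalars K) f
    (fun x hx => hN x hx)
  have hF2' : ∀ r ∈ mI n K N, F r = 0 := fun r hr => hF2 r hr
  have hF1' : ∀ x : J, F (x : MvPowerSeries (Fin n) K) = f x := fun x => hF1 x
  refine ⟨LinearMap.toSpanSingleton _ _ ⟨F, N, hF2'⟩, fun x hx => ?_⟩
  refine DvE_E_ext fun s => ?_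
  rw [LinearMap.toSpanSingleton_apply, DvE_smul_apply, ← hg, ← hF1']
  change F (x * s) = F (s * x)
  rw [mul_comm]

end Inj

variable {n : ℕ} {K : Type u} [Field K] {M : Type v} [AddCommGroup M]
  [Module (MvPowerSeries (Fin n) K) M] [Module K M] [IsScalarTower K (MvPowerSeries (Fin n) K) M]

theorem ContOn.mono {W W' : Submodule (MvPowerSeries (Fin n) K) M} (h : W ≤ W')
    {lam : Module.Dual K M} (hl : ContOn W' lam) : ContOn W lam := fun m hm => hl m (h hm)

theorem ContOn.add {W : Submodule (MvPowerSeries (Fin n) K) M} {lam mu : Module.Dual K M}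
    (h : ContOn W lam) (h' : ContOn W mu) : ContOn W (lam + mu) := by
  intro m hm
  obtain ⟨N, hN⟩ := h m hm
  obtain ⟨N', hN'⟩ := h' m hm
  refine ⟨max N N', fun r hr => ?_⟩
  rw [LinearMap.add_apply, hN r (mI_anti (le_max_left _ _) hr),
    hN' r (mI_anti (le_max_right _ _) hr), add_zero]

theorem ContOn.smul {W : Submodule (MvPowerSeries (Fin n) K) M} {lam : Module.Dual K M}
    (h : ContOn W lam) (c : K) : ContOn W (c • lam) := by
  intro m hm
  obtain ⟨N, hN⟩ := h m hm
  refine ⟨N, fun r hr => ?_⟩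
  rw [LinearMap.smul_apply, hN r hr, smul_zero]

/-- The transposed operator preserves continuity. -/
theorem ContOn.tnab {C : Conn n K M} {W W' : Submodule (MvPowerSeries (Fin n) K) M} (i : Fin n)
    (h : ∀ m ∈ W, C.nab i m ∈ W') (hW : W ≤ W') {lam : Module.Dual K M} (hl : ContOn W' lam) :
    ContOn W (B5a.tnab C i lam) := by
  intro m hm
  obtain ⟨N, hN⟩ := hl m (hW hm)
  obtain ⟨N', hN'⟩ := hl _ (h m hm)
  refine ⟨max (N + 1) N', fun r hr => ?_⟩
  change lam (C.nab i (r • m)) = 0
  rw [C.leib, map_add, hN _ (pderiv_mem_mI (mI_anti (le_max_left _ _) hr) i),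
    hN' r (mI_anti (le_max_right _ _) hr), add_zero]

theorem DvE_smul (c : K) (m : M) : c • m = (C c : MvPowerSeries (Fin n) K) • m := by
  conv_lhs => rw [← one_smul (MvPowerSeries (Fin n) K) m, ← smul_assoc]
  rw [MvPowerSeries.smul_eq_C_mul, mul_one]

/-- The extension theorem (injectivity of the injective hull of the residue field). -/
theorem ext_cont (W : Submodule (MvPowerSeries (Fin n) K) M) (lam : Module.Dual K M)
    (h : ContOn W lam) : ∃ lam' : Module.Dual K M,
      ContOn (⊤ : Submodule (MvPowerSeries (Fin n) K) M) lam' ∧ ∀ m ∈ W, lam' m = lam m := by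
  let g : W →ₗ[MvPowerSeries (Fin n) K] DvE_E n K :=
    { toFun := fun w => ⟨
        { toFun := fun r => lam (r • (w : M))
          map_add' := fun r s => by rw [add_smul, map_add]
          map_smul' := fun c r => by
            rw [MvPowerSeries.smul_eq_C_mul, mul_smul, ← DvE_smul, map_smul, RingHom.id_apply] },
        h w w.2⟩
      map_add' := fun w w' => by
        refine DvE_E_ext fun s => ?_
        change lam (s • ((w : M) + (w' : M))) = lam (s • (w : M)) + lam (s • (w' : M))
        rw [smul_add, map_add]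
      map_smul' := fun r w => by
        refine DvE_E_ext fun s => ?_
        change lam (s • r • (w : M)) = lam ((r * s) • (w : M))
        rw [smul_smul, mul_comm] }
  obtain ⟨Φ, hΦ⟩ := Module.Baer.extension_property (DvE_baer (n := n) (K := K)) W.subtype
    W.injective_subtype g
  refine ⟨
    { toFun := fun m => (Φ m).1 1
      map_add' := fun x y => by
        rw [map_add]
        rfl
      map_smul' := fun c x => by
        rw [DvE_smul (n := n), map_smul, DvE_smul_apply, ← MvPowerSeries.smul_eq_C_mul, map_smul]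
        rfl }, ?_, ?_⟩
  · intro m _
    obtain ⟨N, hN⟩ := (Φ m).2
    refine ⟨N, fun r hr => ?_⟩
    change (Φ (r • m)).1 1 = 0
    rw [map_smul, DvE_smul_apply, mul_one, hN r hr]
  · intro m hm
    change (Φ m).1 1 = lam m
    have h1 : Φ m = g ⟨m, hm⟩ := by
      rw [← hΦ]
      rfl
    rw [h1]
    change lam ((1 : MvPowerSeries (Fin n) K) • m) = lam m
    rw [one_smul]

/-- Glueing two functionals and extending. -/
theorem glue_cont (W1 W2 : Submodule (MvPowerSeries (Fin n) K) M) (lam1 lam2 : Module.Dual K M)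
    (h1 : ContOn W1 lam1) (h2 : ContOn W2 lam2) (hag : ∀ m, m ∈ W1 → m ∈ W2 → lam1 m = lam2 m) :
    ∃ lam' : Module.Dual K M,
      ContOn (⊤ : Submodule (MvPowerSeries (Fin n) K) M) lam' ∧ (∀ m ∈ W1, lam' m = lam1 m) ∧
      ∀ m ∈ W2, lam' m = lam2 m := by
  obtain ⟨F, hF1, hF2⟩ := DvE_glue (W1.restrictScalars K) (W2.restrictScalars K) lam1 lam2
    (fun x hx hx' => hag x hx hx')
  have hF1' : ∀ x ∈ W1, F x = lam1 x := fun x hx => hF1 x hx
  have hF2' : ∀ x ∈ W2, F x = lam2 x := fun x hx => hF2 x hx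
  have hc : ContOn (W1 ⊔ W2) F := by
    intro m hm
    obtain ⟨m1, hm1, m2, hm2, rfl⟩ := Submodule.mem_sup.1 hm
    obtain ⟨N, hN⟩ := h1 m1 hm1
    obtain ⟨N', hN'⟩ := h2 m2 hm2
    refine ⟨max N N', fun r hr => ?_⟩
    rw [smul_add, map_add, hF1' _ (W1.smul_mem r hm1), hF2' _ (W2.smul_mem r hm2),
      hN r (mI_anti (le_max_left _ _) hr), hN' r (mI_anti (le_max_right _ _) hr), add_zero]
  obtain ⟨lam', hc', he⟩ := ext_cont _ F hc
  refine ⟨lam', hc', fun m hm => ?_, fun m hm => ?_⟩
  · rw [he m (Submodule.mem_sup_left hm), hF1' m hm]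
  · rw [he m (Submodule.mem_sup_right hm), hF2' m hm]

end B5a
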