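import Pool.Agent.H.MP_b5a980_ag.FoA

set_option autoImplicit false
set_option linter.unusedSectionVars false
set_option linter.style.longLine false

/-!
The Cartan formula (MP_b5a980_ag, B5).
-/

namespace B5a

universe u v w

open MvPowerSeries

variable {n : ℕ} {K : Type u} [Field K] {M : Type v} [AddCommGroup M]
  [Module (MvPowerSeries (Fin n) K) M] [Module K M] [IsScalarTower K (MvPowerSeries (Fin n) K) M]

/-- Proof. `car` with `a = C.nab`, `b i` = multiplication by `X i` (they commute for different indices by `leib`, since `∂_i X_j = 0`). `Σ_{i∈I} nab_i (x_i m) + Σ_{i∉I} x_i nab_i m = Σ_{i∈I} (m + x_i nab_i m) + Σ_{i∉I} x_i nab_i m = theta m + |I| m`. -/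
theorem cartan (C : Conn n K M) (ω : Fm n M) (I : Finset (Fin n)) :
    dR C (iotaR n K M ω) I + iotaR n K M (dR C ω) I = C.theta (ω I) + (I.card : K) • ω I := by
  have h := car C.nab (fun i => mulR M (X i : MvPowerSeries (Fin n) K)) (fun i j hij m => by
    change C.nab i ((X j : MvPowerSeries (Fin n) K) • m) =
      (X j : MvPowerSeries (Fin n) K) • C.nab i m
    rw [C.leib, pderiv_X_of_ne (fun h => hij h.symm), zero_smul, zero_add]) ω I
  have h1 : dR C (iotaR n K M ω) I + iotaR n K M (dR C ω) I =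
      ∑ i ∈ I, C.nab i ((X i : MvPowerSeries (Fin n) K) • ω I) +
        ∑ i ∈ Iᶜ, (X i : MvPowerSeries (Fin n) K) • C.nab i (ω I) := h
  have h2 : ∀ i : Fin n, C.nab i ((X i : MvPowerSeries (Fin n) K) • ω I) =
      ω I + (X i : MvPowerSeries (Fin n) K) • C.nab i (ω I) := fun i => by
    rw [C.leib, pderiv_X_self, one_smul]
  rw [h1, Finset.sum_congr rfl fun i _ => h2 i, Finset.sum_add_distrib, add_assoc,
    Finset.sum_add_sum_compl, ← Conn.theta_apply, Finset.sum_const, ← Nat.cast_smul_eq_nsmul K,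
    add_comm]

theorem dR_dR (C : Conn n K M) (ω : Fm n M) : dR C (dR C ω) = 0 :=
  ext_ext C.nab C.comm ω

/-- Proof. The coefficient at `I` is a sum of `± nab_i (ω (I.erase i))`, `|I.erase i| = |I| - 1`, so it lies in `V (j - (|I|-1) - 1)`. -/
theorem dR_VF {C : Conn n K M} {V : ℤ → Submodule (MvPowerSeries (Fin n) K) M} (hV : Compat C V)
    {j : ℤ} {ω : Fm n M} (h : VF V j ω) : VF V j (dR C ω) := by
  intro I
  change ∑ i ∈ I, sg i I • C.nab i (ω (I.erase i)) ∈ V (j - I.card)
  refine Submodule.sum_mem _ fun i hi => zsmul_mem ?_ _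
  have h1 := hV.nab_mem _ i _ (h (I.erase i))
  have h2 : j - ((I.erase i).card : ℤ) - 1 = j - (I.card : ℤ) := by
    have h3 := Finset.card_erase_add_one hi
    have h4 : ((I.erase i).card : ℤ) + 1 = (I.card : ℤ) := by exact_mod_cast h3
    omega
  rwa [h2] at h1

theorem iotaR_VF {C : Conn n K M} {V : ℤ → Submodule (MvPowerSeries (Fin n) K) M}
    (hV : Compat C V) {j : ℤ} {ω : Fm n M} (h : VF V j ω) : VF V j (iotaR n K M ω) := by
  intro I
  change ∑ i ∈ Iᶜ, sg i I • ((X i : MvPowerSeries (Fin n) K) • ω (insert i I)) ∈ V (j - I.card)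
  refine Submodule.sum_mem _ fun i hi => zsmul_mem ?_ _
  have h1 := hV.x_mem _ i _ (h (insert i I))
  have h2 : j - ((insert i I).card : ℤ) + 1 = j - (I.card : ℤ) := by
    rw [Finset.card_insert_of_notMem (Finset.mem_compl.1 hi)]
    push_cast
    ring
  rwa [h2] at h1

/-- The Lie derivative `L = d iota + iota d`, on forms of degree `p` equal to `theta + p`. -/
theorem lie_apply (C : Conn n K M) {p : ℤ} {ω : Fm n M} (h : IsFm p ω) :
    dR C (iotaR n K M ω) + iotaR n K M (dR C ω) = fun I => C.theta (ω I) + (p : K) • ω I := by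
  funext I
  rw [Pi.add_apply, cartan]
  by_cases hI : (I.card : ℤ) = p
  · rw [← hI, Int.cast_natCast]
  · rw [h I hI, smul_zero, smul_zero]

end B5a
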