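import Pool.Agent.H.MP_b5a980_ag.Dv0
import Pool.Agent.H.MP_b5a980_ag.FoB

set_option autoImplicit false
set_option linter.unusedSectionVars false
set_option linter.style.longLine false

/-!
Families of functionals, the transposed de Rham differential (MP_b5a980_ag, part D).
-/

namespace B5a

universe u v w

open MvPowerSeries

variable {n : ℕ} {K : Type u} [Field K] {M : Type v} [AddCommGroup M]
  [Module (MvPowerSeries (Fin n) K) M] [Module K M] [IsScalarTower K (MvPowerSeries (Fin n) K) M]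

/-- The transposed de Rham differential on families of functionals:
`(tr λ)_J = Σ_{i ∉ J} ± λ_(J ∪ i) ∘ ∂_i`. -/
noncomputable def trd (C : Conn n K M) : Fm n (Module.Dual K M) →ₗ[K] Fm n (Module.Dual K M) :=
  con (tnab C)

/-- The pairing of families of functionals with forms. -/
noncomputable def pr (lam : Fm n (Module.Dual K M)) (ω : Fm n M) : K := ∑ J, lam J (ω J)

theorem DvT_sg (i : Fin n) (J : Finset (Fin n)) (h : i ∉ J) : sg i (insert i J) = sg i J :=
  FoA_in2 h (lt_irrefl i)

theorem DvT_trd (C : Conn n K M) (lam : Fm n (Module.Dual K M)) (J : Finset (Fin n)) (m : M) :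
    trd C lam J m = ∑ i ∈ Jᶜ, sg i J • lam (insert i J) (C.nab i m) := by
  have h : trd C lam J = ∑ i ∈ Jᶜ, sg i J • tnab C i (lam (insert i J)) := rfl
  rw [h, LinearMap.sum_apply]
  refine Finset.sum_congr rfl fun i _ => ?_
  rw [LinearMap.smul_apply]
  rfl

/-- Proof. `Σ_J λ_J (Σ_{i∈J} sg i J ∂_i ω_(J∖i)) = Σ_(J') Σ_{i∉J'} sg i (J'∪i) λ_(J'∪i) (∂_i ω_(J'))` and `sg i (insert i J') = sg i J'`. -/
theorem pr_trd (C : Conn n K M) (lam : Fm n (Module.Dual K M)) (ω : Fm n M) :
    pr (trd C lam) ω = pr lam (dR C ω) := by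
  unfold pr
  have h1 : ∀ J : Finset (Fin n), trd C lam J (ω J) =
      ∑ i ∈ Jᶜ, sg i J • lam (insert i J) (C.nab i (ω J)) := fun J => DvT_trd C lam J (ω J)
  have h2 : ∀ J : Finset (Fin n), lam J (dR C ω J) =
      ∑ i ∈ J, sg i J • lam J (C.nab i (ω (J.erase i))) := by
    intro J
    have h : dR C ω J = ∑ i ∈ J, sg i J • C.nab i (ω (J.erase i)) := rfl
    rw [h, map_sum]
    exact Finset.sum_congr rfl fun i _ => map_zsmul _ _ _
  rw [Finset.sum_congr rfl fun J _ => h1 J, Finset.sum_congr rfl fun J _ => h2 J,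
    Finset.sum_sigma', Finset.sum_sigma']
  refine Finset.sum_bij' (fun x _ => ⟨insert x.2 x.1, x.2⟩) (fun x _ => ⟨x.1.erase x.2, x.2⟩)
    ?_ ?_ ?_ ?_ ?_
  · rintro ⟨J, i⟩ _
    simp only [Finset.mem_sigma, Finset.mem_univ, true_and]
    exact Finset.mem_insert_self i J
  · rintro ⟨J, i⟩ _
    simp only [Finset.mem_sigma, Finset.mem_univ, true_and, Finset.mem_compl]
    exact Finset.notMem_erase i J
  · rintro ⟨J, i⟩ h
    simp only [Finset.mem_sigma, Finset.mem_univ, true_and, Finset.mem_compl] at h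
    simp only [Finset.erase_insert h]
  · rintro ⟨J, i⟩ h
    simp only [Finset.mem_sigma, Finset.mem_univ, true_and] at h
    simp only [Finset.insert_erase h]
  · rintro ⟨J, i⟩ h
    simp only [Finset.mem_sigma, Finset.mem_univ, true_and, Finset.mem_compl] at h
    simp only [Finset.erase_insert h, DvT_sg i J h]

theorem DvT_pr_single (lam : Fm n (Module.Dual K M)) (J : Finset (Fin n)) (m : M) :
    pr lam (Pi.single J m) = lam J m := by
  unfold pr
  rw [Finset.sum_eq_single J, Pi.single_eq_same]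
  · intro J' _ h
    rw [Pi.single_eq_of_ne h, map_zero]
  · intro h
    exact absurd (Finset.mem_univ J) h

/-- Proof. `con (con ..) = 0` for commuting operators; from `pr_trd` and `dR_dR` (forms with one nonzero coefficient separate functionals). -/
theorem trd_trd (C : Conn n K M) (lam : Fm n (Module.Dual K M)) : trd C (trd C lam) = 0 := by
  funext J
  refine LinearMap.ext fun m => ?_
  rw [← DvT_pr_single (trd C (trd C lam)), pr_trd, pr_trd, dR_dR]
  unfold pr
  exact Finset.sum_eq_zero fun I _ => map_zero _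

/-- The pairing with a family as a linear functional. -/
noncomputable def DvT_L (lam : Fm n (Module.Dual K M)) : Fm n M →ₗ[K] K :=
  ∑ J, (lam J).comp (LinearMap.proj J)

theorem DvT_L_apply (lam : Fm n (Module.Dual K M)) (ω : Fm n M) : DvT_L lam ω = pr lam ω := by
  unfold DvT_L pr
  rw [LinearMap.sum_apply]
  rfl

/-- families with coefficients in given submodules -/
def DvT_B (W : Finset (Fin n) → Submodule (MvPowerSeries (Fin n) K) M) :
    Submodule K (Fm n M) where
  carrier := {v | ∀ I, v I ∈ W I}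
  add_mem' := fun h h' I => (W I).add_mem (h I) (h' I)
  zero_mem' := fun I => (W I).zero_mem
  smul_mem' := fun c _ h I => (W I).smul_of_tower_mem c (h I)

/-- forms of degree `i` with coefficients in given submodules -/
def DvT_A (W : Finset (Fin n) → Submodule (MvPowerSeries (Fin n) K) M) (i : ℤ) :
    Submodule K (Fm n M) where
  carrier := {v | IsFm i v ∧ ∀ I, v I ∈ W I}
  add_mem' := fun h h' => ⟨fun I hI => by rw [Pi.add_apply, h.1 I hI, h'.1 I hI, add_zero],
    fun I => (W I).add_mem (h.2 I) (h'.2 I)⟩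
  zero_mem' := ⟨fun _ _ => rfl, fun I => (W I).zero_mem⟩
  smul_mem' := fun c _ h => ⟨fun I hI => by rw [Pi.smul_apply, h.1 I hI, smul_zero],
    fun I => (W I).smul_of_tower_mem c (h.2 I)⟩

/-- Duality in one graded piece.

`W1`, `W0` are families of submodules with `W1 I ≤ W0 I` (the steps `j+1` and `j`), such that closed forms modulo `W1` are exact modulo `W1`. Then closed functionals are exact.

Proof. Let `Λ ω = pr λ ω`. On the `K`-subspace `S` of `Fm n M` of all `dR ω + v`, `ω` a form of degree `i` with `ω I ∈ W0 I` and `v` with `v I ∈ W1 I` for all `I` put `μ (dR ω + v) = Λ ω`. Well defined: if `dR ω + v = 0` then `dR ω I ∈ W1 I`, so by `hex` `ω = dR η + w` with `η` of degree `i-1`, `η I ∈ W0 I`, `w I ∈ W1 I`: `Λ ω = pr λ (dR η) + pr λ w = pr (trd λ) η + 0 = 0`. Extend `μ` linearly to all of `Fm n M`, and let `μ_J m = μ (Pi.single J m)` if `|J| = i+1` and `μ_J = 0` otherwise. `μ_J` kills `W1 J`. For `m ∈ W0 J`, `|J| = i`: `(trd μ)_J m = pr (trd μ) (single J m) = pr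 μ (dR (single J m)) = Λ (single J m) = λ_J m` (the components of `dR (single J m)` have degree `i+1`). For `|J| ≠ i` both sides vanish. -/
theorem gr_dual {C : Conn n K M} (W1 W0 : Finset (Fin n) → Submodule (MvPowerSeries (Fin n) K) M)
    (i : ℤ)
    (hex : ∀ ω : Fm n M, IsFm i ω → (∀ I, ω I ∈ W0 I) → (∀ I, dR C ω I ∈ W1 I) →
      ∃ η : Fm n M, IsFm (i - 1) η ∧ (∀ I, η I ∈ W0 I) ∧ ∀ I, (ω - dR C η) I ∈ W1 I)
    (lam : Fm n (Module.Dual K M)) (hi : IsFm i lam) (hk : ∀ J, ∀ m ∈ W1 J, lam J m = 0)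
    (hc : ∀ J, ∀ m ∈ W0 J, trd C lam J m = 0) :
    ∃ mu : Fm n (Module.Dual K M), IsFm (i + 1) mu ∧ (∀ J, ∀ m ∈ W1 J, mu J m = 0) ∧
      ∀ J, ∀ m ∈ W0 J, lam J m = trd C mu J m := by
  classical
  -- the functional on the graph
  let Φ : (DvT_A W0 i × DvT_B W1) →ₗ[K] Fm n M :=
    LinearMap.coprod ((dR C).comp (DvT_A W0 i).subtype) (DvT_B W1).subtype
  let Ψ : Module.Dual K (DvT_A W0 i × DvT_B W1) :=
    (DvT_L lam).comp ((DvT_A W0 i).subtype.comp (LinearMap.fst K (DvT_A W0 i) (DvT_B W1)))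
  have hΨ : Ψ ∈ LinearMap.range Φ.dualMap := by
    rw [LinearMap.range_dualMap_eq_dualAnnihilator_ker, Submodule.mem_dualAnnihilator]
    rintro ⟨⟨ω, hω1, hω2⟩, ⟨v, hv⟩⟩ h
    rw [LinearMap.mem_ker] at h
    have h1 : dR C ω + v = 0 := h
    have h2 : ∀ I, dR C ω I ∈ W1 I := by
      intro I
      rw [eq_neg_of_add_eq_zero_left h1]
      exact (W1 I).neg_mem (hv I)
    obtain ⟨η, hη1, hη2, hη3⟩ := hex ω hω1 hω2 h2
    show DvT_L lam ω = 0
    have h3 : ω = dR C η + (ω - dR C η) := by abel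
    rw [h3, map_add, DvT_L_apply, DvT_L_apply, ← pr_trd]
    have h4 : pr (trd C lam) η = 0 := Finset.sum_eq_zero fun J _ => hc J _ (hη2 J)
    have h5 : pr lam (ω - dR C η) = 0 := Finset.sum_eq_zero fun J _ => hk J _ (hη3 J)
    rw [h4, h5, add_zero]
  obtain ⟨μ0, hμ0⟩ := hΨ
  have hμ : ∀ (ω : Fm n M) (_ : IsFm i ω) (_ : ∀ I, ω I ∈ W0 I) (v : Fm n M) (_ : ∀ I, v I ∈ W1 I),
      μ0 (dR C ω + v) = pr lam ω := by
    intro ω h1 h2 v hv
    have h3 := LinearMap.congr_fun hμ0 (⟨⟨ω, h1, h2⟩, ⟨v, hv⟩⟩ : DvT_A W0 i × DvT_B W1)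
    have h4 : μ0 (dR C ω + v) = DvT_L lam ω := h3
    rw [h4, DvT_L_apply]
  let mu : Fm n (Module.Dual K M) := fun J =>
    if (J.card : ℤ) = i + 1 then μ0.comp (LinearMap.single K (fun _ : Finset (Fin n) => M) J) else 0
  have hmu1 : ∀ (J : Finset (Fin n)) (m : M), (J.card : ℤ) = i + 1 →
      mu J m = μ0 (Pi.single J m) := by
    intro J m h
    show (if (J.card : ℤ) = i + 1 then
      μ0.comp (LinearMap.single K (fun _ : Finset (Fin n) => M) J) else 0) m = _
    rw [if_pos h]
    rfl
  have hmu2 : IsFm (i + 1) mu := fun J h => if_neg h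
  refine ⟨mu, hmu2, ?_, ?_⟩
  · intro J m hm
    by_cases h : (J.card : ℤ) = i + 1
    · rw [hmu1 J m h]
      have h1 : ∀ I, (Pi.single J m : Fm n M) I ∈ W1 I := by
        intro I
        by_cases h2 : I = J
        · subst h2
          rw [Pi.single_eq_same]
          exact hm
        · rw [Pi.single_eq_of_ne h2]
          exact (W1 I).zero_mem
      have h3 := hμ 0 (fun _ _ => rfl) (fun I => (W0 I).zero_mem) (Pi.single J m) h1
      rw [map_zero, zero_add] at h3
      rw [h3]
      exact Finset.sum_eq_zero fun I _ => map_zero _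
    · rw [hmu2 J h]
      rfl
  · intro J m hm
    by_cases h : (J.card : ℤ) = i
    · have h1 : ∀ I, (Pi.single J m : Fm n M) I ∈ W0 I := by
        intro I
        by_cases h2 : I = J
        · subst h2
          rw [Pi.single_eq_same]
          exact hm
        · rw [Pi.single_eq_of_ne h2]
          exact (W0 I).zero_mem
      have h0 : IsFm i (Pi.single J m : Fm n M) := by
        intro I hI
        have h2 : I ≠ J := fun h2 => hI (by rw [h2]; exact h)
        rw [Pi.single_eq_of_ne h2]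
      have h3 := hμ (Pi.single J m) h0 h1 0 (fun I => (W1 I).zero_mem)
      rw [add_zero, DvT_pr_single] at h3
      rw [← DvT_pr_single (trd C mu), pr_trd, ← h3]
      have h4 : IsFm (i + 1) (dR C (Pi.single J m : Fm n M)) := ext_isFm _ h0
      have h5 : dR C (Pi.single J m : Fm n M) =
          ∑ I, (Pi.single I (dR C (Pi.single J m : Fm n M) I) : Fm n M) :=
        (Finset.univ_sum_single _).symm
      conv_lhs => rw [h5]
      rw [map_sum]
      refine Finset.sum_congr rfl fun I _ => ?_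
      by_cases h6 : (I.card : ℤ) = i + 1
      · rw [hmu1 I _ h6]
      · rw [h4 I h6, map_zero, Pi.single_zero, map_zero]
    · have h1 : IsFm (i + 1 - 1) (trd C mu) := con_isFm _ hmu2
      rw [add_sub_cancel_right] at h1
      rw [hi J h, h1 J h]

end B5a
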