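import Pool.Agent.H.MP_b5a980_ag.SSA

set_option autoImplicit false
set_option linter.unusedSectionVars false
set_option linter.style.longLine false

/-!
Maps of filtered complexes and pages (MP_b5a980_ag).
-/

namespace B5a

universe u v w

variable {K : Type u} [Field K] {T : Type v} [AddCommGroup T] [Module K T] {T' : Type w}
  [AddCommGroup T'] [Module K T']

/-- a map of filtered complexes -/
structure FMap (X : FCx K T) (Y : FCx K T') (φ : T →ₗ[K] T') : Prop where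
  comm : ∀ (p m : ℤ) (x : T), x ∈ X.F p m → φ (X.d x) = Y.d (φ x)
  map : ∀ (p m : ℤ) (x : T), x ∈ X.F p m → φ x ∈ Y.F p m

/-- `φ` is injective on the page `E_r` -/
def EInj (X : FCx K T) (Y : FCx K T') (φ : T →ₗ[K] T') (r : ℤ) : Prop :=
  ∀ (p m : ℤ) (x : T), x ∈ X.Z r p m → φ x ∈ Y.B r p m → x ∈ X.B r p m

/-- `φ` is surjective on the page `E_r` -/
def ESurj (X : FCx K T) (Y : FCx K T') (φ : T →ₗ[K] T') (r : ℤ) : Prop :=
  ∀ (p m : ℤ) (y : T'), y ∈ Y.Z r p m → ∃ x ∈ X.Z r p m, φ x - y ∈ Y.B r p m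

variable {X : FCx K T} {Y : FCx K T'} {φ : T →ₗ[K] T'}

theorem FMap.map_Z (h : FMap X Y φ) {r p m : ℤ} {x : T} (hx : x ∈ X.Z r p m) :
    φ x ∈ Y.Z r p m := by
  refine ⟨h.map p m x hx.1, ?_⟩
  show Y.d (φ x) ∈ Y.F (p + r) (m + 1)
  rw [← h.comm p m x hx.1]
  exact h.map _ _ _ hx.2

theorem FMap.map_B (h : FMap X Y φ) {r p m : ℤ} {x : T} (hx : x ∈ X.B r p m) :
    φ x ∈ Y.B r p m := by
  obtain ⟨a, ha, c, hc, rfl⟩ := Submodule.mem_sup.mp hx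
  obtain ⟨b, hb, rfl⟩ := hc
  rw [map_add, h.comm _ _ b hb.1]
  exact Submodule.add_mem_sup (h.map_Z ha) ⟨φ b, h.map_Z hb, rfl⟩

/-- Proof. Let `y ∈ Z'_(r+1)^p`. There is `x ∈ Z_r^p` with `φ x - y ∈ B'_r`. `φ (d x) = d y + d(φ x - y)`, `d y ∈ F'^(p+r+1)`, so `φ (d x) ∈ B'_r^(p+r)`: `d y ∈ Z'_(r-1)^(p+r+1)` and `FCx.d_mem_B`. By injectivity `d x ∈ B_r^(p+r)`. `exists_rep`: `x' ∈ Z_(r+1)^p` with `x - x' ∈ B_r`. `φ x' - y ∈ B'_r ∩ Z'_(r+1)`, so in `B'_(r+1)` (`mem_B_succ`). -/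
theorem esurj_succ (h : FMap X Y φ) {r : ℤ} (hi : EInj X Y φ r) (hs : ESurj X Y φ r) :
    ESurj X Y φ (r + 1) := by
  intro p m y hy
  have hy' : y ∈ Y.Z r p m := Y.Z_anti r p m hy
  obtain ⟨x, hx, hxy⟩ := hs p m y hy'
  have h1 : φ (X.d x) ∈ Y.B r (p + r) (m + 1) := by
    have e : φ (X.d x) = Y.d y + Y.d (φ x - y) := by
      rw [h.comm p m x hx.1, map_sub]; abel
    rw [e]
    refine Submodule.add_mem _ (Submodule.mem_sup_left ⟨Y.SSA_mem_F_congr (by ring) rfl hy.2, ?_⟩)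
      (Y.d_mem_B hxy)
    show Y.d (Y.d y) ∈ Y.F _ _
    rw [Y.dd _ _ y hy.1]
    exact Submodule.zero_mem _
  have h2 := hi _ _ _ (X.d_mem_Z hx) h1
  obtain ⟨x', hx', hB, -⟩ := X.exists_rep hx h2
  refine ⟨x', hx', Y.mem_B_succ ?_ (Submodule.sub_mem _ (h.map_Z hx') hy)⟩
  have e : φ x' - y = (φ x - y) - φ (x - x') := by rw [map_sub]; abel
  rw [e]
  exact Submodule.sub_mem _ hxy (h.map_B hB)

/-- Proof. Let `x ∈ Z_(r+1)^p`, `φ x = z' + d w'`, `z' ∈ Z'_r^(p+1)`, `w' ∈ Z'_r^(p-r)`. By surjectivity `w' = φ w + b'`, `w ∈ Z_r^(p-r)`, `b' ∈ B'_r^(p-r)`, and `d b' ∈ d Z'_(r-1)^(p-r+1)`. So `φ (x - d w) ∈ Z'_(r-1)^(p+1) + d Z'_(r-1)^(p-r+1) = B'_r^p`, and `x - d w ∈ Z_r^p`, so `x - d w ∈ B_r^p` by injectivity; it is in `Z_(r+1)^p`, hence in `B_(r+1)^p`; `d w ∈ B_(r+1)^p`. -/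
theorem einj_succ (h : FMap X Y φ) {r : ℤ} (hi : EInj X Y φ r) (hs : ESurj X Y φ r) :
    EInj X Y φ (r + 1) := by
  intro p m x hx hB
  obtain ⟨z', hz', c, hc, hzc⟩ := Submodule.mem_sup.mp hB
  obtain ⟨w', hw', rfl⟩ := hc
  have hw'' : w' ∈ Y.Z r (p - r) (m - 1) := by
    have e1 : p - (r + 1) + 1 = p - r := by ring
    have e2 : r + 1 - 1 = r := by ring
    rw [e1, e2] at hw'
    exact hw'
  have hz'' : z' ∈ Y.Z r (p + 1) m := by
    have e2 : r + 1 - 1 = r := by ring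
    rw [e2] at hz'
    exact hz'
  obtain ⟨w, hw, hwB⟩ := hs _ _ _ hw''
  obtain ⟨b1, hb1, c, hc, hbc⟩ := Submodule.mem_sup.mp hwB
  obtain ⟨b2, hb2, rfl⟩ := hc
  have hdw : X.d w ∈ X.Z r p m := by
    have h1 := X.d_mem_Z hw
    have e1 : p - r + r = p := by ring
    have e2 : m - 1 + 1 = m := by ring
    rw [e1, e2] at h1
    exact h1
  have h1 : φ (x - X.d w) ∈ Y.B r p m := by
    have e : φ (x - X.d w) = z' + Y.d (-b1) := by
      have e3 : Y.d (φ w) - Y.d w' = Y.d b1 := by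
        rw [← map_sub, ← hbc, map_add, Y.dd _ _ b2 hb2.1, add_zero]
      rw [map_sub, h.comm _ _ w hw.1, ← hzc, map_neg, ← e3]; abel
    rw [e]
    refine Submodule.add_mem_sup ⟨hz''.1, Y.F_le (by omega) _ hz''.2⟩ ⟨-b1, ?_, rfl⟩
    refine Submodule.neg_mem _ ?_
    exact hb1
  have h2 := hi _ _ _ (Submodule.sub_mem _ (X.Z_anti r p m hx) hdw) h1
  have hddw : X.d (X.d w) = 0 := X.dd _ _ w hw.1
  have h3 : x - X.d w ∈ X.Z (r + 1) p m := by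
    refine ⟨Submodule.sub_mem _ hx.1 hdw.1, ?_⟩
    show X.d (x - X.d w) ∈ X.F _ _
    rw [map_sub, hddw, sub_zero]
    exact hx.2
  have h4 := X.mem_B_succ h2 h3
  have h5 : X.d w ∈ X.B (r + 1) p m := by
    refine Submodule.mem_sup_right ⟨w, ?_, rfl⟩
    have e1 : p - (r + 1) + 1 = p - r := by ring
    have e2 : r + 1 - 1 = r := by ring
    rw [e1, e2]
    exact hw
  have e : x = (x - X.d w) + X.d w := by abel
  rw [e]
  exact Submodule.add_mem _ h4 h5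

theorem e_all (h : FMap X Y φ) (hi : EInj X Y φ 2) (hs : ESurj X Y φ 2) (r : ℤ) (hr : 2 ≤ r) :
    EInj X Y φ r ∧ ESurj X Y φ r := by
  induction r, hr using Int.le_induction with
  | base => exact ⟨hi, hs⟩
  | succ n hn ih => exact ⟨einj_succ h ih.1 ih.2, esurj_succ h ih.1 ih.2⟩

theorem SSB_lift_Z (h : FMap X Y φ) (hinj : ∀ (p m : ℤ) (x : T), x ∈ X.F p m → φ x = 0 → x = 0)
    (hsurj : ∀ (p m : ℤ) (y : T'), y ∈ Y.F p m → ∃ x ∈ X.F p m, φ x = y) {r p m : ℤ} {y : T'}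
    (hy : y ∈ Y.Z r p m) : ∃ x ∈ X.Z r p m, φ x = y := by
  obtain ⟨x, hx, rfl⟩ := hsurj p m y hy.1
  refine ⟨x, ⟨hx, ?_⟩, rfl⟩
  obtain ⟨z, hz, hz2⟩ := hsurj _ _ _ hy.2
  have e : X.d x - z = 0 := by
    refine hinj (min p (p + r)) (m + 1) _ (Submodule.sub_mem _
      (X.F_le (min_le_left _ _) _ (X.dF _ _ _ hx)) (X.F_le (min_le_right _ _) _ hz)) ?_
    rw [map_sub, hz2, h.comm p m x hx, sub_self]
  show X.d x ∈ X.F (p + r) (m + 1)
  rw [sub_eq_zero.mp e]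
  exact hz

/-- Proof. `φ` maps `F p m` bijectively onto `F' p m` for all `p, m`, so `Z_r` onto `Z'_r` and `B_r` onto `B'_r`. -/
theorem e_of_bij (h : FMap X Y φ) (hinj : ∀ (p m : ℤ) (x : T), x ∈ X.F p m → φ x = 0 → x = 0)
    (hsurj : ∀ (p m : ℤ) (y : T'), y ∈ Y.F p m → ∃ x ∈ X.F p m, φ x = y) (r : ℤ) :
    EInj X Y φ r ∧ ESurj X Y φ r := by
  constructor
  · intro p m x hx hB
    obtain ⟨a', ha', c, hc, hac⟩ := Submodule.mem_sup.mp hB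
    obtain ⟨b', hb', rfl⟩ := hc
    obtain ⟨a, ha, rfl⟩ := SSB_lift_Z h hinj hsurj ha'
    obtain ⟨b, hb, rfl⟩ := SSB_lift_Z h hinj hsurj hb'
    have hdb : X.d b ∈ X.F p m := X.SSA_mem_F_congr (by ring) (by ring) hb.2
    have e : x - (a + X.d b) = 0 := by
      refine hinj p m _ (Submodule.sub_mem _ hx.1 (Submodule.add_mem _ (X.F_le (by omega) _ ha.1) hdb)) ?_
      rw [map_sub, map_add, h.comm _ _ b hb.1, hac, sub_self]
    rw [sub_eq_zero.mp e]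
    exact Submodule.add_mem_sup ha ⟨b, hb, rfl⟩
  · intro p m y hy
    obtain ⟨x, hx, rfl⟩ := SSB_lift_Z h hinj hsurj hy
    refine ⟨x, hx, ?_⟩
    rw [sub_self]
    exact Submodule.zero_mem _

end B5a
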