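import Pool.Agent.H.MP_b5a980_ag.CeA
import Pool.Agent.H.MP_b5a980_ag.Dc0
import Pool.Agent.H.MP_b5a980_ag.DvE
import Pool.Agent.H.MP_b5a980_ag.DvT
import Pool.Agent.H.MP_b5a980_ag.SSB

set_option autoImplicit false
set_option linter.unusedSectionVars false
set_option linter.style.longLine false

/-!
The filtered complex of continuous functionals on the Cech - de Rham complex (MP_b5a980_ag, part D).
-/

namespace B5a

universe u v w

open MvPowerSeries

variable {n r : ℕ} {K : Type u} [Field K]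
  {W : Finset (Fin n) → Submodule (MvPowerSeries (Fin n) K) (Fm r (FF n K))}

/-- linear extension of a functional -/
theorem Dc1_ext1 (V : Submodule (MvPowerSeries (Fin n) K) (Fm r (FF n K)))
    (lam : Module.Dual K V) : ∃ L : Module.Dual K (Fm r (FF n K)), ∀ c : V, L c = lam c := by
  obtain ⟨g, hg⟩ := LinearMap.exists_extend (p := V.restrictScalars K) lam
  exact ⟨g, fun c => DFunLike.congr_fun hg c⟩

theorem Dc1_ext (lam : DW W) : ∃ L : Fm n (Module.Dual K (Fm r (FF n K))),
    ∀ I (c : W I), L I c = lam I c := by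
  choose L hL using fun I => Dc1_ext1 (W I) (lam I)
  exact ⟨L, hL⟩

/-- the transposed Cech differential -/
noncomputable def Dc1_cT (n r : ℕ) (K : Type u) [Field K] :
    Module.Dual K (Fm r (FF n K)) →ₗ[K] Module.Dual K (Fm r (FF n K)) :=
  Module.Dual.transpose ((cech n r K).restrictScalars K)

theorem Dc1_cT_apply (L : Module.Dual K (Fm r (FF n K))) (c : Fm r (FF n K)) :
    Dc1_cT n r K L c = L (cech n r K c) := rfl

theorem Dc1_tnab_apply (i : Fin n) (L : Module.Dual K (Fm r (FF n K))) (c : Fm r (FF n K)) :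
    tnab (cconn n r K) i L c = L ((cconn n r K).nab i c) := rfl

theorem Dc1_cT_cT (L : Module.Dual K (Fm r (FF n K))) : Dc1_cT n r K (Dc1_cT n r K L) = 0 := by
  refine LinearMap.ext fun c => ?_
  rw [Dc1_cT_apply, Dc1_cT_apply, cech_cech, map_zero, LinearMap.zero_apply]

theorem Dc1_cT_tnab (i : Fin n) (L : Module.Dual K (Fm r (FF n K))) :
    tnab (cconn n r K) i (Dc1_cT n r K L) = Dc1_cT n r K (tnab (cconn n r K) i L) := by
  refine LinearMap.ext fun c => ?_
  rw [Dc1_cT_apply, Dc1_tnab_apply, Dc1_cT_apply, Dc1_tnab_apply, cech_nab]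

theorem Dc1_trd_apply (L : Fm n (Module.Dual K (Fm r (FF n K)))) (I : Finset (Fin n)) :
    trd (cconn n r K) L I = ∑ i ∈ Iᶜ, sg i I • tnab (cconn n r K) i (L (insert i I)) := rfl

/-- the differential on families of functionals of the whole space -/
noncomputable def Dc1_D (L : Fm n (Module.Dual K (Fm r (FF n K)))) :
    Fm n (Module.Dual K (Fm r (FF n K))) :=
  fun I => -(trd (cconn n r K) L I) + ((-1 : ℤ) ^ (n - I.card)) • Dc1_cT n r K (L I)

theorem Dc1_D_D (L : Fm n (Module.Dual K (Fm r (FF n K)))) : Dc1_D (Dc1_D L) = 0 := by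
  have h1 : (Dc1_D L : Fm n (Module.Dual K (Fm r (FF n K)))) = -(trd (cconn n r K) L) +
      fun I => ((-1 : ℤ) ^ (n - I.card)) • Dc1_cT n r K (L I) := rfl
  have h2 : ∀ I : Finset (Fin n), trd (cconn n r K)
      (fun I => ((-1 : ℤ) ^ (n - I.card)) • Dc1_cT n r K (L I)) I =
      -(((-1 : ℤ) ^ (n - I.card)) • Dc1_cT n r K (trd (cconn n r K) L I)) := by
    intro I
    rw [Dc1_trd_apply, Dc1_trd_apply, map_sum, Finset.smul_sum, ← Finset.sum_neg_distrib]
    refine Finset.sum_congr rfl fun i hi => ?_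
    have hi' : i ∉ I := Finset.mem_compl.mp hi
    have h3 : (insert i I).card = I.card + 1 := Finset.card_insert_of_notMem hi'
    have h4 : (insert i I).card ≤ n := by
      have := Finset.card_le_univ (insert i I)
      rwa [Fintype.card_fin] at this
    obtain ⟨k, hk⟩ : ∃ k, n - I.card = k + 1 := ⟨n - I.card - 1, by omega⟩
    have h5 : n - (insert i I).card = k := by omega
    rw [h5, hk, map_zsmul, map_zsmul, Dc1_cT_tnab, pow_succ, mul_neg_one, neg_smul, neg_neg,
      smul_comm]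
  funext I
  change -(trd (cconn n r K) (Dc1_D L) I) + ((-1 : ℤ) ^ (n - I.card)) •
    Dc1_cT n r K (-(trd (cconn n r K) L I) + ((-1 : ℤ) ^ (n - I.card)) • Dc1_cT n r K (L I)) = 0
  rw [h1, map_add, map_neg, trd_trd, neg_zero, zero_add, h2, map_add, map_neg, map_zsmul,
    Dc1_cT_cT, smul_zero, add_zero, neg_neg, smul_neg, add_neg_cancel]

theorem Dc1_apply (hW : WSys W) (lam : DW W) (I : Finset (Fin n)) (c : W I) :
    dDual hW lam I c = -(∑ i ∈ (Iᶜ).attach, sg (i : Fin n) I •
          lam (insert (i : Fin n) I) ⟨(cconn n r K).nab i c,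
            hW.nab_mem I i (Finset.mem_compl.mp i.2) c c.2⟩) +
        ((-1 : ℤ) ^ (n - I.card)) • lam I ⟨cech n r K c, hW.cech_mem I c c.2⟩ := rfl

theorem Dc1_dDual (hW : WSys W) {lam : DW W} {L : Fm n (Module.Dual K (Fm r (FF n K)))}
    (hL : ∀ I (c : W I), L I c = lam I c) (I : Finset (Fin n)) (c : W I) :
    Dc1_D L I c = dDual hW lam I c := by
  rw [Dc1_apply]
  change -(trd (cconn n r K) L I c) + ((-1 : ℤ) ^ (n - I.card)) • L I (cech n r K c) = _
  rw [Dc1_trd_apply, LinearMap.sum_apply, ← Finset.sum_attach]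
  refine congrArg₂ _ (congrArg _ (Finset.sum_congr rfl fun i _ => ?_)) ?_
  · change sg (i : Fin n) I • L (insert (i : Fin n) I) ((cconn n r K).nab i c) = _
    exact congrArg _ (hL _ ⟨_, hW.nab_mem I i (Finset.mem_compl.mp i.2) c c.2⟩)
  · exact congrArg _ (hL _ ⟨_, hW.cech_mem I c c.2⟩)

/-- Proof. The operators `λ ↦ λ ∘ ∂_i`, with signs, form the square-zero operator `con`; `cech_cech`; the mixed terms cancel: `cech_nab` and `(-1)^(n-|I|)` against `(-1)^(n-|I∪i|)`. -/
theorem dDual_dDual (hW : WSys W) (lam : DW W) : dDual hW (dDual hW lam) = 0 := by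
  obtain ⟨L, hL⟩ := Dc1_ext lam
  funext I
  refine LinearMap.ext fun c => ?_
  rw [← Dc1_dDual hW (Dc1_dDual hW hL), Dc1_D_D]
  rfl

theorem Dc1_le (hW : WSys W) {I : Finset (Fin n)} {i : Fin n} (hi : i ∉ I) :
    W I ≤ W (insert i I) := by
  intro c hc
  have h1 := hW.nab_mem I i hi _ ((W I).smul_mem (X i : MvPowerSeries (Fin n) K) hc)
  have h2 := (W (insert i I)).smul_mem (X i : MvPowerSeries (Fin n) K) (hW.nab_mem I i hi c hc)
  rw [(cconn n r K).leib, pderiv_X_self, one_smul] at h1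
  have h3 := Submodule.sub_mem _ h1 h2
  rwa [add_sub_cancel_right] at h3

theorem Dc1_contW {V : Submodule (MvPowerSeries (Fin n) K) (Fm r (FF n K))}
    {lam : Module.Dual K V} {L : Module.Dual K (Fm r (FF n K))} (hL : ∀ c : V, L c = lam c) :
    ContW V lam ↔ ContOn V L := by
  constructor
  · intro h c hc
    obtain ⟨N, hN⟩ := h ⟨c, hc⟩
    exact ⟨N, fun a ha => (hL (a • ⟨c, hc⟩)).trans (hN a ha)⟩
  · intro h c
    obtain ⟨N, hN⟩ := h c c.2
    exact ⟨N, fun a ha => (hL (a • c)).symm.trans (hN a ha)⟩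

theorem Dc1_contOn_zero (V : Submodule (MvPowerSeries (Fin n) K) (Fm r (FF n K))) :
    ContOn V (0 : Module.Dual K (Fm r (FF n K))) := fun _ _ => ⟨0, fun _ _ => rfl⟩

theorem Dc1_contOn_zsmul {V : Submodule (MvPowerSeries (Fin n) K) (Fm r (FF n K))}
    {L : Module.Dual K (Fm r (FF n K))} (h : ContOn V L) (a : ℤ) : ContOn V (a • L) := by
  intro m hm
  obtain ⟨N, hN⟩ := h m hm
  refine ⟨N, fun b hb => ?_⟩
  rw [LinearMap.smul_apply, hN b hb, smul_zero]

theorem Dc1_contOn_add {V : Submodule (MvPowerSeries (Fin n) K) (Fm r (FF n K))}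
    {L L' : Module.Dual K (Fm r (FF n K))} (h : ContOn V L) (h' : ContOn V L') :
    ContOn V (L + L') := by
  intro m hm
  obtain ⟨N, hN⟩ := h m hm
  obtain ⟨N', hN'⟩ := h' m hm
  refine ⟨max N N', fun b hb => ?_⟩
  rw [LinearMap.add_apply, hN b (mI_anti (le_max_left _ _) hb),
    hN' b (mI_anti (le_max_right _ _) hb), add_zero]

theorem Dc1_contOn_sum {ι : Type*} (s : Finset ι)
    {V : Submodule (MvPowerSeries (Fin n) K) (Fm r (FF n K))}
    {L : ι → Module.Dual K (Fm r (FF n K))} (h : ∀ i ∈ s, ContOn V (L i)) :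
    ContOn V (∑ i ∈ s, L i) := by
  classical
  induction s using Finset.induction_on with
  | empty =>
    rw [Finset.sum_empty]
    exact Dc1_contOn_zero V
  | insert a s ha ih =>
    rw [Finset.sum_insert ha]
    exact Dc1_contOn_add (h a (Finset.mem_insert_self a s))
      (ih fun i hi => h i (Finset.mem_insert_of_mem hi))

theorem Dc1_contOn_cT {V : Submodule (MvPowerSeries (Fin n) K) (Fm r (FF n K))}
    (hV : ∀ c ∈ V, cech n r K c ∈ V) {L : Module.Dual K (Fm r (FF n K))} (h : ContOn V L) :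
    ContOn V (Dc1_cT n r K L) := by
  intro m hm
  obtain ⟨N, hN⟩ := h _ (hV m hm)
  refine ⟨N, fun b hb => ?_⟩
  rw [Dc1_cT_apply, map_smul]
  exact hN b hb

theorem Dc1_contOn_D (hW : WSys W) {L : Fm n (Module.Dual K (Fm r (FF n K)))}
    (h : ∀ I, ContOn (W I) (L I)) (I : Finset (Fin n)) : ContOn (W I) (Dc1_D L I) := by
  have h0 : (Dc1_D L I : Module.Dual K (Fm r (FF n K))) = (-1 : ℤ) • (trd (cconn n r K) L I) +
      ((-1 : ℤ) ^ (n - I.card)) • Dc1_cT n r K (L I) := by
    rw [neg_one_smul]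
    rfl
  rw [h0]
  refine Dc1_contOn_add (Dc1_contOn_zsmul ?_ _)
    (Dc1_contOn_zsmul (Dc1_contOn_cT (hW.cech_mem I) (h I)) _)
  rw [Dc1_trd_apply]
  refine Dc1_contOn_sum _ fun i hi => Dc1_contOn_zsmul ?_ _
  have hi' : i ∉ I := Finset.mem_compl.mp hi
  exact ContOn.tnab i (hW.nab_mem I i hi') (Dc1_le hW hi') (h (insert i I))

theorem Dc1_card (I : Finset (Fin n)) : I.card ≤ n := by
  have := Finset.card_le_univ I
  rwa [Fintype.card_fin] at this

theorem Dc1_cech_apply (c : Fm r (FF n K)) (S : Finset (Fin r)) :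
    cech n r K c S = ∑ s ∈ S, sg s S • c (S.erase s) := rfl

theorem Dc1_nab_apply (i : Fin n) (c : Fm r (FF n K)) (S : Finset (Fin r)) :
    (cconn n r K).nab i c S = dF n K i (c S) := rfl

/-- only the value of `λ_I` matters if the larger components vanish -/
theorem Dc1_top (hW : WSys W) {lam : DW W} {I : Finset (Fin n)}
    (h : ∀ i ∉ I, lam (insert i I) = 0) (c : W I) :
    dDual hW lam I c = ((-1 : ℤ) ^ (n - I.card)) •
      lam I ⟨cech n r K c, hW.cech_mem I c c.2⟩ := by
  rw [Dc1_apply, Finset.sum_eq_zero, neg_zero, zero_add]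
  intro i _
  rw [h i (Finset.mem_compl.mp i.2), LinearMap.zero_apply, smul_zero]

/-- Proof. Continuity: as `ContOn.tnab`, and `cech` is `R`-linear. For `|I| > n - p` also `|I ∪ i| > n - p`. Cech degrees: if `c` has no component of degree `2n - (m+1) - |I|` then `∂_i c` has none of degree `2n - m - |I ∪ i|`, and `δ c` has none of degree `2n - m - |I|`. -/
theorem dDual_mem (hW : WSys W) (p m : ℤ) {lam : DW W} (h : lam ∈ dualF hW p m) :
    dDual hW lam ∈ dualF hW p (m + 1) := by
  obtain ⟨h1, h2, h3⟩ := h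
  obtain ⟨L, hL⟩ := Dc1_ext lam
  refine ⟨fun I => ?_, fun I hI => ?_, fun I c hc => ?_⟩
  · exact (Dc1_contW (Dc1_dDual hW hL I)).2
      (Dc1_contOn_D hW (fun J => (Dc1_contW (hL J)).1 (h1 J)) I)
  · refine LinearMap.ext fun c => ?_
    rw [Dc1_top hW, h2 I hI, LinearMap.zero_apply, LinearMap.zero_apply, smul_zero]
    intro i hi
    refine h2 _ ?_
    rw [Finset.card_insert_of_notMem hi]
    push_cast
    omega
  · rw [Dc1_apply, Finset.sum_eq_zero, neg_zero, zero_add, h3, smul_zero]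
    · intro S hS
      change cech n r K c S = 0
      rw [Dc1_cech_apply]
      refine Finset.sum_eq_zero fun s hs => ?_
      rw [hc, CeA_z0]
      rw [Finset.card_erase_of_mem hs]
      have := Finset.card_pos.2 ⟨s, hs⟩
      push_cast [Nat.cast_sub (show 1 ≤ S.card from this)]
      omega
    · intro i _
      rw [h3, smul_zero]
      intro S hS
      change dF n K i ((c : Fm r (FF n K)) S) = 0
      rw [hc, map_zero]
      rw [hS, Finset.card_insert_of_notMem (Finset.mem_compl.mp i.2)]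
      push_cast
      ring

/-- The filtered complex of continuous functionals on the system `W`. -/
noncomputable def DSS (hW : WSys W) : FCx K (DW W) where
  d := dDual hW
  F := dualF hW
  dd := fun _ _ x _ => dDual_dDual hW x
  anti := by
    rintro p m x ⟨h1, h2, h3⟩
    exact ⟨h1, fun I h => h2 I (by omega), h3⟩
  dF := fun p m _ h => dDual_mem hW p m h

theorem DSS_bounded (hW : WSys W) : (DSS hW).Bounded n := by
  constructor
  · intro p m hp
    apply le_antisymm
    · rintro x ⟨h1, h2, h3⟩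
      refine ⟨h1, fun I h => ?_, h3⟩
      have := Dc1_card I
      exfalso
      omega
    · rintro x ⟨h1, h2, h3⟩
      refine ⟨h1, fun I h => ?_, h3⟩
      have := Dc1_card I
      exfalso
      omega
  · intro p m hp
    rw [eq_bot_iff]
    rintro x ⟨h1, h2, h3⟩
    rw [Submodule.mem_bot]
    funext I
    exact h2 I (by omega)

theorem Dc1_ins {lam : DW W} {p : ℤ} (h : ∀ I, (n : ℤ) - p < I.card → lam I = 0)
    {I : Finset (Fin n)} (hI : (n : ℤ) - p ≤ I.card) : ∀ i ∉ I, lam (insert i I) = 0 := by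
  intro i hi
  refine h _ ?_
  rw [Finset.card_insert_of_notMem hi]
  push_cast
  omega

theorem Dc1_sgn {k : ℕ} {x : K} (h : ((-1 : ℤ) ^ k) • x = 0) : x = 0 := by
  have h1 : ((-1 : ℤ) ^ k) • ((-1 : ℤ) ^ k) • x = x := by
    rw [smul_smul, ← mul_pow]
    norm_num
  rw [← h1, h, smul_zero]

/-- `Z_1`: the functionals `λ_I` with `|I| = n - p` kill the Cech coboundaries. -/
theorem mem_DZ1_iff (hW : WSys W) {p m : ℤ} {lam : DW W} (h : lam ∈ dualF hW p m) :
    lam ∈ (DSS hW).Z 1 p m ↔ ∀ (I : Finset (Fin n)), (I.card : ℤ) = n - p → ∀ c : W I,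
      lam I ⟨cech n r K c, hW.cech_mem I c c.2⟩ = 0 := by
  constructor
  · intro hz I hI c
    have h1 : dDual hW lam ∈ dualF hW (p + 1) (m + 1) := hz.2
    have h2 := DFunLike.congr_fun (h1.2.1 I (by omega)) c
    rw [Dc1_top hW (Dc1_ins h.2.1 (by omega)), LinearMap.zero_apply] at h2
    exact Dc1_sgn h2
  · intro hz
    refine ⟨h, ?_⟩
    change dDual hW lam ∈ dualF hW (p + 1) (m + 1)
    obtain ⟨h1, h2, h3⟩ := dDual_mem hW p m h
    refine ⟨h1, fun I hI => ?_, h3⟩
    by_cases hI' : (n : ℤ) - p < I.card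
    · exact h2 I hI'
    · refine LinearMap.ext fun c => ?_
      rw [Dc1_top hW (Dc1_ins h.2.1 (by omega)), hz I (by omega), smul_zero,
        LinearMap.zero_apply]

/-- `Z_2`. -/
theorem mem_DZ2_iff (hW : WSys W) {p m : ℤ} {lam : DW W} (h : lam ∈ dualF hW p m) :
    lam ∈ (DSS hW).Z 2 p m ↔ (∀ (I : Finset (Fin n)), (I.card : ℤ) = n - p → ∀ c : W I,
      lam I ⟨cech n r K c, hW.cech_mem I c c.2⟩ = 0) ∧
      ∀ (I : Finset (Fin n)), (I.card : ℤ) = n - p - 1 → dDual hW lam I = 0 := by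
  constructor
  · intro hz
    have h1 : dDual hW lam ∈ dualF hW (p + 2) (m + 1) := hz.2
    refine ⟨(mem_DZ1_iff hW h).1 ⟨h, ?_⟩, fun I hI => h1.2.1 I (by omega)⟩
    change dDual hW lam ∈ dualF hW (p + 1) (m + 1)
    exact ⟨h1.1, fun I hI => h1.2.1 I (by omega), h1.2.2⟩
  · rintro ⟨hz, hz2⟩
    refine ⟨h, ?_⟩
    change dDual hW lam ∈ dualF hW (p + 2) (m + 1)
    have h0 : dDual hW lam ∈ dualF hW (p + 1) (m + 1) := ((mem_DZ1_iff hW h).2 hz).2
    obtain ⟨h1, h2, h3⟩ := h0
    refine ⟨h1, fun I hI => ?_, h3⟩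
    by_cases hI' : (n : ℤ) - (p + 1) < I.card
    · exact h2 I hI'
    · exact hz2 I (by omega)

/-- restriction of functionals to a smaller system -/
noncomputable def resD {W' : Finset (Fin n) → Submodule (MvPowerSeries (Fin n) K) (Fm r (FF n K))}
    (hle : ∀ I, W' I ≤ W I) : DW W →ₗ[K] DW W' where
  toFun lam := fun I => (lam I).comp
    ((Submodule.inclusion (hle I)).restrictScalars K)
  map_add' := by
    intro x y
    rfl
  map_smul' := by
    intro c x
    rfl

theorem Dc1_resD_apply {W' : Finset (Fin n) → Submodule (MvPowerSeries (Fin n) K) (Fm r (FF n K))}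
    (hle : ∀ I, W' I ≤ W I) (lam : DW W) (I : Finset (Fin n)) (c : W' I) :
    resD hle lam I c = lam I ⟨c, hle I c.2⟩ := rfl

theorem resD_FMap {W' : Finset (Fin n) → Submodule (MvPowerSeries (Fin n) K) (Fm r (FF n K))}
    (hW : WSys W) (hW' : WSys W') (hle : ∀ I, W' I ≤ W I) :
    FMap (DSS hW) (DSS hW') (resD hle) := by
  constructor
  · intro p m x _
    funext I
    refine LinearMap.ext fun c => ?_
    rfl
  · rintro p m x ⟨h1, h2, h3⟩
    refine ⟨fun I c => ?_, fun I hI => ?_, fun I c hc => ?_⟩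
    · obtain ⟨N, hN⟩ := h1 I ⟨c, hle I c.2⟩
      exact ⟨N, fun a ha => hN a ha⟩
    · refine LinearMap.ext fun c => ?_
      rw [Dc1_resD_apply, h2 I hI]
      rfl
    · exact h3 I ⟨c, hle I c.2⟩ hc

/-- projection to one Cech degree -/
noncomputable def Dc1_pr (n r : ℕ) (K : Type u) [Field K] (q : ℤ) :
    Fm r (FF n K) →ₗ[MvPowerSeries (Fin n) K] Fm r (FF n K) where
  toFun c := fun S => if (S.card : ℤ) = q then c S else 0
  map_add' := by
    intro x y
    funext S
    rw [Pi.add_apply, Pi.add_apply]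
    split_ifs
    · rfl
    · rw [add_zero]
  map_smul' := by
    intro a x
    funext S
    rw [Pi.smul_apply, Pi.smul_apply, RingHom.id_apply]
    split_ifs
    · rfl
    · rw [smul_zero]

theorem Dc1_pr_apply (q : ℤ) (c : Fm r (FF n K)) (S : Finset (Fin r)) :
    Dc1_pr n r K q c S = if (S.card : ℤ) = q then c S else 0 := rfl

theorem Dc1_pr_mem (hW : WSys W) (q : ℤ) (I : Finset (Fin n)) {c : Fm r (FF n K)} (hc : c ∈ W I) :
    Dc1_pr n r K q c ∈ W I := by
  classical
  have h : Dc1_pr n r K q c = ∑ S ∈ Finset.univ.filter (fun S : Finset (Fin r) => (S.card : ℤ) = q),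
      (Pi.single S (c S) : Fm r (FF n K)) := by
    funext T
    rw [Dc1_pr_apply, Finset.sum_apply]
    split_ifs with hT
    · rw [Finset.sum_eq_single T]
      · rw [Pi.single_eq_same]
      · intro S _ hS
        rw [Pi.single_eq_of_ne hS.symm]
      · intro hT'
        exact absurd (Finset.mem_filter.mpr ⟨Finset.mem_univ T, hT⟩) hT'
    · rw [Finset.sum_eq_zero]
      intro S hS
      have h1 := (Finset.mem_filter.mp hS).2
      have h2 : T ≠ S := fun h => hT (h ▸ h1)
      rw [Pi.single_eq_of_ne h2]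
  rw [h]
  exact Submodule.sum_mem _ fun S _ => hW.comp I S c hc

theorem Dc1_pr_cech (q : ℤ) (c : Fm r (FF n K)) :
    Dc1_pr n r K q (cech n r K c) = cech n r K (Dc1_pr n r K (q - 1) c) := by
  funext S
  rw [Dc1_pr_apply, Dc1_cech_apply, Dc1_cech_apply]
  split_ifs with hS
  · refine Finset.sum_congr rfl fun s hs => ?_
    rw [Dc1_pr_apply, if_pos]
    rw [Finset.card_erase_of_mem hs]
    have := Finset.card_pos.2 ⟨s, hs⟩
    push_cast [Nat.cast_sub (show 1 ≤ S.card from this)]
    omega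
  · symm
    refine Finset.sum_eq_zero fun s hs => ?_
    rw [Dc1_pr_apply, if_neg, CeA_z0]
    rw [Finset.card_erase_of_mem hs]
    have := Finset.card_pos.2 ⟨s, hs⟩
    push_cast [Nat.cast_sub (show 1 ≤ S.card from this)]
    omega

/-- one component of the lift -/
theorem Dc1_lift1 {W' : Finset (Fin n) → Submodule (MvPowerSeries (Fin n) K) (Fm r (FF n K))}
    (hW' : WSys W')
    (hst : ∀ I, ∀ c ∈ W I, cech n r K c ∈ W' I → ∃ c' ∈ W' I, cech n r K c' = cech n r K c)
    (p m : ℤ) (lam' : DW W') (h : lam' ∈ (DSS hW').Z 1 p m) (I : Finset (Fin n)) :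
    ∃ mu : Module.Dual K (Fm r (FF n K)),
      ContOn (⊤ : Submodule (MvPowerSeries (Fin n) K) (Fm r (FF n K))) mu ∧
      (∀ c : W' I, mu c = lam' I c) ∧
      ((I.card : ℤ) = n - p → ∀ c ∈ W I, mu (cech n r K c) = 0) ∧
      ((n : ℤ) - p < I.card → mu = 0) := by
  have hF : lam' ∈ dualF hW' p m := h.1
  obtain ⟨h1, h2, h3⟩ := hF
  by_cases hgt : (n : ℤ) - p < I.card
  · refine ⟨0, Dc1_contOn_zero _, fun c => ?_, fun _ _ _ => rfl, fun _ => rfl⟩
    rw [h2 I hgt]
    rfl
  obtain ⟨L, hL⟩ := Dc1_ext1 (W' I) (lam' I)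
  have hc : ContOn (W' I) L := (Dc1_contW hL).1 (h1 I)
  by_cases heq : (I.card : ℤ) = n - p
  · have hz := (mem_DZ1_iff hW' h.1).1 h I heq
    obtain ⟨mu, hm1, hm2, hm3⟩ := glue_cont (W' I) ((W I).map (cech n r K)) L 0 hc
      (Dc1_contOn_zero _) (by
        rintro x hx ⟨b, hb, rfl⟩
        obtain ⟨b', hb', he⟩ := hst I b hb hx
        have h4 := hz ⟨b', hb'⟩
        rw [← hL] at h4
        rw [← he]
        exact h4)
    refine ⟨mu, hm1, fun c => (hm2 c c.2).trans (hL c), fun _ c hc => ?_, fun h => absurd h hgt⟩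
    rw [hm3 _ ⟨c, hc, rfl⟩]
    rfl
  · obtain ⟨mu, hm1, hm2⟩ := ext_cont (W' I) L hc
    exact ⟨mu, hm1, fun c => (hm2 c c.2).trans (hL c), fun h => absurd h heq,
      fun h => absurd h hgt⟩

/-- Lifting of first pages.

Proof. For each `I` extend `λ'_I`: regard it as a linear functional on `Fm r (FF n K)` (extend linearly), `ContOn (W' I)`. If `|I| ≠ n - p` use `ext_cont`; if `|I| = n - p` use `glue_cont` for `W1 = W' I` and `W2 =` the image of `W I` under `cech` with the functional 0: on the intersection `c = cech b`, `b ∈ W I`, `hst` gives `b' ∈ W' I` with `cech b' = c`, and `λ'_I c = 0` by `mem_DZ1_iff`. Restrict the extension to `W I` and compose with the projection to the Cech degree `2n - m - |I|` (`hW.comp`: the sum of the components `Pi.single S (c S)`, `|S| = 2n-m-|I|`): this does not change the value on `W' I` (third condition of `dualF`), keeps continuity and the vanishing on coboundaries. -/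
theorem resD_lift {W' : Finset (Fin n) → Submodule (MvPowerSeries (Fin n) K) (Fm r (FF n K))}
    (hW : WSys W) (hW' : WSys W') (hle : ∀ I, W' I ≤ W I)
    (hst : ∀ I, ∀ c ∈ W I, cech n r K c ∈ W' I → ∃ c' ∈ W' I, cech n r K c' = cech n r K c)
    (p m : ℤ) (lam' : DW W') (h : lam' ∈ (DSS hW').Z 1 p m) :
    ∃ lam ∈ (DSS hW).Z 1 p m, resD hle lam = lam' := by
  choose mu hm1 hm2 hm3 hm4 using Dc1_lift1 (W := W) hW' hst p m lam' h
  have hF : lam' ∈ dualF hW' p m := h.1
  obtain ⟨h1, h2, h3⟩ := hF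
  obtain ⟨lam, hlam⟩ : ∃ lam : DW W, ∀ I (c : W I),
      lam I c = mu I (Dc1_pr n r K (2 * n - m - I.card) c) :=
    ⟨fun I => ((mu I).comp ((Dc1_pr n r K (2 * n - m - I.card)).restrictScalars K)).comp
      ((W I).subtype.restrictScalars K), fun I c => rfl⟩
  have hl : lam ∈ dualF hW p m := by
    refine ⟨fun I c => ?_, fun I hI => ?_, fun I c hc => ?_⟩
    · obtain ⟨N, hN⟩ := hm1 I (Dc1_pr n r K (2 * n - m - I.card) c) trivial
      refine ⟨N, fun a ha => ?_⟩
      rw [hlam]
      have h4 : Dc1_pr n r K (2 * n - m - I.card) ((a • c : W I) : Fm r (FF n K)) =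
          a • Dc1_pr n r K (2 * n - m - I.card) c := map_smul _ a (c : Fm r (FF n K))
      rw [h4]
      exact hN a ha
    · refine LinearMap.ext fun c => ?_
      rw [hlam, hm4 I hI]
      rfl
    · rw [hlam]
      have h4 : Dc1_pr n r K (2 * n - m - I.card) (c : Fm r (FF n K)) = 0 := by
        funext S
        rw [Dc1_pr_apply]
        split_ifs with hS
        · exact hc S hS
        · rfl
      rw [h4, map_zero]
  refine ⟨lam, (mem_DZ1_iff hW hl).2 fun I hI c => ?_, ?_⟩
  · rw [hlam]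
    change mu I (Dc1_pr n r K (2 * n - m - I.card) (cech n r K c)) = 0
    rw [Dc1_pr_cech]
    exact hm3 I hI _ (Dc1_pr_mem hW _ I c.2)
  · funext I
    refine LinearMap.ext fun c => ?_
    rw [Dc1_resD_apply, hlam]
    change mu I (Dc1_pr n r K (2 * n - m - I.card) (c : Fm r (FF n K))) = lam' I c
    have h4 := hm2 I ⟨_, Dc1_pr_mem hW' (2 * n - m - I.card) I c.2⟩
    change mu I (Dc1_pr n r K (2 * n - m - I.card) (c : Fm r (FF n K))) = _ at h4
    rw [h4, ← sub_eq_zero, ← map_sub]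
    refine h3 I _ fun S hS => ?_
    change Dc1_pr n r K (2 * n - m - I.card) (c : Fm r (FF n K)) S - (c : Fm r (FF n K)) S = 0
    rw [Dc1_pr_apply, if_pos hS, sub_self]

end B5a
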