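import Pool.Agent.H.MP_b5a980_ag.CeB
import Pool.Agent.H.MP_b5a980_ag.Dc0

set_option autoImplicit false
set_option linter.unusedSectionVars false
set_option linter.style.longLine false

/-!
The systems `V^j` (MP_b5a980_ag, part D).
-/

namespace B5a

universe u v w

open MvPowerSeries

variable {n r : ℕ} {K : Type u} [Field K] {lam0 : K →+ ℚ}
  {V : MvPowerSeries (Fin n) K → ℤ → Submodule (MvPowerSeries (Fin n) K) (FF n K)}
  {f : Fin r → MvPowerSeries (Fin n) K}

/-- All Cech cochains. -/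
noncomputable def WA (f : Fin r → MvPowerSeries (Fin n) K) (_I : Finset (Fin n)) :
    Submodule (MvPowerSeries (Fin n) K) (Fm r (FF n K)) where
  carrier := {c | ∀ S, c S ∈ loc (fS f S)}
  add_mem' := fun hx hy S => Submodule.add_mem _ (hx S) (hy S)
  zero_mem' := fun _ => Submodule.zero_mem _
  smul_mem' := fun a _ hx S => Submodule.smul_mem _ a (hx S)

/-- The system `V^j`: cochains with components in `V (f_S) (j - |I|)`. -/
noncomputable def WV (V : MvPowerSeries (Fin n) K → ℤ → Submodule (MvPowerSeries (Fin n) K) (FF n K))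
    (f : Fin r → MvPowerSeries (Fin n) K) (j : ℤ) (I : Finset (Fin n)) :
    Submodule (MvPowerSeries (Fin n) K) (Fm r (FF n K)) where
  carrier := {c | ∀ S, c S ∈ V (fS f S) (j - I.card)}
  add_mem' := fun hx hy S => Submodule.add_mem _ (hx S) (hy S)
  zero_mem' := fun _ => Submodule.zero_mem _
  smul_mem' := fun a _ hx S => Submodule.smul_mem _ a (hx S)

theorem WA_sys (f : Fin r → MvPowerSeries (Fin n) K) : WSys (WA f) := by
  refine ⟨?_, ?_, ?_⟩
  · intro I i _ c hc S
    exact dF_mem_loc' _ i (hc S)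
  · intro I c hc S
    change (∑ s ∈ S, sg s S • c (S.erase s)) ∈ loc (fS f S)
    exact Submodule.sum_mem _ fun s _ =>
      zsmul_mem (loc_mono f (Finset.erase_subset s S) (hc (S.erase s))) _
  · intro I S c hc T
    change (Pi.single S (c S) : Fm r (FF n K)) T ∈ loc (fS f T)
    by_cases h : T = S
    · subst h
      rw [Pi.single_eq_same]
      exact hc T
    · rw [Pi.single_eq_of_ne h]
      exact Submodule.zero_mem _

/-- the inclusions of the localisations respect the filtrations -/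
theorem Dc2_erase (hV : VFam lam0 V) (hf : ∀ s, f s ≠ 0) {S : Finset (Fin r)} (s : Fin r)
    {i : ℤ} {x : FF n K} (hx : x ∈ V (fS f (S.erase s)) i) : x ∈ V (fS f S) i := by
  refine vpack_map (hV _ (fS_ne_zero hf (S.erase s))).1 (hV _ (fS_ne_zero hf S)).1
    (LinearMap.id : FF n K →ₗ[MvPowerSeries (Fin n) K] FF n K) (fun _ _ => rfl)
    (fun m hm => hm) (fun k m hm => ?_) i _ hx
  refine ((hV _ (fS_ne_zero hf S)).2 _).2 ?_
  exact loc_mono f (Finset.erase_subset s S)
    (((hV _ (fS_ne_zero hf (S.erase s))).2 _).1 ⟨k, hm⟩)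

theorem WV_sys (hV : VFam lam0 V) (hf : ∀ s, f s ≠ 0) (j : ℤ) : WSys (WV V f j) := by
  refine ⟨?_, ?_, ?_⟩
  · intro I i hi c hc S
    have h1 := (hV _ (fS_ne_zero hf S)).1.compat.nab_mem _ i _ (hc S)
    have h2 : j - (I.card : ℤ) - 1 = j - ((insert i I).card : ℤ) := by
      rw [Finset.card_insert_of_notMem hi]
      push_cast
      ring
    rw [h2] at h1
    exact h1
  · intro I c hc S
    change (∑ s ∈ S, sg s S • c (S.erase s)) ∈ V (fS f S) (j - I.card)
    exact Submodule.sum_mem _ fun s _ => zsmul_mem (Dc2_erase hV hf s (hc (S.erase s))) _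
  · intro I S c hc T
    change (Pi.single S (c S) : Fm r (FF n K)) T ∈ V (fS f T) (j - I.card)
    by_cases h : T = S
    · subst h
      rw [Pi.single_eq_same]
      exact hc T
    · rw [Pi.single_eq_of_ne h]
      exact Submodule.zero_mem _

theorem WV_le_WA (hV : VFam lam0 V) (hf : ∀ s, f s ≠ 0) (j : ℤ) (I : Finset (Fin n)) :
    WV V f j I ≤ WA f I := fun _ hc S => ((hV _ (fS_ne_zero hf S)).2 _).1 ⟨_, hc S⟩

theorem WV_anti (hV : VFam lam0 V) (hf : ∀ s, f s ≠ 0) (I : Finset (Fin n)) :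
    WV V f 1 I ≤ WV V f 0 I := fun _ hc S =>
  CeB_mono hV (fS_ne_zero hf S) (by omega) (hc S)

/-- the component of Cech degree `q` -/
noncomputable def cq (q : ℤ) : Fm r (FF n K) →ₗ[MvPowerSeries (Fin n) K] Fm r (FF n K) where
  toFun c := fun S => if (S.card : ℤ) = q then c S else 0
  map_add' := by
    intro x y
    funext S
    by_cases h : (S.card : ℤ) = q
    · simp [h]
    · simp [h]
  map_smul' := by
    intro a x
    funext S
    by_cases h : (S.card : ℤ) = q
    · simp [h]
    · simp [h]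

theorem Dc2_cq (q : ℤ) (c : Fm r (FF n K)) (S : Finset (Fin r)) :
    cq q c S = if (S.card : ℤ) = q then c S else 0 := rfl

theorem cq_mem_Lq {q : ℤ} {I : Finset (Fin n)} {c : Fm r (FF n K)} (h : c ∈ WA f I) :
    cq q c ∈ Lq f q := by
  intro S
  rw [Dc2_cq]
  by_cases hS : (S.card : ℤ) = q
  · rw [if_pos hS]
    exact ⟨h S, fun h2 => absurd hS h2⟩
  · rw [if_neg hS]
    exact ⟨Submodule.zero_mem _, fun _ => rfl⟩

theorem cq_mem_VC {q j : ℤ} {I : Finset (Fin n)} {c : Fm r (FF n K)}
    (hV : VFam lam0 V) (hf : ∀ s, f s ≠ 0) (h : c ∈ WV V f j I) :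
    cq q c ∈ VC V f q (j - I.card) := by
  intro S
  rw [Dc2_cq]
  by_cases hS : (S.card : ℤ) = q
  · rw [if_pos hS]
    exact ⟨h S, fun h2 => absurd hS h2⟩
  · rw [if_neg hS]
    exact ⟨Submodule.zero_mem _, fun _ => rfl⟩

theorem VC_le_WV {q j : ℤ} {I : Finset (Fin n)} (hV : VFam lam0 V) (hf : ∀ s, f s ≠ 0) :
    VC V f q (j - I.card) ≤ WV V f j I := fun _ h S => (h S).1

theorem cech_cq (q : ℤ) (c : Fm r (FF n K)) :
    cech n r K (cq q c) = cq (q + 1) (cech n r K c) := by
  funext S
  rw [Dc2_cq]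
  change (∑ s ∈ S, sg s S • cq q c (S.erase s)) =
    if (S.card : ℤ) = q + 1 then ∑ s ∈ S, sg s S • c (S.erase s) else 0
  split_ifs with hS
  · refine Finset.sum_congr rfl fun s hs => ?_
    have h3 := Finset.card_erase_add_one hs
    have h4 : ((S.erase s).card : ℤ) + 1 = (S.card : ℤ) := by exact_mod_cast h3
    rw [Dc2_cq, if_pos (by omega)]
  · refine Finset.sum_eq_zero fun s hs => ?_
    have h3 := Finset.card_erase_add_one hs
    have h4 : ((S.erase s).card : ℤ) + 1 = (S.card : ℤ) := by exact_mod_cast h3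
    rw [Dc2_cq, if_neg (by omega)]
    exact zsmul_zero _

/-- Strictness for all cochains (not only homogeneous ones), from the homogeneous case.

Proof. Apply `hst` to each `cq q c` and sum over the finitely many degrees. -/
theorem strict_WA (hV : VFam lam0 V) (hf : ∀ s, f s ≠ 0)
    (hst : ∀ (φ : Fm r (FF n K)) (q i : ℤ), φ ∈ Lq f q →
      cech n r K φ ∈ VC V f (q + 1) i → ∃ φ' ∈ VC V f q i, cech n r K φ' = cech n r K φ)
    (j : ℤ) (I : Finset (Fin n)) (c : Fm r (FF n K)) (hc : c ∈ WA f I)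
    (h : cech n r K c ∈ WV V f j I) :
    ∃ c' ∈ WV V f j I, cech n r K c' = cech n r K c := by
  have h1 : ∀ q : ℕ, ∃ φ' ∈ VC V f q (j - I.card), cech n r K φ' = cech n r K (cq q c) := by
    intro q
    refine hst (cq q c) q (j - I.card) (cq_mem_Lq hc) ?_
    rw [cech_cq]
    exact cq_mem_VC hV hf h
  choose φ' hφ hφ' using h1
  have h2 : ∑ q ∈ Finset.range (r + 1), cq (q : ℤ) c = c := by
    funext S
    rw [Finset.sum_apply, Finset.sum_eq_single S.card]
    · rw [Dc2_cq, if_pos rfl]
    · intro q _ hq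
      rw [Dc2_cq, if_neg]
      intro h3
      exact hq (by exact_mod_cast h3.symm)
    · intro h3
      exfalso
      apply h3
      rw [Finset.mem_range]
      have h4 := Finset.card_le_univ S
      rw [Fintype.card_fin] at h4
      omega
  refine ⟨∑ q ∈ Finset.range (r + 1), φ' q, ?_, ?_⟩
  · exact Submodule.sum_mem _ fun q _ => VC_le_WV hV hf (hφ q)
  · conv_rhs => rw [← h2]
    rw [map_sum, map_sum]
    exact Finset.sum_congr rfl fun q _ => hφ' q

end B5a
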