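import Pool.Agent.H.MP_b5a980_ag.Bo0
import Pool.Agent.H.MP_b5a980_ag.Dc1
import Pool.Agent.H.MP_b5a980_ag.Dc2

set_option autoImplicit false
set_option linter.unusedSectionVars false
set_option linter.style.longLine false

/-!
The object of continuous functionals on the Cech complex: definitions (MP_b5a980_ag, part D).
-/

namespace B5a

universe u v w

open MvPowerSeries

variable {n : ℕ} {K : Type u} [Field K] {M : Type u} [AddCommGroup M]
  [Module (MvPowerSeries (Fin n) K) M] [Module K M] [IsScalarTower K (MvPowerSeries (Fin n) K) M]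

/-- The `K`-space of continuous functionals on `M`. -/
noncomputable def cdK (n : ℕ) (K : Type u) [Field K] (M : Type u) [AddCommGroup M]
    [Module (MvPowerSeries (Fin n) K) M] [Module K M] : Submodule K (Module.Dual K M) where
  carrier := {lam | ContOn (⊤ : Submodule (MvPowerSeries (Fin n) K) M) lam}
  add_mem' := by
    intro x y hx hy
    show ContOn (⊤ : Submodule (MvPowerSeries (Fin n) K) M) (x + y)
    intro m hm
    obtain ⟨N, hN⟩ := hx m hm
    obtain ⟨N', hN'⟩ := hy m hm
    refine ⟨max N N', fun r hr => ?_⟩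
    rw [LinearMap.add_apply, hN r (mI_anti (le_max_left _ _) hr),
      hN' r (mI_anti (le_max_right _ _) hr), add_zero]
  zero_mem' := fun _ _ => ⟨0, fun _ _ => rfl⟩
  smul_mem' := by
    intro c x hx
    show ContOn (⊤ : Submodule (MvPowerSeries (Fin n) K) M) (c • x)
    intro m hm
    obtain ⟨N, hN⟩ := hx m hm
    refine ⟨N, fun r hr => ?_⟩
    rw [LinearMap.smul_apply, hN r hr, smul_zero]

/-- Continuous functionals on `M`. -/
def CD (n : ℕ) (K : Type u) [Field K] (M : Type u) [AddCommGroup M]
    [Module (MvPowerSeries (Fin n) K) M] [Module K M] : Type u := ↥(cdK n K M)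

noncomputable instance instCD1 : AddCommGroup (CD n K M) :=
  inferInstanceAs (AddCommGroup ↥(cdK n K M))

noncomputable instance instCD2 : Module K (CD n K M) := inferInstanceAs (Module K ↥(cdK n K M))

/-- The functional. -/
def CD.fn (lam : CD n K M) : Module.Dual K M := Subtype.val lam

theorem CD.cont (lam : CD n K M) :
    ContOn (⊤ : Submodule (MvPowerSeries (Fin n) K) M) lam.fn := Subtype.prop lam

theorem CD.ext {lam mu : CD n K M} (h : ∀ m, lam.fn m = mu.fn m) : lam = mu :=
  Subtype.ext (LinearMap.ext h)

theorem CD.add_fn (lam mu : CD n K M) (m : M) : (lam + mu).fn m = lam.fn m + mu.fn m := rfl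

theorem CD.neg_fn (lam : CD n K M) (m : M) : (-lam).fn m = - lam.fn m := rfl

theorem CD.sub_fn (lam mu : CD n K M) (m : M) : (lam - mu).fn m = lam.fn m - mu.fn m := rfl

theorem CD.zero_fn (m : M) : (0 : CD n K M).fn m = 0 := rfl

theorem CD.smulK_fn (c : K) (lam : CD n K M) (m : M) : (c • lam).fn m = c * lam.fn m := rfl

/-- `(r λ)(m) = λ (r m)`. -/
noncomputable instance instCD3 : Module (MvPowerSeries (Fin n) K) (CD n K M) where
  smul r lam := (⟨lam.fn.comp (mulR M r), by 
    show ContOn (⊤ : Submodule (MvPowerSeries (Fin n) K) M) (lam.fn.comp (mulR M r))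
    intro m _
    obtain ⟨N, hN⟩ := lam.cont (r • m) trivial
    refine ⟨N, fun a ha => ?_⟩
    show lam.fn (r • a • m) = 0
    rw [smul_comm]
    exact hN a ha⟩ : ↥(cdK n K M))
  one_smul := by
    intro lam
    refine CD.ext fun m => ?_
    show lam.fn ((1 : MvPowerSeries (Fin n) K) • m) = lam.fn m
    rw [one_smul]
  mul_smul := by
    intro a b lam
    refine CD.ext fun m => ?_
    show lam.fn ((a * b) • m) = lam.fn (b • a • m)
    rw [mul_comm, mul_smul]
  smul_zero := by
    intro a
    exact CD.ext fun m => rfl
  smul_add := by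
    intro a lam mu
    exact CD.ext fun m => rfl
  add_smul := by
    intro a b lam
    refine CD.ext fun m => ?_
    show lam.fn ((a + b) • m) = lam.fn (a • m) + lam.fn (b • m)
    rw [add_smul, map_add]
  zero_smul := by
    intro lam
    refine CD.ext fun m => ?_
    show lam.fn ((0 : MvPowerSeries (Fin n) K) • m) = 0
    rw [zero_smul, map_zero]

theorem CD.smul_fn (r : MvPowerSeries (Fin n) K) (lam : CD n K M) (m : M) :
    (r • lam).fn m = lam.fn (r • m) := rfl

instance instCD4 : IsScalarTower K (MvPowerSeries (Fin n) K) (CD n K M) where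
  smul_assoc := by
    intro c r lam
    refine CD.ext fun m => ?_
    show lam.fn ((c • r) • m) = c * lam.fn (r • m)
    rw [smul_assoc, map_smul, smul_eq_mul]

/-- The connection `λ ↦ - λ ∘ ∂_i`. -/
noncomputable def cdconn (C : Conn n K M) : Conn n K (CD n K M) where
  nab i :=
    { toFun := fun lam => (⟨-(lam.fn.comp (C.nab i)), by 
        show ContOn (⊤ : Submodule (MvPowerSeries (Fin n) K) M) (-(lam.fn.comp (C.nab i)))
        intro m hm
        obtain ⟨N, hN⟩ := ContOn.tnab (C := C) (W := ⊤) (W' := ⊤) i (fun m _ => trivial) le_rfl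
          lam.cont m hm
        refine ⟨N, fun r hr => ?_⟩
        have h1 : lam.fn (C.nab i (r • m)) = 0 := hN r hr
        show -(lam.fn (C.nab i (r • m))) = 0
        rw [h1, neg_zero]⟩ : ↥(cdK n K M))
      map_add' := by
        intro x y
        refine CD.ext fun m => ?_
        show -((x + y).fn (C.nab i m)) = -(x.fn (C.nab i m)) + -(y.fn (C.nab i m))
        rw [CD.add_fn, neg_add]
      map_smul' := by
        intro c x
        refine CD.ext fun m => ?_
        show -((c • x).fn (C.nab i m)) = c * -(x.fn (C.nab i m))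
        rw [CD.smulK_fn, mul_neg] }
  leib := by
    intro i r lam
    refine CD.ext fun m => ?_
    show -(lam.fn (r • C.nab i m)) = lam.fn (pderiv K i r • m) + -(lam.fn (C.nab i (r • m)))
    rw [C.leib, map_add]
    ring
  comm := by
    intro i j lam
    refine CD.ext fun m => ?_
    show -(-(lam.fn (C.nab j (C.nab i m)))) = -(-(lam.fn (C.nab i (C.nab j m))))
    rw [C.comm]

theorem cdconn_fn (C : Conn n K M) (i : Fin n) (lam : CD n K M) (m : M) :
    ((cdconn C).nab i lam).fn m = - lam.fn (C.nab i m) := rfl

/-- Precomposition with an `R`-linear map. -/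
noncomputable def cdmap {M' : Type u} [AddCommGroup M'] [Module (MvPowerSeries (Fin n) K) M']
    [Module K M'] [IsScalarTower K (MvPowerSeries (Fin n) K) M']
    (u : M' →ₗ[MvPowerSeries (Fin n) K] M) :
    CD n K M →ₗ[MvPowerSeries (Fin n) K] CD n K M' where
  toFun lam := (⟨lam.fn.comp (u.restrictScalars K), by 
    show ContOn (⊤ : Submodule (MvPowerSeries (Fin n) K) M') (lam.fn.comp (u.restrictScalars K))
    intro m _
    obtain ⟨N, hN⟩ := lam.cont (u m) trivial
    refine ⟨N, fun r hr => ?_⟩
    show lam.fn (u (r • m)) = 0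
    rw [map_smul]
    exact hN r hr⟩ : ↥(cdK n K M'))
  map_add' := by
    intro x y
    refine CD.ext fun m => ?_
    rfl
  map_smul' := by
    intro c x
    refine CD.ext fun m => ?_
    show x.fn (c • u m) = x.fn (u (c • m))
    rw [u.map_smul]

theorem cdmap_fn {M' : Type u} [AddCommGroup M'] [Module (MvPowerSeries (Fin n) K) M']
    [Module K M'] [IsScalarTower K (MvPowerSeries (Fin n) K) M']
    (u : M' →ₗ[MvPowerSeries (Fin n) K] M) (lam : CD n K M) (m : M') :
    (cdmap u lam).fn m = lam.fn (u m) := rfl

section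

variable {r : ℕ}

/-- The module of Cech cochains of the `f_s`. -/
abbrev CC (f : Fin r → MvPowerSeries (Fin n) K) : Type u := ↥(WA f ∅)

theorem CC_mem (f : Fin r → MvPowerSeries (Fin n) K) (c : CC f) (S : Finset (Fin r)) :
    (c : Fm r (FF n K)) S ∈ loc (fS f S) := c.2 S

/-- The Cech differential on `CC f`. -/
noncomputable def cce (f : Fin r → MvPowerSeries (Fin n) K) :
    CC f →ₗ[MvPowerSeries (Fin n) K] CC f :=
  (cech n r K).restrict fun c hc => (WA_sys f).cech_mem ∅ c hc

theorem cce_val (f : Fin r → MvPowerSeries (Fin n) K) (c : CC f) :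
    ((cce f c : CC f) : Fm r (FF n K)) = cech n r K c := rfl

/-- The connection on `CC f`. Fill: the derivatives preserve the localisations (`dF_mem_loc'`). -/
noncomputable def ccn (f : Fin r → MvPowerSeries (Fin n) K) : Conn n K (CC f) where
  nab i :=
    { toFun := fun c => ⟨(cconn n r K).nab i c, by
        intro S
        exact dF_mem_loc' _ i (c.2 S)⟩
      map_add' := by
        intro x y
        exact Subtype.ext (map_add _ _ _)
      map_smul' := by
        intro c x
        exact Subtype.ext (map_smul _ _ _) }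
  leib := by
    intro i a x
    exact Subtype.ext ((cconn n r K).leib i a _)
  comm := by
    intro i j x
    exact Subtype.ext ((cconn n r K).comm i j _)

theorem ccn_val (f : Fin r → MvPowerSeries (Fin n) K) (i : Fin n) (c : CC f) :
    (((ccn f).nab i c : CC f) : Fm r (FF n K)) = (cconn n r K).nab i c := rfl

/-- Functionals of degree `q`: they only depend on the components of Cech degree `n - q`. -/
noncomputable def asG (f : Fin r → MvPowerSeries (Fin n) K) (q : ℤ) :
    Submodule (MvPowerSeries (Fin n) K) (CD n K (CC f)) where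
  carrier := {lam | ∀ c : CC f, (∀ S : Finset (Fin r), (S.card : ℤ) = n - q →
    (c : Fm r (FF n K)) S = 0) → lam.fn c = 0}
  add_mem' := by
    intro x y hx hy c hc
    rw [CD.add_fn, hx c hc, hy c hc, add_zero]
  zero_mem' := fun _ _ => rfl
  smul_mem' := by
    intro a x hx c hc
    rw [CD.smul_fn]
    refine hx _ fun S hS => ?_
    have h1 : ((a • c : CC f) : Fm r (FF n K)) S = a • (c : Fm r (FF n K)) S := rfl
    rw [h1, hc S hS, smul_zero]

/-- The object of continuous functionals on the Cech complex. -/
noncomputable def astar (f : Fin r → MvPowerSeries (Fin n) K) : BObj n K where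
  Γ := CD n K (CC f)
  C := cdconn (ccn f)
  δ := cdmap (cce f)
  G := asG f
  δδ := by
    intro x
    refine CD.ext fun m => ?_
    show x.fn (cce f (cce f m)) = 0
    have h : cce f (cce f m) = 0 := Subtype.ext (cech_cech _)
    rw [h, map_zero]
  δC := by
    intro i x
    refine CD.ext fun m => ?_
    show -(x.fn ((ccn f).nab i (cce f m))) = -(x.fn (cce f ((ccn f).nab i m)))
    have h : cce f ((ccn f).nab i m) = (ccn f).nab i (cce f m) := Subtype.ext (cech_nab i _)
    rw [h]
  δG := by
    intro q x hx c hc
    show x.fn (cce f c) = 0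
    refine hx _ fun S hS => ?_
    rw [cce_val, Dc1_cech_apply]
    refine Finset.sum_eq_zero fun s hs => ?_
    have h1 := Finset.card_erase_of_mem hs
    have h2 := Finset.card_pos.2 ⟨s, hs⟩
    rw [hc (S.erase s) (by omega)]
    exact zsmul_zero _
  GC := by
    intro q i x hx c hc
    show -(x.fn ((ccn f).nab i c)) = 0
    have h1 : x.fn ((ccn f).nab i c) = 0 := by
      refine hx _ fun S hS => ?_
      show dF n K i ((c : Fm r (FF n K)) S) = 0
      rw [hc S hS, map_zero]
    rw [h1, neg_zero]

end

end B5a
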