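import Pool.Agent.H.MP_b5a980_ag.As0

set_option autoImplicit false
set_option linter.unusedSectionVars false
set_option linter.style.longLine false

/-!
Splitting off the last equation (MP_b5a980_ag, part D).
-/

namespace B5a

universe u v w

open MvPowerSeries

variable {n k : ℕ} {K : Type u} [Field K]

/-- The equations without the last one. -/
def fini (f : Fin (k + 1) → MvPowerSeries (Fin n) K) : Fin k → MvPowerSeries (Fin n) K :=
  fun i => f i.castSucc

/-- The part of `S` below the last index. -/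
def pull (S : Finset (Fin (k + 1))) : Finset (Fin k) := Finset.univ.filter fun i => i.castSucc ∈ S

/-- `j0 c` has the components of `c` in the sets not containing the last index. -/
noncomputable def j0 (n k : ℕ) (K : Type u) [Field K] :
    Fm k (FF n K) →ₗ[MvPowerSeries (Fin n) K] Fm (k + 1) (FF n K) where
  toFun c := fun S => if Fin.last k ∈ S then 0 else c (pull S)
  map_add' := by
    intro x y
    funext S
    by_cases h : Fin.last k ∈ S
    · simp [h]
    · simp [h]
  map_smul' := by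
    intro a x
    funext S
    by_cases h : Fin.last k ∈ S
    · simp [h]
    · simp [h]

/-- `j1 y c` has the components `y (-1)^|S| c_S` in the sets `S ∪ {last}`; here `y` is an element of
the fraction field. -/
noncomputable def j1 (n k : ℕ) (K : Type u) [Field K] (y : FF n K) :
    Fm k (FF n K) →ₗ[MvPowerSeries (Fin n) K] Fm (k + 1) (FF n K) where
  toFun c := fun S => if Fin.last k ∈ S then ((-1 : ℤ) ^ (pull S).card) • (y * c (pull S)) else 0
  map_add' := by
    intro x z
    funext S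
    by_cases h : Fin.last k ∈ S
    · simp [h, mul_add]
    · simp [h]
  map_smul' := by
    intro a x
    funext S
    by_cases h : Fin.last k ∈ S
    · simp only [h, if_true, Pi.smul_apply, RingHom.id_apply]
      rw [mul_smul_comm, smul_comm]
    · simp [h]

theorem As1_z0 {A : Type*} [AddCommGroup A] (m : ℤ) : m • (0 : A) = 0 := smul_zero m

theorem As1_n0 {A : Type*} [AddCommGroup A] (m : ℕ) : m • (0 : A) = 0 := smul_zero m

theorem As1_zsum {A : Type*} [AddCommGroup A] {ι : Type*} (m : ℤ) (T : Finset ι) (g : ι → A) :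
    m • ∑ i ∈ T, g i = ∑ i ∈ T, m • g i := Finset.smul_sum

theorem As1_zsub {A : Type*} [AddCommGroup A] (m : ℤ) (a b : A) : m • a - m • b = m • (a - b) :=
  (smul_sub m a b).symm

theorem As1_nz {A : Type*} [AddCommGroup A] (m : ℕ) (l : ℤ) (a : A) : m • (l • a) = l • (m • a) :=
  smul_comm m l a

theorem As1_flip {A : Type*} [CommRing A] (s m : ℤ) (y a : A) :
    s • (m • (y * a)) = -((m * -1) • (y * (s • a))) := by
  simp only [zsmul_eq_mul]
  push_cast
  ring

theorem As1_prod {M : Type*} [CommMonoid M] (g : Fin (k + 1) → M) (S : Finset (Fin (k + 1))) :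
    ∏ s ∈ S, g s = (∏ i ∈ pull S, g i.castSucc) * (if Fin.last k ∈ S then g (Fin.last k) else 1) := by
  classical
  have h1 : ∏ s ∈ S, g s = ∏ s : Fin (k + 1), if s ∈ S then g s else 1 := by
    rw [Finset.prod_ite_mem, Finset.univ_inter]
  rw [h1, Fin.prod_univ_castSucc, pull, Finset.prod_filter]

theorem As1_sum {M : Type*} [AddCommMonoid M] (g : Fin (k + 1) → M) (S : Finset (Fin (k + 1))) :
    ∑ s ∈ S, g s = (∑ i ∈ pull S, g i.castSucc) + (if Fin.last k ∈ S then g (Fin.last k) else 0) := by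
  classical
  have h1 : ∑ s ∈ S, g s = ∑ s : Fin (k + 1), if s ∈ S then g s else 0 := by
    rw [Finset.sum_ite_mem, Finset.univ_inter]
  rw [h1, Fin.sum_univ_castSucc, pull, Finset.sum_filter]

theorem As1_mem {S : Finset (Fin (k + 1))} {i : Fin k} : i ∈ pull S ↔ i.castSucc ∈ S := by
  simp [pull]

theorem As1_card (S : Finset (Fin (k + 1))) :
    S.card = (pull S).card + (if Fin.last k ∈ S then 1 else 0) := by
  have h := As1_sum (fun _ => 1) S
  simpa using h

theorem As1_fS (f : Fin (k + 1) → MvPowerSeries (Fin n) K) (S : Finset (Fin (k + 1))) :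
    fS f S = fS (fini f) (pull S) * (if Fin.last k ∈ S then f (Fin.last k) else 1) :=
  As1_prod f S

theorem As1_erase_last (S : Finset (Fin (k + 1))) : pull (S.erase (Fin.last k)) = pull S := by
  ext i
  rw [As1_mem, As1_mem, Finset.mem_erase]
  exact ⟨fun h => h.2, fun h => ⟨(Fin.castSucc_lt_last i).ne, h⟩⟩

theorem As1_erase (S : Finset (Fin (k + 1))) (i : Fin k) :
    pull (S.erase i.castSucc) = (pull S).erase i := by
  ext j
  rw [As1_mem, Finset.mem_erase, Finset.mem_erase, As1_mem]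
  constructor
  · rintro ⟨h1, h2⟩
    exact ⟨fun h => h1 (by rw [h]), h2⟩
  · rintro ⟨h1, h2⟩
    exact ⟨fun h => h1 (Fin.castSucc_injective k h), h2⟩

theorem As1_sg (S : Finset (Fin (k + 1))) (i : Fin k) : sg i.castSucc S = sg i (pull S) := by
  unfold sg
  have h1 : (S.filter fun j => j < i.castSucc).card = ((pull S).filter fun j => j < i).card := by
    rw [As1_card]
    have h2 : Fin.last k ∉ S.filter fun j => j < i.castSucc := by
      rw [Finset.mem_filter]
      rintro ⟨-, h⟩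
      exact absurd (Fin.castSucc_lt_last i) (not_lt.2 h.le)
    rw [if_neg h2, add_zero]
    congr 1
    ext j
    rw [As1_mem, Finset.mem_filter, Finset.mem_filter, As1_mem, Fin.castSucc_lt_castSucc_iff]
  rw [h1]

theorem As1_sg_last (S : Finset (Fin (k + 1))) : sg (Fin.last k) S = (-1) ^ (pull S).card := by
  unfold sg
  have h1 : (S.filter fun j => j < Fin.last k).card = (pull S).card := by
    rw [As1_card]
    have h2 : Fin.last k ∉ S.filter fun j => j < Fin.last k := by
      rw [Finset.mem_filter]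
      rintro ⟨-, h⟩
      exact lt_irrefl _ h
    rw [if_neg h2, add_zero]
    congr 1
    ext j
    rw [As1_mem, Finset.mem_filter, As1_mem]
    exact ⟨fun h => h.1, fun h => ⟨h, Fin.castSucc_lt_last j⟩⟩
  rw [h1]

/-- The inclusion of the sets. -/
def As1_up (T : Finset (Fin k)) : Finset (Fin (k + 1)) := T.map Fin.castSuccEmb

theorem As1_last_up (T : Finset (Fin k)) : Fin.last k ∉ As1_up T := by
  rw [As1_up, Finset.mem_map]
  rintro ⟨i, -, h⟩
  exact (Fin.castSucc_lt_last i).ne h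

theorem As1_cast_up (T : Finset (Fin k)) (i : Fin k) : i.castSucc ∈ As1_up T ↔ i ∈ T := by
  rw [As1_up, Finset.mem_map]
  constructor
  · rintro ⟨j, hj, h⟩
    have : j = i := Fin.castSucc_injective k h
    rwa [← this]
  · exact fun h => ⟨i, h, rfl⟩

theorem As1_pull_up (T : Finset (Fin k)) : pull (As1_up T) = T := by
  ext i
  rw [As1_mem, As1_cast_up]

theorem As1_pull_insert (T : Finset (Fin k)) : pull (insert (Fin.last k) (As1_up T)) = T := by
  ext i
  rw [As1_mem, Finset.mem_insert, As1_cast_up]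
  exact ⟨fun h => h.resolve_left (Fin.castSucc_lt_last i).ne, Or.inr⟩

theorem As1_up_pull {S : Finset (Fin (k + 1))} (h : Fin.last k ∉ S) : As1_up (pull S) = S := by
  ext j
  refine Fin.lastCases ?_ (fun i => ?_) j
  · exact ⟨fun h' => absurd h' (As1_last_up _), fun h' => absurd h' h⟩
  · rw [As1_cast_up, As1_mem]

theorem As1_insert_pull {S : Finset (Fin (k + 1))} (h : Fin.last k ∈ S) :
    insert (Fin.last k) (As1_up (pull S)) = S := by
  ext j
  refine Fin.lastCases ?_ (fun i => ?_) j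
  · exact ⟨fun _ => h, fun _ => Finset.mem_insert_self _ _⟩
  · rw [Finset.mem_insert, As1_cast_up, As1_mem]
    exact ⟨fun h' => h'.resolve_left (Fin.castSucc_lt_last i).ne, Or.inr⟩

theorem As1_loc (h g : MvPowerSeries (Fin n) K) {x : FF n K} (hx : x ∈ loc h) (j : ℕ) :
    (inc n K g)⁻¹ ^ (j + 1) * x ∈ loc (h * g) := by
  obtain ⟨N, r, hr⟩ := hx
  by_cases hg : g = 0
  · refine ⟨1, 0, ?_⟩
    rw [hg, mul_zero, map_zero, pow_one, zero_mul]
  · have hg' : inc n K g ≠ 0 := inc_ne_zero hg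
    refine ⟨N + (j + 1), g ^ N * h ^ (j + 1) * r, ?_⟩
    rw [map_mul, map_mul, map_mul, map_pow, map_pow, ← hr]
    have h1 : inc n K g ^ (j + 1) * (inc n K g)⁻¹ ^ (j + 1) = 1 := by
      rw [← mul_pow, mul_inv_cancel₀ hg', one_pow]
    calc (inc n K h * inc n K g) ^ (N + (j + 1)) * ((inc n K g)⁻¹ ^ (j + 1) * x)
        = inc n K h ^ N * inc n K h ^ (j + 1) * inc n K g ^ N *
          (inc n K g ^ (j + 1) * (inc n K g)⁻¹ ^ (j + 1)) * x := by ring
      _ = _ := by rw [h1]; ring

theorem As1_j0_neg (c : Fm k (FF n K)) {S : Finset (Fin (k + 1))} (h : Fin.last k ∉ S) :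
    j0 n k K c S = c (pull S) := if_neg h

theorem As1_j0_pos (c : Fm k (FF n K)) {S : Finset (Fin (k + 1))} (h : Fin.last k ∈ S) :
    j0 n k K c S = 0 := if_pos h

theorem As1_j1_neg (y : FF n K) (c : Fm k (FF n K)) {S : Finset (Fin (k + 1))}
    (h : Fin.last k ∉ S) : j1 n k K y c S = 0 := if_neg h

theorem As1_j1_pos (y : FF n K) (c : Fm k (FF n K)) {S : Finset (Fin (k + 1))}
    (h : Fin.last k ∈ S) :
    j1 n k K y c S = ((-1 : ℤ) ^ (pull S).card) • (y * c (pull S)) := if_pos h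

theorem As1_cech (c : Fm (k + 1) (FF n K)) (S : Finset (Fin (k + 1))) :
    cech n (k + 1) K c S = (∑ i ∈ pull S, sg i (pull S) • c (S.erase i.castSucc)) +
      (if Fin.last k ∈ S then ((-1 : ℤ) ^ (pull S).card) • c (S.erase (Fin.last k)) else 0) := by
  change (∑ s ∈ S, sg s S • c (S.erase s)) = _
  rw [As1_sum (fun s => sg s S • c (S.erase s)) S, As1_sg_last]
  congr 1
  exact Finset.sum_congr rfl fun i _ => by rw [As1_sg]

theorem As1_sq (m : ℕ) (x : FF n K) : ((-1 : ℤ) ^ m) • (((-1 : ℤ) ^ m) • x) = x := by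
  rw [smul_smul, ← mul_pow, neg_one_mul, neg_neg, one_pow, one_smul]

theorem As1_last_erase {S : Finset (Fin (k + 1))} (i : Fin k) :
    Fin.last k ∈ S.erase i.castSucc ↔ Fin.last k ∈ S := by
  rw [Finset.mem_erase]
  exact ⟨fun h => h.2, fun h => ⟨(Fin.castSucc_lt_last i).ne', h⟩⟩

theorem j0_mem (f : Fin (k + 1) → MvPowerSeries (Fin n) K) {c : Fm k (FF n K)}
    (hc : c ∈ WA (fini f) ∅) : j0 n k K c ∈ WA f ∅ := by
  intro S
  by_cases h : Fin.last k ∈ S
  · rw [As1_j0_pos c h]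
    exact Submodule.zero_mem _
  · rw [As1_j0_neg c h, As1_fS, if_neg h, mul_one]
    exact hc (pull S)

/-- Proof. `fS f S = f last * fS (fini f) (pull S)` if `last ∈ S`. -/
theorem j1_mem (f : Fin (k + 1) → MvPowerSeries (Fin n) K) (j : ℕ) {c : Fm k (FF n K)}
    (hc : c ∈ WA (fini f) ∅) :
    j1 n k K ((inc n K (f (Fin.last k)))⁻¹ ^ (j + 1)) c ∈ WA f ∅ := by
  intro S
  by_cases h : Fin.last k ∈ S
  · rw [As1_j1_pos _ c h, As1_fS, if_pos h]
    exact zsmul_mem (As1_loc _ _ (hc (pull S)) j) _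
  · rw [As1_j1_neg _ c h]
    exact Submodule.zero_mem _

/-- The inclusion of the cochains of `f_0 .. f_(k-1)`. -/
noncomputable def J0 (f : Fin (k + 1) → MvPowerSeries (Fin n) K) :
    CC (fini f) →ₗ[MvPowerSeries (Fin n) K] CC f :=
  (j0 n k K).restrict fun _ hc => j0_mem f hc

/-- The map `c ↦ g^(-j-1) ε c` in the sets containing the last index, `g = f_k`. -/
noncomputable def J1 (f : Fin (k + 1) → MvPowerSeries (Fin n) K) (j : ℕ) :
    CC (fini f) →ₗ[MvPowerSeries (Fin n) K] CC f :=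
  (j1 n k K ((inc n K (f (Fin.last k)))⁻¹ ^ (j + 1))).restrict fun _ hc => j1_mem f j hc

theorem J1_succ (f : Fin (k + 1) → MvPowerSeries (Fin n) K) (hf : f (Fin.last k) ≠ 0) (j : ℕ)
    (c : CC (fini f)) : J1 f (j + 1) (f (Fin.last k) • c) = J1 f j c := by
  have hg' : inc n K (f (Fin.last k)) ≠ 0 := inc_ne_zero hf
  apply Subtype.ext
  funext S
  change j1 n k K ((inc n K (f (Fin.last k)))⁻¹ ^ (j + 1 + 1)) (f (Fin.last k) • (c : Fm k (FF n K))) S =
    j1 n k K ((inc n K (f (Fin.last k)))⁻¹ ^ (j + 1)) c S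
  by_cases h : Fin.last k ∈ S
  · rw [As1_j1_pos _ _ h, As1_j1_pos _ _ h, Pi.smul_apply, Algebra.smul_def]
    congr 1
    have h1 : (inc n K (f (Fin.last k)))⁻¹ * inc n K (f (Fin.last k)) = 1 := inv_mul_cancel₀ hg'
    calc (inc n K (f (Fin.last k)))⁻¹ ^ (j + 1 + 1) * (inc n K (f (Fin.last k)) *
          (c : Fm k (FF n K)) (pull S))
        = ((inc n K (f (Fin.last k)))⁻¹ * inc n K (f (Fin.last k))) *
          ((inc n K (f (Fin.last k)))⁻¹ ^ (j + 1) * (c : Fm k (FF n K)) (pull S)) := by ring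
      _ = _ := by rw [h1, one_mul]
  · rw [As1_j1_neg _ _ h, As1_j1_neg _ _ h]

/-- Proof. Component `S ∌ last`: all `S ∖ s ∌ last`, and `sg` and `pull` are compatible. Component `S ∋ last`: only `s = last` contributes, with sign `(-1)^|pull S|`. -/
theorem cce_J0 (f : Fin (k + 1) → MvPowerSeries (Fin n) K) (hf : f (Fin.last k) ≠ 0)
    (c : CC (fini f)) :
    cce f (J0 f c) = J0 f (cce (fini f) c) + J1 f 0 (f (Fin.last k) • c) := by
  have hg' : inc n K (f (Fin.last k)) ≠ 0 := inc_ne_zero hf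
  apply Subtype.ext
  funext S
  change cech n (k + 1) K (j0 n k K c) S = j0 n k K (cech n k K c) S +
    j1 n k K ((inc n K (f (Fin.last k)))⁻¹ ^ (0 + 1)) (f (Fin.last k) • (c : Fm k (FF n K))) S
  rw [As1_cech]
  by_cases h : Fin.last k ∈ S
  · rw [if_pos h, As1_j0_pos _ h, As1_j1_pos _ _ h, zero_add, Pi.smul_apply, Algebra.smul_def,
      Finset.sum_eq_zero, zero_add]
    · congr 1
      rw [As1_j0_neg _ (Finset.notMem_erase _ _), As1_erase_last, zero_add, pow_one, ← mul_assoc,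
        inv_mul_cancel₀ hg', one_mul]
    · intro i _
      rw [As1_j0_pos _ ((As1_last_erase i).2 h), As1_z0]
  · rw [if_neg h, add_zero, As1_j0_neg _ h, As1_j1_neg _ _ h, add_zero]
    refine Finset.sum_congr rfl fun i _ => ?_
    rw [As1_j0_neg _ (fun h' => h ((As1_last_erase i).1 h')), As1_erase]

/-- Proof. Component `S ∋ last`: `s = last` gives zero, the others give the Cech differential of `ε c`, and `cech (ε c) = - ε (cech c)`. Component `S ∌ last`: zero. -/
theorem cce_J1 (f : Fin (k + 1) → MvPowerSeries (Fin n) K) (j : ℕ) (c : CC (fini f)) :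
    cce f (J1 f j c) = - J1 f j (cce (fini f) c) := by
  apply Subtype.ext
  funext S
  change cech n (k + 1) K (j1 n k K ((inc n K (f (Fin.last k)))⁻¹ ^ (j + 1)) c) S =
    -(j1 n k K ((inc n K (f (Fin.last k)))⁻¹ ^ (j + 1)) (cech n k K c) S)
  rw [As1_cech]
  by_cases h : Fin.last k ∈ S
  · rw [if_pos h, As1_j1_neg _ _ (Finset.notMem_erase _ _), As1_z0, add_zero,
      As1_j1_pos _ _ h]
    change _ = -(((-1 : ℤ) ^ (pull S).card) • ((inc n K (f (Fin.last k)))⁻¹ ^ (j + 1) *
      ∑ i ∈ pull S, sg i (pull S) • (c : Fm k (FF n K)) ((pull S).erase i)))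
    rw [Finset.mul_sum, As1_zsum, ← Finset.sum_neg_distrib]
    refine Finset.sum_congr rfl fun i hi => ?_
    rw [As1_j1_pos _ _ ((As1_last_erase i).2 h), As1_erase, Finset.card_erase_of_mem hi]
    obtain ⟨m, hm⟩ : ∃ m, (pull S).card = m + 1 :=
      ⟨(pull S).card - 1, by have := Finset.card_pos.2 ⟨i, hi⟩; omega⟩
    rw [hm, Nat.add_sub_cancel, pow_succ (-1 : ℤ) m]
    exact As1_flip _ _ _ _
  · rw [if_neg h, add_zero, As1_j1_neg _ _ h, neg_zero, Finset.sum_eq_zero]
    intro i _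
    rw [As1_j1_neg _ _ (fun h' => h ((As1_last_erase i).1 h')), As1_z0]

theorem ccn_J0 (f : Fin (k + 1) → MvPowerSeries (Fin n) K) (i : Fin n) (c : CC (fini f)) :
    (ccn f).nab i (J0 f c) = J0 f ((ccn (fini f)).nab i c) := by
  apply Subtype.ext
  funext S
  change dF n K i (j0 n k K c S) = j0 n k K (fun T => dF n K i ((c : Fm k (FF n K)) T)) S
  by_cases h : Fin.last k ∈ S
  · rw [As1_j0_pos _ h, As1_j0_pos _ h, map_zero]
  · rw [As1_j0_neg _ h, As1_j0_neg _ h]

/-- Proof. Quotient rule: `∂ (g^(-j-1) c) = g^(-j-1) ∂ c - (j+1) g^(-j-2) (∂ g) c`. -/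
theorem ccn_J1 (f : Fin (k + 1) → MvPowerSeries (Fin n) K) (hf : f (Fin.last k) ≠ 0) (i : Fin n)
    (j : ℕ) (c : CC (fini f)) :
    (ccn f).nab i (J1 f j c) = J1 f j ((ccn (fini f)).nab i c) -
      (j + 1) • J1 f (j + 1) (pderiv K i (f (Fin.last k)) • c) := by
  have hg' : inc n K (f (Fin.last k)) ≠ 0 := inc_ne_zero hf
  apply Subtype.ext
  funext S
  change dF n K i (j1 n k K ((inc n K (f (Fin.last k)))⁻¹ ^ (j + 1)) c S) =
    j1 n k K ((inc n K (f (Fin.last k)))⁻¹ ^ (j + 1)) (fun T => dF n K i ((c : Fm k (FF n K)) T)) S -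
    (j + 1) • j1 n k K ((inc n K (f (Fin.last k)))⁻¹ ^ (j + 1 + 1))
      (pderiv K i (f (Fin.last k)) • (c : Fm k (FF n K))) S
  by_cases h : Fin.last k ∈ S
  · rw [As1_j1_pos _ _ h, As1_j1_pos _ _ h, As1_j1_pos _ _ h, Pi.smul_apply, Algebra.smul_def,
      map_zsmul, As1_nz, As1_zsub]
    congr 1
    rw [Derivation.leibniz, Derivation.leibniz_pow, Derivation.leibniz_inv, dF_inc]
    simp only [smul_eq_mul, nsmul_eq_mul, Nat.add_sub_cancel]
    push_cast
    ring
  · rw [As1_j1_neg _ _ h, As1_j1_neg _ _ h, As1_j1_neg _ _ h, map_zero, As1_n0, sub_zero]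

/-- Every cochain is of the form `J0 a + J1 N b`.

Proof. `a_S = c_(S)` for `S` without last, and for the components with last: multiply by a power `g^(N+1)` of `g` to get into `loc (fS (fini f) S)` for all (finitely many) `S`. -/
theorem cc_split (f : Fin (k + 1) → MvPowerSeries (Fin n) K) (hf : ∀ s, f s ≠ 0) (c : CC f) :
    ∃ (a : CC (fini f)) (N : ℕ) (b : CC (fini f)), c = J0 f a + J1 f N b := by
  classical
  have hg' : inc n K (f (Fin.last k)) ≠ 0 := inc_ne_zero (hf _)
  have hM : ∀ T : Finset (Fin k), ∃ M : ℕ, ∃ r : MvPowerSeries (Fin n) K,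
      inc n K (fS (fini f) T * f (Fin.last k)) ^ M *
        (c : Fm (k + 1) (FF n K)) (insert (Fin.last k) (As1_up T)) = inc n K r := by
    intro T
    obtain ⟨M, r, hr⟩ := c.2 (insert (Fin.last k) (As1_up T))
    rw [As1_fS, As1_pull_insert, if_pos (Finset.mem_insert_self _ _)] at hr
    exact ⟨M, r, hr⟩
  choose M r hr using hM
  let N := ∑ T, M T
  have hN : ∀ T, M T ≤ N := fun T => Finset.single_le_sum (fun _ _ => Nat.zero_le _) (Finset.mem_univ T)
  refine ⟨⟨fun T => (c : Fm (k + 1) (FF n K)) (As1_up T), fun T => ?_⟩, N,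
    ⟨fun T => ((-1 : ℤ) ^ T.card) • (inc n K (f (Fin.last k)) ^ (N + 1) *
      (c : Fm (k + 1) (FF n K)) (insert (Fin.last k) (As1_up T))), fun T => ?_⟩, ?_⟩
  · have h1 := c.2 (As1_up T)
    rwa [As1_fS, As1_pull_up, if_neg (As1_last_up T), mul_one] at h1
  · refine zsmul_mem ?_ _
    obtain ⟨d, hd⟩ := Nat.exists_eq_add_of_le (hN T)
    refine ⟨M T, f (Fin.last k) ^ (d + 1) * r T, ?_⟩
    rw [map_mul, map_pow, ← hr T, map_mul, hd]
    ring
  · apply Subtype.ext
    funext S
    change (c : Fm (k + 1) (FF n K)) S = j0 n k K (fun T => (c : Fm (k + 1) (FF n K)) (As1_up T)) S +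
      j1 n k K ((inc n K (f (Fin.last k)))⁻¹ ^ (N + 1)) (fun T => ((-1 : ℤ) ^ T.card) •
        (inc n K (f (Fin.last k)) ^ (N + 1) *
        (c : Fm (k + 1) (FF n K)) (insert (Fin.last k) (As1_up T)))) S
    by_cases h : Fin.last k ∈ S
    · rw [As1_j0_pos _ h, zero_add, As1_j1_pos _ _ h, As1_insert_pull h, mul_smul_comm, As1_sq,
        ← mul_assoc, ← mul_pow, inv_mul_cancel₀ hg', one_pow, one_mul]
    · rw [As1_j0_neg _ h, As1_j1_neg _ _ h, add_zero, As1_up_pull h]

theorem As1_card0 (f : Fin (k + 1) → MvPowerSeries (Fin n) K) (hf : f (Fin.last k) ≠ 0) (N : ℕ)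
    (a b : CC (fini f)) (T : Finset (Fin k)) :
    (((J0 f a + J1 f N b : CC f) : Fm (k + 1) (FF n K)) (As1_up T) = 0 →
      (a : Fm k (FF n K)) T = 0) ∧
    (((J0 f a + J1 f N b : CC f) : Fm (k + 1) (FF n K)) (insert (Fin.last k) (As1_up T)) = 0 →
      (b : Fm k (FF n K)) T = 0) := by
  have hg' : inc n K (f (Fin.last k)) ≠ 0 := inc_ne_zero hf
  constructor
  · intro h
    change j0 n k K a (As1_up T) + j1 n k K ((inc n K (f (Fin.last k)))⁻¹ ^ (N + 1)) b (As1_up T) = 0 at h
    rw [As1_j0_neg _ (As1_last_up T), As1_j1_neg _ _ (As1_last_up T), add_zero, As1_pull_up] at h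
    exact h
  · intro h
    have hm : Fin.last k ∈ insert (Fin.last k) (As1_up T) := Finset.mem_insert_self _ _
    change j0 n k K a (insert (Fin.last k) (As1_up T)) +
      j1 n k K ((inc n K (f (Fin.last k)))⁻¹ ^ (N + 1)) b (insert (Fin.last k) (As1_up T)) = 0 at h
    rw [As1_j0_pos _ hm, As1_j1_pos _ _ hm, zero_add, As1_pull_insert] at h
    have h1 : ((-1 : ℤ) ^ T.card) • (((-1 : ℤ) ^ T.card) •
        ((inc n K (f (Fin.last k)))⁻¹ ^ (N + 1) * (b : Fm k (FF n K)) T)) =
        ((-1 : ℤ) ^ T.card) • (0 : FF n K) := congrArg (fun x => ((-1 : ℤ) ^ T.card) • x) h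
    rw [As1_sq, As1_z0] at h1
    rcases mul_eq_zero.1 h1 with h2 | h2
    · exact absurd h2 (pow_ne_zero _ (inv_ne_zero hg'))
    · exact h2

theorem cc_indep (f : Fin (k + 1) → MvPowerSeries (Fin n) K) (hf : f (Fin.last k) ≠ 0) (N : ℕ)
    (a b : CC (fini f)) (h : J0 f a + J1 f N b = 0) : a = 0 ∧ b = 0 := by
  have h' := As1_card0 f hf N a b
  constructor
  · apply Subtype.ext
    funext T
    exact (h' T).1 (by rw [h]; rfl)
  · apply Subtype.ext
    funext T
    exact (h' T).2 (by rw [h]; rfl)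

/-- If `J0 a + J1 N b` has no components of cardinality `d`, then `a` has none of cardinality `d` and `b` none of cardinality `d - 1`. -/
theorem cc_card (f : Fin (k + 1) → MvPowerSeries (Fin n) K) (hf : f (Fin.last k) ≠ 0) (N : ℕ)
    (a b : CC (fini f)) (d : ℤ)
    (h : ∀ S : Finset (Fin (k + 1)), (S.card : ℤ) = d →
      ((J0 f a + J1 f N b : CC f) : Fm (k + 1) (FF n K)) S = 0) :
    (∀ S : Finset (Fin k), (S.card : ℤ) = d → (a : Fm k (FF n K)) S = 0) ∧
      ∀ S : Finset (Fin k), (S.card : ℤ) = d - 1 → (b : Fm k (FF n K)) S = 0 := by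
  have h' := As1_card0 f hf N a b
  constructor
  · intro T hT
    refine (h' T).1 (h _ ?_)
    rw [As1_card, As1_pull_up, if_neg (As1_last_up T), add_zero, hT]
  · intro T hT
    refine (h' T).2 (h _ ?_)
    rw [As1_card, As1_pull_insert, if_pos (Finset.mem_insert_self _ _)]
    push_cast
    omega

theorem J0_card (f : Fin (k + 1) → MvPowerSeries (Fin n) K) (a : CC (fini f)) (d : ℤ)
    (h : ∀ S : Finset (Fin k), (S.card : ℤ) = d → (a : Fm k (FF n K)) S = 0)
    (S : Finset (Fin (k + 1))) (hS : (S.card : ℤ) = d) :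
    ((J0 f a : CC f) : Fm (k + 1) (FF n K)) S = 0 := by
  change j0 n k K a S = 0
  by_cases hl : Fin.last k ∈ S
  · rw [As1_j0_pos _ hl]
  · rw [As1_j0_neg _ hl]
    refine h _ ?_
    rw [As1_card, if_neg hl, add_zero] at hS
    exact hS

theorem J1_card (f : Fin (k + 1) → MvPowerSeries (Fin n) K) (N : ℕ) (b : CC (fini f)) (d : ℤ)
    (h : ∀ S : Finset (Fin k), (S.card : ℤ) = d - 1 → (b : Fm k (FF n K)) S = 0)
    (S : Finset (Fin (k + 1))) (hS : (S.card : ℤ) = d) :
    ((J1 f N b : CC f) : Fm (k + 1) (FF n K)) S = 0 := by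
  change j1 n k K ((inc n K (f (Fin.last k)))⁻¹ ^ (N + 1)) b S = 0
  by_cases hl : Fin.last k ∈ S
  · rw [As1_j1_pos _ _ hl, h, mul_zero, As1_z0]
    rw [As1_card, if_pos hl] at hS
    push_cast at hS
    omega
  · rw [As1_j1_neg _ _ hl]

end B5a
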