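import Pool.Agent.H.MP_b5a980_ag.As1
import Pool.Agent.H.MP_b5a980_ag.Te0

set_option autoImplicit false
set_option linter.unusedSectionVars false
set_option linter.style.longLine false

/-!
The map to the telescope (MP_b5a980_ag, part D).
-/

namespace B5a

universe u v w

open MvPowerSeries

variable {n k : ℕ} {K : Type u} [Field K]

/-- The map `λ ↦ (b, m)`, `b_0 = - λ ∘ J0`, `b_j = 0` for `j ≥ 1`, `m_j = λ ∘ J1 j`. -/
noncomputable def psi (f : Fin (k + 1) → MvPowerSeries (Fin n) K) :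
    CD n K (CC f) →ₗ[MvPowerSeries (Fin n) K]
      ((ℕ → CD n K (CC (fini f))) × (ℕ → CD n K (CC (fini f)))) :=
  LinearMap.prod
    (LinearMap.pi fun j => if j = 0 then - cdmap (J0 f) else 0)
    (LinearMap.pi fun j => cdmap (J1 f j))

theorem psi_fst_zero (f : Fin (k + 1) → MvPowerSeries (Fin n) K) (lam : CD n K (CC f)) :
    (psi f lam).1 0 = - cdmap (J0 f) lam := rfl

theorem psi_fst_succ (f : Fin (k + 1) → MvPowerSeries (Fin n) K) (lam : CD n K (CC f)) (j : ℕ) :
    (psi f lam).1 (j + 1) = 0 := rfl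

theorem psi_snd (f : Fin (k + 1) → MvPowerSeries (Fin n) K) (lam : CD n K (CC f)) (j : ℕ) :
    (psi f lam).2 j = cdmap (J1 f j) lam := rfl

/-- Proof. `ccn_J0`, `ccn_J1`. -/
theorem psi_nab (f : Fin (k + 1) → MvPowerSeries (Fin n) K) (hf : f (Fin.last k) ≠ 0) (i : Fin n)
    (lam : (astar f).Γ) :
    psi f ((astar f).C.nab i lam) =
      (TObj (f (Fin.last k)) (astar (fini f))).C.nab i (psi f lam) := by
  refine Prod.ext ?_ ?_
  · funext j
    refine CD.ext fun c => ?_
    cases j with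
    | zero =>
      change -(-(lam.fn ((ccn f).nab i (J0 f c)))) =
        -(-(lam.fn (J0 f ((ccn (fini f)).nab i c)))) +
          ((0 : ℕ) + 1) • (0 : K)
      rw [ccn_J0, smul_zero, add_zero]
    | succ j =>
      change (0 : CD n K (CC (fini f))).fn c = -(0 : K) + ((j + 1 : ℕ) + 1) • (0 : K)
      rw [smul_zero, neg_zero, add_zero, CD.zero_fn]
  · funext j
    refine CD.ext fun c => ?_
    change -(lam.fn ((ccn f).nab i (J1 f j c))) = -(lam.fn (J1 f j ((ccn (fini f)).nab i c))) +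
      ((j : ℕ) + 1) • lam.fn (J1 f (j + 1) (pderiv K i (f (Fin.last k)) • c))
    rw [ccn_J1 f hf, map_sub, map_nsmul]
    abel

/-- Proof. First component at `0`: `- (λ ∘ cce) ∘ J0 = - λ ∘ J0 ∘ cce' - λ ∘ J1 0 ∘ g` (`cce_J0`) `= δ b_0 - g m_0`; at `j + 1`: `0 = m_j - g m_(j+1)` (`J1_succ`); second: `(λ ∘ cce) ∘ J1 j = - λ ∘ J1 j ∘ cce'` (`cce_J1`). -/
theorem psi_del (f : Fin (k + 1) → MvPowerSeries (Fin n) K) (hf : f (Fin.last k) ≠ 0)
    (lam : (astar f).Γ) :
    psi f ((astar f).δ lam) = (TObj (f (Fin.last k)) (astar (fini f))).δ (psi f lam) := by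
  refine Prod.ext ?_ ?_
  · funext j
    refine CD.ext fun c => ?_
    cases j with
    | zero =>
      change -(lam.fn (cce f (J0 f c))) = -(lam.fn (J0 f (cce (fini f) c))) +
        (0 - lam.fn (J1 f 0 (f (Fin.last k) • c)))
      rw [cce_J0 f hf, map_add]
      abel
    | succ j =>
      change (0 : K) = 0 + (lam.fn (J1 f j c) - lam.fn (J1 f (j + 1) (f (Fin.last k) • c)))
      rw [J1_succ f hf, sub_self, add_zero]
  · funext j
    refine CD.ext fun c => ?_
    change lam.fn (cce f (J1 f j c)) = -(lam.fn (J1 f j (cce (fini f) c)))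
    rw [cce_J1, map_neg]

/-- Proof. `J0_card`, `J1_card`: Cech degree `n - q` for `b_0`, `n - q - 1 = n - (q+1)` for `m_j`. -/
theorem psi_gr (f : Fin (k + 1) → MvPowerSeries (Fin n) K) (q : ℤ) (lam : (astar f).Γ)
    (h : lam ∈ (astar f).G q) :
    psi f lam ∈ (TObj (f (Fin.last k)) (astar (fini f))).G q := by
  refine ⟨fun j => ?_, fun j => ?_⟩
  · cases j with
    | zero =>
      intro c hc
      change -(lam.fn (J0 f c)) = 0
      rw [h (J0 f c) fun S hS => J0_card f c _ hc S hS, neg_zero]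
    | succ j => exact Submodule.zero_mem _
  · intro c hc
    change lam.fn (J1 f j c) = 0
    refine h (J1 f j c) fun S hS => J1_card f j c ((n : ℤ) - q) (fun S hS => ?_) S hS
    exact hc S (by rw [hS]; ring)

/-- Proof. `cc_split`. -/
theorem psi_inj (f : Fin (k + 1) → MvPowerSeries (Fin n) K) (hf : ∀ s, f s ≠ 0)
    (lam : CD n K (CC f)) (h : psi f lam = 0) : lam = 0 := by
  refine CD.ext fun c => ?_
  obtain ⟨a, N, b, rfl⟩ := cc_split f hf c
  have h1 : ((psi f lam).1 0).fn a = 0 := by rw [h]; rfl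
  have h2 : ((psi f lam).2 N).fn b = 0 := by rw [h]; rfl
  change -(lam.fn (J0 f a)) = 0 at h1
  change lam.fn (J1 f N b) = 0 at h2
  rw [map_add, neg_eq_zero.1 h1, h2, add_zero]
  rfl

theorem As2_J1_pow (f : Fin (k + 1) → MvPowerSeries (Fin n) K) (hf : f (Fin.last k) ≠ 0)
    (N j : ℕ) (c : CC (fini f)) : J1 f (N + j) (f (Fin.last k) ^ j • c) = J1 f N c := by
  induction j with
  | zero => rw [pow_zero, one_smul, add_zero]
  | succ j ih =>
    rw [← add_assoc, pow_succ', mul_smul, J1_succ f hf, ih]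

theorem As2_m_pow {f : Fin (k + 1) → MvPowerSeries (Fin n) K} {m : ℕ → CD n K (CC (fini f))}
    (hm : ∀ j, m j = f (Fin.last k) • m (j + 1)) (N j : ℕ) :
    m N = f (Fin.last k) ^ j • m (N + j) := by
  induction j with
  | zero => rw [pow_zero, one_smul, add_zero]
  | succ j ih =>
    rw [ih, hm (N + j), ← mul_smul, ← pow_succ, ← add_assoc]

/-- multiplication of cochains by an element of the fraction field -/
noncomputable def As2_mul {r : ℕ} (y : FF n K) :
    Fm r (FF n K) →ₗ[MvPowerSeries (Fin n) K] Fm r (FF n K) where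
  toFun c := fun S => y * c S
  map_add' := by
    intro a b
    funext S
    exact mul_add _ _ _
  map_smul' := by
    intro a c
    funext S
    exact mul_smul_comm a y (c S)

/-- The image of `psi`.

Proof. Define `λ c = - b_0 a + m_N b` for `c = J0 a + J1 N b` (`cc_split`); well defined: `J0 a + J1 N b = J0 a' + J1 N' b'`, `N ≤ N'`: `J1 N b = J1 N' (g^(N'-N) b)` (`J1_succ`), so `a = a'`, `b' = g^(N'-N) b` (`cc_indep`), and `m_N' (g^(N'-N) b) = (g^(N'-N) m_N') b = m_N b`. Linear: bring two elements to the same `N`. Continuous: from the continuity of `b_0` and `m_N`. Degree: `cc_card`. -/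
theorem psi_image (f : Fin (k + 1) → MvPowerSeries (Fin n) K) (hf : ∀ s, f s ≠ 0) (q : ℤ)
    (b m : ℕ → CD n K (CC (fini f)))
    (h : ((b, m) : (TObj (f (Fin.last k)) (astar (fini f))).Γ) ∈
      (TObj (f (Fin.last k)) (astar (fini f))).G q)
    (hb : ∀ j, b (j + 1) = 0) (hm : ∀ j, m j = f (Fin.last k) • m (j + 1)) :
    ∃ lam ∈ (astar f).G q, psi f lam = (b, m) := by
  obtain ⟨h1, h2⟩ := h
  have hg := hf (Fin.last k)
  have hwd : ∀ (a a' : CC (fini f)) (N N' : ℕ) (c c' : CC (fini f)),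
      J0 f a + J1 f N c = J0 f a' + J1 f N' c' →
      -((b 0).fn a) + (m N).fn c = -((b 0).fn a') + (m N').fn c' := by
    intro a a' N N' c c' he
    rw [← As2_J1_pow f hg N N' c, ← As2_J1_pow f hg N' N c', add_comm N' N] at he
    have he2 : J0 f (a - a') + J1 f (N + N') (f (Fin.last k) ^ N' • c -
        f (Fin.last k) ^ N • c') = 0 := by
      rw [map_sub, map_sub]
      have h3 := sub_eq_zero.2 he
      rw [← h3]
      abel
    obtain ⟨h4, h5⟩ := cc_indep f hg _ _ _ he2
    rw [sub_eq_zero.1 h4, As2_m_pow hm N N', As2_m_pow hm N' N, add_comm N' N, CD.smul_fn,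
      CD.smul_fn, sub_eq_zero.1 h5]
  choose a N c hac using cc_split f hf
  have hL : ∀ (x a' : CC (fini f)) (y : CC f) (N' : ℕ), y = J0 f a' + J1 f N' x →
      -((b 0).fn (a y)) + (m (N y)).fn (c y) = -((b 0).fn a') + (m N').fn x := by
    intro x a' y N' he
    exact hwd _ _ _ _ _ _ ((hac y).symm.trans he)
  have hadd : ∀ y z : CC f, -((b 0).fn (a (y + z))) + (m (N (y + z))).fn (c (y + z)) =
      (-((b 0).fn (a y)) + (m (N y)).fn (c y)) + (-((b 0).fn (a z)) + (m (N z)).fn (c z)) := by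
    intro y z
    have h3 : y + z = J0 f (a y + a z) + J1 f (N y + N z)
        (f (Fin.last k) ^ N z • c y + f (Fin.last k) ^ N y • c z) := by
      rw [map_add, map_add, As2_J1_pow f hg (N y) (N z), add_comm (N y) (N z),
        As2_J1_pow f hg (N z) (N y)]
      conv_lhs => rw [hac y, hac z]
      abel
    rw [hL _ _ _ _ h3, map_add, map_add, ← CD.smul_fn, ← CD.smul_fn, ← As2_m_pow hm,
      add_comm (N y) (N z), ← As2_m_pow hm]
    abel
  have hsmul : ∀ (r : MvPowerSeries (Fin n) K) (y : CC f),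
      -((b 0).fn (a (r • y))) + (m (N (r • y))).fn (c (r • y)) =
      -((b 0).fn (r • a y)) + (m (N y)).fn (r • c y) := by
    intro r y
    refine hL _ _ _ _ ?_
    rw [map_smul, map_smul, ← smul_add, ← hac y]
  have hsmulK : ∀ (r : K) (y : CC f),
      -((b 0).fn (a (r • y))) + (m (N (r • y))).fn (c (r • y)) =
      r * (-((b 0).fn (a y)) + (m (N y)).fn (c y)) := by
    intro r y
    have h3 : r • y = J0 f (r • a y) + J1 f (N y) (r • c y) := by
      rw [LinearMap.map_smul_of_tower, LinearMap.map_smul_of_tower, ← smul_add, ← hac y]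
    rw [hL _ _ _ _ h3, map_smul, map_smul, smul_eq_mul, smul_eq_mul]
    ring
  have hcont : ∀ y : CC f, ∃ M : ℕ, ∀ r ∈ mI n K M,
      -((b 0).fn (a (r • y))) + (m (N (r • y))).fn (c (r • y)) = 0 := by
    intro y
    obtain ⟨M1, hM1⟩ := (b 0).cont (a y) trivial
    obtain ⟨M2, hM2⟩ := (m (N y)).cont (c y) trivial
    refine ⟨max M1 M2, fun r hr => ?_⟩
    rw [hsmul, hM1 r (mI_anti (le_max_left _ _) hr), hM2 r (mI_anti (le_max_right _ _) hr),
      neg_zero, add_zero]
  obtain ⟨L, hLL⟩ : ∃ L : CD n K (CC f), ∀ y, L.fn y =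
      -((b 0).fn (a y)) + (m (N y)).fn (c y) :=
    ⟨(⟨{ toFun := fun y => -((b 0).fn (a y)) + (m (N y)).fn (c y)
         map_add' := hadd
         map_smul' := hsmulK }, fun y _ => hcont y⟩ : ↥(cdK n K (CC f))), fun y => rfl⟩
  refine ⟨L, ?_, ?_⟩
  · intro y hy
    rw [hLL]
    rw [hac y] at hy
    obtain ⟨h3, h4⟩ := cc_card f hg _ _ _ _ hy
    have h5 : (b 0).fn (a y) = 0 := h1 0 (a y) h3
    have h6 : (m (N y)).fn (c y) = 0 := h2 (N y) (c y) fun S hS => h4 S (by rw [hS]; ring)
    rw [h5, h6, neg_zero, add_zero]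
  · refine Prod.ext ?_ ?_
    · funext j
      refine CD.ext fun x => ?_
      cases j with
      | zero =>
        change -(L.fn (J0 f x)) = (b 0).fn x
        rw [hLL, hL 0 x _ 0 (by rw [map_zero, add_zero]), map_zero, add_zero, neg_neg]
      | succ j =>
        change (0 : CD n K (CC (fini f))).fn x = (b (j + 1)).fn x
        rw [hb j]
    · funext j
      refine CD.ext fun x => ?_
      change L.fn (J1 f j x) = (m j).fn x
      rw [hLL, hL x 0 _ j (by rw [map_zero, zero_add]), map_zero, neg_zero, zero_add]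

/-- Divisibility of the continuous functionals on cochains.

Proof. On the submodule `g • WA` of `Fm r (FF n K)` define `ν (g c) = μ c` (torsion-free), continuous; `ext_cont` extends it to `Fm r (FF n K)`; restrict to `WA` and compose with the projection `cq (n - q)` to the Cech degree `n - q` (this keeps `g ν = μ` since `μ` only depends on these components). -/
theorem asG_div {r : ℕ} (f : Fin r → MvPowerSeries (Fin n) K) {g : MvPowerSeries (Fin n) K}
    (hg : g ≠ 0) (q : ℤ) (mu : CD n K (CC f)) (h : mu ∈ asG f q) :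
    ∃ nu ∈ asG f q, g • nu = mu := by
  have hg0 : inc n K g ≠ 0 := inc_ne_zero hg
  obtain ⟨mt, hmt⟩ := Dc1_ext1 (WA f ∅) mu.fn
  have hcW : ContOn ((WA f ∅).comap (As2_mul (r := r) (inc n K g)⁻¹))
      (mt.comp ((As2_mul (r := r) (inc n K g)⁻¹).restrictScalars K)) := by
    intro c hc
    obtain ⟨N, hN⟩ := mu.cont ⟨_, hc⟩ trivial
    refine ⟨N, fun a ha => ?_⟩
    change mt (As2_mul (inc n K g)⁻¹ (a • c)) = 0
    rw [map_smul]
    have h1 := hN a ha
    rw [← hmt] at h1
    exact h1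
  obtain ⟨nt, hn1, hn2⟩ := ext_cont _ _ hcW
  have hcont : ∀ c : CC f, ∃ M : ℕ, ∀ a ∈ mI n K M,
      nt (cq (n - q) ((a • c : CC f) : Fm r (FF n K))) = 0 := by
    intro c
    obtain ⟨M, hM⟩ := hn1 (cq (n - q) (c : Fm r (FF n K))) trivial
    refine ⟨M, fun a ha => ?_⟩
    have h1 : cq (n - q) ((a • c : CC f) : Fm r (FF n K)) =
        a • cq (n - q) (c : Fm r (FF n K)) := map_smul _ a (c : Fm r (FF n K))
    rw [h1]
    exact hM a ha
  obtain ⟨nu, hnu⟩ : ∃ nu : CD n K (CC f), ∀ c, nu.fn c =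
      nt (cq (n - q) (c : Fm r (FF n K))) :=
    ⟨(⟨(nt.comp ((cq ((n : ℤ) - q)).restrictScalars K)).comp
      ((WA f ∅).subtype.restrictScalars K), fun c _ => hcont c⟩ : ↥(cdK n K (CC f))),
      fun c => rfl⟩
  refine ⟨nu, fun c hc => ?_, CD.ext fun c => ?_⟩
  · rw [hnu]
    have h1 : cq (n - q) (c : Fm r (FF n K)) = 0 := by
      funext S
      rw [Dc2_cq]
      split_ifs with hS
      · exact hc S hS
      · rfl
    rw [h1, map_zero]
  · rw [CD.smul_fn, hnu]
    have h1 : cq (n - q) ((g • c : CC f) : Fm r (FF n K)) =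
        g • cq (n - q) (c : Fm r (FF n K)) := map_smul _ g (c : Fm r (FF n K))
    have h2 : As2_mul (r := r) (inc n K g)⁻¹ (g • cq (n - q) (c : Fm r (FF n K))) =
        cq (n - q) (c : Fm r (FF n K)) := by
      funext S
      change (inc n K g)⁻¹ * (g • (cq (n - q) (c : Fm r (FF n K)) S)) = _
      rw [Algebra.smul_def]
      exact inv_mul_cancel_left₀ hg0 _
    have h3 : cq (n - q) (c : Fm r (FF n K)) ∈ WA f ∅ := by
      intro S
      rw [Dc2_cq]
      split_ifs with hS
      · exact c.2 S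
      · exact Submodule.zero_mem _
    rw [h1, hn2 _ (by
      change As2_mul (r := r) (inc n K g)⁻¹ (g • cq (n - q) (c : Fm r (FF n K))) ∈ WA f ∅
      rw [h2]
      exact h3)]
    change mt (As2_mul (r := r) (inc n K g)⁻¹ (g • cq (n - q) (c : Fm r (FF n K)))) = _
    rw [h2, hmt ⟨_, h3⟩]
    have h4 : mu.fn (c - ⟨_, h3⟩ : CC f) = 0 := by
      refine h _ fun S hS => ?_
      change (c : Fm r (FF n K)) S - cq (n - q) (c : Fm r (FF n K)) S = 0
      rw [Dc2_cq, if_pos hS, sub_self]
    rw [map_sub] at h4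
    exact (sub_eq_zero.1 h4).symm

end B5a
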