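import Pool.Agent.H.MP_b5a980_ag.Te0

set_option autoImplicit false
set_option linter.unusedSectionVars false
set_option linter.style.longLine false

/-!
The telescope preserves quasi-isomorphisms (MP_b5a980_ag, part D).
-/

namespace B5a

universe u v w

open MvPowerSeries

variable {n : ℕ} {K : Type u} [Field K]

/-- The map of telescopes induced by a map. -/
noncomputable def tmap {X Y : BObj n K} (φ : X.Γ →ₗ[MvPowerSeries (Fin n) K] Y.Γ) :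
    ((ℕ → X.Γ) × (ℕ → X.Γ)) →ₗ[MvPowerSeries (Fin n) K] ((ℕ → Y.Γ) × (ℕ → Y.Γ)) :=
  (sqmap φ).prodMap (sqmap φ)

theorem TeA_cast (X : BObj n K) {q q' : ℤ} (h : q = q') {x : X.Γ} (hx : x ∈ X.G q) : x ∈ X.G q' := by
  subst h; exact hx

theorem TeA_del {X Y : BObj n K} {φ : X.Γ →ₗ[MvPowerSeries (Fin n) K] Y.Γ} (h : QIso X Y φ)
    (c : ℕ → X.Γ) : sqmap φ (sqmap X.δ c) = sqmap Y.δ (sqmap φ c) := funext fun j => h.del (c j)

theorem TeA_sqd_mem (X : BObj n K) (f : MvPowerSeries (Fin n) K) {q : ℤ} {m : ℕ → X.Γ}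
    (hm : ∀ j, m j ∈ X.G q) (j : ℕ) : sqd f m j ∈ X.G q := by
  cases j with
  | zero =>
    rw [sqd_zero]
    exact Submodule.neg_mem _ (Submodule.smul_mem _ _ (hm 0))
  | succ k =>
    rw [sqd_succ]
    exact Submodule.sub_mem _ (hm k) (Submodule.smul_mem _ _ (hm (k + 1)))

theorem TeA_inj {X Y : BObj n K} {φ : X.Γ →ₗ[MvPowerSeries (Fin n) K] Y.Γ} (h : QIso X Y φ)
    (f : MvPowerSeries (Fin n) K) (q : ℤ) (b m : ℕ → X.Γ) (hb : ∀ j, b j ∈ X.G q)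
    (hm : ∀ j, m j ∈ X.G (q + 1)) (h1 : sqmap X.δ b + sqd f m = 0) (h2 : sqmap X.δ m = 0)
    (b' m' : ℕ → Y.Γ) (hb' : ∀ j, b' j ∈ Y.G (q - 1)) (hm' : ∀ j, m' j ∈ Y.G q)
    (h3 : sqmap φ b = sqmap Y.δ b' + sqd f m') (h4 : sqmap φ m = - sqmap Y.δ m') :
    ∃ p l : ℕ → X.Γ, (∀ j, p j ∈ X.G (q - 1)) ∧ (∀ j, l j ∈ X.G q) ∧
      b = sqmap X.δ p + sqd f l ∧ m = - sqmap X.δ l := by
  have e1 : ∀ j, ∃ z ∈ X.G (q + 1 - 1), m j = X.δ z := fun j =>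
    h.inj (q + 1) (m j) (hm j) (congrFun h2 j) ⟨- m' j,
      Submodule.neg_mem _ (TeA_cast Y (by ring) (hm' j)), by
        rw [map_neg]
        exact congrFun h4 j⟩
  choose ν hν hν2 using e1
  have hν' : ∀ j, ν j ∈ X.G q := fun j => TeA_cast X (by ring) (hν j)
  have e2 : sqmap X.δ ν = m := funext fun j => (hν2 j).symm
  have e3 : sqmap Y.δ (m' + sqmap φ ν) = 0 := by
    rw [map_add, ← TeA_del h, e2, h4]
    abel
  have e4 : ∀ j, ∃ x ∈ X.G q, X.δ x = 0 ∧ ∃ z ∈ Y.G (q - 1), (m' + sqmap φ ν) j = φ x + Y.δ z :=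
    fun j => h.surj q _ (Submodule.add_mem _ (hm' j) (h.gr q _ (hν' j))) (congrFun e3 j)
  choose k hk hk2 l hl hl2 using e4
  have e5 : m' + sqmap φ ν = sqmap φ k + sqmap Y.δ l := funext hl2
  have e6 : sqmap X.δ k = 0 := funext hk2
  have e7 : sqmap X.δ (b + sqd f ν - sqd f k) = 0 := by
    rw [map_sub, map_add, sqmap_sqd, sqmap_sqd, e2, e6, map_zero, h1, sub_zero]
  have e8 : sqmap φ (b + sqd f ν - sqd f k) = sqmap Y.δ (b' + sqd f l) := by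
    rw [map_sub, map_add, sqmap_sqd, sqmap_sqd, h3, map_add, sqmap_sqd]
    have e9 : sqd f m' + sqd f (sqmap φ ν) = sqd f (sqmap φ k) + sqd f (sqmap Y.δ l) := by
      rw [← map_add, ← map_add, e5]
    rw [add_assoc, e9]
    abel
  have e10 : ∀ j, ∃ z ∈ X.G (q - 1), (b + sqd f ν - sqd f k) j = X.δ z := fun j =>
    h.inj q _ (Submodule.sub_mem _ (Submodule.add_mem _ (hb j) (TeA_sqd_mem X f hν' j))
      (TeA_sqd_mem X f hk j)) (congrFun e7 j) ⟨(b' + sqd f l) j,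
        Submodule.add_mem _ (hb' j) (TeA_sqd_mem Y f hl j), congrFun e8 j⟩
  choose p hp hp2 using e10
  have e11 : sqmap X.δ p = b + sqd f ν - sqd f k := funext fun j => (hp2 j).symm
  refine ⟨p, k - ν, hp, fun j => Submodule.sub_mem _ (hk j) (hν' j), ?_, ?_⟩
  · rw [e11, map_sub]
    abel
  · rw [map_sub, e6, e2]
    abel

theorem TeA_surj {X Y : BObj n K} {φ : X.Γ →ₗ[MvPowerSeries (Fin n) K] Y.Γ} (h : QIso X Y φ)
    (f : MvPowerSeries (Fin n) K) (q : ℤ) (b' m' : ℕ → Y.Γ) (hb' : ∀ j, b' j ∈ Y.G q)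
    (hm' : ∀ j, m' j ∈ Y.G (q + 1)) (h1 : sqmap Y.δ b' + sqd f m' = 0)
    (h2 : sqmap Y.δ m' = 0) :
    ∃ b m : ℕ → X.Γ, (∀ j, b j ∈ X.G q) ∧ (∀ j, m j ∈ X.G (q + 1)) ∧
      sqmap X.δ b + sqd f m = 0 ∧ sqmap X.δ m = 0 ∧
      ∃ g l : ℕ → Y.Γ, (∀ j, g j ∈ Y.G (q - 1)) ∧ (∀ j, l j ∈ Y.G q) ∧
      b' = sqmap φ b + (sqmap Y.δ g + sqd f l) ∧ m' = sqmap φ m - sqmap Y.δ l := by
  have e1 : ∀ j, ∃ x ∈ X.G (q + 1), X.δ x = 0 ∧ ∃ z ∈ Y.G (q + 1 - 1), m' j = φ x + Y.δ z :=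
    fun j => h.surj (q + 1) _ (hm' j) (congrFun h2 j)
  choose m hm hm2 ν hν hν2 using e1
  have hν' : ∀ j, ν j ∈ Y.G q := fun j => TeA_cast Y (by ring) (hν j)
  have e2 : m' = sqmap φ m + sqmap Y.δ ν := funext hν2
  have e3 : sqmap X.δ m = 0 := funext hm2
  have e4 : sqmap Y.δ (b' + sqd f ν) = - sqmap φ (sqd f m) := by
    rw [map_add, sqmap_sqd, sqmap_sqd]
    have e5 : sqmap Y.δ b' + (sqd f (sqmap φ m) + sqd f (sqmap Y.δ ν)) = 0 := by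
      rw [← map_add, ← e2]
      exact h1
    rw [eq_neg_iff_add_eq_zero, ← e5]
    abel
  have e6 : ∀ j, ∃ z ∈ X.G (q + 1 - 1), sqd f m j = X.δ z := fun j =>
    h.inj (q + 1) _ (TeA_sqd_mem X f hm j) (by
      have e7 : sqmap X.δ (sqd f m) = 0 := by rw [sqmap_sqd, e3, map_zero]
      exact congrFun e7 j) ⟨- (b' + sqd f ν) j, Submodule.neg_mem _
        (Submodule.add_mem _ (TeA_cast Y (by ring) (hb' j))
          (TeA_sqd_mem Y f hν j)), by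
      rw [map_neg]
      have e8 : Y.δ ((b' + sqd f ν) j) = - φ (sqd f m j) := congrFun e4 j
      rw [e8, neg_neg]⟩
  choose c hc hc2 using e6
  have hc' : ∀ j, c j ∈ X.G q := fun j => TeA_cast X (by ring) (hc j)
  have e9 : sqmap X.δ c = sqd f m := funext fun j => (hc2 j).symm
  have e10 : sqmap Y.δ (b' + sqd f ν + sqmap φ c) = 0 := by
    rw [map_add, e4, ← TeA_del h, e9, neg_add_cancel]
  have e11 : ∀ j, ∃ x ∈ X.G q, X.δ x = 0 ∧ ∃ z ∈ Y.G (q - 1),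
      (b' + sqd f ν + sqmap φ c) j = φ x + Y.δ z := fun j =>
    h.surj q _ (Submodule.add_mem _ (Submodule.add_mem _ (hb' j) (TeA_sqd_mem Y f hν' j))
      (h.gr q _ (hc' j))) (congrFun e10 j)
  choose e he he2 g hg hg2 using e11
  have e12 : b' + sqd f ν + sqmap φ c = sqmap φ e + sqmap Y.δ g := funext hg2
  have e13 : sqmap X.δ e = 0 := funext he2
  refine ⟨e - c, m, fun j => Submodule.sub_mem _ (he j) (hc' j), hm, ?_, e3, g, - ν, hg,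
    fun j => Submodule.neg_mem _ (hν' j), ?_, ?_⟩
  · rw [map_sub, e13, e9]
    abel
  · rw [map_sub, map_neg]
    have e14 : b' = sqmap φ e + sqmap Y.δ g - sqmap φ c - sqd f ν := by
      rw [← e12]
      abel
    rw [e14]
    abel
  · rw [map_neg, e2]
    abel

/-- Proof. Write `D` for `sqd f`, `δ` termwise. surj: `(b', m') ∈ G q` with `δ m' = 0`, `δ b' + D m' = 0`. `h.surj` for each `j`: `m'_j = φ m_j + δ n_j`, `m_j ∈ G (q+1)`, `δ m_j = 0`, `n_j ∈ Y.G q`. Let `b'' = b' + D n`; `δ b'' + D (φ m) = 0`, so `φ ((D m)_j) = - δ b''_j` and `h.inj` (degree `q + 1`): `(D m)_j = δ c_j`, `c_j ∈ X.G q`. `δ (b'' + φ c) = 0`; `h.surj`: `b''_j + φ c_j = φ e_j + δ g_j`, `δ e_j = 0`, `g_j ∈ Y.G (q-1)`. Then `x = (e - c, m)` is a cocycle and `(b', m') = tmap x + teldel (g, - n)`. inj: `(b, m) ∈ G q` cocycle with `φ b = δ b' + D m'`, `φ m = - δ m'`, `b'_j ∈ Y.G (q-1)`, `m'_j ∈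 Y.G q`. `h.inj`: `m_j = δ n_j`, `n_j ∈ X.G q`. `b1 = b + D n`, `δ b1 = 0`, `φ b1 = δ b' + D (m' + φ n)`, `δ (m' + φ n) = 0`; `h.surj`: `m'_j + φ n_j = φ k_j + δ l_j`, `δ k_j = 0`, `k_j ∈ X.G q`, `l_j ∈ Y.G (q-1)`. `φ (b1 - D k) = δ (b' + D l)`, `h.inj`: `b1 - D k = δ p`, `p_j ∈ X.G (q-1)`. `(b, m) = teldel (p, k - n)`. -/
theorem t_qiso {X Y : BObj n K} {φ : X.Γ →ₗ[MvPowerSeries (Fin n) K] Y.Γ} (h : QIso X Y φ)
    (f : MvPowerSeries (Fin n) K) : QIso (TObj f X) (TObj f Y) (tmap φ) := by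
  refine ⟨?_, ?_, ?_, ?_, ?_⟩
  · rintro i ⟨b, m⟩
    exact Prod.ext (sqmap_nab φ X.C Y.C h.nab f i b) (sqmap_nab φ X.C Y.C h.nab f i m)
  · rintro ⟨b, m⟩
    refine Prod.ext ?_ ?_
    · change sqmap φ (sqmap X.δ b + sqd f m) = sqmap Y.δ (sqmap φ b) + sqd f (sqmap φ m)
      rw [map_add, TeA_del h, sqmap_sqd]
    · change sqmap φ (- sqmap X.δ m) = - sqmap Y.δ (sqmap φ m)
      rw [map_neg, TeA_del h]
  · rintro q ⟨b, m⟩ ⟨hb, hm⟩
    exact ⟨fun j => h.gr q _ (hb j), fun j => h.gr (q + 1) _ (hm j)⟩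
  · rintro q ⟨b, m⟩ ⟨hb, hm⟩ hd ⟨⟨b', m'⟩, ⟨hb', hm'⟩, he⟩
    have h1 : sqmap X.δ b + sqd f m = 0 := congrArg Prod.fst hd
    have h2 : - sqmap X.δ m = 0 := congrArg Prod.snd hd
    have h3 : sqmap φ b = sqmap Y.δ b' + sqd f m' := congrArg Prod.fst he
    have h4 : sqmap φ m = - sqmap Y.δ m' := congrArg Prod.snd he
    obtain ⟨p, l, hp, hl, e1, e2⟩ := TeA_inj h f q b m hb hm h1 (neg_eq_zero.1 h2) b' m' hb'
      (fun j => TeA_cast Y (by ring) (hm' j)) h3 h4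
    exact ⟨(p, l), ⟨hp, fun j => TeA_cast X (by ring) (hl j)⟩, Prod.ext e1 e2⟩
  · rintro q ⟨b', m'⟩ ⟨hb', hm'⟩ hd
    have h1 : sqmap Y.δ b' + sqd f m' = 0 := congrArg Prod.fst hd
    have h2 : - sqmap Y.δ m' = 0 := congrArg Prod.snd hd
    obtain ⟨b, m, hb, hm, e1, e2, g, l, hg, hl, e3, e4⟩ := TeA_surj h f q b' m' hb' hm' h1
      (neg_eq_zero.1 h2)
    refine ⟨(b, m), ⟨hb, hm⟩, Prod.ext e1 ?_, (g, l), ⟨hg, fun j => TeA_cast Y (by ring) (hl j)⟩,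
      Prod.ext e3 ?_⟩
    · change - sqmap X.δ m = 0
      rw [e2, neg_zero]
    · change m' = sqmap φ m + - sqmap Y.δ l
      rw [e4, sub_eq_add_neg]

/-- Proof. Induction on the chain, `t_qiso`. -/
theorem t_zig {X Y : BObj n K} (h : Zig X Y) (f : MvPowerSeries (Fin n) K) :
    Zig (TObj f X) (TObj f Y) := by
  induction h with
  | of φ h => exact Zig.of _ (t_qiso h f)
  | symm _ ih => exact Zig.symm ih
  | trans _ _ ih ih' => exact Zig.trans ih ih'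

end B5a
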