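import Pool.Agent.H.MP_b5a980_ag.As2
import Pool.Agent.H.MP_b5a980_ag.TeA

set_option autoImplicit false
set_option linter.unusedSectionVars false
set_option linter.style.longLine false

/-!
Continuous functionals and the telescope (MP_b5a980_ag, part D).
-/

namespace B5a

universe u v w

open MvPowerSeries

variable {n k : ℕ} {K : Type u} [Field K]

/-- Solving `(sqd g n)_j = b_j` for `j ≥ 1`.

Proof. `n_0 = 0`, `g n_(j+1) = n_j - b_(j+1)` by `asG_div`, recursively. -/
theorem exists_tail {r : ℕ} (f : Fin r → MvPowerSeries (Fin n) K) {g : MvPowerSeries (Fin n) K}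
    (hg : g ≠ 0) (q : ℤ) (b : ℕ → CD n K (CC f)) (h : ∀ j, b j ∈ asG f q) :
    ∃ m : ℕ → CD n K (CC f), (∀ j, m j ∈ asG f q) ∧ ∀ j, sqd g m (j + 1) = b (j + 1) := by
  have h1 : ∀ (j : ℕ) (x : asG f q), ∃ y : asG f q,
      (x : CD n K (CC f)) - g • (y : CD n K (CC f)) = b (j + 1) := by
    intro j x
    obtain ⟨nu, hnu, h2⟩ := asG_div f hg q ((x : CD n K (CC f)) - b (j + 1))
      (Submodule.sub_mem _ x.2 (h (j + 1)))
    refine ⟨⟨nu, hnu⟩, ?_⟩
    show (x : CD n K (CC f)) - g • nu = b (j + 1)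
    rw [h2]
    abel
  choose step hstep using h1
  let m : ℕ → asG f q := fun j => Nat.rec 0 (fun j x => step j x) j
  refine ⟨fun j => (m j).1, fun j => (m j).2, fun j => ?_⟩
  rw [sqd_succ]
  exact hstep j (m j)

/-- `psi` with the bundled types -/
noncomputable def As3_psi (f : Fin (k + 1) → MvPowerSeries (Fin n) K) :
    (astar f).Γ →ₗ[MvPowerSeries (Fin n) K] (TObj (f (Fin.last k)) (astar (fini f))).Γ := psi f

theorem As3_lift (f : Fin (k + 1) → MvPowerSeries (Fin n) K) (hf : ∀ s, f s ≠ 0) (q : ℤ)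
    (b m : ℕ → (astar (fini f)).Γ) (hb : ∀ j, b j ∈ (astar (fini f)).G q)
    (hm : ∀ j, m j ∈ (astar (fini f)).G (q + 1))
    (h : ∀ j, (sqmap (astar (fini f)).δ b + sqd (f (Fin.last k)) m) (j + 1) = 0) :
    ∃ l : ℕ → (astar (fini f)).Γ, (∀ j, l j ∈ (astar (fini f)).G q) ∧
      ∃ lam ∈ (astar f).G q, psi f lam =
        (b - sqd (f (Fin.last k)) l, m + sqmap (astar (fini f)).δ l) := by
  obtain ⟨l, hl, hl2⟩ : ∃ l : ℕ → (astar (fini f)).Γ, (∀ j, l j ∈ (astar (fini f)).G q) ∧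
      ∀ j, sqd (f (Fin.last k)) l (j + 1) = b (j + 1) :=
    exists_tail (fini f) (hf (Fin.last k)) q b hb
  refine ⟨l, hl, ?_⟩
  have h1 : ∀ j, (b - sqd (f (Fin.last k)) l) (j + 1) = 0 := by
    intro j
    show b (j + 1) - sqd (f (Fin.last k)) l (j + 1) = 0
    rw [hl2, sub_self]
  have h2 : sqmap (astar (fini f)).δ (b - sqd (f (Fin.last k)) l) +
      sqd (f (Fin.last k)) (m + sqmap (astar (fini f)).δ l) =
      sqmap (astar (fini f)).δ b + sqd (f (Fin.last k)) m := by
    rw [map_sub, map_add, sqmap_sqd]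
    abel
  refine psi_image f hf q _ _ ⟨fun j => ?_, fun j => ?_⟩ h1 fun j => ?_
  · exact Submodule.sub_mem _ (hb j) (TeA_sqd_mem (astar (fini f)) (f (Fin.last k)) hl j)
  · exact Submodule.add_mem _ (hm j) ((astar (fini f)).δG q _ (hl j))
  · have h3 := h j
    rw [← h2] at h3
    have h4 : (astar (fini f)).δ ((b - sqd (f (Fin.last k)) l) (j + 1)) +
      ((m + sqmap (astar (fini f)).δ l) j -
        f (Fin.last k) • (m + sqmap (astar (fini f)).δ l) (j + 1)) = 0 := h3
    rw [h1, map_zero, zero_add, sub_eq_zero] at h4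
    exact h4

/-- Proof. surj: `(b, m) ∈ G q` a cocycle. `exists_tail` for `b`: `l_j ∈ G' q` with `(sqd g l)_j = b_j` for `j ≥ 1`. `(b', m') = (b, m) - δ (0, l) = (b - sqd g l, m + δ l)` has `b'_j = 0` for `j ≥ 1` and is a cocycle, so `(sqd g m')_(j+1) = 0`, i.e. `m'_j = g m'_(j+1)`: `psi_image` gives `λ`, a cocycle by `psi_inj`. inj: `psi λ = δ (b, m)`, `(b, m) ∈ G (q-1)`: replace `(b, m)` by `(b, m) - δ (0, l)` (`exists_tail` in degree `q - 1`), so `b_j = 0` for `j ≥ 1`; then `(sqd g m)_(j+1) = (psi λ)_1 (j+1) = 0`, `psi_image`: `(b, m) = psi μ`, `psi (δ μ) = psi λ`, `λ = δ μ`. -/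
theorem zig_AT (f : Fin (k + 1) → MvPowerSeries (Fin n) K) (hf : ∀ s, f s ≠ 0) :
    Zig (astar f) (TObj (f (Fin.last k)) (astar (fini f))) := by
  have key : ∀ (b m l : ℕ → (astar (fini f)).Γ) (lam : (astar f).Γ),
      psi f lam = (b - sqd (f (Fin.last k)) l, m + sqmap (astar (fini f)).δ l) →
      ((b, m) : (TObj (f (Fin.last k)) (astar (fini f))).Γ) =
        As3_psi f lam + (TObj (f (Fin.last k)) (astar (fini f))).δ (0, l) := by
    intro b m l lam h
    have h0 : As3_psi f lam = (b - sqd (f (Fin.last k)) l, m + sqmap (astar (fini f)).δ l) := h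
    rw [h0]
    refine Prod.ext ?_ ?_
    · change b = (b - sqd (f (Fin.last k)) l) +
        (sqmap (astar (fini f)).δ 0 + sqd (f (Fin.last k)) l)
      rw [map_zero]
      abel
    · change m = (m + sqmap (astar (fini f)).δ l) + (- sqmap (astar (fini f)).δ l)
      abel
  have hdel : ∀ lam, As3_psi f ((astar f).δ lam) =
      (TObj (f (Fin.last k)) (astar (fini f))).δ (As3_psi f lam) := psi_del f (hf _)
  refine Zig.of (X := astar f) (Y := TObj (f (Fin.last k)) (astar (fini f))) (As3_psi f)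
    ⟨psi_nab f (hf _), hdel, psi_gr f, ?_, ?_⟩
  · rintro q x hx hd ⟨⟨b, m⟩, ⟨hb, hm⟩, he⟩
    have h1 : ∀ j, (sqmap (astar (fini f)).δ b + sqd (f (Fin.last k)) m) (j + 1) = 0 := by
      intro j
      have h2 := congrFun (congrArg Prod.fst he) (j + 1)
      exact h2.symm
    obtain ⟨l, hl, lam, hlam, h3⟩ := As3_lift f hf (q - 1) b m hb hm h1
    refine ⟨lam, hlam, ?_⟩
    have h4 := key b m l lam h3
    rw [h4, map_add, (TObj (f (Fin.last k)) (astar (fini f))).δδ, add_zero, ← hdel lam] at he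
    have h5 : As3_psi f (x - (astar f).δ lam) = 0 := by
      rw [map_sub, sub_eq_zero]
      exact he
    exact sub_eq_zero.1 (psi_inj f hf _ h5)
  · rintro q ⟨b, m⟩ ⟨hb, hm⟩ hd
    have h1 : ∀ j, (sqmap (astar (fini f)).δ b + sqd (f (Fin.last k)) m) (j + 1) = 0 := by
      intro j
      exact congrFun (congrArg Prod.fst hd) (j + 1)
    obtain ⟨l, hl, lam, hlam, h3⟩ := As3_lift f hf q b m hb hm h1
    have h4 := key b m l lam h3
    refine ⟨lam, hlam, ?_, (0, l), ⟨fun j => Submodule.zero_mem _, fun j => ?_⟩, h4⟩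
    · rw [h4, map_add, (TObj (f (Fin.last k)) (astar (fini f))).δδ, add_zero, ← hdel lam] at hd
      exact psi_inj f hf _ hd
    · exact TeA_cast (astar (fini f)) (by ring) (hl j)

end B5a
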