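import Pool.Agent.H.MP_b5a980_ag.PrC

set_option autoImplicit false
set_option linter.unusedSectionVars false
set_option linter.style.longLine false

/-!
The residue field of a curve prime; integrality (MP_b5a980_ag, A6).
-/

namespace B5a

universe u v w

open MvPowerSeries

variable {n : ℕ} {k : Type u} [Field k]

/-- the residue field of `q` -/
abbrev kap (q : Ideal (RR n k)) [q.IsPrime] := FractionRing (RR n k ⧸ q)

/-- the reduction map `R -> κ` -/
noncomputable def rho (q : Ideal (RR n k)) [q.IsPrime] : RR n k →+* kap q :=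
  (algebraMap (RR n k ⧸ q) (kap q)).comp (Ideal.Quotient.mk q)

variable (i0 : Fin (n + 1)) (q : Ideal (RR n k)) [q.IsPrime]

theorem rho_eq_zero_iff (g : RR n k) : rho q g = 0 ↔ g ∈ q := by
  unfold rho
  rw [RingHom.comp_apply, map_eq_zero_iff _ (IsFractionRing.injective (RR n k ⧸ q) (kap q)),
    Ideal.Quotient.eq_zero_iff_mem]

theorem rho_C (c : k) : rho q (C c) = algebraMap k (kap q) c := by
  rw [IsScalarTower.algebraMap_apply k (RR n k ⧸ q) (kap q) c]
  rfl

/-- Proof. `IsFractionRing.div_surjective` and surjectivity of `Ideal.Quotient.mk`. -/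
theorem rho_frac (x : kap q) : ∃ g h : RR n k, h ∉ q ∧ x = rho q g / rho q h := by
  obtain ⟨a, b, hb, rfl⟩ := IsFractionRing.div_surjective (A := RR n k ⧸ q) x
  obtain ⟨g, rfl⟩ := Ideal.Quotient.mk_surjective a
  obtain ⟨h, rfl⟩ := Ideal.Quotient.mk_surjective b
  refine ⟨g, h, fun hh => ?_, rfl⟩
  rw [Ideal.Quotient.eq_zero_iff_mem.2 hh] at hb
  exact nonZeroDivisors.ne_zero hb rfl

/-- Proof. `charZero_of_injective_algebraMap` for the field `k`. -/
instance charZero_kap [CharZero k] : CharZero (kap q) :=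
  charZero_of_injective_algebraMap (algebraMap k (kap q)).injective

/-- the parameter `P(x_j)` -/
noncomputable def param (P : Fin n → Polynomial (PowerSeries k)) (j : Fin n) : RR n k :=
  (P j).eval₂ (zemb i0) (X (i0.succAbove j))

/-- Cayley-Hamilton for multiplication by `y` on a finite algebra -/
theorem LoA_monic {A : Type v} {B : Type w} [CommRing A] [CommRing B] [Algebra A B]
    [Module.Finite A B] (I : Ideal A) (y : B) (h : ∀ x : B, ∃ a ∈ I, ∃ r : B, y * x = a • r) :
    ∃ P : Polynomial A, P.Monic ∧ (∀ m, P.coeff m ∈ I ^ (P.natDegree - m)) ∧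
      P.eval₂ (algebraMap A B) y = 0 := by
  have hrange : LinearMap.range (Algebra.lmul A B y) ≤ I • (⊤ : Submodule A B) := by
    rintro _ ⟨x, rfl⟩
    obtain ⟨a, ha, r, hr⟩ := h x
    rw [Algebra.coe_lmul_eq_mul, LinearMap.mul_apply', hr]
    exact Submodule.smul_mem_smul ha trivial
  obtain ⟨P0, hmon, -, hcoef, haev⟩ :=
    LinearMap.exists_monic_and_natDegree_eq_and_coeff_mem_pow_and_aeval_eq_zero
      A (Algebra.lmul A B y) I hrange
  refine ⟨P0, hmon, hcoef, ?_⟩
  rw [Polynomial.aeval_algHom_apply] at haev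
  have h1 : Algebra.lmul A B (Polynomial.aeval y P0) 1 = 0 := by
    rw [haev, LinearMap.zero_apply]
  rw [Algebra.coe_lmul_eq_mul, LinearMap.mul_apply', mul_one] at h1
  exact h1

/-- a monic polynomial with coefficients in the powers of `(z)` is a power of `T` modulo `z` -/
theorem LoA_map {P : Polynomial (PowerSeries k)} (hmon : P.Monic)
    (hcoef : ∀ m, P.coeff m ∈
      Ideal.span {(PowerSeries.X : PowerSeries k)} ^ (P.natDegree - m)) :
    P.map (PowerSeries.constantCoeff (R := k)) = Polynomial.X ^ P.natDegree := by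
  ext m
  rw [Polynomial.coeff_map, Polynomial.coeff_X_pow]
  split_ifs with hm
  · rw [hm, hmon.coeff_natDegree, map_one]
  · rcases lt_or_gt_of_ne hm with hlt | hgt
    · have h2 : Ideal.span {(PowerSeries.X : PowerSeries k)} ^ (P.natDegree - m) ≤
          Ideal.span {(PowerSeries.X : PowerSeries k)} :=
        Ideal.pow_le_self (by omega)
      obtain ⟨r, hr⟩ := Ideal.mem_span_singleton'.1 (h2 (hcoef m))
      rw [← hr, map_mul, PowerSeries.constantCoeff_X, mul_zero]
    · rw [Polynomial.coeff_eq_zero_of_natDegree_lt hgt, map_zero]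

section

variable (hz : X i0 ∉ q) (e : ℕ) (he : mI (n + 1) k e ≤ q ⊔ Ideal.span {X i0})
include hz he

/-- each element of `κ` is algebraic over `k((z))` : every `g` in `R` satisfies a monic equation
over `k[[z]]` modulo `q`; for `g` in the maximal ideal the equation is a power of `T` modulo `z`.

Proof. Let `S` be the finite set of multi-indices of degree `< e` (`e ≥ 1` and `S` nonempty, because `q + (X_{i0}) ≤ mI 1` is proper). For `β ∈ S`: `g^e x^β ∈ mI e ≤ q + (X_{i0})`, so `g^e x^β = q_1 + X_{i0} h` and by `exists_span` applied to `h`: `g^e x^β ≡ X_{i0} Σ_(β') zemb(c_(β,β')) x^(β')` modulo `q`. So the vector `(x^β)_β` in `(R/q)^S` is killed by the matrix `g^e I - z C`; multiply by the adjugate: `det(g^e I - z C) x^β ∈ q` for all `β`, in particular for `β = 0`. Put `P = (Matrix.charpoly (z C)).comp (X^e)` = `det(X^e I - z C)`; monic of degree `e |S|` (`Polynomial.Monic.comp`), modulo `z` it is `det (X^e I) = X^(e |S|)`. (Alternative: Cayley-Hamilton for modules in Mathlib: `LinearMap.exists_monic_and_coeff_mem_pow_and_aeval_eq_zero`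 : for a finite module `M` over `A = k[[z]]`, an endomorphism `f` with `range f ≤ I • ⊤` has a monic `p` with `p.coeff k ∈ I^(natDegree - k)` and `aeval f p = 0`. Apply it to `M = R/q` over `A` via `zemb` (finite by `exists_span`), `f` = multiplication by `g^e`, `I = (z)`; then compose with `X^e`.) -/
theorem exists_monic (g : RR n k) (hg : g ∈ mI (n + 1) k 1) :
    ∃ P : Polynomial (PowerSeries k), P.Monic ∧ P.eval₂ (zemb i0) g ∈ q ∧
      P.map (PowerSeries.constantCoeff (R := k)) = Polynomial.X ^ P.natDegree := by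
  have he2 : mI (n + 1) k (e + 1) ≤ q ⊔ Ideal.span {X i0} := (mI_anti (Nat.le_succ e)).trans he
  let φ : PowerSeries k →+* RR n k ⧸ q := (Ideal.Quotient.mk q).comp (zemb i0)
  let _ : Algebra (PowerSeries k) (RR n k ⧸ q) := φ.toAlgebra
  have hsmul : ∀ (a : PowerSeries k) (x : RR n k ⧸ q), a • x = φ a * x := fun a x => rfl
  have : Module.Finite (PowerSeries k) (RR n k ⧸ q) := by
    classical
    refine ⟨⟨((Finset.range (e + 1)).biUnion fun d =>
      Finset.finsuppAntidiag (Finset.univ : Finset (Fin (n + 1))) d).image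
        fun β => Ideal.Quotient.mk q (monomial β 1), ?_⟩⟩
    rw [eq_top_iff]
    rintro x -
    obtain ⟨h, rfl⟩ := Ideal.Quotient.mk_surjective x
    obtain ⟨c, hc⟩ := exists_span he2 h
    rw [Ideal.Quotient.eq.2 hc, map_sum]
    refine Submodule.sum_mem _ fun β hβ => ?_
    rw [map_mul]
    exact Submodule.smul_mem _ (c β) (Submodule.subset_span
      (Finset.mem_coe.2 (Finset.mem_image_of_mem _ hβ)))
  obtain ⟨P0, hmon, hcoef, hev⟩ := LoA_monic
    (Ideal.span {(PowerSeries.X : PowerSeries k)})
    (Ideal.Quotient.mk q (g ^ (e + 1)) : RR n k ⧸ q) (fun x => by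
      obtain ⟨h, rfl⟩ := Ideal.Quotient.mk_surjective x
      obtain ⟨a, ha, b, hb, hab⟩ := Submodule.mem_sup.1
        (he2 (Ideal.mul_mem_right h _ (pow_mem_mI hg (e + 1))))
      obtain ⟨r, hr⟩ := Ideal.mem_span_singleton'.1 hb
      refine ⟨PowerSeries.X, Ideal.mem_span_singleton_self _, Ideal.Quotient.mk q r, ?_⟩
      rw [← map_mul, ← hab, ← hr, map_add, Ideal.Quotient.eq_zero_iff_mem.2 ha, zero_add,
        map_mul, hsmul, mul_comm]
      congr 1
      exact congrArg (Ideal.Quotient.mk q) (zemb_X i0).symm)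
  have hev2 : P0.eval₂ (zemb i0) (g ^ (e + 1)) ∈ q := by
    rw [← Ideal.Quotient.eq_zero_iff_mem, Polynomial.hom_eval₂]
    exact hev
  refine ⟨P0.comp (Polynomial.X ^ (e + 1)), ?_, ?_, ?_⟩
  · exact hmon.comp (Polynomial.monic_X_pow (e + 1))
      (by rw [Polynomial.natDegree_X_pow]; exact Nat.succ_ne_zero e)
  · rw [Polynomial.eval₂_comp, Polynomial.eval₂_X_pow]
    exact hev2
  · rw [Polynomial.map_comp, LoA_map hmon hcoef, Polynomial.map_pow, Polynomial.map_X,
      Polynomial.X_pow_comp, ← pow_mul, Polynomial.natDegree_comp, Polynomial.natDegree_X_pow,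
      mul_comm]

end

end B5a
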