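import Pool.Agent.H.MP_b5a980_ag.FrA
import Pool.Agent.H.MP_b5a980_ag.LoA

set_option autoImplicit false
set_option linter.unusedSectionVars false
set_option linter.style.longLine false
set_option linter.style.haveILetI false
set_option linter.unnecessarySimpa false

/-!
A derivation of the residue field (MP_b5a980_ag, A6).
-/

namespace B5a

universe u v w

open MvPowerSeries

section LoF_generic

variable {k : Type u} [Field k]

theorem LoF_exists_ord (a : PowerSeries k) (ha : a ≠ 0) :
    ∃ l : ℕ, (∀ i < l, PowerSeries.coeff i a = 0) ∧ PowerSeries.coeff l a ≠ 0 := by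
  have h : ∃ l, PowerSeries.coeff l a ≠ 0 := by
    by_contra hcon
    push Not at hcon
    exact ha (PowerSeries.ext (fun l => by simpa using hcon l))
  classical
  refine ⟨Nat.find h, fun i hi => ?_, Nat.find_spec h⟩
  have := Nat.find_min h hi
  simpa using this

theorem LoF_coeff_X_mul_derivative (a : PowerSeries k) (j : ℕ) :
    PowerSeries.coeff j (PowerSeries.X * PowerSeries.derivative k a) =
      (j : k) * PowerSeries.coeff j a := by
  cases j with
  | zero => simp
  | succ j =>
    rw [mul_comm, PowerSeries.coeff_succ_mul_X, PowerSeries.coeff_derivative, mul_comm]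
    push_cast
    rfl

theorem LoF_coeff_mul_low (a b : PowerSeries k) (l m : ℕ)
    (ha : ∀ i < l, PowerSeries.coeff i a = 0) (hb : ∀ i < m, PowerSeries.coeff i b = 0) :
    PowerSeries.coeff (l + m) (a * b) = PowerSeries.coeff l a * PowerSeries.coeff m b := by
  rw [PowerSeries.coeff_mul]
  rw [Finset.sum_eq_single (l, m)]
  · rintro ⟨i, j⟩ hij hne
    rw [Finset.HasAntidiagonal.mem_antidiagonal] at hij
    simp only at hij ⊢
    by_cases hi : i < l
    · rw [ha i hi, zero_mul]
    · by_cases hj : j < m
      · rw [hb j hj, mul_zero]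
      · exfalso
        apply hne
        have h1 : i = l := by omega
        have h2 : j = m := by omega
        rw [h1, h2]
  · intro h
    exfalso
    apply h
    rw [Finset.HasAntidiagonal.mem_antidiagonal]

theorem LoF_ord_eq [CharZero k] (a b : PowerSeries k) (l m : ℕ)
    (ha : ∀ i < l, PowerSeries.coeff i a = 0) (hb : ∀ i < m, PowerSeries.coeff i b = 0)
    (hal : PowerSeries.coeff l a ≠ 0) (hbm : PowerSeries.coeff m b ≠ 0)
    (h : PowerSeries.derivative k a * b = a * PowerSeries.derivative k b) : l = m := by
  have h1 : (PowerSeries.X * PowerSeries.derivative k a) * b =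
      a * (PowerSeries.X * PowerSeries.derivative k b) := by
    rw [mul_assoc, h]
    ring
  have ha' : ∀ i < l, PowerSeries.coeff i (PowerSeries.X * PowerSeries.derivative k a) = 0 := by
    intro i hi
    rw [LoF_coeff_X_mul_derivative, ha i hi, mul_zero]
  have hb' : ∀ i < m, PowerSeries.coeff i (PowerSeries.X * PowerSeries.derivative k b) = 0 := by
    intro i hi
    rw [LoF_coeff_X_mul_derivative, hb i hi, mul_zero]
  have h2 := congrArg (PowerSeries.coeff (l + m)) h1
  rw [LoF_coeff_mul_low _ _ l m ha' hb, LoF_coeff_mul_low _ _ l m ha hb',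
    LoF_coeff_X_mul_derivative, LoF_coeff_X_mul_derivative] at h2
  have h3 : ((l : k) - m) * (PowerSeries.coeff l a * PowerSeries.coeff m b) = 0 := by
    linear_combination h2
  rcases mul_eq_zero.1 h3 with h4 | h4
  · exact_mod_cast sub_eq_zero.1 h4
  · exact absurd h4 (mul_ne_zero hal hbm)

theorem LoF_prop [CharZero k] (a b : PowerSeries k) (hb0 : b ≠ 0)
    (h : PowerSeries.derivative k a * b = a * PowerSeries.derivative k b) :
    ∃ c : k, a = PowerSeries.C c * b := by
  by_cases ha0 : a = 0
  · exact ⟨0, by rw [ha0, map_zero, zero_mul]⟩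
  obtain ⟨l, hl, hl'⟩ := LoF_exists_ord a ha0
  obtain ⟨m, hm, hm'⟩ := LoF_exists_ord b hb0
  have hlm := LoF_ord_eq a b l m hl hm hl' hm' h
  subst hlm
  refine ⟨PowerSeries.coeff l a / PowerSeries.coeff l b, ?_⟩
  set c := PowerSeries.coeff l a / PowerSeries.coeff l b with hc
  by_contra hne
  have hd0 : a - PowerSeries.C c * b ≠ 0 := sub_ne_zero.2 hne
  obtain ⟨l', hk, hk'⟩ := LoF_exists_ord _ hd0
  have h2 : PowerSeries.derivative k (a - PowerSeries.C c * b) * b =
      (a - PowerSeries.C c * b) * PowerSeries.derivative k b := by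
    rw [map_sub, Derivation.leibniz, PowerSeries.derivative_C]
    simp only [smul_eq_mul, mul_zero, add_zero]
    linear_combination h
  have h3 := LoF_ord_eq _ b l' l hk hm hk' hm' h2
  subst h3
  apply hk'
  rw [map_sub, PowerSeries.coeff_C_mul, hc]
  field_simp
  ring

/-- constants of `k((z))` -/
theorem LoF_const [CharZero k] (x : FractionRing (PowerSeries k))
    (hx : fracDer (PowerSeries.derivative k) x = 0) :
    ∃ c : k, x = algebraMap (PowerSeries k) (FractionRing (PowerSeries k)) (PowerSeries.C c) := by
  obtain ⟨a, b, hb, rfl⟩ := IsFractionRing.div_surjective (PowerSeries k) x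
  have hb0 : b ≠ 0 := nonZeroDivisors.ne_zero hb
  have hinj : Function.Injective
      (algebraMap (PowerSeries k) (FractionRing (PowerSeries k))) :=
    IsFractionRing.injective _ _
  have hb1 : algebraMap (PowerSeries k) (FractionRing (PowerSeries k)) b ≠ 0 := by
    intro h
    apply hb0
    apply hinj
    rw [h, map_zero]
  rw [fracDer_div _ _ _ hb1, fracDer_algebraMap, fracDer_algebraMap, div_eq_zero_iff] at hx
  have h1 : algebraMap (PowerSeries k) (FractionRing (PowerSeries k))
      (PowerSeries.derivative k a * b) =
      algebraMap (PowerSeries k) (FractionRing (PowerSeries k))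
      (a * PowerSeries.derivative k b) := by
    rcases hx with h | h
    · rw [map_mul, map_mul]
      exact sub_eq_zero.1 h
    · exact absurd h (pow_ne_zero 2 hb1)
  obtain ⟨c, hc⟩ := LoF_prop a b hb0 (hinj h1)
  refine ⟨c, ?_⟩
  rw [hc, map_mul, mul_div_assoc, div_self hb1, mul_one]

/-- a derivation from an additive map -/
noncomputable def LoF_intDer {F : Type v} [CommRing F] (D : F →+ F)
    (h : ∀ a b, D (a * b) = a * D b + b * D a) : Derivation ℤ F F :=
  Derivation.mk' D.toIntLinearMap (by
    intro a b
    simpa using h a b)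

theorem LoF_intDer_apply {F : Type v} [CommRing F] (D : F →+ F)
    (h : ∀ a b, D (a * b) = a * D b + b * D a) (x : F) : LoF_intDer D h x = D x := rfl

theorem LoF_transfer {F : Type v} [CommRing F] (alg : Algebra ℤ F) (P : (F → F) → Prop)
    (h : ∃ D : F →+ F, (∀ a b, D (a * b) = a * D b + b * D a) ∧ P D) :
    ∃ δ : @Derivation ℤ F F _ _ _ alg _ _, P δ := by
  obtain ⟨D, h1, h2⟩ := h
  have : alg = Ring.toIntAlgebra F := Subsingleton.elim _ _
  subst this
  exact ⟨LoF_intDer D h1, h2⟩

/-- the constants of a finite extension of a differential field -/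
theorem LoF_constants {L : Type v} [Field L] [Differential L] [CharZero L] {F : Type w} [Field F]
    [Algebra L F] [FiniteDimensional L F] (k' : Type u) [Field k'] [Algebra k' L] [Algebra k' F]
    [IsScalarTower k' L F]
    (hL : ∀ x : L, Differential.deriv x = 0 → x ∈ (algebraMap k' L).range) :
    ∃ D : F →+ F, (∀ a b, D (a * b) = a * D b + b * D a) ∧
      ∀ c : F, D c = 0 → IsAlgebraic k' c := by
  letI := Differential.differentialFiniteDimensional L F
  haveI : DifferentialAlgebra L F := Differential.differentialAlgebraFiniteDimensional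
  refine ⟨(Differential.deriv : Derivation ℤ F F).toLinearMap.toAddMonoidHom, ?_, fun c hc => ?_⟩
  · intro a b
    have := (Differential.deriv : Derivation ℤ F F).leibniz a b
    simpa using this
  change (Differential.deriv : Derivation ℤ F F) c = 0 at hc
  have hint : IsIntegral L c := Algebra.IsIntegral.isIntegral c
  set p := minpoly L c with hp
  have h1 := Differential.deriv_aeval_eq c p
  rw [hc, mul_zero, add_zero, hp, minpoly.aeval, map_zero, ← hp] at h1
  have hmonic : p.Monic := minpoly.monic hint
  have h2 : Differential.mapCoeffs p = 0 := by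
    by_contra hne
    have h3 := minpoly.degree_le_of_ne_zero (A := L) (x := c) hne h1.symm
    rw [← hp, Polynomial.degree_eq_natDegree hmonic.ne_zero] at h3
    have h4 : (Differential.mapCoeffs p).degree < (p.natDegree : WithBot ℕ) := by
      rw [Polynomial.degree_lt_iff_coeff_zero]
      intro m hm
      rw [Differential.coeff_mapCoeffs]
      rcases Nat.eq_or_lt_of_le hm with h | h
      · rw [← h, hmonic.coeff_natDegree]
        exact Derivation.map_one_eq_zero _
      · rw [Polynomial.coeff_eq_zero_of_natDegree_lt h, map_zero]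
    exact absurd h3 (not_le_of_gt h4)
  have h5 : p ∈ Polynomial.lifts (algebraMap k' L) := by
    rw [Polynomial.lifts_iff_coeff_lifts]
    intro i
    have h6 := congrArg (fun q => Polynomial.coeff q i) h2
    simp only [Differential.coeff_mapCoeffs, Polynomial.coeff_zero] at h6
    have := hL _ h6
    simpa using this
  obtain ⟨P, hP⟩ := (Polynomial.mem_lifts _).1 h5
  refine ⟨P, ?_, ?_⟩
  · rintro rfl
    rw [Polynomial.map_zero] at hP
    exact hmonic.ne_zero hP.symm
  · have h7 : Polynomial.aeval c p = 0 := minpoly.aeval L c
    rw [← hP, Polynomial.aeval_map_algebraMap] at h7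
    exact h7

end LoF_generic

variable {n : ℕ} {k : Type u} [Field k]

variable (i0 : Fin (n + 1)) (q : Ideal (RR n k)) [q.IsPrime]

section

variable (hz : X i0 ∉ q) (e : ℕ) (he : mI (n + 1) k e ≤ q ⊔ Ideal.span {X i0})
include hz he

/-- The residue field `κ` carries a derivation whose constants are algebraic over `k`. -/
theorem exists_der [CharZero k] : ∃ δ : Derivation ℤ (kap q) (kap q),
    ∀ c : kap q, δ c = 0 → IsAlgebraic k c := by
  have hinj : Function.Injective ((rho q).comp (zemb i0) : PowerSeries k →+* kap q) := by
    rw [injective_iff_map_eq_zero]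
    intro a ha
    by_contra hne
    rw [RingHom.comp_apply, rho_eq_zero_iff] at ha
    exact zemb_not_mem (inferInstance : q.IsPrime) hz hne ha
  let L := FractionRing (PowerSeries k)
  letI algL : Algebra L (kap q) := (IsFractionRing.lift hinj : L →+* kap q).toAlgebra
  have hL : ∀ a : PowerSeries k, algebraMap L (kap q) (algebraMap (PowerSeries k) L a) =
      rho q (zemb i0 a) := by
    intro a
    exact IsFractionRing.lift_algebraMap hinj a
  haveI : IsScalarTower k L (kap q) := by
    apply IsScalarTower.of_algebraMap_eq
    intro c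
    rw [IsScalarTower.algebraMap_apply k (PowerSeries k) L, hL, ← rho_C]
    have : algebraMap k (PowerSeries k) c = PowerSeries.C c := rfl
    rw [this, zemb_C]
  haveI : CharZero L := by
    have h : Function.Injective (algebraMap k L) := (algebraMap k L).injective
    exact charZero_of_injective_algebraMap h
  letI : Differential L := ⟨LoF_intDer (fracDer (PowerSeries.derivative k)).toLinearMap.toAddMonoidHom (by
    intro a b
    have := (fracDer (PowerSeries.derivative k)).leibniz a b
    simpa using this)⟩
  haveI : FiniteDimensional L (kap q) := by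
    classical
    set S : Finset (Fin (n + 1) →₀ ℕ) :=
      (Finset.range e).biUnion fun d => Finset.finsuppAntidiag Finset.univ d with hS
    set T : Finset (kap q) := S.image (fun β => rho q (monomial β 1)) with hT
    have hg : ∀ g : RR n k, rho q g ∈ Submodule.span L (T : Set (kap q)) := by
      intro g
      obtain ⟨c, hc⟩ := exists_span he g
      rw [← rho_eq_zero_iff, map_sub, sub_eq_zero] at hc
      rw [hc, map_sum]
      refine Submodule.sum_mem _ fun β hβ => ?_
      rw [map_mul, ← hL, ← Algebra.smul_def]
      refine Submodule.smul_mem _ _ (Submodule.subset_span ?_)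
      rw [hT, Finset.coe_image]
      exact ⟨β, hβ, rfl⟩
    set B : Subalgebra L (kap q) := Algebra.adjoin L (Set.range (rho q)) with hB
    have hB1 : Subalgebra.toSubmodule B ≤ Submodule.span L (T : Set (kap q)) := by
      rw [hB, Algebra.adjoin_eq_span]
      have h1 : Submonoid.closure (Set.range (rho q)) = MonoidHom.mrange (rho q : RR n k →* kap q) := by
        have h2 : Set.range (rho q) = (MonoidHom.mrange (rho q : RR n k →* kap q) : Set (kap q)) := by
          ext x
          simp
        rw [h2, Submonoid.closure_eq]
      rw [h1, Submodule.span_le]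
      rintro x ⟨g, rfl⟩
      exact hg g
    have hB2 : (Subalgebra.toSubmodule B).FG := by
      haveI : Module.Finite L (Submodule.span L (T : Set (kap q))) :=
        Module.Finite.span_finset L T
      haveI : IsNoetherian L (Submodule.span L (T : Set (kap q))) := inferInstance
      exact Submodule.FG.of_le ⟨T, rfl⟩ hB1
    have hmem : ∀ g : RR n k, rho q g ∈ B := fun g => Algebra.subset_adjoin ⟨g, rfl⟩
    have htop : ∀ x : kap q, x ∈ B := by
      intro x
      obtain ⟨g, h, hh, rfl⟩ := rho_frac q x
      rw [div_eq_mul_inv]
      refine B.mul_mem (hmem g) ?_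
      have halg : IsAlgebraic L (rho q h) :=
        (IsIntegral.of_mem_of_fg B hB2 _ (hmem h)).isAlgebraic
      exact B.inv_mem_of_algebraic (x := ⟨rho q h, hmem h⟩) halg
    refine ⟨⟨T, ?_⟩⟩
    rw [eq_top_iff]
    intro x _
    exact hB1 (htop x)
  refine LoF_transfer _ (fun f => ∀ c : kap q, f c = 0 → IsAlgebraic k c) ?_
  refine LoF_constants (L := L) (F := kap q) k ?_
  intro x hx
  obtain ⟨c, hc⟩ := LoF_const x hx
  refine ⟨c, ?_⟩
  rw [hc]
  rfl

end

end B5a
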