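import Mathlib

set_option autoImplicit false
set_option linter.unusedSectionVars false
set_option linter.style.longLine false

/-!
Polynomials with algebraic coefficients (MP_b5a980_ag, A6).
-/

namespace B5a

universe u v w

variable {n : ℕ} {k : Type u} [Field k]

/-- polynomial multiples: an ideal of `k'[s]` generated by a polynomial with algebraic coefficients
contains a polynomial over `k`.

Proof. Let `k'` be the algebraic closure of `k` in `κ` (`algebraicClosure k κ` as an intermediate field / `integralClosure`); `b` comes from `b' ∈ k'[s]`. `k'[s]` is integral over `k[s]` (`Polynomial` over an algebraic extension: `Algebra.IsIntegral` of `k[X] → k'[X]`), so the nonzero ideal `(b')` has a nonzero contraction (`Ideal.comap_ne_bot_of_integral_mem`). Alternative: factor `b` over an algebraic closure of `κ`: each root `ρ` of `b` is algebraic over `k` (it is algebraic over `k(coefficients)`, a finite extension of `k`); hence in the algebraic closure `b` divides the product over its roots of `minpoly k ρ`; divisibility descends (`Polynomial.map_dvd_map`). -/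
theorem exists_dvd_map {κ : Type u} [Field κ] [Algebra k κ] (b : Polynomial κ) (hb : b ≠ 0)
    (h : ∀ i, IsAlgebraic k (b.coeff i)) :
    ∃ b0 : Polynomial k, b0 ≠ 0 ∧ b ∣ b0.map (algebraMap k κ) := by
  let L := AlgebraicClosure κ
  let ι := algebraMap κ L
  -- the coefficients of b, seen in L, lie in the algebraic closure of k in L
  let A := algebraicClosure k L
  have hlift : b.map ι ∈ Polynomial.lifts (algebraMap A L) := by
    rw [Polynomial.lifts_iff_coeff_lifts]
    intro i
    rw [Polynomial.coeff_map]
    have h1 : IsAlgebraic k (ι (b.coeff i)) := (h i).algebraMap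
    exact ⟨⟨ι (b.coeff i), mem_algebraicClosure_iff.2 h1⟩, rfl⟩
  obtain ⟨b', hb'⟩ := (Polynomial.mem_lifts _).1 hlift
  have hbm : b.map ι ≠ 0 := (Polynomial.map_ne_zero_iff ι.injective).2 hb
  have hb'0 : b' ≠ 0 := by
    rintro rfl
    exact hbm (by rw [← hb', Polynomial.map_zero])
  have hroot : ∀ r ∈ (b.map ι).roots, IsAlgebraic k r := by
    intro r hr
    have h1 : (b.map ι).eval r = 0 := (Polynomial.mem_roots'.1 hr).2
    have h2 : IsAlgebraic A r := ⟨b', hb'0, by
      rw [Polynomial.aeval_def, ← Polynomial.eval_map, hb', h1]⟩
    exact h2.restrictScalars k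
  refine ⟨((b.map ι).roots.map fun r => minpoly k r).prod, ?_, ?_⟩
  · refine Multiset.prod_ne_zero fun hz => ?_
    obtain ⟨r, hr, h0⟩ := Multiset.mem_map.1 hz
    exact minpoly.ne_zero (hroot r hr).isIntegral h0
  · have hs : b.map ι = Polynomial.C (b.map ι).leadingCoeff *
        ((b.map ι).roots.map fun r => Polynomial.X - Polynomial.C r).prod :=
      (IsAlgClosed.splits (b.map ι)).eq_prod_roots
    have hu : IsUnit (Polynomial.C (b.map ι).leadingCoeff) :=
      Polynomial.isUnit_C.2 (isUnit_iff_ne_zero.2 (Polynomial.leadingCoeff_ne_zero.2 hbm))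
    rw [← Polynomial.map_dvd_map' ι, Polynomial.map_map, ← IsScalarTower.algebraMap_eq k κ L,
      Polynomial.map_multiset_prod, Multiset.map_map]
    have h1 : ((b.map ι).roots.map fun r => Polynomial.X - Polynomial.C r).prod ∣
        ((b.map ι).roots.map fun r => (minpoly k r).map (algebraMap k L)).prod :=
      Multiset.prod_dvd_prod_of_dvd _ _ fun r hr => by
        rw [Polynomial.dvd_iff_isRoot, Polynomial.IsRoot, Polynomial.eval_map]
        exact minpoly.aeval k r
    have h2 : b.map ι ∣ ((b.map ι).roots.map fun r => Polynomial.X - Polynomial.C r).prod := by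
      conv_lhs => rw [hs]
      exact (hu.mul_left_dvd).2 dvd_rfl
    exact h2.trans h1

end B5a
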