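import Pool.Agent.H.MP_b5a980_ag.FrB

set_option autoImplicit false
set_option linter.unusedSectionVars false
set_option linter.style.longLine false

/-!
Polynomials in `s` over the fraction field: definitions (MP_b5a980_ag).
-/

namespace B5a

universe u v w

open MvPowerSeries

section pmap

variable {A : Type u} {B : Type v} [Semiring A] [Semiring B]

/-- coefficientwise application of an additive map to a polynomial -/
noncomputable def pmap (φ : A →+ B) : Polynomial A →+ Polynomial B where
  toFun p := p.sum fun i a => Polynomial.monomial i (φ a)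
  map_zero' := by simp
  map_add' p q := by
    rw [Polynomial.sum_add_index]
    · intro i
      simp
    · intro i a b
      simp

/-- Proof. `Polynomial.sum_def`, `Polynomial.coeff_monomial`; `φ 0 = 0`. -/
@[simp]
theorem coeff_pmap (φ : A →+ B) (p : Polynomial A) (i : ℕ) : (pmap φ p).coeff i = φ (p.coeff i) := by
  have h : pmap φ p = p.sum fun i a => Polynomial.monomial i (φ a) := rfl
  rw [h, Polynomial.sum_def, Polynomial.finsetSum_coeff]
  simp only [Polynomial.coeff_monomial]
  rw [Finset.sum_ite_eq']
  split_ifs with hi
  · rfl
  · rw [Polynomial.notMem_support_iff.1 hi, map_zero]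

theorem pmap_C (φ : A →+ B) (a : A) : pmap φ (Polynomial.C a) = Polynomial.C (φ a) := by
  ext i
  rw [coeff_pmap, Polynomial.coeff_C, Polynomial.coeff_C]
  split_ifs
  · rfl
  · exact map_zero φ

theorem pmap_X_mul (φ : A →+ B) (p : Polynomial A) :
    pmap φ (Polynomial.X * p) = Polynomial.X * pmap φ p := by
  ext i
  cases i with
  | zero => rw [coeff_pmap, Polynomial.mul_coeff_zero, Polynomial.mul_coeff_zero,
      Polynomial.coeff_X_zero, Polynomial.coeff_X_zero, zero_mul, zero_mul, map_zero]
  | succ i => rw [coeff_pmap, Polynomial.coeff_X_mul, Polynomial.coeff_X_mul, coeff_pmap]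

/-- The coefficientwise extension of a map satisfying the Leibniz rule satisfies it.

Proof. Compare coefficients: `Polynomial.coeff_mul`, sum over the antidiagonal, `map_sum`, `hφ`. -/
theorem pmap_mul {A : Type u} [CommRing A] (φ : A →+ A) (hφ : ∀ a b, φ (a * b) = φ a * b + a * φ b)
    (p q : Polynomial A) : pmap φ (p * q) = pmap φ p * q + p * pmap φ q := by
  ext i
  rw [coeff_pmap, Polynomial.coeff_add, Polynomial.coeff_mul, Polynomial.coeff_mul,
    Polynomial.coeff_mul, map_sum, ← Finset.sum_add_distrib]
  refine Finset.sum_congr rfl fun x _ => ?_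
  rw [hφ, coeff_pmap, coeff_pmap]

end pmap

/-- the additive map underlying a derivation -/
def derAdd {k : Type w} {A : Type u} [CommRing k] [CommRing A] [Algebra k A]
    (D : Derivation k A A) : A →+ A := AddMonoidHom.mk' D (map_add D)

@[simp]
theorem derAdd_apply {k : Type w} {A : Type u} [CommRing k] [CommRing A] [Algebra k A]
    (D : Derivation k A A) (a : A) : derAdd D a = D a := rfl

variable {n : ℕ} {k : Type u} [Field k]

/-- `F[s]` -/
abbrev FS (n : ℕ) (k : Type u) [Field k] := Polynomial (FF n k)

/-- the inclusion of `k[s]` -/
noncomputable def emb (n : ℕ) (k : Type u) [Field k] : Polynomial k →+* FS n k :=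
  Polynomial.mapRingHom (algebraMap k (FF n k))

/-- the inclusion of `R[s]` -/
noncomputable def embR (n : ℕ) (k : Type u) [Field k] :
    Polynomial (MvPowerSeries (Fin n) k) →+* FS n k :=
  Polynomial.mapRingHom (inc n k)

/-- Proof. `Polynomial.map_injective`. -/
theorem emb_injective : Function.Injective (emb n k) :=
  Polynomial.map_injective _ (algebraMap k (FF n k)).injective

theorem embR_injective : Function.Injective (embR n k) :=
  Polynomial.map_injective _ (IsFractionRing.injective (MvPowerSeries (Fin n) k) (FF n k))

/-- Proof. `Polynomial.map_map`; the algebra map `k → Frac R` is the composition `k → R → Frac R` (`IsScalarTower.algebraMap_apply`). -/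
theorem emb_eq_embR (b : Polynomial k) :
    emb n k b = embR n k (b.map (MvPowerSeries.C (σ := Fin n) (R := k))) := by
  ext i
  simp only [emb, embR, Polynomial.coe_mapRingHom, Polynomial.coeff_map]
  rw [IsScalarTower.algebraMap_apply k (MvPowerSeries (Fin n) k) (FF n k)]
  rfl

/-- The logarithmic derivative `f_i / f`. -/
noncomputable def ld (f : MvPowerSeries (Fin n) k) (i : Fin n) : FF n k :=
  inc n k (pderiv k i f) / inc n k f

end B5a
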