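import Pool.Agent.H.MP_b5a980_ag.ConnA
import Pool.Agent.H.MP_b5a980_ag.PM0

set_option autoImplicit false
set_option linter.unusedSectionVars false
set_option linter.style.longLine false

/-!
The connection on `F[s]` (MP_b5a980_ag).
-/

namespace B5a

universe u v w

open MvPowerSeries

variable {n : ℕ} {k : Type u} [Field k]

theorem PMA_smul (r : MvPowerSeries (Fin n) k) (p : FS n k) :
    r • p = Polynomial.C (inc n k r) * p := by
  rw [← Polynomial.smul_eq_C_mul]
  exact (algebraMap_smul (FF n k) r p).symm

theorem PMA_csmul (c : k) (p : FS n k) :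
    c • p = Polynomial.C (algebraMap k (FF n k) c) * p := by
  rw [← Polynomial.smul_eq_C_mul]
  exact (algebraMap_smul (FF n k) c p).symm

theorem PMA_pmap_mul (i : Fin n) (p q : FS n k) :
    pmap (derAdd (dF n k i)) (p * q) =
      pmap (derAdd (dF n k i)) p * q + p * pmap (derAdd (dF n k i)) q := by
  refine pmap_mul _ ?_ p q
  intro a b
  rw [derAdd_apply, derAdd_apply, derAdd_apply, Derivation.leibniz, smul_eq_mul, smul_eq_mul]
  ring

theorem PMA_pmap_C_mul (i : Fin n) (a : FF n k) (q : FS n k) :
    pmap (derAdd (dF n k i)) (Polynomial.C a * q) =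
      Polynomial.C (dF n k i a) * q + Polynomial.C a * pmap (derAdd (dF n k i)) q := by
  rw [PMA_pmap_mul, pmap_C, derAdd_apply]

theorem PMA_ld (f : MvPowerSeries (Fin n) k) (i j : Fin n) :
    dF n k i (ld f j) = dF n k j (ld f i) := by
  by_cases hf : f = 0
  · subst hf
    have h0 : ∀ l : Fin n, ld (0 : MvPowerSeries (Fin n) k) l = 0 := by
      intro l
      rw [ld, map_zero, map_zero, div_zero]
    rw [h0, h0, map_zero, map_zero]
  · have h1 : inc n k f ≠ 0 := inc_ne_zero hf
    have h2 : ∀ a b : Fin n, dF n k a (ld f b) =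
        (inc n k (pderiv k a (pderiv k b f)) * inc n k f -
          inc n k (pderiv k b f) * inc n k (pderiv k a f)) / inc n k f ^ 2 := by
      intro a b
      rw [ld, dF, fracDer_div _ _ _ h1, fracDer_algebraMap, fracDer_algebraMap]
    rw [h2, h2, pderiv_comm i j]
    congr 2
    rw [mul_comm]

theorem PMA_pmap_comm (i j : Fin n) (p : FS n k) :
    pmap (derAdd (dF n k i)) (pmap (derAdd (dF n k j)) p) =
      pmap (derAdd (dF n k j)) (pmap (derAdd (dF n k i)) p) := by
  ext m
  rw [coeff_pmap, coeff_pmap, coeff_pmap, coeff_pmap, derAdd_apply, derAdd_apply, derAdd_apply,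
    derAdd_apply, dF_comm]

/-- The connection on `F[s]`: `nab_i g = d_i g + s (d_i f / f) g`. -/
noncomputable def pconn (f : MvPowerSeries (Fin n) k) : Conn n k (FS n k) where
  nab i :=
    { toFun := fun p => pmap (derAdd (dF n k i)) p +
        Polynomial.X * Polynomial.C (ld f i) * p
      map_add' := by
        intro p q
        rw [map_add]
        ring
      map_smul' := by
        intro c p
        have h : pmap (derAdd (dF n k i)) (c • p) = c • pmap (derAdd (dF n k i)) p := by
          ext m
          rw [coeff_pmap, Polynomial.coeff_smul, Polynomial.coeff_smul, coeff_pmap,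
            derAdd_apply, derAdd_apply, Derivation.map_smul]
        rw [h, mul_smul_comm, RingHom.id_apply, smul_add] }
  leib := by
    intro i r p
    change pmap (derAdd (dF n k i)) (r • p) + Polynomial.X * Polynomial.C (ld f i) * (r • p) =
      pderiv k i r • p +
        r • (pmap (derAdd (dF n k i)) p + Polynomial.X * Polynomial.C (ld f i) * p)
    rw [PMA_smul, PMA_smul, PMA_smul, PMA_pmap_C_mul, dF_inc]
    ring
  comm := by
    intro i j p
    change pmap (derAdd (dF n k i)) (pmap (derAdd (dF n k j)) p +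
        Polynomial.X * Polynomial.C (ld f j) * p) +
        Polynomial.X * Polynomial.C (ld f i) * (pmap (derAdd (dF n k j)) p +
        Polynomial.X * Polynomial.C (ld f j) * p) =
      pmap (derAdd (dF n k j)) (pmap (derAdd (dF n k i)) p +
        Polynomial.X * Polynomial.C (ld f i) * p) +
        Polynomial.X * Polynomial.C (ld f j) * (pmap (derAdd (dF n k i)) p +
        Polynomial.X * Polynomial.C (ld f i) * p)
    rw [map_add, map_add, mul_assoc Polynomial.X (Polynomial.C (ld f j)) p,
      mul_assoc Polynomial.X (Polynomial.C (ld f i)) p, pmap_X_mul, pmap_X_mul,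
      PMA_pmap_C_mul, PMA_pmap_C_mul, PMA_pmap_comm i j, PMA_ld f i j]
    ring

theorem pconn_nab (f : MvPowerSeries (Fin n) k) (i : Fin n) (p : FS n k) :
    (pconn f).nab i p = pmap (derAdd (dF n k i)) p +
        Polynomial.X * Polynomial.C (ld f i) * p := rfl

theorem PMA_pmap_emb (i : Fin n) (b : Polynomial k) :
    pmap (derAdd (dF n k i)) (emb n k b) = 0 := by
  ext m
  rw [coeff_pmap, emb, Polynomial.coe_mapRingHom, Polynomial.coeff_map, derAdd_apply,
    Derivation.map_algebraMap, Polynomial.coeff_zero]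

/-- Proof. `pmap_mul` and `pmap (dF i) (emb b) = 0` (the coefficients lie in `k`). -/
theorem pconn_nab_emb_mul (f : MvPowerSeries (Fin n) k) (i : Fin n) (b : Polynomial k)
    (p : FS n k) : (pconn f).nab i (emb n k b * p) = emb n k b * (pconn f).nab i p := by
  rw [pconn_nab, pconn_nab, PMA_pmap_mul, PMA_pmap_emb]
  ring

/-- Proof. Induction on the degree of `γ` (`exists_single_of_ne_zero`, `nab_pw`). -/
theorem pconn_pw_emb_mul (f : MvPowerSeries (Fin n) k) (γ : Fin n →₀ ℕ) (b : Polynomial k)
    (p : FS n k) : (pconn f).pw γ (emb n k b * p) = emb n k b * (pconn f).pw γ p := by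
  have key : ∀ (d : ℕ) (γ : Fin n →₀ ℕ), γ.degree = d →
      (pconn f).pw γ (emb n k b * p) = emb n k b * (pconn f).pw γ p := by
    intro d
    induction d with
    | zero =>
      intro γ hγ
      have h0 : γ = 0 := by
        by_contra h
        obtain ⟨i, γ', _, h2⟩ := Conn.exists_single_of_ne_zero h
        omega
      subst h0
      rw [Conn.pw_zero, Conn.pw_zero]
    | succ d ih =>
      intro γ hγ
      have h0 : γ ≠ 0 := by
        rintro rfl
        simp at hγ
      obtain ⟨i, γ', h1, h2⟩ := Conn.exists_single_of_ne_zero h0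
      have h3 := ih γ' (by omega)
      rw [h1, ← Conn.nab_pw, ← Conn.nab_pw, h3, pconn_nab_emb_mul]
  exact key _ γ rfl

/-- `f^(s+j)` -/
noncomputable def fz (f : MvPowerSeries (Fin n) k) (j : ℤ) : FS n k :=
  Polynomial.C (inc n k f ^ j)

/-- Proof. `d_i (f^j) = j f^(j-1) f_i` (`fracDer_zpow`) and `s (f_i/f) f^j = s f_i f^(j-1)`. -/
theorem pconn_nab_fz (f : MvPowerSeries (Fin n) k) (hf : f ≠ 0) (i : Fin n) (j : ℤ) :
    (pconn f).nab i (fz f j) = embR n k ((Polynomial.X + Polynomial.C (j : MvPowerSeries (Fin n) k)) *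
      Polynomial.C (pderiv k i f)) * fz f (j - 1) := by
  have h1 : inc n k f ≠ 0 := inc_ne_zero hf
  have h2 : dF n k i (inc n k f ^ j) =
      (j : FF n k) * inc n k f ^ (j - 1) * inc n k (pderiv k i f) := by
    rw [dF, fracDer_zpow _ _ h1, fracDer_algebraMap]
  have h3 : ld f i * inc n k f ^ j = inc n k (pderiv k i f) * inc n k f ^ (j - 1) := by
    rw [ld, zpow_sub_one₀ h1]
    field_simp
  have h4 : embR n k ((Polynomial.X + Polynomial.C (j : MvPowerSeries (Fin n) k)) *
      Polynomial.C (pderiv k i f)) =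
      (Polynomial.X + Polynomial.C (j : FF n k)) * Polynomial.C (inc n k (pderiv k i f)) := by
    rw [embR, Polynomial.coe_mapRingHom, Polynomial.map_mul, Polynomial.map_add,
      Polynomial.map_X, Polynomial.map_C, Polynomial.map_C, map_intCast]
  rw [pconn_nab, fz, fz, pmap_C, derAdd_apply, h2, h4, mul_assoc Polynomial.X,
    ← Polynomial.C_mul, h3, Polynomial.C_mul, Polynomial.C_mul, Polynomial.C_mul]
  ring

/-- The module `N_j = D[s] f^(s+j)`: the `R[s]`-span of the iterated derivatives of `f^(s+j)`. -/
noncomputable def ND (f : MvPowerSeries (Fin n) k) (j : ℤ) :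
    Submodule (MvPowerSeries (Fin n) k) (FS n k) :=
  Submodule.span _ {q | ∃ (m : ℕ) (γ : Fin n →₀ ℕ), q = Polynomial.X ^ m * (pconn f).pw γ (fz f j)}

end B5a
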