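import Pool.Agent.H.MP_b5a980_ag.ConnD
import Pool.Agent.H.MP_b5a980_ag.PMA

set_option autoImplicit false
set_option linter.unusedSectionVars false
set_option linter.style.longLine false

/-!
The modules `N_j = D[s] f^(s+j)` (MP_b5a980_ag).
-/

namespace B5a

universe u v w

open MvPowerSeries

variable {n : ℕ} {k : Type u} [Field k]

section ND

variable (f : MvPowerSeries (Fin n) k) (hf : f ≠ 0)

theorem PMB_smul_eq (r : MvPowerSeries (Fin n) k) (p : FS n k) :
    r • p = Polynomial.C (inc n k r) * p := by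
  rw [← Polynomial.smul_eq_C_mul, algebraMap_smul]

theorem pw_fz_mem_ND (j : ℤ) (γ : Fin n →₀ ℕ) : (pconn f).pw γ (fz f j) ∈ ND f j :=
  Submodule.subset_span ⟨0, γ, by rw [pow_zero, one_mul]⟩

theorem fz_mem_ND (j : ℤ) : fz f j ∈ ND f j := by
  have h := pw_fz_mem_ND f j 0
  rwa [Conn.pw_zero] at h

theorem X_mul_mem_ND (j : ℤ) {p : FS n k} (hp : p ∈ ND f j) : Polynomial.X * p ∈ ND f j := by
  refine Submodule.span_induction (p := fun p _ => Polynomial.X * p ∈ ND f j) ?_ ?_ ?_ ?_ hp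
  · rintro p ⟨m, γ, rfl⟩
    exact Submodule.subset_span ⟨m + 1, γ, by rw [pow_succ']; ring⟩
  · rw [mul_zero]
    exact Submodule.zero_mem _
  · intro x y _ _ hx hy
    rw [mul_add]
    exact Submodule.add_mem _ hx hy
  · intro r x _ hx
    rw [mul_smul_comm]
    exact Submodule.smul_mem _ r hx

theorem PMB_X_pow_mul_mem {N : Submodule (MvPowerSeries (Fin n) k) (FS n k)}
    (hX : ∀ p ∈ N, Polynomial.X * p ∈ N) (m : ℕ) {p : FS n k} (hp : p ∈ N) :
    Polynomial.X ^ m * p ∈ N := by
  induction m with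
  | zero => rwa [pow_zero, one_mul]
  | succ m ih =>
    rw [pow_succ', mul_assoc]
    exact hX _ ih

theorem embR_mul_mem_ND (j : ℤ) (b : Polynomial (MvPowerSeries (Fin n) k)) {p : FS n k}
    (hp : p ∈ ND f j) : embR n k b * p ∈ ND f j := by
  induction b using Polynomial.induction_on' with
  | add b c hb hc =>
    rw [map_add, add_mul]
    exact Submodule.add_mem _ hb hc
  | monomial m r =>
    have h1 : embR n k (Polynomial.monomial m r) * p = r • (Polynomial.X ^ m * p) := by
      rw [PMB_smul_eq]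
      show Polynomial.map (inc n k) (Polynomial.monomial m r) * p = _
      rw [Polynomial.map_monomial, ← Polynomial.C_mul_X_pow_eq_monomial]
      ring
    rw [h1]
    exact Submodule.smul_mem _ r (PMB_X_pow_mul_mem (fun p hp => X_mul_mem_ND f j hp) m hp)

theorem emb_mul_mem_ND (j : ℤ) (b : Polynomial k) {p : FS n k} (hp : p ∈ ND f j) :
    emb n k b * p ∈ ND f j := by
  rw [emb_eq_embR]
  exact embR_mul_mem_ND f j _ hp

theorem PMB_emb_X_pow (m : ℕ) : emb n k (Polynomial.X ^ m) = Polynomial.X ^ m := by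
  show Polynomial.map _ _ = _
  rw [Polynomial.map_pow, Polynomial.map_X]

theorem nab_mem_ND (j : ℤ) {p : FS n k} (hp : p ∈ ND f j) (i : Fin n) :
    (pconn f).nab i p ∈ ND f j := by
  refine Submodule.span_induction (p := fun p _ => (pconn f).nab i p ∈ ND f j) ?_ ?_ ?_ ?_ hp
  · rintro p ⟨m, γ, rfl⟩
    have h1 := pconn_nab_emb_mul f i (Polynomial.X ^ m) ((pconn f).pw γ (fz f j))
    rw [PMB_emb_X_pow, Conn.nab_pw] at h1
    rw [h1]
    exact Submodule.subset_span ⟨m, _, rfl⟩
  · rw [map_zero]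
    exact Submodule.zero_mem _
  · intro x y _ _ hx hy
    rw [map_add]
    exact Submodule.add_mem _ hx hy
  · intro r x hx hx'
    rw [(pconn f).leib]
    exact Submodule.add_mem _ (Submodule.smul_mem _ _ hx) (Submodule.smul_mem _ _ hx')

/-- minimality of `ND` -/
theorem ND_le (j : ℤ) {N : Submodule (MvPowerSeries (Fin n) k) (FS n k)} (h0 : fz f j ∈ N)
    (hX : ∀ p ∈ N, Polynomial.X * p ∈ N) (hn : ∀ i, ∀ p ∈ N, (pconn f).nab i p ∈ N) :
    ND f j ≤ N := by
  refine Submodule.span_le.mpr ?_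
  rintro p ⟨m, γ, rfl⟩
  exact PMB_X_pow_mul_mem hX m ((pconn f).ConnD_pw_mem hn h0 _ γ rfl)

theorem PMB_mem_idx {r : ℕ} {γ : Fin n →₀ ℕ} :
    (γ ∈ (Finset.range (r + 1)).biUnion fun d =>
      Finset.finsuppAntidiag (Finset.univ : Finset (Fin n)) d) ↔ γ.degree ≤ r := by
  rw [Finset.mem_biUnion]
  constructor
  · rintro ⟨d, hd, h⟩
    rw [MIB_mem_antidiag] at h
    have := Finset.mem_range.mp hd
    omega
  · intro h
    exact ⟨γ.degree, Finset.mem_range.mpr (by omega), MIB_mem_antidiag.mpr rfl⟩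

theorem PMB_sum_eq {A : Type*} [AddCommMonoid A] {r r' : ℕ} (h : r ≤ r') (a : (Fin n →₀ ℕ) → A)
    (ha : ∀ γ, r < γ.degree → a γ = 0) :
    (∑ γ ∈ (Finset.range (r + 1)).biUnion fun d =>
      Finset.finsuppAntidiag (Finset.univ : Finset (Fin n)) d, a γ) =
    ∑ γ ∈ (Finset.range (r' + 1)).biUnion fun d =>
      Finset.finsuppAntidiag (Finset.univ : Finset (Fin n)) d, a γ := by
  refine Finset.sum_subset ?_ ?_
  · intro γ hγ
    rw [PMB_mem_idx] at hγ ⊢
    omega
  · intro γ _ hγ
    rw [PMB_mem_idx] at hγ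
    exact ha γ (by omega)

/-- elements of `ND` as finite sums with bounded order -/
theorem exists_sum_of_mem_ND (j : ℤ) {p : FS n k} (hp : p ∈ ND f j) :
    ∃ (r : ℕ) (a : (Fin n →₀ ℕ) → Polynomial (MvPowerSeries (Fin n) k)),
      p = ∑ γ ∈ (Finset.range (r + 1)).biUnion fun d => Finset.finsuppAntidiag Finset.univ d,
        embR n k (a γ) * (pconn f).pw γ (fz f j) := by
  suffices h : ∃ (r : ℕ) (a : (Fin n →₀ ℕ) → Polynomial (MvPowerSeries (Fin n) k)),
      (∀ γ, r < γ.degree → a γ = 0) ∧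
      p = ∑ γ ∈ (Finset.range (r + 1)).biUnion fun d => Finset.finsuppAntidiag Finset.univ d,
        embR n k (a γ) * (pconn f).pw γ (fz f j) by
    obtain ⟨r, a, -, h⟩ := h
    exact ⟨r, a, h⟩
  refine Submodule.span_induction (p := fun p _ =>
    ∃ (r : ℕ) (a : (Fin n →₀ ℕ) → Polynomial (MvPowerSeries (Fin n) k)),
      (∀ γ, r < γ.degree → a γ = 0) ∧
      p = ∑ γ ∈ (Finset.range (r + 1)).biUnion fun d => Finset.finsuppAntidiag Finset.univ d,
        embR n k (a γ) * (pconn f).pw γ (fz f j)) ?_ ?_ ?_ ?_ hp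
  · rintro p ⟨m, γ0, rfl⟩
    classical
    refine ⟨γ0.degree, fun γ => if γ = γ0 then Polynomial.X ^ m else 0, ?_, ?_⟩
    · intro γ hγ
      refine if_neg ?_
      rintro rfl
      exact lt_irrefl _ hγ
    · rw [Finset.sum_eq_single γ0]
      · show _ = embR n k (if γ0 = γ0 then Polynomial.X ^ m else 0) * _
        rw [if_pos rfl]
        congr 1
        show _ = Polynomial.map _ _
        rw [Polynomial.map_pow, Polynomial.map_X]
      · intro γ _ hγ
        show embR n k (if γ = γ0 then Polynomial.X ^ m else 0) * _ = 0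
        rw [if_neg hγ, map_zero, zero_mul]
      · intro h
        exact absurd (PMB_mem_idx.mpr le_rfl) h
  · refine ⟨0, fun _ => 0, fun _ _ => rfl, ?_⟩
    symm
    refine Finset.sum_eq_zero fun γ _ => ?_
    rw [map_zero, zero_mul]
  · rintro x y _ _ ⟨r, a, ha, hx⟩ ⟨r', a', ha', hy⟩
    refine ⟨max r r', fun γ => a γ + a' γ, ?_, ?_⟩
    · intro γ hγ
      show a γ + a' γ = 0
      rw [ha γ (lt_of_le_of_lt (le_max_left _ _) hγ), ha' γ (lt_of_le_of_lt (le_max_right _ _) hγ),
        add_zero]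
    · rw [PMB_sum_eq (le_max_left r r')] at hx
      · rw [PMB_sum_eq (le_max_right r r')] at hy
        · rw [hx, hy, ← Finset.sum_add_distrib]
          refine Finset.sum_congr rfl fun γ _ => ?_
          rw [map_add, add_mul]
        · intro γ hγ
          rw [ha' γ hγ, map_zero, zero_mul]
      · intro γ hγ
        rw [ha γ hγ, map_zero, zero_mul]
  · rintro c x _ ⟨r, a, ha, hx⟩
    refine ⟨r, fun γ => Polynomial.C c * a γ, ?_, ?_⟩
    · intro γ hγ
      show Polynomial.C c * a γ = 0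
      rw [ha γ hγ, mul_zero]
    · rw [hx, Finset.smul_sum]
      refine Finset.sum_congr rfl fun γ _ => ?_
      rw [PMB_smul_eq, map_mul, mul_assoc]
      congr 1
      show _ = Polynomial.map _ _
      rw [Polynomial.map_C]

include hf in
/-- Proof. `ND_le`: `fz f (j+1) = f • fz f j` lies in `ND f j`. -/
theorem ND_anti (j : ℤ) : ND f (j + 1) ≤ ND f j := by
  refine ND_le f (j + 1) ?_ (fun p hp => X_mul_mem_ND f j hp) (fun i p hp => nab_mem_ND f j hp i)
  have h1 : fz f (j + 1) = f • fz f j := by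
    rw [PMB_smul_eq]
    show Polynomial.C (inc n k f ^ (j + 1)) = Polynomial.C (inc n k f) * Polynomial.C (inc n k f ^ j)
    rw [← Polynomial.C_mul, zpow_add_one₀ (inc_ne_zero hf), mul_comm]
  rw [h1]
  exact Submodule.smul_mem _ _ (fz_mem_ND f j)

end ND

end B5a
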