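import Pool.Agent.H.MP_b5a980_ag.MI0

set_option autoImplicit false
set_option linter.unusedSectionVars false
set_option linter.style.longLine false

/-!
Descent of linear relations by the intersection theorem (MP_b5a980_ag, A6).
-/

namespace B5a

universe u v w

open MvPowerSeries

variable {n : ℕ} {κ : Type v} [Field κ] {B : Type u} [CommRing B]

/-- A vector with all coordinates in the ideal `I` lies in `I • ⊤`. -/
theorem SeB_mem_smul_top {M : ℕ} (I : Ideal B) (y : Fin M → B) (hy : ∀ m, y m ∈ I) :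
    y ∈ (I • ⊤ : Submodule B (Fin M → B)) := by
  classical
  have h : y = ∑ m, y m • (Pi.single m (1 : B) : Fin M → B) := by
    funext j
    simp [Finset.sum_apply, Pi.single_apply]
  rw [h]
  exact Submodule.sum_mem _ fun m _ => Submodule.smul_mem_smul (hy m) Submodule.mem_top

/-- Descent of a system of linear equations. -/
theorem descent [IsLocalRing B] [IsNoetherianRing B] (Φ : B →+* MvPowerSeries (Fin n) κ)
    (hs : ∀ (N : ℕ) (a : MvPowerSeries (Fin n) κ), ∃ x, a - Φ x ∈ mI n κ N)
    (hk : ∀ (N : ℕ) (x : B), Φ x ∈ mI n κ N → x ∈ IsLocalRing.maximalIdeal B ^ N)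
    {M : ℕ} {ι : Type w} (t : Finset ι) (u : Fin M → B) (v : ι → Fin M → B)
    (a : ι → MvPowerSeries (Fin n) κ) (h : ∀ m, Φ (u m) = ∑ i ∈ t, a i * Φ (v i m)) :
    ∃ x : ι → B, ∀ m, u m = ∑ i ∈ t, x i * v i m := by
  classical
  set S : Submodule B (Fin M → B) := Submodule.span B (v '' (t : Set ι)) with hS
  have key : u ∈ S := by
    have hne : IsLocalRing.maximalIdeal B ≠ ⊤ := (IsLocalRing.maximalIdeal.isMaximal B).ne_top
    have hbot := Ideal.iInf_pow_smul_eq_bot_of_isLocalRing (M := (Fin M → B) ⧸ S)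
      (IsLocalRing.maximalIdeal B) hne
    rw [← Submodule.Quotient.mk_eq_zero (p := S), ← Submodule.mem_bot B, ← hbot,
      Submodule.mem_iInf]
    intro N
    choose x hx using fun i => hs N (a i)
    have h1 : ∀ m, Φ (u m - ∑ i ∈ t, x i * v i m) ∈ mI n κ N := by
      intro m
      rw [map_sub, map_sum, h m, ← Finset.sum_sub_distrib]
      refine Ideal.sum_mem _ fun i _ => ?_
      rw [map_mul, ← sub_mul]
      exact Ideal.mul_mem_right _ _ (hx i)
    have h3 : (u - ∑ i ∈ t, x i • v i) ∈
        (IsLocalRing.maximalIdeal B ^ N • ⊤ : Submodule B (Fin M → B)) := by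
      refine SeB_mem_smul_top _ _ fun m => ?_
      have := hk N _ (h1 m)
      simpa [Finset.sum_apply] using this
    have h4 : (Submodule.Quotient.mk u : (Fin M → B) ⧸ S) = S.mkQ (u - ∑ i ∈ t, x i • v i) := by
      rw [map_sub, Submodule.mkQ_apply, Submodule.mkQ_apply]
      have h5 : (Submodule.Quotient.mk (∑ i ∈ t, x i • v i) : (Fin M → B) ⧸ S) = 0 := by
        rw [Submodule.Quotient.mk_eq_zero]
        refine Submodule.sum_mem _ fun i hi => Submodule.smul_mem _ _ ?_
        exact Submodule.subset_span ⟨i, hi, rfl⟩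
      rw [h5, sub_zero]
    rw [h4]
    have h6 := Submodule.mem_map_of_mem (f := S.mkQ) h3
    rw [Submodule.map_smul''] at h6
    exact Submodule.smul_mono le_rfl le_top h6
  rw [hS, Submodule.mem_span_image_finset_iff_exists_fun] at key
  obtain ⟨x, hx⟩ := key
  refine ⟨fun i => if hi : i ∈ t then x ⟨i, hi⟩ else 0, fun m => ?_⟩
  rw [← Finset.sum_attach t, ← hx]
  simp [Finset.sum_apply]

end B5a
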