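import Pool.Agent.H.MP_b5a980_ag.PrA

set_option autoImplicit false
set_option linter.unusedSectionVars false
set_option linter.style.longLine false

/-!
The Taylor expansion in the variables different from `z` (MP_b5a980_ag, A6).
-/

namespace B5a

universe u v w

open MvPowerSeries

variable {n : ℕ} {k : Type u} [Field k]

/-- the multi-index `α` of `Fin n` moved to `Fin (n+1)`, avoiding `i0` -/
noncomputable def up (i0 : Fin (n + 1)) (α : Fin n →₀ ℕ) : Fin (n + 1) →₀ ℕ :=
  Finsupp.embDomain i0.succAboveEmb α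

theorem TaA_up_succ (i0 : Fin (n + 1)) (α : Fin n →₀ ℕ) (j : Fin n) :
    up i0 α (i0.succAbove j) = α j :=
  Finsupp.embDomain_apply_self i0.succAboveEmb α j

theorem TaA_up_self (i0 : Fin (n + 1)) (α : Fin n →₀ ℕ) : up i0 α i0 = 0 := by
  refine Finsupp.embDomain_of_notMem_range i0.succAboveEmb α i0 ?_
  rintro ⟨j, hj⟩
  exact Fin.succAbove_ne i0 j hj

theorem TaA_ext {i0 : Fin (n + 1)} {β γ : Fin (n + 1) →₀ ℕ} (h : β i0 = γ i0)
    (h' : ∀ j, β (i0.succAbove j) = γ (i0.succAbove j)) : β = γ := by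
  ext i
  by_cases hi : i = i0
  · rw [hi, h]
  · obtain ⟨j, rfl⟩ := Fin.exists_succAbove_eq hi
    exact h' j

theorem up_degree (i0 : Fin (n + 1)) (α : Fin n →₀ ℕ) : (up i0 α).degree = α.degree := by
  rw [Finsupp.degree_eq_sum, Finsupp.degree_eq_sum, Fin.sum_univ_succAbove _ i0, TaA_up_self,
    zero_add]
  exact Finset.sum_congr rfl fun j _ => TaA_up_succ i0 α j

theorem up_add (i0 : Fin (n + 1)) (α β : Fin n →₀ ℕ) : up i0 (α + β) = up i0 α + up i0 β := by
  refine TaA_ext (i0 := i0) ?_ fun j => ?_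
  · rw [Finsupp.add_apply, TaA_up_self, TaA_up_self, TaA_up_self]
  · rw [Finsupp.add_apply, TaA_up_succ, TaA_up_succ, TaA_up_succ, Finsupp.add_apply]

theorem up_single (i0 : Fin (n + 1)) (j : Fin n) (m : ℕ) :
    up i0 (Finsupp.single j m) = Finsupp.single (i0.succAbove j) m :=
  Finsupp.embDomain_single i0.succAboveEmb j m

/-- divided derivative of order `α` in the variables different from `z` -/
noncomputable def dd (i0 : Fin (n + 1)) (α : Fin n →₀ ℕ) (g : RR n k) : RR n k :=
  fun β => ((∏ j : Fin n, Nat.choose (β (i0.succAbove j) + α j) (α j) : ℕ) : k) *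
    coeff (β + up i0 α) g

/-- the Taylor expansion `g(x + y)` as a series in `y` with coefficients in `k[[x]]` -/
noncomputable def taylorFun (i0 : Fin (n + 1)) (g : RR n k) : MvPowerSeries (Fin n) (RR n k) :=
  fun α => dd i0 α g

theorem TaA_coeff_dd (i0 : Fin (n + 1)) (α : Fin n →₀ ℕ) (g : RR n k) (β : Fin (n + 1) →₀ ℕ) :
    coeff β (dd i0 α g) =
      ((∏ j : Fin n, Nat.choose (β (i0.succAbove j) + α j) (α j) : ℕ) : k) *
        coeff (β + up i0 α) g := rfl

theorem TaA_coeff (i0 : Fin (n + 1)) (α : Fin n →₀ ℕ) (g : RR n k) :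
    coeff α (taylorFun i0 g) = dd i0 α g := rfl

theorem TaA_up_zero (i0 : Fin (n + 1)) : up i0 (0 : Fin n →₀ ℕ) = 0 :=
  Finsupp.embDomain_zero i0.succAboveEmb

theorem dd_zero (i0 : Fin (n + 1)) (g : RR n k) : dd i0 0 g = g := by
  ext β
  rw [TaA_coeff_dd, TaA_up_zero, add_zero]
  simp

theorem TaA_dd_add (i0 : Fin (n + 1)) (α : Fin n →₀ ℕ) (g h : RR n k) :
    dd i0 α (g + h) = dd i0 α g + dd i0 α h := by
  ext β
  rw [map_add, TaA_coeff_dd, TaA_coeff_dd, TaA_coeff_dd, map_add, mul_add]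

theorem TaA_add (i0 : Fin (n + 1)) (g h : RR n k) :
    taylorFun i0 (g + h) = taylorFun i0 g + taylorFun i0 h := by
  ext1 α
  rw [map_add, TaA_coeff, TaA_coeff, TaA_coeff, TaA_dd_add]

theorem TaA_natCast_mul (m : ℕ) (g : RR n k) (β : Fin (n + 1) →₀ ℕ) :
    coeff β (g * (m : RR n k)) = coeff β g * (m : k) := by
  rw [mul_comm, mul_comm (coeff β g), ← nsmul_eq_mul, ← nsmul_eq_mul, map_nsmul]

theorem TaA_prod (i0 : Fin (n + 1)) (j : Fin n) (α : Fin n →₀ ℕ) (β : Fin (n + 1) →₀ ℕ) :
    (∏ i : Fin n, Nat.choose (β (i0.succAbove i) + (α + Finsupp.single j 1 : Fin n →₀ ℕ) i)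
        ((α + Finsupp.single j 1 : Fin n →₀ ℕ) i)) * (α j + 1) =
      (∏ i : Fin n, Nat.choose (β (i0.succAbove i) + α i) (α i)) *
        (β (i0.succAbove j) + α j + 1) := by
  classical
  rw [← Finset.mul_prod_erase Finset.univ _ (Finset.mem_univ j),
    ← Finset.mul_prod_erase Finset.univ (fun i : Fin n =>
      Nat.choose (β (i0.succAbove i) + α i) (α i)) (Finset.mem_univ j)]
  have h1 : ∏ i ∈ Finset.univ.erase j, Nat.choose (β (i0.succAbove i) +
      (α + Finsupp.single j 1 : Fin n →₀ ℕ) i) ((α + Finsupp.single j 1 : Fin n →₀ ℕ) i) =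
      ∏ i ∈ Finset.univ.erase j, Nat.choose (β (i0.succAbove i) + α i) (α i) := by
    refine Finset.prod_congr rfl fun i hi => ?_
    have h2 : (α + Finsupp.single j 1 : Fin n →₀ ℕ) i = α i := by
      rw [Finsupp.add_apply, Finsupp.single_eq_of_ne (Finset.ne_of_mem_erase hi), add_zero]
    rw [h2]
  have h3 : (α + Finsupp.single j 1 : Fin n →₀ ℕ) j = α j + 1 := by
    rw [Finsupp.add_apply, Finsupp.single_eq_same]
  rw [h1, h3, ← add_assoc]
  have h4 := Nat.add_one_mul_choose_eq (β (i0.succAbove j) + α j) (α j)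
  rw [mul_right_comm, ← h4]
  ring

/-- Proof. Coefficient at `α` (in `y`) and `β` (in `x`). -/
theorem pderiv_taylorFun (i0 : Fin (n + 1)) (j : Fin n) (g : RR n k) :
    pderiv (RR n k) j (taylorFun i0 g) = taylorFun i0 (pderiv k (i0.succAbove j) g) := by
  ext1 α
  rw [coeff_pderiv, TaA_coeff, TaA_coeff]
  ext β
  have h0 : (α j + 1 : RR n k) = ((α j + 1 : ℕ) : RR n k) := by push_cast; rfl
  rw [h0, TaA_natCast_mul, TaA_coeff_dd, TaA_coeff_dd, coeff_pderiv, up_add, up_single]
  have h1 : (β + up i0 α) (i0.succAbove j) = β (i0.succAbove j) + α j := by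
    rw [Finsupp.add_apply, TaA_up_succ]
  rw [h1, ← add_assoc β]
  have h2 := congrArg (fun m : ℕ => (m : k)) (TaA_prod i0 j α β)
  simp only [Nat.cast_mul] at h2
  have h3 : (((β (i0.succAbove j) + α j : ℕ) : k) + 1) =
      ((β (i0.succAbove j) + α j + 1 : ℕ) : k) := by push_cast; rfl
  rw [h3]
  calc _ = ((∏ i : Fin n, Nat.choose (β (i0.succAbove i) + (α + Finsupp.single j 1 : Fin n →₀ ℕ) i)
        ((α + Finsupp.single j 1 : Fin n →₀ ℕ) i) : ℕ) : k) * ((α j + 1 : ℕ) : k) *
        coeff (β + up i0 α + Finsupp.single (i0.succAbove j) 1) g := by ring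
    _ = _ := by rw [h2]; ring

theorem TaA_mul [CharZero k] (i0 : Fin (n + 1)) (m : ℕ) : ∀ (g h : RR n k) (α : Fin n →₀ ℕ),
    α.degree = m → coeff α (taylorFun i0 (g * h)) =
      coeff α (taylorFun i0 g * taylorFun i0 h) := by
  induction m with
  | zero =>
    intro g h α hα
    have h0 : α = 0 := by
      rw [Finsupp.degree_eq_zero_iff] at hα
      exact hα
    subst h0
    rw [coeff_zero_eq_constantCoeff_apply (φ := taylorFun i0 g * taylorFun i0 h), map_mul,
      ← coeff_zero_eq_constantCoeff_apply, ← coeff_zero_eq_constantCoeff_apply,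
      TaA_coeff, TaA_coeff, TaA_coeff, dd_zero, dd_zero, dd_zero]
  | succ m ih =>
    intro g h α hα
    obtain ⟨j, hj⟩ : ∃ j, α j ≠ 0 := by
      by_contra hcon
      push Not at hcon
      have : α = 0 := Finsupp.ext hcon
      rw [this, map_zero] at hα
      omega
    obtain ⟨α', rfl⟩ : ∃ α' : Fin n →₀ ℕ, α = α' + Finsupp.single j 1 := by
      refine ⟨α - Finsupp.single j 1, ?_⟩
      rw [tsub_add_cancel_of_le]
      rw [Finsupp.single_le_iff]
      omega
    have hα' : α'.degree = m := by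
      rw [map_add, Finsupp.degree_single] at hα
      omega
    have hne : (α' j + 1 : RR n k) ≠ 0 := by
      intro h0
      have h1 := congrArg constantCoeff h0
      rw [map_add, map_natCast, map_one, map_zero] at h1
      exact Nat.cast_add_one_ne_zero (α' j) h1
    refine mul_right_cancel₀ hne ?_
    have e1 := coeff_pderiv (taylorFun i0 (g * h)) (i := j) α'
    have e2 := coeff_pderiv (taylorFun i0 g * taylorFun i0 h) (i := j) α'
    rw [← e1, ← e2, pderiv_taylorFun, (pderiv (RR n k) j).leibniz,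
      (pderiv k (i0.succAbove j)).leibniz, TaA_add, map_add, map_add]
    simp only [smul_eq_mul]
    rw [ih _ _ α' hα', ih _ _ α' hα', pderiv_taylorFun, pderiv_taylorFun]

/-- the Taylor expansion as a ring homomorphism -/
noncomputable def taylorHom [CharZero k] (i0 : Fin (n + 1)) : RR n k →+* MvPowerSeries (Fin n) (RR n k) where
  toFun := taylorFun i0
  map_one' := by
    classical
    ext1 α
    rw [TaA_coeff]
    ext β
    rw [TaA_coeff_dd, coeff_one, coeff_one]
    by_cases hα : α = 0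
    · subst hα
      rw [TaA_up_zero, add_zero, if_pos rfl, coeff_one]
      simp
    · rw [if_neg hα, map_zero]
      have h1 : β + up i0 α ≠ 0 := by
        intro h0
        apply hα
        ext j
        have h2 := DFunLike.congr_fun h0 (i0.succAbove j)
        rw [Finsupp.add_apply, TaA_up_succ, Finsupp.zero_apply] at h2
        rw [Finsupp.zero_apply]
        omega
      rw [if_neg h1, mul_zero]
  map_mul' := by
    intro g h
    ext1 α
    exact TaA_mul i0 _ g h α rfl
  map_zero' := by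
    ext1 α
    rw [TaA_coeff, map_zero]
    ext β
    rw [TaA_coeff_dd, map_zero, mul_zero, map_zero]
  map_add' := by
    intro g h
    exact TaA_add i0 g h

end B5a
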