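import Pool.Agent.H.MP_b5a980_ag.PrB
import Pool.Agent.H.MP_b5a980_ag.TaA

set_option autoImplicit false
set_option linter.unusedSectionVars false
set_option linter.style.longLine false

/-!
The map to `κ[[y]]` (MP_b5a980_ag, A6).
-/

namespace B5a

universe u v w

open MvPowerSeries

variable {n : ℕ} {k : Type u} [Field k]

/-- The Taylor map with coefficients moved to a field. -/
noncomputable def Phi [CharZero k] (i0 : Fin (n + 1)) {κ : Type v} [Field κ] (ρ : RR n k →+* κ) :
    RR n k →+* MvPowerSeries (Fin n) κ :=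
  (MvPowerSeries.map ρ).comp (taylorHom i0)

variable [CharZero k] (i0 : Fin (n + 1)) {κ : Type v} [Field κ] (ρ : RR n k →+* κ)

theorem TaB_coeff_Phi (g : RR n k) (α : Fin n →₀ ℕ) :
    coeff α (Phi i0 ρ g) = ρ (dd i0 α g) := by
  rw [Phi, RingHom.comp_apply, coeff_map]
  rfl

theorem constantCoeff_Phi (g : RR n k) : constantCoeff (Phi i0 ρ g) = ρ g := by
  rw [← coeff_zero_eq_constantCoeff_apply, TaB_coeff_Phi, dd_zero]

theorem Phi_pderiv (j : Fin n) (g : RR n k) :
    Phi i0 ρ (pderiv k (i0.succAbove j) g) = pderiv κ j (Phi i0 ρ g) := by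
  ext α
  rw [TaB_coeff_Phi, coeff_pderiv, TaB_coeff_Phi]
  have h := congrArg (coeff α) (pderiv_taylorFun i0 j g)
  rw [coeff_pderiv] at h
  have h1 : dd i0 α (pderiv k (i0.succAbove j) g) =
      dd i0 (α + Finsupp.single j 1) g * ((α j : RR n k) + 1) := h.symm
  rw [h1, map_mul, map_add, map_natCast, map_one]

include ρ in
/-- The target field has characteristic zero. -/
theorem TaB_charZero : CharZero κ :=
  charZero_of_injective_ringHom (f := ρ.comp (C : k →+* RR n k)) (RingHom.injective _)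

/-- Two series with the same constant coefficient and the same derivatives. -/
theorem TaB_ext {f g : MvPowerSeries (Fin n) κ} (ρ : RR n k →+* κ)
    (hc : constantCoeff f = constantCoeff g)
    (hD : ∀ i, pderiv κ i f = pderiv κ i g) : f = g := by
  have : CharZero κ := TaB_charZero ρ
  exact pderiv.ext hD hc

/-- Proof. Coefficients of `T X_(σ j)`: at `α = 0` it is `X_(σ j)`, at `e_j` it is `1`, otherwise `0`. (Or use `pderiv_taylorFun`: `D_i X_(σ j) = δ_ij`.) -/
theorem Phi_X (j : Fin n) : Phi i0 ρ (X (i0.succAbove j)) = C (ρ (X (i0.succAbove j))) + X j := by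
  refine TaB_ext ρ ?_ fun i => ?_
  · rw [constantCoeff_Phi, map_add, constantCoeff_C, constantCoeff_X, add_zero]
  · rw [← Phi_pderiv, map_add, pderiv_C, zero_add]
    by_cases h : j = i
    · subst h
      rw [pderiv_X_self, pderiv_X_self, map_one]
    · rw [pderiv_X_of_ne h, pderiv_X_of_ne fun h' => h (i0.succAbove_right_injective h'), map_zero]

/-- Proof. `T (zemb a)`: all coefficients at `α ≠ 0` vanish since `zemb a` only involves `z` (`coeff_zemb_of_ne`). -/
theorem Phi_zemb (a : PowerSeries k) : Phi i0 ρ (zemb i0 a) = C (ρ (zemb i0 a)) := by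
  refine TaB_ext ρ ?_ fun i => ?_
  · rw [constantCoeff_Phi, constantCoeff_C]
  · rw [← Phi_pderiv, pderiv_C, pderiv_zemb_of_ne i0 _ (i0.succAbove_ne i), map_zero]

/-- Proof. `C c = zemb (C c)` (`zemb_C`). -/
theorem Phi_C (c : k) : Phi i0 ρ (C c) = C (ρ (C c)) := by
  rw [← zemb_C i0 c, Phi_zemb]

/-- `Φ(P(x_j)) = P(ρ_j + y_j) = P(ρ_j) + P'(ρ_j) y_j + ..`

Proof. `Phi` is a ring homomorphism: `Phi (P.eval₂ zemb X_(σ j)) = P.eval₂ (C ∘ ρ ∘ zemb) (C ρ_j + X_j)` (`Polynomial.hom_eval₂`, `Phi_zemb`, `Phi_X`), and `P(a + y) - P(a) - P'(a) y` is divisible by `y^2` (`Polynomial.evalSubFactor`, `Polynomial.binomExpansion`: `Polynomial.binomExpansion f x y : {k // f.eval (x+y) = f.eval x + (derivative f).eval x * y + k * y^2}`); `X_j^2 ∈ mI 2`. -/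
theorem Phi_eval (j : Fin n) (P : Polynomial (PowerSeries k)) :
    Phi i0 ρ (P.eval₂ (zemb i0) (X (i0.succAbove j))) -
      C (P.eval₂ (ρ.comp (zemb i0)) (ρ (X (i0.succAbove j)))) -
      C ((Polynomial.derivative P).eval₂ (ρ.comp (zemb i0))
        (ρ (X (i0.succAbove j)))) * X j ∈ mI n κ 2 := by
  set r := ρ (X (i0.succAbove j)) with hr
  set f : PowerSeries k →+* MvPowerSeries (Fin n) κ := C.comp (ρ.comp (zemb i0)) with hf
  have h1 : (Phi i0 ρ).comp (zemb i0) = f := by
    ext1 a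
    exact Phi_zemb i0 ρ a
  have h2 : ∀ Q : Polynomial (PowerSeries k),
      C (Q.eval₂ (ρ.comp (zemb i0)) r) = (Q.map f).eval (C r) := fun Q => by
    rw [Polynomial.hom_eval₂, Polynomial.eval_map]
  have h3 : Phi i0 ρ (P.eval₂ (zemb i0) (X (i0.succAbove j))) = (P.map f).eval (C r + X j) := by
    rw [Polynomial.hom_eval₂, h1, Phi_X, Polynomial.eval_map]
  obtain ⟨c, hc⟩ := Polynomial.binomExpansion (P.map f) (C r) (X j : MvPowerSeries (Fin n) κ)
  rw [h3, h2, h2, ← Polynomial.derivative_map, hc]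
  have h4 : (P.map f).eval (C r) + (Polynomial.derivative (P.map f)).eval (C r) * X j +
      c * X j ^ 2 - (P.map f).eval (C r) -
      (Polynomial.derivative (P.map f)).eval (C r) * X j = c * X j ^ 2 := by ring
  rw [h4]
  exact Ideal.mul_mem_left _ _ (pow_mem_mI (X_mem_mI j) 2)

end B5a
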