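import Pool.Agent.H.MP_b5a980_ag.LoA
import Pool.Agent.H.MP_b5a980_ag.PMA
import Pool.Agent.H.MP_b5a980_ag.TaB

set_option autoImplicit false
set_option linter.unusedSectionVars false
set_option linter.style.longLine false

/-!
Derivatives of `f` in the two worlds (MP_b5a980_ag, A6).
-/

namespace B5a

universe u v w

open MvPowerSeries

variable {n : ℕ} {k : Type u} [Field k]

/-- coefficientwise derivation of a polynomial with coefficients in `R` -/
theorem StB_pmap_embR {m : ℕ} {K : Type u} [Field K] (i : Fin m)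
    (A : Polynomial (MvPowerSeries (Fin m) K)) :
    pmap (derAdd (dF m K i)) (embR m K A) = embR m K (pmap (derAdd (pderiv K i)) A) := by
  ext l
  rw [coeff_pmap, derAdd_apply]
  unfold embR
  rw [Polynomial.coe_mapRingHom, Polynomial.coeff_map, Polynomial.coeff_map, coeff_pmap, dF_inc,
    derAdd_apply]

/-- Leibniz rule for polynomials with coefficients in `R` -/
theorem StB_leib {m : ℕ} {K : Type u} [Field K] (f : MvPowerSeries (Fin m) K) (i : Fin m)
    (A : Polynomial (MvPowerSeries (Fin m) K)) (p : FS m K) :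
    (pconn f).nab i (embR m K A * p) =
      embR m K (pmap (derAdd (pderiv K i)) A) * p + embR m K A * (pconn f).nab i p := by
  rw [pconn_nab, pconn_nab, pmap_mul, StB_pmap_embR]
  · ring
  · intro a b
    rw [derAdd_apply, derAdd_apply, derAdd_apply, Derivation.leibniz, smul_eq_mul, smul_eq_mul]
    ring

/-- `f^(s-r) = f f^(s-r-1)` -/
theorem StB_fz_succ {m : ℕ} {K : Type u} [Field K] (f : MvPowerSeries (Fin m) K) (hf : f ≠ 0)
    (j : ℤ) : fz f j = embR m K (Polynomial.C f) * fz f (j - 1) := by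
  unfold fz embR
  rw [Polynomial.coe_mapRingHom, Polynomial.map_C, ← Polynomial.C_mul]
  congr 1
  rw [zpow_sub_one₀ (inc_ne_zero hf)]
  field_simp [inc_ne_zero hf]

/-- one derivative -/
theorem StB_step {m : ℕ} {K : Type u} [Field K] (f : MvPowerSeries (Fin m) K) (hf : f ≠ 0)
    (i : Fin m) (A : Polynomial (MvPowerSeries (Fin m) K)) (j : ℤ) :
    (pconn f).nab i (embR m K A * fz f j) =
      embR m K (pmap (derAdd (pderiv K i)) A * Polynomial.C f +
        A * ((Polynomial.X + Polynomial.C (j : MvPowerSeries (Fin m) K)) *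
          Polynomial.C (pderiv K i f))) * fz f (j - 1) := by
  rw [StB_leib, pconn_nab_fz f hf, StB_fz_succ f hf j]
  simp only [map_mul, map_add]
  ring

/-- high powers -/
theorem StB_base {m : ℕ} {K : Type u} [Field K] (f : MvPowerSeries (Fin m) K) (hf : f ≠ 0)
    (r : ℕ) : fz f 1 = embR m K (Polynomial.C (f ^ (r + 1))) * fz f (-(r : ℤ)) := by
  unfold fz embR
  rw [Polynomial.coe_mapRingHom, Polynomial.map_C, ← Polynomial.C_mul]
  congr 1
  rw [map_pow, ← zpow_natCast, ← zpow_add₀ (inc_ne_zero hf)]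
  congr 1
  push_cast
  ring

variable [CharZero k] (i0 : Fin (n + 1)) (q : Ideal (RR n k)) [q.IsPrime]

/-- compatibility of the coefficientwise derivatives with the Taylor map -/
theorem StB_pmap_map (j : Fin n) (A : Polynomial (RR n k)) :
    (pmap (derAdd (pderiv k (i0.succAbove j))) A).map (Phi i0 (rho q)) =
      pmap (derAdd (pderiv (kap q) j)) (A.map (Phi i0 (rho q))) := by
  ext1 l
  rw [Polynomial.coeff_map, coeff_pmap, coeff_pmap, Polynomial.coeff_map, derAdd_apply,
    derAdd_apply, Phi_pderiv]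

theorem StB_up_zero (i0 : Fin (n + 1)) : up i0 (0 : Fin n →₀ ℕ) = 0 := by
  unfold up
  exact Finsupp.embDomain_zero _

/-- the same formula for the derivatives of `f` in the two worlds

Proof. Induction on the degree of `γ` for all `r ≥ |γ|` (as in `exists_pole`). `γ = 0`: `A = C (f^(r+1))`. Step: for `γ = γ' + e_j` and `A'` belonging to `γ'`, `r-1`: `A = C(f) * A'_j + (X - C (r-1)) * C(∂_(σ j) f) * A'` where `A'_j` is the coefficientwise `∂_(σ j)`-derivative (`pmap (derAdd (pderiv k (i0.succAbove j)))`); `up_add`, `up_single`, `nab_pw`, `pconn_nab_fz` in both worlds, `Phi_pderiv`, `pmap` commutes with `Polynomial.map Phi`. If `|γ| < r` multiply by a power of `C f` (or treat `r = |γ|` first). -/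
theorem exists_both (f : RR n k) (hf : f ≠ 0) (hf' : Phi i0 (rho q) f ≠ 0) (γ : Fin n →₀ ℕ) (r : ℕ)
    (hr : γ.degree ≤ r) : ∃ A : Polynomial (RR n k),
      (pconn f).pw (up i0 γ) (fz f 1) = embR (n + 1) k A * fz f (-(r : ℤ)) ∧
      (pconn (Phi i0 (rho q) f)).pw γ (fz (Phi i0 (rho q) f) 1) =
        embR n (kap q) (A.map (Phi i0 (rho q))) * fz (Phi i0 (rho q) f) (-(r : ℤ)) := by
  induction hd : γ.degree generalizing γ r with
  | zero =>
    have hγ : γ = 0 := (Finsupp.degree_eq_zero_iff γ).1 hd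
    subst hγ
    refine ⟨Polynomial.C (f ^ (r + 1)), ?_, ?_⟩
    · rw [StB_up_zero, Conn.pw_zero]
      exact StB_base f hf r
    · rw [Conn.pw_zero, Polynomial.map_C, map_pow]
      exact StB_base _ hf' r
  | succ d ih =>
    have hγ : γ ≠ 0 := by
      rintro rfl
      simp at hd
    obtain ⟨j, γ', h1, h2⟩ := Conn.exists_single_of_ne_zero hγ
    obtain ⟨r', rfl⟩ : ∃ r', r = r' + 1 := ⟨r - 1, by omega⟩
    obtain ⟨A, hA, hA'⟩ := ih γ' r' (by omega) (by omega)
    have hr' : (-((r' + 1 : ℕ) : ℤ)) = -(r' : ℤ) - 1 := by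
      push_cast
      ring
    have h3 : Phi i0 (rho q) ((-(r' : ℤ) : ℤ) : RR n k) =
        ((-(r' : ℤ) : ℤ) : MvPowerSeries (Fin n) (kap q)) := map_intCast _ _
    refine ⟨pmap (derAdd (pderiv k (i0.succAbove j))) A * Polynomial.C f +
        A * ((Polynomial.X + Polynomial.C ((-(r' : ℤ) : ℤ) : RR n k)) *
          Polynomial.C (pderiv k (i0.succAbove j) f)), ?_, ?_⟩
    · rw [h1, up_add, up_single, ← Conn.nab_pw, hA, StB_step f hf, hr']
    · rw [h1, ← Conn.nab_pw, hA', StB_step _ hf', hr']
      congr 2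
      rw [Polynomial.map_add, Polynomial.map_mul, Polynomial.map_mul, Polynomial.map_mul,
        Polynomial.map_add, Polynomial.map_C, Polynomial.map_C, Polynomial.map_C, Polynomial.map_X,
        StB_pmap_map, Phi_pderiv, h3]

end B5a
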