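import Pool.Agent.H.MP_b5a980_ag.LoE
import Pool.Agent.H.MP_b5a980_ag.PMB
import Pool.Agent.H.MP_b5a980_ag.SeB
import Pool.Agent.H.MP_b5a980_ag.StB

set_option autoImplicit false
set_option linter.unusedSectionVars false
set_option linter.style.longLine false

/-!
Descent of the functional equation (MP_b5a980_ag, A6).
-/

namespace B5a

universe u v w

open MvPowerSeries

variable {n : ℕ} {k : Type u} [Field k]

/-- `f^(s-r)` times `f^r` is `f^s`. -/
theorem StC_fz_mul {f : MvPowerSeries (Fin n) k} (hf : f ≠ 0) (r : ℕ) :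
    fz f (-(r : ℤ)) * embR n k (Polynomial.C (f ^ r)) = 1 := by
  have h1 : inc n k f ≠ 0 := inc_ne_zero hf
  rw [fz, embR, Polynomial.coe_mapRingHom, Polynomial.map_C, ← Polynomial.C_mul, map_pow,
    zpow_neg, zpow_natCast, inv_mul_cancel₀ (pow_ne_zero r h1), Polynomial.C_1]

/-- Splitting the first factors of a sum of products of polynomials into monomials. -/
theorem StC_split {S : Type u} [CommRing S] {ι : Type v} (G : Finset ι) (a A : ι → Polynomial S)
    (N : ℕ) (hN : ∀ γ ∈ G, (a γ).natDegree < N) :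
    ∑ γ ∈ G, a γ * A γ = ∑ p ∈ G ×ˢ Finset.range N,
      Polynomial.C ((a p.1).coeff p.2) * (Polynomial.X ^ p.2 * A p.1) := by
  rw [Finset.sum_product]
  refine Finset.sum_congr rfl fun γ hγ => ?_
  conv_lhs => rw [(a γ).as_sum_range' N (hN γ hγ), Finset.sum_mul]
  refine Finset.sum_congr rfl fun j _ => ?_
  rw [← Polynomial.C_mul_X_pow_eq_monomial, mul_assoc]

/-- `r • p` is the product with a constant polynomial. -/
theorem StC_smul (r : MvPowerSeries (Fin n) k) (p : FS n k) :
    r • p = embR n k (Polynomial.C r) * p := by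
  rw [embR, Polynomial.coe_mapRingHom, Polynomial.map_C]
  ext i
  rw [Polynomial.coeff_smul, Polynomial.coeff_C_mul, Algebra.smul_def]

section

variable [CharZero k] (i0 : Fin (n + 1)) (q : Ideal (RR n k)) [q.IsPrime]

variable (hz : X i0 ∉ q) (e : ℕ) (he : mI (n + 1) k e ≤ q ⊔ Ideal.span {X i0})
include hz he

/-- Descent of a system of equations between polynomials. -/
theorem StC_poly {ι : Type v} (T : Finset ι) (b : Polynomial (RR n k)) (A : ι → Polynomial (RR n k))
    (a : ι → MvPowerSeries (Fin n) (kap q))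
    (h : b.map (Phi i0 (rho q)) = ∑ p ∈ T, Polynomial.C (a p) * (A p).map (Phi i0 (rho q))) :
    ∃ g : RR n k, g ∉ q ∧ ∃ c : ι → RR n k,
      Polynomial.C g * b = ∑ p ∈ T, Polynomial.C (c p) * A p := by
  classical
  obtain ⟨Φ, hΦ, hs, hk⟩ := exists_phiq i0 q hz e he
  have hM : ∃ M : ℕ, b.natDegree < M ∧ ∀ p ∈ T, (A p).natDegree < M := by
    refine ⟨b.natDegree + ∑ p ∈ T, (A p).natDegree + 1, by omega, fun p hp => ?_⟩
    have h1 : (A p).natDegree ≤ ∑ p ∈ T, (A p).natDegree :=
      Finset.single_le_sum (f := fun p => (A p).natDegree) (fun _ _ => Nat.zero_le _) hp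
    omega
  obtain ⟨M, hMb, hMA⟩ := hM
  obtain ⟨x, hx⟩ := descent Φ hs hk (M := M) T
    (fun m => algebraMap (RR n k) (Localization.AtPrime q) (b.coeff m))
    (fun p m => algebraMap (RR n k) (Localization.AtPrime q) ((A p).coeff m)) a (by
      intro m
      have h1 := congrArg (fun P => Polynomial.coeff P (m : ℕ)) h
      simp only [Polynomial.finsetSum_coeff, Polynomial.coeff_C_mul, Polynomial.coeff_map] at h1
      simp only [hΦ]
      exact h1)
  obtain ⟨g, hg⟩ := IsLocalization.exist_integer_multiples q.primeCompl T x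
  choose! c hc using hg
  refine ⟨(g : RR n k), g.2, c, ?_⟩
  have hinj : Function.Injective (algebraMap (RR n k) (Localization.AtPrime q)) :=
    IsLocalization.injective (M := q.primeCompl) _ q.primeCompl_le_nonZeroDivisors
  ext1 m
  rw [Polynomial.coeff_C_mul, Polynomial.finsetSum_coeff]
  by_cases hm : m < M
  · apply hinj
    have h2 := hx ⟨m, hm⟩
    simp only at h2
    rw [map_mul, h2, map_sum, Finset.mul_sum]
    refine Finset.sum_congr rfl fun p hp => ?_
    rw [Polynomial.coeff_C_mul, map_mul, hc p hp, Algebra.smul_def, mul_assoc]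
  · rw [Polynomial.coeff_eq_zero_of_natDegree_lt (by omega), mul_zero]
    refine (Finset.sum_eq_zero fun p hp => ?_).symm
    have h3 := hMA p hp
    rw [Polynomial.coeff_C_mul, Polynomial.coeff_eq_zero_of_natDegree_lt (by omega), mul_zero]

/-- The descent of the functional equation. -/
theorem curve_descent (f : RR n k) (hf : f ≠ 0) (b0 : Polynomial k)
    (h : emb n (kap q) (b0.map (algebraMap k (kap q))) ∈ ND (Phi i0 (rho q) f) 1) :
    ∃ g : RR n k, g ∉ q ∧ emb (n + 1) k b0 * (g • (1 : FS (n + 1) k)) ∈ ND f 1 := by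
  classical
  have hF : Phi i0 (rho q) f ≠ 0 := fun h0 =>
    hf (Phi_injective i0 q hz e he (by rw [h0, map_zero]))
  obtain ⟨r, a, ha⟩ := exists_sum_of_mem_ND (Phi i0 (rho q) f) 1 h
  set G : Finset (Fin n →₀ ℕ) :=
    (Finset.range (r + 1)).biUnion fun d => Finset.finsuppAntidiag Finset.univ d with hG
  have hdeg : ∀ γ ∈ G, γ.degree ≤ r := by
    intro γ hγ
    rw [hG, Finset.mem_biUnion] at hγ
    obtain ⟨d, hd, h1⟩ := hγ
    rw [Finset.mem_finsuppAntidiag] at h1
    rw [Finset.mem_range] at hd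
    have h2 : γ.degree = d := by
      rw [Finsupp.degree_eq_sum]
      exact h1.1
    omega
  have hex : ∀ γ ∈ G, ∃ A : Polynomial (RR n k),
      (pconn f).pw (up i0 γ) (fz f 1) = embR (n + 1) k A * fz f (-(r : ℤ)) ∧
      (pconn (Phi i0 (rho q) f)).pw γ (fz (Phi i0 (rho q) f) 1) =
        embR n (kap q) (A.map (Phi i0 (rho q))) * fz (Phi i0 (rho q) f) (-(r : ℤ)) :=
    fun γ hγ => exists_both i0 q f hf hF γ r (hdeg γ hγ)
  choose! A hA using hex
  -- the identity of polynomials over `κ[[y]]`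
  have hpoly : (b0.map (C : k →+* RR n k) * Polynomial.C (f ^ r)).map (Phi i0 (rho q)) =
      ∑ γ ∈ G, a γ * (A γ).map (Phi i0 (rho q)) := by
    have h1 : (b0.map (C : k →+* RR n k)).map (Phi i0 (rho q)) =
        (b0.map (algebraMap k (kap q))).map
          (MvPowerSeries.C (σ := Fin n) (R := kap q)) := by
      ext1 i
      rw [Polynomial.coeff_map, Polynomial.coeff_map, Polynomial.coeff_map, Polynomial.coeff_map,
        Phi_C, rho_C]
    apply embR_injective (n := n) (k := kap q)
    rw [Polynomial.map_mul, h1, map_mul, ← emb_eq_embR, ha, Finset.sum_mul, map_sum,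
      Polynomial.map_C, map_pow]
    refine Finset.sum_congr rfl fun γ hγ => ?_
    rw [(hA γ hγ).2, map_mul, mul_assoc, mul_assoc, StC_fz_mul hF, mul_one]
  have hN : ∃ N : ℕ, ∀ γ ∈ G, (a γ).natDegree < N := by
    refine ⟨∑ γ ∈ G, (a γ).natDegree + 1, fun γ hγ => ?_⟩
    have h1 : (a γ).natDegree ≤ ∑ γ ∈ G, (a γ).natDegree :=
      Finset.single_le_sum (f := fun γ => (a γ).natDegree) (fun _ _ => Nat.zero_le _) hγ
    omega
  obtain ⟨N, hN⟩ := hN
  rw [StC_split G a (fun γ => (A γ).map (Phi i0 (rho q))) N hN] at hpoly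
  obtain ⟨g, hg, c, hc⟩ := StC_poly i0 q hz e he (G ×ˢ Finset.range N)
    (b0.map (C : k →+* RR n k) * Polynomial.C (f ^ r)) (fun p => Polynomial.X ^ p.2 * A p.1)
    (fun p => (a p.1).coeff p.2) (by
      rw [hpoly]
      refine Finset.sum_congr rfl fun p _ => ?_
      rw [Polynomial.map_mul, Polynomial.map_pow, Polynomial.map_X])
  refine ⟨g, hg, ?_⟩
  have hkey : emb (n + 1) k b0 * (g • (1 : FS (n + 1) k)) =
      ∑ p ∈ G ×ˢ Finset.range N, c p • (Polynomial.X ^ p.2 *
        (pconn f).pw (up i0 p.1) (fz f 1)) := by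
    have h2 := congrArg (fun P => embR (n + 1) k P * fz f (-(r : ℤ))) hc
    simp only [map_mul, map_sum, Finset.sum_mul] at h2
    rw [← emb_eq_embR] at h2
    have h3 : emb (n + 1) k b0 * (g • (1 : FS (n + 1) k)) =
        embR (n + 1) k (Polynomial.C g) * (emb (n + 1) k b0 *
          embR (n + 1) k (Polynomial.C (f ^ r))) * fz f (-(r : ℤ)) := by
      rw [mul_assoc, mul_assoc, mul_comm (embR (n + 1) k (Polynomial.C (f ^ r))),
        StC_fz_mul hf, StC_smul, mul_one, mul_one, mul_comm]
    rw [h3, h2]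
    refine Finset.sum_congr rfl fun p hp => ?_
    have hp1 : p.1 ∈ G := (Finset.mem_product.mp hp).1
    rw [(hA p.1 hp1).1, StC_smul, map_pow]
    have h4 : embR (n + 1) k (Polynomial.X : Polynomial (RR n k)) = Polynomial.X := by
      rw [embR, Polynomial.coe_mapRingHom, Polynomial.map_X]
    rw [h4]
    ring
  rw [hkey]
  exact Submodule.sum_mem _ fun p _ => Submodule.smul_mem _ _ (Submodule.subset_span ⟨_, _, rfl⟩)

end

end B5a
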