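import Pool.Agent.H.MP_b5a980_ag.CoD
import Pool.Agent.H.MP_b5a980_ag.LoF
import Pool.Agent.H.MP_b5a980_ag.StA
import Pool.Agent.H.MP_b5a980_ag.StC

set_option autoImplicit false
set_option linter.unusedSectionVars false
set_option linter.style.longLine false

/-!
The induction step (MP_b5a980_ag, A6).
-/

namespace B5a

universe u v w

open MvPowerSeries

variable {n : ℕ} {k : Type u} [Field k]

theorem Step_mkDer {κ : Type v} [Field κ] (d : κ → κ) (hadd : ∀ x y, d (x + y) = d x + d y)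
    (hmul : ∀ x y, d (x * y) = x * d y + y * d x) :
    ∃ δ : Derivation ℤ κ κ, ∀ x, δ x = d x :=
  ⟨Derivation.mk' (AddMonoidHom.mk' d hadd).toIntLinearMap hmul, fun _ => rfl⟩

section

variable [CharZero k] (i0 : Fin (n + 1)) (q : Ideal (RR n k)) [q.IsPrime]

variable (hz : X i0 ∉ q) (e : ℕ) (he : mI (n + 1) k e ≤ q ⊔ Ideal.span {X i0})
include hz he

/-- Proof. `exists_min` for `F = Phi i0 (rho q) f ≠ 0` over `κ = kap q`: monic `b`. `exists_der`: `δ`, and `constants`: `δ (b.coeff i) = 0`, so all coefficients of `b` are algebraic over `k`. `exists_dvd_map`: `b ∣ b0.map (algebraMap k κ)`, so `emb (b0.map ..) ∈ ND F 1` (`emb_mul_mem_ND`); `curve_descent`. -/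
theorem curve_step (f : RR n k) (hf : f ≠ 0) (h : HasBS n (kap q) (Phi i0 (rho q) f)) :
    ∃ (b0 : Polynomial k) (g : RR n k), b0 ≠ 0 ∧ g ∉ q ∧
      emb (n + 1) k b0 * (g • (1 : FS (n + 1) k)) ∈ ND f 1 := by
  have hF : Phi i0 (rho q) f ≠ 0 := by
    intro h0
    apply hf
    apply Phi_injective i0 q hz e he
    rw [h0, map_zero]
  obtain ⟨b, hbm, hb, hmin⟩ := exists_min (Phi i0 (rho q) f) h
  obtain ⟨δ, hδ⟩ := exists_der i0 q hz e he
  obtain ⟨δ', hδ'⟩ := Step_mkDer (κ := kap q) (fun x => δ x) (fun x y => map_add δ x y)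
    (fun x y => δ.leibniz x y)
  have hc : ∀ i, δ (b.coeff i) = 0 := fun i => by
    have h2 := constants (Phi i0 (rho q) f) hF δ' hbm hb hmin i
    rwa [hδ'] at h2
  obtain ⟨b0, hb0, c, hc'⟩ := exists_dvd_map (k := k) b hbm.ne_zero fun i => hδ _ (hc i)
  have h1 : emb n (kap q) (b0.map (algebraMap k (kap q))) ∈ ND (Phi i0 (rho q) f) 1 := by
    rw [hc', mul_comm, map_mul]
    exact emb_mul_mem_ND _ 1 c hb
  obtain ⟨g, hg, hg'⟩ := curve_descent i0 q hz e he f hf b0 h1
  exact ⟨b0, g, hb0, hg, hg'⟩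

end

/-- the ideal of all `g` with `b g f^s` in `N_1` for some nonzero `b`

Proof. Fill the proofs: for sums take the product of the two polynomials (`emb_mul_mem_ND`), `(g + g') • 1 = g • 1 + g' • 1`. -/
noncomputable def bIdeal (f : MvPowerSeries (Fin n) k) : Ideal (MvPowerSeries (Fin n) k) where
  carrier := {g | ∃ b : Polynomial k, b ≠ 0 ∧ emb n k b * (g • (1 : FS n k)) ∈ ND f 1}
  add_mem' := by
    rintro x y ⟨b1, hb1, h1⟩ ⟨b2, hb2, h2⟩
    refine ⟨b1 * b2, mul_ne_zero hb1 hb2, ?_⟩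
    have e1 : emb n k (b1 * b2) * ((x + y) • (1 : FS n k)) =
        emb n k b2 * (emb n k b1 * (x • (1 : FS n k))) +
          emb n k b1 * (emb n k b2 * (y • (1 : FS n k))) := by
      rw [map_mul, add_smul]
      ring
    rw [e1]
    exact Submodule.add_mem _ (emb_mul_mem_ND f 1 b2 h1) (emb_mul_mem_ND f 1 b1 h2)
  zero_mem' := ⟨1, one_ne_zero, by simp⟩
  smul_mem' := by
    rintro c x ⟨b, hb, h⟩
    refine ⟨b, hb, ?_⟩
    rw [smul_eq_mul, mul_smul, mul_smul_comm]
    exact Submodule.smul_mem _ _ h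

/-- a common polynomial for a finitely generated ideal

Proof. `mI a` is generated by finitely many monomials `x^β`, `|β| = a` (`exists_sum_mI` with remaining exponent 0); take the product of the polynomials `b_β`. `emb b * (r • 1)` with `r = Σ c_β x^β` is `Σ c_β • (emb b * (x^β • 1))`. -/
theorem exists_common (f : MvPowerSeries (Fin n) k) (a : ℕ) (h : mI n k a ≤ bIdeal f) :
    ∃ b : Polynomial k, b ≠ 0 ∧ ∀ r ∈ mI n k a, emb n k b * (r • (1 : FS n k)) ∈ ND f 1 := by
  classical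
  have hex : ∀ β : Fin n →₀ ℕ, ∃ b : Polynomial k, b ≠ 0 ∧
      (a ≤ β.degree → emb n k b * ((monomial β (1 : k)) • (1 : FS n k)) ∈ ND f 1) := by
    intro β
    by_cases hβ : a ≤ β.degree
    · obtain ⟨b, hb, hb'⟩ := h (monomial_mem_mI hβ (1 : k))
      exact ⟨b, hb, fun _ => hb'⟩
    · exact ⟨1, one_ne_zero, fun h' => absurd h' hβ⟩
  choose b hb hb' using hex
  refine ⟨∏ β ∈ Finset.finsuppAntidiag Finset.univ a, b β,
    Finset.prod_ne_zero_iff.2 fun β _ => hb β, fun r hr => ?_⟩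
  obtain ⟨c, -, hr'⟩ := exists_sum_mI (a := a) (e := 0) (g := r) (by rwa [add_zero])
  rw [hr', Finset.sum_smul, Finset.mul_sum]
  refine Submodule.sum_mem _ fun β hβ => ?_
  have hβ' : a ≤ β.degree := le_of_eq (MIB_mem_antidiag.1 hβ).symm
  rw [mul_comm (monomial β (1 : k)) (c β), mul_smul, mul_smul_comm]
  refine Submodule.smul_mem _ _ ?_
  rw [← Finset.mul_prod_erase _ b hβ, map_mul, mul_comm (emb n k (b β)), mul_assoc]
  exact emb_mul_mem_ND f 1 _ (hb' β hβ')

end B5a
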