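import Pool.Agent.H.MP_b5a980_ag.Gen
import Pool.Agent.H.MP_b5a980_ag.Step

set_option autoImplicit false
set_option linter.unusedSectionVars false
set_option linter.style.longLine false

/-!
The functional equation for all formal power series (MP_b5a980_ag, part A).
-/

namespace B5a

universe u v w

open MvPowerSeries

variable {n : ℕ} {k : Type u} [Field k]

/-- The functional equation for all formal power series, all fields of characteristic zero. -/
theorem bs_all (n : ℕ) : ∀ (k : Type u) [Field k] [CharZero k] (f : MvPowerSeries (Fin n) k),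
    f ≠ 0 → HasBS n k f := by
  induction n with
  | zero =>
    intro k _ _ f hf
    refine hasBS_of_isUnit ?_
    rcases isUnit_or_mem_mI_one f with h | h
    · exact h
    · exfalso
      apply hf
      rw [mem_mI_one] at h
      ext β
      have : β = 0 := Subsingleton.elim _ _
      rw [this]
      simpa using h
  | succ n ih =>
    intro k _ _ f hf
    by_cases hI : ∃ a, mI (n + 1) k a ≤ bIdeal f
    · obtain ⟨a, ha⟩ := hI
      obtain ⟨b, hb0, hb⟩ := exists_common f a ha
      exact hasBS_of_H0 (Nat.succ_pos n) f hf a b hb0 hb
    · push Not at hI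
      exfalso
      obtain ⟨q, hq1, hq2, i0, hz, e, he⟩ := exists_curve_prime (bIdeal f) hI
      haveI := hq2
      have hf' : Phi i0 (rho q) f ≠ 0 := by
        intro h
        apply hf
        apply Phi_injective i0 q hz e he
        rw [h, map_zero]
      obtain ⟨b0, g, hb0, hg, hg2⟩ := curve_step i0 q hz e he f hf (ih (kap q) _ hf')
      exact hg (hq1 ⟨b0, hb0, hg2⟩)

/-- Bernstein-Sato for formal power series, the form used later. -/
theorem bs_final [CharZero k] (f : MvPowerSeries (Fin n) k) (hf : f ≠ 0) :
    ∃ m r : ℕ, ∀ i : ℕ, inc n k f ^ (-((m : ℤ) + i + 1)) ∈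
      (std n k).Fil r (inc n k f ^ (-((m : ℤ) + i))) :=
  (bs_all n k f hf).final hf

end B5a
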