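import Pool.Agent.H.MP_b5a980_ag.Fo0

set_option autoImplicit false
set_option linter.unusedSectionVars false
set_option linter.style.longLine false

/-!
Complexes of modules with connection: definitions (MP_b5a980_ag, part D).
-/

namespace B5a

universe u v w

open MvPowerSeries

/-- A complex of modules with connection: a module `Γ` over `R = K[[x_1..x_n]]` with connection, a
square-zero `R`-linear operator `δ` commuting with the connection, and submodules `G q` (the elements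
of degree `q`) with `δ (G q) ⊆ G (q+1)`. -/
structure BObj (n : ℕ) (K : Type u) [Field K] where
  Γ : Type u
  [ag : AddCommGroup Γ]
  [mR : Module (MvPowerSeries (Fin n) K) Γ]
  [mK : Module K Γ]
  [st : IsScalarTower K (MvPowerSeries (Fin n) K) Γ]
  C : Conn n K Γ
  δ : Γ →ₗ[MvPowerSeries (Fin n) K] Γ
  G : ℤ → Submodule (MvPowerSeries (Fin n) K) Γ
  δδ : ∀ x, δ (δ x) = 0
  δC : ∀ i x, δ (C.nab i x) = C.nab i (δ x)
  δG : ∀ q x, x ∈ G q → δ x ∈ G (q + 1)
  GC : ∀ q i x, x ∈ G q → C.nab i x ∈ G q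

attribute [instance] BObj.ag BObj.mR BObj.mK BObj.st

/-- The differential `δ` on forms, with sign: `(-1)^|I| δ`. -/
noncomputable def bsd {n : ℕ} {K : Type u} [Field K] (X : BObj n K) : Fm n X.Γ →ₗ[K] Fm n X.Γ where
  toFun φ := fun I => ((-1 : ℤ) ^ I.card) • X.δ (φ I)
  map_add' := by
    intro x y
    funext I
    simp only [Pi.add_apply, map_add, smul_add]
  map_smul' := by
    intro c x
    funext I
    simp only [Pi.smul_apply, RingHom.id_apply, LinearMap.map_smul_of_tower]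
    rw [smul_comm]

/-- Forms of total degree `m` in the step `p`. -/
noncomputable def objF {n : ℕ} {K : Type u} [Field K] (X : BObj n K) (p m : ℤ) :
    Submodule K (Fm n X.Γ) where
  carrier := {φ | ∀ I, φ I ∈ X.G (m - I.card) ∧ ((I.card : ℤ) < p → φ I = 0)}
  add_mem' := by
    intro x y hx hy I
    refine ⟨Submodule.add_mem _ (hx I).1 (hy I).1, fun h => ?_⟩
    rw [Pi.add_apply, (hx I).2 h, (hy I).2 h, add_zero]
  zero_mem' := fun I => ⟨Submodule.zero_mem _, fun _ => rfl⟩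
  smul_mem' := by
    intro c x hx I
    refine ⟨?_, fun h => ?_⟩
    · have h1 : (c • x) I = (C c : MvPowerSeries (Fin n) K) • x I := by
        rw [Pi.smul_apply]
        conv_lhs => rw [← one_smul (MvPowerSeries (Fin n) K) (x I), ← smul_assoc]
        rw [MvPowerSeries.smul_eq_C_mul, mul_one]
      rw [h1]
      exact Submodule.smul_mem _ _ (hx I).1
    · rw [Pi.smul_apply, (hx I).2 h, smul_zero]

/-- A quasi-isomorphism. -/
structure QIso {n : ℕ} {K : Type u} [Field K] (X Y : BObj n K)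
    (φ : X.Γ →ₗ[MvPowerSeries (Fin n) K] Y.Γ) : Prop where
  nab : ∀ i x, φ (X.C.nab i x) = Y.C.nab i (φ x)
  del : ∀ x, φ (X.δ x) = Y.δ (φ x)
  gr : ∀ q x, x ∈ X.G q → φ x ∈ Y.G q
  inj : ∀ q x, x ∈ X.G q → X.δ x = 0 → (∃ y ∈ Y.G (q - 1), φ x = Y.δ y) →
    ∃ z ∈ X.G (q - 1), x = X.δ z
  surj : ∀ q y, y ∈ Y.G q → Y.δ y = 0 →
    ∃ x ∈ X.G q, X.δ x = 0 ∧ ∃ z ∈ Y.G (q - 1), y = φ x + Y.δ z

/-- Chains of quasi-isomorphisms. -/
inductive Zig {n : ℕ} {K : Type u} [Field K] : BObj n K → BObj n K → Prop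
  | of {X Y : BObj n K} (φ : X.Γ →ₗ[MvPowerSeries (Fin n) K] Y.Γ) (h : QIso X Y φ) : Zig X Y
  | symm {X Y : BObj n K} (h : Zig X Y) : Zig Y X
  | trans {X Y Z : BObj n K} (h : Zig X Y) (h' : Zig Y Z) : Zig X Z

end B5a
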