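import Mathlib

set_option autoImplicit false
set_option linter.unusedSectionVars false
set_option linter.style.longLine false

/-!
Spectral sequences of filtered complexes: definitions (MP_b5a980_ag).
-/

namespace B5a

universe u v w

/-- A filtered complex of `K`-vector spaces, presented inside one vector space `T`: the differential
`d` and, for integers `p, m`, the subspace `F p m` of the elements of total degree `m` in the `p`-th
step of the filtration. -/
structure FCx (K : Type u) [Field K] (T : Type v) [AddCommGroup T] [Module K T] where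
  d : T →ₗ[K] T
  F : ℤ → ℤ → Submodule K T
  dd : ∀ (p m : ℤ) (x : T), x ∈ F p m → d (d x) = 0
  anti : ∀ p m : ℤ, F (p + 1) m ≤ F p m
  dF : ∀ (p m : ℤ) (x : T), x ∈ F p m → d x ∈ F p (m + 1)

namespace FCx

variable {K : Type u} [Field K] {T : Type v} [AddCommGroup T] [Module K T] (X : FCx K T)

/-- `Z_r` in filtration degree `p` and total degree `m`: elements of `F^p` whose differential lies in
`F^(p+r)`. -/
def Z (r p m : ℤ) : Submodule K T := X.F p m ⊓ (X.F (p + r) (m + 1)).comap X.d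

/-- `B_r = Z_(r-1)^(p+1) + d Z_(r-1)^(p-r+1)`. -/
def B (r p m : ℤ) : Submodule K T :=
  X.Z (r - 1) (p + 1) m ⊔ (X.Z (r - 1) (p - r + 1) (m - 1)).map X.d

/-- The page `E_r = Z_r / B_r` in filtration degree `p` and total degree `m`
(so of bidegree `(p, m - p)`). -/
abbrev E (r p m : ℤ) : Type v := (X.Z r p m) ⧸ (X.B r p m).comap (X.Z r p m).subtype

/-- the class in `E_r` of an element of `Z_r` -/
def cls (r p m : ℤ) (z : T) (hz : z ∈ X.Z r p m) : X.E r p m :=
  Submodule.Quotient.mk ⟨z, hz⟩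

theorem F_le {p p' : ℤ} (h : p ≤ p') (m : ℤ) : X.F p' m ≤ X.F p m := by
  obtain ⟨k, rfl⟩ := Int.le.dest h
  induction k with
  | zero => simp
  | succ k ih =>
    refine le_trans ?_ (ih (by omega))
    have := X.anti (p + k) m
    have h2 : p + ((k + 1 : ℕ) : ℤ) = p + k + 1 := by push_cast; ring
    rw [h2]
    exact this

theorem d_mem_Z {r p m : ℤ} {x : T} (hx : x ∈ X.Z r p m) : X.d x ∈ X.Z r (p + r) (m + 1) := by
  refine ⟨hx.2, ?_⟩
  have h : X.d (X.d x) = 0 := X.dd p m x hx.1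
  show X.d (X.d x) ∈ X.F (p + r + r) (m + 1 + 1)
  rw [h]
  exact Submodule.zero_mem _

theorem d_mem_B {r p m : ℤ} {x : T} (hx : x ∈ X.B r p m) : X.d x ∈ X.B r (p + r) (m + 1) := by
  obtain ⟨a, ha, b, hb, rfl⟩ := Submodule.mem_sup.mp hx
  obtain ⟨c, hc, rfl⟩ := hb
  have h2 : X.d (X.d c) = 0 := X.dd _ _ c hc.1
  rw [map_add, h2, add_zero]
  refine Submodule.mem_sup_right ⟨a, ?_, rfl⟩
  have e1 : p + r - r + 1 = p + 1 := by ring
  have e2 : m + 1 - 1 = m := by ring
  rw [e1, e2]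
  exact ha

/-- `d` on `Z_r` -/
def dZ (r p m : ℤ) : X.Z r p m →ₗ[K] X.Z r (p + r) (m + 1) :=
  X.d.restrict fun _ hx => X.d_mem_Z hx

/-- The differential `d_r : E_r^(p) → E_r^(p+r)`, raising the total degree by one. -/
def dE (r p m : ℤ) : X.E r p m →ₗ[K] X.E r (p + r) (m + 1) :=
  Submodule.mapQ _ _ (X.dZ r p m) fun x hx => X.d_mem_B (x := (x : T)) hx

/-- All elements of total degree `m`. -/
def Tot (m : ℤ) : Submodule K T := ⨆ p, X.F p m

/-- cocycles of total degree `m` -/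
def Cyc (m : ℤ) : Submodule K T := X.Tot m ⊓ LinearMap.ker X.d

/-- coboundaries of total degree `m` -/
def Bd (m : ℤ) : Submodule K T := (X.Tot (m - 1)).map X.d

/-- The abutment: the cohomology of the total complex. -/
abbrev H (m : ℤ) : Type v := (X.Cyc m) ⧸ (X.Bd m).comap (X.Cyc m).subtype

/-- cohomology class -/
def hcls (m : ℤ) (z : T) (hz : z ∈ X.Cyc m) : X.H m := Submodule.Quotient.mk ⟨z, hz⟩

/-- The filtration of the abutment: classes of cocycles in `F^p`. -/
def FH (p m : ℤ) : Submodule K (X.H m) :=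
  ((X.F p m ⊓ LinearMap.ker X.d).comap (X.Cyc m).subtype).map (Submodule.mkQ _)

/-- The filtration is `F^0` for `p ≤ 0` and zero for `p > n`. -/
def Bounded (n : ℤ) : Prop :=
  (∀ p m, p ≤ 0 → X.F p m = X.F 0 m) ∧ ∀ p m, n < p → X.F p m = ⊥

end FCx

/-- Isomorphism of the spectral sequences of two filtered complexes from `E_2` on, together with
the filtered abutments: `K`-linear isomorphisms of all pages `E_r`, `r ≥ 2`, commuting with the
differentials, compatible with the passage from a page to the next one, isomorphisms of the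
abutments respecting the filtrations, and compatible with the isomorphisms of the pages for large
`r` (where `E_r` is the graded space of the abutment). -/
structure SSIso {K : Type u} [Field K] {T : Type v} [AddCommGroup T] [Module K T] {T' : Type w}
    [AddCommGroup T'] [Module K T'] (X : FCx K T) (Y : FCx K T') where
  e : ∀ r : ℤ, 2 ≤ r → ∀ p m : ℤ, X.E r p m ≃ₗ[K] Y.E r p m
  comm : ∀ (r : ℤ) (hr : 2 ≤ r) (p m : ℤ) (x : X.E r p m),
    e r hr (p + r) (m + 1) (X.dE r p m x) = Y.dE r p m (e r hr p m x)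
  turn : ∀ (r : ℤ) (hr : 2 ≤ r) (hr1 : 2 ≤ r + 1) (p m : ℤ) (z : T) (h : z ∈ X.Z r p m)
    (h1 : z ∈ X.Z (r + 1) p m) (z' : T') (h' : z' ∈ Y.Z r p m) (h1' : z' ∈ Y.Z (r + 1) p m),
    e r hr p m (X.cls r p m z h) = Y.cls r p m z' h' →
    e (r + 1) hr1 p m (X.cls (r + 1) p m z h1) = Y.cls (r + 1) p m z' h1'
  h : ∀ m : ℤ, X.H m ≃ₗ[K] Y.H m
  hF : ∀ p m : ℤ, (X.FH p m).map (h m : X.H m →ₗ[K] Y.H m) = Y.FH p m
  lim : ∀ (p m : ℤ) (z : T) (hz : z ∈ X.Cyc m) (z' : T') (hz' : z' ∈ Y.Cyc m),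
    z ∈ X.F p m → z' ∈ Y.F p m → h m (X.hcls m z hz) - Y.hcls m z' hz' ∈ Y.FH (p + 1) m →
    ∃ r0 : ℤ, ∀ (r : ℤ) (hr : 2 ≤ r), r0 ≤ r → ∀ (k : z ∈ X.Z r p m) (k' : z' ∈ Y.Z r p m),
      e r hr p m (X.cls r p m z k) = Y.cls r p m z' k'

end B5a
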