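import Pool.Agent.H.MP_b5a980_ag.Bo0
import Pool.Agent.H.MP_b5a980_ag.FoB
import Pool.Agent.H.MP_b5a980_ag.SS0

set_option autoImplicit false
set_option linter.unusedSectionVars false
set_option linter.style.longLine false

/-!
The filtered complex of a complex of modules with connection (MP_b5a980_ag, part D).
-/

namespace B5a

universe u v w

open MvPowerSeries

variable {n : ℕ} {K : Type u} [Field K]

theorem bsd_bsd (X : BObj n K) (φ : Fm n X.Γ) : bsd X (bsd X φ) = 0 := by
  funext I
  change ((-1 : ℤ) ^ I.card) • X.δ (((-1 : ℤ) ^ I.card) • X.δ (φ I)) = 0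
  rw [map_zsmul, X.δδ, smul_zero, smul_zero]

theorem BoA_zz {M : Type*} [AddCommGroup M] (a : ℤ) (k : ℕ) (x : M) :
    a • (-1 : ℤ) ^ k • x = -((-1 : ℤ) ^ (k + 1) • a • x) := by
  rw [pow_succ, mul_neg_one, neg_smul, neg_neg, smul_comm]

/-- Proof. As `dR_sdel` in the file CeA. -/
theorem dR_bsd (X : BObj n K) (φ : Fm n X.Γ) : dR X.C (bsd X φ) = - bsd X (dR X.C φ) := by
  funext I
  change ∑ i ∈ I, sg i I • X.C.nab i (((-1 : ℤ) ^ (I.erase i).card) • X.δ (φ (I.erase i))) =
    -(((-1 : ℤ) ^ I.card) • X.δ (∑ i ∈ I, sg i I • X.C.nab i (φ (I.erase i))))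
  rw [map_sum, Finset.smul_sum, ← Finset.sum_neg_distrib]
  refine Finset.sum_congr rfl fun i hi => ?_
  obtain ⟨m, hm⟩ : ∃ m, I.card = m + 1 :=
    ⟨I.card - 1, by have := Finset.card_pos.2 ⟨i, hi⟩; omega⟩
  rw [map_zsmul, map_zsmul, X.δC, Finset.card_erase_of_mem hi, hm, Nat.add_sub_cancel]
  exact BoA_zz _ m _

theorem BoA_d (X : BObj n K) (φ : Fm n X.Γ) (I : Finset (Fin n)) :
    (dR X.C φ + bsd X φ) I = (∑ i ∈ I, sg i I • X.C.nab i (φ (I.erase i))) +
      ((-1 : ℤ) ^ I.card) • X.δ (φ I) := rfl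

/-- The filtered complex of forms with values in `X`: differential de Rham plus signed `δ`, filtered by the degree of forms. -/
noncomputable def objSS (X : BObj n K) : FCx K (Fm n X.Γ) where
  d := dR X.C + bsd X
  F := objF X
  dd := by
    intro p m φ _
    change dR X.C (dR X.C φ + bsd X φ) + bsd X (dR X.C φ + bsd X φ) = 0
    rw [map_add, map_add, dR_dR, dR_bsd, bsd_bsd]
    abel
  anti := by
    intro p m φ h I
    exact ⟨(h I).1, fun h2 => (h I).2 (by omega)⟩
  dF := by
    intro p m φ h I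
    change (dR X.C φ + bsd X φ) I ∈ X.G (m + 1 - I.card) ∧
      ((I.card : ℤ) < p → (dR X.C φ + bsd X φ) I = 0)
    rw [BoA_d]
    constructor
    · refine Submodule.add_mem _ (Submodule.sum_mem _ fun i hi => ?_) (zsmul_mem ?_ _)
      · have h1 := X.GC _ i _ (h (I.erase i)).1
        have h2 := Finset.card_erase_of_mem hi
        have h3 := Finset.card_pos.2 ⟨i, hi⟩
        have h4 : (m - ((I.erase i).card : ℤ)) = m + 1 - (I.card : ℤ) := by omega
        rw [h4] at h1
        exact zsmul_mem h1 _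
      · have h1 := X.δG _ _ (h I).1
        have h4 : (m - (I.card : ℤ)) + 1 = m + 1 - (I.card : ℤ) := by ring
        rw [h4] at h1
        exact h1
    · intro h2
      rw [Finset.sum_eq_zero, (h I).2 h2, map_zero, smul_zero, add_zero]
      intro i hi
      have h3 := Finset.card_erase_of_mem hi
      rw [(h (I.erase i)).2 (by omega), map_zero, smul_zero]

theorem objSS_bounded (X : BObj n K) : (objSS X).Bounded n := by
  constructor
  · intro p m hp
    apply le_antisymm
    · intro φ h I
      exact ⟨(h I).1, fun h2 => (h I).2 (by omega)⟩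
    · intro φ h I
      exact ⟨(h I).1, fun h2 => (h I).2 (by omega)⟩
  · intro p m hp
    rw [eq_bot_iff]
    intro φ h
    rw [Submodule.mem_bot]
    funext I
    refine (h I).2 ?_
    have h1 : I.card ≤ n := by
      have := Finset.card_le_univ I
      rwa [Fintype.card_fin] at this
    omega

theorem objSS_d (X : BObj n K) (φ : Fm n X.Γ) (I : Finset (Fin n)) :
    (objSS X).d φ I = (∑ i ∈ I, sg i I • X.C.nab i (φ (I.erase i))) +
      ((-1 : ℤ) ^ I.card) • X.δ (φ I) := rfl

end B5a
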