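import Pool.Agent.H.MP_b5a980_ag.SSC

set_option autoImplicit false
set_option linter.unusedSectionVars false
set_option linter.style.longLine false

/-!
The isomorphism of spectral sequences defined by a map bijective on `E_2` (MP_b5a980_ag).
-/

namespace B5a

universe u v w

variable {K : Type u} [Field K] {T : Type v} [AddCommGroup T] [Module K T] {T' : Type w}
  [AddCommGroup T'] [Module K T'] {X : FCx K T} {Y : FCx K T'} {φ : T →ₗ[K] T'}

/-- the map induced on `Z_r` -/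
noncomputable def SSD_mapZ (h : FMap X Y φ) (r p m : ℤ) : X.Z r p m →ₗ[K] Y.Z r p m :=
  φ.restrict fun _ hx => h.map_Z hx

/-- the map induced on `E_r` -/
noncomputable def SSD_mapE (h : FMap X Y φ) (r p m : ℤ) : X.E r p m →ₗ[K] Y.E r p m :=
  Submodule.mapQ _ _ (SSD_mapZ h r p m) fun x hx => h.map_B (x := (x : T)) hx

theorem SSD_mapE_cls (h : FMap X Y φ) {r p m : ℤ} {z : T} (hz : z ∈ X.Z r p m) :
    SSD_mapE h r p m (X.cls r p m z hz) = Y.cls r p m (φ z) (h.map_Z hz) := rfl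

theorem SSD_bij (h : FMap X Y φ) {r : ℤ} (he : EInj X Y φ r ∧ ESurj X Y φ r) (p m : ℤ) :
    Function.Bijective (SSD_mapE h r p m) := by
  constructor
  · rw [injective_iff_map_eq_zero]
    intro x hx
    obtain ⟨z, hz, rfl⟩ := X.exists_cls x
    rw [SSD_mapE_cls] at hx
    have h0 : φ z ∈ Y.B r p m := by
      unfold FCx.cls at hx
      rw [Submodule.Quotient.mk_eq_zero] at hx
      exact hx
    unfold FCx.cls
    rw [Submodule.Quotient.mk_eq_zero]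
    exact he.1 p m z hz h0
  · intro y
    obtain ⟨z', hz', rfl⟩ := Y.exists_cls y
    obtain ⟨x, hx, hxy⟩ := he.2 p m z' hz'
    refine ⟨X.cls r p m x hx, ?_⟩
    rw [SSD_mapE_cls, Y.cls_eq_iff]
    exact hxy

theorem SSD_map_Cyc {n : ℤ} (hX : X.Bounded n) (h : FMap X Y φ) {m : ℤ} {x : T}
    (hx : x ∈ X.Cyc m) : φ x ∈ Y.Cyc m := by
  obtain ⟨hxT, hxk⟩ := hx
  have hd : X.d x = 0 := hxk
  rw [X.Tot_eq hX m] at hxT
  refine ⟨Y.mem_Tot_of_mem (h.map 0 m x hxT), ?_⟩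
  show Y.d (φ x) = 0
  rw [← h.comm 0 m x hxT, hd, map_zero]

theorem SSD_map_Bd {n : ℤ} (hX : X.Bounded n) (h : FMap X Y φ) {m : ℤ} {x : T}
    (hx : x ∈ X.Bd m) : φ x ∈ Y.Bd m := by
  obtain ⟨w, hw, rfl⟩ := hx
  have hw' : w ∈ X.F 0 (m - 1) := by
    rw [← X.Tot_eq hX]; exact hw
  rw [h.comm _ _ w hw']
  exact ⟨φ w, Y.mem_Tot_of_mem (h.map _ _ w hw'), rfl⟩

/-- the map induced on cocycles -/
noncomputable def SSD_mapC {n : ℤ} (hX : X.Bounded n) (h : FMap X Y φ) (m : ℤ) :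
    X.Cyc m →ₗ[K] Y.Cyc m :=
  φ.restrict fun _ hx => SSD_map_Cyc hX h hx

/-- the map induced on cohomology -/
noncomputable def SSD_mapH {n : ℤ} (hX : X.Bounded n) (h : FMap X Y φ) (m : ℤ) :
    X.H m →ₗ[K] Y.H m :=
  Submodule.mapQ _ _ (SSD_mapC hX h m) fun x hx => SSD_map_Bd (x := (x : T)) hX h hx

theorem SSD_mapH_hcls {n : ℤ} (hX : X.Bounded n) (h : FMap X Y φ) {m : ℤ} {z : T}
    (hz : z ∈ X.Cyc m) :
    SSD_mapH hX h m (X.hcls m z hz) = Y.hcls m (φ z) (SSD_map_Cyc hX h hz) := rfl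

theorem SSD_exists_hcls (X : FCx K T) {m : ℤ} (x : X.H m) :
    ∃ z, ∃ hz : z ∈ X.Cyc m, x = X.hcls m z hz := by
  obtain ⟨⟨z, hz⟩, h⟩ := Submodule.Quotient.mk_surjective _ x
  exact ⟨z, hz, h.symm⟩

theorem SSD_bijH {n : ℤ} (hX : X.Bounded n) (hY : Y.Bounded n) (h : FMap X Y φ)
    (hi : EInj X Y φ 2) (hs : ESurj X Y φ 2) (m : ℤ) :
    Function.Bijective (SSD_mapH hX h m) := by
  constructor
  · rw [injective_iff_map_eq_zero]
    intro x hx
    obtain ⟨z, hz, rfl⟩ := SSD_exists_hcls X x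
    rw [SSD_mapH_hcls] at hx
    have h0 : φ z ∈ Y.Bd m := by
      unfold FCx.hcls at hx
      rw [Submodule.Quotient.mk_eq_zero] at hx
      exact hx
    unfold FCx.hcls
    rw [Submodule.Quotient.mk_eq_zero]
    exact h_inj hX hY h hi hs m z hz h0
  · intro y
    obtain ⟨z', hz', rfl⟩ := SSD_exists_hcls Y y
    have hT : z' ∈ Y.F 0 m := by rw [← Y.Tot_eq hY]; exact hz'.1
    obtain ⟨x, hx, hdx, hxy⟩ := h_surj hX hY h hi hs 0 m z' hT hz'.2
    refine ⟨X.hcls m x ⟨X.mem_Tot_of_mem hx, hdx⟩, ?_⟩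
    rw [SSD_mapH_hcls, Y.hcls_eq_iff]
    exact hxy

theorem SSD_mem_FH (X : FCx K T) {p m : ℤ} {y : X.H m} :
    y ∈ X.FH p m ↔ ∃ z, ∃ hz : z ∈ X.Cyc m, z ∈ X.F p m ∧ y = X.hcls m z hz := by
  constructor
  · rintro ⟨⟨z, hz⟩, hz2, rfl⟩
    exact ⟨z, hz, hz2.1, rfl⟩
  · rintro ⟨z, hz, hz2, rfl⟩
    exact ⟨⟨z, hz⟩, ⟨hz2, hz.2⟩, rfl⟩

/-- Proof. `e r p m`: the map `Z_r → Z'_r` induced by `φ` (`FMap.map_Z`) descends to the quotients (`FMap.map_B`, `Submodule.mapQ`) and is bijective by `e_all` (`LinearEquiv.ofBijective`); it sends `cls z` to `cls (φ z)`. comm: `dE_cls` and `h.comm`. turn: `φ z - z' ∈ B'_r ∩ Z'_(r+1)`, `mem_B_succ`. `h m`: induced by `φ` on `Cyc m`, bijective by `h_inj`, `h_surj` (with `p = 0`, `Tot_eq`). hF: `h_surj`. lim: `r0 = max (p + 1) 2` (and `n + 1`): `φ z - z' = w' + d v'` with `w' ∈ F'^(p+1)`, `d w' = 0`, `v' ∈ Tot' = F'^(p-r+1)` for `r ≥ p + 1`, so `φ z - z' ∈ B'_r`. -/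
theorem ssiso_of_map {n : ℤ} (hX : X.Bounded n) (hY : Y.Bounded n) (h : FMap X Y φ)
    (hi : EInj X Y φ 2) (hs : ESurj X Y φ 2) : Nonempty (SSIso X Y) := by
  refine ⟨{ e := fun r hr p m => LinearEquiv.ofBijective (SSD_mapE h r p m)
              (SSD_bij h (e_all h hi hs r hr) p m),
            comm := ?_, turn := ?_,
            h := fun m => LinearEquiv.ofBijective (SSD_mapH hX h m) (SSD_bijH hX hY h hi hs m),
            hF := ?_, lim := ?_ }⟩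
  · intro r hr p m x
    obtain ⟨z, hz, rfl⟩ := X.exists_cls x
    rw [LinearEquiv.ofBijective_apply, LinearEquiv.ofBijective_apply, X.dE_cls, SSD_mapE_cls,
      SSD_mapE_cls, Y.dE_cls, Y.cls_eq_iff, h.comm p m z hz.1, sub_self]
    exact Submodule.zero_mem _
  · intro r hr hr1 p m z hz hz1 z' hz' hz1' he
    rw [LinearEquiv.ofBijective_apply, SSD_mapE_cls, Y.cls_eq_iff] at he ⊢
    exact Y.mem_B_succ he (Submodule.sub_mem _ (h.map_Z hz1) hz1')
  · intro p m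
    ext y
    rw [SSD_mem_FH]
    constructor
    · rintro ⟨x, hx, rfl⟩
      obtain ⟨z, hz, hzF, rfl⟩ := (SSD_mem_FH X).mp hx
      exact ⟨φ z, SSD_map_Cyc hX h hz, h.map p m z hzF, rfl⟩
    · rintro ⟨z', hz', hzF', rfl⟩
      obtain ⟨x, hx, hdx, hxy⟩ := h_surj hX hY h hi hs p m z' hzF' hz'.2
      refine ⟨X.hcls m x ⟨X.mem_Tot_of_mem hx, hdx⟩, (SSD_mem_FH X).mpr ⟨x, _, hx, rfl⟩, ?_⟩
      show SSD_mapH hX h m _ = _
      rw [SSD_mapH_hcls, Y.hcls_eq_iff]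
      exact hxy
  · intro p m z hz z' hz' hF hF' hd
    rw [LinearEquiv.ofBijective_apply, SSD_mapH_hcls, SSD_mem_FH] at hd
    obtain ⟨w', hw', hwF, hww⟩ := hd
    have hB : φ z - z' - w' ∈ Y.Bd m := by
      have e : Y.hcls m (φ z - z') (Submodule.sub_mem _ (SSD_map_Cyc hX h hz) hz') =
          Y.hcls m w' hw' := by
        rw [← hww]; rfl
      rwa [Y.hcls_eq_iff] at e
    obtain ⟨v', hv', hvv⟩ := hB
    have hv0 : v' ∈ Y.F 0 (m - 1) := by rw [← Y.Tot_eq hY]; exact hv'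
    refine ⟨max (p + 1) 2, fun r hr hr' k k' => ?_⟩
    have hrp : p - r + 1 ≤ 0 := by
      have := le_trans (le_max_left _ _) hr'
      omega
    rw [LinearEquiv.ofBijective_apply, SSD_mapE_cls, Y.cls_eq_iff]
    have e : φ z - z' = w' + Y.d v' := by rw [hvv]; abel
    rw [e]
    have hdw : Y.d w' = 0 := hw'.2
    refine Submodule.add_mem_sup ⟨hwF, ?_⟩ ⟨v', ⟨?_, ?_⟩, rfl⟩
    · show Y.d w' ∈ Y.F _ _
      rw [hdw]
      exact Submodule.zero_mem _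
    · show v' ∈ Y.F _ _
      rw [hY.1 _ _ hrp]
      exact hv0
    · show Y.d v' ∈ Y.F _ _
      refine Y.SSA_mem_F_congr (p := p) (m := m) (by ring) (by ring) ?_
      rw [hvv]
      exact Submodule.sub_mem _ (Submodule.sub_mem _ (h.map p m z hF) hF') (Y.F_le (by omega) m hwF)

end B5a
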