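import Pool.Agent.H.MP_b5a980_ag.SSA

set_option autoImplicit false
set_option linter.unusedSectionVars false
set_option linter.style.longLine false

/-!
Composition of isomorphisms of spectral sequences (MP_b5a980_ag).
-/

namespace B5a

universe u v w

variable {K : Type u} [Field K] {T : Type v} [AddCommGroup T] [Module K T] {T' : Type w}
  [AddCommGroup T'] [Module K T'] {X : FCx K T} {Y : FCx K T'}

/-- Proof. Inverses. turn: given `z' ∈ Z'_(r+1)`, `z ∈ Z_(r+1)` with `e⁻¹ [z'] = [z]`, i.e. `e [z] = [z']`; apply `turn`. hF: `Submodule.map` of the inverse. lim: `h⁻¹[z'] - [z] ∈ FH (p+1)`; apply `h` and `hF`. -/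
theorem ssiso_symm (h : Nonempty (SSIso X Y)) : Nonempty (SSIso Y X) := by
  obtain ⟨s⟩ := h
  refine ⟨{ e := fun r hr p m => (s.e r hr p m).symm, comm := ?_, turn := ?_,
            h := fun m => (s.h m).symm, hF := ?_, lim := ?_ }⟩
  · intro r hr p m x
    rw [LinearEquiv.symm_apply_eq, s.comm, LinearEquiv.apply_symm_apply]
  · intro r hr hr1 p m z h h1 z' h' h1' he
    rw [LinearEquiv.symm_apply_eq] at he ⊢
    exact (s.turn r hr hr1 p m z' h' h1' z h h1 he.symm).symm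
  · intro p m
    rw [← s.hF p m, ← Submodule.map_comp]
    have : ((s.h m).symm : Y.H m →ₗ[K] X.H m) ∘ₗ (s.h m : X.H m →ₗ[K] Y.H m) = LinearMap.id := by
      ext x
      simp
    rw [this, Submodule.map_id]
  · intro p m z hz z' hz' hF hF' hd
    have hd2 : s.h m (X.hcls m z' hz') - Y.hcls m z hz ∈ Y.FH (p + 1) m := by
      rw [← s.hF (p + 1) m]
      refine ⟨-((s.h m).symm (Y.hcls m z hz) - X.hcls m z' hz'), Submodule.neg_mem _ hd, ?_⟩
      show s.h m (-((s.h m).symm (Y.hcls m z hz) - X.hcls m z' hz')) = _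
      rw [map_neg, map_sub, LinearEquiv.apply_symm_apply, neg_sub]
    obtain ⟨r0, hr0⟩ := s.lim p m z' hz' z hz hF' hF hd2
    refine ⟨r0, fun r hr hr' k k' => ?_⟩
    rw [LinearEquiv.symm_apply_eq]
    exact (hr0 r hr hr' k' k).symm

/-- Proof. Compositions. turn: given `z ∈ Z_(r+1)(X)` and `z'' ∈ Z_(r+1)(W)` with `e2 (e1 [z]) = [z'']`: `dE [z] = 0` (`dE_cls`, `d z ∈ F^(p+r+1)`, so `d z ∈ Z_(r-1)^(p+r+1) ≤ B_r^(p+r)`), so `dE (e1 [z]) = 0` by `comm`; with `exists_cls`, `exists_rep`: `e1 [z] = [z']` with `z' ∈ Z_(r+1)(Y)`; apply `turn` twice. lim: by `hF`, `h1 [z] ∈ FH p`, so `h1 [z] = [z']` with `z' ∈ F p m`, a cocycle (in `Tot` by `mem_Tot_of_mem`); then `h1 [z] - [z'] = 0` and `h2 [z'] - [z''] ∈ FH (p+1)`; take the maximum of the two bounds. A cocycle `z' ∈ F p m` lies in every `Z r p m`. -/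
theorem ssiso_trans {T'' : Type*} [AddCommGroup T''] [Module K T''] {W : FCx K T''}
    (h : Nonempty (SSIso X Y)) (h' : Nonempty (SSIso Y W)) : Nonempty (SSIso X W) := by
  obtain ⟨s⟩ := h
  obtain ⟨t⟩ := h'
  refine ⟨{ e := fun r hr p m => (s.e r hr p m).trans (t.e r hr p m), comm := ?_, turn := ?_,
            h := fun m => (s.h m).trans (t.h m), hF := ?_, lim := ?_ }⟩
  · intro r hr p m x
    rw [LinearEquiv.trans_apply, LinearEquiv.trans_apply, s.comm, t.comm]
  · intro r hr hr1 p m z hz hz1 z'' hz'' hz1'' he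
    rw [LinearEquiv.trans_apply] at he ⊢
    obtain ⟨y, hy, hey⟩ := Y.exists_cls (s.e r hr p m (X.cls r p m z hz))
    have hdz : X.dE r p m (X.cls r p m z hz) = 0 := by
      rw [X.dE_cls]
      unfold FCx.cls
      rw [Submodule.Quotient.mk_eq_zero]
      show X.d z ∈ X.B r (p + r) (m + 1)
      refine Submodule.mem_sup_left ⟨X.SSA_mem_F_congr (by ring) rfl hz1.2, ?_⟩
      show X.d (X.d z) ∈ X.F (p + r + 1 + (r - 1)) (m + 1 + 1)
      rw [X.dd _ _ z hz.1]
      exact Submodule.zero_mem _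
    have hdy : Y.d y ∈ Y.B r (p + r) (m + 1) := by
      have h1 := s.comm r hr p m (X.cls r p m z hz)
      rw [hdz, map_zero, hey, Y.dE_cls] at h1
      unfold FCx.cls at h1
      have h2 := (Submodule.Quotient.mk_eq_zero
        ((Y.B r (p + r) (m + 1)).comap (Y.Z r (p + r) (m + 1)).subtype)).1 h1.symm
      exact h2
    obtain ⟨y', hy', hyy, -⟩ := Y.exists_rep hy hdy
    have hyr : y' ∈ Y.Z r p m := Y.Z_anti r p m hy'
    have hcl : Y.cls r p m y hy = Y.cls r p m y' hyr := (Y.cls_eq_iff hy hyr).2 hyy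
    rw [hcl] at hey
    rw [s.turn r hr hr1 p m z hz hz1 y' hyr hy' hey]
    rw [hey] at he
    exact t.turn r hr hr1 p m y' hyr hy' z'' hz'' hz1'' he
  · intro p m
    rw [← t.hF p m, ← s.hF p m, ← Submodule.map_comp]
    rfl
  · intro p m z hz z'' hz'' hF hF'' hd
    have h1 : s.h m (X.hcls m z hz) ∈ Y.FH p m := by
      rw [← s.hF p m]
      refine ⟨X.hcls m z hz, ⟨⟨z, hz⟩, ⟨hF, hz.2⟩, rfl⟩, rfl⟩
    obtain ⟨⟨y, hy⟩, ⟨hy1, hy2⟩, hy3⟩ := h1
    have hy4 : s.h m (X.hcls m z hz) = Y.hcls m y hy := hy3.symm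
    have hy5 : Y.d y = 0 := hy2
    have hyZ : ∀ r : ℤ, y ∈ Y.Z r p m := by
      intro r
      refine ⟨hy1, ?_⟩
      show Y.d y ∈ Y.F (p + r) (m + 1)
      rw [hy5]
      exact Submodule.zero_mem _
    obtain ⟨r0, hr0⟩ := s.lim p m z hz y hy hF hy1 (by rw [hy4, sub_self]; exact Submodule.zero_mem _)
    rw [LinearEquiv.trans_apply, hy4] at hd
    obtain ⟨r1, hr1⟩ := t.lim p m y hy z'' hz'' hy1 hF'' hd
    refine ⟨max r0 r1, fun r hr hr' k k' => ?_⟩
    rw [LinearEquiv.trans_apply, hr0 r hr ((le_max_left _ _).trans hr') k (hyZ r)]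
    exact hr1 r hr ((le_max_right _ _).trans hr') (hyZ r) k'

end B5a
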