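import Pool.Agent.H.MP_b5a980_ag.BoA
import Pool.Agent.H.MP_b5a980_ag.SSD
import Pool.Agent.H.MP_b5a980_ag.SSE

set_option autoImplicit false
set_option linter.unusedSectionVars false
set_option linter.style.longLine false

/-!
Quasi-isomorphisms and spectral sequences (MP_b5a980_ag, part D).
-/

namespace B5a

universe u v w

open MvPowerSeries

variable {n : ℕ} {K : Type u} [Field K]

/-- The map on forms induced by a linear map of the coefficients. -/
noncomputable def fmap {X Y : BObj n K} (φ : X.Γ →ₗ[MvPowerSeries (Fin n) K] Y.Γ) :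
    Fm n X.Γ →ₗ[K] Fm n Y.Γ where
  toFun ω := fun I => φ (ω I)
  map_add' := by
    intro x y
    funext I
    simp only [Pi.add_apply, map_add]
  map_smul' := by
    intro c x
    funext I
    simp only [Pi.smul_apply, RingHom.id_apply, LinearMap.map_smul_of_tower]

theorem BoB_sq {M : Type*} [AddCommGroup M] (k : ℕ) (a : M) :
    ((-1 : ℤ) ^ k) • (((-1 : ℤ) ^ k) • a) = a := by
  rw [smul_smul, ← mul_pow]
  norm_num

theorem BoB_smul_eq_zero {M : Type*} [AddCommGroup M] {k : ℕ} {a : M}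
    (h : ((-1 : ℤ) ^ k) • a = 0) : a = 0 := by
  rw [← BoB_sq k a, h, smul_zero]

theorem BoB_card {I : Finset (Fin n)} {i : Fin n} (hi : i ∈ I) :
    ((I.erase i).card : ℤ) = I.card - 1 := by
  have h := Finset.card_erase_add_one hi
  omega

section dr

variable {X Y : BObj n K}

theorem BoB_dR_apply (X : BObj n K) (ω : Fm n X.Γ) (I : Finset (Fin n)) :
    dR X.C ω I = ∑ i ∈ I, sg i I • X.C.nab i (ω (I.erase i)) := rfl

theorem BoB_d (X : BObj n K) (ω : Fm n X.Γ) (I : Finset (Fin n)) :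
    (objSS X).d ω I = dR X.C ω I + ((-1 : ℤ) ^ I.card) • X.δ (ω I) := objSS_d X ω I

theorem BoB_dR_congr {ω η : Fm n X.Γ} {I : Finset (Fin n)}
    (h : ∀ i ∈ I, ω (I.erase i) = η (I.erase i)) : dR X.C ω I = dR X.C η I := by
  rw [BoB_dR_apply, BoB_dR_apply]
  exact Finset.sum_congr rfl fun i hi => by rw [h i hi]

theorem BoB_dR_zero {ω : Fm n X.Γ} {I : Finset (Fin n)}
    (h : ∀ i ∈ I, ω (I.erase i) = 0) : dR X.C ω I = 0 := by
  rw [BoB_dR_apply]
  exact Finset.sum_eq_zero fun i hi => by rw [h i hi, map_zero, smul_zero]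

theorem BoB_dR_G {ω : Fm n X.Γ} {I : Finset (Fin n)} {q : ℤ}
    (h : ∀ i ∈ I, ω (I.erase i) ∈ X.G q) : dR X.C ω I ∈ X.G q := by
  rw [BoB_dR_apply]
  exact Submodule.sum_mem _ fun i hi => zsmul_mem (X.GC q i _ (h i hi)) _

theorem BoB_dR_del (ω : Fm n X.Γ) (I : Finset (Fin n)) :
    X.δ (dR X.C ω I) = dR X.C (fun J => X.δ (ω J)) I := by
  rw [BoB_dR_apply, BoB_dR_apply, map_sum]
  exact Finset.sum_congr rfl fun i _ => by rw [map_zsmul, X.δC]

theorem BoB_dR_map {φ : X.Γ →ₗ[MvPowerSeries (Fin n) K] Y.Γ} (h : QIso X Y φ) (ω : Fm n X.Γ)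
    (I : Finset (Fin n)) : φ (dR X.C ω I) = dR Y.C (fun J => φ (ω J)) I := by
  rw [BoB_dR_apply, BoB_dR_apply, map_sum]
  exact Finset.sum_congr rfl fun i _ => by rw [map_zsmul, h.nab]

theorem BoB_dR_add (ω η : Fm n X.Γ) (I : Finset (Fin n)) :
    dR X.C (fun J => ω J + η J) I = dR X.C ω I + dR X.C η I := by
  have h : dR X.C (ω + η) = dR X.C ω + dR X.C η := map_add _ _ _
  exact congrFun h I

theorem BoB_G {q q' : ℤ} (e : q = q') {x : X.Γ} (hx : x ∈ X.G q) : x ∈ X.G q' := e ▸ hx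

theorem BoB_mem_Z {r p m : ℤ} {x : Fm n X.Γ} :
    x ∈ (objSS X).Z r p m ↔
      x ∈ objF X p m ∧ ∀ I : Finset (Fin n), (I.card : ℤ) < p + r → (objSS X).d x I = 0 := by
  constructor
  · rintro ⟨h1, h2⟩
    exact ⟨h1, fun I hI => (h2 I).2 hI⟩
  · rintro ⟨h1, h2⟩
    exact ⟨h1, fun I => ⟨((objSS X).dF p m x h1 I).1, h2 I⟩⟩

end dr

theorem fmap_FMap {X Y : BObj n K} {φ : X.Γ →ₗ[MvPowerSeries (Fin n) K] Y.Γ} (h : QIso X Y φ) :
    FMap (objSS X) (objSS Y) (fmap φ) := by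
  constructor
  · intro p m x _
    funext I
    show φ ((objSS X).d x I) = (objSS Y).d (fmap φ x) I
    rw [BoB_d, BoB_d, map_add, map_zsmul, h.del, BoB_dR_map h]
    rfl
  · intro p m x hx I
    refine ⟨h.gr _ _ (hx I).1, fun hI => ?_⟩
    show φ (x I) = 0
    rw [(hx I).2 hI, map_zero]

/-- the lowest coefficients of an element of `Z 1` are killed by `δ` -/
theorem BoB_low {X : BObj n K} {r p m : ℤ} (hr : 1 ≤ r) {y : Fm n X.Γ}
    (hy : y ∈ (objSS X).Z r p m) {I : Finset (Fin n)} (hI : (I.card : ℤ) = p) :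
    X.δ (y I) = 0 := by
  obtain ⟨h1, h2⟩ := BoB_mem_Z.1 hy
  have h3 := h2 I (by omega)
  rw [BoB_d, BoB_dR_zero (fun i hi => (h1 (I.erase i)).2 (by rw [BoB_card hi]; omega)),
    zero_add] at h3
  exact BoB_smul_eq_zero h3

theorem qiso_esurj {X Y : BObj n K} {φ : X.Γ →ₗ[MvPowerSeries (Fin n) K] Y.Γ} (h : QIso X Y φ) :
    ESurj (objSS X) (objSS Y) (fmap φ) 2 := by
  intro p m y hy
  obtain ⟨hyF, hyd⟩ := BoB_mem_Z.1 hy
  -- the components of degree `p`
  have h1 : ∀ I : Finset (Fin n), ∃ (x : X.Γ) (z : Y.Γ), x ∈ X.G (m - I.card) ∧ X.δ x = 0 ∧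
      z ∈ Y.G (m - I.card - 1) ∧ ((I.card : ℤ) = p → y I = φ x + Y.δ z) ∧
      ((I.card : ℤ) ≠ p → x = 0 ∧ z = 0) := by
    intro I
    by_cases hI : (I.card : ℤ) = p
    · obtain ⟨x, hx, hx2, z, hz, he⟩ := h.surj (m - I.card) (y I) (hyF I).1
        (BoB_low (by norm_num) hy hI)
      exact ⟨x, z, hx, hx2, hz, fun _ => he, fun hc => absurd hI hc⟩
    · exact ⟨0, 0, Submodule.zero_mem _, map_zero _, Submodule.zero_mem _, fun hc => absurd hc hI,
        fun _ => ⟨rfl, rfl⟩⟩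
  choose xf zf hxG hxδ hzG hxz h0 using h1
  -- the components of degree `p + 1`
  have h2 : ∀ J : Finset (Fin n), ∃ w : X.Γ, w ∈ X.G (m - J.card) ∧
      ((J.card : ℤ) = p + 1 → dR X.C xf J = X.δ w) ∧ ((J.card : ℤ) ≠ p + 1 → w = 0) := by
    intro J
    by_cases hJ : (J.card : ℤ) = p + 1
    · have e1 : φ (dR X.C xf J) =
          Y.δ (-(((-1 : ℤ) ^ J.card) • y J) - dR Y.C zf J) := by
        have e2 : dR Y.C y J = φ (dR X.C xf J) + Y.δ (dR Y.C zf J) := by
          rw [BoB_dR_map h, BoB_dR_del, ← BoB_dR_add]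
          refine BoB_dR_congr fun i hi => ?_
          exact hxz _ (by rw [BoB_card hi]; omega)
        have e3 := hyd J (by omega)
        rw [BoB_d, e2] at e3
        rw [map_sub, map_neg, map_zsmul]
        have e4 : φ (dR X.C xf J) = -(((-1 : ℤ) ^ J.card) • Y.δ (y J)) - Y.δ (dR Y.C zf J) := by
          rw [eq_sub_iff_add_eq, eq_neg_iff_add_eq_zero]
          exact e3
        exact e4
      obtain ⟨w, hw, he⟩ := h.inj (m + 1 - J.card) (dR X.C xf J)
        (BoB_dR_G fun i hi => BoB_G (by rw [BoB_card hi]; ring) (hxG (J.erase i)))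
        (by
          rw [BoB_dR_del]
          exact BoB_dR_zero fun i _ => hxδ _)
        ⟨_, Submodule.sub_mem _ (Submodule.neg_mem _ (zsmul_mem
          (BoB_G (by ring) (hyF J).1) _))
          (BoB_dR_G fun i hi => BoB_G (by rw [BoB_card hi]; ring) (hzG (J.erase i))), e1⟩
      exact ⟨w, BoB_G (by ring) hw, fun _ => he, fun hc => absurd hJ hc⟩
    · exact ⟨0, Submodule.zero_mem _, fun hc => absurd hc hJ, fun _ => rfl⟩
  choose wf hwG hxw hw0 using h2
  let x' : Fm n X.Γ := fun I => xf I - ((-1 : ℤ) ^ I.card) • wf I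
  have hx'F : x' ∈ objF X p m := by
    intro I
    refine ⟨Submodule.sub_mem _ (hxG I) (zsmul_mem (hwG I) _), fun hI => ?_⟩
    show xf I - ((-1 : ℤ) ^ I.card) • wf I = 0
    rw [(h0 I (by omega)).1, hw0 I (by omega), smul_zero, sub_zero]
  have hx'Z : x' ∈ (objSS X).Z 2 p m := by
    refine BoB_mem_Z.2 ⟨hx'F, fun I hI => ?_⟩
    rw [BoB_d]
    by_cases hI1 : (I.card : ℤ) < p
    · rw [BoB_dR_zero (fun i hi => (hx'F _).2 (by rw [BoB_card hi]; omega)), (hx'F I).2 hI1,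
        map_zero, smul_zero, add_zero]
    · by_cases hI2 : (I.card : ℤ) = p
      · rw [BoB_dR_zero (fun i hi => (hx'F _).2 (by rw [BoB_card hi]; omega)), zero_add]
        show ((-1 : ℤ) ^ I.card) • X.δ (xf I - ((-1 : ℤ) ^ I.card) • wf I) = 0
        rw [hw0 I (by omega), smul_zero, sub_zero, hxδ, smul_zero]
      · have hI3 : (I.card : ℤ) = p + 1 := by omega
        have e1 : dR X.C x' I = dR X.C xf I := BoB_dR_congr fun i hi => by
          show xf (I.erase i) - ((-1 : ℤ) ^ (I.erase i).card) • wf (I.erase i) = xf (I.erase i)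
          rw [hw0 _ (by rw [BoB_card hi]; omega), smul_zero, sub_zero]
        rw [e1, hxw I hI3]
        show X.δ (wf I) + ((-1 : ℤ) ^ I.card) • X.δ (xf I - ((-1 : ℤ) ^ I.card) • wf I) = 0
        rw [(h0 I hI2).1, zero_sub, map_neg, map_zsmul, smul_neg, BoB_sq, add_neg_cancel]
  let z' : Fm n Y.Γ := fun I => ((-1 : ℤ) ^ I.card) • zf I
  have hz'0 : ∀ I : Finset (Fin n), (I.card : ℤ) ≠ p → z' I = 0 := by
    intro I hI
    show ((-1 : ℤ) ^ I.card) • zf I = 0
    rw [(h0 I hI).2, smul_zero]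
  have hz'F : z' ∈ objF Y (p - 1) (m - 1) := by
    intro I
    refine ⟨zsmul_mem (BoB_G (by ring) (hzG I)) _, fun hI => hz'0 I (by omega)⟩
  have hz'd : ∀ I : Finset (Fin n), (I.card : ℤ) < p → (objSS Y).d z' I = 0 := by
    intro I hI
    rw [BoB_d, BoB_dR_zero (fun i hi => hz'0 _ (by rw [BoB_card hi]; omega)),
      hz'0 I (by omega), map_zero, smul_zero, add_zero]
  refine ⟨x', hx'Z, ?_⟩
  have hfx : fmap φ x' ∈ (objSS Y).Z 2 p m := (fmap_FMap h).map_Z hx'Z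
  have hdz : (objSS Y).d z' ∈ objF Y (p - 1) m := by
    have e := (objSS Y).dF (p - 1) (m - 1) z' hz'F
    rwa [sub_add_cancel] at e
  have haF : fmap φ x' - y + (objSS Y).d z' ∈ objF Y (p + 1) m := by
    intro I
    refine ⟨Submodule.add_mem _ (Submodule.sub_mem _ (hfx.1 I).1 (hyF I).1) (hdz I).1,
      fun hI => ?_⟩
    show φ (x' I) - y I + (objSS Y).d z' I = 0
    by_cases hI1 : (I.card : ℤ) < p
    · rw [(hx'F I).2 hI1, (hyF I).2 hI1, hz'd I hI1, map_zero, sub_zero, add_zero]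
    · have hI2 : (I.card : ℤ) = p := by omega
      rw [BoB_d, BoB_dR_zero (fun i hi => hz'0 _ (by rw [BoB_card hi]; omega)), zero_add]
      show φ (xf I - ((-1 : ℤ) ^ I.card) • wf I) - y I +
        ((-1 : ℤ) ^ I.card) • Y.δ (((-1 : ℤ) ^ I.card) • zf I) = 0
      rw [hw0 I (by omega), smul_zero, sub_zero, map_zsmul, BoB_sq, hxz I hI2]
      abel
  have haZ : fmap φ x' - y + (objSS Y).d z' ∈ (objSS Y).Z (2 - 1) (p + 1) m := by
    refine BoB_mem_Z.2 ⟨haF, fun I hI => ?_⟩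
    have e1 : (objSS Y).d (fmap φ x' - y + (objSS Y).d z') =
        (objSS Y).d (fmap φ x') - (objSS Y).d y := by
      rw [map_add, map_sub, (objSS Y).dd (p - 1) (m - 1) z' hz'F, add_zero]
    rw [e1]
    show (objSS Y).d (fmap φ x') I - (objSS Y).d y I = 0
    rw [(BoB_mem_Z.1 hfx).2 I (by omega), hyd I (by omega), sub_zero]
  have hzZ : -z' ∈ (objSS Y).Z (2 - 1) (p - 2 + 1) (m - 1) := by
    rw [show p - 2 + 1 = p - 1 by ring]
    refine Submodule.neg_mem _ (BoB_mem_Z.2 ⟨hz'F, fun I hI => hz'd I (by omega)⟩)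
  have e : fmap φ x' - y = (fmap φ x' - y + (objSS Y).d z') + (objSS Y).d (-z') := by
    rw [map_neg]
    abel
  rw [e]
  exact Submodule.add_mem_sup haZ ⟨-z', hzZ, rfl⟩

theorem qiso_einj {X Y : BObj n K} {φ : X.Γ →ₗ[MvPowerSeries (Fin n) K] Y.Γ} (h : QIso X Y φ) :
    EInj (objSS X) (objSS Y) (fmap φ) 2 := by
  intro p m x hx hB
  obtain ⟨hxF, hxd⟩ := BoB_mem_Z.1 hx
  obtain ⟨a, ha, c, hc, hac⟩ := Submodule.mem_sup.mp hB
  obtain ⟨b, hb, rfl⟩ := hc
  obtain ⟨haF, -⟩ := BoB_mem_Z.1 ha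
  have hb1 : b ∈ (objSS Y).Z 1 (p - 1) (m - 1) := by
    rw [show p - 2 + 1 = p - 1 by ring] at hb
    exact hb
  obtain ⟨hbF, hbd⟩ := BoB_mem_Z.1 hb1
  -- the components of degree `p - 1`
  have h1 : ∀ J : Finset (Fin n), ∃ (c : X.Γ) (e : Y.Γ), c ∈ X.G (m - 1 - J.card) ∧ X.δ c = 0 ∧
      e ∈ Y.G (m - 1 - J.card - 1) ∧ ((J.card : ℤ) = p - 1 → b J = φ c + Y.δ e) ∧
      ((J.card : ℤ) ≠ p - 1 → c = 0 ∧ e = 0) := by
    intro J
    by_cases hJ : (J.card : ℤ) = p - 1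
    · obtain ⟨c, hc, hc2, e, he, hce⟩ := h.surj (m - 1 - J.card) (b J) (hbF J).1
        (BoB_low le_rfl hb1 hJ)
      exact ⟨c, e, hc, hc2, he, fun _ => hce, fun hc => absurd hJ hc⟩
    · exact ⟨0, 0, Submodule.zero_mem _, map_zero _, Submodule.zero_mem _, fun hc => absurd hc hJ,
        fun _ => ⟨rfl, rfl⟩⟩
  choose cf ef hcG hcδ heG hce h0 using h1
  -- the components of degree `p`
  have h2 : ∀ I : Finset (Fin n), ∃ g : X.Γ, g ∈ X.G (m - I.card - 1) ∧
      ((I.card : ℤ) = p → x I - dR X.C cf I = X.δ g) ∧ ((I.card : ℤ) ≠ p → g = 0) := by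
    intro I
    by_cases hI : (I.card : ℤ) = p
    · have e1 : φ (x I - dR X.C cf I) = Y.δ (dR Y.C ef I + ((-1 : ℤ) ^ I.card) • b I) := by
        have e2 : dR Y.C b I = φ (dR X.C cf I) + Y.δ (dR Y.C ef I) := by
          rw [BoB_dR_map h, BoB_dR_del, ← BoB_dR_add]
          refine BoB_dR_congr fun i hi => ?_
          exact hce _ (by rw [BoB_card hi]; omega)
        have e3 : φ (x I) = a I + (objSS Y).d b I := (congrFun hac I).symm
        rw [(haF I).2 (by omega), zero_add, BoB_d, e2] at e3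
        rw [map_sub, e3, map_add, map_zsmul]
        abel
      obtain ⟨g, hg, he⟩ := h.inj (m - I.card) (x I - dR X.C cf I)
        (Submodule.sub_mem _ (hxF I).1
          (BoB_dR_G fun i hi => BoB_G (by rw [BoB_card hi]; ring) (hcG (I.erase i))))
        (by
          rw [map_sub, BoB_low (by norm_num) hx hI, BoB_dR_del,
            BoB_dR_zero (fun i _ => hcδ _), sub_zero])
        ⟨_, Submodule.add_mem _
          (BoB_dR_G fun i hi => BoB_G (by rw [BoB_card hi]; ring) (heG (I.erase i)))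
          (zsmul_mem (BoB_G (by ring) (hbF I).1) _), e1⟩
      exact ⟨g, hg, fun _ => he, fun hc => absurd hI hc⟩
    · exact ⟨0, Submodule.zero_mem _, fun hc => absurd hc hI, fun _ => rfl⟩
  choose gf hgG hxg hg0 using h2
  let b' : Fm n X.Γ := fun I => cf I + ((-1 : ℤ) ^ I.card) • gf I
  have hb'F : b' ∈ objF X (p - 1) (m - 1) := by
    intro I
    refine ⟨Submodule.add_mem _ (hcG I) (zsmul_mem (BoB_G (by ring) (hgG I)) _), fun hI => ?_⟩
    show cf I + ((-1 : ℤ) ^ I.card) • gf I = 0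
    rw [(h0 I (by omega)).1, hg0 I (by omega), smul_zero, add_zero]
  have hb'd : ∀ I : Finset (Fin n), (I.card : ℤ) < p → (objSS X).d b' I = 0 := by
    intro I hI
    rw [BoB_d, BoB_dR_zero (fun i hi => (hb'F _).2 (by rw [BoB_card hi]; omega)), zero_add]
    show ((-1 : ℤ) ^ I.card) • X.δ (cf I + ((-1 : ℤ) ^ I.card) • gf I) = 0
    rw [hg0 I (by omega), smul_zero, add_zero, hcδ, smul_zero]
  have hdb : (objSS X).d b' ∈ objF X (p - 1) m := by
    have e := (objSS X).dF (p - 1) (m - 1) b' hb'F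
    rwa [sub_add_cancel] at e
  have haF' : x - (objSS X).d b' ∈ objF X (p + 1) m := by
    intro I
    refine ⟨Submodule.sub_mem _ (hxF I).1 (hdb I).1, fun hI => ?_⟩
    show x I - (objSS X).d b' I = 0
    by_cases hI1 : (I.card : ℤ) < p
    · rw [(hxF I).2 hI1, hb'd I hI1, sub_zero]
    · have hI2 : (I.card : ℤ) = p := by omega
      have e1 : dR X.C b' I = dR X.C cf I := BoB_dR_congr fun i hi => by
        show cf (I.erase i) + ((-1 : ℤ) ^ (I.erase i).card) • gf (I.erase i) = cf (I.erase i)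
        rw [hg0 _ (by rw [BoB_card hi]; omega), smul_zero, add_zero]
      rw [BoB_d, e1]
      show x I - (dR X.C cf I + ((-1 : ℤ) ^ I.card) • X.δ (cf I + ((-1 : ℤ) ^ I.card) • gf I)) = 0
      rw [(h0 I (by omega)).1, zero_add, map_zsmul, BoB_sq, ← hxg I hI2]
      abel
  have haZ : x - (objSS X).d b' ∈ (objSS X).Z (2 - 1) (p + 1) m := by
    refine BoB_mem_Z.2 ⟨haF', fun I hI => ?_⟩
    have e1 : (objSS X).d (x - (objSS X).d b') = (objSS X).d x := by
      rw [map_sub, (objSS X).dd (p - 1) (m - 1) b' hb'F, sub_zero]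
    rw [e1]
    exact hxd I (by omega)
  have hbZ : b' ∈ (objSS X).Z (2 - 1) (p - 2 + 1) (m - 1) := by
    rw [show p - 2 + 1 = p - 1 by ring]
    exact BoB_mem_Z.2 ⟨hb'F, fun I hI => hb'd I (by omega)⟩
  have e : x = (x - (objSS X).d b') + (objSS X).d b' := by abel
  rw [e]
  exact Submodule.add_mem_sup haZ ⟨b', hbZ, rfl⟩

theorem zig_ss {X Y : BObj n K} (h : Zig X Y) : Nonempty (SSIso (objSS X) (objSS Y)) := by
  induction h with
  | of φ h =>
    exact ssiso_of_map (objSS_bounded _) (objSS_bounded _) (fmap_FMap h) (qiso_einj h)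
      (qiso_esurj h)
  | symm _ ih => exact ssiso_symm ih
  | trans _ _ ih ih' => exact ssiso_trans ih ih'

/-- A degreewise bijection is a quasi-isomorphism. -/
theorem qiso_of_bij {X Y : BObj n K} (φ : X.Γ →ₗ[MvPowerSeries (Fin n) K] Y.Γ)
    (nab : ∀ i x, φ (X.C.nab i x) = Y.C.nab i (φ x)) (del : ∀ x, φ (X.δ x) = Y.δ (φ x))
    (gr : ∀ q x, x ∈ X.G q → φ x ∈ Y.G q) (hinj : ∀ x, φ x = 0 → x = 0)
    (hsurj : ∀ q y, y ∈ Y.G q → ∃ x ∈ X.G q, φ x = y) : QIso X Y φ := by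
  refine ⟨nab, del, gr, ?_, ?_⟩
  · rintro q x _ _ ⟨y, hy, hxy⟩
    obtain ⟨z, hz, rfl⟩ := hsurj _ y hy
    refine ⟨z, hz, ?_⟩
    rw [← sub_eq_zero]
    apply hinj
    rw [map_sub, del, hxy, sub_self]
  · intro q y hy hδ
    obtain ⟨x, hx, rfl⟩ := hsurj q y hy
    refine ⟨x, hx, hinj _ (by rw [del, hδ]), 0, Submodule.zero_mem _, ?_⟩
    rw [map_zero, add_zero]

end B5a
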