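import Pool.Agent.H.MP_b5a980_ag.FrB

set_option autoImplicit false
set_option linter.unusedSectionVars false
set_option linter.style.longLine false

/-!
Localisations inside the fraction field: definitions (MP_b5a980_ag).
-/

namespace B5a

universe u v w

open MvPowerSeries

variable {n : ℕ} {K : Type u} [Field K]

/-- The localisation `R_f` inside the fraction field of `R = K[[x_1..x_n]]`: all elements `x` such
that `f^N x` lies in `R` for some `N`. (For `f ≠ 0`.) -/
def loc (f : MvPowerSeries (Fin n) K) : Submodule (MvPowerSeries (Fin n) K) (FF n K) where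
  carrier := {x | ∃ (N : ℕ) (r : MvPowerSeries (Fin n) K), inc n K f ^ N * x = inc n K r}
  add_mem' := by
    rintro x y ⟨N, r, hr⟩ ⟨N', r', hr'⟩
    refine ⟨N + N', f ^ N' * r + f ^ N * r', ?_⟩
    rw [map_add, map_mul, map_mul, map_pow, map_pow, ← hr, ← hr']
    ring
  zero_mem' := ⟨0, 0, by simp⟩
  smul_mem' := by
    rintro c x ⟨N, r, hr⟩
    refine ⟨N, c * r, ?_⟩
    rw [map_mul, ← hr, Algebra.smul_def]
    ring

end B5a
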