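import Pool.Agent.H.MP_b5a980_ag.Fo0
import Pool.Agent.H.MP_b5a980_ag.Lc0

set_option autoImplicit false
set_option linter.unusedSectionVars false
set_option linter.style.longLine false

/-!
The Cech - de Rham complex: definitions (MP_b5a980_ag).
-/

namespace B5a

universe u v w

open MvPowerSeries

variable {n r : ℕ} {K : Type u} [Field K]

/-- `f_S`, the product of the `f_s`, `s ∈ S` -/
noncomputable def fS (f : Fin r → MvPowerSeries (Fin n) K) (S : Finset (Fin r)) : MvPowerSeries (Fin n) K :=
  ∏ s ∈ S, f s

/-- The Cech differential: `(δ φ)_S = Σ_{s ∈ S} ± φ_(S ∖ s)`, linear over `R`. -/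
noncomputable def cech (n r : ℕ) (K : Type u) [Field K] :
    Fm r (FF n K) →ₗ[MvPowerSeries (Fin n) K] Fm r (FF n K) where
  toFun φ := fun S => ∑ s ∈ S, sg s S • φ (S.erase s)
  map_add' := by
    intro x y
    funext S
    simp only [Pi.add_apply, smul_add, Finset.sum_add_distrib]
  map_smul' := by
    intro c x
    funext S
    simp only [Pi.smul_apply, RingHom.id_apply, Finset.smul_sum]
    refine Finset.sum_congr rfl fun i _ => ?_
    rw [smul_comm]

/-- The connection on Cech cochains: the derivatives applied to each component. -/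
noncomputable def cconn (n r : ℕ) (K : Type u) [Field K] : Conn n K (Fm r (FF n K)) where
  nab i :=
    { toFun := fun φ S => dF n K i (φ S)
      map_add' := by
        intro x y
        funext S
        simp
      map_smul' := by
        intro c x
        funext S
        simp }
  leib := by
    intro i a φ
    funext S
    exact (std n K).leib i a (φ S)
  comm := by
    intro i j φ
    funext S
    exact (std n K).comm i j (φ S)

/-- The signed Cech differential on families `φ I S` (coefficient of `dx_I` in the component `S`):
`(-1)^|I| δ`. -/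
noncomputable def sdel (n r : ℕ) (K : Type u) [Field K] :
    Fm n (Fm r (FF n K)) →ₗ[K] Fm n (Fm r (FF n K)) where
  toFun φ := fun I => ((-1 : ℤ) ^ I.card) • cech n r K (φ I)
  map_add' := by
    intro x y
    funext I
    simp only [Pi.add_apply, map_add, smul_add]
  map_smul' := by
    intro c x
    funext I
    simp only [Pi.smul_apply, RingHom.id_apply, LinearMap.map_smul_of_tower]
    rw [smul_comm]

/-- The total differential: de Rham plus signed Cech. -/
noncomputable def dTot (n r : ℕ) (K : Type u) [Field K] :
    Fm n (Fm r (FF n K)) →ₗ[K] Fm n (Fm r (FF n K)) := dR (cconn n r K) + sdel n r K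

/-- The cochains of total degree `m` in the step `p`: the component at `(I, S)` lies in `R_(f_S)`,
and vanishes unless `|I| + |S| = m` and `|I| ≥ p`. -/
noncomputable def totF (f : Fin r → MvPowerSeries (Fin n) K) (p m : ℤ) :
    Submodule K (Fm n (Fm r (FF n K))) where
  carrier := {φ | ∀ (I : Finset (Fin n)) (S : Finset (Fin r)), φ I S ∈ loc (fS f S) ∧
    (((I.card : ℤ) + S.card ≠ m ∨ (I.card : ℤ) < p) → φ I S = 0)}
  add_mem' := by
    intro x y hx hy I S
    refine ⟨Submodule.add_mem _ (hx I S).1 (hy I S).1, fun h => ?_⟩
    rw [Pi.add_apply, Pi.add_apply, (hx I S).2 h, (hy I S).2 h, add_zero]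
  zero_mem' := by
    intro I S
    exact ⟨Submodule.zero_mem _, fun _ => rfl⟩
  smul_mem' := by
    intro c x hx I S
    refine ⟨?_, fun h => ?_⟩
    · have h1 : (c • x) I S = (C c : MvPowerSeries (Fin n) K) • x I S := by
        rw [Pi.smul_apply, Pi.smul_apply, Algebra.smul_def, Algebra.smul_def]
        rfl
      rw [h1]
      exact Submodule.smul_mem _ _ (hx I S).1
    · rw [Pi.smul_apply, Pi.smul_apply, (hx I S).2 h, smul_zero]

end B5a
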