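import Pool.Agent.H.MP_b5a980_ag.Ce0
import Pool.Agent.H.MP_b5a980_ag.FoB
import Pool.Agent.H.MP_b5a980_ag.SS0

set_option autoImplicit false
set_option linter.unusedSectionVars false
set_option linter.style.longLine false

/-!
The Cech - de Rham complex (MP_b5a980_ag).
-/

namespace B5a

universe u v w

open MvPowerSeries

variable {n r : ℕ} {K : Type u} [Field K]

theorem CeA_z0 {M : Type*} [AddCommGroup M] (a : ℤ) : a • (0 : M) = 0 := smul_zero a

theorem CeA_z0' {X M : Type*} [AddCommGroup M] (a : ℤ) : a • (0 : X → M) = 0 := smul_zero a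

theorem CeA_zsum {ι X M : Type*} [AddCommGroup M] (a : ℤ) (s : Finset ι) (f : ι → X → M) :
    a • ∑ i ∈ s, f i = ∑ i ∈ s, a • f i := Finset.smul_sum

theorem CeA_zz {X M : Type*} [AddCommGroup M] (a : ℤ) (k : ℕ) (x : X → M) :
    a • (-1 : ℤ) ^ k • x = -((-1 : ℤ) ^ (k + 1) • a • x) := by
  rw [pow_succ, mul_neg_one, neg_smul, neg_neg, smul_comm]

/-- Proof. As `ext_ext` (it is `ext` of the identities). -/
theorem cech_cech (φ : Fm r (FF n K)) : cech n r K (cech n r K φ) = 0 := by
  exact ext_ext (K := K) (fun _ => LinearMap.id) (fun _ _ _ => rfl) φ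

theorem cech_nab (i : Fin n) (φ : Fm r (FF n K)) :
    cech n r K ((cconn n r K).nab i φ) = (cconn n r K).nab i (cech n r K φ) := by
  funext S
  change ∑ s ∈ S, sg s S • dF n K i (φ (S.erase s)) = dF n K i (∑ s ∈ S, sg s S • φ (S.erase s))
  rw [map_sum]
  exact Finset.sum_congr rfl fun s _ => (map_zsmul _ _ _).symm

theorem sdel_sdel (φ : Fm n (Fm r (FF n K))) : sdel n r K (sdel n r K φ) = 0 := by
  funext I
  change ((-1 : ℤ) ^ I.card) • cech n r K (((-1 : ℤ) ^ I.card) • cech n r K (φ I)) = 0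
  rw [map_zsmul, cech_cech, CeA_z0', CeA_z0']

/-- Proof. `(dR (sdel φ)) I = Σ_{i∈I} ± (-1)^(|I|-1) nab_i cech (φ (I∖i))` and `sdel (dR φ) I = (-1)^|I| Σ ± cech nab_i (φ (I∖i))`. -/
theorem dR_sdel (φ : Fm n (Fm r (FF n K))) :
    dR (cconn n r K) (sdel n r K φ) = - sdel n r K (dR (cconn n r K) φ) := by
  funext I
  change ∑ i ∈ I, sg i I • (cconn n r K).nab i
    (((-1 : ℤ) ^ (I.erase i).card) • cech n r K (φ (I.erase i))) =
    -(((-1 : ℤ) ^ I.card) • cech n r K (∑ i ∈ I, sg i I • (cconn n r K).nab i (φ (I.erase i))))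
  rw [map_sum, CeA_zsum, ← Finset.sum_neg_distrib]
  refine Finset.sum_congr rfl fun i hi => ?_
  obtain ⟨m, hm⟩ : ∃ m, I.card = m + 1 :=
    ⟨I.card - 1, by have := Finset.card_pos.2 ⟨i, hi⟩; omega⟩
  rw [map_zsmul, map_zsmul, cech_nab, Finset.card_erase_of_mem hi, hm, Nat.add_sub_cancel]
  exact CeA_zz _ m _

theorem dTot_dTot (φ : Fm n (Fm r (FF n K))) : dTot n r K (dTot n r K φ) = 0 := by
  change dR (cconn n r K) (dR (cconn n r K) φ + sdel n r K φ) +
    sdel n r K (dR (cconn n r K) φ + sdel n r K φ) = 0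
  rw [map_add, map_add, dR_dR, dR_sdel, sdel_sdel]
  abel

/-- Proof. Quotient rule; if `g = 0` then `loc g = ⊤` (`0^1 x = 0`). -/
theorem dF_mem_loc' (g : MvPowerSeries (Fin n) K) (i : Fin n) {x : FF n K} (hx : x ∈ loc g) :
    dF n K i x ∈ loc g := by
  obtain ⟨N, r, hr⟩ := hx
  have h1 : dF n K i (inc n K g ^ N * x) = inc n K (pderiv K i r) := by rw [hr, dF_inc]
  rw [Derivation.leibniz, Derivation.leibniz_pow, dF_inc] at h1
  simp only [smul_eq_mul, nsmul_eq_mul] at h1
  refine ⟨N + 1, g * pderiv K i r - (N : MvPowerSeries (Fin n) K) * (pderiv K i g * r), ?_⟩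
  rw [map_sub, map_mul, map_mul, map_mul, map_natCast, ← hr, ← h1]
  rcases N with _ | N
  · simp
  · rw [Nat.add_sub_cancel]
    push_cast
    ring

theorem loc_mono (f : Fin r → MvPowerSeries (Fin n) K) {S S' : Finset (Fin r)} (h : S ⊆ S') :
    loc (fS f S) ≤ loc (fS f S') := by
  rintro x ⟨N, r, hr⟩
  refine ⟨N, fS f (S' \ S) ^ N * r, ?_⟩
  have h1 : fS f S' = fS f (S' \ S) * fS f S := (Finset.prod_sdiff h).symm
  rw [h1, map_mul, map_mul, map_pow, ← hr, mul_pow, mul_assoc]

/-- Proof. Component `(I, S)` of `dR φ`: `dF i (φ (I∖i) S)`; of `sdel φ`: `± φ I (S∖s)`. The degrees go up by one, `|I|` does not decrease. -/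
theorem dTot_mem (f : Fin r → MvPowerSeries (Fin n) K) (p m : ℤ) {φ : Fm n (Fm r (FF n K))}
    (h : φ ∈ totF f p m) : dTot n r K φ ∈ totF f p (m + 1) := by
  intro I S
  have key : dTot n r K φ I S = ∑ i ∈ I, sg i I • dF n K i (φ (I.erase i) S) +
      ((-1 : ℤ) ^ I.card) • ∑ s ∈ S, sg s S • φ I (S.erase s) := by
    have h1 : (∑ i ∈ I, sg i I • (cconn n r K).nab i (φ (I.erase i))) S =
        ∑ i ∈ I, sg i I • dF n K i (φ (I.erase i) S) := by
      rw [Finset.sum_apply]
      rfl
    rw [← h1]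
    rfl
  rw [key]
  constructor
  · refine Submodule.add_mem _ (Submodule.sum_mem _ fun i _ => ?_)
      (zsmul_mem (Submodule.sum_mem _ fun s _ => ?_) _)
    · exact zsmul_mem (dF_mem_loc' _ i (h (I.erase i) S).1) _
    · exact zsmul_mem (loc_mono f (Finset.erase_subset s S) (h I (S.erase s)).1) _
  · intro h2
    rw [Finset.sum_eq_zero, Finset.sum_eq_zero, CeA_z0, add_zero]
    · intro s hs
      rw [(h I (S.erase s)).2, CeA_z0]
      have h3 := Finset.card_erase_of_mem hs
      have h4 := Finset.card_pos.2 ⟨s, hs⟩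
      rcases h2 with h2 | h2
      · left
        omega
      · right
        exact h2
    · intro i hi
      rw [(h (I.erase i) S).2, map_zero, CeA_z0]
      have h3 := Finset.card_erase_of_mem hi
      have h4 := Finset.card_pos.2 ⟨i, hi⟩
      rcases h2 with h2 | h2
      · left
        omega
      · right
        omega

/-- The filtered complex computing the hypercohomology with supports in `V(f_1..f_r)` of the de Rham
complex of `K[[x_1..x_n]]`: the total complex of the double complex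
`C^(p,q) = ⊕_{|I|=p, |S|=q} R_(f_S) dx_I`, filtered by the degree `p` of the forms. Its spectral
sequence is the homology spectral sequence `E_1^(p,q) = H^q_I(Ω^p)`. -/
noncomputable def homSS (f : Fin r → MvPowerSeries (Fin n) K) : FCx K (Fm n (Fm r (FF n K))) where
  d := dTot n r K
  F := totF f
  dd := fun _ _ φ _ => dTot_dTot φ
  anti := by
    intro p m φ h I S
    exact ⟨(h I S).1, fun h2 => (h I S).2 (h2.imp id fun h3 => by omega)⟩
  dF := fun p m _ h => dTot_mem f p m h

theorem homSS_bounded (f : Fin r → MvPowerSeries (Fin n) K) : (homSS f).Bounded n := by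
  constructor
  · intro p m hp
    apply le_antisymm
    · intro φ h I S
      refine ⟨(h I S).1, fun h2 => (h I S).2 (h2.imp id fun h3 => ?_)⟩
      omega
    · intro φ h I S
      refine ⟨(h I S).1, fun h2 => (h I S).2 (h2.imp id fun h3 => ?_)⟩
      omega
  · intro p m hp
    rw [eq_bot_iff]
    intro φ h
    rw [Submodule.mem_bot]
    funext I S
    refine (h I S).2 (Or.inr ?_)
    have h1 : I.card ≤ n := by
      have := Finset.card_le_univ I
      rwa [Fintype.card_fin] at this
    omega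

end B5a
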