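import Pool.Agent.H.MP_b5a980_ag.CeA
import Pool.Agent.H.MP_b5a980_ag.VpB

set_option autoImplicit false
set_option linter.unusedSectionVars false
set_option linter.style.longLine false

/-!
Canonical filtration of the Cech complex (MP_b5a980_ag).
-/

namespace B5a

universe u v w

open MvPowerSeries

variable {n r : ℕ} {K : Type u} [Field K]

/-- A choice of the canonical filtrations of all localisations. -/
def VFam (lam : K →+ ℚ)
    (V : MvPowerSeries (Fin n) K → ℤ → Submodule (MvPowerSeries (Fin n) K) (FF n K)) : Prop :=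
  ∀ g, g ≠ 0 → VPack lam (std n K) ⊥ (V g) ∧ ∀ x, (∃ i, x ∈ V g i) ↔ x ∈ loc g

/-- Cochains of degree `q` with components in the step `i`. -/
def VC (V : MvPowerSeries (Fin n) K → ℤ → Submodule (MvPowerSeries (Fin n) K) (FF n K))
    (f : Fin r → MvPowerSeries (Fin n) K) (q i : ℤ) :
    Submodule (MvPowerSeries (Fin n) K) (Fm r (FF n K)) where
  carrier := {φ | ∀ S, φ S ∈ V (fS f S) i ∧ ((S.card : ℤ) ≠ q → φ S = 0)}
  add_mem' := by
    intro x y hx hy S
    refine ⟨Submodule.add_mem _ (hx S).1 (hy S).1, fun h => ?_⟩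
    rw [Pi.add_apply, (hx S).2 h, (hy S).2 h, add_zero]
  zero_mem' := by
    intro S
    exact ⟨Submodule.zero_mem _, fun _ => rfl⟩
  smul_mem' := by
    intro c x hx S
    refine ⟨Submodule.smul_mem _ _ (hx S).1, fun h => ?_⟩
    rw [Pi.smul_apply, (hx S).2 h, smul_zero]

/-- All cochains of degree `q`. -/
noncomputable def Lq (f : Fin r → MvPowerSeries (Fin n) K) (q : ℤ) :
    Submodule (MvPowerSeries (Fin n) K) (Fm r (FF n K)) where
  carrier := {φ | ∀ S, φ S ∈ loc (fS f S) ∧ ((S.card : ℤ) ≠ q → φ S = 0)}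
  add_mem' := by
    intro x y hx hy S
    refine ⟨Submodule.add_mem _ (hx S).1 (hy S).1, fun h => ?_⟩
    rw [Pi.add_apply, (hx S).2 h, (hy S).2 h, add_zero]
  zero_mem' := by
    intro S
    exact ⟨Submodule.zero_mem _, fun _ => rfl⟩
  smul_mem' := by
    intro c x hx S
    refine ⟨Submodule.smul_mem _ _ (hx S).1, fun h => ?_⟩
    rw [Pi.smul_apply, (hx S).2 h, smul_zero]

variable {lam : K →+ ℚ}
  {V : MvPowerSeries (Fin n) K → ℤ → Submodule (MvPowerSeries (Fin n) K) (FF n K)}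
  {f : Fin r → MvPowerSeries (Fin n) K}

theorem fS_ne_zero (hf : ∀ s, f s ≠ 0) (S : Finset (Fin r)) : fS f S ≠ 0 :=
  Finset.prod_ne_zero_iff.2 fun s _ => hf s

theorem CeB_mono (hV : VFam lam V) {g : MvPowerSeries (Fin n) K} (hg : g ≠ 0) {i j : ℤ}
    (hij : i ≤ j) {x : FF n K} (hx : x ∈ V g j) : x ∈ V g i :=
  (hV g hg).1.compat.le hij hx

/-- the component at `S` commutes with the derivatives -/
theorem CeB_proj (S : Finset (Fin r)) (i : Fin n) (φ : Fm r (FF n K)) :
    (LinearMap.proj S : Fm r (FF n K) →ₗ[MvPowerSeries (Fin n) K] FF n K)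
      ((cconn n r K).nab i φ) =
      (std n K).nab i ((LinearMap.proj S : Fm r (FF n K) →ₗ[MvPowerSeries (Fin n) K] FF n K) φ) :=
  rfl

/-- the inclusion of the component at `S` commutes with the derivatives -/
theorem CeB_single (S : Finset (Fin r)) (i : Fin n) (x : FF n K) :
    (LinearMap.single (MvPowerSeries (Fin n) K) (fun _ : Finset (Fin r) => FF n K) S)
      ((std n K).nab i x) =
      (cconn n r K).nab i
        ((LinearMap.single (MvPowerSeries (Fin n) K) (fun _ : Finset (Fin r) => FF n K) S) x) := by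
  funext T
  change (Pi.single S ((std n K).nab i x) : Fm r (FF n K)) T =
    (std n K).nab i ((Pi.single S x : Fm r (FF n K)) T)
  by_cases h : T = S
  · subst h
    rw [Pi.single_eq_same, Pi.single_eq_same]
  · rw [Pi.single_eq_of_ne h, Pi.single_eq_of_ne h, map_zero]

/-- generators indexed by a finite type -/
theorem CeB_good {M : Type v} [AddCommGroup M] [Module (MvPowerSeries (Fin n) K) M] [Module K M]
    [IsScalarTower K (MvPowerSeries (Fin n) K) M] {C : Conn n K M}
    {N : Submodule (MvPowerSeries (Fin n) K) M}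
    {W : ℤ → Submodule (MvPowerSeries (Fin n) K) M} {ι : Type} [Fintype ι] (u : ι → M) (a : ι → ℤ)
    (h : ∀ i, W i = N ⊔ ⨆ l, C.V (u l) (i - a l)) : GoodRel C N W := by
  let e := (Fintype.equivFin ι).symm
  refine ⟨Fintype.card ι, u ∘ e, a ∘ e, fun i => ?_⟩
  rw [h i]
  congr 1
  exact (Equiv.iSup_comp (g := fun l => C.V (u l) (i - a l)) e).symm

theorem CeB_compat (hV : VFam lam V) (hf : ∀ s, f s ≠ 0) (q : ℤ) :
    Compat (cconn n r K) (VC V f q) := by
  refine ⟨?_, ?_, ?_⟩
  · intro i φ hφ S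
    exact ⟨(hV _ (fS_ne_zero hf S)).1.compat.anti i (hφ S).1, (hφ S).2⟩
  · intro i l φ hφ S
    refine ⟨(hV _ (fS_ne_zero hf S)).1.compat.x_mem i l _ (hφ S).1, fun h => ?_⟩
    rw [Pi.smul_apply, (hφ S).2 h, smul_zero]
  · intro i l φ hφ S
    refine ⟨(hV _ (fS_ne_zero hf S)).1.compat.nab_mem i l _ (hφ S).1, fun h => ?_⟩
    change dF n K l (φ S) = 0
    rw [(hφ S).2 h, map_zero]

theorem CeB_gr (hV : VFam lam V) (hf : ∀ s, f s ≠ 0) (q : ℤ) :
    GrP lam (cconn n r K) (VC V f q) := by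
  intro i φ hφ
  have h : ∀ S : Finset (Fin r), ∃ c : Polynomial K, PW lam i c ∧
      Polynomial.aeval (std n K).theta c (φ S) ∈ V (fS f S) (i + 1) := fun S =>
    (hV _ (fS_ne_zero hf S)).1.gr i (φ S) (hφ S).1
  choose c hc hc' using h
  refine ⟨∏ S, c S, PW_prod _ _ fun S _ => hc S, fun S => ?_⟩
  have h1 : Polynomial.aeval (cconn n r K).theta (∏ S, c S) φ S =
      Polynomial.aeval (std n K).theta (∏ S, c S) (φ S) :=
    map_aeval_theta (LinearMap.proj S : Fm r (FF n K) →ₗ[MvPowerSeries (Fin n) K] FF n K)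
      (CeB_proj S) _ φ
  rw [h1]
  constructor
  · rw [← Finset.mul_prod_erase Finset.univ c (Finset.mem_univ S), mul_comm, map_mul,
      Module.End.mul_apply]
    exact (hV _ (fS_ne_zero hf S)).1.compat.aeval_mem _ (hc' S)
  · intro h2
    rw [(hφ S).2 h2, map_zero]

theorem CeB_good' (hV : VFam lam V) (hf : ∀ s, f s ≠ 0) (q : ℤ) :
    GoodRel (cconn n r K) ⊥ (VC V f q) := by
  classical
  have h : ∀ S : Finset (Fin r), ∃ (t : ℕ) (u : Fin t → FF n K) (a : Fin t → ℤ),
      ∀ i, V (fS f S) i = ⊥ ⊔ ⨆ l, (std n K).V (u l) (i - a l) := fun S =>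
    (hV _ (fS_ne_zero hf S)).1.good
  choose t u a h using h
  refine CeB_good (ι := Σ S : {S : Finset (Fin r) // (S.card : ℤ) = q}, Fin (t S.1))
    (fun x => LinearMap.single (MvPowerSeries (Fin n) K) (fun _ : Finset (Fin r) => FF n K) x.1.1
      (u x.1.1 x.2)) (fun x => a x.1.1 x.2) fun i => ?_
  rw [bot_sup_eq, iSup_sigma]
  have h1 : ∀ S : {S : Finset (Fin r) // (S.card : ℤ) = q},
      ⨆ l : Fin (t S.1), (cconn n r K).V
        (LinearMap.single (MvPowerSeries (Fin n) K) (fun _ : Finset (Fin r) => FF n K) S.1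
          (u S.1 l)) (i - a S.1 l) =
      (V (fS f S.1) i).map
        (LinearMap.single (MvPowerSeries (Fin n) K) (fun _ : Finset (Fin r) => FF n K) S.1) := by
    intro S
    rw [h S.1 i, bot_sup_eq, Submodule.map_iSup]
    refine iSup_congr fun l => ?_
    exact (map_V (C := std n K) (C' := cconn n r K) _ (CeB_single S.1) _ _).symm
  rw [iSup_congr h1]
  apply le_antisymm
  · intro φ hφ
    have h2 : φ = ∑ S : Finset (Fin r),
        LinearMap.single (MvPowerSeries (Fin n) K) (fun _ : Finset (Fin r) => FF n K) S (φ S) :=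
      (Finset.univ_sum_single φ).symm
    rw [h2]
    refine Submodule.sum_mem _ fun S _ => ?_
    by_cases hS : (S.card : ℤ) = q
    · exact Submodule.mem_iSup_of_mem ⟨S, hS⟩ (Submodule.mem_map_of_mem (hφ S).1)
    · rw [(hφ S).2 hS, map_zero]
      exact Submodule.zero_mem _
  · refine iSup_le fun S => ?_
    rintro _ ⟨x, hx, rfl⟩ T
    change (Pi.single S.1 x : Fm r (FF n K)) T ∈ V (fS f T) i ∧
      ((T.card : ℤ) ≠ q → (Pi.single S.1 x : Fm r (FF n K)) T = 0)
    by_cases hT : T = S.1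
    · subst hT
      rw [Pi.single_eq_same]
      exact ⟨hx, fun h3 => absurd S.2 h3⟩
    · rw [Pi.single_eq_of_ne hT]
      exact ⟨Submodule.zero_mem _, fun _ => rfl⟩

/-- Finite direct sums of canonical filtrations.

Proof. compat: componentwise. stab: trivial. gr: product over `S` of the polynomials (`PW_prod`; `(cconn).theta` and its polynomials act componentwise). good: for every `S` with `|S| = q` take the generators of `V (fS f S)`, placed in the component `S` (`Pi.single S`); altogether finitely many (reindex a finite sigma type by `Fin t`); `(cconn).V (Pi.single S u) i` is the set of `Pi.single S x`, `x ∈ (std).V u i` (`map_V` for the inclusion of the component). -/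
theorem vpack_VC (hV : VFam lam V) (hf : ∀ s, f s ≠ 0) (q : ℤ) :
    VPack lam (cconn n r K) ⊥ (VC V f q) := by
  refine ⟨CeB_compat hV hf q, ?_, CeB_gr hV hf q, CeB_good' hV hf q⟩
  intro i m hm
  rw [Submodule.mem_bot] at hm ⊢
  rw [hm, map_zero]

theorem mem_Lq_iff (hV : VFam lam V) (hf : ∀ s, f s ≠ 0) (q : ℤ) (φ : Fm r (FF n K)) :
    (∃ i, φ ∈ VC V f q i) ↔ φ ∈ Lq f q := by
  constructor
  · rintro ⟨i, hi⟩ S
    exact ⟨((hV _ (fS_ne_zero hf S)).2 _).1 ⟨i, (hi S).1⟩, (hi S).2⟩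
  · intro h
    have h1 : ∀ S : Finset (Fin r), ∃ i, φ S ∈ V (fS f S) i := fun S =>
      ((hV _ (fS_ne_zero hf S)).2 _).2 (h S).1
    choose j hj using h1
    obtain ⟨i, hi⟩ := (Set.finite_range j).bddBelow
    exact ⟨i, fun S => ⟨CeB_mono hV (fS_ne_zero hf S) (hi ⟨S, rfl⟩) (hj S), (h S).2⟩⟩

/-- Proof. `vpack_map` for the inclusions `loc (fS f (S∖s)) ≤ loc (fS f S)` (identity of `FF`), then sums. -/
theorem cech_mem_VC (hV : VFam lam V) (hf : ∀ s, f s ≠ 0) (q i : ℤ) {φ : Fm r (FF n K)}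
    (h : φ ∈ VC V f q i) : cech n r K φ ∈ VC V f (q + 1) i := by
  intro S
  change (∑ s ∈ S, sg s S • φ (S.erase s)) ∈ V (fS f S) i ∧
    ((S.card : ℤ) ≠ q + 1 → (∑ s ∈ S, sg s S • φ (S.erase s)) = 0)
  constructor
  · refine Submodule.sum_mem _ fun s hs => zsmul_mem ?_ _
    refine vpack_map (hV _ (fS_ne_zero hf (S.erase s))).1 (hV _ (fS_ne_zero hf S)).1
      (LinearMap.id : FF n K →ₗ[MvPowerSeries (Fin n) K] FF n K) (fun _ _ => rfl)
      (fun m hm => hm) (fun k m hm => ?_) i _ (h (S.erase s)).1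
    refine ((hV _ (fS_ne_zero hf S)).2 _).2 ?_
    exact loc_mono f (Finset.erase_subset s S)
      (((hV _ (fS_ne_zero hf (S.erase s))).2 _).1 ⟨k, hm⟩)
  · intro hS
    refine Finset.sum_eq_zero fun s hs => ?_
    rw [(h (S.erase s)).2, zsmul_zero]
    have h3 := Finset.card_erase_add_one hs
    have h4 : ((S.erase s).card : ℤ) + 1 = (S.card : ℤ) := by exact_mod_cast h3
    omega

theorem cech_mem_Lq (q : ℤ) {φ : Fm r (FF n K)}
    (h : φ ∈ Lq f q) : cech n r K φ ∈ Lq f (q + 1) := by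
  intro S
  change (∑ s ∈ S, sg s S • φ (S.erase s)) ∈ loc (fS f S) ∧
    ((S.card : ℤ) ≠ q + 1 → (∑ s ∈ S, sg s S • φ (S.erase s)) = 0)
  constructor
  · refine Submodule.sum_mem _ fun s hs => zsmul_mem ?_ _
    exact loc_mono f (Finset.erase_subset s S) (h (S.erase s)).1
  · intro hS
    refine Finset.sum_eq_zero fun s hs => ?_
    rw [(h (S.erase s)).2, zsmul_zero]
    have h3 := Finset.card_erase_add_one hs
    have h4 : ((S.erase s).card : ℤ) + 1 = (S.card : ℤ) := by exact_mod_cast h3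
    omega

end B5a
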