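import Pool.Agent.H.MP_b5a980_ag.ArB

set_option autoImplicit false
set_option linter.unusedSectionVars false
set_option linter.style.longLine false

/-!
Strictness of connection maps (MP_b5a980_ag, B3).
-/

namespace B5a

universe u v w

open MvPowerSeries

variable {n : ℕ} {K : Type u} [Field K] {M : Type v} [AddCommGroup M]
  [Module (MvPowerSeries (Fin n) K) M] [Module K M] [IsScalarTower K (MvPowerSeries (Fin n) K) M]
  {M' : Type w} [AddCommGroup M'] [Module (MvPowerSeries (Fin n) K) M'] [Module K M']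
  [IsScalarTower K (MvPowerSeries (Fin n) K) M']

/-- A stable submodule as a constant filtration. -/
theorem CeC_const {C : Conn n K M} (L : Submodule (MvPowerSeries (Fin n) K) M)
    (hL : ∀ i m, m ∈ L → C.nab i m ∈ L) : Compat C (fun _ => L) :=
  ⟨fun _ => le_rfl, fun _ _ _ hm => L.smul_mem _ hm, fun _ l m hm => hL l m hm⟩

/-- The intersection of a compatible filtration with a stable submodule. -/
theorem CeC_inf {C : Conn n K M} {V : ℤ → Submodule (MvPowerSeries (Fin n) K) M}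
    (hV : Compat C V) (L : Submodule (MvPowerSeries (Fin n) K) M)
    (hL : ∀ i m, m ∈ L → C.nab i m ∈ L) : Compat C (fun i => V i ⊓ L) := by
  refine ⟨fun i => inf_le_inf_right _ (hV.anti i), ?_, ?_⟩
  · rintro i l m ⟨h1, h2⟩
    exact ⟨hV.x_mem i l m h1, L.smul_mem _ h2⟩
  · rintro i l m ⟨h1, h2⟩
    exact ⟨hV.nab_mem i l m h1, hL l m h2⟩

/-- The image of a compatible filtration. -/
theorem CeC_map {C : Conn n K M} {C' : Conn n K M'}
    {V : ℤ → Submodule (MvPowerSeries (Fin n) K) M} (hV : Compat C V)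
    (φ : M →ₗ[MvPowerSeries (Fin n) K] M') (hφ : ∀ i m, φ (C.nab i m) = C'.nab i (φ m)) :
    Compat C' (fun i => (V i).map φ) := by
  refine ⟨fun i => Submodule.map_mono (hV.anti i), ?_, ?_⟩
  · rintro i l _ ⟨m, hm, rfl⟩
    refine ⟨_, hV.x_mem i l m hm, ?_⟩
    rw [map_smul]
  · rintro i l _ ⟨m, hm, rfl⟩
    exact ⟨_, hV.nab_mem i l m hm, hφ l m⟩

/-- The graded pieces of the image filtration. -/
theorem CeC_map_gr {lam : K →+ ℚ} {C : Conn n K M} {C' : Conn n K M'}
    {V : ℤ → Submodule (MvPowerSeries (Fin n) K) M} (hV : GrP lam C V)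
    (φ : M →ₗ[MvPowerSeries (Fin n) K] M') (hφ : ∀ i m, φ (C.nab i m) = C'.nab i (φ m)) :
    GrP lam C' (fun i => (V i).map φ) := by
  rintro i _ ⟨m, hm, rfl⟩
  obtain ⟨c, hc, h⟩ := hV i m hm
  exact ⟨c, hc, _, h, map_aeval_theta φ hφ c m⟩

/-- Connection maps are strict for the canonical filtrations.

Proof. `L' = ⨆ i, (V i).map φ` (a directed union, stable under the connection). `W1 i = (V i).map φ` is compatible and has the property `GrP` (`map_aeval_theta`). `W2 i = W i ⊓ L'` is compatible, has `GrP`, and is good relative to `⊥` by `artin_rees`. Every element of `W2 i` lies in `L'`, so in some `W1 j`; `good_sandwich` gives `N0` with `W2 i ≤ W1 (i - N0)`, and `gen_le` for the identity gives `W2 i ≤ W1 i`. -/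
theorem strict_map {lam : K →+ ℚ} {C : Conn n K M} {C' : Conn n K M'}
    {V : ℤ → Submodule (MvPowerSeries (Fin n) K) M} {W : ℤ → Submodule (MvPowerSeries (Fin n) K) M'}
    (hV : VPack lam C ⊥ V) (hW : VPack lam C' ⊥ W) (φ : M →ₗ[MvPowerSeries (Fin n) K] M')
    (hφ : ∀ i m, φ (C.nab i m) = C'.nab i (φ m)) (i : ℤ) (m : M) (hm : ∃ j, m ∈ V j)
    (h : φ m ∈ W i) : ∃ m' ∈ V i, φ m' = φ m := by
  have hc1 : Compat C' (fun i => (V i).map φ) := CeC_map hV.compat φ hφ
  have hg1 : GrP lam C' (fun i => (V i).map φ) := CeC_map_gr hV.gr φ hφ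
  obtain ⟨L, hL⟩ : ∃ L : Submodule (MvPowerSeries (Fin n) K) M', ∀ x, x ∈ L ↔
      ∃ j, x ∈ (V j).map φ := by
    refine ⟨⨆ j, (V j).map φ, fun x => ?_⟩
    refine Submodule.mem_iSup_of_directed _ ?_
    intro i j
    refine ⟨min i j, ?_, ?_⟩
    · exact hc1.le (min_le_left i j)
    · exact hc1.le (min_le_right i j)
  have hLs : ∀ l x, x ∈ L → C'.nab l x ∈ L := by
    intro l x hx
    obtain ⟨j, hj⟩ := (hL x).1 hx
    exact (hL _).2 ⟨_, hc1.nab_mem j l x hj⟩
  have hc2 : Compat C' (fun i => W i ⊓ L) := CeC_inf hW.compat L hLs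
  have hg2 : GrP lam C' (fun i => W i ⊓ L) := by
    rintro i x ⟨h1, h2⟩
    obtain ⟨c, hc, h3⟩ := hW.gr i x h1
    exact ⟨c, hc, h3, (CeC_const L hLs).aeval_mem c (i := 0) h2⟩
  have hgood : GoodRel C' ⊥ (fun i => W i ⊓ L) :=
    artin_rees hW.good hc2 (fun i => bot_le) (fun i => inf_le_left)
  obtain ⟨N0, hN0⟩ := good_sandwich hgood hc1 (fun i => bot_le) (fun i x hx => (hL x).1 hx.2)
  have key := gen_le hg2 hg1 hc1 (AddMonoidHom.id M') N0 (fun i x hx => hN0 i hx) (by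
    intro c i j x _ _ _ _
    have e : Polynomial.aeval C'.theta c ((AddMonoidHom.id M') x) -
        (AddMonoidHom.id M') (Polynomial.aeval C'.theta c x) = 0 := sub_self _
    rw [e]
    exact Submodule.zero_mem _)
  obtain ⟨j, hj⟩ := hm
  obtain ⟨m', hm', he⟩ := key i (φ m) ⟨h, (hL _).2 ⟨j, m, hj, rfl⟩⟩
  exact ⟨m', hm', he⟩

/-- Canonical filtrations of subquotients.

Proof. compat, stab: clear. gr: `m = v + x`, `c(θ) v ∈ V (i+1) ⊓ Kr`, `c(θ) x ∈ N`. good: `V i ⊓ Kr` is good relative to `⊥` (`artin_rees`), add `N`. -/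
theorem vpack_sup {lam : K →+ ℚ} {C : Conn n K M}
    {V : ℤ → Submodule (MvPowerSeries (Fin n) K) M} (hV : VPack lam C ⊥ V)
    (Kr N : Submodule (MvPowerSeries (Fin n) K) M) (hK : ∀ i m, m ∈ Kr → C.nab i m ∈ Kr)
    (hN : ∀ i m, m ∈ N → C.nab i m ∈ N) : VPack lam C N (fun i => (V i ⊓ Kr) ⊔ N) := by
  have hc : Compat C (fun i => V i ⊓ Kr) := CeC_inf hV.compat Kr hK
  refine ⟨⟨fun i => sup_le_sup_right (hc.anti i) _, ?_, ?_⟩, hN, ?_, ?_⟩
  · intro i l m hm
    obtain ⟨v, hv, x, hx, rfl⟩ := Submodule.mem_sup.1 hm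
    rw [smul_add]
    exact Submodule.add_mem_sup (hc.x_mem i l v hv) (N.smul_mem _ hx)
  · intro i l m hm
    obtain ⟨v, hv, x, hx, rfl⟩ := Submodule.mem_sup.1 hm
    rw [map_add]
    exact Submodule.add_mem_sup (hc.nab_mem i l v hv) (hN l x hx)
  · intro i m hm
    obtain ⟨v, hv, x, hx, rfl⟩ := Submodule.mem_sup.1 hm
    obtain ⟨c, hcw, h3⟩ := hV.gr i v hv.1
    refine ⟨c, hcw, ?_⟩
    rw [map_add]
    exact Submodule.add_mem_sup ⟨h3, (CeC_const Kr hK).aeval_mem c (i := 0) hv.2⟩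
      ((CeC_const N hN).aeval_mem c (i := 0) hx)
  · obtain ⟨t, u, a, h⟩ := artin_rees hV.good hc (fun i => bot_le) (fun i => inf_le_left)
    refine ⟨t, u, a, fun i => ?_⟩
    have h1 : V i ⊓ Kr = ⨆ l, C.V (u l) (i - a l) := by
      have h2 := h i
      rwa [bot_sup_eq] at h2
    change (V i ⊓ Kr) ⊔ N = _
    rw [h1, sup_comm]

end B5a
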