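import Pool.Agent.H.MP_b5a980_ag.PmB

set_option autoImplicit false
set_option linter.unusedSectionVars false
set_option linter.style.longLine false

/-!
The top degree: reduction to order zero (MP_b5a980_ag, B6).
-/

namespace B5a

universe u v w

open MvPowerSeries

variable {n : ℕ} {K : Type u} [Field K]

/-- The connection of `R` itself. Fill the proofs. -/
noncomputable def rconn (n : ℕ) (K : Type u) [Field K] : Conn n K (MvPowerSeries (Fin n) K) where
  nab i := ((pderiv K i : Derivation K _ _) :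
    MvPowerSeries (Fin n) K →ₗ[K] MvPowerSeries (Fin n) K)
  leib := by
    intro i r m
    change pderiv K i (r • m) = pderiv K i r • m + r • pderiv K i m
    simp only [smul_eq_mul, Derivation.leibniz]
    ring
  comm := by
    intro i j m
    exact Pm0_pderiv_comm i j m

/-- `π(Σ r_(j,γ) ∂^γ e_j) = Σ_γ (-∂)^γ r_(j,γ)` -/
noncomputable def ptop (n : ℕ) (K : Type u) [Field K] (t : ℕ) :
    Pm n K t →ₗ[K] (Fin t → MvPowerSeries (Fin n) K) :=
  Finsupp.lsum K fun p : Fin t × (Fin n →₀ ℕ) =>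
    (LinearMap.single K (fun _ : Fin t => MvPowerSeries (Fin n) K) p.1).comp
      (((-1 : K) ^ p.2.degree) • (rconn n K).pw p.2)

theorem ToA_single (t : ℕ) (j : Fin t) (γ : Fin n →₀ ℕ) (r : MvPowerSeries (Fin n) K) :
    ptop n K t (Finsupp.single (j, γ) r) =
      Pi.single j (((-1 : K) ^ γ.degree) • (rconn n K).pw γ r) := by
  unfold ptop
  rw [Finsupp.lsum_single]
  rfl

theorem ToA_pw_succ (l : Fin n) (γ : Fin n →₀ ℕ) (r : MvPowerSeries (Fin n) K) :
    (rconn n K).pw (γ + Finsupp.single l 1) r = (rconn n K).pw γ (pderiv K l r) := by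
  rw [Conn.pw_add, Conn.pw_single]
  rfl

/-- Proof. On `single (j,γ) r`: `(-∂)^γ ∂_l r + (-∂)^(γ+e_l) r = 0`. -/
theorem ptop_nab (t : ℕ) (l : Fin n) (φ : Pm n K t) : ptop n K t ((pmc n K t).nab l φ) = 0 := by
  induction φ using Finsupp.induction_linear with
  | zero => rw [map_zero, map_zero]
  | add f g hf hg => rw [map_add, map_add, hf, hg, add_zero]
  | single p r =>
    obtain ⟨j, γ⟩ := p
    rw [pmnab_single, map_add, ToA_single, ToA_single, ToA_pw_succ, map_add,
      Finsupp.degree_single, pow_succ, mul_neg_one, neg_smul, Pi.single_neg, add_neg_cancel]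

theorem ptop_single_zero (t : ℕ) (j : Fin t) (r : MvPowerSeries (Fin n) K) :
    ptop n K t (Finsupp.single (j, 0) r) = Pi.single j r := by
  rw [ToA_single, Conn.pw_zero, map_zero, pow_zero, one_smul]

theorem ToA_pw_mem (d : ℕ) : ∀ (γ : Fin n →₀ ℕ), γ.degree = d → ∀ (e : ℕ)
    (r : MvPowerSeries (Fin n) K), r ∈ mI n K (e + d) → (rconn n K).pw γ r ∈ mI n K e := by
  induction d with
  | zero =>
    intro γ hγ e r hr
    rw [Finsupp.degree_eq_zero_iff] at hγ
    rw [hγ, Conn.pw_zero]
    exact hr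
  | succ d ih =>
    intro γ hγ e r hr
    have h0 : γ ≠ 0 := by
      rintro rfl
      simp at hγ
    obtain ⟨l, γ', h1, h2⟩ := Conn.exists_single_of_ne_zero h0
    rw [h1, ToA_pw_succ]
    exact ih γ' (by omega) e _ (pderiv_mem_mI hr l)

theorem ToA_smul_mem {e : ℕ} (c : K) {r : MvPowerSeries (Fin n) K} (hr : r ∈ mI n K e) :
    c • r ∈ mI n K e := by
  rw [MvPowerSeries.smul_eq_C_mul]
  exact Ideal.mul_mem_left _ _ hr

/-- Proof. `(-∂)^γ r ∈ mI (e - |γ|)` for `r ∈ mI e` (`pderiv_mem_mI`). -/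
theorem ptop_mem {t : ℕ} (a : Fin t → ℤ) (i : ℤ) {φ : Pm n K t} (h : φ ∈ PV a i) (j : Fin t) :
    ptop n K t φ j ∈ mI n K (i - a j).toNat := by
  rw [PmB_sum φ, map_sum, Finset.sum_apply]
  refine Ideal.sum_mem _ fun p _ => ?_
  rw [ToA_single]
  by_cases hj : p.1 = j
  · rw [← hj, Pi.single_eq_same]
    refine ToA_smul_mem _ ?_
    have h1 := h p
    rcases le_or_gt (i - a p.1) 0 with h2 | h2
    · have h3 : (i - a p.1).toNat = 0 := by omega
      rw [h3, mI_zero]
      exact Submodule.mem_top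
    · refine ToA_pw_mem p.2.degree p.2 rfl _ _ (mI_anti (le_of_eq ?_) h1)
      omega
  · rw [Pi.single_eq_of_ne (fun h' => hj h'.symm)]
    exact Ideal.zero_mem _

theorem ToA_sum_single (t : ℕ) (j : Fin t) (r : MvPowerSeries (Fin n) K) :
    ∑ j' : Fin t, (Finsupp.single (j', (0 : Fin n →₀ ℕ))
      ((Pi.single j r : Fin t → MvPowerSeries (Fin n) K) j') : Pm n K t) =
      Finsupp.single (j, 0) r := by
  rw [Finset.sum_eq_single j]
  · rw [Pi.single_eq_same]
  · intro b _ hb
    rw [Pi.single_eq_of_ne hb, Finsupp.single_zero]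
  · intro h
    exact absurd (Finset.mem_univ j) h

theorem ToA_red_single {t : ℕ} (a : Fin t → ℤ) (i : ℤ) (j : Fin t) (d : ℕ) :
    ∀ (γ : Fin n →₀ ℕ), γ.degree = d → ∀ r : MvPowerSeries (Fin n) K,
      r ∈ mI n K (i - a j + d).toNat →
      ∃ ψ : Fin n → Pm n K t, (∀ l, ψ l ∈ PV a (i + 1)) ∧
        (Finsupp.single (j, γ) r : Pm n K t) =
          ∑ j', Finsupp.single (j', 0) (ptop n K t (Finsupp.single (j, γ) r) j') +
            ∑ l, (pmc n K t).nab l (ψ l) := by
  classical
  induction d with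
  | zero =>
    intro γ hγ r hr
    rw [Finsupp.degree_eq_zero_iff] at hγ
    refine ⟨fun _ => 0, fun _ => Submodule.zero_mem _, ?_⟩
    rw [hγ, ptop_single_zero, ToA_sum_single]
    simp
  | succ d ih =>
    intro γ hγ r hr
    have h0 : γ ≠ 0 := by
      rintro rfl
      simp at hγ
    obtain ⟨l, γ', h1, h2⟩ := Conn.exists_single_of_ne_zero h0
    have hd : γ'.degree = d := by omega
    have h3 : pderiv K l r ∈ mI n K (i - a j + d).toNat := by
      rcases Nat.eq_zero_or_pos (i - a j + (d + 1 : ℕ)).toNat with h4 | h4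
      · have h5 : (i - a j + d).toNat = 0 := by omega
        rw [h5, mI_zero]
        exact Submodule.mem_top
      · refine pderiv_mem_mI (mI_anti (le_of_eq ?_) hr) l
        omega
    obtain ⟨ψ, h4, h5⟩ := ih γ' hd _ h3
    have h6 : (Finsupp.single (j, γ) r : Pm n K t) =
        (pmc n K t).nab l (Finsupp.single (j, γ') r) - Finsupp.single (j, γ') (pderiv K l r) := by
      rw [pmnab_single, h1, add_sub_cancel_left]
    have h7 : ptop n K t (Finsupp.single (j, γ) r) =
        - ptop n K t (Finsupp.single (j, γ') (pderiv K l r)) := by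
      rw [h6, map_sub, ptop_nab, zero_sub]
    refine ⟨fun l' => (if l' = l then Finsupp.single (j, γ') r else 0) - ψ l', fun l' => ?_, ?_⟩
    · refine Submodule.sub_mem _ ?_ (h4 l')
      split_ifs
      · refine PmB_single_mem (mI_anti (le_of_eq ?_) hr)
        rw [hd]
        congr 1
        push_cast
        ring
      · exact Submodule.zero_mem _
    · rw [h7]
      have h8 : ∑ l', (pmc n K t).nab l' ((if l' = l then Finsupp.single (j, γ') r else 0) - ψ l') =
          (pmc n K t).nab l (Finsupp.single (j, γ') r) - ∑ l', (pmc n K t).nab l' (ψ l') := by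
        simp only [map_sub, Finset.sum_sub_distrib]
        congr 1
        rw [Finset.sum_eq_single l]
        · rw [if_pos rfl]
        · intro b _ hb
          rw [if_neg hb, map_zero]
        · intro h'
          exact absurd (Finset.mem_univ l) h'
      have h9 : ∑ j' : Fin t, (Finsupp.single (j', (0 : Fin n →₀ ℕ))
            ((-ptop n K t (Finsupp.single (j, γ') (pderiv K l r))) j') : Pm n K t) =
          -∑ j' : Fin t, (Finsupp.single (j', (0 : Fin n →₀ ℕ))
            (ptop n K t (Finsupp.single (j, γ') (pderiv K l r)) j') : Pm n K t) := by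
        rw [← Finset.sum_neg_distrib]
        refine Finset.sum_congr rfl fun j' _ => ?_
        rw [Pi.neg_apply, Finsupp.single_neg]
      rw [h8, h9, h6]
      generalize (pmc n K t).nab l (Finsupp.single (j, γ') r) = A
      generalize hS : ∑ j' : Fin t, (Finsupp.single (j', (0 : Fin n →₀ ℕ))
            (ptop n K t (Finsupp.single (j, γ') (pderiv K l r)) j') : Pm n K t) = S at h5 ⊢
      rw [h5]
      abel

/-- Reduction to order zero.

Proof. Induct on the order of `φ` (`OrdLe`), or prove it for `single (j,γ) r`, `r ∈ mI (i - a_j + |γ|).toNat`, by induction on `|γ|`, and sum: for `γ = γ' + e_l`: `single (j,γ) r = nab_l (single (j,γ') r) - single (j,γ') (∂_l r)`, where `single (j,γ') r ∈ PV a (i+1)` and `∂_l r ∈ mI (i - a_j + |γ'|).toNat`. -/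
theorem ptop_red {t : ℕ} (a : Fin t → ℤ) (i : ℤ) {φ : Pm n K t} (h : φ ∈ PV a i) :
    ∃ ψ : Fin n → Pm n K t, (∀ l, ψ l ∈ PV a (i + 1)) ∧
      φ = ∑ j, Finsupp.single (j, 0) (ptop n K t φ j) + ∑ l, (pmc n K t).nab l (ψ l) := by
  classical
  have hs : ∀ p : Fin t × (Fin n →₀ ℕ), ∃ ψ : Fin n → Pm n K t, (∀ l, ψ l ∈ PV a (i + 1)) ∧
      (Finsupp.single (p.1, p.2) (φ p) : Pm n K t) =
        ∑ j', Finsupp.single (j', 0) (ptop n K t (Finsupp.single (p.1, p.2) (φ p)) j') +
          ∑ l, (pmc n K t).nab l (ψ l) :=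
    fun p => ToA_red_single a i p.1 p.2.degree p.2 rfl (φ p) (h p)
  choose ψ h1 h2 using hs
  refine ⟨fun l => ∑ p ∈ φ.support, ψ p l, fun l => Submodule.sum_mem _ fun p _ => h1 p l, ?_⟩
  conv_lhs => rw [PmB_sum φ]
  rw [Finset.sum_congr rfl fun p _ => h2 p, Finset.sum_add_distrib, Finset.sum_comm]
  congr 1
  · refine Finset.sum_congr rfl fun j' _ => ?_
    conv_rhs => rw [PmB_sum φ, map_sum, Finset.sum_apply]
    exact (map_sum (Finsupp.singleAddHom (j', (0 : Fin n →₀ ℕ)) :
      MvPowerSeries (Fin n) K →+ Pm n K t) _ _).symm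
  · rw [Finset.sum_comm]
    refine Finset.sum_congr rfl fun l _ => ?_
    rw [map_sum]

/-- Integration by parts for `π`.

Proof. Induction on the degree of `γ`: `r pw (γ+e_l) w = nab_l (r pw γ w) - (∂_l r) pw γ w`. -/
theorem ptop_by_parts (t : ℕ) (γ : Fin n →₀ ℕ) (r : MvPowerSeries (Fin n) K) (w : Pm n K t) :
    ptop n K t (r • (pmc n K t).pw γ w) =
      ptop n K t ((((-1 : K) ^ γ.degree) • (rconn n K).pw γ r) • w) := by
  induction hd : γ.degree generalizing γ r with
  | zero =>
    rw [Finsupp.degree_eq_zero_iff] at hd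
    rw [hd, Conn.pw_zero, Conn.pw_zero, pow_zero, one_smul]
  | succ d ih =>
    have h0 : γ ≠ 0 := by
      rintro rfl
      simp at hd
    obtain ⟨l, γ', h1, h2⟩ := Conn.exists_single_of_ne_zero h0
    have h3 : r • (pmc n K t).pw γ w =
        (pmc n K t).nab l (r • (pmc n K t).pw γ' w) - pderiv K l r • (pmc n K t).pw γ' w := by
      rw [(pmc n K t).leib, add_sub_cancel_left, Conn.nab_pw, h1]
    rw [h3, map_sub, ptop_nab, zero_sub, ih γ' _ (by omega), ← map_neg, h1, ToA_pw_succ,
      pow_succ, mul_neg_one, neg_smul, neg_smul]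

end B5a
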