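import Pool.Agent.H.MP_b5a980_ag.MI0

set_option autoImplicit false
set_option linter.unusedSectionVars false
set_option linter.style.longLine false

/-!
Continuous linear maps of powers of `K[[x]]` have closed image (MP_b5a980_ag, B6).
-/

namespace B5a

universe u v w

open MvPowerSeries

variable {n : ℕ} {K : Type u} [Field K]

/-- the functional `x ↦ coeff β (Θ x j)` -/
noncomputable def ToB_l {s t : ℕ} (Θ : (Fin s → MvPowerSeries (Fin n) K) →ₗ[K]
      (Fin t → MvPowerSeries (Fin n) K)) (p : Fin t × (Fin n →₀ ℕ)) :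
    (Fin s → MvPowerSeries (Fin n) K) →ₗ[K] K :=
  (coeff p.2) ∘ₗ (LinearMap.proj p.1) ∘ₗ Θ

theorem ToB_l_apply {s t : ℕ} (Θ : (Fin s → MvPowerSeries (Fin n) K) →ₗ[K]
      (Fin t → MvPowerSeries (Fin n) K)) (p : Fin t × (Fin n →₀ ℕ))
    (x : Fin s → MvPowerSeries (Fin n) K) : ToB_l Θ p x = coeff p.2 (Θ x p.1) := rfl

/-- the basis vectors -/
noncomputable def ToB_b {s : ℕ} (n : ℕ) (K : Type u) [Field K] (p : Fin s × (Fin n →₀ ℕ)) :
    Fin s → MvPowerSeries (Fin n) K :=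
  Pi.single p.1 (monomial p.2 1)

theorem ToB_coeff_b {s : ℕ} (p : Fin s × (Fin n →₀ ℕ)) (q : Fin s) (γ : Fin n →₀ ℕ) :
    coeff γ (ToB_b n K p q) = if p = (q, γ) then 1 else 0 := by
  classical
  unfold ToB_b
  obtain ⟨p1, p2⟩ := p
  by_cases h : q = p1
  · subst h
    rw [Pi.single_eq_same, coeff_monomial]
    by_cases h2 : γ = p2
    · rw [if_pos h2, if_pos (by rw [h2])]
    · rw [if_neg h2, if_neg (by rintro h; exact h2 (Prod.mk.inj h).2.symm)]
  · rw [Pi.single_eq_of_ne h, coeff_zero, if_neg (by rintro h'; exact h (Prod.mk.inj h').1.symm)]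

theorem ToB_finite (s : ℕ) (n N : ℕ) :
    {p : Fin s × (Fin n →₀ ℕ) | p.2.degree ≤ N}.Finite := by
  refine ((Set.finite_univ : (Set.univ : Set (Fin s)).Finite).prod
    (Finsupp.finite_of_degree_le (σ := Fin n) N)).subset ?_
  intro p hp
  exact ⟨trivial, hp⟩

open Classical in
/-- `1` on the pairs of degree at least `e` -/
noncomputable def ToB_c (K : Type u) [Field K] {s : ℕ} (e : Fin s → ℕ)
    (p : Fin s × (Fin n →₀ ℕ)) : K :=
  if e p.1 ≤ p.2.degree then 1 else 0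

theorem ToB_f_fin {s t : ℕ} {Θ : (Fin s → MvPowerSeries (Fin n) K) →ₗ[K]
      (Fin t → MvPowerSeries (Fin n) K)}
    (hΘ : ∀ N : ℕ, ∃ N' : ℕ, ∀ x, (∀ q, x q ∈ mI n K N') → ∀ j, Θ x j ∈ mI n K N)
    (e : Fin s → ℕ) (p : Fin t × (Fin n →₀ ℕ)) :
    (Function.support fun r => ToB_c K e r * ToB_l Θ p (ToB_b n K r)).Finite := by
  obtain ⟨N', hN'⟩ := hΘ (p.2.degree + 1)
  refine (ToB_finite s n N').subset ?_
  intro r hr
  by_contra h
  refine hr ?_
  have h1 : N' ≤ r.2.degree := (not_le.1 h).le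
  have h2 : ∀ q, ToB_b n K r q ∈ mI n K N' := by
    intro q γ hγ
    rw [ToB_coeff_b, if_neg]
    rintro rfl
    exact absurd h1 (not_le.2 hγ)
  have h3 := hN' _ h2 p.1 p.2 (Nat.lt_succ_self _)
  change ToB_c K e r * coeff p.2 (Θ (ToB_b n K r) p.1) = 0
  rw [h3, mul_zero]

/-- the transpose on basis vectors -/
noncomputable def ToB_f {s t : ℕ} {Θ : (Fin s → MvPowerSeries (Fin n) K) →ₗ[K]
      (Fin t → MvPowerSeries (Fin n) K)}
    (hΘ : ∀ N : ℕ, ∃ N' : ℕ, ∀ x, (∀ q, x q ∈ mI n K N') → ∀ j, Θ x j ∈ mI n K N)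
    (e : Fin s → ℕ) (p : Fin t × (Fin n →₀ ℕ)) : (Fin s × (Fin n →₀ ℕ)) →₀ K :=
  Finsupp.ofSupportFinite _ (ToB_f_fin hΘ e p)

/-- the pairing with `x` -/
noncomputable def ToB_ev {s : ℕ} (x : Fin s → MvPowerSeries (Fin n) K) :
    ((Fin s × (Fin n →₀ ℕ)) →₀ K) →ₗ[K] K :=
  Finsupp.linearCombination K fun p => coeff p.2 (x p.1)

theorem ToB_pair {s t : ℕ} {Θ : (Fin s → MvPowerSeries (Fin n) K) →ₗ[K]
      (Fin t → MvPowerSeries (Fin n) K)}
    (hΘ : ∀ N : ℕ, ∃ N' : ℕ, ∀ x, (∀ q, x q ∈ mI n K N') → ∀ j, Θ x j ∈ mI n K N)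
    (e : Fin s → ℕ) (p : Fin t × (Fin n →₀ ℕ)) (x : Fin s → MvPowerSeries (Fin n) K)
    (hx : ∀ q, x q ∈ mI n K (e q)) :
    ToB_ev x (ToB_f hΘ e p) = coeff p.2 (Θ x p.1) := by
  classical
  obtain ⟨N', hN'⟩ := hΘ (p.2.degree + 1)
  have hfin := ToB_finite s n N'
  have hsub : (ToB_f hΘ e p).support ⊆ hfin.toFinset := by
    intro r hr
    rw [Set.Finite.mem_toFinset]
    by_contra h
    refine (Finsupp.mem_support_iff.1 hr) ?_
    have h1 : N' ≤ r.2.degree := (not_le.1 h).le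
    have h2 : ∀ q, ToB_b n K r q ∈ mI n K N' := by
      intro q γ hγ
      rw [ToB_coeff_b, if_neg]
      rintro rfl
      exact absurd h1 (not_le.2 hγ)
    have h3 := hN' _ h2 p.1 p.2 (Nat.lt_succ_self _)
    change ToB_c K e r * coeff p.2 (Θ (ToB_b n K r) p.1) = 0
    rw [h3, mul_zero]
  have h4 : ToB_ev x (ToB_f hΘ e p) =
      ∑ r ∈ hfin.toFinset, coeff r.2 (x r.1) * ToB_l Θ p (ToB_b n K r) := by
    rw [ToB_ev, Finsupp.linearCombination_apply,
      Finsupp.sum_of_support_subset _ hsub (fun r (a : K) => a • coeff r.2 (x r.1))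
        (fun _ _ => zero_smul _ _)]
    refine Finset.sum_congr rfl fun r _ => ?_
    change (ToB_c K e r * ToB_l Θ p (ToB_b n K r)) • coeff r.2 (x r.1) = _
    unfold ToB_c
    by_cases h : e r.1 ≤ r.2.degree
    · rw [if_pos h, one_mul, smul_eq_mul, mul_comm]
    · rw [if_neg h, zero_mul, zero_smul, hx r.1 r.2 (not_le.1 h), zero_mul]
  have h5 : ∀ q, (x - ∑ r ∈ hfin.toFinset, coeff r.2 (x r.1) • ToB_b n K r) q ∈ mI n K N' := by
    intro q γ hγ
    rw [Pi.sub_apply, map_sub, Finset.sum_apply, map_sum, sub_eq_zero,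
      Finset.sum_eq_single (q, γ)]
    · rw [Pi.smul_apply, map_smul, ToB_coeff_b, if_pos rfl, smul_eq_mul, mul_one]
    · intro r _ hr
      rw [Pi.smul_apply, map_smul, ToB_coeff_b, if_neg hr, smul_zero]
    · intro h
      exact absurd (hfin.mem_toFinset.2 (show γ.degree ≤ N' from hγ.le)) h
  have h6 := hN' _ h5 p.1 p.2 (Nat.lt_succ_self _)
  rw [map_sub, Pi.sub_apply, map_sub, sub_eq_zero, map_sum, Finset.sum_apply, map_sum] at h6
  rw [h4, h6]
  refine Finset.sum_congr rfl fun r _ => ?_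
  rw [map_smul, Pi.smul_apply, map_smul, smul_eq_mul]
  rfl

/-- Linear compactness (duality). -/
theorem closed_image {s t : ℕ} (Θ : (Fin s → MvPowerSeries (Fin n) K) →ₗ[K]
      (Fin t → MvPowerSeries (Fin n) K))
    (hΘ : ∀ N : ℕ, ∃ N' : ℕ, ∀ x, (∀ q, x q ∈ mI n K N') → ∀ j, Θ x j ∈ mI n K N)
    (e : Fin s → ℕ) (z : Fin t → MvPowerSeries (Fin n) K)
    (hz : ∀ N : ℕ, ∃ x, (∀ q, x q ∈ mI n K (e q)) ∧ ∀ j, z j - Θ x j ∈ mI n K N) :
    ∃ x, (∀ q, x q ∈ mI n K (e q)) ∧ z = Θ x := by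
  classical
  let θ : ((Fin t × (Fin n →₀ ℕ)) →₀ K) →ₗ[K] ((Fin s × (Fin n →₀ ℕ)) →₀ K) :=
    Finsupp.linearCombination K (ToB_f hΘ e)
  have hker : ToB_ev z ∈ (LinearMap.ker θ).dualAnnihilator := by
    rw [Submodule.mem_dualAnnihilator]
    intro v hv
    obtain ⟨x, hx, hxz⟩ := hz (v.support.sup (fun r => r.2.degree) + 1)
    have h1 : ToB_ev z v = ToB_ev x (θ v) := by
      have h2 : ToB_ev x (θ v) = v.sum fun r a => a • ToB_ev x (ToB_f hΘ e r) := by
        change ToB_ev x (Finsupp.linearCombination K (ToB_f hΘ e) v) = _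
        rw [Finsupp.linearCombination_apply, Finsupp.sum, map_sum, Finsupp.sum]
        refine Finset.sum_congr rfl fun r _ => ?_
        rw [map_smul]
      rw [h2, ToB_ev, Finsupp.linearCombination_apply]
      refine Finset.sum_congr rfl fun r hr => ?_
      simp only
      rw [ToB_pair hΘ e r x hx]
      have h3 := hxz r.1 r.2 (Nat.lt_succ_of_le (Finset.le_sup (f := fun r => r.2.degree) hr))
      rw [map_sub, sub_eq_zero] at h3
      rw [h3]
    rw [h1, LinearMap.mem_ker.1 hv, map_zero]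
  rw [← LinearMap.range_dualMap_eq_dualAnnihilator_ker] at hker
  obtain ⟨φ, hφ⟩ := hker
  let x : Fin s → MvPowerSeries (Fin n) K := fun q γ =>
    ToB_c K e (q, γ) * φ (Finsupp.single (q, γ) 1)
  have hxc : ∀ q γ, coeff γ (x q) = ToB_c K e (q, γ) * φ (Finsupp.single (q, γ) 1) :=
    fun q γ => rfl
  have hxW : ∀ q, x q ∈ mI n K (e q) := by
    intro q γ hγ
    rw [hxc, ToB_c, if_neg (not_le.2 hγ), zero_mul]
  refine ⟨x, hxW, ?_⟩
  funext j
  ext β
  rw [← ToB_pair hΘ e (j, β) x hxW]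
  have h1 : ToB_ev z (Finsupp.single (j, β) 1) = coeff β (z j) := by
    rw [ToB_ev, Finsupp.linearCombination_single, one_smul]
  rw [← h1, ← hφ, LinearMap.dualMap_apply]
  have h2 : θ (Finsupp.single (j, β) 1) = ToB_f hΘ e (j, β) := by
    change Finsupp.linearCombination K (ToB_f hΘ e) _ = _
    rw [Finsupp.linearCombination_single, one_smul]
  rw [h2]
  conv_lhs => rw [← Finsupp.sum_single (ToB_f hΘ e (j, β))]
  rw [Finsupp.sum, map_sum, ToB_ev, Finsupp.linearCombination_apply, Finsupp.sum]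
  refine Finset.sum_congr rfl fun r _ => ?_
  have h3 : (Finsupp.single r (ToB_f hΘ e (j, β) r)) =
      (ToB_f hΘ e (j, β) r) • Finsupp.single r (1 : K) := by
    rw [Finsupp.smul_single, smul_eq_mul, mul_one]
  rw [h3, map_smul, hxc]
  change (ToB_c K e r * ToB_l Θ (j, β) (ToB_b n K r)) • φ (Finsupp.single r 1) =
    (ToB_c K e r * ToB_l Θ (j, β) (ToB_b n K r)) • (ToB_c K e r * φ (Finsupp.single r 1))
  unfold ToB_c
  by_cases h : e r.1 ≤ r.2.degree
  · rw [if_pos h, one_mul, one_mul]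
  · rw [if_neg h, zero_mul, zero_smul, zero_smul]

end B5a
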