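import Pool.Agent.H.MP_b5a980_ag.ArB
import Pool.Agent.H.MP_b5a980_ag.ToA
import Pool.Agent.H.MP_b5a980_ag.ToB

set_option autoImplicit false
set_option linter.unusedSectionVars false
set_option linter.style.longLine false

/-!
The top degree: closed image (MP_b5a980_ag, B6).
-/

namespace B5a

universe u v w

open MvPowerSeries

variable {n : ℕ} {K : Type u} [Field K]

theorem ToC_rcompat : Compat (rconn n K) (fun i : ℤ => mI n K i.toNat) := by
  refine ⟨fun i => mI_anti (Int.toNat_le_toNat (by linarith)), ?_, ?_⟩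
  · intro i l m hm
    rw [smul_eq_mul]
    refine mI_anti ?_ (mul_mem_mI (X_mem_mI l) hm)
    omega
  · intro i l m hm
    change pderiv K l m ∈ mI n K (i - 1).toNat
    by_cases h : 1 ≤ i
    · obtain ⟨e, he⟩ : ∃ e : ℕ, i = e + 1 := ⟨(i - 1).toNat, by omega⟩
      subst he
      have h1 : (((e : ℤ) + 1).toNat) = e + 1 := by omega
      have h2 : (((e : ℤ) + 1 - 1).toNat) = e := by omega
      rw [h2]
      change m ∈ mI n K (((e : ℤ) + 1).toNat) at hm
      rw [h1] at hm
      exact pderiv_mem_mI hm l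
    · have h1 : (i - 1).toNat = 0 := by omega
      rw [h1, mI_zero]
      trivial

/-- The image under `π` of an element of the filtration. -/
theorem ToC_image {s t : ℕ} (w : Fin s → Pm n K t) (b : Fin s → ℤ) (i : ℤ) {lam : Pm n K t}
    (h : lam ∈ ⨆ q, (pmc n K t).V (w q) (i - b q)) :
    ∃ x : Fin s → MvPowerSeries (Fin n) K, (∀ q, x q ∈ mI n K (i - b q).toNat) ∧
      ptop n K t lam = ptop n K t (∑ q, x q • w q) := by
  classical
  have key : ∀ lam ∈ ⨆ q, (pmc n K t).V (w q) (i - b q), ∀ r : MvPowerSeries (Fin n) K,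
      ∃ x : Fin s → MvPowerSeries (Fin n) K, (∀ q, x q ∈ mI n K (i - b q).toNat) ∧
      ptop n K t (r • lam) = ptop n K t (∑ q, x q • w q) := by
    intro lam hlam
    refine Submodule.iSup_induction (fun q => (pmc n K t).V (w q) (i - b q))
      (motive := fun lam => ∀ r : MvPowerSeries (Fin n) K,
        ∃ x : Fin s → MvPowerSeries (Fin n) K, (∀ q, x q ∈ mI n K (i - b q).toNat) ∧
        ptop n K t (r • lam) = ptop n K t (∑ q, x q • w q)) hlam ?_ ?_ ?_
    · intro q m hm
      refine Submodule.span_induction (p := fun m _ => ∀ r : MvPowerSeries (Fin n) K,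
        ∃ x : Fin s → MvPowerSeries (Fin n) K, (∀ q, x q ∈ mI n K (i - b q).toNat) ∧
        ptop n K t (r • m) = ptop n K t (∑ q, x q • w q)) ?_ ?_ ?_ ?_ hm
      · rintro m ⟨β, γ, hβ, rfl⟩ r
        refine ⟨Pi.single q ((((-1 : K) ^ γ.degree) • (rconn n K).pw γ (r * monomial β 1))), ?_, ?_⟩
        · intro q'
          by_cases hq : q' = q
          · subst hq
            rw [Pi.single_eq_same]
            have h1 : r * monomial β 1 ∈ (fun i : ℤ => mI n K i.toNat) (β.degree : ℤ) := by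
              change r * monomial β 1 ∈ mI n K ((β.degree : ℤ)).toNat
              rw [Int.toNat_natCast]
              exact Ideal.mul_mem_left _ r (monomial_mem_mI le_rfl 1)
            have h2 := ToC_rcompat.pw_mem h1 γ
            have h3 : (rconn n K).pw γ (r * monomial β 1) ∈ mI n K (i - b q').toNat :=
              mI_anti (Int.toNat_le_toNat hβ) h2
            rw [MvPowerSeries.smul_eq_C_mul]
            exact Ideal.mul_mem_left _ _ h3
          · rw [Pi.single_eq_of_ne hq]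
            exact Submodule.zero_mem _
        · rw [smul_smul, ptop_by_parts]
          congr 1
          rw [Finset.sum_eq_single q]
          · rw [Pi.single_eq_same]
          · intro q' _ hq'
            rw [Pi.single_eq_of_ne hq', zero_smul]
          · intro hq
            exact absurd (Finset.mem_univ q) hq
      · intro r
        refine ⟨0, fun q => Submodule.zero_mem _, ?_⟩
        rw [smul_zero]
        simp
      · intro m m' _ _ h1 h2 r
        obtain ⟨x, hx, e1⟩ := h1 r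
        obtain ⟨x', hx', e2⟩ := h2 r
        refine ⟨x + x', fun q => Submodule.add_mem _ (hx q) (hx' q), ?_⟩
        rw [smul_add, map_add, e1, e2, ← map_add, ← Finset.sum_add_distrib]
        congr 1
        refine Finset.sum_congr rfl fun q _ => ?_
        rw [Pi.add_apply, add_smul]
      · intro r' m _ h1 r
        rw [smul_smul]
        exact h1 (r * r')
    · intro r
      refine ⟨0, fun q => Submodule.zero_mem _, ?_⟩
      rw [smul_zero]
      simp
    · intro m m' h1 h2 r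
      obtain ⟨x, hx, e1⟩ := h1 r
      obtain ⟨x', hx', e2⟩ := h2 r
      refine ⟨x + x', fun q => Submodule.add_mem _ (hx q) (hx' q), ?_⟩
      rw [smul_add, map_add, e1, e2, ← map_add, ← Finset.sum_add_distrib]
      congr 1
      refine Finset.sum_congr rfl fun q _ => ?_
      rw [Pi.add_apply, add_smul]
  obtain ⟨x, hx, e⟩ := key lam h 1
  rw [one_smul] at e
  exact ⟨x, hx, e⟩

/-- `x ↦ π (Σ x_q w_q)` -/
noncomputable def ToC_th {s t : ℕ} (w : Fin s → Pm n K t) :
    (Fin s → MvPowerSeries (Fin n) K) →ₗ[K] (Fin t → MvPowerSeries (Fin n) K) :=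
  (ptop n K t).comp (∑ q, ((LinearMap.toSpanSingleton (MvPowerSeries (Fin n) K) (Pm n K t)
    (w q)).restrictScalars K).comp (LinearMap.proj q))

theorem ToC_th_apply {s t : ℕ} (w : Fin s → Pm n K t) (x : Fin s → MvPowerSeries (Fin n) K) :
    ToC_th w x = ptop n K t (∑ q, x q • w q) := by
  unfold ToC_th
  rw [LinearMap.comp_apply, LinearMap.sum_apply]
  rfl

/-- The case of submodules of free modules, in terms of elements.

`L` a submodule of the free module stable under the connection, `y ∈ PV a (1-n)`; if for every `N` one has `y = Σ nab_l φ_l + λ + v` with `φ_l ∈ PV a (2-n)`, `λ ∈ L ∩ PV a (1-n)`, `v ∈ PV a N`, then the same with `v = 0`.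

Proof. The filtration `i ↦ PV a i ⊓ L` is compatible, so good by `artin_rees_free`: `PV a i ⊓ L = ⨆_s V (w s) (i - b s)`. By `ptop_by_parts` and `pderiv_mem_mI`: `π (V (w s) (i - b s)) = π (m^(e) w_s)`, `e = (i - b s).toNat` (`⊆`: a generator `r x^β pw γ w_s` goes to `π (± ∂^γ(r x^β) w_s)` and `∂^γ (r x^β) ∈ m^(|β|-|γ|)`; `⊇`: `m^e w_s ⊆ V (w s) (i - b s)`). Let `Θ : (Fin s → R) → (Fin t → R)`, `Θ x = Σ_s π (x_s w_s)`; it is `K`-linear and continuous: if `x_s ∈ m^(N + o)`, `o` the maximal order of the `w_s`, then `π (x_s w_s) ∈ m^N`. With `e_s = (1 - n - b s).toNat` the hypothesis gives: `π y ∈ Θ (Π m^(e_s)) + m^(N')` for every `N'` (`ptop_nab`, `ptop_mem` for `v ∈ PV a N`). `closed_image`: `π y = Θ x = π λ` with `λ = Σ x_s w_s ∈ L ∩ PV a (1-n)`. Then `y - λ ∈ PV a (1-n)` and `π (y - λ) = 0`, so `y - λ = Σ nab_l ψ_l` with `ψ_l ∈ PV a (2-n)` by `ptop_red` with `i = 1 - n`. -/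
theorem top_free {t : ℕ} (a : Fin t → ℤ) (L : Submodule (MvPowerSeries (Fin n) K) (Pm n K t))
    (hL : ∀ l, ∀ φ ∈ L, (pmc n K t).nab l φ ∈ L) (y : Pm n K t)
    (hy : y ∈ PV a (1 - (n : ℤ)))
    (h : ∀ N : ℤ, ∃ (φ : Fin n → Pm n K t) (lam v : Pm n K t), (∀ l, φ l ∈ PV a (2 - (n : ℤ))) ∧
      lam ∈ L ∧ lam ∈ PV a (1 - (n : ℤ)) ∧ v ∈ PV a N ∧
      y = ∑ l, (pmc n K t).nab l (φ l) + lam + v) :
    ∃ (φ : Fin n → Pm n K t) (lam : Pm n K t), (∀ l, φ l ∈ PV a (2 - (n : ℤ))) ∧
      lam ∈ L ∧ lam ∈ PV a (1 - (n : ℤ)) ∧ y = ∑ l, (pmc n K t).nab l (φ l) + lam := by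
  classical
  have hP := PV_compat (n := n) (K := K) a
  have hc : Compat (pmc n K t) (fun i => PV a i ⊓ L) := by
    refine ⟨fun i => inf_le_inf (hP.anti i) le_rfl, ?_, ?_⟩
    · rintro i l m ⟨h1, h2⟩
      exact ⟨hP.x_mem i l m h1, Submodule.smul_mem _ _ h2⟩
    · rintro i l m ⟨h1, h2⟩
      exact ⟨hP.nab_mem i l m h1, hL l m h2⟩
  obtain ⟨s, w, b, hw⟩ := artin_rees_free a hc (fun i => inf_le_left)
  have hw' : ∀ i, (PV a i ⊓ L : Submodule (MvPowerSeries (Fin n) K) (Pm n K t)) =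
      ⨆ q, (pmc n K t).V (w q) (i - b q) := by
    intro i
    have h1 := hw i
    rwa [bot_sup_eq] at h1
  have hwq : ∀ q, w q ∈ (PV a (b q) ⊓ L : Submodule (MvPowerSeries (Fin n) K) (Pm n K t)) := by
    intro q
    rw [hw']
    refine Submodule.mem_iSup_of_mem q ?_
    rw [sub_self]
    exact (pmc n K t).mem_V_self (w q)
  obtain ⟨A, hA⟩ : ∃ A : ℤ, ∀ j, a j ≤ A := by
    refine ⟨∑ j, |a j|, fun j => (le_abs_self _).trans ?_⟩
    exact Finset.single_le_sum (f := fun j => |a j|) (fun _ _ => abs_nonneg _) (Finset.mem_univ j)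
  have hcont : ∀ N : ℕ, ∃ N' : ℕ, ∀ x, (∀ q, x q ∈ mI n K N') → ∀ j, ToC_th w x j ∈ mI n K N := by
    intro N
    refine ⟨∑ q, ((N : ℤ) + A - b q).toNat, fun x hx j => ?_⟩
    rw [ToC_th_apply]
    have h1 : ∑ q, x q • w q ∈ PV a ((N : ℤ) + A) := by
      refine Submodule.sum_mem _ fun q _ => ?_
      have h2 := hP.mI_mem (hx q) (hwq q).1
      refine hP.le ?_ h2
      have h3 : ((N : ℤ) + A - b q).toNat ≤ ∑ q, ((N : ℤ) + A - b q).toNat :=
        Finset.single_le_sum (f := fun q => ((N : ℤ) + A - b q).toNat) (fun _ _ => Nat.zero_le _)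
          (Finset.mem_univ q)
      have h4 : (N : ℤ) + A - b q ≤ (((N : ℤ) + A - b q).toNat : ℤ) := Int.self_le_toNat _
      have h5 : ((((N : ℤ) + A - b q).toNat : ℕ) : ℤ) ≤
          ((∑ q, ((N : ℤ) + A - b q).toNat : ℕ) : ℤ) := by exact_mod_cast h3
      linarith
    refine mI_anti ?_ (ptop_mem a _ h1 j)
    have := hA j
    omega
  obtain ⟨x, hx, hxy⟩ := closed_image (ToC_th w) hcont (fun q => (1 - (n : ℤ) - b q).toNat)
    (ptop n K t y) (by
      intro N
      obtain ⟨φ, lam, v, hφ, hl1, hl2, hv, hyv⟩ := h ((N : ℤ) + A)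
      have hl3 : lam ∈ ⨆ q, (pmc n K t).V (w q) (1 - (n : ℤ) - b q) := by
        rw [← hw']
        exact ⟨hl2, hl1⟩
      obtain ⟨x, hx, e⟩ := ToC_image w b _ hl3
      refine ⟨x, hx, fun j => ?_⟩
      have e2 : ptop n K t y = ptop n K t lam + ptop n K t v := by
        rw [hyv, map_add, map_add, map_sum]
        rw [Finset.sum_eq_zero fun l _ => ptop_nab t l (φ l), zero_add]
      rw [ToC_th_apply, ← e, e2, Pi.add_apply, add_sub_cancel_left]
      refine mI_anti ?_ (ptop_mem a _ hv j)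
      have := hA j
      omega)
  have hlam : ∑ q, x q • w q ∈
      (PV a (1 - (n : ℤ)) ⊓ L : Submodule (MvPowerSeries (Fin n) K) (Pm n K t)) := by
    refine Submodule.sum_mem _ fun q _ => ?_
    have h2 := hc.mI_mem (hx q) (hwq q)
    refine hc.le ?_ h2
    have h4 : 1 - (n : ℤ) - b q ≤ ((1 - (n : ℤ) - b q).toNat : ℤ) := Int.self_le_toNat _
    linarith
  have hsub : y - ∑ q, x q • w q ∈ PV a (1 - (n : ℤ)) := Submodule.sub_mem _ hy hlam.1
  obtain ⟨ψ, hψ, e⟩ := ptop_red a (1 - (n : ℤ)) hsub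
  refine ⟨ψ, ∑ q, x q • w q, fun l => ?_, hlam.2, hlam.1, ?_⟩
  · have h1 := hψ l
    rw [show 1 - (n : ℤ) + 1 = 2 - (n : ℤ) by ring] at h1
    exact h1
  · have e3 : ptop n K t (y - ∑ q, x q • w q) = 0 := by
      rw [map_sub, hxy, ToC_th_apply, sub_self]
    rw [e3] at e
    have e4 : ∑ j : Fin t, (Finsupp.single (j, (0 : Fin n →₀ ℕ))
        ((0 : Fin t → MvPowerSeries (Fin n) K) j) : Pm n K t) = 0 := by
      refine Finset.sum_eq_zero fun j _ => ?_
      rw [Pi.zero_apply, Finsupp.single_zero]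
    rw [e4, zero_add] at e
    rw [← e, sub_add_cancel]

end B5a
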