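import Pool.Agent.H.MP_b5a980_ag.FoA
import Pool.Agent.H.MP_b5a980_ag.ToC

set_option autoImplicit false
set_option linter.unusedSectionVars false
set_option linter.style.longLine false

/-!
Exactness modulo all steps: top degree (MP_b5a980_ag, B6).
-/

namespace B5a

universe u v w

open MvPowerSeries

variable {n : ℕ} {K : Type u} [Field K] {M : Type u} [AddCommGroup M]
  [Module (MvPowerSeries (Fin n) K) M] [Module K M] [IsScalarTower K (MvPowerSeries (Fin n) K) M]

/-- The statement `Z_p` for a module. -/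
def ZProp (p : ℤ) (C : Conn n K M) (N : Submodule (MvPowerSeries (Fin n) K) M)
    (V : ℤ → Submodule (MvPowerSeries (Fin n) K) M) : Prop :=
  ∀ ω : Fm n M, IsFm p ω → VF V 1 ω → (∀ I, dR C ω I ∈ N) →
    (∀ j : ℤ, ∃ η : Fm n M, IsFm (p - 1) η ∧ VF V 1 η ∧ VF V j (ω - dR C η)) →
    ∃ η : Fm n M, IsFm (p - 1) η ∧ VF V 1 η ∧ ∀ I, (ω - dR C η) I ∈ N

theorem zprop_of_gt {p : ℤ} (hp : (n : ℤ) < p) (C : Conn n K M)
    (N : Submodule (MvPowerSeries (Fin n) K) M)
    (V : ℤ → Submodule (MvPowerSeries (Fin n) K) M) : ZProp p C N V := by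
  intro ω hω _ _ _
  have h0 : ω = 0 := by
    funext I
    apply hω
    have h1 := Finset.card_le_univ I
    rw [Fintype.card_fin] at h1
    omega
  refine ⟨0, fun I _ => rfl, fun I => Submodule.zero_mem _, fun I => ?_⟩
  rw [h0, map_zero, sub_zero]
  exact N.zero_mem

theorem ZzA_card_erase (l : Fin n) : (((Finset.univ : Finset (Fin n)).erase l).card : ℤ) = n - 1 := by
  rw [Finset.card_erase_of_mem (Finset.mem_univ l), Finset.card_univ, Fintype.card_fin]
  have := l.pos
  omega

theorem ZzA_sg_sq (l : Fin n) (I : Finset (Fin n)) : sg l I * sg l I = 1 := by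
  unfold sg
  rw [← mul_pow]
  norm_num

theorem ZzA_dR_univ (C : Conn n K M) (η : Fm n M) :
    dR C η Finset.univ =
      ∑ l, sg l Finset.univ • C.nab l (η ((Finset.univ : Finset (Fin n)).erase l)) := rfl

/-- Top degree.

Proof. `GoodRel`: `V i = N ⊔ (PV a i).map (cov C u)` (`map_cov_PV`). Only `I = univ` matters. `y = ω univ ∈ V (1-n)`; write `y = cov y' + m0`, `y' ∈ PV a (1-n)`, `m0 ∈ N`. Let `L = N.comap (cov C u)`. For every `j`, with `η` from the hypothesis: `y - Σ_l ± nab_l (η (univ.erase l)) ∈ V (j - n)`, `η (univ.erase l) ∈ V (2-n)`; lift: `η (univ.erase l) = cov φ'_l + N`, `φ'_l ∈ PV a (2-n)`, and the error to `v ∈ PV a (j-n)`. Then `y' - Σ nab_l (± φ'_l) - v ∈ L`; for `j - n ≥ 1 - n` it also lies in `PV a (1-n)`. So `top_free` applies and gives `y' = Σ nab_l φ_l + λ`. Put `η (univ.erase l) = ± cov (φ l)`, zero elsewhere. (If `n = 0` the sums are empty.) -/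
theorem zprop_top {C : Conn n K M} {N : Submodule (MvPowerSeries (Fin n) K) M}
    {V : ℤ → Submodule (MvPowerSeries (Fin n) K) M} (hV : Compat C V)
    (hN : ∀ i m, m ∈ N → C.nab i m ∈ N) (hg : GoodRel C N V) : ZProp (n : ℤ) C N V := by
  classical
  obtain ⟨t, u, a, hV0⟩ := hg
  have hV1 : ∀ i m, m ∈ V i → ∃ φ ∈ (PV a i : Submodule (MvPowerSeries (Fin n) K) (Pm n K t)),
      m - cov C u φ ∈ N := by
    intro i m hm
    rw [hV0 i, ← map_cov_PV, Submodule.mem_sup] at hm
    obtain ⟨m0, hm0, z, hz, rfl⟩ := hm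
    obtain ⟨φ, hφ, rfl⟩ := (Submodule.mem_map).1 hz
    refine ⟨φ, hφ, ?_⟩
    rw [add_sub_cancel_right]
    exact hm0
  have hV2 : ∀ i, ∀ φ ∈ (PV a i : Submodule (MvPowerSeries (Fin n) K) (Pm n K t)),
      cov C u φ ∈ V i := by
    intro i φ hφ
    rw [hV0 i, ← map_cov_PV]
    exact Submodule.mem_sup_right (Submodule.mem_map_of_mem hφ)
  intro ω hω hω1 _ hap
  obtain ⟨y, hyd⟩ : ∃ y, y = ω Finset.univ := ⟨_, rfl⟩
  have hcu : ((Finset.univ : Finset (Fin n)).card : ℤ) = n := by
    rw [Finset.card_univ, Fintype.card_fin]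
  have hy1 : y ∈ V (1 - (n : ℤ)) := by
    have h1 := hω1 Finset.univ
    rw [hcu, ← hyd] at h1
    exact h1
  obtain ⟨y', hy', hyy⟩ := hV1 _ _ hy1
  have hPc := PV_compat (n := n) (K := K) a
  obtain ⟨φ, lam, hφ, hlam, -, he⟩ := top_free a (N.comap (cov C u))
    (fun l φ hφ => by
      rw [Submodule.mem_comap] at hφ ⊢
      rw [cov_nab]
      exact hN l _ hφ) y' hy' (by
      intro q
      obtain ⟨η, -, hη1, hηj⟩ := hap (max (q + n) 1)
      have h1 := hηj Finset.univ
      rw [hcu, Pi.sub_apply, ← hyd, ZzA_dR_univ] at h1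
      have h2 : ∀ l : Fin n, ∃ ψ ∈ (PV a (2 - (n : ℤ)) :
          Submodule (MvPowerSeries (Fin n) K) (Pm n K t)),
          η ((Finset.univ : Finset (Fin n)).erase l) - cov C u ψ ∈ N := by
        intro l
        have h3 := hη1 ((Finset.univ : Finset (Fin n)).erase l)
        rw [ZzA_card_erase] at h3
        have e3 : (1 : ℤ) - (n - 1) = 2 - n := by ring
        rw [e3] at h3
        exact hV1 _ _ h3
      choose ψ hψ hψN using h2
      obtain ⟨v, hv, hvN⟩ := hV1 _ _ h1
      have hs : ∀ l, (pmc n K t).nab l (sg l Finset.univ • ψ l) ∈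
          (PV a (1 - (n : ℤ)) : Submodule (MvPowerSeries (Fin n) K) (Pm n K t)) := by
        intro l
        have h4 := hPc.nab_mem _ l _ (zsmul_mem (hψ l) (sg l Finset.univ))
        have e4 : (2 : ℤ) - n - 1 = 1 - n := by ring
        rwa [e4] at h4
      refine ⟨fun l => sg l Finset.univ • ψ l,
        y' - ∑ l, (pmc n K t).nab l (sg l Finset.univ • ψ l) - v, v,
        fun l => zsmul_mem (hψ l) _, ?_, ?_, ?_, ?_⟩
      · rw [Submodule.mem_comap, map_sub, map_sub, map_sum]
        have e5 : cov C u y' - ∑ l, cov C u ((pmc n K t).nab l (sg l Finset.univ • ψ l)) -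
            cov C u v = (y - ∑ l, sg l Finset.univ •
              C.nab l (η ((Finset.univ : Finset (Fin n)).erase l)) - cov C u v) -
            (y - cov C u y') + ∑ l, sg l Finset.univ •
              C.nab l (η ((Finset.univ : Finset (Fin n)).erase l) - cov C u (ψ l)) := by
          simp only [cov_nab, map_sub, smul_sub, Finset.sum_sub_distrib, map_zsmul]
          abel
        rw [e5]
        exact N.add_mem (N.sub_mem hvN hyy)
          (Submodule.sum_mem _ fun l _ => zsmul_mem (hN l _ (hψN l)) _)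
      · refine Submodule.sub_mem _ (Submodule.sub_mem _ hy'
          (Submodule.sum_mem _ fun l _ => hs l)) ?_
        exact hPc.le (by have := le_max_right (q + n) (1 : ℤ); omega) hv
      · exact hPc.le (by have := le_max_left (q + n) (1 : ℤ); omega) hv
      · abel)
  have hinj : ∀ l l' : Fin n, (Finset.univ : Finset (Fin n)).erase l =
      (Finset.univ : Finset (Fin n)).erase l' → l = l' := by
    intro l l' h
    by_contra hne
    have h1 : l' ∈ (Finset.univ : Finset (Fin n)).erase l :=
      Finset.mem_erase.2 ⟨fun h => hne h.symm, Finset.mem_univ _⟩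
    rw [h] at h1
    exact Finset.notMem_erase l' _ h1
  obtain ⟨η, hη⟩ : ∃ η : Fm n M, ∀ I, η I = ∑ l, if I = (Finset.univ : Finset (Fin n)).erase l then
      sg l Finset.univ • cov C u (φ l) else 0 := ⟨_, fun _ => rfl⟩
  have hηl : ∀ l, η ((Finset.univ : Finset (Fin n)).erase l) =
      sg l Finset.univ • cov C u (φ l) := by
    intro l
    rw [hη, Finset.sum_eq_single l]
    · rw [if_pos rfl]
    · intro l' _ hl'
      rw [if_neg fun h => hl' (hinj _ _ h).symm]
    · intro h
      exact absurd (Finset.mem_univ l) h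
  have hηf : IsFm ((n : ℤ) - 1) η := by
    intro I hI
    rw [hη]
    refine Finset.sum_eq_zero fun l _ => if_neg fun h => hI ?_
    rw [h, ZzA_card_erase]
  refine ⟨η, hηf, ?_, ?_⟩
  · intro I
    rw [hη]
    refine Submodule.sum_mem _ fun l _ => ?_
    by_cases hI : I = (Finset.univ : Finset (Fin n)).erase l
    · rw [if_pos hI, hI, ZzA_card_erase]
      have e3 : (1 : ℤ) - (n - 1) = 2 - n := by ring
      rw [e3]
      exact zsmul_mem (hV2 _ _ (hφ l)) _
    · rw [if_neg hI]
      exact Submodule.zero_mem _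
  · intro I
    by_cases hI : I = Finset.univ
    · rw [hI, Pi.sub_apply, ← hyd, ZzA_dR_univ]
      have e6 : ∑ l, sg l Finset.univ •
          C.nab l (η ((Finset.univ : Finset (Fin n)).erase l)) =
          cov C u (∑ l, (pmc n K t).nab l (φ l)) := by
        rw [map_sum]
        refine Finset.sum_congr rfl fun l _ => ?_
        rw [hηl, map_zsmul, smul_smul, ZzA_sg_sq, one_smul, cov_nab]
      have e7 : ∑ l, (pmc n K t).nab l (φ l) = y' - lam := by rw [he]; abel
      rw [e6, e7, map_sub]
      have e8 : y - (cov C u y' - cov C u lam) = (y - cov C u y') + cov C u lam := by abel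
      rw [e8]
      exact N.add_mem hyy hlam
    · have hc : (I.card : ℤ) ≠ n := by
        intro h
        apply hI
        rw [← Finset.card_eq_iff_eq_univ, Fintype.card_fin]
        exact_mod_cast h
      have h1 : dR C η I = 0 := by
        have h2 := ext_isFm C.nab hηf
        rw [sub_add_cancel] at h2
        exact h2 I hc
      rw [Pi.sub_apply, h1, hω I hc, sub_zero]
      exact N.zero_mem

end B5a
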