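import Pool.Agent.H.MP_b5a980_ag.KoA
import Pool.Agent.H.MP_b5a980_ag.ZzA

set_option autoImplicit false
set_option linter.unusedSectionVars false
set_option linter.style.longLine false

/-!
Exactness modulo all steps: descending induction (MP_b5a980_ag, B6).
-/

namespace B5a

universe u v w

open MvPowerSeries

variable {n : ℕ} {K : Type u} [Field K]

section

variable {M : Type v} [AddCommGroup M]
  [Module (MvPowerSeries (Fin n) K) M] [Module K M] [IsScalarTower K (MvPowerSeries (Fin n) K) M]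

/-- `cov` on forms -/
noncomputable def ZzB_cv (C : Conn n K M) {t : ℕ} (u : Fin t → M) (ω : Fm n (Pm n K t)) :
    Fm n M := fun I => cov C u (ω I)

theorem ZzB_dR_apply (C : Conn n K M) (ω : Fm n M) (I : Finset (Fin n)) :
    dR C ω I = ∑ i ∈ I, sg i I • C.nab i (ω (I.erase i)) := rfl

theorem ZzB_cv_dR (C : Conn n K M) {t : ℕ} (u : Fin t → M) (ω : Fm n (Pm n K t)) :
    dR C (ZzB_cv C u ω) = ZzB_cv C u (dR (pmc n K t) ω) := by
  funext I
  unfold ZzB_cv
  rw [ZzB_dR_apply, ZzB_dR_apply, map_sum]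
  refine Finset.sum_congr rfl fun i _ => ?_
  rw [map_zsmul, cov_nab]

theorem ZzB_dR_mem {C : Conn n K M} {N : Submodule (MvPowerSeries (Fin n) K) M}
    (hN : ∀ i m, m ∈ N → C.nab i m ∈ N) {ω : Fm n M} (h : ∀ I, ω I ∈ N) (I : Finset (Fin n)) :
    dR C ω I ∈ N := by
  rw [ZzB_dR_apply]
  exact Submodule.sum_mem _ fun i _ => zsmul_mem (hN i _ (h _)) _

/-- lifting forms to the free module -/
theorem ZzB_lift {C : Conn n K M} {N : Submodule (MvPowerSeries (Fin n) K) M}
    {V : ℤ → Submodule (MvPowerSeries (Fin n) K) M} {t : ℕ} {u : Fin t → M} {a : Fin t → ℤ}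
    (hVe : ∀ i, V i = N ⊔ (PV a i).map (cov C u)) {p j : ℤ} {ω : Fm n M} (h : IsFm p ω)
    (hω : VF V j ω) :
    ∃ ω' : Fm n (Pm n K t), IsFm p ω' ∧ VF (PV a) j ω' ∧ ∀ I, ω I - cov C u (ω' I) ∈ N := by
  classical
  have h1 : ∀ I : Finset (Fin n), ∃ x : Pm n K t, x ∈ PV a (j - I.card) ∧
      ω I - cov C u x ∈ N := by
    intro I
    have h2 := hω I
    rw [hVe] at h2
    obtain ⟨m0, hm0, y, ⟨x, hx, rfl⟩, hy⟩ := Submodule.mem_sup.1 h2
    refine ⟨x, hx, ?_⟩
    rw [← hy, add_sub_cancel_right]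
    exact hm0
  choose x hx hxN using h1
  refine ⟨fun I => if (I.card : ℤ) = p then x I else 0, ?_, ?_, ?_⟩
  · intro I hI
    exact if_neg hI
  · intro I
    change (if (I.card : ℤ) = p then x I else 0) ∈ PV a (j - I.card)
    split_ifs with hI
    · exact hx I
    · exact Submodule.zero_mem _
  · intro I
    change ω I - cov C u (if (I.card : ℤ) = p then x I else 0) ∈ N
    split_ifs with hI
    · exact hxN I
    · rw [h I hI, map_zero, sub_zero]
      exact Submodule.zero_mem _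

theorem ZzB_isFm_sub {p : ℤ} {ω η : Fm n M} (h : IsFm p ω) (h' : IsFm p η) :
    IsFm p (ω - η) := by
  intro I hI
  rw [Pi.sub_apply, h I hI, h' I hI, sub_zero]

theorem ZzB_isFm_dR (C : Conn n K M) {p : ℤ} {ω : Fm n M} (h : IsFm (p - 1) ω) :
    IsFm p (dR C ω) := by
  have := ext_isFm C.nab h
  rwa [sub_add_cancel] at this

end

/-- The induction step. -/
theorem zprop_step [CharZero K] {p : ℤ} (hp : p < n)
    (h : ∀ (t : ℕ) (N : Submodule (MvPowerSeries (Fin n) K) (Pm n K t))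
      (V : ℤ → Submodule (MvPowerSeries (Fin n) K) (Pm n K t)), Compat (pmc n K t) V →
      (∀ i m, m ∈ N → (pmc n K t).nab i m ∈ N) → GoodRel (pmc n K t) N V →
      ZProp (p + 1) (pmc n K t) N V)
    {M : Type u} [AddCommGroup M] [Module (MvPowerSeries (Fin n) K) M] [Module K M]
    [IsScalarTower K (MvPowerSeries (Fin n) K) M] {C : Conn n K M}
    {N : Submodule (MvPowerSeries (Fin n) K) M} {V : ℤ → Submodule (MvPowerSeries (Fin n) K) M}
    (hV : Compat C V) (hN : ∀ i m, m ∈ N → C.nab i m ∈ N) (hg : GoodRel C N V) :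
    ZProp p C N V := by
  classical
  obtain ⟨t, u, a, hVe0⟩ := hg
  have hVe : ∀ i, V i = N ⊔ (PV a i).map (cov C u) := by
    intro i
    rw [hVe0, map_cov_PV]
  set L : Submodule (MvPowerSeries (Fin n) K) (Pm n K t) := N.comap (cov C u) with hL
  have hLs : ∀ i m, m ∈ L → (pmc n K t).nab i m ∈ L := by
    intro i m hm
    change cov C u ((pmc n K t).nab i m) ∈ N
    rw [cov_nab]
    exact hN i _ hm
  have hP := PV_compat (n := n) (K := K) a
  have hc : Compat (pmc n K t) (fun i => PV a i ⊓ L) := by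
    refine ⟨fun i => inf_le_inf (hP.anti i) le_rfl, ?_, ?_⟩
    · rintro i l m ⟨h1, h2⟩
      exact ⟨hP.x_mem i l m h1, Submodule.smul_mem _ _ h2⟩
    · rintro i l m ⟨h1, h2⟩
      exact ⟨hP.nab_mem i l m h1, hLs l m h2⟩
  have hgood : GoodRel (pmc n K t) ⊥ (fun i => PV a i ⊓ L) :=
    artin_rees_free a hc (fun i => inf_le_left)
  have hz := h t ⊥ (fun i => PV a i ⊓ L) hc (by
    intro i m hm
    rw [Submodule.mem_bot] at hm ⊢
    rw [hm, map_zero]) hgood
  intro ω hω hω1 hωd hω2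
  obtain ⟨ω', hω'1, hω'2, hω'3⟩ := ZzB_lift hVe hω hω1
  have hlam3 : ∀ I, dR (pmc n K t) ω' I ∈ L := by
    intro I
    change cov C u (dR (pmc n K t) ω' I) ∈ N
    have h1 : cov C u (dR (pmc n K t) ω' I) = dR C ω I - dR C (ω - ZzB_cv C u ω') I := by
      rw [map_sub, Pi.sub_apply, sub_sub_cancel, ZzB_cv_dR]
      rfl
    rw [h1]
    exact Submodule.sub_mem _ (hωd I) (ZzB_dR_mem hN hω'3 I)
  have hlam1 : IsFm (p + 1) (dR (pmc n K t) ω') := ext_isFm _ hω'1
  have hlam2 : VF (PV a) 1 (dR (pmc n K t) ω') := dR_VF hP hω'2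
  have happ : ∀ j : ℤ, ∃ μ : Fm n (Pm n K t), IsFm (p + 1 - 1) μ ∧
      VF (fun i => PV a i ⊓ L) 1 μ ∧
      VF (fun i => PV a i ⊓ L) j (dR (pmc n K t) ω' - dR (pmc n K t) μ) := by
    intro j
    obtain ⟨η, hη1, hη2, hη3⟩ := hω2 (max j 1)
    obtain ⟨η', hη'1, hη'2, hη'3⟩ := ZzB_lift hVe hη1 hη2
    obtain ⟨v, hv1, hv2, hv3⟩ := ZzB_lift hVe (ZzB_isFm_sub hω (ZzB_isFm_dR C hη1)) hη3
    have hμL : ∀ I, (ω' - dR (pmc n K t) η' - v) I ∈ L := by
      intro I
      change cov C u ((ω' - dR (pmc n K t) η' - v) I) ∈ N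
      have h1 : cov C u ((ω' - dR (pmc n K t) η' - v) I) =
          ((ω - dR C η) I - cov C u (v I)) - (ω I - cov C u (ω' I)) +
            dR C (η - ZzB_cv C u η') I := by
        rw [map_sub (dR C), Pi.sub_apply (dR C η), ZzB_cv_dR, Pi.sub_apply, Pi.sub_apply,
          Pi.sub_apply, map_sub, map_sub]
        unfold ZzB_cv
        abel
      rw [h1]
      exact Submodule.add_mem _ (Submodule.sub_mem _ (hv3 I) (hω'3 I)) (ZzB_dR_mem hN hη'3 I)
    have hμ2 : VF (PV a) 1 (ω' - dR (pmc n K t) η' - v) := by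
      intro I
      rw [Pi.sub_apply, Pi.sub_apply]
      refine Submodule.sub_mem _ (Submodule.sub_mem _ (hω'2 I) (dR_VF hP hη'2 I)) ?_
      exact hP.le (sub_le_sub_right (le_max_right j 1) _) (hv2 I)
    have hd : dR (pmc n K t) ω' - dR (pmc n K t) (ω' - dR (pmc n K t) η' - v) =
        dR (pmc n K t) v := by
      rw [map_sub, map_sub, dR_dR]
      abel
    refine ⟨ω' - dR (pmc n K t) η' - v, ?_, fun I => ⟨hμ2 I, hμL I⟩, ?_⟩
    · rw [add_sub_cancel_right]
      exact ZzB_isFm_sub (ZzB_isFm_sub hω'1 (ZzB_isFm_dR _ hη'1)) hv1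
    · intro I
      refine ⟨?_, ?_⟩
      · change (dR (pmc n K t) ω' - dR (pmc n K t) (ω' - dR (pmc n K t) η' - v)) I ∈
          PV a (j - I.card)
        rw [hd]
        exact hP.le (sub_le_sub_right (le_max_left j 1) _) (dR_VF hP hv2 I)
      · rw [Pi.sub_apply]
        exact Submodule.sub_mem _ (hlam3 I) (ZzB_dR_mem hLs hμL I)
  obtain ⟨μ, hμ1, hμ2, hμ3⟩ := hz (dR (pmc n K t) ω') hlam1
    (fun I => ⟨hlam2 I, hlam3 I⟩) (fun I => by
      rw [dR_dR, Submodule.mem_bot]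
      rfl) happ
  rw [add_sub_cancel_right] at hμ1
  have hcl : dR (pmc n K t) (ω' - μ) = 0 := by
    funext I
    have := hμ3 I
    rw [Submodule.mem_bot] at this
    rw [map_sub]
    exact this
  obtain ⟨ν, hν1, hν2, hν3⟩ := koszul_exact a hp (ZzB_isFm_sub hω'1 hμ1)
    (i := 1) (fun I => by
      rw [Pi.sub_apply]
      exact Submodule.sub_mem _ (hω'2 I) (hμ2 I).1) hcl
  refine ⟨ZzB_cv C u ν, ?_, ?_, ?_⟩
  · intro I hI
    change cov C u (ν I) = 0
    rw [hν1 I hI, map_zero]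
  · intro I
    rw [hVe]
    exact Submodule.mem_sup_right (Submodule.mem_map_of_mem (hν2 I))
  · intro I
    have h1 : (ω - dR C (ZzB_cv C u ν)) I = ω I - cov C u (ω' I) + cov C u (μ I) := by
      rw [ZzB_cv_dR, ← hν3]
      change ω I - cov C u (ω' I - μ I) = _
      rw [map_sub]
      abel
    rw [h1]
    exact Submodule.add_mem _ (hω'3 I) (hμ2 I).2

theorem ZzB_all [CharZero K] (d : ℕ) : ∀ (p : ℤ), (n : ℤ) + 1 ≤ p + d →
    ∀ (M : Type u) [AddCommGroup M]
    [Module (MvPowerSeries (Fin n) K) M] [Module K M]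
    [IsScalarTower K (MvPowerSeries (Fin n) K) M] (C : Conn n K M)
    (N : Submodule (MvPowerSeries (Fin n) K) M) (V : ℤ → Submodule (MvPowerSeries (Fin n) K) M),
    Compat C V → (∀ i m, m ∈ N → C.nab i m ∈ N) → GoodRel C N V → ZProp p C N V := by
  induction d with
  | zero =>
    intro p hp M _ _ _ _ C N V _ _ _
    exact zprop_of_gt (by push_cast at hp; omega) C N V
  | succ d ih =>
    intro p hp M _ _ _ _ C N V hV hN hg
    rcases lt_trichotomy p (n : ℤ) with h | h | h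
    · refine zprop_step h ?_ hV hN hg
      intro t N' V' h1 h2 h3
      exact ih (p + 1) (by push_cast at hp; omega) (Pm n K t) (pmc n K t) N' V' h1 h2 h3
    · rw [h]
      exact zprop_top hV hN hg
    · exact zprop_of_gt h C N V

/-- The statement `Z_p` for all `p`. -/
theorem zprop [CharZero K] (p : ℤ) {M : Type u} [AddCommGroup M]
    [Module (MvPowerSeries (Fin n) K) M] [Module K M]
    [IsScalarTower K (MvPowerSeries (Fin n) K) M] {C : Conn n K M}
    {N : Submodule (MvPowerSeries (Fin n) K) M} {V : ℤ → Submodule (MvPowerSeries (Fin n) K) M}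
    (hV : Compat C V) (hN : ∀ i m, m ∈ N → C.nab i m ∈ N) (hg : GoodRel C N V) :
    ZProp p C N V :=
  ZzB_all ((n : ℤ) + 1 - p).toNat p (by
    have := Int.self_le_toNat ((n : ℤ) + 1 - p)
    linarith) M C N V hV hN hg

end B5a
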