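import Pool.Agent.H.MP_b5a980_ag.FoD
import Pool.Agent.H.MP_b5a980_ag.ZzB

set_option autoImplicit false
set_option linter.unusedSectionVars false
set_option linter.style.longLine false

/-!
The step 1 of the de Rham complex is exact (MP_b5a980_ag, B6).
-/

namespace B5a

universe u v w

open MvPowerSeries

variable {n : ℕ} {K : Type u} [Field K]

/-- Proof. `N ≤ V i` for all `i` (`GoodRel`), so `q2_approx` applies, and then `zprop`. -/
theorem q2 [CharZero K] {lam : K →+ ℚ} (hlam : lam 1 = 1) {M : Type u} [AddCommGroup M]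
    [Module (MvPowerSeries (Fin n) K) M] [Module K M]
    [IsScalarTower K (MvPowerSeries (Fin n) K) M] {C : Conn n K M}
    {N : Submodule (MvPowerSeries (Fin n) K) M} {V : ℤ → Submodule (MvPowerSeries (Fin n) K) M}
    (hV : VPack lam C N V) {p : ℤ} {ω : Fm n M} (hp : IsFm p ω) (hω : VF V 1 ω)
    (hd : ∀ I, dR C ω I ∈ N) :
    ∃ η : Fm n M, IsFm (p - 1) η ∧ VF V 1 η ∧ ∀ I, (ω - dR C η) I ∈ N := by
  have hN : ∀ i, N ≤ V i := by
    obtain ⟨t, u, a, h⟩ := hV.good
    intro i
    rw [h i]
    exact le_sup_left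
  have hd' : ∀ j, VF V j (dR C ω) := fun j I => hN _ (hd I)
  exact zprop p hV.compat hV.stab hV.good ω hp hω hd
    (fun j => q2_approx hlam hV.compat hV.gr hp hω hd' j)

end B5a
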