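import Pool.Agent.H.MP_b5a980_ag.CeB
import Pool.Agent.H.MP_b5a980_ag.CeC
import Pool.Agent.H.MP_b5a980_ag.Qq2

set_option autoImplicit false
set_option linter.unusedSectionVars false
set_option linter.style.longLine false

/-!
Preparations for the second page (MP_b5a980_ag).
-/

namespace B5a

universe u v w

open MvPowerSeries

variable {n r : ℕ} {K : Type u} [Field K] {lam : K →+ ℚ}
  {V : MvPowerSeries (Fin n) K → ℤ → Submodule (MvPowerSeries (Fin n) K) (FF n K)}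
  {f : Fin r → MvPowerSeries (Fin n) K}

/-- Strictness of the Cech differential.

Proof. `strict_map` for `VC q`, `VC (q+1)` and `cech`; if `cech φ ∈ VC (q+1) i` there is `φ' ∈ VC q i` with `cech φ' = cech φ`. -/
theorem cech_strict (hV : VFam lam V) (hf : ∀ s, f s ≠ 0) (q i : ℤ) {φ : Fm r (FF n K)}
    (h : φ ∈ Lq f q) (hi : cech n r K φ ∈ VC V f (q + 1) i) :
    ∃ φ' ∈ VC V f q i, cech n r K φ' = cech n r K φ :=
  strict_map (vpack_VC hV hf q) (vpack_VC hV hf (q + 1)) (cech n r K)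
    (fun i m => cech_nab i m) i φ ((mem_Lq_iff hV hf q φ).2 h) hi

/-- The canonical filtration of the Cech cohomology: `(VC q i ∩ ker) + image`. -/
noncomputable def VH (V : MvPowerSeries (Fin n) K → ℤ → Submodule (MvPowerSeries (Fin n) K) (FF n K))
    (f : Fin r → MvPowerSeries (Fin n) K) (q i : ℤ) :
    Submodule (MvPowerSeries (Fin n) K) (Fm r (FF n K)) :=
  (VC V f q i ⊓ LinearMap.ker (cech n r K)) ⊔ (Lq f (q - 1)).map (cech n r K)

theorem CeD_nab_Lq (q : ℤ) (i : Fin n) {φ : Fm r (FF n K)} (h : φ ∈ Lq f q) :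
    (cconn n r K).nab i φ ∈ Lq f q := by
  intro S
  refine ⟨dF_mem_loc' _ i (h S).1, fun hc => ?_⟩
  change dF n K i (φ S) = 0
  rw [(h S).2 hc, map_zero]

theorem vpack_VH (hV : VFam lam V) (hf : ∀ s, f s ≠ 0) (q : ℤ) :
    VPack lam (cconn n r K) ((Lq f (q - 1)).map (cech n r K)) (VH V f q) := by
  refine vpack_sup (vpack_VC hV hf q) (LinearMap.ker (cech n r K))
    ((Lq f (q - 1)).map (cech n r K)) ?_ ?_
  · intro i m hm
    rw [LinearMap.mem_ker] at hm ⊢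
    rw [cech_nab, hm, map_zero]
  · rintro i m ⟨l, hl, rfl⟩
    exact ⟨(cconn n r K).nab i l, CeD_nab_Lq _ i hl, cech_nab i l⟩

theorem CeD_dR_Lq (q : ℤ) {t : Fm n (Fm r (FF n K))} (h : ∀ I, t I ∈ Lq f q)
    (I : Finset (Fin n)) : dR (cconn n r K) t I ∈ Lq f q := by
  change ∑ i ∈ I, sg i I • (cconn n r K).nab i (t (I.erase i)) ∈ Lq f q
  exact Submodule.sum_mem _ fun i _ => Submodule.smul_of_tower_mem _ _ (CeD_nab_Lq _ i (h _))

theorem CeD_dR_isFm {p : ℤ} {t : Fm n (Fm r (FF n K))} (h : IsFm (p - 1) t) :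
    IsFm p (dR (cconn n r K) t) := by
  have h1 := ext_isFm (cconn n r K).nab h
  rwa [sub_add_cancel] at h1

/-- Decomposition of an element of `VH`. -/
theorem CeD_dec {q i : ℤ} (k : ℕ) {m : Fm r (FF n K)} (hm : m ∈ VH V f q i) :
    ∃ v t : Fm r (FF n K), v ∈ VC V f q i ∧ cech n r K v = 0 ∧ t ∈ Lq f (q - 1) ∧
      m = v + ((-1 : ℤ) ^ k) • cech n r K t ∧ (m = 0 → v = 0 ∧ t = 0) := by
  by_cases h0 : m = 0
  · subst h0
    exact ⟨0, 0, Submodule.zero_mem _, map_zero _, Submodule.zero_mem _, by simp, fun _ => ⟨rfl, rfl⟩⟩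
  · obtain ⟨v, hv, w, hw, rfl⟩ := Submodule.mem_sup.1 hm
    obtain ⟨l, hl, rfl⟩ := hw
    refine ⟨v, ((-1 : ℤ) ^ k) • l, hv.1, hv.2, Submodule.smul_of_tower_mem _ _ hl, ?_,
      fun h => absurd h h0⟩
    rw [map_zsmul, smul_smul, ← pow_add, ← two_mul, pow_mul]
    norm_num

/-- Decomposition of a form with coefficients in the steps `a I` of `VH`. -/
theorem CeD_decF {q p : ℤ} {η : Fm n (Fm r (FF n K))} (hp : IsFm p η)
    (a : Finset (Fin n) → ℤ) (hm : ∀ I, η I ∈ VH V f q (a I)) :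
    ∃ v t : Fm n (Fm r (FF n K)), IsFm p v ∧ IsFm p t ∧ (∀ I, v I ∈ VC V f q (a I)) ∧
      (∀ I, cech n r K (v I) = 0) ∧ (∀ I, t I ∈ Lq f (q - 1)) ∧ η = v + sdel n r K t := by
  choose v t h1 h2 h3 h4 h5 using fun I : Finset (Fin n) => CeD_dec I.card (hm I)
  refine ⟨v, t, fun I hI => (h5 I (hp I hI)).1, fun I hI => (h5 I (hp I hI)).2, h1, h2, h3, ?_⟩
  funext I
  exact h4 I

/-- First preparation. -/
theorem prepA [CharZero K] (hlam : lam 1 = 1) (hV : VFam lam V) (hf : ∀ s, f s ≠ 0) (p q : ℤ)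
    {x : Fm n (Fm r (FF n K))} (hx : IsFm p x) (hx1 : ∀ I, x I ∈ Lq f q)
    (hx2 : ∀ I, cech n r K (x I) = 0) (hd : VF (VH V f q) 0 (dR (cconn n r K) x)) :
    ∃ v y z : Fm n (Fm r (FF n K)), IsFm p v ∧ IsFm (p - 1) y ∧ IsFm p z ∧
      (∀ I, v I ∈ VC V f q (-p)) ∧ (∀ I, cech n r K (v I) = 0) ∧
      (∀ I, y I ∈ Lq f q) ∧ (∀ I, cech n r K (y I) = 0) ∧ (∀ I, z I ∈ Lq f (q - 1)) ∧
      x = v + dR (cconn n r K) y + sdel n r K z := by
  have hp := vpack_VH hV hf q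
  have hω : ∀ I, ∃ i, x I ∈ VH V f q i := by
    intro I
    obtain ⟨i, hi⟩ := (mem_Lq_iff hV hf q (x I)).2 (hx1 I)
    exact ⟨i, Submodule.mem_sup_left ⟨hi, hx2 I⟩⟩
  obtain ⟨η, hη, hη1, hη2⟩ := q1 hlam hp.compat hp.gr hx hω hd
  choose a ha using hη1
  obtain ⟨y, t, hy, ht, hy1, hy2, ht1, e1⟩ := CeD_decF hη a ha
  have hxη : IsFm p (x - dR (cconn n r K) η) := by
    intro I hI
    rw [Pi.sub_apply, hx I hI, CeD_dR_isFm hη I hI, sub_zero]
  obtain ⟨v, s, hv, hs, hv1, hv2, hs1, e2⟩ := CeD_decF hxη (fun I => 0 - (I.card : ℤ)) hη2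
  refine ⟨v, y, s - dR (cconn n r K) t, hv, hy, ?_, ?_, hv2, ?_, hy2, ?_, ?_⟩
  · intro I hI
    rw [Pi.sub_apply, hs I hI, CeD_dR_isFm ht I hI, sub_zero]
  · intro I
    by_cases hI : (I.card : ℤ) = p
    · have h1 := hv1 I
      simp only [hI, zero_sub] at h1
      exact h1
    · rw [hv I hI]
      exact Submodule.zero_mem _
  · intro I
    exact (mem_Lq_iff hV hf q (y I)).1 ⟨_, hy1 I⟩
  · intro I
    exact Submodule.sub_mem _ (hs1 I) (CeD_dR_Lq _ ht1 I)
  · have e3 : x = (v + sdel n r K s) + dR (cconn n r K) η := by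
      rw [← e2, sub_add_cancel]
    rw [e3, e1, map_add, dR_sdel, map_sub]
    abel

/-- Second preparation. -/
theorem prepB [CharZero K] (hlam : lam 1 = 1) (hV : VFam lam V) (hf : ∀ s, f s ≠ 0) (p q : ℤ)
    {u : Fm n (Fm r (FF n K))} (hu : IsFm p u) (hu1 : ∀ I, u I ∈ VC V f q (1 - p))
    (hu2 : ∀ I, cech n r K (u I) = 0)
    (hd : ∀ I, dR (cconn n r K) u I ∈ (Lq f (q - 1)).map (cech n r K)) :
    ∃ s t : Fm n (Fm r (FF n K)), IsFm (p - 1) s ∧ IsFm p t ∧
      (∀ I, s I ∈ VC V f q (2 - p)) ∧ (∀ I, cech n r K (s I) = 0) ∧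
      (∀ I, t I ∈ VC V f (q - 1) (1 - p)) ∧ u = dR (cconn n r K) s + sdel n r K t := by
  have hp := vpack_VH hV hf q
  have hω : VF (VH V f q) 1 u := by
    intro I
    by_cases hI : (I.card : ℤ) = p
    · rw [hI]
      exact Submodule.mem_sup_left ⟨hu1 I, hu2 I⟩
    · rw [hu I hI]
      exact Submodule.zero_mem _
  obtain ⟨η, hη, hη1, hη2⟩ := q2 hlam hp hu hω hd
  obtain ⟨s, t', hs, ht', hs1, hs2, ht1, e1⟩ := CeD_decF hη (fun I => 1 - (I.card : ℤ)) hη1
  have hs3 : ∀ I, s I ∈ VC V f q (2 - p) := by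
    intro I
    by_cases hI : (I.card : ℤ) = p - 1
    · have h1 := hs1 I
      have e : (1 : ℤ) - (I.card : ℤ) = 2 - p := by
        rw [hI]
        ring
      simp only [e] at h1
      exact h1
    · rw [hs I hI]
      exact Submodule.zero_mem _
  have huds : IsFm p (u - dR (cconn n r K) s) := by
    intro I hI
    rw [Pi.sub_apply, hu I hI, CeD_dR_isFm hs I hI, sub_zero]
  have hmem : ∀ I, (u - dR (cconn n r K) s) I ∈ VC V f q (1 - p) := by
    intro I
    refine Submodule.sub_mem _ (hu1 I) ?_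
    change ∑ i ∈ I, sg i I • (cconn n r K).nab i (s (I.erase i)) ∈ VC V f q (1 - p)
    refine Submodule.sum_mem _ fun i _ => Submodule.smul_of_tower_mem _ _ ?_
    have h1 := (vpack_VC hV hf q).compat.nab_mem (2 - p) i _ (hs3 (I.erase i))
    have e : (2 : ℤ) - p - 1 = 1 - p := by ring
    rwa [e] at h1
  have himg : ∀ I, (u - dR (cconn n r K) s) I ∈ (Lq f (q - 1)).map (cech n r K) := by
    intro I
    have e2 : u - dR (cconn n r K) s =
        (u - dR (cconn n r K) η) - sdel n r K (dR (cconn n r K) t') := by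
      rw [e1, map_add, dR_sdel]
      abel
    rw [e2]
    refine Submodule.sub_mem _ (hη2 I) ?_
    exact Submodule.smul_of_tower_mem _ _ ⟨_, CeD_dR_Lq _ ht1 I, rfl⟩
  have key : ∀ I, ∃ t ∈ VC V f (q - 1) (1 - p),
      (u - dR (cconn n r K) s) I = ((-1 : ℤ) ^ I.card) • cech n r K t ∧
      ((u - dR (cconn n r K) s) I = 0 → t = 0) := by
    intro I
    by_cases h0 : (u - dR (cconn n r K) s) I = 0
    · refine ⟨0, Submodule.zero_mem _, ?_, fun _ => rfl⟩
      rw [h0, map_zero]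
      simp
    · obtain ⟨l, hl, hl2⟩ := himg I
      have h1 : cech n r K l ∈ VC V f (q - 1 + 1) (1 - p) := by
        rw [hl2, sub_add_cancel]
        exact hmem I
      obtain ⟨l', hl', hl3⟩ := cech_strict hV hf (q - 1) (1 - p) hl h1
      refine ⟨((-1 : ℤ) ^ I.card) • l', Submodule.smul_of_tower_mem _ _ hl', ?_,
        fun h => absurd h h0⟩
      rw [map_zsmul, smul_smul, ← pow_add, ← two_mul, pow_mul, hl3, hl2]
      norm_num
  choose t ht2 ht3 ht4 using key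
  refine ⟨s, t, hs, fun I hI => ht4 I (huds I hI), hs3, hs2, ht2, ?_⟩
  have e4 : u - dR (cconn n r K) s = sdel n r K t := by
    funext I
    exact ht3 I
  rw [← e4]
  abel

end B5a
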