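import Pool.Agent.H.MP_b5a980_ag.WtA

set_option autoImplicit false
set_option linter.unusedSectionVars false
set_option linter.style.longLine false

/-!
Weights of polynomials: shifts (MP_b5a980_ag, part B).
-/

namespace B5a

universe u v w

theorem WtB_sub_eq {k : Type u} [Field k] (p : Polynomial k) (a : ℤ) :
    p.comp (Polynomial.X - Polynomial.C (a : k)) = Polynomial.taylor (-(a : k)) p := by
  rw [Polynomial.taylor_apply, sub_eq_add_neg, map_neg]

theorem WtB_hasse {k : Type u} [Field k] (p : Polynomial k) (hp : p.Monic)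
    (hd : 0 < p.natDegree) :
    Polynomial.hasseDeriv (p.natDegree - 1) p =
      Polynomial.C (p.coeff (p.natDegree - 1)) +
        Polynomial.C (p.natDegree : k) * Polynomial.X := by
  obtain ⟨d, hd'⟩ : ∃ d, p.natDegree = d + 1 := ⟨p.natDegree - 1, by omega⟩
  ext n
  rw [Polynomial.hasseDeriv_coeff, hd', Nat.add_sub_cancel]
  rcases n with _ | _ | n
  · simp
  · have h1 : p.coeff (d + 1) = 1 := by
      rw [← hd']
      exact hp
    have h2 : 0 + 1 + d = d + 1 := by omega
    rw [h2, h1, Nat.choose_symm_add]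
    simp
  · have h1 : p.coeff (n + 1 + 1 + d) = 0 :=
      Polynomial.coeff_eq_zero_of_natDegree_lt (by omega)
    rw [h1]
    simp [Polynomial.coeff_one]

theorem WtB_nextCoeff {k : Type u} [Field k] (p : Polynomial k) (hp : p.Monic)
    (hd : 0 < p.natDegree) (r : k) :
    (Polynomial.taylor r p).nextCoeff = p.nextCoeff + (p.natDegree : k) * r := by
  have hd' : 0 < (Polynomial.taylor r p).natDegree := by
    rw [Polynomial.natDegree_taylor]
    exact hd
  rw [Polynomial.nextCoeff_of_natDegree_pos hd', Polynomial.nextCoeff_of_natDegree_pos hd,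
    Polynomial.natDegree_taylor, Polynomial.taylor_coeff, WtB_hasse p hp hd]
  simp

theorem WtB_monic {k : Type u} [Field k] {p : Polynomial k} (hp : p.Monic) (r : k) :
    (Polynomial.taylor r p).Monic := by
  rw [Polynomial.Monic, Polynomial.leadingCoeff_taylor]
  exact hp

theorem WtB_irred {k : Type u} [Field k] {p : Polynomial k} (hp : Irreducible p) (r : k) :
    Irreducible (Polynomial.taylor r p) := by
  have h := (MulEquiv.irreducible_iff (Polynomial.taylorEquiv r) (x := p)).2 hp
  exact h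

variable {k : Type u} [Field k] [CharZero k] {lam : k →+ ℚ} (hlam : lam 1 = 1)
include hlam

theorem wt_comp (p : Polynomial k) (hp : p.Monic) (hd : 0 < p.natDegree) (a : ℤ) :
    wt lam (p.comp (Polynomial.X - Polynomial.C (a : k))) = wt lam p + a := by
  have hd0 : (p.natDegree : k) ≠ 0 := Nat.cast_ne_zero.2 hd.ne'
  have ha : lam (a : k) = (a : ℚ) := by
    have h : (a : k) = a • (1 : k) := by simp
    rw [h, map_zsmul, hlam]
    simp
  rw [WtB_sub_eq, wt, wt, WtB_nextCoeff p hp hd, Polynomial.natDegree_taylor]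
  have h : -(p.nextCoeff + (p.natDegree : k) * -(a : k)) / (p.natDegree : k) =
      -p.nextCoeff / (p.natDegree : k) + (a : k) := by
    field_simp
    ring
  rw [h, map_add, ha, Int.floor_add_intCast]

theorem WtB_factor (a : ℤ) {c p : Polynomial k} (hp : p.Monic) (hi : Irreducible p)
    (hd : p ∣ c.comp (Polynomial.X - Polynomial.C (a : k))) :
    ∃ q : Polynomial k, q.Monic ∧ Irreducible q ∧ q ∣ c ∧ wt lam p = wt lam q + a := by
  refine ⟨Polynomial.taylor (a : k) p, WtB_monic hp _, WtB_irred hi _, ?_, ?_⟩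
  · rw [WtB_sub_eq] at hd
    obtain ⟨e, he⟩ := hd
    refine ⟨Polynomial.taylor (a : k) e, ?_⟩
    rw [← Polynomial.taylor_mul, ← he, Polynomial.taylor_taylor, add_neg_cancel,
      Polynomial.taylor_zero]
  · have h := wt_comp hlam (Polynomial.taylor (a : k) p) (WtB_monic hp _)
      (WtB_irred hi _).natDegree_pos a
    rw [WtB_sub_eq, Polynomial.taylor_taylor, neg_add_cancel, Polynomial.taylor_zero] at h
    exact h

theorem PW_shift (a : ℤ) {i : ℤ} {c : Polynomial k} (h : PW lam i c) :
    PW lam (i + a) (c.comp (Polynomial.X - Polynomial.C (a : k))) := by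
  refine ⟨?_, ?_⟩
  · rw [WtB_sub_eq]
    exact WtB_monic h.1 _
  · intro p hp hi hd
    obtain ⟨q, hq, hqi, hqd, hw⟩ := WtB_factor hlam a hp hi hd
    rw [hw, h.2 q hq hqi hqd]

theorem SW_shift (a : ℤ) {i : ℤ} {c : Polynomial k} (h : SW lam i c) :
    SW lam (i + a) (c.comp (Polynomial.X - Polynomial.C (a : k))) := by
  refine ⟨?_, ?_⟩
  · rw [WtB_sub_eq]
    exact WtB_monic h.1 _
  · intro p hp hi hd
    obtain ⟨q, hq, hqi, hqd, hw⟩ := WtB_factor hlam a hp hi hd
    have h2 := h.2 q hq hqi hqd
    omega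

theorem LW_shift (a : ℤ) {i : ℤ} {c : Polynomial k} (h : LW lam i c) :
    LW lam (i + a) (c.comp (Polynomial.X - Polynomial.C (a : k))) := by
  refine ⟨?_, ?_⟩
  · rw [WtB_sub_eq]
    exact WtB_monic h.1 _
  · intro p hp hi hd
    obtain ⟨q, hq, hqi, hqd, hw⟩ := WtB_factor hlam a hp hi hd
    have h2 := h.2 q hq hqi hqd
    omega

end B5a
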