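import Pool.Agent.H.MP_b5a980_ag.ConnE
import Pool.Agent.H.MP_b5a980_ag.WtB

set_option autoImplicit false
set_option linter.unusedSectionVars false
set_option linter.style.longLine false

/-!
Existence of the canonical filtration (MP_b5a980_ag, B4).
-/

namespace B5a

universe u v w

open MvPowerSeries

variable {n : ℕ} {K : Type u} [Field K] {M : Type v} [AddCommGroup M]
  [Module (MvPowerSeries (Fin n) K) M] [Module K M] [IsScalarTower K (MvPowerSeries (Fin n) K) M]

/-- The canonical filtration of the module generated by `u`. Fill the proofs.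

Proof. zero: `c = 1`. add: the product of the two polynomials (`SW_mul`, `Compat.aeval_mem`). smul: this needs `U^N ⊆ V^i` for large `N`, so the submodule property is only available from `exists_vpack_cyclic`; here we only define the set. -/
def vset (lam : K →+ ℚ) (C : Conn n K M) (u : M) (i : ℤ) : Set M :=
  {m | m ∈ C.D u ∧ ∀ N : ℤ, ∃ c : Polynomial K, SW lam i c ∧ Polynomial.aeval C.theta c m ∈ C.V u N}

variable [CharZero K] {lam : K →+ ℚ} (hlam : lam 1 = 1) {C : Conn n K M} {u : M}
  {b : Polynomial K} (hb0 : b ≠ 0) (hb : Polynomial.aeval C.theta b u ∈ C.V u 1)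
include hlam hb0 hb

/-- Proof. We may assume `b` monic. `w0, w1` from `exists_wt_bounds`. `b.comp (X - C i)` maps `U i` to `U (i+1)`, `U = C.V u` (`Conn.aeval_V_mem`), and belongs to `SW (i + w0)` (`SW_shift`). For `a ≤ N` the product over `i = a .. N-1` maps `U a` to `U N` and lies in `SW (a + w0)`; so `U a ⊆ vset (a + w0)` (`V_le_D`). For the second part let `m ∈ vset i`, and `m ∈ U l` for some `l` (`exists_mem_V`); while `l + w1 < i`: `b.comp (X - C l) ∈ LW i` (`LW_shift`), take `c ∈ SW i` with `c(θ) m ∈ U (l+1)`; `SW_LW_coprime`: `1 = α c + β b(.-l)`, so `m ∈ U (l+1)`. Iterate until `l + w1 ≥ i`; so `m ∈ U (i - w1)`. Put `w = max |w0| |w1|`. -/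
theorem vset_sandwich : ∃ w : ℕ, (∀ a : ℤ, ∀ m ∈ C.V u a, m ∈ vset lam C u (a - w)) ∧
    ∀ (i : ℤ) (m : M), m ∈ vset lam C u i → m ∈ C.V u (i - w) := by
  have hV := C.V_compat u
  obtain ⟨b', hmon, hb'⟩ : ∃ b' : Polynomial K, b'.Monic ∧
      Polynomial.aeval C.theta b' u ∈ C.V u 1 := by
    refine ⟨b * Polynomial.C b.leadingCoeff⁻¹, Polynomial.monic_mul_leadingCoeff_inv hb0, ?_⟩
    rw [mul_comm, map_mul, Module.End.mul_apply]
    exact hV.aeval_mem _ hb
  obtain ⟨w0, w1, hw⟩ := exists_wt_bounds lam b' hmon.ne_zero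
  have hS : SW lam w0 b' := ⟨hmon, fun p hp hi hd => (hw p hp hi hd).1⟩
  have hL : LW lam (w1 + 1) b' := ⟨hmon, fun p hp hi hd => Int.lt_add_one_iff.2 (hw p hp hi hd).2⟩
  refine ⟨max w0.natAbs w1.natAbs, ?_, ?_⟩
  · intro a m hm
    have key : ∀ k : ℕ, ∃ c : Polynomial K, SW lam (a - (max w0.natAbs w1.natAbs : ℕ)) c ∧
        Polynomial.aeval C.theta c m ∈ C.V u (a + k) := by
      intro k
      induction k with
      | zero =>
        refine ⟨1, SW_one _, ?_⟩
        rw [map_one, Module.End.one_apply]
        simpa using hm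
      | succ k ih =>
        obtain ⟨c, hc1, hc2⟩ := ih
        refine ⟨b'.comp (Polynomial.X - Polynomial.C ((a + k : ℤ) : K)) * c,
          SW_mul (SW_mono ?_ (SW_shift hlam (a + k) hS)) hc1, ?_⟩
        · omega
        · rw [map_mul, Module.End.mul_apply]
          have h1 := C.aeval_V_mem hb' hc2
          have h2 : a + ((k + 1 : ℕ) : ℤ) = a + (k : ℤ) + 1 := by push_cast; ring
          rw [h2]
          exact h1
    refine ⟨C.V_le_D u a hm, fun N => ?_⟩
    rcases le_or_gt N a with h | h
    · refine ⟨1, SW_one _, ?_⟩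
      rw [map_one, Module.End.one_apply]
      exact hV.le h hm
    · obtain ⟨c, hc1, hc2⟩ := key (N - a).toNat
      refine ⟨c, hc1, ?_⟩
      have h2 : a + (((N - a).toNat : ℕ) : ℤ) = N := by
        rw [Int.toNat_of_nonneg (by omega)]
        ring
      rwa [h2] at hc2
  · intro i m hm
    obtain ⟨hD, hN⟩ := hm
    obtain ⟨l0, hl0⟩ := C.exists_mem_V hD
    have step : ∀ l : ℤ, m ∈ C.V u l → l + w1 < i → m ∈ C.V u (l + 1) := by
      intro l hl hlt
      obtain ⟨c, hc1, hc2⟩ := hN (l + 1)
      have h1 := C.aeval_V_mem hb' hl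
      have h2 : LW lam i (b'.comp (Polynomial.X - Polynomial.C (l : K))) := by
        have h3 := LW_shift hlam l hL
        refine ⟨h3.1, fun p hp hi hd => ?_⟩
        have h4 := h3.2 p hp hi hd
        omega
      obtain ⟨α, β, hαβ⟩ := SW_LW_coprime hc1 h2
      have h5 : m = Polynomial.aeval C.theta α (Polynomial.aeval C.theta c m) +
          Polynomial.aeval C.theta β (Polynomial.aeval C.theta
            (b'.comp (Polynomial.X - Polynomial.C (l : K))) m) := by
        have h6 := congrArg (fun q : Polynomial K => Polynomial.aeval C.theta q m) hαβ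
        simp only [map_add, map_mul, map_one, LinearMap.add_apply, Module.End.mul_apply,
          Module.End.one_apply] at h6
        exact h6.symm
      rw [h5]
      exact Submodule.add_mem _ (hV.aeval_mem _ hc2) (hV.aeval_mem _ h1)
    have key : ∀ k : ℕ, l0 + k ≤ i - w1 → m ∈ C.V u (l0 + k) := by
      intro k
      induction k with
      | zero => intro _; simpa using hl0
      | succ k ih =>
        intro hk
        have h1 := step (l0 + k) (ih (by push_cast at hk; omega)) (by push_cast at hk; omega)
        have h2 : l0 + ((k + 1 : ℕ) : ℤ) = l0 + (k : ℤ) + 1 := by push_cast; ring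
        rw [h2]
        exact h1
    rcases le_or_gt (i - w1) l0 with h | h
    · exact hV.le (by omega) hl0
    · have h1 := key (i - w1 - l0).toNat (by rw [Int.toNat_of_nonneg (by omega)]; omega)
      refine hV.le ?_ h1
      rw [Int.toNat_of_nonneg (by omega)]
      omega

end B5a
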