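import Pool.Agent.H.MP_b5a980_ag.ArB
import Pool.Agent.H.MP_b5a980_ag.VeA

set_option autoImplicit false
set_option linter.unusedSectionVars false
set_option linter.style.longLine false

/-!
Existence of the canonical filtration, 2 (MP_b5a980_ag, B4).
-/

namespace B5a

universe u v w

open MvPowerSeries

variable {n : ℕ} {K : Type u} [Field K] {M : Type v} [AddCommGroup M]
  [Module (MvPowerSeries (Fin n) K) M] [Module K M] [IsScalarTower K (MvPowerSeries (Fin n) K) M]

section VeB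

variable {lam : K →+ ℚ} {C : Conn n K M} {u : M}

theorem VeB_zero (i : ℤ) : (0 : M) ∈ vset lam C u i := by
  refine ⟨Submodule.zero_mem _, fun N => ⟨1, SW_one i, ?_⟩⟩
  rw [map_zero]
  exact Submodule.zero_mem _

theorem VeB_add {i : ℤ} {m m' : M} (h : m ∈ vset lam C u i) (h' : m' ∈ vset lam C u i) :
    m + m' ∈ vset lam C u i := by
  refine ⟨Submodule.add_mem _ h.1 h'.1, fun N => ?_⟩
  obtain ⟨c, hc, hm⟩ := h.2 N
  obtain ⟨c', hc', hm'⟩ := h'.2 N
  refine ⟨c * c', SW_mul hc hc', ?_⟩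
  rw [map_add]
  refine Submodule.add_mem _ ?_ ?_
  · rw [mul_comm, map_mul, Module.End.mul_apply]
    exact (C.V_compat u).aeval_mem c' hm
  · rw [map_mul, Module.End.mul_apply]
    exact (C.V_compat u).aeval_mem c hm'

theorem VeB_mono {i j : ℤ} (hij : i ≤ j) {m : M} (h : m ∈ vset lam C u j) :
    m ∈ vset lam C u i := by
  refine ⟨h.1, fun N => ?_⟩
  obtain ⟨c, hc, hm⟩ := h.2 N
  exact ⟨c, SW_mono hij hc, hm⟩

theorem VeB_comp_sub_add (c : Polynomial K) (a : K) :
    (c.comp (Polynomial.X - Polynomial.C a)).comp (Polynomial.X + Polynomial.C a) = c := by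
  rw [Polynomial.comp_assoc]
  have h : (Polynomial.X - Polynomial.C a).comp (Polynomial.X + Polynomial.C a) =
      Polynomial.X := by
    simp
  rw [h, Polynomial.comp_X]

theorem VeB_monomial [CharZero K] (hlam : lam 1 = 1) {i : ℤ} {m : M}
    (h : m ∈ vset lam C u i) (β : Fin n →₀ ℕ) (a : K) :
    (monomial β a : MvPowerSeries (Fin n) K) • m ∈ vset lam C u (i + β.degree) := by
  refine ⟨Submodule.smul_mem _ _ h.1, fun N => ?_⟩
  obtain ⟨c, hc, hm⟩ := h.2 N
  have h1 := SW_shift hlam (β.degree : ℤ) hc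
  rw [Int.cast_natCast] at h1
  refine ⟨_, h1, ?_⟩
  rw [C.aeval_theta_monomial_smul, VeB_comp_sub_add]
  exact Submodule.smul_mem _ _ hm

theorem VeB_sum {ι : Type} (s : Finset ι) {i : ℤ} (f : ι → M)
    (h : ∀ j ∈ s, f j ∈ vset lam C u i) : ∑ j ∈ s, f j ∈ vset lam C u i := by
  classical
  induction s using Finset.induction_on with
  | empty =>
    rw [Finset.sum_empty]
    exact VeB_zero i
  | insert a s ha ih =>
    rw [Finset.sum_insert ha]
    exact VeB_add (h a (Finset.mem_insert_self a s))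
      (ih fun j hj => h j (Finset.mem_insert_of_mem hj))

theorem VeB_homog [CharZero K] (hlam : lam 1 = 1) {i : ℤ} {m : M}
    (h : m ∈ vset lam C u i) (e : ℕ) (g : MvPowerSeries (Fin n) K) :
    homog e g • m ∈ vset lam C u i := by
  rw [homog, Finset.sum_smul]
  refine VeB_sum _ _ fun β _ => ?_
  exact VeB_mono (by omega) (VeB_monomial hlam h β _)

theorem VeB_trunc [CharZero K] (hlam : lam 1 = 1) {i : ℤ} {m : M}
    (h : m ∈ vset lam C u i) (r : MvPowerSeries (Fin n) K) (N : ℕ) :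
    ∃ s : MvPowerSeries (Fin n) K, s • m ∈ vset lam C u i ∧ r - s ∈ mI n K N := by
  induction N with
  | zero =>
    refine ⟨0, ?_, ?_⟩
    · rw [zero_smul]
      exact VeB_zero i
    · rw [mI_zero]
      trivial
  | succ N ih =>
    obtain ⟨s, hs, hr⟩ := ih
    refine ⟨s + homog N (r - s), ?_, ?_⟩
    · rw [add_smul]
      exact VeB_add hs (VeB_homog hlam h N (r - s))
    · rw [← sub_sub]
      exact sub_homog_mem_mI hr

theorem VeB_nab [CharZero K] (hlam : lam 1 = 1) {i : ℤ} {m : M}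
    (h : m ∈ vset lam C u i) (l : Fin n) : C.nab l m ∈ vset lam C u (i - 1) := by
  refine ⟨C.nab_mem_D h.1 l, fun N => ?_⟩
  obtain ⟨c, hc, hm⟩ := h.2 (N + 1)
  have h1 := SW_shift hlam (-1 : ℤ) hc
  refine ⟨_, h1, ?_⟩
  rw [← C.pw_single l m, C.aeval_theta_pw, Polynomial.comp_assoc]
  have h2 : (Polynomial.X - Polynomial.C (((-1 : ℤ) : K))).comp
      (Polynomial.X - Polynomial.C (((Finsupp.single l 1 : Fin n →₀ ℕ).degree : ℕ) : K)) =
      Polynomial.X := by
    rw [Finsupp.degree_single]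
    simp
  rw [h2, Polynomial.comp_X, C.pw_single]
  have h3 := (C.V_compat u).nab_mem _ l _ hm
  rwa [add_sub_cancel_right] at h3

theorem VeB_aeval_D (c : Polynomial K) {m : M} (h : m ∈ C.D u) :
    Polynomial.aeval C.theta c m ∈ C.D u := by
  obtain ⟨d, hd⟩ := C.exists_mem_V h
  exact C.V_le_D u d ((C.V_compat u).aeval_mem c hd)

end VeB

/-- Existence for cyclic modules with a `b`-function.

Proof. `V i` = `vset lam C u i`. (1) additive subgroup, stable under `K`: product of polynomials. `V (i+1) ⊆ V i`: `SW_mono`. (2) `x^β V i ⊆ V (i + |β|)`: `c(θ - |β|) x^β m = x^β c(θ) m` (`aeval_theta_monomial_smul` for `c.comp (X - C |β|)`, which is in `SW (i + |β|)` by `SW_shift`), and `x^β U N ⊆ U N`. (3) `R`-submodule: for `r ∈ R`, `m ∈ V i`: `m ∈ U l` for some `l` (`exists_mem_V`); write `r = Σ_{|β| < N} r_β x^β + r'`, `r' ∈ mI N`; `r' m ∈ U (l + N) ⊆ V (l + N - w) ⊆ V i` for `N` large (`vset_sandwich`), the other terms by (1), (2). (4) `nab_l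 V i ⊆ V (i-1)`: `c(θ + 1) nab_l m = nab_l c(θ) m` (`aeval_theta_pw` for `γ = e_l`), `c.comp (X + 1) = c.comp (X - C (-1)) ∈ SW (i-1)`, `nab_l U N ⊆ U (N-1)`. So `Compat`. (5) gr: let `m ∈ V i`. Choose `N` with `U N ⊆ V (i+1)` (sandwich) and `c ∈ SW i` with `c(θ) m ∈ U N`. `SW_split`: `c = c1 c2`. Put `y = c1(θ) m`. `c2(θ) y ∈ V (i+1)`; so for every `N'` there is `c' ∈ SW (i+1)` with `c'(θ) c2(θ) y ∈ U N'`, and `c' c2 ∈ SW (i+1)`; hence `y ∈ V (i+1)`. (6) good: `V i ≤ U (i - w)` and `i ↦ U (i - w) = C.V u (i - w)` is good (one generator), so `artin_rees` with `N = ⊥`. (7) union: `V i ⊆ D u`; conversely `m ∈ D u` lies in some `U l ⊆ V (l - w)`. -/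
theorem exists_vpack_cyclic [CharZero K] {lam : K →+ ℚ} (hlam : lam 1 = 1) {C : Conn n K M} {u : M}
    {b : Polynomial K} (hb0 : b ≠ 0) (hb : Polynomial.aeval C.theta b u ∈ C.V u 1) :
    ∃ V : ℤ → Submodule (MvPowerSeries (Fin n) K) M, VPack lam C ⊥ V ∧
      ∀ m, (∃ i, m ∈ V i) ↔ m ∈ C.D u := by
  obtain ⟨w, hw1, hw2⟩ := vset_sandwich hlam hb0 hb
  have hsmul : ∀ (i : ℤ) (r : MvPowerSeries (Fin n) K) (m : M), m ∈ vset lam C u i →
      r • m ∈ vset lam C u i := by
    intro i r m hm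
    obtain ⟨l, hl⟩ := C.exists_mem_V hm.1
    obtain ⟨s, hs, hr⟩ := VeB_trunc hlam hm r (i - l + w).toNat
    have h1 := (C.V_compat u).mI_mem hr hl
    have h2 := hw1 _ _ h1
    have h3 : (r - s) • m ∈ vset lam C u i := VeB_mono (by omega) h2
    have h4 := VeB_add hs h3
    rwa [← add_smul, add_sub_cancel] at h4
  let V : ℤ → Submodule (MvPowerSeries (Fin n) K) M := fun i =>
    { carrier := vset lam C u i
      add_mem' := fun h h' => VeB_add h h'
      zero_mem' := VeB_zero i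
      smul_mem' := fun r m hm => hsmul i r m hm }
  have hmem : ∀ i m, m ∈ V i ↔ m ∈ vset lam C u i := fun i m => Iff.rfl
  have hcompat : Compat C V := by
    refine ⟨fun i m hm => ?_, fun i l m hm => ?_, fun i l m hm => ?_⟩
    · exact VeB_mono (by omega) hm
    · have h1 := VeB_monomial hlam hm (Finsupp.single l 1) (1 : K)
      rw [Finsupp.degree_single] at h1
      exact h1
    · exact VeB_nab hlam hm l
  refine ⟨V, ⟨hcompat, ?_, ?_, ?_⟩, fun m => ⟨?_, fun hm => ?_⟩⟩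
  · intro i m hm
    rw [Submodule.mem_bot] at hm ⊢
    rw [hm, map_zero]
  · intro i m hm
    obtain ⟨c, hc, hcm⟩ := hm.2 (i + 1 + w)
    obtain ⟨c1, c2, h1, h2, rfl⟩ := SW_split hc
    refine ⟨c1, h1, VeB_aeval_D c1 hm.1, fun N' => ?_⟩
    have h3 := hw1 _ _ hcm
    rw [add_sub_cancel_right] at h3
    obtain ⟨c', hc', hm'⟩ := h3.2 N'
    refine ⟨c' * c2, SW_mul hc' h2, ?_⟩
    rw [map_mul, Module.End.mul_apply]
    rw [mul_comm c1 c2, map_mul, Module.End.mul_apply] at hm'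
    exact hm'
  · have hgood : GoodRel C ⊥ (fun i : ℤ => C.V u (i - w)) := by
      refine ⟨1, fun _ => u, fun _ => (w : ℤ), fun i => ?_⟩
      rw [bot_sup_eq, ciSup_const]
    exact artin_rees hgood hcompat (fun _ => bot_le) fun i m hm => hw2 i m hm
  · rintro ⟨i, hi⟩
    exact hi.1
  · obtain ⟨l, hl⟩ := C.exists_mem_V hm
    exact ⟨l - w, hw1 l m hl⟩

end B5a
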