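import Pool.Agent.H.MP_b5a980_ag.BS
import Pool.Agent.H.MP_b5a980_ag.Lc0
import Pool.Agent.H.MP_b5a980_ag.VeB

set_option autoImplicit false
set_option linter.unusedSectionVars false
set_option linter.style.longLine false

/-!
The canonical filtration of the localisations (MP_b5a980_ag, B4).
-/

namespace B5a

universe u v w

open MvPowerSeries

variable {n : ℕ} {K : Type u} [Field K]

/-- The localisation is stable under the derivatives. -/
theorem dF_mem_loc {f : MvPowerSeries (Fin n) K} (hf : f ≠ 0) (i : Fin n) {x : FF n K}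
    (hx : x ∈ loc f) : dF n K i x ∈ loc f := by
  obtain ⟨N, r, hr⟩ := hx
  refine ⟨N + N, f ^ N * pderiv K i r - pderiv K i (f ^ N) * r, ?_⟩
  have h1 : dF n K i (inc n K f ^ N * x) = inc n K (pderiv K i r) := by
    rw [hr, dF_inc]
  rw [Derivation.leibniz, smul_eq_mul, smul_eq_mul, ← map_pow, dF_inc] at h1
  rw [map_sub, map_mul, map_mul, ← hr, ← h1, map_pow, pow_add]
  ring

theorem VeC_pow_mem [CharZero K] {f : MvPowerSeries (Fin n) K} {m r : ℕ}
    (h : ∀ i : ℕ, inc n K f ^ (-((m : ℤ) + i + 1)) ∈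
      (std n K).Fil r (inc n K f ^ (-((m : ℤ) + i)))) (i : ℕ) :
    inc n K f ^ (-((m : ℤ) + i)) ∈ (std n K).D (inc n K f ^ (-(m : ℤ))) := by
  induction i with
  | zero =>
    rw [Nat.cast_zero, add_zero]
    exact (std n K).mem_D_self _
  | succ i ih =>
    have h1 := (std n K).Fil_le_D _ _ (h i)
    have h2 := (std n K).D_le (N := (std n K).D (inc n K f ^ (-(m : ℤ))))
      (fun l y hy => (std n K).nab_mem_D hy l) ih h1
    rw [Nat.cast_add, Nat.cast_one, ← add_assoc]
    exact h2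

/-- The localisation is generated by a power of `f`, uniformly. -/
theorem loc_eq_D [CharZero K] {f : MvPowerSeries (Fin n) K} (hf : f ≠ 0) {m r : ℕ}
    (h : ∀ i : ℕ, inc n K f ^ (-((m : ℤ) + i + 1)) ∈
      (std n K).Fil r (inc n K f ^ (-((m : ℤ) + i)))) :
    loc f = (std n K).D (inc n K f ^ (-(m : ℤ))) := by
  have hf0 : inc n K f ≠ 0 := inc_ne_zero hf
  apply le_antisymm
  · rintro x ⟨N, q, hq⟩
    have h1 : x = (q * f ^ m) • inc n K f ^ (-((m : ℤ) + N)) := by
      rw [Algebra.smul_def, map_mul, map_pow]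
      have h2 : inc n K f ^ N ≠ 0 := pow_ne_zero _ hf0
      apply mul_left_cancel₀ h2
      rw [hq]
      have h3 : inc n K f ^ (-((m : ℤ) + N)) = (inc n K f ^ m * inc n K f ^ N)⁻¹ := by
        rw [zpow_neg, zpow_add₀ hf0, zpow_natCast, zpow_natCast]
      rw [h3]
      have h4 : inc n K f ^ m ≠ 0 := pow_ne_zero _ hf0
      field_simp
    rw [h1]
    exact Submodule.smul_mem _ _ (VeC_pow_mem h N)
  · refine (std n K).D_le (fun i x hx => dF_mem_loc hf i hx) ⟨m, 1, ?_⟩
    rw [zpow_neg, zpow_natCast, mul_inv_cancel₀ (pow_ne_zero _ hf0), map_one]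

theorem VeC_dF_zpow {f : MvPowerSeries (Fin n) K} (hf : f ≠ 0) (i : Fin n) (z : ℤ)
    (q : MvPowerSeries (Fin n) K) :
    dF n K i (q • inc n K f ^ z) =
      (pderiv K i q * f + (z : MvPowerSeries (Fin n) K) * q * pderiv K i f) •
        inc n K f ^ (z - 1) := by
  have hf0 : inc n K f ≠ 0 := inc_ne_zero hf
  have h1 : dF n K i (inc n K f ^ z) =
      (z : FF n K) * inc n K f ^ (z - 1) * inc n K (pderiv K i f) := by
    have h2 := fracDer_zpow (pderiv K i) (inc n K f) hf0 z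
    rw [fracDer_algebraMap] at h2
    exact h2
  rw [FrB_leib, h1, Algebra.smul_def, Algebra.smul_def, Algebra.smul_def, map_add, map_mul,
    map_mul, map_mul, map_intCast, add_mul]
  have h3 : inc n K f ^ z = inc n K f * inc n K f ^ (z - 1) := by
    rw [← zpow_one_add₀ hf0]
    congr 1
    ring
  rw [h3]
  ring

theorem VeC_pw {f : MvPowerSeries (Fin n) K} (hf : f ≠ 0) (m : ℕ) (d : ℕ) :
    ∀ α : Fin n →₀ ℕ, α.degree = d → ∃ q : MvPowerSeries (Fin n) K,
      (std n K).pw α (inc n K f ^ (-(m : ℤ))) = q • inc n K f ^ (-((m : ℤ) + d)) := by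
  induction d with
  | zero =>
    intro α hα
    have h0 : α = 0 := (Finsupp.degree_eq_zero_iff α).1 hα
    refine ⟨1, ?_⟩
    rw [h0, Conn.pw_zero, one_smul, Nat.cast_zero, add_zero]
  | succ d ih =>
    intro α hα
    have hne : α ≠ 0 := by
      rintro rfl
      simp at hα
    obtain ⟨l, α', h1, h2⟩ := Conn.exists_single_of_ne_zero hne
    obtain ⟨q, hq⟩ := ih α' (by omega)
    refine ⟨pderiv K l q * f + ((-((m : ℤ) + d) : ℤ) : MvPowerSeries (Fin n) K) * q * pderiv K l f,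
      ?_⟩
    rw [h1, ← Conn.nab_pw, hq, std_nab, VeC_dF_zpow hf]
    have h3 : (-((m : ℤ) + d) - 1) = (-((m : ℤ) + ((d + 1 : ℕ) : ℤ))) := by push_cast; ring
    rw [h3]

theorem VeC_h1 {f : MvPowerSeries (Fin n) K} (hf : f ≠ 0) (m : ℕ) (j : ℕ) (α : Fin n →₀ ℕ)
    (hα : α.degree ≤ j) : (std n K).pw α (inc n K f ^ (-(m : ℤ))) ∈
      Submodule.span (MvPowerSeries (Fin n) K) {inc n K f ^ (-((m : ℤ) + j))} := by
  have hf0 : inc n K f ≠ 0 := inc_ne_zero hf
  obtain ⟨q, hq⟩ := VeC_pw hf m α.degree α rfl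
  rw [hq, Submodule.mem_span_singleton]
  refine ⟨q * f ^ (j - α.degree), ?_⟩
  rw [mul_smul]
  congr 1
  rw [Algebra.smul_def, map_pow]
  have h1 : (algebraMap (MvPowerSeries (Fin n) K) (FF n K) f) ^ (j - α.degree) =
      inc n K f ^ ((j : ℤ) - α.degree) := by
    rw [← Nat.cast_sub hα, zpow_natCast]
  rw [h1, ← zpow_add₀ hf0]
  congr 1
  ring

theorem VeC_h2 {f : MvPowerSeries (Fin n) K} {m r : ℕ}
    (h : ∀ i : ℕ, inc n K f ^ (-((m : ℤ) + i + 1)) ∈
      (std n K).Fil r (inc n K f ^ (-((m : ℤ) + i)))) (j : ℕ) :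
    ∀ i : ℕ, r * j ≤ i → ∀ p ∈ mI n K i, p • inc n K f ^ (-((m : ℤ) + j)) ∈
      (std n K).V (inc n K f ^ (-(m : ℤ))) ((i : ℤ) - r * j) := by
  have hV := (std n K).V_compat (inc n K f ^ (-(m : ℤ)))
  induction j with
  | zero =>
    intro i _ p hp
    have h1 := hV.mI_mem hp ((std n K).mem_V_self _)
    simpa using h1
  | succ j ih =>
    intro i hi p hp
    have h0 := h j
    have h1 : (-((m : ℤ) + ((j + 1 : ℕ) : ℤ))) = -((m : ℤ) + j + 1) := by push_cast; ring
    rw [h1]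
    refine Submodule.span_induction (p := fun x _ => p • x ∈
      (std n K).V (inc n K f ^ (-(m : ℤ))) ((i : ℤ) - r * ((j + 1 : ℕ) : ℤ))) ?_ ?_ ?_ ?_ h0
    · rintro _ ⟨γ, hγ, rfl⟩
      have h2 : r * j + γ.degree ≤ i := by
        rw [Nat.mul_succ] at hi
        omega
      have h3 := hV.by_parts (v := inc n K f ^ (-((m : ℤ) + j))) (e0 := r * j)
        (s := -((r : ℤ) * j)) (fun e he q hq => by
          have h4 := ih e he q hq
          rwa [sub_eq_add_neg] at h4) γ i h2 p hp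
      refine hV.le ?_ h3
      push_cast
      have h5 : (γ.degree : ℤ) ≤ r := by exact_mod_cast hγ
      linarith
    · rw [smul_zero]
      exact Submodule.zero_mem _
    · intro x y _ _ hx hy
      rw [smul_add]
      exact Submodule.add_mem _ hx hy
    · intro q x _ hx
      rw [smul_comm]
      exact Submodule.smul_mem _ q hx

/-- The `b`-function along the closed point of `f^(-m)`. -/
theorem exists_b_std [CharZero K] {f : MvPowerSeries (Fin n) K} (hf : f ≠ 0) {m r : ℕ}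
    (h : ∀ i : ℕ, inc n K f ^ (-((m : ℤ) + i + 1)) ∈
      (std n K).Fil r (inc n K f ^ (-((m : ℤ) + i)))) :
    ∃ b : Polynomial K, b ≠ 0 ∧ Polynomial.aeval (std n K).theta b (inc n K f ^ (-(m : ℤ))) ∈
      (std n K).V (inc n K f ^ (-(m : ℤ))) 1 := by
  rcases Nat.eq_zero_or_pos n with hn | hn
  · subst hn
    refine ⟨Polynomial.X, Polynomial.X_ne_zero, ?_⟩
    rw [Polynomial.aeval_X, Conn.theta_apply, Finset.univ_eq_empty, Finset.sum_empty]
    exact Submodule.zero_mem _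
  · exact (std n K).count hn _ (fun j => inc n K f ^ (-((m : ℤ) + j))) r
      (fun j α hα => VeC_h1 hf m j α hα) (fun j i hi p hp => VeC_h2 h j i hi p hp)

/-- The canonical filtration of the localisation. -/
theorem exists_vpack_loc [CharZero K] {lam : K →+ ℚ} (hlam : lam 1 = 1)
    {f : MvPowerSeries (Fin n) K} (hf : f ≠ 0) :
    ∃ V : ℤ → Submodule (MvPowerSeries (Fin n) K) (FF n K), VPack lam (std n K) ⊥ V ∧
      ∀ x, (∃ i, x ∈ V i) ↔ x ∈ loc f := by
  obtain ⟨m, r, h⟩ := bs_final f hf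
  obtain ⟨b, hb0, hb⟩ := exists_b_std hf h
  obtain ⟨V, hV, hV2⟩ := exists_vpack_cyclic hlam hb0 hb
  refine ⟨V, hV, fun x => ?_⟩
  rw [loc_eq_D hf h]
  exact hV2 x

end B5a
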