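import Pool.Agent.H.MP_b5a980_ag.CeB
import Pool.Agent.H.MP_b5a980_ag.VeC

set_option autoImplicit false
set_option linter.unusedSectionVars false
set_option linter.style.longLine false

/-!
Existence of the canonical filtrations of all localisations (MP_b5a980_ag).
-/

namespace B5a

universe u v w

open MvPowerSeries

variable {n r : ℕ} {K : Type u} [Field K]

theorem exists_VFam [CharZero K] {lam : K →+ ℚ} (hlam : lam 1 = 1) :
    ∃ V : MvPowerSeries (Fin n) K → ℤ → Submodule (MvPowerSeries (Fin n) K) (FF n K),
      VFam lam V := by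
  have h : ∀ g : MvPowerSeries (Fin n) K, g ≠ 0 →
      ∃ V : ℤ → Submodule (MvPowerSeries (Fin n) K) (FF n K), VPack lam (std n K) ⊥ V ∧
        ∀ x, (∃ i, x ∈ V i) ↔ x ∈ loc g := fun g hg => exists_vpack_loc hlam hg
  choose! V hV using h
  exact ⟨V, hV⟩

end B5a
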