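import Pool.Agent.H.MP_b5a980_ag.FrB

set_option autoImplicit false
set_option linter.unusedSectionVars false
set_option linter.style.longLine false

/-!
Automorphisms of the coefficient field (MP_b5a980_ag).
-/

namespace B5a

universe u v w

open MvPowerSeries

variable {n : ℕ} {K : Type u} [Field K]

/-- coefficientwise application of an automorphism of `K` -/
noncomputable def mapE (n : ℕ) {K : Type u} [Field K] (τ : K ≃+* K) :
    MvPowerSeries (Fin n) K ≃+* MvPowerSeries (Fin n) K where
  toFun := MvPowerSeries.map (τ : K →+* K)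
  invFun := MvPowerSeries.map (τ.symm : K →+* K)
  left_inv := by intro x; ext; simp
  right_inv := by intro x; ext; simp
  map_mul' := map_mul _
  map_add' := map_add _

theorem coeff_mapE (τ : K ≃+* K) (r : MvPowerSeries (Fin n) K) (β : Fin n →₀ ℕ) :
    coeff β (mapE n τ r) = τ (coeff β r) := by
  change coeff β (MvPowerSeries.map (τ : K →+* K) r) = _
  rw [MvPowerSeries.coeff_map]
  rfl

theorem mapE_mem_mI (τ : K ≃+* K) {e : ℕ} {r : MvPowerSeries (Fin n) K} :
    mapE n τ r ∈ mI n K e ↔ r ∈ mI n K e := by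
  simp only [mem_mI, coeff_mapE, map_eq_zero_iff τ τ.injective]

theorem mapE_pderiv (τ : K ≃+* K) (i : Fin n) (r : MvPowerSeries (Fin n) K) :
    mapE n τ (pderiv K i r) = pderiv K i (mapE n τ r) := by
  ext β
  rw [coeff_mapE, coeff_pderiv, coeff_pderiv, coeff_mapE, map_mul, map_add, map_natCast, map_one]

theorem fracEquiv_mapE_dF (τ : K ≃+* K) (i : Fin n) (x : FF n K) :
    fracEquiv (mapE n τ) (dF n K i x) = dF n K i (fracEquiv (mapE n τ) x) :=
  fracEquiv_fracDer (mapE n τ) (pderiv K i) (pderiv K i) (mapE_pderiv τ i) x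

end B5a
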