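import Pool.Agent.H.MP_b5a980_ag.ConnA
import Pool.Agent.H.MP_b5a980_ag.FrC

set_option autoImplicit false
set_option linter.unusedSectionVars false
set_option linter.style.longLine false

/-!
The shift operator (MP_b5a980_ag, A4).
-/

namespace B5a

universe u v w

open MvPowerSeries

variable {n : ℕ} {K : Type u} [Field K]

/-- `T g = τ(g) f`: the shift `s -> s + 1`. -/
noncomputable def Tmap (τ : K ≃+* K) (f : MvPowerSeries (Fin n) K) : FF n K →+ FF n K :=
  (AddMonoidHom.mulRight (inc n K f)).comp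
    ((fracEquiv (mapE n τ) : FF n K →+* FF n K) : FF n K →+ FF n K)

theorem Tmap_apply (τ : K ≃+* K) (f : MvPowerSeries (Fin n) K) (g : FF n K) :
    Tmap τ f g = fracEquiv (mapE n τ) g * inc n K f := rfl

section

variable (τ : K ≃+* K) (s : K) (hs : τ s = s + 1) (f : MvPowerSeries (Fin n) K) (hf : f ≠ 0)
  (hτ : mapE n τ f = f)
include hs hf hτ

/-- Proof. `r • g = inc r * g` (Algebra.smul_def) and `fracEquiv_algebraMap`. -/
theorem Tmap_smul (r : MvPowerSeries (Fin n) K) (g : FF n K) :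
    Tmap τ f (r • g) = mapE n τ r • Tmap τ f g := by
  rw [Tmap_apply, Tmap_apply, Algebra.smul_def, Algebra.smul_def, map_mul, fracEquiv_algebraMap]
  ring

/-- Proof. Composition of an automorphism with multiplication by `f ≠ 0`. -/
theorem Tmap_bijective : Function.Bijective (Tmap τ f) := by
  have hf' : inc n K f ≠ 0 := inc_ne_zero hf
  constructor
  · intro g h hgh
    rw [Tmap_apply, Tmap_apply] at hgh
    exact (fracEquiv (mapE n τ)).injective (mul_right_cancel₀ hf' hgh)
  · intro h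
    refine ⟨(fracEquiv (mapE n τ)).symm (h / inc n K f), ?_⟩
    rw [Tmap_apply, RingEquiv.apply_symm_apply, div_mul_cancel₀ _ hf']

theorem ClA_mapE_C (c : K) : mapE n τ (C c) = C (τ c) := by
  change MvPowerSeries.map (τ : K →+* K) (C c) = C (τ c)
  rw [MvPowerSeries.map_C]
  rfl

theorem ClA_fracEquiv_smul (c : K) (g : FF n K) :
    fracEquiv (mapE n τ) (c • g) = τ c • fracEquiv (mapE n τ) g := by
  have h1 : ∀ (c : K) (g : FF n K), c • g = inc n K (C c) * g := by
    intro c g
    rw [← algebraMap_smul (MvPowerSeries (Fin n) K) c g, Algebra.smul_def]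
    rfl
  rw [h1, h1, map_mul, fracEquiv_algebraMap, ClA_mapE_C τ s hs f hf hτ]

theorem ClA_Tmap_smul (c : K) (g : FF n K) : Tmap τ f (c • g) = τ c • Tmap τ f g := by
  rw [Tmap_apply, Tmap_apply, ClA_fracEquiv_smul τ s hs f hf hτ, smul_mul_assoc]

/-- Proof. Write `g^τ`. `T (d_i g + s (f_i/f) g) = (d_i g^τ + (s+1) (f_i/f) g^τ) f` as `τ` commutes with `d_i` (`fracEquiv_mapE_dF`) and fixes `f`, `f_i` (`mapE_pderiv`), while `nab_i (g^τ f) = (d_i g^τ) f + g^τ f_i + s (f_i/f) g^τ f`. Equal. -/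
theorem Tmap_nab (i : Fin n) (g : FF n K) :
    Tmap τ f ((twist f s).nab i g) = (twist f s).nab i (Tmap τ f g) := by
  have hf' : inc n K f ≠ 0 := inc_ne_zero hf
  have h1 : fracEquiv (mapE n τ) (inc n K (pderiv K i f) / inc n K f) =
      inc n K (pderiv K i f) / inc n K f := by
    rw [map_div₀, fracEquiv_algebraMap, fracEquiv_algebraMap, mapE_pderiv, hτ]
  have h2 : dF n K i (inc n K f) = inc n K (pderiv K i f) := dF_inc i f
  rw [twist_nab, twist_nab, Tmap_apply, Tmap_apply, map_add, map_mul, fracEquiv_mapE_dF,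
    ClA_fracEquiv_smul τ s hs f hf hτ, h1, hs, Derivation.leibniz, h2, add_smul, one_smul,
    smul_eq_mul, smul_eq_mul]
  have h3 : inc n K (pderiv K i f) / inc n K f * inc n K f = inc n K (pderiv K i f) :=
    div_mul_cancel₀ _ hf'
  generalize s • (inc n K (pderiv K i f) / inc n K f) = A at *
  generalize inc n K (pderiv K i f) / inc n K f = B at *
  rw [← h3]
  ring

theorem Tmap_pw (γ : Fin n →₀ ℕ) (g : FF n K) :
    Tmap τ f ((twist f s).pw γ g) = (twist f s).pw γ (Tmap τ f g) := by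
  induction hd : γ.degree generalizing γ with
  | zero =>
    have h0 : γ = 0 := by
      by_contra h
      obtain ⟨i, γ', -, h2⟩ := Conn.exists_single_of_ne_zero h
      omega
    rw [h0, Conn.pw_zero, Conn.pw_zero]
  | succ d ih =>
    have h0 : γ ≠ 0 := by
      rintro rfl
      simp at hd
    obtain ⟨i, γ', h1, h2⟩ := Conn.exists_single_of_ne_zero h0
    rw [h1, ← Conn.nab_pw, ← Conn.nab_pw, Tmap_nab τ s hs f hf hτ, ih γ' (by omega)]

theorem Tmap_zpow (j : ℤ) : Tmap τ f (inc n K f ^ j) = inc n K f ^ (j + 1) := by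
  have hf' : inc n K f ≠ 0 := inc_ne_zero hf
  rw [Tmap_apply, map_zpow₀, fracEquiv_algebraMap, hτ, zpow_add_one₀ hf']

/-- spans of corresponding generating sets -/
theorem ClA_span (S S' : Set (FF n K)) (h : Tmap τ f '' S = S') (g : FF n K) :
    Tmap τ f g ∈ Submodule.span (MvPowerSeries (Fin n) K) S' ↔
      g ∈ Submodule.span (MvPowerSeries (Fin n) K) S := by
  constructor
  · intro hg
    have key : ∀ y ∈ Submodule.span (MvPowerSeries (Fin n) K) S',
        ∃ x ∈ Submodule.span (MvPowerSeries (Fin n) K) S, Tmap τ f x = y := by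
      intro y hy
      induction hy using Submodule.span_induction with
      | mem y hy =>
        rw [← h] at hy
        obtain ⟨x, hx, rfl⟩ := hy
        exact ⟨x, Submodule.subset_span hx, rfl⟩
      | zero => exact ⟨0, Submodule.zero_mem _, map_zero _⟩
      | add y z _ _ hy hz =>
        obtain ⟨x, hx, rfl⟩ := hy
        obtain ⟨w, hw, rfl⟩ := hz
        exact ⟨x + w, Submodule.add_mem _ hx hw, map_add _ _ _⟩
      | smul r y _ hy =>
        obtain ⟨x, hx, rfl⟩ := hy
        refine ⟨(mapE n τ).symm r • x, Submodule.smul_mem _ _ hx, ?_⟩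
        rw [Tmap_smul τ s hs f hf hτ, RingEquiv.apply_symm_apply]
    obtain ⟨x, hx, hxg⟩ := key _ hg
    rwa [(Tmap_bijective τ s hs f hf hτ).1 hxg] at hx
  · intro hg
    induction hg using Submodule.span_induction with
    | mem x hx =>
      refine Submodule.subset_span ?_
      rw [← h]
      exact ⟨x, hx, rfl⟩
    | zero => rw [map_zero]; exact Submodule.zero_mem _
    | add x y _ _ hx hy => rw [map_add]; exact Submodule.add_mem _ hx hy
    | smul r x _ hx =>
      rw [Tmap_smul τ s hs f hf hτ]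
      exact Submodule.smul_mem _ _ hx

/-- Proof. `→` and `←`: `T` is bijective, `mapE`-semilinear, commutes with `pw` and `T (f^j) = f^(j+1)`, so it maps the generators `pw γ (f^j)` of the span to the generators of the other one; the image of the span is the span (semilinear: for a combination `Σ r_γ pw γ (f^j)` the image is `Σ τ(r_γ) pw γ (f^(j+1))`, and every combination on the right has this form since `mapE τ` is surjective). -/
theorem Tmap_mem_D (j : ℤ) (g : FF n K) :
    Tmap τ f g ∈ (twist f s).D (inc n K f ^ (j + 1)) ↔ g ∈ (twist f s).D (inc n K f ^ j) := by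
  refine ClA_span τ s hs f hf hτ _ _ ?_ g
  ext m
  constructor
  · rintro ⟨x, ⟨γ, rfl⟩, rfl⟩
    exact ⟨γ, by rw [Tmap_pw τ s hs f hf hτ, Tmap_zpow τ s hs f hf hτ]⟩
  · rintro ⟨γ, rfl⟩
    exact ⟨_, ⟨γ, rfl⟩, by rw [Tmap_pw τ s hs f hf hτ, Tmap_zpow τ s hs f hf hτ]⟩

theorem ClA_mapE_monomial (β : Fin n →₀ ℕ) :
    mapE n τ (monomial β 1 : MvPowerSeries (Fin n) K) = monomial β 1 := by
  change MvPowerSeries.map (τ : K →+* K) (monomial β 1) = monomial β 1
  rw [MvPowerSeries.map_monomial, map_one]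

/-- Proof. Same, `mapE τ` fixes the monomials `x^β`. -/
theorem Tmap_mem_V (j d : ℤ) (g : FF n K) :
    Tmap τ f g ∈ (twist f s).V (inc n K f ^ (j + 1)) d ↔
      g ∈ (twist f s).V (inc n K f ^ j) d := by
  refine ClA_span τ s hs f hf hτ _ _ ?_ g
  ext m
  constructor
  · rintro ⟨x, ⟨β, γ, hd, rfl⟩, rfl⟩
    exact ⟨β, γ, hd, by rw [Tmap_smul τ s hs f hf hτ, Tmap_pw τ s hs f hf hτ,
      Tmap_zpow τ s hs f hf hτ, ClA_mapE_monomial τ s hs f hf hτ]⟩
  · rintro ⟨β, γ, hd, rfl⟩
    exact ⟨_, ⟨β, γ, hd, rfl⟩, by rw [Tmap_smul τ s hs f hf hτ, Tmap_pw τ s hs f hf hτ,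
      Tmap_zpow τ s hs f hf hτ, ClA_mapE_monomial τ s hs f hf hτ]⟩

theorem Tmap_mem_Fil (j : ℤ) (r : ℕ) (g : FF n K) :
    Tmap τ f g ∈ (twist f s).Fil r (inc n K f ^ (j + 1)) ↔
      g ∈ (twist f s).Fil r (inc n K f ^ j) := by
  refine ClA_span τ s hs f hf hτ _ _ ?_ g
  ext m
  constructor
  · rintro ⟨x, ⟨γ, hγ, rfl⟩, rfl⟩
    exact ⟨γ, hγ, by rw [Tmap_pw τ s hs f hf hτ, Tmap_zpow τ s hs f hf hτ]⟩
  · rintro ⟨γ, hγ, rfl⟩
    exact ⟨_, ⟨γ, hγ, rfl⟩, by rw [Tmap_pw τ s hs f hf hτ, Tmap_zpow τ s hs f hf hτ]⟩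

theorem ClA_Tmap_theta (g : FF n K) :
    Tmap τ f ((twist f s).theta g) = (twist f s).theta (Tmap τ f g) := by
  rw [Conn.theta_apply, Conn.theta_apply, map_sum]
  refine Finset.sum_congr rfl fun i _ => ?_
  rw [Tmap_smul τ s hs f hf hτ, Tmap_nab τ s hs f hf hτ]
  congr 1
  exact ClA_mapE_monomial τ s hs f hf hτ (Finsupp.single i 1)

/-- polynomials in theta -/
theorem Tmap_aeval (b : Polynomial K) (g : FF n K) :
    Tmap τ f (Polynomial.aeval (twist f s).theta b g) =
      Polynomial.aeval (twist f s).theta (b.map (τ : K →+* K)) (Tmap τ f g) := by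
  induction b using Polynomial.induction_on' with
  | add p q hp hq =>
    rw [Polynomial.map_add, map_add, map_add, LinearMap.add_apply, LinearMap.add_apply, map_add,
      hp, hq]
  | monomial k c =>
    rw [Polynomial.map_monomial, Polynomial.aeval_monomial, Polynomial.aeval_monomial,
      Module.End.mul_apply, Module.End.mul_apply, Module.algebraMap_end_apply,
      Module.algebraMap_end_apply, ClA_Tmap_smul τ s hs f hf hτ]
    congr 1
    induction k with
    | zero => rw [pow_zero, Module.End.one_apply, Module.End.one_apply]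
    | succ k ih =>
      rw [pow_succ', Module.End.mul_apply, Module.End.mul_apply, ClA_Tmap_theta τ s hs f hf hτ, ih]

end

end B5a
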