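import Pool.Agent.H.MP_b5a980_ag.ClA
import Pool.Agent.H.MP_b5a980_ag.VeA

set_option autoImplicit false
set_option linter.unusedSectionVars false
set_option linter.style.longLine false

/-!
The linear bound (MP_b5a980_ag, A4).
-/

namespace B5a

universe u v w

open MvPowerSeries

variable {n : ℕ} {K : Type u} [Field K]

section

variable (τ : K ≃+* K) (s : K) (hs : τ s = s + 1) (f : MvPowerSeries (Fin n) K) (hf : f ≠ 0)
  (hτ : mapE n τ f = f)
include hs hf hτ

omit hs hf hτ in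
theorem ClB_mapE_monomial (β : Fin n →₀ ℕ) :
    mapE n τ (monomial β 1) = (monomial β 1 : MvPowerSeries (Fin n) K) := by
  ext γ
  rw [coeff_mapE]
  classical
  rw [coeff_monomial]
  split_ifs <;> simp

/-- shifting -/
theorem ClB_shift (r : ℕ) (β : Fin n →₀ ℕ)
    (h : inc n K (monomial β 1) ∈ (twist f s).Fil r (inc n K f)) (j : ℕ) :
    (monomial β 1 : MvPowerSeries (Fin n) K) • (inc n K f ^ (-(j : ℤ))) ∈
      (twist f s).Fil r (inc n K f ^ (1 - (j : ℤ))) := by
  induction j with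
  | zero =>
    have h1 : (monomial β 1 : MvPowerSeries (Fin n) K) • (inc n K f ^ (-((0 : ℕ) : ℤ))) =
        inc n K (monomial β 1) := by
      rw [Nat.cast_zero, neg_zero, zpow_zero, Algebra.smul_def, mul_one]
    have h2 : inc n K f ^ (1 - ((0 : ℕ) : ℤ)) = inc n K f := by
      rw [Nat.cast_zero, sub_zero, zpow_one]
    rw [h1, h2]
    exact h
  | succ j ih =>
    have h2 : (1 - ((j + 1 : ℕ) : ℤ)) = -(j : ℤ) := by push_cast; ring
    rw [h2, ← Tmap_mem_Fil τ s hs f hf hτ (-(j : ℤ)) r, Tmap_smul τ s hs f hf hτ,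
      ClB_mapE_monomial, Tmap_zpow τ s hs f hf hτ]
    have h3 : (-((j + 1 : ℕ) : ℤ)) + 1 = -(j : ℤ) := by push_cast; ring
    have h4 : (-(j : ℤ)) + 1 = 1 - (j : ℤ) := by ring
    rw [h3, h4]
    exact ih

/-- The linear bound (AR): `m^i f^(-j)` lies in `V^(i - c j)(1)` for `i ≥ c j`.

Proof. If `|β| = a` then `x^β` lies in `D(f)`, hence in `Fil r (f)` for a common `r` (finitely many `β`; `exists_mem_Fil`, `Fil_mono`). Put `c = a + r`. Claim by induction on `j`: for `i ≥ c j` and `ρ` in `m^i`, `ρ f^(-j)` lies in `V^(i - c j)(1)`. `j = 0`: `V_compat`.mI_mem and `mem_V_self`. Step: let `i ≥ c (j+1)`; write `ρ = Σ_{|β|=a} x^β ρ_β`, `ρ_β` in `m^(i-a)` (`exists_sum_mI`). Applying the inverse of `T` `j+1` times to `x^β = Σ_{|γ|≤r} a_γ pw γ f` gives `x^β f^(-(j+1)) = Σ a'_γ pw γ (f^(-j))` (this is `Tmap_mem_Fil`: `x^β f^(-(j+1)) ∈ Fil r (f^(-j))`). `ρ_β a'_γ pw γ (f^(-j))` : by `Compat.by_parts` applied to `v = f^(-j)`, `W = V(1)`, `e0 = c j`, `s = -c j`: it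 lies in `W (i - a - c j - |γ|)`, which is contained in `W (i - c (j+1))`. (`i - a ≥ c j + r`.) -/
theorem exists_AR (a : ℕ)
    (hH : ∀ r ∈ mI n K a, inc n K r ∈ (twist f s).D (inc n K f)) :
    ∃ c : ℕ, ∀ j i : ℕ, c * j ≤ i → ∀ r ∈ mI n K i,
      r • (inc n K f ^ (-(j : ℤ))) ∈ (twist f s).V 1 ((i : ℤ) - c * j) := by
  classical
  -- the common order
  obtain ⟨r, hr⟩ : ∃ r : ℕ, ∀ β ∈ Finset.finsuppAntidiag (Finset.univ : Finset (Fin n)) a,
      inc n K (monomial β 1) ∈ (twist f s).Fil r (inc n K f) := by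
    have h1 : ∀ β ∈ Finset.finsuppAntidiag (Finset.univ : Finset (Fin n)) a, ∃ r : ℕ,
        inc n K (monomial β 1) ∈ (twist f s).Fil r (inc n K f) := by
      intro β hβ
      refine (twist f s).exists_mem_Fil (hH _ (monomial_mem_mI ?_ 1))
      rw [Finset.mem_finsuppAntidiag] at hβ
      rw [Finsupp.degree_eq_sum]
      exact hβ.1.ge
    choose! R hR using h1
    refine ⟨(Finset.finsuppAntidiag (Finset.univ : Finset (Fin n)) a).sup R, fun β hβ => ?_⟩
    exact (twist f s).Fil_mono (Finset.le_sup (f := R) hβ) _ (hR β hβ)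
  have hV := (twist f s).V_compat (1 : FF n K)
  refine ⟨a + r, fun j => ?_⟩
  induction j with
  | zero =>
    intro i _ ρ hρ
    have h1 := hV.mI_mem hρ ((twist f s).mem_V_self (1 : FF n K))
    simpa using h1
  | succ j ih =>
    intro i hi ρ hρ
    have hi' : (a + r) * j + a + r ≤ i := by
      calc (a + r) * j + a + r = (a + r) * (j + 1) := by ring
        _ ≤ i := hi
    obtain ⟨c, hc, hsum⟩ := exists_sum_mI (a := a) (e := i - a) (g := ρ)
      (by rw [Nat.add_sub_cancel' (by omega)]; exact hρ)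
    rw [hsum, Finset.sum_smul]
    refine Submodule.sum_mem _ fun β hβ => ?_
    rw [mul_comm ((monomial β) 1) (c β), mul_smul]
    have h1 := ClB_shift τ s hs f hf hτ r β (hr β hβ) (j + 1)
    have h2 : (1 - ((j + 1 : ℕ) : ℤ)) = -(j : ℤ) := by push_cast; ring
    rw [h2] at h1
    have key : ∀ w ∈ (twist f s).Fil r (inc n K f ^ (-(j : ℤ))), ∀ q ∈ mI n K (i - a),
        q • w ∈ (twist f s).V 1 ((i : ℤ) - (a + r : ℕ) * (j + 1 : ℕ)) := by
      intro w hw
      induction hw using Submodule.span_induction with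
      | mem w hw =>
        obtain ⟨γ, hγ, rfl⟩ := hw
        intro q hq
        have h3 := hV.by_parts (v := inc n K f ^ (-(j : ℤ))) (e0 := (a + r) * j)
          (s := -((a + r) * j : ℕ)) (fun e he q hq => by
            have h4 := ih e he q hq
            have h5 : ((e : ℤ) + -(((a + r) * j : ℕ) : ℤ)) = (e : ℤ) - ((a + r : ℕ) : ℤ) * j := by
              push_cast; ring
            rw [h5]
            exact h4) γ (i - a) (by omega) q hq
        refine hV.le ?_ h3
        have h6 : ((i - a : ℕ) : ℤ) = (i : ℤ) - a := by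
          rw [Nat.cast_sub (by omega)]
        have h7 : (γ.degree : ℤ) ≤ r := by exact_mod_cast hγ
        rw [h6]
        push_cast
        linarith
      | zero =>
        intro q _
        rw [smul_zero]
        exact Submodule.zero_mem _
      | add x y _ _ hx hy =>
        intro q hq
        rw [smul_add]
        exact Submodule.add_mem _ (hx q hq) (hy q hq)
      | smul b x _ hx =>
        intro q hq
        rw [smul_smul]
        exact hx _ (Ideal.mul_mem_right _ _ hq)
    exact key _ h1 _ (hc β)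

omit hs hτ in
theorem ClB_nab_zpow (i : Fin n) (d : ℕ) :
    (twist f s).nab i (inc n K f ^ (-(d : ℤ))) =
      ((s - d) • pderiv K i f : MvPowerSeries (Fin n) K) • (inc n K f ^ (-((d + 1 : ℕ) : ℤ))) := by
  have hf0 : inc n K f ≠ 0 := inc_ne_zero hf
  rw [twist_nab]
  have h1 : dF n K i (inc n K f ^ (-(d : ℤ))) =
      ((-(d : ℤ) : ℤ) : FF n K) * inc n K f ^ (-(d : ℤ) - 1) * inc n K (pderiv K i f) := by
    rw [dF, fracDer_zpow _ _ hf0, ← dF, dF_inc]
  have h2 : (-((d + 1 : ℕ) : ℤ)) = -(d : ℤ) - 1 := by push_cast; ring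
  have h3 : inc n K f ^ (-(d : ℤ) - 1) = inc n K f ^ (-(d : ℤ)) / inc n K f := by
    rw [zpow_sub_one₀ hf0, div_eq_mul_inv]
  rw [h1, h2, h3, Algebra.smul_def, MvPowerSeries.smul_eq_C_mul]
  have h4 : algebraMap (MvPowerSeries (Fin n) K) (FF n K) (C (s - (d : K)) * pderiv K i f) =
      algebraMap K (FF n K) (s - d) * inc n K (pderiv K i f) := by
    rw [map_mul]
    rfl
  rw [Algebra.smul_def (C (s - (d : K)) * pderiv K i f), h4, map_sub, map_natCast]
  push_cast
  field_simp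
  ring

omit hs hτ in
theorem ClB_pw (d : ℕ) : ∀ α : Fin n →₀ ℕ, α.degree = d →
    ∃ q : MvPowerSeries (Fin n) K, (twist f s).pw α (1 : FF n K) =
      q • (inc n K f ^ (-(d : ℤ))) := by
  have hf0 : inc n K f ≠ 0 := inc_ne_zero hf
  induction d with
  | zero =>
    intro α hα
    have h0 : α = 0 := (Finsupp.degree_eq_zero_iff α).1 hα
    subst h0
    refine ⟨1, ?_⟩
    rw [Conn.pw_zero]
    simp
  | succ d ih =>
    intro α hα
    have h0 : α ≠ 0 := by
      rintro rfl
      simp at hα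
    obtain ⟨i, γ, rfl, hγ⟩ := Conn.exists_single_of_ne_zero h0
    obtain ⟨q, hq⟩ := ih γ (by omega)
    refine ⟨f * pderiv K i q + q * ((s - d) • pderiv K i f), ?_⟩
    rw [← Conn.nab_pw, hq, (twist f s).leib, ClB_nab_zpow s f hf, add_smul, mul_smul, mul_smul]
    congr 1
    rw [Algebra.smul_def, Algebra.smul_def, Algebra.smul_def]
    have h2 : (-((d + 1 : ℕ) : ℤ)) = -(d : ℤ) - 1 := by push_cast; ring
    rw [h2, zpow_sub_one₀ hf0]
    field_simp

omit hs hτ in
/-- pole orders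

Proof. `(twist f s).nab_i (ρ f^(-j)) = (f ∂_i ρ + (s - j) ρ f_i) f^(-j-1)`; induction on the degree of `α`; `f^(-j)` is a multiple of `f^(-j-1)`. -/
theorem pw_one_mem (j : ℕ) (α : Fin n →₀ ℕ) (hα : α.degree ≤ j) :
    (twist f s).pw α (1 : FF n K) ∈
      Submodule.span (MvPowerSeries (Fin n) K) {inc n K f ^ (-(j : ℤ))} := by
  have hf0 : inc n K f ≠ 0 := inc_ne_zero hf
  obtain ⟨q, hq⟩ := ClB_pw s f hf α.degree α rfl
  rw [hq, Submodule.mem_span_singleton]
  refine ⟨q * f ^ (j - α.degree), ?_⟩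
  rw [mul_smul]
  congr 1
  rw [Algebra.smul_def, map_pow]
  have h1 : (algebraMap (MvPowerSeries (Fin n) K) (FF n K) f) ^ (j - α.degree) =
      inc n K f ^ ((j : ℤ) - α.degree) := by
    rw [← Nat.cast_sub hα, zpow_natCast]
  rw [h1, ← zpow_add₀ hf0]
  congr 1
  ring

end

end B5a
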