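import Pool.Agent.H.MP_b5a980_ag.ConnA

set_option autoImplicit false
set_option linter.unusedSectionVars false
set_option linter.style.longLine false

/-!
The Euler operator (MP_b5a980_ag).
-/

namespace B5a

universe u v w

open MvPowerSeries

variable {n : ℕ} {K : Type u} [Field K] {M : Type v} [AddCommGroup M]
  [Module (MvPowerSeries (Fin n) K) M] [Module K M] [IsScalarTower K (MvPowerSeries (Fin n) K) M]

theorem ConnB_X_mul_pderiv_monomial (i : Fin n) (β : Fin n →₀ ℕ) (c : K) :
    (X i : MvPowerSeries (Fin n) K) * pderiv K i (monomial β c) =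
      (β i : K) • (monomial β c : MvPowerSeries (Fin n) K) := by
  rw [← MvPolynomial.coe_monomial, pderiv_coe, MvPolynomial.pderiv_monomial,
    ← MvPolynomial.coe_X, ← MvPolynomial.coe_mul, ← MvPolynomial.coe_smul]
  congr 1
  rw [MvPolynomial.smul_monomial, MvPolynomial.X, MvPolynomial.monomial_mul, one_mul]
  by_cases h : β i = 0
  · simp [h]
  · have h2 : Finsupp.single i 1 + (β - Finsupp.single i 1) = β := by
      rw [add_comm]
      apply tsub_add_cancel_of_le
      rw [Finsupp.single_le_iff]
      omega
    rw [h2, smul_eq_mul, mul_comm]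

theorem ConnB_C_smul (c : K) (m : M) : (C c : MvPowerSeries (Fin n) K) • m = c • m := by
  conv_rhs => rw [← one_smul (MvPowerSeries (Fin n) K) m, ← smul_assoc]
  rw [MvPowerSeries.smul_eq_C_mul, mul_one]

theorem ConnB_smul_comm (c : K) (r : MvPowerSeries (Fin n) K) (m : M) :
    c • r • m = r • c • m := by
  rw [← ConnB_C_smul (n := n) c (r • m), ← ConnB_C_smul (n := n) c m, smul_smul, smul_smul,
    mul_comm]

namespace Conn

variable (C : Conn n K M)

/-- `theta x^β = x^β (theta + |β|)` -/
theorem theta_monomial_smul (β : Fin n →₀ ℕ) (c : K) (m : M) :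
    C.theta ((monomial β c : MvPowerSeries (Fin n) K) • m) =
      (monomial β c : MvPowerSeries (Fin n) K) • (C.theta m + (β.degree : K) • m) := by
  rw [theta_apply, theta_apply]
  have h : ∀ i : Fin n, (X i : MvPowerSeries (Fin n) K) •
      C.nab i ((monomial β c : MvPowerSeries (Fin n) K) • m) =
      (monomial β c : MvPowerSeries (Fin n) K) • ((β i : K) • m) +
      (monomial β c : MvPowerSeries (Fin n) K) • ((X i : MvPowerSeries (Fin n) K) • C.nab i m) := by
    intro i
    rw [C.leib, smul_add, smul_smul, ConnB_X_mul_pderiv_monomial, smul_smul, smul_smul,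
      mul_comm (X i), smul_assoc, ConnB_smul_comm]
  rw [Finset.sum_congr rfl (fun i _ => h i), Finset.sum_add_distrib, smul_add, Finset.smul_sum,
    add_comm, ← Finset.smul_sum (s := Finset.univ) (f := fun i : Fin n => (β i : K) • m),
    ← Finset.sum_smul]
  congr 4
  rw [Finsupp.degree_eq_sum]
  push_cast
  rfl

/-- `theta nab_i = nab_i theta - nab_i` -/
theorem ConnB_theta_nab (i : Fin n) (m : M) :
    C.theta (C.nab i m) = C.nab i (C.theta m - m) := by
  rw [map_sub, theta_apply, theta_apply, map_sum]
  have h : ∀ j : Fin n, C.nab i ((X j : MvPowerSeries (Fin n) K) • C.nab j m) =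
      (X j : MvPowerSeries (Fin n) K) • C.nab j (C.nab i m) + (if i = j then C.nab j m else 0) := by
    intro j
    rw [C.leib, C.comm i j, add_comm]
    congr 1
    by_cases hij : i = j
    · subst hij
      rw [pderiv_X_self, one_smul, if_pos rfl]
    · rw [pderiv_X_of_ne (fun h => hij h.symm), zero_smul, if_neg hij]
  rw [Finset.sum_congr rfl (fun j _ => h j), Finset.sum_add_distrib, Finset.sum_ite_eq,
    if_pos (Finset.mem_univ _), add_sub_cancel_right]

/-- `theta nab^γ = nab^γ (theta - |γ|)` -/
theorem theta_pw (γ : Fin n →₀ ℕ) (m : M) :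
    C.theta (C.pw γ m) = C.pw γ (C.theta m - (γ.degree : K) • m) := by
  induction hd : γ.degree generalizing γ m with
  | zero =>
    have h0 : γ = 0 := by
      rwa [Finsupp.degree_eq_zero_iff] at hd
    subst h0
    rw [C.pw_zero, C.pw_zero]
    simp
  | succ d ih =>
    have h0 : γ ≠ 0 := by
      rintro rfl
      simp at hd
    obtain ⟨i, γ', h1, h2⟩ := exists_single_of_ne_zero h0
    have h3 : γ'.degree = d := by omega
    rw [h1, C.pw_add, C.pw_single, ih γ' _ h3, C.pw_add, C.pw_single, ConnB_theta_nab]
    congr 1
    rw [← map_smul, ← map_sub]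
    congr 1
    push_cast
    rw [add_smul, one_smul]
    abel

/-- `b(theta) x^β = x^β b(theta + |β|)` -/
theorem aeval_theta_monomial_smul (b : Polynomial K) (β : Fin n →₀ ℕ) (c : K) (m : M) :
    Polynomial.aeval C.theta b ((monomial β c : MvPowerSeries (Fin n) K) • m) =
      (monomial β c : MvPowerSeries (Fin n) K) •
        (Polynomial.aeval C.theta (b.comp (Polynomial.X + Polynomial.C (β.degree : K))) m) := by
  induction b using Polynomial.induction_on' generalizing m with
  | add p q hp hq =>
    rw [map_add, LinearMap.add_apply, hp, hq, Polynomial.add_comp, map_add, LinearMap.add_apply,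
      smul_add]
  | monomial k a =>
    induction k generalizing m with
    | zero =>
      simp only [Polynomial.monomial_zero_left, Polynomial.C_comp, Polynomial.aeval_C,
        Module.algebraMap_end_apply]
      rw [ConnB_smul_comm]
    | succ k ih =>
      have h1 : (Polynomial.monomial (k + 1) a : Polynomial K) =
          Polynomial.monomial k a * Polynomial.X := by
        rw [Polynomial.monomial_mul_X]
      have h2 : (Polynomial.aeval C.theta (Polynomial.X + Polynomial.C (β.degree : K))) m =
          C.theta m + (β.degree : K) • m := by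
        rw [map_add, Polynomial.aeval_X, Polynomial.aeval_C, LinearMap.add_apply,
          Module.algebraMap_end_apply]
      rw [h1, map_mul, Polynomial.aeval_X, Module.End.mul_apply, theta_monomial_smul, ih,
        Polynomial.mul_comp, Polynomial.X_comp, map_mul, Module.End.mul_apply, h2]

/-- `b(theta) nab^γ = nab^γ b(theta - |γ|)` -/
theorem aeval_theta_pw (b : Polynomial K) (γ : Fin n →₀ ℕ) (m : M) :
    Polynomial.aeval C.theta b (C.pw γ m) =
      C.pw γ (Polynomial.aeval C.theta (b.comp (Polynomial.X - Polynomial.C (γ.degree : K))) m) := by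
  induction b using Polynomial.induction_on' generalizing m with
  | add p q hp hq =>
    rw [map_add, LinearMap.add_apply, hp, hq, Polynomial.add_comp, map_add, LinearMap.add_apply,
      map_add]
  | monomial k a =>
    induction k generalizing m with
    | zero =>
      simp only [Polynomial.monomial_zero_left, Polynomial.C_comp, Polynomial.aeval_C,
        Module.algebraMap_end_apply]
      rw [map_smul]
    | succ k ih =>
      have h1 : (Polynomial.monomial (k + 1) a : Polynomial K) =
          Polynomial.monomial k a * Polynomial.X := by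
        rw [Polynomial.monomial_mul_X]
      have h2 : (Polynomial.aeval C.theta (Polynomial.X - Polynomial.C (γ.degree : K))) m =
          C.theta m - (γ.degree : K) • m := by
        rw [map_sub, Polynomial.aeval_X, Polynomial.aeval_C, LinearMap.sub_apply,
          Module.algebraMap_end_apply]
      rw [h1, map_mul, Polynomial.aeval_X, Module.End.mul_apply, theta_pw, ih,
        Polynomial.mul_comp, Polynomial.X_comp, map_mul, Module.End.mul_apply, h2]

end Conn

end B5a
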