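import Pool.Agent.H.MP_b5a980_ag.ConnA
import Pool.Agent.H.MP_b5a980_ag.MIB

set_option autoImplicit false
set_option linter.unusedSectionVars false
set_option linter.style.longLine false

/-!
Compatible filtrations and integration by parts (MP_b5a980_ag).
-/

namespace B5a

universe u v w

open MvPowerSeries

variable {n : ℕ} {K : Type u} [Field K] {M : Type v} [AddCommGroup M]
  [Module (MvPowerSeries (Fin n) K) M] [Module K M] [IsScalarTower K (MvPowerSeries (Fin n) K) M]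

namespace Compat

variable {C : Conn n K M} {W : ℤ → Submodule (MvPowerSeries (Fin n) K) M}

theorem le (h : Compat C W) {i j : ℤ} (hij : i ≤ j) : W j ≤ W i := by
  induction j, hij using Int.leInduction with
  | base => exact le_rfl
  | succ j _ ih => exact (h.anti j).trans ih

theorem ConnC_monomial_mem (h : Compat C W) (d : ℕ) : ∀ (β : Fin n →₀ ℕ), β.degree = d →
    ∀ {i : ℤ} {m : M}, m ∈ W i → (monomial β 1 : MvPowerSeries (Fin n) K) • m ∈ W (i + d) := by
  induction d with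
  | zero =>
    intro β hβ i m hm
    have h0 : β = 0 := (Finsupp.degree_eq_zero_iff β).1 hβ
    have h1 : (monomial (0 : Fin n →₀ ℕ) (1 : K) : MvPowerSeries (Fin n) K) = 1 := rfl
    rw [h0, h1, one_smul]
    simpa using hm
  | succ d ih =>
    intro β hβ i m hm
    have hne : β ≠ 0 := by
      rintro rfl
      simp at hβ
    obtain ⟨l, β', h1, h2⟩ := Conn.exists_single_of_ne_zero hne
    have h3 : (monomial β (1 : K) : MvPowerSeries (Fin n) K) = X l * monomial β' 1 := by
      rw [X_def, monomial_mul_monomial, one_mul, h1, add_comm]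
    rw [h3, mul_smul]
    have h4 := h.x_mem _ l _ (ih β' (by omega) hm)
    have h5 : (i + ((d + 1 : ℕ) : ℤ)) = i + (d : ℤ) + 1 := by push_cast; ring
    rw [h5]
    exact h4

theorem mI_mem (h : Compat C W) {e : ℕ} {i : ℤ} {r : MvPowerSeries (Fin n) K} {m : M}
    (hr : r ∈ mI n K e) (hm : m ∈ W i) : r • m ∈ W (i + e) := by
  obtain ⟨c, -, hc⟩ := exists_sum_mI (a := e) (e := 0) (g := r) (by simpa using hr)
  rw [hc, Finset.sum_smul]
  refine Submodule.sum_mem _ fun β hβ => ?_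
  rw [mul_comm, mul_smul]
  exact Submodule.smul_mem _ _ (ConnC_monomial_mem h e β (MIB_mem_antidiag.1 hβ) hm)

theorem ConnC_pw_mem (h : Compat C W) (d : ℕ) : ∀ (γ : Fin n →₀ ℕ), γ.degree = d →
    ∀ {i : ℤ} {m : M}, m ∈ W i → C.pw γ m ∈ W (i - d) := by
  induction d with
  | zero =>
    intro γ hγ i m hm
    have h0 : γ = 0 := (Finsupp.degree_eq_zero_iff γ).1 hγ
    rw [h0, Conn.pw_zero]
    simpa using hm
  | succ d ih =>
    intro γ hγ i m hm
    have hne : γ ≠ 0 := by
      rintro rfl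
      simp at hγ
    obtain ⟨l, γ', h1, h2⟩ := Conn.exists_single_of_ne_zero hne
    have h4 := h.nab_mem _ l _ (ih γ' (by omega) hm)
    have h5 : (i - ((d + 1 : ℕ) : ℤ)) = i - (d : ℤ) - 1 := by push_cast; ring
    rw [h1, ← Conn.nab_pw, h5]
    exact h4

theorem pw_mem (h : Compat C W) {i : ℤ} {m : M} (hm : m ∈ W i) (γ : Fin n →₀ ℕ) :
    C.pw γ m ∈ W (i - γ.degree) :=
  ConnC_pw_mem h γ.degree γ rfl hm

theorem theta_mem (h : Compat C W) {i : ℤ} {m : M} (hm : m ∈ W i) : C.theta m ∈ W i := by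
  rw [Conn.theta_apply]
  refine Submodule.sum_mem _ fun l _ => ?_
  have h1 := h.x_mem _ l _ (h.nab_mem _ l _ hm)
  rwa [sub_add_cancel] at h1

theorem ConnC_smul_mem {i : ℤ} {m : M} (hm : m ∈ W i) (c : K) : c • m ∈ W i := by
  have h1 : (c • m : M) = (MvPowerSeries.C c : MvPowerSeries (Fin n) K) • m := by
    conv_lhs => rw [← one_smul (MvPowerSeries (Fin n) K) m, ← smul_assoc]
    rw [MvPowerSeries.smul_eq_C_mul, mul_one]
  rw [h1]
  exact Submodule.smul_mem _ _ hm

theorem aeval_mem (h : Compat C W) (b : Polynomial K) {i : ℤ} {m : M} (hm : m ∈ W i) :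
    Polynomial.aeval C.theta b m ∈ W i := by
  revert m
  induction b using Polynomial.induction_on with
  | C a =>
    intro m hm
    rw [Polynomial.aeval_C, Module.algebraMap_end_apply]
    exact ConnC_smul_mem hm a
  | add p q hp hq =>
    intro m hm
    rw [map_add, LinearMap.add_apply]
    exact Submodule.add_mem _ (hp hm) (hq hm)
  | monomial k a ih =>
    intro m hm
    rw [pow_succ, ← mul_assoc, map_mul, Polynomial.aeval_X]
    exact ih (h.theta_mem hm)

theorem ConnC_by_parts (h : Compat C W) {v : M} {e0 : ℕ} {s : ℤ}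
    (hv : ∀ e : ℕ, e0 ≤ e → ∀ r ∈ mI n K e, r • v ∈ W (e + s)) (d : ℕ) :
    ∀ (γ : Fin n →₀ ℕ), γ.degree = d → ∀ e : ℕ, e0 + d ≤ e →
      ∀ r ∈ mI n K e, r • C.pw γ v ∈ W (e + s - d) := by
  induction d with
  | zero =>
    intro γ hγ e he r hr
    have h0 : γ = 0 := (Finsupp.degree_eq_zero_iff γ).1 hγ
    rw [h0, Conn.pw_zero]
    simpa using hv e (by omega) r hr
  | succ d ih =>
    intro γ hγ e he r hr
    have hne : γ ≠ 0 := by
      rintro rfl
      simp at hγ
    obtain ⟨l, γ', h1, h2⟩ := Conn.exists_single_of_ne_zero hne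
    obtain ⟨e', rfl⟩ : ∃ e', e = e' + 1 := ⟨e - 1, by omega⟩
    have h3 : r • C.nab l (C.pw γ' v) =
        C.nab l (r • C.pw γ' v) - pderiv K l r • C.pw γ' v := by
      rw [C.leib, add_sub_cancel_left]
    have h4 : C.nab l (r • C.pw γ' v) ∈ W (((e' + 1 : ℕ) : ℤ) + s - ((d + 1 : ℕ) : ℤ)) := by
      have h5 := h.nab_mem _ l _ (ih γ' (by omega) (e' + 1) (by omega) r hr)
      have h6 : ((e' + 1 : ℕ) : ℤ) + s - (d : ℤ) - 1 = ((e' + 1 : ℕ) : ℤ) + s - ((d + 1 : ℕ) : ℤ) := by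
        push_cast
        ring
      rwa [h6] at h5
    have h7 : pderiv K l r • C.pw γ' v ∈ W (((e' + 1 : ℕ) : ℤ) + s - ((d + 1 : ℕ) : ℤ)) := by
      have h5 := ih γ' (by omega) e' (by omega) _ (pderiv_mem_mI hr l)
      have h6 : (e' : ℤ) + s - (d : ℤ) = ((e' + 1 : ℕ) : ℤ) + s - ((d + 1 : ℕ) : ℤ) := by
        push_cast
        ring
      rwa [h6] at h5
    rw [h1, ← Conn.nab_pw, h3]
    exact Submodule.sub_mem _ h4 h7

/-- Integration by parts (A1). -/
theorem by_parts (h : Compat C W) {v : M} {e0 : ℕ} {s : ℤ}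
    (hv : ∀ e : ℕ, e0 ≤ e → ∀ r ∈ mI n K e, r • v ∈ W (e + s)) (γ : Fin n →₀ ℕ) (e : ℕ)
    (he : e0 + γ.degree ≤ e) (r : MvPowerSeries (Fin n) K) (hr : r ∈ mI n K e) :
    r • C.pw γ v ∈ W (e + s - γ.degree) :=
  ConnC_by_parts h hv γ.degree γ rfl e he r hr

end Compat

end B5a
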