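import Pool.Agent.H.MP_b5a980_ag.ClA
import Pool.Agent.H.MP_b5a980_ag.ConnB
import Pool.Agent.H.MP_b5a980_ag.ConnC

set_option autoImplicit false
set_option linter.unusedSectionVars false
set_option linter.style.longLine false

/-!
Torsion at the closed point (MP_b5a980_ag, A4).
-/

namespace B5a

universe u v w

open MvPowerSeries

variable {n : ℕ} {K : Type u} [Field K]

section

variable (τ : K ≃+* K) (s : K) (hs : τ s = s + 1) (f : MvPowerSeries (Fin n) K) (hf : f ≠ 0)
  (hτ : mapE n τ f = f)
include hs hf hτ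

/-- twisted versions of the `b`-function: `b_j(theta) f^(-j)` lies in `V^1(f^(-j))`

Proof. `b_j` = `b` with the inverse of `τ` applied `j` times to the coefficients. Induction on `j`: if `b_j(theta) f^(-j) ∈ V(f^(-j)) 1`, apply `Tmap_aeval`, `Tmap_mem_V` to `b_(j+1) = b_j.map τ⁻¹`: `T (b_(j+1)(theta) f^(-j-1)) = b_j(theta) f^(-j)`. Evaluation at the integer `e`: `eval e (b.map τ⁻¹) = τ⁻¹ (eval e b)`. -/
theorem twisted_b (b : Polynomial K)
    (hb : Polynomial.aeval (twist f s).theta b (1 : FF n K) ∈ (twist f s).V 1 1) (j : ℕ) :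
    ∃ bj : Polynomial K, (∀ e : ℤ, Polynomial.eval (e : K) b ≠ 0 → Polynomial.eval (e : K) bj ≠ 0) ∧
      Polynomial.aeval (twist f s).theta bj (inc n K f ^ (-(j : ℤ))) ∈
        (twist f s).V (inc n K f ^ (-(j : ℤ))) 1 := by
  have hsymm : ∀ q : Polynomial K, (q.map (τ.symm : K →+* K)).map (τ : K →+* K) = q := by
    intro q
    rw [Polynomial.map_map]
    have h1 : (τ : K →+* K).comp (τ.symm : K →+* K) = RingHom.id K := by
      ext x
      exact τ.apply_symm_apply x
    rw [h1, Polynomial.map_id]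
  induction j with
  | zero =>
    refine ⟨b, fun e h => h, ?_⟩
    have h0 : inc n K f ^ (-((0 : ℕ) : ℤ)) = 1 := by simp
    rw [h0]
    exact hb
  | succ j ih =>
    obtain ⟨bj, h1, h2⟩ := ih
    refine ⟨bj.map (τ.symm : K →+* K), ?_, ?_⟩
    · intro e he
      rw [Polynomial.eval_intCast_map]
      intro h0
      apply h1 e he
      exact τ.symm.injective (by simpa using h0)
    · have h3 : (-((j + 1 : ℕ) : ℤ)) + 1 = -(j : ℤ) := by push_cast; ring
      rw [← Tmap_mem_V τ s hs f hf hτ, Tmap_aeval τ s hs f hf hτ, hsymm,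
        Tmap_zpow τ s hs f hf hτ, h3]
      exact h2

omit hs hf hτ in
/-- The torsion argument: let `N` be a stable submodule, `m^(e+1) v` in `N` for some `e`,
`bj(theta) v` in `V^1(v)`, `bj(-n-e) ≠ 0` for all `e > E`. Then `m^(E+1) v` lies in `N`.

Proof. Suppose not. Let `e` be maximal with `m^e v` not contained in `N` (exists since `m^(e0) v ⊆ N`); then `e ≥ E + 1` and `m^(e+1) v ⊆ N`. There is a monomial `x^β`, `|β| = e`, with `w = x^β v` not in `N` (`exists_sum_mI` with remaining exponent 0). `N` is a constant compatible filtration. (1) `x_i w ∈ N`. (2) `theta w = Σ nab_i (x_i w) - n w`, so `theta w + n w ∈ N`; so for every polynomial `B`: `B(theta) w - B(-n) w ∈ N`. (3) `x^β V^1(v) ⊆ N`: for `|β'| - |γ| ≥ 1`, `x^(β+β') nab^γ v` has `|β+β'| ≥ e+1+|γ|`, use `Compat.by_parts` with `W` constant `= N`, `e0 = e+1` (and `N` is an `R`-submodule). (4) `x^β b(theta) v = b(theta - e) x^β v` (`aeval_theta_monomial_smul` for `b.comp (X - C e)`). So `b(theta - e) w ∈ N`, and it is `b(-n-e) w` modulo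 `N`, `b(-n-e) ≠ 0`, so `w ∈ N`. Contradiction. -/
theorem torsion_bound {M : Type v} [AddCommGroup M] [Module (MvPowerSeries (Fin n) K) M]
    [Module K M] [IsScalarTower K (MvPowerSeries (Fin n) K) M] (C : Conn n K M)
    (N : Submodule (MvPowerSeries (Fin n) K) M) (hN : ∀ i, ∀ m ∈ N, C.nab i m ∈ N) (v : M)
    (e0 : ℕ) (he0 : ∀ r ∈ mI n K e0, r • v ∈ N) (b : Polynomial K)
    (hb : Polynomial.aeval C.theta b v ∈ C.V v 1) (E : ℕ)
    (hE : ∀ e : ℕ, E < e → Polynomial.eval (-(n : K) - e) b ≠ 0) :
    ∀ r ∈ mI n K (E + 1), r • v ∈ N := by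
  classical
  by_contra hcon
  have hex : ∃ e, ∀ r ∈ mI n K e, r • v ∈ N := ⟨e0, he0⟩
  obtain ⟨k, hk, hkmin⟩ : ∃ k, (∀ r ∈ mI n K k, r • v ∈ N) ∧
      ∀ j < k, ¬ ∀ r ∈ mI n K j, r • v ∈ N :=
    ⟨Nat.find hex, Nat.find_spec hex, fun j hj => Nat.find_min hex hj⟩
  have hEk : E + 1 < k := by
    by_contra h
    exact hcon fun r hr => hk r (mI_anti (by omega) hr)
  obtain ⟨e, rfl⟩ : ∃ e, k = e + 1 := ⟨k - 1, by omega⟩
  have hbad := hkmin e (by omega)
  obtain ⟨β, hβ, hw⟩ : ∃ β : Fin n →₀ ℕ, β.degree = e ∧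
      (monomial β 1 : MvPowerSeries (Fin n) K) • v ∉ N := by
    by_contra hno
    push Not at hno
    apply hbad
    intro r hr
    obtain ⟨c, -, hrc⟩ := exists_sum_mI (a := e) (e := 0) (g := r) (by simpa using hr)
    rw [hrc, Finset.sum_smul]
    refine Submodule.sum_mem _ fun β hβ => ?_
    rw [mul_comm, mul_smul]
    exact Submodule.smul_mem _ _ (hno β (MIB_mem_antidiag.1 hβ))
  have hW : Compat C (fun _ : ℤ => N) :=
    ⟨fun _ => le_rfl, fun _ l m hm => N.smul_mem _ hm, fun _ l m hm => hN l m hm⟩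
  have hKN : ∀ (c : K) (m : M), m ∈ N → c • m ∈ N := by
    intro c m hm
    rw [← ConnB_C_smul (n := n) c m]
    exact N.smul_mem _ hm
  -- theta w + n w in N
  have hth : C.theta ((monomial β 1 : MvPowerSeries (Fin n) K) • v) -
      (-(n : K)) • ((monomial β 1 : MvPowerSeries (Fin n) K) • v) ∈ N := by
    generalize hwdef : (monomial β 1 : MvPowerSeries (Fin n) K) • v = w
    have hxw : ∀ i : Fin n, (X i : MvPowerSeries (Fin n) K) • w ∈ N := by
      intro i
      rw [← hwdef, smul_smul]
      refine hk _ ?_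
      rw [add_comm e 1]
      exact mul_mem_mI (X_mem_mI i) (monomial_mem_mI hβ.ge 1)
    have h1 : C.theta w - (-(n : K)) • w =
        ∑ i : Fin n, C.nab i ((X i : MvPowerSeries (Fin n) K) • w) := by
      have h2 : ∀ i : Fin n, C.nab i ((X i : MvPowerSeries (Fin n) K) • w) =
          w + (X i : MvPowerSeries (Fin n) K) • C.nab i w := by
        intro i
        rw [C.leib, pderiv_X_self, one_smul]
      rw [Finset.sum_congr rfl (fun i _ => h2 i), Finset.sum_add_distrib, C.theta_apply,
        Finset.sum_const, Finset.card_univ, Fintype.card_fin, neg_smul, Nat.cast_smul_eq_nsmul,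
        sub_neg_eq_add, add_comm]
    rw [h1]
    exact N.sum_mem fun i _ => hN i _ (hxw i)
  have hpoly : ∀ B : Polynomial K,
      Polynomial.aeval C.theta B ((monomial β 1 : MvPowerSeries (Fin n) K) • v) -
        (Polynomial.eval (-(n : K)) B) • ((monomial β 1 : MvPowerSeries (Fin n) K) • v) ∈ N := by
    generalize (monomial β 1 : MvPowerSeries (Fin n) K) • v = w at hth
    intro B
    induction B using Polynomial.induction_on with
    | C a =>
      rw [Polynomial.aeval_C, Module.algebraMap_end_apply, Polynomial.eval_C, sub_self]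
      exact N.zero_mem
    | add p q hp hq =>
      rw [map_add, LinearMap.add_apply, Polynomial.eval_add, add_smul]
      have h1 := N.add_mem hp hq
      convert h1 using 1
      abel
    | monomial k a ih =>
      have e1 : Polynomial.C a * Polynomial.X ^ (k + 1) =
          Polynomial.X * (Polynomial.C a * Polynomial.X ^ k) := by ring
      rw [e1, map_mul, Polynomial.aeval_X, Module.End.mul_apply, Polynomial.eval_mul,
        Polynomial.eval_X]
      have h1 := hW.theta_mem (i := 0) ih
      rw [map_sub, map_smul] at h1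
      have h2 := hKN (Polynomial.eval (-(n : K)) (Polynomial.C a * Polynomial.X ^ k)) _ hth
      rw [smul_sub, smul_smul] at h2
      have h3 := N.add_mem h1 h2
      rw [mul_comm (-(n : K))]
      convert h3 using 1
      abel
  -- x^β V^1(v) in N
  have hV : ∀ m ∈ C.V v 1, (monomial β 1 : MvPowerSeries (Fin n) K) • m ∈ N := by
    intro m hm
    have hm' : m ∈ Submodule.span (MvPowerSeries (Fin n) K)
        {m | ∃ β γ : Fin n →₀ ℕ, (1 : ℤ) ≤ (β.degree : ℤ) - γ.degree ∧
          m = (monomial β 1 : MvPowerSeries (Fin n) K) • C.pw γ v} := hm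
    clear hm
    induction hm' using Submodule.span_induction with
    | mem m hm =>
      obtain ⟨β', γ, hd, rfl⟩ := hm
      rw [smul_smul]
      refine hW.by_parts (v := v) (e0 := e + 1) (s := 0)
        (fun e' he' r hr => hk r (mI_anti he' hr)) γ (β.degree + β'.degree) (by omega) _ ?_
      exact mul_mem_mI (monomial_mem_mI le_rfl 1) (monomial_mem_mI le_rfl 1)
    | zero =>
      rw [smul_zero]
      exact N.zero_mem
    | add x y hx hy h1 h2 =>
      rw [smul_add]
      exact N.add_mem h1 h2
    | smul r x hx h1 =>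
      rw [smul_smul, mul_comm, mul_smul]
      exact N.smul_mem _ h1
  have h1 := hV _ hb
  have h2 : (monomial β 1 : MvPowerSeries (Fin n) K) • Polynomial.aeval C.theta b v =
      Polynomial.aeval C.theta (b.comp (Polynomial.X - Polynomial.C (e : K)))
        ((monomial β 1 : MvPowerSeries (Fin n) K) • v) := by
    rw [C.aeval_theta_monomial_smul, Polynomial.comp_assoc, hβ]
    congr 3
    simp
  rw [h2] at h1
  have h3 := N.sub_mem h1 (hpoly (b.comp (Polynomial.X - Polynomial.C (e : K))))
  rw [sub_sub_cancel] at h3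
  have h4 : Polynomial.eval (-(n : K)) (b.comp (Polynomial.X - Polynomial.C (e : K))) =
      Polynomial.eval (-(n : K) - e) b := by
    rw [Polynomial.eval_comp]
    simp
  rw [h4] at h3
  have h5 := hE e (by omega)
  apply hw
  have h6 := hKN (Polynomial.eval (-(n : K) - e) b)⁻¹ _ h3
  rwa [smul_smul, inv_mul_cancel₀ h5, one_smul] at h6

end

end B5a
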