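import Pool.Agent.H.MP_b5a980_ag.MI0

set_option autoImplicit false
set_option linter.unusedSectionVars false
set_option linter.style.longLine false

/-!
Powers of the maximal ideal: dimension of the quotients (MP_b5a980_ag).
-/

namespace B5a

universe u v w

open MvPowerSeries

variable {n : ℕ} {K : Type u} [Field K]

/-- The multi-index given by a point of the box. -/
noncomputable def MIC_idx {e : ℕ} (β : Fin n → Fin e) : Fin n →₀ ℕ :=
  Finsupp.equivFunOnFinite.symm fun i => (β i : ℕ)

theorem MIC_idx_apply {e : ℕ} (β : Fin n → Fin e) (i : Fin n) : MIC_idx β i = β i := rfl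

/-- The coefficients in degrees `< e`. -/
noncomputable def MIC_map (n : ℕ) (K : Type u) [Field K] (e : ℕ) :
    MvPowerSeries (Fin n) K →ₗ[K] ((Fin n → Fin e) → K) where
  toFun g β := if (MIC_idx β).degree < e then coeff (MIC_idx β) g else 0
  map_add' g h := by
    funext β
    simp only [Pi.add_apply]
    split_ifs
    · rw [map_add]
    · rw [add_zero]
  map_smul' c g := by
    funext β
    simp only [Pi.smul_apply, RingHom.id_apply]
    split_ifs
    · rw [map_smul]
    · rw [smul_zero]

theorem MIC_map_apply {e : ℕ} (g : MvPowerSeries (Fin n) K) (β : Fin n → Fin e) :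
    MIC_map n K e g β = if (MIC_idx β).degree < e then coeff (MIC_idx β) g else 0 := rfl

theorem MIC_ker (e : ℕ) :
    LinearMap.ker (MIC_map n K e) = (mI n K e).restrictScalars K := by
  ext g
  rw [LinearMap.mem_ker, Submodule.restrictScalars_mem, mem_mI]
  constructor
  · intro h β hβ
    have hlt : ∀ i, β i < e := fun i => lt_of_le_of_lt (Finsupp.le_degree i β) hβ
    have h1 := congrFun h (fun i => ⟨β i, hlt i⟩)
    have h2 : MIC_idx (fun i => (⟨β i, hlt i⟩ : Fin e)) = β := by
      ext i
      rfl
    rw [MIC_map_apply, h2, if_pos hβ] at h1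
    exact h1
  · intro h
    funext β
    rw [MIC_map_apply]
    split_ifs with h1
    · exact h _ h1
    · rfl

/-- The quotient by `m^e` is finite dimensional of dimension at most `e^n`. -/
theorem finite_quot_mI (e : ℕ) :
    Module.Finite K (MvPowerSeries (Fin n) K ⧸ (mI n K e).restrictScalars K) := by
  rw [← MIC_ker]
  exact Module.Finite.of_injective ((LinearMap.ker (MIC_map n K e)).liftQ (MIC_map n K e) le_rfl)
    (LinearMap.ker_eq_bot.1 (Submodule.ker_liftQ_eq_bot _ _ _ le_rfl))

theorem finrank_quot_mI (e : ℕ) :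
    Module.finrank K (MvPowerSeries (Fin n) K ⧸ (mI n K e).restrictScalars K) ≤ e ^ n := by
  rw [← MIC_ker]
  refine (LinearMap.finrank_le_finrank_of_injective
    (f := (LinearMap.ker (MIC_map n K e)).liftQ (MIC_map n K e) le_rfl)
    (LinearMap.ker_eq_bot.1 (Submodule.ker_liftQ_eq_bot _ _ _ le_rfl))).trans ?_
  rw [Module.finrank_fintype_fun_eq_card, Fintype.card_fun, Fintype.card_fin, Fintype.card_fin]

end B5a
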