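import Pool.Agent.H.MP_b5a980_ag.Cnt0
import Pool.Agent.H.MP_b5a980_ag.MIC

set_option autoImplicit false
set_option linter.unusedSectionVars false
set_option linter.style.longLine false

/-!
Upper bound of the dimension (MP_b5a980_ag).
-/

namespace B5a

universe u v w

open MvPowerSeries

variable {n : ℕ} {K : Type u} [Field K] {M : Type v} [AddCommGroup M]
  [Module (MvPowerSeries (Fin n) K) M] [Module K M] [IsScalarTower K (MvPowerSeries (Fin n) K) M]

namespace Conn

variable (C : Conn n K M)

/-- Multi-indices of bounded degree form a finite set. -/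
theorem CntB_finite (n j : ℕ) : {β : Fin n →₀ ℕ | β.degree ≤ j}.Finite := by
  refine (Set.finite_Icc (0 : Fin n →₀ ℕ) (Finsupp.equivFunOnFinite.symm fun _ => j)).subset ?_
  intro β hβ
  refine ⟨zero_le, fun i => ?_⟩
  exact (Finsupp.le_degree i β).trans hβ

/-- The span of a finite set. -/
theorem finite_Wd (u : M) (j : ℕ) : Module.Finite K (C.Wd u j) := by
  refine Module.Finite.span_of_finite K ?_
  refine (((CntB_finite n j).prod (CntB_finite n j)).image fun p : (Fin n →₀ ℕ) × (Fin n →₀ ℕ) =>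
    (monomial p.1 1 : MvPowerSeries (Fin n) K) • C.pw p.2 u).subset ?_
  rintro m ⟨β, α, h, rfl⟩
  refine ⟨(β, α), ⟨?_, ?_⟩, rfl⟩
  · change β.degree ≤ j
    omega
  · change α.degree ≤ j
    omega

/-- The upper bound of the dimension. -/
theorem finrank_WdQuot_le (u : M) (lam : ℕ → M) (c : ℕ)
    (h1 : ∀ (j : ℕ) (α : Fin n →₀ ℕ), α.degree ≤ j →
      C.pw α u ∈ Submodule.span (MvPowerSeries (Fin n) K) {lam j})
    (h2 : ∀ j i : ℕ, c * j ≤ i → ∀ r ∈ mI n K i, r • lam j ∈ C.V u ((i : ℤ) - c * j)) (j : ℕ) :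
    Module.finrank K (C.WdQuot u j) ≤ ((c + 1) * (j + 1)) ^ n := by
  set P : Submodule K M := (C.V u (j + 1)).restrictScalars K with hP
  let f : MvPowerSeries (Fin n) K →ₗ[K] M ⧸ P :=
    P.mkQ ∘ₗ (LinearMap.toSpanSingleton (MvPowerSeries (Fin n) K) M (lam j)).restrictScalars K
  have hf : ∀ r, f r = P.mkQ (r • lam j) := fun r => rfl
  have hker : (mI n K ((c + 1) * j + 1)).restrictScalars K ≤ LinearMap.ker f := by
    intro r hr
    rw [LinearMap.mem_ker, hf, Submodule.mkQ_apply, Submodule.Quotient.mk_eq_zero, hP,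
      Submodule.restrictScalars_mem]
    have h3 := h2 j ((c + 1) * j + 1) (by nlinarith) r hr
    have e1 : (((c + 1) * j + 1 : ℕ) : ℤ) - c * j = j + 1 := by
      push_cast
      ring
    rwa [e1] at h3
  let f' := (((mI n K ((c + 1) * j + 1)).restrictScalars K).liftQ f hker)
  have hfin := finite_quot_mI (n := n) (K := K) ((c + 1) * j + 1)
  have hle := finrank_quot_mI (n := n) (K := K) ((c + 1) * j + 1)
  let g : C.Wd u j →ₗ[K] M ⧸ P := P.mkQ ∘ₗ (C.Wd u j).subtype
  have hg : ∀ w, g w = P.mkQ (w : M) := fun w => rfl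
  have hkg : P.comap (C.Wd u j).subtype = LinearMap.ker g := by
    ext w
    rw [Submodule.mem_comap, LinearMap.mem_ker, hg, Submodule.mkQ_apply,
      Submodule.Quotient.mk_eq_zero]
    rfl
  let g' : C.WdQuot u j →ₗ[K] M ⧸ P := (P.comap (C.Wd u j).subtype).liftQ g hkg.le
  have hg' : Function.Injective g' :=
    LinearMap.ker_eq_bot.1 (Submodule.ker_liftQ_eq_bot _ _ _ hkg.ge)
  have hspan : ∀ w ∈ C.Wd u j, w ∈ Submodule.span (MvPowerSeries (Fin n) K) {lam j} := by
    have h4 : C.Wd u j ≤
        (Submodule.span (MvPowerSeries (Fin n) K) {lam j}).restrictScalars K := by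
      refine Submodule.span_le.2 ?_
      rintro m ⟨β, α, h, rfl⟩
      exact Submodule.smul_mem _ _ (h1 j α (by omega))
    exact fun w hw => h4 hw
  have hrange : ∀ z, g' z ∈ LinearMap.range f' := by
    intro z
    obtain ⟨w, rfl⟩ := Submodule.Quotient.mk_surjective _ z
    obtain ⟨r, hr⟩ := Submodule.mem_span_singleton.1 (hspan w w.2)
    refine ⟨Submodule.Quotient.mk r, ?_⟩
    change f r = g w
    rw [hf, hg, hr]
  have hfr : Module.Finite K (LinearMap.range f') := inferInstance
  have h5 : Module.finrank K (C.WdQuot u j) ≤ Module.finrank K (LinearMap.range f') :=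
    LinearMap.finrank_le_finrank_of_injective (f := g'.codRestrict (LinearMap.range f') hrange)
      (fun a b h => hg' (congrArg Subtype.val h))
  have h6 : Module.finrank K (LinearMap.range f') ≤
      Module.finrank K (MvPowerSeries (Fin n) K ⧸ (mI n K ((c + 1) * j + 1)).restrictScalars K) :=
    LinearMap.finrank_range_le f'
  refine h5.trans (h6.trans (hle.trans (Nat.pow_le_pow_left ?_ n)))
  nlinarith

end Conn

end B5a
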