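import Pool.Agent.H.MP_b5a980_ag.JosB

set_option autoImplicit false
set_option linter.unusedSectionVars false
set_option linter.style.longLine false

/-!
Growth of degree n is impossible (MP_b5a980_ag).
-/

namespace B5a

universe u v w

variable {K : Type u} {G : Type v} [Field K] [CharZero K] [AddCommGroup G] [Module K G]

namespace Weyl

variable {n : ℕ} (A : Weyl n K G)

/-- An exponent vector with bounded entries. -/
noncomputable def JosC_vec (n t : ℕ) (f : Fin n → Fin (t + 1)) : Fin n →₀ ℕ :=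
  Finsupp.equivFunOnFinite.symm fun i => (f i : ℕ)

theorem JosC_vec_inj (n t : ℕ) : Function.Injective (JosC_vec n t) := by
  intro f g h
  funext i
  have h1 := DFunLike.congr_fun h i
  simp only [JosC_vec, Finsupp.equivFunOnFinite_symm_apply_apply] at h1
  exact Fin.ext h1

theorem JosC_vec_degree (n t : ℕ) (f : Fin n → Fin (t + 1)) :
    (JosC_vec n t f).degree ≤ n * t := by
  rw [Finsupp.degree_eq_sum]
  calc ∑ i, (JosC_vec n t f) i ≤ ∑ _i : Fin n, t := by
        refine Finset.sum_le_sum fun i _ => ?_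
        simp only [JosC_vec, Finsupp.equivFunOnFinite_symm_apply_apply]
        exact Nat.lt_succ_iff.1 (f i).2
    _ = n * t := by simp

theorem JosC_mem {n j : ℕ} (β : Fin n →₀ ℕ) (h : β.degree ≤ j) :
    β ∈ (Finset.range (j + 1)).biUnion fun d =>
      Finset.finsuppAntidiag (Finset.univ : Finset (Fin n)) d := by
  rw [Finset.mem_biUnion]
  refine ⟨β.degree, Finset.mem_range.2 (Nat.lt_succ_iff.2 h), ?_⟩
  rw [Finset.mem_finsuppAntidiag]
  refine ⟨?_, Finset.subset_univ _⟩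
  rw [Finsupp.degree_eq_sum]

/-- Proof. Injection: `a ≤ l` and `β, α` with all coordinates `≤ t` (then `|β|+|α| ≤ 2nt`); there are `(l+1) (t+1)^n (t+1)^n` such words. (If `n = 0` the claim is `l + 1 ≤ l + 1`.) -/
theorem le_card_wordSet (n t l : ℕ) :
    (l + 1) * (t + 1) ^ (2 * n) ≤ (wordSet n (2 * n * t) l).card := by
  have hcard : (l + 1) * (t + 1) ^ (2 * n) =
      (Finset.univ : Finset (Fin (l + 1) × (Fin n → Fin (t + 1)) × (Fin n → Fin (t + 1)))).card := by
    rw [Finset.card_univ, Fintype.card_prod, Fintype.card_prod, Fintype.card_fin,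
      Fintype.card_fun, Fintype.card_fin, Fintype.card_fin, two_mul, pow_add]
  rw [hcard]
  refine Finset.card_le_card_of_injOn
    (fun w => ((w.1 : ℕ), JosC_vec n t w.2.1, JosC_vec n t w.2.2)) ?_ ?_
  · intro w _
    have h1 := JosC_vec_degree n t w.2.1
    have h2 := JosC_vec_degree n t w.2.2
    have h3 : 2 * n * t = n * t + n * t := by ring
    rw [Finset.mem_coe]
    unfold wordSet
    rw [Finset.mem_filter, Finset.mem_product, Finset.mem_product, Finset.mem_range]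
    exact ⟨⟨w.1.2, JosC_mem _ (h1.trans (by omega)), JosC_mem _ (h2.trans (by omega))⟩, by
      show (JosC_vec n t w.2.1).degree + (JosC_vec n t w.2.2).degree ≤ _
      omega⟩
  · intro w _ w' _ h
    simp only [Prod.mk.injEq] at h
    obtain ⟨h1, h2, h3⟩ := h
    exact Prod.ext (Fin.ext h1) (Prod.ext (JosC_vec_inj n t h2) (JosC_vec_inj n t h3))

/-- The final contradiction: polynomial growth of degree `n` is impossible.

Proof. Take `j = l = 2nt` in `card_le` and `le_card_wordSet`: `(2nt+1) (t+1)^(2n) ≤ (a (2nt+1))^n * (a (8nt+1))^n ≤ C (t+1)^(2n)` with `C = (8na)^(2n)` or similar (`2nt+1 ≤ 2n(t+1)`, `8nt+1 ≤ 8n(t+1)` as `n ≥ 1`). So `2nt + 1 ≤ C` for all `t`: contradiction for `t = C`. -/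
theorem growth_false (hn : 0 < n) (u : G)
    (hu : ∀ b : Polynomial K, b ≠ 0 → Polynomial.aeval A.T b u ≠ 0)
    (Γ : ℕ → Submodule K G) (hm : Monotone Γ) (h0 : u ∈ Γ 0)
    (hX : ∀ j i, ∀ m ∈ Γ j, A.X i m ∈ Γ (j + 1)) (hY : ∀ j i, ∀ m ∈ Γ j, A.Y i m ∈ Γ (j + 1))
    (hT : ∀ j, ∀ m ∈ Γ j, A.T m ∈ Γ (j + 2)) (hfin : ∀ j, Module.Finite K (Γ j)) (a : ℕ)
    (hd : ∀ j, Module.finrank K (Γ j) ≤ (a * (j + 1)) ^ n) : False := by
  obtain ⟨t, ht⟩ : ∃ t, t = (8 * n * a) ^ (2 * n) := ⟨_, rfl⟩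
  have h1 := le_card_wordSet n t (2 * n * t)
  have h2 := A.card_le u hu Γ hm h0 hX hY hT hfin (2 * n * t) (2 * n * t)
  have h3 := Nat.mul_le_mul (hd (2 * n * t)) (hd (2 * (2 * n * t) + 2 * (2 * n * t)))
  have h4 : a * (2 * n * t + 1) ≤ 8 * n * a * (t + 1) := by
    have : a * (2 * n * t + 1) ≤ a * (8 * n * (t + 1)) := by
      refine Nat.mul_le_mul_left a ?_
      nlinarith
    calc a * (2 * n * t + 1) ≤ a * (8 * n * (t + 1)) := this
      _ = 8 * n * a * (t + 1) := by ring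
  have h5 : a * (2 * (2 * n * t) + 2 * (2 * n * t) + 1) ≤ 8 * n * a * (t + 1) := by
    have : a * (2 * (2 * n * t) + 2 * (2 * n * t) + 1) ≤ a * (8 * n * (t + 1)) := by
      refine Nat.mul_le_mul_left a ?_
      nlinarith
    calc a * (2 * (2 * n * t) + 2 * (2 * n * t) + 1) ≤ a * (8 * n * (t + 1)) := this
      _ = 8 * n * a * (t + 1) := by ring
  have h6 : (a * (2 * n * t + 1)) ^ n * (a * (2 * (2 * n * t) + 2 * (2 * n * t) + 1)) ^ n ≤
      (8 * n * a * (t + 1)) ^ n * (8 * n * a * (t + 1)) ^ n :=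
    Nat.mul_le_mul (Nat.pow_le_pow_left h4 n) (Nat.pow_le_pow_left h5 n)
  have h7 : (8 * n * a * (t + 1)) ^ n * (8 * n * a * (t + 1)) ^ n =
      t * (t + 1) ^ (2 * n) := by
    rw [← pow_add, ← two_mul, mul_pow, ← ht]
  have h8 : (2 * n * t + 1) * (t + 1) ^ (2 * n) ≤ t * (t + 1) ^ (2 * n) :=
    (h1.trans (h2.trans h3)).trans (h6.trans h7.le)
  have h9 : 2 * n * t + 1 ≤ t := Nat.le_of_mul_le_mul_right h8 (by positivity)
  nlinarith

end Weyl

end B5a
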