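import Pool.Agent.H.MP_b5a980_ag.CntA
import Pool.Agent.H.MP_b5a980_ag.CntB
import Pool.Agent.H.MP_b5a980_ag.JosC

set_option autoImplicit false
set_option linter.unusedSectionVars false
set_option linter.style.longLine false

/-!
The counting lemma (MP_b5a980_ag, A3).
-/

namespace B5a

universe u v w

open MvPowerSeries

variable {n : ℕ} {K : Type u} [Field K] [CharZero K] {M : Type v} [AddCommGroup M]
  [Module (MvPowerSeries (Fin n) K) M] [Module K M] [IsScalarTower K (MvPowerSeries (Fin n) K) M]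

namespace Conn

variable (C : Conn n K M)

theorem count (hn : 0 < n) (u : M) (lam : ℕ → M) (c : ℕ)
    (h1 : ∀ (j : ℕ) (α : Fin n →₀ ℕ), α.degree ≤ j →
      C.pw α u ∈ Submodule.span (MvPowerSeries (Fin n) K) {lam j})
    (h2 : ∀ j i : ℕ, c * j ≤ i → ∀ r ∈ mI n K i, r • lam j ∈ C.V u ((i : ℤ) - c * j)) :
    ∃ b : Polynomial K, b ≠ 0 ∧ Polynomial.aeval C.theta b u ∈ C.V u 1 := by
  obtain ⟨G, _, _, A, u0, Γ, hm, h0, hX, hY, hT, hfin, hle, hb⟩ := C.exists_weyl u
  by_contra hcon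
  push Not at hcon
  refine A.growth_false hn u0 (fun b hb0 h => hcon b hb0 (hb b h)) Γ hm h0 hX hY hT hfin (c + 1)
    (fun j => (hle j).trans (C.finrank_WdQuot_le u lam c h1 h2 j))

end Conn

end B5a
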