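import Pool.Agent.H.MP_b5a980_ag.ClB
import Pool.Agent.H.MP_b5a980_ag.ClC
import Pool.Agent.H.MP_b5a980_ag.Count

set_option autoImplicit false
set_option linter.unusedSectionVars false
set_option linter.style.longLine false

/-!
The closed point theorem (MP_b5a980_ag, A4).
-/

namespace B5a

universe u v w

open MvPowerSeries

variable {n : ℕ} {K : Type u} [Field K]

/-- a nonzero polynomial has no roots of the form `-n-e` for large naturals `e` -/
theorem Closed_roots [CharZero K] (n : ℕ) (b : Polynomial K) (hb : b ≠ 0) :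
    ∃ E : ℕ, ∀ e : ℕ, E < e → Polynomial.eval (((-(n : ℤ) - (e : ℤ) : ℤ)) : K) b ≠ 0 := by
  classical
  have hinj : Function.Injective (fun e : ℕ => (((-(n : ℤ) - (e : ℤ) : ℤ)) : K)) := by
    intro a c hac
    have h1 : (-(n : ℤ) - (a : ℤ) : ℤ) = (-(n : ℤ) - (c : ℤ) : ℤ) := Int.cast_injective hac
    omega
  have hfin : Set.Finite {e : ℕ | Polynomial.eval (((-(n : ℤ) - (e : ℤ) : ℤ)) : K) b = 0} := by
    have h2 : Set.Finite {x : K | Polynomial.eval x b = 0} := by
      refine (b.roots.toFinset.finite_toSet).subset ?_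
      intro x hx
      simp only [Finset.mem_coe, Multiset.mem_toFinset]
      exact (Polynomial.mem_roots hb).2 hx
    exact h2.preimage hinj.injOn
  obtain ⟨E, hE⟩ := hfin.bddAbove
  refine ⟨E, fun e he h => ?_⟩
  exact absurd (hE h) (not_le.2 he)

section

variable (τ : K ≃+* K) (s : K) (hs : τ s = s + 1) (f : MvPowerSeries (Fin n) K) (hf : f ≠ 0)
  (hτ : mapE n τ f = f)
include hs hf hτ

/-- existence of the `b`-function of `f^s` along the closed point -/
theorem exists_b [CharZero K] (hn : 0 < n) (a : ℕ)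
    (hH : ∀ r ∈ mI n K a, inc n K r ∈ (twist f s).D (inc n K f)) :
    ∃ b : Polynomial K, b ≠ 0 ∧
      Polynomial.aeval (twist f s).theta b (1 : FF n K) ∈ (twist f s).V 1 1 := by
  obtain ⟨c, hc⟩ := exists_AR τ s hs f hf hτ a hH
  exact (twist f s).count hn 1 (fun j => inc n K f ^ (-(j : ℤ))) c
    (fun j α hα => pw_one_mem s f hf j α hα) hc

/-- The pole orders are killed by a uniform power of the maximal ideal. -/
theorem exists_uniform [CharZero K] (hn : 0 < n) (a : ℕ)
    (hH : ∀ r ∈ mI n K a, inc n K r ∈ (twist f s).D (inc n K f)) :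
    ∃ E : ℕ, ∀ j : ℕ, ∀ r ∈ mI n K E, r • (inc n K f ^ (-(j : ℤ))) ∈ (twist f s).D (1 : FF n K) := by
  obtain ⟨b, hb0, hb⟩ := exists_b τ s hs f hf hτ hn a hH
  obtain ⟨c, hc⟩ := exists_AR τ s hs f hf hτ a hH
  obtain ⟨E, hE⟩ := Closed_roots n b hb0
  refine ⟨E + 1, fun j => ?_⟩
  obtain ⟨bj, h1, h2⟩ := twisted_b τ s hs f hf hτ b hb j
  refine torsion_bound (twist f s) ((twist f s).D (1 : FF n K))
    (fun i m hm => (twist f s).nab_mem_D hm i) (inc n K f ^ (-(j : ℤ))) (c * j)
    (fun r hr => ?_) bj h2 E (fun e he => ?_)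
  · exact (twist f s).V_le_D 1 _ (hc j (c * j) le_rfl r hr)
  · have h3 := h1 (-(n : ℤ) - (e : ℤ)) (hE e he)
    push_cast at h3
    exact h3

/-- The closed point theorem. -/
theorem closed_point [CharZero K] (hn : 0 < n) (a : ℕ)
    (hH : ∀ r ∈ mI n K a, inc n K r ∈ (twist f s).D (inc n K f)) :
    (1 : FF n K) ∈ (twist f s).D (inc n K f) := by
  obtain ⟨E, hE⟩ := exists_uniform τ s hs f hf hτ hn a hH
  have hf0 : inc n K f ≠ 0 := inc_ne_zero hf
  rcases isUnit_or_mem_mI_one f with hu | hm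
  · obtain ⟨g, hg⟩ := hu.exists_left_inv
    have h1 : (1 : FF n K) = g • inc n K f := by
      rw [Algebra.smul_def, ← map_mul, hg, map_one]
    rw [h1]
    exact Submodule.smul_mem _ _ ((twist f s).mem_D_self _)
  · have h1 := hE (E + 1) (f ^ E) (pow_mem_mI hm E)
    have h2 : (f ^ E) • (inc n K f ^ (-((E + 1 : ℕ) : ℤ))) = inc n K f ^ (-1 : ℤ) := by
      rw [Algebra.smul_def, map_pow, ← zpow_natCast, ← zpow_add₀ hf0]
      congr 1
      push_cast
      ring
    rw [h2] at h1
    have h3 : inc n K f ^ (-1 : ℤ) ∈ (twist f s).D (inc n K f ^ (0 : ℤ)) := by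
      rw [zpow_zero]
      exact h1
    have h4 := (Tmap_mem_D τ s hs f hf hτ 0 (inc n K f ^ (-1 : ℤ))).2 h3
    rw [Tmap_zpow τ s hs f hf hτ] at h4
    simpa using h4

end

end B5a
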