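import Pool.Agent.H.MP_b5a980_ag.Conn0

set_option autoImplicit false
set_option linter.unusedSectionVars false
set_option linter.style.longLine false

/-!
Words of bounded length: definitions (MP_b5a980_ag).
-/

namespace B5a

universe u v w

open MvPowerSeries

variable {n : ℕ} {K : Type u} [Field K] {M : Type v} [AddCommGroup M]
  [Module (MvPowerSeries (Fin n) K) M] [Module K M] [IsScalarTower K (MvPowerSeries (Fin n) K) M]

namespace Conn

variable (C : Conn n K M)

/-- The `K`-span of the words `x^β nab^α u` with `|β| + |α| ≤ j`. -/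
noncomputable def Wd (u : M) (j : ℕ) : Submodule K M :=
  Submodule.span K {m | ∃ β α : Fin n →₀ ℕ, β.degree + α.degree ≤ j ∧
    m = (monomial β 1 : MvPowerSeries (Fin n) K) • C.pw α u}

/-- `Wd j` modulo `V^(j+1)` -/
abbrev WdQuot (u : M) (j : ℕ) : Type v :=
  (C.Wd u j) ⧸ (((C.V u (j + 1)).restrictScalars K).comap (C.Wd u j).subtype)

end Conn

end B5a
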