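import Pool.Agent.H.MP_b5a980_ag.ConnC

set_option autoImplicit false
set_option linter.unusedSectionVars false
set_option linter.style.longLine false

/-!
The filtration generated by an element (MP_b5a980_ag).
-/

namespace B5a

universe u v w

open MvPowerSeries

variable {n : ℕ} {K : Type u} [Field K] {M : Type v} [AddCommGroup M]
  [Module (MvPowerSeries (Fin n) K) M] [Module K M] [IsScalarTower K (MvPowerSeries (Fin n) K) M]

/-- The derivative of a monomial is a monomial of degree one less, or zero. -/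
theorem ConnD_pderiv_monomial (i : Fin n) (β : Fin n →₀ ℕ) :
    pderiv K i (monomial β 1 : MvPowerSeries (Fin n) K) = 0 ∨
      ∃ (β' : Fin n →₀ ℕ) (c : K), β = β' + Finsupp.single i 1 ∧
        pderiv K i (monomial β 1 : MvPowerSeries (Fin n) K) = C c * monomial β' 1 := by
  classical
  by_cases h : β i = 0
  · left
    ext d
    rw [coeff_pderiv, coeff_monomial, if_neg, zero_mul]
    · simp
    · intro h2
      have h3 := DFunLike.congr_fun h2 i
      simp at h3
      omega
  · right
    have hβ : β = β - Finsupp.single i 1 + Finsupp.single i 1 := by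
      refine (tsub_add_cancel_of_le ?_).symm
      rw [Finsupp.single_le_iff]
      omega
    refine ⟨β - Finsupp.single i 1, (β i : K), hβ, ?_⟩
    ext d
    rw [coeff_pderiv, coeff_C_mul, coeff_monomial, coeff_monomial]
    by_cases h2 : d = β - Finsupp.single i 1
    · rw [if_pos h2, if_pos, one_mul, mul_one]
      · rw [h2]
        simp only [Finsupp.coe_tsub, Pi.sub_apply, Finsupp.single_eq_same]
        rw [Nat.cast_sub (by omega)]
        ring
      · rw [h2, ← hβ]
    · rw [if_neg h2, if_neg, zero_mul, mul_zero]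
      intro h3
      apply h2
      rw [← h3, add_tsub_cancel_right]

namespace Conn

variable (C : Conn n K M)

theorem ConnD_anti (u : M) {d e : ℤ} (h : d ≤ e) : C.V u e ≤ C.V u d := by
  refine Submodule.span_mono ?_
  rintro m ⟨β, γ, h1, h2⟩
  exact ⟨β, γ, h.trans h1, h2⟩

theorem ConnD_gen_mem (u : M) {d : ℤ} (β γ : Fin n →₀ ℕ) (h : d ≤ (β.degree : ℤ) - γ.degree) :
    (monomial β 1 : MvPowerSeries (Fin n) K) • C.pw γ u ∈ C.V u d :=
  Submodule.subset_span ⟨β, γ, h, rfl⟩

theorem V_compat (u : M) : Compat C (C.V u) := by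
  refine ⟨fun i => C.ConnD_anti u (by omega), ?_, ?_⟩
  · intro i l m hm
    refine Submodule.span_induction (p := fun m _ => (X l : MvPowerSeries (Fin n) K) • m ∈
      C.V u (i + 1)) ?_ ?_ ?_ ?_ hm
    · rintro m ⟨β, γ, h1, rfl⟩
      have h2 : (X l : MvPowerSeries (Fin n) K) • (monomial β 1 : MvPowerSeries (Fin n) K) •
          C.pw γ u = (monomial (Finsupp.single l 1 + β) 1 : MvPowerSeries (Fin n) K) •
            C.pw γ u := by
        rw [smul_smul, X, monomial_mul_monomial, mul_one]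
      rw [h2]
      refine C.ConnD_gen_mem u _ _ ?_
      rw [map_add, Finsupp.degree_single]
      push_cast
      omega
    · rw [smul_zero]
      exact Submodule.zero_mem _
    · intro x y _ _ hx hy
      rw [smul_add]
      exact Submodule.add_mem _ hx hy
    · intro r x _ hx
      rw [smul_comm]
      exact Submodule.smul_mem _ r hx
  · intro i l m hm
    refine Submodule.span_induction (p := fun m _ => C.nab l m ∈ C.V u (i - 1)) ?_ ?_ ?_ ?_ hm
    · rintro m ⟨β, γ, h1, rfl⟩
      rw [C.leib]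
      refine Submodule.add_mem _ ?_ ?_
      · rcases ConnD_pderiv_monomial (K := K) l β with h2 | ⟨β', c, h2, h3⟩
        · rw [h2, zero_smul]
          exact Submodule.zero_mem _
        · rw [h3, mul_smul]
          refine Submodule.smul_mem _ _ (C.ConnD_gen_mem u _ _ ?_)
          rw [h2, map_add, Finsupp.degree_single] at h1
          push_cast at h1
          omega
      · rw [C.nab_pw]
        refine C.ConnD_gen_mem u _ _ ?_
        rw [map_add, Finsupp.degree_single]
        push_cast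
        omega
    · rw [map_zero]
      exact Submodule.zero_mem _
    · intro x y _ _ hx hy
      rw [map_add]
      exact Submodule.add_mem _ hx hy
    · intro r x hx hx'
      rw [C.leib]
      refine Submodule.add_mem _ (Submodule.smul_mem _ _ ?_) (Submodule.smul_mem _ _ hx')
      exact C.ConnD_anti u (by omega : i - 1 ≤ i) hx

theorem mem_V_self (u : M) : u ∈ C.V u 0 := by
  have h := C.ConnD_gen_mem u (d := 0) 0 0 (by simp)
  rw [C.pw_zero, monomial_zero_one, one_smul] at h
  exact h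

/-- universal property of the `V`-filtration -/
theorem V_le {W : ℤ → Submodule (MvPowerSeries (Fin n) K) M} (hW : Compat C W) {u : M} {a : ℤ}
    (hu : u ∈ W a) (d : ℤ) : C.V u d ≤ W (d + a) := by
  refine Submodule.span_le.mpr ?_
  rintro m ⟨β, γ, h1, rfl⟩
  have h2 := hW.pw_mem hu γ
  have h3 := hW.mI_mem (monomial_mem_mI (K := K) (le_refl β.degree) 1) h2
  exact hW.le (by omega) h3

theorem mem_D_self (u : M) : u ∈ C.D u :=
  Submodule.subset_span ⟨0, (C.pw_zero u).symm⟩

theorem nab_mem_D {u m : M} (hm : m ∈ C.D u) (i : Fin n) : C.nab i m ∈ C.D u := by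
  refine Submodule.span_induction (p := fun m _ => C.nab i m ∈ C.D u) ?_ ?_ ?_ ?_ hm
  · rintro m ⟨γ, rfl⟩
    rw [C.nab_pw]
    exact Submodule.subset_span ⟨_, rfl⟩
  · rw [map_zero]
    exact Submodule.zero_mem _
  · intro x y _ _ hx hy
    rw [map_add]
    exact Submodule.add_mem _ hx hy
  · intro r x hx hx'
    rw [C.leib]
    exact Submodule.add_mem _ (Submodule.smul_mem _ _ hx) (Submodule.smul_mem _ _ hx')

theorem ConnD_pw_mem {N : Submodule (MvPowerSeries (Fin n) K) M}
    (hN : ∀ i, ∀ m ∈ N, C.nab i m ∈ N) {u : M} (hu : u ∈ N) : ∀ (k : ℕ) (γ : Fin n →₀ ℕ),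
    γ.degree = k → C.pw γ u ∈ N := by
  intro k
  induction k with
  | zero =>
    intro γ hγ
    have h0 : γ = 0 := (Finsupp.degree_eq_zero_iff γ).mp hγ
    rw [h0, C.pw_zero]
    exact hu
  | succ k ih =>
    intro γ hγ
    have h0 : γ ≠ 0 := by
      rintro rfl
      simp at hγ
    obtain ⟨i, γ', h1, h2⟩ := exists_single_of_ne_zero h0
    rw [h1, ← C.nab_pw]
    exact hN i _ (ih γ' (by omega))

theorem D_le {N : Submodule (MvPowerSeries (Fin n) K) M} (hN : ∀ i, ∀ m ∈ N, C.nab i m ∈ N) {u : M}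
    (hu : u ∈ N) : C.D u ≤ N := by
  refine Submodule.span_le.mpr ?_
  rintro m ⟨γ, rfl⟩
  exact C.ConnD_pw_mem hN hu _ γ rfl

theorem V_le_D (u : M) (d : ℤ) : C.V u d ≤ C.D u := by
  refine Submodule.span_le.mpr ?_
  rintro m ⟨β, γ, -, rfl⟩
  exact Submodule.smul_mem _ _ (Submodule.subset_span ⟨γ, rfl⟩)

theorem exists_mem_V {u m : M} (hm : m ∈ C.D u) : ∃ d : ℤ, m ∈ C.V u d := by
  refine Submodule.span_induction (p := fun m _ => ∃ d : ℤ, m ∈ C.V u d) ?_ ?_ ?_ ?_ hm
  · rintro m ⟨γ, rfl⟩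
    refine ⟨-γ.degree, ?_⟩
    have h := C.ConnD_gen_mem u (d := -(γ.degree : ℤ)) 0 γ (by simp)
    rw [monomial_zero_one, one_smul] at h
    exact h
  · exact ⟨0, Submodule.zero_mem _⟩
  · rintro x y _ _ ⟨d, hd⟩ ⟨e, he⟩
    exact ⟨min d e, Submodule.add_mem _ (C.ConnD_anti u (min_le_left _ _) hd)
      (C.ConnD_anti u (min_le_right _ _) he)⟩
  · rintro r x _ ⟨d, hd⟩
    exact ⟨d, Submodule.smul_mem _ r hd⟩

theorem Fil_mono {r r' : ℕ} (h : r ≤ r') (u : M) : C.Fil r u ≤ C.Fil r' u := by
  refine Submodule.span_mono ?_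
  rintro m ⟨γ, h1, h2⟩
  exact ⟨γ, h1.trans h, h2⟩

theorem exists_mem_Fil {u m : M} (hm : m ∈ C.D u) : ∃ r, m ∈ C.Fil r u := by
  refine Submodule.span_induction (p := fun m _ => ∃ r, m ∈ C.Fil r u) ?_ ?_ ?_ ?_ hm
  · rintro m ⟨γ, rfl⟩
    exact ⟨γ.degree, Submodule.subset_span ⟨γ, le_refl _, rfl⟩⟩
  · exact ⟨0, Submodule.zero_mem _⟩
  · rintro x y _ _ ⟨d, hd⟩ ⟨e, he⟩
    exact ⟨max d e, Submodule.add_mem _ (C.Fil_mono (le_max_left _ _) u hd)
      (C.Fil_mono (le_max_right _ _) u he)⟩
  · rintro r x _ ⟨d, hd⟩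
    exact ⟨d, Submodule.smul_mem _ r hd⟩

theorem Fil_le_D (r : ℕ) (u : M) : C.Fil r u ≤ C.D u := by
  refine Submodule.span_mono ?_
  rintro m ⟨γ, -, h2⟩
  exact ⟨γ, h2⟩

end Conn

end B5a
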