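import Mathlib

set_option autoImplicit false
set_option linter.unusedSectionVars false
set_option linter.style.longLine false

/-!
Weyl algebra actions with a commuting operator: definitions (MP_b5a980_ag).
-/

namespace B5a

universe u v w

variable {K : Type u} {G : Type v} [Field K] [CharZero K] [AddCommGroup G] [Module K G]

/-- Normal ordered words: the coefficient of `(a, β, α)` belongs to `T^a X^β Y^α`. -/
abbrev Words (n : ℕ) (K : Type u) [Field K] := (ℕ × (Fin n →₀ ℕ) × (Fin n →₀ ℕ)) →₀ K

/-- words with `|β| + |α| ≤ j` and `a ≤ l` -/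
noncomputable def wordSet (n j l : ℕ) : Finset (ℕ × (Fin n →₀ ℕ) × (Fin n →₀ ℕ)) :=
  ((Finset.range (l + 1)) ×ˢ
    (((Finset.range (j + 1)).biUnion fun d => Finset.finsuppAntidiag Finset.univ d) ×ˢ
      ((Finset.range (j + 1)).biUnion fun d => Finset.finsuppAntidiag Finset.univ d))).filter
    fun w => w.2.1.degree + w.2.2.degree ≤ j

/-- The data of a Weyl algebra action with a commuting operator. -/
structure Weyl (n : ℕ) (K : Type u) (G : Type v) [Field K] [AddCommGroup G] [Module K G] where
  X : Fin n → Module.End K G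
  Y : Fin n → Module.End K G
  T : Module.End K G
  hXX : ∀ i j, Commute (X i) (X j)
  hYY : ∀ i j, Commute (Y i) (Y j)
  hYX : ∀ i j, Y i * X j - X j * Y i = if i = j then 1 else 0
  hTX : ∀ i, Commute T (X i)
  hTY : ∀ i, Commute T (Y i)

namespace Weyl

variable {n : ℕ} (A : Weyl n K G)

noncomputable def Xp (β : Fin n →₀ ℕ) : Module.End K G :=
  Finset.univ.noncommProd (fun i => A.X i ^ β i) (fun i _ j _ _ => (A.hXX i j).pow_pow _ _)

noncomputable def Yp (α : Fin n →₀ ℕ) : Module.End K G :=
  Finset.univ.noncommProd (fun i => A.Y i ^ α i) (fun i _ j _ _ => (A.hYY i j).pow_pow _ _)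

/-- the operator defined by a word -/
noncomputable def ev (w : ℕ × (Fin n →₀ ℕ) × (Fin n →₀ ℕ)) : Module.End K G :=
  A.T ^ w.1 * A.Xp w.2.1 * A.Yp w.2.2

end Weyl

end B5a
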