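import Pool.Agent.H.MP_b5a980_ag.Cnt0
import Pool.Agent.H.MP_b5a980_ag.ConnB
import Pool.Agent.H.MP_b5a980_ag.ConnD
import Pool.Agent.H.MP_b5a980_ag.Jos0

set_option autoImplicit false
set_option linter.unusedSectionVars false
set_option linter.style.longLine false

/-!
The graded Weyl module of the filtration (MP_b5a980_ag).
-/

namespace B5a

universe u v w

open MvPowerSeries

variable {n : ℕ} {K : Type u} [Field K] {M : Type v} [AddCommGroup M]
  [Module (MvPowerSeries (Fin n) K) M] [Module K M] [IsScalarTower K (MvPowerSeries (Fin n) K) M]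

namespace Conn

variable (C : Conn n K M)

/-- families `φ` with `φ d` in `V^(d+k)` -/
noncomputable def CntA_S (u : M) (k : ℤ) : Submodule K (ℤ → M) :=
  Submodule.pi Set.univ (fun d => (C.V u (d + k)).restrictScalars K)

theorem CntA_mem_S {u : M} {k : ℤ} {φ : ℤ → M} :
    φ ∈ C.CntA_S u k ↔ ∀ d, φ d ∈ C.V u (d + k) := by
  simp [CntA_S, Submodule.mem_pi]

/-- the graded module -/
abbrev CntA_G (u : M) : Type v :=
  ↥(C.CntA_S u 0) ⧸ ((C.CntA_S u 1).comap (C.CntA_S u 0).subtype)

/-- operators on the graded module -/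
noncomputable def CntA_lift (u : M) (F : (ℤ → M) →ₗ[K] (ℤ → M))
    (hF : ∀ k, ∀ φ ∈ C.CntA_S u k, F φ ∈ C.CntA_S u k) : Module.End K (C.CntA_G u) :=
  Submodule.mapQ _ _ (F.restrict (hF 0)) (fun _ hφ => hF 1 _ hφ)

theorem CntA_lift_mk (u : M) (F : (ℤ → M) →ₗ[K] (ℤ → M))
    (hF : ∀ k, ∀ φ ∈ C.CntA_S u k, F φ ∈ C.CntA_S u k) (φ : C.CntA_S u 0) :
    C.CntA_lift u F hF (Submodule.Quotient.mk φ) =
      Submodule.Quotient.mk ⟨F (φ : ℤ → M), hF 0 _ φ.2⟩ := rfl

/-- the operator `x_i` on families -/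
noncomputable def CntA_X (M : Type v) [AddCommGroup M]
    [Module (MvPowerSeries (Fin n) K) M] [Module K M]
    [IsScalarTower K (MvPowerSeries (Fin n) K) M] (i : Fin n) : (ℤ → M) →ₗ[K] (ℤ → M) :=
  LinearMap.pi (fun d => (mulR M (X i)).comp (LinearMap.proj (d - 1)))

/-- the operator `nab_i` on families -/
noncomputable def CntA_Y (i : Fin n) : (ℤ → M) →ₗ[K] (ℤ → M) :=
  LinearMap.pi (fun d => (C.nab i).comp (LinearMap.proj (d + 1)))

/-- the operator `theta - d` on families -/
noncomputable def CntA_T : (ℤ → M) →ₗ[K] (ℤ → M) :=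
  LinearMap.pi (fun d => (C.theta - (d : K) • LinearMap.id : M →ₗ[K] M).comp (LinearMap.proj d))

theorem CntA_X_apply (i : Fin n) (φ : ℤ → M) (d : ℤ) :
    CntA_X (K := K) M i φ d = (X i : MvPowerSeries (Fin n) K) • φ (d - 1) := rfl

theorem CntA_Y_apply (i : Fin n) (φ : ℤ → M) (d : ℤ) :
    C.CntA_Y i φ d = C.nab i (φ (d + 1)) := rfl

theorem CntA_T_apply (φ : ℤ → M) (d : ℤ) :
    C.CntA_T φ d = C.theta (φ d) - (d : K) • φ d := rfl

theorem CntA_X_mem (u : M) (i : Fin n) (k : ℤ) (φ : ℤ → M) (hφ : φ ∈ C.CntA_S u k) :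
    CntA_X (K := K) M i φ ∈ C.CntA_S u k := by
  rw [CntA_mem_S] at hφ ⊢
  intro d
  rw [CntA_X_apply]
  have h := (C.V_compat u).x_mem _ i _ (hφ (d - 1))
  have e : d - 1 + k + 1 = d + k := by ring
  rwa [e] at h

theorem CntA_Y_mem (u : M) (i : Fin n) (k : ℤ) (φ : ℤ → M) (hφ : φ ∈ C.CntA_S u k) :
    C.CntA_Y i φ ∈ C.CntA_S u k := by
  rw [CntA_mem_S] at hφ ⊢
  intro d
  rw [CntA_Y_apply]
  have h := (C.V_compat u).nab_mem _ i _ (hφ (d + 1))
  have e : d + 1 + k - 1 = d + k := by ring
  rwa [e] at h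

theorem CntA_smul_mem {N : Submodule (MvPowerSeries (Fin n) K) M} (c : K) {m : M} (hm : m ∈ N) :
    c • m ∈ N := (N.restrictScalars K).smul_mem c hm

theorem CntA_T_mem (u : M) (k : ℤ) (φ : ℤ → M) (hφ : φ ∈ C.CntA_S u k) :
    C.CntA_T φ ∈ C.CntA_S u k := by
  rw [CntA_mem_S] at hφ ⊢
  intro d
  rw [CntA_T_apply]
  exact Submodule.sub_mem _ ((C.V_compat u).theta_mem (hφ d)) (CntA_smul_mem _ (hφ d))

theorem CntA_theta_X (i : Fin n) (m : M) :
    C.theta ((X i : MvPowerSeries (Fin n) K) • m) =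
      (X i : MvPowerSeries (Fin n) K) • (C.theta m + m) := by
  have h := C.theta_monomial_smul (Finsupp.single i 1) (1 : K) m
  have e : (monomial (Finsupp.single i 1) (1 : K) : MvPowerSeries (Fin n) K) = X i := rfl
  rw [e] at h
  rw [h]
  simp

theorem CntA_theta_nab (i : Fin n) (m : M) :
    C.theta (C.nab i m) = C.nab i (C.theta m - m) := by
  have h := C.theta_pw (Finsupp.single i 1) m
  rw [C.pw_single, C.pw_single] at h
  rw [h]
  simp

/-- `x_i` as an operator on the graded module -/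
noncomputable def CntA_GX (u : M) (i : Fin n) : Module.End K (C.CntA_G u) :=
  C.CntA_lift u (CntA_X (K := K) M i) (C.CntA_X_mem u i)

noncomputable def CntA_GY (u : M) (i : Fin n) : Module.End K (C.CntA_G u) :=
  C.CntA_lift u (C.CntA_Y i) (C.CntA_Y_mem u i)

noncomputable def CntA_GT (u : M) : Module.End K (C.CntA_G u) :=
  C.CntA_lift u C.CntA_T (C.CntA_T_mem u)

/-- the Weyl algebra action on the graded module -/
noncomputable def CntA_W (u : M) : Weyl n K (C.CntA_G u) where
  X := C.CntA_GX u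
  Y := C.CntA_GY u
  T := C.CntA_GT u
  hXX := by
    intro i j
    refine LinearMap.ext fun g => ?_
    induction g using Submodule.Quotient.induction_on with
    | H φ =>
      change Submodule.Quotient.mk _ = Submodule.Quotient.mk _
      congr 1
      refine Subtype.ext ?_
      funext d
      change (X i : MvPowerSeries (Fin n) K) • ((X j : MvPowerSeries (Fin n) K) • (φ : ℤ → M) (d - 1 - 1)) =
        (X j : MvPowerSeries (Fin n) K) • ((X i : MvPowerSeries (Fin n) K) • (φ : ℤ → M) (d - 1 - 1))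
      rw [smul_smul, smul_smul, mul_comm]
  hYY := by
    intro i j
    refine LinearMap.ext fun g => ?_
    induction g using Submodule.Quotient.induction_on with
    | H φ =>
      change Submodule.Quotient.mk _ = Submodule.Quotient.mk _
      congr 1
      refine Subtype.ext ?_
      funext d
      exact C.comm i j _
  hYX := by
    intro i j
    refine LinearMap.ext fun g => ?_
    induction g using Submodule.Quotient.induction_on with
    | H φ =>
      have h1 : ∀ d : ℤ, C.nab i ((X j : MvPowerSeries (Fin n) K) • (φ : ℤ → M) (d + 1 - 1)) -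
          (X j : MvPowerSeries (Fin n) K) • C.nab i ((φ : ℤ → M) (d - 1 + 1)) =
            if i = j then (φ : ℤ → M) d else 0 := by
        intro d
        rw [add_sub_cancel_right, sub_add_cancel, C.leib, add_sub_cancel_right]
        by_cases h : i = j
        · subst h
          rw [if_pos rfl, pderiv_X_self, one_smul]
        · rw [if_neg h, pderiv_X_of_ne (Ne.symm h), zero_smul]
      by_cases h : i = j
      · rw [if_pos h]
        change Submodule.Quotient.mk _ = Submodule.Quotient.mk _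
        congr 1
        refine Subtype.ext ?_
        funext d
        have := h1 d
        rw [if_pos h] at this
        exact this
      · rw [if_neg h]
        change Submodule.Quotient.mk _ = Submodule.Quotient.mk (0 : C.CntA_S u 0)
        congr 1
        refine Subtype.ext ?_
        funext d
        have := h1 d
        rw [if_neg h] at this
        exact this
  hTX := by
    intro i
    refine LinearMap.ext fun g => ?_
    induction g using Submodule.Quotient.induction_on with
    | H φ =>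
      change Submodule.Quotient.mk _ = Submodule.Quotient.mk _
      congr 1
      refine Subtype.ext ?_
      funext d
      change C.theta ((X i : MvPowerSeries (Fin n) K) • (φ : ℤ → M) (d - 1)) -
          (d : K) • ((X i : MvPowerSeries (Fin n) K) • (φ : ℤ → M) (d - 1)) =
        (X i : MvPowerSeries (Fin n) K) • (C.theta ((φ : ℤ → M) (d - 1)) -
          (((d - 1 : ℤ) : K)) • (φ : ℤ → M) (d - 1))
      generalize (φ : ℤ → M) (d - 1) = m
      have e1 : ∀ c : K, (X i : MvPowerSeries (Fin n) K) • (c • m) =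
          c • ((X i : MvPowerSeries (Fin n) K) • m) := fun c => (mulR M (X i)).map_smul c m
      rw [C.CntA_theta_X, smul_sub, e1, smul_add]
      push_cast
      rw [sub_smul, one_smul]
      abel
  hTY := by
    intro i
    refine LinearMap.ext fun g => ?_
    induction g using Submodule.Quotient.induction_on with
    | H φ =>
      change Submodule.Quotient.mk _ = Submodule.Quotient.mk _
      congr 1
      refine Subtype.ext ?_
      funext d
      change C.theta (C.nab i ((φ : ℤ → M) (d + 1))) - (d : K) • C.nab i ((φ : ℤ → M) (d + 1)) =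
        C.nab i (C.theta ((φ : ℤ → M) (d + 1)) - (((d + 1 : ℤ) : K)) • (φ : ℤ → M) (d + 1))
      generalize (φ : ℤ → M) (d + 1) = m
      rw [C.CntA_theta_nab, map_sub, map_sub, map_smul]
      push_cast
      rw [add_smul, one_smul]
      abel

/-- the inclusion of degree `d` -/
theorem CntA_single_mem (u : M) (d : ℤ) {m : M} (hm : m ∈ C.V u d) :
    (Pi.single d m : ℤ → M) ∈ C.CntA_S u 0 := by
  rw [CntA_mem_S]
  intro e
  by_cases h : e = d
  · subst h
    rw [Pi.single_eq_same, add_zero]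
    exact hm
  · rw [Pi.single_eq_of_ne h]
    exact Submodule.zero_mem _

noncomputable def CntA_iota (u : M) (d : ℤ) :
    ((C.V u d).restrictScalars K) →ₗ[K] C.CntA_G u :=
  (Submodule.mkQ _).comp
    (LinearMap.codRestrict (C.CntA_S u 0)
      ((LinearMap.single K (fun _ : ℤ => M) d).comp (Submodule.subtype _))
      (fun m => C.CntA_single_mem u d m.2))

theorem CntA_iota_apply (u : M) (d : ℤ) {m : M} (hm : m ∈ C.V u d) :
    C.CntA_iota u d ⟨m, hm⟩ =
      Submodule.Quotient.mk ⟨Pi.single d m, C.CntA_single_mem u d hm⟩ := rfl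

theorem CntA_iota_congr (u : M) {d d' : ℤ} (hd : d = d') {m m' : M} (hm : m ∈ C.V u d)
    (hm' : m' ∈ C.V u d') (h : m = m') : C.CntA_iota u d ⟨m, hm⟩ = C.CntA_iota u d' ⟨m', hm'⟩ := by
  subst hd
  subst h
  rfl

theorem CntA_iota_eq_zero (u : M) (d : ℤ) {m : M} (hm : m ∈ C.V u d) :
    C.CntA_iota u d ⟨m, hm⟩ = 0 ↔ m ∈ C.V u (d + 1) := by
  rw [CntA_iota_apply, Submodule.Quotient.mk_eq_zero, Submodule.mem_comap, Submodule.subtype_apply,
    CntA_mem_S]
  constructor
  · intro h
    have h' : (Pi.single d m : ℤ → M) d ∈ C.V u (d + 1) := h d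
    rwa [Pi.single_eq_same] at h'
  · intro h e
    change (Pi.single d m : ℤ → M) e ∈ C.V u (e + 1)
    by_cases he : e = d
    · subst he
      rw [Pi.single_eq_same]
      exact h
    · rw [Pi.single_eq_of_ne he]
      exact Submodule.zero_mem _

theorem CntA_GX_iota (u : M) (i : Fin n) (d : ℤ) {m : M} (hm : m ∈ C.V u d) :
    C.CntA_GX u i (C.CntA_iota u d ⟨m, hm⟩) =
      C.CntA_iota u (d + 1) ⟨(X i : MvPowerSeries (Fin n) K) • m, (C.V_compat u).x_mem _ i _ hm⟩ := by
  rw [CntA_iota_apply, CntA_iota_apply, CntA_GX, CntA_lift_mk]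
  congr 1
  refine Subtype.ext ?_
  funext e
  change (X i : MvPowerSeries (Fin n) K) • (Pi.single d m : ℤ → M) (e - 1) = (Pi.single (d + 1) _ : ℤ → M) e
  by_cases he : e = d + 1
  · subst he
    rw [add_sub_cancel_right, Pi.single_eq_same, Pi.single_eq_same]
  · rw [Pi.single_eq_of_ne he, Pi.single_eq_of_ne (by omega), smul_zero]

theorem CntA_GY_iota (u : M) (i : Fin n) (d : ℤ) {m : M} (hm : m ∈ C.V u d) :
    C.CntA_GY u i (C.CntA_iota u d ⟨m, hm⟩) =
      C.CntA_iota u (d - 1) ⟨C.nab i m, (C.V_compat u).nab_mem _ i _ hm⟩ := by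
  rw [CntA_iota_apply, CntA_iota_apply, CntA_GY, CntA_lift_mk]
  congr 1
  refine Subtype.ext ?_
  funext e
  change C.nab i ((Pi.single d m : ℤ → M) (e + 1)) = (Pi.single (d - 1) _ : ℤ → M) e
  by_cases he : e = d - 1
  · subst he
    rw [sub_add_cancel, Pi.single_eq_same, Pi.single_eq_same]
  · rw [Pi.single_eq_of_ne he, Pi.single_eq_of_ne (by omega), map_zero]

theorem CntA_T_iota_mem (u : M) (d : ℤ) {m : M} (hm : m ∈ C.V u d) :
    C.theta m - (d : K) • m ∈ C.V u d :=
  Submodule.sub_mem _ ((C.V_compat u).theta_mem hm) (CntA_smul_mem _ hm)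

theorem CntA_GT_iota (u : M) (d : ℤ) {m : M} (hm : m ∈ C.V u d) :
    C.CntA_GT u (C.CntA_iota u d ⟨m, hm⟩) =
      C.CntA_iota u d ⟨C.theta m - (d : K) • m, C.CntA_T_iota_mem u d hm⟩ := by
  rw [CntA_iota_apply, CntA_iota_apply, CntA_GT, CntA_lift_mk]
  congr 1
  refine Subtype.ext ?_
  funext e
  change C.theta ((Pi.single d m : ℤ → M) e) - (e : K) • (Pi.single d m : ℤ → M) e =
    (Pi.single d _ : ℤ → M) e
  by_cases he : e = d
  · subst he
    rw [Pi.single_eq_same, Pi.single_eq_same]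
  · rw [Pi.single_eq_of_ne he, Pi.single_eq_of_ne he, map_zero, smul_zero, sub_zero]

/-- `T = Σ X_i Y_i - d` in degree `d` -/
theorem CntA_GT_iota' (u : M) (d : ℤ) {m : M} (hm : m ∈ C.V u d) :
    C.CntA_GT u (C.CntA_iota u d ⟨m, hm⟩) =
      (∑ i, C.CntA_GX u i (C.CntA_GY u i (C.CntA_iota u d ⟨m, hm⟩))) -
        (d : K) • C.CntA_iota u d ⟨m, hm⟩ := by
  have h1 : ∀ i, C.CntA_GX u i (C.CntA_GY u i (C.CntA_iota u d ⟨m, hm⟩)) =
      C.CntA_iota u d ⟨(X i : MvPowerSeries (Fin n) K) • C.nab i m, by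
        have h := (C.V_compat u).x_mem _ i _ ((C.V_compat u).nab_mem _ i _ hm)
        rwa [sub_add_cancel] at h⟩ := by
    intro i
    rw [CntA_GY_iota, CntA_GX_iota]
    exact C.CntA_iota_congr u (by ring) _ _ rfl
  rw [CntA_GT_iota, Finset.sum_congr rfl (fun i _ => h1 i), ← map_sum, ← map_smul, ← map_sub]
  congr 1
  refine Subtype.ext ?_
  simp only [Submodule.coe_sub, Submodule.coe_smul, AddSubmonoidClass.coe_finsetSum]
  rw [C.theta_apply]

theorem CntA_word_mem (u : M) (β α : Fin n →₀ ℕ) :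
    (monomial β 1 : MvPowerSeries (Fin n) K) • C.pw α u ∈ C.V u ((β.degree : ℤ) - α.degree) :=
  Submodule.subset_span ⟨β, α, le_refl _, rfl⟩

/-- the class of a word in its degree -/
noncomputable def CntA_cl (u : M) (β α : Fin n →₀ ℕ) : C.CntA_G u :=
  C.CntA_iota u ((β.degree : ℤ) - α.degree)
    ⟨(monomial β 1 : MvPowerSeries (Fin n) K) • C.pw α u, C.CntA_word_mem u β α⟩

/-- the span of the classes of words of length at most `j` -/
noncomputable def CntA_Gam (u : M) (j : ℕ) : Submodule K (C.CntA_G u) :=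
  Submodule.span K {g | ∃ β α : Fin n →₀ ℕ, β.degree + α.degree ≤ j ∧ g = C.CntA_cl u β α}

theorem CntA_Gam_mono (u : M) : Monotone (C.CntA_Gam u) := by
  intro j j' h
  refine Submodule.span_mono ?_
  rintro g ⟨β, α, h1, rfl⟩
  exact ⟨β, α, h1.trans h, rfl⟩

theorem CntA_cl_mem (u : M) {j : ℕ} {β α : Fin n →₀ ℕ} (h : β.degree + α.degree ≤ j) :
    C.CntA_cl u β α ∈ C.CntA_Gam u j :=
  Submodule.subset_span ⟨β, α, h, rfl⟩

theorem CntA_X_cl (u : M) (i : Fin n) (β α : Fin n →₀ ℕ) :
    C.CntA_GX u i (C.CntA_cl u β α) = C.CntA_cl u (β + Finsupp.single i 1) α := by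
  rw [CntA_cl, CntA_GX_iota, CntA_cl]
  refine C.CntA_iota_congr u ?_ _ _ ?_
  · rw [map_add, Finsupp.degree_single]
    push_cast
    ring
  · rw [smul_smul]
    congr 1
    have e : (X i : MvPowerSeries (Fin n) K) = monomial (Finsupp.single i 1) 1 := rfl
    rw [e, monomial_mul_monomial, one_mul, add_comm]

theorem CntA_X_Gam (u : M) (j : ℕ) (i : Fin n) (m : C.CntA_G u) (hm : m ∈ C.CntA_Gam u j) :
    C.CntA_GX u i m ∈ C.CntA_Gam u (j + 1) := by
  refine Submodule.span_induction (p := fun m _ => C.CntA_GX u i m ∈ C.CntA_Gam u (j + 1))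
    ?_ ?_ ?_ ?_ hm
  · rintro g ⟨β, α, h1, rfl⟩
    rw [CntA_X_cl]
    refine C.CntA_cl_mem u ?_
    rw [map_add, Finsupp.degree_single]
    omega
  · rw [map_zero]
    exact Submodule.zero_mem _
  · intro x y _ _ hx hy
    rw [map_add]
    exact Submodule.add_mem _ hx hy
  · intro c x _ hx
    rw [map_smul]
    exact Submodule.smul_mem _ _ hx

theorem CntA_smul_comm (r : MvPowerSeries (Fin n) K) (c : K) (m : M) : r • (c • m) = c • (r • m) :=
  (mulR M r).map_smul c m

theorem CntA_pderiv (i : Fin n) (β : Fin n →₀ ℕ) :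
    pderiv K i (monomial β 1 : MvPowerSeries (Fin n) K) =
      (β i : K) • (monomial (β - Finsupp.single i 1) 1 : MvPowerSeries (Fin n) K) := by
  classical
  ext d
  rw [coeff_pderiv, map_smul, coeff_monomial, coeff_monomial, smul_eq_mul]
  by_cases h : d + Finsupp.single i 1 = β
  · have h1 : d = β - Finsupp.single i 1 := by
      rw [← h, add_tsub_cancel_right]
    have h2 : β i = d i + 1 := by
      rw [← h, Finsupp.add_apply, Finsupp.single_eq_same]
    rw [if_pos h, if_pos h1, h2]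
    push_cast
    ring
  · rw [if_neg h, zero_mul]
    by_cases h1 : d = β - Finsupp.single i 1
    · have h2 : β i = 0 := by
        by_contra h3
        refine h ?_
        rw [h1]
        refine tsub_add_cancel_of_le ?_
        rw [Finsupp.single_le_iff]
        omega
      rw [h2, Nat.cast_zero, zero_mul]
    · rw [if_neg h1, mul_zero]

theorem CntA_Y_cl (u : M) (i : Fin n) (β α : Fin n →₀ ℕ) :
    C.CntA_GY u i (C.CntA_cl u β α) =
      (β i : K) • C.CntA_cl u (β - Finsupp.single i 1) α +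
        C.CntA_cl u β (α + Finsupp.single i 1) := by
  have h0 : C.nab i ((monomial β 1 : MvPowerSeries (Fin n) K) • C.pw α u) =
      (β i : K) • ((monomial (β - Finsupp.single i 1) 1 : MvPowerSeries (Fin n) K) • C.pw α u) +
        (monomial β 1 : MvPowerSeries (Fin n) K) • C.pw (α + Finsupp.single i 1) u := by
    rw [C.leib, C.nab_pw, CntA_pderiv, smul_assoc]
  by_cases hβ : β i = 0
  · rw [CntA_cl, CntA_GY_iota, hβ, Nat.cast_zero, zero_smul, zero_add, CntA_cl]
    refine C.CntA_iota_congr u ?_ _ _ ?_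
    · rw [map_add, Finsupp.degree_single]
      push_cast
      ring
    · rw [h0, hβ, Nat.cast_zero, zero_smul, zero_add]
  · have hle : Finsupp.single i 1 ≤ β := by
      rw [Finsupp.single_le_iff]
      omega
    have hdeg : (β - Finsupp.single i 1).degree + 1 = β.degree := by
      conv_rhs => rw [← tsub_add_cancel_of_le hle]
      rw [map_add, Finsupp.degree_single]
    have hd1 : (((β - Finsupp.single i 1).degree : ℤ) - α.degree) = (β.degree : ℤ) - α.degree - 1 := by
      rw [← hdeg]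
      push_cast
      ring
    have hd2 : ((β.degree : ℤ) - (α + Finsupp.single i 1).degree) = (β.degree : ℤ) - α.degree - 1 := by
      rw [map_add, Finsupp.degree_single]
      push_cast
      ring
    have m1 : (monomial (β - Finsupp.single i 1) 1 : MvPowerSeries (Fin n) K) • C.pw α u ∈
        C.V u ((β.degree : ℤ) - α.degree - 1) := by
      rw [← hd1]
      exact C.CntA_word_mem u _ _
    have m2 : (monomial β 1 : MvPowerSeries (Fin n) K) • C.pw (α + Finsupp.single i 1) u ∈
        C.V u ((β.degree : ℤ) - α.degree - 1) := by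
      rw [← hd2]
      exact C.CntA_word_mem u _ _
    have c1 : C.CntA_cl u (β - Finsupp.single i 1) α =
        C.CntA_iota u ((β.degree : ℤ) - α.degree - 1) ⟨_, m1⟩ :=
      C.CntA_iota_congr u hd1 _ _ rfl
    have c2 : C.CntA_cl u β (α + Finsupp.single i 1) =
        C.CntA_iota u ((β.degree : ℤ) - α.degree - 1) ⟨_, m2⟩ :=
      C.CntA_iota_congr u hd2 _ _ rfl
    rw [c1, c2, CntA_cl, CntA_GY_iota, ← LinearMap.map_smul, ← LinearMap.map_add]
    congr 1
    refine Subtype.ext ?_
    exact h0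

theorem CntA_Y_Gam (u : M) (j : ℕ) (i : Fin n) (m : C.CntA_G u) (hm : m ∈ C.CntA_Gam u j) :
    C.CntA_GY u i m ∈ C.CntA_Gam u (j + 1) := by
  refine Submodule.span_induction (p := fun m _ => C.CntA_GY u i m ∈ C.CntA_Gam u (j + 1))
    ?_ ?_ ?_ ?_ hm
  · rintro g ⟨β, α, h1, rfl⟩
    rw [CntA_Y_cl]
    refine Submodule.add_mem _ (Submodule.smul_mem _ _ (C.CntA_cl_mem u ?_)) (C.CntA_cl_mem u ?_)
    · have : (β - Finsupp.single i 1).degree ≤ β.degree :=
        Finsupp.degree_mono tsub_le_self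
      omega
    · rw [map_add, Finsupp.degree_single]
      omega
  · rw [map_zero]
    exact Submodule.zero_mem _
  · intro x y _ _ hx hy
    rw [map_add]
    exact Submodule.add_mem _ hx hy
  · intro c x _ hx
    rw [map_smul]
    exact Submodule.smul_mem _ _ hx

theorem CntA_T_Gam (u : M) (j : ℕ) (m : C.CntA_G u) (hm : m ∈ C.CntA_Gam u j) :
    C.CntA_GT u m ∈ C.CntA_Gam u (j + 2) := by
  refine Submodule.span_induction (p := fun m _ => C.CntA_GT u m ∈ C.CntA_Gam u (j + 2))
    ?_ ?_ ?_ ?_ hm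
  · rintro g ⟨β, α, h1, rfl⟩
    have hg := C.CntA_cl_mem u h1
    have e := C.CntA_GT_iota' u ((β.degree : ℤ) - α.degree) (C.CntA_word_mem u β α)
    rw [CntA_cl, e]
    refine Submodule.sub_mem _ (Submodule.sum_mem _ fun i _ => ?_)
      (Submodule.smul_mem _ _ (C.CntA_Gam_mono u (by omega) hg))
    exact C.CntA_X_Gam u (j + 1) i _ (C.CntA_Y_Gam u j i _ hg)
  · rw [map_zero]
    exact Submodule.zero_mem _
  · intro x y _ _ hx hy
    rw [map_add]
    exact Submodule.add_mem _ hx hy
  · intro c x _ hx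
    rw [map_smul]
    exact Submodule.smul_mem _ _ hx

theorem CntA_finite_pairs (n j : ℕ) :
    {p : (Fin n →₀ ℕ) × (Fin n →₀ ℕ) | p.1.degree + p.2.degree ≤ j}.Finite := by
  refine Set.Finite.subset ((Finsupp.finite_of_degree_le (σ := Fin n) j).prod
    (Finsupp.finite_of_degree_le (σ := Fin n) j)) ?_
  rintro ⟨β, α⟩ h
  simp only [Set.mem_ofPred_eq] at h
  simp only [Set.mem_prod, Set.mem_ofPred_eq]
  omega

instance CntA_finite_Wd (u : M) (j : ℕ) : FiniteDimensional K (C.Wd u j) := by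
  refine FiniteDimensional.span_of_finite K ?_
  refine Set.Finite.subset ((CntA_finite_pairs n j).image
    (fun p => (monomial p.1 1 : MvPowerSeries (Fin n) K) • C.pw p.2 u)) ?_
  rintro m ⟨β, α, h, rfl⟩
  exact ⟨(β, α), h, rfl⟩

instance CntA_finite_Gam (u : M) (j : ℕ) : FiniteDimensional K (C.CntA_Gam u j) := by
  refine FiniteDimensional.span_of_finite K ?_
  refine Set.Finite.subset ((CntA_finite_pairs n j).image
    (fun p => C.CntA_cl u p.1 p.2)) ?_
  rintro m ⟨β, α, h, rfl⟩
  exact ⟨(β, α), h, rfl⟩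

theorem CntA_finrank_sup {G : Type v} [AddCommGroup G] [Module K G] (p : ℕ → Submodule K G)
    (hp : ∀ k, FiniteDimensional K (p k)) (s : Finset ℕ) :
    Module.finrank K (s.sup p : Submodule K G) ≤ ∑ k ∈ s, Module.finrank K (p k) := by
  classical
  induction s using Finset.induction_on with
  | empty => simp
  | insert a s ha ih =>
    rw [Finset.sup_insert, Finset.sum_insert ha]
    exact (Submodule.finrank_add_le_finrank_add_finrank _ _).trans (by omega)

/-- words of length at most `j` meeting `V^d` -/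
noncomputable def CntA_Wf (u : M) (j : ℕ) (d : ℤ) : Submodule K M :=
  C.Wd u j ⊓ (C.V u d).restrictScalars K

instance CntA_finite_Wf (u : M) (j : ℕ) (d : ℤ) : FiniteDimensional K (C.CntA_Wf u j d) :=
  Submodule.finiteDimensional_of_le (inf_le_left : C.CntA_Wf u j d ≤ C.Wd u j)

noncomputable def CntA_L (u : M) (j : ℕ) (d : ℤ) : C.CntA_Wf u j d →ₗ[K] C.CntA_G u :=
  (C.CntA_iota u d).comp (Submodule.inclusion inf_le_right)

theorem CntA_V_succ_le (u : M) (d : ℤ) : C.V u (d + 1) ≤ C.V u d := (C.V_compat u).anti d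

theorem CntA_finrank_L (u : M) (j : ℕ) (d : ℤ) :
    Module.finrank K (LinearMap.range (C.CntA_L u j d)) +
      Module.finrank K (C.CntA_Wf u j (d + 1)) = Module.finrank K (C.CntA_Wf u j d) := by
  have h1 := LinearMap.finrank_range_add_finrank_ker (C.CntA_L u j d)
  have h2 : (LinearMap.ker (C.CntA_L u j d)).map (C.CntA_Wf u j d).subtype =
      C.CntA_Wf u j (d + 1) := by
    ext m
    constructor
    · rintro ⟨x, hx, rfl⟩
      have hx' : C.CntA_iota u d ⟨(x : M), x.2.2⟩ = 0 := hx
      exact ⟨x.2.1, (C.CntA_iota_eq_zero u d _).1 hx'⟩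
    · rintro ⟨hm1, hm2⟩
      refine ⟨⟨m, hm1, C.CntA_V_succ_le u d hm2⟩, ?_, rfl⟩
      exact (C.CntA_iota_eq_zero u d (C.CntA_V_succ_le u d hm2)).2 hm2
  rw [← h2, Submodule.finrank_map_subtype_eq]
  exact h1

theorem CntA_Gam_le (u : M) (j : ℕ) :
    C.CntA_Gam u j ≤ (Finset.range (2 * j + 1)).sup
      (fun k : ℕ => LinearMap.range (C.CntA_L u j ((k : ℤ) - j))) := by
  refine Submodule.span_le.2 ?_
  rintro g ⟨β, α, h, rfl⟩
  have hk : β.degree + j - α.degree ∈ Finset.range (2 * j + 1) := by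
    rw [Finset.mem_range]
    omega
  have hd : (β.degree : ℤ) - α.degree = ((β.degree + j - α.degree : ℕ) : ℤ) - j := by
    omega
  have hle : LinearMap.range (C.CntA_L u j (((β.degree + j - α.degree : ℕ) : ℤ) - j)) ≤
      (Finset.range (2 * j + 1)).sup
      (fun k : ℕ => LinearMap.range (C.CntA_L u j ((k : ℤ) - j))) :=
    Finset.le_sup (f := fun k : ℕ => LinearMap.range (C.CntA_L u j ((k : ℤ) - j))) hk
  refine hle ?_
  have hm : (monomial β 1 : MvPowerSeries (Fin n) K) • C.pw α u ∈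
      C.V u (((β.degree + j - α.degree : ℕ) : ℤ) - j) := by
    rw [← hd]
    exact C.CntA_word_mem u β α
  refine ⟨⟨_, Submodule.subset_span ⟨β, α, h, rfl⟩, hm⟩, ?_⟩
  exact C.CntA_iota_congr u hd.symm _ _ rfl

theorem CntA_finrank_quot (u : M) (j : ℕ) :
    Module.finrank K (C.WdQuot u j) + Module.finrank K (C.CntA_Wf u j (j + 1)) =
      Module.finrank K (C.Wd u j) := by
  have h1 := Submodule.finrank_quotient_add_finrank
    (((C.V u (j + 1)).restrictScalars K).comap (C.Wd u j).subtype)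
  have h2 : (((C.V u (j + 1)).restrictScalars K).comap (C.Wd u j).subtype).map
      (C.Wd u j).subtype = C.CntA_Wf u j (j + 1) := Submodule.map_comap_subtype _ _
  rw [← h2, Submodule.finrank_map_subtype_eq]
  exact h1

theorem CntA_Wf_bot (u : M) (j : ℕ) : C.CntA_Wf u j (-(j : ℤ)) = C.Wd u j := by
  refine inf_eq_left.2 ?_
  refine Submodule.span_le.2 ?_
  rintro m ⟨β, α, h, rfl⟩
  exact (C.V_compat u).le (by omega) (C.CntA_word_mem u β α)

theorem CntA_finrank_le (u : M) (j : ℕ) :
    Module.finrank K (C.CntA_Gam u j) ≤ Module.finrank K (C.WdQuot u j) := by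
  have h1 : Module.finrank K (C.CntA_Gam u j) ≤
      ∑ k ∈ Finset.range (2 * j + 1),
        Module.finrank K (LinearMap.range (C.CntA_L u j ((k : ℤ) - j))) :=
    (Submodule.finrank_mono (C.CntA_Gam_le u j)).trans
      (CntA_finrank_sup _ (fun k => inferInstance) _)
  have h2 : (∑ k ∈ Finset.range (2 * j + 1),
        (Module.finrank K (LinearMap.range (C.CntA_L u j ((k : ℤ) - j))) : ℤ)) =
      ∑ k ∈ Finset.range (2 * j + 1),
        ((Module.finrank K (C.CntA_Wf u j ((k : ℤ) - j)) : ℤ) -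
          (Module.finrank K (C.CntA_Wf u j (((k + 1 : ℕ) : ℤ) - j)) : ℤ)) := by
    refine Finset.sum_congr rfl fun k _ => ?_
    have h := C.CntA_finrank_L u j ((k : ℤ) - j)
    have e : ((k + 1 : ℕ) : ℤ) - j = (k : ℤ) - j + 1 := by
      push_cast
      ring
    rw [e]
    omega
  rw [Finset.sum_range_sub'
    (fun k : ℕ => (Module.finrank K (C.CntA_Wf u j ((k : ℤ) - j)) : ℤ))] at h2
  have e0 : ((0 : ℕ) : ℤ) - j = -(j : ℤ) := by
    push_cast
    ring
  have e1 : ((2 * j + 1 : ℕ) : ℤ) - j = (j : ℤ) + 1 := by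
    push_cast
    ring
  rw [e0, e1, CntA_Wf_bot] at h2
  have h3 := C.CntA_finrank_quot u j
  have h4 : ((∑ k ∈ Finset.range (2 * j + 1),
        Module.finrank K (LinearMap.range (C.CntA_L u j ((k : ℤ) - j))) : ℕ) : ℤ) =
      ∑ k ∈ Finset.range (2 * j + 1),
        (Module.finrank K (LinearMap.range (C.CntA_L u j ((k : ℤ) - j))) : ℤ) := by
    push_cast
    rfl
  omega

theorem CntA_aeval {V W : Type v} [AddCommGroup V] [Module K V] [AddCommGroup W] [Module K W]
    (F : Module.End K V) (F' : Module.End K W) (L : V →ₗ[K] W) (h : ∀ x, L (F x) = F' (L x))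
    (b : Polynomial K) : ∀ x, L (Polynomial.aeval F b x) = Polynomial.aeval F' b (L x) := by
  induction b using Polynomial.induction_on' with
  | add p q hp hq =>
    intro x
    rw [map_add, map_add, LinearMap.add_apply, LinearMap.add_apply, map_add, hp, hq]
  | monomial k c =>
    intro x
    rw [Polynomial.aeval_monomial, Polynomial.aeval_monomial]
    have hk : ∀ k : ℕ, ∀ x, L ((F ^ k) x) = (F' ^ k) (L x) := by
      intro k
      induction k with
      | zero => intro x; rfl
      | succ k ih =>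
        intro x
        rw [pow_succ, pow_succ, Module.End.mul_apply, Module.End.mul_apply, ih, h]
    rw [Module.End.mul_apply, Module.End.mul_apply, Module.algebraMap_end_apply,
      Module.algebraMap_end_apply, map_smul, hk]

/-- The graded Weyl module of the `V`-filtration. -/
theorem exists_weyl (u : M) : ∃ (G : Type v) (_ : AddCommGroup G) (_ : Module K G)
    (A : Weyl n K G) (u0 : G) (Γ : ℕ → Submodule K G), Monotone Γ ∧ u0 ∈ Γ 0 ∧
      (∀ j i, ∀ m ∈ Γ j, A.X i m ∈ Γ (j + 1)) ∧ (∀ j i, ∀ m ∈ Γ j, A.Y i m ∈ Γ (j + 1)) ∧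
      (∀ j, ∀ m ∈ Γ j, A.T m ∈ Γ (j + 2)) ∧
      (∀ j, Module.Finite K (Γ j)) ∧
      (∀ j, Module.finrank K (Γ j) ≤ Module.finrank K (C.WdQuot u j)) ∧
      (∀ b : Polynomial K, Polynomial.aeval A.T b u0 = 0 →
        Polynomial.aeval C.theta b u ∈ C.V u 1) := by
  refine ⟨C.CntA_G u, inferInstance, inferInstance, C.CntA_W u,
    C.CntA_iota u 0 ⟨u, C.mem_V_self u⟩, C.CntA_Gam u, C.CntA_Gam_mono u, ?_,
    C.CntA_X_Gam u, C.CntA_Y_Gam u, C.CntA_T_Gam u, fun j => C.CntA_finite_Gam u j,
    C.CntA_finrank_le u, ?_⟩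
  · refine Submodule.subset_span ⟨0, 0, by simp, ?_⟩
    refine C.CntA_iota_congr u (by simp) _ _ ?_
    rw [C.pw_zero]
    have e : (monomial (0 : Fin n →₀ ℕ) (1 : K) : MvPowerSeries (Fin n) K) = 1 := rfl
    rw [e, one_smul]
  · intro b hb
    let θ0 : Module.End K ((C.V u 0).restrictScalars K) :=
      LinearMap.restrict C.theta (fun m hm => (C.V_compat u).theta_mem hm)
    have h1 : ∀ x, C.CntA_iota u 0 (θ0 x) = C.CntA_GT u (C.CntA_iota u 0 x) := by
      rintro ⟨m, hm⟩
      refine Eq.trans ?_ (C.CntA_GT_iota u 0 (m := m) hm).symm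
      refine C.CntA_iota_congr u rfl _ _ ?_
      change C.theta m = _
      rw [Int.cast_zero, zero_smul, sub_zero]
    have h2 := CntA_aeval θ0 (C.CntA_GT u) (C.CntA_iota u 0) h1 b ⟨u, C.mem_V_self u⟩
    have h3 := CntA_aeval θ0 C.theta ((C.V u 0).restrictScalars K).subtype (fun x => rfl) b
      ⟨u, C.mem_V_self u⟩
    have h4 : C.CntA_iota u 0 (Polynomial.aeval θ0 b ⟨u, C.mem_V_self u⟩) = 0 := h2.trans hb
    have h5 := (C.CntA_iota_eq_zero u 0 (Polynomial.aeval θ0 b ⟨u, C.mem_V_self u⟩).2).1 h4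
    rw [zero_add] at h5
    have h6 : ((Polynomial.aeval θ0 b ⟨u, C.mem_V_self u⟩ : (C.V u 0).restrictScalars K) : M) =
      Polynomial.aeval C.theta b u := h3
    rw [← h6]
    exact h5

end Conn

end B5a
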