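import Pool.Agent.H.MP_b5a980_ag.PMB

set_option autoImplicit false
set_option linter.unusedSectionVars false
set_option linter.style.longLine false

/-!
Derivations of the ground field acting on `F[s]` (MP_b5a980_ag, A5).
-/

namespace B5a

universe u v w

open MvPowerSeries

variable {n : ℕ} {k : Type u} [Field k]

/-- the coefficientwise extension of a derivation of `k` to power series -/
noncomputable def cder (n : ℕ) {k : Type u} [Field k] (δ : Derivation ℤ k k) :
    Derivation ℤ (MvPowerSeries (Fin n) k) (MvPowerSeries (Fin n) k) where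
  toFun g := fun β => δ (coeff β g)
  map_add' := by
    intro a b
    funext β
    change δ (coeff β (a + b)) = δ (coeff β a) + δ (coeff β b)
    rw [map_add, map_add]
  map_smul' := by
    intro c a
    funext β
    change δ (coeff β (c • a)) = c • δ (coeff β a)
    rw [map_zsmul, map_zsmul]
  map_one_eq_zero' := by
    funext β
    change δ (coeff β (1 : MvPowerSeries (Fin n) k)) = 0
    rw [coeff_one]
    split_ifs
    · exact δ.map_one_eq_zero
    · exact map_zero δ
  leibniz' := by
    intro a b
    funext β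
    change δ (coeff β (a * b)) =
      coeff β (a * (show MvPowerSeries (Fin n) k from fun β => δ (coeff β b))) +
      coeff β (b * (show MvPowerSeries (Fin n) k from fun β => δ (coeff β a)))
    rw [mul_comm b, coeff_mul, coeff_mul, coeff_mul, map_sum, ← Finset.sum_add_distrib]
    refine Finset.sum_congr rfl fun p _ => ?_
    rw [Derivation.leibniz, smul_eq_mul, smul_eq_mul, mul_comm (coeff p.2 b)]
    rfl

theorem coeff_cder (δ : Derivation ℤ k k) (g : MvPowerSeries (Fin n) k) (β : Fin n →₀ ℕ) :
    coeff β (cder n δ g) = δ (coeff β g) := rfl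

theorem cder_pderiv (δ : Derivation ℤ k k) (i : Fin n) (g : MvPowerSeries (Fin n) k) :
    cder n δ (pderiv k i g) = pderiv k i (cder n δ g) := by
  ext β
  rw [coeff_cder, coeff_pderiv, coeff_pderiv, coeff_cder, Derivation.leibniz, map_add,
    Derivation.map_natCast, Derivation.map_one_eq_zero, add_zero, smul_zero, zero_add,
    smul_eq_mul, mul_comm]

theorem CoA_derAdd_mul {k : Type w} {A : Type u} [CommRing k] [CommRing A] [Algebra k A]
    (D : Derivation k A A) (a b : A) : derAdd D (a * b) = derAdd D a * b + a * derAdd D b := by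
  rw [derAdd_apply, derAdd_apply, derAdd_apply, Derivation.leibniz, smul_eq_mul, smul_eq_mul]
  ring

theorem CoA_frac_inc (δ : Derivation ℤ k k) (g : MvPowerSeries (Fin n) k) :
    fracDer (cder n δ) (inc n k g) = inc n k (cder n δ g) :=
  fracDer_algebraMap _ _

/-- the partial derivatives as derivations over `ℤ` have the same extension -/
theorem fracDer_restrict (i : Fin n) (x : FF n k) :
    fracDer ((pderiv k i).restrictScalars ℤ) x = dF n k i x := by
  have h := frac_leibniz_ext (R := MvPowerSeries (Fin n) k)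
    (derAdd (fracDer ((pderiv k i).restrictScalars ℤ))) (derAdd (dF n k i))
    (CoA_derAdd_mul _) (CoA_derAdd_mul _)
    (by
      intro r
      rw [derAdd_apply, derAdd_apply, dF_inc]
      exact fracDer_algebraMap _ _)
  exact DFunLike.congr_fun h x

theorem fracDer_cder_dF (δ : Derivation ℤ k k) (i : Fin n) (x : FF n k) :
    fracDer (cder n δ) (dF n k i x) = dF n k i (fracDer (cder n δ) x) := by
  rw [← fracDer_restrict, ← fracDer_restrict]
  refine fracDer_comm _ _ ?_ x
  intro r
  exact cder_pderiv δ i r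

/-- coefficientwise extension of a derivation of `k` to `k[s]` -/
noncomputable def pder (δ : Derivation ℤ k k) : Polynomial k →+ Polynomial k :=
  pmap (derAdd δ)

theorem coeff_pder (δ : Derivation ℤ k k) (b : Polynomial k) (i : ℕ) :
    (pder δ b).coeff i = δ (b.coeff i) := by
  simp [pder]

theorem pder_mul (δ : Derivation ℤ k k) (b c : Polynomial k) :
    pder δ (b * c) = pder δ b * c + b * pder δ c :=
  pmap_mul (derAdd δ) (CoA_derAdd_mul δ) b c

/-- The lift of the derivation to `F[s]`: `δ_M g = g^δ + s (f^δ / f) g`. -/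
noncomputable def dM (f : MvPowerSeries (Fin n) k) (δ : Derivation ℤ k k) : FS n k →+ FS n k :=
  pmap (derAdd (fracDer (cder n δ))) +
    AddMonoidHom.mulLeft (Polynomial.X * Polynomial.C (inc n k (cder n δ f) / inc n k f))

theorem dM_apply (f : MvPowerSeries (Fin n) k) (δ : Derivation ℤ k k) (p : FS n k) :
    dM f δ p = pmap (derAdd (fracDer (cder n δ))) p +
      (Polynomial.X * Polynomial.C (inc n k (cder n δ f) / inc n k f)) * p := rfl

section

variable (f : MvPowerSeries (Fin n) k) (hf : f ≠ 0) (δ : Derivation ℤ k k)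

theorem CoA_cder_C (c : k) :
    cder n δ (MvPowerSeries.C (σ := Fin n) (R := k) c) = MvPowerSeries.C (δ c) := by
  ext β
  rw [coeff_cder, coeff_C, coeff_C]
  split_ifs
  · rfl
  · exact map_zero δ

theorem CoA_algebraMap (c : k) :
    algebraMap k (FF n k) c = inc n k (MvPowerSeries.C (σ := Fin n) (R := k) c) :=
  IsScalarTower.algebraMap_apply k (MvPowerSeries (Fin n) k) (FF n k) c

theorem CoA_pmap_emb (b : Polynomial k) :
    pmap (derAdd (fracDer (cder n δ))) (emb n k b) = emb n k (pder δ b) := by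
  refine Polynomial.ext fun i => ?_
  unfold emb
  rw [coeff_pmap, Polynomial.coe_mapRingHom, Polynomial.coeff_map, Polynomial.coeff_map,
    coeff_pder, derAdd_apply, CoA_algebraMap, CoA_algebraMap, CoA_frac_inc, CoA_cder_C]

theorem dM_emb_mul (b : Polynomial k) (p : FS n k) :
    dM f δ (emb n k b * p) = emb n k (pder δ b) * p + emb n k b * dM f δ p := by
  rw [dM_apply, dM_apply, pmap_mul _ (CoA_derAdd_mul _), CoA_pmap_emb]
  ring

theorem CoA_smul_eq (r : MvPowerSeries (Fin n) k) (p : FS n k) :
    r • p = Polynomial.C (inc n k r) * p := by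
  refine Polynomial.ext fun i => ?_
  rw [Polynomial.coeff_smul, Polynomial.coeff_C_mul, Algebra.smul_def]

theorem dM_smul (r : MvPowerSeries (Fin n) k) (p : FS n k) :
    dM f δ (r • p) = cder n δ r • p + r • dM f δ p := by
  rw [CoA_smul_eq, CoA_smul_eq, CoA_smul_eq, dM_apply, dM_apply, pmap_mul _ (CoA_derAdd_mul _),
    pmap_C, derAdd_apply, CoA_frac_inc]
  ring

include hf

theorem CoA_sym (i : Fin n) :
    fracDer (cder n δ) (ld f i) = dF n k i (inc n k (cder n δ f) / inc n k f) := by
  have h := inc_ne_zero hf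
  have h1 : dF n k i (inc n k (cder n δ f) / inc n k f) =
      (dF n k i (inc n k (cder n δ f)) * inc n k f -
        inc n k (cder n δ f) * dF n k i (inc n k f)) / inc n k f ^ 2 :=
    fracDer_div _ _ _ h
  unfold ld
  rw [h1, fracDer_div _ _ _ h, CoA_frac_inc, CoA_frac_inc, dF_inc, dF_inc, cder_pderiv]
  ring

theorem dM_nab (i : Fin n) (p : FS n k) :
    dM f δ ((pconn f).nab i p) = (pconn f).nab i (dM f δ p) := by
  have h1 : pmap (derAdd (fracDer (cder n δ))) (pmap (derAdd (dF n k i)) p) =
      pmap (derAdd (dF n k i)) (pmap (derAdd (fracDer (cder n δ))) p) := by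
    refine Polynomial.ext fun j => ?_
    rw [coeff_pmap, coeff_pmap, coeff_pmap, coeff_pmap, derAdd_apply, derAdd_apply, derAdd_apply,
      derAdd_apply, fracDer_cder_dF]
  rw [dM_apply, dM_apply, pconn_nab, pconn_nab, map_add, map_add, h1,
    pmap_mul _ (CoA_derAdd_mul (fracDer (cder n δ))), pmap_mul _ (CoA_derAdd_mul (dF n k i)),
    pmap_X_mul, pmap_X_mul, pmap_C, pmap_C, derAdd_apply, derAdd_apply, CoA_sym f hf δ i]
  ring

theorem CoA_dM_fz (j : ℤ) : dM f δ (fz f j) =
    embR n k ((Polynomial.X + Polynomial.C (j : MvPowerSeries (Fin n) k)) *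
      Polynomial.C (cder n δ f)) * fz f (j - 1) := by
  have h := inc_ne_zero hf
  have h1 : inc n k f ^ j = inc n k f * inc n k f ^ (j - 1) := by
    rw [← zpow_one_add₀ h, add_sub_cancel]
  have h2 : inc n k (cder n δ f) / inc n k f * inc n k f ^ j =
      inc n k (cder n δ f) * inc n k f ^ (j - 1) := by
    rw [h1, ← mul_assoc, div_mul_cancel₀ _ h]
  have h3 : embR n k ((Polynomial.X + Polynomial.C (j : MvPowerSeries (Fin n) k)) *
      Polynomial.C (cder n δ f)) = (Polynomial.X + Polynomial.C (j : FF n k)) *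
        Polynomial.C (inc n k (cder n δ f)) := by
    unfold embR
    rw [map_mul, map_add, Polynomial.coe_mapRingHom, Polynomial.map_X, Polynomial.map_C,
      Polynomial.map_C, map_intCast]
  have h4 : Polynomial.X * Polynomial.C (inc n k (cder n δ f) / inc n k f) *
      Polynomial.C (inc n k f ^ j) = Polynomial.X * (Polynomial.C (inc n k (cder n δ f)) *
        Polynomial.C (inc n k f ^ (j - 1))) := by
    rw [mul_assoc, ← Polynomial.C_mul, h2, Polynomial.C_mul]
  unfold fz
  rw [dM_apply, pmap_C, derAdd_apply, fracDer_zpow _ _ h, CoA_frac_inc, h3, h4,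
    Polynomial.C_mul, Polynomial.C_mul]
  ring

theorem dM_fz (j : ℤ) : dM f δ (fz f j) ∈ ND f (j - 1) := by
  rw [CoA_dM_fz f hf δ j]
  exact embR_mul_mem_ND f (j - 1) _ (fz_mem_ND f (j - 1))

theorem CoA_pw (d : ℕ) : ∀ (γ : Fin n →₀ ℕ), γ.degree = d → ∀ p : FS n k,
    dM f δ ((pconn f).pw γ p) = (pconn f).pw γ (dM f δ p) := by
  induction d with
  | zero =>
    intro γ hγ p
    rw [Finsupp.degree_eq_zero_iff] at hγ
    rw [hγ, Conn.pw_zero, Conn.pw_zero]
  | succ d ih =>
    intro γ hγ p
    have h0 : γ ≠ 0 := by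
      rintro rfl
      rw [map_zero] at hγ
      exact absurd hγ (Nat.succ_ne_zero d).symm
    obtain ⟨i, γ', h1, h2⟩ := Conn.exists_single_of_ne_zero h0
    rw [h1, ← Conn.nab_pw, ← Conn.nab_pw, dM_nab f hf δ, ih γ' (by omega)]

omit hf in
theorem CoA_pw_mem (j : ℤ) (d : ℕ) : ∀ (γ : Fin n →₀ ℕ), γ.degree = d → ∀ p : FS n k,
    p ∈ ND f j → (pconn f).pw γ p ∈ ND f j := by
  induction d with
  | zero =>
    intro γ hγ p hp
    rw [Finsupp.degree_eq_zero_iff] at hγ
    rw [hγ, Conn.pw_zero]
    exact hp
  | succ d ih =>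
    intro γ hγ p hp
    have h0 : γ ≠ 0 := by
      rintro rfl
      rw [map_zero] at hγ
      exact absurd hγ (Nat.succ_ne_zero d).symm
    obtain ⟨i, γ', h1, h2⟩ := Conn.exists_single_of_ne_zero h0
    rw [h1, ← Conn.nab_pw]
    exact nab_mem_ND f j (ih γ' (by omega) p hp) i

omit hf in
theorem CoA_X_pow_mem (j : ℤ) (m : ℕ) (p : FS n k) (hp : p ∈ ND f j) :
    Polynomial.X ^ m * p ∈ ND f j := by
  induction m with
  | zero =>
    rw [pow_zero, one_mul]
    exact hp
  | succ m ih =>
    rw [pow_succ', mul_assoc]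
    exact X_mul_mem_ND f j ih

omit hf in
theorem CoA_X_pow (m : ℕ) (p : FS n k) :
    dM f δ (Polynomial.X ^ m * p) = Polynomial.X ^ m * dM f δ p := by
  have h1 : (Polynomial.X ^ m : FS n k) = emb n k (Polynomial.X ^ m) := by
    unfold emb
    rw [Polynomial.coe_mapRingHom, Polynomial.map_pow, Polynomial.map_X]
  have h2 : pder δ (Polynomial.X ^ m) = 0 := by
    refine Polynomial.ext fun i => ?_
    rw [coeff_pder, Polynomial.coeff_X_pow, Polynomial.coeff_zero]
    split_ifs
    · exact δ.map_one_eq_zero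
    · exact map_zero δ
  rw [h1, dM_emb_mul, h2, map_zero, zero_mul, zero_add]

theorem dM_mem_ND (j : ℤ) {p : FS n k} (hp : p ∈ ND f j) : dM f δ p ∈ ND f (j - 1) := by
  unfold ND at hp
  induction hp using Submodule.span_induction with
  | mem x hx =>
    obtain ⟨m, γ, rfl⟩ := hx
    rw [CoA_X_pow, CoA_pw f hf δ _ γ rfl]
    exact CoA_X_pow_mem f (j - 1) m _ (CoA_pw_mem f (j - 1) _ γ rfl _ (dM_fz f hf δ j))
  | zero =>
    rw [map_zero]
    exact Submodule.zero_mem _
  | add x y _ _ hx hy =>
    rw [map_add]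
    exact Submodule.add_mem _ hx hy
  | smul r x hx ih =>
    rw [dM_smul]
    refine Submodule.add_mem _ (Submodule.smul_mem _ _ ?_) (Submodule.smul_mem _ _ ih)
    have h := ND_anti f hf (j - 1)
    rw [sub_add_cancel] at h
    exact h hx

end

end B5a
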