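import Pool.Agent.H.MP_b5a980_ag.PMC

set_option autoImplicit false
set_option linter.unusedSectionVars false
set_option linter.style.longLine false

/-!
Bounded multiplicities of shifts (MP_b5a980_ag, A5).
-/

namespace B5a

universe u v w

open MvPowerSeries

variable {n : ℕ} {k : Type u} [Field k]

theorem CoB_comp_comp (q : Polynomial k) (s t : k) :
    (q.comp (Polynomial.X + Polynomial.C s)).comp (Polynomial.X + Polynomial.C t) =
      q.comp (Polynomial.X + Polynomial.C (s + t)) := by
  rw [Polynomial.comp_assoc]
  congr 1
  simp only [Polynomial.add_comp, Polynomial.X_comp, Polynomial.C_comp, Polynomial.C_add]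
  ring

theorem CoB_comp_zero (q : Polynomial k) :
    q.comp (Polynomial.X + Polynomial.C (0 : k)) = q := by
  simp

/-- An irreducible polynomial does not divide its shift by a nonzero number. -/
theorem CoB_not_dvd [CharZero k] {p : Polynomial k} (hp : Irreducible p) {t : k} (ht : t ≠ 0) :
    ¬ p ∣ p.comp (Polynomial.X + Polynomial.C t) := by
  intro h
  have hdeg : p.degree ≠ 0 := fun h0 => by
    have := Polynomial.degree_pos_of_irreducible hp
    rw [h0] at this
    exact lt_irrefl _ this
  obtain ⟨α, hα⟩ := IsAlgClosed.exists_aeval_eq_zero (AlgebraicClosure k) p hdeg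
  have key : ∀ m : ℕ, Polynomial.aeval (α + (m : AlgebraicClosure k) *
      algebraMap k (AlgebraicClosure k) t) p = 0 := by
    intro m
    induction m with
    | zero => simpa using hα
    | succ m ih =>
      obtain ⟨c, hc⟩ := h
      have h1 := congrArg (Polynomial.aeval (α + (m : AlgebraicClosure k) *
        algebraMap k (AlgebraicClosure k) t)) hc
      rw [map_mul, ih, zero_mul, Polynomial.aeval_comp] at h1
      have h2 : Polynomial.aeval (α + (m : AlgebraicClosure k) *
          algebraMap k (AlgebraicClosure k) t) (Polynomial.X + Polynomial.C t) =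
          α + ((m + 1 : ℕ) : AlgebraicClosure k) * algebraMap k (AlgebraicClosure k) t := by
        simp only [map_add, Polynomial.aeval_X, Polynomial.aeval_C]
        push_cast
        ring
      rw [h2] at h1
      exact h1
  have ht' : algebraMap k (AlgebraicClosure k) t ≠ 0 := by
    rw [Ne, _root_.map_eq_zero]
    exact ht
  have : CharZero (AlgebraicClosure k) :=
    charZero_of_injective_algebraMap (algebraMap k (AlgebraicClosure k)).injective
  have hinj : Function.Injective fun m : ℕ => α + (m : AlgebraicClosure k) *
      algebraMap k (AlgebraicClosure k) t := by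
    intro m m' hmm
    have h1 := add_left_cancel hmm
    exact Nat.cast_injective (mul_right_cancel₀ ht' h1)
  have hinf : (Set.range fun m : ℕ => α + (m : AlgebraicClosure k) *
      algebraMap k (AlgebraicClosure k) t).Infinite := Set.infinite_range_of_injective hinj
  refine hinf (((p.map (algebraMap k (AlgebraicClosure k))).rootSet_finite
    (AlgebraicClosure k)).subset ?_)
  rintro _ ⟨m, rfl⟩
  rw [Polynomial.mem_rootSet]
  refine ⟨?_, ?_⟩
  · rw [Ne, Polynomial.map_eq_zero]
    exact hp.ne_zero
  · rw [Polynomial.aeval_map_algebraMap]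
    exact key m

theorem CoB_irreducible {p : Polynomial k} (hp : Irreducible p) (t : k) :
    Irreducible (p.comp (Polynomial.X + Polynomial.C t)) := by
  have h := (MulEquiv.irreducible_iff (Polynomial.algEquivAevalXAddC t).toMulEquiv (x := p)).2 hp
  exact h

theorem CoB_coprime [CharZero k] {p : Polynomial k} (hp : Irreducible p) {s t : k} (hst : s ≠ t) :
    IsCoprime (p.comp (Polynomial.X + Polynomial.C s)) (p.comp (Polynomial.X + Polynomial.C t)) := by
  rw [(CoB_irreducible hp s).coprime_iff_not_dvd]
  intro h
  obtain ⟨c, hc⟩ := h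
  have h1 := congrArg (fun q : Polynomial k => q.comp (Polynomial.X + Polynomial.C (-s))) hc
  simp only [Polynomial.mul_comp, CoB_comp_comp] at h1
  rw [add_neg_cancel, CoB_comp_zero] at h1
  refine CoB_not_dvd hp (t := t + -s) ?_ ⟨_, h1⟩
  rw [← sub_eq_add_neg]
  exact sub_ne_zero.2 (Ne.symm hst)

section

variable (f : MvPowerSeries (Fin n) k) (hf : f ≠ 0) (δ : Derivation ℤ k k)

include hf

/-- `b(s+j) N_j` is contained in `N_(j+1)`.

Proof. `shift_mem` with `r = 1`, `a = 0`, `j := 1`, `i := j`: `emb (b(s+j)) * fz f j ∈ ND f (1+j)`. The set of `p` with `emb (b(s+j)) * p ∈ ND f (j+1)` is an `R`-submodule stable under `X` and under the connection (`pconn_nab_emb_mul`), so it contains `ND f j` (`ND_le`). -/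
theorem b_mul_mem {b : Polynomial k} (hb : emb n k b ∈ ND f 1) (j : ℤ) {p : FS n k}
    (hp : p ∈ ND f j) :
    emb n k (b.comp (Polynomial.X + Polynomial.C (j : k))) * p ∈ ND f (j + 1) := by
  set c : Polynomial k := b.comp (Polynomial.X + Polynomial.C (j : k)) with hc
  let N : Submodule (MvPowerSeries (Fin n) k) (FS n k) :=
    { carrier := {p | emb n k c * p ∈ ND f (j + 1)}
      add_mem' := by
        intro x y hx hy
        rw [Set.mem_ofPred_eq, mul_add]
        exact (ND f (j + 1)).add_mem hx hy
      zero_mem' := by
        rw [Set.mem_ofPred_eq, mul_zero]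
        exact (ND f (j + 1)).zero_mem
      smul_mem' := by
        intro r x hx
        rw [Set.mem_ofPred_eq, mul_smul_comm]
        exact (ND f (j + 1)).smul_mem r hx }
  have hle : ND f j ≤ N := by
    refine ND_le f j ?_ ?_ ?_
    · have h0 : emb n k b * ((1 : MvPowerSeries (Fin n) k) • fz f 0) ∈ ND f 1 := by
        have e : fz f 0 = 1 := by simp [fz]
        rw [e, one_smul, mul_one]
        exact hb
      have h1 := shift_mem f hf b 1 0 1 j h0
      rw [one_smul, zero_add, add_comm (1 : ℤ) j] at h1
      exact h1
    · intro x hx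
      show emb n k c * (Polynomial.X * x) ∈ ND f (j + 1)
      rw [mul_left_comm]
      exact X_mul_mem_ND f (j + 1) hx
    · intro i x hx
      show emb n k c * (pconn f).nab i x ∈ ND f (j + 1)
      rw [← pconn_nab_emb_mul]
      exact nab_mem_ND f (j + 1) hx i
  exact hle hp

omit hf in
/-- finiteness of the exponents: a monic irreducible `p` divides the products of shifts of `b` a
bounded number of times

Proof. `k[s]` is a unique factorisation domain. `p` divides `b(s+j)` iff `p(s-j)` divides `b`. For distinct integers `j` the polynomials `p(s-j)` are pairwise not associated (compare the coefficient of degree `deg p - 1`: it changes by `j (deg p) (leading coefficient)`, characteristic 0), so only finitely many `j` have `p(s-j)` dividing `b`. Let `E` be the sum over all integers `j` of the multiplicities `v_p(b(s+j))` (a finite sum), each factor being `b(s+j) = p^(v_j) c_j` with `c_j` prime to `p`. Then the product over any finite range is `c p^v` with `v ≤ E`, `c` prime to `p`, which divides `c p^E`. (Alternative: over a splitting field count roots.) -/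
theorem exists_bound [CharZero k] (b p : Polynomial k) (hb : b ≠ 0) (hp : Irreducible p) :
    ∃ E : ℕ, ∀ (a : ℤ) (N : ℕ), ∃ c : Polynomial k, IsCoprime c p ∧
      ∏ j ∈ Finset.range N, b.comp (Polynomial.X + Polynomial.C ((a + j : ℤ) : k)) ∣ c * p ^ E := by
  have hfac : ∀ i : ℤ, ∃ (v : ℕ) (c : Polynomial k), ¬ p ∣ c ∧
      b.comp (Polynomial.X + Polynomial.C (i : k)) = p ^ v * c := by
    intro i
    refine WfDvdMonoid.max_power_factor ?_ hp
    intro h
    have h1 := congrArg (fun q : Polynomial k => q.comp (Polynomial.X + Polynomial.C (-(i : k)))) h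
    simp only [CoB_comp_comp, add_neg_cancel, Polynomial.zero_comp] at h1
    rw [CoB_comp_zero] at h1
    exact hb h1
  choose v c hc1 hc2 using hfac
  have hdvd : ∀ i : ℤ, (p.comp (Polynomial.X + Polynomial.C (-(i : k)))) ^ v i ∣ b := by
    intro i
    have h1 := congrArg (fun q : Polynomial k => q.comp (Polynomial.X + Polynomial.C (-(i : k))))
      (hc2 i)
    simp only [CoB_comp_comp, add_neg_cancel, Polynomial.mul_comp, Polynomial.pow_comp] at h1
    rw [CoB_comp_zero] at h1
    exact ⟨_, h1⟩
  have hsum : ∀ S : Finset ℤ, ∑ i ∈ S, v i ≤ b.natDegree := by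
    intro S
    have h1 : ∏ i ∈ S, (p.comp (Polynomial.X + Polynomial.C (-(i : k)))) ^ v i ∣ b := by
      refine Finset.prod_dvd_of_coprime ?_ fun i _ => hdvd i
      intro i _ j _ hij
      refine IsCoprime.pow (CoB_coprime hp ?_)
      rw [Ne, neg_inj]
      exact_mod_cast hij
    have h2 := Polynomial.natDegree_le_of_dvd h1 hb
    rw [Polynomial.natDegree_prod _ _ (fun i _ => pow_ne_zero _ (CoB_irreducible hp _).ne_zero)]
      at h2
    refine le_trans (Finset.sum_le_sum fun i _ => ?_) h2
    rw [Polynomial.natDegree_pow, Polynomial.natDegree_comp, Polynomial.natDegree_X_add_C, mul_one]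
    exact Nat.le_mul_of_pos_right _ hp.natDegree_pos
  refine ⟨b.natDegree, fun a N => ⟨∏ j ∈ Finset.range N, c (a + j), ?_, ?_⟩⟩
  · refine IsCoprime.prod_left fun j _ => ?_
    exact ((hp.coprime_iff_not_dvd).2 (hc1 _)).symm
  · have h1 : ∏ j ∈ Finset.range N, b.comp (Polynomial.X + Polynomial.C ((a + j : ℤ) : k)) =
        p ^ (∑ j ∈ Finset.range N, v (a + j)) * ∏ j ∈ Finset.range N, c (a + j) := by
      rw [← Finset.prod_pow_eq_pow_sum, ← Finset.prod_mul_distrib]
      exact Finset.prod_congr rfl fun j _ => hc2 _
    rw [h1, mul_comm]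
    refine mul_dvd_mul_left _ (pow_dvd_pow _ ?_)
    have h2 := hsum ((Finset.range N).image fun j : ℕ => a + (j : ℤ))
    rw [Finset.sum_image] at h2
    · exact h2
    · intro x _ y _ hxy
      exact_mod_cast add_left_cancel hxy

end

end B5a
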