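import Pool.Agent.H.MP_b5a980_ag.CoA
import Pool.Agent.H.MP_b5a980_ag.CoB

set_option autoImplicit false
set_option linter.unusedSectionVars false
set_option linter.style.longLine false

/-!
Lowering the exponent with a derivation (MP_b5a980_ag, A5).
-/

namespace B5a

universe u v w

open MvPowerSeries

variable {n : ℕ} {k : Type u} [Field k]

theorem CoC_pder_pow (δ : Derivation ℤ k k) (p : Polynomial k) (m : ℕ) :
    pder δ (p ^ (m + 1)) = Polynomial.C ((m + 1 : ℕ) : k) * p ^ m * pder δ p := by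
  induction m with
  | zero => simp
  | succ m ih =>
    rw [pow_succ, pder_mul, ih]
    push_cast
    simp only [Polynomial.C_add, Polynomial.C_1]
    ring

theorem CoC_pder_degree (δ : Derivation ℤ k k) {p : Polynomial k} (hm : p.Monic) :
    (pder δ p).degree < p.degree := by
  rw [Polynomial.degree_eq_natDegree hm.ne_zero, Polynomial.degree_lt_iff_coeff_zero]
  intro m hmn
  rw [coeff_pder]
  rcases Nat.eq_or_lt_of_le hmn with h | h
  · rw [← h]
    have h1 : p.coeff p.natDegree = 1 := hm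
    rw [h1, Derivation.map_one_eq_zero]
  · rw [Polynomial.coeff_eq_zero_of_natDegree_lt h, map_zero]

theorem CoC_coprime_pder (δ : Derivation ℤ k k) {p : Polynomial k} (hp : Irreducible p)
    (hm : p.Monic) (hδ : pder δ p ≠ 0) : IsCoprime (pder δ p) p := by
  have h : IsCoprime p (pder δ p) := by
    rw [hp.coprime_iff_not_dvd]
    intro h
    exact not_lt_of_ge (Polynomial.degree_le_of_dvd h hδ) (CoC_pder_degree δ hm)
  exact h.symm

section

variable (f : MvPowerSeries (Fin n) k) (hf : f ≠ 0) (δ : Derivation ℤ k k)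

include hf

/-- first step: the exponent `E` is enough

Proof. If `A ≤ a`: `c = 1` (`ND_anti` iterated, `emb_mul_mem_ND`). Otherwise apply `b_mul_mem` successively for `j = a, .., A-1`: `emb (Π_{i<A-a} b(s+a+i)) * g ∈ ND f A`; by `exists_bound` this product divides `c p^E`; `emb_mul_mem_ND`. -/
theorem exists_E [CharZero k] {b : Polynomial k} (hb0 : b ≠ 0) (hb : emb n k b ∈ ND f 1)
    {p : Polynomial k} (hp : Irreducible p) :
    ∃ E : ℕ, ∀ (a A : ℤ) (g : FS n k), g ∈ ND f a →
      ∃ c : Polynomial k, IsCoprime c p ∧ emb n k (c * p ^ E) * g ∈ ND f A := by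
  obtain ⟨E, hE⟩ := exists_bound b p hb0 hp
  refine ⟨E, fun a A g hg => ?_⟩
  rcases le_or_gt A a with hA | hA
  · obtain ⟨m, hm⟩ := Int.eq_ofNat_of_zero_le (sub_nonneg.2 hA)
    have h1 : ∀ m : ℕ, ND f (A + m) ≤ ND f A := by
      intro m
      induction m with
      | zero => simp
      | succ m ih =>
        refine le_trans ?_ ih
        have := ND_anti f hf (A + m)
        rw [add_assoc] at this
        push_cast
        exact this
    refine ⟨1, isCoprime_one_left, ?_⟩
    refine emb_mul_mem_ND f A _ (h1 m ?_)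
    have h2 : A + (m : ℤ) = a := by omega
    rw [h2]
    exact hg
  · obtain ⟨m, hm⟩ := Int.eq_ofNat_of_zero_le (sub_nonneg.2 hA.le)
    have h1 : ∀ N : ℕ, emb n k (∏ j ∈ Finset.range N,
        b.comp (Polynomial.X + Polynomial.C ((a + j : ℤ) : k))) * g ∈ ND f (a + N) := by
      intro N
      induction N with
      | zero => simpa using hg
      | succ N ih =>
        have h2 := b_mul_mem f hf hb (a + N) ih
        rw [← mul_assoc, ← map_mul, mul_comm (b.comp _), ← Finset.prod_range_succ, add_assoc] at h2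
        push_cast at h2 ⊢
        exact h2
    obtain ⟨c, hc, d, hd⟩ := hE a m
    refine ⟨c, hc, ?_⟩
    have h3 := emb_mul_mem_ND f _ d (h1 m)
    rw [← mul_assoc, ← map_mul, mul_comm d, ← hd] at h3
    have h2 : a + (m : ℤ) = A := by omega
    rw [h2] at h3
    exact h3

/-- lowering the exponent with the derivation

Proof. Let `g ∈ ND f a`. Take `c` prime to `p` with `emb (c p^(E+1)) g ∈ ND f (A+1)`. Apply `δ_M` (`dM_mem_ND`, `dM_emb_mul`): `emb (δ(c) p^(E+1) + (E+1) c p^E δ(p)) g + emb (c p^(E+1)) δ_M g ∈ ND f A`. As `δ_M g ∈ ND f (a-1)`, there is `c'` prime to `p` with `emb (c' p^(E+1)) δ_M g ∈ ND f A`. Multiply by `c'`: `emb (p^E c'') g ∈ ND f A` with `c'' = c' (δ(c) p + (E+1) c δ(p))`. `c''` is prime to `p`: `p` is monic, so `δ(p)` has smaller degree and is nonzero, hence prime to the irreducible `p`; `E + 1` is nonzero in `k`. -/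
theorem lower_E [CharZero k] {p : Polynomial k} (hp : Irreducible p) (hm : p.Monic)
    (hδ : pder δ p ≠ 0) (E : ℕ)
    (h : ∀ (a A : ℤ) (g : FS n k), g ∈ ND f a →
      ∃ c : Polynomial k, IsCoprime c p ∧ emb n k (c * p ^ (E + 1)) * g ∈ ND f A) :
    ∀ (a A : ℤ) (g : FS n k), g ∈ ND f a →
      ∃ c : Polynomial k, IsCoprime c p ∧ emb n k (c * p ^ E) * g ∈ ND f A := by
  intro a A g hg
  obtain ⟨c, hc, hcg⟩ := h a (A + 1) g hg
  have h1 := dM_mem_ND f hf δ (A + 1) hcg
  rw [dM_emb_mul, add_sub_cancel_right] at h1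
  have h2 := dM_mem_ND f hf δ a hg
  obtain ⟨c', hc', hcg'⟩ := h (a - 1) A _ h2
  have h3 := emb_mul_mem_ND f A c' h1
  have h4 := emb_mul_mem_ND f A c hcg'
  have h5 := (ND f A).sub_mem h3 h4
  have h6 : emb n k c' * (emb n k (pder δ (c * p ^ (E + 1))) * g +
      emb n k (c * p ^ (E + 1)) * dM f δ g) - emb n k c * (emb n k (c' * p ^ (E + 1)) * dM f δ g) =
      emb n k (c' * pder δ (c * p ^ (E + 1))) * g := by
    simp only [map_mul]
    ring
  rw [h6] at h5
  have h7 : c' * pder δ (c * p ^ (E + 1)) =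
      c' * (pder δ c * p + Polynomial.C ((E + 1 : ℕ) : k) * c * pder δ p) * p ^ E := by
    rw [pder_mul, CoC_pder_pow]
    ring
  rw [h7] at h5
  refine ⟨_, ?_, h5⟩
  refine IsCoprime.mul_left hc' ?_
  have h8 : IsCoprime (Polynomial.C ((E + 1 : ℕ) : k) * c * pder δ p) p := by
    refine IsCoprime.mul_left (IsCoprime.mul_left ?_ hc) (CoC_coprime_pder δ hp hm hδ)
    have h9 : IsUnit (Polynomial.C ((E + 1 : ℕ) : k)) := by
      rw [Polynomial.isUnit_C, isUnit_iff_ne_zero]
      exact_mod_cast Nat.succ_ne_zero E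
    obtain ⟨u, hu⟩ := h9.exists_left_inv
    exact ⟨u, 0, by rw [hu]; ring⟩
  exact IsCoprime.mul_add_right_left h8 _

end

end B5a
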