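import Pool.Agent.H.MP_b5a980_ag.PMB

set_option autoImplicit false
set_option linter.unusedSectionVars false
set_option linter.style.longLine false

/-!
The functional equation and its specialisation (MP_b5a980_ag, A7).
-/

namespace B5a

universe u v w

open MvPowerSeries

variable {n : ℕ} {k : Type u} [Field k]

/-- The functional equation: some nonzero `b(s)` multiplies `f^s` into `D[s] f^(s+1)`. -/
def HasBS (n : ℕ) (k : Type u) [Field k] (f : MvPowerSeries (Fin n) k) : Prop :=
  ∃ b : Polynomial k, b ≠ 0 ∧ emb n k b ∈ ND f 1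

/-- `HasBS` for units

Proof. `b = 1`: `1 = f⁻¹ • fz f 1` (`f⁻¹` in `R`), `fz f 1 = C f`. -/
theorem hasBS_of_isUnit {f : MvPowerSeries (Fin n) k} (hf : IsUnit f) : HasBS n k f := by
  obtain ⟨u, rfl⟩ := hf
  refine ⟨1, one_ne_zero, ?_⟩
  have h := embR_mul_mem_ND (u : MvPowerSeries (Fin n) k) 1
    (Polynomial.C ((u⁻¹ : (MvPowerSeries (Fin n) k)ˣ) : MvPowerSeries (Fin n) k))
    (fz_mem_ND (u : MvPowerSeries (Fin n) k) 1)
  have e : embR n k (Polynomial.C ((u⁻¹ : (MvPowerSeries (Fin n) k)ˣ) :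
      MvPowerSeries (Fin n) k)) * fz (u : MvPowerSeries (Fin n) k) 1 = emb n k 1 := by
    rw [map_one, embR, fz, Polynomial.coe_mapRingHom, Polynomial.map_C, ← Polynomial.C_mul,
      zpow_one, ← map_mul, Units.inv_mul, map_one, Polynomial.C_1]
  rw [← e]
  exact h

theorem PMD_pmap_monomial {A : Type u} [Semiring A] (φ : A →+ A) (m : ℕ) (a : A) :
    pmap φ (Polynomial.monomial m a) = Polynomial.monomial m (φ a) := by
  ext j
  rw [coeff_pmap, Polynomial.coeff_monomial, Polynomial.coeff_monomial]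
  split_ifs
  · rfl
  · exact map_zero φ

theorem PMD_eval_pmap (i : Fin n) (c : k) (p : FS n k) :
    (pmap (derAdd (dF n k i)) p).eval (algebraMap k (FF n k) c) =
      dF n k i (p.eval (algebraMap k (FF n k) c)) := by
  induction p using Polynomial.induction_on' with
  | add p q hp hq => rw [map_add, Polynomial.eval_add, Polynomial.eval_add, hp, hq, map_add]
  | monomial m a =>
    rw [PMD_pmap_monomial, Polynomial.eval_monomial, Polynomial.eval_monomial, derAdd_apply,
      Derivation.leibniz, ← map_pow, Derivation.map_algebraMap, smul_zero, zero_add, smul_eq_mul,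
      mul_comm]

/-- evaluation at `s = c` is a map of connections

Proof. Evaluation at `s = c` of `pmap (dF i) p` is `dF i` of the evaluation since `c` is a constant (`Polynomial.induction_on'`). -/
theorem eval_pconn_nab (f : MvPowerSeries (Fin n) k) (c : k) (i : Fin n) (p : FS n k) :
    ((pconn f).nab i p).eval (algebraMap k (FF n k) c) =
      (twist f c).nab i (p.eval (algebraMap k (FF n k) c)) := by
  rw [pconn_nab, twist_nab, Polynomial.eval_add, PMD_eval_pmap, Polynomial.eval_mul,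
    Polynomial.eval_mul, Polynomial.eval_X, Polynomial.eval_C, Algebra.smul_def, ld]

theorem eval_pconn_pw (f : MvPowerSeries (Fin n) k) (c : k) (γ : Fin n →₀ ℕ) (p : FS n k) :
    ((pconn f).pw γ p).eval (algebraMap k (FF n k) c) =
      (twist f c).pw γ (p.eval (algebraMap k (FF n k) c)) := by
  induction hd : γ.degree generalizing γ with
  | zero =>
    have h0 : γ = 0 := by rwa [Finsupp.degree_eq_zero_iff] at hd
    subst h0
    rw [Conn.pw_zero, Conn.pw_zero]
  | succ d ih =>
    have h0 : γ ≠ 0 := by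
      rintro rfl
      simp at hd
    obtain ⟨i, γ', h1, h2⟩ := Conn.exists_single_of_ne_zero h0
    rw [h1, ← Conn.nab_pw, ← Conn.nab_pw, eval_pconn_nab, ih γ' (by omega)]

theorem PMD_twist_nab (f : MvPowerSeries (Fin n) k) (hf : f ≠ 0) (c : ℤ) (i : Fin n)
    (g : FF n k) : inc n k f ^ c * (twist f (c : k)).nab i g =
      (std n k).nab i (inc n k f ^ c * g) := by
  have h := inc_ne_zero hf
  have h1 : dF n k i (inc n k f ^ c) = (c : FF n k) * inc n k f ^ (c - 1) *
      inc n k (pderiv k i f) := by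
    rw [dF, fracDer_zpow _ _ h, fracDer_algebraMap]
  rw [twist_nab, std_nab, Derivation.leibniz, smul_eq_mul, smul_eq_mul, h1, Algebra.smul_def,
    map_intCast, zpow_sub_one₀ h]
  field_simp

/-- multiplication by `f^c` for an integer `c`

Proof. `f^c (d_i g + c (f_i/f) g) = d_i (f^c g)`; induction on the degree of `γ`. -/
theorem twist_pw_int (f : MvPowerSeries (Fin n) k) (hf : f ≠ 0) (c : ℤ) (γ : Fin n →₀ ℕ)
    (g : FF n k) : inc n k f ^ c * (twist f (c : k)).pw γ g = (std n k).pw γ (inc n k f ^ c * g) := by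
  induction hd : γ.degree generalizing γ with
  | zero =>
    have h0 : γ = 0 := by rwa [Finsupp.degree_eq_zero_iff] at hd
    subst h0
    rw [Conn.pw_zero, Conn.pw_zero]
  | succ d ih =>
    have h0 : γ ≠ 0 := by
      rintro rfl
      simp at hd
    obtain ⟨i, γ', h1, h2⟩ := Conn.exists_single_of_ne_zero h0
    rw [h1, ← Conn.nab_pw, ← Conn.nab_pw, PMD_twist_nab f hf, ih γ' (by omega)]

theorem PMD_roots [CharZero k] {b : Polynomial k} (hb : b ≠ 0) :
    ∃ m : ℕ, ∀ i : ℕ, b.eval (((-((m : ℤ) + i + 1) : ℤ) : k)) ≠ 0 := by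
  have hinj : Function.Injective fun j : ℕ => (((-(j : ℤ) : ℤ) : k)) := by
    intro j j' h
    have h' : (((-(j : ℤ) : ℤ) : k)) = ((-(j' : ℤ) : ℤ) : k) := h
    have := Int.cast_injective h'
    omega
  have hfin : {j : ℕ | b.eval (((-(j : ℤ) : ℤ) : k)) = 0}.Finite := by
    refine ((b.rootSet_finite k).preimage (f := fun j : ℕ => (((-(j : ℤ) : ℤ) : k)))
      hinj.injOn).subset fun j hj => ?_
    rw [Set.mem_preimage, Polynomial.mem_rootSet]
    exact ⟨hb, by rw [Polynomial.coe_aeval_eq_eval]; exact hj⟩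
  obtain ⟨m, hm⟩ := hfin.bddAbove
  refine ⟨m, fun i h => ?_⟩
  have h1 : m + i + 1 ∈ {j : ℕ | b.eval (((-(j : ℤ) : ℤ) : k)) = 0} := by
    rw [Set.mem_ofPred_eq]
    push_cast at h ⊢
    exact h
  have := hm h1
  omega

/-- Specialisation (A7).

Proof. Let `b ≠ 0`, `emb b = Σ_{|γ| ≤ r} embR (a_γ) * pw γ (fz f 1)` (`exists_sum_of_mem_ND`). Choose `m` with `b(-(m+i+1)) ≠ 0` for all naturals `i` (finitely many roots, characteristic 0). Evaluate at `c = -(m+i+1)` (`eval_pconn_pw`): `b(c) = Σ a_γ(c) (twist f c).pw γ f` with `a_γ(c)` in `R`. Multiply by `f^c` and use `twist_pw_int`: `b(c) f^c = Σ a_γ(c) (std n k).pw γ (f^(c+1))`. Divide by the nonzero constant `b(c)`. -/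
theorem HasBS.final [CharZero k] {f : MvPowerSeries (Fin n) k} (hf : f ≠ 0) (h : HasBS n k f) :
    ∃ m r : ℕ, ∀ i : ℕ, inc n k f ^ (-((m : ℤ) + i + 1)) ∈
      (std n k).Fil r (inc n k f ^ (-((m : ℤ) + i))) := by
  obtain ⟨b, hb, hmem⟩ := h
  obtain ⟨r, a, hsum⟩ := exists_sum_of_mem_ND f 1 hmem
  obtain ⟨m, hm⟩ := PMD_roots hb
  refine ⟨m, r, fun i => ?_⟩
  have hF := inc_ne_zero hf
  set c : ℤ := -((m : ℤ) + i + 1) with hc
  set v : k := b.eval ((c : ℤ) : k) with hv
  have hv0 : v ≠ 0 := hm i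
  have halg : ∀ x : k, algebraMap k (FF n k) x = inc n k (MvPowerSeries.C x) := by
    intro x
    rw [IsScalarTower.algebraMap_apply k (MvPowerSeries (Fin n) k) (FF n k)]
    rfl
  have h1 := congrArg (Polynomial.eval (algebraMap k (FF n k) ((c : ℤ) : k))) hsum
  rw [Polynomial.eval_finsetSum] at h1
  have h2 : (emb n k b).eval (algebraMap k (FF n k) ((c : ℤ) : k)) = algebraMap k (FF n k) v := by
    rw [emb, Polynomial.coe_mapRingHom, Polynomial.eval_map_algebraMap,
      Polynomial.aeval_algebraMap_apply]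
    rfl
  have h3 : ∀ γ, (embR n k (a γ) * (pconn f).pw γ (fz f 1)).eval
      (algebraMap k (FF n k) ((c : ℤ) : k)) =
      inc n k ((a γ).eval (MvPowerSeries.C ((c : ℤ) : k))) *
        (twist f ((c : ℤ) : k)).pw γ (inc n k f) := by
    intro γ
    rw [Polynomial.eval_mul, eval_pconn_pw, fz, Polynomial.eval_C, zpow_one, embR,
      Polynomial.coe_mapRingHom, halg, Polynomial.eval_map, Polynomial.eval₂_at_apply]
  rw [h2, Finset.sum_congr rfl fun γ _ => h3 γ] at h1
  have h4 : inc n k f ^ c * algebraMap k (FF n k) v =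
      ∑ γ ∈ (Finset.range (r + 1)).biUnion fun d => Finset.finsuppAntidiag Finset.univ d,
        (a γ).eval (MvPowerSeries.C ((c : ℤ) : k)) • (std n k).pw γ (inc n k f ^ (c + 1)) := by
    rw [h1, Finset.mul_sum]
    refine Finset.sum_congr rfl fun γ _ => ?_
    rw [mul_left_comm, twist_pw_int f hf, zpow_add_one₀ hF, Algebra.smul_def]
  have h5 : inc n k f ^ c = (MvPowerSeries.C v⁻¹ : MvPowerSeries (Fin n) k) •
      (inc n k f ^ c * algebraMap k (FF n k) v) := by
    rw [Algebra.smul_def, mul_left_comm]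
    have : algebraMap (MvPowerSeries (Fin n) k) (FF n k) (MvPowerSeries.C v⁻¹) *
        algebraMap k (FF n k) v = 1 := by
      rw [halg v, ← map_mul, ← map_mul, inv_mul_cancel₀ hv0, map_one, map_one]
    rw [this, mul_one]
  have h6 : c + 1 = -((m : ℤ) + i) := by rw [hc]; ring
  rw [h5, h4, h6]
  refine Submodule.smul_mem _ _ (Submodule.sum_mem _ fun γ hγ => ?_)
  refine Submodule.smul_mem _ _ (Submodule.subset_span ⟨γ, ?_, rfl⟩)
  rw [Finset.mem_biUnion] at hγ
  obtain ⟨d, hd, hγd⟩ := hγ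
  rw [Finset.mem_finsuppAntidiag] at hγd
  rw [Finsupp.degree_eq_sum, hγd.1]
  rw [Finset.mem_range] at hd
  omega

end B5a
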