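import Pool.Agent.H.MP_b5a980_ag.CoC
import Pool.Agent.H.MP_b5a980_ag.PMD

set_option autoImplicit false
set_option linter.unusedSectionVars false
set_option linter.style.longLine false

/-!
The constants lemma (MP_b5a980_ag, A5).
-/

namespace B5a

universe u v w

open MvPowerSeries

variable {n : ℕ} {k : Type u} [Field k]

section

variable (f : MvPowerSeries (Fin n) k) (hf : f ≠ 0) (δ : Derivation ℤ k k)

omit hf in
theorem CoD_pder_one : pder δ (1 : Polynomial k) = 0 := by
  have h := pder_mul δ (1 : Polynomial k) 1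
  rw [mul_one, mul_one, one_mul] at h
  exact (add_eq_left.1 h.symm)

include hf

theorem CoD_factor [CharZero k] {b : Polynomial k} (hb0 : b.Monic) (hb : emb n k b ∈ ND f 1)
    (hmin : ∀ c : Polynomial k, emb n k c ∈ ND f 1 → b ∣ c) {p : Polynomial k}
    (hp : Irreducible p) (hm : p.Monic) (hpb : p ∣ b) : pder δ p = 0 := by
  by_contra hδ
  obtain ⟨E, hE⟩ := exists_E f hf hb0.ne_zero hb hp
  have key : ∀ E : ℕ, (∀ (a A : ℤ) (g : FS n k), g ∈ ND f a →
      ∃ c : Polynomial k, IsCoprime c p ∧ emb n k (c * p ^ E) * g ∈ ND f A) →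
      (∀ (a A : ℤ) (g : FS n k), g ∈ ND f a →
        ∃ c : Polynomial k, IsCoprime c p ∧ emb n k (c * p ^ 0) * g ∈ ND f A) := by
    intro E
    induction E with
    | zero => exact fun h => h
    | succ E ih => exact fun h => ih (lower_E f hf δ hp hm hδ E h)
  obtain ⟨c, hc, hcm⟩ := key E hE 0 1 (fz f 0) (fz_mem_ND f 0)
  have h1 : fz f 0 = 1 := by
    rw [fz, zpow_zero, Polynomial.C_1]
  rw [pow_zero, mul_one, h1, mul_one] at hcm
  have h2 : p ∣ c := hpb.trans (hmin c hcm)
  exact hp.not_isUnit (hc.isUnit_of_dvd' h2 dvd_rfl)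

/-- The constants lemma (A5).

Proof. Every monic irreducible factor `p` of `b` has `pder δ p = 0`: otherwise by `exists_E` and `lower_E` (induction down to 0) applied to `g = fz f 0 = 1 ∈ ND f 0`, `A = 1`, there is `c` prime to `p` with `emb c ∈ ND f 1`, so `b ∣ c` by `hmin`, so `p ∣ c`: contradiction. `b` is the product of its monic irreducible factors (`UniqueFactorizationMonoid.normalizedFactors`, `Polynomial.Monic`), and `pder_mul` shows `pder δ b = 0` (the set of polynomials killed by `pder δ` is closed under products). -/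
theorem constants [CharZero k] {b : Polynomial k} (hb0 : b.Monic) (hb : emb n k b ∈ ND f 1)
    (hmin : ∀ c : Polynomial k, emb n k c ∈ ND f 1 → b ∣ c) (i : ℕ) : δ (b.coeff i) = 0 := by
  classical
  have h1 : (UniqueFactorizationMonoid.normalizedFactors b).prod = b := by
    rw [UniqueFactorizationMonoid.prod_normalizedFactors_eq hb0.ne_zero, hb0.normalize_eq_self]
  have h2 : ∀ q ∈ UniqueFactorizationMonoid.normalizedFactors b, pder δ q = 0 := by
    intro q hq
    have hq1 := UniqueFactorizationMonoid.irreducible_of_normalized_factor q hq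
    refine CoD_factor f hf δ hb0 hb hmin hq1 ?_
      (UniqueFactorizationMonoid.dvd_of_mem_normalizedFactors hq)
    rw [← UniqueFactorizationMonoid.normalize_normalized_factor q hq]
    exact Polynomial.monic_normalize hq1.ne_zero
  have h3 : ∀ s : Multiset (Polynomial k), (∀ q ∈ s, pder δ q = 0) → pder δ s.prod = 0 := by
    intro s
    induction s using Multiset.induction_on with
    | empty =>
      intro _
      rw [Multiset.prod_zero]
      exact CoD_pder_one δ
    | cons q s ih =>
      intro h
      rw [Multiset.prod_cons, pder_mul, h q (Multiset.mem_cons_self q s),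
        ih fun r hr => h r (Multiset.mem_cons_of_mem hr), zero_mul, mul_zero, add_zero]
  have h4 := h3 _ h2
  rw [h1] at h4
  rw [← coeff_pder, h4, Polynomial.coeff_zero]

omit hf δ in
/-- existence of a minimal `b`-function

Proof. The set `{c | emb c ∈ ND f 1}` is an ideal of `k[s]` (`emb_mul_mem_ND`), nonzero; take its monic generator (principal ideal ring; normalise by the leading coefficient). -/
theorem exists_min (h : HasBS n k f) :
    ∃ b : Polynomial k, b.Monic ∧ emb n k b ∈ ND f 1 ∧
      ∀ c : Polynomial k, emb n k c ∈ ND f 1 → b ∣ c := by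
  obtain ⟨b₀, hb₀, hb₀m⟩ := h
  let I : Ideal (Polynomial k) :=
    { carrier := {c | emb n k c ∈ ND f 1}
      add_mem' := by
        intro a c ha hc
        change emb n k (a + c) ∈ ND f 1
        rw [map_add]
        exact Submodule.add_mem _ ha hc
      zero_mem' := by
        change emb n k 0 ∈ ND f 1
        rw [map_zero]
        exact Submodule.zero_mem _
      smul_mem' := by
        intro a c hc
        change emb n k (a * c) ∈ ND f 1
        rw [map_mul]
        exact emb_mul_mem_ND f 1 a hc }
  have hI : ∀ c, c ∈ I ↔ emb n k c ∈ ND f 1 := fun c => Iff.rfl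
  obtain ⟨g, hg⟩ := (IsPrincipalIdealRing.principal I).principal
  have hg' : ∀ c, emb n k c ∈ ND f 1 ↔ g ∣ c := by
    intro c
    rw [← hI, hg]
    exact Ideal.mem_span_singleton
  have hg0 : g ≠ 0 := by
    rintro rfl
    exact hb₀ (zero_dvd_iff.1 ((hg' b₀).1 hb₀m))
  have hlc : g.leadingCoeff ≠ 0 := Polynomial.leadingCoeff_ne_zero.2 hg0
  refine ⟨g * Polynomial.C g.leadingCoeff⁻¹, Polynomial.monic_mul_leadingCoeff_inv hg0,
    (hg' _).2 (dvd_mul_right _ _), fun c hc => ?_⟩
  obtain ⟨q, rfl⟩ := (hg' c).1 hc
  refine ⟨Polynomial.C g.leadingCoeff * q, ?_⟩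
  rw [mul_assoc, ← mul_assoc (Polynomial.C g.leadingCoeff⁻¹), ← Polynomial.C_mul,
    inv_mul_cancel₀ hlc, Polynomial.C_1, one_mul]

end

end B5a
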