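import Pool.Agent.H.MP_b5a980_ag.ConnB
import Pool.Agent.H.MP_b5a980_ag.ConnD

set_option autoImplicit false
set_option linter.unusedSectionVars false
set_option linter.style.longLine false

/-!
The operator of the b-function on the filtration (MP_b5a980_ag).
-/

namespace B5a

universe u v w

open MvPowerSeries

variable {n : ℕ} {K : Type u} [Field K] {M : Type v} [AddCommGroup M]
  [Module (MvPowerSeries (Fin n) K) M] [Module K M] [IsScalarTower K (MvPowerSeries (Fin n) K) M]

namespace Conn

variable (C : Conn n K M)

theorem ConnE_smul_comm (r : MvPowerSeries (Fin n) K) (c : K) (m : M) :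
    c • (r • m) = r • (c • m) :=
  ((mulR M r).map_smul c m).symm

/-- the Euler field applied to a power series -/
noncomputable def ConnE_rho (r : MvPowerSeries (Fin n) K) : MvPowerSeries (Fin n) K :=
  ∑ l, (X l : MvPowerSeries (Fin n) K) * pderiv K l r

theorem ConnE_rho_mem (r : MvPowerSeries (Fin n) K) : ConnE_rho r ∈ mI n K 1 := by
  unfold ConnE_rho
  exact Ideal.sum_mem _ fun l _ => Ideal.mul_mem_right _ _ (X_mem_mI l)

theorem ConnE_theta_smul (r : MvPowerSeries (Fin n) K) (m : M) :
    C.theta (r • m) = r • C.theta m + ConnE_rho r • m := by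
  rw [C.theta_apply, C.theta_apply, ConnE_rho, Finset.sum_smul, Finset.smul_sum,
    ← Finset.sum_add_distrib]
  refine Finset.sum_congr rfl fun l _ => ?_
  rw [C.leib, smul_add, smul_smul, smul_smul, smul_smul, add_comm, mul_comm r]

theorem ConnE_aeval_smul {W : ℤ → Submodule (MvPowerSeries (Fin n) K) M} (h : Compat C W)
    (b : Polynomial K) {i : ℤ} (r : MvPowerSeries (Fin n) K) {m : M} (hm : m ∈ W i) :
    Polynomial.aeval C.theta b (r • m) - r • Polynomial.aeval C.theta b m ∈ W (i + 1) := by
  induction b using Polynomial.induction_on generalizing m with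
  | C a =>
    rw [Polynomial.aeval_C, Module.algebraMap_end_apply, Module.algebraMap_end_apply,
      ConnE_smul_comm, sub_self]
    exact Submodule.zero_mem _
  | add p q hp hq =>
    have h1 := Submodule.add_mem _ (hp hm) (hq hm)
    rw [map_add, LinearMap.add_apply, LinearMap.add_apply, smul_add]
    convert h1 using 1
    abel
  | monomial k a ih =>
    have e : Polynomial.C a * Polynomial.X ^ (k + 1) =
        (Polynomial.C a * Polynomial.X ^ k) * Polynomial.X := by ring
    rw [e, map_mul, Polynomial.aeval_X, Module.End.mul_apply, Module.End.mul_apply,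
      ConnE_theta_smul, map_add]
    have h1 := ih (h.theta_mem hm)
    have h2 : ConnE_rho r • m ∈ W (i + 1) := h.mI_mem (e := 1) (ConnE_rho_mem r) hm
    have h3 := h.aeval_mem (Polynomial.C a * Polynomial.X ^ k) h2
    have h4 := Submodule.add_mem _ h1 h3
    convert h4 using 1
    abel

/-- The `b`-function argument: if `b(theta) u` lies in `V^1(u)` then `b(theta - i) V^i` lies in
`V^(i+1)`. -/
theorem aeval_V_mem {u : M} {b : Polynomial K} (hb : Polynomial.aeval C.theta b u ∈ C.V u 1)
    {i : ℤ} {m : M} (hm : m ∈ C.V u i) :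
    Polynomial.aeval C.theta (b.comp (Polynomial.X - Polynomial.C (i : K))) m ∈ C.V u (i + 1) := by
  have hV := C.V_compat u
  have hm' : m ∈ Submodule.span (MvPowerSeries (Fin n) K)
      {m | ∃ β γ : Fin n →₀ ℕ, i ≤ (β.degree : ℤ) - γ.degree ∧
        m = (monomial β 1 : MvPowerSeries (Fin n) K) • C.pw γ u} := hm
  refine Submodule.span_induction (p := fun m _ =>
    Polynomial.aeval C.theta (b.comp (Polynomial.X - Polynomial.C (i : K))) m ∈ C.V u (i + 1))
    ?_ ?_ ?_ ?_ hm'
  · rintro _ ⟨β, γ, hβγ, rfl⟩
    rcases eq_or_lt_of_le hβγ with h1 | h1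
    · rw [C.aeval_theta_monomial_smul, C.aeval_theta_pw]
      have hb2 : ((b.comp (Polynomial.X - Polynomial.C (i : K))).comp
          (Polynomial.X + Polynomial.C (β.degree : K))).comp
          (Polynomial.X - Polynomial.C (γ.degree : K)) = b := by
        rw [Polynomial.comp_assoc, Polynomial.comp_assoc]
        have h2 : (i : K) = (β.degree : K) - (γ.degree : K) := by
          rw [h1]; push_cast; ring
        have h3 : (Polynomial.X - Polynomial.C (i : K)).comp
            ((Polynomial.X + Polynomial.C (β.degree : K)).comp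
              (Polynomial.X - Polynomial.C (γ.degree : K))) = Polynomial.X := by
          simp only [Polynomial.sub_comp, Polynomial.add_comp, Polynomial.X_comp,
            Polynomial.C_comp]
          rw [h2, Polynomial.C_sub]
          ring
        rw [h3, Polynomial.comp_X]
      rw [hb2]
      have h4 := hV.mI_mem (e := β.degree) (monomial_mem_mI le_rfl (1 : K))
        (hV.pw_mem hb γ)
      have h5 : (1 : ℤ) - γ.degree + β.degree = i + 1 := by omega
      rwa [h5] at h4
    · refine hV.aeval_mem _ ?_
      exact Submodule.subset_span ⟨β, γ, h1, rfl⟩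
  · rw [map_zero]
    exact Submodule.zero_mem _
  · intro x y _ _ hx hy
    rw [map_add]
    exact Submodule.add_mem _ hx hy
  · intro r x hx hxm
    have h1 := C.ConnE_aeval_smul hV (b.comp (Polynomial.X - Polynomial.C (i : K))) r
      (m := x) (i := i) hx
    have h2 := Submodule.add_mem _ h1 (Submodule.smul_mem _ r hxm)
    rwa [sub_add_cancel] at h2

end Conn

end B5a
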