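import Mathlib

set_option autoImplicit false
set_option linter.unusedSectionVars false
set_option linter.style.longLine false

/-!
Modules over `K[[x_1..x_n]]` with commuting connection operators: definitions (MP_b5a980_ag).
-/

namespace B5a

universe u v w

open MvPowerSeries

/-- Commuting connection operators on a module over `K[[x_1..x_n]]`. -/
structure Conn (n : ℕ) (K : Type u) [Field K] (M : Type v) [AddCommGroup M]
    [Module (MvPowerSeries (Fin n) K) M] [Module K M] where
  /-- the operators -/
  nab : Fin n → (M →ₗ[K] M)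
  leib : ∀ (i : Fin n) (r : MvPowerSeries (Fin n) K) (m : M),
    nab i (r • m) = pderiv K i r • m + r • nab i m
  comm : ∀ (i j : Fin n) (m : M), nab i (nab j m) = nab j (nab i m)

variable {n : ℕ} {K : Type u} [Field K] {M : Type v} [AddCommGroup M]
  [Module (MvPowerSeries (Fin n) K) M] [Module K M] [IsScalarTower K (MvPowerSeries (Fin n) K) M]

/-- multiplication by a power series as a `K`-linear map -/
noncomputable def mulR (M : Type v) [AddCommGroup M] [Module (MvPowerSeries (Fin n) K) M] [Module K M]
    [IsScalarTower K (MvPowerSeries (Fin n) K) M] (r : MvPowerSeries (Fin n) K) : M →ₗ[K] M where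
  toFun m := r • m
  map_add' := smul_add r
  map_smul' := by
    intro c m
    have h1 : (c • m : M) = (C c : MvPowerSeries (Fin n) K) • m := by
      conv_lhs => rw [← one_smul (MvPowerSeries (Fin n) K) m, ← smul_assoc]
      rw [MvPowerSeries.smul_eq_C_mul, mul_one]
    have h2 : (c • (r • m) : M) = (C c : MvPowerSeries (Fin n) K) • r • m := by
      rw [← smul_assoc, MvPowerSeries.smul_eq_C_mul, mul_smul]
    rw [h1, RingHom.id_apply, h2, smul_smul, smul_smul, mul_comm]

namespace Conn

variable (C : Conn n K M)

theorem commute_nab (i j : Fin n) : Commute (C.nab i : Module.End K M) (C.nab j) := by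
  ext m
  exact C.comm i j m

/-- The iterated operator `nab^γ`. -/
noncomputable def pw (γ : Fin n →₀ ℕ) : Module.End K M :=
  Finset.univ.noncommProd (fun i => (C.nab i : Module.End K M) ^ γ i)
    (fun i _ j _ _ => (C.commute_nab i j).pow_pow _ _)

/-- The Euler operator `theta = sum x_i nab_i`. -/
noncomputable def theta : Module.End K M := ∑ i, mulR M (X i) * C.nab i

theorem theta_apply (m : M) : C.theta m = ∑ i, (X i : MvPowerSeries (Fin n) K) • C.nab i m := by
  simp [theta, mulR]

end Conn

/-- A decreasing family of submodules `W i` (`i` an integer) with `x_l W_i` in `W_(i+1)` and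
`nab_l W_i` in `W_(i-1)`. -/
structure Compat (C : Conn n K M) (W : ℤ → Submodule (MvPowerSeries (Fin n) K) M) : Prop where
  anti : ∀ i, W (i + 1) ≤ W i
  x_mem : ∀ (i : ℤ) (l : Fin n) (m : M), m ∈ W i → (X l : MvPowerSeries (Fin n) K) • m ∈ W (i + 1)
  nab_mem : ∀ (i : ℤ) (l : Fin n) (m : M), m ∈ W i → C.nab l m ∈ W (i - 1)

namespace Conn

variable (C : Conn n K M)

/-- `V C u d`: the span of all `x^β nab^γ u` with `|β| - |γ| ≥ d`. -/
noncomputable def V (u : M) (d : ℤ) : Submodule (MvPowerSeries (Fin n) K) M :=
  Submodule.span _ {m | ∃ β γ : Fin n →₀ ℕ, d ≤ (β.degree : ℤ) - γ.degree ∧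
    m = (monomial β 1 : MvPowerSeries (Fin n) K) • C.pw γ u}

/-- The smallest submodule containing `u` and stable under the operators. -/
noncomputable def D (u : M) : Submodule (MvPowerSeries (Fin n) K) M :=
  Submodule.span _ {m | ∃ γ : Fin n →₀ ℕ, m = C.pw γ u}

/-- The part of order at most `r`. -/
noncomputable def Fil (r : ℕ) (u : M) : Submodule (MvPowerSeries (Fin n) K) M :=
  Submodule.span _ {m | ∃ γ : Fin n →₀ ℕ, γ.degree ≤ r ∧ m = C.pw γ u}

end Conn

end B5a
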