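import Pool.Agent.H.MP_b5a980_ag.Conn0

set_option autoImplicit false
set_option linter.unusedSectionVars false
set_option linter.style.longLine false

/-!
Iterated connection operators (MP_b5a980_ag).
-/

namespace B5a

universe u v w

open MvPowerSeries

variable {n : ℕ} {K : Type u} [Field K] {M : Type v} [AddCommGroup M]
  [Module (MvPowerSeries (Fin n) K) M] [Module K M] [IsScalarTower K (MvPowerSeries (Fin n) K) M]

namespace Conn

variable (C : Conn n K M)

theorem pw_zero (m : M) : C.pw 0 m = m := by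
  have h : C.pw 0 = 1 := by
    unfold pw
    rw [Finset.noncommProd_eq_pow_card _ _ _ (1 : Module.End K M) (fun i _ => by simp), one_pow]
  rw [h]
  rfl

theorem ConnA_pw_add (γ γ' : Fin n →₀ ℕ) : C.pw (γ + γ') = C.pw γ * C.pw γ' := by
  unfold pw
  rw [← Finset.noncommProd_mul_distrib (fun i => (C.nab i : Module.End K M) ^ γ i)
    (fun i => (C.nab i : Module.End K M) ^ γ' i)
    (fun i _ j _ _ => (C.commute_nab i j).pow_pow _ _)
    (fun i _ j _ _ => (C.commute_nab i j).pow_pow _ _)
    (fun i _ j _ _ => (C.commute_nab i j).pow_pow _ _)]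
  refine Finset.noncommProd_congr rfl (fun i _ => ?_) _
  rw [Finsupp.add_apply, pow_add]
  rfl

theorem pw_add (γ γ' : Fin n →₀ ℕ) (m : M) : C.pw (γ + γ') m = C.pw γ (C.pw γ' m) := by
  rw [ConnA_pw_add]
  rfl

theorem pw_single (i : Fin n) (m : M) : C.pw (Finsupp.single i 1) m = C.nab i m := by
  have h : C.pw (Finsupp.single i 1) = C.nab i := by
    unfold pw
    rw [← Finset.mul_noncommProd_erase Finset.univ (Finset.mem_univ i),
      Finset.noncommProd_eq_pow_card _ _ _ (1 : Module.End K M) (fun j hj => ?_), one_pow, mul_one,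
      Finsupp.single_eq_same, pow_one]
    rw [Finsupp.single_apply, if_neg (Finset.ne_of_mem_erase hj).symm, pow_zero]
  rw [h]

theorem nab_pw (i : Fin n) (γ : Fin n →₀ ℕ) (m : M) :
    C.nab i (C.pw γ m) = C.pw (γ + Finsupp.single i 1) m := by
  rw [add_comm, pw_add, pw_single]

/-- Proof. Take `i` with `γ i ≠ 0` and `γ' = γ - single i 1`. -/
theorem exists_single_of_ne_zero {γ : Fin n →₀ ℕ} (h : γ ≠ 0) :
    ∃ (i : Fin n) (γ' : Fin n →₀ ℕ), γ = γ' + Finsupp.single i 1 ∧ γ.degree = γ'.degree + 1 := by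
  obtain ⟨i, hi⟩ := Finsupp.ne_iff.1 h
  rw [Finsupp.coe_zero, Pi.zero_apply] at hi
  have h1 : γ = γ - Finsupp.single i 1 + Finsupp.single i 1 := by
    refine (tsub_add_cancel_of_le ?_).symm
    rw [Finsupp.single_le_iff]
    omega
  refine ⟨i, γ - Finsupp.single i 1, h1, ?_⟩
  conv_lhs => rw [h1]
  rw [map_add, Finsupp.degree_single]

end Conn

end B5a
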