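import Mathlib

set_option autoImplicit false
set_option linter.unusedSectionVars false
set_option linter.style.longLine false

/-!
Weights of polynomials: definitions (MP_b5a980_ag, part B).
-/

namespace B5a

universe u v w

variable {k : Type u} [Field k]

/-- The weight of a polynomial: the integral part of `lam` of the mean of its roots. -/
noncomputable def wt (lam : k →+ ℚ) (p : Polynomial k) : ℤ :=
  ⌊lam (-(p.nextCoeff) / (p.natDegree : k))⌋

/-- Monic polynomials all of whose irreducible factors have weight `i`. -/
def PW (lam : k →+ ℚ) (i : ℤ) (c : Polynomial k) : Prop :=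
  c.Monic ∧ ∀ p : Polynomial k, p.Monic → Irreducible p → p ∣ c → wt lam p = i

/-- Monic polynomials all of whose irreducible factors have weight `≥ i`. -/
def SW (lam : k →+ ℚ) (i : ℤ) (c : Polynomial k) : Prop :=
  c.Monic ∧ ∀ p : Polynomial k, p.Monic → Irreducible p → p ∣ c → i ≤ wt lam p

/-- Monic polynomials all of whose irreducible factors have weight `< i`. -/
def LW (lam : k →+ ℚ) (i : ℤ) (c : Polynomial k) : Prop :=
  c.Monic ∧ ∀ p : Polynomial k, p.Monic → Irreducible p → p ∣ c → wt lam p < i

end B5a
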