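import Pool.Agent.H.MP_b5a980_ag.Conn0
import Pool.Agent.H.MP_b5a980_ag.Wt0

set_option autoImplicit false
set_option linter.unusedSectionVars false
set_option linter.style.longLine false

/-!
Canonical filtrations: definitions (MP_b5a980_ag, part B).
-/

namespace B5a

universe u v w

open MvPowerSeries

variable {n : ℕ} {K : Type u} [Field K] {M : Type v} [AddCommGroup M]
  [Module (MvPowerSeries (Fin n) K) M] [Module K M] [IsScalarTower K (MvPowerSeries (Fin n) K) M]

/-- The graded pieces are annihilated (elementwise) by polynomials in `theta` of weight `i`. -/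
def GrP (lam : K →+ ℚ) (C : Conn n K M) (V : ℤ → Submodule (MvPowerSeries (Fin n) K) M) : Prop :=
  ∀ (i : ℤ) (m : M), m ∈ V i →
    ∃ c : Polynomial K, PW lam i c ∧ Polynomial.aeval C.theta c m ∈ V (i + 1)

/-- The filtration is generated, modulo `N`, by finitely many elements. -/
def GoodRel (C : Conn n K M) (N : Submodule (MvPowerSeries (Fin n) K) M)
    (V : ℤ → Submodule (MvPowerSeries (Fin n) K) M) : Prop :=
  ∃ (t : ℕ) (u : Fin t → M) (a : Fin t → ℤ), ∀ i, V i = N ⊔ ⨆ l, C.V (u l) (i - a l)

/-- A canonical filtration of `(union of the V i) / N`. -/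
structure VPack (lam : K →+ ℚ) (C : Conn n K M) (N : Submodule (MvPowerSeries (Fin n) K) M)
    (V : ℤ → Submodule (MvPowerSeries (Fin n) K) M) : Prop where
  compat : Compat C V
  stab : ∀ (i : Fin n) (m : M), m ∈ N → C.nab i m ∈ N
  gr : GrP lam C V
  good : GoodRel C N V

end B5a
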