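import Pool.Agent.H.MP_b5a980_ag.ConnC
import Pool.Agent.H.MP_b5a980_ag.FoB
import Pool.Agent.H.MP_b5a980_ag.Vp0
import Pool.Agent.H.MP_b5a980_ag.WtB

set_option autoImplicit false
set_option linter.unusedSectionVars false
set_option linter.style.longLine false

/-!
The graded pieces of the de Rham complex (MP_b5a980_ag, B5).
-/

namespace B5a

universe u v w

open MvPowerSeries

variable {n : ℕ} {K : Type u} [Field K] {M : Type v} [AddCommGroup M]
  [Module (MvPowerSeries (Fin n) K) M] [Module K M] [IsScalarTower K (MvPowerSeries (Fin n) K) M]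

theorem FoC_step {N : Type w} [AddCommGroup N] [Module K N] (T : Module.End K N) (a : K) (m : ℕ)
    (x : N) : Polynomial.aeval T (Polynomial.C a * Polynomial.X ^ (m + 1)) x =
      Polynomial.aeval T (Polynomial.C a * Polynomial.X ^ m) (T x) := by
  rw [pow_succ, ← mul_assoc, map_mul, Module.End.mul_apply, Polynomial.aeval_X]

/-- a predicate closed under addition, scalars and an endomorphism `T` is closed under `g(T)` -/
theorem FoC_aeval {N : Type w} [AddCommGroup N] [Module K N] (T : Module.End K N) (P : N → Prop)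
    (hadd : ∀ x y, P x → P y → P (x + y)) (hsmul : ∀ (c : K) x, P x → P (c • x))
    (hT : ∀ x, P x → P (T x)) (g : Polynomial K) {x : N} (hx : P x) :
    P (Polynomial.aeval T g x) := by
  induction g using Polynomial.induction_on generalizing x with
  | C a =>
    rw [Polynomial.aeval_C, Module.algebraMap_end_apply]
    exact hsmul a x hx
  | add f g hf hg =>
    rw [map_add, LinearMap.add_apply]
    exact hadd _ _ (hf hx) (hg hx)
  | monomial m a ih =>
    rw [FoC_step]
    exact ih (hT x hx)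

/-- the Lie derivative -/
noncomputable def FoC_Lie (C : Conn n K M) : Module.End K (Fm n M) :=
  dR C * iotaR n K M + iotaR n K M * dR C

theorem FoC_Lie_apply (C : Conn n K M) (ω : Fm n M) :
    FoC_Lie C ω = dR C (iotaR n K M ω) + iotaR n K M (dR C ω) := rfl

theorem FoC_Lie_isFm (C : Conn n K M) {p : ℤ} {ω : Fm n M} (h : IsFm p ω) :
    IsFm p (FoC_Lie C ω) := by
  intro I hI
  have h1 : IsFm p (dR C (iotaR n K M ω)) := by
    have := ext_isFm C.nab (con_isFm (fun i => mulR M (X i : MvPowerSeries (Fin n) K)) h)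
    rwa [sub_add_cancel] at this
  have h2 : IsFm p (iotaR n K M (dR C ω)) := by
    have := con_isFm (fun i => mulR M (X i : MvPowerSeries (Fin n) K)) (ext_isFm C.nab h)
    rwa [add_sub_cancel_right] at this
  rw [FoC_Lie_apply, Pi.add_apply, h1 I hI, h2 I hI, add_zero]

theorem FoC_VF_add {V : ℤ → Submodule (MvPowerSeries (Fin n) K) M} {j : ℤ} {ω η : Fm n M}
    (h : VF V j ω) (h' : VF V j η) : VF V j (ω + η) := fun I => Submodule.add_mem _ (h I) (h' I)

theorem FoC_VF_sub {V : ℤ → Submodule (MvPowerSeries (Fin n) K) M} {j : ℤ} {ω η : Fm n M}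
    (h : VF V j ω) (h' : VF V j η) : VF V j (ω - η) := fun I => Submodule.sub_mem _ (h I) (h' I)

theorem FoC_VF_smul {V : ℤ → Submodule (MvPowerSeries (Fin n) K) M} {j : ℤ} {ω : Fm n M}
    (c : K) (h : VF V j ω) : VF V j (c • ω) := fun I => (V _).smul_of_tower_mem c (h I)

theorem FoC_Lie_VF {C : Conn n K M} {V : ℤ → Submodule (MvPowerSeries (Fin n) K) M}
    (hV : Compat C V) {j : ℤ} {ω : Fm n M} (h : VF V j ω) : VF V j (FoC_Lie C ω) :=
  FoC_VF_add (dR_VF hV (iotaR_VF hV h)) (iotaR_VF hV (dR_VF hV h))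

theorem FoC_Lie_comm (C : Conn n K M) : Commute (dR C : Module.End K (Fm n M)) (FoC_Lie C) := by
  refine LinearMap.ext fun ω => ?_
  change dR C (dR C (iotaR n K M ω) + iotaR n K M (dR C ω)) =
    dR C (iotaR n K M (dR C ω)) + iotaR n K M (dR C (dR C ω))
  rw [map_add, dR_dR, dR_dR, map_zero, zero_add, add_zero]

/-- on forms of degree `p` the Lie derivative is `theta + p` -/
theorem FoC_Lie_eval (C : Conn n K M) (p : ℤ) (q : Polynomial K) {ω : Fm n M} (h : IsFm p ω)
    (I : Finset (Fin n)) : Polynomial.aeval (FoC_Lie C) q ω I =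
      Polynomial.aeval (C.theta + algebraMap K (Module.End K M) (p : K)) q (ω I) := by
  induction q using Polynomial.induction_on generalizing ω with
  | C a =>
    rw [Polynomial.aeval_C, Polynomial.aeval_C, Module.algebraMap_end_apply,
      Module.algebraMap_end_apply, Pi.smul_apply]
  | add f g hf hg =>
    rw [map_add, map_add, LinearMap.add_apply, LinearMap.add_apply, Pi.add_apply, hf h, hg h]
  | monomial m a ih =>
    rw [FoC_step, FoC_step, ih (FoC_Lie_isFm C h), FoC_Lie_apply, lie_apply C h,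
      LinearMap.add_apply, Module.algebraMap_end_apply]

theorem FoC_comm_aeval (C : Conn n K M) (g : Polynomial K) (ω : Fm n M) :
    dR C (Polynomial.aeval (FoC_Lie C) g ω) = Polynomial.aeval (FoC_Lie C) g (dR C ω) := by
  induction g using Polynomial.induction_on generalizing ω with
  | C a =>
    rw [Polynomial.aeval_C, Module.algebraMap_end_apply, Module.algebraMap_end_apply, map_smul]
  | add f g hf hg =>
    rw [map_add, LinearMap.add_apply, LinearMap.add_apply, map_add, hf, hg]
  | monomial m a ih =>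
    rw [FoC_step, FoC_step, ih]
    exact congrArg _ (LinearMap.congr_fun (FoC_Lie_comm C).eq ω)

/-- Acyclicity of the graded pieces `j ≠ 0`.

Proof. If `p` is not in `0..n` then `ω = 0`, take `η = 0`. For every `I` with `|I| = p` take `c_I ∈ PW (j-p)` with `c_I(θ) ω_I ∈ V (j-p+1)`; let `c` be the product of all `c_I` (`PW_prod`, `aeval_mem`), and `c' = c.comp (X - C p) ∈ PW j` (`PW_shift`). On forms of degree `p` let `Λ = θ + p` (applied to each coefficient); it preserves `V^j DR`, and `c'(Λ) ω = c(θ) ω ∈ V^(j+1) DR`. Write `c' = C(c'(0)) + X g`, `ω' = g(Λ) ω` (a form of degree `p` in `V^j DR`). `Λ` commutes with `dR` in the sense `dR (Λ_p ω) = Λ_(p+1) (dR ω)` (`lie_apply` and `dR_dR`), so `dR ω' = g(Λ) dR ω ∈ V^(j+1) DR`. `Λ ω' = dR (iota ω') + iota (dR ω')` and `iota (dR ω') ∈ V^(j+1) DR` (`iotaR_VF`). So `c'(0) ω + dR (iota ω') ∈ V^(j+1) DR`, `c'(0) ≠ 0` (`PW_eval_zero`). Put `η = - c'(0)⁻¹ • iota ω'`. -/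
theorem gr_acyclic [CharZero K] {lam : K →+ ℚ} (hlam : lam 1 = 1) {C : Conn n K M}
    {V : ℤ → Submodule (MvPowerSeries (Fin n) K) M} (hV : Compat C V) (hg : GrP lam C V)
    {j : ℤ} (hj : j ≠ 0) {p : ℤ} {ω : Fm n M} (hp : IsFm p ω) (hω : VF V j ω)
    (hd : VF V (j + 1) (dR C ω)) :
    ∃ η : Fm n M, IsFm (p - 1) η ∧ VF V j η ∧ VF V (j + 1) (ω - dR C η) := by
  classical
  choose c hc using fun I : Finset (Fin n) => hg _ _ (hω I)
  set s : Finset (Finset (Fin n)) := Finset.univ.filter fun I => (I.card : ℤ) = p with hs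
  have hs' : ∀ I, I ∈ s ↔ (I.card : ℤ) = p := fun I => by simp [hs]
  set b : Polynomial K := ∏ I ∈ s, c I with hb
  have hbP : PW lam (j - p) b := by
    refine PW_prod s c fun I hI => ?_
    have := (hc I).1
    rwa [(hs' I).1 hI] at this
  have hbI : ∀ I, (I.card : ℤ) = p → Polynomial.aeval C.theta b (ω I) ∈ V (j + 1 - I.card) := by
    intro I hI
    have h1 : b = (∏ J ∈ s.erase I, c J) * c I := (Finset.prod_erase_mul s c ((hs' I).2 hI)).symm
    rw [h1, map_mul, Module.End.mul_apply]
    refine hV.aeval_mem _ ?_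
    have := (hc I).2
    rwa [sub_add_eq_add_sub] at this
  set b' : Polynomial K := b.comp (Polynomial.X - Polynomial.C (p : K)) with hb'
  have hb'P : PW lam j b' := by
    have := PW_shift hlam p hbP
    rwa [sub_add_cancel] at this
  have h0 : b'.eval 0 ≠ 0 := PW_eval_zero hj hb'P
  set g : Polynomial K := b'.divX with hgd
  set κ : K := b'.eval 0 with hκ
  have hdecomp : b' = Polynomial.X * g + Polynomial.C κ := by
    have h := Polynomial.divX_mul_X_add b'
    rw [Polynomial.coeff_zero_eq_eval_zero, mul_comm] at h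
    exact h.symm
  set ω' : Fm n M := Polynomial.aeval (FoC_Lie C) g ω with hω'
  have w1 : IsFm p ω' := FoC_aeval (FoC_Lie C) (IsFm p)
    (fun x y hx hy I hI => by rw [Pi.add_apply, hx I hI, hy I hI, add_zero])
    (fun a x hx I hI => by rw [Pi.smul_apply, hx I hI, smul_zero])
    (fun x hx => FoC_Lie_isFm C hx) g hp
  have w2 : VF V j ω' := FoC_aeval (FoC_Lie C) (VF V j) (fun _ _ => FoC_VF_add)
    (fun a _ => FoC_VF_smul a) (fun _ => FoC_Lie_VF hV) g hω
  have w3 : VF V (j + 1) (dR C ω') := by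
    rw [hω', FoC_comm_aeval]
    exact FoC_aeval (FoC_Lie C) (VF V (j + 1)) (fun _ _ => FoC_VF_add)
      (fun a _ => FoC_VF_smul a) (fun _ => FoC_Lie_VF hV) g hd
  have w4 : VF V (j + 1) (Polynomial.aeval (FoC_Lie C) b' ω) := by
    intro I
    rw [FoC_Lie_eval C p b' hp I]
    by_cases hI : (I.card : ℤ) = p
    · have h1 : Polynomial.aeval (C.theta + algebraMap K (Module.End K M) (p : K)) b' =
          Polynomial.aeval C.theta b := by
        rw [hb', Polynomial.aeval_comp, map_sub, Polynomial.aeval_X, Polynomial.aeval_C,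
          add_sub_cancel_right]
      rw [h1]
      exact hbI I hI
    · rw [hp I hI, map_zero]
      exact Submodule.zero_mem _
  have w5 : Polynomial.aeval (FoC_Lie C) b' ω = FoC_Lie C ω' + κ • ω := by
    rw [hdecomp, map_add, map_mul, Polynomial.aeval_X, Polynomial.aeval_C, LinearMap.add_apply,
      Module.algebraMap_end_apply, Module.End.mul_apply]
  have w6 : ω - dR C (-κ⁻¹ • iotaR n K M ω') =
      κ⁻¹ • (Polynomial.aeval (FoC_Lie C) b' ω - iotaR n K M (dR C ω')) := by
    rw [w5, FoC_Lie_apply, map_smul, smul_sub, smul_add, smul_add, smul_smul,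
      inv_mul_cancel₀ h0, one_smul, neg_smul]
    abel
  refine ⟨-κ⁻¹ • iotaR n K M ω', ?_, FoC_VF_smul _ (iotaR_VF hV w2), ?_⟩
  · intro I hI
    rw [Pi.smul_apply]
    have := con_isFm (fun i => mulR M (X i : MvPowerSeries (Fin n) K)) w1 I hI
    change -κ⁻¹ • con (fun i => mulR M (X i : MvPowerSeries (Fin n) K)) ω' I = 0
    rw [this, smul_zero]
  · rw [w6]
    exact FoC_VF_smul _ (FoC_VF_sub w4 (iotaR_VF hV w3))

end B5a
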