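import Pool.Agent.H.MP_b5a980_ag.DvE
import Pool.Agent.H.MP_b5a980_ag.DvT
import Pool.Agent.H.MP_b5a980_ag.FoC

set_option autoImplicit false
set_option linter.unusedSectionVars false
set_option linter.style.longLine false

/-!
The dual of the quotient by the step 0 is exact (MP_b5a980_ag, part D).
-/

namespace B5a

universe u v w

open MvPowerSeries

variable {n : ℕ} {K : Type u} [Field K] {M : Type v} [AddCommGroup M]
  [Module (MvPowerSeries (Fin n) K) M] [Module K M] [IsScalarTower K (MvPowerSeries (Fin n) K) M]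

theorem DvQ_trd_apply (C : Conn n K M) (mu : Fm n (Module.Dual K M)) (J : Finset (Fin n)) (m : M) :
    trd C mu J m = ∑ k ∈ Jᶜ, sg k J • mu (insert k J) (C.nab k m) := by
  change (∑ k ∈ Jᶜ, sg k J • tnab C k (mu (insert k J))) m = _
  rw [LinearMap.sum_apply]
  rfl

/-- families which agree on the step `a` have the same differential there -/
theorem DvQ_congr {C : Conn n K M} {V : ℤ → Submodule (MvPowerSeries (Fin n) K) M}
    (hV : Compat C V) {a : ℤ} {mu mu' : Fm n (Module.Dual K M)}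
    (h : ∀ J, ∀ m ∈ V (a - J.card), mu J m = mu' J m) (J : Finset (Fin n)) {m : M}
    (hm : m ∈ V (a - J.card)) : trd C mu J m = trd C mu' J m := by
  rw [DvQ_trd_apply, DvQ_trd_apply]
  refine Finset.sum_congr rfl fun k hk => ?_
  have h1 := hV.nab_mem _ k _ hm
  have h2 : a - (J.card : ℤ) - 1 = a - ((insert k J).card : ℤ) := by
    rw [Finset.card_insert_of_notMem (Finset.mem_compl.1 hk)]
    push_cast
    ring
  rw [h2] at h1
  rw [h _ _ h1]

/-- One step of the construction. -/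
theorem dual_step [CharZero K] {lam0 : K →+ ℚ} (hlam : lam0 1 = 1) {C : Conn n K M}
    {V : ℤ → Submodule (MvPowerSeries (Fin n) K) M} (hV : Compat C V) (hg : GrP lam0 C V)
    {j : ℤ} (hj : j ≠ 0) {i : ℤ} {lam mu : Fm n (Module.Dual K M)} (hl : IsFm i lam)
    (hm : IsFm (i + 1) mu) (hmc : ∀ J, ContOn (V (j + 1 - J.card)) (mu J))
    (hc : ∀ J, ∀ m ∈ V (j - J.card), trd C lam J m = 0)
    (he : ∀ J, ∀ m ∈ V (j + 1 - J.card), lam J m = trd C mu J m) :
    ∃ mu' : Fm n (Module.Dual K M), IsFm (i + 1) mu' ∧ (∀ J, ContOn (V (j - J.card)) (mu' J)) ∧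
      (∀ J, ∀ m ∈ V (j + 1 - J.card), mu' J m = mu J m) ∧
      ∀ J, ∀ m ∈ V (j - J.card), lam J m = trd C mu' J m := by
  classical
  have hex1 : ∀ J : Finset (Fin n), ∃ mu1 : Module.Dual K M,
      ContOn (⊤ : Submodule (MvPowerSeries (Fin n) K) M) mu1 ∧
      (∀ m ∈ V (j + 1 - J.card), mu1 m = mu J m) ∧ ((J.card : ℤ) ≠ i + 1 → mu1 = 0) := by
    intro J
    by_cases hJ : (J.card : ℤ) = i + 1
    · obtain ⟨l, h1, h2⟩ := ext_cont (V (j + 1 - J.card)) (mu J) (hmc J)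
      exact ⟨l, h1, h2, fun h => absurd hJ h⟩
    · refine ⟨0, fun m _ => ⟨0, fun r _ => rfl⟩, fun m _ => ?_, fun _ => rfl⟩
      rw [hm J hJ]
  choose mu1 h1 h2 h3 using hex1
  have hm1 : IsFm (i + 1) mu1 := fun J hJ => h3 J hJ
  have hl1 : IsFm i (trd C mu1) := by
    have := con_isFm (tnab C) hm1
    rwa [add_sub_cancel_right] at this
  have hl' : IsFm i (lam - trd C mu1) := by
    intro J hJ
    rw [Pi.sub_apply, hl J hJ, hl1 J hJ, sub_zero]
  obtain ⟨nu, n1, n2, n3⟩ := gr_dual (C := C) (fun J => V (j + 1 - J.card))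
    (fun J => V (j - J.card)) i
    (fun ω hω1 hω2 hω3 => gr_acyclic hlam hV hg hj hω1 hω2 hω3) (lam - trd C mu1) hl'
    (fun J m hJm => by
      rw [Pi.sub_apply, LinearMap.sub_apply, he J m hJm, DvQ_congr hV h2 J hJm, sub_self])
    (fun J m hJm => by
      rw [map_sub, trd_trd, sub_zero]
      exact hc J m hJm)
  refine ⟨mu1 + nu, ?_, ?_, ?_, ?_⟩
  · intro J hJ
    rw [Pi.add_apply, hm1 J hJ, n1 J hJ, add_zero]
  · intro J
    refine ContOn.add ((h1 J).mono le_top) ?_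
    intro m hJm
    refine ⟨1, fun r hr => n2 J _ ?_⟩
    have h4 := hV.mI_mem hr hJm
    have h5 : j - (J.card : ℤ) + ((1 : ℕ) : ℤ) = j + 1 - J.card := by
      push_cast
      ring
    rwa [h5] at h4
  · intro J m hJm
    rw [Pi.add_apply, LinearMap.add_apply, n2 J m hJm, add_zero, h2 J m hJm]
  · intro J m hJm
    have h4 := n3 J m hJm
    rw [Pi.sub_apply, LinearMap.sub_apply] at h4
    rw [map_add, Pi.add_apply, LinearMap.add_apply, ← h4, add_sub_cancel]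

/-- Glueing of functionals along an increasing sequence of subspaces. -/
theorem DvQ_glue (U : ℕ → Submodule K M) (hU : ∀ s, U s ≤ U (s + 1)) (f : ℕ → Module.Dual K M)
    (hf : ∀ s, ∀ m ∈ U s, f (s + 1) m = f s m) :
    ∃ g : Module.Dual K M, ∀ s, ∀ m ∈ U s, g m = f s m := by
  have hmono : Monotone U := monotone_nat_of_le_succ hU
  have hf' : ∀ s t, s ≤ t → ∀ m ∈ U s, f t m = f s m := by
    intro s t hst
    induction t, hst using Nat.le_induction with
    | base => intro m _; rfl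
    | succ t hst ih =>
      intro m hm
      rw [hf t m (hmono hst hm), ih m hm]
  let F : ℕ → (M →ₗ.[K] K) := fun s => (f s).toPMap (U s)
  have hF : Monotone F := by
    intro s t hst
    refine ⟨hmono hst, ?_⟩
    rintro ⟨x, hx⟩ ⟨y, hy⟩ hxy
    have hxy' : x = y := hxy
    subst hxy'
    exact (hf' s t hst x hx).symm
  have hdir : DirectedOn (· ≤ ·) (Set.range F) := by
    rintro _ ⟨s, rfl⟩ _ ⟨t, rfl⟩
    exact ⟨F (max s t), ⟨_, rfl⟩, hF (le_max_left s t), hF (le_max_right s t)⟩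
  obtain ⟨g, hg⟩ := LinearMap.exists_extend (LinearPMap.sSup (Set.range F) hdir).toFun
  refine ⟨g, fun s m hm => ?_⟩
  have h1 : F s ≤ LinearPMap.sSup (Set.range F) hdir := LinearPMap.le_sSup hdir ⟨s, rfl⟩
  have h2 : m ∈ (LinearPMap.sSup (Set.range F) hdir).domain := h1.1 hm
  have h3 : (F s) ⟨m, hm⟩ = (LinearPMap.sSup (Set.range F) hdir) ⟨m, h2⟩ := h1.2 rfl
  have h4 := LinearMap.congr_fun hg ⟨m, h2⟩
  exact h4.trans h3.symm

/-- The complex of functionals killing `V^0` is exact. -/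
theorem q1dual [CharZero K] {lam0 : K →+ ℚ} (hlam : lam0 1 = 1) {C : Conn n K M}
    {V : ℤ → Submodule (MvPowerSeries (Fin n) K) M} (hV : Compat C V) (hg : GrP lam0 C V)
    {i : ℤ} {lam : Fm n (Module.Dual K M)} (hl : IsFm i lam)
    (hk : ∀ J, ∀ m ∈ V (0 - J.card), lam J m = 0)
    (hc : ∀ (J) (j : ℤ), ∀ m ∈ V j, trd C lam J m = 0) :
    ∃ mu : Fm n (Module.Dual K M), IsFm (i + 1) mu ∧ (∀ (J) (j : ℤ), ContOn (V j) (mu J)) ∧
      (∀ J, ∀ m ∈ V (0 - J.card), mu J m = 0) ∧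
      ∀ (J) (j : ℤ), ∀ m ∈ V j, lam J m = trd C mu J m := by
  classical
  have hstep : ∀ (s : ℕ) (x : {mu : Fm n (Module.Dual K M) // IsFm (i + 1) mu ∧
      (∀ J, ContOn (V (-(s : ℤ) - J.card)) (mu J)) ∧
      ∀ J, ∀ m ∈ V (-(s : ℤ) - J.card), lam J m = trd C mu J m}),
      ∃ y : {mu : Fm n (Module.Dual K M) // IsFm (i + 1) mu ∧
      (∀ J, ContOn (V (-((s + 1 : ℕ) : ℤ) - J.card)) (mu J)) ∧
      ∀ J, ∀ m ∈ V (-((s + 1 : ℕ) : ℤ) - J.card), lam J m = trd C mu J m},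
      ∀ J, ∀ m ∈ V (-(s : ℤ) - J.card), y.1 J m = x.1 J m := by
    rintro s ⟨mu, m1, m2, m3⟩
    have e1 : -((s + 1 : ℕ) : ℤ) + 1 = -(s : ℤ) := by
      push_cast
      ring
    obtain ⟨mu', p1, p2, p3, p4⟩ := dual_step hlam hV hg (j := -((s + 1 : ℕ) : ℤ))
      (by push_cast; omega) hl m1 (by rw [e1]; exact m2) (fun J m hm => hc J _ m hm)
      (by rw [e1]; exact m3)
    rw [e1] at p3
    exact ⟨⟨mu', p1, p2, p4⟩, p3⟩
  choose nx hnx using hstep
  have h0 : IsFm (i + 1) (0 : Fm n (Module.Dual K M)) ∧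
      (∀ J : Finset (Fin n), ContOn (V (-((0 : ℕ) : ℤ) - J.card))
        ((0 : Fm n (Module.Dual K M)) J)) ∧
      ∀ J, ∀ m ∈ V (-((0 : ℕ) : ℤ) - J.card),
        lam J m = trd C (0 : Fm n (Module.Dual K M)) J m := by
    refine ⟨fun J _ => rfl, fun J m _ => ⟨0, fun r _ => rfl⟩, fun J m hm => ?_⟩
    rw [map_zero]
    refine hk J m ?_
    simpa using hm
  let sq : (s : ℕ) → {mu : Fm n (Module.Dual K M) // IsFm (i + 1) mu ∧
      (∀ J, ContOn (V (-(s : ℤ) - J.card)) (mu J)) ∧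
      ∀ J, ∀ m ∈ V (-(s : ℤ) - J.card), lam J m = trd C mu J m} :=
    fun s => Nat.rec ⟨0, h0⟩ (fun s x => nx s x) s
  have hsq : ∀ s : ℕ, ∀ J, ∀ m ∈ V (-(s : ℤ) - J.card), (sq (s + 1)).1 J m = (sq s).1 J m :=
    fun s => hnx s (sq s)
  have hglue : ∀ J : Finset (Fin n), ∃ g : Module.Dual K M,
      (∀ s : ℕ, ∀ m ∈ V (-(s : ℤ) - J.card), g m = (sq s).1 J m) ∧
      ((J.card : ℤ) ≠ i + 1 → g = 0) := by
    intro J
    by_cases hJ : (J.card : ℤ) = i + 1
    · obtain ⟨g, hg⟩ := DvQ_glue (fun s : ℕ => (V (-(s : ℤ) - J.card)).restrictScalars K)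
        (fun s => hV.le (by push_cast; omega)) (fun s => (sq s).1 J) (fun s => hsq s J)
      exact ⟨g, hg, fun h => absurd hJ h⟩
    · refine ⟨0, fun s m _ => ?_, fun _ => rfl⟩
      rw [(sq s).2.1 J hJ]
  choose mu g1 g2 using hglue
  have hs : ∀ (J : Finset (Fin n)) (j : ℤ), ∃ s : ℕ, V j ≤ V (-(s : ℤ) - J.card) := by
    intro J j
    refine ⟨(-(j + J.card)).toNat, hV.le ?_⟩
    have := Int.self_le_toNat (-(j + J.card))
    omega
  refine ⟨mu, fun J hJ => g2 J hJ, ?_, ?_, ?_⟩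
  · intro J j m hm
    obtain ⟨s, hs⟩ := hs J j
    obtain ⟨N, hN⟩ := (sq s).2.2.1 J m (hs hm)
    refine ⟨N, fun r hr => ?_⟩
    rw [g1 J s _ (Submodule.smul_mem _ r (hs hm)), hN r hr]
  · intro J m hm
    have h1 : m ∈ V (-((0 : ℕ) : ℤ) - J.card) := by simpa using hm
    rw [g1 J 0 m h1]
    rfl
  · intro J j m hm
    obtain ⟨s, hs⟩ := hs J j
    rw [(sq s).2.2.2 J m (hs hm)]
    exact (DvQ_congr hV (fun J' m' hm' => g1 J' s m' hm') J (hs hm)).symm

end B5a
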