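import Pool.Agent.H.MP_b5a980_ag.CeD
import Pool.Agent.H.MP_b5a980_ag.Dc1
import Pool.Agent.H.MP_b5a980_ag.Dc2
import Pool.Agent.H.MP_b5a980_ag.DvQ

set_option autoImplicit false
set_option linter.unusedSectionVars false
set_option linter.style.longLine false

/-!
Vanishing of the second page of the kernel (MP_b5a980_ag, part D).
-/

namespace B5a

universe u v w

open MvPowerSeries

variable {n r : ℕ} {K : Type u} [Field K] {lam0 : K →+ ℚ}
  {V : MvPowerSeries (Fin n) K → ℤ → Submodule (MvPowerSeries (Fin n) K) (FF n K)}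
  {f : Fin r → MvPowerSeries (Fin n) K}
  {W : Finset (Fin n) → Submodule (MvPowerSeries (Fin n) K) (Fm r (FF n K))}

/-- the functionals `Φ_I ∘ cq q` on the system -/
noncomputable def Dc3_T (W : Finset (Fin n) → Submodule (MvPowerSeries (Fin n) K) (Fm r (FF n K)))
    (q : ℤ) (Φ : Fm n (Module.Dual K (Fm r (FF n K)))) : DW W :=
  fun I => (Φ I).comp
    (((cq q : Fm r (FF n K) →ₗ[MvPowerSeries (Fin n) K] Fm r (FF n K)).restrictScalars K).comp
      ((W I).subtype.restrictScalars K))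

theorem Dc3_T_apply (q : ℤ) (Φ : Fm n (Module.Dual K (Fm r (FF n K)))) (I : Finset (Fin n))
    (c : W I) : Dc3_T W q Φ I c = Φ I (cq q (c : Fm r (FF n K))) := rfl

theorem Dc3_trd {M : Type v} [AddCommGroup M]
    [Module (MvPowerSeries (Fin n) K) M] [Module K M] [IsScalarTower K (MvPowerSeries (Fin n) K) M]
    (C : Conn n K M) (Φ : Fm n (Module.Dual K M)) (J : Finset (Fin n)) (m : M) :
    trd C Φ J m = ∑ i ∈ Jᶜ, sg i J • Φ (insert i J) (C.nab i m) := by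
  change (∑ i ∈ Jᶜ, sg i J • tnab C i (Φ (insert i J))) m = _
  rw [LinearMap.sum_apply]
  rfl

theorem Dc3_dDual_apply (hW : WSys W) (lam : DW W) (I : Finset (Fin n)) (c : W I) :
    dDual hW lam I c = -(∑ i ∈ (Iᶜ).attach, sg (i : Fin n) I •
          lam (insert (i : Fin n) I) ⟨(cconn n r K).nab i c,
            hW.nab_mem I i (Finset.mem_compl.mp i.2) c c.2⟩) +
        ((-1 : ℤ) ^ (n - I.card)) • lam I ⟨cech n r K c, hW.cech_mem I c c.2⟩ := rfl

theorem Dc3_dlam (hW : WSys W) (lam : DW W) (Λ : Fm n (Module.Dual K (Fm r (FF n K))))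
    (I : Finset (Fin n)) (hI : ∀ k, k ∉ I → ∀ x (hx : x ∈ W (insert k I)),
      lam (insert k I) ⟨x, hx⟩ = Λ (insert k I) x) (c : W I) :
    dDual hW lam I c = -(trd (cconn n r K) Λ I (c : Fm r (FF n K))) +
      ((-1 : ℤ) ^ (n - I.card)) • lam I ⟨cech n r K c, hW.cech_mem I c c.2⟩ := by
  rw [Dc3_dDual_apply, Dc3_trd, ← Finset.sum_attach Iᶜ (fun i => sg i I •
    Λ (insert i I) ((cconn n r K).nab i (c : Fm r (FF n K))))]
  congr 2
  refine Finset.sum_congr rfl fun i _ => ?_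
  rw [hI _ (Finset.mem_compl.mp i.2)]

theorem Dc3_cq_nab (q : ℤ) (i : Fin n) (c : Fm r (FF n K)) :
    cq q ((cconn n r K).nab i c) = (cconn n r K).nab i (cq q c) := by
  funext S
  change (if (S.card : ℤ) = q then dF n K i (c S) else 0) =
    dF n K i (if (S.card : ℤ) = q then c S else 0)
  split_ifs
  · rfl
  · rw [map_zero]

theorem Dc3_cq_Lq {q : ℤ} {c : Fm r (FF n K)} (h : c ∈ Lq f q) : cq q c = c := by
  funext S
  change (if (S.card : ℤ) = q then c S else 0) = c S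
  split_ifs with hS
  · rfl
  · exact ((h S).2 hS).symm

theorem Dc3_dT (hW : WSys W) (q : ℤ) (Φ : Fm n (Module.Dual K (Fm r (FF n K))))
    (I : Finset (Fin n)) (c : W I) :
    dDual hW (Dc3_T W q Φ) I c = -(trd (cconn n r K) Φ I (cq q (c : Fm r (FF n K)))) +
      ((-1 : ℤ) ^ (n - I.card)) • Φ I (cech n r K (cq (q - 1) (c : Fm r (FF n K)))) := by
  rw [Dc3_dDual_apply, Dc3_trd, ← Finset.sum_attach Iᶜ (fun i => sg i I •
    Φ (insert i I) ((cconn n r K).nab i (cq q (c : Fm r (FF n K)))))]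
  congr 2
  · refine Finset.sum_congr rfl fun i _ => ?_
    rw [Dc3_T_apply, Dc3_cq_nab]
  · rw [Dc3_T_apply, cech_cq, sub_add_cancel]

/-- continuity of sums -/
theorem Dc3_cont_sum {M : Type v} [AddCommGroup M]
    [Module (MvPowerSeries (Fin n) K) M] [Module K M] [IsScalarTower K (MvPowerSeries (Fin n) K) M]
    {X : Submodule (MvPowerSeries (Fin n) K) M} {ι : Type*} (s : Finset ι)
    (g : ι → Module.Dual K M) (h : ∀ i ∈ s, ContOn X (g i)) : ContOn X (∑ i ∈ s, g i) :=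
  Finset.sum_induction g (ContOn X) (fun _ _ ha hb => ContOn.add ha hb)
    (fun _ _ => ⟨0, fun _ _ => rfl⟩) h

theorem Dc3_cont_zsmul {M : Type v} [AddCommGroup M]
    [Module (MvPowerSeries (Fin n) K) M] [Module K M] [IsScalarTower K (MvPowerSeries (Fin n) K) M]
    {X : Submodule (MvPowerSeries (Fin n) K) M} (z : ℤ) {g : Module.Dual K M}
    (h : ContOn X g) : ContOn X (z • g) := by
  intro m hm
  obtain ⟨N, hN⟩ := h m hm
  refine ⟨N, fun a ha => ?_⟩
  rw [LinearMap.smul_apply, hN a ha, smul_zero]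

theorem Dc3_cont_trd {M : Type v} [AddCommGroup M]
    [Module (MvPowerSeries (Fin n) K) M] [Module K M] [IsScalarTower K (MvPowerSeries (Fin n) K) M]
    (C : Conn n K M) {Φ : Fm n (Module.Dual K M)}
    (h : ∀ J, ContOn (⊤ : Submodule (MvPowerSeries (Fin n) K) M) (Φ J)) (J : Finset (Fin n)) :
    ContOn (⊤ : Submodule (MvPowerSeries (Fin n) K) M) (trd C Φ J) := by
  change ContOn _ (∑ i ∈ Jᶜ, sg i J • tnab C i (Φ (insert i J)))
  refine Dc3_cont_sum _ _ fun i _ => Dc3_cont_zsmul _ ?_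
  exact ContOn.tnab i (fun _ _ => Submodule.mem_top) le_rfl (h _)

theorem Dc3_T_mem (hW : WSys W) {Φ : Fm n (Module.Dual K (Fm r (FF n K)))} {j p m q : ℤ}
    (h0 : IsFm j Φ)
    (hc : ∀ J, ContOn (⊤ : Submodule (MvPowerSeries (Fin n) K) (Fm r (FF n K))) (Φ J))
    (hj : j ≤ n - p) (hq : q = 2 * n - m - j) : Dc3_T W q Φ ∈ dualF hW p m := by
  refine ⟨fun I c => ?_, fun I hI => ?_, fun I c h => ?_⟩
  · obtain ⟨N, hN⟩ := hc I (cq q (c : Fm r (FF n K))) Submodule.mem_top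
    refine ⟨N, fun a ha => ?_⟩
    rw [Dc3_T_apply, Submodule.coe_smul, map_smul]
    exact hN a ha
  · have h1 : Φ I = 0 := h0 I (by omega)
    refine LinearMap.ext fun c => ?_
    rw [Dc3_T_apply, h1]
    rfl
  · rw [Dc3_T_apply]
    by_cases hI : (I.card : ℤ) = j
    · have h1 : cq q (c : Fm r (FF n K)) = 0 := by
        funext S
        change (if (S.card : ℤ) = q then (c : Fm r (FF n K)) S else 0) = 0
        split_ifs with hS
        · exact h S (by rw [hS, hq, hI])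
        · rfl
      rw [h1, map_zero]
    · rw [h0 I hI]
      rfl

/-- linear extension of a functional -/
theorem Dc3_ext (X : Submodule (MvPowerSeries (Fin n) K) (Fm r (FF n K)))
    (lam : Module.Dual K X) : ∃ L : Module.Dual K (Fm r (FF n K)),
      ∀ x (hx : x ∈ X), L x = lam ⟨x, hx⟩ := by
  obtain ⟨g, hg⟩ := LinearMap.exists_extend (p := X.restrictScalars K)
    ({ toFun := fun x => lam ⟨x.1, x.2⟩
       map_add' := fun x y => lam.map_add ⟨x.1, x.2⟩ ⟨y.1, y.2⟩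
       map_smul' := fun a x => lam.map_smul a ⟨x.1, x.2⟩ } : (X.restrictScalars K) →ₗ[K] K)
  exact ⟨g, fun x hx => LinearMap.congr_fun hg ⟨x, hx⟩⟩

/-- a functional which vanishes on a kernel factors -/
theorem Dc3_fac (L : Submodule (MvPowerSeries (Fin n) K) (Fm r (FF n K)))
    (g : Fm r (FF n K) →ₗ[MvPowerSeries (Fin n) K] Fm r (FF n K))
    (σ : Module.Dual K (Fm r (FF n K))) (h : ∀ c ∈ L, g c = 0 → σ c = 0) :
    ∃ ν : Module.Dual K (Fm r (FF n K)), ∀ c ∈ L, ν (g c) = σ c := by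
  have h1 : σ.domRestrict (L.restrictScalars K) ∈
      (LinearMap.ker ((g.restrictScalars K).domRestrict (L.restrictScalars K))).dualAnnihilator := by
    rw [Submodule.mem_dualAnnihilator]
    intro x hx
    exact h x.1 x.2 (LinearMap.mem_ker.1 hx)
  rw [← LinearMap.range_dualMap_eq_dualAnnihilator_ker] at h1
  obtain ⟨ν, hν⟩ := h1
  exact ⟨ν, fun c hc => LinearMap.congr_fun hν ⟨c, hc⟩⟩

theorem Dc3_sgn {M : Type*} [AddCommGroup M] (k : ℕ) (x : M) (h : ((-1 : ℤ) ^ k) • x = 0) :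
    x = 0 := by
  rcases neg_one_pow_eq_or ℤ k with h1 | h1
  · rw [h1, one_smul] at h
    exact h
  · rw [h1, neg_smul, one_smul, neg_eq_zero] at h
    exact h

theorem Dc3_sgn2 {M : Type*} [AddCommGroup M] (k : ℕ) (x : M) :
    ((-1 : ℤ) ^ k) • ((-1 : ℤ) ^ k) • x = x := by
  rw [smul_smul, ← pow_add, ← two_mul, pow_mul]
  norm_num

/-- Functionals killing `V^0` have vanishing second page. -/
theorem acA [CharZero K] (hlam : lam0 1 = 1) (hV : VFam lam0 V) (hf : ∀ s, f s ≠ 0) (p m : ℤ)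
    (lam : DW (WA f)) (h : lam ∈ (DSS (WA_sys f)).Z 2 p m)
    (h0 : resD (WV_le_WA hV hf 0) lam = 0) :
    ∃ a b : DW (WA f), a ∈ (DSS (WA_sys f)).Z 1 (p + 1) m ∧
      b ∈ (DSS (WA_sys f)).Z 1 (p - 1) (m - 1) ∧ resD (WV_le_WA hV hf 0) a = 0 ∧
      resD (WV_le_WA hV hf 0) b = 0 ∧ lam = a + (DSS (WA_sys f)).d b := by
  classical
  have hF : lam ∈ dualF (WA_sys f) p m := h.1
  obtain ⟨hz1, hz2⟩ := (mem_DZ2_iff (WA_sys f) hF).1 h
  obtain ⟨hcont, hvan, hdeg⟩ := id hF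
  obtain ⟨i, hi⟩ : ∃ i : ℤ, i = n - p := ⟨_, rfl⟩
  obtain ⟨q, hq⟩ : ∃ q : ℤ, q = 2 * n - m - i := ⟨_, rfl⟩
  have hins : ∀ (I : Finset (Fin n)) (k : Fin n), k ∈ Iᶜ →
      ((insert k I).card : ℤ) = I.card + 1 := by
    intro I k hk
    rw [Finset.card_insert_of_notMem (Finset.mem_compl.1 hk)]
    push_cast
    rfl
  have hLW : ∀ (j : ℤ) (I : Finset (Fin n)) x, x ∈ Lq f j → x ∈ WA f I := fun j I x hx S =>
    (hx S).1
  have hres : ∀ (I : Finset (Fin n)) x (hx : x ∈ WV V f 0 I),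
      lam I ⟨x, WV_le_WA hV hf 0 I hx⟩ = 0 := by
    intro I x hx
    have h1 := congrFun h0 I
    exact LinearMap.congr_fun h1 ⟨x, hx⟩
  have hpk := vpack_VH (lam := lam0) hV hf q
  -- the linear extensions
  have hext : ∀ I : Finset (Fin n), ∃ L : Module.Dual K (Fm r (FF n K)),
      ((I.card : ℤ) ≠ i → L = 0) ∧
      ((I.card : ℤ) = i → ∀ x (hx : x ∈ WA f I), L x = lam I ⟨x, hx⟩) := by
    intro I
    by_cases hI : (I.card : ℤ) = i
    · obtain ⟨L, hL⟩ := Dc3_ext (WA f I) (lam I)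
      exact ⟨L, fun hn => absurd hI hn, fun _ => hL⟩
    · exact ⟨0, fun _ => rfl, fun hn => absurd hn hI⟩
  choose Λ hΛ0 hΛ using hext
  have hΛV : ∀ J, ∀ x ∈ VC V f q (0 - J.card), Λ J x = 0 := by
    intro J x hx
    by_cases hJ : (J.card : ℤ) = i
    · have h1 : x ∈ WV V f 0 J := VC_le_WV hV hf hx
      rw [hΛ J hJ x (WV_le_WA hV hf 0 J h1)]
      exact hres J x h1
    · rw [hΛ0 J hJ]
      rfl
  have hΛVH : ∀ J, ∀ x ∈ VH V f q (0 - J.card), Λ J x = 0 := by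
    intro J x hx
    obtain ⟨v, hv, w, ⟨l, hl, rfl⟩, rfl⟩ := Submodule.mem_sup.1 hx
    rw [map_add, hΛV J v hv.1, zero_add]
    by_cases hJ : (J.card : ℤ) = i
    · have h1 := hz1 J (by rw [hJ, hi]) ⟨l, hLW _ J l hl⟩
      rw [hΛ J hJ _ ((WA_sys f).cech_mem J l (hLW _ J l hl))]
      exact h1
    · rw [hΛ0 J hJ]
      rfl
  have hVHW : ∀ (j : ℤ) x, x ∈ VH V f q j → x ∈ Lq f q ∧ cech n r K x = 0 := by
    intro j x hx
    obtain ⟨v, hv, w, ⟨l, hl, rfl⟩, rfl⟩ := Submodule.mem_sup.1 hx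
    refine ⟨Submodule.add_mem _ ((mem_Lq_iff hV hf q v).1 ⟨j, hv.1⟩) ?_, ?_⟩
    · have h1 := cech_mem_Lq (q - 1) hl
      rwa [sub_add_cancel] at h1
    · rw [map_add, cech_cech, add_zero]
      exact hv.2
  have hΛc : ∀ (J : Finset (Fin n)) (j : ℤ), ∀ x ∈ VH V f q j,
      trd (cconn n r K) Λ J x = 0 := by
    intro J j x hx
    obtain ⟨hx1, hx2⟩ := hVHW j x hx
    by_cases hJ : (J.card : ℤ) = i - 1
    · have h1 := LinearMap.congr_fun (hz2 J (by omega)) ⟨x, hLW _ J x hx1⟩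
      rw [Dc3_dlam (WA_sys f) lam Λ J (fun k hk y hy => by
        have hk' := hins J k (Finset.mem_compl.2 hk)
        exact (hΛ _ (by omega) y hy).symm)] at h1
      have h2 : lam J ⟨cech n r K x, (WA_sys f).cech_mem J x (hLW _ J x hx1)⟩ = 0 := by
        have h3 : (⟨cech n r K x, (WA_sys f).cech_mem J x (hLW _ J x hx1)⟩ : WA f J) = 0 :=
          Subtype.ext hx2
        rw [h3, map_zero]
      have h4 : -(trd (cconn n r K) Λ J x) + ((-1 : ℤ) ^ (n - J.card)) •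
          lam J ⟨cech n r K x, (WA_sys f).cech_mem J x (hLW _ J x hx1)⟩ = 0 := h1
      rw [h2, smul_zero, add_zero, neg_eq_zero] at h4
      exact h4
    · rw [Dc3_trd]
      refine Finset.sum_eq_zero fun k hk => ?_
      have hk' := hins J k hk
      rw [hΛ0 (insert k J) (by omega)]
      simp
  obtain ⟨μ, hμ1, hμ2, hμ3, hμ4⟩ := q1dual hlam hpk.compat hpk.gr
    (fun J hJ => hΛ0 J hJ : IsFm i Λ) hΛVH hΛc
  have hinVH : ∀ x, x ∈ Lq f q → cech n r K x = 0 → ∃ j, x ∈ VH V f q j := by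
    intro x hx1 hx2
    obtain ⟨j, hj⟩ := (mem_Lq_iff hV hf q x).2 hx1
    exact ⟨j, Submodule.mem_sup_left ⟨hj, hx2⟩⟩
  -- the extension of μ
  have hglue : ∀ I : Finset (Fin n), ∃ M : Module.Dual K (Fm r (FF n K)),
      ((I.card : ℤ) ≠ i + 1 → M = 0) ∧
      ContOn (⊤ : Submodule (MvPowerSeries (Fin n) K) (Fm r (FF n K))) M ∧
      (∀ x, x ∈ Lq f q → cech n r K x = 0 → M x = μ I x) ∧
      ∀ x ∈ VC V f q (0 - I.card), M x = 0 := by
    intro I
    by_cases hI : (I.card : ℤ) = i + 1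
    · obtain ⟨M, hM1, hM2, hM3⟩ := glue_cont (Lq f q ⊓ LinearMap.ker (cech n r K))
        (VC V f q (0 - I.card)) (μ I) 0
        (fun x hx => by
          obtain ⟨j, hj⟩ := hinVH x hx.1 hx.2
          exact hμ2 I j x hj)
        (fun _ _ => ⟨0, fun _ _ => rfl⟩)
        (fun x hx1 hx2 => hμ3 I x (Submodule.mem_sup_left ⟨hx2, hx1.2⟩))
      exact ⟨M, fun hn => absurd hI hn, hM1, fun x hx1 hx2 => hM2 x ⟨hx1, hx2⟩, hM3⟩
    · refine ⟨0, fun _ => rfl, fun _ _ => ⟨0, fun _ _ => rfl⟩, fun x _ _ => ?_, fun _ _ => rfl⟩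
      rw [hμ1 I hI]
  choose μ' hμ'0 hμ'c hμ'1 hμ'2 using hglue
  have hμ'N : ∀ I, ∀ l ∈ Lq f (q - 1), μ' I (cech n r K l) = 0 := by
    intro I l hl
    have h1 := cech_mem_Lq (q - 1) hl
    rw [sub_add_cancel] at h1
    rw [hμ'1 I _ h1 (cech_cech l)]
    exact hμ3 I _ (Submodule.mem_sup_right ⟨l, hl, rfl⟩)
  have hμ'F : IsFm i (trd (cconn n r K) μ') := by
    have h1 := con_isFm (tnab (cconn n r K)) (p := i + 1) (ω := μ') (fun J hJ => hμ'0 J hJ)
    rwa [add_sub_cancel_right] at h1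
  -- the difference
  obtain ⟨σ, hσ⟩ : ∃ σ : Fm n (Module.Dual K (Fm r (FF n K))),
      σ = Λ - trd (cconn n r K) μ' := ⟨_, rfl⟩
  have hσa : ∀ I x, σ I x = Λ I x - trd (cconn n r K) μ' I x := by
    intro I x
    rw [hσ]
    rfl
  have hσ0 : ∀ I : Finset (Fin n), (I.card : ℤ) ≠ i → σ I = 0 := by
    intro I hI
    rw [hσ, Pi.sub_apply, hΛ0 I hI, hμ'F I hI, sub_zero]
  have hnabL : ∀ (k : Fin n) x, x ∈ Lq f q → cech n r K x = 0 →
      (cconn n r K).nab k x ∈ Lq f q ∧ cech n r K ((cconn n r K).nab k x) = 0 := by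
    intro k x hx1 hx2
    refine ⟨CeD_nab_Lq q k hx1, ?_⟩
    rw [cech_nab, hx2, map_zero]
  have hσ1 : ∀ I x, x ∈ Lq f q → cech n r K x = 0 → σ I x = 0 := by
    intro I x hx1 hx2
    obtain ⟨j, hj⟩ := hinVH x hx1 hx2
    rw [hσa, hμ4 I j x hj, Dc3_trd, Dc3_trd, sub_eq_zero]
    refine Finset.sum_congr rfl fun k _ => ?_
    obtain ⟨h1, h2⟩ := hnabL k x hx1 hx2
    rw [hμ'1 _ _ h1 h2]
  have hσ2 : ∀ I, ∀ x ∈ VC V f q (0 - I.card), σ I x = 0 := by
    intro I x hx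
    rw [hσa, hΛV I x hx, Dc3_trd, zero_sub, neg_eq_zero]
    refine Finset.sum_eq_zero fun k hk => ?_
    have h1 := (vpack_VC (lam := lam0) hV hf q).compat.nab_mem _ k x hx
    have h2 : (0 : ℤ) - I.card - 1 = 0 - ((insert k I).card : ℤ) := by
      rw [hins I k hk]
      ring
    rw [h2] at h1
    rw [hμ'2 _ _ h1, smul_zero]
  have hσ3 : ∀ I, ContOn (Lq f q) (σ I) := by
    intro I
    have h1 : ContOn (Lq f q) (Λ I) := by
      by_cases hI : (I.card : ℤ) = i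
      · intro x hx
        obtain ⟨N, hN⟩ := hcont I ⟨x, hLW _ I x hx⟩
        refine ⟨N, fun a ha => ?_⟩
        rw [hΛ I hI (a • x) (Submodule.smul_mem _ a (hLW _ I x hx))]
        exact hN a ha
      · rw [hΛ0 I hI]
        exact fun _ _ => ⟨0, fun _ _ => rfl⟩
    have h2 : ContOn (Lq f q) (trd (cconn n r K) μ' I) :=
      ContOn.mono le_top (Dc3_cont_trd (cconn n r K) hμ'c I)
    have h3 : σ I = Λ I + (-1 : ℤ) • trd (cconn n r K) μ' I := by
      rw [hσ, Pi.sub_apply, neg_one_zsmul, sub_eq_add_neg]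
    rw [h3]
    exact ContOn.add h1 (Dc3_cont_zsmul _ h2)
  -- the functionals on the coboundaries
  have hnu : ∀ I : Finset (Fin n), ∃ M : Module.Dual K (Fm r (FF n K)),
      ((I.card : ℤ) ≠ i → M = 0) ∧
      ContOn (⊤ : Submodule (MvPowerSeries (Fin n) K) (Fm r (FF n K))) M ∧
      (∀ x ∈ Lq f q, M (cech n r K x) = σ I x) ∧
      ∀ x ∈ VC V f (q + 1) (0 - I.card), M x = 0 := by
    intro I
    by_cases hI : (I.card : ℤ) = i
    · obtain ⟨ν, hν⟩ := Dc3_fac (Lq f q) (cech n r K) (σ I) (fun c hc hc0 => hσ1 I c hc hc0)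
      obtain ⟨M, hM1, hM2, hM3⟩ := glue_cont ((Lq f q).map (cech n r K))
        (VC V f (q + 1) (0 - I.card)) ν 0
        (by
          rintro _ ⟨c, hc, rfl⟩
          obtain ⟨N, hN⟩ := hσ3 I c hc
          refine ⟨N, fun a ha => ?_⟩
          rw [← map_smul, hν _ (Submodule.smul_mem _ a hc)]
          exact hN a ha)
        (fun _ _ => ⟨0, fun _ _ => rfl⟩)
        (by
          rintro _ ⟨c, hc, rfl⟩ hx2
          obtain ⟨c', hc', he⟩ := cech_strict hV hf q (0 - I.card) hc hx2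
          rw [← he, hν c' ((mem_Lq_iff hV hf q c').1 ⟨_, hc'⟩), hσ2 I c' hc']
          rfl)
      refine ⟨M, fun hn => absurd hI hn, hM1, fun x hx => ?_, hM3⟩
      rw [hM2 _ ⟨x, hx, rfl⟩, hν x hx]
    · refine ⟨0, fun _ => rfl, fun _ _ => ⟨0, fun _ _ => rfl⟩, fun x _ => ?_, fun _ _ => rfl⟩
      rw [hσ0 I hI]
      rfl
  choose ν hν0 hνc hν1 hν2 using hnu
  have hνF : IsFm (i - 1) (trd (cconn n r K) ν) :=
    con_isFm (tnab (cconn n r K)) (p := i) (ω := ν) (fun J hJ => hν0 J hJ)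
  obtain ⟨s, hs⟩ : ∃ s : ℕ, s = ((n : ℤ) - i).toNat := ⟨_, rfl⟩
  obtain ⟨β, hβ⟩ : ∃ β : DW (WA f), β = -(Dc3_T (WA f) q μ') +
      ((-1 : ℤ) ^ s) • Dc3_T (WA f) (q + 1) ν := ⟨_, rfl⟩
  have hβa : ∀ (I : Finset (Fin n)) (c : WA f I), β I c = -(μ' I (cq q (c : Fm r (FF n K)))) +
      ((-1 : ℤ) ^ s) • ν I (cq (q + 1) (c : Fm r (FF n K))) := by
    intro I c
    rw [hβ]
    rfl
  have hβF : β ∈ dualF (WA_sys f) (p - 1) (m - 1) := by
    rw [hβ]
    refine Submodule.add_mem _ (Submodule.neg_mem _ ?_) (zsmul_mem ?_ _)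
    · exact Dc3_T_mem (WA_sys f) (j := i + 1) (fun J hJ => hμ'0 J hJ) hμ'c (by omega) (by omega)
    · exact Dc3_T_mem (WA_sys f) (j := i) (fun J hJ => hν0 J hJ) hνc (by omega) (by omega)
  have hdβ : ∀ I : Finset (Fin n), i ≤ I.card → dDual (WA_sys f) β I = lam I := by
    intro I hI
    refine LinearMap.ext fun c => ?_
    have e1 : dDual (WA_sys f) β I c = -(dDual (WA_sys f) (Dc3_T (WA f) q μ') I c) +
        ((-1 : ℤ) ^ s) • dDual (WA_sys f) (Dc3_T (WA f) (q + 1) ν) I c := by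
      rw [hβ, map_add, map_neg, map_zsmul]
      rfl
    have hcW : (c : Fm r (FF n K)) ∈ WA f I := c.2
    rw [e1, Dc3_dT, Dc3_dT, hμ'N I _ (cq_mem_Lq hcW), smul_zero, add_zero, neg_neg,
      add_sub_cancel_right, hν1 I _ (cq_mem_Lq hcW), hνF I (by omega)]
    have e2 : (0 : Module.Dual K (Fm r (FF n K))) (cq (q + 1) (c : Fm r (FF n K))) = 0 := rfl
    rw [e2, neg_zero, zero_add]
    by_cases hI2 : (I.card : ℤ) = i
    · have h1 : n - I.card = s := by
        rw [hs]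
        omega
      rw [h1, Dc3_sgn2, hσa, add_sub_cancel]
      have h2 : cq q (c : Fm r (FF n K)) ∈ WA f I := hLW _ I _ (cq_mem_Lq hcW)
      rw [hΛ I hI2 _ h2, ← sub_eq_zero, ← map_sub]
      refine hdeg I _ fun S hS => ?_
      change (if (S.card : ℤ) = q then (c : Fm r (FF n K)) S else 0) - (c : Fm r (FF n K)) S = 0
      rw [if_pos (by omega), sub_self]
    · rw [hμ'F I hI2, hσ0 I hI2, hvan I (by omega)]
      simp
  have hdF : dDual (WA_sys f) β ∈ dualF (WA_sys f) (p - 1) m := by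
    have h1 := dDual_mem (WA_sys f) (p - 1) (m - 1) hβF
    rwa [sub_add_cancel] at h1
  have hlF : lam ∈ dualF (WA_sys f) (p - 1) m := by
    have h1 := (DSS (WA_sys f)).anti (p - 1) m
    rw [sub_add_cancel] at h1
    exact h1 hF
  obtain ⟨hc1, -, hc3⟩ := Submodule.sub_mem _ hlF hdF
  have haz : ∀ I : Finset (Fin n), i ≤ I.card → (lam - dDual (WA_sys f) β) I = 0 := by
    intro I hI
    rw [Pi.sub_apply, hdβ I hI, sub_self]
  have haF : lam - dDual (WA_sys f) β ∈ dualF (WA_sys f) (p + 1) m :=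
    ⟨hc1, fun I hI => haz I (by omega), hc3⟩
  have hbres : resD (WV_le_WA hV hf 0) β = 0 := by
    funext I
    refine LinearMap.ext fun x => ?_
    change β I ⟨x.1, WV_le_WA hV hf 0 I x.2⟩ = 0
    rw [hβa]
    change -(μ' I (cq q (x : Fm r (FF n K)))) +
      ((-1 : ℤ) ^ s) • ν I (cq (q + 1) (x : Fm r (FF n K))) = 0
    rw [hμ'2 I _ (cq_mem_VC hV hf x.2), hν2 I _ (cq_mem_VC hV hf x.2), smul_zero, neg_zero,
      add_zero]
  refine ⟨lam - dDual (WA_sys f) β, β, ?_, ?_, ?_, hbres, ?_⟩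
  · rw [mem_DZ1_iff (WA_sys f) haF]
    intro I hI c
    have h1 : dDual (WA_sys f) (lam - dDual (WA_sys f) β) I = 0 := by
      rw [map_sub, dDual_dDual, sub_zero]
      exact hz2 I (by omega)
    have h2 := LinearMap.congr_fun h1 c
    rw [Dc3_dlam (WA_sys f) _ 0 I (fun k hk y hy => by
      have hk' := hins I k (Finset.mem_compl.2 hk)
      rw [haz _ (by omega)]
      rfl)] at h2
    have h3 : trd (cconn n r K) (0 : Fm n (Module.Dual K (Fm r (FF n K)))) I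
        (c : Fm r (FF n K)) = 0 := by
      rw [map_zero]
      rfl
    rw [h3, neg_zero, zero_add] at h2
    exact Dc3_sgn _ _ h2
  · rw [mem_DZ1_iff (WA_sys f) hβF]
    intro I hI c
    rw [hβa]
    change -(μ' I (cq q (cech n r K (c : Fm r (FF n K))))) +
      ((-1 : ℤ) ^ s) • ν I (cq (q + 1) (cech n r K (c : Fm r (FF n K)))) = 0
    have h1 : cq q (cech n r K (c : Fm r (FF n K))) =
        cech n r K (cq (q - 1) (c : Fm r (FF n K))) := by
      rw [cech_cq, sub_add_cancel]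
    rw [h1, hμ'N I _ (cq_mem_Lq c.2), hν0 I (by omega)]
    simp
  · rw [map_sub, h0, zero_sub, neg_eq_zero]
    have h1 := (resD_FMap (WA_sys f) (WV_sys hV hf 0) (WV_le_WA hV hf 0)).comm (p - 1) (m - 1)
      β hβF
    rw [hbres, map_zero] at h1
    exact h1
  · exact (sub_add_cancel lam _).symm

end B5a
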