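import Pool.Agent.H.MP_b5a980_ag.ArA
import Pool.Agent.H.MP_b5a980_ag.FoB
import Pool.Agent.H.MP_b5a980_ag.PmB

set_option autoImplicit false
set_option linter.unusedSectionVars false
set_option linter.style.longLine false

/-!
Exactness of the de Rham complex of the free module below degree n (MP_b5a980_ag, B6).
-/

namespace B5a

universe u v w

open MvPowerSeries

variable {n : ℕ} {K : Type u} [Field K]

/-- Formal derivative with respect to the symbol `ξ_i`: `r ∂^γ e_j ↦ γ_i r ∂^(γ - e_i) e_j`. -/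
noncomputable def dxi (n : ℕ) (K : Type u) [Field K] (t : ℕ) (i : Fin n) :
    Pm n K t →ₗ[K] Pm n K t :=
  Finsupp.lsum K fun p : Fin t × (Fin n →₀ ℕ) =>
    (p.2 i : K) • Finsupp.lsingle (M := MvPowerSeries (Fin n) K) (R := K)
      ((p.1, p.2 - Finsupp.single i 1) : Fin t × (Fin n →₀ ℕ))

theorem dxi_single (t : ℕ) (i : Fin n) (j : Fin t) (γ : Fin n →₀ ℕ) (r : MvPowerSeries (Fin n) K) :
    dxi n K t i (Finsupp.single (j, γ) r) =
      (γ i : K) • Finsupp.single (j, γ - Finsupp.single i 1) r := by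
  unfold dxi
  rw [Finsupp.lsum_single, LinearMap.smul_apply, Finsupp.lsingle_apply]

/-- Proof. On `single (j,γ) r` with `dxi_single`, `pmnab_single`; for `i ≠ l` the coefficient `γ_i` is unchanged by the shift by `e_l`. -/
theorem dxi_nab_of_ne (t : ℕ) (i l : Fin n) (h : l ≠ i) (φ : Pm n K t) :
    (pmc n K t).nab l (dxi n K t i φ) = dxi n K t i ((pmc n K t).nab l φ) := by
  induction φ using Finsupp.induction_linear with
  | zero => simp only [map_zero]
  | add f g hf hg => simp only [map_add, hf, hg]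
  | single q r =>
    obtain ⟨j, γ⟩ := q
    have h1 : (γ + Finsupp.single l 1 : Fin n →₀ ℕ) i = γ i := by
      rw [Finsupp.add_apply, Finsupp.single_apply, if_neg h, add_zero]
    have h2 : (γ + Finsupp.single l 1 : Fin n →₀ ℕ) - Finsupp.single i 1 =
        γ - Finsupp.single i 1 + Finsupp.single l 1 := by
      ext x
      simp only [Finsupp.tsub_apply, Finsupp.add_apply, Finsupp.single_apply]
      by_cases hx : i = x
      · have hlx : l ≠ x := fun e => h (e.trans hx.symm)
        rw [if_pos hx, if_neg hlx]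
        omega
      · rw [if_neg hx]
        omega
    rw [dxi_single, map_smul, pmnab_single, pmnab_single, map_add, dxi_single, dxi_single, h1, h2,
      smul_add]

theorem KoA_smul {t : ℕ} {a : Fin t → ℤ} {j : ℤ} (c : K) {φ : Pm n K t} (h : φ ∈ PV a j) :
    c • φ ∈ PV a j :=
  (PV a j).smul_of_tower_mem c h

theorem dxi_mem_PV {t : ℕ} (a : Fin t → ℤ) (j : ℤ) (i : Fin n) {φ : Pm n K t} (h : φ ∈ PV a j) :
    dxi n K t i φ ∈ PV a (j + 1) := by
  rw [PmB_sum φ, map_sum]
  refine Submodule.sum_mem _ fun q _ => ?_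
  rw [dxi_single]
  by_cases h0 : q.2 i = 0
  · rw [h0, Nat.cast_zero, zero_smul]
    exact Submodule.zero_mem _
  · refine KoA_smul _ (PmB_single_mem ?_)
    have h1 : (q.2 - Finsupp.single i 1 + Finsupp.single i 1 : Fin n →₀ ℕ) = q.2 := by
      ext x
      simp only [Finsupp.tsub_apply, Finsupp.add_apply, Finsupp.single_apply]
      by_cases hx : i = x
      · subst hx
        rw [if_pos rfl]
        omega
      · rw [if_neg hx]
        omega
    have h2 : (q.2 - Finsupp.single i 1 : Fin n →₀ ℕ).degree + 1 = q.2.degree := by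
      conv_rhs => rw [← h1]
      rw [map_add, Finsupp.degree_single]
    have h3 : j + 1 - a q.1 + ((q.2 - Finsupp.single i 1 : Fin n →₀ ℕ).degree : ℤ) =
        j - a q.1 + (q.2.degree : ℤ) := by
      omega
    rw [h3]
    exact h q

theorem KoA_ord_add {t : ℕ} {j : ℤ} {φ ψ : Pm n K t} (h : OrdLe j φ) (h' : OrdLe j ψ) :
    OrdLe j (φ + ψ) := by
  intro p hp
  rw [Finsupp.add_apply, h p hp, h' p hp, add_zero]

theorem KoA_ord_smul {t : ℕ} {j : ℤ} (c : K) {φ : Pm n K t} (h : OrdLe j φ) :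
    OrdLe j (c • φ) := by
  intro p hp
  rw [Finsupp.smul_apply, h p hp, smul_zero]

theorem KoA_ord_zero {t : ℕ} (j : ℤ) : OrdLe j (0 : Pm n K t) := fun _ _ => rfl

theorem KoA_ord_sum {t : ℕ} {j : ℤ} {ι : Type*} (s : Finset ι) (f : ι → Pm n K t)
    (h : ∀ x ∈ s, OrdLe j (f x)) : OrdLe j (∑ x ∈ s, f x) :=
  Finset.sum_induction f (OrdLe j) (fun _ _ ha hb => KoA_ord_add ha hb) (KoA_ord_zero j) h

theorem KoA_ord_single {t : ℕ} {j : ℤ} {q : Fin t} {γ : Fin n →₀ ℕ} (hγ : (γ.degree : ℤ) ≤ j)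
    (r : MvPowerSeries (Fin n) K) : OrdLe j (Finsupp.single (q, γ) r : Pm n K t) := by
  intro p hp
  classical
  rw [Finsupp.single_apply, if_neg]
  intro e
  rw [← e] at hp
  exact absurd hp (not_lt.2 hγ)

theorem KoA_sub_add {γ : Fin n →₀ ℕ} {i : Fin n} (h : γ i ≠ 0) :
    (γ - Finsupp.single i 1 + Finsupp.single i 1 : Fin n →₀ ℕ) = γ := by
  ext x
  simp only [Finsupp.tsub_apply, Finsupp.add_apply, Finsupp.single_apply]
  by_cases hx : i = x
  · subst hx
    rw [if_pos rfl]
    omega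
  · rw [if_neg hx]
    omega

theorem KoA_degree {γ : Fin n →₀ ℕ} {i : Fin n} (h : γ i ≠ 0) :
    (γ - Finsupp.single i 1 : Fin n →₀ ℕ).degree + 1 = γ.degree := by
  conv_rhs => rw [← KoA_sub_add h]
  rw [map_add, Finsupp.degree_single]

/-- `nab_i dxi_i` on a term -/
theorem KoA_nd (t : ℕ) (i : Fin n) (j : Fin t) (γ : Fin n →₀ ℕ) (r : MvPowerSeries (Fin n) K) :
    (pmc n K t).nab i (dxi n K t i (Finsupp.single (j, γ) r)) =
      (γ i : K) • Finsupp.single (j, γ - Finsupp.single i 1) (pderiv K i r) +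
        (γ i : K) • Finsupp.single (j, γ) r := by
  rw [dxi_single, map_smul, pmnab_single, smul_add]
  by_cases h : γ i = 0
  · rw [h, Nat.cast_zero, zero_smul, zero_smul, zero_smul]
  · rw [KoA_sub_add h]

/-- `dxi_i nab_i` on a term -/
theorem KoA_dn (t : ℕ) (i : Fin n) (j : Fin t) (γ : Fin n →₀ ℕ) (r : MvPowerSeries (Fin n) K) :
    dxi n K t i ((pmc n K t).nab i (Finsupp.single (j, γ) r)) =
      (γ i : K) • Finsupp.single (j, γ - Finsupp.single i 1) (pderiv K i r) +
        ((γ i : K) + 1) • Finsupp.single (j, γ) r := by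
  have h1 : (γ + Finsupp.single i 1 : Fin n →₀ ℕ) i = γ i + 1 := by
    rw [Finsupp.add_apply, Finsupp.single_eq_same]
  rw [pmnab_single, map_add, dxi_single, dxi_single, h1, add_tsub_cancel_right, Nat.cast_add,
    Nat.cast_one]

theorem KoA_term (t : ℕ) (I : Finset (Fin n)) (j : Fin t) (γ : Fin n →₀ ℕ)
    (r : MvPowerSeries (Fin n) K) :
    ∑ i ∈ I, (pmc n K t).nab i (dxi n K t i (Finsupp.single (j, γ) r)) +
      ∑ i ∈ Iᶜ, dxi n K t i ((pmc n K t).nab i (Finsupp.single (j, γ) r)) =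
    ∑ i, (γ i : K) • Finsupp.single (j, γ - Finsupp.single i 1) (pderiv K i r) +
      ((γ.degree : K) + n - (I.card : K)) • Finsupp.single (j, γ) r := by
  classical
  have h1 : ∀ i ∈ I, (pmc n K t).nab i (dxi n K t i (Finsupp.single (j, γ) r)) =
      (γ i : K) • Finsupp.single (j, γ - Finsupp.single i 1) (pderiv K i r) +
        (γ i : K) • Finsupp.single (j, γ) r := fun i _ => KoA_nd t i j γ r
  have h2 : ∀ i ∈ Iᶜ, dxi n K t i ((pmc n K t).nab i (Finsupp.single (j, γ) r)) =
      (γ i : K) • Finsupp.single (j, γ - Finsupp.single i 1) (pderiv K i r) +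
        ((γ i : K) + 1) • Finsupp.single (j, γ) r := fun i _ => KoA_dn t i j γ r
  rw [Finset.sum_congr rfl h1, Finset.sum_congr rfl h2, Finset.sum_add_distrib,
    Finset.sum_add_distrib, ← Finset.sum_smul, ← Finset.sum_smul, add_add_add_comm,
    Finset.sum_add_sum_compl, ← add_smul]
  congr 2
  rw [Finset.sum_add_distrib, ← add_assoc, Finset.sum_add_sum_compl, Finset.sum_const,
    Finset.card_compl, Fintype.card_fin, nsmul_eq_mul, mul_one,
    Nat.cast_sub (card_finset_fin_le I), Finsupp.degree_eq_sum, Nat.cast_sum]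
  ring

/-- Proof. `car` for `a = nab`, `b = dxi`. On `single (j,γ) r`: `nab_i dxi_i = γ_i ∂_i(r) ∂^(γ-e_i) + γ_i r ∂^γ` and `dxi_i nab_i = γ_i ∂_i(r) ∂^(γ-e_i) + (γ_i+1) r ∂^γ`. So the sum is `|γ| + (n - |I|)` times plus a term of order `|γ| - 1`. -/
theorem koszul_homotopy (t : ℕ) (ω : Fm n (Pm n K t)) (j : ℕ)
    (ho : ∀ I, OrdLe (j : ℤ) (ω I)) (I : Finset (Fin n)) :
    OrdLe ((j : ℤ) - 1) (ext (pmc n K t).nab (con (dxi n K t) ω) I +
      con (dxi n K t) (ext (pmc n K t).nab ω) I - ((j : K) + n - (I.card : K)) • ω I) := by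
  classical
  rw [car (pmc n K t).nab (dxi n K t) (fun i l hil m => dxi_nab_of_ne t l i hil m) ω I]
  have hφ := ho I
  generalize ω I = φ at hφ ⊢
  have key : ∑ i ∈ I, (pmc n K t).nab i (dxi n K t i φ) +
      ∑ i ∈ Iᶜ, dxi n K t i ((pmc n K t).nab i φ) - ((j : K) + n - (I.card : K)) • φ =
      ∑ q ∈ φ.support,
        (∑ i, (q.2 i : K) • Finsupp.single (q.1, q.2 - Finsupp.single i 1) (pderiv K i (φ q)) +
          ((q.2.degree : K) - (j : K)) • (Finsupp.single (q.1, q.2) (φ q) : Pm n K t)) := by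
    conv_lhs => rw [PmB_sum φ]
    simp only [map_sum]
    rw [Finset.sum_comm, Finset.sum_comm (s := Iᶜ), ← Finset.sum_add_distrib, Finset.smul_sum,
      ← Finset.sum_sub_distrib]
    refine Finset.sum_congr rfl fun q _ => ?_
    rw [KoA_term, add_sub_assoc, ← sub_smul]
    congr 2
    ring
  rw [key]
  refine KoA_ord_sum _ _ fun q hq => ?_
  have hd : (q.2.degree : ℤ) ≤ j := by
    by_contra hcon
    exact (Finsupp.mem_support_iff.1 hq) (hφ q (not_le.1 hcon))
  refine KoA_ord_add (KoA_ord_sum _ _ fun i _ => ?_) ?_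
  · by_cases h0 : q.2 i = 0
    · rw [h0, Nat.cast_zero, zero_smul]
      exact KoA_ord_zero _
    · refine KoA_ord_smul _ (KoA_ord_single ?_ _)
      have := KoA_degree h0
      omega
  · by_cases h0 : q.2.degree = j
    · rw [h0, sub_self, zero_smul]
      exact KoA_ord_zero _
    · refine KoA_ord_smul _ (KoA_ord_single ?_ _)
      omega

theorem KoA_VF_con {t : ℕ} (a : Fin t → ℤ) {i : ℤ} {ω : Fm n (Pm n K t)} (h : VF (PV a) i ω) :
    VF (PV a) i (con (dxi n K t) ω) := by
  intro I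
  change ∑ l ∈ Iᶜ, sg l I • dxi n K t l (ω (insert l I)) ∈ PV a (i - I.card)
  refine Submodule.sum_mem _ fun l hl => zsmul_mem ?_ _
  have h1 := dxi_mem_PV a _ l (h (insert l I))
  rw [Finset.card_insert_of_notMem (Finset.mem_compl.1 hl)] at h1
  have h2 : i - ((I.card + 1 : ℕ) : ℤ) + 1 = i - I.card := by
    push_cast
    ring
  rwa [h2] at h1

theorem KoA_exact [CharZero K] {t : ℕ} (a : Fin t → ℤ) {p i : ℤ} (hp : p < n) (j : ℕ) :
    ∀ ω : Fm n (Pm n K t), (∀ I, OrdLe ((j : ℤ) - 1) (ω I)) → IsFm p ω → VF (PV a) i ω →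
      dR (pmc n K t) ω = 0 →
      ∃ η, IsFm (p - 1) η ∧ VF (PV a) i η ∧ ω = dR (pmc n K t) η := by
  induction j with
  | zero =>
    intro ω ho _ _ _
    refine ⟨0, fun _ _ => rfl, fun _ => Submodule.zero_mem _, ?_⟩
    rw [map_zero]
    funext I
    ext1 q
    refine ho I q ?_
    have : (0 : ℤ) ≤ (q.2.degree : ℤ) := Int.natCast_nonneg _
    push_cast
    linarith
  | succ j ih =>
    intro ω ho hf hω hd
    have ho' : ∀ I, OrdLe (j : ℤ) (ω I) := by
      intro I
      have := ho I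
      push_cast at this
      rwa [add_sub_cancel_right] at this
    have hk := koszul_homotopy t ω j ho'
    set c : K := (j : K) + n - (p : K) with hc
    have hc0 : c ≠ 0 := by
      have h1 : c = (((j : ℤ) + n - p : ℤ) : K) := by
        rw [hc]
        push_cast
        rfl
      rw [h1]
      refine Int.cast_ne_zero.2 ?_
      omega
    set κ : Fm n (Pm n K t) := con (dxi n K t) ω with hκ
    have hκf : IsFm (p - 1) κ := con_isFm _ hf
    have hκV : VF (PV a) i κ := KoA_VF_con a hω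
    have hef : IsFm p (dR (pmc n K t) κ) := by
      have := ext_isFm (pmc n K t).nab hκf
      rwa [sub_add_cancel] at this
    have heV : VF (PV a) i (dR (pmc n K t) κ) := dR_VF (PV_compat a) hκV
    have hz : ext (pmc n K t).nab ω = 0 := hd
    have g1 : ∀ I, OrdLe ((j : ℤ) - 1) ((ω - c⁻¹ • dR (pmc n K t) κ) I) := by
      intro I
      by_cases hI : (I.card : ℤ) = p
      · have h1 := hk I
        rw [hz, map_zero, Pi.zero_apply, add_zero] at h1
        have h2 : (I.card : K) = (p : K) := by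
          rw [← hI, Int.cast_natCast]
        rw [h2] at h1
        have h3 : (ω - c⁻¹ • dR (pmc n K t) κ) I =
            (-c⁻¹) • (ext (pmc n K t).nab κ I - c • ω I) := by
          rw [Pi.sub_apply, Pi.smul_apply, smul_sub, smul_smul, neg_mul, inv_mul_cancel₀ hc0,
            neg_smul, neg_smul, one_smul]
          change ω I - c⁻¹ • ext (pmc n K t).nab κ I = _
          abel
        rw [h3]
        exact KoA_ord_smul _ h1
      · rw [Pi.sub_apply, Pi.smul_apply, hf I hI, hef I hI, smul_zero, sub_zero]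
        exact KoA_ord_zero _
    have g2 : IsFm p (ω - c⁻¹ • dR (pmc n K t) κ) := by
      intro I hI
      rw [Pi.sub_apply, Pi.smul_apply, hf I hI, hef I hI, smul_zero, sub_zero]
    have g3 : VF (PV a) i (ω - c⁻¹ • dR (pmc n K t) κ) := by
      intro I
      rw [Pi.sub_apply, Pi.smul_apply]
      exact Submodule.sub_mem _ (hω I) (KoA_smul _ (heV I))
    have g4 : dR (pmc n K t) (ω - c⁻¹ • dR (pmc n K t) κ) = 0 := by
      rw [map_sub, map_smul, hd, dR_dR, smul_zero, sub_zero]
    obtain ⟨η, h1, h2, h3⟩ := ih _ g1 g2 g3 g4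
    refine ⟨c⁻¹ • κ + η, ?_, ?_, ?_⟩
    · intro I hI
      rw [Pi.add_apply, Pi.smul_apply, hκf I hI, h1 I hI, smul_zero, add_zero]
    · intro I
      rw [Pi.add_apply, Pi.smul_apply]
      exact Submodule.add_mem _ (KoA_smul _ (hκV I)) (h2 I)
    · rw [map_add, map_smul, ← h3, add_sub_cancel]

/-- Exactness below degree `n`.

Proof. Let `ω` have order `≤ j` in all coefficients (finitely many finitely supported). Induct on `j` (from `-1`, where `ω = 0`, `η = 0`). By `koszul_homotopy` and `dR ω = 0`: `dR (con dxi ω) - (j + n - p) ω` has order `≤ j - 1`; `j + n - p > 0` is nonzero in `K` (characteristic 0, `p < n`; coefficients with `|I| ≠ p` vanish). Put `η0 = (j+n-p)⁻¹ • con dxi ω`: degree `p - 1`, and in `V^i DR` (`dxi_mem_PV`, the index goes from `i - (|I|+1)` to `i - |I|`). `ω - dR η0` has order `≤ j-1`, is closed and lies in `V^i DR`. -/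
theorem koszul_exact [CharZero K] {t : ℕ} (a : Fin t → ℤ) {p i : ℤ} (hp : p < n)
    {ω : Fm n (Pm n K t)} (h : IsFm p ω) (hω : VF (PV a) i ω) (hd : dR (pmc n K t) ω = 0) :
    ∃ η, IsFm (p - 1) η ∧ VF (PV a) i η ∧ ω = dR (pmc n K t) η := by
  classical
  refine KoA_exact a hp
    ((Finset.univ.sup fun I : Finset (Fin n) => (ω I).support.sup fun q => q.2.degree) + 1) ω
    (fun I q hq => ?_) h hω hd
  by_contra hne
  have h1 : q.2.degree ≤ (ω I).support.sup fun q => q.2.degree :=
    Finset.le_sup (f := fun q : Fin t × (Fin n →₀ ℕ) => q.2.degree) (Finsupp.mem_support_iff.2 hne)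
  have h2 : ((ω I).support.sup fun q => q.2.degree) ≤
      Finset.univ.sup fun I : Finset (Fin n) => (ω I).support.sup fun q => q.2.degree :=
    Finset.le_sup (f := fun I : Finset (Fin n) => (ω I).support.sup fun q => q.2.degree)
      (Finset.mem_univ I)
  push_cast at hq
  have h3 := h1.trans h2
  omega

end B5a
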