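import Pool.Agent.H.MP_b5a980_ag.DvE
import Pool.Agent.H.MP_b5a980_ag.DvT
import Pool.Agent.H.MP_b5a980_ag.KoA
import Pool.Agent.H.MP_b5a980_ag.ToA

set_option autoImplicit false
set_option linter.unusedSectionVars false
set_option linter.style.longLine false

/-!
Closed functionals on the free module (MP_b5a980_ag, part D).
-/

namespace B5a

universe u v w

open MvPowerSeries

variable {n : ℕ} {K : Type u} [Field K]

/-- Truncation: the terms of order `< o`. -/
noncomputable def ptr (n : ℕ) (K : Type u) [Field K] (t : ℕ) (o : ℕ) :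
    Pm n K t →ₗ[MvPowerSeries (Fin n) K] Pm n K t where
  toFun φ := φ.filter fun p => p.2.degree < o
  map_add' := by
    intro x y
    exact Finsupp.filter_add
  map_smul' := by
    intro c x
    exact Finsupp.filter_smul

/-- The part of pure order `o`. -/
noncomputable def DvP_P (n : ℕ) (K : Type u) [Field K] (t : ℕ) (o : ℕ) :
    Pm n K t →ₗ[MvPowerSeries (Fin n) K] Pm n K t where
  toFun φ := φ.filter fun p => p.2.degree = o
  map_add' := by
    intro x y
    exact Finsupp.filter_add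
  map_smul' := by
    intro c x
    exact Finsupp.filter_smul

theorem DvP_P_apply (t o : ℕ) (φ : Pm n K t) (p : Fin t × (Fin n →₀ ℕ)) :
    DvP_P n K t o φ p = if p.2.degree = o then φ p else 0 := by
  change (φ.filter fun p => p.2.degree = o) p = _
  rw [Finsupp.filter_apply]

theorem DvP_P_low {t o : ℕ} {φ : Pm n K t} (h : OrdLe ((o : ℤ) - 1) φ) : DvP_P n K t o φ = 0 := by
  ext1 p
  rw [DvP_P_apply, Finsupp.zero_apply]
  split_ifs with hp
  · exact h p (by omega)
  · rfl

theorem DvP_P_ord {t o : ℕ} (φ : Pm n K t) : OrdLe (o : ℤ) (DvP_P n K t o φ) := by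
  intro p hp
  rw [DvP_P_apply, if_neg (by omega)]

theorem DvP_sub_ord {t o : ℕ} {φ : Pm n K t} (h : OrdLe (o : ℤ) φ) :
    OrdLe ((o : ℤ) - 1) (φ - DvP_P n K t o φ) := by
  intro p hp
  rw [Finsupp.sub_apply, DvP_P_apply]
  split_ifs with hq
  · exact sub_self _
  · rw [h p (by omega), sub_zero]

theorem DvP_P_PV {t : ℕ} {a : Fin t → ℤ} {i : ℤ} (o : ℕ) {φ : Pm n K t} (h : φ ∈ PV a i) :
    DvP_P n K t o φ ∈ PV a i := by
  intro p
  rw [DvP_P_apply]
  split_ifs
  · exact h p
  · exact Ideal.zero_mem _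

theorem DvP_PV_mono {t : ℕ} {a : Fin t → ℤ} {i i' : ℤ} (h : i ≤ i') :
    (PV a i' : Submodule (MvPowerSeries (Fin n) K) (Pm n K t)) ≤ PV a i := by
  intro φ hφ p
  exact mI_anti (Int.toNat_le_toNat (by omega)) (hφ p)

/-- Multiplication by the symbol. -/
noncomputable def DvP_xi (n : ℕ) (K : Type u) [Field K] (t : ℕ) (l : Fin n) :
    Pm n K t →ₗ[K] Pm n K t :=
  Finsupp.lmapDomain (MvPowerSeries (Fin n) K) K
    (fun p : Fin t × (Fin n →₀ ℕ) => (p.1, p.2 + Finsupp.single l 1))

/-- The derivative of the coefficients. -/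
noncomputable def DvP_de (n : ℕ) (K : Type u) [Field K] (t : ℕ) (l : Fin n) :
    Pm n K t →ₗ[K] Pm n K t :=
  Finsupp.mapRange.linearMap ((pderiv K l : Derivation K _ _) :
    MvPowerSeries (Fin n) K →ₗ[K] MvPowerSeries (Fin n) K)

theorem DvP_nab (t : ℕ) (l : Fin n) (φ : Pm n K t) :
    (pmc n K t).nab l φ = DvP_de n K t l φ + DvP_xi n K t l φ := rfl

theorem DvP_xi_single (t : ℕ) (l : Fin n) (q : Fin t) (γ : Fin n →₀ ℕ)
    (r : MvPowerSeries (Fin n) K) :
    DvP_xi n K t l (Finsupp.single (q, γ) r) = Finsupp.single (q, γ + Finsupp.single l 1) r := by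
  unfold DvP_xi
  rw [Finsupp.lmapDomain_apply, Finsupp.mapDomain_single]

theorem DvP_de_apply (t : ℕ) (l : Fin n) (φ : Pm n K t) (p : Fin t × (Fin n →₀ ℕ)) :
    DvP_de n K t l φ p = pderiv K l (φ p) := by
  unfold DvP_de
  rw [Finsupp.mapRange.linearMap_apply, Finsupp.mapRange_apply]
  rfl

theorem DvP_de_ord {t : ℕ} (l : Fin n) {j : ℤ} {φ : Pm n K t} (h : OrdLe j φ) :
    OrdLe j (DvP_de n K t l φ) := by
  intro p hp
  rw [DvP_de_apply, h p hp, map_zero]

theorem DvP_de_PV {t : ℕ} {a : Fin t → ℤ} {i : ℤ} (l : Fin n) {φ : Pm n K t} (h : φ ∈ PV a i) :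
    DvP_de n K t l φ ∈ PV a (i - 1) := by
  intro p
  rw [DvP_de_apply]
  have h1 := h p
  rcases Nat.eq_zero_or_pos (i - a p.1 + p.2.degree).toNat with h2 | h2
  · have h3 : (i - 1 - a p.1 + p.2.degree).toNat = 0 := by omega
    rw [h3, mI_zero]
    exact Submodule.mem_top
  · refine pderiv_mem_mI (mI_anti (le_of_eq ?_) h1) l
    omega

theorem DvP_supp_ord {t : ℕ} {j : ℤ} {φ : Pm n K t} (h : OrdLe j φ)
    {p : Fin t × (Fin n →₀ ℕ)} (hp : p ∈ φ.support) : (p.2.degree : ℤ) ≤ j := by
  by_contra hcon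
  exact (Finsupp.mem_support_iff.1 hp) (h p (not_le.1 hcon))

theorem DvP_xi_ord {t : ℕ} (l : Fin n) {j : ℤ} {φ : Pm n K t} (h : OrdLe j φ) :
    OrdLe (j + 1) (DvP_xi n K t l φ) := by
  rw [PmB_sum φ, map_sum]
  refine KoA_ord_sum _ _ fun p hp => ?_
  rw [DvP_xi_single]
  refine KoA_ord_single ?_ _
  have h1 := DvP_supp_ord h hp
  rw [map_add, Finsupp.degree_single]
  push_cast
  omega

theorem DvP_ord_mono {t : ℕ} {j j' : ℤ} (hj : j ≤ j') {φ : Pm n K t} (h : OrdLe j φ) :
    OrdLe j' φ := fun p hp => h p (lt_of_le_of_lt hj hp)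

theorem DvP_nab_ord {t : ℕ} (l : Fin n) {j : ℤ} {φ : Pm n K t} (h : OrdLe j φ) :
    OrdLe (j + 1) ((pmc n K t).nab l φ) := by
  rw [DvP_nab]
  exact KoA_ord_add (DvP_ord_mono (by omega) (DvP_de_ord l h)) (DvP_xi_ord l h)

theorem DvP_dxi_ord {t : ℕ} (l : Fin n) {j : ℤ} {φ : Pm n K t} (h : OrdLe j φ) :
    OrdLe (j - 1) (dxi n K t l φ) := by
  rw [PmB_sum φ, map_sum]
  refine KoA_ord_sum _ _ fun p hp => ?_
  rw [dxi_single]
  by_cases h0 : p.2 l = 0
  · rw [h0, Nat.cast_zero, zero_smul]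
    exact KoA_ord_zero _
  · refine KoA_ord_smul _ (KoA_ord_single ?_ _)
    have h1 := DvP_supp_ord h hp
    have h2 := KoA_degree h0
    omega

theorem DvP_P_single (t o : ℕ) (q : Fin t) (γ : Fin n →₀ ℕ) (r : MvPowerSeries (Fin n) K) :
    DvP_P n K t o (Finsupp.single (q, γ) r) =
      if γ.degree = o then Finsupp.single (q, γ) r else 0 := by
  change (Finsupp.single (q, γ) r : Pm n K t).filter (fun p => p.2.degree = o) = _
  split_ifs with h
  · exact Finsupp.filter_single_of_pos _ h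
  · exact Finsupp.filter_single_of_neg _ h

theorem DvP_P_smul (t o : ℕ) (c : K) (φ : Pm n K t) :
    DvP_P n K t o (c • φ) = c • DvP_P n K t o φ := by
  ext1 p
  rw [DvP_P_apply, Finsupp.smul_apply, Finsupp.smul_apply, DvP_P_apply]
  split_ifs
  · rfl
  · rw [smul_zero]

theorem DvP_P_xi (t o : ℕ) (l : Fin n) (φ : Pm n K t) :
    DvP_P n K t (o + 1) (DvP_xi n K t l φ) = DvP_xi n K t l (DvP_P n K t o φ) := by
  induction φ using Finsupp.induction_linear with
  | zero => simp only [map_zero]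
  | add f g hf hg => simp only [map_add, hf, hg]
  | single q r =>
    obtain ⟨j, γ⟩ := q
    rw [DvP_xi_single, DvP_P_single, DvP_P_single, map_add, Finsupp.degree_single]
    by_cases h : γ.degree = o
    · rw [if_pos h, if_pos (by omega), DvP_xi_single]
    · rw [if_neg h, if_neg (by omega), map_zero]

theorem DvP_xi_dxi (t : ℕ) (k l : Fin n) (h : k ≠ l) (φ : Pm n K t) :
    DvP_xi n K t k (dxi n K t l φ) = dxi n K t l (DvP_xi n K t k φ) := by
  induction φ using Finsupp.induction_linear with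
  | zero => simp only [map_zero]
  | add f g hf hg => simp only [map_add, hf, hg]
  | single q r =>
    obtain ⟨j, γ⟩ := q
    have h1 : (γ + Finsupp.single k 1 : Fin n →₀ ℕ) l = γ l := by
      rw [Finsupp.add_apply, Finsupp.single_apply, if_neg h, add_zero]
    rw [dxi_single, map_smul, DvP_xi_single, DvP_xi_single, dxi_single, h1]
    by_cases h0 : γ l = 0
    · rw [h0, Nat.cast_zero, zero_smul, zero_smul]
    · have h2 : (γ + Finsupp.single k 1 : Fin n →₀ ℕ) - Finsupp.single l 1 =
          γ - Finsupp.single l 1 + Finsupp.single k 1 := by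
        ext x
        simp only [Finsupp.tsub_apply, Finsupp.add_apply, Finsupp.single_apply]
        by_cases hx : l = x
        · have hkx : k ≠ x := fun e => h (e.trans hx.symm)
          rw [if_pos hx, if_neg hkx]
          omega
        · rw [if_neg hx]
          omega
      rw [h2]

/-- the counting identity -/
theorem DvP_count (t o : ℕ) (I : Finset (Fin n)) (φ : Pm n K t) :
    DvP_P n K t o (∑ i ∈ I, DvP_xi n K t i (dxi n K t i φ) +
      ∑ i ∈ Iᶜ, dxi n K t i (DvP_xi n K t i φ)) =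
    ((o : K) + n - (I.card : K)) • DvP_P n K t o φ := by
  classical
  induction φ using Finsupp.induction_linear with
  | zero => simp
  | add f g hf hg =>
    simp only [map_add, smul_add, Finset.sum_add_distrib] at hf hg ⊢
    rw [← hf, ← hg]
    abel
  | single q r =>
    obtain ⟨j, γ⟩ := q
    have h1 : ∀ i ∈ I, DvP_xi n K t i (dxi n K t i (Finsupp.single (j, γ) r)) =
        (γ i : K) • Finsupp.single (j, γ) r := by
      intro i _
      rw [dxi_single, map_smul, DvP_xi_single]
      by_cases h0 : γ i = 0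
      · rw [h0, Nat.cast_zero, zero_smul, zero_smul]
      · rw [KoA_sub_add h0]
    have h2 : ∀ i ∈ Iᶜ, dxi n K t i (DvP_xi n K t i (Finsupp.single (j, γ) r)) =
        ((γ i : K) + 1) • Finsupp.single (j, γ) r := by
      intro i _
      have h3 : (γ + Finsupp.single i 1 : Fin n →₀ ℕ) i = γ i + 1 := by
        rw [Finsupp.add_apply, Finsupp.single_eq_same]
      rw [DvP_xi_single, dxi_single, h3, add_tsub_cancel_right, Nat.cast_add, Nat.cast_one]
    rw [Finset.sum_congr rfl h1, Finset.sum_congr rfl h2, ← Finset.sum_smul, ← Finset.sum_smul,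
      ← add_smul, DvP_P_smul, DvP_P_single]
    split_ifs with hγ
    · congr 1
      rw [Finset.sum_add_distrib, ← add_assoc, Finset.sum_add_sum_compl, Finset.sum_const,
        Finset.card_compl, Fintype.card_fin, nsmul_eq_mul, mul_one,
        Nat.cast_sub (card_finset_fin_le I), ← hγ, Finsupp.degree_eq_sum, Nat.cast_sum]
      ring
    · rw [smul_zero, smul_zero]


theorem DvP_trd_apply {t : ℕ} (lam : Fm n (Module.Dual K (Pm n K t))) (J : Finset (Fin n))
    (m : Pm n K t) :
    trd (pmc n K t) lam J m = ∑ l ∈ Jᶜ, sg l J • lam (insert l J) ((pmc n K t).nab l m) := by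
  change (∑ l ∈ Jᶜ, sg l J • tnab (pmc n K t) l (lam (insert l J))) m = _
  rw [LinearMap.sum_apply]
  rfl

theorem DvP_trd_isFm {t : ℕ} {i : ℤ} {lam : Fm n (Module.Dual K (Pm n K t))}
    (h : IsFm (i + 1) lam) : IsFm i (trd (pmc n K t) lam) := by
  have h1 := con_isFm (tnab (pmc n K t)) h
  rw [add_sub_cancel_right] at h1
  exact h1

theorem DvP_cont_sum {t : ℕ} {W : Submodule (MvPowerSeries (Fin n) K) (Pm n K t)} {ι : Type*}
    (s : Finset ι) (f : ι → Module.Dual K (Pm n K t)) (h : ∀ x ∈ s, ContOn W (f x)) :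
    ContOn W (∑ x ∈ s, f x) :=
  Finset.sum_induction f (ContOn W) (fun _ _ ha hb => ha.add hb)
    (fun _ _ => ⟨0, fun _ _ => rfl⟩) h

theorem DvP_cont_zsmul {t : ℕ} {W : Submodule (MvPowerSeries (Fin n) K) (Pm n K t)}
    {f : Module.Dual K (Pm n K t)} (h : ContOn W f) (z : ℤ) : ContOn W (z • f) := by
  intro m hm
  obtain ⟨N, hN⟩ := h m hm
  refine ⟨N, fun r hr => ?_⟩
  rw [LinearMap.smul_apply, hN r hr, smul_zero]

theorem DvP_trd_cont {t : ℕ} (a : Fin t → ℤ) {j : ℤ} {lam : Fm n (Module.Dual K (Pm n K t))}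
    (h : ∀ J, ContOn (PV a (j - J.card)) (lam J)) (J : Finset (Fin n)) :
    ContOn (PV a (j - J.card)) (trd (pmc n K t) lam J) := by
  change ContOn _ (∑ l ∈ Jᶜ, sg l J • tnab (pmc n K t) l (lam (insert l J)))
  refine DvP_cont_sum _ _ fun l hl => DvP_cont_zsmul ?_ _
  have h1 : (j : ℤ) - ((insert l J).card : ℤ) = j - J.card - 1 := by
    rw [Finset.card_insert_of_notMem (Finset.mem_compl.1 hl)]
    push_cast
    ring
  refine ContOn.tnab l (fun m hm => ?_) (DvP_PV_mono ?_) (h (insert l J))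
  · rw [h1]
    exact (PV_compat a).nab_mem _ l m hm
  · omega

/-- One step of the construction below degree `n`. -/
theorem free_step [CharZero K] {t : ℕ} (a : Fin t → ℤ) {i j : ℤ} (hi : i < n) (o : ℕ)
    {lam mu : Fm n (Module.Dual K (Pm n K t))} (hl : IsFm i lam) (hm : IsFm (i + 1) mu)
    (hlc : ∀ J, ContOn (PV a (j - J.card)) (lam J)) (hmc : ∀ J, ContOn (PV a (j - J.card)) (mu J))
    (hc : ∀ J, ∀ m ∈ PV a (j - J.card), trd (pmc n K t) lam J m = 0)
    (he : ∀ J, ∀ m ∈ PV a (j - J.card), OrdLe ((o : ℤ) - 1) m →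
      lam J m = trd (pmc n K t) mu J m) :
    ∃ mu' : Fm n (Module.Dual K (Pm n K t)), IsFm (i + 1) mu' ∧
      (∀ J, ContOn (PV a (j - J.card)) (mu' J)) ∧
      (∀ J m, OrdLe (o : ℤ) m → mu' J m = mu J m) ∧
      ∀ J, ∀ m ∈ PV a (j - J.card), OrdLe (o : ℤ) m → lam J m = trd (pmc n K t) mu' J m := by
  classical
  set A : Fin n → (Module.Dual K (Pm n K t) →ₗ[K] Module.Dual K (Pm n K t)) :=
    fun l => Module.Dual.transpose (dxi n K t l) with hA
  set B : Fin n → (Module.Dual K (Pm n K t) →ₗ[K] Module.Dual K (Pm n K t)) :=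
    fun l => Module.Dual.transpose (DvP_xi n K t l) with hB
  have hAa : ∀ l (f : Module.Dual K (Pm n K t)) φ, A l f φ = f (dxi n K t l φ) := fun _ _ _ => rfl
  have hBa : ∀ l (f : Module.Dual K (Pm n K t)) φ, B l f φ = f (DvP_xi n K t l φ) :=
    fun _ _ _ => rfl
  set l1 : Fm n (Module.Dual K (Pm n K t)) := lam - trd (pmc n K t) mu with hl1
  have h1a : ∀ J m, l1 J m = lam J m - trd (pmc n K t) mu J m := fun J m => rfl
  have h1f : IsFm i l1 := by
    intro J hJ
    rw [hl1, Pi.sub_apply, hl J hJ, DvP_trd_isFm hm J hJ, sub_zero]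
  have h1c : ∀ J, ContOn (PV a (j - J.card)) (l1 J) := by
    intro J
    have h2 : l1 J = lam J + (-1 : K) • trd (pmc n K t) mu J := by
      refine LinearMap.ext fun m => ?_
      rw [h1a, LinearMap.add_apply, LinearMap.smul_apply, neg_smul, one_smul, sub_eq_add_neg]
    rw [h2]
    exact (hlc J).add ((DvP_trd_cont a hmc J).smul _)
  have h1z : ∀ J, ∀ m ∈ PV a (j - J.card), OrdLe ((o : ℤ) - 1) m → l1 J m = 0 := by
    intro J m hmm ho
    rw [h1a, he J m hmm ho, sub_self]
  have h1d : ∀ J, ∀ m ∈ PV a (j - J.card), trd (pmc n K t) l1 J m = 0 := by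
    intro J m hmm
    rw [hl1, map_sub, trd_trd, sub_zero]
    exact hc J m hmm
  set PK : Pm n K t →ₗ[K] Pm n K t := (DvP_P n K t o).restrictScalars K with hPK
  have hPKa : ∀ φ, PK φ = DvP_P n K t o φ := fun _ => rfl
  set l2 : Fm n (Module.Dual K (Pm n K t)) := fun J => (l1 J).comp PK with hl2
  have h2a : ∀ J φ, l2 J φ = l1 J (DvP_P n K t o φ) := fun _ _ => rfl
  have h2f : IsFm i l2 := by
    intro J hJ
    rw [hl2]
    simp only
    rw [h1f J hJ, LinearMap.zero_comp]
  have h2c : ∀ J, ContOn (PV a (j - J.card)) (l2 J) := by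
    intro J m hmm
    obtain ⟨N, hN⟩ := h1c J _ (DvP_P_PV o hmm)
    refine ⟨N, fun r hr => ?_⟩
    rw [h2a, map_smul]
    exact hN r hr
  set c : K := (o : K) + n - (i : K) with hcdef
  have hc0 : c ≠ 0 := by
    have h1 : c = (((o : ℤ) + n - i : ℤ) : K) := by
      rw [hcdef]
      push_cast
      rfl
    rw [h1]
    refine Int.cast_ne_zero.2 ?_
    omega
  set nu : Fm n (Module.Dual K (Pm n K t)) := c⁻¹ • ext A l2 with hnu
  have hnua : ∀ J φ, nu J φ =
      c⁻¹ • ∑ k ∈ J, sg k J • l1 (J.erase k) (DvP_P n K t o (dxi n K t k φ)) := by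
    intro J φ
    have h3 : nu J = c⁻¹ • ∑ k ∈ J, sg k J • A k (l2 (J.erase k)) := rfl
    rw [h3, LinearMap.smul_apply, LinearMap.sum_apply]
    rfl
  have hnf : IsFm (i + 1) nu := by
    intro J hJ
    rw [hnu, Pi.smul_apply, ext_isFm A h2f J hJ, smul_zero]
  have hnc : ∀ J, ContOn (PV a (j - J.card)) (nu J) := by
    intro J
    have h3 : nu J = c⁻¹ • ∑ k ∈ J, sg k J • A k (l2 (J.erase k)) := rfl
    rw [h3]
    refine ContOn.smul (DvP_cont_sum _ _ fun k hk => DvP_cont_zsmul ?_ _) _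
    intro m hmm
    have h4 : dxi n K t k m ∈ PV a (j - (J.erase k).card) := by
      have h5 := dxi_mem_PV a _ k hmm
      have h6 : j - (J.card : ℤ) + 1 = j - ((J.erase k).card : ℤ) := by
        have h7 := Finset.card_erase_add_one hk
        omega
      rwa [h6] at h5
    obtain ⟨N, hN⟩ := h2c _ _ h4
    refine ⟨N, fun r hr => ?_⟩
    rw [hAa]
    have h5 : dxi n K t k (r • m) = r • dxi n K t k m := by
      clear * -
      induction m using Finsupp.induction_linear with
      | zero => simp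
      | add f g hf hg => rw [smul_add, map_add, hf, hg, map_add, smul_add]
      | single q s =>
        obtain ⟨j, γ⟩ := q
        have h6 : ∀ p, (Finsupp.single p (r • s) : Pm n K t) = r • Finsupp.single p s :=
          fun p => (Finsupp.smul_single r p s).symm
        rw [← h6, dxi_single, dxi_single, h6, smul_comm]
    rw [h5]
    exact hN r hr
  have hnz : ∀ J φ, OrdLe (o : ℤ) φ → nu J φ = 0 := by
    intro J φ hφ
    rw [hnua, Finset.sum_eq_zero, smul_zero]
    intro k _
    rw [DvP_P_low (DvP_dxi_ord k hφ), map_zero, smul_zero]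
  refine ⟨mu + nu, ?_, ?_, ?_, ?_⟩
  · intro J hJ
    rw [Pi.add_apply, hm J hJ, hnf J hJ, add_zero]
  · intro J
    exact (hmc J).add (hnc J)
  · intro J m ho
    rw [Pi.add_apply, LinearMap.add_apply, hnz J m ho, add_zero]
  · intro J φ hφ ho
    rw [map_add, Pi.add_apply, LinearMap.add_apply]
    by_cases hJ : (J.card : ℤ) = i
    swap
    · rw [hl J hJ, DvP_trd_isFm hm J hJ, DvP_trd_isFm hnf J hJ]
      simp
    -- the main computation
    have g1 : l1 J φ = l1 J (DvP_P n K t o φ) := by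
      have h3 : l1 J (φ - DvP_P n K t o φ) = 0 :=
        h1z J _ (Submodule.sub_mem _ hφ (DvP_P_PV o hφ)) (DvP_sub_ord ho)
      rw [map_sub, sub_eq_zero] at h3
      exact h3
    have g2 : trd (pmc n K t) nu J φ = con B nu J φ := by
      rw [DvP_trd_apply]
      have h3 : con B nu J = ∑ l ∈ Jᶜ, sg l J • B l (nu (insert l J)) := rfl
      rw [h3, LinearMap.sum_apply]
      refine Finset.sum_congr rfl fun l _ => ?_
      rw [LinearMap.smul_apply, hBa, DvP_nab, map_add, hnz _ _ (DvP_de_ord l ho), zero_add]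
    have g3 : con B nu J φ = c⁻¹ • con B (ext A l2) J φ := by
      rw [hnu, map_smul]
      rfl
    have g4 : ext A (con B l2) J φ = 0 := by
      have h3 : ext A (con B l2) J = ∑ k ∈ J, sg k J • A k (con B l2 (J.erase k)) := rfl
      rw [h3, LinearMap.sum_apply]
      refine Finset.sum_eq_zero fun k hk => ?_
      rw [LinearMap.smul_apply, hAa]
      have h4 : con B l2 (J.erase k) = ∑ l ∈ (J.erase k)ᶜ, sg l (J.erase k) •
          B l (l2 (insert l (J.erase k))) := rfl
      set J' := J.erase k with hJ'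
      have hk1 : dxi n K t k φ ∈ PV a (j - J'.card) := by
        have h5 := dxi_mem_PV a _ k hφ
        have h6 : j - (J.card : ℤ) + 1 = j - (J'.card : ℤ) := by
          have h7 := Finset.card_erase_add_one hk
          rw [← hJ'] at h7
          omega
        rwa [h6] at h5
      have hk2 := DvP_dxi_ord k ho
      set ψ := dxi n K t k φ with hψ
      rw [h4, LinearMap.sum_apply]
      have h5 : ∑ l ∈ J'ᶜ, (sg l J' • B l (l2 (insert l J'))) ψ =
          ∑ l ∈ J'ᶜ, sg l J' • l1 (insert l J') (DvP_P n K t o (DvP_xi n K t l ψ)) := rfl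
      rw [h5]
      rcases Nat.eq_zero_or_pos o with h0 | h0
      · have h6 : ψ = 0 := by
          ext1 p
          refine hk2 p ?_
          have : (0 : ℤ) ≤ p.2.degree := Int.natCast_nonneg _
          rw [h0]
          push_cast
          omega
        rw [h6]
        simp
      · obtain ⟨o', rfl⟩ : ∃ o', o = o' + 1 := ⟨o - 1, by omega⟩
        have h6 := h1d J' _ (DvP_P_PV o' hk1)
        rw [DvP_trd_apply] at h6
        have h7 : ∑ l ∈ J'ᶜ, sg l J' • l1 (insert l J') (DvP_P n K t (o' + 1) (DvP_xi n K t l ψ)) =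
            ∑ l ∈ J'ᶜ, sg l J' • l1 (insert l J') ((pmc n K t).nab l (DvP_P n K t o' ψ)) := by
          refine Finset.sum_congr rfl fun l hl => ?_
          have h8 : l1 (insert l J') (DvP_de n K t l (DvP_P n K t o' ψ)) = 0 := by
            refine h1z _ _ ?_ ?_
            · have h9 : j - ((insert l J').card : ℤ) = j - J'.card - 1 := by
                rw [Finset.card_insert_of_notMem (Finset.mem_compl.1 hl)]
                push_cast
                ring
              rw [h9]
              exact DvP_de_PV l (DvP_P_PV o' hk1)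
            · exact DvP_de_ord l (DvP_ord_mono (by push_cast; omega) (DvP_P_ord ψ))
          rw [DvP_P_xi, DvP_nab, map_add, h8, zero_add]
        rw [h7, h6, smul_zero]
    have g5 : con B (ext A l2) J φ = c • l1 J φ := by
      have h3 := car A B (fun x y hxy f => by
        refine LinearMap.ext fun m => ?_
        rw [hAa, hBa, hBa, hAa, DvP_xi_dxi t y x hxy.symm]) l2 J
      have h4 := congrArg (fun f : Module.Dual K (Pm n K t) => f φ) h3
      simp only [LinearMap.add_apply, g4, zero_add] at h4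
      rw [h4, LinearMap.sum_apply, LinearMap.sum_apply]
      have h5 : ∑ x ∈ J, (A x (B x (l2 J))) φ + ∑ x ∈ Jᶜ, (B x (A x (l2 J))) φ =
          l2 J (∑ x ∈ J, DvP_xi n K t x (dxi n K t x φ) +
            ∑ x ∈ Jᶜ, dxi n K t x (DvP_xi n K t x φ)) := by
        rw [map_add, map_sum, map_sum]
        rfl
      rw [h5, h2a, DvP_count, map_smul, g1, hcdef, ← hJ, Int.cast_natCast]
    rw [g2, g3, g5, smul_smul, inv_mul_cancel₀ hc0, one_smul, h1a]
    ring

theorem DvP_exists_ord {t : ℕ} (φ : Pm n K t) : ∃ N : ℕ, OrdLe ((N : ℤ) - 1) φ := by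
  refine ⟨φ.support.sup (fun q => q.2.degree) + 1, fun q hq => ?_⟩
  by_contra hne
  have h1 : q.2.degree ≤ φ.support.sup fun q => q.2.degree :=
    Finset.le_sup (f := fun q : Fin t × (Fin n →₀ ℕ) => q.2.degree) (Finsupp.mem_support_iff.2 hne)
  push_cast at hq
  omega

/-- Closed functionals below degree `n` are exact. -/
theorem free_dual [CharZero K] {t : ℕ} (a : Fin t → ℤ) {i j : ℤ} (hi : i < n)
    {lam : Fm n (Module.Dual K (Pm n K t))} (hl : IsFm i lam)
    (hlc : ∀ J, ContOn (PV a (j - J.card)) (lam J))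
    (hc : ∀ J, ∀ m ∈ PV a (j - J.card), trd (pmc n K t) lam J m = 0) :
    ∃ mu : Fm n (Module.Dual K (Pm n K t)), IsFm (i + 1) mu ∧
      (∀ J, ContOn (PV a (j - J.card)) (mu J)) ∧
      ∀ J, ∀ m ∈ PV a (j - J.card), lam J m = trd (pmc n K t) mu J m := by
  classical
  let Q : ℕ → Fm n (Module.Dual K (Pm n K t)) → Prop := fun o mu => IsFm (i + 1) mu ∧
    (∀ J, ContOn (PV a (j - J.card)) (mu J)) ∧
    ∀ J, ∀ m ∈ PV a (j - J.card), OrdLe ((o : ℤ) - 1) m → lam J m = trd (pmc n K t) mu J m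
  have hstep : ∀ (o : ℕ) (mu : Fm n (Module.Dual K (Pm n K t))), ∃ mu', Q o mu → Q (o + 1) mu' ∧
      ∀ J m, OrdLe (o : ℤ) m → mu' J m = mu J m := by
    intro o mu
    by_cases hQ : Q o mu
    · obtain ⟨h1, h2, h3⟩ := hQ
      obtain ⟨mu', g1, g2, g3, g4⟩ := free_step a hi o hl h1 hlc h2 hc h3
      refine ⟨mu', fun _ => ⟨⟨g1, g2, fun J m hm ho => g4 J m hm ?_⟩, g3⟩⟩
      push_cast at ho
      rwa [add_sub_cancel_right] at ho
    · exact ⟨mu, fun h => absurd h hQ⟩
  choose nxt hnxt using hstep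
  let s : ℕ → Fm n (Module.Dual K (Pm n K t)) := fun o => Nat.rec 0 (fun o mu => nxt o mu) o
  have hs0 : s 0 = 0 := rfl
  have hss : ∀ o, s (o + 1) = nxt o (s o) := fun _ => rfl
  have hQ : ∀ o, Q o (s o) := by
    intro o
    induction o with
    | zero =>
      refine ⟨fun J _ => rfl, fun J m _ => ⟨0, fun _ _ => rfl⟩, fun J m _ ho => ?_⟩
      have h1 : m = 0 := by
        ext1 p
        refine ho p ?_
        have : (0 : ℤ) ≤ p.2.degree := Int.natCast_nonneg _
        push_cast
        omega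
      rw [h1, map_zero, map_zero]
    | succ o ih =>
      rw [hss]
      exact (hnxt o (s o) ih).1
  have hst : ∀ (o d : ℕ) J m, OrdLe (o : ℤ) m → s (o + d) J m = s o J m := by
    intro o d J m ho
    induction d with
    | zero => rfl
    | succ d ih =>
      rw [← ih, ← add_assoc, hss]
      exact (hnxt _ _ (hQ _)).2 J m (DvP_ord_mono (by push_cast; omega) ho)
  have hst' : ∀ (o o' : ℕ) J m, o ≤ o' → OrdLe (o : ℤ) m → s o' J m = s o J m := by
    intro o o' J m hoo ho
    obtain ⟨d, rfl⟩ := Nat.exists_eq_add_of_le hoo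
    exact hst o d J m ho
  let mu : Fm n (Module.Dual K (Pm n K t)) := fun J =>
    Finsupp.lsum K fun p : Fin t × (Fin n →₀ ℕ) =>
      (s p.2.degree J).comp (Finsupp.lsingle (R := K) p)
  have hmu : ∀ (N : ℕ) J m, OrdLe (N : ℤ) m → mu J m = s N J m := by
    intro N J m ho
    conv_lhs => rw [PmB_sum m]
    conv_rhs => rw [PmB_sum m]
    rw [map_sum, map_sum]
    refine Finset.sum_congr rfl fun p hp => ?_
    have h1 : mu J (Finsupp.single (p.1, p.2) (m p)) =
        s p.2.degree J (Finsupp.single (p.1, p.2) (m p)) := by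
      change (Finsupp.lsum K fun p : Fin t × (Fin n →₀ ℕ) =>
        (s p.2.degree J).comp (Finsupp.lsingle (R := K) p)) (Finsupp.single (p.1, p.2) (m p)) = _
      rw [Finsupp.lsum_single]
      rfl
    have h2 := DvP_supp_ord ho hp
    rw [h1, hst' p.2.degree N J _ (by omega) (KoA_ord_single le_rfl _)]
  refine ⟨mu, ?_, ?_, ?_⟩
  · intro J hJ
    refine LinearMap.ext fun m => ?_
    obtain ⟨N, hN⟩ := DvP_exists_ord m
    rw [hmu N J m (DvP_ord_mono (by omega) hN), (hQ N).1 J hJ]
  · intro J m hm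
    obtain ⟨N, hN⟩ := DvP_exists_ord m
    obtain ⟨N', hN'⟩ := (hQ N).2.1 J m hm
    refine ⟨N', fun r hr => ?_⟩
    rw [hmu N J (r • m), hN' r hr]
    intro p hp
    rw [Finsupp.smul_apply, hN p (by omega), smul_zero]
  · intro J m hm
    obtain ⟨N, hN⟩ := DvP_exists_ord m
    rw [(hQ N).2.2 J m hm hN, DvP_trd_apply, DvP_trd_apply]
    refine Finset.sum_congr rfl fun l _ => ?_
    rw [hmu N _ _ (DvP_ord_mono (by omega) (DvP_nab_ord l hN))]

/-- Closed functionals of degree `n` vanish on a deep step. -/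
theorem free_top {t : ℕ} (a : Fin t → ℤ) {j : ℤ}
    {lam : Fm n (Module.Dual K (Pm n K t))} (hl : IsFm (n : ℤ) lam)
    (hlc : ∀ J, ContOn (PV a (j - J.card)) (lam J))
    (hc : ∀ J, ∀ m ∈ PV a (j - J.card), trd (pmc n K t) lam J m = 0) :
    ∃ N : ℤ, j ≤ N ∧ ∀ J, ∀ m ∈ PV a (N - J.card), lam J m = 0 := by
  classical
  -- the functional kills derivatives
  have h1 : ∀ (l : Fin n) (m : Pm n K t), m ∈ PV a (j - n + 1) →
      lam Finset.univ ((pmc n K t).nab l m) = 0 := by
    intro l m hm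
    have h2 : j - (n : ℤ) + 1 = j - (((Finset.univ : Finset (Fin n)).erase l).card : ℤ) := by
      have h3 := Finset.card_erase_add_one (Finset.mem_univ l)
      rw [Finset.card_univ, Fintype.card_fin] at h3
      omega
    rw [h2] at hm
    have h3 := hc _ m hm
    have h4 : ((Finset.univ : Finset (Fin n)).erase l)ᶜ = {l} := by
      ext x
      simp
    rw [DvP_trd_apply, h4, Finset.sum_singleton, Finset.insert_erase (Finset.mem_univ l)] at h3
    have h5 : sg l ((Finset.univ : Finset (Fin n)).erase l) *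
        sg l ((Finset.univ : Finset (Fin n)).erase l) = 1 := FoA_sq _ _
    rw [← one_smul ℤ (lam Finset.univ ((pmc n K t).nab l m)), ← h5, mul_smul, h3, smul_zero]
  let e : Fin t → ℕ := fun q => (j - n - a q).toNat
  have h2 : ∀ (q : Fin t) (β : Fin n →₀ ℕ), ∃ N : ℕ, β.degree = e q → ∀ r ∈ mI n K N,
      lam Finset.univ (r • (Finsupp.single (q, 0) (monomial β 1) : Pm n K t)) = 0 := by
    intro q β
    by_cases hβ : β.degree = e q
    · have h3 : (Finsupp.single (q, 0) (monomial β 1) : Pm n K t) ∈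
          PV a (j - (Finset.univ : Finset (Fin n)).card) := by
        refine PmB_single_mem ?_
        rw [Finset.card_univ, Fintype.card_fin]
        refine monomial_mem_mI ?_ 1
        rw [hβ, map_zero]
        change (j - n - a q + 0).toNat ≤ (j - n - a q).toNat
        rw [add_zero]
      obtain ⟨N, hN⟩ := hlc _ _ h3
      exact ⟨N, fun _ => hN⟩
    · exact ⟨0, fun h => absurd h hβ⟩
  choose N hN using h2
  let N0 : ℕ := Finset.univ.sup fun q => (Finset.finsuppAntidiag Finset.univ (e q)).sup (N q)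
  have h3 : ∀ (q : Fin t) (r : MvPowerSeries (Fin n) K), r ∈ mI n K (e q + N0) →
      lam Finset.univ (Finsupp.single (q, 0) r : Pm n K t) = 0 := by
    intro q r hr
    obtain ⟨c, hc1, hc2⟩ := exists_sum_mI hr
    rw [hc2]
    have h4 : (Finsupp.single (q, (0 : Fin n →₀ ℕ))
        (∑ β ∈ Finset.finsuppAntidiag Finset.univ (e q), monomial β 1 * c β) : Pm n K t) =
        ∑ β ∈ Finset.finsuppAntidiag Finset.univ (e q),
          c β • (Finsupp.single (q, 0) (monomial β 1) : Pm n K t) := by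
      rw [← Finsupp.singleAddHom_apply, map_sum]
      refine Finset.sum_congr rfl fun β _ => ?_
      rw [Finsupp.singleAddHom_apply, Finsupp.smul_single, smul_eq_mul, mul_comm]
    rw [h4, map_sum]
    refine Finset.sum_eq_zero fun β hβ => hN q β ?_ _ (mI_anti ?_ (hc1 β))
    · exact MIB_mem_antidiag.1 hβ
    · have h5 : N q β ≤ (Finset.finsuppAntidiag Finset.univ (e q)).sup (N q) :=
        Finset.le_sup (f := N q) hβ
      exact h5.trans (Finset.le_sup (f := fun q =>
        (Finset.finsuppAntidiag Finset.univ (e q)).sup (N q)) (Finset.mem_univ q))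
  let T : ℕ := Finset.univ.sup fun q => (n + a q + e q + N0 : ℤ).toNat
  have hT : ∀ q, (e q + N0 : ℤ) ≤ (T : ℤ) - n - a q := by
    intro q
    have h4 : (n + a q + e q + N0 : ℤ).toNat ≤ T :=
      Finset.le_sup (f := fun q => (n + a q + e q + N0 : ℤ).toNat) (Finset.mem_univ q)
    omega
  refine ⟨max j T, le_max_left _ _, fun J m hm => ?_⟩
  by_cases hJ : (J.card : ℤ) = n
  swap
  · rw [hl J hJ, LinearMap.zero_apply]
  have hJu : J = Finset.univ := by
    refine Finset.eq_univ_of_card J ?_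
    rw [Fintype.card_fin]
    exact_mod_cast hJ
  rw [hJ] at hm
  obtain ⟨ψ, hψ1, hψ2⟩ := ptop_red a _ hm
  rw [hψ2, hJu, map_add, map_sum, map_sum, Finset.sum_eq_zero, Finset.sum_eq_zero, add_zero]
  · intro l _
    exact h1 l _ (DvP_PV_mono (by have := le_max_left j (T : ℤ); omega) (hψ1 l))
  · intro q _
    refine h3 q _ (mI_anti ?_ (ptop_mem a _ hm q))
    have h4 := hT q
    have h5 := le_max_right j (T : ℤ)
    omega

end B5a
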