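import Pool.Agent.H.MP_b5a980_ag.ArB
import Pool.Agent.H.MP_b5a980_ag.DvP

set_option autoImplicit false
set_option linter.unusedSectionVars false
set_option linter.style.longLine false

/-!
Closed functionals become exact on deep steps (MP_b5a980_ag, part D).
-/

namespace B5a

universe u v w

open MvPowerSeries

variable {n : ℕ} {K : Type u} [Field K]

/-- The statement `Y_i`. -/
def YProp (i : ℤ) {M : Type u} [AddCommGroup M] [Module (MvPowerSeries (Fin n) K) M] [Module K M]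
    [IsScalarTower K (MvPowerSeries (Fin n) K) M] (C : Conn n K M)
    (N : Submodule (MvPowerSeries (Fin n) K) M)
    (V : ℤ → Submodule (MvPowerSeries (Fin n) K) M) : Prop :=
  ∀ (j : ℤ) (lam : Fm n (Module.Dual K M)), IsFm i lam →
    (∀ J, ContOn (V (j - J.card)) (lam J)) → (∀ J, ∀ m ∈ N, lam J m = 0) →
    (∀ J, ∀ m ∈ V (j - J.card), trd C lam J m = 0) →
    ∃ (j' : ℤ) (mu : Fm n (Module.Dual K M)), j ≤ j' ∧ IsFm (i + 1) mu ∧
      (∀ J, ContOn (V (j' - J.card)) (mu J)) ∧ (∀ J, ∀ m ∈ N, mu J m = 0) ∧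
      ∀ J, ∀ m ∈ V (j' - J.card), lam J m = trd C mu J m

section aux

variable {M : Type v} [AddCommGroup M] [Module (MvPowerSeries (Fin n) K) M] [Module K M]
  [IsScalarTower K (MvPowerSeries (Fin n) K) M]

theorem DvY_contOn_zero (W : Submodule (MvPowerSeries (Fin n) K) M) :
    ContOn W (0 : Module.Dual K M) := fun _ _ => ⟨0, fun _ _ => rfl⟩

theorem DvY_isFm_zero {A : Type*} [AddCommGroup A] (i : ℤ) : IsFm i (0 : Fm n A) :=
  fun _ _ => rfl

theorem DvY_eq_zero {A : Type*} [AddCommGroup A] {i : ℤ} (hi : (n : ℤ) < i) {lam : Fm n A}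
    (h : IsFm i lam) : lam = 0 := by
  funext J
  apply h
  have h1 := Finset.card_le_univ J
  rw [Fintype.card_fin] at h1
  omega

theorem DvY_trd_apply (C : Conn n K M) (lam : Fm n (Module.Dual K M)) (J : Finset (Fin n))
    (m : M) : trd C lam J m = ∑ k ∈ Jᶜ, sg k J • lam (insert k J) (C.nab k m) := by
  change (∑ k ∈ Jᶜ, sg k J • tnab C k (lam (insert k J))) m = _
  rw [LinearMap.sum_apply]
  rfl

theorem DvY_contOn_zsmul {W : Submodule (MvPowerSeries (Fin n) K) M} {lam : Module.Dual K M}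
    (h : ContOn W lam) (z : ℤ) : ContOn W (z • lam) := by
  intro m hm
  obtain ⟨N, hN⟩ := h m hm
  refine ⟨N, fun r hr => ?_⟩
  rw [LinearMap.smul_apply, hN r hr, smul_zero]

theorem DvY_contOn_sum {ι : Type*} {W : Submodule (MvPowerSeries (Fin n) K) M} (s : Finset ι)
    {lam : ι → Module.Dual K M} (h : ∀ k ∈ s, ContOn W (lam k)) :
    ContOn W (∑ k ∈ s, lam k) := by
  classical
  induction s using Finset.induction_on with
  | empty =>
    rw [Finset.sum_empty]
    exact DvY_contOn_zero W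
  | insert a s ha ih =>
    rw [Finset.sum_insert ha]
    exact (h a (Finset.mem_insert_self a s)).add
      (ih fun k hk => h k (Finset.mem_insert_of_mem hk))

theorem DvY_contOn_sub {W : Submodule (MvPowerSeries (Fin n) K) M} {lam mu : Module.Dual K M}
    (h : ContOn W lam) (h' : ContOn W mu) : ContOn W (lam - mu) := by
  have h1 := DvY_contOn_zsmul h' (-1)
  rw [neg_one_zsmul] at h1
  rw [sub_eq_add_neg]
  exact h.add h1

theorem DvY_cont_trd (C : Conn n K M) {ξ : Fm n (Module.Dual K M)}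
    (h : ∀ J, ContOn (⊤ : Submodule (MvPowerSeries (Fin n) K) M) (ξ J)) (J : Finset (Fin n)) :
    ContOn (⊤ : Submodule (MvPowerSeries (Fin n) K) M) (trd C ξ J) :=
  DvY_contOn_sum _ fun k _ => DvY_contOn_zsmul
    (ContOn.tnab k (fun _ _ => Submodule.mem_top) le_rfl (h (insert k J))) _

theorem DvY_card_insert {k : Fin n} {J : Finset (Fin n)} (hk : k ∈ Jᶜ) :
    ((insert k J).card : ℤ) = J.card + 1 := by
  rw [Finset.card_insert_of_notMem (Finset.mem_compl.1 hk)]
  push_cast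
  rfl

/-- factorisation of functionals -/
theorem DvY_factor {A B : Type*} [AddCommGroup A] [Module K A] [AddCommGroup B] [Module K B]
    (f : A →ₗ[K] B) (g : A →ₗ[K] K) (h : ∀ x, f x = 0 → g x = 0) :
    ∃ g' : B →ₗ[K] K, ∀ x, g' (f x) = g x := by
  let e : (A ⧸ LinearMap.ker f) ≃ₗ[K] LinearMap.range f := f.quotKerEquivRange
  let g1 : (A ⧸ LinearMap.ker f) →ₗ[K] K := (LinearMap.ker f).liftQ g (fun x hx => h x hx)
  obtain ⟨g', hg'⟩ := LinearMap.exists_extend (g1.comp (e.symm : LinearMap.range f →ₗ[K] _))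
  refine ⟨g', fun x => ?_⟩
  have h1 : g' (f x) = (g'.comp (LinearMap.range f).subtype) ⟨f x, ⟨x, rfl⟩⟩ := rfl
  rw [h1, hg']
  change g1 (e.symm ⟨f x, ⟨x, rfl⟩⟩) = g x
  have h2 : e.symm ⟨f x, ⟨x, rfl⟩⟩ = Submodule.Quotient.mk x := by
    rw [LinearEquiv.symm_apply_eq]
    rfl
  rw [h2]
  rfl

/-- the covering map is linear over `K` -/
noncomputable def DvY_cv (C : Conn n K M) {t : ℕ} (u : Fin t → M) : Pm n K t →ₗ[K] M :=
  (cov C u).restrictScalars K

theorem DvY_cv_apply (C : Conn n K M) {t : ℕ} (u : Fin t → M) (φ : Pm n K t) :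
    DvY_cv C u φ = cov C u φ := rfl

/-- descending a functional -/
theorem DvY_descend (C : Conn n K M) {t : ℕ} (u : Fin t → M)
    (N : Submodule (MvPowerSeries (Fin n) K) M)
    (W : Submodule (MvPowerSeries (Fin n) K) (Pm n K t)) (g : Module.Dual K (Pm n K t))
    (hg : ∀ φ ∈ W, cov C u φ ∈ N → g φ = 0) :
    ∃ g' : Module.Dual K M, (∀ m ∈ N, g' m = 0) ∧ ∀ φ ∈ W, g' (cov C u φ) = g φ := by
  let W' : Submodule K (Pm n K t) := W.restrictScalars K
  let N' : Submodule K M := N.restrictScalars K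
  obtain ⟨g', hg'⟩ := DvY_factor (K := K) (A := W') (B := M ⧸ N') (((N'.mkQ).comp (DvY_cv C u)).comp W'.subtype)
    (g.comp W'.subtype) (by
      rintro ⟨φ, hφ⟩ h
      have h1 : Submodule.Quotient.mk (p := N') (cov C u φ) = 0 := h
      rw [Submodule.Quotient.mk_eq_zero] at h1
      exact hg φ hφ h1)
  refine ⟨g'.comp N'.mkQ, fun m hm => ?_, fun φ hφ => hg' ⟨φ, hφ⟩⟩
  have h1 : N'.mkQ m = 0 := by
    rw [Submodule.mkQ_apply, Submodule.Quotient.mk_eq_zero]
    exact hm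
  rw [LinearMap.comp_apply, h1, map_zero]

theorem DvY_trd_cov (C : Conn n K M) {t : ℕ} (u : Fin t → M) (lam : Fm n (Module.Dual K M))
    (J : Finset (Fin n)) (φ : Pm n K t) :
    trd (pmc n K t) (fun J => (lam J).comp (DvY_cv C u)) J φ = trd C lam J (cov C u φ) := by
  rw [DvY_trd_apply, DvY_trd_apply]
  refine Finset.sum_congr rfl fun k _ => ?_
  rw [LinearMap.comp_apply, DvY_cv_apply, cov_nab]

end aux

/-- Proof. `i < n`: `free_dual`; `i = n`: `free_top` with `μ = 0`; `i > n`: `λ = 0`. -/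
theorem yprop_free [CharZero K] (i : ℤ) {t : ℕ} (a : Fin t → ℤ) :
    YProp i (pmc n K t) ⊥ (PV a) := by
  intro j lam hl hlc _ hld
  rcases lt_trichotomy i (n : ℤ) with h | h | h
  · obtain ⟨mu, hm, hmc, hme⟩ := free_dual a h hl hlc hld
    refine ⟨j, mu, le_rfl, hm, hmc, fun J m hm0 => ?_, hme⟩
    rw [Submodule.mem_bot] at hm0
    rw [hm0, map_zero]
  · rw [h] at hl
    obtain ⟨N, hN, hN'⟩ := free_top a hl hlc hld
    refine ⟨N, 0, hN, DvY_isFm_zero _, fun J => DvY_contOn_zero _, fun J m _ => rfl,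
      fun J m hm => ?_⟩
    rw [map_zero, hN' J m hm]
    rfl
  · rw [DvY_eq_zero h hl]
    refine ⟨j, 0, le_rfl, DvY_isFm_zero _, fun J => DvY_contOn_zero _, fun J m _ => rfl,
      fun J m hm => ?_⟩
    rw [map_zero]

/-- The induction step.

Proof. `GoodRel` and `map_cov_PV`: `V i = N ⊔ (PV a i).map (cov C u)`. `L = N.comap (cov C u)`, `V_L i = PV a i ⊓ L` (compatible, good relative to `⊥` by `artin_rees_free`). Let `λ, j` be as in `YProp i`. `λ~_J = λ_J ∘ cov` is continuous on `PV a (j-|J|)`, closed there (`cov_nab`). `yprop_free`: `j1 ≥ j`, `μ` with `λ~ = trd μ` on `PV a (j1-|J|)`. On `V_L`: `trd μ = λ~ = 0` (as `cov` maps `L` to `N`). `h` for `(pmc, ⊥, V_L)`, `i + 1`: `j2 ≥ j1`, `ξ` of degree `i+2`, continuous on `V_L (j2-|J|)`, `μ = trd ξ` there. `ext_cont`: `ξ'` continuous everywhere, `= ξ` on `V_L (j2-|J|)`. `μ' = μ - trd ξ'`: continuous on `PV a (j2-|J|)`, kills `V_L (j2-|J|)`, `trd μ' = trd μ`. Descend: on `V (j2-|J|)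 = N + cov (PV a (j2-|J|))` put `μ''_J (x + cov φ) = μ'_J φ` (well defined: if `x + cov φ = 0` then `φ ∈ L`), extended linearly. It kills `N`, is continuous on `V (j2-|J|)`, and `trd μ'' = λ` there: for `m = x + cov φ`: `(trd μ'')_J m = Σ ± μ''_(J∪k) (∂_k x + cov ∂_k φ) = (trd μ')_J φ = λ~_J φ = λ_J m`. -/
theorem yprop_step [CharZero K] {i : ℤ}
    (h : ∀ (t : ℕ) (N : Submodule (MvPowerSeries (Fin n) K) (Pm n K t))
      (V : ℤ → Submodule (MvPowerSeries (Fin n) K) (Pm n K t)), Compat (pmc n K t) V →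
      (∀ i m, m ∈ N → (pmc n K t).nab i m ∈ N) → GoodRel (pmc n K t) N V →
      YProp (i + 1) (pmc n K t) N V)
    {M : Type u} [AddCommGroup M] [Module (MvPowerSeries (Fin n) K) M] [Module K M]
    [IsScalarTower K (MvPowerSeries (Fin n) K) M] {C : Conn n K M}
    {N : Submodule (MvPowerSeries (Fin n) K) M} {V : ℤ → Submodule (MvPowerSeries (Fin n) K) M}
    (hV : Compat C V) (hN : ∀ i m, m ∈ N → C.nab i m ∈ N) (hg : GoodRel C N V) :
    YProp i C N V := by
  classical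
  obtain ⟨t, u, a, hVe0⟩ := hg
  have hVe : ∀ i, V i = N ⊔ (PV a i).map (cov C u) := by
    intro i
    rw [hVe0, map_cov_PV]
  have hcovV : ∀ i φ, φ ∈ (PV a i : Submodule (MvPowerSeries (Fin n) K) (Pm n K t)) →
      cov C u φ ∈ V i := by
    intro i φ hφ
    rw [hVe]
    exact Submodule.mem_sup_right (Submodule.mem_map_of_mem hφ)
  obtain ⟨L, hL⟩ : ∃ L : Submodule (MvPowerSeries (Fin n) K) (Pm n K t), L = N.comap (cov C u) :=
    ⟨_, rfl⟩
  have hL' : ∀ φ, φ ∈ L ↔ cov C u φ ∈ N := by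
    intro φ
    rw [hL]
    rfl
  have hLs : ∀ i m, m ∈ L → (pmc n K t).nab i m ∈ L := by
    intro i m hm
    rw [hL', cov_nab]
    exact hN i _ ((hL' m).1 hm)
  have hP := PV_compat (n := n) (K := K) a
  have hc : Compat (pmc n K t) (fun i => PV a i ⊓ L) := by
    refine ⟨fun i => inf_le_inf (hP.anti i) le_rfl, ?_, ?_⟩
    · rintro i l m ⟨h1, h2⟩
      exact ⟨hP.x_mem i l m h1, Submodule.smul_mem _ _ h2⟩
    · rintro i l m ⟨h1, h2⟩
      exact ⟨hP.nab_mem i l m h1, hLs l m h2⟩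
  have hgood : GoodRel (pmc n K t) ⊥ (fun i => PV a i ⊓ L) :=
    artin_rees_free a hc (fun i => inf_le_left)
  have hy := h t ⊥ (fun i => PV a i ⊓ L) hc (by
    intro i m hm
    rw [Submodule.mem_bot] at hm ⊢
    rw [hm, map_zero]) hgood
  intro j lam hl hlc hlN hld
  -- pull back to the free module
  obtain ⟨j1, mu, hj1, hmu, hmuc, -, hmue⟩ := yprop_free (n := n) (K := K) i a j
    (fun J => (lam J).comp (DvY_cv C u))
    (fun J hJ => by
      change (lam J).comp (DvY_cv C u) = 0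
      rw [hl J hJ, LinearMap.zero_comp])
    (fun J φ hφ => by
      obtain ⟨N0, hN0⟩ := hlc J _ (hcovV _ _ hφ)
      refine ⟨N0, fun r hr => ?_⟩
      rw [LinearMap.comp_apply, DvY_cv_apply, map_smul]
      exact hN0 r hr)
    (fun J m hm => by
      rw [Submodule.mem_bot] at hm
      rw [hm, map_zero])
    (fun J φ hφ => by
      rw [DvY_trd_cov]
      exact hld J _ (hcovV _ _ hφ))
  -- the induction hypothesis
  obtain ⟨j2, ξ, hj2, hξ, hξc, -, hξe⟩ := hy j1 mu hmu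
    (fun J => (hmuc J).mono inf_le_left)
    (fun J m hm => by
      rw [Submodule.mem_bot] at hm
      rw [hm, map_zero])
    (fun J φ hφ => by
      rw [← hmue J φ hφ.1, LinearMap.comp_apply, DvY_cv_apply]
      exact hlN J _ ((hL' φ).1 hφ.2))
  have hex : ∀ J : Finset (Fin n), ∃ x : Module.Dual K (Pm n K t),
      ((J.card : ℤ) ≠ i + 1 + 1 → x = 0) ∧
      ContOn (⊤ : Submodule (MvPowerSeries (Fin n) K) (Pm n K t)) x ∧
      ∀ φ ∈ (PV a (j2 - J.card) ⊓ L : Submodule (MvPowerSeries (Fin n) K) (Pm n K t)),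
        x φ = ξ J φ := by
    intro J
    by_cases hJ : (J.card : ℤ) = i + 1 + 1
    · obtain ⟨x, hx, hx'⟩ := ext_cont _ _ (hξc J)
      exact ⟨x, fun h => absurd hJ h, hx, hx'⟩
    · refine ⟨0, fun _ => rfl, DvY_contOn_zero _, fun φ _ => ?_⟩
      rw [hξ J hJ]
  choose ξ' hξ'0 hξ'c hξ'e using hex
  obtain ⟨mu', hmu'⟩ : ∃ mu', mu' = mu - trd (pmc n K t) ξ' := ⟨_, rfl⟩
  have hmu'F : IsFm (i + 1) mu' := by
    have h1 : IsFm (i + 1 + 1 - 1) (trd (pmc n K t) ξ') := con_isFm _ fun J hJ => hξ'0 J hJ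
    rw [add_sub_cancel_right] at h1
    intro J hJ
    rw [hmu', Pi.sub_apply, hmu J hJ, h1 J hJ, sub_zero]
  have hmu'c : ∀ J : Finset (Fin n), ContOn (PV a (j2 - J.card)) (mu' J) := by
    intro J
    rw [hmu', Pi.sub_apply]
    exact DvY_contOn_sub ((hmuc J).mono (hP.le (by omega)))
      ((DvY_cont_trd _ hξ'c J).mono le_top)
  have hnab : ∀ (J : Finset (Fin n)) (k : Fin n), k ∈ Jᶜ → ∀ φ,
      φ ∈ (PV a (j2 - J.card) : Submodule (MvPowerSeries (Fin n) K) (Pm n K t)) →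
      (pmc n K t).nab k φ ∈
        (PV a (j2 - (insert k J).card) : Submodule (MvPowerSeries (Fin n) K) (Pm n K t)) := by
    intro J k hk φ hφ
    have h1 := hP.nab_mem _ k _ hφ
    rw [DvY_card_insert hk]
    have e : j2 - (J.card : ℤ) - 1 = j2 - ((J.card : ℤ) + 1) := by ring
    rw [e] at h1
    exact h1
  have hmu'k : ∀ (J : Finset (Fin n)) (φ),
      φ ∈ (PV a (j2 - J.card) : Submodule (MvPowerSeries (Fin n) K) (Pm n K t)) →
      cov C u φ ∈ N → mu' J φ = 0 := by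
    intro J φ hφ hφN
    have h1 : mu J φ = trd (pmc n K t) ξ J φ := hξe J φ ⟨hφ, (hL' φ).2 hφN⟩
    rw [hmu', Pi.sub_apply, LinearMap.sub_apply, h1, DvY_trd_apply, DvY_trd_apply, sub_eq_zero]
    refine Finset.sum_congr rfl fun k hk => ?_
    rw [hξ'e (insert k J) _ ⟨hnab J k hk φ hφ, hLs k _ ((hL' φ).2 hφN)⟩]
  have hmu't : trd (pmc n K t) mu' = trd (pmc n K t) mu := by
    rw [hmu', map_sub, trd_trd, sub_zero]
  -- descend
  have hex2 : ∀ J : Finset (Fin n), ∃ x : Module.Dual K M, ((J.card : ℤ) ≠ i + 1 → x = 0) ∧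
      (∀ m ∈ N, x m = 0) ∧
      ∀ φ ∈ (PV a (j2 - J.card) : Submodule (MvPowerSeries (Fin n) K) (Pm n K t)),
        x (cov C u φ) = mu' J φ := by
    intro J
    by_cases hJ : (J.card : ℤ) = i + 1
    · obtain ⟨x, hx, hx'⟩ := DvY_descend C u N _ (mu' J) (hmu'k J)
      exact ⟨x, fun h => absurd hJ h, hx, hx'⟩
    · refine ⟨0, fun _ => rfl, fun _ _ => rfl, fun φ _ => ?_⟩
      rw [hmu'F J hJ]
      rfl
  choose ν hν0 hνN hνe using hex2
  have hdec : ∀ (i : ℤ) (m : M), m ∈ V i → ∃ x ∈ N, ∃ φ ∈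
      (PV a i : Submodule (MvPowerSeries (Fin n) K) (Pm n K t)), m = x + cov C u φ := by
    intro i m hm
    rw [hVe] at hm
    obtain ⟨x, hx, y, ⟨φ, hφ, rfl⟩, rfl⟩ := Submodule.mem_sup.1 hm
    exact ⟨x, hx, φ, hφ, rfl⟩
  refine ⟨j2, ν, hj1.trans hj2, fun J hJ => hν0 J hJ, ?_, hνN, ?_⟩
  · intro J m hm
    obtain ⟨x, hx, φ, hφ, rfl⟩ := hdec _ m hm
    obtain ⟨N0, hN0⟩ := hmu'c J φ hφ
    refine ⟨N0, fun r hr => ?_⟩
    rw [smul_add, map_add, hνN J _ (N.smul_mem r hx), zero_add, ← map_smul,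
      hνe J _ (Submodule.smul_mem _ r hφ), hN0 r hr]
  · intro J m hm
    obtain ⟨x, hx, φ, hφ, rfl⟩ := hdec _ m hm
    have h1 : trd C ν J x = 0 := by
      rw [DvY_trd_apply]
      refine Finset.sum_eq_zero fun k _ => ?_
      rw [hνN _ _ (hN k x hx), smul_zero]
    have h2 : trd C ν J (cov C u φ) = trd (pmc n K t) mu' J φ := by
      rw [DvY_trd_apply, DvY_trd_apply]
      refine Finset.sum_congr rfl fun k hk => ?_
      rw [← cov_nab, hνe _ _ (hnab J k hk φ hφ)]
    have h3 : lam J (cov C u φ) = trd (pmc n K t) mu J φ :=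
      hmue J φ (hP.le (by omega) hφ)
    rw [map_add, map_add, hlN J x hx, h1, zero_add, zero_add, h2, hmu't, h3]

theorem DvY_all [CharZero K] (d : ℕ) : ∀ (i : ℤ), (n : ℤ) + 1 ≤ i + d →
    ∀ (M : Type u) [AddCommGroup M]
    [Module (MvPowerSeries (Fin n) K) M] [Module K M]
    [IsScalarTower K (MvPowerSeries (Fin n) K) M] (C : Conn n K M)
    (N : Submodule (MvPowerSeries (Fin n) K) M) (V : ℤ → Submodule (MvPowerSeries (Fin n) K) M),
    Compat C V → (∀ i m, m ∈ N → C.nab i m ∈ N) → GoodRel C N V → YProp i C N V := by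
  induction d with
  | zero =>
    intro i hi M _ _ _ _ C N V _ _ _
    intro j lam hl _ _ _
    rw [DvY_eq_zero (by push_cast at hi; omega) hl]
    refine ⟨j, 0, le_rfl, DvY_isFm_zero _, fun J => DvY_contOn_zero _, fun J m _ => rfl,
      fun J m hm => ?_⟩
    rw [map_zero]
  | succ d ih =>
    intro i hi M _ _ _ _ C N V hV hN hg
    refine yprop_step ?_ hV hN hg
    intro t N' V' h1 h2 h3
    exact ih (i + 1) (by push_cast at hi; omega) (Pm n K t) (pmc n K t) N' V' h1 h2 h3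

/-- Proof. Descending induction on `i`: for `i > n` trivial (`λ = 0`), then `yprop_step`. -/
theorem yprop [CharZero K] (i : ℤ) {M : Type u} [AddCommGroup M]
    [Module (MvPowerSeries (Fin n) K) M] [Module K M]
    [IsScalarTower K (MvPowerSeries (Fin n) K) M] {C : Conn n K M}
    {N : Submodule (MvPowerSeries (Fin n) K) M} {V : ℤ → Submodule (MvPowerSeries (Fin n) K) M}
    (hV : Compat C V) (hN : ∀ i m, m ∈ N → C.nab i m ∈ N) (hg : GoodRel C N V) :
    YProp i C N V :=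
  DvY_all ((n : ℤ) + 1 - i).toNat i (by
    have := Int.self_le_toNat ((n : ℤ) + 1 - i)
    linarith) M C N V hV hN hg

end B5a
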