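import Pool.Agent.H.MP_b5a980_ag.DvQ
import Pool.Agent.H.MP_b5a980_ag.DvY

set_option autoImplicit false
set_option linter.unusedSectionVars false
set_option linter.style.longLine false

/-!
The dual of the step 1 is exact (MP_b5a980_ag, part D).
-/

namespace B5a

universe u v w

open MvPowerSeries

variable {n : ℕ} {K : Type u} [Field K]

theorem DvR_le {M : Type v} [AddCommGroup M] [Module (MvPowerSeries (Fin n) K) M] [Module K M]
    [IsScalarTower K (MvPowerSeries (Fin n) K) M] {C : Conn n K M}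
    {V : ℤ → Submodule (MvPowerSeries (Fin n) K) M} (hV : Compat C V) (a : ℤ) (k : ℕ) :
    V (a + k) ≤ V a := by
  induction k with
  | zero => simp
  | succ k ih =>
    refine le_trans ?_ ih
    have h := hV.anti (a + k)
    push_cast
    rwa [← add_assoc]

/-- The complex of functionals on `V^1` is exact.

Proof. `yprop` with `j = 1`: `j' ≥ 1` and `μ` with `λ = trd μ` on `V (j'-|J|)`. Go down from `j'` to `1` with `dual_step` for `j = j'-1, .., 1` (all `≠ 0`). The functionals kill `N` throughout: `N ≤ V i` for all `i` (`GoodRel`), and `μ' = μ` on `V (j+1-|J|)`. -/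
theorem q2dual [CharZero K] {lam0 : K →+ ℚ} (hlam : lam0 1 = 1) {M : Type u} [AddCommGroup M]
    [Module (MvPowerSeries (Fin n) K) M] [Module K M]
    [IsScalarTower K (MvPowerSeries (Fin n) K) M] {C : Conn n K M}
    {N : Submodule (MvPowerSeries (Fin n) K) M} {V : ℤ → Submodule (MvPowerSeries (Fin n) K) M}
    (hV : VPack lam0 C N V) {i : ℤ} {lam : Fm n (Module.Dual K M)} (hl : IsFm i lam)
    (hlc : ∀ J, ContOn (V (1 - J.card)) (lam J)) (hk : ∀ J, ∀ m ∈ N, lam J m = 0)
    (hc : ∀ J, ∀ m ∈ V (1 - J.card), trd C lam J m = 0) :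
    ∃ mu : Fm n (Module.Dual K M), IsFm (i + 1) mu ∧ (∀ J, ContOn (V (1 - J.card)) (mu J)) ∧
      (∀ J, ∀ m ∈ N, mu J m = 0) ∧ ∀ J, ∀ m ∈ V (1 - J.card), lam J m = trd C mu J m := by
  have hN : ∀ i, N ≤ V i := by
    obtain ⟨t, u, a, h⟩ := hV.good
    intro i
    rw [h i]
    exact le_sup_left
  obtain ⟨j', mu, hj, h1, h2, h3, h4⟩ := yprop i hV.compat hV.stab hV.good 1 lam hl hlc hk hc
  obtain ⟨k, hk'⟩ := Int.eq_ofNat_of_zero_le (sub_nonneg.2 hj)
  have hj' : j' = 1 + (k : ℤ) := by
    have : j' - 1 = (k : ℤ) := hk'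
    linarith
  subst hj'
  clear hk' hj
  induction k generalizing mu with
  | zero =>
    refine ⟨mu, h1, ?_, h3, ?_⟩
    · simpa using h2
    · simpa using h4
  | succ k ih =>
    have e : ∀ J : Finset (Fin n), (1 : ℤ) + ((k + 1 : ℕ) : ℤ) - J.card =
        1 + (k : ℤ) + 1 - J.card := by
      intro J
      push_cast
      ring
    obtain ⟨mu', g1, g2, g3, g4⟩ := dual_step hlam hV.compat hV.gr (j := 1 + (k : ℤ))
      (by positivity) hl h1 (fun J => by rw [← e J]; exact h2 J)
      (fun J m hm => hc J m (by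
        have h5 := DvR_le hV.compat (1 - J.card) k
        refine h5 ?_
        have e' : (1 : ℤ) - J.card + k = 1 + (k : ℤ) - J.card := by ring
        rwa [e'])) (fun J m hm => h4 J m (by rw [e J]; exact hm))
    exact ih mu' g1 (fun J m hm => by rw [g3 J m (hN _ hm)]; exact h3 J m hm) g2 g4

end B5a
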