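import Pool.Agent.H.MP_b5a980_ag.CeD
import Pool.Agent.H.MP_b5a980_ag.Dc1
import Pool.Agent.H.MP_b5a980_ag.Dc2
import Pool.Agent.H.MP_b5a980_ag.DvR

set_option autoImplicit false
set_option linter.unusedSectionVars false
set_option linter.style.longLine false

/-!
Vanishing of the second page of the functionals on `V^1` (MP_b5a980_ag, part D).
-/

namespace B5a

universe u v w

open MvPowerSeries

variable {n r : ℕ} {K : Type u} [Field K] {lam0 : K →+ ℚ}
  {V : MvPowerSeries (Fin n) K → ℤ → Submodule (MvPowerSeries (Fin n) K) (FF n K)}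
  {f : Fin r → MvPowerSeries (Fin n) K}

/-- Factoring a functional through a linear map. -/
theorem Dc4_factor {A : Type*} {B : Type*} [AddCommGroup A] [Module K A] [AddCommGroup B]
    [Module K B] (g : A →ₗ[K] B) (S : Submodule K A) (ρ : Module.Dual K A)
    (h : ∀ a ∈ S, g a = 0 → ρ a = 0) : ∃ ν : Module.Dual K B, ∀ a ∈ S, ν (g a) = ρ a := by
  have h1 : ρ.comp S.subtype ∈ (LinearMap.ker (g.comp S.subtype)).dualAnnihilator := by
    rw [Submodule.mem_dualAnnihilator]
    intro w hw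
    exact h w w.2 (by simpa using hw)
  rw [← LinearMap.range_dualMap_eq_dualAnnihilator_ker] at h1
  obtain ⟨ν, hν⟩ := h1
  refine ⟨ν, fun a ha => ?_⟩
  have h2 := congrArg (fun F => F ⟨a, ha⟩) hν
  simpa using h2

/-- Extension of a functional on an `R`-submodule. -/
theorem Dc4_ext (W : Submodule (MvPowerSeries (Fin n) K) (Fm r (FF n K)))
    (lam : Module.Dual K W) :
    ∃ L : Module.Dual K (Fm r (FF n K)), ∀ (c : Fm r (FF n K)) (hc : c ∈ W),
      L c = lam ⟨c, hc⟩ := by
  obtain ⟨L, hL⟩ := LinearMap.exists_extend (p := W.restrictScalars K) lam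
  refine ⟨L, fun c hc => ?_⟩
  exact congrArg (fun F => F ⟨c, hc⟩) hL

theorem Dc4_contOn {W : Submodule (MvPowerSeries (Fin n) K) (Fm r (FF n K))}
    {lam : Module.Dual K W} {L : Module.Dual K (Fm r (FF n K))}
    (hL : ∀ (c : Fm r (FF n K)) (hc : c ∈ W), L c = lam ⟨c, hc⟩) (h : ContW W lam) :
    ContOn W L := by
  intro c hc
  obtain ⟨N, hN⟩ := h ⟨c, hc⟩
  refine ⟨N, fun a ha => ?_⟩
  rw [hL _ (W.smul_mem a hc)]
  exact hN a ha

theorem Dc4_trd {M : Type*} [AddCommGroup M]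
    [Module (MvPowerSeries (Fin n) K) M] [Module K M] [IsScalarTower K (MvPowerSeries (Fin n) K) M]
    (C : Conn n K M) (lam : Fm n (Module.Dual K M)) (J : Finset (Fin n)) (m : M) :
    trd C lam J m = ∑ k ∈ Jᶜ, sg k J • lam (insert k J) (C.nab k m) := by
  change (∑ k ∈ Jᶜ, sg k J • tnab C k (lam (insert k J))) m = _
  rw [LinearMap.sum_apply]
  rfl

theorem Dc4_zero {M : Type*} [AddCommGroup M]
    [Module (MvPowerSeries (Fin n) K) M] [Module K M] [IsScalarTower K (MvPowerSeries (Fin n) K) M]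
    (W : Submodule (MvPowerSeries (Fin n) K) M) :
    ContOn W (0 : Module.Dual K M) := fun _ _ => ⟨0, fun _ _ => rfl⟩

theorem Dc4_zsmul {M : Type*} [AddCommGroup M]
    [Module (MvPowerSeries (Fin n) K) M] [Module K M] [IsScalarTower K (MvPowerSeries (Fin n) K) M]
    {W : Submodule (MvPowerSeries (Fin n) K) M} {lam : Module.Dual K M} (h : ContOn W lam)
    (z : ℤ) : ContOn W (z • lam) := by
  intro m hm
  obtain ⟨N, hN⟩ := h m hm
  refine ⟨N, fun a ha => ?_⟩
  rw [LinearMap.smul_apply, hN a ha, smul_zero]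

theorem Dc4_sub {M : Type*} [AddCommGroup M]
    [Module (MvPowerSeries (Fin n) K) M] [Module K M] [IsScalarTower K (MvPowerSeries (Fin n) K) M]
    {W : Submodule (MvPowerSeries (Fin n) K) M} {lam mu : Module.Dual K M} (h : ContOn W lam)
    (h' : ContOn W mu) : ContOn W (lam - mu) := by
  intro m hm
  obtain ⟨N, hN⟩ := h m hm
  obtain ⟨N', hN'⟩ := h' m hm
  refine ⟨max N N', fun a ha => ?_⟩
  rw [LinearMap.sub_apply, hN a (mI_anti (le_max_left _ _) ha),
    hN' a (mI_anti (le_max_right _ _) ha), sub_zero]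

theorem Dc4_card {J : Finset (Fin n)} {k : Fin n} (hk : k ∈ Jᶜ) :
    ((insert k J).card : ℤ) = J.card + 1 := by
  rw [Finset.card_insert_of_notMem (Finset.mem_compl.1 hk)]
  push_cast
  rfl

/-- `cq` commutes with the derivatives. -/
theorem Dc4_cq_nab (q : ℤ) (k : Fin n) (c : Fm r (FF n K)) :
    cq q ((cconn n r K).nab k c) = (cconn n r K).nab k (cq q c) := by
  funext S
  change (if (S.card : ℤ) = q then dF n K k (c S) else 0) =
    dF n K k (if (S.card : ℤ) = q then c S else 0)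
  by_cases h : (S.card : ℤ) = q
  · rw [if_pos h, if_pos h]
  · rw [if_neg h, if_neg h, map_zero]

/-- The construction on functionals of all cochains. -/
theorem Dc4_core [CharZero K] (hlam : lam0 1 = 1) (hV : VFam lam0 V) (hf : ∀ s, f s ≠ 0)
    (i q : ℤ) (L0 : Fm n (Module.Dual K (Fm r (FF n K))))
    (hc : ∀ I : Finset (Fin n), (I.card : ℤ) = i → ContOn (VC V f q (1 - I.card)) (L0 I))
    (hk : ∀ I : Finset (Fin n), (I.card : ℤ) = i → ∀ c ∈ VC V f (q - 1) (1 - I.card),
      L0 I (cech n r K c) = 0)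
    (hd : ∀ J : Finset (Fin n), (J.card : ℤ) = i - 1 → ∀ c ∈ VC V f q (1 - J.card),
      cech n r K c = 0 →
      ∑ k ∈ Jᶜ, sg k J • L0 (insert k J) ((cconn n r K).nab k c) = 0) :
    ∃ mu nu : Fm n (Module.Dual K (Fm r (FF n K))),
      IsFm (i + 1) mu ∧ IsFm i nu ∧ (∀ I, ContOn (⊤ : Submodule (MvPowerSeries (Fin n) K) (Fm r (FF n K))) (mu I)) ∧
      (∀ I, ContOn (⊤ : Submodule (MvPowerSeries (Fin n) K) (Fm r (FF n K))) (nu I)) ∧
      (∀ I, ∀ c ∈ Lq f (q - 1), mu I (cech n r K c) = 0) ∧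
      ∀ I : Finset (Fin n), (I.card : ℤ) = i → ∀ c ∈ VC V f q (1 - I.card),
        L0 I c = trd (cconn n r K) mu I c + nu I (cech n r K c) := by
  have hΛ : ∀ J : Finset (Fin n), ∃ Λ : Module.Dual K (Fm r (FF n K)),
      ContOn (⊤ : Submodule (MvPowerSeries (Fin n) K) (Fm r (FF n K))) Λ ∧
      ((J.card : ℤ) ≠ i → Λ = 0) ∧
      ((J.card : ℤ) = i → ∀ m ∈ VC V f q (1 - J.card), Λ m = L0 J m) ∧
      ∀ m ∈ (Lq f (q - 1)).map (cech n r K), Λ m = 0 := by
    intro J
    by_cases hJ : (J.card : ℤ) = i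
    · obtain ⟨Λ, h1, h2, h3⟩ := glue_cont (VC V f q (1 - J.card))
        ((Lq f (q - 1)).map (cech n r K)) (L0 J) 0 (hc J hJ) (Dc4_zero _) (by
          rintro m hm1 ⟨b, hb, rfl⟩
          obtain ⟨b', hb', e⟩ := cech_strict hV hf (q - 1) (1 - J.card) hb
            (by rwa [sub_add_cancel])
          rw [← e, hk J hJ b' hb', LinearMap.zero_apply])
      exact ⟨Λ, h1, fun h => absurd hJ h, fun _ => h2, fun m hm => by
        rw [h3 m hm, LinearMap.zero_apply]⟩
    · exact ⟨0, Dc4_zero _, fun _ => rfl, fun h => absurd h hJ, fun _ _ => rfl⟩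
  choose Λ hΛ1 hΛ2 hΛ3 hΛ4 using hΛ
  have hp := vpack_VH hV hf q
  have htrd : ∀ J : Finset (Fin n), ∀ m ∈ VH V f q (1 - J.card),
      trd (cconn n r K) Λ J m = 0 := by
    intro J m hm
    rw [Dc4_trd]
    by_cases hJ : (J.card : ℤ) = i - 1
    · obtain ⟨v, hv, w, hw, rfl⟩ := Submodule.mem_sup.1 hm
      rw [← hd J hJ v hv.1 hv.2]
      refine Finset.sum_congr rfl fun k hkJ => ?_
      have hcard := Dc4_card hkJ
      have h1 : (cconn n r K).nab k v ∈ VC V f q (1 - ((insert k J).card : ℤ)) := by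
        have h2 := (vpack_VC hV hf q).compat.nab_mem _ k _ hv.1
        have e : (1 : ℤ) - ((insert k J).card : ℤ) = 1 - (J.card : ℤ) - 1 := by
          rw [hcard]
          ring
        rw [e]
        exact h2
      rw [map_add, map_add, hΛ4 _ _ (hp.stab k w hw), add_zero,
        hΛ3 _ (by rw [hcard, hJ]; ring) _ h1]
    · refine Finset.sum_eq_zero fun k hkJ => ?_
      rw [hΛ2 _ (by rw [Dc4_card hkJ]; omega), LinearMap.zero_apply, smul_zero]
  obtain ⟨mu, hmu1, hmu2, hmu3, hmu4⟩ := q2dual hlam hp (i := i) (lam := Λ) hΛ2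
    (fun J => (hΛ1 J).mono le_top) hΛ4 htrd
  have hext : ∀ J : Finset (Fin n), ∃ μ' : Module.Dual K (Fm r (FF n K)),
      ContOn (⊤ : Submodule (MvPowerSeries (Fin n) K) (Fm r (FF n K))) μ' ∧
      ((J.card : ℤ) ≠ i + 1 → μ' = 0) ∧ ∀ m ∈ VH V f q (1 - J.card), μ' m = mu J m := by
    intro J
    by_cases hJ : (J.card : ℤ) = i + 1
    · obtain ⟨μ', h1, h2⟩ := ext_cont (VH V f q (1 - J.card)) (mu J) (hmu2 J)
      exact ⟨μ', h1, fun h => absurd hJ h, h2⟩
    · exact ⟨0, Dc4_zero _, fun _ => rfl, fun m _ => by rw [hmu1 J hJ]⟩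
  choose mu' hm1 hm2 hm3 using hext
  have hN : ∀ j, (Lq f (q - 1)).map (cech n r K) ≤ VH V f q j := fun j => le_sup_right
  have htrd' : ∀ I : Finset (Fin n), ∀ v ∈ VH V f q (1 - I.card),
      trd (cconn n r K) mu' I v = trd (cconn n r K) mu I v := by
    intro I v hv
    rw [Dc4_trd, Dc4_trd]
    refine Finset.sum_congr rfl fun k hkI => ?_
    have h1 : (cconn n r K).nab k v ∈ VH V f q (1 - ((insert k I).card : ℤ)) := by
      have h2 := hp.compat.nab_mem _ k _ hv
      have e : (1 : ℤ) - ((insert k I).card : ℤ) = 1 - (I.card : ℤ) - 1 := by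
        rw [Dc4_card hkI]
        ring
      rw [e]
      exact h2
    rw [hm3 _ _ h1]
  have hnu : ∀ I : Finset (Fin n), ∃ ν : Module.Dual K (Fm r (FF n K)),
      ContOn (⊤ : Submodule (MvPowerSeries (Fin n) K) (Fm r (FF n K))) ν ∧
      ((I.card : ℤ) ≠ i → ν = 0) ∧ ((I.card : ℤ) = i → ∀ c ∈ VC V f q (1 - I.card),
        L0 I c = trd (cconn n r K) mu' I c + ν (cech n r K c)) := by
    intro I
    by_cases hI : (I.card : ℤ) = i
    · have hρc : ContOn (VC V f q (1 - I.card)) (L0 I - trd (cconn n r K) mu' I) := by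
        have h1 : ContOn (VC V f q (1 - I.card)) (trd (cconn n r K) mu' I) := by
          have h2 : ∀ s : Finset (Fin n), ContOn (VC V f q (1 - I.card))
              (∑ k ∈ s, sg k I • tnab (cconn n r K) k (mu' (insert k I))) := by
            intro s
            induction s using Finset.induction_on with
            | empty => exact Dc4_zero _
            | insert a s ha ih =>
              rw [Finset.sum_insert ha]
              refine ContOn.add ?_ ih
              have h3 := ContOn.tnab (C := cconn n r K) a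
                (W := VC V f q (1 - I.card)) (W' := ⊤) (fun _ _ => trivial) le_top
                (hm1 (insert a I))
              exact Dc4_zsmul h3 _
          exact h2 Iᶜ
        exact Dc4_sub (hc I hI) h1
      obtain ⟨ν, hν⟩ := Dc4_factor ((cech n r K).restrictScalars K)
        ((VC V f q (1 - I.card)).restrictScalars K) (L0 I - trd (cconn n r K) mu' I) (by
          intro a ha ha0
          have h1 : a ∈ VH V f q (1 - I.card) := Submodule.mem_sup_left ⟨ha, ha0⟩
          rw [LinearMap.sub_apply, htrd' I a h1, ← hmu4 I a h1, hΛ3 I hI a ha, sub_self])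
      have hνc : ContOn ((VC V f q (1 - I.card)).map (cech n r K)) ν := by
        rintro _ ⟨c, hcc, rfl⟩
        obtain ⟨N, hN'⟩ := hρc c hcc
        refine ⟨N, fun a ha => ?_⟩
        rw [← map_smul]
        rw [← hN' a ha]
        exact hν (a • c) (Submodule.smul_mem _ a hcc)
      obtain ⟨ν', h1, h2⟩ := ext_cont _ ν hνc
      refine ⟨ν', h1, fun h => absurd hI h, fun _ c hcc => ?_⟩
      rw [h2 _ ⟨c, hcc, rfl⟩]
      have h3 := hν c hcc
      have h4 : ν (cech n r K c) = L0 I c - trd (cconn n r K) mu' I c := h3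
      rw [h4]
      ring
    · exact ⟨0, Dc4_zero _, fun _ => rfl, fun h => absurd h hI⟩
  choose nu hn1 hn2 hn3 using hnu
  refine ⟨mu', nu, hm2, hn2, hm1, hn1, ?_, hn3⟩
  intro I c hcL
  have h1 : cech n r K c ∈ (Lq f (q - 1)).map (cech n r K) := ⟨c, hcL, rfl⟩
  rw [hm3 I _ (hN _ h1), hmu3 I _ h1]

/-- The functionals of the construction, restricted to the system. -/
noncomputable def Dc4_beta (W : Finset (Fin n) → Submodule (MvPowerSeries (Fin n) K) (Fm r (FF n K)))
    (mu nu : Fm n (Module.Dual K (Fm r (FF n K)))) (q : ℤ) : DW W := fun I =>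
  -((mu I).comp (((cq (n := n) (r := r) (K := K) q).restrictScalars K).comp
      ((W I).subtype.restrictScalars K))) +
    ((-1 : ℤ) ^ (n - I.card)) •
      ((nu I).comp (((cq (n := n) (r := r) (K := K) (q + 1)).restrictScalars K).comp
        ((W I).subtype.restrictScalars K)))

theorem Dc4_beta_apply (W : Finset (Fin n) → Submodule (MvPowerSeries (Fin n) K) (Fm r (FF n K)))
    (mu nu : Fm n (Module.Dual K (Fm r (FF n K)))) (q : ℤ) (I : Finset (Fin n)) (c : W I) :
    Dc4_beta W mu nu q I c = -(mu I (cq q (c : Fm r (FF n K)))) +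
      ((-1 : ℤ) ^ (n - I.card)) • nu I (cq (q + 1) (c : Fm r (FF n K))) := rfl

/-- The differential of the functionals. -/
theorem Dc4_d_beta {W : Finset (Fin n) → Submodule (MvPowerSeries (Fin n) K) (Fm r (FF n K))}
    (hW : WSys W) {mu nu : Fm n (Module.Dual K (Fm r (FF n K)))} {i : ℤ}
    (hmu : IsFm (i + 1) mu) (hnu : IsFm i nu) (q : ℤ) (I : Finset (Fin n))
    (hI : (I.card : ℤ) = i) (c : W I) :
    dDual hW (Dc4_beta W mu nu q) I c = trd (cconn n r K) mu I (cq q (c : Fm r (FF n K))) +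
      nu I (cech n r K (cq q (c : Fm r (FF n K)))) := by
  change -(∑ k ∈ (Iᶜ).attach, sg (k : Fin n) I •
          Dc4_beta W mu nu q (insert (k : Fin n) I) ⟨(cconn n r K).nab k c,
            hW.nab_mem I k (Finset.mem_compl.mp k.2) c c.2⟩) +
        ((-1 : ℤ) ^ (n - I.card)) • Dc4_beta W mu nu q I ⟨cech n r K c, hW.cech_mem I c c.2⟩ = _
  simp only [Dc4_beta_apply]
  rw [hmu I (by omega), LinearMap.zero_apply, neg_zero, zero_add, smul_smul, ← pow_add, ← two_mul,
    pow_mul, neg_one_sq, one_pow, one_smul, Dc4_trd, cech_cq]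
  congr 1
  rw [← Finset.sum_attach Iᶜ, ← Finset.sum_neg_distrib]
  refine Finset.sum_congr rfl fun k _ => ?_
  rw [hnu (insert (k : Fin n) I) (by rw [Dc4_card k.2]; omega), LinearMap.zero_apply, smul_zero,
    add_zero, Dc4_cq_nab, smul_neg, neg_neg]

theorem Dc4_beta_mem {W : Finset (Fin n) → Submodule (MvPowerSeries (Fin n) K) (Fm r (FF n K))}
    (hW : WSys W) {mu nu : Fm n (Module.Dual K (Fm r (FF n K)))} {p m : ℤ}
    (hmu : IsFm (n - p + 1) mu) (hnu : IsFm (n - p) nu)
    (hmc : ∀ I, ContOn (⊤ : Submodule (MvPowerSeries (Fin n) K) (Fm r (FF n K))) (mu I))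
    (hnc : ∀ I, ContOn (⊤ : Submodule (MvPowerSeries (Fin n) K) (Fm r (FF n K))) (nu I)) :
    Dc4_beta W mu nu (2 * n - m - (n - p)) ∈ dualF hW (p - 1) (m - 1) := by
  refine ⟨fun I c => ?_, fun I hI => ?_, fun I c hc => ?_⟩
  · obtain ⟨N, hN⟩ := hmc I (cq (2 * n - m - (n - p)) (c : Fm r (FF n K))) trivial
    obtain ⟨N', hN'⟩ := hnc I (cq (2 * n - m - (n - p) + 1) (c : Fm r (FF n K))) trivial
    refine ⟨max N N', fun a ha => ?_⟩
    rw [Dc4_beta_apply, Submodule.coe_smul, map_smul (cq (2 * n - m - (n - p))) a,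
      map_smul (cq (2 * n - m - (n - p) + 1)) a,
      hN a (mI_anti (le_max_left _ _) ha), hN' a (mI_anti (le_max_right _ _) ha), neg_zero,
      zero_add, smul_zero]
  · ext c
    rw [Dc4_beta_apply, hmu I (by omega), hnu I (by omega)]
    simp
  · rw [Dc4_beta_apply]
    have h1 : ∀ k : ℤ, k = 2 * n - (m - 1) - I.card → cq k (c : Fm r (FF n K)) = 0 := by
      intro k hk
      funext S
      change (if (S.card : ℤ) = k then (c : Fm r (FF n K)) S else 0) = 0
      by_cases h : (S.card : ℤ) = k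
      · rw [if_pos h, hc S (by omega)]
      · rw [if_neg h]
    by_cases hI : (I.card : ℤ) = n - p
    · rw [hmu I (by omega), h1 (2 * n - m - (n - p) + 1) (by omega), LinearMap.zero_apply,
        map_zero, neg_zero, smul_zero, zero_add]
    · by_cases hI' : (I.card : ℤ) = n - p + 1
      · rw [hnu I hI, h1 (2 * n - m - (n - p)) (by omega), LinearMap.zero_apply, map_zero,
          neg_zero, smul_zero, zero_add]
      · rw [hmu I hI', hnu I hI, LinearMap.zero_apply, LinearMap.zero_apply, neg_zero, smul_zero,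
          zero_add]

theorem acB [CharZero K] (hlam : lam0 1 = 1) (hV : VFam lam0 V) (hf : ∀ s, f s ≠ 0) (p m : ℤ)
    (lam : DW (WV V f 1)) (h : lam ∈ (DSS (WV_sys hV hf 1)).Z 2 p m) :
    lam ∈ (DSS (WV_sys hV hf 1)).B 2 p m := by
  have hW : WSys (WV V f 1) := WV_sys hV hf 1
  have hF : lam ∈ dualF hW p m := h.1
  obtain ⟨hF1, hF2, hF3⟩ := id hF
  obtain ⟨hz1, hz2⟩ := (mem_DZ2_iff hW hF).1 h
  have hdF : dDual hW lam ∈ dualF hW (p + 2) (m + 1) := h.2
  -- linear extensions
  have hext : ∀ I, ∃ L : Module.Dual K (Fm r (FF n K)), ∀ (c : Fm r (FF n K))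
      (hc : c ∈ WV V f 1 I), L c = lam I ⟨c, hc⟩ := fun I => Dc4_ext _ (lam I)
  choose L0 hL0 using hext
  obtain ⟨mu, nu, hmu, hnu, hmc, hnc, hmN, hmain⟩ := Dc4_core hlam hV hf (n - p)
    (2 * n - m - (n - p)) L0
    (fun I _ => (Dc4_contOn (hL0 I) (hF1 I)).mono (VC_le_WV hV hf))
    (fun I hI c hc => by
      have h1 : c ∈ WV V f 1 I := VC_le_WV hV hf hc
      rw [hL0 I _ (hW.cech_mem I c h1)]
      exact hz1 I hI ⟨c, h1⟩)
    (fun J hJ c hc hc0 => by
      have h1 : c ∈ WV V f 1 J := VC_le_WV hV hf hc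
      have h2 := congrArg (fun F => F ⟨c, h1⟩) (hz2 J hJ)
      change -(∑ k ∈ (Jᶜ).attach, sg (k : Fin n) J •
          lam (insert (k : Fin n) J) ⟨(cconn n r K).nab k c,
            hW.nab_mem J k (Finset.mem_compl.mp k.2) c h1⟩) +
        ((-1 : ℤ) ^ (n - J.card)) • lam J ⟨cech n r K c, hW.cech_mem J c h1⟩ = 0 at h2
      have h3 : lam J ⟨cech n r K c, hW.cech_mem J c h1⟩ = 0 := by
        have h4 : (⟨cech n r K c, hW.cech_mem J c h1⟩ : WV V f 1 J) = 0 := Subtype.ext hc0
        rw [h4, map_zero]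
      rw [h3, smul_zero, add_zero, neg_eq_zero] at h2
      rw [← Finset.sum_attach Jᶜ, ← h2]
      refine Finset.sum_congr rfl fun k _ => ?_
      rw [hL0])
  have hβ := Dc4_beta_mem hW hmu hnu hmc hnc (p := p) (m := m)
  set β := Dc4_beta (WV V f 1) mu nu (2 * n - m - (n - p)) with hβdef
  -- first page cycle
  have hβZ : β ∈ (DSS hW).Z 1 (p - 1) (m - 1) := by
    rw [mem_DZ1_iff hW hβ]
    intro I hI c
    rw [hβdef, Dc4_beta_apply, hnu I (by omega), LinearMap.zero_apply, smul_zero, add_zero]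
    have h1 := cech_cq (2 * n - m - (n - p) - 1) (c : Fm r (FF n K))
    rw [sub_add_cancel] at h1
    rw [← h1, hmN I _ (cq_mem_Lq (WV_le_WA hV hf 1 I c.2)), neg_zero]
  have hβd : dDual hW β ∈ dualF hW p m := by
    have h1 : dDual hW β ∈ dualF hW (p - 1 + 1) (m - 1 + 1) := hβZ.2
    rwa [sub_add_cancel, sub_add_cancel] at h1
  have hdβ : ∀ I : Finset (Fin n), (I.card : ℤ) = n - p → dDual hW β I = lam I := by
    intro I hI
    ext c
    rw [hβdef, Dc4_d_beta hW hmu hnu _ I hI c]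
    have hq : cq (2 * n - m - (n - p)) (c : Fm r (FF n K)) ∈
        VC V f (2 * n - m - (n - p)) (1 - I.card) := cq_mem_VC hV hf c.2
    rw [← hmain I hI _ hq, hL0 I _ (VC_le_WV hV hf hq)]
    rw [← sub_eq_zero, ← map_sub]
    refine hF3 I _ fun S hS => ?_
    have h2 : cq (2 * n - m - (n - p)) (c : Fm r (FF n K)) S = (c : Fm r (FF n K)) S :=
      if_pos (by omega)
    change cq (2 * n - m - (n - p)) (c : Fm r (FF n K)) S - (c : Fm r (FF n K)) S = 0
    rw [h2, sub_self]
  have hα : lam - dDual hW β ∈ (DSS hW).Z 1 (p + 1) m := by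
    refine ⟨?_, ?_⟩
    · have h1 : lam - dDual hW β ∈ dualF hW p m := Submodule.sub_mem _ hF hβd
      refine ⟨h1.1, fun I hI => ?_, h1.2.2⟩
      by_cases hI' : (I.card : ℤ) = n - p
      · rw [Pi.sub_apply, hdβ I hI', sub_self]
      · exact h1.2.1 I (by omega)
    · change dDual hW (lam - dDual hW β) ∈ dualF hW (p + 1 + 1) (m + 1)
      rw [map_sub, dDual_dDual, sub_zero]
      have e : p + 1 + 1 = p + 2 := by ring
      rw [e]
      exact hdF
  have e1 : (2 : ℤ) - 1 = 1 := by norm_num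
  have e2 : p - 2 + 1 = p - 1 := by ring
  change lam ∈ (DSS hW).Z (2 - 1) (p + 1) m ⊔ ((DSS hW).Z (2 - 1) (p - 2 + 1) (m - 1)).map _
  rw [e1, e2]
  exact Submodule.mem_sup.2 ⟨lam - dDual hW β, hα, dDual hW β, ⟨β, hβZ, rfl⟩, sub_add_cancel _ _⟩

end B5a
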