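import Pool.Agent.H.MP_b5a980_ag.Dc1
import Pool.Agent.H.MP_b5a980_ag.Dc2

set_option autoImplicit false
set_option linter.unusedSectionVars false
set_option linter.style.longLine false

/-!
The complex of functionals on `V^0` killing `V^1` (MP_b5a980_ag, part D).
-/

namespace B5a

universe u v w

open MvPowerSeries

variable {n r : ℕ} {K : Type u} [Field K] {lam0 : K →+ ℚ}
  {V : MvPowerSeries (Fin n) K → ℤ → Submodule (MvPowerSeries (Fin n) K) (FF n K)}
  {f : Fin r → MvPowerSeries (Fin n) K}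

/-- Functionals on `V^0` killing `V^1`. -/
noncomputable abbrev Gk (hV : VFam lam0 V) (hf : ∀ s, f s ≠ 0) : Submodule K (DW (WV V f 0)) :=
  LinearMap.ker (resD (WV_anti hV hf))

theorem dDual_mem_Gk (hV : VFam lam0 V) (hf : ∀ s, f s ≠ 0) {lam : DW (WV V f 0)}
    (h : lam ∈ Gk hV hf) : dDual (WV_sys hV hf 0) lam ∈ Gk hV hf := by
  have h0 : resD (WV_anti hV hf) lam = 0 := LinearMap.mem_ker.1 h
  have h1 : ∀ (I : Finset (Fin n)) (c : Fm r (FF n K)) (hc : c ∈ WV V f 1 I)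
      (hc' : c ∈ WV V f 0 I), lam I ⟨c, hc'⟩ = 0 := by
    intro I c hc hc'
    exact LinearMap.congr_fun (congrFun h0 I) (⟨c, hc⟩ : WV V f 1 I)
  rw [LinearMap.mem_ker]
  funext I
  apply LinearMap.ext
  intro c
  show -(∑ i ∈ (Iᶜ).attach, sg (i : Fin n) I •
      lam (insert (i : Fin n) I) ⟨(cconn n r K).nab i (c : Fm r (FF n K)),
        (WV_sys hV hf 0).nab_mem I i (Finset.mem_compl.mp i.2) c (WV_anti hV hf I c.2)⟩) +
      ((-1 : ℤ) ^ (n - I.card)) • lam I ⟨cech n r K (c : Fm r (FF n K)),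
        (WV_sys hV hf 0).cech_mem I c (WV_anti hV hf I c.2)⟩ = 0
  rw [h1 I _ ((WV_sys hV hf 1).cech_mem I c c.2), smul_zero, add_zero, neg_eq_zero]
  refine Finset.sum_eq_zero fun i _ => ?_
  rw [h1 _ _ ((WV_sys hV hf 1).nab_mem I i (Finset.mem_compl.mp i.2) c c.2), smul_zero]

/-- The complex of functionals on `V^0 / V^1`. -/
noncomputable def DgSS (hV : VFam lam0 V) (hf : ∀ s, f s ≠ 0) : FCx K (Gk hV hf) where
  d := (dDual (WV_sys hV hf 0)).restrict fun _ h => dDual_mem_Gk hV hf h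
  F p m := (dualF (WV_sys hV hf 0) p m).comap (Gk hV hf).subtype
  dd := by
    intro p m x _
    exact Subtype.ext (dDual_dDual (WV_sys hV hf 0) (x : DW (WV V f 0)))
  anti := fun p m _ h => (DSS (WV_sys hV hf 0)).anti p m h
  dF := fun p m _ h => dDual_mem (WV_sys hV hf 0) p m h

theorem DgSS_bounded (hV : VFam lam0 V) (hf : ∀ s, f s ≠ 0) : (DgSS hV hf).Bounded n := by
  have h := DSS_bounded (WV_sys hV hf 0)
  constructor
  · intro p m hp
    have h1 : dualF (WV_sys hV hf 0) p m = dualF (WV_sys hV hf 0) 0 m := h.1 p m hp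
    show (dualF (WV_sys hV hf 0) p m).comap (Gk hV hf).subtype =
      (dualF (WV_sys hV hf 0) 0 m).comap (Gk hV hf).subtype
    rw [h1]
  · intro p m hp
    have h1 : dualF (WV_sys hV hf 0) p m = ⊥ := h.2 p m hp
    show (dualF (WV_sys hV hf 0) p m).comap (Gk hV hf).subtype = ⊥
    rw [h1]
    exact (Gk hV hf).ker_subtype

end B5a
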