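import Pool.Agent.H.MP_b5a980_ag.SSB

set_option autoImplicit false
set_option linter.unusedSectionVars false
set_option linter.style.longLine false

/-!
Second pages and surjective maps of filtered complexes (MP_b5a980_ag, part D).
-/

namespace B5a

universe u v w

variable {K : Type u} [Field K] {T : Type v} [AddCommGroup T] [Module K T] {T' : Type w}
  [AddCommGroup T'] [Module K T'] {X : FCx K T} {Y : FCx K T'} {φ : T →ₗ[K] T'}

theorem DcG_memB2 (X : FCx K T) {p m : ℤ} {x : T} :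
    x ∈ X.B 2 p m ↔ ∃ a ∈ X.Z 1 (p + 1) m, ∃ b ∈ X.Z 1 (p - 1) (m - 1), x = a + X.d b := by
  have e1 : (2 : ℤ) - 1 = 1 := by norm_num
  have e2 : p - 2 + 1 = p - 1 := by ring
  constructor
  · intro hx
    obtain ⟨a, ha, c, hc, rfl⟩ := Submodule.mem_sup.mp hx
    obtain ⟨b, hb, rfl⟩ := hc
    rw [e1] at ha hb
    rw [e2] at hb
    exact ⟨a, ha, b, hb, rfl⟩
  · rintro ⟨a, ha, b, hb, rfl⟩
    refine Submodule.add_mem_sup ?_ ⟨b, ?_, rfl⟩
    · rw [e1]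
      exact ha
    · rw [e1, e2]
      exact hb

theorem DcG_Z21 (X : FCx K T) {p m : ℤ} {x : T} (hx : x ∈ X.Z 2 p m) : x ∈ X.Z 1 p m :=
  ⟨hx.1, X.F_le (by omega) _ hx.2⟩

theorem DcG_Z12 (X : FCx K T) {p m : ℤ} {x : T} (hx : x ∈ X.Z 1 (p + 1) m) : x ∈ X.Z 2 p m :=
  ⟨X.F_le (by omega) _ hx.1, X.SSA_mem_F_congr (by ring) rfl hx.2⟩

theorem DcG_dZ (X : FCx K T) (r : ℤ) {p m p' m' : ℤ} (hp : p + 1 = p') (hm : m + 1 = m') {x : T}
    (hx : x ∈ X.Z 1 p m) : X.d x ∈ X.Z r p' m' := by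
  subst hp
  subst hm
  refine ⟨hx.2, ?_⟩
  show X.d (X.d x) ∈ X.F _ _
  rw [X.dd _ _ x hx.1]
  exact Submodule.zero_mem _

theorem DcG_congr (X : FCx K T) {r p m p' m' : ℤ} (hp : p = p') (hm : m = m') {x : T}
    (hx : x ∈ X.Z r p m) : x ∈ X.Z r p' m' := by
  subst hp
  subst hm
  exact hx

/-- A surjection whose kernel has vanishing second page is bijective on the second pages. -/
theorem gl1 (h : FMap X Y φ)
    (h1 : ∀ (p m : ℤ) (y : T'), y ∈ Y.Z 1 p m → ∃ x ∈ X.Z 1 p m, φ x = y)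
    (hk : ∀ (p m : ℤ) (x : T), x ∈ X.Z 2 p m → φ x = 0 → ∃ a b : T, a ∈ X.Z 1 (p + 1) m ∧
      b ∈ X.Z 1 (p - 1) (m - 1) ∧ φ a = 0 ∧ φ b = 0 ∧ x = a + X.d b) :
    EInj X Y φ 2 ∧ ESurj X Y φ 2 := by
  constructor
  · intro p m x hx hB
    obtain ⟨a', ha', b', hb', hab⟩ := (DcG_memB2 Y).1 hB
    obtain ⟨a, ha, rfl⟩ := h1 _ _ _ ha'
    obtain ⟨b, hb, rfl⟩ := h1 _ _ _ hb'
    have hdb : X.d b ∈ X.Z 2 p m := DcG_dZ X 2 (by ring) (by ring) hb
    have hx0 : x - a - X.d b ∈ X.Z 2 p m :=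
      Submodule.sub_mem _ (Submodule.sub_mem _ hx (DcG_Z12 X ha)) hdb
    have h0 : φ (x - a - X.d b) = 0 := by
      rw [map_sub, map_sub, h.comm _ _ b hb.1, hab]
      abel
    obtain ⟨a1, b1, ha1, hb1, -, -, e1⟩ := hk p m _ hx0 h0
    have e : x = (a + X.d b) + (a1 + X.d b1) := by
      rw [← e1]
      abel
    rw [e]
    exact Submodule.add_mem _ ((DcG_memB2 X).2 ⟨a, ha, b, hb, rfl⟩)
      ((DcG_memB2 X).2 ⟨a1, ha1, b1, hb1, rfl⟩)
  · intro p m y hy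
    obtain ⟨x, hx, rfl⟩ := h1 p m y (DcG_Z21 Y hy)
    have hdy : Y.d (φ x) ∈ Y.Z 1 (p + 2) (m + 1) := by
      refine ⟨hy.2, ?_⟩
      show Y.d (Y.d (φ x)) ∈ Y.F _ _
      rw [Y.dd _ _ _ hy.1]
      exact Submodule.zero_mem _
    obtain ⟨z, hz, hz2⟩ := h1 _ _ _ hdy
    have hu : X.d x - z ∈ X.Z 2 (p + 1) (m + 1) := by
      refine Submodule.sub_mem _ (DcG_dZ X 2 rfl rfl hx) (DcG_Z12 X ?_)
      exact DcG_congr X (by ring) rfl hz
    have hu0 : φ (X.d x - z) = 0 := by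
      rw [map_sub, h.comm _ _ x hx.1, hz2, sub_self]
    obtain ⟨a, b, ha, hb, -, hb0, e1⟩ := hk _ _ _ hu hu0
    have hb' : b ∈ X.Z 1 p m := DcG_congr X (by ring) (by ring) hb
    refine ⟨x - b, ⟨Submodule.sub_mem _ hx.1 hb'.1, ?_⟩, ?_⟩
    · show X.d (x - b) ∈ X.F (p + 2) (m + 1)
      have e2 : X.d (x - b) = a + z := by
        have e3 : X.d x = a + X.d b + z := by
          rw [← e1]
          abel
        rw [map_sub, e3]
        abel
      rw [e2]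
      exact Submodule.add_mem _ (X.SSA_mem_F_congr (by ring) rfl ha.1) hz.1
    · rw [map_sub, hb0, sub_zero, sub_self]
      exact Submodule.zero_mem _

theorem DcG_lift {T'' : Type*} [AddCommGroup T''] [Module K T''] {X' : FCx K T''} {ψ : T'' →ₗ[K] T}
    (h : FMap X Y φ) (hψ : FMap X' X ψ) (hinj : Function.Injective ψ)
    (hker : ∀ (p m : ℤ) (x : T), x ∈ X.F p m → φ x = 0 → ∃ x' ∈ X'.F p m, ψ x' = x)
    {r p m : ℤ} {x : T} (hx : x ∈ X.Z r p m) (h0 : φ x = 0) : ∃ x' ∈ X'.Z r p m, ψ x' = x := by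
  obtain ⟨x', hx', rfl⟩ := hker p m x hx.1 h0
  refine ⟨x', ⟨hx', ?_⟩, rfl⟩
  show X'.d x' ∈ X'.F (p + r) (m + 1)
  have h1 : φ (X.d (ψ x')) = 0 := by
    rw [h.comm _ _ _ hx.1, h0, map_zero]
  obtain ⟨w, hw, hw2⟩ := hker _ _ _ hx.2 h1
  have h2 : w = X'.d x' := by
    apply hinj
    rw [hw2, hψ.comm _ _ x' hx']
  rw [← h2]
  exact hw

/-- If the target of a surjection has vanishing second page, the inclusion of the kernel is bijective
on the second pages. -/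
theorem gl2 {T'' : Type*} [AddCommGroup T''] [Module K T''] {X' : FCx K T''} {ψ : T'' →ₗ[K] T}
    (h : FMap X Y φ) (hψ : FMap X' X ψ) (hinj : Function.Injective ψ)
    (hker : ∀ (p m : ℤ) (x : T), x ∈ X.F p m → φ x = 0 → ∃ x' ∈ X'.F p m, ψ x' = x)
    (hzero : ∀ x', φ (ψ x') = 0)
    (h1 : ∀ (p m : ℤ) (y : T'), y ∈ Y.Z 1 p m → ∃ x ∈ X.Z 1 p m, φ x = y)
    (hY : ∀ (p m : ℤ) (y : T'), y ∈ Y.Z 2 p m → y ∈ Y.B 2 p m) :
    EInj X' X ψ 2 ∧ ESurj X' X ψ 2 := by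
  constructor
  · intro p m x' hx' hB
    obtain ⟨a, ha, b, hb, hab⟩ := (DcG_memB2 X).1 hB
    have hsum : φ a + Y.d (φ b) = 0 := by
      rw [← h.comm _ _ b hb.1, ← map_add, ← hab, hzero]
    have hφb : φ b ∈ Y.Z 2 (p - 1) (m - 1) := by
      refine ⟨h.map _ _ _ hb.1, ?_⟩
      show Y.d (φ b) ∈ Y.F (p - 1 + 2) (m - 1 + 1)
      have e : Y.d (φ b) = - φ a := by
        rw [eq_neg_iff_add_eq_zero, add_comm]
        exact hsum
      rw [e]
      exact Submodule.neg_mem _ (Y.SSA_mem_F_congr (by ring) (by ring) (h.map _ _ _ ha.1))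
    obtain ⟨c', hc', e', he', hce⟩ := (DcG_memB2 Y).1 (hY _ _ _ hφb)
    obtain ⟨c, hc, rfl⟩ := h1 _ _ _ hc'
    obtain ⟨g, hg, rfl⟩ := h1 _ _ _ he'
    have hc2 : c ∈ X.Z 1 p (m - 1) := DcG_congr X (by ring) rfl hc
    have hb1 : b - c - X.d g ∈ X.Z 1 (p - 1) (m - 1) := by
      refine Submodule.sub_mem _ (Submodule.sub_mem _ hb ?_) (DcG_dZ X 1 (by ring) (by ring) hg)
      exact DcG_Z21 X (DcG_Z12 X hc)
    have hb10 : φ (b - c - X.d g) = 0 := by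
      rw [map_sub, map_sub, h.comm _ _ g hg.1, hce]
      abel
    have ha1 : a + X.d c ∈ X.Z 1 (p + 1) m :=
      Submodule.add_mem _ ha (DcG_dZ X 1 rfl (by ring) hc2)
    have e1 : ψ x' = (a + X.d c) + X.d (b - c - X.d g) := by
      have hdd : X.d (X.d g) = 0 := X.dd _ _ g hg.1
      rw [hab, map_sub, map_sub, hdd]
      abel
    have ha10 : φ (a + X.d c) = 0 := by
      have h2 : φ (ψ x') = φ (a + X.d c) + Y.d (φ (b - c - X.d g)) := by
        rw [← h.comm _ _ _ hb1.1, ← map_add, ← e1]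
      rw [hzero, hb10, map_zero, add_zero] at h2
      exact h2.symm
    obtain ⟨a2, ha2, ha3⟩ := DcG_lift h hψ hinj hker ha1 ha10
    obtain ⟨b2, hb2, hb3⟩ := DcG_lift h hψ hinj hker hb1 hb10
    refine (DcG_memB2 X').2 ⟨a2, ha2, b2, hb2, ?_⟩
    apply hinj
    rw [map_add, hψ.comm _ _ b2 hb2.1, ha3, hb3, e1]
  · intro p m x hx
    obtain ⟨a', ha', b', hb', hab⟩ := (DcG_memB2 Y).1 (hY _ _ _ (h.map_Z hx))
    obtain ⟨a, ha, rfl⟩ := h1 _ _ _ ha'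
    obtain ⟨b, hb, rfl⟩ := h1 _ _ _ hb'
    have hx0 : x - a - X.d b ∈ X.Z 2 p m :=
      Submodule.sub_mem _ (Submodule.sub_mem _ hx (DcG_Z12 X ha))
        (DcG_dZ X 2 (by ring) (by ring) hb)
    have h0 : φ (x - a - X.d b) = 0 := by
      rw [map_sub, map_sub, h.comm _ _ b hb.1, hab]
      abel
    obtain ⟨x', hx', e1⟩ := DcG_lift h hψ hinj hker hx0 h0
    refine ⟨x', hx', ?_⟩
    have e : ψ x' - x = -(a + X.d b) := by
      rw [e1]
      abel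
    rw [e]
    exact Submodule.neg_mem _ ((DcG_memB2 X).2 ⟨a, ha, b, hb, rfl⟩)

end B5a
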