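import Pool.Agent.H.MP_b5a980_ag.Dc3
import Pool.Agent.H.MP_b5a980_ag.Dc4
import Pool.Agent.H.MP_b5a980_ag.Dc5
import Pool.Agent.H.MP_b5a980_ag.DcG
import Pool.Agent.H.MP_b5a980_ag.SSD

set_option autoImplicit false
set_option linter.unusedSectionVars false
set_option linter.style.longLine false

/-!
Comparison of the dual complexes (MP_b5a980_ag, part D).
-/

namespace B5a

universe u v w

open MvPowerSeries

variable {n r : ℕ} {K : Type u} [Field K] {lam0 : K →+ ℚ}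
  {V : MvPowerSeries (Fin n) K → ℤ → Submodule (MvPowerSeries (Fin n) K) (FF n K)}
  {f : Fin r → MvPowerSeries (Fin n) K}

theorem Dc6_strict (hV : VFam lam0 V) (hf : ∀ s, f s ≠ 0) (j : ℤ) (I : Finset (Fin n))
    (c : Fm r (FF n K)) (hc : c ∈ WA f I) (h : cech n r K c ∈ WV V f j I) :
    ∃ c' ∈ WV V f j I, cech n r K c' = cech n r K c :=
  strict_WA hV hf (fun _ q i h1 h2 => cech_strict hV hf q i h1 h2) j I c hc h

/-- Proof. `gl1` for `resD (WV_le_WA hV hf 0)` (`resD_FMap`, `resD_lift` with `strict_WA` and `cech_strict`, `acA`), then `ssiso_of_map`, `DSS_bounded`. -/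
theorem ssd_A [CharZero K] (hlam : lam0 1 = 1) (hV : VFam lam0 V) (hf : ∀ s, f s ≠ 0) :
    Nonempty (SSIso (DSS (WA_sys f)) (DSS (WV_sys hV hf 0))) := by
  have hF := resD_FMap (WA_sys f) (WV_sys hV hf 0) (WV_le_WA hV hf 0)
  have h1 := gl1 hF
    (fun p m y hy => resD_lift (WA_sys f) (WV_sys hV hf 0) (WV_le_WA hV hf 0)
      (fun I c hc h => Dc6_strict hV hf 0 I c hc h) p m y hy)
    (fun p m x hx h0 => acA hlam hV hf p m x hx h0)
  exact ssiso_of_map (DSS_bounded _) (DSS_bounded _) hF h1.1 h1.2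

theorem Dc6_FMap (hV : VFam lam0 V) (hf : ∀ s, f s ≠ 0) :
    FMap (DgSS hV hf) (DSS (WV_sys hV hf 0)) (Gk hV hf).subtype where
  map := fun _ _ _ hx => hx
  comm := fun _ _ _ _ => rfl

/-- Proof. `gl2` for `φ = resD (WV_anti hV hf)` and `ψ` = the inclusion of the kernel (`resD_FMap`, `resD_lift` : strictness for `W = WV 0`, `W' = WV 1` follows from `strict_WA` and `WV_le_WA`; `acB`), `ssiso_of_map`. -/
theorem ssd_g [CharZero K] (hlam : lam0 1 = 1) (hV : VFam lam0 V) (hf : ∀ s, f s ≠ 0) :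
    Nonempty (SSIso (DgSS hV hf) (DSS (WV_sys hV hf 0))) := by
  have hF := resD_FMap (WV_sys hV hf 0) (WV_sys hV hf 1) (WV_anti hV hf)
  have h1 := gl2 hF (Dc6_FMap hV hf) (Submodule.injective_subtype _)
    (fun p m x hx h0 => ⟨⟨x, h0⟩, hx, rfl⟩)
    (fun x => x.2)
    (fun p m y hy => resD_lift (WV_sys hV hf 0) (WV_sys hV hf 1) (WV_anti hV hf)
      (fun I c hc h => Dc6_strict hV hf 1 I c (WV_le_WA hV hf 0 I hc) h) p m y hy)
    (fun p m y hy => acB hlam hV hf p m y hy)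
  exact ssiso_of_map (DgSS_bounded hV hf) (DSS_bounded _) (Dc6_FMap hV hf) h1.1 h1.2

end B5a
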