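import Pool.Agent.H.MP_b5a980_ag.Wt0

set_option autoImplicit false
set_option linter.unusedSectionVars false
set_option linter.style.longLine false

/-!
Weights of polynomials: products and coprimality (MP_b5a980_ag, part B).
-/

namespace B5a

universe u v w

variable {k : Type u} [Field k] {lam : k →+ ℚ}

/-- an additive map with value `1` at `1` -/
theorem exists_lam (k : Type u) [Field k] [CharZero k] : ∃ lam : k →+ ℚ, lam 1 = 1 := by
  have hf : LinearMap.ker (Algebra.linearMap ℚ k) = ⊥ :=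
    LinearMap.ker_eq_bot.2 (algebraMap ℚ k).injective
  obtain ⟨g, hg⟩ := (Algebra.linearMap ℚ k).exists_leftInverse_of_injective hf
  refine ⟨g.toAddMonoidHom, ?_⟩
  have := LinearMap.congr_fun hg 1
  simpa using this

theorem WtA_one {p : Polynomial k} (hp : Irreducible p) (h : p ∣ 1) : False :=
  hp.not_isUnit (isUnit_of_dvd_one h)

theorem WtA_eq {p q : Polynomial k} (hp : p.Monic) (hpi : Irreducible p) (hq : q.Monic)
    (hqi : Irreducible q) (h : q ∣ p) : q = p :=
  Polynomial.eq_of_monic_of_associated hq hp ((hqi.dvd_irreducible_iff_associated hpi).1 h)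

theorem PW_one (i : ℤ) : PW lam i 1 :=
  ⟨Polynomial.monic_one, fun _ _ hp h => (WtA_one hp h).elim⟩

/-- products of polynomials of weight `i` -/
theorem PW_mul {i : ℤ} {c c' : Polynomial k} (h : PW lam i c) (h' : PW lam i c') :
    PW lam i (c * c') :=
  ⟨h.1.mul h'.1, fun p hpm hp hd => (hp.prime.dvd_or_dvd hd).elim (h.2 p hpm hp) (h'.2 p hpm hp)⟩

theorem SW_one (i : ℤ) : SW lam i 1 :=
  ⟨Polynomial.monic_one, fun _ _ hp h => (WtA_one hp h).elim⟩

theorem SW_mul {i : ℤ} {c c' : Polynomial k} (h : SW lam i c) (h' : SW lam i c') :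
    SW lam i (c * c') :=
  ⟨h.1.mul h'.1, fun p hpm hp hd => (hp.prime.dvd_or_dvd hd).elim (h.2 p hpm hp) (h'.2 p hpm hp)⟩

theorem PW_prod {ι : Type v} (s : Finset ι) {i : ℤ} (c : ι → Polynomial k)
    (h : ∀ j ∈ s, PW lam i (c j)) : PW lam i (∏ j ∈ s, c j) :=
  Finset.prod_induction c (fun q => PW lam i q) (fun _ _ ha hb => PW_mul ha hb) (PW_one i) h

theorem PW.toSW {i : ℤ} {c : Polynomial k} (h : PW lam i c) : SW lam i c :=
  ⟨h.1, fun p hpm hp hd => (h.2 p hpm hp hd).ge⟩

theorem PW.toLW {i j : ℤ} (hij : i < j) {c : Polynomial k} (h : PW lam i c) : LW lam j c :=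
  ⟨h.1, fun p hpm hp hd => (h.2 p hpm hp hd).trans_lt hij⟩

theorem SW_mono {i j : ℤ} (hij : i ≤ j) {c : Polynomial k} (h : SW lam j c) : SW lam i c :=
  ⟨h.1, fun p hpm hp hd => hij.trans (h.2 p hpm hp hd)⟩

theorem WtA_coprime {c c' : Polynomial k} (hc : c ≠ 0)
    (h : ∀ p : Polynomial k, p.Monic → Irreducible p → p ∣ c → p ∣ c' → False) :
    IsCoprime c c' := by
  refine isCoprime_of_irreducible_dvd (fun hz => hc hz.1) ?_
  intro z hz h1 h2
  obtain ⟨p, hpm, hp, hd⟩ := Polynomial.exists_monic_irreducible_factor z hz.not_isUnit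
  exact h p hpm hp (hd.trans h1) (hd.trans h2)

/-- coprimality by weights -/
theorem SW_LW_coprime {i : ℤ} {c c' : Polynomial k} (h : SW lam i c) (h' : LW lam i c') :
    IsCoprime c c' :=
  WtA_coprime h.1.ne_zero fun p hpm hp h1 h2 =>
    absurd (h'.2 p hpm hp h2) (not_lt.2 (h.2 p hpm hp h1))

theorem PW_coprime {i j : ℤ} (hij : i ≠ j) {c c' : Polynomial k} (h : PW lam i c)
    (h' : PW lam j c') : IsCoprime c c' :=
  WtA_coprime h.1.ne_zero fun p hpm hp h1 h2 =>
    hij ((h.2 p hpm hp h1).symm.trans (h'.2 p hpm hp h2))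

/-- polynomials of nonzero weight do not vanish at `0` -/
theorem PW_eval_zero {j : ℤ} (hj : j ≠ 0) {c : Polynomial k} (h : PW lam j c) :
    c.eval 0 ≠ 0 := by
  intro h0
  have h1 : (Polynomial.X : Polynomial k) ∣ c := by
    rw [Polynomial.X_dvd_iff, Polynomial.coeff_zero_eq_eval_zero, h0]
  have h2 := h.2 _ Polynomial.monic_X Polynomial.irreducible_X h1
  apply hj
  rw [← h2, wt]
  have h3 : (Polynomial.X : Polynomial k).nextCoeff = 0 := by
    simp [Polynomial.nextCoeff]
  rw [h3]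
  simp

/-- splitting off the factors of weight `i` -/
theorem SW_split {i : ℤ} {c : Polynomial k} (h : SW lam i c) :
    ∃ c1 c2 : Polynomial k, PW lam i c1 ∧ SW lam (i + 1) c2 ∧ c = c1 * c2 := by
  induction hd : c.natDegree using Nat.strong_induction_on generalizing c with
  | _ d ih =>
    by_cases hu : IsUnit c
    · have h1 : c = 1 := h.1.eq_one_of_isUnit hu
      exact ⟨1, 1, PW_one i, SW_one _, by rw [h1, one_mul]⟩
    · obtain ⟨p, hpm, hp, c', rfl⟩ := Polynomial.exists_monic_irreducible_factor c hu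
      have hm' : c'.Monic := hpm.of_mul_monic_left h.1
      have hlt : c'.natDegree < d := by
        rw [← hd, hpm.natDegree_mul hm']
        have := hp.natDegree_pos
        omega
      obtain ⟨c1, c2, h1, h2, h3⟩ := ih _ hlt (c := c')
        ⟨hm', fun q hqm hq hqd => h.2 q hqm hq (hqd.mul_left p)⟩ rfl
      by_cases hw : wt lam p = i
      · refine ⟨p * c1, c2, PW_mul ⟨hpm, fun q hqm hq hqd => ?_⟩ h1, h2, by rw [h3, mul_assoc]⟩
        rw [WtA_eq hpm hp hqm hq hqd, hw]
      · refine ⟨c1, p * c2, h1, SW_mul ⟨hpm, fun q hqm hq hqd => ?_⟩ h2, by rw [h3]; ring⟩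
        rw [WtA_eq hpm hp hqm hq hqd]
        have := h.2 p hpm hp (dvd_mul_right p c')
        omega

/-- the irreducible factors of a nonzero polynomial have bounded weight -/
theorem exists_wt_bounds (lam : k →+ ℚ) (b : Polynomial k) (hb : b ≠ 0) :
    ∃ w0 w1 : ℤ, ∀ p : Polynomial k, p.Monic → Irreducible p → p ∣ b →
      w0 ≤ wt lam p ∧ wt lam p ≤ w1 := by
  classical
  let T : Finset ℤ := (UniqueFactorizationMonoid.normalizedFactors b).toFinset.image (wt lam)
  obtain ⟨w0, h0⟩ := T.bddBelow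
  obtain ⟨w1, h1⟩ := T.bddAbove
  refine ⟨w0, w1, fun p hpm hp hd => ?_⟩
  have hT : wt lam p ∈ T := by
    refine Finset.mem_image_of_mem _ (Multiset.mem_toFinset.2 ?_)
    exact (Polynomial.mem_normalizedFactors_iff hb).2 ⟨hp, hpm, hd⟩
  exact ⟨h0 hT, h1 hT⟩

end B5a
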