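import Pool.Agent.H.MP_b5a980_ag.ConnD
import Pool.Agent.H.MP_b5a980_ag.Vp0
import Pool.Agent.H.MP_b5a980_ag.WtA

set_option autoImplicit false
set_option linter.unusedSectionVars false
set_option linter.style.longLine false

/-!
Comparison of canonical filtrations (MP_b5a980_ag, B3).
-/

namespace B5a

universe u v w

open MvPowerSeries

variable {n : ℕ} {K : Type u} [Field K] {M : Type v} [AddCommGroup M]
  [Module (MvPowerSeries (Fin n) K) M] [Module K M] [IsScalarTower K (MvPowerSeries (Fin n) K) M]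

/-- Two compatible filtrations are comparable as soon as the generators of the first lie in some
step of the second.

Proof. `u l ∈ C.V (u l) 0 ≤ V (a l)`, so `u l ∈ W (j l)` for some `j l`, and by `Conn.V_le`, `C.V (u l) (i - a l) ≤ W (i - a l + j l)`. Take `N0 ≥ a l - j l` for all `l`, `Compat.le`. -/
theorem good_sandwich {C : Conn n K M} {N : Submodule (MvPowerSeries (Fin n) K) M}
    {V W : ℤ → Submodule (MvPowerSeries (Fin n) K) M} (hV : GoodRel C N V) (hW : Compat C W)
    (hN : ∀ i, N ≤ W i) (hex : ∀ i m, m ∈ V i → ∃ j, m ∈ W j) :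
    ∃ N0 : ℕ, ∀ i, V i ≤ W (i - N0) := by
  obtain ⟨t, u, a, hVe⟩ := hV
  have h1 : ∀ l : Fin t, ∃ j, u l ∈ W j := by
    intro l
    refine hex (a l) (u l) ?_
    rw [hVe]
    refine Submodule.mem_sup_right (Submodule.mem_iSup_of_mem l ?_)
    rw [sub_self]
    exact C.mem_V_self (u l)
  choose j hj using h1
  refine ⟨∑ l, (a l - j l).toNat, fun i => ?_⟩
  rw [hVe]
  refine sup_le (hN _) (iSup_le fun l => (C.V_le hW (hj l) (i - a l)).trans (hW.le ?_))
  have h2 : (a l - j l).toNat ≤ ∑ l, (a l - j l).toNat :=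
    Finset.single_le_sum (f := fun l => (a l - j l).toNat) (fun _ _ => Nat.zero_le _)
      (Finset.mem_univ l)
  have h3 : a l - j l ≤ ((a l - j l).toNat : ℤ) := Int.self_le_toNat _
  have h4 : (((a l - j l).toNat : ℕ) : ℤ) ≤ ((∑ l, (a l - j l).toNat : ℕ) : ℤ) := by
    exact_mod_cast h2
  linarith

/-- The basic comparison lemma. `φ` is only additive; `hc` says that `φ` almost commutes with
polynomials in `theta`.

Proof. Show by induction on `N0` (downwards) that `φ (V i) ⊆ W (i - N0)` for all `i` implies the same with `N0 - 1`, if `N0 ≥ 1`. Let `m ∈ V i`, `j = i - N0 < i`. `hV`: `c ∈ PW i` with `c(θ) m ∈ V (i+1)`, so `φ (c(θ) m) ∈ W (i+1-N0) = W (j+1)`, and by `hc`: `c(θ') φ m ∈ W (j+1)`. `hW`: `c' ∈ PW j` with `c'(θ') φ m ∈ W (j+1)`. `PW_coprime`: `a c + b c' = 1`, so `φ m = a(θ') c(θ') φ m + b(θ') c'(θ') φ m ∈ W (j+1)` (`Compat.aeval_mem`, `Polynomial.aeval_mul`). -/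
theorem gen_le {lam : K →+ ℚ} {M' : Type w} [AddCommGroup M']
    [Module (MvPowerSeries (Fin n) K) M'] [Module K M'] [IsScalarTower K (MvPowerSeries (Fin n) K) M']
    {C : Conn n K M} {C' : Conn n K M'} {V : ℤ → Submodule (MvPowerSeries (Fin n) K) M}
    {W : ℤ → Submodule (MvPowerSeries (Fin n) K) M'} (hV : GrP lam C V) (hW : GrP lam C' W)
    (hWc : Compat C' W) (φ : M →+ M') (N0 : ℕ) (h : ∀ i m, m ∈ V i → φ m ∈ W (i - N0))
    (hc : ∀ (c : Polynomial K) (i j : ℤ) (m : M), c.Monic → m ∈ V i → φ m ∈ W j → j < i →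
      Polynomial.aeval C'.theta c (φ m) - φ (Polynomial.aeval C.theta c m) ∈ W (j + 1)) :
    ∀ i m, m ∈ V i → φ m ∈ W i := by
  induction N0 with
  | zero =>
    intro i m hm
    have := h i m hm
    rwa [Nat.cast_zero, sub_zero] at this
  | succ N0 ih =>
    refine ih fun i m hm => ?_
    obtain ⟨c, hcP, hcm⟩ := hV i m hm
    have h1 : φ m ∈ W (i - ((N0 + 1 : ℕ) : ℤ)) := h i m hm
    have h2 := h (i + 1) _ hcm
    have hlt : i - ((N0 + 1 : ℕ) : ℤ) < i := by
      push_cast
      linarith [Int.natCast_nonneg N0]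
    have h3 := hc c i (i - ((N0 + 1 : ℕ) : ℤ)) m hcP.1 hm h1 hlt
    have e1 : i - ((N0 + 1 : ℕ) : ℤ) + 1 = i - N0 := by
      push_cast
      ring
    have e2 : i + 1 - ((N0 + 1 : ℕ) : ℤ) = i - N0 := by
      push_cast
      ring
    rw [e1] at h3
    rw [e2] at h2
    have h4 : Polynomial.aeval C'.theta c (φ m) ∈ W (i - N0) := by
      have := Submodule.add_mem _ h3 h2
      rwa [sub_add_cancel] at this
    obtain ⟨c', hcP', hcm'⟩ := hW _ _ h1
    rw [e1] at hcm'
    obtain ⟨a, b, hab⟩ := PW_coprime hlt.ne' hcP hcP'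
    have h5 : φ m = Polynomial.aeval C'.theta a (Polynomial.aeval C'.theta c (φ m)) +
        Polynomial.aeval C'.theta b (Polynomial.aeval C'.theta c' (φ m)) := by
      have h6 : Polynomial.aeval C'.theta (a * c + b * c') (φ m) = φ m := by
        rw [hab, map_one, Module.End.one_apply]
      rw [map_add, map_mul, map_mul] at h6
      exact h6.symm
    rw [h5]
    exact Submodule.add_mem _ (hWc.aeval_mem a h4) (hWc.aeval_mem b hcm')

end B5a
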