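import Pool.Agent.H.MP_b5a980_ag.CoA
import Pool.Agent.H.MP_b5a980_ag.Lc0
import Pool.Agent.H.MP_b5a980_ag.VpA

set_option autoImplicit false
set_option linter.unusedSectionVars false
set_option linter.style.longLine false

/-!
Derivations preserve the canonical filtration (MP_b5a980_ag, B7).
-/

namespace B5a

universe u v w

open MvPowerSeries

variable {n : ℕ} {K : Type u} [Field K]

theorem DeA_frac_inc (D : Derivation ℤ (MvPowerSeries (Fin n) K) (MvPowerSeries (Fin n) K))
    (g : MvPowerSeries (Fin n) K) : fracDer D (inc n K g) = inc n K (D g) :=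
  fracDer_algebraMap _ _

theorem DeA_leib (D : Derivation ℤ (MvPowerSeries (Fin n) K) (MvPowerSeries (Fin n) K))
    (a b : FF n K) : fracDer D (a * b) = fracDer D a * b + a * fracDer D b :=
  CoA_derAdd_mul (fracDer D) a b

theorem DeA_smul_def (r : MvPowerSeries (Fin n) K) (x : FF n K) : r • x = inc n K r * x :=
  Algebra.smul_def r x

theorem DeA_fracDer_smul (D : Derivation ℤ (MvPowerSeries (Fin n) K) (MvPowerSeries (Fin n) K))
    (r : MvPowerSeries (Fin n) K) (x : FF n K) :
    fracDer D (r • x) = D r • x + r • fracDer D x := by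
  rw [DeA_smul_def, DeA_smul_def, DeA_smul_def, DeA_leib, DeA_frac_inc]

theorem DeA_key (D : Derivation ℤ (MvPowerSeries (Fin n) K) (MvPowerSeries (Fin n) K))
    {f h : MvPowerSeries (Fin n) K} {x : FF n K} {j : ℕ}
    (hx : inc n K f ^ j * x = inc n K h) :
    inc n K (f ^ (j + j)) * fracDer D x = inc n K (f ^ j * D h - D (f ^ j) * h) := by
  have h1 : fracDer D (inc n K f ^ j * x) = inc n K (D h) := by
    rw [hx, DeA_frac_inc]
  rw [← map_pow, DeA_leib, DeA_frac_inc] at h1
  rw [map_sub, map_mul, map_mul, ← hx, ← h1, map_pow, map_pow, pow_add]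
  ring

theorem DeA_mem_loc (D : Derivation ℤ (MvPowerSeries (Fin n) K) (MvPowerSeries (Fin n) K))
    {f : MvPowerSeries (Fin n) K} {x : FF n K} (hx : x ∈ loc f) : fracDer D x ∈ loc f := by
  obtain ⟨N, r, hr⟩ := hx
  refine ⟨N + N, f ^ N * D r - D (f ^ N) * r, ?_⟩
  rw [← map_pow]
  exact DeA_key D hr

theorem DeA_cder_X (δ : Derivation ℤ K K) (l : Fin n) :
    cder n δ (X l : MvPowerSeries (Fin n) K) = 0 := by
  ext β
  rw [coeff_cder, coeff_X, coeff_zero]
  split_ifs
  · exact δ.map_one_eq_zero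
  · exact map_zero δ

theorem DeA_X_smul (δ : Derivation ℤ K K) (l : Fin n) (y : FF n K) :
    fracDer (cder n δ) ((X l : MvPowerSeries (Fin n) K) • y) =
      (X l : MvPowerSeries (Fin n) K) • fracDer (cder n δ) y := by
  rw [DeA_fracDer_smul, DeA_cder_X, zero_smul, zero_add]

theorem DeA_K_smul (δ : Derivation ℤ K K) (c : K) (y : FF n K) :
    fracDer (cder n δ) (c • y) = δ c • y + c • fracDer (cder n δ) y := by
  have h : ∀ (a : K) (z : FF n K), a • z = (MvPowerSeries.C a : MvPowerSeries (Fin n) K) • z := by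
    intro a z
    rw [Algebra.smul_def, Algebra.smul_def, CoA_algebraMap]
  rw [h, h, h, DeA_fracDer_smul, CoA_cder_C]

theorem DeA_theta (δ : Derivation ℤ K K) (y : FF n K) :
    fracDer (cder n δ) ((std n K).theta y) = (std n K).theta (fracDer (cder n δ) y) := by
  rw [Conn.theta_apply, Conn.theta_apply, map_sum]
  refine Finset.sum_congr rfl fun i _ => ?_
  rw [DeA_X_smul, std_nab, std_nab, fracDer_cder_dF]

theorem DeA_pder_X (δ : Derivation ℤ K K) : pder δ (Polynomial.X : Polynomial K) = 0 := by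
  refine Polynomial.ext fun i => ?_
  rw [coeff_pder, Polynomial.coeff_X, Polynomial.coeff_zero]
  split_ifs
  · exact δ.map_one_eq_zero
  · exact map_zero δ

theorem DeA_aeval (δ : Derivation ℤ K K) (c : Polynomial K) (y : FF n K) :
    fracDer (cder n δ) (Polynomial.aeval (std n K).theta c y) =
      Polynomial.aeval (std n K).theta c (fracDer (cder n δ) y) +
        Polynomial.aeval (std n K).theta (pder δ c) y := by
  induction c using Polynomial.induction_on generalizing y with
  | C a =>
    have h : pder δ (Polynomial.C a) = Polynomial.C (δ a) := pmap_C _ _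
    rw [h, Polynomial.aeval_C, Polynomial.aeval_C, Module.algebraMap_end_apply,
      Module.algebraMap_end_apply, Module.algebraMap_end_apply, DeA_K_smul, add_comm]
  | add p q hp hq =>
    rw [map_add, map_add, map_add, LinearMap.add_apply, LinearMap.add_apply,
      LinearMap.add_apply, map_add, hp, hq]
    abel
  | monomial k a ih =>
    have e : Polynomial.C a * Polynomial.X ^ (k + 1) =
        (Polynomial.C a * Polynomial.X ^ k) * Polynomial.X := by ring
    have h1 : ∀ (q : Polynomial K) (z : FF n K), Polynomial.aeval (std n K).theta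
        (q * Polynomial.X) z = Polynomial.aeval (std n K).theta q ((std n K).theta z) := by
      intro q z
      rw [map_mul, Polynomial.aeval_X, Module.End.mul_apply]
    have h2 : pder δ (Polynomial.C a * Polynomial.X ^ k * Polynomial.X) =
        pder δ (Polynomial.C a * Polynomial.X ^ k) * Polynomial.X := by
      rw [pder_mul, DeA_pder_X, mul_zero, add_zero]
    rw [e, h2, h1, h1, h1, ih ((std n K).theta y)]
    congr 2
    exact DeA_theta δ y

/-- Derivations of the coefficient field. -/
theorem der_coeff_stable {lam : K →+ ℚ} {f : MvPowerSeries (Fin n) K} (hf : f ≠ 0)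
    {V : ℤ → Submodule (MvPowerSeries (Fin n) K) (FF n K)} (hV : VPack lam (std n K) ⊥ V)
    (hVu : ∀ x, (∃ i, x ∈ V i) ↔ x ∈ loc f) (δ : Derivation ℤ K K) (i : ℤ) {x : FF n K}
    (hx : x ∈ V i) : fracDer (cder n δ) x ∈ V i := by
  let W : ℤ → Submodule (MvPowerSeries (Fin n) K) (FF n K) := fun i =>
    { carrier := {y | y ∈ V i ∧ fracDer (cder n δ) y ∈ V i}
      add_mem' := by
        rintro a b ⟨ha, ha'⟩ ⟨hb, hb'⟩
        refine ⟨Submodule.add_mem _ ha hb, ?_⟩
        rw [map_add]
        exact Submodule.add_mem _ ha' hb'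
      zero_mem' := by
        refine ⟨Submodule.zero_mem _, ?_⟩
        rw [map_zero]
        exact Submodule.zero_mem _
      smul_mem' := by
        rintro r a ⟨ha, ha'⟩
        refine ⟨Submodule.smul_mem _ r ha, ?_⟩
        rw [DeA_fracDer_smul]
        exact Submodule.add_mem _ (Submodule.smul_mem _ _ ha) (Submodule.smul_mem _ _ ha') }
  have hmemW : ∀ (i : ℤ) (y : FF n K), y ∈ W i ↔ y ∈ V i ∧ fracDer (cder n δ) y ∈ V i :=
    fun i y => Iff.rfl
  have hW : Compat (std n K) W := by
    refine ⟨?_, ?_, ?_⟩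
    · intro i y hy
      rw [hmemW] at hy ⊢
      exact ⟨hV.compat.anti i hy.1, hV.compat.anti i hy.2⟩
    · intro i l y hy
      rw [hmemW] at hy ⊢
      rw [DeA_X_smul]
      exact ⟨hV.compat.x_mem i l y hy.1, hV.compat.x_mem i l _ hy.2⟩
    · intro i l y hy
      rw [hmemW] at hy ⊢
      have h1 : fracDer (cder n δ) ((std n K).nab l y) =
          (std n K).nab l (fracDer (cder n δ) y) := by
        rw [std_nab, std_nab, fracDer_cder_dF]
      rw [h1]
      exact ⟨hV.compat.nab_mem i l y hy.1, hV.compat.nab_mem i l _ hy.2⟩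
  obtain ⟨N0, hN0⟩ := good_sandwich hV.good hW (fun i => bot_le) (by
    intro i y hy
    have h1 : fracDer (cder n δ) y ∈ loc f := DeA_mem_loc _ ((hVu y).1 ⟨i, hy⟩)
    obtain ⟨l, hl⟩ := (hVu _).2 h1
    refine ⟨min i l, ?_⟩
    rw [hmemW]
    exact ⟨hV.compat.le (min_le_left i l) hy, hV.compat.le (min_le_right i l) hl⟩)
  refine gen_le hV.gr hV.gr hV.compat (derAdd (fracDer (cder n δ))) N0 ?_ ?_ i x hx
  · intro i y hy
    exact ((hmemW _ _).1 (hN0 i hy)).2
  · intro c i j y _ hy _ hji
    rw [derAdd_apply, derAdd_apply, DeA_aeval, sub_add_cancel_left]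
    refine Submodule.neg_mem _ ?_
    exact hV.compat.le (by omega) (hV.compat.aeval_mem _ hy)

/-- The coefficient at `β` of a derivation of `R`, restricted to the constants. -/
noncomputable def DeA_coef (D : Derivation ℤ (MvPowerSeries (Fin n) K) (MvPowerSeries (Fin n) K))
    (β : Fin n →₀ ℕ) : Derivation ℤ K K where
  toFun c := coeff β (D (C c))
  map_add' a b := by rw [map_add, map_add, map_add]
  map_smul' z a := by
    rw [RingHom.id_apply, map_zsmul, map_zsmul, map_zsmul]
  map_one_eq_zero' := by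
    change coeff β (D (C (1 : K))) = 0
    rw [map_one, Derivation.map_one_eq_zero, map_zero]
  leibniz' a b := by
    change coeff β (D (C (a * b))) = a • coeff β (D (C b)) + b • coeff β (D (C a))
    rw [map_mul, Derivation.leibniz, map_add, smul_eq_mul, smul_eq_mul, smul_eq_mul, smul_eq_mul,
      coeff_C_mul, coeff_C_mul]

theorem DeA_coef_apply (D : Derivation ℤ (MvPowerSeries (Fin n) K) (MvPowerSeries (Fin n) K))
    (β : Fin n →₀ ℕ) (c : K) : DeA_coef D β c = coeff β (D (C c)) := rfl

theorem DeA_small (E : Derivation ℤ (MvPowerSeries (Fin n) K) (MvPowerSeries (Fin n) K))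
    (hE : ∀ j, E (X j) = 0) (N : ℕ) (hC : ∀ c : K, E (C c) ∈ mI n K N) (e : ℕ) :
    e ≤ N → ∀ g, E g ∈ mI n K e := by
  induction e with
  | zero =>
    intro _ g
    rw [mI_zero]
    exact Submodule.mem_top
  | succ e ih =>
    intro he g
    have h1 : g - C (constantCoeff g) ∈ mI n K (0 + 1) := by
      rw [zero_add, mem_mI_one, map_sub, constantCoeff_C, sub_self]
    obtain ⟨c, -, hc⟩ := exists_sum_X_mI h1
    have h2 : g = C (constantCoeff g) + ∑ i, X i * c i := by
      rw [← hc]
      ring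
    rw [h2, map_add, map_sum]
    refine Ideal.add_mem _ (mI_anti he (hC _)) (Ideal.sum_mem _ fun i _ => ?_)
    rw [Derivation.leibniz, hE, smul_zero, add_zero, smul_eq_mul, add_comm e 1]
    exact mul_mem_mI (X_mem_mI i) (ih (by omega) (c i))

/-- A derivation killing the variables is the sum of `x^β δ_β`, up to high order. -/
theorem der_decomp (D : Derivation ℤ (MvPowerSeries (Fin n) K) (MvPowerSeries (Fin n) K))
    (hD : ∀ j, D (X j) = 0) (N : ℕ) :
    ∃ δ : (Fin n →₀ ℕ) → Derivation ℤ K K, ∀ g : MvPowerSeries (Fin n) K,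
      D g - ∑ β ∈ (Finset.range N).biUnion fun d => Finset.finsuppAntidiag Finset.univ d,
        monomial β 1 * cder n (δ β) g ∈ mI n K N := by
  classical
  refine ⟨DeA_coef D, ?_⟩
  set S := (Finset.range N).biUnion fun d =>
    (Finset.finsuppAntidiag (Finset.univ : Finset (Fin n)) d) with hS
  have hmemS : ∀ β : Fin n →₀ ℕ, β ∈ S ↔ β.degree < N := by
    intro β
    rw [hS, Finset.mem_biUnion]
    constructor
    · rintro ⟨d, hd, hβ⟩
      rw [MIB_mem_antidiag] at hβ
      rw [hβ]
      exact Finset.mem_range.1 hd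
    · intro h
      exact ⟨β.degree, Finset.mem_range.2 h, MIB_mem_antidiag.2 rfl⟩
  let E : Derivation ℤ (MvPowerSeries (Fin n) K) (MvPowerSeries (Fin n) K) :=
    D - ∑ β ∈ S, (monomial β (1 : K) : MvPowerSeries (Fin n) K) • cder n (DeA_coef D β)
  have hEa : ∀ g, E g = D g - ∑ β ∈ S, monomial β 1 * cder n (DeA_coef D β) g := by
    intro g
    change (D - ∑ β ∈ S, (monomial β (1 : K) : MvPowerSeries (Fin n) K) •
      cder n (DeA_coef D β)) g = _
    rw [Derivation.sub_apply]
    congr 1
    have h1 : ∀ T : Finset (Fin n →₀ ℕ), (∑ β ∈ T, (monomial β (1 : K) : MvPowerSeries (Fin n) K) •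
        cder n (DeA_coef D β)) g = ∑ β ∈ T, monomial β 1 * cder n (DeA_coef D β) g := by
      intro T
      induction T using Finset.induction_on with
      | empty => rfl
      | insert a T ha ih =>
        rw [Finset.sum_insert ha, Finset.sum_insert ha, Derivation.add_apply, ih,
          Derivation.smul_apply, smul_eq_mul]
    exact h1 S
  intro g
  rw [← hEa]
  refine DeA_small E ?_ N ?_ N le_rfl g
  · intro j
    rw [hEa, hD, zero_sub, neg_eq_zero]
    refine Finset.sum_eq_zero fun β _ => ?_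
    rw [DeA_cder_X, mul_zero]
  · intro c γ hγ
    rw [hEa, map_sub, map_sum, Finset.sum_eq_single γ]
    · rw [CoA_cder_C, mul_comm, coeff_C_mul, coeff_monomial_same, mul_one, DeA_coef_apply,
        sub_self]
    · intro β _ hβ
      rw [CoA_cder_C, mul_comm, coeff_C_mul, coeff_monomial, if_neg (Ne.symm hβ), mul_zero]
    · intro h
      exact absurd ((hmemS γ).2 hγ) h

/-- Derivations killing the variables. -/
theorem der_stable {lam : K →+ ℚ} {f : MvPowerSeries (Fin n) K} (hf : f ≠ 0)
    {V : ℤ → Submodule (MvPowerSeries (Fin n) K) (FF n K)} (hV : VPack lam (std n K) ⊥ V)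
    (hVu : ∀ x, (∃ i, x ∈ V i) ↔ x ∈ loc f)
    (D : Derivation ℤ (MvPowerSeries (Fin n) K) (MvPowerSeries (Fin n) K))
    (hD : ∀ j, D (X j) = 0) (i : ℤ) {x : FF n K} (hx : x ∈ V i) : fracDer D x ∈ V i := by
  obtain ⟨j, h, hh⟩ := (hVu x).1 ⟨i, hx⟩
  have hne : inc n K (f ^ (j + j)) ≠ 0 := inc_ne_zero (pow_ne_zero _ hf)
  have hy : (inc n K (f ^ (j + j)))⁻¹ ∈ loc f := by
    refine ⟨j + j, 1, ?_⟩
    rw [map_one, ← map_pow, mul_inv_cancel₀ hne]
  obtain ⟨l, hl⟩ := (hVu _).2 hy
  obtain ⟨δ, hδ⟩ := der_decomp D hD (i - l).toNat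
  set S := (Finset.range (i - l).toNat).biUnion fun d =>
    (Finset.finsuppAntidiag (Finset.univ : Finset (Fin n)) d) with hS
  obtain ⟨r, hr⟩ : ∃ r, r = f ^ j * (D h - ∑ β ∈ S, monomial β 1 * cder n (δ β) h) -
      (D (f ^ j) - ∑ β ∈ S, monomial β 1 * cder n (δ β) (f ^ j)) * h := ⟨_, rfl⟩
  have hrm : r ∈ mI n K (i - l).toNat := by
    rw [hr]
    exact Ideal.sub_mem _ (Ideal.mul_mem_left _ _ (hδ h)) (Ideal.mul_mem_right _ _ (hδ (f ^ j)))
  have h1 : fracDer D x = (∑ β ∈ S, (monomial β (1 : K) : MvPowerSeries (Fin n) K) •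
      fracDer (cder n (δ β)) x) + r • (inc n K (f ^ (j + j)))⁻¹ := by
    apply mul_left_cancel₀ hne
    rw [mul_add, DeA_key D hh, Finset.mul_sum, Algebra.smul_def, mul_left_comm,
      mul_inv_cancel₀ hne, mul_one]
    have h2 : ∀ β ∈ S, inc n K (f ^ (j + j)) *
        ((monomial β (1 : K) : MvPowerSeries (Fin n) K) • fracDer (cder n (δ β)) x) =
        inc n K (monomial β 1 * (f ^ j * cder n (δ β) h - cder n (δ β) (f ^ j) * h)) := by
      intro β _
      rw [map_mul, ← DeA_key (cder n (δ β)) hh, Algebra.smul_def]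
      ring
    rw [Finset.sum_congr rfl h2, ← map_sum]
    change inc n K _ = inc n K _ + inc n K r
    rw [← map_add]
    congr 1
    have h3 : ∑ β ∈ S, monomial β 1 * (f ^ j * cder n (δ β) h - cder n (δ β) (f ^ j) * h) =
        f ^ j * (∑ β ∈ S, monomial β 1 * cder n (δ β) h) -
          (∑ β ∈ S, monomial β 1 * cder n (δ β) (f ^ j)) * h := by
      rw [Finset.mul_sum, Finset.sum_mul, ← Finset.sum_sub_distrib]
      refine Finset.sum_congr rfl fun β _ => ?_
      ring
    rw [h3, hr]
    ring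
  rw [h1]
  refine Submodule.add_mem _ (Submodule.sum_mem _ fun β _ =>
    Submodule.smul_mem _ _ (der_coeff_stable hf hV hVu (δ β) i hx)) ?_
  have h4 := hV.compat.mI_mem hrm hl
  refine hV.compat.le ?_ h4
  have h5 := Int.self_le_toNat (i - l)
  omega

end B5a
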