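import Pool.Agent.H.MP_b5a980_ag.ConnB
import Pool.Agent.H.MP_b5a980_ag.DeA

set_option autoImplicit false
set_option linter.unusedSectionVars false
set_option linter.style.longLine false

/-!
Automorphisms fixing the variables preserve the canonical filtration (MP_b5a980_ag, B8).
-/

namespace B5a

universe u v w

open MvPowerSeries

variable {n : ℕ} {K : Type u} [Field K]

/-- The difference of `Ψ ∂_l Ψ⁻¹` and `∂_l`, as an additive map. -/
noncomputable def DeB_A (Ψ : MvPowerSeries (Fin n) K ≃+* MvPowerSeries (Fin n) K) (l : Fin n) :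
    MvPowerSeries (Fin n) K →+ MvPowerSeries (Fin n) K :=
  AddMonoidHom.mk' (fun a => Ψ (pderiv K l (Ψ.symm a)) - pderiv K l a) (by
    intro a b
    simp only [map_add]
    ring)

theorem DeB_A_apply (Ψ : MvPowerSeries (Fin n) K ≃+* MvPowerSeries (Fin n) K) (l : Fin n)
    (a : MvPowerSeries (Fin n) K) : DeB_A Ψ l a = Ψ (pderiv K l (Ψ.symm a)) - pderiv K l a := rfl

/-- The difference of `Ψ ∂_l Ψ⁻¹` and `∂_l`, as a derivation. -/
noncomputable def DeB_D (Ψ : MvPowerSeries (Fin n) K ≃+* MvPowerSeries (Fin n) K) (l : Fin n) :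
    Derivation ℤ (MvPowerSeries (Fin n) K) (MvPowerSeries (Fin n) K) :=
  Derivation.mk' (DeB_A Ψ l).toIntLinearMap (by
    intro a b
    change DeB_A Ψ l (a * b) = a • DeB_A Ψ l b + b • DeB_A Ψ l a
    rw [DeB_A_apply, DeB_A_apply, DeB_A_apply, map_mul, Derivation.leibniz, Derivation.leibniz]
    simp only [smul_eq_mul, map_add, map_mul, RingEquiv.apply_symm_apply]
    ring)

theorem DeB_D_apply (Ψ : MvPowerSeries (Fin n) K ≃+* MvPowerSeries (Fin n) K) (l : Fin n)
    (a : MvPowerSeries (Fin n) K) : DeB_D Ψ l a = Ψ (pderiv K l (Ψ.symm a)) - pderiv K l a := rfl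

theorem DeB_smul (Ψ : MvPowerSeries (Fin n) K ≃+* MvPowerSeries (Fin n) K)
    (r : MvPowerSeries (Fin n) K) (x : FF n K) :
    fracEquiv Ψ (r • x) = Ψ r • fracEquiv Ψ x := by
  rw [Algebra.smul_def, Algebra.smul_def, map_mul, fracEquiv_algebraMap]

/-- The pulled back filtration. -/
def DeB_pull (Ψ : MvPowerSeries (Fin n) K ≃+* MvPowerSeries (Fin n) K)
    (W : ℤ → Submodule (MvPowerSeries (Fin n) K) (FF n K)) (i : ℤ) :
    Submodule (MvPowerSeries (Fin n) K) (FF n K) where
  carrier := {x | fracEquiv Ψ x ∈ W i}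
  add_mem' := by
    intro a b ha hb
    change fracEquiv Ψ (a + b) ∈ W i
    rw [map_add]
    exact Submodule.add_mem _ ha hb
  zero_mem' := by
    change fracEquiv Ψ 0 ∈ W i
    rw [map_zero]
    exact Submodule.zero_mem _
  smul_mem' := by
    intro c x hx
    change fracEquiv Ψ (c • x) ∈ W i
    rw [DeB_smul]
    exact Submodule.smul_mem _ _ hx

theorem DeB_mem_pull (Ψ : MvPowerSeries (Fin n) K ≃+* MvPowerSeries (Fin n) K)
    (W : ℤ → Submodule (MvPowerSeries (Fin n) K) (FF n K)) (i : ℤ) (x : FF n K) :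
    x ∈ DeB_pull Ψ W i ↔ fracEquiv Ψ x ∈ W i := Iff.rfl

theorem DeB_loc (Ψ : MvPowerSeries (Fin n) K ≃+* MvPowerSeries (Fin n) K)
    {g : MvPowerSeries (Fin n) K} {x : FF n K} (hx : x ∈ loc g) :
    fracEquiv Ψ x ∈ loc (Ψ g) := by
  obtain ⟨N, r, hr⟩ := hx
  refine ⟨N, Ψ r, ?_⟩
  have h := congrArg (fracEquiv Ψ) hr
  rw [map_mul, map_pow] at h
  rw [inc, fracEquiv_algebraMap, fracEquiv_algebraMap] at h
  exact h


/-- The difference of the derivation `∂_l` and its transport by `Ψ`.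

Proof. `D_l = Ψ ∂_l Ψ⁻¹ - ∂_l` is a derivation of `R` killing the variables (`Ψ X_j = X_j`); extend to the fraction field with `frac_leibniz_ext`. -/
theorem exists_transport (Ψ : MvPowerSeries (Fin n) K ≃+* MvPowerSeries (Fin n) K)
    (hX : ∀ j, Ψ (X j) = X j) (l : Fin n) :
    ∃ D : Derivation ℤ (MvPowerSeries (Fin n) K) (MvPowerSeries (Fin n) K),
      (∀ j, D (X j) = 0) ∧ ∀ x : FF n K,
        fracEquiv Ψ (dF n K l x) = dF n K l (fracEquiv Ψ x) + fracDer D (fracEquiv Ψ x) := by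
  refine ⟨DeB_D Ψ l, fun j => ?_, fun x => ?_⟩
  · have h1 : Ψ.symm (X j) = X j := by
      rw [RingEquiv.symm_apply_eq, hX]
    rw [DeB_D_apply, h1]
    by_cases hjl : j = l
    · subst hjl
      rw [pderiv_X_self, map_one, sub_self]
    · rw [pderiv_X_of_ne hjl, map_zero, sub_self]
  · have h1 := frac_leibniz_ext (R := MvPowerSeries (Fin n) K)
      ((fracEquiv Ψ).toAddMonoidHom.comp ((dF n K l).toLinearMap.toAddMonoidHom.comp
        ((fracEquiv Ψ).symm : FF n K ≃+* FF n K).toAddMonoidHom))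
      (derAdd (dF n K l) + derAdd (fracDer (DeB_D Ψ l)))
      (fun x y => ?_) (fun x y => ?_) (fun r => ?_)
    · have h2 := DFunLike.congr_fun h1 (fracEquiv Ψ x)
      change fracEquiv Ψ (dF n K l ((fracEquiv Ψ).symm (fracEquiv Ψ x))) =
        dF n K l (fracEquiv Ψ x) + fracDer (DeB_D Ψ l) (fracEquiv Ψ x) at h2
      rw [RingEquiv.symm_apply_apply] at h2
      exact h2
    · change fracEquiv Ψ (dF n K l ((fracEquiv Ψ).symm (x * y))) =
        fracEquiv Ψ (dF n K l ((fracEquiv Ψ).symm x)) * y +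
          x * fracEquiv Ψ (dF n K l ((fracEquiv Ψ).symm y))
      rw [map_mul, Derivation.leibniz, map_add, smul_eq_mul, smul_eq_mul, map_mul, map_mul,
        RingEquiv.apply_symm_apply, RingEquiv.apply_symm_apply]
      ring
    · rw [AddMonoidHom.add_apply, AddMonoidHom.add_apply, AddMonoidHom.add_apply,
        CoA_derAdd_mul, CoA_derAdd_mul]
      ring
    · change fracEquiv Ψ (dF n K l ((fracEquiv Ψ).symm (inc n K r))) =
        dF n K l (inc n K r) + fracDer (DeB_D Ψ l) (inc n K r)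
      have e1 : (fracEquiv Ψ).symm (inc n K r) = inc n K (Ψ.symm r) := by
        rw [RingEquiv.symm_apply_eq, inc, fracEquiv_algebraMap, RingEquiv.apply_symm_apply]
      rw [e1, dF_inc, dF_inc]
      have e2 : fracDer (DeB_D Ψ l) (inc n K r) = inc n K (DeB_D Ψ l r) := fracDer_algebraMap _ _
      rw [e2, DeB_D_apply, map_sub, inc, fracEquiv_algebraMap]
      ring

/-- Transport of the canonical filtration.

Proof. Write `Ψ` for `fracEquiv Ψ`, `∂'_l = ∂_l + D_l` (`exists_transport`), `θ' = Σ x_l ∂'_l`; `Ψ (∂_l x) = ∂'_l (Ψ x)`, `Ψ (loc g) ⊆ loc (Ψ g)`. By `der_stable`, `D_l` preserves `W i`, so `∂'_l` maps `W i` to `W (i-1)`. `good_sandwich` for `V` and the filtration `{x | Ψ x ∈ W i}` (an `R`-submodule: `Ψ (r x) = Ψ r Ψ x`; compatible with the connection `std`): gives `N0` with `Ψ (V i) ⊆ W (i - N0)`. `gen_le` with `φ = Ψ`: for `c` monic, `y = Ψ x ∈ W j`: `Ψ (aeval θ c x) = Σ_a Ψ(C c_a) θ'^a y`, and `θ' y - θ y = Σ x_l D_l y ∈ W (j+1)`, `Ψ(C c_a) - C c_a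 ∈ mI 1` maps `W j` to `W (j+1)`; `θ, θ'` preserve `W j` and `W (j+1)`; so the difference lies in `W (j+1)`. -/
theorem psi_map {lam : K →+ ℚ} (Ψ : MvPowerSeries (Fin n) K ≃+* MvPowerSeries (Fin n) K)
    (hX : ∀ j, Ψ (X j) = X j) (hC : ∀ c, Ψ (C c) - C c ∈ mI n K 1)
    {g : MvPowerSeries (Fin n) K} (hg : g ≠ 0)
    {V W : ℤ → Submodule (MvPowerSeries (Fin n) K) (FF n K)} (hV : VPack lam (std n K) ⊥ V)
    (hVu : ∀ x, (∃ i, x ∈ V i) ↔ x ∈ loc g) (hW : VPack lam (std n K) ⊥ W)
    (hWu : ∀ x, (∃ i, x ∈ W i) ↔ x ∈ loc (Ψ g)) (i : ℤ) {x : FF n K} (hx : x ∈ V i) :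
    fracEquiv Ψ x ∈ W i := by
  have hg' : Ψ g ≠ 0 := fun h => hg ((map_eq_zero_iff Ψ Ψ.injective).1 h)
  choose D hDX hD using exists_transport Ψ hX
  have hDW : ∀ (l : Fin n) (i : ℤ) (y : FF n K), y ∈ W i → fracDer (D l) y ∈ W i :=
    fun l i y hy => der_stable hg' hW hWu (D l) (hDX l) i hy
  have hc : Compat (std n K) (DeB_pull Ψ W) := by
    refine ⟨fun i y hy => hW.compat.anti i hy, ?_, ?_⟩
    · intro i l m hm
      rw [DeB_mem_pull] at hm ⊢
      rw [DeB_smul, hX]
      exact hW.compat.x_mem _ _ _ hm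
    · intro i l m hm
      rw [DeB_mem_pull] at hm ⊢
      rw [std_nab, hD]
      refine Submodule.add_mem _ ?_ ?_
      · exact hW.compat.nab_mem i l _ hm
      · exact hW.compat.le (by omega) (hDW l i _ hm)
  obtain ⟨N0, h0⟩ := good_sandwich hV.good hc (fun i => bot_le) (fun i m hm =>
    (hWu _).2 (DeB_loc Ψ ((hVu m).1 ⟨i, hm⟩)))
  have hth : ∀ (j : ℤ) (m : FF n K), fracEquiv Ψ m ∈ W j →
      (std n K).theta (fracEquiv Ψ m) - fracEquiv Ψ ((std n K).theta m) ∈ W (j + 1) := by
    intro j m hm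
    rw [Conn.theta_apply, Conn.theta_apply, map_sum, ← Finset.sum_sub_distrib]
    refine Submodule.sum_mem _ fun l _ => ?_
    rw [DeB_smul, hX, std_nab, std_nab, hD, smul_add, sub_add_cancel_left]
    refine Submodule.neg_mem _ ?_
    exact hW.compat.x_mem _ _ _ (hDW l j _ hm)
  have hpow : ∀ (j : ℤ) (k : ℕ) (m : FF n K), fracEquiv Ψ m ∈ W j →
      ((std n K).theta ^ k) (fracEquiv Ψ m) - fracEquiv Ψ (((std n K).theta ^ k) m) ∈ W (j + 1) ∧
      fracEquiv Ψ (((std n K).theta ^ k) m) ∈ W j := by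
    intro j k
    induction k with
    | zero =>
      intro m hm
      rw [pow_zero, Module.End.one_apply, Module.End.one_apply, sub_self]
      exact ⟨Submodule.zero_mem _, hm⟩
    | succ k ih =>
      intro m hm
      obtain ⟨h1, h2⟩ := ih m hm
      have h3 := hth j _ h2
      have h4 := hW.compat.theta_mem h1
      have h5 : ((std n K).theta ^ (k + 1)) (fracEquiv Ψ m) -
          fracEquiv Ψ (((std n K).theta ^ (k + 1)) m) ∈ W (j + 1) := by
        have h6 := Submodule.add_mem _ h4 h3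
        rw [pow_succ', Module.End.mul_apply, Module.End.mul_apply]
        rw [map_sub, sub_add_sub_cancel] at h6
        exact h6
      refine ⟨h5, ?_⟩
      have h7 : fracEquiv Ψ (((std n K).theta ^ (k + 1)) m) =
          (std n K).theta (fracEquiv Ψ (((std n K).theta ^ k) m)) -
          ((std n K).theta (fracEquiv Ψ (((std n K).theta ^ k) m)) -
            fracEquiv Ψ ((std n K).theta (((std n K).theta ^ k) m))) := by
        rw [sub_sub_cancel, pow_succ', Module.End.mul_apply]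
      rw [h7]
      exact Submodule.sub_mem _ (hW.compat.theta_mem h2) (hW.compat.anti j h3)
  refine gen_le hV.gr hW.gr hW.compat (fracEquiv Ψ).toAddMonoidHom N0
    (fun i m hm => h0 i hm) ?_ i x hx
  intro c i j m hmon _ hm _
  change fracEquiv Ψ m ∈ W j at hm
  change Polynomial.aeval (std n K).theta c (fracEquiv Ψ m) -
    fracEquiv Ψ (Polynomial.aeval (std n K).theta c m) ∈ W (j + 1)
  have hCs : ∀ (a : K) (y : FF n K), a • y = (C a : MvPowerSeries (Fin n) K) • y :=
    fun a y => (ConnB_C_smul a y).symm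
  clear hmon
  induction c using Polynomial.induction_on' with
  | add p q hp hq =>
    rw [map_add, LinearMap.add_apply, LinearMap.add_apply, map_add, add_sub_add_comm]
    exact Submodule.add_mem _ hp hq
  | monomial k a =>
    obtain ⟨h1, h2⟩ := hpow j k m hm
    rw [Polynomial.aeval_monomial, Module.End.mul_apply,
      Module.End.mul_apply, Module.algebraMap_end_apply, Module.algebraMap_end_apply,
      hCs, hCs, DeB_smul]
    have h3 := Submodule.smul_mem _ (C a : MvPowerSeries (Fin n) K) h1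
    have h4 := hW.compat.mI_mem (hC a) h2
    have h5 := Submodule.sub_mem _ h3 h4
    rw [smul_sub, sub_smul] at h5
    convert h5 using 1
    abel

end B5a
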