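import Pool.Agent.H.MP_b5a980_ag.Dc5
import Pool.Agent.H.MP_b5a980_ag.DeB
import Pool.Agent.H.MP_b5a980_ag.SSD

set_option autoImplicit false
set_option linter.unusedSectionVars false
set_option linter.style.longLine false

/-!
The dual complexes of `V^0 / V^1` for two coefficient fields (MP_b5a980_ag, part D).
-/

namespace B5a

universe u v w

open MvPowerSeries

variable {n r : ℕ} {K : Type u} [Field K] {lam0 : K →+ ℚ}
  {V : MvPowerSeries (Fin n) K → ℤ → Submodule (MvPowerSeries (Fin n) K) (FF n K)}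
  {f : Fin r → MvPowerSeries (Fin n) K}

/-- `Ψ` applied to all components. -/
noncomputable def Dc7_P (Ψ : MvPowerSeries (Fin n) K ≃+* MvPowerSeries (Fin n) K) :
    Fm r (FF n K) →+ Fm r (FF n K) where
  toFun c := fun S => fracEquiv Ψ (c S)
  map_zero' := by
    funext S
    exact map_zero _
  map_add' := by
    intro x y
    funext S
    exact map_add _ _ _

theorem Dc7_P_apply (Ψ : MvPowerSeries (Fin n) K ≃+* MvPowerSeries (Fin n) K)
    (c : Fm r (FF n K)) (S : Finset (Fin r)) : Dc7_P Ψ c S = fracEquiv Ψ (c S) := rfl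

theorem Dc7_P_smul (Ψ : MvPowerSeries (Fin n) K ≃+* MvPowerSeries (Fin n) K)
    (a : MvPowerSeries (Fin n) K) (c : Fm r (FF n K)) :
    Dc7_P Ψ (a • c) = Ψ a • Dc7_P Ψ c :=
  funext fun S => DeB_smul Ψ a (c S)

theorem Dc7_P_cech (Ψ : MvPowerSeries (Fin n) K ≃+* MvPowerSeries (Fin n) K)
    (c : Fm r (FF n K)) : Dc7_P Ψ (cech n r K c) = cech n r K (Dc7_P Ψ c) := by
  funext S
  change fracEquiv Ψ (∑ s ∈ S, sg s S • c (S.erase s)) =
    ∑ s ∈ S, sg s S • fracEquiv Ψ (c (S.erase s))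
  rw [map_sum]
  exact Finset.sum_congr rfl fun s _ => map_zsmul _ _ _

theorem Dc7_P_symm (Ψ : MvPowerSeries (Fin n) K ≃+* MvPowerSeries (Fin n) K)
    (c : Fm r (FF n K)) : Dc7_P Ψ (Dc7_P Ψ.symm c) = c := by
  funext S
  rw [Dc7_P_apply, Dc7_P_apply]
  have h : ∀ x : FF n K, fracEquiv Ψ (fracEquiv Ψ.symm x) = x := by
    have h1 : ((fracEquiv Ψ : FF n K ≃+* FF n K) : FF n K →+* FF n K).comp
        (fracEquiv Ψ.symm : FF n K ≃+* FF n K) = RingHom.id _ := by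
      refine IsLocalization.ringHom_ext (nonZeroDivisors (MvPowerSeries (Fin n) K))
        (RingHom.ext fun a => ?_)
      change fracEquiv Ψ (fracEquiv Ψ.symm (algebraMap _ _ a)) = algebraMap _ _ a
      rw [fracEquiv_algebraMap, fracEquiv_algebraMap, RingEquiv.apply_symm_apply]
    exact fun x => DFunLike.congr_fun h1 x
  exact h _

theorem Dc7_mI (Ψ : MvPowerSeries (Fin n) K ≃+* MvPowerSeries (Fin n) K) (N : ℕ)
    {a : MvPowerSeries (Fin n) K} (ha : a ∈ mI n K N) : Ψ a ∈ mI n K N := by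
  rw [mI_eq_pow] at ha ⊢
  have h1 : (IsLocalRing.maximalIdeal (MvPowerSeries (Fin n) K)).map (Ψ : _ →+* _) ≤
      IsLocalRing.maximalIdeal (MvPowerSeries (Fin n) K) := by
    rw [Ideal.map_le_iff_le_comap]
    intro x hx
    rw [IsLocalRing.mem_maximalIdeal, mem_nonunits_iff] at hx
    rw [Ideal.mem_comap, IsLocalRing.mem_maximalIdeal, mem_nonunits_iff]
    intro h
    apply hx
    have h2 := h.map Ψ.symm
    have h3 : Ψ.symm ((Ψ : MvPowerSeries (Fin n) K →+* MvPowerSeries (Fin n) K) x) = x :=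
      Ψ.symm_apply_apply x
    rwa [h3] at h2
  have h2 := Ideal.mem_map_of_mem (Ψ : MvPowerSeries (Fin n) K →+* MvPowerSeries (Fin n) K) ha
  rw [Ideal.map_pow] at h2
  exact Ideal.pow_right_mono h1 N h2

/-- The hypotheses on `Ψ`. -/
structure Dc7_H (Ψ : MvPowerSeries (Fin n) K ≃+* MvPowerSeries (Fin n) K)
    (g f : Fin r → MvPowerSeries (Fin n) K) : Prop where
  hX : ∀ j, Ψ (X j) = X j
  hC : ∀ c, Ψ (C c) - C c ∈ mI n K 1
  hg : ∀ s, g s ≠ 0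
  hf : ∀ s, f s ≠ 0
  hfg : ∀ s, f s = Ψ (g s)

theorem Dc7_H.symm {Ψ : MvPowerSeries (Fin n) K ≃+* MvPowerSeries (Fin n) K}
    {g f : Fin r → MvPowerSeries (Fin n) K} (h : Dc7_H Ψ g f) : Dc7_H Ψ.symm f g where
  hX j := by rw [RingEquiv.symm_apply_eq, h.hX]
  hC c := by
    have h1 := Dc7_mI Ψ.symm 1 (h.hC c)
    rw [map_sub, RingEquiv.symm_apply_apply] at h1
    have h2 := Ideal.neg_mem_iff _ |>.2 h1
    rwa [neg_sub] at h2
  hg := h.hf
  hf := h.hg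
  hfg s := by rw [h.hfg s, RingEquiv.symm_apply_apply]

section

variable {Ψ : MvPowerSeries (Fin n) K ≃+* MvPowerSeries (Fin n) K}
  {g : Fin r → MvPowerSeries (Fin n) K}

theorem Dc7_H.fS_eq (h : Dc7_H Ψ g f) (S : Finset (Fin r)) : fS f S = Ψ (fS g S) := by
  unfold fS
  rw [map_prod]
  exact Finset.prod_congr rfl fun s _ => h.hfg s

theorem Dc7_P_mem (h : Dc7_H Ψ g f) (hV : VFam lam0 V) {j : ℤ} {I : Finset (Fin n)}
    {c : Fm r (FF n K)} (hc : c ∈ WV V g j I) : Dc7_P Ψ c ∈ WV V f j I := by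
  intro S
  have h1 := hV _ (fS_ne_zero h.hg S)
  have h2 := hV _ (fS_ne_zero h.hf S)
  refine psi_map Ψ h.hX h.hC (fS_ne_zero h.hg S) h1.1 h1.2 h2.1 ?_ _ (hc S)
  intro x
  rw [← h.fS_eq]
  exact h2.2 x

/-- The error terms. -/
theorem Dc7_err_smul (h : Dc7_H Ψ g f) (hV : VFam lam0 V) {I : Finset (Fin n)} (k : K)
    {c : Fm r (FF n K)} (hc : c ∈ WV V f 0 I) :
    (Ψ (C k) - C k) • c ∈ WV V f 1 I := by
  intro S
  have h2 := hV _ (fS_ne_zero h.hf S)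
  have h3 := h2.1.compat.mI_mem (h.hC k) (hc S)
  refine h2.1.compat.le ?_ h3
  push_cast
  omega

theorem Dc7_nab_sub (hV : VFam lam0 V) (h : Dc7_H Ψ g f) {I : Finset (Fin n)} {i : Fin n}
    (hi : i ∉ I) {c : Fm r (FF n K)} (hc : c ∈ WV V g 0 I) :
    (cconn n r K).nab i (Dc7_P Ψ c) - Dc7_P Ψ ((cconn n r K).nab i c) ∈
      WV V f 1 (insert i I) := by
  obtain ⟨D, hDX, hD⟩ := exists_transport Ψ h.hX i
  intro S
  have h2 := hV _ (fS_ne_zero h.hf S)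
  have h3 := Dc7_P_mem h hV hc S
  have h4 := der_stable (fS_ne_zero h.hf S) h2.1 h2.2 D hDX _ h3
  have h5 : ((cconn n r K).nab i (Dc7_P Ψ c) - Dc7_P Ψ ((cconn n r K).nab i c)) S =
      - fracDer D (Dc7_P Ψ c S) := by
    change dF n K i (fracEquiv Ψ (c S)) - fracEquiv Ψ (dF n K i (c S)) =
      - fracDer D (fracEquiv Ψ (c S))
    rw [hD]
    abel
  rw [h5]
  refine Submodule.neg_mem _ (h2.1.compat.le ?_ h4)
  rw [Finset.card_insert_of_notMem hi]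
  push_cast
  omega

theorem Dc7_kill {hV : VFam lam0 V} {hf : ∀ s, f s ≠ 0} {lam : DW (WV V f 0)}
    (hl : lam ∈ Gk hV hf) {I : Finset (Fin n)} {c : Fm r (FF n K)} (hc : c ∈ WV V f 1 I)
    (hc' : c ∈ WV V f 0 I) : lam I ⟨c, hc'⟩ = 0 := by
  have h0 : resD (WV_anti hV hf) lam = 0 := LinearMap.mem_ker.1 hl
  exact LinearMap.congr_fun (congrFun h0 I) (⟨c, hc⟩ : WV V f 1 I)

theorem Dc7_eq {hV : VFam lam0 V} {hf : ∀ s, f s ≠ 0} {lam : DW (WV V f 0)}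
    (hl : lam ∈ Gk hV hf) {I : Finset (Fin n)} {c c' : Fm r (FF n K)} (hc : c ∈ WV V f 0 I)
    (hc' : c' ∈ WV V f 0 I) (hs : c - c' ∈ WV V f 1 I) : lam I ⟨c, hc⟩ = lam I ⟨c', hc'⟩ := by
  have h1 := Dc7_kill hl hs (Submodule.sub_mem _ hc hc')
  have h2 : (⟨c - c', Submodule.sub_mem _ hc hc'⟩ : WV V f 0 I) = ⟨c, hc⟩ - ⟨c', hc'⟩ := rfl
  rw [h2, map_sub, sub_eq_zero] at h1
  exact h1

/-- The pulled back functionals. -/
noncomputable def Dc7_T0 (h : Dc7_H Ψ g f) (hV : VFam lam0 V) (lam : Gk hV h.hf) :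
    DW (WV V g 0) := fun I =>
  { toFun := fun c => lam.1 I ⟨Dc7_P Ψ c, Dc7_P_mem h hV c.2⟩
    map_add' := by
      intro x y
      rw [← map_add]
      congr 1
      exact Subtype.ext (map_add _ _ _)
    map_smul' := by
      intro k x
      rw [RingHom.id_apply, ← map_smul]
      refine Dc7_eq lam.2 _ _ ?_
      have h1 : ((k • x : WV V g 0 I) : Fm r (FF n K)) =
          (C k : MvPowerSeries (Fin n) K) • (x : Fm r (FF n K)) := (ConnB_C_smul k _).symm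
      have h2 : (k • Dc7_P Ψ (x : Fm r (FF n K)) : Fm r (FF n K)) =
          (C k : MvPowerSeries (Fin n) K) • Dc7_P Ψ (x : Fm r (FF n K)) :=
        (ConnB_C_smul k _).symm
      rw [h1, Dc7_P_smul]
      change Ψ (C k) • Dc7_P Ψ (x : Fm r (FF n K)) - k • Dc7_P Ψ (x : Fm r (FF n K)) ∈ _
      rw [h2, ← sub_smul]
      exact Dc7_err_smul h hV k (Dc7_P_mem h hV x.2) }

theorem Dc7_T0_apply (h : Dc7_H Ψ g f) (hV : VFam lam0 V) (lam : Gk hV h.hf)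
    (I : Finset (Fin n)) (c : WV V g 0 I) :
    Dc7_T0 h hV lam I c = lam.1 I ⟨Dc7_P Ψ c, Dc7_P_mem h hV c.2⟩ := rfl

theorem Dc7_T0_mem (h : Dc7_H Ψ g f) (hV : VFam lam0 V) (lam : Gk hV h.hf) :
    Dc7_T0 h hV lam ∈ Gk hV h.hg := by
  rw [LinearMap.mem_ker]
  funext I
  apply LinearMap.ext
  intro c
  change lam.1 I ⟨Dc7_P Ψ (c : Fm r (FF n K)), _⟩ = 0
  exact Dc7_kill lam.2 (Dc7_P_mem h hV c.2) _

/-- The pulled back functionals. -/
noncomputable def Dc7_T (h : Dc7_H Ψ g f) (hV : VFam lam0 V) :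
    Gk hV h.hf →ₗ[K] Gk hV h.hg where
  toFun lam := ⟨Dc7_T0 h hV lam, Dc7_T0_mem h hV lam⟩
  map_add' := by
    intro x y
    rfl
  map_smul' := by
    intro k x
    rfl

theorem Dc7_T_symm (h : Dc7_H Ψ g f) (hV : VFam lam0 V) (lam : Gk hV h.hf) :
    Dc7_T h.symm hV (Dc7_T h hV lam) = lam := by
  apply Subtype.ext
  funext I
  apply LinearMap.ext
  intro c
  change lam.1 I ⟨Dc7_P Ψ (Dc7_P Ψ.symm (c : Fm r (FF n K))), _⟩ = lam.1 I c
  congr 1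
  exact Subtype.ext (Dc7_P_symm Ψ _)

theorem Dc7_T_F (h : Dc7_H Ψ g f) (hV : VFam lam0 V) (p m : ℤ) (lam : Gk hV h.hf)
    (hl : lam ∈ (DgSS hV h.hf).F p m) : Dc7_T h hV lam ∈ (DgSS hV h.hg).F p m := by
  obtain ⟨h1, h2, h3⟩ := hl
  refine ⟨fun I c => ?_, fun I hI => ?_, fun I c hc => ?_⟩
  · obtain ⟨N, hN⟩ := h1 I ⟨Dc7_P Ψ c, Dc7_P_mem h hV c.2⟩
    refine ⟨N, fun a ha => ?_⟩
    have h4 := hN _ (Dc7_mI Ψ N ha)
    change lam.1 I ⟨Dc7_P Ψ ((a • c : WV V g 0 I) : Fm r (FF n K)), _⟩ = 0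
    rw [← h4]
    congr 1
    exact Subtype.ext (Dc7_P_smul Ψ a _)
  · apply LinearMap.ext
    intro c
    change lam.1 I ⟨Dc7_P Ψ (c : Fm r (FF n K)), _⟩ = 0
    have h4 : lam.1 I = 0 := h2 I hI
    rw [h4]
    rfl
  · refine h3 I ⟨Dc7_P Ψ c, Dc7_P_mem h hV c.2⟩ fun S hS => ?_
    change fracEquiv Ψ ((c : Fm r (FF n K)) S) = 0
    rw [hc S hS, map_zero]

theorem Dc7_T_d (h : Dc7_H Ψ g f) (hV : VFam lam0 V) (lam : Gk hV h.hf) :
    Dc7_T h hV ((DgSS hV h.hf).d lam) = (DgSS hV h.hg).d (Dc7_T h hV lam) := by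
  apply Subtype.ext
  funext I
  apply LinearMap.ext
  intro c
  change -(∑ i ∈ (Iᶜ).attach, sg (i : Fin n) I •
      lam.1 (insert (i : Fin n) I) ⟨(cconn n r K).nab i (Dc7_P Ψ (c : Fm r (FF n K))), _⟩) +
      ((-1 : ℤ) ^ (n - I.card)) • lam.1 I ⟨cech n r K (Dc7_P Ψ (c : Fm r (FF n K))), _⟩ =
    -(∑ i ∈ (Iᶜ).attach, sg (i : Fin n) I •
      lam.1 (insert (i : Fin n) I) ⟨Dc7_P Ψ ((cconn n r K).nab i (c : Fm r (FF n K))), _⟩) +
      ((-1 : ℤ) ^ (n - I.card)) • lam.1 I ⟨Dc7_P Ψ (cech n r K (c : Fm r (FF n K))), _⟩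
  congr 1
  · congr 1
    refine Finset.sum_congr rfl fun i _ => ?_
    congr 1
    refine Dc7_eq lam.2 _ _ ?_
    exact Dc7_nab_sub hV h (Finset.mem_compl.mp i.2) c.2
  · congr 2
    exact Subtype.ext (Dc7_P_cech Ψ _).symm

end

/-- Proof. Let `Φ = fracEquiv Ψ` applied to all components, a bijection `WV V g j I → WV V f j I` (`psi_map` for `Ψ` and its inverse, as in `ssi_psi`), `Ψ`-semilinear over `R`. For `λ ∈ Gk` (for `g`) put `(T λ)_I c = λ_I (Φ⁻¹ c)`. It is `K`-linear in `c ∈ WV V f 0 I`: `Φ⁻¹ (k • c) = Ψ⁻¹(C k) Φ⁻¹ c`, and `(Ψ⁻¹(C k) - C k) Φ⁻¹ c ∈ WV V g 1 I` is killed by `λ_I`. `T λ` kills `WV V f 1`. `T` is `K`-linear in `λ`, bijective (inverse: the same with `Φ`). Continuity: `Ψ` preserves the `mI N` (automorphism of a local ring, `mI_eq_pow`). Cech degrees and `|I|` are preserved. `T` commutes with the differential: `Φ⁻¹ (∂_i c) - ∂_i (Φ⁻¹ c)` has components `fracDer D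 (..)` with `D` killing the variables (`exists_transport` for `Ψ⁻¹`), so for `c ∈ WV V f 0 I` it lies in `V (0-|I|) = V (1-|I∪i|)`, i.e. in `WV V g 1 (I∪i)`, killed by `λ_(I∪i)` (`der_stable`); `cech` commutes with `Φ`. `e_of_bij`, `ssiso_of_map`, `DgSS_bounded`. -/
theorem ssd_psi (hV : VFam lam0 V) {g : Fin r → MvPowerSeries (Fin n) K}
    (Ψ : MvPowerSeries (Fin n) K ≃+* MvPowerSeries (Fin n) K)
    (hX : ∀ j, Ψ (X j) = X j) (hC : ∀ c, Ψ (C c) - C c ∈ mI n K 1) (hg : ∀ s, g s ≠ 0)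
    (hf : ∀ s, f s ≠ 0) (hfg : ∀ s, f s = Ψ (g s)) :
    Nonempty (SSIso (DgSS hV hg) (DgSS hV hf)) := by
  have h : Dc7_H Ψ g f := ⟨hX, hC, hg, hf, hfg⟩
  have hm : FMap (DgSS hV hg) (DgSS hV hf) (Dc7_T h.symm hV) :=
    ⟨fun p m x _ => Dc7_T_d h.symm hV x, fun p m x hx => Dc7_T_F h.symm hV p m x hx⟩
  have hinj : ∀ (p m : ℤ) (x : Gk hV hg), x ∈ (DgSS hV hg).F p m →
      Dc7_T h.symm hV x = 0 → x = 0 := by
    intro p m x _ h0
    have h1 := Dc7_T_symm h.symm hV x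
    rw [h0, map_zero] at h1
    exact h1.symm
  have hsurj : ∀ (p m : ℤ) (y : Gk hV hf), y ∈ (DgSS hV hf).F p m →
      ∃ x ∈ (DgSS hV hg).F p m, Dc7_T h.symm hV x = y := fun p m y hy =>
    ⟨Dc7_T h hV y, Dc7_T_F h hV p m y hy, Dc7_T_symm h hV y⟩
  have hb := e_of_bij hm hinj hsurj 2
  exact ssiso_of_map (DgSS_bounded hV hg) (DgSS_bounded hV hf) hm hb.1 hb.2

end B5a
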