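import Pool.Agent.H.MP_b5a980_ag.As0
import Pool.Agent.H.MP_b5a980_ag.BoA
import Pool.Agent.H.MP_b5a980_ag.SSD

set_option autoImplicit false
set_option linter.unusedSectionVars false
set_option linter.style.longLine false

/-!
The filtered complex of continuous functionals as an object (MP_b5a980_ag, part D).
-/

namespace B5a

universe u v w

open MvPowerSeries

variable {n r : ℕ} {K : Type u} [Field K]

/-- The sign `(-1)^(sum of the elements of J)`. -/
def ssg {n : ℕ} (J : Finset (Fin n)) : ℤ := (-1) ^ (∑ j ∈ J, (j : ℕ))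

/-- Proof. `sg i J^c = (-1)^i sg i J` (the number of elements `< i` is `i`) and `ssg (J ∪ i) = (-1)^i ssg J`. -/
theorem ssg_sg {J : Finset (Fin n)} {i : Fin n} (h : i ∉ J) :
    ssg J * sg i Jᶜ = sg i J * ssg (insert i J) := by
  have h1 : (J.filter fun j => j < i).card + (Jᶜ.filter fun j => j < i).card = (i : ℕ) := by
    rw [← Finset.card_union_of_disjoint
      (Finset.disjoint_filter_filter disjoint_compl_right), ← Finset.filter_union,
      Finset.union_compl]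
    have h2 : (Finset.univ.filter fun j : Fin n => j < i) = Finset.Iio i := by
      ext j
      simp
    rw [h2, Fin.card_Iio]
  have h3 : sg i Jᶜ = (-1) ^ (i : ℕ) * sg i J := by
    unfold sg
    rw [← h1, pow_add, mul_right_comm, ← mul_pow]
    norm_num
  have h4 : ssg (insert i J) = (-1) ^ (i : ℕ) * ssg J := by
    unfold ssg
    rw [Finset.sum_insert h, pow_add]
  rw [h3, h4]
  ring

/-- The star map `(star φ)_J = ± φ_(J^c)`, from forms with values in `astar f` to families of functionals on `WA f J`. -/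
noncomputable def starM (f : Fin r → MvPowerSeries (Fin n) K) :
    Fm n (CD n K (CC f)) →ₗ[K] DW (WA f) where
  toFun φ := fun J => ssg J • (φ Jᶜ).fn.comp
    ((Submodule.inclusion (fun _ hc => hc : WA f J ≤ WA f ∅)).restrictScalars K)
  map_add' := by
    intro x y
    funext J
    refine LinearMap.ext fun c => ?_
    show ssg J • (((x + y) Jᶜ).fn (⟨c, c.2⟩ : CC f)) =
      ssg J • ((x Jᶜ).fn (⟨c, c.2⟩ : CC f)) + ssg J • ((y Jᶜ).fn (⟨c, c.2⟩ : CC f))
    rw [Pi.add_apply, CD.add_fn, smul_add]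
  map_smul' := by
    intro c x
    funext J
    refine LinearMap.ext fun a => ?_
    show ssg J • (((c • x) Jᶜ).fn (⟨a, a.2⟩ : CC f)) =
      c • (ssg J • ((x Jᶜ).fn (⟨a, a.2⟩ : CC f)))
    rw [Pi.smul_apply, CD.smulK_fn, ← smul_eq_mul, smul_comm]

theorem starM_apply (f : Fin r → MvPowerSeries (Fin n) K) (φ : Fm n (CD n K (CC f)))
    (J : Finset (Fin n)) (c : WA f J) : starM f φ J c = ssg J • (φ Jᶜ).fn ⟨c, c.2⟩ := rfl

theorem Du0_sum {ι : Type*} (s : Finset ι) (f : Fin r → MvPowerSeries (Fin n) K)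
    (g : ι → CD n K (CC f)) (c : CC f) : (∑ i ∈ s, g i).fn c = ∑ i ∈ s, (g i).fn c := by
  classical
  induction s using Finset.induction_on with
  | empty => rw [Finset.sum_empty, Finset.sum_empty, CD.zero_fn]
  | insert a s ha ih => rw [Finset.sum_insert ha, Finset.sum_insert ha, CD.add_fn, ih]

theorem Du0_zsmul (k : ℤ) {f : Fin r → MvPowerSeries (Fin n) K} (x : CD n K (CC f)) (c : CC f) :
    (k • x).fn c = k • x.fn c := by
  have h := map_zsmul (AddMonoidHom.mk' (fun x : CD n K (CC f) => x.fn c)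
    (fun x y => CD.add_fn x y c)) k x
  exact h

theorem Du0_compl {J : Finset (Fin n)} (i : Fin n) : Jᶜ.erase i = (insert i J)ᶜ :=
  (Finset.compl_insert).symm

theorem Du0_card (J : Finset (Fin n)) : Jᶜ.card = n - J.card := by
  rw [Finset.card_compl, Fintype.card_fin]

theorem Du0_comm (f : Fin r → MvPowerSeries (Fin n) K) (x : Fm n (CD n K (CC f)))
    (J : Finset (Fin n)) (c : WA f J) :
    ssg J • ((∑ i ∈ Jᶜ, sg i Jᶜ • (cdconn (ccn f)).nab i (x (Jᶜ.erase i))) +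
      ((-1 : ℤ) ^ Jᶜ.card) • cdmap (cce f) (x Jᶜ)).fn (⟨c, c.2⟩ : CC f) =
    dDual (WA_sys f) (starM f x) J c := by
  rw [Dc1_apply, CD.add_fn, Du0_sum, Du0_zsmul, cdmap_fn, smul_add, Du0_card]
  have h1 : ssg J • (∑ i ∈ Jᶜ, (sg i Jᶜ • (cdconn (ccn f)).nab i (x (Jᶜ.erase i))).fn
      (⟨c, c.2⟩ : CC f)) = -(∑ i ∈ (Jᶜ).attach, sg (i : Fin n) J •
          starM f x (insert (i : Fin n) J) ⟨(cconn n r K).nab i c,
            (WA_sys f).nab_mem J i (Finset.mem_compl.mp i.2) c c.2⟩) := by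
    rw [← Finset.sum_attach, Finset.smul_sum, ← Finset.sum_neg_distrib]
    refine Finset.sum_congr rfl fun i _ => ?_
    rw [Du0_zsmul, cdconn_fn, starM_apply, Du0_compl, smul_neg, smul_neg, smul_smul, smul_smul,
      ssg_sg (Finset.mem_compl.mp i.2)]
    rfl
  have h2 : ssg J • ((-1 : ℤ) ^ (n - J.card)) • (x Jᶜ).fn (cce f (⟨c, c.2⟩ : CC f)) =
      ((-1 : ℤ) ^ (n - J.card)) • starM f x J ⟨cech n r K c, (WA_sys f).cech_mem J c c.2⟩ := by
    rw [starM_apply, smul_comm]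
    rfl
  rw [h1, h2]

theorem Du0_map (f : Fin r → MvPowerSeries (Fin n) K) {p m : ℤ} {x : Fm n (CD n K (CC f))}
    (hx : ∀ I : Finset (Fin n), x I ∈ asG f (m - I.card) ∧ ((I.card : ℤ) < p → x I = 0)) :
    starM f x ∈ dualF (WA_sys f) p m := by
  refine ⟨fun I c => ?_, fun I hI => ?_, fun I c hc => ?_⟩
  · obtain ⟨N, hN⟩ := (x Iᶜ).cont (⟨c, c.2⟩ : CC f) trivial
    refine ⟨N, fun a ha => ?_⟩
    have h1 : (x Iᶜ).fn (⟨(a • c : WA f I), (a • c : WA f I).2⟩ : CC f) = 0 := hN a ha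
    rw [starM_apply, h1, smul_zero]
  · have h0 := Du0_card I
    have h1 := Finset.card_le_univ I
    rw [Fintype.card_fin] at h1
    refine LinearMap.ext fun c => ?_
    rw [starM_apply, (hx Iᶜ).2 (by omega), CD.zero_fn, smul_zero]
    rfl
  · have h0 := Du0_card I
    have h1 := Finset.card_le_univ I
    rw [Fintype.card_fin] at h1
    have h2 : (x Iᶜ).fn (⟨c, c.2⟩ : CC f) = 0 :=
      (hx Iᶜ).1 (⟨c, c.2⟩ : CC f) (fun S hS => hc S (by omega))
    rw [starM_apply, h2, smul_zero]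

/-- Proof. `(star (d φ))_J c = ssg J ((d φ)_(J^c)) c = ssg J (Σ_(i ∈ J^c) sg i J^c (∂_i φ_(J^c ∖ i)) c + (-1)^|J^c| φ_(J^c) (δ c))`; `(∂_i φ_(..)) c = - φ_(..) (∂_i c)`, `J^c ∖ i = (J ∪ i)^c`, `ssg_sg`, `|J^c| = n - |J|`. This is `dDual`. -/
theorem starM_FMap (f : Fin r → MvPowerSeries (Fin n) K) :
    FMap (objSS (astar f)) (DSS (WA_sys f)) (starM f) := by
  constructor
  · intro p m x _
    funext J
    refine LinearMap.ext fun c => ?_
    have h1 := objSS_d (astar f) x Jᶜ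
    refine Eq.trans ?_ (Du0_comm f x J c)
    exact congrArg (fun y : CD n K (CC f) => ssg J • y.fn (⟨c, c.2⟩ : CC f)) h1
  · intro p m x hx
    exact Du0_map f hx

theorem Du0_inj (f : Fin r → MvPowerSeries (Fin n) K) {x : Fm n (CD n K (CC f))}
    (h : starM f x = 0) : x = 0 := by
  funext I
  refine CD.ext fun c => ?_
  have h1 : ssg Iᶜ • (x Iᶜᶜ).fn (⟨c, c.2⟩ : CC f) = 0 :=
    LinearMap.congr_fun (congrFun h Iᶜ) (⟨c, c.2⟩ : WA f Iᶜ)
  rw [compl_compl] at h1
  exact Dc1_sgn h1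

theorem Du0_sq (J : Finset (Fin n)) : ssg J * ssg J = 1 := by
  unfold ssg
  rw [← mul_pow]
  norm_num

theorem Du0_surj (f : Fin r → MvPowerSeries (Fin n) K) {p m : ℤ} {y : DW (WA f)}
    (hy : y ∈ dualF (WA_sys f) p m) : ∃ x : Fm n (CD n K (CC f)),
      (∀ I : Finset (Fin n), x I ∈ asG f (m - I.card) ∧ ((I.card : ℤ) < p → x I = 0)) ∧
      starM f x = y := by
  obtain ⟨h1, h2, h3⟩ := hy
  have hc : ∀ I : Finset (Fin n), ∃ z : CD n K (CC f), ∀ c : CC f,
      z.fn c = ssg Iᶜ • y Iᶜ ⟨c, c.2⟩ := by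
    intro I
    refine ⟨(⟨ssg Iᶜ • (y Iᶜ).comp ((Submodule.inclusion
      (fun _ hc => hc : WA f ∅ ≤ WA f Iᶜ)).restrictScalars K), ?_⟩ : ↥(cdK n K (CC f))),
      fun c => rfl⟩
    intro c _
    obtain ⟨N, hN⟩ := h1 Iᶜ ⟨c, c.2⟩
    refine ⟨N, fun a ha => ?_⟩
    show ssg Iᶜ • y Iᶜ (a • ⟨c, c.2⟩) = 0
    rw [hN a ha, smul_zero]
  choose x hx using hc
  refine ⟨x, fun I => ⟨fun c hc => ?_, fun hI => ?_⟩, ?_⟩
  · have h0 := Du0_card I
    have h5 := Finset.card_le_univ I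
    rw [Fintype.card_fin] at h5
    rw [hx, h3 Iᶜ ⟨c, c.2⟩ (fun S hS => hc S (by omega)), smul_zero]
  · have h0 := Du0_card I
    have h5 := Finset.card_le_univ I
    rw [Fintype.card_fin] at h5
    refine CD.ext fun c => ?_
    rw [hx, h2 Iᶜ (by omega), CD.zero_fn]
    exact smul_zero _
  · funext J
    refine LinearMap.ext fun c => ?_
    rw [starM_apply, hx, compl_compl, smul_smul, Du0_sq, one_smul]

/-- Proof. `starM` is injective and maps `objF p m` onto `dualF p m` (`φ_I = ± λ_(I^c)`); `e_of_bij`, `ssiso_of_map`, `objSS_bounded`, `DSS_bounded`. -/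
theorem dss_obj (f : Fin r → MvPowerSeries (Fin n) K) :
    Nonempty (SSIso (objSS (astar f)) (DSS (WA_sys f))) := by
  have h := e_of_bij (starM_FMap f) (fun _ _ _ _ h => Du0_inj f h)
    (fun _ _ _ hy => Du0_surj f hy) 2
  exact ssiso_of_map (objSS_bounded _) (DSS_bounded _) (starM_FMap f) h.1 h.2

end B5a
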