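import Pool.Agent.H.MP_b5a980_ag.Conn0
import Pool.Agent.H.MP_b5a980_ag.MI0

set_option autoImplicit false
set_option linter.unusedSectionVars false
set_option linter.style.longLine false

/-!
Continuous functionals: definitions (MP_b5a980_ag, part D).
-/

namespace B5a

universe u v w

open MvPowerSeries

variable {n : ℕ} {K : Type u} [Field K] {M : Type v} [AddCommGroup M]
  [Module (MvPowerSeries (Fin n) K) M] [Module K M] [IsScalarTower K (MvPowerSeries (Fin n) K) M]

/-- A functional is continuous on a submodule `W` if it vanishes on `m^N x` for every `x` in `W` and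
some `N` (depending on `x`). -/
def ContOn (W : Submodule (MvPowerSeries (Fin n) K) M) (lam : Module.Dual K M) : Prop :=
  ∀ m ∈ W, ∃ N : ℕ, ∀ r ∈ mI n K N, lam (r • m) = 0

/-- The transposed operator `λ ↦ λ ∘ ∂_i` on all linear functionals. -/
noncomputable def tnab (C : Conn n K M) (i : Fin n) : Module.Dual K M →ₗ[K] Module.Dual K M :=
  Module.Dual.transpose (C.nab i)

end B5a
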