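import Pool.Agent.H.MP_b5a980_ag.Ce0

set_option autoImplicit false
set_option linter.unusedSectionVars false
set_option linter.style.longLine false

/-!
The filtration `V^j` of the Cech - de Rham complex: definitions (MP_b5a980_ag).
-/

namespace B5a

universe u v w

open MvPowerSeries

variable {n r : ℕ} {K : Type u} [Field K]

/-- `V^j` of the Cech - de Rham complex: the component at `(I, S)` lies in `V (f_S) (j - |I|)`. -/
noncomputable def VT (V : MvPowerSeries (Fin n) K → ℤ → Submodule (MvPowerSeries (Fin n) K) (FF n K))
    (f : Fin r → MvPowerSeries (Fin n) K) (j : ℤ) : Submodule K (Fm n (Fm r (FF n K))) where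
  carrier := {φ | ∀ (I : Finset (Fin n)) (S : Finset (Fin r)), φ I S ∈ V (fS f S) (j - I.card)}
  add_mem' := by
    intro x y hx hy I S
    exact Submodule.add_mem _ (hx I S) (hy I S)
  zero_mem' := by
    intro I S
    exact Submodule.zero_mem _
  smul_mem' := by
    intro c x hx I S
    have h1 : (c • x) I S = (C c : MvPowerSeries (Fin n) K) • x I S := by
      rw [Pi.smul_apply, Pi.smul_apply, Algebra.smul_def, Algebra.smul_def]
      rfl
    rw [h1]
    exact Submodule.smul_mem _ _ (hx I S)

/-- the part of degree `p` -/
def cmp {M : Type v} [Zero M] (p : ℤ) (φ : Fm n M) : Fm n M :=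
  fun I => if (I.card : ℤ) = p then φ I else 0

end B5a
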