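import Pool.Agent.H.MP_b5a980_ag.CeB
import Pool.Agent.H.MP_b5a980_ag.Es0

set_option autoImplicit false
set_option linter.unusedSectionVars false
set_option linter.style.longLine false

/-!
The filtration `V^j` of the Cech - de Rham complex (MP_b5a980_ag).
-/

namespace B5a

universe u v w

open MvPowerSeries

variable {n r : ℕ} {K : Type u} [Field K] {lam : K →+ ℚ}
  {V : MvPowerSeries (Fin n) K → ℤ → Submodule (MvPowerSeries (Fin n) K) (FF n K)}
  {f : Fin r → MvPowerSeries (Fin n) K}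

/-- `totF` in terms of the Cech cochains `φ I`. -/
theorem mem_totF_iff (p m : ℤ) (φ : Fm n (Fm r (FF n K))) :
    φ ∈ totF f p m ↔ (∀ I, φ I ∈ Lq f (m - I.card)) ∧ ∀ I, (I.card : ℤ) < p → φ I = 0 := by
  constructor
  · intro h
    refine ⟨fun I S => ⟨(h I S).1, fun hS => (h I S).2 (Or.inl ?_)⟩, fun I hI => ?_⟩
    · intro h1
      apply hS
      omega
    · funext S
      exact (h I S).2 (Or.inr hI)
  · rintro ⟨h1, h2⟩ I S
    refine ⟨(h1 I S).1, fun h3 => ?_⟩
    rcases h3 with h3 | h3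
    · refine (h1 I S).2 ?_
      intro h4
      apply h3
      omega
    · rw [h2 I h3]
      rfl

section aux

variable {M : Type v} [AddCommGroup M]

theorem EsA_cmp_isFm (p : ℤ) (φ : Fm n M) : IsFm p (cmp p φ) := fun I hI => by
  unfold cmp
  rw [if_neg hI]

theorem EsA_cmp_add (p : ℤ) (φ ψ : Fm n M) : cmp p (φ + ψ) = cmp p φ + cmp p ψ := by
  funext I
  simp only [cmp, Pi.add_apply]
  split_ifs
  · rfl
  · exact (add_zero _).symm

end aux

theorem EsA_sdel_cmp (p : ℤ) (φ : Fm n (Fm r (FF n K))) :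
    sdel n r K (cmp p φ) = cmp p (sdel n r K φ) := by
  funext I
  change ((-1 : ℤ) ^ I.card) • cech n r K (cmp p φ I) = cmp p (sdel n r K φ) I
  unfold cmp
  split_ifs with hI
  · rfl
  · rw [map_zero]
    exact CeA_z0' _

theorem EsA_dR_cmp (p : ℤ) (φ : Fm n (Fm r (FF n K))) :
    dR (cconn n r K) (cmp p φ) = cmp (p + 1) (dR (cconn n r K) φ) := by
  funext I
  by_cases hI : (I.card : ℤ) = p + 1
  · have e1 : cmp (p + 1) (dR (cconn n r K) φ) I = dR (cconn n r K) φ I := by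
      unfold cmp
      rw [if_pos hI]
    rw [e1]
    change ∑ i ∈ I, sg i I • (cconn n r K).nab i (cmp p φ (I.erase i)) =
      ∑ i ∈ I, sg i I • (cconn n r K).nab i (φ (I.erase i))
    refine Finset.sum_congr rfl fun i hi => ?_
    have h1 := Finset.card_erase_of_mem hi
    have h2 := Finset.card_pos.2 ⟨i, hi⟩
    have e2 : cmp p φ (I.erase i) = φ (I.erase i) := by
      unfold cmp
      rw [if_pos (by omega)]
    rw [e2]
  · rw [EsA_cmp_isFm (p + 1) _ I hI]
    exact ext_isFm _ (EsA_cmp_isFm p φ) I hI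

theorem EsA_cmp_dTot (p : ℤ) (φ : Fm n (Fm r (FF n K))) :
    cmp (p + 1) (dTot n r K φ) =
      dR (cconn n r K) (cmp p φ) + sdel n r K (cmp (p + 1) φ) := by
  have h : dTot n r K φ = dR (cconn n r K) φ + sdel n r K φ := rfl
  rw [h, EsA_cmp_add, EsA_dR_cmp, EsA_sdel_cmp]

theorem EsA_cmp_dTot' {p m : ℤ} {φ : Fm n (Fm r (FF n K))} (h : φ ∈ totF f p m) :
    cmp p (dTot n r K φ) = sdel n r K (cmp p φ) := by
  have h1 := EsA_cmp_dTot (p - 1) φ
  rw [sub_add_cancel] at h1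
  have h2 : cmp (p - 1) φ = 0 := by
    funext I
    unfold cmp
    split_ifs with hI
    · exact ((mem_totF_iff p m φ).1 h).2 I (by omega)
    · rfl
  rw [h1, h2, map_zero, zero_add]

theorem EsA_cmp_eq_zero {p : ℤ} {φ : Fm n (Fm r (FF n K))} :
    cmp p φ = 0 ↔ ∀ I, (I.card : ℤ) = p → φ I = 0 := by
  constructor
  · intro h I hI
    have h1 := congrFun h I
    unfold cmp at h1
    rw [if_pos hI] at h1
    exact h1
  · intro h
    funext I
    unfold cmp
    split_ifs with hI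
    · exact h I hI
    · rfl

theorem EsA_key (φ : Fm n (Fm r (FF n K))) (I : Finset (Fin n)) (S : Finset (Fin r)) :
    dTot n r K φ I S = ∑ i ∈ I, sg i I • dF n K i (φ (I.erase i) S) +
      ((-1 : ℤ) ^ I.card) • ∑ s ∈ S, sg s S • φ I (S.erase s) := by
  have h1 : (∑ i ∈ I, sg i I • (cconn n r K).nab i (φ (I.erase i))) S =
      ∑ i ∈ I, sg i I • dF n K i (φ (I.erase i) S) := by
    rw [Finset.sum_apply]
    rfl
  rw [← h1]
  rfl

/-- Proof. Degree `p`: only `sdel (cmp p φ)`; degree `p+1`: `dR (cmp p φ) + sdel (cmp (p+1) φ)`; `dTot φ` already lies in `totF f p (m+1)` (`dTot_mem`), so it lies in `totF f (p+2) (m+1)` iff these two parts vanish (`mem_totF_iff`). -/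
theorem mem_Z2_iff {p m : ℤ} {φ : Fm n (Fm r (FF n K))} (h : φ ∈ totF f p m) :
    φ ∈ (homSS f).Z 2 p m ↔ sdel n r K (cmp p φ) = 0 ∧
      dR (cconn n r K) (cmp p φ) + sdel n r K (cmp (p + 1) φ) = 0 := by
  rw [← EsA_cmp_dTot' h, ← EsA_cmp_dTot, EsA_cmp_eq_zero, EsA_cmp_eq_zero]
  have h1 : dTot n r K φ ∈ totF f p (m + 1) := dTot_mem f p m h
  have h2 : φ ∈ (homSS f).Z 2 p m ↔ φ ∈ totF f p m ∧ dTot n r K φ ∈ totF f (p + 2) (m + 1) :=
    Iff.rfl
  rw [h2, mem_totF_iff (p + 2)]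
  rw [mem_totF_iff] at h1
  constructor
  · rintro ⟨-, -, h3⟩
    exact ⟨fun I hI => h3 I (by omega), fun I hI => h3 I (by omega)⟩
  · rintro ⟨h3, h4⟩
    refine ⟨h, h1.1, fun I hI => ?_⟩
    rcases lt_or_ge (I.card : ℤ) p with h5 | h5
    · exact h1.2 I h5
    · rcases eq_or_lt_of_le h5 with h6 | h6
      · exact h3 I h6.symm
      · exact h4 I (by omega)

theorem mem_Z1_iff {p m : ℤ} {φ : Fm n (Fm r (FF n K))} (h : φ ∈ totF f p m) :
    φ ∈ (homSS f).Z 1 p m ↔ sdel n r K (cmp p φ) = 0 := by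
  rw [← EsA_cmp_dTot' h, EsA_cmp_eq_zero]
  have h1 : dTot n r K φ ∈ totF f p (m + 1) := dTot_mem f p m h
  have h2 : φ ∈ (homSS f).Z 1 p m ↔ φ ∈ totF f p m ∧ dTot n r K φ ∈ totF f (p + 1) (m + 1) :=
    Iff.rfl
  rw [h2, mem_totF_iff (p + 1)]
  rw [mem_totF_iff] at h1
  constructor
  · rintro ⟨-, -, h3⟩
    exact fun I hI => h3 I (by omega)
  · intro h3
    refine ⟨h, h1.1, fun I hI => ?_⟩
    rcases lt_or_ge (I.card : ℤ) p with h5 | h5
    · exact h1.2 I h5
    · exact h3 I (by omega)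

theorem VT_anti (hV : VFam lam V) (hf : ∀ s, f s ≠ 0) {j j' : ℤ} (h : j ≤ j') :
    VT V f j' ≤ VT V f j := by
  intro φ hφ I S
  exact CeB_mono hV (fS_ne_zero hf S) (sub_le_sub_right h _) (hφ I S)

/-- Proof. `dR`: `nab` lowers the step by one and `|I|` grows by one. `sdel`: `V (fS f (S∖s)) i ≤ V (fS f S) i` by `vpack_map`. -/
theorem dTot_mem_VT (hV : VFam lam V) (hf : ∀ s, f s ≠ 0) {j : ℤ} {φ : Fm n (Fm r (FF n K))}
    (h : φ ∈ VT V f j) : dTot n r K φ ∈ VT V f j := by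
  intro I S
  rw [EsA_key]
  refine Submodule.add_mem _ (Submodule.sum_mem _ fun i hi => zsmul_mem ?_ _)
    (zsmul_mem (Submodule.sum_mem _ fun s _ => zsmul_mem ?_ _) _)
  · have h1 := (hV _ (fS_ne_zero hf S)).1.compat.nab_mem _ i _ (h (I.erase i) S)
    have h2 := Finset.card_erase_of_mem hi
    have h3 := Finset.card_pos.2 ⟨i, hi⟩
    have h4 : j - ((I.erase i).card : ℤ) - 1 = j - (I.card : ℤ) := by omega
    rw [h4] at h1
    exact h1
  · refine vpack_map (hV _ (fS_ne_zero hf (S.erase s))).1 (hV _ (fS_ne_zero hf S)).1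
      (LinearMap.id : FF n K →ₗ[MvPowerSeries (Fin n) K] FF n K) (fun _ _ => rfl)
      (fun m hm => hm) (fun k m hm => ?_) _ _ (h I (S.erase s))
    refine ((hV _ (fS_ne_zero hf S)).2 _).2 ?_
    exact loc_mono f (Finset.erase_subset s S)
      (((hV _ (fS_ne_zero hf (S.erase s))).2 _).1 ⟨k, hm⟩)

theorem apply_mem_VC {j p m : ℤ} {φ : Fm n (Fm r (FF n K))} (h : φ ∈ totF f p m)
    (hj : φ ∈ VT V f j) (I : Finset (Fin n)) : φ I ∈ VC V f (m - I.card) (j - I.card) := by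
  intro S
  refine ⟨hj I S, fun hS => (h I S).2 (Or.inl ?_)⟩
  intro h1
  apply hS
  omega

/-- Lifting forms with values in the image of the Cech differential.

Proof. `cech_strict`-like statement for all coefficients; here just the choice: for every `I` with `|I| = p`, `x I ∈ VC V f (q+1) i` and `x I = cech (y I)` with `y I ∈ Lq f q`; the sign `(-1)^p` is absorbed. -/
theorem exists_sdel_lift (hst : ∀ (φ : Fm r (FF n K)) (q i : ℤ), φ ∈ Lq f q →
      cech n r K φ ∈ VC V f (q + 1) i → ∃ φ' ∈ VC V f q i, cech n r K φ' = cech n r K φ)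
    (p q i : ℤ) (y : Fm n (Fm r (FF n K))) (hy : IsFm p y) (hy1 : ∀ I, y I ∈ Lq f q)
    (hy2 : ∀ I, sdel n r K y I ∈ VC V f (q + 1) i) :
    ∃ y' : Fm n (Fm r (FF n K)), IsFm p y' ∧ (∀ I, y' I ∈ VC V f q i) ∧
      sdel n r K y' = sdel n r K y := by
  have h1 : ∀ I, cech n r K (y I) ∈ VC V f (q + 1) i := by
    intro I
    have h2 : ((-1 : ℤ) ^ I.card) • cech n r K (y I) ∈ VC V f (q + 1) i := hy2 I
    rcases neg_one_pow_eq_or ℤ I.card with h3 | h3
    · rw [h3, one_smul] at h2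
      exact h2
    · rw [h3, neg_smul, one_smul] at h2
      exact (Submodule.neg_mem_iff _).1 h2
  choose y' hy1' hy2' using fun I => hst (y I) q i (hy1 I) (h1 I)
  refine ⟨cmp p y', EsA_cmp_isFm p y', fun I => ?_, ?_⟩
  · unfold cmp
    split_ifs
    · exact hy1' I
    · exact Submodule.zero_mem _
  · funext I
    change ((-1 : ℤ) ^ I.card) • cech n r K (cmp p y' I) =
      ((-1 : ℤ) ^ I.card) • cech n r K (y I)
    congr 1
    by_cases hI : (I.card : ℤ) = p
    · have e1 : cmp p y' I = y' I := by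
        unfold cmp
        rw [if_pos hI]
      rw [e1]
      exact hy2' I
    · rw [hy I hI, EsA_cmp_isFm p y' I hI]

end B5a
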