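import Pool.Agent.H.MP_b5a980_ag.EsC

set_option autoImplicit false
set_option linter.unusedSectionVars false
set_option linter.style.longLine false

/-!
The second page: from the whole complex to `V^0` (MP_b5a980_ag).
-/

namespace B5a

universe u v w

open MvPowerSeries

variable {n r : ℕ} {K : Type u} [Field K] {lam : K →+ ℚ}
  {V : MvPowerSeries (Fin n) K → ℤ → Submodule (MvPowerSeries (Fin n) K) (FF n K)}
  {f : Fin r → MvPowerSeries (Fin n) K}

theorem EsB_map_VH {q : ℤ} {φ : Fm n (Fm r (FF n K))} (h : ∀ I, φ I ∈ Lq f (q - 1)) (i : ℤ)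
    (I : Finset (Fin n)) : sdel n r K φ I ∈ VH V f q i := by
  unfold VH
  exact Submodule.mem_sup_right (EsC_sdel_map h I)

theorem EsB_ker_VH {q i : ℤ} {φ : Fm r (FF n K)} (h : φ ∈ VC V f q i) (h0 : cech n r K φ = 0) :
    φ ∈ VH V f q i := by
  unfold VH
  exact Submodule.mem_sup_left ⟨h, h0⟩

/-- Surjectivity on `E_2` of `V^0 → ` all. -/
theorem e2a [CharZero K] (hlam : lam 1 = 1) (hV : VFam lam V) (hf : ∀ s, f s ≠ 0) (p m : ℤ)
    {x : Fm n (Fm r (FF n K))} (hx : x ∈ (homSS f).Z 2 p m) :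
    ∃ v ∈ VT V f 0, v ∈ (homSS f).Z 2 p m ∧ v - x ∈ (homSS f).B 2 p m := by
  have hxF : x ∈ totF f p m := hx.1
  obtain ⟨hx1, hx2⟩ := (mem_Z2_iff hxF).1 hx
  obtain ⟨v, y, z, hv, hy, hz, hvV, hvc, hyL, hyc, hzL, hvyz⟩ := prepA hlam hV hf p (m - p)
    (EsC_cmp_isFm p x) (fun I => EsC_Lq_val hxF p I) (EsC_cech_eq hx1) (by
      intro I
      rw [eq_neg_of_add_eq_zero_left hx2, Pi.neg_apply]
      exact Submodule.neg_mem _ (EsB_map_VH (fun J =>
        EsC_Lq_congr (by ring) (EsC_Lq_val hxF (p + 1) J)) _ I))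
  have hvs : sdel n r K v = 0 := EsC_sdel_eq hvc
  have hys : sdel n r K y = 0 := EsC_sdel_eq hyc
  -- the correction `w = y + z`
  have hwF : y + z ∈ totF f (p - 1) (m - 1) :=
    Submodule.add_mem _ (EsC_totF_of hy (fun I => EsC_Lq_congr (by ring) (hyL I)) le_rfl)
      (EsC_totF_of hz (fun I => EsC_Lq_congr (by ring) (hzL I)) (by omega))
  have hw1 : cmp (p - 1) (y + z) = y := by
    rw [EsC_cmp_add, EsC_cmp_of hy, EsC_cmp_ne hz (by omega), add_zero]
  have hw2 : cmp p (y + z) = z := by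
    rw [EsC_cmp_add, EsC_cmp_ne hy (by omega), EsC_cmp_of hz, zero_add]
  have hwZ : y + z ∈ (homSS f).Z 1 (p - 1) (m - 1) := by
    rw [mem_Z1_iff hwF, hw1, hys]
  have hDw : dTot n r K (y + z) ∈ totF f p m := EsC_totF_congr (by ring) (by ring) hwZ.2
  obtain ⟨x', hx'⟩ : ∃ x', x' = x - dTot n r K (y + z) := ⟨_, rfl⟩
  have hx'F : x' ∈ totF f p m := by
    rw [hx']
    exact Submodule.sub_mem _ hxF hDw
  have hx'p : cmp p x' = v := by
    rw [hx', EsC_cmp_sub, EsC_cmp_dTot', hw1, hw2, hvyz]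
    abel
  have hx'Z : x' ∈ (homSS f).Z 2 p m := by
    refine ⟨hx'F, ?_⟩
    change dTot n r K x' ∈ totF f (p + 2) (m + 1)
    rw [hx', map_sub, dTot_dTot, sub_zero]
    exact hx.2
  have hx'2 := ((mem_Z2_iff hx'F).1 hx'Z).2
  rw [hx'p] at hx'2
  -- the part of degree `p + 1`
  have e1 : sdel n r K (cmp (p + 1) x') = - dR (cconn n r K) v :=
    eq_neg_of_add_eq_zero_right hx'2
  obtain ⟨v', hv', hv'V, hv's⟩ := exists_sdel_lift (V := V) (f := f)
    (fun φ q i h hi => cech_strict hV hf q i h hi) (p + 1) (m - p - 1) (-p - 1) (cmp (p + 1) x')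
    (EsC_cmp_isFm _ x') (fun I => EsC_Lq_congr (by ring) (EsC_Lq_val hx'F (p + 1) I)) (fun I => by
      rw [e1, Pi.neg_apply]
      exact Submodule.neg_mem _ (EsC_VC_congr (by ring) rfl (EsC_dR_VC hV hf hv hvV I)))
  have hT : v + v' ∈ VT V f 0 :=
    Submodule.add_mem _ (EsC_VT_of (q := m - p) hv fun I => EsC_VC_congr rfl (by ring) (hvV I))
      (EsC_VT_of (q := m - p - 1) hv' fun I => EsC_VC_congr rfl (by ring) (hv'V I))
  have hF : v + v' ∈ totF f p m :=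
    Submodule.add_mem _ (EsC_totF_of hv (fun I => EsC_VC_le_Lq hV hf (hvV I)) le_rfl)
      (EsC_totF_of hv' (fun I => EsC_Lq_congr (by ring) (EsC_VC_le_Lq hV hf (hv'V I)))
        (by omega))
  have hc1 : cmp p (v + v') = v := by
    rw [EsC_cmp_add, EsC_cmp_of hv, EsC_cmp_ne hv' (by omega), add_zero]
  have hc2 : cmp (p + 1) (v + v') = v' := by
    rw [EsC_cmp_add, EsC_cmp_ne hv (by omega), EsC_cmp_of hv', zero_add]
  have hZ : v + v' ∈ (homSS f).Z 2 p m := by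
    rw [mem_Z2_iff hF, hc1, hc2, hv's]
    exact ⟨hvs, hx'2⟩
  have hZ1 : v + v' - x' ∈ (homSS f).Z 1 (p + 1) m := by
    have h1 : v + v' - x' ∈ totF f (p + 1) m := by
      refine EsC_totF_of_cmp (Submodule.sub_mem _ hF hx'F) ?_
      rw [EsC_cmp_sub, hc1, hx'p, sub_self]
    rw [mem_Z1_iff h1, EsC_cmp_sub, hc2, map_sub, hv's, sub_self]
  refine ⟨v + v', hT, hZ, ?_⟩
  have e2 : v + v' - x = (v + v' - x') + dTot n r K (-(y + z)) := by
    rw [hx', map_neg]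
    abel
  rw [e2]
  refine Submodule.add_mem_sup ?_ ⟨-(y + z), ?_, rfl⟩
  · have h1 : (2 : ℤ) - 1 = 1 := by norm_num
    rw [h1]
    exact hZ1
  · have h1 : (2 : ℤ) - 1 = 1 := by norm_num
    have h2 : p - 2 + 1 = p - 1 := by ring
    rw [h1, h2]
    exact Submodule.neg_mem _ hwZ

/-- Injectivity on `E_2` of `V^0 → ` all. -/
theorem e2b [CharZero K] (hlam : lam 1 = 1) (hV : VFam lam V) (hf : ∀ s, f s ≠ 0) (p m : ℤ)
    {x : Fm n (Fm r (FF n K))} (hx0 : x ∈ VT V f 0) (hx : x ∈ (homSS f).Z 2 p m)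
    (hB : x ∈ (homSS f).B 2 p m) :
    ∃ a b : Fm n (Fm r (FF n K)), a ∈ VT V f 0 ∧ a ∈ (homSS f).Z 1 (p + 1) m ∧ b ∈ VT V f 0 ∧
      b ∈ (homSS f).Z 1 (p - 1) (m - 1) ∧ x = a + dTot n r K b := by
  have hxF : x ∈ totF f p m := hx.1
  obtain ⟨hx1, hx2⟩ := (mem_Z2_iff hxF).1 hx
  have h21 : (2 : ℤ) - 1 = 1 := by norm_num
  have hp2 : p - 2 + 1 = p - 1 := by ring
  obtain ⟨a0, ha0, d0, ⟨w, hw, rfl⟩, hxe⟩ := Submodule.mem_sup.1 hB
  rw [h21] at ha0
  rw [h21, hp2] at hw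
  have hxe' : a0 + dTot n r K w = x := hxe
  have ha0F : a0 ∈ totF f (p + 1) m := ha0.1
  have hwF : w ∈ totF f (p - 1) (m - 1) := hw.1
  have hws : sdel n r K (cmp (p - 1) w) = 0 := (mem_Z1_iff hwF).1 hw
  have e1 : cmp p x = dR (cconn n r K) (cmp (p - 1) w) + sdel n r K (cmp p w) := by
    rw [← hxe', EsC_cmp_add, EsC_cmp_totF ha0F (by omega), zero_add, EsC_cmp_dTot']
  have e2 : dR (cconn n r K) (cmp (p - 1) w) = cmp p x - sdel n r K (cmp p w) := by
    rw [e1]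
    abel
  have hd : VF (VH V f (m - p)) 0 (dR (cconn n r K) (cmp (p - 1) w)) := by
    intro I
    rw [e2, Pi.sub_apply]
    refine Submodule.sub_mem _ ?_ (EsB_map_VH (fun J =>
      EsC_Lq_congr (by ring) (EsC_Lq_val hwF p J)) _ I)
    by_cases hI : (I.card : ℤ) = p
    · refine EsB_ker_VH ?_ (EsC_cech_eq hx1 I)
      rw [hI]
      exact EsC_VC_val hxF hx0 p I
    · rw [EsC_cmp_isFm p x I hI]
      exact Submodule.zero_mem _
  obtain ⟨v, y, z, hv, hy, hz, hvV, hvc, hyL, hyc, hzL, hvyz⟩ := prepA hlam hV hf (p - 1) (m - p)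
    (EsC_cmp_isFm (p - 1) w) (fun I => EsC_Lq_congr (by ring) (EsC_Lq_val hwF (p - 1) I))
    (EsC_cech_eq hws) hd
  have hvs : sdel n r K v = 0 := EsC_sdel_eq hvc
  have hdz : IsFm p (dR (cconn n r K) z) := by
    have h1 := EsC_dR_isFm hz
    rw [sub_add_cancel] at h1
    exact h1
  have e3 : sdel n r K (cmp p w - dR (cconn n r K) z) = cmp p x - dR (cconn n r K) v := by
    have h1 : dR (cconn n r K) (cmp (p - 1) w) =
        dR (cconn n r K) v - sdel n r K (dR (cconn n r K) z) := by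
      rw [hvyz, map_add, map_add, dR_dR, dR_sdel, add_zero]
      abel
    rw [e1, h1, map_sub]
    abel
  obtain ⟨v', hv', hv'V, hv's⟩ := exists_sdel_lift (V := V) (f := f)
    (fun φ q i h hi => cech_strict hV hf q i h hi) p (m - p - 1) (-p)
    (cmp p w - dR (cconn n r K) z) (EsC_isFm_sub (EsC_cmp_isFm p w) hdz)
    (fun I => Submodule.sub_mem _ (EsC_Lq_congr (by ring) (EsC_Lq_val hwF p I))
      (EsC_dR_Lq hzL I)) (fun I => by
      rw [e3, Pi.sub_apply]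
      exact Submodule.sub_mem _ (EsC_VC_congr (by ring) (by ring) (EsC_VC_val hxF hx0 p I))
        (EsC_VC_congr (by ring) (by ring) (EsC_dR_VC hV hf hv hvV I)))
  rw [e3] at hv's
  have hT : v + v' ∈ VT V f 0 :=
    Submodule.add_mem _ (EsC_VT_of (q := m - p) hv fun I => EsC_VC_congr rfl (by ring) (hvV I))
      (EsC_VT_of (q := m - p - 1) hv' fun I => EsC_VC_congr rfl (by ring) (hv'V I))
  have hF : v + v' ∈ totF f (p - 1) (m - 1) :=
    Submodule.add_mem _ (EsC_totF_of hv (fun I => EsC_Lq_congr (by ring)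
      (EsC_VC_le_Lq hV hf (hvV I))) le_rfl)
      (EsC_totF_of hv' (fun I => EsC_Lq_congr (by ring) (EsC_VC_le_Lq hV hf (hv'V I)))
        (by omega))
  have hc1 : cmp (p - 1) (v + v') = v := by
    rw [EsC_cmp_add, EsC_cmp_of hv, EsC_cmp_ne hv' (by omega), add_zero]
  have hc2 : cmp p (v + v') = v' := by
    rw [EsC_cmp_add, EsC_cmp_ne hv (by omega), EsC_cmp_of hv', zero_add]
  have hZ : v + v' ∈ (homSS f).Z 1 (p - 1) (m - 1) := by
    rw [mem_Z1_iff hF, hc1, hvs]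
  have hDb : dTot n r K (v + v') ∈ totF f p m := EsC_totF_congr (by ring) (by ring) hZ.2
  have ha' : x - dTot n r K (v + v') ∈ totF f (p + 1) m := by
    refine EsC_totF_of_cmp (Submodule.sub_mem _ hxF hDb) ?_
    rw [EsC_cmp_sub, EsC_cmp_dTot', hc1, hc2, hv's]
    abel
  refine ⟨x - dTot n r K (v + v'), v + v', Submodule.sub_mem _ hx0 (dTot_mem_VT hV hf hT),
    ⟨ha', ?_⟩, hT, hZ, (sub_add_cancel _ _).symm⟩
  change dTot n r K (x - dTot n r K (v + v')) ∈ totF f (p + 1 + 1) (m + 1)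
  rw [map_sub, dTot_dTot, sub_zero]
  exact EsC_totF_congr (by ring) rfl hx.2

end B5a
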