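import Pool.Agent.H.MP_b5a980_ag.CeD
import Pool.Agent.H.MP_b5a980_ag.EsA

set_option autoImplicit false
set_option linter.unusedSectionVars false
set_option linter.style.longLine false

/-!
The second page: from `V^0` to `V^0 / V^1` (MP_b5a980_ag).
-/

namespace B5a

universe u v w

open MvPowerSeries

variable {n r : ℕ} {K : Type u} [Field K] {lam : K →+ ℚ}
  {V : MvPowerSeries (Fin n) K → ℤ → Submodule (MvPowerSeries (Fin n) K) (FF n K)}
  {f : Fin r → MvPowerSeries (Fin n) K}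

section aux

variable {M : Type v} [AddCommGroup M]

theorem EsC_cmp_isFm (p : ℤ) (φ : Fm n M) : IsFm p (cmp p φ) := fun I hI => by
  unfold cmp
  rw [if_neg hI]

theorem EsC_cmp_of {p : ℤ} {φ : Fm n M} (h : IsFm p φ) : cmp p φ = φ := by
  funext I
  unfold cmp
  split_ifs with hI
  · rfl
  · exact (h I hI).symm

theorem EsC_cmp_ne {p q : ℤ} {φ : Fm n M} (h : IsFm q φ) (hne : p ≠ q) : cmp p φ = 0 := by
  funext I
  unfold cmp
  split_ifs with hI
  · exact h I (hI ▸ hne)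
  · rfl

theorem EsC_cmp_add (p : ℤ) (φ ψ : Fm n M) : cmp p (φ + ψ) = cmp p φ + cmp p ψ := by
  funext I
  simp only [cmp, Pi.add_apply]
  split_ifs
  · rfl
  · exact (add_zero _).symm

theorem EsC_cmp_sub (p : ℤ) (φ ψ : Fm n M) : cmp p (φ - ψ) = cmp p φ - cmp p ψ := by
  funext I
  simp only [cmp, Pi.sub_apply]
  split_ifs
  · rfl
  · exact (sub_zero _).symm

theorem EsC_isFm_add {p : ℤ} {φ ψ : Fm n M} (h : IsFm p φ) (h' : IsFm p ψ) : IsFm p (φ + ψ) := by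
  intro I hI
  rw [Pi.add_apply, h I hI, h' I hI, add_zero]

theorem EsC_isFm_sub {p : ℤ} {φ ψ : Fm n M} (h : IsFm p φ) (h' : IsFm p ψ) : IsFm p (φ - ψ) := by
  intro I hI
  rw [Pi.sub_apply, h I hI, h' I hI, sub_zero]

end aux

theorem EsC_sdel_cmp (p : ℤ) (φ : Fm n (Fm r (FF n K))) :
    sdel n r K (cmp p φ) = cmp p (sdel n r K φ) := by
  funext I
  change ((-1 : ℤ) ^ I.card) • cech n r K (cmp p φ I) = cmp p (sdel n r K φ) I
  unfold cmp
  split_ifs with hI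
  · rfl
  · rw [map_zero]
    exact CeA_z0' _

theorem EsC_sdel_isFm {p : ℤ} {φ : Fm n (Fm r (FF n K))} (h : IsFm p φ) :
    IsFm p (sdel n r K φ) := by
  rw [← EsC_cmp_of h, EsC_sdel_cmp]
  exact EsC_cmp_isFm _ _

theorem EsC_dR_isFm {p : ℤ} {φ : Fm n (Fm r (FF n K))} (h : IsFm p φ) :
    IsFm (p + 1) (dR (cconn n r K) φ) := ext_isFm _ h

theorem EsC_dR_cmp (p : ℤ) (φ : Fm n (Fm r (FF n K))) :
    dR (cconn n r K) (cmp p φ) = cmp (p + 1) (dR (cconn n r K) φ) := by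
  funext I
  by_cases hI : (I.card : ℤ) = p + 1
  · have e1 : cmp (p + 1) (dR (cconn n r K) φ) I = dR (cconn n r K) φ I := by
      unfold cmp
      rw [if_pos hI]
    rw [e1]
    change ∑ i ∈ I, sg i I • (cconn n r K).nab i (cmp p φ (I.erase i)) =
      ∑ i ∈ I, sg i I • (cconn n r K).nab i (φ (I.erase i))
    refine Finset.sum_congr rfl fun i hi => ?_
    have h1 := Finset.card_erase_of_mem hi
    have h2 := Finset.card_pos.2 ⟨i, hi⟩
    have e2 : cmp p φ (I.erase i) = φ (I.erase i) := by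
      unfold cmp
      rw [if_pos (by omega)]
    rw [e2]
  · rw [EsC_dR_isFm (EsC_cmp_isFm p φ) I hI, EsC_cmp_isFm (p + 1) _ I hI]

theorem EsC_dTot (φ : Fm n (Fm r (FF n K))) :
    dTot n r K φ = dR (cconn n r K) φ + sdel n r K φ := rfl

theorem EsC_cmp_dTot (p : ℤ) (φ : Fm n (Fm r (FF n K))) :
    cmp (p + 1) (dTot n r K φ) =
      dR (cconn n r K) (cmp p φ) + sdel n r K (cmp (p + 1) φ) := by
  rw [EsC_dTot, EsC_cmp_add, EsC_dR_cmp, EsC_sdel_cmp]

theorem EsC_cmp_dTot' (p : ℤ) (φ : Fm n (Fm r (FF n K))) :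
    cmp p (dTot n r K φ) =
      dR (cconn n r K) (cmp (p - 1) φ) + sdel n r K (cmp p φ) := by
  have h := EsC_cmp_dTot (p - 1) φ
  rw [sub_add_cancel] at h
  exact h

theorem EsC_cmp_totF {p m k : ℤ} {φ : Fm n (Fm r (FF n K))} (h : φ ∈ totF f p m) (hk : k < p) :
    cmp k φ = 0 := by
  funext I
  unfold cmp
  split_ifs with hI
  · exact ((mem_totF_iff p m φ).1 h).2 I (by omega)
  · rfl

theorem EsC_cech_eq {φ : Fm n (Fm r (FF n K))} (h : sdel n r K φ = 0) (I : Finset (Fin n)) :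
    cech n r K (φ I) = 0 := by
  have h1 : ((-1 : ℤ) ^ I.card) • cech n r K (φ I) = 0 := congrFun h I
  rcases neg_one_pow_eq_or ℤ I.card with h2 | h2
  · rw [h2, one_smul] at h1
    exact h1
  · rw [h2, neg_smul, one_smul, neg_eq_zero] at h1
    exact h1

theorem EsC_sdel_eq {φ : Fm n (Fm r (FF n K))} (h : ∀ I, cech n r K (φ I) = 0) :
    sdel n r K φ = 0 := by
  funext I
  change ((-1 : ℤ) ^ I.card) • cech n r K (φ I) = 0
  rw [h I]
  exact CeA_z0' _

theorem EsC_sdel_map {L : Submodule (MvPowerSeries (Fin n) K) (Fm r (FF n K))}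
    {φ : Fm n (Fm r (FF n K))} (h : ∀ I, φ I ∈ L) (I : Finset (Fin n)) :
    sdel n r K φ I ∈ L.map (cech n r K) :=
  zsmul_mem (Submodule.mem_map_of_mem (h I)) _

theorem EsC_Lq_val {p m : ℤ} {φ : Fm n (Fm r (FF n K))} (h : φ ∈ totF f p m) (k : ℤ)
    (I : Finset (Fin n)) : cmp k φ I ∈ Lq f (m - k) := by
  unfold cmp
  split_ifs with hI
  · rw [← hI]
    exact ((mem_totF_iff p m φ).1 h).1 I
  · exact Submodule.zero_mem _

theorem EsC_VC_val {j p m : ℤ} {φ : Fm n (Fm r (FF n K))} (h : φ ∈ totF f p m)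
    (hj : φ ∈ VT V f j) (k : ℤ) (I : Finset (Fin n)) : cmp k φ I ∈ VC V f (m - k) (j - k) := by
  unfold cmp
  split_ifs with hI
  · rw [← hI]
    exact apply_mem_VC h hj I
  · exact Submodule.zero_mem _

theorem EsC_totF_of {p m k : ℤ} {u : Fm n (Fm r (FF n K))} (hu : IsFm k u)
    (h : ∀ I, u I ∈ Lq f (m - k)) (hk : p ≤ k) : u ∈ totF f p m := by
  rw [mem_totF_iff]
  refine ⟨fun I => ?_, fun I hI => hu I (by omega)⟩
  by_cases hI : (I.card : ℤ) = k
  · rw [hI]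
    exact h I
  · rw [hu I hI]
    exact Submodule.zero_mem _

theorem EsC_VT_of {q j k : ℤ} {u : Fm n (Fm r (FF n K))} (hu : IsFm k u)
    (h : ∀ I, u I ∈ VC V f q (j - k)) : u ∈ VT V f j := by
  intro I S
  by_cases hI : (I.card : ℤ) = k
  · rw [hI]
    exact (h I S).1
  · rw [hu I hI]
    exact Submodule.zero_mem _

theorem EsC_VC_le_Lq (hV : VFam lam V) (hf : ∀ s, f s ≠ 0) {q i : ℤ} {φ : Fm r (FF n K)}
    (h : φ ∈ VC V f q i) : φ ∈ Lq f q := (mem_Lq_iff hV hf q φ).1 ⟨i, h⟩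

theorem EsC_VC_congr {q q' i i' : ℤ} (hq : q = q') (hi : i = i') {φ : Fm r (FF n K)}
    (h : φ ∈ VC V f q i) : φ ∈ VC V f q' i' := by
  subst hq
  subst hi
  exact h

theorem EsC_Lq_congr {q q' : ℤ} (hq : q = q') {φ : Fm r (FF n K)}
    (h : φ ∈ Lq f q) : φ ∈ Lq f q' := by
  subst hq
  exact h

theorem EsC_dR_VC (hV : VFam lam V) (hf : ∀ s, f s ≠ 0) {q i k : ℤ}
    {u : Fm n (Fm r (FF n K))} (hu : IsFm k u) (h : ∀ I, u I ∈ VC V f q i) (I : Finset (Fin n)) :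
    dR (cconn n r K) u I ∈ VC V f q (i - 1) := by
  by_cases hI : (I.card : ℤ) = k + 1
  · have h1 : VF (VC V f q) (i + k) u := by
      intro J
      by_cases hJ : (J.card : ℤ) = k
      · rw [hJ, add_sub_cancel_right]
        exact h J
      · rw [hu J hJ]
        exact Submodule.zero_mem _
    have h2 := dR_VF (vpack_VC hV hf q).compat h1 I
    exact EsC_VC_congr rfl (by rw [hI]; ring) h2
  · rw [EsC_dR_isFm hu I hI]
    exact Submodule.zero_mem _

theorem EsC_dR_Lq {q : ℤ} {u : Fm n (Fm r (FF n K))} (h : ∀ I, u I ∈ Lq f q)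
    (I : Finset (Fin n)) : dR (cconn n r K) u I ∈ Lq f q := by
  change ∑ i ∈ I, sg i I • (cconn n r K).nab i (u (I.erase i)) ∈ Lq f q
  refine Submodule.sum_mem _ fun i _ => zsmul_mem ?_ _
  intro S
  refine ⟨dF_mem_loc' _ i (h (I.erase i) S).1, fun hS => ?_⟩
  change dF n K i (u (I.erase i) S) = 0
  rw [(h (I.erase i) S).2 hS, map_zero]

theorem EsC_totF_mono {p p' m : ℤ} (h : p ≤ p') {φ : Fm n (Fm r (FF n K))}
    (hφ : φ ∈ totF f p' m) : φ ∈ totF f p m := (homSS f).F_le h m hφ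

theorem EsC_totF_congr {p p' m m' : ℤ} (h : p = p') (h' : m = m') {φ : Fm n (Fm r (FF n K))}
    (hφ : φ ∈ totF f p m) : φ ∈ totF f p' m' := by
  subst h
  subst h'
  exact hφ

theorem EsC_totF_of_cmp {p m : ℤ} {φ : Fm n (Fm r (FF n K))} (h : φ ∈ totF f p m)
    (h0 : cmp p φ = 0) : φ ∈ totF f (p + 1) m := by
  rw [mem_totF_iff] at h ⊢
  refine ⟨h.1, fun I hI => ?_⟩
  by_cases hI' : (I.card : ℤ) = p
  · have h1 := congrFun h0 I
    unfold cmp at h1
    rw [if_pos hI'] at h1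
    exact h1
  · exact h.2 I (by omega)

/-- Surjectivity on `E_2` of `V^0 → V^0 / V^1`.

Proof. `q = m - p`. Part of degree `p` of `D x`: `sdel x_p` lies in `VT 1` (`a` has no part of degree `p`), values in `VC (q+1) (1-p)`; `exists_sdel_lift`: `u0` of degree `p`, values in `VC q (1-p)`, `sdel u0 = sdel x_p`. Let `y = x_p - u0` (values in `VC q (-p)`, `sdel y = 0`). `w = dR y + sdel x_(p+1) = (D x)_(p+1) - dR u0` has values in `VC q (-p)`; `sdel w = 0` (`dR_sdel`), `dR w = dR (sdel x_(p+1)) = - sdel (dR x_(p+1))` has values in the image of `Lq (q-1)`. `prepB` for `p + 1`: `w = dR s + sdel t`, `s` of degree `p` with values in `VC q (1-p) ∩ ker`, `t` of degree `p+1` with values in `VC (q-1) (-p)`. `x' = x - u0 - s - t`: part of degree `p`: `y - s`, killed by `sdel`; `dR (y - s) + sdel (x_(p+1) - t) = 0`. So `x' ∈ Z 2 p m` (`mem_Z2_iff`), `x - x' = u0 + s + t ∈ VT 1`, in `totF p m`. -/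
theorem e2c [CharZero K] (hlam : lam 1 = 1) (hV : VFam lam V) (hf : ∀ s, f s ≠ 0) (p m : ℤ)
    {x a : Fm n (Fm r (FF n K))} (hx0 : x ∈ VT V f 0) (hx : x ∈ totF f p m)
    (ha : a ∈ totF f (p + 2) (m + 1)) (hxa : dTot n r K x - a ∈ VT V f 1) :
    ∃ x' ∈ VT V f 0, x' ∈ (homSS f).Z 2 p m ∧ x - x' ∈ VT V f 1 ∧ x - x' ∈ totF f p m := by
  have hDx : dTot n r K x ∈ totF f p (m + 1) := dTot_mem f p m hx
  have hDa : dTot n r K x - a ∈ totF f p (m + 1) :=
    Submodule.sub_mem _ hDx (EsC_totF_mono (by omega) ha)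
  -- the part of degree `p`
  have e1 : cmp p (dTot n r K x - a) = sdel n r K (cmp p x) := by
    rw [EsC_cmp_sub, EsC_cmp_dTot', EsC_cmp_totF hx (by omega), EsC_cmp_totF ha (by omega),
      map_zero, zero_add, sub_zero]
  obtain ⟨u0, hu0, hu0V, hu0s⟩ := exists_sdel_lift (V := V) (f := f)
    (fun φ q i h hi => cech_strict hV hf q i h hi) p (m - p) (1 - p) (cmp p x)
    (EsC_cmp_isFm p x) (fun I => EsC_Lq_val hx p I) (fun I => by
      rw [← e1]
      exact EsC_VC_congr (by ring) rfl (EsC_VC_val hDa hxa p I))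
  -- the part of degree `p + 1`
  have e2 : cmp (p + 1) (dTot n r K x - a) =
      dR (cconn n r K) (cmp p x) + sdel n r K (cmp (p + 1) x) := by
    rw [EsC_cmp_sub, EsC_cmp_dTot, EsC_cmp_totF ha (by omega), sub_zero]
  have hsy : sdel n r K (cmp p x - u0) = 0 := by rw [map_sub, hu0s, sub_self]
  obtain ⟨w, hw⟩ : ∃ w, w = cmp (p + 1) (dTot n r K x - a) - dR (cconn n r K) u0 := ⟨_, rfl⟩
  have hw' : w = dR (cconn n r K) (cmp p x - u0) + sdel n r K (cmp (p + 1) x) := by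
    rw [hw, e2, map_sub]
    abel
  have hwF : IsFm (p + 1) w := by
    rw [hw]
    exact EsC_isFm_sub (EsC_cmp_isFm _ _) (EsC_dR_isFm hu0)
  have hwV : ∀ I, w I ∈ VC V f (m - p) (1 - (p + 1)) := by
    intro I
    rw [hw]
    exact Submodule.sub_mem _ (EsC_VC_congr (by ring) rfl (EsC_VC_val hDa hxa (p + 1) I))
      (EsC_VC_congr rfl (by ring) (EsC_dR_VC hV hf hu0 hu0V I))
  have hws : sdel n r K w = 0 := by
    have h1 := dR_sdel (cmp p x - u0)
    rw [hsy, map_zero] at h1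
    rw [hw', map_add, sdel_sdel, add_zero]
    exact neg_eq_zero.1 h1.symm
  have hwd : ∀ I, dR (cconn n r K) w I ∈ (Lq f (m - p - 1)).map (cech n r K) := by
    intro I
    rw [hw', map_add, dR_dR, zero_add, dR_sdel, Pi.neg_apply]
    exact Submodule.neg_mem _ (EsC_sdel_map (EsC_dR_Lq fun J =>
      EsC_Lq_congr (by ring) (EsC_Lq_val hx (p + 1) J)) I)
  obtain ⟨s, t, hs, ht, hsV, hsc, htV, hst⟩ := prepB hlam hV hf (p + 1) (m - p) hwF hwV
    (EsC_cech_eq hws) hwd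
  have hs' : IsFm p s := by
    rw [add_sub_cancel_right] at hs
    exact hs
  have hss : sdel n r K s = 0 := EsC_sdel_eq hsc
  -- the correction
  have hT1 : u0 + s + t ∈ VT V f 1 := by
    refine Submodule.add_mem _ (Submodule.add_mem _ (EsC_VT_of hu0 hu0V)
      (EsC_VT_of (q := m - p) hs' fun I => EsC_VC_congr rfl (by ring) (hsV I)))
      (EsC_VT_of (q := m - p - 1) ht fun I => EsC_VC_congr rfl (by ring) (htV I))
  have hTF : u0 + s + t ∈ totF f p m := by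
    refine Submodule.add_mem _ (Submodule.add_mem _ (EsC_totF_of hu0
      (fun I => EsC_VC_le_Lq hV hf (hu0V I)) le_rfl)
      (EsC_totF_of hs' (fun I => EsC_VC_le_Lq hV hf (hsV I)) le_rfl))
      (EsC_totF_of ht (fun I => EsC_Lq_congr (by ring) (EsC_VC_le_Lq hV hf (htV I))) (by omega))
  have hcp : cmp p (x - (u0 + s + t)) = cmp p x - u0 - s := by
    rw [EsC_cmp_sub, EsC_cmp_add, EsC_cmp_add, EsC_cmp_of hu0, EsC_cmp_of hs',
      EsC_cmp_ne ht (by omega)]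
    abel
  have hcp1 : cmp (p + 1) (x - (u0 + s + t)) = cmp (p + 1) x - t := by
    rw [EsC_cmp_sub, EsC_cmp_add, EsC_cmp_add, EsC_cmp_ne hu0 (by omega),
      EsC_cmp_ne hs' (by omega), EsC_cmp_of ht]
    abel
  have hxF : x - (u0 + s + t) ∈ totF f p m := Submodule.sub_mem _ hx hTF
  refine ⟨x - (u0 + s + t), Submodule.sub_mem _ hx0 (VT_anti hV hf (by omega) hT1),
    (mem_Z2_iff hxF).2 ⟨?_, ?_⟩, ?_, ?_⟩
  · rw [hcp, map_sub, hsy, hss, sub_zero]
  · have h1 : dR (cconn n r K) (cmp p x - u0 - s) + sdel n r K (cmp (p + 1) x - t) =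
        w - (dR (cconn n r K) s + sdel n r K t) := by
      rw [hw', map_sub, map_sub (sdel n r K) (cmp (p + 1) x) t]
      abel
    rw [hcp, hcp1, h1, ← hst, sub_self]
  · rw [sub_sub_cancel]
    exact hT1
  · rw [sub_sub_cancel]
    exact hTF

/-- Injectivity on `E_2` of `V^0 → V^0 / V^1`.

Proof. `q = m - p`, `c = x - a - D b ∈ VT 1`. Part of degree `p-1` of `c`: `- sdel b_(p-1)`, so `sdel b_(p-1)` has values in `VC (q+1) (2-p)`; `exists_sdel_lift`: `u1` of degree `p-1`, values in `VC q (2-p)`, `sdel u1 = sdel b_(p-1)`. Let `b' = b - u1` (in `VT 0`, `totF (p-1) (m-1)`, `sdel b'_(p-1) = 0`), `c' = x - a - D b' = c + D u1 ∈ VT 1`, without part of degree `p-1`. `x_p = dR b'_(p-1) + sdel b'_p + c'_p`. `c'_p` has values in `VC q (1-p)`; `sdel c'_p = 0` and `dR c'_p = dR x_p - dR (sdel b'_p) = - sdel x_(p+1) + sdel (dR b'_p)` has values in the image of `Lq (q-1)` (`mem_Z2_iff` for `x`). `prepB`: `c'_p = dR s +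 sdel t`, `s` of degree `p-1`, values in `VC q (2-p) ∩ ker`, `t` of degree `p`, values in `VC (q-1) (1-p)`. `b'' = b'_(p-1) + s + b'_p + t ∈ VT 0 ∩ Z 1 (p-1) (m-1)`; the part of degree `p` of `D b''` is `x_p`. `a' = x - D b'' ∈ VT 0 ∩ totF (p+1) m`, `D a' = D x ∈ totF (p+2) (m+1)`. -/
theorem e2d [CharZero K] (hlam : lam 1 = 1) (hV : VFam lam V) (hf : ∀ s, f s ≠ 0) (p m : ℤ)
    {x a b : Fm n (Fm r (FF n K))} (hx0 : x ∈ VT V f 0) (hx : x ∈ (homSS f).Z 2 p m)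
    (ha0 : a ∈ VT V f 0) (ha : a ∈ totF f (p + 1) m) (hb0 : b ∈ VT V f 0)
    (hb : b ∈ totF f (p - 1) (m - 1)) (hc : x - a - dTot n r K b ∈ VT V f 1) :
    ∃ a' b' : Fm n (Fm r (FF n K)), a' ∈ VT V f 0 ∧ a' ∈ (homSS f).Z 1 (p + 1) m ∧
      b' ∈ VT V f 0 ∧ b' ∈ (homSS f).Z 1 (p - 1) (m - 1) ∧ x = a' + dTot n r K b' := by
  have hxF : x ∈ totF f p m := hx.1
  obtain ⟨hx1, hx2⟩ := (mem_Z2_iff hxF).1 hx
  have hDb : dTot n r K b ∈ totF f (p - 1) m :=
    EsC_totF_congr rfl (by ring) (dTot_mem f (p - 1) (m - 1) hb)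
  have hcF : x - a - dTot n r K b ∈ totF f (p - 1) m :=
    Submodule.sub_mem _ (Submodule.sub_mem _ (EsC_totF_mono (by omega) hxF)
      (EsC_totF_mono (by omega) ha)) hDb
  -- the part of degree `p - 1`
  have e1 : sdel n r K (cmp (p - 1) b) = - cmp (p - 1) (x - a - dTot n r K b) := by
    rw [EsC_cmp_sub, EsC_cmp_sub, EsC_cmp_totF hxF (by omega), EsC_cmp_totF ha (by omega),
      EsC_cmp_dTot', EsC_cmp_totF (k := p - 1 - 1) hb (by omega), map_zero]
    abel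
  obtain ⟨u1, hu1, hu1V, hu1s⟩ := exists_sdel_lift (V := V) (f := f)
    (fun φ q i h hi => cech_strict hV hf q i h hi) (p - 1) (m - p) (2 - p) (cmp (p - 1) b)
    (EsC_cmp_isFm _ b) (fun I => EsC_Lq_congr (by ring) (EsC_Lq_val hb (p - 1) I)) (fun I => by
      rw [e1, Pi.neg_apply]
      exact Submodule.neg_mem _ (EsC_VC_congr (by ring) (by ring) (EsC_VC_val hcF hc (p - 1) I)))
  have hu1T : u1 ∈ VT V f 1 :=
    EsC_VT_of (q := m - p) hu1 fun I => EsC_VC_congr rfl (by ring) (hu1V I)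
  have hu1F : u1 ∈ totF f (p - 1) (m - 1) :=
    EsC_totF_of hu1 (fun I => EsC_Lq_congr (by ring) (EsC_VC_le_Lq hV hf (hu1V I))) le_rfl
  obtain ⟨b1, hb1⟩ : ∃ b1, b1 = b - u1 := ⟨_, rfl⟩
  have hb1T : b1 ∈ VT V f 0 := by
    rw [hb1]
    exact Submodule.sub_mem _ hb0 (VT_anti hV hf (by omega) hu1T)
  have hb1F : b1 ∈ totF f (p - 1) (m - 1) := by
    rw [hb1]
    exact Submodule.sub_mem _ hb hu1F
  have hb1s : sdel n r K (cmp (p - 1) b1) = 0 := by
    rw [hb1, EsC_cmp_sub, EsC_cmp_of hu1, map_sub, hu1s, sub_self]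
  have hDb1 : dTot n r K b1 ∈ totF f (p - 1) m :=
    EsC_totF_congr rfl (by ring) (dTot_mem f (p - 1) (m - 1) hb1F)
  obtain ⟨c, hcd⟩ : ∃ c, c = x - a - dTot n r K b1 := ⟨_, rfl⟩
  have hcT : c ∈ VT V f 1 := by
    have h1 : c = (x - a - dTot n r K b) + dTot n r K u1 := by
      rw [hcd, hb1, map_sub]
      abel
    rw [h1]
    exact Submodule.add_mem _ hc (dTot_mem_VT hV hf hu1T)
  have hcF1 : c ∈ totF f (p - 1) m := by
    rw [hcd]
    exact Submodule.sub_mem _ (Submodule.sub_mem _ (EsC_totF_mono (by omega) hxF)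
      (EsC_totF_mono (by omega) ha)) hDb1
  -- the part of degree `p`
  have e2 : cmp p c = cmp p x - dR (cconn n r K) (cmp (p - 1) b1) - sdel n r K (cmp p b1) := by
    rw [hcd, EsC_cmp_sub, EsC_cmp_sub, EsC_cmp_totF ha (by omega), EsC_cmp_dTot']
    abel
  have hcs : sdel n r K (cmp p c) = 0 := by
    have h1 := dR_sdel (cmp (p - 1) b1)
    rw [hb1s, map_zero] at h1
    rw [e2, map_sub, map_sub, hx1, sdel_sdel, neg_eq_zero.1 h1.symm, sub_zero, sub_zero]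
  have hcd' : dR (cconn n r K) (cmp p c) =
      sdel n r K (dR (cconn n r K) (cmp p b1) - cmp (p + 1) x) := by
    rw [e2, map_sub, map_sub, dR_dR, dR_sdel, map_sub, sub_zero, eq_neg_of_add_eq_zero_left hx2]
    abel
  have hcd2 : ∀ I, dR (cconn n r K) (cmp p c) I ∈ (Lq f (m - p - 1)).map (cech n r K) := by
    intro I
    rw [hcd']
    refine EsC_sdel_map (fun J => ?_) I
    exact Submodule.sub_mem _ (EsC_dR_Lq (fun J' => EsC_Lq_congr (by ring)
      (EsC_Lq_val hb1F p J')) J) (EsC_Lq_congr (by ring) (EsC_Lq_val hxF (p + 1) J))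
  obtain ⟨s, t, hs, ht, hsV, hsc, htV, hst⟩ := prepB hlam hV hf p (m - p) (EsC_cmp_isFm p c)
    (fun I => EsC_VC_val hcF1 hcT p I) (EsC_cech_eq hcs) hcd2
  have hss : sdel n r K s = 0 := EsC_sdel_eq hsc
  have hsT : s ∈ VT V f 1 :=
    EsC_VT_of (q := m - p) hs fun I => EsC_VC_congr rfl (by ring) (hsV I)
  have htT : t ∈ VT V f 1 := EsC_VT_of (q := m - p - 1) ht htV
  have hsF : s ∈ totF f (p - 1) (m - 1) :=
    EsC_totF_of hs (fun I => EsC_Lq_congr (by ring) (EsC_VC_le_Lq hV hf (hsV I))) le_rfl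
  have htF : t ∈ totF f (p - 1) (m - 1) :=
    EsC_totF_of ht (fun I => EsC_Lq_congr (by ring) (EsC_VC_le_Lq hV hf (htV I))) (by omega)
  -- parts of `b1`
  have hb1c : ∀ k, p - 1 ≤ k → cmp k b1 ∈ VT V f 0 ∧ cmp k b1 ∈ totF f (p - 1) (m - 1) :=
    fun k hk => ⟨EsC_VT_of (q := m - 1 - k) (EsC_cmp_isFm k b1)
      (fun I => EsC_VC_val hb1F hb1T k I),
      EsC_totF_of (EsC_cmp_isFm k b1) (fun I => EsC_Lq_val hb1F k I) hk⟩
  obtain ⟨b2, hb2⟩ : ∃ b2, b2 = cmp (p - 1) b1 + s + (cmp p b1 + t) := ⟨_, rfl⟩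
  have hb2T : b2 ∈ VT V f 0 := by
    rw [hb2]
    exact Submodule.add_mem _ (Submodule.add_mem _ (hb1c _ le_rfl).1
      (VT_anti hV hf (by omega) hsT)) (Submodule.add_mem _ (hb1c p (by omega)).1
      (VT_anti hV hf (by omega) htT))
  have hb2F : b2 ∈ totF f (p - 1) (m - 1) := by
    rw [hb2]
    exact Submodule.add_mem _ (Submodule.add_mem _ (hb1c _ le_rfl).2 hsF)
      (Submodule.add_mem _ (hb1c p (by omega)).2 htF)
  have hc1 : cmp (p - 1) b2 = cmp (p - 1) b1 + s := by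
    rw [hb2, EsC_cmp_add, EsC_cmp_add, EsC_cmp_add, EsC_cmp_of (EsC_cmp_isFm _ _), EsC_cmp_of hs,
      EsC_cmp_ne (EsC_cmp_isFm p b1) (by omega), EsC_cmp_ne ht (by omega), add_zero, add_zero]
  have hc2 : cmp p b2 = cmp p b1 + t := by
    rw [hb2, EsC_cmp_add, EsC_cmp_add, EsC_cmp_add, EsC_cmp_of (EsC_cmp_isFm _ _), EsC_cmp_of ht,
      EsC_cmp_ne (EsC_cmp_isFm (p - 1) b1) (by omega), EsC_cmp_ne hs (by omega), zero_add,
      zero_add]
  have hb2Z : b2 ∈ (homSS f).Z 1 (p - 1) (m - 1) := by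
    rw [mem_Z1_iff hb2F, hc1, map_add, hb1s, hss, add_zero]
  have hDb2 : dTot n r K b2 ∈ totF f p m := EsC_totF_congr (by ring) (by ring) hb2Z.2
  have ha' : x - dTot n r K b2 ∈ totF f (p + 1) m := by
    refine EsC_totF_of_cmp (Submodule.sub_mem _ hxF hDb2) ?_
    rw [EsC_cmp_sub, EsC_cmp_dTot', hc1, hc2, map_add, map_add]
    have h1 : cmp p x - (dR (cconn n r K) (cmp (p - 1) b1) + dR (cconn n r K) s +
        (sdel n r K (cmp p b1) + sdel n r K t)) =
        (cmp p x - dR (cconn n r K) (cmp (p - 1) b1) - sdel n r K (cmp p b1)) -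
          (dR (cconn n r K) s + sdel n r K t) := by
      abel
    rw [h1, ← e2, ← hst, sub_self]
  refine ⟨x - dTot n r K b2, b2, Submodule.sub_mem _ hx0 (dTot_mem_VT hV hf hb2T),
    ⟨ha', ?_⟩, hb2T, hb2Z, (sub_add_cancel _ _).symm⟩
  change dTot n r K (x - dTot n r K b2) ∈ totF f (p + 1 + 1) (m + 1)
  rw [map_sub, dTot_dTot, sub_zero]
  exact EsC_totF_congr (by ring) rfl hx.2

end B5a
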