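import Pool.Agent.H.MP_b5a980_ag.EsA

set_option autoImplicit false
set_option linter.unusedSectionVars false
set_option linter.style.longLine false

/-!
The filtered complexes `V^0` and `V^0 / V^1` (MP_b5a980_ag).
-/

namespace B5a

universe u v w

open MvPowerSeries

variable {n r : ℕ} {K : Type u} [Field K] {lam : K →+ ℚ}
  {V : MvPowerSeries (Fin n) K → ℤ → Submodule (MvPowerSeries (Fin n) K) (FF n K)}
  {f : Fin r → MvPowerSeries (Fin n) K}

/-- The subcomplex `V^0` of the Cech - de Rham complex. -/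
noncomputable def V0SS (hV : VFam lam V) (hf : ∀ s, f s ≠ 0) : FCx K (VT V f 0) where
  d := (dTot n r K).restrict fun _ hx => dTot_mem_VT hV hf hx
  F p m := (totF f p m).comap (VT V f 0).subtype
  dd := by
    intro p m x _
    exact Subtype.ext (dTot_dTot (x : Fm n (Fm r (FF n K))))
  anti := fun p m _ hx => (homSS f).anti p m hx
  dF := fun p m _ hx => dTot_mem f p m hx

/-- `V^1` inside `V^0` -/
noncomputable abbrev V1 (V : MvPowerSeries (Fin n) K → ℤ →
    Submodule (MvPowerSeries (Fin n) K) (FF n K)) (f : Fin r → MvPowerSeries (Fin n) K) :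
    Submodule K (VT V f 0) := (VT V f 1).comap (VT V f 0).subtype

/-- The quotient complex `V^0 / V^1`. -/
noncomputable def gSS (hV : VFam lam V) (hf : ∀ s, f s ≠ 0) : FCx K (VT V f 0 ⧸ V1 V f) where
  d := Submodule.mapQ _ _ (V0SS hV hf).d fun x hx => by
    show dTot n r K (x : Fm n (Fm r (FF n K))) ∈ VT V f 1
    exact dTot_mem_VT hV hf hx
  F p m := ((V0SS hV hf).F p m).map (V1 V f).mkQ
  dd := by
    rintro p m _ ⟨x, hx, rfl⟩
    rw [Submodule.mkQ_apply, Submodule.mapQ_apply, Submodule.mapQ_apply, (V0SS hV hf).dd p m x hx,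
      Submodule.Quotient.mk_zero]
  anti := fun p m => Submodule.map_mono ((V0SS hV hf).anti p m)
  dF := by
    rintro p m _ ⟨x, hx, rfl⟩
    exact ⟨(V0SS hV hf).d x, (V0SS hV hf).dF p m x hx, rfl⟩

theorem V0SS_bounded (hV : VFam lam V) (hf : ∀ s, f s ≠ 0) : (V0SS hV hf).Bounded n := by
  constructor
  · intro p m hp
    show (totF f p m).comap (VT V f 0).subtype = (totF f 0 m).comap (VT V f 0).subtype
    have h := (homSS_bounded f).1 p m hp
    have h' : totF f p m = totF f 0 m := h
    rw [h']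
  · intro p m hp
    show (totF f p m).comap (VT V f 0).subtype = ⊥
    have h := (homSS_bounded f).2 p m hp
    have h' : totF f p m = ⊥ := h
    rw [h', Submodule.comap_bot, Submodule.ker_subtype]

theorem gSS_bounded (hV : VFam lam V) (hf : ∀ s, f s ≠ 0) : (gSS hV hf).Bounded n := by
  constructor
  · intro p m hp
    show ((V0SS hV hf).F p m).map (V1 V f).mkQ = ((V0SS hV hf).F 0 m).map (V1 V f).mkQ
    rw [(V0SS_bounded hV hf).1 p m hp]
  · intro p m hp
    show ((V0SS hV hf).F p m).map (V1 V f).mkQ = ⊥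
    rw [(V0SS_bounded hV hf).2 p m hp, Submodule.map_bot]

end B5a
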