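import Pool.Agent.H.MP_b5a980_ag.EsB
import Pool.Agent.H.MP_b5a980_ag.Et0
import Pool.Agent.H.MP_b5a980_ag.SSD

set_option autoImplicit false
set_option linter.unusedSectionVars false
set_option linter.style.longLine false

/-!
The comparison with `V^0 / V^1` (MP_b5a980_ag).
-/

namespace B5a

universe u v w

open MvPowerSeries

variable {n r : ℕ} {K : Type u} [Field K] {lam : K →+ ℚ}
  {V : MvPowerSeries (Fin n) K → ℤ → Submodule (MvPowerSeries (Fin n) K) (FF n K)}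
  {f : Fin r → MvPowerSeries (Fin n) K}

theorem EtA_Z_congr {T : Type v} [AddCommGroup T] [Module K T] (X : FCx K T)
    {r r' p p' m m' : ℤ} (hr : r = r') (hp : p = p') (hm : m = m') {x : T}
    (h : x ∈ X.Z r p m) : x ∈ X.Z r' p' m' := by
  subst hr
  subst hp
  subst hm
  exact h

theorem EtA_mem_Z (hV : VFam lam V) (hf : ∀ s, f s ≠ 0) {k p m : ℤ} (x : VT V f 0) :
    x ∈ (V0SS hV hf).Z k p m ↔ (x : Fm n (Fm r (FF n K))) ∈ (homSS f).Z k p m := Iff.rfl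

/-- membership in `B_2` of `V^0` -/
theorem EtA_mem_B (hV : VFam lam V) (hf : ∀ s, f s ≠ 0) {p m : ℤ} (x : VT V f 0)
    (h : ∃ a b : Fm n (Fm r (FF n K)), a ∈ VT V f 0 ∧ a ∈ (homSS f).Z 1 (p + 1) m ∧
      b ∈ VT V f 0 ∧ b ∈ (homSS f).Z 1 (p - 1) (m - 1) ∧
      (x : Fm n (Fm r (FF n K))) = a + dTot n r K b) : x ∈ (V0SS hV hf).B 2 p m := by
  obtain ⟨a, b, ha0, ha, hb0, hb, hx⟩ := h
  have e : x = (⟨a, ha0⟩ : VT V f 0) + (V0SS hV hf).d ⟨b, hb0⟩ := Subtype.ext hx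
  rw [e]
  refine Submodule.add_mem_sup ?_ ⟨⟨b, hb0⟩, ?_, rfl⟩
  · exact EtA_Z_congr _ (by norm_num) rfl rfl ((EtA_mem_Z hV hf ⟨a, ha0⟩).2 ha)
  · exact EtA_Z_congr _ (by norm_num) (by ring) rfl ((EtA_mem_Z hV hf ⟨b, hb0⟩).2 hb)

/-- Proof. `ssiso_of_map` for the inclusion `(VT V f 0).subtype`; `ESurj 2` is `e2a`, `EInj 2` is `e2b` (elements of `(V0SS).Z r p m` are the elements of `VT 0` in `(homSS f).Z r p m`; the element `a + D b` of `e2b` shows membership in `(V0SS).B 2 p m`). -/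
theorem ssi_V0 [CharZero K] (hlam : lam 1 = 1) (hV : VFam lam V) (hf : ∀ s, f s ≠ 0) :
    Nonempty (SSIso (V0SS hV hf) (homSS f)) := by
  refine ssiso_of_map (φ := (VT V f 0).subtype) (V0SS_bounded hV hf) (homSS_bounded f)
    ⟨fun p m x _ => rfl, fun p m x hx => hx⟩ ?_ ?_
  · intro p m x hx hB
    exact EtA_mem_B hV hf x (e2b hlam hV hf p m x.2 ((EtA_mem_Z hV hf x).1 hx) hB)
  · intro p m y hy
    obtain ⟨v, hv0, hv, hvy⟩ := e2a hlam hV hf p m hy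
    exact ⟨⟨v, hv0⟩, (EtA_mem_Z hV hf ⟨v, hv0⟩).2 hv, hvy⟩

/-- Proof. `ssiso_of_map` for `(V1 V f).mkQ`. `ESurj 2`: an element of `(gSS).Z 2 p m` is the class of `x ∈ VT 0 ∩ totF p m` whose `D x` is congruent modulo `VT 1` to some `a ∈ VT 0 ∩ totF (p+2) (m+1)`; `e2c` gives `x'` with the same class. `EInj 2`: `x ∈ VT 0 ∩ Z 2 p m` with class in `(gSS).B 2 p m`: the class of `x` is `[a] + D [b]` with `a ∈ VT 0 ∩ totF (p+1) m`, `b ∈ VT 0 ∩ totF (p-1) (m-1)`; `e2d`. -/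
theorem ssi_g [CharZero K] (hlam : lam 1 = 1) (hV : VFam lam V) (hf : ∀ s, f s ≠ 0) :
    Nonempty (SSIso (V0SS hV hf) (gSS hV hf)) := by
  have hd : ∀ x, (gSS hV hf).d ((V1 V f).mkQ x) = (V1 V f).mkQ ((V0SS hV hf).d x) := fun x => rfl
  refine ssiso_of_map (φ := (V1 V f).mkQ) (V0SS_bounded hV hf) (gSS_bounded hV hf)
    ⟨fun p m x _ => rfl, fun p m x hx => Submodule.mem_map_of_mem hx⟩ ?_ ?_
  · intro p m x hx hB
    obtain ⟨_, ⟨⟨a, ha, rfl⟩, -⟩, _, ⟨_, ⟨⟨b, hb, rfl⟩, -⟩, rfl⟩, hab⟩ := Submodule.mem_sup.mp hB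
    rw [hd, ← map_add, Submodule.mkQ_apply, Submodule.mkQ_apply, eq_comm,
      Submodule.Quotient.eq] at hab
    have hc : (x : Fm n (Fm r (FF n K))) - a - dTot n r K b ∈ VT V f 1 := by
      have h1 : (x : Fm n (Fm r (FF n K))) - (a + dTot n r K b) ∈ VT V f 1 := hab
      rwa [← sub_sub] at h1
    have hb' : (b : Fm n (Fm r (FF n K))) ∈ totF f (p - 1) (m - 1) :=
      (homSS f).SSA_mem_F_congr (p := p - 2 + 1) (m := m - 1) (by ring) rfl hb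
    exact EtA_mem_B hV hf x (e2d hlam hV hf p m x.2 ((EtA_mem_Z hV hf x).1 hx) a.2 ha b.2 hb' hc)
  · rintro p m _ ⟨⟨x, hx, rfl⟩, a, ha, hax⟩
    rw [hd, Submodule.mkQ_apply, Submodule.mkQ_apply, eq_comm, Submodule.Quotient.eq] at hax
    obtain ⟨x', hx0', hx', hxx, -⟩ := e2c hlam hV hf p m x.2 hx ha hax
    refine ⟨⟨x', hx0'⟩, (EtA_mem_Z hV hf ⟨x', hx0'⟩).2 hx', ?_⟩
    have h0 : (V1 V f).mkQ ⟨x', hx0'⟩ = (V1 V f).mkQ x := by
      rw [Submodule.mkQ_apply, Submodule.mkQ_apply, eq_comm, Submodule.Quotient.eq]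
      exact hxx
    rw [h0, sub_self]
    exact Submodule.zero_mem _

end B5a
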