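import Pool.Agent.H.MP_b5a980_ag.Dc7
import Pool.Agent.H.MP_b5a980_ag.Et0

set_option autoImplicit false
set_option linter.unusedSectionVars false
set_option linter.style.longLine false

/-!
The complexes `V^0 / V^1` for two coefficient fields agree (MP_b5a980_ag).
-/

namespace B5a

universe u v w

open MvPowerSeries

variable {n r : ℕ} {K : Type u} [Field K] {lam : K →+ ℚ}
  {V : MvPowerSeries (Fin n) K → ℤ → Submodule (MvPowerSeries (Fin n) K) (FF n K)}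
  {f : Fin r → MvPowerSeries (Fin n) K}

/-- `Ψ` applied to all components of a form. -/
noncomputable def EtB_P (Ψ : MvPowerSeries (Fin n) K ≃+* MvPowerSeries (Fin n) K) :
    Fm n (Fm r (FF n K)) →+ Fm n (Fm r (FF n K)) where
  toFun φ := fun I => Dc7_P Ψ (φ I)
  map_zero' := by
    funext I
    exact map_zero _
  map_add' := by
    intro x y
    funext I
    exact map_add _ _ _

theorem EtB_P_apply (Ψ : MvPowerSeries (Fin n) K ≃+* MvPowerSeries (Fin n) K)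
    (φ : Fm n (Fm r (FF n K))) (I : Finset (Fin n)) (S : Finset (Fin r)) :
    EtB_P Ψ φ I S = fracEquiv Ψ (φ I S) := rfl

theorem EtB_P_symm (Ψ : MvPowerSeries (Fin n) K ≃+* MvPowerSeries (Fin n) K)
    (φ : Fm n (Fm r (FF n K))) : EtB_P Ψ (EtB_P Ψ.symm φ) = φ :=
  funext fun I => Dc7_P_symm Ψ (φ I)

theorem EtB_C_smul (k : K) (φ : Fm n (Fm r (FF n K))) (I : Finset (Fin n))
    (S : Finset (Fin r)) : (k • φ) I S = (C k : MvPowerSeries (Fin n) K) • φ I S := by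
  rw [Pi.smul_apply, Pi.smul_apply, Algebra.smul_def, Algebra.smul_def]
  rfl

section

variable {Ψ : MvPowerSeries (Fin n) K ≃+* MvPowerSeries (Fin n) K}
  {g : Fin r → MvPowerSeries (Fin n) K}

theorem EtB_P_mem (h : Dc7_H Ψ g f) (hV : VFam lam V) {j : ℤ} {φ : Fm n (Fm r (FF n K))}
    (hφ : φ ∈ VT V g j) : EtB_P Ψ φ ∈ VT V f j := by
  intro I S
  have h1 := hV _ (fS_ne_zero h.hg S)
  have h2 := hV _ (fS_ne_zero h.hf S)
  refine psi_map Ψ h.hX h.hC (fS_ne_zero h.hg S) h1.1 h1.2 h2.1 ?_ _ (hφ I S)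
  intro x
  rw [← h.fS_eq]
  exact h2.2 x

theorem EtB_smul_mem (h : Dc7_H Ψ g f) (hV : VFam lam V) (k : K) {φ : Fm n (Fm r (FF n K))}
    (hφ : φ ∈ VT V g 0) : EtB_P Ψ (k • φ) - k • EtB_P Ψ φ ∈ VT V f 1 := by
  intro I S
  have h1 : (EtB_P Ψ (k • φ) - k • EtB_P Ψ φ) I S = (Ψ (C k) - C k) • EtB_P Ψ φ I S := by
    change EtB_P Ψ (k • φ) I S - (k • EtB_P Ψ φ) I S = _
    rw [EtB_C_smul, EtB_P_apply, EtB_C_smul, DeB_smul, sub_smul, EtB_P_apply]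
  rw [h1]
  have h2 := hV _ (fS_ne_zero h.hf S)
  have h3 := h2.1.compat.mI_mem (h.hC k) (EtB_P_mem h hV hφ I S)
  refine h2.1.compat.le ?_ h3
  push_cast
  omega

theorem EtB_F (h : Dc7_H Ψ g f) (p m : ℤ) {φ : Fm n (Fm r (FF n K))}
    (hφ : φ ∈ totF g p m) : EtB_P Ψ φ ∈ totF f p m := by
  intro I S
  refine ⟨?_, fun h1 => ?_⟩
  · rw [h.fS_eq]
    exact DeB_loc Ψ (hφ I S).1
  · rw [EtB_P_apply, (hφ I S).2 h1, map_zero]

theorem EtB_d_mem (h : Dc7_H Ψ g f) (hV : VFam lam V) {φ : Fm n (Fm r (FF n K))}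
    (hφ : φ ∈ VT V g 0) : EtB_P Ψ (dTot n r K φ) - dTot n r K (EtB_P Ψ φ) ∈ VT V f 1 := by
  intro I S
  have hA : fracEquiv Ψ (∑ i ∈ I, sg i I • dF n K i (φ (I.erase i) S)) =
      ∑ i ∈ I, sg i I • fracEquiv Ψ (dF n K i (φ (I.erase i) S)) := by
    rw [map_sum]
    exact Finset.sum_congr rfl fun i _ => map_zsmul _ _ _
  have hB : fracEquiv Ψ (((-1 : ℤ) ^ I.card) • ∑ s ∈ S, sg s S • φ I (S.erase s)) =
      ((-1 : ℤ) ^ I.card) • ∑ s ∈ S, sg s S • fracEquiv Ψ (φ I (S.erase s)) := by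
    rw [map_zsmul, map_sum]
    congr 1
    exact Finset.sum_congr rfl fun s _ => map_zsmul _ _ _
  have h1 : (EtB_P Ψ (dTot n r K φ) - dTot n r K (EtB_P Ψ φ)) I S =
      ∑ i ∈ I, sg i I • (fracEquiv Ψ (dF n K i (φ (I.erase i) S)) -
        dF n K i (fracEquiv Ψ (φ (I.erase i) S))) := by
    change EtB_P Ψ (dTot n r K φ) I S - dTot n r K (EtB_P Ψ φ) I S = _
    rw [EtB_P_apply, EsA_key, EsA_key, map_add, hA, hB]
    simp only [EtB_P_apply]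
    rw [add_sub_add_right_eq_sub, ← Finset.sum_sub_distrib]
    exact Finset.sum_congr rfl fun i _ => (zsmul_sub _ _ _).symm
  rw [h1]
  refine Submodule.sum_mem _ fun i hi => zsmul_mem ?_ _
  obtain ⟨D, hDX, hD⟩ := exists_transport Ψ h.hX i
  rw [hD, add_sub_cancel_left]
  have h2 := hV _ (fS_ne_zero h.hf S)
  have h3 := EtB_P_mem h hV hφ (I.erase i) S
  have h4 := der_stable (fS_ne_zero h.hf S) h2.1 h2.2 D hDX _ h3
  have h5 := Finset.card_erase_of_mem hi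
  have h6 := Finset.card_pos.2 ⟨i, hi⟩
  refine h2.1.compat.le ?_ h4
  omega

/-- `Ψ` on the quotients, before passing to the quotient. -/
noncomputable def EtB_T0 (h : Dc7_H Ψ g f) (hV : VFam lam V) :
    VT V g 0 →ₗ[K] (VT V f 0 ⧸ V1 V f) where
  toFun φ := (V1 V f).mkQ ⟨EtB_P Ψ φ, EtB_P_mem h hV φ.2⟩
  map_add' := by
    intro x y
    rw [← map_add]
    congr 1
    exact Subtype.ext (map_add _ _ _)
  map_smul' := by
    intro k x
    rw [RingHom.id_apply, ← map_smul, ← sub_eq_zero, ← map_sub, Submodule.mkQ_apply,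
      Submodule.Quotient.mk_eq_zero]
    exact EtB_smul_mem h hV k x.2

theorem EtB_T0_ker (h : Dc7_H Ψ g f) (hV : VFam lam V) :
    V1 V g ≤ LinearMap.ker (EtB_T0 h hV) := by
  intro x hx
  rw [LinearMap.mem_ker]
  change (V1 V f).mkQ _ = 0
  rw [Submodule.mkQ_apply, Submodule.Quotient.mk_eq_zero]
  exact EtB_P_mem h hV hx

/-- `Ψ` on the quotients. -/
noncomputable def EtB_T (h : Dc7_H Ψ g f) (hV : VFam lam V) :
    (VT V g 0 ⧸ V1 V g) →ₗ[K] (VT V f 0 ⧸ V1 V f) :=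
  (V1 V g).liftQ (EtB_T0 h hV) (EtB_T0_ker h hV)

theorem EtB_T_mk (h : Dc7_H Ψ g f) (hV : VFam lam V) (φ : VT V g 0) :
    EtB_T h hV ((V1 V g).mkQ φ) = (V1 V f).mkQ ⟨EtB_P Ψ φ, EtB_P_mem h hV φ.2⟩ := rfl

theorem EtB_T_symm (h : Dc7_H Ψ g f) (hV : VFam lam V) (x : VT V g 0 ⧸ V1 V g) :
    EtB_T h.symm hV (EtB_T h hV x) = x := by
  obtain ⟨φ, rfl⟩ := Submodule.mkQ_surjective _ x
  rw [EtB_T_mk, EtB_T_mk]
  congr 1
  exact Subtype.ext (EtB_P_symm Ψ.symm _)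

theorem EtB_T_F (h : Dc7_H Ψ g f) (hV : VFam lam V) (p m : ℤ) (x : VT V g 0 ⧸ V1 V g)
    (hx : x ∈ (gSS hV h.hg).F p m) : EtB_T h hV x ∈ (gSS hV h.hf).F p m := by
  obtain ⟨φ, hφ, rfl⟩ := hx
  exact ⟨⟨EtB_P Ψ φ, EtB_P_mem h hV φ.2⟩, EtB_F h p m hφ, rfl⟩

theorem EtB_T_d (h : Dc7_H Ψ g f) (hV : VFam lam V) (x : VT V g 0 ⧸ V1 V g) :
    EtB_T h hV ((gSS hV h.hg).d x) = (gSS hV h.hf).d (EtB_T h hV x) := by
  obtain ⟨φ, rfl⟩ := Submodule.mkQ_surjective _ x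
  change (V1 V f).mkQ (⟨EtB_P Ψ (dTot n r K (φ : Fm n (Fm r (FF n K)))), _⟩ : VT V f 0) =
    (V1 V f).mkQ (⟨dTot n r K (EtB_P Ψ (φ : Fm n (Fm r (FF n K)))), _⟩ : VT V f 0)
  rw [← sub_eq_zero, ← map_sub, Submodule.mkQ_apply, Submodule.Quotient.mk_eq_zero]
  exact EtB_d_mem h hV φ.2

end

/-- Proof. Let `Ψ^` be `fracEquiv Ψ` applied to all components. (1) It maps `VT V g j` into `VT V f j` (`psi_map` with the polynomial `fS g S`; `Ψ (fS g S) = fS f S`) and bijectively (`psi_map` for the inverse of `Ψ`: `Ψ⁻¹ (C c) - C c = - Ψ⁻¹ (Ψ (C c) - C c)`, and `Ψ⁻¹` maps `mI 1` to itself, being a ring automorphism), and `totF g p m` onto `totF f p m`. (2) `Ψ^ (c • x) - c • Ψ^ x` has components `(Ψ (C c) - C c) Ψ (x I S)`, in `VT V f 1` for `x ∈ VT V g 0` (`Compat.mI_mem`); so the induced map of the quotients `VT 0 / VT 1` is `K`-linear. (3) `dTot (Ψ^ x) - Ψ^ (dTot x)` has components `∓ fracDer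 D_i (Ψ (x (I∖i) S))` (`exists_transport`), in `V (fS f S) (0 - |I∖i|) = V (fS f S) (1 - |I|)` (`der_stable`): so the induced map commutes with `d`. It is bijective on the steps of the filtration: `e_of_bij`, `ssiso_of_map`. -/
theorem ssi_psi (hV : VFam lam V) {g : Fin r → MvPowerSeries (Fin n) K}
    (Ψ : MvPowerSeries (Fin n) K ≃+* MvPowerSeries (Fin n) K)
    (hX : ∀ j, Ψ (X j) = X j) (hC : ∀ c, Ψ (C c) - C c ∈ mI n K 1) (hg : ∀ s, g s ≠ 0)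
    (hf : ∀ s, f s ≠ 0) (hfg : ∀ s, f s = Ψ (g s)) :
    Nonempty (SSIso (gSS hV hg) (gSS hV hf)) := by
  have h : Dc7_H Ψ g f := ⟨hX, hC, hg, hf, hfg⟩
  have hm : FMap (gSS hV hg) (gSS hV hf) (EtB_T h hV) :=
    ⟨fun p m x _ => EtB_T_d h hV x, fun p m x hx => EtB_T_F h hV p m x hx⟩
  have hinj : ∀ (p m : ℤ) (x : VT V g 0 ⧸ V1 V g), x ∈ (gSS hV hg).F p m →
      EtB_T h hV x = 0 → x = 0 := by
    intro p m x _ h0
    have h1 := EtB_T_symm h hV x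
    rw [h0, map_zero] at h1
    exact h1.symm
  have hsurj : ∀ (p m : ℤ) (y : VT V f 0 ⧸ V1 V f), y ∈ (gSS hV hf).F p m →
      ∃ x ∈ (gSS hV hg).F p m, EtB_T h hV x = y := fun p m y hy =>
    ⟨EtB_T h.symm hV y, EtB_T_F h.symm hV p m y hy, EtB_T_symm h.symm hV y⟩
  have hb := e_of_bij hm hinj hsurj 2
  exact ssiso_of_map (gSS_bounded hV hg) (gSS_bounded hV hf) hm hb.1 hb.2

end B5a
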