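import Pool.Agent.H.MP_b5a980_ag.CeV
import Pool.Agent.H.MP_b5a980_ag.EtA
import Pool.Agent.H.MP_b5a980_ag.EtB
import Pool.Agent.H.MP_b5a980_ag.SSE

set_option autoImplicit false
set_option linter.unusedSectionVars false
set_option linter.style.longLine false

/-!
The homology spectral sequences of two coefficient fields (MP_b5a980_ag).
-/

namespace B5a

universe u v w

open MvPowerSeries

variable {n r : ℕ} {K : Type u} [Field K]

/-- Proof. `exists_lam`, `exists_VFam`, `ssi_V0`, `ssi_g`, `ssi_psi`, `ssiso_symm`, `ssiso_trans`. -/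
theorem hom_main [CharZero K] {f g : Fin r → MvPowerSeries (Fin n) K}
    (Ψ : MvPowerSeries (Fin n) K ≃+* MvPowerSeries (Fin n) K)
    (hX : ∀ j, Ψ (X j) = X j) (hC : ∀ c, Ψ (C c) - C c ∈ mI n K 1) (hg : ∀ s, g s ≠ 0)
    (hf : ∀ s, f s ≠ 0) (hfg : ∀ s, f s = Ψ (g s)) :
    Nonempty (SSIso (homSS g) (homSS f)) := by
  obtain ⟨lam, hlam⟩ := exists_lam K
  obtain ⟨V, hV⟩ := exists_VFam (n := n) hlam
  exact ssiso_trans (ssiso_symm (ssi_V0 hlam hV hg)) (ssiso_trans (ssi_g hlam hV hg)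
    (ssiso_trans (ssi_psi hV Ψ hX hC hg hf hfg)
      (ssiso_trans (ssiso_symm (ssi_g hlam hV hf)) (ssi_V0 hlam hV hf))))

end B5a
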