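import Mathlib

set_option autoImplicit false
set_option linter.unusedSectionVars false
set_option linter.style.longLine false

/-!
Simple roots generate the maximal ideal locally (MP_b5a980_ag, A6).
-/

namespace B5a

universe u v w

/-- Every polynomial is congruent to its value modulo the `X_j - ρ_j`. -/
theorem Etale_cong {n : ℕ} {κ : Type v} [Field κ] (ρ : Fin n → κ) (F : MvPolynomial (Fin n) κ) :
    F - MvPolynomial.C (MvPolynomial.eval ρ F) ∈
      Ideal.span (Set.range fun j : Fin n => MvPolynomial.X j - MvPolynomial.C (ρ j)) := by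
  induction F using MvPolynomial.induction_on with
  | C a => simp
  | add p q hp hq =>
    have h : p + q - MvPolynomial.C (MvPolynomial.eval ρ (p + q)) =
        (p - MvPolynomial.C (MvPolynomial.eval ρ p)) +
          (q - MvPolynomial.C (MvPolynomial.eval ρ q)) := by
      rw [map_add, map_add]; ring
    rw [h]
    exact Ideal.add_mem _ hp hq
  | mul_X p i hp =>
    have h : p * MvPolynomial.X i - MvPolynomial.C (MvPolynomial.eval ρ (p * MvPolynomial.X i)) =
        MvPolynomial.X i * (p - MvPolynomial.C (MvPolynomial.eval ρ p)) +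
          MvPolynomial.C (MvPolynomial.eval ρ p) *
            (MvPolynomial.X i - MvPolynomial.C (ρ i)) := by
      rw [map_mul, MvPolynomial.eval_X, map_mul]; ring
    rw [h]
    exact Ideal.add_mem _ (Ideal.mul_mem_left _ _ hp)
      (Ideal.mul_mem_left _ _ (Ideal.subset_span ⟨i, rfl⟩))

/-- The statement over the big field. -/
theorem Etale_big {n : ℕ} {κ : Type v} [Field κ] (ρ : Fin n → κ) (P : Fin n → Polynomial κ)
    (h0 : ∀ j, (P j).eval (ρ j) = 0)
    (h1 : ∀ j, (Polynomial.derivative (P j)).eval (ρ j) ≠ 0)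
    (G : MvPolynomial (Fin n) κ) (hG : MvPolynomial.eval ρ G = 0) :
    ∃ Q : MvPolynomial (Fin n) κ, MvPolynomial.eval ρ Q ≠ 0 ∧
      Q * G ∈ Ideal.span (Set.range fun j =>
        Polynomial.eval₂ MvPolynomial.C (MvPolynomial.X j : MvPolynomial (Fin n) κ) (P j)) := by
  classical
  have hd : ∀ j, ∃ q : Polynomial κ, P j = (Polynomial.X - Polynomial.C (ρ j)) * q := fun j =>
    Polynomial.dvd_iff_isRoot.2 (h0 j)
  choose q hq using hd
  have hq0 : ∀ j, (q j).eval (ρ j) ≠ 0 := by
    intro j hj
    apply h1 j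
    rw [hq j, Polynomial.derivative_mul]
    simp [hj]
  set qq : Fin n → MvPolynomial (Fin n) κ := fun j =>
    Polynomial.eval₂ MvPolynomial.C (MvPolynomial.X j) (q j) with hqq
  have e1 : ∀ j, Polynomial.eval₂ MvPolynomial.C (MvPolynomial.X j : MvPolynomial (Fin n) κ) (P j) =
      (MvPolynomial.X j - MvPolynomial.C (ρ j)) * qq j := by
    intro j
    conv_lhs => rw [hq j]
    rw [Polynomial.eval₂_mul, Polynomial.eval₂_sub, Polynomial.eval₂_X, Polynomial.eval₂_C]
  have e2 : ∀ j, MvPolynomial.eval ρ (qq j) = (q j).eval (ρ j) := by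
    intro j
    rw [hqq]
    simp only
    rw [Polynomial.hom_eval₂, MvPolynomial.eval_X]
    have : (MvPolynomial.eval ρ).comp MvPolynomial.C = RingHom.id κ := by
      ext x; simp
    rw [this, Polynomial.eval₂_id]
  set J := Ideal.span (Set.range fun j =>
    Polynomial.eval₂ MvPolynomial.C (MvPolynomial.X j : MvPolynomial (Fin n) κ) (P j)) with hJ
  refine ⟨∏ j, qq j, ?_, ?_⟩
  · rw [map_prod]
    refine Finset.prod_ne_zero_iff.2 fun j _ => ?_
    rw [e2]
    exact hq0 j
  · have h2 : G ∈ Ideal.span (Set.range fun j : Fin n =>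
        (MvPolynomial.X j - MvPolynomial.C (ρ j) : MvPolynomial (Fin n) κ)) := by
      have h3 := Etale_cong ρ G
      rwa [hG, map_zero, sub_zero] at h3
    clear hG
    induction h2 using Submodule.span_induction with
    | mem x hx =>
      obtain ⟨j, rfl⟩ := hx
      have h4 : (∏ j, qq j) * (MvPolynomial.X j - MvPolynomial.C (ρ j)) =
          (∏ i ∈ Finset.univ.erase j, qq i) *
            Polynomial.eval₂ MvPolynomial.C (MvPolynomial.X j : MvPolynomial (Fin n) κ) (P j) := by
        rw [e1, ← Finset.mul_prod_erase Finset.univ qq (Finset.mem_univ j)]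
        ring
      show (∏ j, qq j) * (MvPolynomial.X j - MvPolynomial.C (ρ j)) ∈ J
      rw [h4, hJ]
      exact Ideal.mul_mem_left _ _ (Ideal.subset_span ⟨j, rfl⟩)
    | zero => rw [mul_zero]; exact Ideal.zero_mem _
    | add x y _ _ hx hy => rw [mul_add]; exact Ideal.add_mem _ hx hy
    | smul a x _ hx =>
      rw [smul_eq_mul, mul_left_comm]
      exact Ideal.mul_mem_left _ _ hx

/-- Application of a coordinate functional to the coefficients. -/
noncomputable def Etale_L {n : ℕ} {L : Type w} {κ : Type v} [Field L] [Field κ] [Algebra L κ]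
    (l : κ →ₗ[L] L) (F : MvPolynomial (Fin n) κ) : MvPolynomial (Fin n) L :=
  ∑ m ∈ F.support, MvPolynomial.monomial m (l (F.coeff m))

theorem Etale_coeff_L {n : ℕ} {L : Type w} {κ : Type v} [Field L] [Field κ] [Algebra L κ]
    (l : κ →ₗ[L] L) (F : MvPolynomial (Fin n) κ) (m : Fin n →₀ ℕ) :
    (Etale_L l F).coeff m = l (F.coeff m) := by
  classical
  rw [Etale_L, MvPolynomial.coeff_sum]
  simp only [MvPolynomial.coeff_monomial]
  rw [Finset.sum_ite_eq']
  split_ifs with h
  · rfl
  · rw [MvPolynomial.notMem_support_iff.1 h, map_zero]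

theorem Etale_L_mul {n : ℕ} {L : Type w} {κ : Type v} [Field L] [Field κ] [Algebra L κ]
    (l : κ →ₗ[L] L) (F : MvPolynomial (Fin n) κ) (g : MvPolynomial (Fin n) L) :
    Etale_L l (F * MvPolynomial.map (algebraMap L κ) g) = Etale_L l F * g := by
  classical
  ext m
  rw [Etale_coeff_L, MvPolynomial.coeff_mul, MvPolynomial.coeff_mul, map_sum]
  refine Finset.sum_congr rfl fun x _ => ?_
  rw [MvPolynomial.coeff_map, Etale_coeff_L, mul_comm, ← Algebra.smul_def, map_smul, smul_eq_mul,
    mul_comm]

theorem Etale_L_sum {n : ℕ} {L : Type w} {κ : Type v} [Field L] [Field κ] [Algebra L κ]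
    (l : κ →ₗ[L] L) {ι : Type} (s : Finset ι) (F : ι → MvPolynomial (Fin n) κ) :
    Etale_L l (∑ i ∈ s, F i) = ∑ i ∈ s, Etale_L l (F i) := by
  classical
  ext m
  rw [Etale_coeff_L, MvPolynomial.coeff_sum, MvPolynomial.coeff_sum, map_sum]
  exact Finset.sum_congr rfl fun x _ => (Etale_coeff_L l (F x) m).symm

theorem Etale_L_ne {n : ℕ} {L : Type w} {κ : Type v} [Field L] [Field κ] [Algebra L κ]
    (ρ : Fin n → κ) (Q : MvPolynomial (Fin n) κ) (hQ : MvPolynomial.eval ρ Q ≠ 0) :
    ∃ l : κ →ₗ[L] L, MvPolynomial.aeval ρ (Etale_L l Q) ≠ 0 := by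
  classical
  by_contra hcon
  push Not at hcon
  apply hQ
  set b := Module.Basis.ofVectorSpace L κ with hb
  set T := Q.support.biUnion fun m => (b.repr (Q.coeff m)).support with hT
  have h1 : ∀ m ∈ Q.support, Q.coeff m = ∑ t ∈ T, (b.coord t (Q.coeff m)) • b t := by
    intro m hm
    have h2 := b.linearCombination_repr (Q.coeff m)
    rw [Finsupp.linearCombination_apply, Finsupp.sum_of_support_subset (s := T)] at h2
    · exact h2.symm
    · intro t ht
      exact Finset.mem_biUnion.2 ⟨m, hm, ht⟩
    · intro t _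
      exact zero_smul _ _
  have h3 : ∀ t, ∑ m ∈ Q.support, (algebraMap L κ (b.coord t (Q.coeff m))) *
      ∏ i, ρ i ^ m i = 0 := by
    intro t
    have h4 := hcon (b.coord t)
    rw [Etale_L, map_sum] at h4
    rw [← h4]
    refine Finset.sum_congr rfl fun m _ => ?_
    rw [MvPolynomial.aeval_monomial, Finsupp.prod_fintype]
    intro i
    exact pow_zero _
  rw [MvPolynomial.eval_eq']
  calc ∑ m ∈ Q.support, Q.coeff m * ∏ i, ρ i ^ m i
      = ∑ m ∈ Q.support, ∑ t ∈ T, b t * ((algebraMap L κ (b.coord t (Q.coeff m))) *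
          ∏ i, ρ i ^ m i) := by
        refine Finset.sum_congr rfl fun m hm => ?_
        conv_lhs => rw [h1 m hm]
        rw [Finset.sum_mul]
        refine Finset.sum_congr rfl fun t _ => ?_
        rw [Algebra.smul_def]
        ring
    _ = ∑ t ∈ T, b t * ∑ m ∈ Q.support, (algebraMap L κ (b.coord t (Q.coeff m))) *
          ∏ i, ρ i ^ m i := by
        rw [Finset.sum_comm]
        refine Finset.sum_congr rfl fun t _ => ?_
        rw [Finset.mul_sum]
    _ = 0 := by
        refine Finset.sum_eq_zero fun t _ => ?_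
        rw [h3 t, mul_zero]

/-- Descent to the small field. -/
theorem Etale_descent {n : ℕ} {L : Type w} {κ : Type v} [Field L] [Field κ] [Algebra L κ]
    (ρ : Fin n → κ) (p : Fin n → MvPolynomial (Fin n) L) (G : MvPolynomial (Fin n) L)
    (Q : MvPolynomial (Fin n) κ) (hQ : MvPolynomial.eval ρ Q ≠ 0)
    (h : Q * MvPolynomial.map (algebraMap L κ) G ∈
      Ideal.span (Set.range fun j => MvPolynomial.map (algebraMap L κ) (p j))) :
    ∃ (H : MvPolynomial (Fin n) L) (a : Fin n → MvPolynomial (Fin n) L),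
      MvPolynomial.aeval ρ H ≠ 0 ∧ ∑ j, a j * p j = H * G := by
  classical
  obtain ⟨c, hc⟩ := Ideal.mem_span_range_iff_exists_fun.1 h
  obtain ⟨l, hl⟩ := Etale_L_ne (L := L) ρ Q hQ
  refine ⟨Etale_L l Q, fun j => Etale_L l (c j), hl, ?_⟩
  rw [← Etale_L_mul, ← hc, Etale_L_sum]
  exact Finset.sum_congr rfl fun j _ => (Etale_L_mul l (c j) (p j)).symm

/-- Clearing denominators. -/
theorem Etale_clear {n : ℕ} {A : Type u} {κ : Type v} [CommRing A] [IsDomain A] [Field κ]
    [Algebra (FractionRing A) κ] (ρ : Fin n → κ) (p : Fin n → MvPolynomial (Fin n) A)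
    (G : MvPolynomial (Fin n) A) (H : MvPolynomial (Fin n) (FractionRing A))
    (a : Fin n → MvPolynomial (Fin n) (FractionRing A)) (hH : MvPolynomial.aeval ρ H ≠ 0)
    (h : ∑ j, a j * MvPolynomial.map (algebraMap A (FractionRing A)) (p j) =
      H * MvPolynomial.map (algebraMap A (FractionRing A)) G) :
    ∃ H' : MvPolynomial (Fin n) A,
      MvPolynomial.aeval ρ (MvPolynomial.map (algebraMap A (FractionRing A)) H') ≠ 0 ∧
      H' * G ∈ Ideal.span (Set.range p) := by
  classical
  set ι := MvPolynomial.map (σ := Fin n) (algebraMap A (FractionRing A)) with hι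
  have hinj : Function.Injective ι :=
    MvPolynomial.map_injective _ (IsFractionRing.injective A (FractionRing A))
  set s : Finset (FractionRing A) := H.support.image (fun m => H.coeff m) ∪
    Finset.univ.biUnion fun j => (a j).support.image (fun m => (a j).coeff m) with hs
  obtain ⟨b, hb⟩ := IsLocalization.exist_integer_multiples_of_finset (nonZeroDivisors A) s
  have hb0 : (b : A) ≠ 0 := nonZeroDivisors.coe_ne_zero b
  have hb1 : algebraMap A (FractionRing A) b ≠ 0 := by
    intro h0
    exact hb0 ((IsFractionRing.injective A (FractionRing A)) (by rw [h0, map_zero]))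
  have key : ∀ F : MvPolynomial (Fin n) (FractionRing A), (∀ m ∈ F.support, F.coeff m ∈ s) →
      ∃ F' : MvPolynomial (Fin n) A,
        ι F' = MvPolynomial.C (algebraMap A (FractionRing A) b) * F := by
    intro F hF
    have h1 : ∀ m, ∃ x : A, m ∈ F.support →
        algebraMap A (FractionRing A) x = (b : A) • F.coeff m := by
      intro m
      by_cases hm : m ∈ F.support
      · obtain ⟨x, hx⟩ := hb _ (hF m hm)
        exact ⟨x, fun _ => hx⟩
      · exact ⟨0, fun h2 => absurd h2 hm⟩
    choose f hf using h1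
    refine ⟨∑ m ∈ F.support, MvPolynomial.monomial m (f m), ?_⟩
    rw [map_sum]
    ext m
    rw [MvPolynomial.coeff_sum, MvPolynomial.coeff_C_mul]
    simp only [hι, MvPolynomial.map_monomial, MvPolynomial.coeff_monomial]
    rw [Finset.sum_ite_eq']
    split_ifs with hm
    · rw [hf m hm, Algebra.smul_def]
    · rw [MvPolynomial.notMem_support_iff.1 hm, mul_zero]
  obtain ⟨H', hH'⟩ := key H fun m hm =>
    Finset.mem_union_left _ (Finset.mem_image_of_mem _ hm)
  have h2 : ∀ j, ∃ a' : MvPolynomial (Fin n) A,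
      ι a' = MvPolynomial.C (algebraMap A (FractionRing A) b) * a j := fun j =>
    key (a j) fun m hm => Finset.mem_union_right _
      (Finset.mem_biUnion.2 ⟨j, Finset.mem_univ j, Finset.mem_image_of_mem _ hm⟩)
  choose a' ha' using h2
  refine ⟨H', ?_, ?_⟩
  · rw [hH', map_mul, MvPolynomial.aeval_C]
    refine mul_ne_zero ?_ hH
    intro h0
    exact hb1 ((algebraMap (FractionRing A) κ).injective (by rw [h0, map_zero]))
  · rw [Ideal.mem_span_range_iff_exists_fun]
    refine ⟨a', hinj ?_⟩
    rw [map_sum, map_mul, hH', mul_assoc, ← h, Finset.mul_sum]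
    refine Finset.sum_congr rfl fun j _ => ?_
    rw [map_mul, ha', mul_assoc]

/-- Let `A -> κ` be an injective homomorphism from a domain to a field, `ρ_j` elements of `κ` and
`P_j` polynomials over `A` with a simple root at `ρ_j`. If `G(ρ) = 0` then `H G` lies in the ideal
generated by the `P_j(X_j)` for some `H` with `H(ρ) ≠ 0`. -/
theorem etale_lemma {n : ℕ} {A : Type u} {κ : Type v} [CommRing A] [IsDomain A] [Field κ]
    (φ : A →+* κ) (hφ : Function.Injective φ) (ρ : Fin n → κ) (P : Fin n → Polynomial A)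
    (h0 : ∀ j, (P j).eval₂ φ (ρ j) = 0)
    (h1 : ∀ j, (Polynomial.derivative (P j)).eval₂ φ (ρ j) ≠ 0)
    (G : MvPolynomial (Fin n) A) (hG : MvPolynomial.eval₂ φ ρ G = 0) :
    ∃ H : MvPolynomial (Fin n) A, MvPolynomial.eval₂ φ ρ H ≠ 0 ∧
      H * G ∈ Ideal.span (Set.range fun j =>
        Polynomial.eval₂ MvPolynomial.C (MvPolynomial.X j : MvPolynomial (Fin n) A) (P j)) := by
  let _ : Algebra (FractionRing A) κ := (IsFractionRing.lift hφ).toAlgebra
  have hφ1 : (algebraMap (FractionRing A) κ).comp (algebraMap A (FractionRing A)) = φ := by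
    ext x
    exact IsFractionRing.lift_algebraMap hφ x
  obtain ⟨Q, hQ, hQG⟩ := Etale_big ρ (fun j => (P j).map φ)
    (fun j => by rw [Polynomial.eval_map]; exact h0 j)
    (fun j => by rw [Polynomial.derivative_map, Polynomial.eval_map]; exact h1 j)
    (MvPolynomial.map φ G) (by rw [MvPolynomial.eval_map]; exact hG)
  have e1 : ∀ j, Polynomial.eval₂ MvPolynomial.C (MvPolynomial.X j : MvPolynomial (Fin n) κ)
      ((P j).map φ) = MvPolynomial.map (algebraMap (FractionRing A) κ)
        (MvPolynomial.map (algebraMap A (FractionRing A))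
          (Polynomial.eval₂ MvPolynomial.C (MvPolynomial.X j : MvPolynomial (Fin n) A) (P j))) := by
    intro j
    rw [MvPolynomial.map_map, hφ1, Polynomial.eval₂_map, Polynomial.hom_eval₂, MvPolynomial.map_X]
    congr 1
    ext x
    simp
  have hQG' : Q * MvPolynomial.map (algebraMap (FractionRing A) κ)
      (MvPolynomial.map (algebraMap A (FractionRing A)) G) ∈ Ideal.span (Set.range fun j =>
        MvPolynomial.map (algebraMap (FractionRing A) κ)
        (MvPolynomial.map (algebraMap A (FractionRing A))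
          (Polynomial.eval₂ MvPolynomial.C (MvPolynomial.X j : MvPolynomial (Fin n) A) (P j)))) := by
    rw [MvPolynomial.map_map, hφ1]
    convert hQG using 4
    exact (e1 _).symm
  obtain ⟨H, a, hH, ha⟩ := Etale_descent ρ _ _ Q hQ hQG'
  obtain ⟨H', hH', hHG⟩ := Etale_clear ρ _ G H a hH ha
  refine ⟨H', ?_, hHG⟩
  rw [MvPolynomial.aeval_def, MvPolynomial.eval₂_map, hφ1] at hH'
  exact hH'

end B5a
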