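import Pool.Agent.H.MP_b5a980_ag.CeB

set_option autoImplicit false
set_option linter.unusedSectionVars false
set_option linter.style.longLine false

/-!
Local cohomology modules, their de Rham cohomology and the numbers rho: definitions (MP_b5a980_ag).
-/

namespace B5a

universe u v w

open MvPowerSeries

variable {n : ℕ} {K : Type u} [Field K] {M : Type v} [AddCommGroup M]
  [Module (MvPowerSeries (Fin n) K) M] [Module K M] [IsScalarTower K (MvPowerSeries (Fin n) K) M]

/-- The de Rham cohomology in degree `p` of a module with connection: closed `p`-forms modulo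
differentials of `(p-1)`-forms. -/
noncomputable def dRZ (C : Conn n K M) (p : ℤ) : Submodule K (Fm n M) where
  carrier := {ω | IsFm p ω ∧ dR C ω = 0}
  add_mem' := by
    rintro x y ⟨hx, hx'⟩ ⟨hy, hy'⟩
    refine ⟨fun I h => ?_, ?_⟩
    · rw [Pi.add_apply, hx I h, hy I h, add_zero]
    · rw [map_add, hx', hy', add_zero]
  zero_mem' := ⟨fun _ _ => rfl, map_zero _⟩
  smul_mem' := by
    rintro c x ⟨hx, hx'⟩
    refine ⟨fun I h => ?_, ?_⟩
    · rw [Pi.smul_apply, hx I h, smul_zero]
    · rw [map_smul, hx', smul_zero]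

/-- exact forms of degree `p` -/
noncomputable def dRB (C : Conn n K M) (p : ℤ) : Submodule K (Fm n M) where
  carrier := {ω | ∃ η : Fm n M, IsFm (p - 1) η ∧ ω = dR C η}
  add_mem' := by
    rintro x y ⟨a, ha, rfl⟩ ⟨b, hb, rfl⟩
    refine ⟨a + b, fun I h => ?_, (map_add _ _ _).symm⟩
    rw [Pi.add_apply, ha I h, hb I h, add_zero]
  zero_mem' := ⟨0, fun _ _ => rfl, (map_zero _).symm⟩
  smul_mem' := by
    rintro c x ⟨a, ha, rfl⟩
    refine ⟨c • a, fun I h => ?_, (map_smul _ _ _).symm⟩
    rw [Pi.smul_apply, ha I h, smul_zero]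

/-- `H^p_dR(M)` -/
abbrev HdR (C : Conn n K M) (p : ℤ) : Type v := (dRZ C p) ⧸ (dRB C p).comap (dRZ C p).subtype

variable {r : ℕ}

/-- Cech cocycles of degree `q` -/
noncomputable def Zq (f : Fin r → MvPowerSeries (Fin n) K) (q : ℤ) :
    Submodule (MvPowerSeries (Fin n) K) (Fm r (FF n K)) := Lq f q ⊓ LinearMap.ker (cech n r K)

/-- The local cohomology module `H^q_I(R)`, `I` the ideal generated by the `f_s`: Cech cocycles modulo
Cech coboundaries. -/
abbrev LC (f : Fin r → MvPowerSeries (Fin n) K) (q : ℤ) : Type u :=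
  (Zq f q) ⧸ ((Lq f (q - 1)).map (cech n r K)).comap (Zq f q).subtype

theorem Hd0_Lq (f : Fin r → MvPowerSeries (Fin n) K) (q : ℤ) (i : Fin n) {φ : Fm r (FF n K)}
    (h : φ ∈ Lq f q) : (cconn n r K).nab i φ ∈ Lq f q := by
  intro S
  refine ⟨dF_mem_loc' _ i (h S).1, fun h1 => ?_⟩
  change dF n K i (φ S) = 0
  rw [(h S).2 h1, map_zero]

/-- The connection on cocycles. -/
noncomputable def zconn (f : Fin r → MvPowerSeries (Fin n) K) (q : ℤ) : Conn n K (Zq f q) where
  nab i :=
    { toFun := fun x => ⟨(cconn n r K).nab i x, by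
        refine ⟨Hd0_Lq f q i x.2.1, ?_⟩
        have h1 : cech n r K (x : Fm r (FF n K)) = 0 := x.2.2
        change cech n r K ((cconn n r K).nab i x) = 0
        rw [cech_nab, h1, map_zero]⟩
      map_add' := by
        intro x y
        exact Subtype.ext (map_add _ _ _)
      map_smul' := by
        intro c x
        exact Subtype.ext (map_smul _ _ _) }
  leib := by
    intro i a x
    exact Subtype.ext ((cconn n r K).leib i a _)
  comm := by
    intro i j x
    exact Subtype.ext ((cconn n r K).comm i j _)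

/-- Cech coboundaries inside the cocycles. -/
noncomputable abbrev Bq (f : Fin r → MvPowerSeries (Fin n) K) (q : ℤ) :
    Submodule (MvPowerSeries (Fin n) K) (Zq f q) :=
  ((Lq f (q - 1)).map (cech n r K)).comap (Zq f q).subtype

theorem zconn_mem_Bq (f : Fin r → MvPowerSeries (Fin n) K) (q : ℤ) (i : Fin n) (x : Zq f q)
    (hx : x ∈ Bq f q) : (zconn f q).nab i x ∈ Bq f q := by
  obtain ⟨y, hy, hyx⟩ := hx
  refine ⟨(cconn n r K).nab i y, Hd0_Lq f (q - 1) i hy, ?_⟩
  rw [cech_nab, hyx]
  rfl

/-- The connection on `H^q_I(R)` induced by the derivatives. -/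
noncomputable def LCconn (f : Fin r → MvPowerSeries (Fin n) K) (q : ℤ) : Conn n K (LC f q) where
  nab i := (Submodule.Quotient.restrictScalarsEquiv K (Bq f q)).toLinearMap ∘ₗ
    (Submodule.mapQ ((Bq f q).restrictScalars K) ((Bq f q).restrictScalars K) ((zconn f q).nab i)
      fun x hx => zconn_mem_Bq f q i x hx) ∘ₗ
    (Submodule.Quotient.restrictScalarsEquiv K (Bq f q)).symm.toLinearMap
  leib := by
    intro i a x
    obtain ⟨x, rfl⟩ := Submodule.Quotient.mk_surjective (Bq f q) x
    exact congrArg (Submodule.Quotient.mk (p := Bq f q)) ((zconn f q).leib i a x)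
  comm := by
    intro i j x
    obtain ⟨x, rfl⟩ := Submodule.Quotient.mk_surjective (Bq f q) x
    exact congrArg (Submodule.Quotient.mk (p := Bq f q)) ((zconn f q).comm i j x)

theorem LCconn_mk (f : Fin r → MvPowerSeries (Fin n) K) (q : ℤ) (i : Fin n) (x : Zq f q) :
    (LCconn f q).nab i (Submodule.Quotient.mk x) = Submodule.Quotient.mk ((zconn f q).nab i x) :=
  rfl

/-- `rho_(p,q)`: the dimension of the de Rham cohomology in degree `n - p` of `H^(n-q)_I(R)`. -/
noncomputable def rhoPQ (f : Fin r → MvPowerSeries (Fin n) K) (p q : ℤ) : ℕ :=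
  Module.finrank K (HdR (LCconn f ((n : ℤ) - q)) ((n : ℤ) - p))

end B5a
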