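import Pool.Agent.H.MP_b5a980_ag.SS0

set_option autoImplicit false
set_option linter.unusedSectionVars false
set_option linter.style.longLine false

/-!
Spectral sequences: elementary facts (MP_b5a980_ag).
-/

namespace B5a

universe u v w

namespace FCx

variable {K : Type u} [Field K] {T : Type v} [AddCommGroup T] [Module K T] (X : FCx K T)

theorem Z_anti (r p m : ℤ) : X.Z (r + 1) p m ≤ X.Z r p m := by
  intro x hx
  exact ⟨hx.1, X.F_le (by omega) (m + 1) hx.2⟩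

theorem SSA_mem_F_congr {p p' m m' : ℤ} (hp : p = p') (hm : m = m') {x : T} (h : x ∈ X.F p m) :
    x ∈ X.F p' m' := by
  subst hp; subst hm; exact h

/-- Proof. `Z_(r-1)^(p+1) ≤ Z_r^p` since `(p+1)+(r-1) = p+r`; for `d y`, `y ∈ Z_(r-1)^(p-r+1)`: `d y ∈ F^p`, `d (d y) = 0`. -/
theorem B_le_Z (r p m : ℤ) : X.B r p m ≤ X.Z r p m := by
  refine sup_le ?_ ?_
  · intro a ha
    exact ⟨X.F_le (by omega) m ha.1, X.SSA_mem_F_congr (by ring) rfl ha.2⟩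
  · rintro _ ⟨b, hb, rfl⟩
    refine ⟨X.SSA_mem_F_congr (by ring) (by ring) hb.2, ?_⟩
    show X.d (X.d b) ∈ X.F (p + r) (m + 1)
    rw [X.dd _ _ b hb.1]
    exact Submodule.zero_mem _

theorem cls_eq_iff {r p m : ℤ} {z z' : T} (hz : z ∈ X.Z r p m) (hz' : z' ∈ X.Z r p m) :
    X.cls r p m z hz = X.cls r p m z' hz' ↔ z - z' ∈ X.B r p m := by
  unfold cls
  rw [Submodule.Quotient.eq]
  rfl

theorem exists_cls {r p m : ℤ} (x : X.E r p m) : ∃ z, ∃ hz : z ∈ X.Z r p m, x = X.cls r p m z hz := by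
  obtain ⟨⟨z, hz⟩, h⟩ := Submodule.Quotient.mk_surjective _ x
  exact ⟨z, hz, h.symm⟩

theorem dE_cls {r p m : ℤ} {z : T} (hz : z ∈ X.Z r p m) :
    X.dE r p m (X.cls r p m z hz) = X.cls r (p + r) (m + 1) (X.d z) (X.d_mem_Z hz) := by
  rfl

/-- Proof. `x = a + d b`, `a ∈ Z_(r-1)^(p+1)`, `b ∈ Z_(r-1)^(p-r+1)`. `d a = d x ∈ F^(p+r+1)`, so `a ∈ Z_r^(p+1)`. `b ∈ F^(p-r+1) ≤ F^(p-r)` and `d b ∈ F^p = F^((p-r)+r)`, so `b ∈ Z_r^(p-r)`. -/
theorem mem_B_succ {r p m : ℤ} {x : T} (hx : x ∈ X.B r p m) (hx' : x ∈ X.Z (r + 1) p m) :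
    x ∈ X.B (r + 1) p m := by
  obtain ⟨a, ha, c, hc, rfl⟩ := Submodule.mem_sup.mp hx
  obtain ⟨b, hb, rfl⟩ := hc
  have h2 : X.d (X.d b) = 0 := X.dd _ _ b hb.1
  refine Submodule.add_mem_sup ⟨ha.1, ?_⟩ ⟨b, ⟨X.F_le (by omega) _ hb.1, ?_⟩, rfl⟩
  · have h3 : X.d (a + X.d b) ∈ X.F (p + (r + 1)) (m + 1) := hx'.2
    rw [map_add, h2, add_zero] at h3
    exact X.SSA_mem_F_congr (by ring) rfl h3
  · exact X.SSA_mem_F_congr (by ring) rfl hb.2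

/-- Cycles of the page `E_r` are represented in `Z_(r+1)`.

Proof. `d x = a + d b`, `a ∈ Z_(r-1)^(p+r+1, m+1)`, `b ∈ Z_(r-1)^(p+1, m)`. `x' = x - b`: `d x' = a ∈ F^(p+r+1)`; `x - x' = b ∈ B_r^p`. -/
theorem exists_rep {r p m : ℤ} {x : T} (hx : x ∈ X.Z r p m) (hd : X.d x ∈ X.B r (p + r) (m + 1)) :
    ∃ x' ∈ X.Z (r + 1) p m, x - x' ∈ X.B r p m ∧ x - x' ∈ X.Z (r - 1) (p + 1) m := by
  obtain ⟨a, ha, c, hc, hac⟩ := Submodule.mem_sup.mp hd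
  obtain ⟨b, hb, rfl⟩ := hc
  have hb' : b ∈ X.Z (r - 1) (p + 1) m :=
    ⟨X.SSA_mem_F_congr (by ring) (by ring) hb.1, X.SSA_mem_F_congr (by ring) (by ring) hb.2⟩
  have e : x - (x - b) = b := by abel
  refine ⟨x - b, ⟨Submodule.sub_mem _ hx.1 (X.F_le (by omega) m hb'.1), ?_⟩, ?_, ?_⟩
  · show X.d (x - b) ∈ X.F (p + (r + 1)) (m + 1)
    have h : X.d (x - b) = a := by rw [map_sub, ← hac]; abel
    rw [h]
    exact X.SSA_mem_F_congr (by ring) rfl ha.1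
  · rw [e]; exact Submodule.mem_sup_left hb'
  · rw [e]; exact hb'

/-- Proof. The family `F p m` is decreasing in `p`, so directed; with `Bounded` it is `F 0 m`. -/
theorem Tot_eq {n : ℤ} (h : X.Bounded n) (m : ℤ) : X.Tot m = X.F 0 m := by
  apply le_antisymm
  · refine iSup_le fun p => ?_
    rcases le_total p 0 with hp | hp
    · exact (h.1 p m hp).le
    · exact X.F_le hp m
  · exact le_iSup (fun p => X.F p m) 0

theorem mem_Tot_of_mem {p m : ℤ} {x : T} (h : x ∈ X.F p m) : x ∈ X.Tot m :=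
  le_iSup (fun p => X.F p m) p h

theorem hcls_eq_iff {m : ℤ} {z z' : T} (hz : z ∈ X.Cyc m) (hz' : z' ∈ X.Cyc m) :
    X.hcls m z hz = X.hcls m z' hz' ↔ z - z' ∈ X.Bd m := by
  unfold hcls
  rw [Submodule.Quotient.eq]
  rfl

end FCx

end B5a
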