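import Pool.Agent.H.MP_b5a980_ag.EsA
import Pool.Agent.H.MP_b5a980_ag.Hd0
import Pool.Agent.H.MP_b5a980_ag.SSA

set_option autoImplicit false
set_option linter.unusedSectionVars false
set_option linter.style.longLine false

/-!
The second page is the de Rham cohomology of the local cohomology modules (MP_b5a980_ag).
-/

namespace B5a

universe u v w

open MvPowerSeries

variable {n r : ℕ} {K : Type u} [Field K]

theorem HdA_cmp_pos {M : Type v} [Zero M] {p : ℤ} (φ : Fm n M) {I : Finset (Fin n)}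
    (h : (I.card : ℤ) = p) : cmp p φ I = φ I := if_pos h

theorem HdA_cmp_neg {M : Type v} [Zero M] {p : ℤ} (φ : Fm n M) {I : Finset (Fin n)}
    (h : (I.card : ℤ) ≠ p) : cmp p φ I = 0 := if_neg h

theorem HdA_sdel_apply (φ : Fm n (Fm r (FF n K))) (I : Finset (Fin n)) :
    sdel n r K φ I = ((-1 : ℤ) ^ I.card) • cech n r K (φ I) := rfl

theorem HdA_dR_apply {M : Type v} [AddCommGroup M] [Module (MvPowerSeries (Fin n) K) M] [Module K M]
    [IsScalarTower K (MvPowerSeries (Fin n) K) M] (C : Conn n K M) (ω : Fm n M)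
    (I : Finset (Fin n)) : dR C ω I = ∑ i ∈ I, sg i I • C.nab i (ω (I.erase i)) := rfl

theorem HdA_unit {M : Type v} [AddCommGroup M] (k : ℕ) {x : M} (h : ((-1 : ℤ) ^ k) • x = 0) :
    x = 0 := by
  rcases neg_one_pow_eq_or ℤ k with h1 | h1
  · rwa [h1, one_smul] at h
  · rw [h1, neg_smul, one_smul, neg_eq_zero] at h
    exact h

theorem HdA_sneg {X M : Type*} [AddCommGroup M] (a : ℤ) (x : X → M) : a • (-x) = -(a • x) :=
  smul_neg a x

theorem HdA_unit_sq {X M : Type*} [AddCommGroup M] (k : ℕ) (x : X → M) :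
    ((-1 : ℤ) ^ k) • ((-1 : ℤ) ^ k) • x = x := by
  rw [smul_smul, ← pow_add, ← two_mul, pow_mul, neg_one_sq, one_pow, one_smul]

theorem HdA_cmp_dR {M : Type v} [AddCommGroup M] [Module (MvPowerSeries (Fin n) K) M] [Module K M]
    [IsScalarTower K (MvPowerSeries (Fin n) K) M] (C : Conn n K M) (p : ℤ) (ω : Fm n M) :
    cmp p (dR C ω) = dR C (cmp (p - 1) ω) := by
  funext I
  rw [HdA_dR_apply]
  by_cases h : (I.card : ℤ) = p
  · rw [HdA_cmp_pos _ h, HdA_dR_apply]
    refine Finset.sum_congr rfl fun i hi => ?_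
    have h1 := Finset.card_erase_add_one hi
    rw [HdA_cmp_pos]
    omega
  · rw [HdA_cmp_neg _ h]
    symm
    refine Finset.sum_eq_zero fun i hi => ?_
    have h1 := Finset.card_erase_add_one hi
    rw [HdA_cmp_neg, map_zero, smul_zero]
    omega

theorem HdA_cmp_sdel (p : ℤ) (φ : Fm n (Fm r (FF n K))) :
    cmp p (sdel n r K φ) = sdel n r K (cmp p φ) := by
  funext I
  rw [HdA_sdel_apply]
  by_cases h : (I.card : ℤ) = p
  · rw [HdA_cmp_pos _ h, HdA_cmp_pos _ h, HdA_sdel_apply]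
  · rw [HdA_cmp_neg _ h, HdA_cmp_neg _ h, map_zero, CeA_z0']

theorem HdA_cmp_add {M : Type v} [AddCommGroup M] (p : ℤ) (φ ψ : Fm n M) :
    cmp p (φ + ψ) = cmp p φ + cmp p ψ := by
  funext I
  rw [Pi.add_apply]
  by_cases h : (I.card : ℤ) = p
  · rw [HdA_cmp_pos _ h, HdA_cmp_pos _ h, HdA_cmp_pos _ h, Pi.add_apply]
  · rw [HdA_cmp_neg _ h, HdA_cmp_neg _ h, HdA_cmp_neg _ h, add_zero]

theorem HdA_cmp_isFm {M : Type v} [AddCommGroup M] (p : ℤ) (φ : Fm n M) : IsFm p (cmp p φ) :=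
  fun _ h => HdA_cmp_neg φ h

theorem HdA_cmp_dTot (p : ℤ) (φ : Fm n (Fm r (FF n K))) :
    cmp p (dTot n r K φ) = dR (cconn n r K) (cmp (p - 1) φ) + sdel n r K (cmp p φ) := by
  have h : dTot n r K φ = dR (cconn n r K) φ + sdel n r K φ := rfl
  rw [h, HdA_cmp_add, HdA_cmp_dR, HdA_cmp_sdel]

variable (f : Fin r → MvPowerSeries (Fin n) K)

/-- coercion of forms with values in the cocycles -/
def HdA_co (q : ℤ) (y : Fm n (Zq f q)) : Fm n (Fm r (FF n K)) := fun I => (y I : Fm r (FF n K))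

/-- classes of forms with values in the cocycles -/
noncomputable def HdA_be (q : ℤ) : Fm n (Zq f q) →ₗ[K] Fm n (LC f q) where
  toFun y := fun I => Submodule.Quotient.mk (y I)
  map_add' _ _ := rfl
  map_smul' _ _ := rfl

theorem HdA_co_dR (q : ℤ) (y : Fm n (Zq f q)) :
    HdA_co f q (dR (zconn f q) y) = dR (cconn n r K) (HdA_co f q y) := by
  funext I
  change (Zq f q).subtype (∑ i ∈ I, sg i I • (zconn f q).nab i (y (I.erase i))) = _
  rw [map_sum]
  refine Finset.sum_congr rfl fun i _ => ?_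
  rw [map_zsmul]
  rfl

theorem HdA_be_dR (q : ℤ) (y : Fm n (Zq f q)) :
    HdA_be f q (dR (zconn f q) y) = dR (LCconn f q) (HdA_be f q y) := by
  funext I
  change (Bq f q).mkQ (∑ i ∈ I, sg i I • (zconn f q).nab i (y (I.erase i))) = _
  rw [map_sum]
  refine Finset.sum_congr rfl fun i _ => ?_
  rw [map_zsmul]
  congr 1

theorem HdA_mk_eq_zero (q : ℤ) (y : Zq f q) :
    (Submodule.Quotient.mk y : LC f q) = 0 ↔
      ∃ t ∈ Lq f (q - 1), cech n r K t = (y : Fm r (FF n K)) := by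
  rw [Submodule.Quotient.mk_eq_zero, Submodule.mem_comap, Submodule.mem_map]
  rfl

theorem HdA_val {p q : ℤ} {φ : Fm n (Fm r (FF n K))} (h : φ ∈ (homSS f).Z 2 p (p + q))
    (I : Finset (Fin n)) : cmp p φ I ∈ Zq f q := by
  have h1 := (mem_Z2_iff h.1).1 h
  by_cases hI : (I.card : ℤ) = p
  · refine ⟨?_, ?_⟩
    · rw [HdA_cmp_pos _ hI]
      have h2 := ((mem_totF_iff p (p + q) φ).1 h.1).1 I
      rwa [hI, add_sub_cancel_left] at h2
    · have h2 := congrFun h1.1 I
      rw [HdA_sdel_apply] at h2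
      exact LinearMap.mem_ker.2 (HdA_unit _ h2)
  · rw [HdA_cmp_neg _ hI]
    exact Submodule.zero_mem _

/-- the leading component -/
noncomputable def HdA_al (p q : ℤ) : (homSS f).Z 2 p (p + q) →ₗ[K] Fm n (Zq f q) where
  toFun φ := fun I => ⟨cmp p (φ : Fm n (Fm r (FF n K))) I, HdA_val f φ.2 I⟩
  map_add' φ ψ := by
    funext I
    apply Subtype.ext
    change cmp p ((φ : Fm n (Fm r (FF n K))) + (ψ : Fm n (Fm r (FF n K)))) I = cmp p (φ : Fm n (Fm r (FF n K))) I + cmp p (ψ : Fm n (Fm r (FF n K))) I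
    rw [HdA_cmp_add]
    rfl
  map_smul' c φ := by
    funext I
    apply Subtype.ext
    change cmp p (c • (φ : Fm n (Fm r (FF n K)))) I = c • cmp p (φ : Fm n (Fm r (FF n K))) I
    by_cases h : (I.card : ℤ) = p
    · rw [HdA_cmp_pos _ h, HdA_cmp_pos _ h, Pi.smul_apply]
    · rw [HdA_cmp_neg _ h, HdA_cmp_neg _ h, smul_zero]

theorem HdA_co_al (p q : ℤ) (φ : (homSS f).Z 2 p (p + q)) :
    HdA_co f q (HdA_al f p q φ) = cmp p (φ : Fm n (Fm r (FF n K))) := rfl

theorem HdA_closed (p q : ℤ) (φ : (homSS f).Z 2 p (p + q)) :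
    HdA_be f q (HdA_al f p q φ) ∈ dRZ (LCconn f q) p := by
  refine ⟨?_, ?_⟩
  · intro I hI
    change (Submodule.Quotient.mk (HdA_al f p q φ I) : LC f q) = 0
    have h1 : HdA_al f p q φ I = 0 := Subtype.ext (HdA_cmp_neg _ hI)
    rw [h1]
    rfl
  · rw [← HdA_be_dR]
    funext I
    change (Submodule.Quotient.mk (dR (zconn f q) (HdA_al f p q φ) I) : LC f q) = 0
    rw [HdA_mk_eq_zero]
    have h1 : ((dR (zconn f q) (HdA_al f p q φ) I : Zq f q) : Fm r (FF n K)) =
        dR (cconn n r K) (cmp p (φ : Fm n (Fm r (FF n K)))) I :=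
      congrFun ((HdA_co_dR f q (HdA_al f p q φ)).trans (by rw [HdA_co_al])) I
    have h2 := ((mem_Z2_iff φ.2.1).1 φ.2).2
    have h3 := congrFun (eq_neg_of_add_eq_zero_left h2) I
    refine ⟨-(((-1 : ℤ) ^ I.card) • cmp (p + 1) (φ : Fm n (Fm r (FF n K))) I), ?_, ?_⟩
    · refine Submodule.neg_mem _ (zsmul_mem ?_ _)
      by_cases hI : (I.card : ℤ) = p + 1
      · rw [HdA_cmp_pos _ hI]
        have h4 := ((mem_totF_iff p (p + q) _).1 φ.2.1).1 I
        have e : p + q - (I.card : ℤ) = q - 1 := by rw [hI]; ring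
        rwa [e] at h4
      · rw [HdA_cmp_neg _ hI]
        exact Submodule.zero_mem _
    · rw [h1, h3, map_neg, map_zsmul]
      rfl

/-- the map to the de Rham cohomology -/
noncomputable def HdA_Phi (p q : ℤ) : (homSS f).Z 2 p (p + q) →ₗ[K] HdR (LCconn f q) p :=
  Submodule.mkQ _ ∘ₗ ((HdA_be f q ∘ₗ HdA_al f p q).codRestrict (dRZ (LCconn f q) p)
    (HdA_closed f p q))

theorem HdA_lift (q k : ℤ) (ω : Fm n (LC f q)) (hω : IsFm k ω) :
    ∃ y : Fm n (Zq f q), IsFm k y ∧ HdA_be f q y = ω := by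
  classical
  have h1 : ∀ I, ∃ y : Zq f q, (Submodule.Quotient.mk y : LC f q) = ω I := fun I =>
    Submodule.Quotient.mk_surjective _ (ω I)
  choose y hy using h1
  refine ⟨fun I => if (I.card : ℤ) = k then y I else 0, fun I hI => if_neg hI, ?_⟩
  funext I
  change (Submodule.Quotient.mk (if (I.card : ℤ) = k then y I else 0) : LC f q) = ω I
  by_cases hI : (I.card : ℤ) = k
  · rw [if_pos hI, hy]
  · rw [if_neg hI, hω I hI]
    rfl

theorem HdA_surj (p q : ℤ) : Function.Surjective (HdA_Phi f p q) := by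
  classical
  intro ξ
  obtain ⟨⟨ω, hω1, hω2⟩, rfl⟩ := Submodule.Quotient.mk_surjective _ ξ
  obtain ⟨y, hy1, hy2⟩ := HdA_lift f q p ω hω1
  have h1 : ∀ I, ∃ t ∈ Lq f (q - 1), cech n r K t = dR (cconn n r K) (HdA_co f q y) I := by
    intro I
    have h2 : (Submodule.Quotient.mk (dR (zconn f q) y I) : LC f q) = 0 := by
      have h3 := congrFun (HdA_be_dR f q y) I
      rw [hy2, hω2] at h3
      exact h3
    obtain ⟨t, ht, ht'⟩ := (HdA_mk_eq_zero f q _).1 h2
    exact ⟨t, ht, ht'.trans (congrFun (HdA_co_dR f q y) I)⟩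
  choose t ht1 ht2 using h1
  let x : Fm n (Fm r (FF n K)) := fun I => if (I.card : ℤ) = p then (y I : Fm r (FF n K)) else
    if (I.card : ℤ) = p + 1 then -(((-1 : ℤ) ^ I.card) • t I) else 0
  have hxp : cmp p x = HdA_co f q y := by
    funext I
    by_cases hI : (I.card : ℤ) = p
    · rw [HdA_cmp_pos _ hI]
      exact if_pos hI
    · rw [HdA_cmp_neg _ hI]
      have : y I = 0 := hy1 I hI
      change (0 : Fm r (FF n K)) = (y I : Fm r (FF n K))
      rw [this]
      rfl
  have hx0 : x ∈ totF f p (p + q) := by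
    rw [mem_totF_iff]
    refine ⟨fun I => ?_, fun I hI => ?_⟩
    · by_cases hI : (I.card : ℤ) = p
      · have e : x I = (y I : Fm r (FF n K)) := if_pos hI
        rw [e, hI, add_sub_cancel_left]
        exact (y I).2.1
      · by_cases hI' : (I.card : ℤ) = p + 1
        · have e : x I = -(((-1 : ℤ) ^ I.card) • t I) := (if_neg hI).trans (if_pos hI')
          have e2 : p + q - (I.card : ℤ) = q - 1 := by rw [hI']; ring
          rw [e, e2]
          exact Submodule.neg_mem _ (zsmul_mem (ht1 I) _)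
        · have e : x I = 0 := (if_neg hI).trans (if_neg hI')
          rw [e]
          exact Submodule.zero_mem _
    · exact (if_neg (by omega)).trans (if_neg (by omega))
  have hx : x ∈ (homSS f).Z 2 p (p + q) := by
    rw [mem_Z2_iff hx0, hxp]
    constructor
    · funext I
      rw [HdA_sdel_apply]
      have h3 : cech n r K (HdA_co f q y I) = 0 := LinearMap.mem_ker.1 (y I).2.2
      rw [h3, CeA_z0']
      rfl
    · funext I
      rw [Pi.add_apply, HdA_sdel_apply]
      by_cases hI : (I.card : ℤ) = p + 1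
      · have e : x I = -(((-1 : ℤ) ^ I.card) • t I) := (if_neg (by omega)).trans (if_pos hI)
        rw [HdA_cmp_pos _ hI, e, map_neg, map_zsmul, ht2, HdA_sneg, HdA_unit_sq, add_neg_cancel]
        rfl
      · have h4 : IsFm p (HdA_co f q y) := by
          rw [← hxp]
          exact HdA_cmp_isFm p x
        have h5 : dR (cconn n r K) (HdA_co f q y) I = 0 := ext_isFm _ h4 I hI
        rw [HdA_cmp_neg _ hI, h5, map_zero, CeA_z0', add_zero]
        rfl
  refine ⟨⟨x, hx⟩, ?_⟩
  unfold HdA_Phi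
  rw [LinearMap.comp_apply, Submodule.mkQ_apply]
  congr 1
  apply Subtype.ext
  change HdA_be f q (HdA_al f p q ⟨x, hx⟩) = ω
  rw [← hy2]
  congr 1
  funext I
  apply Subtype.ext
  exact congrFun hxp I

theorem HdA_Phi_eq_zero (p q : ℤ) (φ : (homSS f).Z 2 p (p + q)) :
    HdA_Phi f p q φ = 0 ↔ ∃ η : Fm n (LC f q), IsFm (p - 1) η ∧
      HdA_be f q (HdA_al f p q φ) = dR (LCconn f q) η := by
  unfold HdA_Phi
  rw [LinearMap.comp_apply, Submodule.mkQ_apply, Submodule.Quotient.mk_eq_zero,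
    Submodule.mem_comap]
  rfl

theorem HdA_ker1 (p q : ℤ) (φ : (homSS f).Z 2 p (p + q)) (h : HdA_Phi f p q φ = 0) :
    (φ : Fm n (Fm r (FF n K))) ∈ (homSS f).B 2 p (p + q) := by
  classical
  obtain ⟨η, hη1, hη2⟩ := (HdA_Phi_eq_zero f p q φ).1 h
  obtain ⟨y, hy1, hy2⟩ := HdA_lift f q (p - 1) η hη1
  have h1 : ∀ I, ∃ s ∈ Lq f (q - 1), cech n r K s =
      cmp p (φ : Fm n (Fm r (FF n K))) I - dR (cconn n r K) (HdA_co f q y) I := by
    intro I
    have h2 : (Submodule.Quotient.mk (HdA_al f p q φ I - dR (zconn f q) y I) : LC f q) = 0 := by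
      have h3 := congrFun hη2 I
      rw [← hy2, ← HdA_be_dR] at h3
      rw [Submodule.Quotient.mk_sub, sub_eq_zero]
      exact h3
    obtain ⟨s, hs, hs'⟩ := (HdA_mk_eq_zero f q _).1 h2
    refine ⟨s, hs, hs'.trans ?_⟩
    change cmp p (φ : Fm n (Fm r (FF n K))) I - HdA_co f q (dR (zconn f q) y) I = _
    rw [HdA_co_dR]
  choose s hs1 hs2 using h1
  let z : Fm n (Fm r (FF n K)) := fun I => if (I.card : ℤ) = p then ((-1 : ℤ) ^ I.card) • s I else 0
  have hy : IsFm (p - 1) (HdA_co f q y) := by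
    intro I hI
    change (y I : Fm r (FF n K)) = 0
    rw [hy1 I hI]
    rfl
  have hz : IsFm p z := fun I hI => if_neg hI
  have hsy : sdel n r K (HdA_co f q y) = 0 := by
    funext I
    rw [HdA_sdel_apply]
    have h3 : cech n r K (HdA_co f q y I) = 0 := LinearMap.mem_ker.1 (y I).2.2
    rw [h3, CeA_z0']
    rfl
  have hsum : dR (cconn n r K) (HdA_co f q y) + sdel n r K z = cmp p (φ : Fm n (Fm r (FF n K))) := by
    funext I
    rw [Pi.add_apply, HdA_sdel_apply]
    by_cases hI : (I.card : ℤ) = p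
    · have e : z I = ((-1 : ℤ) ^ I.card) • s I := if_pos hI
      rw [e, map_zsmul, HdA_unit_sq, hs2]
      abel
    · have h5 : dR (cconn n r K) (HdA_co f q y) I = 0 :=
        ext_isFm _ hy I (by rwa [sub_add_cancel])
      rw [hz I hI, h5, map_zero, CeA_z0', HdA_cmp_neg _ hI, add_zero]
  let b : Fm n (Fm r (FF n K)) := HdA_co f q y + z
  have hdb : dTot n r K b = cmp p (φ : Fm n (Fm r (FF n K))) + dR (cconn n r K) z := by
    have e : dTot n r K b = dR (cconn n r K) (HdA_co f q y + z) + sdel n r K (HdA_co f q y + z) := rfl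
    rw [e, map_add, map_add, hsy, ← hsum]
    abel
  have hb0 : b ∈ totF f (p - 1) (p + q - 1) := by
    rw [mem_totF_iff]
    refine ⟨fun I => ?_, fun I hI => ?_⟩
    · change HdA_co f q y I + z I ∈ _
      by_cases hI : (I.card : ℤ) = p
      · have e : z I = ((-1 : ℤ) ^ I.card) • s I := if_pos hI
        have e2 : p + q - 1 - (I.card : ℤ) = q - 1 := by rw [hI]; ring
        rw [hy I (by omega), zero_add, e, e2]
        exact zsmul_mem (hs1 I) _
      · rw [hz I hI, add_zero]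
        by_cases hI' : (I.card : ℤ) = p - 1
        · have e2 : p + q - 1 - (I.card : ℤ) = q := by rw [hI']; ring
          rw [e2]
          exact (y I).2.1
        · rw [hy I hI']
          exact Submodule.zero_mem _
    · change HdA_co f q y I + z I = 0
      rw [hy I (by omega), hz I (by omega), add_zero]
  have hdb0 : dTot n r K b ∈ totF f p (p + q) := by
    have h3 : dTot n r K b ∈ totF f (p - 1) (p + q - 1 + 1) := dTot_mem f _ _ hb0
    rw [sub_add_cancel] at h3
    rw [mem_totF_iff] at h3 ⊢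
    refine ⟨h3.1, fun I hI => ?_⟩
    rw [hdb, Pi.add_apply, HdA_cmp_neg _ (by omega)]
    have h5 : dR (cconn n r K) z I = 0 := ext_isFm _ hz I (by omega)
    rw [h5, add_zero]
  have hda : dTot n r K ((φ : Fm n (Fm r (FF n K))) - dTot n r K b) = dTot n r K φ := by
    rw [map_sub, dTot_dTot, sub_zero]
  have ha0 : (φ : Fm n (Fm r (FF n K))) - dTot n r K b ∈ totF f (p + 1) (p + q) := by
    have h3 : (φ : Fm n (Fm r (FF n K))) - dTot n r K b ∈ totF f p (p + q) :=
      Submodule.sub_mem _ φ.2.1 hdb0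
    rw [mem_totF_iff] at h3 ⊢
    refine ⟨h3.1, fun I hI => ?_⟩
    rcases lt_or_eq_of_le (Int.lt_add_one_iff.1 hI) with h4 | h4
    · exact h3.2 I h4
    · rw [Pi.sub_apply, hdb, Pi.add_apply, HdA_cmp_pos _ h4]
      have h5 : dR (cconn n r K) z I = 0 := ext_isFm _ hz I (by omega)
      rw [h5, add_zero, sub_self]
  have hsplit : (φ : Fm n (Fm r (FF n K))) =
      ((φ : Fm n (Fm r (FF n K))) - dTot n r K b) + (homSS f).d b := by
    change _ = ((φ : Fm n (Fm r (FF n K))) - dTot n r K b) + dTot n r K b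
    abel
  rw [hsplit]
  refine Submodule.add_mem_sup ⟨ha0, ?_⟩ ⟨b, ⟨?_, ?_⟩, rfl⟩
  · have h3 : (homSS f).d ((φ : Fm n (Fm r (FF n K))) - dTot n r K b) ∈
        (homSS f).F (p + 2) (p + q + 1) := by
      change dTot n r K ((φ : Fm n (Fm r (FF n K))) - dTot n r K b) ∈ _
      rw [hda]
      exact φ.2.2
    exact (homSS f).SSA_mem_F_congr (by ring) rfl h3
  · exact (homSS f).SSA_mem_F_congr (by ring) rfl (show b ∈ (homSS f).F (p - 1) (p + q - 1) from hb0)
  · exact (homSS f).SSA_mem_F_congr (by ring) (by ring)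
      (show (homSS f).d b ∈ (homSS f).F p (p + q) from hdb0)

theorem HdA_ker2 (p q : ℤ) (φ : (homSS f).Z 2 p (p + q))
    (h : (φ : Fm n (Fm r (FF n K))) ∈ (homSS f).B 2 p (p + q)) : HdA_Phi f p q φ = 0 := by
  classical
  rw [HdA_Phi_eq_zero]
  obtain ⟨a, ha, c, ⟨b, hb, rfl⟩, hab⟩ := Submodule.mem_sup.1 h
  have hb1 : b ∈ totF f (p - 1) (p + q - 1) :=
    (homSS f).SSA_mem_F_congr (by ring) rfl (show b ∈ (homSS f).F (p - 2 + 1) (p + q - 1) from hb.1)
  have hbz : b ∈ (homSS f).Z 1 (p - 1) (p + q - 1) :=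
    ⟨hb1, (homSS f).SSA_mem_F_congr (by ring) rfl hb.2⟩
  have hb2 : sdel n r K (cmp (p - 1) b) = 0 := (mem_Z1_iff hb1).1 hbz
  have hval : ∀ I, cmp (p - 1) b I ∈ Zq f q := by
    intro I
    by_cases hI : (I.card : ℤ) = p - 1
    · refine ⟨?_, ?_⟩
      · rw [HdA_cmp_pos _ hI]
        have h2 := ((mem_totF_iff _ _ _).1 hb1).1 I
        have e2 : p + q - 1 - (I.card : ℤ) = q := by rw [hI]; ring
        rwa [e2] at h2
      · have h2 := congrFun hb2 I
        rw [HdA_sdel_apply] at h2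
        exact LinearMap.mem_ker.2 (HdA_unit _ h2)
    · rw [HdA_cmp_neg _ hI]
      exact Submodule.zero_mem _
  let y : Fm n (Zq f q) := fun I => ⟨cmp (p - 1) b I, hval I⟩
  have hco : HdA_co f q y = cmp (p - 1) b := rfl
  refine ⟨HdA_be f q y, ?_, ?_⟩
  · intro I hI
    change (Submodule.Quotient.mk (y I) : LC f q) = 0
    have h1 : y I = 0 := Subtype.ext (HdA_cmp_neg _ hI)
    rw [h1]
    rfl
  · rw [← HdA_be_dR]
    funext I
    change (Submodule.Quotient.mk (HdA_al f p q φ I) : LC f q) =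
      Submodule.Quotient.mk (dR (zconn f q) y I)
    rw [← sub_eq_zero, ← Submodule.Quotient.mk_sub, HdA_mk_eq_zero]
    have h3 : cmp p (φ : Fm n (Fm r (FF n K))) =
        dR (cconn n r K) (cmp (p - 1) b) + sdel n r K (cmp p b) := by
      rw [← hab]
      change cmp p (a + dTot n r K b) = _
      rw [HdA_cmp_add, HdA_cmp_dTot]
      have h4 : cmp p a = 0 := by
        funext J
        by_cases hJ : (J.card : ℤ) = p
        · rw [HdA_cmp_pos _ hJ]
          exact ((mem_totF_iff _ _ _).1 (show a ∈ totF f (p + 1) (p + q) from ha.1)).2 J (by omega)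
        · rw [HdA_cmp_neg _ hJ]
          rfl
      rw [h4, zero_add]
    refine ⟨((-1 : ℤ) ^ I.card) • cmp p b I, ?_, ?_⟩
    · refine zsmul_mem ?_ _
      by_cases hI : (I.card : ℤ) = p
      · rw [HdA_cmp_pos _ hI]
        have h2 := ((mem_totF_iff _ _ _).1 hb1).1 I
        have e2 : p + q - 1 - (I.card : ℤ) = q - 1 := by rw [hI]; ring
        rwa [e2] at h2
      · rw [HdA_cmp_neg _ hI]
        exact Submodule.zero_mem _
    · change _ = cmp p (φ : Fm n (Fm r (FF n K))) I - HdA_co f q (dR (zconn f q) y) I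
      rw [HdA_co_dR, hco, h3, Pi.add_apply, add_sub_cancel_left, HdA_sdel_apply, map_zsmul]

/-- The second page of the homology spectral sequence. -/
theorem e2_equiv (f : Fin r → MvPowerSeries (Fin n) K) (p q : ℤ) :
    Nonempty ((homSS f).E 2 p (p + q) ≃ₗ[K] HdR (LCconn f q) p) := by
  have hker : ((homSS f).B 2 p (p + q)).comap ((homSS f).Z 2 p (p + q)).subtype =
      LinearMap.ker (HdA_Phi f p q) := by
    ext φ
    rw [LinearMap.mem_ker, Submodule.mem_comap]
    exact ⟨fun h => HdA_ker2 f p q φ h, fun h => HdA_ker1 f p q φ h⟩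
  exact ⟨(Submodule.quotEquivOfEq _ _ hker).trans
    ((HdA_Phi f p q).quotKerEquivOfSurjective (HdA_surj f p q))⟩

end B5a
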