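import Pool.Agent.H.MP_b5a980_ag.PrB

set_option autoImplicit false
set_option linter.unusedSectionVars false
set_option linter.style.longLine false

/-!
Completeness: spanning over `k[[z]]` (MP_b5a980_ag, A6).
-/

namespace B5a

universe u v w

open MvPowerSeries

variable {n : ℕ} {k : Type u} [Field k]

/-- ideals are closed (Krull)

Proof. `R / J` is a finite module over the Noetherian local ring `R`, so it is Hausdorff for the maximal ideal (`IsHausdorff.of_isLocalRing`), and `mI N = maximalIdeal^N` (`mI_eq_pow`). -/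
theorem mem_of_forall_mem_sup (J : Ideal (MvPowerSeries (Fin n) k)) (g : MvPowerSeries (Fin n) k)
    (h : ∀ N, g ∈ J ⊔ mI n k N) : g ∈ J := by
  have hH : IsHausdorff (IsLocalRing.maximalIdeal (MvPowerSeries (Fin n) k))
      (MvPowerSeries (Fin n) k ⧸ J) := inferInstance
  have h1 : (Ideal.Quotient.mk J g : MvPowerSeries (Fin n) k ⧸ J) = 0 := by
    refine hH.haus _ fun N => ?_
    rw [SModEq.zero]
    obtain ⟨a, ha, b, hb, hab⟩ := Submodule.mem_sup.1 (h N)
    rw [mI_eq_pow] at hb
    have h2 : (Ideal.Quotient.mk J g : MvPowerSeries (Fin n) k ⧸ J) =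
        b • (1 : MvPowerSeries (Fin n) k ⧸ J) := by
      rw [← hab, map_add, Ideal.Quotient.eq_zero_iff_mem.2 ha, zero_add]
      conv_lhs => rw [← mul_one b]
      rfl
    rw [h2]
    exact Submodule.smul_mem_smul hb trivial
  exact Ideal.Quotient.eq_zero_iff_mem.1 h1

theorem PrC_degree_mem {e : ℕ} {β : Fin n →₀ ℕ} (h : β.degree < e) :
    β ∈ (Finset.range e).biUnion fun d => Finset.finsuppAntidiag Finset.univ d := by
  rw [Finset.mem_biUnion]
  refine ⟨β.degree, Finset.mem_range.2 h, ?_⟩
  rw [Finset.mem_finsuppAntidiag]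
  refine ⟨?_, Finset.subset_univ _⟩
  rw [Finsupp.degree_eq_sum]

theorem PrC_tail_mem (e : ℕ) (g : MvPowerSeries (Fin n) k) :
    g - ∑ β ∈ (Finset.range e).biUnion fun d => Finset.finsuppAntidiag Finset.univ d,
      monomial β (coeff β g) ∈ mI n k e := by
  classical
  intro γ hγ
  rw [map_sub, map_sum, Finset.sum_eq_single γ]
  · rw [coeff_monomial_same, sub_self]
  · intro β _ hne
    rw [coeff_monomial, if_neg (Ne.symm hne)]
  · intro hn
    exact absurd (PrC_degree_mem hγ) hn

theorem PrC_zemb_tail (i0 : Fin (n + 1)) (a : PowerSeries k) (N : ℕ) :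
    zemb i0 a - ∑ i ∈ Finset.range N, monomial (Finsupp.single i0 i) (PowerSeries.coeff i a) ∈
      mI (n + 1) k N := by
  classical
  intro γ hγ
  rw [map_sub, map_sum]
  by_cases h : ∃ m, γ = Finsupp.single i0 m
  · obtain ⟨m, rfl⟩ := h
    rw [Finsupp.degree_single] at hγ
    rw [coeff_single_zemb, Finset.sum_eq_single m]
    · rw [coeff_monomial_same, sub_self]
    · intro i _ hne
      rw [coeff_monomial, if_neg]
      intro h2
      exact hne (Finsupp.single_injective i0 h2).symm
    · intro hn
      exact absurd (Finset.mem_range.2 hγ) hn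
  · have h' : ∀ m, γ ≠ Finsupp.single i0 m := fun m hm => h ⟨m, hm⟩
    rw [coeff_zemb_of_ne i0 a γ h', Finset.sum_eq_zero, sub_zero]
    intro i _
    rw [coeff_monomial, if_neg (h' i)]

/-- The spanning lemma (completeness): if `J + (z)` contains `m^e`, then modulo `J` every series is
a combination of the monomials of degree `< e` with coefficients in `k[[z]]`.

Proof. For every `g` choose `q_g ∈ J` and `next g` with `g - Σ_{|β|<e} C(coeff β g) x^β = q_g + X_{i0} next g` (the left side lies in `mI e`). Put `g_0 = g`, `g_(i+1) = next g_i` and `c β = Σ_i (coeff β g_i) z^i` (`PowerSeries.mk`). By induction on `N`: `g - Σ_β (Σ_{i<N} coeff β g_i X_{i0}^i) x^β - X_{i0}^N g_N ∈ J`. Since `zemb (c β) - Σ_{i<N} coeff β g_i X_{i0}^i ∈ mI N` and `X_{i0}^N ∈ mI N`, the difference `g - Σ zemb(c β) x^β` lies in `J + mI N` for all `N`, hence in `J` (`mem_of_forall_mem_sup`). -/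
theorem exists_span {i0 : Fin (n + 1)} {J : Ideal (RR n k)} {e : ℕ}
    (h : mI (n + 1) k e ≤ J ⊔ Ideal.span {X i0}) (g : RR n k) :
    ∃ c : (Fin (n + 1) →₀ ℕ) → PowerSeries k,
      g - ∑ β ∈ (Finset.range e).biUnion fun d => Finset.finsuppAntidiag Finset.univ d,
        zemb i0 (c β) * monomial β 1 ∈ J := by
  classical
  have hstep : ∀ g : RR n k, ∃ r : RR n k,
      g - (∑ β ∈ (Finset.range e).biUnion fun d => Finset.finsuppAntidiag Finset.univ d,
        monomial β (coeff β g)) - X i0 * r ∈ J := by
    intro g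
    obtain ⟨q, hq, b, hb, hqb⟩ := Submodule.mem_sup.1 (h (PrC_tail_mem e g))
    obtain ⟨r, hr⟩ := Ideal.mem_span_singleton'.1 hb
    refine ⟨r, ?_⟩
    rw [← hqb, ← hr, mul_comm (X i0) r, add_sub_cancel_right]
    exact hq
  choose nx hnx using hstep
  let gs : ℕ → RR n k := fun i => nx^[i] g
  have hgs : ∀ i, gs (i + 1) = nx (gs i) := fun i => Function.iterate_succ_apply' nx i g
  have key : ∀ N : ℕ, g - (∑ β ∈ (Finset.range e).biUnion fun d =>
      Finset.finsuppAntidiag Finset.univ d,
      (∑ i ∈ Finset.range N, monomial (Finsupp.single i0 i) (coeff β (gs i))) * monomial β 1) -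
      X i0 ^ N * gs N ∈ J := by
    intro N
    induction N with
    | zero =>
      have h0 : gs 0 = g := rfl
      simp [h0]
    | succ N ih =>
      have h1 := J.add_mem ih (J.mul_mem_left (X i0 ^ N) (hnx (gs N)))
      convert h1 using 1
      have h2 : ∀ β : Fin (n + 1) →₀ ℕ,
          (∑ i ∈ Finset.range (N + 1), monomial (Finsupp.single i0 i) (coeff β (gs i))) *
            monomial β (1 : k) =
          (∑ i ∈ Finset.range N, monomial (Finsupp.single i0 i) (coeff β (gs i))) *
            monomial β (1 : k) + X i0 ^ N * monomial β (coeff β (gs N)) := by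
        intro β
        rw [Finset.sum_range_succ, add_mul, monomial_mul_monomial, X_pow_eq,
          monomial_mul_monomial, mul_one, one_mul]
      simp only [h2]
      rw [Finset.sum_add_distrib, ← Finset.mul_sum, hgs, pow_succ]
      ring
  refine ⟨fun β => PowerSeries.mk fun i => coeff β (gs i), ?_⟩
  refine mem_of_forall_mem_sup J _ fun N => ?_
  have hN := key N
  set S := (Finset.range e).biUnion fun d =>
    Finset.finsuppAntidiag (Finset.univ : Finset (Fin (n + 1))) d with hS
  have e1 : g - ∑ β ∈ S, zemb i0 (PowerSeries.mk fun i => coeff β (gs i)) * monomial β 1 =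
      (g - (∑ β ∈ S,
        (∑ i ∈ Finset.range N, monomial (Finsupp.single i0 i) (coeff β (gs i))) * monomial β 1) -
        X i0 ^ N * gs N) +
      (X i0 ^ N * gs N - ∑ β ∈ S, (zemb i0 (PowerSeries.mk fun i => coeff β (gs i)) -
        ∑ i ∈ Finset.range N, monomial (Finsupp.single i0 i) (coeff β (gs i))) *
          monomial β 1) := by
    simp only [sub_mul, Finset.sum_sub_distrib]
    ring
  rw [e1]
  refine Submodule.add_mem _ (Submodule.mem_sup_left hN) (Submodule.mem_sup_right ?_)
  refine Submodule.sub_mem _ ?_ ?_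
  · exact Ideal.mul_mem_right _ _ (pow_mem_mI (X_mem_mI i0) N)
  · refine Ideal.sum_mem _ fun β _ => ?_
    refine Ideal.mul_mem_right _ _ ?_
    have h3 := PrC_zemb_tail i0 (PowerSeries.mk fun i => coeff β (gs i)) N
    simp only [PowerSeries.coeff_mk] at h3
    exact h3

end B5a
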