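import Mathlib.RingTheory.Smooth.Field
import Mathlib.RingTheory.Smooth.AdicCompletion
import Pool.Agent.H.MP_b5a980_ag.PrC

set_option autoImplicit false
set_option linter.unusedSectionVars false
set_option linter.style.longLine false

/-!
Lifting coefficient fields through presentations (MP_b5a980_ag).
-/

namespace B5a

universe u v w

open MvPowerSeries

theorem PsB_coeff_eq_of_sub_mem {n : ℕ} {K : Type u} [Field K] {a b : MvPowerSeries (Fin n) K}
    {N : ℕ} (h : a - b ∈ mI n K N) {γ : Fin n →₀ ℕ} (hγ : γ.degree < N) :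
    coeff γ a = coeff γ b := by
  have := h γ hγ
  rw [map_sub, sub_eq_zero] at this
  exact this

theorem PsB_adicComplete {n : ℕ} {K : Type u} [Field K] (I : Ideal (MvPowerSeries (Fin n) K))
    (hI : I ≤ mI n K 1) : IsAdicComplete I (MvPowerSeries (Fin n) K) := by
  have hpow : ∀ N, I ^ N ≤ mI n K N := by
    intro N
    rw [mI_eq_pow]
    refine Ideal.pow_right_mono (hI.trans ?_) N
    rw [mI_eq_pow, pow_one]
  refine { haus' := ?_, prec' := ?_ }
  · intro x hx
    refine eq_zero_of_forall_mem_mI fun N => ?_
    have h1 := hx N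
    rw [SModEq.zero, smul_eq_mul, Ideal.mul_top] at h1
    exact hpow N h1
  · intro f hf
    have hf' : ∀ {a b : ℕ}, a ≤ b → f a - f b ∈ I ^ a := by
      intro a b hab
      have h1 := hf hab
      rw [SModEq.sub_mem, smul_eq_mul, Ideal.mul_top] at h1
      exact h1
    let L : MvPowerSeries (Fin n) K := fun γ => coeff γ (f (γ.degree + 1))
    have hL : ∀ N, f N - L ∈ mI n K N := by
      intro N γ hγ
      have h1 : coeff γ L = coeff γ (f (γ.degree + 1)) := rfl
      rw [map_sub, h1, sub_eq_zero]
      have h2 : f (γ.degree + 1) - f N ∈ mI n K (γ.degree + 1) :=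
        hpow _ (hf' (Nat.succ_le_of_lt hγ))
      exact (PsB_coeff_eq_of_sub_mem h2 (Nat.lt_succ_self _)).symm
    refine ⟨L, fun m => ?_⟩
    rw [SModEq.sub_mem, smul_eq_mul, Ideal.mul_top]
    refine mem_of_forall_mem_sup (I ^ m) _ fun N => ?_
    have h3 : f m - L = (f m - f (max m N)) + (f (max m N) - L) := by ring
    rw [h3]
    refine Submodule.add_mem _ (Submodule.mem_sup_left (hf' (le_max_left _ _)))
      (Submodule.mem_sup_right (mI_anti (le_max_right m N) (hL _)))

theorem PsB_formallySmooth {K : Type u} [Field K] [CharZero K] : Algebra.FormallySmooth ℚ K := by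
  obtain ⟨s, hs⟩ := exists_isTranscendenceBasis ℚ K
  have h1 : Algebra.IsAlgebraic
      (IntermediateField.adjoin ℚ (Set.range (Subtype.val : s → K))) K := hs.isAlgebraic_field
  have h2 : Algebra.IsSeparable
      (IntermediateField.adjoin ℚ (Set.range (Subtype.val : s → K))) K :=
    Algebra.IsAlgebraic.isSeparable_of_perfectField
  exact Algebra.FormallySmooth.of_algebraicIndependent_of_isSeparable hs.1

/-- Formal smoothness. -/
theorem exists_lift {n : ℕ} {K : Type u} [Field K] [CharZero K] {A : Type v} [CommRing A]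
    (π : MvPowerSeries (Fin n) K →+* A) (hπ : Function.Surjective π) (σ : K →+* A) :
    ∃ τ : K →+* MvPowerSeries (Fin n) K, ∀ c, π (τ c) = σ c := by
  by_cases htop : RingHom.ker π = ⊤
  · refine ⟨C, fun c => ?_⟩
    have h1 : (1 : A) = 0 := by
      have h2 : (1 : MvPowerSeries (Fin n) K) ∈ RingHom.ker π := by
        rw [htop]; exact Submodule.mem_top
      rw [RingHom.mem_ker, map_one] at h2
      exact h2
    have h3 : Subsingleton A := subsingleton_of_zero_eq_one h1.symm
    exact Subsingleton.elim _ _
  · have hI : RingHom.ker π ≤ mI n K 1 := by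
      intro g hg
      rcases isUnit_or_mem_mI_one g with h | h
      · exact absurd (Ideal.eq_top_of_isUnit_mem _ hg h) htop
      · exact h
    have : IsAdicComplete (RingHom.ker π) (MvPowerSeries (Fin n) K) := PsB_adicComplete _ hI
    have : Algebra.FormallySmooth ℚ K := PsB_formallySmooth
    let e := RingHom.quotientKerEquivOfSurjective hπ
    let f : K →+* MvPowerSeries (Fin n) K ⧸ RingHom.ker π := (e.symm : A →+* _).comp σ
    obtain ⟨g, hg⟩ := Algebra.FormallySmooth.exists_mkₐ_comp_eq_of_isAdicComplete
      (I := RingHom.ker π) (f := f.toRatAlgHom)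
    refine ⟨g.toRingHom, fun c => ?_⟩
    have h1 : Ideal.Quotient.mk (RingHom.ker π) (g c) = e.symm (σ c) := congrArg (fun φ => φ c) hg
    have h2 : e (Ideal.Quotient.mk (RingHom.ker π) (g c)) = σ c := by
      rw [h1, e.apply_symm_apply]
    exact h2

end B5a
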