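import Pool.Agent.H.MP_b5a980_ag.PsA
import Pool.Agent.H.MP_b5a980_ag.PsB

set_option autoImplicit false
set_option linter.unusedSectionVars false
set_option linter.style.longLine false

/-!
Automorphisms comparing two coefficient fields (MP_b5a980_ag).
-/

namespace B5a

universe u v w

open MvPowerSeries

theorem HmA_charZero {A : Type u} [CommRing A] [IsLocalRing A] [Algebra ℚ A] :
    CharZero (IsLocalRing.ResidueField A) :=
  algebraRat.charZero (IsLocalRing.ResidueField A)

/-- Proof. `K = ResidueField A` has characteristic zero (`A` is a `ℚ`-algebra, so `K` is one). `exists_lift` for `π` and `σ'`: `τ` with `π (τ c) = σ' c`. `constantCoeff (τ c) = c`: let `d = constantCoeff (τ c)`; `τ c - C d` has constant coefficient 0, so it is a nonunit and lies in the maximal ideal; the surjection `π` onto the (nontrivial) local ring `A` maps the maximal ideal into the maximal ideal (if `π y` is a unit with inverse `π z`, then `1 - y z ∈ ker π`, a proper ideal, so it is not a unit and `y z` is a unit); so the residue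 of `σ' c - σ d` is zero, i.e. `c = d`. `exists_psi` for `τ`: `Ψ (C c) = τ c`, `Ψ (C c) - C c` has constant coefficient `0` (`mem_mI_one`). -/
theorem exists_Psi_main {A : Type u} [CommRing A] [IsLocalRing A] [Algebra ℚ A]
    (σ σ' : IsLocalRing.ResidueField A →+* A)
    (hσ : ∀ x, IsLocalRing.residue A (σ x) = x) (hσ' : ∀ x, IsLocalRing.residue A (σ' x) = x)
    {n : ℕ} (π : MvPowerSeries (Fin n) (IsLocalRing.ResidueField A) →+* A)
    (hπ : Function.Surjective π) (hπσ : ∀ c, π (C c) = σ c) :
    ∃ (Ψ : MvPowerSeries (Fin n) (IsLocalRing.ResidueField A) ≃+*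
        MvPowerSeries (Fin n) (IsLocalRing.ResidueField A)),
      (∀ j, Ψ (X j) = X j) ∧ (∀ c, Ψ (C c) - C c ∈ mI n (IsLocalRing.ResidueField A) 1) ∧
      ∀ c, π (Ψ (C c)) = σ' c := by
  have := HmA_charZero (A := A)
  obtain ⟨τ, hτ⟩ := exists_lift π hπ σ'
  have hloc : IsLocalHom π := IsLocalHom.of_surjective π hπ
  have hcc : ∀ c, constantCoeff (τ c) = c := by
    intro c
    have h1 : ¬ IsUnit (τ c - C (constantCoeff (τ c))) := by
      intro hu
      have h2 := hu.map (constantCoeff (σ := Fin n) (R := IsLocalRing.ResidueField A))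
      rw [map_sub, constantCoeff_C, sub_self] at h2
      exact not_isUnit_zero h2
    have h2 : π (τ c - C (constantCoeff (τ c))) ∈ IsLocalRing.maximalIdeal A := by
      rw [IsLocalRing.mem_maximalIdeal]
      intro hu
      exact h1 (isUnit_of_map_unit π _ hu)
    rw [map_sub, hτ, hπσ] at h2
    have h3 : IsLocalRing.residue A (σ' c - σ (constantCoeff (τ c))) = 0 :=
      (IsLocalRing.residue_eq_zero_iff _).2 h2
    rw [map_sub, hσ', hσ] at h3
    exact (sub_eq_zero.1 h3).symm
  obtain ⟨Ψ, hX, hC⟩ := exists_psi τ hcc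
  refine ⟨Ψ, hX, fun c => ?_, fun c => by rw [hC, hτ]⟩
  rw [mem_mI_one, hC, map_sub, hcc, constantCoeff_C, sub_self]

/-- Proof. `Ψ⁻¹` maps the ideal `ker π` onto `ker (π ∘ Ψ)`; `Ideal.map_span`, `Ideal.comap_symm`-like lemmas. -/
theorem span_symm {R : Type u} {A : Type v} [CommRing R] [CommRing A] (π : R →+* A) (Ψ : R ≃+* R)
    {r : ℕ} (f : Fin r → R) (hf : Ideal.span (Set.range f) = RingHom.ker π) :
    Ideal.span (Set.range fun s => Ψ.symm (f s)) = RingHom.ker (π.comp (Ψ : R →+* R)) := by
  rw [← RingHom.comap_ker, ← hf]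
  have h2 : Ideal.comap (Ψ : R →+* R) (Ideal.span (Set.range f)) =
      Ideal.map (Ψ.symm : R →+* R) (Ideal.span (Set.range f)) :=
    (Ideal.map_comap_of_equiv Ψ.symm).symm
  rw [h2, Ideal.map_span, ← Set.range_comp]
  rfl

theorem charZero_residue {A : Type u} [CommRing A] [IsLocalRing A] [Algebra ℚ A] :
    CharZero (IsLocalRing.ResidueField A) := HmA_charZero

end B5a
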