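import Pool.Agent.H.MP_b5a980_ag.Ah0
import Pool.Agent.H.MP_b5a980_ag.CeA

set_option autoImplicit false
set_option linter.unusedSectionVars false
set_option linter.style.longLine false

/-!
The formal completion along a closed subscheme: definitions (MP_b5a980_ag, part D).
-/

namespace B5a

universe u v w

open MvPowerSeries

variable {n : ℕ} {K : Type u} [Field K]

/-- The localisation `R_(x_T)` of `R = K[[x_1..x_n]]` at the product `x_T` of the variables `x_t`, `t ∈ T`, as an `R`-module (inside the fraction field). -/
abbrev RxT (n : ℕ) (K : Type u) [Field K] (T : Finset (Fin n)) : Type u :=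
  ↥(loc (fS (fun t : Fin n => (X t : MvPowerSeries (Fin n) K)) T))

/-- The inclusion of `R_(x_T')` in `R_(x_T)` for `T' ⊆ T`. -/
noncomputable def incT {T' T : Finset (Fin n)} (h : T' ⊆ T) :
    RxT n K T' →ₗ[MvPowerSeries (Fin n) K] RxT n K T :=
  Submodule.inclusion (loc_mono _ h)

/-- The derivatives on `R_(x_T)`. -/
noncomputable def xconn (n : ℕ) (K : Type u) [Field K] (T : Finset (Fin n)) : Conn n K (RxT n K T) where
  nab i :=
    { toFun := fun x => ⟨dF n K i x, dF_mem_loc' _ i x.2⟩
      map_add' := by
        intro x y
        refine Subtype.ext ?_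
        simp
      map_smul' := by
        intro c x
        refine Subtype.ext ?_
        simp }
  leib := by
    intro i a x
    exact Subtype.ext ((std n K).leib i a _)
  comm := by
    intro i j x
    exact Subtype.ext ((std n K).comm i j _)

noncomputable instance instRxT1 (T : Finset (Fin n)) : AddCommGroup (RxT n K T) := inferInstance
noncomputable instance instRxT2 (T : Finset (Fin n)) : Module (MvPowerSeries (Fin n) K) (RxT n K T) :=
  inferInstance
noncomputable instance instRxT3 (T : Finset (Fin n)) : Module K (RxT n K T) := inferInstance
instance instRxT4 (T : Finset (Fin n)) :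
    IsScalarTower K (MvPowerSeries (Fin n) K) (RxT n K T) := inferInstance
noncomputable instance instRxT5 (I : Ideal (MvPowerSeries (Fin n) K)) (T : Finset (Fin n)) :
    AddCommGroup (AdicCompletion I (RxT n K T)) := inferInstance
noncomputable instance instRxT6 (I : Ideal (MvPowerSeries (Fin n) K)) (T : Finset (Fin n)) :
    Module (MvPowerSeries (Fin n) K) (AdicCompletion I (RxT n K T)) := inferInstance
noncomputable instance instRxT7 (I : Ideal (MvPowerSeries (Fin n) K)) (T : Finset (Fin n)) :
    Module K (AdicCompletion I (RxT n K T)) := inferInstance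
instance instRxT8 (I : Ideal (MvPowerSeries (Fin n) K)) (T : Finset (Fin n)) :
    IsScalarTower K (MvPowerSeries (Fin n) K) (AdicCompletion I (RxT n K T)) := inferInstance

/-- The Cech cochains of the formal completion of `Spec R` along `V(I)` for the covering of the
punctured spectrum by the `D(x_t)`: the component in `T` lies in the `I`-adic completion of `R_(x_T)`. -/
abbrev Kh (I : Ideal (MvPowerSeries (Fin n) K)) : Type u :=
  ∀ T : Finset (Fin n), AdicCompletion I (RxT n K T)

/-- The Cech differential `(δ c)_T = Σ_(t ∈ T) ± c_(T ∖ t)`. -/
noncomputable def kcech (I : Ideal (MvPowerSeries (Fin n) K)) :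
    Kh I →ₗ[MvPowerSeries (Fin n) K] Kh I where
  toFun c := fun T => ∑ t ∈ T, sg t T • hmap I (incT (Finset.erase_subset t T)) (c (T.erase t))
  map_add' := by
    intro x y
    funext T
    simp only [Pi.add_apply, map_add, smul_add, Finset.sum_add_distrib]
  map_smul' := by
    intro c x
    funext T
    simp only [Pi.smul_apply, RingHom.id_apply, Finset.smul_sum, map_smul]
    refine Finset.sum_congr rfl fun i _ => ?_
    rw [smul_comm]

/-- The connection on Cech cochains: the derivatives, extended to the completions, applied to each
component. -/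
noncomputable def kconn (I : Ideal (MvPowerSeries (Fin n) K)) : Conn n K (Kh I) where
  nab i :=
    { toFun := fun c T => (hconn (xconn n K T) I).nab i (c T)
      map_add' := by
        intro x y
        funext T
        exact map_add _ _ _
      map_smul' := by
        intro c x
        funext T
        exact ((hconn (xconn n K T) I).nab i).map_smul _ _ }
  leib := by
    intro i a c
    funext T
    exact (hconn (xconn n K T) I).leib i a _
  comm := by
    intro i j c
    funext T
    exact (hconn (xconn n K T) I).comm i j _

/-- The signed Cech differential on forms, `(-1)^|J| δ` on the coefficient of `dx_J`. -/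
noncomputable def ksdel (I : Ideal (MvPowerSeries (Fin n) K)) : Fm n (Kh I) →ₗ[K] Fm n (Kh I) where
  toFun φ := fun J => ((-1 : ℤ) ^ J.card) • kcech I (φ J)
  map_add' := by
    intro x y
    funext J
    show ((-1 : ℤ) ^ J.card) • kcech I (x J + y J) =
      ((-1 : ℤ) ^ J.card) • kcech I (x J) + ((-1 : ℤ) ^ J.card) • kcech I (y J)
    rw [map_add, smul_add]
  map_smul' := by
    intro c x
    funext J
    show ((-1 : ℤ) ^ J.card) • kcech I (c • x J) = c • (((-1 : ℤ) ^ J.card) • kcech I (x J))
    rw [LinearMap.map_smul_of_tower, smul_comm]

/-- The cochains of total degree `m` in the step `p`: the component at `(J, T)` vanishes unless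
`|J| + |T| = m` and `|J| ≥ p`. -/
noncomputable def kF (I : Ideal (MvPowerSeries (Fin n) K)) (p m : ℤ) : Submodule K (Fm n (Kh I)) where
  carrier := {φ | ∀ (J : Finset (Fin n)) (T : Finset (Fin n)),
    (((J.card : ℤ) + T.card ≠ m ∨ (J.card : ℤ) < p) → φ J T = 0)}
  add_mem' := by
    intro x y hx hy J T h
    rw [Pi.add_apply, Pi.add_apply, hx J T h, hy J T h, add_zero]
  zero_mem' := by
    intro J T _
    rfl
  smul_mem' := by
    intro c x hx J T h
    rw [Pi.smul_apply, Pi.smul_apply, hx J T h, smul_zero]

end B5a
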