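import Pool.Agent.H.MP_b5a980_ag.BoA
import Pool.Agent.H.MP_b5a980_ag.Kh0
import Pool.Agent.H.MP_b5a980_ag.SSD

set_option autoImplicit false
set_option linter.unusedSectionVars false
set_option linter.style.longLine false

/-!
The filtered complex of the formal completion (MP_b5a980_ag, part D).
-/

namespace B5a

universe u v w

open MvPowerSeries

variable {n : ℕ} {K : Type u} [Field K]

theorem incT_nab {T' T : Finset (Fin n)} (h : T' ⊆ T) (i : Fin n) (x : RxT n K T') :
    incT h ((xconn n K T').nab i x) = (xconn n K T).nab i (incT h x) := rfl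

/-- Proof. As `cech_cech`; `hmap_comp`. -/
theorem kcech_kcech (I : Ideal (MvPowerSeries (Fin n) K)) (c : Kh I) : kcech I (kcech I c) = 0 := by
  classical
  funext T
  let c' : Fm n (AdicCompletion I (RxT n K T)) := fun T' =>
    if h : T' ⊆ T then hmap I (incT h) (c T') else 0
  have hc' : ∀ (T' : Finset (Fin n)) (h : T' ⊆ T), c' T' = hmap I (incT h) (c T') := by
    intro T' h
    show (if h : T' ⊆ T then hmap I (incT h) (c T') else 0) = _
    rw [dif_pos h]
  have h1 := congrFun (ext_ext (K := K)
    (fun _ => (LinearMap.id : AdicCompletion I (RxT n K T) →ₗ[K] AdicCompletion I (RxT n K T)))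
    (fun _ _ _ => rfl) c') T
  rw [Pi.zero_apply] at h1 ⊢
  rw [← h1]
  show ∑ i ∈ T, sg i T • hmap I (incT (Finset.erase_subset i T))
      (∑ j ∈ T.erase i, sg j (T.erase i) • hmap I (incT (Finset.erase_subset j (T.erase i)))
        (c ((T.erase i).erase j))) =
    ∑ i ∈ T, sg i T • ∑ j ∈ T.erase i, sg j (T.erase i) • c' ((T.erase i).erase j)
  refine Finset.sum_congr rfl fun i _ => ?_
  rw [map_sum]
  congr 1
  refine Finset.sum_congr rfl fun j _ => ?_
  rw [map_zsmul, hc' _ ((Finset.erase_subset j (T.erase i)).trans (Finset.erase_subset i T)), hmap_comp]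
  rfl

/-- Proof. `hmap_nab`, `incT_nab`. -/
theorem kcech_nab (I : Ideal (MvPowerSeries (Fin n) K)) (i : Fin n) (c : Kh I) :
    kcech I ((kconn I).nab i c) = (kconn I).nab i (kcech I c) := by
  funext T
  show ∑ t ∈ T, sg t T • hmap I (incT (Finset.erase_subset t T))
      ((hconn (xconn n K (T.erase t)) I).nab i (c (T.erase t))) =
    (hconn (xconn n K T) I).nab i
      (∑ t ∈ T, sg t T • hmap I (incT (Finset.erase_subset t T)) (c (T.erase t)))
  rw [map_sum]
  refine Finset.sum_congr rfl fun t _ => ?_
  rw [map_zsmul, hmap_nab (xconn n K (T.erase t)) (xconn n K T) I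
    (incT (Finset.erase_subset t T)) (fun i x => incT_nab _ i x)]

/-- The cochains of degree `q`. -/
noncomputable def kG (I : Ideal (MvPowerSeries (Fin n) K)) (q : ℤ) :
    Submodule (MvPowerSeries (Fin n) K) (Kh I) where
  carrier := {c | ∀ T : Finset (Fin n), (T.card : ℤ) ≠ q → c T = 0}
  add_mem' := by
    intro x y hx hy T h
    rw [Pi.add_apply, hx T h, hy T h, add_zero]
  zero_mem' := fun _ _ => rfl
  smul_mem' := by
    intro c x hx T h
    rw [Pi.smul_apply, hx T h, smul_zero]

/-- The complex of the formal completion. -/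
noncomputable def KObj (I : Ideal (MvPowerSeries (Fin n) K)) : BObj n K where
  Γ := Kh I
  C := kconn I
  δ := kcech I
  G := kG I
  δδ := kcech_kcech I
  δC := kcech_nab I
  δG := by
    intro q x hx T hT
    show ∑ t ∈ T, sg t T • hmap I (incT (Finset.erase_subset t T)) (x (T.erase t)) = 0
    refine Finset.sum_eq_zero fun t ht => ?_
    have h3 := Finset.card_erase_of_mem ht
    have h4 := Finset.card_pos.2 ⟨t, ht⟩
    rw [hx (T.erase t) (by omega), map_zero, CeA_z0]
  GC := by
    intro q i x hx T hT
    show (hconn (xconn n K T) I).nab i (x T) = 0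
    rw [hx T hT, map_zero]

theorem KhA_bsd (I : Ideal (MvPowerSeries (Fin n) K)) (φ : Fm n (Kh I)) :
    bsd (KObj I) φ = ksdel I φ := rfl

theorem KhA_objF (I : Ideal (MvPowerSeries (Fin n) K)) (p m : ℤ) (φ : Fm n (Kh I)) :
    φ ∈ objF (KObj I) p m ↔ φ ∈ kF I p m := by
  constructor
  · intro h J T h2
    rcases h2 with h2 | h2
    · exact (h J).1 T (by omega)
    · have h3 : φ J = 0 := (h J).2 h2
      rw [h3]
      rfl
  · intro h J
    refine ⟨fun T hT => h J T (Or.inl (by omega)), fun h2 => ?_⟩
    funext T
    exact h J T (Or.inr h2)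

/-- The filtered complex computing the hypercohomology with support in the closed point `P` of the
de Rham complex of the formal completion of `Spec K[[x_1..x_n]]` along `V(I)`: the total complex of the
double complex `C^(p,q) = ⊕_{|J|=p, |T|=q} (R_(x_T))^ dx_J`, filtered by the degree `p` of the forms.
Its spectral sequence is the cohomology spectral sequence `E_1^(p,q) = H^q_P(X^, Ω^p)`. -/
noncomputable def cohSS (I : Ideal (MvPowerSeries (Fin n) K)) : FCx K (Fm n (Kh I)) where
  d := dR (kconn I) + ksdel I
  F := kF I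
  dd := fun p m φ h => (objSS (KObj I)).dd p m φ ((KhA_objF I p m φ).2 h)
  anti := by
    intro p m φ h J T h2
    exact h J T (h2.imp id fun h3 => by omega)
  dF := fun p m φ h => (KhA_objF I p (m + 1) _).1
    ((objSS (KObj I)).dF p m φ ((KhA_objF I p m φ).2 h))

theorem cohSS_bounded (I : Ideal (MvPowerSeries (Fin n) K)) : (cohSS I).Bounded n := by
  constructor
  · intro p m hp
    apply le_antisymm
    · intro φ h J T
      exact fun h2 => h J T (h2.imp id fun h3 => by omega)
    · intro φ h J T
      exact fun h2 => h J T (h2.imp id fun h3 => by omega)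
  · intro p m hp
    rw [eq_bot_iff]
    intro φ h
    rw [Submodule.mem_bot]
    funext J T
    refine h J T (Or.inr ?_)
    have h1 : J.card ≤ n := by
      have := Finset.card_le_univ J
      rwa [Fintype.card_fin] at this
    omega

/-- Proof. The identity map (`bsd (KObj I) = ksdel I`, `objF (KObj I) = kF I`); `e_of_bij`, `ssiso_of_map`. -/
theorem cohSS_obj (I : Ideal (MvPowerSeries (Fin n) K)) :
    Nonempty (SSIso (objSS (KObj I)) (cohSS I)) := by
  have hm : FMap (objSS (KObj I)) (cohSS I)
      (LinearMap.id : Fm n (Kh I) →ₗ[K] Fm n (Kh I)) := by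
    constructor
    · intro p m x _
      rfl
    · intro p m x hx
      exact (KhA_objF I p m x).1 hx
  have hb := e_of_bij hm (fun p m x _ h => h) (fun p m y hy => ⟨y, (KhA_objF I p m y).2 hy, rfl⟩) 2
  exact ssiso_of_map (objSS_bounded _) (cohSS_bounded I) hm hb.1 hb.2

end B5a
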