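import Pool.Agent.H.MP_b5a980_ag.Te0

set_option autoImplicit false
set_option linter.unusedSectionVars false
set_option linter.style.longLine false

/-!
Telescopes and exact sequences (MP_b5a980_ag, part D).
-/

namespace B5a

universe u v w

open MvPowerSeries

variable {n : ℕ} {K : Type u} [Field K]

theorem TeB_qiso {X Y : BObj n K} (f : MvPowerSeries (Fin n) K)
    (P : (ℕ → X.Γ) →ₗ[MvPowerSeries (Fin n) K] Y.Γ)
    (nab : ∀ i b, P ((sqconn X.C f).nab i b) = Y.C.nab i (P b))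
    (del : ∀ b, P (sqmap X.δ b) = Y.δ (P b))
    (gr : ∀ q b, (∀ j, b j ∈ X.G q) → P b ∈ Y.G q)
    (h0 : ∀ m, P (sqd f m) = 0)
    (hi : ∀ m : ℕ → X.Γ, sqd f m = 0 → m = 0)
    (he : ∀ q b, (∀ j, b j ∈ X.G q) → P b = 0 → ∃ m : ℕ → X.Γ, (∀ j, m j ∈ X.G q) ∧ b = sqd f m)
    (hs : ∀ q c, c ∈ Y.G q → ∃ b : ℕ → X.Γ, (∀ j, b j ∈ X.G q) ∧ P b = c) :
    QIso (TObj f X) Y (P.comp (LinearMap.fst (MvPowerSeries (Fin n) K) (ℕ → X.Γ) (ℕ → X.Γ))) := by
  have hdd : ∀ b : ℕ → X.Γ, sqmap X.δ (sqmap X.δ b) = 0 := by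
    intro b
    funext j
    exact X.δδ (b j)
  refine ⟨?_, ?_, ?_, ?_, ?_⟩
  · intro i x
    exact nab i x.1
  · rintro ⟨b, m⟩
    change P (sqmap X.δ b + sqd f m) = Y.δ (P b)
    rw [map_add, h0, add_zero, del]
  · intro q x hx
    exact gr q x.1 hx.1
  · rintro q ⟨b, m⟩ ⟨hb, hm⟩ hd ⟨y, hy, hyb⟩
    change teldel X f (b, m) = 0 at hd
    change P b = Y.δ y at hyb
    rw [teldel_apply, Prod.mk_eq_zero] at hd
    obtain ⟨hd1, hd2⟩ := hd
    obtain ⟨e, he1, he2⟩ := hs (q - 1) y hy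
    have hG : ∀ j, (b - sqmap X.δ e) j ∈ X.G q := by
      intro j
      have h1 := X.δG (q - 1) (e j) (he1 j)
      rw [sub_add_cancel] at h1
      exact Submodule.sub_mem _ (hb j) h1
    have hP : P (b - sqmap X.δ e) = 0 := by
      rw [map_sub, del, he2, hyb, sub_self]
    obtain ⟨k, hk1, hk2⟩ := he q _ hG hP
    refine ⟨(e, k), ⟨he1, fun j => ?_⟩, ?_⟩
    · change k j ∈ X.G (q - 1 + 1)
      rw [sub_add_cancel]
      exact hk1 j
    · change (b, m) = teldel X f (e, k)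
      rw [teldel_apply]
      have h2 : sqd f (m + sqmap X.δ k) = 0 := by
        rw [map_add, ← sqmap_sqd, ← hk2, map_sub, hdd, sub_zero, add_comm]
        exact hd1
      have h3 := hi _ h2
      refine Prod.ext ?_ ?_
      · change b = sqmap X.δ e + sqd f k
        rw [← hk2]
        abel
      · change m = - sqmap X.δ k
        exact eq_neg_of_add_eq_zero_left h3
  · intro q y hy hd
    obtain ⟨b, hb1, hb2⟩ := hs q y hy
    have hP : P (- sqmap X.δ b) = 0 := by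
      rw [map_neg, del, hb2, hd, neg_zero]
    obtain ⟨m, hm1, hm2⟩ := he (q + 1) (- sqmap X.δ b)
      (fun j => Submodule.neg_mem _ (X.δG q (b j) (hb1 j))) hP
    have h2 : sqd f (sqmap X.δ m) = 0 := by
      rw [← sqmap_sqd, ← hm2, map_neg, hdd, neg_zero]
    have h3 := hi _ h2
    refine ⟨(b, m), ⟨hb1, hm1⟩, ?_, 0, Submodule.zero_mem _, ?_⟩
    · change teldel X f (b, m) = 0
      rw [teldel_apply, ← hm2, h3, neg_zero, add_neg_cancel]
      rfl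
    · change y = P b + Y.δ 0
      rw [map_zero, add_zero, hb2]

/-- If `0 → X^ℕ → X^ℕ → Y → 0` is degreewise exact, then the telescope of `X` is quasi-isomorphic to `Y`. -/
theorem tele_qiso {X Y : BObj n K} (f : MvPowerSeries (Fin n) K)
    (P : (ℕ → X.Γ) →ₗ[MvPowerSeries (Fin n) K] Y.Γ)
    (nab : ∀ i b, P ((sqconn X.C f).nab i b) = Y.C.nab i (P b))
    (del : ∀ b, P (sqmap X.δ b) = Y.δ (P b))
    (gr : ∀ q b, (∀ j, b j ∈ X.G q) → P b ∈ Y.G q)
    (h0 : ∀ m, P (sqd f m) = 0)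
    (hi : ∀ m : ℕ → X.Γ, sqd f m = 0 → m = 0)
    (he : ∀ q b, (∀ j, b j ∈ X.G q) → P b = 0 → ∃ m : ℕ → X.Γ, (∀ j, m j ∈ X.G q) ∧ b = sqd f m)
    (hs : ∀ q c, c ∈ Y.G q → ∃ b : ℕ → X.Γ, (∀ j, b j ∈ X.G q) ∧ P b = c) :
    Zig (TObj f X) Y :=
  Zig.of _ (TeB_qiso f P nab del gr h0 hi he hs)

end B5a
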