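import Pool.Agent.H.MP_b5a980_ag.AhB
import Pool.Agent.H.MP_b5a980_ag.AhD
import Pool.Agent.H.MP_b5a980_ag.AhE
import Pool.Agent.H.MP_b5a980_ag.KhA
import Pool.Agent.H.MP_b5a980_ag.TeB

set_option autoImplicit false
set_option linter.unusedSectionVars false
set_option linter.style.longLine false

/-!
Adding one equation (MP_b5a980_ag, part D).
-/

namespace B5a

universe u v w

open MvPowerSeries

variable {n : ℕ} {K : Type u} [Field K]

theorem KhB_fS_ne (T : Finset (Fin n)) :
    fS (fun t : Fin n => (X t : MvPowerSeries (Fin n) K)) T ≠ 0 := by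
  unfold fS
  rw [Finset.prod_ne_zero_iff]
  intro t _ h
  have h1 := congrArg (MvPowerSeries.coeff (Finsupp.single t 1)) h
  rw [MvPowerSeries.coeff_X, if_pos rfl, map_zero] at h1
  exact one_ne_zero h1

theorem KhB_ar (J : Ideal (MvPowerSeries (Fin n) K)) {f : MvPowerSeries (Fin n) K} (hf : f ≠ 0)
    (T : Finset (Fin n)) : ARP (RxT n K T) J f :=
  ar_loc (KhB_fS_ne T) J hf

/-- The summation map in each component. -/
noncomputable def KhB_P (I : Ideal (MvPowerSeries (Fin n) K)) (f : MvPowerSeries (Fin n) K)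
    (h : I ≤ I ⊔ Ideal.span {f}) (hf : f ∈ I ⊔ Ideal.span {f}) :
    (ℕ → Kh I) →ₗ[MvPowerSeries (Fin n) K] Kh (I ⊔ Ideal.span {f}) where
  toFun b := fun T => tsm (RxT n K T) h hf (fun j => b j T)
  map_add' := by
    intro x y
    funext T
    exact (tsm (RxT n K T) h hf).map_add (fun j => x j T) (fun j => y j T)
  map_smul' := by
    intro c x
    funext T
    exact (tsm (RxT n K T) h hf).map_smul c (fun j => x j T)

theorem KhB_sqd (I : Ideal (MvPowerSeries (Fin n) K)) (f : MvPowerSeries (Fin n) K)
    (m : ℕ → Kh I) (T : Finset (Fin n)) :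
    (fun j => sqd f m j T) = sqd f (fun j => m j T) := by
  funext j
  cases j with
  | zero => rfl
  | succ k => rfl

/-- Proof. `tele_qiso` for `P b = fun T => tsm _ _ _ (fun j => b j T)`: `tsm_nab`, `tsm_map` (for `incT`; finite signed sums), `tsm_sqd`, `sqd_inj`, `tsm_ker` and `tsm_surj` in each component `T` (with `m_j = 0`, `b_j = 0` in the components of other degrees), `ARP` from `ar_loc` (`fS` of the variables is nonzero). -/
theorem zig_KT (I : Ideal (MvPowerSeries (Fin n) K)) {f : MvPowerSeries (Fin n) K} (hf : f ≠ 0) :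
    Zig (TObj f (KObj I)) (KObj (I ⊔ Ideal.span {f})) := by
  classical
  have h : I ≤ I ⊔ Ideal.span {f} := le_sup_left
  have hfm : f ∈ I ⊔ Ideal.span {f} := Ideal.mem_sup_right (Ideal.mem_span_singleton_self f)
  refine tele_qiso (X := KObj I) (Y := KObj (I ⊔ Ideal.span {f})) f (KhB_P I f h hfm)
    ?_ ?_ ?_ ?_ ?_ ?_ ?_
  · intro i b
    funext T
    exact tsm_nab (xconn n K T) h hfm i (fun j => b j T)
  · intro b
    funext T
    show tsm (RxT n K T) h hfm (fun j => ∑ t ∈ T, sg t T •
      hmap I (incT (Finset.erase_subset t T)) (b j (T.erase t))) =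
      ∑ t ∈ T, sg t T • hmap (I ⊔ Ideal.span {f}) (incT (Finset.erase_subset t T))
        (tsm (RxT n K (T.erase t)) h hfm (fun j => b j (T.erase t)))
    have h1 : (fun j => ∑ t ∈ T, sg t T •
        hmap I (incT (Finset.erase_subset t T)) (b j (T.erase t))) =
        ∑ t ∈ T, sg t T • (fun j => hmap I (incT (Finset.erase_subset t T)) (b j (T.erase t))) := by
      funext j
      rw [Finset.sum_apply]
      rfl
    rw [h1, map_sum]
    refine Finset.sum_congr rfl fun t _ => ?_
    rw [map_zsmul, tsm_map]
  · intro q b hb T hT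
    show tsm (RxT n K T) h hfm (fun j => b j T) = 0
    have h1 : (fun j => b j T) = 0 := by
      funext j
      exact hb j T hT
    rw [h1, map_zero]
  · intro m
    funext T
    have h1 := KhB_sqd I f m T
    have h2 := tsm_sqd h hfm (fun j => m j T)
    exact (congrArg (tsm (RxT n K T) h hfm) h1).trans h2
  · intro m hm
    funext j T
    have h1 : sqd f (fun j => m j T) = 0 := by
      refine (KhB_sqd I f m T).symm.trans ?_
      funext k
      exact congrFun (congrFun hm k) T
    exact congrFun (sqd_inj (KhB_ar I hf T) _ h1) j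
  · intro q b hb hP
    have h1 : ∀ T : Finset (Fin n), ∃ m : ℕ → AdicCompletion I (RxT n K T),
        ((T.card : ℤ) ≠ q → m = 0) ∧ (fun j => b j T) = sqd f m := by
      intro T
      by_cases hT : (T.card : ℤ) = q
      · obtain ⟨m, hm⟩ := tsm_ker (KhB_ar I hf T) (KhB_ar (I ⊔ Ideal.span {f}) hf T) h hfm
          (fun j => b j T) (congrFun hP T)
        exact ⟨m, fun h2 => absurd hT h2, hm⟩
      · refine ⟨0, fun _ => rfl, ?_⟩
        rw [map_zero]
        funext j
        exact hb j T hT
    choose m hm1 hm2 using h1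
    refine ⟨fun j T => m T j, ?_, ?_⟩
    · intro j T hT
      show m T j = 0
      rw [hm1 T hT]
      rfl
    · funext j T
      have h2 := congrFun (hm2 T) j
      have h3 := congrFun (KhB_sqd I f (fun j T => m T j) T) j
      exact h2.trans h3.symm
  · intro q c hc
    have h1 : ∀ T : Finset (Fin n), ∃ b : ℕ → AdicCompletion I (RxT n K T),
        ((T.card : ℤ) ≠ q → b = 0) ∧ tsm (RxT n K T) h hfm b = c T := by
      intro T
      by_cases hT : (T.card : ℤ) = q
      · obtain ⟨b, hb⟩ := tsm_surj h hfm (c T)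
        exact ⟨b, fun h2 => absurd hT h2, hb⟩
      · refine ⟨0, fun _ => rfl, ?_⟩
        rw [map_zero]
        exact (hc T hT).symm
    choose b hb1 hb2 using h1
    refine ⟨fun j T => b T j, ?_, ?_⟩
    · intro j T hT
      show b T j = 0
      rw [hb1 T hT]
      rfl
    · funext T
      exact hb2 T

end B5a
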