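import Pool.Agent.H.MP_b5a980_ag.Ce0

set_option autoImplicit false
set_option linter.unusedSectionVars false
set_option linter.style.longLine false

/-!
Laurent coefficients: definitions (MP_b5a980_ag, part D).
-/

namespace B5a

universe u v w

open MvPowerSeries

variable {n : ℕ} {K : Type u} [Field K]

/-- The product of the variables `x_t`, `t ∈ T`. -/
noncomputable abbrev xT (n : ℕ) (K : Type u) [Field K] (T : Finset (Fin n)) : MvPowerSeries (Fin n) K :=
  fS (fun t : Fin n => (X t : MvPowerSeries (Fin n) K)) T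

/-- The exponent with entries `(α i).toNat`. -/
noncomputable def toFs (α : Fin n → ℤ) : Fin n →₀ ℕ :=
  Finsupp.equivFunOnFinite.symm fun i => (α i).toNat

open Classical in
/-- The coefficient of `x^α` in a Laurent series `x ∈ R_(x_1 ... x_n)`. -/
noncomputable def lcf (x : FF n K) (α : Fin n → ℤ) : K :=
  if h : ∃ (N : ℕ) (r : MvPowerSeries (Fin n) K), inc n K (xT n K Finset.univ) ^ N * x = inc n K r then
    if ∀ i, 0 ≤ α i + h.choose then coeff (toFs fun i => α i + h.choose) h.choose_spec.choose else 0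
  else 0

open Classical in
/-- Extended coefficients of a power series. -/
noncomputable def La0_ec (r : MvPowerSeries (Fin n) K) (γ : Fin n → ℤ) : K :=
  if ∀ i, 0 ≤ γ i then coeff (toFs γ) r else 0

theorem La0_ec_pos (r : MvPowerSeries (Fin n) K) {γ : Fin n → ℤ} (h : ∀ i, 0 ≤ γ i) :
    La0_ec r γ = coeff (toFs γ) r := if_pos h

theorem La0_ec_neg (r : MvPowerSeries (Fin n) K) {γ : Fin n → ℤ} (h : ¬ ∀ i, 0 ≤ γ i) :
    La0_ec r γ = 0 := if_neg h

theorem La0_toFs_apply (γ : Fin n → ℤ) (i : Fin n) : toFs γ i = (γ i).toNat := rfl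

theorem La0_toFs_nat (β : Fin n →₀ ℕ) : toFs (fun i => (β i : ℤ)) = β := by
  ext i
  rw [La0_toFs_apply]
  simp

theorem La0_ec_nat (r : MvPowerSeries (Fin n) K) (β : Fin n →₀ ℕ) :
    La0_ec r (fun i => (β i : ℤ)) = coeff β r := by
  rw [La0_ec_pos r (fun i => by positivity), La0_toFs_nat]

theorem La0_ec_ext {r s : MvPowerSeries (Fin n) K} (h : ∀ γ, La0_ec r γ = La0_ec s γ) : r = s := by
  ext β
  rw [← La0_ec_nat, ← La0_ec_nat, h]

theorem La0_ec_add (r s : MvPowerSeries (Fin n) K) (γ : Fin n → ℤ) :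
    La0_ec (r + s) γ = La0_ec r γ + La0_ec s γ := by
  by_cases h : ∀ i, 0 ≤ γ i
  · rw [La0_ec_pos _ h, La0_ec_pos _ h, La0_ec_pos _ h, map_add]
  · rw [La0_ec_neg _ h, La0_ec_neg _ h, La0_ec_neg _ h, add_zero]

theorem La0_ec_smul (c : K) (r : MvPowerSeries (Fin n) K) (γ : Fin n → ℤ) :
    La0_ec (c • r) γ = c * La0_ec r γ := by
  by_cases h : ∀ i, 0 ≤ γ i
  · rw [La0_ec_pos _ h, La0_ec_pos _ h, map_smul, smul_eq_mul]
  · rw [La0_ec_neg _ h, La0_ec_neg _ h, mul_zero]

theorem La0_ec_monomial_mul (β : Fin n →₀ ℕ) (r : MvPowerSeries (Fin n) K) (γ : Fin n → ℤ) :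
    La0_ec ((monomial β 1 : MvPowerSeries (Fin n) K) * r) γ = La0_ec r (fun i => γ i - β i) := by
  by_cases h : ∀ i, 0 ≤ γ i - β i
  · have h1 : ∀ i, 0 ≤ γ i := fun i => by have := h i; omega
    have h2 : β ≤ toFs γ := by
      intro i
      rw [La0_toFs_apply]
      have := h i
      omega
    rw [La0_ec_pos _ h1, La0_ec_pos _ h, coeff_monomial_mul, if_pos h2, one_mul]
    congr 1
    congr 1
    ext i
    rw [Finsupp.tsub_apply, La0_toFs_apply, La0_toFs_apply]
    have := h i
    omega
  · rw [La0_ec_neg (γ := fun i => γ i - β i) _ h]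
    by_cases h1 : ∀ i, 0 ≤ γ i
    · rw [La0_ec_pos _ h1, coeff_monomial_mul, if_neg]
      intro h2
      apply h
      intro i
      have h3 := h2 i
      rw [La0_toFs_apply] at h3
      have := h1 i
      omega
    · rw [La0_ec_neg _ h1]

/-- The exponent of `xT`. -/
noncomputable def La0_ch (T : Finset (Fin n)) : Fin n →₀ ℕ := ∑ t ∈ T, Finsupp.single t 1

theorem La0_ch_apply (T : Finset (Fin n)) (i : Fin n) : La0_ch T i = if i ∈ T then 1 else 0 := by
  unfold La0_ch
  rw [Finsupp.finsetSum_apply]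
  simp only [Finsupp.single_apply]
  rw [Finset.sum_ite_eq' T i (fun _ => 1)]

theorem La0_xT (T : Finset (Fin n)) : xT n K T = monomial (La0_ch T) 1 := by
  classical
  unfold xT fS La0_ch
  induction T using Finset.induction_on with
  | empty => rw [Finset.prod_empty, Finset.sum_empty]; rfl
  | insert a T ha ih =>
    rw [Finset.prod_insert ha, Finset.sum_insert ha, ih, X, monomial_mul_monomial, one_mul]

theorem La0_xT_pow (T : Finset (Fin n)) (N : ℕ) :
    xT n K T ^ N = monomial (N • La0_ch T) 1 := by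
  rw [La0_xT, monomial_pow, one_pow]

theorem La0_xT_ne (T : Finset (Fin n)) : xT n K T ≠ 0 := by
  intro h
  have h1 : coeff (La0_ch T) (xT n K T) = 1 := by rw [La0_xT, coeff_monomial_same]
  rw [h, map_zero] at h1
  exact zero_ne_one h1

theorem La0_ec_pow_mul (T : Finset (Fin n)) (N : ℕ) (r : MvPowerSeries (Fin n) K) (γ : Fin n → ℤ) :
    La0_ec (xT n K T ^ N * r) γ = La0_ec r (fun i => γ i - if i ∈ T then (N : ℤ) else 0) := by
  rw [La0_xT_pow, La0_ec_monomial_mul]
  congr 1
  funext i
  rw [Finsupp.smul_apply, La0_ch_apply]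
  split_ifs <;> simp

theorem La0_ec_univ_mul (N : ℕ) (r : MvPowerSeries (Fin n) K) (γ : Fin n → ℤ) :
    La0_ec (xT n K Finset.univ ^ N * r) γ = La0_ec r (fun i => γ i - N) := by
  rw [La0_ec_pow_mul]
  congr 1
  funext i
  rw [if_pos (Finset.mem_univ i)]

theorem La0_inj {r s : MvPowerSeries (Fin n) K} (h : inc n K r = inc n K s) : r = s :=
  IsFractionRing.injective (MvPowerSeries (Fin n) K) (FF n K) h

theorem La0_lcf {x : FF n K} {N : ℕ} {r : MvPowerSeries (Fin n) K}
    (h : inc n K (xT n K Finset.univ) ^ N * x = inc n K r) (α : Fin n → ℤ) :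
    lcf x α = La0_ec r (fun i => α i + N) := by
  have hex : ∃ (N : ℕ) (r : MvPowerSeries (Fin n) K),
    inc n K (xT n K Finset.univ) ^ N * x = inc n K r := ⟨N, r, h⟩
  have h0 := hex.choose_spec.choose_spec
  have e1 : lcf x α = La0_ec hex.choose_spec.choose (fun i => α i + hex.choose) := by
    unfold lcf La0_ec
    rw [dif_pos hex]
  rw [e1]
  generalize hex.choose_spec.choose = r0 at h0 ⊢
  generalize hex.choose = N0 at h0 ⊢
  have e2 : xT n K Finset.univ ^ N * r0 = xT n K Finset.univ ^ N0 * r := by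
    apply La0_inj
    rw [map_mul, map_mul, ← h0, ← h, map_pow, map_pow]
    ring
  have e3 := La0_ec_univ_mul N r0 (fun i => α i + N0 + N)
  have e4 := La0_ec_univ_mul N0 r (fun i => α i + N0 + N)
  rw [e2, e4] at e3
  have e5 : (fun i => α i + (N0 : ℤ) + N - N0) = fun i => α i + N := by
    funext i
    ring
  have e6 : (fun i => α i + (N0 : ℤ) + N - N) = fun i => α i + N0 := by
    funext i
    ring
  rw [e5, e6] at e3
  exact e3.symm

theorem La0_ec_XD (i : Fin n) (r : MvPowerSeries (Fin n) K) (γ : Fin n → ℤ) :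
    La0_ec ((X i : MvPowerSeries (Fin n) K) * pderiv K i r) γ = (γ i : K) * La0_ec r γ := by
  rw [X, La0_ec_monomial_mul]
  by_cases h : ∀ j, 0 ≤ γ j
  · by_cases h1 : 0 < γ i
    · have h2 : ∀ j, 0 ≤ γ j - (Finsupp.single i 1 : Fin n →₀ ℕ) j := by
        intro j
        rw [Finsupp.single_apply]
        split_ifs with h3
        · subst h3
          push_cast
          omega
        · have := h j
          simpa using this
      rw [La0_ec_pos _ h, La0_ec_pos (γ := fun j => γ j - (Finsupp.single i 1 : Fin n →₀ ℕ) j) _ h2,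
        coeff_pderiv]
      have h3 : toFs (fun j => γ j - (Finsupp.single i 1 : Fin n →₀ ℕ) j) + Finsupp.single i 1 =
          toFs γ := by
        ext j
        rw [Finsupp.add_apply, La0_toFs_apply, La0_toFs_apply]
        have := h2 j
        have := h j
        omega
      have h4 : ((toFs (fun j => γ j - (Finsupp.single i 1 : Fin n →₀ ℕ) j) i : ℕ) : K) + 1 =
          (γ i : K) := by
        rw [La0_toFs_apply, Finsupp.single_eq_same]
        have h5 : ((γ i - ((1 : ℕ) : ℤ)).toNat : ℤ) = γ i - 1 := by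
          rw [Int.toNat_of_nonneg (by push_cast; omega)]
          push_cast
          ring
        have h6 : (((γ i - ((1 : ℕ) : ℤ)).toNat : ℤ) : K) = ((γ i - 1 : ℤ) : K) := by rw [h5]
        rw [Int.cast_natCast] at h6
        rw [h6]
        push_cast
        ring
      rw [h3, h4, mul_comm]
    · have h2 : γ i = 0 := le_antisymm (not_lt.1 h1) (h i)
      rw [h2, Int.cast_zero, zero_mul, La0_ec_neg]
      intro h3
      have h4 := h3 i
      rw [Finsupp.single_eq_same] at h4
      push_cast at h4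
      omega
  · rw [La0_ec_neg _ h, mul_zero, La0_ec_neg]
    intro h3
    apply h
    intro j
    have h4 := h3 j
    have h5 : (0 : ℤ) ≤ (Finsupp.single i 1 : Fin n →₀ ℕ) j := by positivity
    omega

theorem La0_X_pderiv_xu (i : Fin n) :
    (X i : MvPowerSeries (Fin n) K) * pderiv K i (xT n K Finset.univ) = xT n K Finset.univ := by
  apply La0_ec_ext
  intro γ
  rw [La0_ec_XD]
  by_cases h : La0_ec (xT n K Finset.univ) γ = 0
  · rw [h, mul_zero]
  · have h1 : ∀ j, 0 ≤ γ j := by
      by_contra h2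
      exact h (La0_ec_neg _ h2)
    have h2 : toFs γ = La0_ch Finset.univ := by
      rw [La0_ec_pos _ h1, La0_xT] at h
      exact eq_of_coeff_monomial_ne_zero h
    have h3 := DFunLike.congr_fun h2 i
    rw [La0_toFs_apply, La0_ch_apply, if_pos (Finset.mem_univ i)] at h3
    have h4 : γ i = 1 := by
      have := h1 i
      omega
    rw [h4, Int.cast_one, one_mul]

open Classical in
/-- Proof. If `x_u^N x = r` and `x_u^N' x = r'` (`x_u = x_1 ... x_n`) then `x_u^N' r = x_u^N r'` (`inc` is injective); compare coefficients (`x_u^N` is the monomial with exponent `(N, .., N)`). -/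
theorem lcf_eq {x : FF n K} {N : ℕ} {r : MvPowerSeries (Fin n) K}
    (h : inc n K (xT n K Finset.univ) ^ N * x = inc n K r) (α : Fin n → ℤ) :
    lcf x α = if ∀ i, 0 ≤ α i + N then coeff (toFs fun i => α i + N) r else 0 := by
  rw [La0_lcf h, La0_ec]

theorem lcf_add {x y : FF n K} (hx : x ∈ loc (xT n K Finset.univ)) (hy : y ∈ loc (xT n K Finset.univ))
    (α : Fin n → ℤ) : lcf (x + y) α = lcf x α + lcf y α := by
  obtain ⟨N, r, hr⟩ := hx
  obtain ⟨N', r', hr'⟩ := hy
  have h1 : inc n K (xT n K Finset.univ) ^ (N + N') * (x + y) =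
      inc n K (xT n K Finset.univ ^ N' * r + xT n K Finset.univ ^ N * r') := by
    rw [map_add, map_mul, map_mul, map_pow, map_pow, ← hr, ← hr']
    ring
  rw [La0_lcf h1, La0_lcf hr, La0_lcf hr', La0_ec_add, La0_ec_univ_mul, La0_ec_univ_mul]
  congr 2
  · funext i
    push_cast
    ring
  · funext i
    push_cast
    ring

theorem lcf_smul (c : K) {x : FF n K} (hx : x ∈ loc (xT n K Finset.univ)) (α : Fin n → ℤ) :
    lcf (c • x) α = c * lcf x α := by
  obtain ⟨N, r, hr⟩ := hx
  have h1 : inc n K (xT n K Finset.univ) ^ N * (c • x) = inc n K (c • r) := by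
    rw [mul_smul_comm, hr, Algebra.algebraMap_eq_smul_one, Algebra.algebraMap_eq_smul_one,
      smul_assoc]
  rw [La0_lcf h1, La0_lcf hr, La0_ec_smul]

theorem lcf_ext {x : FF n K} (hx : x ∈ loc (xT n K Finset.univ)) (h : ∀ α, lcf x α = 0) : x = 0 := by
  obtain ⟨N, r, hr⟩ := hx
  have h1 : r = 0 := by
    ext β
    have h2 := h fun i => (β i : ℤ) - N
    rw [La0_lcf hr] at h2
    have h3 : (fun i => (β i : ℤ) - N + N) = fun i => (β i : ℤ) := by
      funext i
      ring
    rw [h3, La0_ec_nat] at h2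
    rw [h2, map_zero]
  rw [h1, map_zero] at hr
  rcases mul_eq_zero.1 hr with h2 | h2
  · exact absurd (eq_zero_of_pow_eq_zero h2) (inc_ne_zero (La0_xT_ne _))
  · exact h2

/-- Multiplication by a monomial shifts the coefficients. -/
theorem lcf_monomial {x : FF n K} (hx : x ∈ loc (xT n K Finset.univ)) (β : Fin n →₀ ℕ) (α : Fin n → ℤ) :
    lcf ((monomial β 1 : MvPowerSeries (Fin n) K) • x) α = lcf x fun i => α i - β i := by
  obtain ⟨N, r, hr⟩ := hx
  have h1 : inc n K (xT n K Finset.univ) ^ N * ((monomial β 1 : MvPowerSeries (Fin n) K) • x) =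
      inc n K ((monomial β 1 : MvPowerSeries (Fin n) K) * r) := by
    rw [mul_smul_comm, hr, map_mul, Algebra.smul_def]
  rw [La0_lcf h1, La0_lcf hr, La0_ec_monomial_mul]
  congr 1
  funext i
  ring

/-- If `x_u^N x ∈ R` then `lcf x α = 0` unless `α i ≥ - N` for all `i`. -/
theorem lcf_bound {x : FF n K} (hx : x ∈ loc (xT n K Finset.univ)) :
    ∃ N : ℕ, ∀ α : Fin n → ℤ, lcf x α ≠ 0 → ∀ i, -(N : ℤ) ≤ α i := by
  obtain ⟨N, r, hr⟩ := hx
  refine ⟨N, fun α hα => ?_⟩
  rw [La0_lcf hr] at hα
  by_contra h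
  apply hα
  apply La0_ec_neg
  intro h1
  apply h
  intro i
  have := h1 i
  omega

/-- Every family of coefficients bounded below comes from a Laurent series. -/
theorem exists_lcf (N : ℕ) (φ : (Fin n → ℤ) → K) (h : ∀ α, φ α ≠ 0 → ∀ i, -(N : ℤ) ≤ α i) :
    ∃ x ∈ loc (xT n K Finset.univ), ∀ α, lcf x α = φ α := by
  let r : MvPowerSeries (Fin n) K := fun β => φ fun i => (β i : ℤ) - N
  have hu : inc n K (xT n K Finset.univ) ^ N ≠ 0 := pow_ne_zero _ (inc_ne_zero (La0_xT_ne _))
  have hx : inc n K (xT n K Finset.univ) ^ N * (inc n K r / inc n K (xT n K Finset.univ) ^ N) =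
      inc n K r := mul_div_cancel₀ _ hu
  refine ⟨inc n K r / inc n K (xT n K Finset.univ) ^ N, ⟨N, r, hx⟩, fun α => ?_⟩
  rw [La0_lcf hx]
  by_cases h1 : ∀ i, 0 ≤ α i + N
  · rw [La0_ec_pos _ h1]
    change φ (fun i => ((toFs (fun i => α i + N) i : ℕ) : ℤ) - N) = φ α
    congr 1
    funext i
    rw [La0_toFs_apply, Int.toNat_of_nonneg (h1 i)]
    ring
  · rw [La0_ec_neg _ h1]
    by_contra h2
    apply h1
    intro i
    have := h α (Ne.symm h2) i
    omega

/-- Proof. `⇒`: `x_T^N x = r`, `x_u^N x = (∏_(i ∉ T) x_i)^N r`, the coefficient at `α + N` vanishes unless `α i ≥ 0` for `i ∉ T`. `⇐`: `x_u^N x = r` and the coefficients of `r` at `β` vanish unless `β i ≥ N` for `i ∉ T`, so `r = (∏_(i ∉ T) x_i)^N r'` and `x_T^N x = r'`. -/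
theorem mem_loc_iff {x : FF n K} (hx : x ∈ loc (xT n K Finset.univ)) (T : Finset (Fin n)) :
    x ∈ loc (xT n K T) ↔ ∀ α, lcf x α ≠ 0 → ∀ i, i ∉ T → 0 ≤ α i := by
  classical
  have hprod : xT n K Finset.univ = xT n K Tᶜ * xT n K T := by
    unfold xT fS
    exact (Finset.prod_compl_mul_prod T _).symm
  constructor
  · rintro ⟨N, r, hr⟩ α hα i hi
    have h1 : inc n K (xT n K Finset.univ) ^ N * x = inc n K (xT n K Tᶜ ^ N * r) := by
      rw [hprod, map_mul, map_mul, map_pow, ← hr, mul_pow]
      ring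
    rw [La0_lcf h1, La0_ec_pow_mul] at hα
    by_contra h2
    apply hα
    apply La0_ec_neg
    intro h3
    have h4 := h3 i
    rw [if_pos (Finset.mem_compl.2 hi)] at h4
    omega
  · intro h
    obtain ⟨N, r, hr⟩ := hx
    let r' : MvPowerSeries (Fin n) K := fun β => coeff (β + N • La0_ch Tᶜ) r
    have h1 : r = xT n K Tᶜ ^ N * r' := by
      apply La0_ec_ext
      intro γ
      rw [La0_ec_pow_mul]
      by_cases h2 : ∀ i, 0 ≤ γ i - if i ∈ Tᶜ then (N : ℤ) else 0
      · have h3 : ∀ i, 0 ≤ γ i := by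
          intro i
          have h4 := h2 i
          split_ifs at h4 <;> omega
        rw [La0_ec_pos _ h3, La0_ec_pos (γ := fun i => γ i - if i ∈ Tᶜ then (N : ℤ) else 0) _ h2]
        change coeff (toFs γ) r =
          coeff (toFs (fun i => γ i - if i ∈ Tᶜ then (N : ℤ) else 0) + N • La0_ch Tᶜ) r
        congr 1
        congr 1
        ext i
        rw [Finsupp.add_apply, Finsupp.smul_apply, La0_toFs_apply, La0_toFs_apply, La0_ch_apply]
        have h4 := h2 i
        have h5 := h3 i
        split_ifs at h4 ⊢ with h6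
        · rw [smul_eq_mul, mul_one]
          omega
        · simp
      · rw [La0_ec_neg (γ := fun i => γ i - if i ∈ Tᶜ then (N : ℤ) else 0) _ h2]
        by_contra h3
        have h4 : lcf x (fun i => γ i - N) ≠ 0 := by
          rw [La0_lcf hr]
          have h5 : (fun i => γ i - (N : ℤ) + N) = γ := by
            funext i
            ring
          rw [h5]
          exact h3
        apply h2
        intro i
        by_cases h5 : i ∈ Tᶜ
        · rw [if_pos h5]
          exact h _ h4 i (Finset.mem_compl.1 h5)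
        · rw [if_neg h5, sub_zero]
          by_contra h6
          apply h3
          apply La0_ec_neg
          intro h7
          exact h6 (h7 i)
    refine ⟨N, r', ?_⟩
    have h2 : inc n K (xT n K Tᶜ) ^ N ≠ 0 := pow_ne_zero _ (inc_ne_zero (La0_xT_ne _))
    apply mul_left_cancel₀ h2
    rw [← map_pow, ← map_mul, ← h1, ← hr, hprod, map_pow, map_mul, mul_pow]
    ring

/-- Proof. `x_u^N x = r`; `x_i x_u^N ∂_i x = x_i ∂_i r - N r`, so `x_u^(N+1) ∂_i x = (∏_(j ≠ i) x_j) (x_i ∂_i r - N r)`; the coefficient of `x_i ∂_i r - N r` at `β` is `(β i - N)` times that of `r`. -/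
theorem lcf_dF {x : FF n K} (hx : x ∈ loc (xT n K Finset.univ)) (i : Fin n) (α : Fin n → ℤ) :
    lcf (dF n K i x) α = (α i + 1 : ℤ) * lcf x (Function.update α i (α i + 1)) := by
  classical
  obtain ⟨N, r, hr⟩ := hx
  have hprod : xT n K Finset.univ = xT n K {i}ᶜ * X i := by
    unfold xT fS
    rw [← Finset.prod_compl_mul_prod {i}, Finset.prod_singleton]
  have h1 : inc n K (xT n K Finset.univ) ^ N * dF n K i x +
      (N : FF n K) * (inc n K (xT n K Finset.univ) ^ (N - 1) *
        inc n K (pderiv K i (xT n K Finset.univ))) * x = inc n K (pderiv K i r) := by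
    have h2 : dF n K i (inc n K (xT n K Finset.univ) ^ N * x) = inc n K (pderiv K i r) := by
      rw [hr, dF_inc]
    rw [Derivation.leibniz, Derivation.leibniz_pow, dF_inc] at h2
    simp only [smul_eq_mul, nsmul_eq_mul] at h2
    rw [← h2]
    ring
  have h3 : inc n K (X i) * (inc n K (xT n K Finset.univ) ^ N * dF n K i x) +
      (N : FF n K) * inc n K r = inc n K (X i * pderiv K i r) := by
    rw [map_mul, ← h1, ← hr, mul_add]
    congr 1
    rcases N with _ | N
    · simp
    · have h4 : inc n K (X i) * inc n K (pderiv K i (xT n K Finset.univ)) =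
          inc n K (xT n K Finset.univ) := by
        rw [← map_mul, La0_X_pderiv_xu]
      rw [Nat.add_sub_cancel, pow_succ]
      calc ((N + 1 : ℕ) : FF n K) * (inc n K (xT n K Finset.univ) ^ N *
            inc n K (xT n K Finset.univ) * x)
          = ((N + 1 : ℕ) : FF n K) * (inc n K (xT n K Finset.univ) ^ N *
            (inc n K (X i) * inc n K (pderiv K i (xT n K Finset.univ))) * x) := by rw [h4]
        _ = _ := by ring
  have h5 : inc n K (xT n K Finset.univ) ^ (N + 1) * dF n K i x =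
      inc n K (xT n K {i}ᶜ ^ 1 * (X i * pderiv K i r + (-(N : K)) • r)) := by
    have h6 : inc n K ((-(N : K)) • r) = -((N : FF n K) * inc n K r) := by
      rw [Algebra.algebraMap_eq_smul_one, smul_assoc, ← Algebra.algebraMap_eq_smul_one,
        Algebra.smul_def, map_neg, map_natCast]
      ring
    rw [pow_one, map_mul, map_add, h6, ← h3, pow_succ]
    nth_rewrite 2 [hprod]
    rw [map_mul]
    ring
  rw [La0_lcf h5, La0_lcf hr, La0_ec_pow_mul, La0_ec_add, La0_ec_XD, La0_ec_smul]
  have h7 : (fun j => α j + ((N + 1 : ℕ) : ℤ) - if j ∈ ({i}ᶜ : Finset (Fin n)) then ((1 : ℕ) : ℤ) else 0) =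
      fun j => Function.update α i (α i + 1) j + (N : ℤ) := by
    funext j
    by_cases hj : j = i
    · subst hj
      rw [if_neg (by simp), Function.update_self]
      push_cast
      ring
    · rw [if_pos (by simp [hj]), Function.update_of_ne hj]
      push_cast
      ring
  rw [h7, if_neg (by simp)]
  push_cast
  ring

/-- Continuity of the coefficients.

Proof. `x_u^N x = r0`; `lcf (r • x) α` is the coefficient of `r r0` at `α + N` (or zero); it vanishes if `r ∈ mI (|α + N| + 1)`. -/
theorem lcf_cont {x : FF n K} (hx : x ∈ loc (xT n K Finset.univ)) (α : Fin n → ℤ) :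
    ∃ N : ℕ, ∀ r ∈ mI n K N, lcf (r • x) α = 0 := by
  obtain ⟨N, r0, hr0⟩ := hx
  refine ⟨(toFs fun i => α i + (N : ℤ)).degree + 1, fun r hr => ?_⟩
  have h1 : inc n K (xT n K Finset.univ) ^ N * (r • x) = inc n K (r0 * r) := by
    rw [mul_smul_comm, hr0, map_mul, Algebra.smul_def, mul_comm]
  rw [La0_lcf h1]
  by_cases h2 : ∀ i, 0 ≤ α i + (N : ℤ)
  · rw [La0_ec_pos _ h2]
    exact (mem_mI.1 (Ideal.mul_mem_left _ r0 hr)) _ (Nat.lt_succ_self _)
  · exact La0_ec_neg _ h2

end B5a
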