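import Pool.Agent.H.MP_b5a980_ag.As0
import Pool.Agent.H.MP_b5a980_ag.La0

set_option autoImplicit false
set_option linter.unusedSectionVars false
set_option linter.style.longLine false

/-!
Exactness of the Cech complex of the variables (MP_b5a980_ag, part D).
-/

namespace B5a

universe u v w

open MvPowerSeries

variable {n : ℕ} {K : Type u} [Field K]

/-- The Cech complex of `R` for the variables. -/
noncomputable def P0 (n : ℕ) (K : Type u) [Field K] : BObj n K where
  Γ := CC fun t : Fin n => (X t : MvPowerSeries (Fin n) K)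
  C := ccn _
  δ := cce _
  G q :=
    { carrier := {c | ∀ T : Finset (Fin n), (T.card : ℤ) ≠ q → (c : Fm n (FF n K)) T = 0}
      add_mem' := by
        intro x y hx hy T h
        show (x : Fm n (FF n K)) T + (y : Fm n (FF n K)) T = 0
        rw [hx T h, hy T h, add_zero]
      zero_mem' := fun _ _ => rfl
      smul_mem' := by
        intro a x hx T h
        show a • (x : Fm n (FF n K)) T = 0
        rw [hx T h, smul_zero] }
  δδ := by
    intro x
    exact Subtype.ext (cech_cech _)
  δC := by
    intro i x
    exact Subtype.ext (cech_nab i _)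
  δG := by
    intro q x hx T hT
    show ∑ s ∈ T, sg s T • (x : Fm n (FF n K)) (T.erase s) = 0
    refine Finset.sum_eq_zero fun s hs => ?_
    have h1 := Finset.card_erase_of_mem hs
    have h2 := Finset.card_pos.2 ⟨s, hs⟩
    rw [hx (T.erase s) (by omega)]
    exact zsmul_zero _
  GC := by
    intro q i x hx T hT
    show dF n K i ((x : Fm n (FF n K)) T) = 0
    rw [hx T hT, map_zero]

theorem La1_lcf_zero (α : Fin n → ℤ) : lcf (0 : FF n K) α = 0 := by
  have h := lcf_add (n := n) (K := K) (Submodule.zero_mem _) (Submodule.zero_mem _) α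
  rw [add_zero] at h
  exact (add_eq_left.1 h.symm)

theorem La1_lcf_sum {ι : Type*} (s : Finset ι) (x : ι → ↥(loc (xT n K Finset.univ)))
    (α : Fin n → ℤ) :
    lcf ((∑ i ∈ s, x i : ↥(loc (xT n K Finset.univ))) : FF n K) α =
      ∑ i ∈ s, lcf (x i : FF n K) α := by
  classical
  induction s using Finset.induction_on with
  | empty =>
    rw [Finset.sum_empty, Finset.sum_empty]
    exact La1_lcf_zero α
  | insert a s ha ih =>
    rw [Finset.sum_insert ha, Finset.sum_insert ha, ← ih]
    exact lcf_add (x a).2 (∑ i ∈ s, x i : ↥(loc (xT n K Finset.univ))).2 α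

theorem La1_ext {x y : ↥(loc (xT n K Finset.univ))}
    (h : ∀ α, lcf (x : FF n K) α = lcf (y : FF n K) α) : x = y := by
  have h1 : x - y = 0 := by
    refine Subtype.ext (lcf_ext (x - y).2 fun α => ?_)
    have h2 := lcf_add (x - y).2 y.2 α
    have h3 : ((x - y : ↥(loc (xT n K Finset.univ))) : FF n K) + (y : FF n K) = (x : FF n K) := by
      show ((x : FF n K) - (y : FF n K)) + (y : FF n K) = (x : FF n K)
      rw [sub_add_cancel]
    rw [h3, h α] at h2
    exact (add_eq_right.1 h2.symm)
  exact sub_eq_zero.1 h1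

/-- The part of a Laurent series consisting of the monomials `x^α` with `P α`. -/
theorem exists_part (P : (Fin n → ℤ) → Prop) :
    ∃ p : ↥(loc (xT n K Finset.univ)) →ₗ[K] ↥(loc (xT n K Finset.univ)),
      ∀ x α, (P α → lcf (p x : FF n K) α = lcf (x : FF n K) α) ∧ (¬ P α → lcf (p x : FF n K) α = 0) := by
  classical
  have h : ∀ x : ↥(loc (xT n K Finset.univ)), ∃ y : ↥(loc (xT n K Finset.univ)),
      ∀ α, lcf (y : FF n K) α = if P α then lcf (x : FF n K) α else 0 := by
    intro x
    obtain ⟨N, hN⟩ := lcf_bound x.2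
    obtain ⟨y, hy, hy'⟩ := exists_lcf N (fun α => if P α then lcf (x : FF n K) α else 0) (by
      intro α hα
      by_cases hP : P α
      · rw [if_pos hP] at hα
        exact hN α hα
      · rw [if_neg hP] at hα
        exact absurd rfl hα)
    exact ⟨⟨y, hy⟩, hy'⟩
  choose p hp using h
  refine ⟨{ toFun := p
            map_add' := fun x y => La1_ext fun α => ?_
            map_smul' := fun c x => La1_ext fun α => ?_ }, fun x α => ⟨fun hP => ?_, fun hP => ?_⟩⟩
  · have h1 : lcf ((p x + p y : ↥(loc (xT n K Finset.univ))) : FF n K) α =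
        lcf (p x : FF n K) α + lcf (p y : FF n K) α := lcf_add (p x).2 (p y).2 α
    have h2 : lcf ((x + y : ↥(loc (xT n K Finset.univ))) : FF n K) α =
        lcf (x : FF n K) α + lcf (y : FF n K) α := lcf_add x.2 y.2 α
    rw [h1, hp, hp, hp, h2]
    split_ifs
    · rfl
    · rw [add_zero]
  · have h1 : lcf ((c • p x : ↥(loc (xT n K Finset.univ))) : FF n K) α =
        c * lcf (p x : FF n K) α := lcf_smul c (p x).2 α
    have h2 : lcf ((c • x : ↥(loc (xT n K Finset.univ))) : FF n K) α =
        c * lcf (x : FF n K) α := lcf_smul c x.2 α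
    rw [RingHom.id_apply, h1, hp, hp, h2]
    split_ifs
    · rfl
    · rw [mul_zero]
  · exact (hp x α).trans (if_pos hP)
  · exact (hp x α).trans (if_neg hP)

/-- Exactness of the Cech complex of the variables. -/
theorem p0_exact (q : ℤ) (c : (P0 n K).Γ) (hc : c ∈ (P0 n K).G q) (hd : (P0 n K).δ c = 0)
    (hneg : ∀ α : Fin n → ℤ, (∀ i, α i < 0) →
      lcf ((show CC (fun t : Fin n => (X t : MvPowerSeries (Fin n) K)) from c : Fm n (FF n K))
        Finset.univ) α = 0) :
    ∃ b ∈ (P0 n K).G (q - 1), c = (P0 n K).δ b := by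
  classical
  let c' : CC (fun t : Fin n => (X t : MvPowerSeries (Fin n) K)) := c
  have hcT : ∀ T : Finset (Fin n), (c' : Fm n (FF n K)) T ∈ loc (xT n K T) := fun T => c'.2 T
  let L := ↥(loc (xT n K (Finset.univ : Finset (Fin n))))
  let om : Fm n L := fun T => ⟨(c' : Fm n (FF n K)) T, loc_mono _ (Finset.subset_univ T) (hcT T)⟩
  let P : Fin n → (Fin n → ℤ) → Prop := fun t α => 0 ≤ α t ∧ ∀ i, i < t → α i < 0
  choose p hp using fun t => exists_part (K := K) (P t)
  have hext0 : ext (fun _ : Fin n => (LinearMap.id : L →ₗ[K] L)) om = 0 := by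
    funext T
    refine Subtype.ext ?_
    have h0 : cce (fun t : Fin n => (X t : MvPowerSeries (Fin n) K)) c' = 0 := hd
    have h1 : ((cce (fun t : Fin n => (X t : MvPowerSeries (Fin n) K)) c' :
        CC (fun t : Fin n => (X t : MvPowerSeries (Fin n) K))) : Fm n (FF n K)) T = 0 := by
      rw [h0]
      rfl
    have h2 : ((ext (fun _ : Fin n => (LinearMap.id : L →ₗ[K] L)) om T : L) : FF n K) =
        ∑ s ∈ T, sg s T • (c' : Fm n (FF n K)) (T.erase s) := by
      rw [FoA_ext]
      exact map_sum (loc (xT n K (Finset.univ : Finset (Fin n)))).subtype _ _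
    rw [h2]
    exact h1
  have hsum : ∀ T, ∑ i, p i (om T) = om T := by
    intro T
    refine La1_ext fun α => ?_
    rw [La1_lcf_sum]
    by_cases hα : ∃ i, 0 ≤ α i
    · have hmin := Finset.exists_min_image (Finset.univ.filter fun i => 0 ≤ α i) id
        (by
          obtain ⟨i, hi⟩ := hα
          exact ⟨i, by simpa using hi⟩)
      obtain ⟨t, ht, htm⟩ := hmin
      have ht0 : 0 ≤ α t := (Finset.mem_filter.1 ht).2
      have hPt : P t α := ⟨ht0, fun i hi => by
        by_contra h
        have h1 := htm i (by
          rw [Finset.mem_filter]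
          exact ⟨Finset.mem_univ i, not_lt.1 h⟩)
        exact absurd h1 (not_le.2 hi)⟩
      rw [Finset.sum_eq_single t]
      · exact (hp t (om T) α).1 hPt
      · intro s _ hs
        refine (hp s (om T) α).2 ?_
        rintro ⟨h1, h2⟩
        rcases lt_or_gt_of_ne hs with h | h
        · exact absurd (hPt.2 s h) (not_lt.2 h1)
        · exact absurd (h2 t h) (not_lt.2 ht0)
      · intro h
        exact absurd (Finset.mem_univ t) h
    · have hα' : ∀ i, α i < 0 := fun i => not_le.1 fun h => hα ⟨i, h⟩
      have h1 : lcf (om T : FF n K) α = 0 := by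
        by_cases hT : T = Finset.univ
        · subst hT
          exact hneg α hα'
        · obtain ⟨i, hi⟩ : ∃ i, i ∉ T := by
            by_contra h
            exact hT (Finset.eq_univ_of_forall fun i => by
              by_contra h'
              exact h ⟨i, h'⟩)
          by_contra h2
          exact absurd ((mem_loc_iff (om T).2 T).1 (hcT T) α h2 i hi) (not_le.2 (hα' i))
      rw [h1]
      refine Finset.sum_eq_zero fun i _ => (hp i (om T) α).2 ?_
      rintro ⟨h2, _⟩
      exact absurd (hα' i) (not_lt.2 h2)
  have hcar : ∀ T, ext (fun _ : Fin n => (LinearMap.id : L →ₗ[K] L)) (con p om) T = om T := by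
    intro T
    have h1 := car (fun _ : Fin n => (LinearMap.id : L →ₗ[K] L)) p (fun i j _ m => rfl) om T
    rw [hext0, map_zero, Pi.zero_apply, add_zero] at h1
    rw [h1]
    refine Eq.trans ?_ (hsum T)
    exact Finset.sum_add_sum_compl T fun i => p i (om T)
  have hb : ∀ T, ((con p om T : L) : FF n K) ∈ loc (xT n K T) := by
    intro T
    have h1 : ((con p om T : L) : FF n K) =
        ∑ i ∈ Tᶜ, sg i T • ((p i (om (insert i T)) : L) : FF n K) := by
      rw [FoA_con]
      exact map_sum (loc (xT n K (Finset.univ : Finset (Fin n)))).subtype _ _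
    rw [h1]
    refine Submodule.sum_mem _ fun i _ => zsmul_mem ?_ _
    refine (mem_loc_iff (p i (om (insert i T))).2 T).2 fun α hα j hj => ?_
    have hP : P i α := by
      by_contra h
      exact hα ((hp i (om (insert i T)) α).2 h)
    have h2 : lcf (om (insert i T) : FF n K) α ≠ 0 := by
      rw [← (hp i (om (insert i T)) α).1 hP]
      exact hα
    by_cases hji : j = i
    · rw [hji]
      exact hP.1
    · exact (mem_loc_iff (om (insert i T)).2 (insert i T)).1 (hcT (insert i T)) α h2 j (by
        rw [Finset.mem_insert]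
        rintro (h | h)
        · exact hji h
        · exact hj h)
  let b : CC (fun t : Fin n => (X t : MvPowerSeries (Fin n) K)) :=
    ⟨fun T => ((con p om T : L) : FF n K), hb⟩
  refine ⟨b, ?_, ?_⟩
  · have hom : IsFm q om := fun T hT => Subtype.ext (hc T hT)
    have h1 := con_isFm p hom
    intro T hT
    show ((con p om T : L) : FF n K) = 0
    rw [h1 T hT]
    rfl
  · refine Subtype.ext (funext fun T => ?_)
    have h1 := congrArg (fun x : L => (x : FF n K)) (hcar T)
    have h2 : ((ext (fun _ : Fin n => (LinearMap.id : L →ₗ[K] L)) (con p om) T : L) : FF n K) =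
        ∑ s ∈ T, sg s T • ((con p om (T.erase s) : L) : FF n K) := by
      rw [FoA_ext]
      exact map_sum (loc (xT n K (Finset.univ : Finset (Fin n)))).subtype _ _
    exact (h2.symm.trans h1).symm

end B5a
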