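import Pool.Agent.H.MP_b5a980_ag.BoB
import Pool.Agent.H.MP_b5a980_ag.KhA
import Pool.Agent.H.MP_b5a980_ag.La1

set_option autoImplicit false
set_option linter.unusedSectionVars false
set_option linter.style.longLine false

/-!
The residue map (MP_b5a980_ag, part D).
-/

namespace B5a

universe u v w

open MvPowerSeries

variable {n : ℕ} {K : Type u} [Field K]

theorem La2_fS (f : Fin 0 → MvPowerSeries (Fin n) K) (S : Finset (Fin 0)) : fS f S = 1 := by
  have h : S = ∅ := Finset.eq_empty_of_isEmpty S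
  rw [h]
  exact Finset.prod_empty

/-- The cochain with value one. -/
noncomputable def La2_e (f : Fin 0 → MvPowerSeries (Fin n) K) : CC f :=
  ⟨fun _ => 1, fun _ => ⟨0, 1, by rw [pow_zero, one_mul, map_one]⟩⟩

theorem La2_eq (f : Fin 0 → MvPowerSeries (Fin n) K) (a : CC f) :
    ∃ r : MvPowerSeries (Fin n) K, a = r • La2_e f := by
  obtain ⟨N, r, hr⟩ := a.2 ∅
  refine ⟨r, Subtype.ext (funext fun S => ?_)⟩
  have h : S = ∅ := Finset.eq_empty_of_isEmpty S
  rw [h]
  change (a : Fm 0 (FF n K)) ∅ = r • (1 : FF n K)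
  rw [La2_fS, map_one, one_pow, one_mul] at hr
  rw [hr, Algebra.smul_def, mul_one]

theorem La2_mul (f : Fin 0 → MvPowerSeries (Fin n) K) (r : MvPowerSeries (Fin n) K) (x : FF n K) :
    ((r • La2_e f : CC f) : Fm 0 (FF n K)) ∅ * x = r • x := by
  change (r • (1 : FF n K)) * x = r • x
  rw [smul_mul_assoc, one_mul]

/-- The element `a_∅` of the localisation at the empty product lies in `R`; the product with a Laurent series is a Laurent series. -/
theorem mul_mem_loc (f : Fin 0 → MvPowerSeries (Fin n) K) (a : CC f) (T : Finset (Fin n)) {x : FF n K}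
    (hx : x ∈ loc (xT n K T)) : (a : Fm 0 (FF n K)) ∅ * x ∈ loc (xT n K T) := by
  obtain ⟨r, rfl⟩ := La2_eq f a
  rw [La2_mul]
  exact Submodule.smul_mem _ r hx

/-- The coefficient as a linear functional. -/
noncomputable def La2_L (α : Fin n → ℤ) : ↥(loc (xT n K Finset.univ)) →ₗ[K] K where
  toFun x := lcf (x : FF n K) α
  map_add' x y := lcf_add x.2 y.2 α
  map_smul' c x := lcf_smul c x.2 α

theorem La2_L_apply (α : Fin n → ℤ) (x : FF n K) (hx : x ∈ loc (xT n K Finset.univ)) :
    La2_L α ⟨x, hx⟩ = lcf x α := rfl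

theorem La2_lcf_zero (α : Fin n → ℤ) : lcf (0 : FF n K) α = 0 :=
  map_zero (La2_L (n := n) (K := K) α)

theorem La2_lcf_zsmul (z : ℤ) {x : FF n K} (hx : x ∈ loc (xT n K Finset.univ)) (α : Fin n → ℤ) :
    lcf (z • x) α = z • lcf x α :=
  map_zsmul (La2_L (n := n) (K := K) α) z ⟨x, hx⟩

theorem La2_lcf_sum {ι : Type*} (s : Finset ι) (g : ι → FF n K)
    (hg : ∀ i ∈ s, g i ∈ loc (xT n K Finset.univ)) (α : Fin n → ℤ)
    (h0 : ∀ i ∈ s, lcf (g i) α = 0) : lcf (∑ i ∈ s, g i) α = 0 := by
  classical
  induction s using Finset.induction_on with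
  | empty => rw [Finset.sum_empty, La2_lcf_zero]
  | insert a s ha ih =>
    rw [Finset.sum_insert ha, lcf_add (hg a (Finset.mem_insert_self a s))
      (Submodule.sum_mem _ fun i hi => hg i (Finset.mem_insert_of_mem hi)),
      h0 a (Finset.mem_insert_self a s), zero_add]
    exact ih (fun i hi => hg i (Finset.mem_insert_of_mem hi))
      (fun i hi => h0 i (Finset.mem_insert_of_mem hi))

/-- The residue functional `a ↦ coefficient of x^(-1) in a_∅ x`. Fill: linearity and continuity (`a_∅ = inc r`; `lcf_cont`). -/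
noncomputable def resx (f : Fin 0 → MvPowerSeries (Fin n) K) (x : ↥(loc (xT n K Finset.univ))) :
    CD n K (CC f) :=
  (⟨{ toFun := fun a => lcf ((a : Fm 0 (FF n K)) ∅ * (x : FF n K)) fun _ => -1
      map_add' := by
        intro a b
        change lcf (((a : Fm 0 (FF n K)) ∅ + (b : Fm 0 (FF n K)) ∅) * (x : FF n K)) (fun _ => -1) = _
        rw [add_mul, lcf_add (mul_mem_loc f a _ x.2) (mul_mem_loc f b _ x.2)]
      map_smul' := by
        intro c a
        change lcf ((c • (a : Fm 0 (FF n K)) ∅) * (x : FF n K)) (fun _ => -1) =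
          c * lcf ((a : Fm 0 (FF n K)) ∅ * (x : FF n K)) (fun _ => -1)
        rw [smul_mul_assoc, lcf_smul _ (mul_mem_loc f a _ x.2)] }, by
      intro a _
      obtain ⟨N, hN⟩ := lcf_cont (mul_mem_loc f a _ x.2) (fun _ => (-1 : ℤ))
      refine ⟨N, fun r hr => ?_⟩
      change lcf ((r • (a : Fm 0 (FF n K)) ∅) * (x : FF n K)) (fun _ => -1) = 0
      rw [smul_mul_assoc]
      exact hN r hr⟩ : ↥(cdK n K (CC f)))

theorem resx_fn (f : Fin 0 → MvPowerSeries (Fin n) K) (x : ↥(loc (xT n K Finset.univ))) (a : CC f) :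
    (resx f x).fn a = lcf ((a : Fm 0 (FF n K)) ∅ * (x : FF n K)) fun _ => -1 := rfl

theorem La2_zero (L : MvPowerSeries (Fin n) K →ₗ[K] K) (N : ℕ) (h1 : ∀ r ∈ mI n K N, L r = 0)
    (h2 : ∀ β, L (monomial β 1) = 0) (r : MvPowerSeries (Fin n) K) : L r = 0 := by
  classical
  set S := (Finset.range N).biUnion fun d =>
    (Finset.finsuppAntidiag (Finset.univ : Finset (Fin n)) d) with hS
  have hmemS : ∀ β : Fin n →₀ ℕ, β ∈ S ↔ β.degree < N := by
    intro β
    rw [hS, Finset.mem_biUnion]
    constructor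
    · rintro ⟨d, hd, hβ⟩
      rw [MIB_mem_antidiag] at hβ
      rw [hβ]
      exact Finset.mem_range.1 hd
    · intro h
      exact ⟨β.degree, Finset.mem_range.2 h, MIB_mem_antidiag.2 rfl⟩
  have h3 : r - ∑ β ∈ S, (coeff β r) • (monomial β (1 : K) : MvPowerSeries (Fin n) K) ∈
      mI n K N := by
    intro γ hγ
    rw [map_sub, map_sum, Finset.sum_eq_single γ]
    · rw [map_smul, coeff_monomial_same, smul_eq_mul, mul_one, sub_self]
    · intro β _ hβ
      rw [map_smul, coeff_monomial, if_neg (Ne.symm hβ), smul_zero]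
    · intro h
      exact absurd ((hmemS γ).2 hγ) h
  have h4 := h1 _ h3
  rw [map_sub, map_sum, Finset.sum_eq_zero, sub_zero] at h4
  · exact h4
  · intro β _
    rw [map_smul, h2, smul_zero]

theorem La2_toFs (β : Fin n →₀ ℕ) : (toFs fun i => -1 - (-1 - (β i : ℤ))) = β := by
  ext i
  change (-1 - (-1 - (β i : ℤ))).toNat = β i
  have h : -1 - (-1 - (β i : ℤ)) = (β i : ℤ) := by ring
  rw [h, Int.toNat_natCast]

/-- Every continuous functional is a residue functional.

Proof. `λ` vanishes on `mI N` (identify `CC f` with `R` by `a ↦ a_∅`; continuity at the element 1). Let `x` be the Laurent polynomial with coefficient `λ (x^β)` at `-1-β` (`exists_lcf`; zero for `|β| ≥ N`). `resx x` and `λ` agree on the monomials and both vanish on some `mI N'`. -/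
theorem resx_surj (f : Fin 0 → MvPowerSeries (Fin n) K) (lam : CD n K (CC f)) :
    ∃ x, resx f x = lam := by
  classical
  obtain ⟨N, hN⟩ := lam.cont (La2_e f) trivial
  have hb : ∀ α : Fin n → ℤ, (if ∀ i, α i < 0 then lam.fn ((monomial (toFs fun i => -1 - α i)
      (1 : K) : MvPowerSeries (Fin n) K) • La2_e f) else 0) ≠ 0 → ∀ i, -(N : ℤ) ≤ α i := by
    intro α hα i
    by_cases h : ∀ i, α i < 0
    · rw [if_pos h] at hα
      have h1 : (toFs fun i => -1 - α i).degree < N := by
        by_contra hc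
        exact hα (hN _ (monomial_mem_mI (not_lt.1 hc) _))
      have h2 : (toFs fun i => -1 - α i) i ≤ (toFs fun i => -1 - α i).degree :=
        Finsupp.le_degree i _
      have h3 : (-1 - α i).toNat ≤ (toFs fun i => -1 - α i).degree := h2
      have h4 := Int.self_le_toNat (-1 - α i)
      omega
    · rw [if_neg h] at hα
      exact absurd rfl hα
  obtain ⟨x, hx, hφ⟩ := exists_lcf N _ hb
  refine ⟨⟨x, hx⟩, CD.ext fun a => ?_⟩
  obtain ⟨r, rfl⟩ := La2_eq f a
  obtain ⟨N', hN'⟩ := lcf_cont hx (fun _ => (-1 : ℤ))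
  rw [← sub_eq_zero, ← CD.sub_fn]
  refine La2_zero (((resx f ⟨x, hx⟩ - lam : CD n K (CC f)).fn).comp
    ((LinearMap.toSpanSingleton (MvPowerSeries (Fin n) K) (CC f) (La2_e f)).restrictScalars K))
    (max N N') ?_ ?_ r
  · intro r hr
    change (resx f ⟨x, hx⟩ - lam : CD n K (CC f)).fn (r • La2_e f) = 0
    rw [CD.sub_fn, resx_fn, La2_mul, hN' r (mI_anti (le_max_right _ _) hr),
      hN r (mI_anti (le_max_left _ _) hr), sub_zero]
  · intro β
    change (resx f ⟨x, hx⟩ - lam : CD n K (CC f)).fn
      ((monomial β 1 : MvPowerSeries (Fin n) K) • La2_e f) = 0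
    rw [CD.sub_fn, resx_fn, La2_mul, lcf_monomial hx, hφ, if_pos (fun i => by omega), La2_toFs,
      sub_self]

/-- The map from the Cech complex of the variables to the functionals: `c ↦ resx (c_univ)`. -/
noncomputable def rhoP (f : Fin 0 → MvPowerSeries (Fin n) K) :
    (P0 n K).Γ →ₗ[MvPowerSeries (Fin n) K] (astar f).Γ where
  toFun c := resx f ⟨(show CC (fun t : Fin n => (X t : MvPowerSeries (Fin n) K)) from c :
    Fm n (FF n K)) Finset.univ, (show CC (fun t : Fin n => (X t : MvPowerSeries (Fin n) K)) from c).2 _⟩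
  map_add' := by
    intro x y
    refine CD.ext fun a => ?_
    have hx := (show CC (fun t : Fin n => (X t : MvPowerSeries (Fin n) K)) from x).2 Finset.univ
    have hy := (show CC (fun t : Fin n => (X t : MvPowerSeries (Fin n) K)) from y).2 Finset.univ
    change lcf ((a : Fm 0 (FF n K)) ∅ *
      ((show CC (fun t : Fin n => (X t : MvPowerSeries (Fin n) K)) from x : Fm n (FF n K))
        Finset.univ + (show CC (fun t : Fin n => (X t : MvPowerSeries (Fin n) K)) from y :
        Fm n (FF n K)) Finset.univ)) (fun _ => -1) =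
      lcf ((a : Fm 0 (FF n K)) ∅ *
      (show CC (fun t : Fin n => (X t : MvPowerSeries (Fin n) K)) from x : Fm n (FF n K))
        Finset.univ) (fun _ => -1) + lcf ((a : Fm 0 (FF n K)) ∅ *
      (show CC (fun t : Fin n => (X t : MvPowerSeries (Fin n) K)) from y : Fm n (FF n K))
        Finset.univ) (fun _ => -1)
    rw [mul_add, lcf_add (mul_mem_loc f a _ hx) (mul_mem_loc f a _ hy)]
  map_smul' := by
    intro r x
    refine CD.ext fun a => ?_
    change lcf ((a : Fm 0 (FF n K)) ∅ *
      (r • (show CC (fun t : Fin n => (X t : MvPowerSeries (Fin n) K)) from x : Fm n (FF n K))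
        Finset.univ)) (fun _ => -1) =
      lcf ((r • (a : Fm 0 (FF n K)) ∅) *
      (show CC (fun t : Fin n => (X t : MvPowerSeries (Fin n) K)) from x : Fm n (FF n K))
        Finset.univ) (fun _ => -1)
    rw [mul_smul_comm, smul_mul_assoc]

/-- The component of a cochain. -/
noncomputable def La2_c (c : (P0 n K).Γ) (T : Finset (Fin n)) : FF n K :=
  (show CC (fun t : Fin n => (X t : MvPowerSeries (Fin n) K)) from c : Fm n (FF n K)) T

theorem La2_c_mem (c : (P0 n K).Γ) (T : Finset (Fin n)) : La2_c c T ∈ loc (xT n K T) :=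
  (show CC (fun t : Fin n => (X t : MvPowerSeries (Fin n) K)) from c).2 T

theorem La2_rho_fn (f : Fin 0 → MvPowerSeries (Fin n) K) (c : (P0 n K).Γ) (a : CC f) :
    (rhoP f c : CD n K (CC f)).fn a =
      lcf ((a : Fm 0 (FF n K)) ∅ * La2_c c Finset.univ) (fun _ => -1) := rfl

theorem La2_delta_c (c : (P0 n K).Γ) (T : Finset (Fin n)) :
    La2_c ((P0 n K).δ c) T = ∑ t ∈ T, sg t T • La2_c c (T.erase t) := rfl

theorem La2_cce (f : Fin 0 → MvPowerSeries (Fin n) K) (a : CC f) : cce f a = 0 := by
  refine Subtype.ext (funext fun S => ?_)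
  have h : S = ∅ := Finset.eq_empty_of_isEmpty S
  rw [h]
  change ∑ s ∈ (∅ : Finset (Fin 0)), sg s ∅ • (a : Fm 0 (FF n K)) ((∅ : Finset (Fin 0)).erase s) = 0
  exact Finset.sum_empty

theorem La2_astar_delta (f : Fin 0 → MvPowerSeries (Fin n) K) (y : (astar f).Γ) :
    (astar f).δ y = 0 := by
  refine CD.ext fun a => ?_
  change (y : CD n K (CC f)).fn (cce f a) = 0
  rw [La2_cce]
  exact map_zero (y : CD n K (CC f)).fn

theorem La2_shift (t : Fin n) {x : FF n K} {T : Finset (Fin n)} (ht : t ∉ T)
    (hx : x ∈ loc (xT n K T)) (hx' : x ∈ loc (xT n K Finset.univ)) :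
    lcf x (fun _ => -1) = 0 := by
  by_contra h
  have h1 := (mem_loc_iff hx' T).1 hx _ h t ht
  omega

/-- Proof. The differential of `astar f` is zero (`Fin 0`). nab: `lcf_dF` at `-1` gives 0 for `∂_i (a x)`. del: the component `univ` of `cech c` is a sum of elements of `loc x_(univ ∖ t)`, with zero coefficient at `-1` after multiplication by `a` (`mem_loc_iff`). gr: for `q ≠ n` the component `univ` vanishes; for `q = n` a functional of degree `n` is any functional. inj: `rhoP c = 0` gives the vanishing of `lcf (c univ) α` for all negative `α` (evaluate on the monomial with exponent `-1-α`, `lcf_monomial`), `p0_exact`. surj: for `q ≠ n` the functional is zero; for `q = n` `resx_surj` and the cochain concentrated in `univ`. -/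
theorem rhoP_qiso (f : Fin 0 → MvPowerSeries (Fin n) K) : QIso (P0 n K) (astar f) (rhoP f) := by
  have hsub : ∀ T : Finset (Fin n), ∀ x : FF n K, x ∈ loc (xT n K T) →
      x ∈ loc (xT n K Finset.univ) := fun T x hx => loc_mono _ (Finset.subset_univ T) hx
  refine ⟨?_, ?_, ?_, ?_, ?_⟩
  · intro i c
    refine CD.ext fun a => ?_
    change lcf ((a : Fm 0 (FF n K)) ∅ * dF n K i (La2_c c Finset.univ)) (fun _ => -1) =
      - lcf (dF n K i ((a : Fm 0 (FF n K)) ∅) * La2_c c Finset.univ) (fun _ => -1)
    have h1 := mul_mem_loc f a Finset.univ (La2_c_mem c Finset.univ)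
    have h2 := lcf_dF h1 i (fun _ => (-1 : ℤ))
    rw [show ((-1 : ℤ) + 1 : ℤ) = 0 by norm_num, Int.cast_zero, zero_mul, Derivation.leibniz,
      smul_eq_mul, smul_eq_mul, lcf_add] at h2
    · rw [mul_comm (La2_c c Finset.univ)] at h2
      exact eq_neg_of_add_eq_zero_left h2
    · exact mul_mem_loc f a Finset.univ (dF_mem_loc' _ i (La2_c_mem c Finset.univ))
    · rw [mul_comm]
      exact mul_mem_loc f ((ccn f).nab i a) Finset.univ (La2_c_mem c Finset.univ)
  · intro c
    rw [La2_astar_delta]
    refine CD.ext fun a => ?_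
    rw [La2_rho_fn, La2_delta_c, Finset.mul_sum]
    refine La2_lcf_sum _ _ ?_ _ ?_
    · intro t _
      rw [mul_smul_comm]
      exact zsmul_mem (mul_mem_loc f a _ (hsub _ _ (La2_c_mem c _))) _
    · intro t _
      rw [mul_smul_comm, La2_lcf_zsmul _ (mul_mem_loc f a _ (hsub _ _ (La2_c_mem c _)))]
      rw [La2_shift t (Finset.notMem_erase t _) (mul_mem_loc f a _ (La2_c_mem c _))
        (mul_mem_loc f a _ (hsub _ _ (La2_c_mem c _)))]
      exact smul_zero _
  · intro q c hc a ha
    by_cases hq : q = n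
    · have h1 : (a : Fm 0 (FF n K)) ∅ = 0 := ha ∅ (by rw [hq]; simp)
      rw [La2_rho_fn, h1, zero_mul, La2_lcf_zero]
    · have h1 : La2_c c Finset.univ = 0 := hc Finset.univ (by
        rw [Finset.card_univ, Fintype.card_fin]
        exact fun h => hq h.symm)
      rw [La2_rho_fn, h1, mul_zero, La2_lcf_zero]
  · rintro q c hc hd ⟨y, -, hy⟩
    rw [La2_astar_delta] at hy
    refine p0_exact q c hc hd fun α hα => ?_
    have h1 : (rhoP f c : CD n K (CC f)).fn
        ((monomial (toFs fun i => -1 - α i) (1 : K) : MvPowerSeries (Fin n) K) • La2_e f) = 0 := by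
      rw [hy]
      rfl
    rw [La2_rho_fn, La2_mul, lcf_monomial (La2_c_mem c Finset.univ)] at h1
    have h2 : (fun i => -1 - (((toFs fun i => -1 - α i) i : ℕ) : ℤ)) = α := by
      funext i
      change -1 - (((-1 - α i).toNat : ℕ) : ℤ) = α i
      have h3 := hα i
      omega
    rw [h2] at h1
    exact h1
  · intro q y hy _
    by_cases hq : q = n
    · obtain ⟨x, hx⟩ := resx_surj f y
      let c0 : CC (fun t : Fin n => (X t : MvPowerSeries (Fin n) K)) :=
        ⟨fun T => if T = Finset.univ then (x : FF n K) else 0, fun T => by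
          change (if T = Finset.univ then (x : FF n K) else 0) ∈ loc (xT n K T)
          split_ifs with h
          · rw [h]
            exact x.2
          · exact Submodule.zero_mem _⟩
      refine ⟨(show (P0 n K).Γ from c0), ?_, ?_, 0, Submodule.zero_mem _, ?_⟩
      · intro T hT
        change (if T = Finset.univ then (x : FF n K) else 0) = 0
        rw [if_neg]
        rintro rfl
        apply hT
        rw [Finset.card_univ, Fintype.card_fin, hq]
      · refine Subtype.ext (funext fun T => ?_)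
        change ∑ t ∈ T, sg t T • (if T.erase t = Finset.univ then (x : FF n K) else 0) = 0
        refine Finset.sum_eq_zero fun t _ => ?_
        rw [if_neg]
        · exact CeA_z0 _
        intro h
        have h2 : t ∉ T.erase t := Finset.notMem_erase t T
        rw [h] at h2
        exact h2 (Finset.mem_univ t)
      · rw [map_zero, add_zero]
        refine CD.ext fun a => ?_
        rw [La2_rho_fn]
        change (y : CD n K (CC f)).fn a =
          lcf ((a : Fm 0 (FF n K)) ∅ * (if Finset.univ = Finset.univ then (x : FF n K) else 0)) _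
        rw [if_pos rfl, ← resx_fn, hx]
    · have h1 : y = 0 := by
        refine CD.ext fun a => ?_
        refine hy a fun S hS => ?_
        exfalso
        have h2 : S = ∅ := Finset.eq_empty_of_isEmpty S
        rw [h2, Finset.card_empty] at hS
        apply hq
        push_cast at hS
        omega
      refine ⟨0, Submodule.zero_mem _, map_zero _, 0, Submodule.zero_mem _, ?_⟩
      rw [map_zero, map_zero, add_zero, h1]

/-- The comparison with the completion at the zero ideal. -/
noncomputable def La2_phi (n : ℕ) (K : Type u) [Field K] :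
    (P0 n K).Γ →ₗ[MvPowerSeries (Fin n) K] (KObj (⊥ : Ideal (MvPowerSeries (Fin n) K))).Γ where
  toFun c := fun T => AdicCompletion.of (⊥ : Ideal (MvPowerSeries (Fin n) K)) (RxT n K T)
    ⟨La2_c c T, La2_c_mem c T⟩
  map_add' := by
    intro x y
    funext T
    exact map_add (AdicCompletion.of (⊥ : Ideal (MvPowerSeries (Fin n) K)) (RxT n K T))
      ⟨La2_c x T, La2_c_mem x T⟩ ⟨La2_c y T, La2_c_mem y T⟩
  map_smul' := by
    intro r x
    funext T
    exact map_smul (AdicCompletion.of (⊥ : Ideal (MvPowerSeries (Fin n) K)) (RxT n K T)) r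
      ⟨La2_c x T, La2_c_mem x T⟩

theorem La2_hmap_of {M : Type u} [AddCommGroup M] [Module (MvPowerSeries (Fin n) K) M]
    [Module K M] [IsScalarTower K (MvPowerSeries (Fin n) K) M]
    {M' : Type u} [AddCommGroup M'] [Module (MvPowerSeries (Fin n) K) M'] [Module K M']
    [IsScalarTower K (MvPowerSeries (Fin n) K) M']
    (I : Ideal (MvPowerSeries (Fin n) K)) (u : M →ₗ[MvPowerSeries (Fin n) K] M') (x : M) :
    hmap I u (AdicCompletion.of I M x) = AdicCompletion.of I M' (u x) :=
  AdicCompletion.ext fun s => hmap_val I u _ s x rfl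

theorem La2_hconn_of {M : Type u} [AddCommGroup M] [Module (MvPowerSeries (Fin n) K) M]
    [Module K M] [IsScalarTower K (MvPowerSeries (Fin n) K) M] (C : Conn n K M)
    (I : Ideal (MvPowerSeries (Fin n) K)) (i : Fin n) (x : M) :
    (hconn C I).nab i (AdicCompletion.of I M x) = AdicCompletion.of I M (C.nab i x) :=
  AdicCompletion.ext fun s => hconn_val_mk C I i _ s x rfl

theorem La2_phi_qiso : QIso (P0 n K) (KObj (⊥ : Ideal (MvPowerSeries (Fin n) K)))
    (La2_phi n K) := by
  refine qiso_of_bij _ ?_ ?_ ?_ ?_ ?_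
  · intro i c
    funext T
    exact (La2_hconn_of (xconn n K T) ⊥ i (⟨La2_c c T, La2_c_mem c T⟩ : RxT n K T)).symm
  · intro c
    funext T
    change AdicCompletion.of (⊥ : Ideal (MvPowerSeries (Fin n) K)) (RxT n K T)
      ⟨La2_c ((P0 n K).δ c) T, La2_c_mem _ T⟩ =
      ∑ t ∈ T, sg t T • hmap ⊥ (incT (Finset.erase_subset t T))
        (AdicCompletion.of (⊥ : Ideal (MvPowerSeries (Fin n) K)) (RxT n K (T.erase t))
          ⟨La2_c c (T.erase t), La2_c_mem c (T.erase t)⟩)
    have h1 : (⟨La2_c ((P0 n K).δ c) T, La2_c_mem _ T⟩ : RxT n K T) =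
        ∑ t ∈ T, sg t T • incT (Finset.erase_subset t T)
          (⟨La2_c c (T.erase t), La2_c_mem c (T.erase t)⟩ : RxT n K (T.erase t)) := by
      refine Subtype.ext ?_
      rw [AddSubmonoidClass.coe_finsetSum]
      rfl
    rw [h1, map_sum]
    refine Finset.sum_congr rfl fun t _ => ?_
    rw [map_zsmul, La2_hmap_of]
  · intro q c hc T hT
    have h1 : (⟨La2_c c T, La2_c_mem c T⟩ : RxT n K T) = 0 := Subtype.ext (hc T hT)
    change AdicCompletion.of (⊥ : Ideal (MvPowerSeries (Fin n) K)) (RxT n K T)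
      ⟨La2_c c T, La2_c_mem c T⟩ = 0
    rw [h1, map_zero]
  · intro c hc
    refine Subtype.ext (funext fun T => ?_)
    have h1 : AdicCompletion.of (⊥ : Ideal (MvPowerSeries (Fin n) K)) (RxT n K T)
      ⟨La2_c c T, La2_c_mem c T⟩ = 0 := congrFun hc T
    have h2 := AdicCompletion.of_injective (⊥ : Ideal (MvPowerSeries (Fin n) K)) (RxT n K T)
      (h1.trans (map_zero _).symm)
    exact congrArg Subtype.val h2
  · intro q y hy
    have h1 : ∀ T, ∃ x : RxT n K T,
        AdicCompletion.of (⊥ : Ideal (MvPowerSeries (Fin n) K)) (RxT n K T) x = y T := fun T =>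
      (AdicCompletion.of_bijective (⊥ : Ideal (MvPowerSeries (Fin n) K)) (RxT n K T)).2 (y T)
    choose x hx using h1
    let c0 : CC (fun t : Fin n => (X t : MvPowerSeries (Fin n) K)) :=
      ⟨fun T => (x T : FF n K), fun T => (x T).2⟩
    refine ⟨(show (P0 n K).Γ from c0), ?_, funext fun T => hx T⟩
    intro T hT
    change (x T : FF n K) = 0
    have h2 : AdicCompletion.of (⊥ : Ideal (MvPowerSeries (Fin n) K)) (RxT n K T) (x T) = 0 := by
      rw [hx T]
      exact hy T hT
    have h3 := AdicCompletion.of_injective (⊥ : Ideal (MvPowerSeries (Fin n) K)) (RxT n K T)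
      (h2.trans (map_zero _).symm)
    exact congrArg Subtype.val h3

/-- Proof. `c ↦ (T ↦ AdicCompletion.of ⊥ _ (c T))`, bijective (`AdicCompletion.of_bijective`, `IsAdicComplete ⊥`); `qiso_of_bij`-style; then `rhoP_qiso`. -/
theorem zig_base (f : Fin 0 → MvPowerSeries (Fin n) K) : Zig (astar f) (KObj (⊥ : Ideal (MvPowerSeries (Fin n) K))) :=
  Zig.trans (Zig.symm (Zig.of _ (rhoP_qiso f))) (Zig.of _ La2_phi_qiso)

end B5a
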