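import Pool.Agent.H.MP_b5a980_ag.As3
import Pool.Agent.H.MP_b5a980_ag.Dc8
import Pool.Agent.H.MP_b5a980_ag.Du0
import Pool.Agent.H.MP_b5a980_ag.EtC
import Pool.Agent.H.MP_b5a980_ag.HdA
import Pool.Agent.H.MP_b5a980_ag.HmA
import Pool.Agent.H.MP_b5a980_ag.KhB
import Pool.Agent.H.MP_b5a980_ag.La2

set_option autoImplicit false
set_option linter.unusedSectionVars false
set_option linter.style.longLine false

/-!
The main theorem (MP_b5a980_ag).
-/

namespace B5a

universe u v w

open MvPowerSeries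

/-- Proof. Induction on `r`. `r = 0`: `Ideal.span (Set.range f) = ⊥`, `zig_base`. `r + 1`: `zig_AT`, `t_zig` of the induction hypothesis for `fini f`, `zig_KT`; `span (range f) = span (range (fini f)) ⊔ span {f last}`. -/
theorem zig_main {n : ℕ} {K : Type u} [Field K] {r : ℕ} (f : Fin r → MvPowerSeries (Fin n) K)
    (hf : ∀ s, f s ≠ 0) : Zig (astar f) (KObj (Ideal.span (Set.range f))) := by
  induction r with
  | zero =>
    have h : Ideal.span (Set.range f) = ⊥ := by
      rw [Set.range_eq_empty, Ideal.span_empty]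
    rw [h]
    exact zig_base f
  | succ k ih =>
    have h : Ideal.span (Set.range f) =
        Ideal.span (Set.range (fini f)) ⊔ Ideal.span {f (Fin.last k)} := by
      rw [← Ideal.span_union]
      congr 1
      ext x
      constructor
      · rintro ⟨j, rfl⟩
        refine Fin.lastCases ?_ (fun j => ?_) j
        · exact Or.inr rfl
        · exact Or.inl ⟨j, rfl⟩
      · rintro (⟨j, rfl⟩ | hx)
        · exact ⟨j.castSucc, rfl⟩
        · exact ⟨Fin.last k, (Set.mem_singleton_iff.1 hx).symm⟩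
    rw [h]
    exact Zig.trans (zig_AT f hf) (Zig.trans
      (t_zig (ih (fini f) fun s => hf s.castSucc) (f (Fin.last k))) (zig_KT _ (hf (Fin.last k))))

/-- The cohomology spectral sequence is the spectral sequence of continuous functionals. -/
theorem coh_dual {n : ℕ} {K : Type u} [Field K] {r : ℕ} (f : Fin r → MvPowerSeries (Fin n) K)
    (hf : ∀ s, f s ≠ 0) :
    Nonempty (SSIso (DSS (WA_sys f)) (cohSS (Ideal.span (Set.range f)))) :=
  ssiso_trans (ssiso_symm (dss_obj f)) (ssiso_trans (zig_ss (zig_main f hf)) (cohSS_obj _))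

/-- The full answer.

Proof. As `hom_result` (same `Ψ`, `π' = π ∘ Ψ`, `f' s = Ψ⁻¹ (f s)`), and for the cohomology: `coh_dual` for `f` and `f'` and `dual_main`. -/
theorem full_result {A : Type u} [CommRing A] [IsLocalRing A] [Algebra ℚ A]
    (σ σ' : IsLocalRing.ResidueField A →+* A)
    (hσ : ∀ x, IsLocalRing.residue A (σ x) = x) (hσ' : ∀ x, IsLocalRing.residue A (σ' x) = x)
    {n r : ℕ} (π : MvPowerSeries (Fin n) (IsLocalRing.ResidueField A) →+* A)
    (hπ : Function.Surjective π) (hπσ : ∀ c, π (C c) = σ c)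
    (f : Fin r → MvPowerSeries (Fin n) (IsLocalRing.ResidueField A)) (hf0 : ∀ s, f s ≠ 0)
    (hf : Ideal.span (Set.range f) = RingHom.ker π) :
    ∃ (π' : MvPowerSeries (Fin n) (IsLocalRing.ResidueField A) →+* A)
      (f' : Fin r → MvPowerSeries (Fin n) (IsLocalRing.ResidueField A)),
      Function.Surjective π' ∧ (∀ c, π' (C c) = σ' c) ∧ (∀ s, f' s ≠ 0) ∧
      Ideal.span (Set.range f') = RingHom.ker π' ∧ Nonempty (SSIso (homSS f) (homSS f')) ∧
      Nonempty (SSIso (cohSS (RingHom.ker π)) (cohSS (RingHom.ker π'))) ∧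
      ∀ p q : ℤ, rhoPQ f p q = rhoPQ f' p q := by
  have hc : CharZero (IsLocalRing.ResidueField A) := charZero_residue
  obtain ⟨Ψ, hX, hC, hπΨ⟩ := exists_Psi_main σ σ' hσ hσ' π hπ hπσ
  have hg : ∀ s, Ψ.symm (f s) ≠ 0 := by
    intro s h
    exact hf0 s ((map_eq_zero_iff Ψ.symm Ψ.symm.injective).1 h)
  have hfg : ∀ s, f s = Ψ (Ψ.symm (f s)) := fun s => (Ψ.apply_symm_apply (f s)).symm
  have hss : Nonempty (SSIso (homSS f) (homSS fun s => Ψ.symm (f s))) :=
    ssiso_symm (hom_main Ψ hX hC hg hf0 hfg)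
  have hsp := span_symm π Ψ f hf
  have hco : Nonempty (SSIso (cohSS (RingHom.ker π))
      (cohSS (RingHom.ker (π.comp (Ψ : MvPowerSeries (Fin n) (IsLocalRing.ResidueField A) →+*
        MvPowerSeries (Fin n) (IsLocalRing.ResidueField A)))))) := by
    have h1 := coh_dual f hf0
    have h2 := coh_dual (fun s => Ψ.symm (f s)) hg
    rw [hf] at h1
    rw [hsp] at h2
    exact ssiso_trans (ssiso_symm h1) (ssiso_trans
      (ssiso_symm (dual_main Ψ hX hC hg hf0 hfg)) h2)
  refine ⟨π.comp (Ψ : MvPowerSeries (Fin n) (IsLocalRing.ResidueField A) →+*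
      MvPowerSeries (Fin n) (IsLocalRing.ResidueField A)), fun s => Ψ.symm (f s),
    hπ.comp Ψ.surjective, hπΨ, hg, hsp, hss, hco, fun p q => ?_⟩
  obtain ⟨s⟩ := hss
  obtain ⟨e1⟩ := e2_equiv f ((n : ℤ) - p) ((n : ℤ) - q)
  obtain ⟨e2⟩ := e2_equiv (fun s => Ψ.symm (f s)) ((n : ℤ) - p) ((n : ℤ) - q)
  exact LinearEquiv.finrank_eq ((e1.symm.trans (s.e 2 le_rfl _ _)).trans e2)

end B5a
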