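import Pool.Agent.H.MP_b5a980_ag.Conn0

set_option autoImplicit false
set_option linter.unusedSectionVars false
set_option linter.style.longLine false

/-!
Exterior forms with values in a module: definitions (MP_b5a980_ag, B5).
-/

namespace B5a

universe u v w

open MvPowerSeries

/-- Families indexed by the subsets of `Fin n`: `ω I` is the coefficient of `dx_I`. -/
abbrev Fm (n : ℕ) (M : Type v) := Finset (Fin n) → M

/-- The sign of moving `i` in front of the elements of `I` smaller than `i`. -/
def sg {n : ℕ} (i : Fin n) (I : Finset (Fin n)) : ℤ := (-1) ^ (I.filter fun j => j < i).card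

section

variable {n : ℕ} {K : Type u} [Field K] {M : Type v} [AddCommGroup M] [Module K M]

/-- `ext a ω = Σ_i dx_i ∧ a_i ω`. -/
def ext (a : Fin n → (M →ₗ[K] M)) : Fm n M →ₗ[K] Fm n M where
  toFun ω := fun I => ∑ i ∈ I, sg i I • a i (ω (I.erase i))
  map_add' := by
    intro x y
    funext I
    simp only [Pi.add_apply, map_add, smul_add, Finset.sum_add_distrib]
  map_smul' := by
    intro c x
    funext I
    simp only [Pi.smul_apply, map_smul, RingHom.id_apply, Finset.smul_sum]
    refine Finset.sum_congr rfl fun i _ => ?_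
    rw [smul_comm]

/-- `con b ω = Σ_i b_i (contraction of ω with ∂/∂x_i)`. -/
def con (b : Fin n → (M →ₗ[K] M)) : Fm n M →ₗ[K] Fm n M where
  toFun ω := fun I => ∑ i ∈ Iᶜ, sg i I • b i (ω (insert i I))
  map_add' := by
    intro x y
    funext I
    simp only [Pi.add_apply, map_add, smul_add, Finset.sum_add_distrib]
  map_smul' := by
    intro c x
    funext I
    simp only [Pi.smul_apply, map_smul, RingHom.id_apply, Finset.smul_sum]
    refine Finset.sum_congr rfl fun i _ => ?_
    rw [smul_comm]

/-- `ω` is a form of degree `p`. -/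
def IsFm (p : ℤ) (ω : Fm n M) : Prop := ∀ I, (I.card : ℤ) ≠ p → ω I = 0

end

variable {n : ℕ} {K : Type u} [Field K] {M : Type v} [AddCommGroup M]
  [Module (MvPowerSeries (Fin n) K) M] [Module K M] [IsScalarTower K (MvPowerSeries (Fin n) K) M]

/-- The de Rham differential of a module with connection. -/
noncomputable def dR (C : Conn n K M) : Fm n M →ₗ[K] Fm n M := ext C.nab

/-- Contraction with the Euler field. -/
noncomputable def iotaR (n : ℕ) (K : Type u) [Field K] (M : Type v) [AddCommGroup M]
    [Module (MvPowerSeries (Fin n) K) M] [Module K M]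
    [IsScalarTower K (MvPowerSeries (Fin n) K) M] : Fm n M →ₗ[K] Fm n M :=
  con fun i => mulR M (X i)

/-- `V^j DR`: the coefficient of `dx_I` lies in `V (j - |I|)`. -/
def VF (V : ℤ → Submodule (MvPowerSeries (Fin n) K) M) (j : ℤ) (ω : Fm n M) : Prop :=
  ∀ I, ω I ∈ V (j - I.card)

end B5a
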