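import Pool.Agent.H.MP_b5a980_ag.Fo0

set_option autoImplicit false
set_option linter.unusedSectionVars false
set_option linter.style.longLine false

/-!
Exterior forms: anticommutation (MP_b5a980_ag, B5).
-/

namespace B5a

universe u v w

open MvPowerSeries

variable {n : ℕ} {K : Type u} [Field K] {M : Type v} [AddCommGroup M] [Module K M]

theorem FoA_sq (i : Fin n) (I : Finset (Fin n)) : sg i I * sg i I = 1 := by
  unfold sg
  rw [← mul_pow]
  norm_num

theorem FoA_er1 {i j : Fin n} {I : Finset (Fin n)} (hj : j ∈ I) (h : j < i) :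
    sg i (I.erase j) = - sg i I := by
  unfold sg
  have h1 : (I.filter fun k => k < i) = insert j ((I.erase j).filter fun k => k < i) := by
    ext k
    simp only [Finset.mem_filter, Finset.mem_insert, Finset.mem_erase]
    constructor
    · rintro ⟨h2, h3⟩
      by_cases h4 : k = j
      · exact Or.inl h4
      · exact Or.inr ⟨⟨h4, h2⟩, h3⟩
    · rintro (h2 | ⟨⟨_, h2⟩, h3⟩)
      · subst h2
        exact ⟨hj, h⟩
      · exact ⟨h2, h3⟩
  have h2 : j ∉ ((I.erase j).filter fun k => k < i) := by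
    simp
  rw [h1, Finset.card_insert_of_notMem h2, pow_succ]
  ring

theorem FoA_er2 {i j : Fin n} {I : Finset (Fin n)} (h : ¬ j < i) :
    sg i (I.erase j) = sg i I := by
  unfold sg
  have h1 : ((I.erase j).filter fun k => k < i) = (I.filter fun k => k < i) := by
    ext k
    simp only [Finset.mem_filter, Finset.mem_erase]
    constructor
    · rintro ⟨⟨_, h2⟩, h3⟩
      exact ⟨h2, h3⟩
    · rintro ⟨h2, h3⟩
      refine ⟨⟨?_, h2⟩, h3⟩
      rintro rfl
      exact h h3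
  rw [h1]

theorem FoA_in1 {i j : Fin n} {I : Finset (Fin n)} (hj : j ∉ I) (h : j < i) :
    sg i (insert j I) = - sg i I := by
  have h1 := FoA_er1 (Finset.mem_insert_self j I) h
  rw [Finset.erase_insert hj] at h1
  rw [h1, neg_neg]

theorem FoA_in2 {i j : Fin n} {I : Finset (Fin n)} (hj : j ∉ I) (h : ¬ j < i) :
    sg i (insert j I) = sg i I := by
  have h1 := FoA_er2 (I := insert j I) h
  rw [Finset.erase_insert hj] at h1
  exact h1.symm

theorem FoA_s1 {i j : Fin n} {I : Finset (Fin n)} (hi : i ∈ I) (hj : j ∈ I) (hij : i ≠ j) :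
    sg i I * sg j (I.erase i) + sg j I * sg i (I.erase j) = 0 := by
  rcases lt_or_gt_of_ne hij with h | h
  · rw [FoA_er1 hi h, FoA_er2 (not_lt.mpr h.le)]
    ring
  · rw [FoA_er1 hj h, FoA_er2 (not_lt.mpr h.le)]
    ring

theorem FoA_s2 {i j : Fin n} {I : Finset (Fin n)} (hi : i ∈ I) (hj : j ∉ I) :
    sg i I * sg j (I.erase i) + sg j I * sg i (insert j I) = 0 := by
  have hij : i ≠ j := fun h => hj (h ▸ hi)
  rcases lt_or_gt_of_ne hij with h | h
  · rw [FoA_er1 hi h, FoA_in2 hj (not_lt.mpr h.le)]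
    ring
  · rw [FoA_in1 hj h, FoA_er2 (not_lt.mpr h.le)]
    ring

theorem FoA_ext (a : Fin n → (M →ₗ[K] M)) (ω : Fm n M) (I : Finset (Fin n)) :
    ext a ω I = ∑ i ∈ I, sg i I • a i (ω (I.erase i)) := rfl

theorem FoA_con (b : Fin n → (M →ₗ[K] M)) (ω : Fm n M) (I : Finset (Fin n)) :
    con b ω I = ∑ i ∈ Iᶜ, sg i I • b i (ω (insert i I)) := rfl

/-- Proof. For `i ≠ j` in `I`: the terms `(i, j)` and `(j, i)` of the double sum cancel: `sg i I sg j (I∖i) = - sg j I sg i (I∖j)`. (If `i < j`: `sg i (I∖j) = sg i I` and `sg j (I∖i) = - sg j I`.) -/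
theorem ext_ext (a : Fin n → (M →ₗ[K] M)) (ha : ∀ i j m, a i (a j m) = a j (a i m)) (ω : Fm n M) :
    ext a (ext a ω) = 0 := by
  funext I
  have h0 : ext a (ext a ω) I = ∑ i ∈ I, ∑ j ∈ I.erase i,
      (sg i I * sg j (I.erase i)) • a i (a j (ω ((I.erase i).erase j))) := by
    rw [FoA_ext]
    refine Finset.sum_congr rfl fun i _ => ?_
    rw [FoA_ext, map_sum, Finset.smul_sum]
    refine Finset.sum_congr rfl fun j _ => ?_
    rw [map_zsmul, smul_smul]
  rw [h0, Finset.sum_sigma', Pi.zero_apply]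
  refine Finset.sum_involution (fun x _ => ⟨x.2, x.1⟩) ?_ ?_ ?_ ?_
  · rintro ⟨i, j⟩ hx
    simp only [Finset.mem_sigma, Finset.mem_erase] at hx
    obtain ⟨hi, hj, hjI⟩ := hx
    show (sg i I * sg j (I.erase i)) • a i (a j (ω ((I.erase i).erase j))) +
      (sg j I * sg i (I.erase j)) • a j (a i (ω ((I.erase j).erase i))) = 0
    rw [ha j i, Finset.erase_right_comm (a := j), ← add_smul, FoA_s1 hi hjI (Ne.symm hj), zero_smul]
  · rintro ⟨i, j⟩ hx _ he
    simp only [Finset.mem_sigma, Finset.mem_erase] at hx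
    obtain ⟨hi, hj, hjI⟩ := hx
    simp only [Sigma.mk.injEq] at he
    exact hj he.1
  · rintro ⟨i, j⟩ hx
    simp only [Finset.mem_sigma, Finset.mem_erase] at hx ⊢
    exact ⟨hx.2.2, Ne.symm hx.2.1, hx.1⟩
  · rintro ⟨i, j⟩ hx
    rfl

/-- Anticommutator of `ext` and `con`.

Proof. In `ext a (con b ω) I = Σ_{i∈I} Σ_{j∉I∖i} sg i I sg j (I∖i) a_i b_j ω((I∖i)∪j)` the terms `j = i` give `Σ_{i∈I} a_i b_i ω(I)` (`sg i I sg i (I∖i) = 1`). In `con b (ext a ω) I = Σ_{j∉I} Σ_{i∈I∪j} sg j I sg i (I∪j) b_j a_i ω((I∪j)∖i)` the terms `i = j` give `Σ_{j∉I} b_j a_j ω(I)`. The terms with `i ∈ I`, `j ∉ I` cancel: `a_i b_j = b_j a_i` and `sg i I sg j (I∖i) = - sg j I sg i (I∪j)` (if `i < j`: `sg j (I∖i) = - sg j I`, `sg i (I∪j) = sg i I`; if `j < i`: `sg j (I∖i) = sg j I`, `sg i (I∪j) = - sg i I`). -/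
theorem car (a b : Fin n → (M →ₗ[K] M)) (h : ∀ i j, i ≠ j → ∀ m, a i (b j m) = b j (a i m))
    (ω : Fm n M) (I : Finset (Fin n)) :
    ext a (con b ω) I + con b (ext a ω) I =
      ∑ i ∈ I, a i (b i (ω I)) + ∑ i ∈ Iᶜ, b i (a i (ω I)) := by
  have hA : ext a (con b ω) I = ∑ i ∈ I, a i (b i (ω I)) +
      ∑ i ∈ I, ∑ j ∈ Iᶜ, (sg i I * sg j (I.erase i)) • a i (b j (ω (insert j (I.erase i)))) := by
    rw [FoA_ext, ← Finset.sum_add_distrib]
    refine Finset.sum_congr rfl fun i hi => ?_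
    have h1 : (I.erase i)ᶜ = insert i Iᶜ := by
      ext k
      simp only [Finset.mem_compl, Finset.mem_erase, Finset.mem_insert]
      tauto
    have h2 : i ∉ Iᶜ := by simpa using hi
    rw [FoA_con, h1, Finset.sum_insert h2, map_add, smul_add, Finset.insert_erase hi, map_zsmul,
      smul_smul, FoA_er2 (lt_irrefl i), FoA_sq, one_smul, map_sum, Finset.smul_sum]
    refine congrArg₂ _ rfl (Finset.sum_congr rfl fun j _ => ?_)
    rw [map_zsmul, smul_smul]
  have hB : con b (ext a ω) I = ∑ i ∈ Iᶜ, b i (a i (ω I)) +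
      ∑ i ∈ I, ∑ j ∈ Iᶜ, (sg j I * sg i (insert j I)) • b j (a i (ω ((insert j I).erase i))) := by
    rw [FoA_con, Finset.sum_comm, ← Finset.sum_add_distrib]
    refine Finset.sum_congr rfl fun j hj => ?_
    have h2 : j ∉ I := by simpa using hj
    rw [FoA_ext, Finset.sum_insert h2, map_add, smul_add, Finset.erase_insert h2, map_zsmul,
      smul_smul, FoA_in2 h2 (lt_irrefl j), FoA_sq, one_smul, map_sum, Finset.smul_sum]
    refine congrArg₂ _ rfl (Finset.sum_congr rfl fun i _ => ?_)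
    rw [map_zsmul, smul_smul]
  have hC : ∑ i ∈ I, ∑ j ∈ Iᶜ, (sg i I * sg j (I.erase i)) • a i (b j (ω (insert j (I.erase i)))) +
      ∑ i ∈ I, ∑ j ∈ Iᶜ,
        (sg j I * sg i (insert j I)) • b j (a i (ω ((insert j I).erase i))) = 0 := by
    rw [← Finset.sum_add_distrib]
    refine Finset.sum_eq_zero fun i hi => ?_
    rw [← Finset.sum_add_distrib]
    refine Finset.sum_eq_zero fun j hj => ?_
    have h2 : j ∉ I := by simpa using hj
    have hij : i ≠ j := fun h => h2 (h ▸ hi)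
    rw [h i j hij, Finset.erase_insert_of_ne hij.symm, ← add_smul, FoA_s2 hi h2, zero_smul]
  rw [hA, hB, add_add_add_comm, hC, add_zero]

theorem ext_isFm (a : Fin n → (M →ₗ[K] M)) {p : ℤ} {ω : Fm n M} (h : IsFm p ω) :
    IsFm (p + 1) (ext a ω) := by
  intro I hI
  rw [FoA_ext]
  refine Finset.sum_eq_zero fun i hi => ?_
  have h1 : ((I.erase i).card : ℤ) ≠ p := by
    have h2 := Finset.card_erase_add_one hi
    intro h3
    apply hI
    rw [← h2, ← h3]
    push_cast
    ring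
  rw [h _ h1, map_zero, smul_zero]

theorem con_isFm (b : Fin n → (M →ₗ[K] M)) {p : ℤ} {ω : Fm n M} (h : IsFm p ω) :
    IsFm (p - 1) (con b ω) := by
  intro I hI
  rw [FoA_con]
  refine Finset.sum_eq_zero fun i hi => ?_
  have h0 : i ∉ I := by simpa using hi
  have h1 : ((insert i I).card : ℤ) ≠ p := by
    rw [Finset.card_insert_of_notMem h0]
    intro h3
    apply hI
    rw [← h3]
    push_cast
    ring
  rw [h _ h1, map_zero, smul_zero]

end B5a
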