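import Pool.Agent.H.MP_b5a980_ag.FoC

set_option autoImplicit false
set_option linter.unusedSectionVars false
set_option linter.style.longLine false

/-!
The quotient of the de Rham complex by the step 0 is exact (MP_b5a980_ag, B6).
-/

namespace B5a

universe u v w

open MvPowerSeries

variable {n : ℕ} {K : Type u} [Field K] {M : Type v} [AddCommGroup M]
  [Module (MvPowerSeries (Fin n) K) M] [Module K M] [IsScalarTower K (MvPowerSeries (Fin n) K) M]

theorem FoD_le {C : Conn n K M} {V : ℤ → Submodule (MvPowerSeries (Fin n) K) M}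
    (hV : Compat C V) {i j : ℤ} (h : i ≤ j) : V j ≤ V i := by
  obtain ⟨k, rfl⟩ := Int.le.dest h
  induction k with
  | zero => simp
  | succ k ih =>
    have h1 := hV.anti (i + k)
    have h2 : i + ((k + 1 : ℕ) : ℤ) = i + k + 1 := by push_cast; ring
    rw [h2]
    exact h1.trans (ih (by omega))

theorem FoD_VF_mono {C : Conn n K M} {V : ℤ → Submodule (MvPowerSeries (Fin n) K) M}
    (hV : Compat C V) {i j : ℤ} (h : i ≤ j) {ω : Fm n M} (hω : VF V j ω) : VF V i ω :=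
  fun I => FoD_le hV (by omega) (hω I)

theorem FoD_isFm_add {p : ℤ} {ω η : Fm n M} (h : IsFm p ω) (h' : IsFm p η) : IsFm p (ω + η) := by
  intro I hI
  rw [Pi.add_apply, h I hI, h' I hI, add_zero]

theorem FoD_isFm_zero {p : ℤ} : IsFm p (0 : Fm n M) := fun _ _ => rfl

theorem FoD_isFm_sub_dR (C : Conn n K M) {p : ℤ} {ω η : Fm n M} (h : IsFm p ω)
    (h' : IsFm (p - 1) η) : IsFm p (ω - dR C η) := by
  have h1 : IsFm (p - 1 + 1) (dR C η) := ext_isFm C.nab h'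
  rw [sub_add_cancel] at h1
  intro I hI
  rw [Pi.sub_apply, h I hI, h1 I hI, sub_zero]

theorem FoD_dR_sub (C : Conn n K M) (ω η : Fm n M) : dR C (ω - dR C η) = dR C ω := by
  rw [map_sub, dR_dR, sub_zero]

theorem FoD_q1 [CharZero K] {lam : K →+ ℚ} (hlam : lam 1 = 1) {C : Conn n K M}
    {V : ℤ → Submodule (MvPowerSeries (Fin n) K) M} (hV : Compat C V) (hg : GrP lam C V)
    {p : ℤ} (N : ℕ) : ∀ ω : Fm n M, IsFm p ω → VF V (-(N : ℤ)) ω → VF V 0 (dR C ω) →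
      ∃ η : Fm n M, IsFm (p - 1) η ∧ VF V (-(N : ℤ)) η ∧ VF V 0 (ω - dR C η) := by
  induction N with
  | zero =>
    intro ω _ hω _
    refine ⟨0, FoD_isFm_zero, fun I => Submodule.zero_mem _, ?_⟩
    rw [map_zero, sub_zero]
    simpa using hω
  | succ N ih =>
    intro ω hp hω hd
    have e1 : -((N + 1 : ℕ) : ℤ) + 1 = -(N : ℤ) := by push_cast; ring
    obtain ⟨η', h1, h2, h3⟩ := gr_acyclic hlam hV hg (j := -((N + 1 : ℕ) : ℤ)) (by omega) hp hω
      (FoD_VF_mono hV (by omega) hd)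
    rw [e1] at h3
    obtain ⟨η'', h4, h5, h6⟩ := ih (ω - dR C η') (FoD_isFm_sub_dR C hp h1) h3
      (by rw [FoD_dR_sub]; exact hd)
    refine ⟨η' + η'', FoD_isFm_add h1 h4, FoC_VF_add h2 (FoD_VF_mono hV (by omega) h5), ?_⟩
    rw [map_add, ← sub_sub]
    exact h6

theorem FoD_q2 [CharZero K] {lam : K →+ ℚ} (hlam : lam 1 = 1) {C : Conn n K M}
    {V : ℤ → Submodule (MvPowerSeries (Fin n) K) M} (hV : Compat C V) (hg : GrP lam C V)
    {p : ℤ} {ω : Fm n M} (hp : IsFm p ω) (hω : VF V 1 ω) (hd : ∀ j, VF V j (dR C ω)) (k : ℕ) :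
    ∃ η : Fm n M, IsFm (p - 1) η ∧ VF V 1 η ∧ VF V (1 + k) (ω - dR C η) := by
  induction k with
  | zero =>
    refine ⟨0, FoD_isFm_zero, fun I => Submodule.zero_mem _, ?_⟩
    rw [map_zero, sub_zero]
    simpa using hω
  | succ k ih =>
    obtain ⟨η, h1, h2, h3⟩ := ih
    have e1 : (1 : ℤ) + ((k + 1 : ℕ) : ℤ) = 1 + k + 1 := by push_cast; ring
    obtain ⟨η', h4, h5, h6⟩ := gr_acyclic hlam hV hg (j := 1 + (k : ℤ)) (by omega)
      (FoD_isFm_sub_dR C hp h1) h3 (by rw [FoD_dR_sub]; exact hd _)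
    refine ⟨η + η', FoD_isFm_add h1 h4, FoC_VF_add h2 (FoD_VF_mono hV (by omega) h5), ?_⟩
    rw [map_add, ← sub_sub, e1]
    exact h6

/-- Proof. All coefficients of `ω` lie in some `V i` (finitely many; choose the smallest index), so `VF V (-N) ω` for some natural `N` (`Compat.le`). Induct on `N`: if `N = 0` take `η = 0`. Otherwise `gr_acyclic` with `j = -N` (`dR ω ∈ V^0 DR ⊆ V^(-N+1) DR`) gives `η'` with `ω - dR η' ∈ V^(-N+1) DR`; `dR (ω - dR η') = dR ω`; apply the induction hypothesis. -/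
theorem q1 [CharZero K] {lam : K →+ ℚ} (hlam : lam 1 = 1) {C : Conn n K M}
    {V : ℤ → Submodule (MvPowerSeries (Fin n) K) M} (hV : Compat C V) (hg : GrP lam C V)
    {p : ℤ} {ω : Fm n M} (hp : IsFm p ω) (hω : ∀ I, ∃ i, ω I ∈ V i) (hd : VF V 0 (dR C ω)) :
    ∃ η : Fm n M, IsFm (p - 1) η ∧ (∀ I, ∃ i, η I ∈ V i) ∧ VF V 0 (ω - dR C η) := by
  choose i hi using hω
  obtain ⟨N, hN⟩ : ∃ N : ℕ, N = ∑ I, (i I).natAbs := ⟨_, rfl⟩
  have h1 : VF V (-(N : ℤ)) ω := by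
    intro I
    refine FoD_le hV ?_ (hi I)
    have h2 : (i I).natAbs ≤ N := by
      rw [hN]
      exact Finset.single_le_sum (f := fun I => (i I).natAbs) (fun _ _ => Nat.zero_le _)
        (Finset.mem_univ I)
    omega
  obtain ⟨η, h2, h3, h4⟩ := FoD_q1 hlam hV hg N ω hp h1 hd
  exact ⟨η, h2, fun I => ⟨_, h3 I⟩, h4⟩

/-- Proof. Same with `gr_acyclic` for `j = 1, .., N-1`: the corrections lie in `V^1 DR`. -/
theorem q2_approx [CharZero K] {lam : K →+ ℚ} (hlam : lam 1 = 1) {C : Conn n K M}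
    {V : ℤ → Submodule (MvPowerSeries (Fin n) K) M} (hV : Compat C V) (hg : GrP lam C V)
    {p : ℤ} {ω : Fm n M} (hp : IsFm p ω) (hω : VF V 1 ω) (hd : ∀ j, VF V j (dR C ω)) (N : ℤ) :
    ∃ η : Fm n M, IsFm (p - 1) η ∧ VF V 1 η ∧ VF V N (ω - dR C η) := by
  obtain ⟨η, h1, h2, h3⟩ := FoD_q2 hlam hV hg hp hω hd N.toNat
  exact ⟨η, h1, h2, FoD_VF_mono hV (by omega) h3⟩

end B5a
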