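import Mathlib

set_option autoImplicit false
set_option linter.unusedSectionVars false
set_option linter.style.longLine false

/-!
Extension of derivations and automorphisms to the fraction field: definitions (MP_b5a980_ag).
-/

namespace B5a

universe u v w

variable {k : Type w} {R : Type u} [CommRing k] [CommRing R] [IsDomain R] [Algebra k R]

/-- The ring homomorphism to the dual numbers attached to a derivation. -/
noncomputable def Fr0_phi (D : Derivation k R R) :
    R →+* TrivSqZeroExt (FractionRing R) (FractionRing R) where
  toFun r := (algebraMap R (FractionRing R) r, algebraMap R (FractionRing R) (D r))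
  map_one' := by
    refine TrivSqZeroExt.ext ?_ ?_
    · change algebraMap R (FractionRing R) 1 = 1
      exact map_one _
    · change algebraMap R (FractionRing R) (D 1) = 0
      rw [D.map_one_eq_zero, map_zero]
  map_mul' a b := by
    refine TrivSqZeroExt.ext ?_ ?_
    · change algebraMap R (FractionRing R) (a * b) = algebraMap R (FractionRing R) a * algebraMap R (FractionRing R) b
      exact map_mul _ _ _
    · change algebraMap R (FractionRing R) (D (a * b)) =
        algebraMap R (FractionRing R) a * algebraMap R (FractionRing R) (D b) +
          algebraMap R (FractionRing R) (D a) * algebraMap R (FractionRing R) b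
      rw [D.leibniz, smul_eq_mul, smul_eq_mul, map_add, map_mul, map_mul, mul_comm (algebraMap R _ b)]
  map_zero' := by
    refine TrivSqZeroExt.ext ?_ ?_
    · change algebraMap R (FractionRing R) 0 = 0
      exact map_zero _
    · change algebraMap R (FractionRing R) (D 0) = 0
      rw [map_zero, map_zero]
  map_add' a b := by
    refine TrivSqZeroExt.ext ?_ ?_
    · change algebraMap R (FractionRing R) (a + b) = algebraMap R (FractionRing R) a + algebraMap R (FractionRing R) b
      exact map_add _ _ _
    · change algebraMap R (FractionRing R) (D (a + b)) =
        algebraMap R (FractionRing R) (D a) + algebraMap R (FractionRing R) (D b)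
      rw [map_add, map_add]

theorem Fr0_fst_phi (D : Derivation k R R) (r : R) :
    (Fr0_phi D r).fst = algebraMap R (FractionRing R) r := rfl

theorem Fr0_snd_phi (D : Derivation k R R) (r : R) :
    (Fr0_phi D r).snd = algebraMap R (FractionRing R) (D r) := rfl

theorem Fr0_unit (D : Derivation k R R) (y : nonZeroDivisors R) : IsUnit (Fr0_phi D y) := by
  rw [TrivSqZeroExt.isUnit_iff_isUnit_fst, Fr0_fst_phi]
  exact IsLocalization.map_units (FractionRing R) y

/-- The extension to the fraction field. -/
noncomputable def Fr0_lift (D : Derivation k R R) :
    FractionRing R →+* TrivSqZeroExt (FractionRing R) (FractionRing R) :=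
  IsLocalization.lift (M := nonZeroDivisors R) (Fr0_unit D)

theorem Fr0_lift_algebraMap (D : Derivation k R R) (r : R) :
    Fr0_lift D (algebraMap R (FractionRing R) r) = Fr0_phi D r :=
  IsLocalization.lift_eq (Fr0_unit D) r

theorem Fr0_fst_lift (D : Derivation k R R) (x : FractionRing R) : (Fr0_lift D x).fst = x := by
  have h : ((TrivSqZeroExt.fstHom (FractionRing R) (FractionRing R) (FractionRing R) :
      TrivSqZeroExt (FractionRing R) (FractionRing R) →+* FractionRing R)).comp (Fr0_lift D) =
      RingHom.id _ := by
    refine IsLocalization.ringHom_ext (nonZeroDivisors R) (RingHom.ext fun r => ?_)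
    simp only [RingHom.comp_apply, RingHom.id_apply]
    rw [Fr0_lift_algebraMap]
    rfl
  exact DFunLike.congr_fun h x

/-- existence of the extension of a derivation to the fraction field

Proof. The quotient rule: `D'(a/b) = (D a b - a D b)/b^2`. Well defined: if `a/b = a'/b'` then `a b' = a' b`; differentiate. Mathlib may have it: `Derivation.liftOfSurjective`, `KaehlerDifferential.isLocalizedModule`, `Derivation.localization`-like, or via the dual numbers: the ring homomorphism `R → TrivSqZeroExt (Frac R) (Frac R)`, `r ↦ (r, D r)`, sends nonzero elements to units, so it extends to `FractionRing R` (`IsLocalization.lift`), and the second component is the derivation. `k`-linearity: `D'` kills the image of `k`. -/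
theorem exists_fracDer (D : Derivation k R R) :
    ∃ D' : Derivation k (FractionRing R) (FractionRing R),
      ∀ r, D' (algebraMap R (FractionRing R) r) = algebraMap R (FractionRing R) (D r) := by
  have hmul : ∀ x y : FractionRing R, (Fr0_lift D (x * y)).snd =
      x * (Fr0_lift D y).snd + y * (Fr0_lift D x).snd := by
    intro x y
    rw [map_mul, TrivSqZeroExt.snd_mul, Fr0_fst_lift, Fr0_fst_lift]
    simp [mul_comm]
  refine ⟨Derivation.mk' { toFun := fun x => (Fr0_lift D x).snd
                           map_add' := fun x y => by rw [map_add, TrivSqZeroExt.snd_add]
                           map_smul' := fun c x => ?_ } fun x y => ?_, fun r => ?_⟩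
  · rw [RingHom.id_apply, Algebra.smul_def, hmul, IsScalarTower.algebraMap_apply k R (FractionRing R),
      Fr0_lift_algebraMap, Fr0_snd_phi, D.map_algebraMap, map_zero, mul_zero, add_zero,
      ← IsScalarTower.algebraMap_apply, ← Algebra.smul_def]
  · exact hmul x y
  · change (Fr0_lift D (algebraMap R (FractionRing R) r)).snd = _
    rw [Fr0_lift_algebraMap, Fr0_snd_phi]

/-- The extension of a derivation to the fraction field. -/
noncomputable def fracDer (D : Derivation k R R) :
    Derivation k (FractionRing R) (FractionRing R) := (exists_fracDer D).choose

@[simp]
theorem fracDer_algebraMap (D : Derivation k R R) (r : R) :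
    fracDer D (algebraMap R (FractionRing R) r) = algebraMap R (FractionRing R) (D r) :=
  (exists_fracDer D).choose_spec r

/-- The extension of a ring automorphism to the fraction field. -/
noncomputable def fracEquiv (e : R ≃+* R) : FractionRing R ≃+* FractionRing R :=
  IsFractionRing.ringEquivOfRingEquiv e

@[simp]
theorem fracEquiv_algebraMap (e : R ≃+* R) (r : R) :
    fracEquiv e (algebraMap R (FractionRing R) r) = algebraMap R (FractionRing R) (e r) :=
  IsFractionRing.ringEquivOfRingEquiv_algebraMap e r

end B5a
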