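import Pool.Agent.H.MP_b5a980_ag.Fr0

set_option autoImplicit false
set_option linter.unusedSectionVars false
set_option linter.style.longLine false

/-!
Derivations and automorphisms of the fraction field (MP_b5a980_ag).
-/

namespace B5a

universe u v w

variable {k : Type w} {R : Type u} [CommRing k] [CommRing R] [IsDomain R] [Algebra k R]

/-- quotient rule

Proof. `Derivation.leibniz_div` (Mathlib) or from `x = (x/y) y`. -/
theorem fracDer_div (D : Derivation k R R) (x y : FractionRing R) (hy : y ≠ 0) :
    fracDer D (x / y) = (fracDer D x * y - x * fracDer D y) / y ^ 2 := by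
  rw [Derivation.leibniz_div]
  simp only [smul_eq_mul]
  field_simp

/-- Proof. `Derivation.leibniz_zpow` (Mathlib) or induction. -/
theorem fracDer_zpow (D : Derivation k R R) (x : FractionRing R) (hx : x ≠ 0) (j : ℤ) :
    fracDer D (x ^ j) = (j : FractionRing R) * x ^ (j - 1) * fracDer D x := by
  rw [Derivation.leibniz_zpow, zsmul_eq_mul, smul_eq_mul, mul_assoc]

/-- Two additive maps satisfying the Leibniz rule that agree on `R` agree on the fraction field.

Proof. For `x = a/b`: `a = x b`, so `D a = D x b + x D b`, solve for `D x`; same for `D'`. -/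
theorem frac_leibniz_ext (D D' : FractionRing R →+ FractionRing R)
    (hD : ∀ x y, D (x * y) = D x * y + x * D y) (hD' : ∀ x y, D' (x * y) = D' x * y + x * D' y)
    (h : ∀ r : R, D (algebraMap R (FractionRing R) r) = D' (algebraMap R (FractionRing R) r)) :
    D = D' := by
  ext x
  obtain ⟨a, b, hb, rfl⟩ := IsFractionRing.div_surjective (A := R) x
  have hb0 : algebraMap R (FractionRing R) b ≠ 0 :=
    IsFractionRing.to_map_ne_zero_of_mem_nonZeroDivisors hb
  have e : algebraMap R (FractionRing R) a / algebraMap R (FractionRing R) b
      * algebraMap R (FractionRing R) b = algebraMap R (FractionRing R) a := div_mul_cancel₀ _ hb0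
  have h1 := hD (algebraMap R (FractionRing R) a / algebraMap R (FractionRing R) b)
    (algebraMap R (FractionRing R) b)
  have h2 := hD' (algebraMap R (FractionRing R) a / algebraMap R (FractionRing R) b)
    (algebraMap R (FractionRing R) b)
  rw [e, h, h b] at h1
  rw [e] at h2
  rw [h2] at h1
  exact (mul_right_cancel₀ hb0 (add_right_cancel h1)).symm

/-- Commuting derivations have commuting extensions.

Proof. `D1' D2' - D2' D1'` is additive, satisfies the Leibniz rule (the commutator of derivations is a derivation: `⁅D1', D2'⁆`) and vanishes on `R`; use `frac_leibniz_ext` with the zero map. -/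
theorem fracDer_comm (D1 D2 : Derivation k R R) (h : ∀ r, D1 (D2 r) = D2 (D1 r))
    (x : FractionRing R) : fracDer D1 (fracDer D2 x) = fracDer D2 (fracDer D1 x) := by
  have h1 := frac_leibniz_ext (R := R)
    (⁅fracDer D1, fracDer D2⁆ : Derivation k (FractionRing R) (FractionRing R)).toLinearMap.toAddMonoidHom
    0 (fun x y => ?_) (fun x y => by simp) (fun r => ?_)
  · have h2 := DFunLike.congr_fun h1 x
    change ⁅fracDer D1, fracDer D2⁆ x = 0 at h2
    rw [Derivation.commutator_apply] at h2
    exact sub_eq_zero.1 h2
  · change ⁅fracDer D1, fracDer D2⁆ (x * y) = ⁅fracDer D1, fracDer D2⁆ x * y + x * ⁅fracDer D1, fracDer D2⁆ y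
    rw [Derivation.leibniz]
    simp only [smul_eq_mul]
    ring
  · change ⁅fracDer D1, fracDer D2⁆ (algebraMap R (FractionRing R) r) = 0
    rw [Derivation.commutator_apply]
    simp [h r]

/-- Proof. Check on `R` and use that a ring homomorphism of `Frac R` is determined on `R` (`IsFractionRing` / `IsLocalization.ringHom_ext`), or apply `fracEquiv e` to both sides. -/
theorem fracEquiv_symm_apply (e : R ≃+* R) (x : FractionRing R) :
    (fracEquiv e).symm x = fracEquiv e.symm x := by
  rw [RingEquiv.symm_apply_eq]
  obtain ⟨a, b, hb, rfl⟩ := IsFractionRing.div_surjective (A := R) x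
  simp only [map_div₀, fracEquiv_algebraMap, RingEquiv.apply_symm_apply]

/-- Conjugation of derivations by ring automorphisms.

Proof. `x ↦ e^{-1} (D' (e x))` and `x ↦ D x` are additive, satisfy the Leibniz rule and agree on `R`. -/
theorem fracEquiv_fracDer (e : R ≃+* R) (D D' : Derivation k R R) (h : ∀ r, e (D r) = D' (e r))
    (x : FractionRing R) : fracEquiv e (fracDer D x) = fracDer D' (fracEquiv e x) := by
  have h1 := frac_leibniz_ext (R := R)
    (fracDer D).toLinearMap.toAddMonoidHom
    (((fracEquiv e).symm : FractionRing R ≃+* FractionRing R).toAddMonoidHom.comp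
      ((fracDer D').toLinearMap.toAddMonoidHom.comp (fracEquiv e).toAddMonoidHom))
    (fun x y => ?_) (fun x y => ?_) (fun r => ?_)
  · have h2 := DFunLike.congr_fun h1 x
    change fracDer D x = (fracEquiv e).symm (fracDer D' (fracEquiv e x)) at h2
    rw [h2, RingEquiv.apply_symm_apply]
  · change fracDer D (x * y) = fracDer D x * y + x * fracDer D y
    rw [Derivation.leibniz]
    simp only [smul_eq_mul]
    ring
  · change (fracEquiv e).symm (fracDer D' (fracEquiv e (x * y)))
      = (fracEquiv e).symm (fracDer D' (fracEquiv e x)) * y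
        + x * (fracEquiv e).symm (fracDer D' (fracEquiv e y))
    rw [map_mul, Derivation.leibniz, map_add, smul_eq_mul, smul_eq_mul, map_mul, map_mul,
      RingEquiv.symm_apply_apply, RingEquiv.symm_apply_apply]
    ring
  · change fracDer D (algebraMap R (FractionRing R) r)
      = (fracEquiv e).symm (fracDer D' (fracEquiv e (algebraMap R (FractionRing R) r)))
    rw [RingEquiv.eq_symm_apply, fracDer_algebraMap, fracEquiv_algebraMap, fracEquiv_algebraMap,
      fracDer_algebraMap, h]

end B5a
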