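import Pool.Agent.H.MP_b5a980_ag.Conn0
import Pool.Agent.H.MP_b5a980_ag.FrA
import Pool.Agent.H.MP_b5a980_ag.MI0

set_option autoImplicit false
set_option linter.unusedSectionVars false
set_option linter.style.longLine false

/-!
The derivatives on the fraction field of `K[[x_1..x_n]]`, the twisted connection (MP_b5a980_ag).
-/

namespace B5a

universe u v w

open MvPowerSeries

variable {n : ℕ} {K : Type u} [Field K]

/-- abbreviation: the fraction field of the ring of power series -/
abbrev FF (n : ℕ) (K : Type u) [Field K] := FractionRing (MvPowerSeries (Fin n) K)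

/-- the inclusion of power series in the fraction field -/
noncomputable abbrev inc (n : ℕ) (K : Type u) [Field K] :
    MvPowerSeries (Fin n) K →+* FF n K := algebraMap _ _

theorem inc_ne_zero {f : MvPowerSeries (Fin n) K} (hf : f ≠ 0) : inc n K f ≠ 0 := by
  intro h
  apply hf
  apply IsFractionRing.injective (MvPowerSeries (Fin n) K) (FF n K)
  rw [map_zero]
  exact h

/-- the derivatives on the fraction field -/
noncomputable def dF (n : ℕ) (K : Type u) [Field K] (i : Fin n) : Derivation K (FF n K) (FF n K) :=
  fracDer (pderiv K i)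

theorem dF_inc (i : Fin n) (r : MvPowerSeries (Fin n) K) :
    dF n K i (inc n K r) = inc n K (pderiv K i r) := by
  simp [dF]

/-- Proof. Compare coefficients: `coeff β (pderiv i r) = (β_i+1) coeff (β + e_i) r`. -/
theorem pderiv_comm (i j : Fin n) (r : MvPowerSeries (Fin n) K) :
    pderiv K i (pderiv K j r) = pderiv K j (pderiv K i r) := by
  by_cases hij : i = j
  · rw [hij]
  · ext β
    rw [coeff_pderiv, coeff_pderiv, coeff_pderiv, coeff_pderiv]
    have h1 : (β + (Finsupp.single i 1 : Fin n →₀ ℕ)) j = β j := by
      simp [hij]
    have h2 : (β + (Finsupp.single j 1 : Fin n →₀ ℕ)) i = β i := by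
      simp [Ne.symm hij]
    have h3 : β + (Finsupp.single i 1 : Fin n →₀ ℕ) + Finsupp.single j 1 =
        β + Finsupp.single j 1 + Finsupp.single i 1 := add_right_comm _ _ _
    rw [h1, h2, h3]
    ring

theorem dF_comm (i j : Fin n) (x : FF n K) : dF n K i (dF n K j x) = dF n K j (dF n K i x) :=
  fracDer_comm _ _ (pderiv_comm i j) x

theorem FrB_leib (i : Fin n) (r : MvPowerSeries (Fin n) K) (m : FF n K) :
    dF n K i (r • m) = pderiv K i r • m + r • dF n K i m := by
  rw [Algebra.smul_def, Algebra.smul_def, Algebra.smul_def, Derivation.leibniz, smul_eq_mul,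
    smul_eq_mul, dF_inc]
  ring

theorem FrB_symm (f : MvPowerSeries (Fin n) K) (i j : Fin n) :
    dF n K i (inc n K (pderiv K j f) / inc n K f) =
      dF n K j (inc n K (pderiv K i f) / inc n K f) := by
  by_cases hf : f = 0
  · have h0 : inc n K (0 : MvPowerSeries (Fin n) K) = 0 := map_zero _
    rw [hf, h0, div_zero, div_zero, map_zero, map_zero]
  · have h := inc_ne_zero hf
    have h1 := fun i : Fin n => fun x : FF n K => fracDer_div (pderiv K i) x (inc n K f) h
    unfold dF
    rw [h1 i, h1 j, fracDer_algebraMap, fracDer_algebraMap, fracDer_algebraMap,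
      fracDer_algebraMap, pderiv_comm i j]
    ring

/-- The connection `nab_i g = d_i g + s (d_i f / f) g` on the fraction field
(`g` stands for `g f^s`).

Proof. leib: Leibniz rule. comm: `d_i (f_j/f) = d_j (f_i/f)` by the quotient rule and `pderiv_comm` (if `f = 0` both terms vanish: division by zero is zero). -/
noncomputable def twist (f : MvPowerSeries (Fin n) K) (s : K) : Conn n K (FF n K) where
  nab i := (dF n K i : FF n K →ₗ[K] FF n K) +
    LinearMap.mulLeft K (s • (inc n K (pderiv K i f) / inc n K f))
  leib := by
    intro i r m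
    rw [LinearMap.add_apply, LinearMap.add_apply, LinearMap.mulLeft_apply, LinearMap.mulLeft_apply]
    have h1 : (dF n K i : FF n K →ₗ[K] FF n K) (r • m) =
        pderiv K i r • m + r • (dF n K i : FF n K →ₗ[K] FF n K) m := FrB_leib i r m
    rw [h1, smul_add, mul_smul_comm, add_assoc]
  comm := by
    intro i j m
    simp only [LinearMap.add_apply, LinearMap.mulLeft_apply, Derivation.coeFn_coe, map_add,
      Derivation.leibniz, smul_eq_mul, Derivation.map_smul]
    rw [dF_comm i j m, FrB_symm f i j]
    ring

theorem twist_nab (f : MvPowerSeries (Fin n) K) (s : K) (i : Fin n) (g : FF n K) :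
    (twist f s).nab i g = dF n K i g + (s • (inc n K (pderiv K i f) / inc n K f)) * g := rfl

/-- The standard connection on the fraction field. -/
noncomputable def std (n : ℕ) (K : Type u) [Field K] : Conn n K (FF n K) where
  nab i := (dF n K i : FF n K →ₗ[K] FF n K)
  leib := by
    intro i r m
    exact FrB_leib i r m
  comm := by
    intro i j m
    exact dF_comm i j m

theorem std_nab (i : Fin n) (g : FF n K) : (std n K).nab i g = dF n K i g := rfl

end B5a
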