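import Pool.Agent.H.MP_b5a980_ag.FrC

set_option autoImplicit false
set_option linter.unusedSectionVars false
set_option linter.style.longLine false

/-!
Base change to `k(s)` (MP_b5a980_ag, A6).
-/

namespace B5a

universe u v w

open MvPowerSeries

/-- `k(s)` -/
abbrev KS (k : Type u) [Field k] := FractionRing (Polynomial k)

variable {n : ℕ} {k : Type u} [Field k]

/-- the element `s` of `k(s)` -/
noncomputable def sK (k : Type u) [Field k] : KS k := algebraMap (Polynomial k) (KS k) Polynomial.X

/-- the automorphism `s -> s + 1` of `k[s]` -/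
noncomputable def shiftE (k : Type u) [Field k] : Polynomial k ≃+* Polynomial k :=
  (Polynomial.algEquivAevalXAddC (1 : k)).toRingEquiv

/-- the automorphism `s -> s + 1` of `k(s)` -/
noncomputable def tauK (k : Type u) [Field k] : KS k ≃+* KS k := fracEquiv (shiftE k)

theorem tauK_sK : tauK k (sK k) = sK k + 1 := by
  have h : shiftE k Polynomial.X = Polynomial.X + 1 := by
    simp [shiftE, Polynomial.algEquivAevalXAddC]
  rw [tauK, sK, fracEquiv_algebraMap, h, map_add, map_one]

theorem tauK_algebraMap (c : k) : tauK k (algebraMap k (KS k) c) = algebraMap k (KS k) c := by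
  have h : shiftE k (algebraMap k (Polynomial k) c) = algebraMap k (Polynomial k) c :=
    AlgEquiv.commutes _ c
  rw [IsScalarTower.algebraMap_apply k (Polynomial k) (KS k), tauK, fracEquiv_algebraMap, h]

/-- Proof. `k` embeds in `KS k`: `charZero_of_injective_algebraMap`. -/
instance charZero_KS [CharZero k] : CharZero (KS k) :=
  charZero_of_injective_algebraMap (algebraMap k (KS k)).injective

/-- base change of power series -/
noncomputable def iR (n : ℕ) (k : Type u) [Field k] :
    MvPowerSeries (Fin n) k →+* MvPowerSeries (Fin n) (KS k) :=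
  MvPowerSeries.map (algebraMap k (KS k))

theorem iR_injective : Function.Injective (iR n k) := by
  intro a b h
  ext β
  have h1 := congrArg (coeff β) h
  rw [iR, coeff_map, coeff_map] at h1
  exact (algebraMap k (KS k)).injective h1

theorem iR_pderiv (i : Fin n) (r : MvPowerSeries (Fin n) k) :
    iR n k (pderiv k i r) = pderiv (KS k) i (iR n k r) := by
  ext β
  rw [iR, coeff_map, coeff_pderiv, coeff_pderiv, coeff_map]
  simp

theorem mapE_iR (r : MvPowerSeries (Fin n) k) : mapE n (tauK k) (iR n k r) = iR n k r := by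
  ext β
  rw [coeff_mapE, iR, coeff_map, tauK_algebraMap]

/-- base change of the fraction field -/
noncomputable def iF (n : ℕ) (k : Type u) [Field k] : FF n k →+* FF n (KS k) :=
  IsFractionRing.lift (A := MvPowerSeries (Fin n) k) (g := (inc n (KS k)).comp (iR n k))
    ((IsFractionRing.injective (MvPowerSeries (Fin n) (KS k)) (FF n (KS k))).comp iR_injective)

/-- Proof. `IsFractionRing.lift_algebraMap`. -/
@[simp]
theorem iF_inc (r : MvPowerSeries (Fin n) k) : iF n k (inc n k r) = inc n (KS k) (iR n k r) :=
  IsFractionRing.lift_algebraMap _ r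

/-- Proof. `x = a/b`; `fracDer_div` (quotient rule) on both sides and `iR_pderiv`. -/
theorem iF_dF (i : Fin n) (x : FF n k) : iF n k (dF n k i x) = dF n (KS k) i (iF n k x) := by
  obtain ⟨a, b, hb, rfl⟩ := IsFractionRing.div_surjective (A := MvPowerSeries (Fin n) k) x
  have hb0 : b ≠ 0 := nonZeroDivisors.ne_zero hb
  have hb1 : inc n k b ≠ 0 := inc_ne_zero hb0
  have hb2 : inc n (KS k) (iR n k b) ≠ 0 :=
    inc_ne_zero (fun h => hb0 (iR_injective (by rw [h, map_zero])))
  have h1 : dF n k i (inc n k a / inc n k b) =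
      (dF n k i (inc n k a) * inc n k b - inc n k a * dF n k i (inc n k b)) / inc n k b ^ 2 :=
    fracDer_div (pderiv k i) _ _ hb1
  have h2 : dF n (KS k) i (inc n (KS k) (iR n k a) / inc n (KS k) (iR n k b)) =
      (dF n (KS k) i (inc n (KS k) (iR n k a)) * inc n (KS k) (iR n k b) -
        inc n (KS k) (iR n k a) * dF n (KS k) i (inc n (KS k) (iR n k b))) /
        inc n (KS k) (iR n k b) ^ 2 :=
    fracDer_div (pderiv (KS k) i) _ _ hb2
  rw [h1, map_div₀, map_sub, map_mul, map_mul, map_pow, map_div₀, iF_inc, iF_inc, h2, dF_inc,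
    dF_inc, dF_inc, dF_inc, iF_inc, iF_inc, iR_pderiv, iR_pderiv]

end B5a
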