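import Pool.Agent.H.MP_b5a980_ag.GeA
import Pool.Agent.H.MP_b5a980_ag.MIB
import Pool.Agent.H.MP_b5a980_ag.PMA

set_option autoImplicit false
set_option linter.unusedSectionVars false
set_option linter.style.longLine false

/-!
Evaluation in `Frac k(s)[[x]]` (MP_b5a980_ag, A6).
-/

namespace B5a

universe u v w

open MvPowerSeries

variable {n : ℕ} {k : Type u} [Field k]

/-- evaluation `F[s] -> Frac k(s)[[x]]` -/
noncomputable def ev (n : ℕ) (k : Type u) [Field k] : FS n k →+* FF n (KS k) :=
  Polynomial.eval₂RingHom (iF n k) (algebraMap (KS k) (FF n (KS k)) (sK k))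

/-- evaluation `R[s] -> k(s)[[x]]` -/
noncomputable def evR (n : ℕ) (k : Type u) [Field k] :
    Polynomial (MvPowerSeries (Fin n) k) →+* MvPowerSeries (Fin n) (KS k) :=
  Polynomial.eval₂RingHom (iR n k) (MvPowerSeries.C (sK k))

theorem GeB_ev_C (g : FF n k) : ev n k (Polynomial.C g) = iF n k g := by
  change Polynomial.eval₂ _ _ _ = _
  rw [Polynomial.eval₂_C]

theorem GeB_ev_X : ev n k Polynomial.X = algebraMap (KS k) (FF n (KS k)) (sK k) := by
  change Polynomial.eval₂ _ _ _ = _
  rw [Polynomial.eval₂_X]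

theorem GeB_inc_C {n : ℕ} {K : Type u} [Field K] (c : K) :
    inc n K (MvPowerSeries.C c) = algebraMap K (FF n K) c := by
  rw [IsScalarTower.algebraMap_apply K (MvPowerSeries (Fin n) K) (FF n K)]
  rfl

theorem ev_embR (p : Polynomial (MvPowerSeries (Fin n) k)) :
    ev n k (embR n k p) = inc n (KS k) (evR n k p) := by
  have h : (ev n k).comp (embR n k) = (inc n (KS k)).comp (evR n k) := by
    refine Polynomial.ringHom_ext (fun a => ?_) ?_
    · have h1 : embR n k (Polynomial.C a) = Polynomial.C (inc n k a) := Polynomial.map_C _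
      have h2 : evR n k (Polynomial.C a) = iR n k a := by
        change Polynomial.eval₂ _ _ _ = _
        rw [Polynomial.eval₂_C]
      rw [RingHom.comp_apply, RingHom.comp_apply, h1, h2, GeB_ev_C, iF_inc]
    · have h1 : embR n k Polynomial.X = Polynomial.X := Polynomial.map_X _
      have h2 : evR n k Polynomial.X = MvPowerSeries.C (sK k) := by
        change Polynomial.eval₂ _ _ _ = _
        rw [Polynomial.eval₂_X]
      rw [RingHom.comp_apply, RingHom.comp_apply, h1, h2, GeB_ev_X, GeB_inc_C]
  exact DFunLike.congr_fun h p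

theorem ev_emb (b : Polynomial k) :
    ev n k (emb n k b) = algebraMap (KS k) (FF n (KS k)) (algebraMap (Polynomial k) (KS k) b) := by
  have h : (ev n k).comp (emb n k) =
      (algebraMap (KS k) (FF n (KS k))).comp (algebraMap (Polynomial k) (KS k)) := by
    refine Polynomial.ringHom_ext (fun a => ?_) ?_
    · have h1 : emb n k (Polynomial.C a) = Polynomial.C (algebraMap k (FF n k) a) :=
        Polynomial.map_C _
      have h2 : algebraMap (Polynomial k) (KS k) (Polynomial.C a) = algebraMap k (KS k) a := by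
        rw [IsScalarTower.algebraMap_apply k (Polynomial k) (KS k)]
        rfl
      have h3 : iR n k (MvPowerSeries.C a) = MvPowerSeries.C (algebraMap k (KS k) a) :=
        MvPowerSeries.map_C _ _
      rw [RingHom.comp_apply, RingHom.comp_apply, h1, h2, GeB_ev_C, ← GeB_inc_C, iF_inc, h3,
        GeB_inc_C]
    · have h1 : emb n k Polynomial.X = Polynomial.X := Polynomial.map_X _
      rw [RingHom.comp_apply, RingHom.comp_apply, h1, GeB_ev_X]
      rfl
  exact DFunLike.congr_fun h b

theorem GeB_ev_pmap (i : Fin n) (p : FS n k) :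
    ev n k (pmap (derAdd (dF n k i)) p) = dF n (KS k) i (ev n k p) := by
  induction p using Polynomial.induction_on' with
  | add p q hp hq => rw [map_add, map_add, map_add, map_add, hp, hq]
  | monomial m g =>
    have h1 : pmap (derAdd (dF n k i)) (Polynomial.monomial m g) =
        Polynomial.monomial m (dF n k i g) := by
      ext j
      rw [coeff_pmap, Polynomial.coeff_monomial, Polynomial.coeff_monomial, derAdd_apply]
      split_ifs
      · rfl
      · rw [map_zero]
    have h2 : ∀ g' : FF n k, ev n k (Polynomial.monomial m g') =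
        iF n k g' * algebraMap (KS k) (FF n (KS k)) (sK k ^ m) := by
      intro g'
      change Polynomial.eval₂ _ _ _ = _
      rw [Polynomial.eval₂_monomial, map_pow]
    rw [h1, h2, h2, Derivation.leibniz, Derivation.map_algebraMap, smul_zero, zero_add, smul_eq_mul,
      mul_comm, iF_dF]

/-- The evaluation commutes with the connections. -/
theorem ev_nab (f : MvPowerSeries (Fin n) k) (i : Fin n) (p : FS n k) :
    ev n k ((pconn f).nab i p) = (twist (iR n k f) (sK k)).nab i (ev n k p) := by
  rw [pconn_nab, twist_nab, map_add, GeB_ev_pmap, map_mul, map_mul, GeB_ev_X, GeB_ev_C, ld, map_div₀,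
    iF_inc, iF_inc, iR_pderiv, Algebra.smul_def]

theorem GeB_ev_pw (f : MvPowerSeries (Fin n) k) (d : ℕ) : ∀ (γ : Fin n →₀ ℕ), γ.degree = d →
    ∀ p : FS n k, ev n k ((pconn f).pw γ p) = (twist (iR n k f) (sK k)).pw γ (ev n k p) := by
  induction d with
  | zero =>
    intro γ hγ p
    have h0 : γ = 0 := (Finsupp.degree_eq_zero_iff γ).1 hγ
    rw [h0, Conn.pw_zero, Conn.pw_zero]
  | succ d ih =>
    intro γ hγ p
    have hne : γ ≠ 0 := by
      rintro rfl
      simp at hγ
    obtain ⟨l, γ', h1, h2⟩ := Conn.exists_single_of_ne_zero hne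
    rw [h1, ← Conn.nab_pw, ← Conn.nab_pw, ev_nab, ih γ' (by omega)]

theorem ev_pw (f : MvPowerSeries (Fin n) k) (γ : Fin n →₀ ℕ) (p : FS n k) :
    ev n k ((pconn f).pw γ p) = (twist (iR n k f) (sK k)).pw γ (ev n k p) :=
  GeB_ev_pw f γ.degree γ rfl p

theorem GeB_ev_smul (r : MvPowerSeries (Fin n) k) (p : FS n k) :
    ev n k (r • p) = iR n k r • ev n k p := by
  have h : r • p = Polynomial.C (inc n k r) * p := by
    rw [Algebra.smul_def]
    rfl
  rw [h, map_mul, GeB_ev_C, iF_inc, Algebra.smul_def]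

theorem GeB_algebraMap_mul {n : ℕ} {K : Type u} [Field K] (c : K) (x : FF n K) :
    algebraMap K (FF n K) c * x = (MvPowerSeries.C c : MvPowerSeries (Fin n) K) • x := by
  rw [← GeB_inc_C, Algebra.smul_def]

/-- The evaluation of `ND f 1`. -/
theorem ev_mem_D (f : MvPowerSeries (Fin n) k) {p : FS n k} (hp : p ∈ ND f 1) :
    ev n k p ∈ (twist (iR n k f) (sK k)).D (inc n (KS k) (iR n k f)) := by
  refine Submodule.span_induction (p := fun p _ => ev n k p ∈
    (twist (iR n k f) (sK k)).D (inc n (KS k) (iR n k f))) ?_ ?_ ?_ ?_ hp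
  · rintro q ⟨m, γ, rfl⟩
    have h1 : ev n k (fz f 1) = inc n (KS k) (iR n k f) := by
      rw [fz, GeB_ev_C, zpow_one, iF_inc]
    rw [map_mul, map_pow, GeB_ev_X, ev_pw, h1, ← map_pow, GeB_algebraMap_mul]
    exact Submodule.smul_mem _ _ (Submodule.subset_span ⟨γ, rfl⟩)
  · rw [map_zero]
    exact Submodule.zero_mem _
  · intro x y _ _ hx hy
    rw [map_add]
    exact Submodule.add_mem _ hx hy
  · intro r x _ hx
    rw [GeB_ev_smul]
    exact Submodule.smul_mem _ _ hx

/-- The weak functional equation over `k(s)`. -/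
theorem H_of_H0 (f : MvPowerSeries (Fin n) k) (a : ℕ) (b1 : Polynomial k) (hb1 : b1 ≠ 0)
    (h : ∀ r ∈ mI n k a, emb n k b1 * (r • (1 : FS n k)) ∈ ND f 1) :
    ∀ r ∈ mI n (KS k) a, inc n (KS k) r ∈
      (twist (iR n k f) (sK k)).D (inc n (KS k) (iR n k f)) := by
  have hb : algebraMap (Polynomial k) (KS k) b1 ≠ 0 := by
    intro h0
    exact hb1 ((IsFractionRing.injective (Polynomial k) (KS k)) (by rw [h0, map_zero]))
  have key : ∀ β : Fin n →₀ ℕ, β.degree = a →
      inc n (KS k) (monomial β 1) ∈
        (twist (iR n k f) (sK k)).D (inc n (KS k) (iR n k f)) := by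
    intro β hβ
    have h1 := ev_mem_D f (h (monomial β 1) (monomial_mem_mI hβ.ge 1))
    have h2 : iR n k (monomial β 1) = monomial β 1 := by
      rw [iR, MvPowerSeries.map_monomial, map_one]
    rw [map_mul, ev_emb, GeB_ev_smul, h2, map_one (ev n k), GeB_algebraMap_mul] at h1
    have h3 := Submodule.smul_mem _
      (MvPowerSeries.C ((algebraMap (Polynomial k) (KS k) b1)⁻¹) : MvPowerSeries (Fin n) (KS k)) h1
    rw [smul_smul, ← map_mul, inv_mul_cancel₀ hb, map_one, one_smul, Algebra.smul_def, mul_one]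
      at h3
    exact h3
  intro r hr
  obtain ⟨c, -, hc⟩ := exists_sum_mI (a := a) (e := 0) (g := r) (by simpa using hr)
  rw [hc, map_sum]
  refine Submodule.sum_mem _ fun β hβ => ?_
  rw [mul_comm, map_mul, ← Algebra.smul_def]
  exact Submodule.smul_mem _ _ (key β (MIB_mem_antidiag.1 hβ))

end B5a
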