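import Pool.Agent.H.MP_b5a980_ag.GeB

set_option autoImplicit false
set_option linter.unusedSectionVars false
set_option linter.style.longLine false

/-!
Truncation over `k(s)` (MP_b5a980_ag, A6).
-/

namespace B5a

universe u v w

open MvPowerSeries

variable {n : ℕ} {k : Type u} [Field k]

theorem GeC_evR_C (g : MvPowerSeries (Fin n) k) : evR n k (Polynomial.C g) = iR n k g := by
  change Polynomial.eval₂ _ _ _ = _
  rw [Polynomial.eval₂_C]

theorem GeC_evR_X :
    evR n k Polynomial.X = (MvPowerSeries.C (sK k) : MvPowerSeries (Fin n) (KS k)) := by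
  change Polynomial.eval₂ _ _ _ = _
  rw [Polynomial.eval₂_X]

theorem GeC_alg_C (a : k) :
    algebraMap (Polynomial k) (KS k) (Polynomial.C a) = algebraMap k (KS k) a := by
  rw [IsScalarTower.algebraMap_apply k (Polynomial k) (KS k)]
  rfl

theorem GeC_coeff_evR (B : Polynomial (MvPowerSeries (Fin n) k)) (β : Fin n →₀ ℕ) :
    ∃ P : Polynomial k, (∀ m, P.coeff m = coeff β (B.coeff m)) ∧
      coeff β (evR n k B) = algebraMap (Polynomial k) (KS k) P := by
  induction B using Polynomial.induction_on' with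
  | add p q hp hq =>
    obtain ⟨P, hP1, hP2⟩ := hp
    obtain ⟨Q, hQ1, hQ2⟩ := hq
    refine ⟨P + Q, fun m => ?_, ?_⟩
    · rw [Polynomial.coeff_add, Polynomial.coeff_add, map_add, hP1, hQ1]
    · rw [map_add, map_add, map_add, hP2, hQ2]
  | monomial m g =>
    refine ⟨Polynomial.monomial m (coeff β g), fun j => ?_, ?_⟩
    · rw [Polynomial.coeff_monomial, Polynomial.coeff_monomial]
      split_ifs
      · rfl
      · rw [map_zero]
    · have h1 : evR n k (Polynomial.monomial m g) =
          iR n k g * MvPowerSeries.C (sK k ^ m) := by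
        rw [← Polynomial.C_mul_X_pow_eq_monomial, map_mul, map_pow, GeC_evR_C, GeC_evR_X, map_pow]
      have h2 : algebraMap (Polynomial k) (KS k) (Polynomial.monomial m (coeff β g)) =
          algebraMap k (KS k) (coeff β g) * sK k ^ m := by
        rw [← Polynomial.C_mul_X_pow_eq_monomial, map_mul, map_pow, GeC_alg_C]
        rfl
      rw [h1, h2, coeff_mul_C, iR, coeff_map]

theorem GeC_evR_map (w : Polynomial k) :
    evR n k (Polynomial.map (MvPowerSeries.C : k →+* MvPowerSeries (Fin n) k) w) =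
      MvPowerSeries.C (algebraMap (Polynomial k) (KS k) w) := by
  have h : (evR n k).comp (Polynomial.mapRingHom
      (MvPowerSeries.C : k →+* MvPowerSeries (Fin n) k)) =
      (MvPowerSeries.C : KS k →+* MvPowerSeries (Fin n) (KS k)).comp
        (algebraMap (Polynomial k) (KS k)) := by
    refine Polynomial.ringHom_ext (fun a => ?_) ?_
    · rw [RingHom.comp_apply, RingHom.comp_apply, Polynomial.coe_mapRingHom, Polynomial.map_C,
        GeC_evR_C, GeC_alg_C, iR, MvPowerSeries.map_C]
    · rw [RingHom.comp_apply, RingHom.comp_apply, Polynomial.coe_mapRingHom, Polynomial.map_X,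
        GeC_evR_X]
      rfl
  exact DFunLike.congr_fun h w

/-- truncation and clearing of denominators -/
theorem exists_trunc (ι : Type) (t : Finset ι) (a : ι → MvPowerSeries (Fin n) (KS k)) (N : ℕ) :
    ∃ (e : Polynomial k) (A : ι → Polynomial (MvPowerSeries (Fin n) k)), e ≠ 0 ∧
      ∀ i ∈ t, MvPowerSeries.C (algebraMap (Polynomial k) (KS k) e) * a i - evR n k (A i) ∈
        mI n (KS k) N := by
  classical
  let I : Finset (Fin n →₀ ℕ) :=
    (Finset.range N).biUnion (fun d => Finset.finsuppAntidiag Finset.univ d)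
  have hI : ∀ β : Fin n →₀ ℕ, β.degree < N → β ∈ I := by
    intro β hβ
    rw [Finset.mem_biUnion]
    exact ⟨β.degree, Finset.mem_range.2 hβ, MIB_mem_antidiag.2 rfl⟩
  obtain ⟨b, hb⟩ := IsLocalization.exist_integer_multiples_of_finset
    (nonZeroDivisors (Polynomial k))
    ((t ×ˢ I).image (fun p => (coeff p.2 (a p.1) : KS k)))
  have hw : ∀ i β, ∃ w : Polynomial k, i ∈ t → β ∈ I →
      algebraMap (Polynomial k) (KS k) w =
        algebraMap (Polynomial k) (KS k) (b : Polynomial k) * coeff β (a i) := by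
    intro i β
    by_cases h : i ∈ t ∧ β ∈ I
    · obtain ⟨w, hw⟩ := hb (coeff β (a i))
        (Finset.mem_image.2 ⟨(i, β), Finset.mem_product.2 h, rfl⟩)
      refine ⟨w, fun _ _ => ?_⟩
      rw [hw, Algebra.smul_def]
    · exact ⟨0, fun h1 h2 => absurd ⟨h1, h2⟩ h⟩
  choose w hw using hw
  refine ⟨(b : Polynomial k), fun i => ∑ β ∈ I, Polynomial.C (monomial β (1 : k)) *
    Polynomial.map (MvPowerSeries.C : k →+* MvPowerSeries (Fin n) k) (w i β),
    nonZeroDivisors.ne_zero b.2, fun i hi => ?_⟩
  intro γ hγ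
  rw [map_sub, coeff_C_mul, map_sum, map_sum, Finset.sum_eq_single γ]
  · rw [map_mul, GeC_evR_C, GeC_evR_map, coeff_mul_C, iR, MvPowerSeries.map_monomial,
      coeff_monomial_same, map_one, one_mul, hw i γ hi (hI γ hγ), sub_self]
  · intro β _ hne
    rw [map_mul, GeC_evR_C, GeC_evR_map, coeff_mul_C, iR, MvPowerSeries.map_monomial,
      coeff_monomial_ne hne.symm, zero_mul]
  · intro hn
    exact absurd (hI γ hγ) hn

/-- coefficients of an evaluation -/
theorem coeff_mem_mI_of_evR_mem {B : Polynomial (MvPowerSeries (Fin n) k)} {N : ℕ}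
    (h : evR n k B ∈ mI n (KS k) N) (i : ℕ) : B.coeff i ∈ mI n k N := by
  intro β hβ
  obtain ⟨P, hP1, hP2⟩ := GeC_coeff_evR B β
  have h1 : algebraMap (Polynomial k) (KS k) P = 0 := by
    rw [← hP2]
    exact h β hβ
  have h2 : P = 0 := (IsFractionRing.injective (Polynomial k) (KS k)) (by rw [h1, map_zero])
  rw [← hP1, h2, Polynomial.coeff_zero]

end B5a
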