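import Pool.Agent.H.MP_b5a980_ag.PMC

set_option autoImplicit false
set_option linter.unusedSectionVars false
set_option linter.style.longLine false

/-!
Absorbing high powers of the maximal ideal (MP_b5a980_ag, A6).
-/

namespace B5a

universe u v w

open MvPowerSeries

variable {n : ℕ} {k : Type u} [Field k]

theorem GeD_embR_C (r : MvPowerSeries (Fin n) k) :
    embR n k (Polynomial.C r) = Polynomial.C (inc n k r) := Polynomial.map_C _

theorem GeD_pmap_embR (i : Fin n) (A : Polynomial (MvPowerSeries (Fin n) k)) :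
    pmap (derAdd (dF n k i)) (embR n k A) = embR n k (pmap (derAdd (pderiv k i)) A) := by
  ext m
  simp only [coeff_pmap, embR, Polynomial.coe_mapRingHom, Polynomial.coeff_map, derAdd_apply,
    dF_inc]

theorem GeD_nab_mul (f : MvPowerSeries (Fin n) k) (i : Fin n)
    (A : Polynomial (MvPowerSeries (Fin n) k)) (p : FS n k) :
    (pconn f).nab i (embR n k A * p) =
      embR n k (pmap (derAdd (pderiv k i)) A) * p + embR n k A * (pconn f).nab i p := by
  rw [pconn_nab, pconn_nab, PMA_pmap_mul, GeD_pmap_embR]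
  ring

theorem GeD_fz_step (f : MvPowerSeries (Fin n) k) (hf : f ≠ 0) (j : ℤ) :
    fz f (j + 1) = embR n k (Polynomial.C f) * fz f j := by
  rw [GeD_embR_C, fz, fz, ← Polynomial.C_mul, zpow_add_one₀ (inc_ne_zero hf), mul_comm]

theorem GeD_base (f : MvPowerSeries (Fin n) k) (hf : f ≠ 0) (r : ℕ) :
    fz f 1 = embR n k (Polynomial.C (f ^ (r + 1))) * fz f (-(r : ℤ)) := by
  have h0 := inc_ne_zero (n := n) hf
  rw [GeD_embR_C, fz, fz, ← Polynomial.C_mul, map_pow, ← zpow_natCast, ← zpow_add₀ h0]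
  congr 2
  push_cast
  ring

/-- pole orders in `F[s]` -/
theorem exists_pole (f : MvPowerSeries (Fin n) k) (hf : f ≠ 0) (γ : Fin n →₀ ℕ) (r : ℕ)
    (hr : γ.degree ≤ r) : ∃ A : Polynomial (MvPowerSeries (Fin n) k),
      (pconn f).pw γ (fz f 1) = embR n k A * fz f (-(r : ℤ)) := by
  have key : ∀ (d : ℕ) (γ : Fin n →₀ ℕ), γ.degree = d → ∀ r : ℕ, d ≤ r →
      ∃ A : Polynomial (MvPowerSeries (Fin n) k),
        (pconn f).pw γ (fz f 1) = embR n k A * fz f (-(r : ℤ)) := by
    intro d
    induction d with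
    | zero =>
      intro γ hγ r _
      have h0 : γ = 0 := (Finsupp.degree_eq_zero_iff γ).1 hγ
      rw [h0, Conn.pw_zero]
      exact ⟨_, GeD_base f hf r⟩
    | succ d ih =>
      intro γ hγ r hr
      have hne : γ ≠ 0 := by
        rintro rfl
        simp at hγ
      obtain ⟨i, γ', h1, h2⟩ := Conn.exists_single_of_ne_zero hne
      obtain ⟨r', rfl⟩ : ∃ r', r = r' + 1 := ⟨r - 1, by omega⟩
      obtain ⟨A, hA⟩ := ih γ' (by omega) r' (by omega)
      refine ⟨pmap (derAdd (pderiv k i)) A * Polynomial.C f +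
        A * ((Polynomial.X + Polynomial.C ((-(r' : ℤ) : ℤ) : MvPowerSeries (Fin n) k)) *
          Polynomial.C (pderiv k i f)), ?_⟩
      have h3 : fz f (-(r' : ℤ)) = embR n k (Polynomial.C f) * fz f (-((r' + 1 : ℕ) : ℤ)) := by
        rw [← GeD_fz_step f hf]
        congr 1
        push_cast
        ring
      have h4 : (-(r' : ℤ)) - 1 = -((r' + 1 : ℕ) : ℤ) := by
        push_cast
        ring
      rw [h1, ← Conn.nab_pw, hA, GeD_nab_mul, pconn_nab_fz f hf, h4, h3]
      simp only [map_add, map_mul]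
      ring
  exact key _ γ rfl r hr

theorem GeD_smul (r : MvPowerSeries (Fin n) k) (p : FS n k) :
    r • p = Polynomial.C (inc n k r) * p := PMA_smul r p

theorem GeD_compat (f : MvPowerSeries (Fin n) k) :
    Compat (pconn f) (fun _ : ℤ => ND f 1) where
  anti _ := le_rfl
  x_mem _ _ _ hm := Submodule.smul_mem _ _ hm
  nab_mem _ l _ hm := nab_mem_ND f 1 hm l

theorem GeD_comp_ne_zero (b : Polynomial k) (hb : b ≠ 0) (c : k) :
    b.comp (Polynomial.X + Polynomial.C c) ≠ 0 := by
  intro h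
  apply hb
  have h1 : (b.comp (Polynomial.X + Polynomial.C c)).comp (Polynomial.X - Polynomial.C c) = b := by
    rw [Polynomial.comp_assoc, Polynomial.add_comp, Polynomial.X_comp, Polynomial.C_comp,
      sub_add_cancel, Polynomial.comp_X]
  rw [← h1, h, Polynomial.zero_comp]

/-- `m^N f^(-r)` times a nonzero polynomial lies in `N_1`. -/
theorem absorb (f : MvPowerSeries (Fin n) k) (hf : f ≠ 0) (a : ℕ) (b1 : Polynomial k)
    (hb1 : b1 ≠ 0) (h : ∀ r ∈ mI n k a, emb n k b1 * (r • (1 : FS n k)) ∈ ND f 1) (r : ℕ) :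
    ∃ (N : ℕ) (B : Polynomial k), B ≠ 0 ∧ ∀ x ∈ mI n k N,
      emb n k B * (x • fz f (-(r : ℤ))) ∈ ND f 1 := by
  have hfz0 : fz f 0 = 1 := by
    rw [fz, zpow_zero, Polynomial.C_1]
  induction r with
  | zero =>
    refine ⟨a, b1, hb1, fun x hx => ?_⟩
    rw [Nat.cast_zero, neg_zero, hfz0]
    exact h x hx
  | succ r ih =>
    obtain ⟨N, B, hB, hN⟩ := ih
    have hs : ∀ β : Fin n →₀ ℕ, β.degree = a →
        emb n k (b1.comp (Polynomial.X + Polynomial.C ((-((r + 1 : ℕ) : ℤ) : ℤ) : k))) *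
          ((monomial β 1 : MvPowerSeries (Fin n) k) • fz f (-((r + 1 : ℕ) : ℤ))) ∈
            ND f (-(r : ℤ)) := by
      intro β hβ
      have h1 := h (monomial β 1) (monomial_mem_mI hβ.ge 1)
      rw [← hfz0] at h1
      have h2 := shift_mem f hf b1 (monomial β 1) 0 1 (-((r + 1 : ℕ) : ℤ)) h1
      have h3 : (1 : ℤ) + -((r + 1 : ℕ) : ℤ) = -(r : ℤ) := by
        push_cast
        ring
      rw [zero_add, h3] at h2
      exact h2
    set b' : Polynomial k :=
      b1.comp (Polynomial.X + Polynomial.C ((-((r + 1 : ℕ) : ℤ) : ℤ) : k)) with hb'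
    have hex : ∀ β : Fin n →₀ ℕ, ∃ (r' : ℕ) (A : (Fin n →₀ ℕ) →
        Polynomial (MvPowerSeries (Fin n) k)), β.degree = a →
        emb n k b' * ((monomial β 1 : MvPowerSeries (Fin n) k) • fz f (-((r + 1 : ℕ) : ℤ))) =
          ∑ γ ∈ (Finset.range (r' + 1)).biUnion fun d => Finset.finsuppAntidiag Finset.univ d,
            embR n k (A γ) * (pconn f).pw γ (fz f (-(r : ℤ))) := by
      intro β
      by_cases hβ : β.degree = a
      · obtain ⟨r', A, hA⟩ := exists_sum_of_mem_ND f _ (hs β hβ)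
        exact ⟨r', A, fun _ => hA⟩
      · exact ⟨0, fun _ => 0, fun h' => absurd h' hβ⟩
    choose r' A hA using hex
    let R : ℕ := (Finset.finsuppAntidiag (Finset.univ : Finset (Fin n)) a).sup r'
    have hR : ∀ β : Fin n →₀ ℕ, β.degree = a → r' β ≤ R := fun β hβ =>
      Finset.le_sup (f := r') (MIB_mem_antidiag.2 hβ)
    have hbp : ∀ (γ : Fin n →₀ ℕ) (c : MvPowerSeries (Fin n) k), c ∈ mI n k (N + γ.degree) →
        c • (pconn f).pw γ (emb n k B * fz f (-(r : ℤ))) ∈ ND f 1 := by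
      intro γ c hc
      have h1 := (GeD_compat f).by_parts (v := emb n k B * fz f (-(r : ℤ))) (e0 := N) (s := 0)
        (fun e he x hx => by
          have h2 := hN x (mI_anti he hx)
          rw [mul_smul_comm] at h2
          exact h2) γ (N + γ.degree) le_rfl c hc
      exact h1
    refine ⟨a + (N + R), B * b', mul_ne_zero hB (GeD_comp_ne_zero b1 hb1 _), fun x hx => ?_⟩
    obtain ⟨c, hc, hxc⟩ := exists_sum_mI hx
    rw [hxc, Finset.sum_smul, Finset.mul_sum]
    refine Submodule.sum_mem _ fun β hβ => ?_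
    have hβ' : β.degree = a := MIB_mem_antidiag.1 hβ
    have h1 : emb n k (B * b') *
        (((monomial β 1 : MvPowerSeries (Fin n) k) * c β) • fz f (-((r + 1 : ℕ) : ℤ))) =
        ∑ γ ∈ (Finset.range (r' β + 1)).biUnion fun d => Finset.finsuppAntidiag Finset.univ d,
          embR n k (A β γ) * (c β • (pconn f).pw γ (emb n k B * fz f (-(r : ℤ)))) := by
      have h2 : emb n k (B * b') *
        (((monomial β 1 : MvPowerSeries (Fin n) k) * c β) • fz f (-((r + 1 : ℕ) : ℤ))) =
          Polynomial.C (inc n k (c β)) * emb n k B * (emb n k b' *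
            ((monomial β 1 : MvPowerSeries (Fin n) k) • fz f (-((r + 1 : ℕ) : ℤ)))) := by
        rw [map_mul, GeD_smul, GeD_smul, map_mul, Polynomial.C_mul]
        ring
      rw [h2, hA β hβ', Finset.mul_sum]
      refine Finset.sum_congr rfl fun γ _ => ?_
      rw [pconn_pw_emb_mul, GeD_smul]
      ring
    rw [h1]
    refine Submodule.sum_mem _ fun γ hγ => ?_
    have hγ' : γ.degree ≤ r' β := PMB_mem_idx.1 hγ
    refine embR_mul_mem_ND f 1 _ (hbp γ (c β) (mI_anti ?_ (hc β)))
    have := hR β hβ'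
    omega

end B5a
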