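import Pool.Agent.H.MP_b5a980_ag.Closed
import Pool.Agent.H.MP_b5a980_ag.GeC
import Pool.Agent.H.MP_b5a980_ag.GeD
import Pool.Agent.H.MP_b5a980_ag.PMD

set_option autoImplicit false
set_option linter.unusedSectionVars false
set_option linter.style.longLine false

/-!
The first case of the induction step (MP_b5a980_ag, A6).
-/

namespace B5a

universe u v w

open MvPowerSeries

variable {n : ℕ} {k : Type u} [Field k]

/-- an element of `Fil r u` as a finite sum -/
theorem Gen_exists_sum {m : ℕ} {K : Type u} [Field K] {M : Type v} [AddCommGroup M]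
    [Module (MvPowerSeries (Fin m) K) M] [Module K M]
    [IsScalarTower K (MvPowerSeries (Fin m) K) M] (C : Conn m K M) (r : ℕ) (u x : M)
    (hx : x ∈ C.Fil r u) :
    ∃ (T : Finset (Fin m →₀ ℕ)) (a : (Fin m →₀ ℕ) → MvPowerSeries (Fin m) K),
      (∀ γ ∈ T, γ.degree ≤ r) ∧ ∑ γ ∈ T, a γ • C.pw γ u = x := by
  classical
  have h1 : x ∈ Submodule.span (MvPowerSeries (Fin m) K)
      ((fun γ : Fin m →₀ ℕ => C.pw γ u) '' {γ | γ.degree ≤ r}) := by
    have h2 : ((fun γ : Fin m →₀ ℕ => C.pw γ u) '' {γ | γ.degree ≤ r}) =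
        {y | ∃ γ : Fin m →₀ ℕ, γ.degree ≤ r ∧ y = C.pw γ u} := by
      ext y
      constructor
      · rintro ⟨γ, hγ, rfl⟩
        exact ⟨γ, hγ, rfl⟩
      · rintro ⟨γ, hγ, rfl⟩
        exact ⟨γ, hγ, rfl⟩
    rw [h2]
    exact hx
  obtain ⟨T, hT, c, hc⟩ := Submodule.mem_span_image_iff_exists_fun _ |>.1 h1
  refine ⟨T, fun γ => if h : γ ∈ T then c ⟨γ, h⟩ else 0, fun γ hγ => hT hγ, ?_⟩
  rw [← hc, ← Finset.sum_coe_sort T]
  simp

/-- multiplication of a polynomial with coefficients in `m^N` -/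
theorem Gen_mem (f : MvPowerSeries (Fin n) k) (j : ℤ) (N : ℕ) (B : Polynomial k)
    (hB : ∀ x ∈ mI n k N, emb n k B * (x • fz f j) ∈ ND f 1)
    (H : Polynomial (MvPowerSeries (Fin n) k)) (hH : ∀ i, H.coeff i ∈ mI n k N) :
    emb n k B * (embR n k H * fz f j) ∈ ND f 1 := by
  have h1 : embR n k H = ∑ i ∈ Finset.range (H.natDegree + 1),
      emb n k (Polynomial.X ^ i) * Polynomial.C (inc n k (H.coeff i)) := by
    conv_lhs => rw [H.as_sum_range_C_mul_X_pow]
    rw [map_sum]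
    refine Finset.sum_congr rfl fun i _ => ?_
    unfold embR emb
    simp only [Polynomial.coe_mapRingHom, Polynomial.map_mul, Polynomial.map_C, Polynomial.map_pow,
      Polynomial.map_X]
    ring
  rw [h1, Finset.sum_mul, Finset.mul_sum]
  refine Submodule.sum_mem _ fun i _ => ?_
  have h2 : emb n k B * (emb n k (Polynomial.X ^ i) * Polynomial.C (inc n k (H.coeff i)) * fz f j) =
      emb n k (Polynomial.X ^ i) * (emb n k B * (H.coeff i • fz f j)) := by
    have h3 : (H.coeff i • fz f j : FS n k) = Polynomial.C (inc n k (H.coeff i)) * fz f j := by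
      ext l
      rw [Polynomial.coeff_smul, Polynomial.coeff_C_mul, Algebra.smul_def]
    rw [h3]
    ring
  rw [h2]
  exact emb_mul_mem_ND f 1 _ (hB _ (hH i))

/-- The first case of the induction step.

Proof. `H_of_H0` and `closed_point` over `KS k` (with `tauK`, `tauK_sK`, `iR f ≠ 0`, `mapE_iR`) give `1 ∈ D(iR f)`, so `1 = Σ_{|γ| ≤ r} a_γ (twist ..).pw γ (iR f)` (`exists_mem_Fil`; write an element of the span as a sum over the finite set of `γ` with `|γ| ≤ r`). `absorb` for this `r`: `N, B`. `exists_trunc` for the `a_γ` and `N`: `e, A_γ`. Let `h = emb e - Σ_γ embR (A_γ) * pw γ (fz f 1) ∈ F[s]`. By `exists_pole`, `h = embR H * fz f (-r)` for some `H ∈ R[s]` (also `1 = C(f^r) fz(-r)`). Applying `ev`: `inc (evR H) (iR f)^(-r) = ev h = Σ_γ (e a_γ - evR A_γ) (twist).pw γ (iR f)`, and `(twist).pw γ (iR f) = inc (evR P_γ) (iR f)^(-r)` with `P_γ` from `exists_pole`; so `evR H = Σ_γ (e a_γ - evR A_γ) evR P_γ ∈ m^N`, and all coefficients of `H`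 lie in `mI n k N` (`coeff_mem_mI_of_evR_mem`). So `emb B * h = Σ_i X^i emb B * (H.coeff i • fz f (-r)) ∈ ND f 1`, and `emb (B e) = emb B * h + emb B * Σ ... ∈ ND f 1`; `B e ≠ 0`. -/
theorem hasBS_of_H0 [CharZero k] (hn : 0 < n) (f : MvPowerSeries (Fin n) k) (hf : f ≠ 0) (a : ℕ)
    (b1 : Polynomial k) (hb1 : b1 ≠ 0)
    (h : ∀ r ∈ mI n k a, emb n k b1 * (r • (1 : FS n k)) ∈ ND f 1) : HasBS n k f := by
  classical
  have hif : iR n k f ≠ 0 := fun h0 => hf (iR_injective (by rw [h0, map_zero]))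
  have hifi : inc n (KS k) (iR n k f) ≠ 0 := inc_ne_zero hif
  have hf0 : inc n k f ≠ 0 := inc_ne_zero hf
  have h1 := closed_point (tauK k) (sK k) tauK_sK (iR n k f) hif (mapE_iR f) hn a
    (H_of_H0 f a b1 hb1 h)
  obtain ⟨r, hr⟩ := Conn.exists_mem_Fil _ h1
  obtain ⟨T, c, hT, hc⟩ := Gen_exists_sum _ r _ _ hr
  obtain ⟨N, B, hB0, hB⟩ := absorb f hf a b1 hb1 h r
  obtain ⟨e, A, he0, hA⟩ := exists_trunc (Fin n →₀ ℕ) T c N
  have hP : ∀ γ : Fin n →₀ ℕ, ∃ P : Polynomial (MvPowerSeries (Fin n) k), γ.degree ≤ r →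
      (pconn f).pw γ (fz f 1) = embR n k P * fz f (-(r : ℤ)) := by
    intro γ
    by_cases hγ : γ.degree ≤ r
    · obtain ⟨P, hP⟩ := exists_pole f hf γ r hγ
      exact ⟨P, fun _ => hP⟩
    · exact ⟨0, fun h0 => absurd h0 hγ⟩
  choose P hP using hP
  -- the polynomial `H`
  have hone : (1 : FS n k) = embR n k (Polynomial.C (f ^ r)) * fz f (-(r : ℤ)) := by
    unfold fz embR
    rw [Polynomial.coe_mapRingHom, Polynomial.map_C, ← Polynomial.C_mul, map_pow, ← zpow_natCast,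
      ← zpow_add₀ hf0, add_neg_cancel, zpow_zero, Polynomial.C_1]
  have hS : emb n k e - ∑ γ ∈ T, embR n k (A γ) * (pconn f).pw γ (fz f 1) =
      embR n k (e.map (MvPowerSeries.C (σ := Fin n) (R := k)) * Polynomial.C (f ^ r) -
        ∑ γ ∈ T, A γ * P γ) * fz f (-(r : ℤ)) := by
    have hs1 : ∑ γ ∈ T, embR n k (A γ) * (pconn f).pw γ (fz f 1) =
        (∑ γ ∈ T, embR n k (A γ * P γ)) * fz f (-(r : ℤ)) := by
      rw [Finset.sum_mul]
      refine Finset.sum_congr rfl fun γ hγ => ?_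
      rw [hP γ (hT γ hγ), map_mul, mul_assoc]
    have hs2 : emb n k e = embR n k (e.map (MvPowerSeries.C (σ := Fin n) (R := k)) *
        Polynomial.C (f ^ r)) * fz f (-(r : ℤ)) := by
      rw [map_mul, mul_assoc, ← hone, mul_one, emb_eq_embR]
    rw [hs1, hs2, map_sub, map_sum, sub_mul]
  -- its image in `k(s)[[x]]`
  have hpw : ∀ γ ∈ T, (twist (iR n k f) (sK k)).pw γ (inc n (KS k) (iR n k f)) =
      inc n (KS k) (evR n k (P γ)) * inc n (KS k) (iR n k f) ^ (-(r : ℤ)) := by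
    intro γ hγ
    have h2 : ev n k (fz f 1) = inc n (KS k) (iR n k f) := by
      unfold fz ev
      rw [Polynomial.coe_eval₂RingHom, Polynomial.eval₂_C, zpow_one, iF_inc]
    have h3 : ev n k (fz f (-(r : ℤ))) = inc n (KS k) (iR n k f) ^ (-(r : ℤ)) := by
      unfold fz ev
      rw [Polynomial.coe_eval₂RingHom, Polynomial.eval₂_C, map_zpow₀, iF_inc]
    rw [← h2, ← ev_pw, hP γ (hT γ hγ), map_mul, ev_embR, h3, h2]
  have hfr : iR n k f ^ r = ∑ γ ∈ T, c γ * evR n k (P γ) := by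
    apply IsFractionRing.injective (MvPowerSeries (Fin n) (KS k)) (FF n (KS k))
    have h2 : inc n (KS k) (iR n k f) ^ r * ∑ γ ∈ T,
        c γ • (twist (iR n k f) (sK k)).pw γ (inc n (KS k) (iR n k f)) =
        inc n (KS k) (iR n k f) ^ r := by
      rw [hc, mul_one]
    rw [map_pow, map_sum]
    refine h2.symm.trans ?_
    rw [Finset.mul_sum]
    refine Finset.sum_congr rfl fun γ hγ => ?_
    rw [hpw γ hγ, Algebra.smul_def, map_mul, zpow_neg, zpow_natCast]
    field_simp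
  have hH : evR n k (e.map (MvPowerSeries.C (σ := Fin n) (R := k)) * Polynomial.C (f ^ r) -
        ∑ γ ∈ T, A γ * P γ) ∈ mI n (KS k) N := by
    have h2 : evR n k (e.map (MvPowerSeries.C (σ := Fin n) (R := k))) =
        MvPowerSeries.C (algebraMap (Polynomial k) (KS k) e) := by
      apply IsFractionRing.injective (MvPowerSeries (Fin n) (KS k)) (FF n (KS k))
      have h3 := ev_embR (n := n) (k := k) (e.map (MvPowerSeries.C (σ := Fin n) (R := k)))
      rw [← emb_eq_embR, ev_emb] at h3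
      rw [show algebraMap (MvPowerSeries (Fin n) (KS k)) (FF n (KS k)) = inc n (KS k) from rfl,
        ← h3, IsScalarTower.algebraMap_apply (KS k) (MvPowerSeries (Fin n) (KS k)) (FF n (KS k))]
      rfl
    have h4 : evR n k (Polynomial.C (f ^ r)) = iR n k f ^ r := by
      unfold evR
      rw [Polynomial.coe_eval₂RingHom, Polynomial.eval₂_C, map_pow]
    rw [map_sub, map_mul, map_sum, h2, h4, hfr, Finset.mul_sum, ← Finset.sum_sub_distrib]
    refine Ideal.sum_mem _ fun γ hγ => ?_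
    rw [map_mul, ← mul_assoc, ← sub_mul]
    exact Ideal.mul_mem_right _ _ (hA γ hγ)
  refine ⟨B * e, mul_ne_zero hB0 he0, ?_⟩
  have h5 : emb n k (B * e) = emb n k B * (embR n k
      (e.map (MvPowerSeries.C (σ := Fin n) (R := k)) * Polynomial.C (f ^ r) -
        ∑ γ ∈ T, A γ * P γ) * fz f (-(r : ℤ))) +
      emb n k B * ∑ γ ∈ T, embR n k (A γ) * (pconn f).pw γ (fz f 1) := by
    rw [← hS, map_mul]
    ring
  rw [h5]
  refine Submodule.add_mem _ ?_ ?_
  · exact Gen_mem f _ N B hB _ fun i => coeff_mem_mI_of_evR_mem hH i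
  · exact emb_mul_mem_ND f 1 _ (Submodule.sum_mem _ fun γ _ =>
      embR_mul_mem_ND f 1 _ (pw_fz_mem_ND f 1 γ))

end B5a
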