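import Pool.Agent.H.MP_b5a980_ag.EtC
import Pool.Agent.H.MP_b5a980_ag.HdA
import Pool.Agent.H.MP_b5a980_ag.HmA

set_option autoImplicit false
set_option linter.unusedSectionVars false
set_option linter.style.longLine false

/-!
Independence of the coefficient field: homology and rho (MP_b5a980_ag).
-/

namespace B5a

universe u v w

open MvPowerSeries

/-- Homology part of the answer.

Proof. `exists_Psi_main`: `Ψ`. Put `π' = π ∘ Ψ`, `f' s = Ψ⁻¹ (f s)`; `span_symm`. `hom_main` with `g = f'` gives `SSIso (homSS f') (homSS f)`; symmetric. rho: `e2_equiv` for `n - p`, `n - q` and the isomorphism of the pages `E 2 (n-p) (n-p+(n-q))` of `SSIso.e`; `LinearEquiv.finrank_eq`. -/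
theorem hom_result {A : Type u} [CommRing A] [IsLocalRing A] [Algebra ℚ A]
    (σ σ' : IsLocalRing.ResidueField A →+* A)
    (hσ : ∀ x, IsLocalRing.residue A (σ x) = x) (hσ' : ∀ x, IsLocalRing.residue A (σ' x) = x)
    {n r : ℕ} (π : MvPowerSeries (Fin n) (IsLocalRing.ResidueField A) →+* A)
    (hπ : Function.Surjective π) (hπσ : ∀ c, π (C c) = σ c)
    (f : Fin r → MvPowerSeries (Fin n) (IsLocalRing.ResidueField A)) (hf0 : ∀ s, f s ≠ 0)
    (hf : Ideal.span (Set.range f) = RingHom.ker π) :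
    ∃ (π' : MvPowerSeries (Fin n) (IsLocalRing.ResidueField A) →+* A)
      (f' : Fin r → MvPowerSeries (Fin n) (IsLocalRing.ResidueField A)),
      Function.Surjective π' ∧ (∀ c, π' (C c) = σ' c) ∧ (∀ s, f' s ≠ 0) ∧
      Ideal.span (Set.range f') = RingHom.ker π' ∧ Nonempty (SSIso (homSS f) (homSS f')) ∧
      ∀ p q : ℤ, rhoPQ f p q = rhoPQ f' p q := by
  have hc : CharZero (IsLocalRing.ResidueField A) := charZero_residue
  obtain ⟨Ψ, hX, hC, hπΨ⟩ := exists_Psi_main σ σ' hσ hσ' π hπ hπσ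
  have hg : ∀ s, Ψ.symm (f s) ≠ 0 := by
    intro s h
    exact hf0 s ((map_eq_zero_iff Ψ.symm Ψ.symm.injective).1 h)
  have hss : Nonempty (SSIso (homSS f) (homSS fun s => Ψ.symm (f s))) :=
    ssiso_symm (hom_main Ψ hX hC hg hf0 fun s => (Ψ.apply_symm_apply (f s)).symm)
  refine ⟨π.comp (Ψ : MvPowerSeries (Fin n) (IsLocalRing.ResidueField A) →+*
      MvPowerSeries (Fin n) (IsLocalRing.ResidueField A)), fun s => Ψ.symm (f s),
    hπ.comp Ψ.surjective, hπΨ, hg, span_symm π Ψ f hf, hss, fun p q => ?_⟩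
  obtain ⟨s⟩ := hss
  obtain ⟨e1⟩ := e2_equiv f ((n : ℤ) - p) ((n : ℤ) - q)
  obtain ⟨e2⟩ := e2_equiv (fun s => Ψ.symm (f s)) ((n : ℤ) - p) ((n : ℤ) - q)
  exact LinearEquiv.finrank_eq ((e1.symm.trans (s.e 2 le_rfl _ _)).trans e2)

end B5a
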