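import Pool.Agent.H.MP_b5a980_ag.Jos0

set_option autoImplicit false
set_option linter.unusedSectionVars false
set_option linter.style.longLine false

/-!
Operators killing a step of the filtration vanish (MP_b5a980_ag).
-/

namespace B5a

universe u v w

variable {K : Type u} {G : Type v} [Field K] [CharZero K] [AddCommGroup G] [Module K G]

theorem JosA_pow_right {R : Type*} [Ring R] {x y : R} (h : y * x - x * y = 1) (m : ℕ) :
    y * x ^ m - x ^ m * y = (m : R) * x ^ (m - 1) := by
  induction m with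
  | zero => simp
  | succ m ih =>
    have h1 : y * x ^ (m + 1) - x ^ (m + 1) * y
        = (y * x ^ m - x ^ m * y) * x + x ^ m * (y * x - x * y) := by
      rw [pow_succ]; noncomm_ring
    rw [h1, ih, h]
    rcases m with _ | m
    · simp
    · simp only [Nat.add_sub_cancel]
      rw [mul_assoc, ← pow_succ, mul_one]
      push_cast
      ring_nf
      noncomm_ring

theorem JosA_pow_left {R : Type*} [Ring R] {x y : R} (h : y * x - x * y = 1) (m : ℕ) :
    y ^ m * x - x * y ^ m = (m : R) * y ^ (m - 1) := by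
  induction m with
  | zero => simp
  | succ m ih =>
    have h1 : y ^ (m + 1) * x - x * y ^ (m + 1)
        = (y ^ m * x - x * y ^ m) * y + y ^ m * (y * x - x * y) := by
      rw [pow_succ]; noncomm_ring
    rw [h1, ih, h]
    rcases m with _ | m
    · simp
    · simp only [Nat.add_sub_cancel]
      rw [mul_assoc, ← pow_succ, mul_one]
      push_cast
      ring_nf
      noncomm_ring

namespace Weyl

variable {n : ℕ} (A : Weyl n K G)

theorem JosA_commX (β : Fin n →₀ ℕ) (s : Set (Fin n)) :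
    s.Pairwise (Function.onFun Commute fun k => A.X k ^ β k) :=
  fun i _ j _ _ => (A.hXX i j).pow_pow _ _

theorem JosA_commY (β : Fin n →₀ ℕ) (s : Set (Fin n)) :
    s.Pairwise (Function.onFun Commute fun k => A.Y k ^ β k) :=
  fun i _ j _ _ => (A.hYY i j).pow_pow _ _

theorem JosA_split {R : Type*} [Ring R] (f g : Fin n → R) (i : Fin n)
    (hf : (Set.univ : Set (Fin n)).Pairwise (Function.onFun Commute f))
    (hg : (Set.univ : Set (Fin n)).Pairwise (Function.onFun Commute g))
    (hfg : ∀ k, k ≠ i → g k = f k) (y : R) (hy : ∀ k, k ≠ i → Commute y (f k)) :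
    ∃ r : R, Finset.univ.noncommProd f (fun _ _ _ _ h => hf trivial trivial h) = f i * r ∧
      Finset.univ.noncommProd g (fun _ _ _ _ h => hg trivial trivial h) = g i * r ∧
      Commute y r := by
  classical
  refine ⟨(Finset.univ.erase i).noncommProd f (fun _ _ _ _ h => hf trivial trivial h), ?_, ?_, ?_⟩
  · exact (Finset.mul_noncommProd_erase Finset.univ (Finset.mem_univ i) f _ _).symm
  · have h1 : (Finset.univ.erase i).noncommProd f (fun _ _ _ _ h => hf trivial trivial h)
        = (Finset.univ.erase i).noncommProd g (fun _ _ _ _ h => hg trivial trivial h) :=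
      Finset.noncommProd_congr rfl
        (fun k hk => (hfg k (Finset.ne_of_mem_erase hk)).symm) _
    rw [h1]
    exact (Finset.mul_noncommProd_erase Finset.univ (Finset.mem_univ i) g _ _).symm
  · exact Finset.noncommProd_commute _ _ _ _ (fun k hk => hy k (Finset.ne_of_mem_erase hk))

/-- `Y_i` and `X^β` -/
theorem Y_Xp (i : Fin n) (β : Fin n →₀ ℕ) :
    A.Y i * A.Xp β - A.Xp β * A.Y i = (β i : K) • A.Xp (β - Finsupp.single i 1) := by
  classical
  obtain ⟨R, e1, e2, hc⟩ := JosA_split (fun k => A.X k ^ β k)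
    (fun k => A.X k ^ (β - Finsupp.single i 1 : Fin n →₀ ℕ) k) i (A.JosA_commX _ _) (A.JosA_commX _ _)
    (fun k hk => by simp [hk.symm]) (A.Y i) (fun k hk => by
      have := A.hYX i k
      rw [if_neg hk.symm, sub_eq_zero] at this
      exact Commute.pow_right this _)
  have e1' : A.Xp β = A.X i ^ β i * R := e1
  have e2' : A.Xp (β - Finsupp.single i 1) = A.X i ^ (β i - 1) * R := by
    have : A.Xp (β - Finsupp.single i 1) = A.X i ^ (β - Finsupp.single i 1 : Fin n →₀ ℕ) i * R := e2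
    simpa using this
  rw [e1', e2']
  have h1 : A.Y i * A.X i - A.X i * A.Y i = 1 := by simpa using A.hYX i i
  have h2 := JosA_pow_right h1 (β i)
  have h3 : A.Y i * (A.X i ^ β i * R) - A.X i ^ β i * R * A.Y i
      = (A.Y i * A.X i ^ β i - A.X i ^ β i * A.Y i) * R := by
    rw [mul_assoc (A.X i ^ β i) R (A.Y i), ← hc.eq]
    noncomm_ring
  rw [h3, h2]
  rw [mul_assoc, ← nsmul_eq_mul, Nat.cast_smul_eq_nsmul]

/-- `Y^α` and `X_i` -/
theorem Yp_X (i : Fin n) (α : Fin n →₀ ℕ) :
    A.Yp α * A.X i - A.X i * A.Yp α = (α i : K) • A.Yp (α - Finsupp.single i 1) := by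
  classical
  obtain ⟨R, e1, e2, hc⟩ := JosA_split (fun k => A.Y k ^ α k)
    (fun k => A.Y k ^ (α - Finsupp.single i 1 : Fin n →₀ ℕ) k) i (A.JosA_commY _ _) (A.JosA_commY _ _)
    (fun k hk => by simp [hk.symm]) (A.X i) (fun k hk => by
      have := A.hYX k i
      rw [if_neg hk, sub_eq_zero] at this
      exact Commute.pow_right this.symm _)
  have e1' : A.Yp α = A.Y i ^ α i * R := e1
  have e2' : A.Yp (α - Finsupp.single i 1) = A.Y i ^ (α i - 1) * R := by
    have : A.Yp (α - Finsupp.single i 1) = A.Y i ^ (α - Finsupp.single i 1 : Fin n →₀ ℕ) i * R := e2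
    simpa using this
  rw [e1', e2']
  have h1 : A.Y i * A.X i - A.X i * A.Y i = 1 := by simpa using A.hYX i i
  have h2 := JosA_pow_left h1 (α i)
  have h3 : A.Y i ^ α i * R * A.X i - A.X i * (A.Y i ^ α i * R)
      = (A.Y i ^ α i * A.X i - A.X i * A.Y i ^ α i) * R := by
    rw [mul_assoc (A.Y i ^ α i) R (A.X i), ← hc.eq]
    noncomm_ring
  rw [h3, h2]
  rw [mul_assoc, ← nsmul_eq_mul, Nat.cast_smul_eq_nsmul]

theorem JosA_mem_wordSet {n j l a : ℕ} {β α : Fin n →₀ ℕ} :
    (a, β, α) ∈ wordSet n j l ↔ a ≤ l ∧ β.degree + α.degree ≤ j := by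
  unfold wordSet
  simp only [Finset.mem_filter, Finset.mem_product, Finset.mem_range, Finset.mem_biUnion,
    Finset.mem_finsuppAntidiag, Finset.subset_univ, and_true, Order.lt_add_one_iff]
  constructor
  · rintro ⟨⟨h1, _⟩, h2⟩
    exact ⟨h1, h2⟩
  · rintro ⟨h1, h2⟩
    refine ⟨⟨h1, ⟨β.degree, by omega, ?_⟩, ⟨α.degree, by omega, ?_⟩⟩, h2⟩
    · rw [Finsupp.degree_eq_sum]
    · rw [Finsupp.degree_eq_sum]

theorem JosA_degree_add_single {n : ℕ} (β : Fin n →₀ ℕ) (i : Fin n) :
    (β + Finsupp.single i 1).degree = β.degree + 1 := by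
  rw [map_add, Finsupp.degree_single]

theorem JosA_sub_add {n : ℕ} (β : Fin n →₀ ℕ) (i : Fin n) (h : β i ≠ 0) :
    β - Finsupp.single i 1 + Finsupp.single i 1 = β := by
  apply tsub_add_cancel_of_le
  rw [Finsupp.single_le_iff]
  omega

theorem JosA_add_sub {n : ℕ} (β : Fin n →₀ ℕ) (i : Fin n) :
    β + Finsupp.single i 1 - Finsupp.single i 1 = β := add_tsub_cancel_right _ _

/-- commutator with `X i` -/
theorem JosA_sum_X (i : Fin n) (j l : ℕ) (c : (ℕ × (Fin n →₀ ℕ) × (Fin n →₀ ℕ)) → K) (m : G) :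
    ∑ w ∈ wordSet n (j + 1) l, c w • A.ev w (A.X i m)
      - A.X i (∑ w ∈ wordSet n (j + 1) l, c w • A.ev w m)
    = ∑ w ∈ wordSet n j l, (((w.2.2 i : K) + 1) * c (w.1, w.2.1, w.2.2 + Finsupp.single i 1)) •
        A.ev w m := by
  classical
  rw [map_sum, ← Finset.sum_sub_distrib]
  have h1 : ∀ w ∈ wordSet n (j + 1) l,
      c w • A.ev w (A.X i m) - A.X i (c w • A.ev w m)
        = ((w.2.2 i : K) * c w) • A.ev (w.1, w.2.1, w.2.2 - Finsupp.single i 1) m := by
    rintro ⟨a, β, α⟩ _
    have hcT : Commute (A.T ^ a) (A.X i) := (A.hTX i).pow_left a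
    have hcX : Commute (A.Xp β) (A.X i) := by
      unfold Xp
      exact (Finset.noncommProd_commute _ _ _ _ (fun k _ => (A.hXX i k).pow_right _)).symm
    have h2 : A.ev (a, β, α) * A.X i - A.X i * A.ev (a, β, α)
        = (α i : K) • A.ev (a, β, α - Finsupp.single i 1) := by
      unfold ev
      simp only
      have : A.X i * (A.T ^ a * A.Xp β * A.Yp α) = A.T ^ a * A.Xp β * (A.X i * A.Yp α) := by
        rw [← mul_assoc, ← mul_assoc, ← hcT.eq, mul_assoc (A.T ^ a) (A.X i), ← hcX.eq]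
        simp only [mul_assoc]
      rw [this, mul_assoc _ _ (A.X i), ← mul_sub, Yp_X, mul_smul_comm]
    have h3 := congrArg (fun F : Module.End K G => F m) h2
    simp only [LinearMap.sub_apply, Module.End.mul_apply, LinearMap.smul_apply] at h3
    rw [map_smul, ← smul_sub, h3, smul_smul]
    congr 1
    ring
  rw [Finset.sum_congr rfl h1]
  rw [← Finset.sum_filter_add_sum_filter_not (wordSet n (j + 1) l) (fun w => w.2.2 i ≠ 0)]
  have h0 : ∑ w ∈ (wordSet n (j + 1) l).filter (fun w => ¬ w.2.2 i ≠ 0),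
      ((w.2.2 i : K) * c w) • A.ev (w.1, w.2.1, w.2.2 - Finsupp.single i 1) m = 0 := by
    apply Finset.sum_eq_zero
    intro w hw
    have := (Finset.mem_filter.1 hw).2
    push Not at this
    rw [this]
    simp
  rw [h0, add_zero]
  refine Finset.sum_nbij' (fun w => (w.1, w.2.1, w.2.2 - Finsupp.single i 1))
    (fun w => (w.1, w.2.1, w.2.2 + Finsupp.single i 1)) ?_ ?_ ?_ ?_ ?_
  · rintro ⟨a, β, α⟩ hw
    obtain ⟨hw1, hw2⟩ := Finset.mem_filter.1 hw
    rw [JosA_mem_wordSet] at hw1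
    simp only at hw2 ⊢
    rw [JosA_mem_wordSet]
    have := JosA_degree_add_single (α - Finsupp.single i 1) i
    rw [JosA_sub_add α i hw2] at this
    exact ⟨hw1.1, by omega⟩
  · rintro ⟨a, β, α⟩ hw
    rw [JosA_mem_wordSet] at hw
    simp only [Finset.mem_filter]
    rw [JosA_mem_wordSet, JosA_degree_add_single]
    refine ⟨⟨hw.1, by omega⟩, ?_⟩
    simp
  · rintro ⟨a, β, α⟩ hw
    obtain ⟨hw1, hw2⟩ := Finset.mem_filter.1 hw
    simp only at hw2 ⊢
    rw [JosA_sub_add α i hw2]
  · rintro ⟨a, β, α⟩ hw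
    simp only
    rw [JosA_add_sub]
  · rintro ⟨a, β, α⟩ hw
    obtain ⟨hw1, hw2⟩ := Finset.mem_filter.1 hw
    simp only at hw2 ⊢
    rw [JosA_sub_add α i hw2]
    congr 2
    simp only [Finsupp.coe_tsub, Pi.sub_apply, Finsupp.single_eq_same]
    have : 1 ≤ α i := Nat.one_le_iff_ne_zero.2 hw2
    push_cast [Nat.cast_sub this]
    ring

/-- commutator with `Y i` -/
theorem JosA_sum_Y (i : Fin n) (j l : ℕ) (c : (ℕ × (Fin n →₀ ℕ) × (Fin n →₀ ℕ)) → K) (m : G) :
    A.Y i (∑ w ∈ wordSet n (j + 1) l, c w • A.ev w m)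
      - ∑ w ∈ wordSet n (j + 1) l, c w • A.ev w (A.Y i m)
    = ∑ w ∈ wordSet n j l, (((w.2.1 i : K) + 1) * c (w.1, w.2.1 + Finsupp.single i 1, w.2.2)) •
        A.ev w m := by
  classical
  rw [map_sum, ← Finset.sum_sub_distrib]
  have h1 : ∀ w ∈ wordSet n (j + 1) l,
      A.Y i (c w • A.ev w m) - c w • A.ev w (A.Y i m)
        = ((w.2.1 i : K) * c w) • A.ev (w.1, w.2.1 - Finsupp.single i 1, w.2.2) m := by
    rintro ⟨a, β, α⟩ _
    have hcT : Commute (A.T ^ a) (A.Y i) := (A.hTY i).pow_left a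
    have hcY : Commute (A.Y i) (A.Yp α) := by
      unfold Yp
      exact Finset.noncommProd_commute _ _ _ _ (fun k _ => (A.hYY i k).pow_right _)
    have h2 : A.Y i * A.ev (a, β, α) - A.ev (a, β, α) * A.Y i
        = (β i : K) • A.ev (a, β - Finsupp.single i 1, α) := by
      unfold ev
      simp only
      have e1 : A.Y i * (A.T ^ a * A.Xp β * A.Yp α) = A.T ^ a * (A.Y i * A.Xp β) * A.Yp α := by
        rw [← mul_assoc, ← mul_assoc, ← hcT.eq]
        simp only [mul_assoc]
      have e2 : A.T ^ a * A.Xp β * A.Yp α * A.Y i = A.T ^ a * (A.Xp β * A.Y i) * A.Yp α := by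
        rw [mul_assoc _ (A.Yp α) (A.Y i), ← hcY.eq]
        simp only [mul_assoc]
      rw [e1, e2, ← sub_mul, ← mul_sub, Y_Xp, mul_smul_comm, smul_mul_assoc]
    have h3 := congrArg (fun F : Module.End K G => F m) h2
    simp only [LinearMap.sub_apply, Module.End.mul_apply, LinearMap.smul_apply] at h3
    rw [map_smul, ← smul_sub, h3, smul_smul]
    congr 1
    ring
  rw [Finset.sum_congr rfl h1]
  rw [← Finset.sum_filter_add_sum_filter_not (wordSet n (j + 1) l) (fun w => w.2.1 i ≠ 0)]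
  have h0 : ∑ w ∈ (wordSet n (j + 1) l).filter (fun w => ¬ w.2.1 i ≠ 0),
      ((w.2.1 i : K) * c w) • A.ev (w.1, w.2.1 - Finsupp.single i 1, w.2.2) m = 0 := by
    apply Finset.sum_eq_zero
    intro w hw
    have := (Finset.mem_filter.1 hw).2
    push Not at this
    rw [this]
    simp
  rw [h0, add_zero]
  refine Finset.sum_nbij' (fun w => (w.1, w.2.1 - Finsupp.single i 1, w.2.2))
    (fun w => (w.1, w.2.1 + Finsupp.single i 1, w.2.2)) ?_ ?_ ?_ ?_ ?_
  · rintro ⟨a, β, α⟩ hw
    obtain ⟨hw1, hw2⟩ := Finset.mem_filter.1 hw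
    rw [JosA_mem_wordSet] at hw1
    simp only at hw2 ⊢
    rw [JosA_mem_wordSet]
    have := JosA_degree_add_single (β - Finsupp.single i 1) i
    rw [JosA_sub_add β i hw2] at this
    exact ⟨hw1.1, by omega⟩
  · rintro ⟨a, β, α⟩ hw
    rw [JosA_mem_wordSet] at hw
    simp only [Finset.mem_filter]
    rw [JosA_mem_wordSet, JosA_degree_add_single]
    refine ⟨⟨hw.1, by omega⟩, ?_⟩
    simp
  · rintro ⟨a, β, α⟩ hw
    obtain ⟨hw1, hw2⟩ := Finset.mem_filter.1 hw
    simp only at hw2 ⊢
    rw [JosA_sub_add β i hw2]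
  · rintro ⟨a, β, α⟩ hw
    simp only
    rw [JosA_add_sub]
  · rintro ⟨a, β, α⟩ hw
    obtain ⟨hw1, hw2⟩ := Finset.mem_filter.1 hw
    simp only at hw2 ⊢
    rw [JosA_sub_add β i hw2]
    congr 2
    simp only [Finsupp.coe_tsub, Pi.sub_apply, Finsupp.single_eq_same]
    have : 1 ≤ β i := Nat.one_le_iff_ne_zero.2 hw2
    push_cast [Nat.cast_sub this]
    ring

/-- the part without `X` and `Y` -/
theorem JosA_const (u : G) (hu : ∀ b : Polynomial K, b ≠ 0 → Polynomial.aeval A.T b u ≠ 0)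
    (j l : ℕ) (c : (ℕ × (Fin n →₀ ℕ) × (Fin n →₀ ℕ)) → K)
    (hz : ∀ a β α, (a, β, α) ∈ wordSet n j l → β ≠ 0 ∨ α ≠ 0 → c (a, β, α) = 0)
    (hc : ∑ w ∈ wordSet n j l, c w • A.ev w u = 0) :
    ∀ w ∈ wordSet n j l, c w = 0 := by
  classical
  have hsub : (Finset.range (l + 1)).image
      (fun a => ((a, 0, 0) : ℕ × (Fin n →₀ ℕ) × (Fin n →₀ ℕ))) ⊆ wordSet n j l := by
    intro w hw
    obtain ⟨a, ha, rfl⟩ := Finset.mem_image.1 hw
    rw [JosA_mem_wordSet]
    rw [Finset.mem_range] at ha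
    exact ⟨by omega, by simp⟩
  have h1 : ∑ a ∈ Finset.range (l + 1), c (a, 0, 0) • (A.T ^ a) u = 0 := by
    rw [← hc, ← Finset.sum_subset hsub, Finset.sum_image]
    · apply Finset.sum_congr rfl
      intro a _
      have e1 : A.Xp 0 = 1 := by
        unfold Xp
        rw [Finset.noncommProd_eq_pow_card _ _ _ 1 (fun x _ => by simp), one_pow]
      have e2 : A.Yp 0 = 1 := by
        unfold Yp
        rw [Finset.noncommProd_eq_pow_card _ _ _ 1 (fun x _ => by simp), one_pow]
      simp [ev, e1, e2]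
    · intro a _ b _ h
      simpa using h
    · rintro ⟨a, β, α⟩ hw hn
      have hw' := JosA_mem_wordSet.1 hw
      rw [hz a β α hw, zero_smul]
      by_contra hcon
      push Not at hcon
      apply hn
      rw [Finset.mem_image]
      refine ⟨a, Finset.mem_range.2 (by omega), ?_⟩
      rw [hcon.1, hcon.2]
  set b : Polynomial K := ∑ a ∈ Finset.range (l + 1), Polynomial.monomial a (c (a, 0, 0)) with hb
  have h2 : Polynomial.aeval A.T b u = 0 := by
    rw [hb, map_sum, LinearMap.sum_apply, ← h1]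
    apply Finset.sum_congr rfl
    intro a _
    rw [Polynomial.aeval_monomial, Module.End.mul_apply, Module.algebraMap_end_apply]
  have h3 : b = 0 := by
    by_contra hne
    exact hu b hne h2
  rintro ⟨a, β, α⟩ hw
  by_cases hβ : β ≠ 0 ∨ α ≠ 0
  · exact hz a β α hw hβ
  · push Not at hβ
    obtain ⟨rfl, rfl⟩ := hβ
    have ha := (JosA_mem_wordSet.1 hw).1
    have h4 : b.coeff a = c (a, 0, 0) := by
      rw [hb, Polynomial.finsetSum_coeff]
      rw [Finset.sum_eq_single a]
      · simp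
      · intro a' _ hne
        rw [Polynomial.coeff_monomial, if_neg hne]
      · intro hn
        exact absurd (Finset.mem_range.2 (by omega)) hn
    rw [← h4, h3]
    simp

/-- An operator `sum c_w ev(w)` over `wordSet n j l` that kills `Γ j` is zero
(if no polynomial in `T` kills `u`, and `u` lies in `Γ 0`). -/
theorem ev_injective (u : G) (hu : ∀ b : Polynomial K, b ≠ 0 → Polynomial.aeval A.T b u ≠ 0)
    (Γ : ℕ → Submodule K G) (hm : Monotone Γ) (h0 : u ∈ Γ 0)
    (hX : ∀ j i, ∀ m ∈ Γ j, A.X i m ∈ Γ (j + 1)) (hY : ∀ j i, ∀ m ∈ Γ j, A.Y i m ∈ Γ (j + 1))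
    (j l : ℕ) (c : (ℕ × (Fin n →₀ ℕ) × (Fin n →₀ ℕ)) → K)
    (hc : ∀ m ∈ Γ j, ∑ w ∈ wordSet n j l, c w • A.ev w m = 0) :
    ∀ w ∈ wordSet n j l, c w = 0 := by
  induction j generalizing c with
  | zero =>
    apply JosA_const A u hu 0 l c _ (hc u h0)
    intro a β α hw h
    exfalso
    have h1 := (JosA_mem_wordSet.1 hw).2
    have h2 : β.degree = 0 := by omega
    have h3 : α.degree = 0 := by omega
    rw [Finsupp.degree_eq_zero_iff] at h2 h3
    rcases h with h | h
    · exact h h2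
    · exact h h3
  | succ j ih =>
    apply JosA_const A u hu (j + 1) l c _ (hc u (hm (Nat.zero_le _) h0))
    intro a β α hw h
    have hw' := JosA_mem_wordSet.1 hw
    rcases h with h | h
    · obtain ⟨i, hi⟩ := Finsupp.ne_iff.1 h
      rw [Finsupp.coe_zero, Pi.zero_apply] at hi
      have h1 := ih (fun w => ((w.2.1 i : K) + 1) * c (w.1, w.2.1 + Finsupp.single i 1, w.2.2))
        (by
          intro m hm'
          rw [← JosA_sum_Y A i j l c m, hc m (hm (Nat.le_succ j) hm'), hc _ (hY j i m hm')]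
          simp)
      have h2 := h1 (a, β - Finsupp.single i 1, α) (by
        rw [JosA_mem_wordSet]
        have := JosA_degree_add_single (β - Finsupp.single i 1) i
        rw [JosA_sub_add β i hi] at this
        exact ⟨hw'.1, by omega⟩)
      simp only at h2
      rw [JosA_sub_add β i hi] at h2
      rcases mul_eq_zero.1 h2 with h3 | h3
      · exfalso
        exact Nat.cast_add_one_ne_zero _ h3
      · exact h3
    · obtain ⟨i, hi⟩ := Finsupp.ne_iff.1 h
      rw [Finsupp.coe_zero, Pi.zero_apply] at hi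
      have h1 := ih (fun w => ((w.2.2 i : K) + 1) * c (w.1, w.2.1, w.2.2 + Finsupp.single i 1))
        (by
          intro m hm'
          rw [← JosA_sum_X A i j l c m, hc m (hm (Nat.le_succ j) hm'), hc _ (hX j i m hm')]
          simp)
      have h2 := h1 (a, β, α - Finsupp.single i 1) (by
        rw [JosA_mem_wordSet]
        have := JosA_degree_add_single (α - Finsupp.single i 1) i
        rw [JosA_sub_add α i hi] at this
        exact ⟨hw'.1, by omega⟩)
      simp only at h2
      rw [JosA_sub_add α i hi] at h2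
      rcases mul_eq_zero.1 h2 with h3 | h3
      · exfalso
        exact Nat.cast_add_one_ne_zero _ h3
      · exact h3

end Weyl

end B5a
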