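import Pool.Agent.H.MP_b5a980_ag.JosA

set_option autoImplicit false
set_option linter.unusedSectionVars false
set_option linter.style.longLine false

/-!
The dimension count (MP_b5a980_ag).
-/

namespace B5a

universe u v w

variable {K : Type u} {G : Type v} [Field K] [CharZero K] [AddCommGroup G] [Module K G]

namespace Weyl

variable {n : ℕ} (A : Weyl n K G)

theorem JosB_mem (n j l : ℕ) (w : ℕ × (Fin n →₀ ℕ) × (Fin n →₀ ℕ)) (hw : w ∈ wordSet n j l) :
    w.1 ≤ l ∧ w.2.1.degree + w.2.2.degree ≤ j := by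
  unfold wordSet at hw
  rw [Finset.mem_filter, Finset.mem_product, Finset.mem_range] at hw
  exact ⟨by omega, hw.2⟩

theorem JosB_pow (Γ : ℕ → Submodule K G) (F : Module.End K G) (d : ℕ)
    (hF : ∀ j, ∀ m ∈ Γ j, F m ∈ Γ (j + d)) (a : ℕ) :
    ∀ j, ∀ m ∈ Γ j, (F ^ a) m ∈ Γ (j + a * d) := by
  intro j m hm
  induction a with
  | zero => simpa using hm
  | succ a ih =>
    rw [pow_succ', Module.End.mul_apply]
    have h := hF _ _ ih
    have e : j + (a + 1) * d = j + a * d + d := by ring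
    rw [e]
    exact h

theorem JosB_prod {n : ℕ} (Γ : ℕ → Submodule K G) (F : Fin n → Module.End K G) (e : Fin n → ℕ)
    (hF : ∀ i j, ∀ m ∈ Γ j, F i m ∈ Γ (j + e i)) (s : Finset (Fin n)) :
    ∀ (comm : (s : Set (Fin n)).Pairwise (Function.onFun Commute F)) (j : ℕ), ∀ m ∈ Γ j,
      s.noncommProd F comm m ∈ Γ (j + ∑ i ∈ s, e i) := by
  induction s using Finset.induction_on with
  | empty =>
    intro comm j m hm
    simpa using hm
  | insert a s ha ih =>
    intro comm j m hm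
    rw [Finset.noncommProd_insert_of_notMem _ _ _ _ ha, Finset.sum_insert ha,
      Module.End.mul_apply]
    have h := hF a _ _ (ih (comm.mono (by simp)) j m hm)
    have e' : j + (e a + ∑ i ∈ s, e i) = j + (∑ i ∈ s, e i) + e a := by ring
    rw [e']
    exact h

theorem JosB_Xp (Γ : ℕ → Submodule K G)
    (hX : ∀ j i, ∀ m ∈ Γ j, A.X i m ∈ Γ (j + 1)) (β : Fin n →₀ ℕ) (j : ℕ) (m : G)
    (hm : m ∈ Γ j) : A.Xp β m ∈ Γ (j + β.degree) := by
  unfold Xp
  have h := JosB_prod Γ (fun i => A.X i ^ β i) (fun i => β i) (fun i j m hm => by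
    have := JosB_pow Γ (A.X i) 1 (fun j m hm => hX j i m hm) (β i) j m hm
    simpa using this) Finset.univ (fun i _ j _ _ => (A.hXX i j).pow_pow _ _) j m hm
  rw [Finsupp.degree_eq_sum]
  exact h

theorem JosB_Yp (Γ : ℕ → Submodule K G)
    (hY : ∀ j i, ∀ m ∈ Γ j, A.Y i m ∈ Γ (j + 1)) (α : Fin n →₀ ℕ) (j : ℕ) (m : G)
    (hm : m ∈ Γ j) : A.Yp α m ∈ Γ (j + α.degree) := by
  unfold Yp
  have h := JosB_prod Γ (fun i => A.Y i ^ α i) (fun i => α i) (fun i j m hm => by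
    have := JosB_pow Γ (A.Y i) 1 (fun j m hm => hY j i m hm) (α i) j m hm
    simpa using this) Finset.univ (fun i _ j _ _ => (A.hYY i j).pow_pow _ _) j m hm
  rw [Finsupp.degree_eq_sum]
  exact h

theorem JosB_ev (Γ : ℕ → Submodule K G) (hm : Monotone Γ)
    (hX : ∀ j i, ∀ m ∈ Γ j, A.X i m ∈ Γ (j + 1)) (hY : ∀ j i, ∀ m ∈ Γ j, A.Y i m ∈ Γ (j + 1))
    (hT : ∀ j, ∀ m ∈ Γ j, A.T m ∈ Γ (j + 2)) (j l : ℕ)
    (w : ℕ × (Fin n →₀ ℕ) × (Fin n →₀ ℕ)) (hw : w ∈ wordSet n j l) (m : G) (h : m ∈ Γ j) :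
    A.ev w m ∈ Γ (2 * j + 2 * l) := by
  obtain ⟨h1, h2⟩ := JosB_mem n j l w hw
  unfold ev
  rw [mul_assoc, Module.End.mul_apply, Module.End.mul_apply]
  have a1 := A.JosB_Yp Γ hY w.2.2 j m h
  have a2 := A.JosB_Xp Γ hX w.2.1 _ _ a1
  have a3 := JosB_pow Γ A.T 2 hT w.1 _ _ a2
  exact hm (by omega) a3

/-- Proof. The linear map from functions on `wordSet n j l` to `Γ j →ₗ[K] Γ (2j+2l)`, `c ↦ (m ↦ Σ c_w ev(w) m)`, is well defined (`ev(a,β,α)` maps `Γ j` to `Γ (j + |α| + |β| + 2a)`, `|α| + |β| ≤ j`, `a ≤ l`, and `Γ` is monotone) and injective by `ev_injective`. Dimensions: `finrank (Γ j →ₗ Γ m) = finrank (Γ j) * finrank (Γ m)`. -/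
theorem card_le (u : G) (hu : ∀ b : Polynomial K, b ≠ 0 → Polynomial.aeval A.T b u ≠ 0)
    (Γ : ℕ → Submodule K G) (hm : Monotone Γ) (h0 : u ∈ Γ 0)
    (hX : ∀ j i, ∀ m ∈ Γ j, A.X i m ∈ Γ (j + 1)) (hY : ∀ j i, ∀ m ∈ Γ j, A.Y i m ∈ Γ (j + 1))
    (hT : ∀ j, ∀ m ∈ Γ j, A.T m ∈ Γ (j + 2)) (hfin : ∀ j, Module.Finite K (Γ j)) (j l : ℕ) :
    (wordSet n j l).card ≤ Module.finrank K (Γ j) * Module.finrank K (Γ (2 * j + 2 * l)) := by
  classical
  have := hfin j
  have := hfin (2 * j + 2 * l)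
  let g : (wordSet n j l) → (Γ j →ₗ[K] Γ (2 * j + 2 * l)) := fun w =>
    (A.ev w.1).restrict (fun m h => A.JosB_ev Γ hm hX hY hT j l w.1 w.2 m h)
  have hli : LinearIndependent K g := by
    rw [Fintype.linearIndependent_iff]
    intro c hc i
    have h := A.ev_injective u hu Γ hm h0 hX hY j l
      (fun w => if hw : w ∈ wordSet n j l then c ⟨w, hw⟩ else 0) (by
        intro m hmj
        have h1 := congrArg (fun φ : (Γ j →ₗ[K] Γ (2 * j + 2 * l)) => ((φ ⟨m, hmj⟩ : Γ (2 * j + 2 * l)) : G)) hc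
        simp only [LinearMap.sum_apply, LinearMap.smul_apply, LinearMap.zero_apply,
          ZeroMemClass.coe_zero, AddSubmonoidClass.coe_finsetSum, Submodule.coe_smul] at h1
        rw [← Finset.sum_coe_sort]
        rw [← h1]
        refine Finset.sum_congr rfl fun w _ => ?_
        simp [g, LinearMap.restrict_apply]) i.1 i.2
    simpa using h
  have hcard := hli.fintype_card_le_finrank
  rw [Fintype.card_coe, Module.finrank_linearMap] at hcard
  exact hcard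

end Weyl

end B5a
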