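import Pool.Agent.H.MP_b5a980_ag.LoA

set_option autoImplicit false
set_option linter.unusedSectionVars false
set_option linter.style.longLine false

/-!
Minimal polynomials over `k[[z]]` (MP_b5a980_ag, A6).
-/

namespace B5a

universe u v w

open MvPowerSeries

variable {n : ℕ} {k : Type u} [Field k]

variable (i0 : Fin (n + 1)) (q : Ideal (RR n k)) [q.IsPrime]

section

variable (hz : X i0 ∉ q) (e : ℕ) (he : mI (n + 1) k e ≤ q ⊔ Ideal.span {X i0})
include hz he

/-- Proof. `A = k[[z]]` is a discrete valuation ring, so integrally closed; `κ = kap q` is an algebra over `A` via `rho q ∘ zemb i0` (injective by `zemb_not_mem`, `rho_eq_zero_iff`). `x = rho q g` is integral over `A` by `exists_monic` (polynomial `P_0`). Let `P = minpoly A x` (monic, `aeval x P = 0`, so `P.eval₂ zemb g ∈ q`), `P ∣ P_0` (`minpoly.isIntegrallyClosed_dvd`); reducing modulo `z` the monic `P` divides a power of `X`, so it is `X^deg` (a monic divisor of a power of the prime `X` in `k[X]`). Derivative: `P` maps to `minpoly L x` over `L = Frac A` (`minpoly.isIntegrallyClosed_eq_field_fractions`),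 irreducible, and in characteristic 0 separable, so `P'(x) ≠ 0`. (Or: `P'` is a nonzero polynomial of smaller degree, and `P'(x) = 0` would imply `P ∣ P'` by `minpoly.isIntegrallyClosed_dvd`, impossible by degrees since `P' ≠ 0` in characteristic 0.) -/
theorem exists_min_poly [CharZero k] (g : RR n k) (hg : g ∈ mI (n + 1) k 1) :
    ∃ P : Polynomial (PowerSeries k), P.Monic ∧ P.eval₂ (zemb i0) g ∈ q ∧
      P.map (PowerSeries.constantCoeff (R := k)) = Polynomial.X ^ P.natDegree ∧
      (Polynomial.derivative P).eval₂ (zemb i0) g ∉ q := by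
  obtain ⟨P0, hm0, h0, hX0⟩ := exists_monic i0 q hz e he g hg
  let _ : Algebra (PowerSeries k) (kap q) := ((rho q).comp (zemb i0)).toAlgebra
  have halg : algebraMap (PowerSeries k) (kap q) = (rho q).comp (zemb i0) := rfl
  have hinj : Function.Injective (algebraMap (PowerSeries k) (kap q)) := by
    rw [injective_iff_map_eq_zero]
    intro a ha
    by_contra hne
    have h1 : rho q (zemb i0 a) = 0 := ha
    exact zemb_not_mem inferInstance hz hne ((rho_eq_zero_iff q _).1 h1)
  have : FaithfulSMul (PowerSeries k) (kap q) := (faithfulSMul_iff_algebraMap_injective _ _).2 hinj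
  have : Module.IsTorsionFree (PowerSeries k) (kap q) := inferInstance
  have : CharZero (PowerSeries k) :=
    charZero_of_injective_ringHom (f := (PowerSeries.C : k →+* PowerSeries k)) PowerSeries.C_injective
  have key : ∀ p : Polynomial (PowerSeries k), Polynomial.aeval (rho q g) p =
      rho q (p.eval₂ (zemb i0) g) := by
    intro p
    rw [Polynomial.aeval_def, halg, Polynomial.hom_eval₂]
  have hint : IsIntegral (PowerSeries k) (rho q g) := by
    refine ⟨P0, hm0, ?_⟩
    rw [← Polynomial.aeval_def, key, rho_eq_zero_iff]
    exact h0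
  have hdvd : ∀ p : Polynomial (PowerSeries k), p.eval₂ (zemb i0) g ∈ q →
      minpoly (PowerSeries k) (rho q g) ∣ p := by
    intro p hp
    refine minpoly.isIntegrallyClosed_dvd hint ?_
    rw [key, rho_eq_zero_iff]
    exact hp
  have hmon := minpoly.monic hint
  have hpos := minpoly.natDegree_pos hint
  refine ⟨minpoly (PowerSeries k) (rho q g), hmon, ?_, ?_, ?_⟩
  · rw [← rho_eq_zero_iff q, ← key]
    exact minpoly.aeval _ _
  · have h1 := Polynomial.map_dvd (PowerSeries.constantCoeff (R := k)) (hdvd P0 h0)
    rw [hX0] at h1
    obtain ⟨m, -, hm⟩ := (dvd_prime_pow Polynomial.prime_X _).1 h1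
    have hm' := Polynomial.eq_of_monic_of_associated
      (hmon.map (PowerSeries.constantCoeff (R := k))) (Polynomial.monic_X_pow m) hm
    have hdeg := hmon.natDegree_map (PowerSeries.constantCoeff (R := k))
    rw [hm', Polynomial.natDegree_X_pow] at hdeg
    rw [hm', hdeg]
  · intro hmem
    have h1 := hdvd _ hmem
    have hne : Polynomial.derivative (minpoly (PowerSeries k) (rho q g)) ≠ 0 := by
      intro h
      have := Polynomial.natDegree_eq_zero_of_derivative_eq_zero h
      omega
    have h2 := Polynomial.natDegree_le_of_dvd h1 hne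
    have h3 := Polynomial.natDegree_derivative_lt hpos.ne'
    omega

end

end B5a
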