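import Pool.Agent.H.MP_b5a980_ag.LoB

set_option autoImplicit false
set_option linter.unusedSectionVars false
set_option linter.style.longLine false

/-!
Local parameters at a curve prime (MP_b5a980_ag, A6).
-/

namespace B5a

universe u v w

open MvPowerSeries

variable {n : ℕ} {k : Type u} [Field k]

variable (i0 : Fin (n + 1)) (q : Ideal (RR n k)) [q.IsPrime]

/-- A polynomial over `k[[z]]` which is a power of `T` modulo `z` gives a power modulo `J`. -/
theorem LoC_pow_mem (J : Ideal (RR n k)) (hJ : X i0 ∈ J) (P : Polynomial (PowerSeries k))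
    (hP : P.map (PowerSeries.constantCoeff (R := k)) = Polynomial.X ^ P.natDegree)
    (x : RR n k) (hx : P.eval₂ (zemb i0) x ∈ J) : x ^ P.natDegree ∈ J := by
  have hφ : (Ideal.Quotient.mk J).comp (zemb i0) =
      (((Ideal.Quotient.mk J).comp (zemb i0)).comp (PowerSeries.C (R := k))).comp
        (PowerSeries.constantCoeff (R := k)) := by
    ext c
    simp only [RingHom.comp_apply]
    rw [Ideal.Quotient.eq, ← map_sub]
    have h1 : PowerSeries.constantCoeff (c - PowerSeries.C (PowerSeries.constantCoeff c)) = 0 := by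
      simp
    obtain ⟨c', hc'⟩ := PowerSeries.X_dvd_iff.2 h1
    rw [hc', map_mul, zemb_X]
    exact J.mul_mem_right _ hJ
  have h1 : Ideal.Quotient.mk J (P.eval₂ (zemb i0) x) = Ideal.Quotient.mk J (x ^ P.natDegree) := by
    rw [Polynomial.hom_eval₂, hφ, ← Polynomial.eval₂_map, hP, Polynomial.eval₂_X_pow, map_pow]
  rw [← Ideal.Quotient.eq_zero_iff_mem, ← h1, Ideal.Quotient.eq_zero_iff_mem]
  exact hx

/-- If each variable has a power in `J`, then `J` contains a power of the maximal ideal. -/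
theorem LoC_mI_le {m : ℕ} (J : Ideal (MvPowerSeries (Fin m) k))
    (h : ∀ i : Fin m, ∃ d : ℕ, (X i : MvPowerSeries (Fin m) k) ^ d ∈ J) (hm : 0 < m) :
    ∃ e : ℕ, mI m k e ≤ J := by
  choose d hd using h
  set D : ℕ := ∑ i, d i with hD
  have hD2 : ∀ i : Fin m, (X i : MvPowerSeries (Fin m) k) ^ D ∈ J := fun i => by
    have h1 : d i ≤ D := Finset.single_le_sum (f := d) (fun _ _ => Nat.zero_le _) (Finset.mem_univ i)
    obtain ⟨t, ht⟩ := Nat.exists_eq_add_of_le h1
    rw [ht, pow_add]
    exact J.mul_mem_right _ (hd i)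
  refine ⟨m * D, fun g hg => ?_⟩
  obtain ⟨c, -, hc⟩ := exists_sum_mI (a := m * D) (e := 0) hg
  rw [hc]
  refine J.sum_mem fun β hβ => J.mul_mem_right _ ?_
  have hdeg : β.degree = m * D := MIB_mem_antidiag.1 hβ
  have hex : ∃ i, D ≤ β i := by
    by_contra hcon
    push Not at hcon
    have h1 : β.degree = ∑ i, β i := Finsupp.degree_eq_sum β
    have h2 : ∑ i : Fin m, β i < ∑ _i : Fin m, D := by
      apply Finset.sum_lt_sum_of_nonempty
      · exact ⟨⟨0, hm⟩, Finset.mem_univ _⟩
      · intro i _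
        exact hcon i
    rw [Finset.sum_const, Finset.card_univ, Fintype.card_fin, smul_eq_mul, ← h1, hdeg] at h2
    exact lt_irrefl _ h2
  obtain ⟨i, hi⟩ := hex
  have h1 : Finsupp.single i D ≤ β := by
    rw [Finsupp.single_le_iff]
    exact hi
  have h2 : (monomial β (1 : k) : MvPowerSeries (Fin m) k) =
      X i ^ D * monomial (β - Finsupp.single i D) 1 := by
    rw [X_pow_eq, monomial_mul_monomial, add_tsub_cancel_of_le h1, one_mul]
  rw [h2]
  exact J.mul_mem_right _ (hD2 i)

section

variable (hz : X i0 ∉ q) (e : ℕ) (he : mI (n + 1) k e ≤ q ⊔ Ideal.span {X i0})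
include hz he

/-- Proof. `P j` from `exists_min_poly` for `g = X_(i0.succAbove j)`. The ideal `J = (param j)_j + (X_{i0})` contains `X_{i0}` and, as `P_j ≡ T^(d_j)` modulo `z`, `X_(σ j)^(d_j)` (the coefficients of `P_j - T^(d_j)` have constant coefficient zero, so they are multiples of `z`, `zemb` of them lies in `(X_{i0})`). Every variable has a power in `J`, say `X_i^(d) ∈ J` for all `i`; then a monomial of degree `≥ (n+1) d` lies in `J` (some exponent is `≥ d`), and `mI ((n+1) d)` is generated by such monomials (`exists_sum_mI`). -/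
theorem exists_params [CharZero k] : ∃ P : Fin n → Polynomial (PowerSeries k),
    (∀ j, param i0 P j ∈ q) ∧
    (∀ j, (Polynomial.derivative (P j)).eval₂ (zemb i0) (X (i0.succAbove j)) ∉ q) ∧
    ∃ e' : ℕ, mI (n + 1) k e' ≤ Ideal.span (Set.range (param i0 P)) ⊔ Ideal.span {X i0} := by
  have h := fun j : Fin n => exists_min_poly i0 q hz e he (X (i0.succAbove j)) (X_mem_mI _)
  choose P _hP1 hP2 hP3 hP4 using h
  refine ⟨P, hP2, hP4, ?_⟩
  have hX : (X i0 : RR n k) ∈ Ideal.span (Set.range (param i0 P)) ⊔ Ideal.span {X i0} :=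
    Ideal.mem_sup_right (Ideal.subset_span rfl)
  refine LoC_mI_le _ (fun i => ?_) (Nat.succ_pos n)
  rcases Fin.eq_self_or_eq_succAbove i0 i with hi | ⟨j, hj⟩
  · exact ⟨1, by rw [pow_one, hi]; exact hX⟩
  · refine ⟨(P j).natDegree, ?_⟩
    rw [hj]
    exact LoC_pow_mem i0 _ hX (P j) (hP3 j) _
      (Ideal.mem_sup_left (Ideal.subset_span ⟨j, rfl⟩))

end

end B5a
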