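import Pool.Agent.H.MP_b5a980_ag.Etale
import Pool.Agent.H.MP_b5a980_ag.LoA

set_option autoImplicit false
set_option linter.unusedSectionVars false
set_option linter.style.longLine false

/-!
The parameters generate `q` locally (MP_b5a980_ag, A6).
-/

namespace B5a

universe u v w

open MvPowerSeries

variable {n : ℕ} {k : Type u} [Field k]

variable (i0 : Fin (n + 1)) (q : Ideal (RR n k)) [q.IsPrime]

section

variable (hz : X i0 ∉ q) (e : ℕ) (he : mI (n + 1) k e ≤ q ⊔ Ideal.span {X i0})
include hz he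

omit he in
omit hz in
/-- The polynomials over `k[[z]]` as power series. -/
theorem LoD_monomial (β : Fin (n + 1) →₀ ℕ) :
    ∃ G : MvPolynomial (Fin n) (PowerSeries k),
      MvPolynomial.eval₂Hom (zemb i0) (fun j => (X (i0.succAbove j) : RR n k)) G =
        monomial β 1 := by
  refine ⟨MvPolynomial.C (PowerSeries.X ^ β i0) *
    ∏ j, MvPolynomial.X j ^ β (i0.succAbove j), ?_⟩
  rw [map_mul, map_prod, MvPolynomial.eval₂Hom_C, map_pow, zemb_X, monomial_one_eq,
    Finsupp.prod_fintype _ _ (fun i => pow_zero _), Fin.prod_univ_succAbove _ i0]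
  congr 1
  refine Finset.prod_congr rfl fun j _ => ?_
  rw [map_pow, MvPolynomial.eval₂Hom_X']

omit he in
/-- the parameters generate `q` locally

Proof. By `exists_span` for `J = (param j)_j`, `e'`: `g ≡ Σ_{|β|<e'} zemb(c_β) x^β` modulo `J`. The right side is the image of `G ∈ MvPolynomial (Fin n) k[[z]]` (the exponent of `X_{i0}` goes to the coefficient as a power of `z = PowerSeries.X`) under `ψ = MvPolynomial.eval₂Hom zemb (j ↦ X_(σ j))`; `ψ G ∈ q` since `g ∈ q` and `J ≤ q` (`h0`). Apply `etale_lemma` with `A = k[[z]]`, `κ = kap q`, `φ = rho q ∘ zemb i0` (injective: `zemb_not_mem`), `ρ_j = rho q (X_(σ j))`: `H` with `rho q (ψ H) ≠ 0`, i.e. `h = ψ H ∉ q`, and `h ψ(G) ∈ J`. So `h g ∈ J`. -/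
theorem exists_mul_mem_span (P : Fin n → Polynomial (PowerSeries k))
    (h0 : ∀ j, param i0 P j ∈ q)
    (h1 : ∀ j, (Polynomial.derivative (P j)).eval₂ (zemb i0) (X (i0.succAbove j)) ∉ q)
    (e' : ℕ) (he' : mI (n + 1) k e' ≤ Ideal.span (Set.range (param i0 P)) ⊔ Ideal.span {X i0})
    (g : RR n k) (hg : g ∈ q) : ∃ h, h ∉ q ∧ h * g ∈ Ideal.span (Set.range (param i0 P)) := by
  classical
  set J := Ideal.span (Set.range (param i0 P)) with hJ
  have hJq : J ≤ q := by
    rw [hJ, Ideal.span_le]
    rintro _ ⟨j, rfl⟩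
    exact h0 j
  obtain ⟨c, hc⟩ := exists_span he' g
  set ψ : MvPolynomial (Fin n) (PowerSeries k) →+* RR n k :=
    MvPolynomial.eval₂Hom (zemb i0) (fun j => (X (i0.succAbove j) : RR n k)) with hψ
  have hψC : ∀ a, ψ (MvPolynomial.C a) = zemb i0 a := fun a => MvPolynomial.eval₂Hom_C _ _ _
  have hψX : ∀ j, ψ (MvPolynomial.X j) = X (i0.succAbove j) := fun j =>
    MvPolynomial.eval₂Hom_X' _ _ _
  choose M hM using LoD_monomial (k := k) i0
  set G : MvPolynomial (Fin n) (PowerSeries k) :=
    ∑ β ∈ (Finset.range e').biUnion fun d => Finset.finsuppAntidiag Finset.univ d,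
      MvPolynomial.C (c β) * M β with hG
  have hψG : g - ψ G ∈ J := by
    have h2 : ψ G = ∑ β ∈ (Finset.range e').biUnion fun d => Finset.finsuppAntidiag Finset.univ d,
        zemb i0 (c β) * monomial β 1 := by
      rw [hG, map_sum]
      refine Finset.sum_congr rfl fun β _ => ?_
      rw [map_mul, hψC, hM]
    rw [h2]
    exact hc
  have hGq : ψ G ∈ q := by
    have h3 := q.sub_mem hg (hJq hψG)
    rwa [sub_sub_cancel] at h3
  have hev : ∀ F : MvPolynomial (Fin n) (PowerSeries k),
      MvPolynomial.eval₂ ((rho q).comp (zemb i0)) (fun j => rho q (X (i0.succAbove j))) F =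
        rho q (ψ F) := by
    intro F
    exact (MvPolynomial.eval₂_comp_left (rho q) (zemb i0)
      (fun j => (X (i0.succAbove j) : RR n k)) F).symm
  have hinj : Function.Injective ((rho q).comp (zemb (k := k) i0)) := by
    rw [injective_iff_map_eq_zero]
    intro a ha
    by_contra hne
    rw [RingHom.comp_apply, rho_eq_zero_iff] at ha
    exact zemb_not_mem inferInstance hz hne ha
  obtain ⟨H, hH, hHG⟩ := etale_lemma ((rho q).comp (zemb i0)) hinj
    (fun j => rho q (X (i0.succAbove j))) P
    (fun j => by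
      have h4 := (rho_eq_zero_iff q _).2 (h0 j)
      rw [param, Polynomial.hom_eval₂] at h4
      exact h4)
    (fun j hj => by
      apply h1 j
      rw [← rho_eq_zero_iff, Polynomial.hom_eval₂]
      exact hj)
    G (by rw [hev, rho_eq_zero_iff]; exact hGq)
  rw [hev, Ne, rho_eq_zero_iff] at hH
  refine ⟨ψ H, hH, ?_⟩
  have h5 : ψ (H * G) ∈ J := by
    have h6 : Ideal.span (Set.range fun j =>
        Polynomial.eval₂ MvPolynomial.C (MvPolynomial.X j : MvPolynomial (Fin n) (PowerSeries k))
          (P j)) ≤ J.comap ψ := by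
      rw [Ideal.span_le]
      rintro _ ⟨j, rfl⟩
      change ψ (Polynomial.eval₂ MvPolynomial.C
        (MvPolynomial.X j : MvPolynomial (Fin n) (PowerSeries k)) (P j)) ∈ J
      have h7 : ψ (Polynomial.eval₂ MvPolynomial.C
          (MvPolynomial.X j : MvPolynomial (Fin n) (PowerSeries k)) (P j)) = param i0 P j := by
        rw [Polynomial.hom_eval₂, hψX, param]
        congr 1
        ext1 a
        exact hψC a
      rw [h7, hJ]
      exact Ideal.subset_span ⟨j, rfl⟩
    exact h6 hHG
  have h8 : ψ H * g = ψ H * (g - ψ G) + ψ (H * G) := by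
    rw [map_mul]; ring
  rw [h8]
  exact J.add_mem (J.mul_mem_left _ hψG) h5

end

end B5a
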