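import Pool.Agent.H.MP_b5a980_ag.MIB

set_option autoImplicit false
set_option linter.unusedSectionVars false
set_option linter.style.longLine false

/-!
Regular parameters (MP_b5a980_ag, A6).
-/

namespace B5a

universe u v w

open MvPowerSeries

variable {n : ℕ} {κ : Type v} [Field κ] {B : Type u} [CommRing B]

/-- `u` and `v` are in `m^e` and have the same leading form of degree `e`. -/
def SeA_E (e : ℕ) (u v : MvPowerSeries (Fin n) κ) : Prop :=
  u ∈ mI n κ e ∧ v ∈ mI n κ e ∧ u - v ∈ mI n κ (e + 1)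

theorem SeA_E_mul {a b : ℕ} {u u' v v' : MvPowerSeries (Fin n) κ} (h : SeA_E a u u')
    (h' : SeA_E b v v') : SeA_E (a + b) (u * v) (u' * v') := by
  refine ⟨mul_mem_mI h.1 h'.1, mul_mem_mI h.2.1 h'.2.1, ?_⟩
  have e : u * v - u' * v' = (u - u') * v + u' * (v - v') := by ring
  rw [e]
  refine (mI n κ _).add_mem ?_ ?_
  · have h3 := mul_mem_mI h.2.2 h'.1
    rwa [show a + 1 + b = a + b + 1 by omega] at h3
  · have h4 := mul_mem_mI h.2.1 h'.2.2
    rwa [← add_assoc] at h4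

theorem SeA_E_one : SeA_E 0 (1 : MvPowerSeries (Fin n) κ) 1 := by
  refine ⟨?_, ?_, ?_⟩
  · rw [mI_zero]; trivial
  · rw [mI_zero]; trivial
  · rw [sub_self]
    exact (mI n κ _).zero_mem

theorem SeA_E_pow {u v : MvPowerSeries (Fin n) κ} (h : SeA_E 1 u v) (k : ℕ) :
    SeA_E k (u ^ k) (v ^ k) := by
  induction k with
  | zero =>
    rw [pow_zero, pow_zero]
    exact SeA_E_one
  | succ k ih =>
    rw [pow_succ, pow_succ]
    exact SeA_E_mul ih h

theorem SeA_E_prod {u v : Fin n → MvPowerSeries (Fin n) κ} (h : ∀ j, SeA_E 1 (u j) (v j))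
    (α : Fin n →₀ ℕ) (s : Finset (Fin n)) :
    SeA_E (∑ j ∈ s, α j) (∏ j ∈ s, u j ^ α j) (∏ j ∈ s, v j ^ α j) := by
  classical
  induction s using Finset.induction_on with
  | empty =>
    rw [Finset.sum_empty, Finset.prod_empty, Finset.prod_empty]
    exact SeA_E_one
  | insert j s hj ih =>
    rw [Finset.sum_insert hj, Finset.prod_insert hj, Finset.prod_insert hj]
    exact SeA_E_mul (SeA_E_pow (h j) _) ih

theorem SeA_E_pi (Φ : B →+* MvPowerSeries (Fin n) κ) (pi : Fin n → B) (c : Fin n → κ)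
    (hpi : ∀ j, Φ (pi j) - C (c j) * X j ∈ mI n κ 2) (j : Fin n) :
    SeA_E 1 (Φ (pi j)) (C (c j) * X j) := by
  have h2 : (C (c j) * X j : MvPowerSeries (Fin n) κ) ∈ mI n κ 1 :=
    Ideal.mul_mem_left _ _ (X_mem_mI j)
  have h1 : Φ (pi j) ∈ mI n κ 1 := by
    have h3 := (mI n κ 1).add_mem (mI_anti one_le_two (hpi j)) h2
    rwa [sub_add_cancel] at h3
  exact ⟨h1, h2, hpi j⟩

theorem SeA_prod_C (c : Fin n → κ) (α : Fin n →₀ ℕ) :
    ∏ j, (C (c j) * X j : MvPowerSeries (Fin n) κ) ^ α j =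
      monomial α (∏ j, c j ^ α j) := by
  have h : ∀ j, (C (c j) * X j : MvPowerSeries (Fin n) κ) ^ α j =
      monomial (Finsupp.single j (α j)) (c j ^ α j) := by
    intro j
    rw [mul_pow, ← map_pow, X_pow_eq, ← monomial_zero_eq_C_apply, monomial_mul_monomial,
      zero_add, mul_one]
  rw [Finset.prod_congr rfl fun j _ => h j, prod_monomial, Finsupp.univ_sum_single α]

theorem SeA_E_mono (Φ : B →+* MvPowerSeries (Fin n) κ) (pi : Fin n → B) (c : Fin n → κ)
    (hpi : ∀ j, Φ (pi j) - C (c j) * X j ∈ mI n κ 2) (α : Fin n →₀ ℕ) (b : B) :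
    SeA_E α.degree (Φ (b * ∏ j, pi j ^ α j))
      (monomial α (constantCoeff (Φ b) * ∏ j, c j ^ α j)) := by
  have h0 : SeA_E 0 (Φ b) (C (constantCoeff (Φ b))) := by
    refine ⟨?_, ?_, ?_⟩
    · rw [mI_zero]; trivial
    · rw [mI_zero]; trivial
    · rw [zero_add, mem_mI_one, map_sub, constantCoeff_C, sub_self]
  have h1 := SeA_E_mul h0 (SeA_E_prod (SeA_E_pi Φ pi c hpi) α Finset.univ)
  rw [SeA_prod_C, ← monomial_zero_eq_C_apply, monomial_mul_monomial, zero_add, zero_add,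
    ← Finsupp.degree_eq_sum] at h1
  rw [map_mul, map_prod]
  simp only [map_pow]
  exact h1

theorem SeA_sum (Φ : B →+* MvPowerSeries (Fin n) κ) (pi : Fin n → B) (c : Fin n → κ)
    (hpi : ∀ j, Φ (pi j) - C (c j) * X j ∈ mI n κ 2) (N : ℕ) (b : (Fin n →₀ ℕ) → B) :
    Φ (∑ α ∈ Finset.finsuppAntidiag Finset.univ N, b α * ∏ j, pi j ^ α j) -
      ∑ α ∈ Finset.finsuppAntidiag Finset.univ N,
        monomial α (constantCoeff (Φ (b α)) * ∏ j, c j ^ α j) ∈ mI n κ (N + 1) := by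
  rw [map_sum, ← Finset.sum_sub_distrib]
  refine Ideal.sum_mem _ fun α hα => ?_
  rw [MIB_mem_antidiag] at hα
  rw [← hα]
  exact (SeA_E_mono Φ pi c hpi α (b α)).2.2

theorem SeA_mono_mul (pi : Fin n → B) (α : Fin n →₀ ℕ) (j : Fin n) :
    (∏ i, pi i ^ α i) * pi j = ∏ i, pi i ^ ((α + Finsupp.single j 1 : Fin n →₀ ℕ) i) := by
  classical
  have h : ∀ i, pi i ^ ((α + Finsupp.single j 1 : Fin n →₀ ℕ) i) =
      pi i ^ α i * (if j = i then pi i else 1) := by
    intro i
    rw [Finsupp.add_apply, pow_add, Finsupp.single_apply]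
    split_ifs
    · rw [pow_one]
    · rw [pow_zero]
  rw [Finset.prod_congr rfl fun i _ => h i, Finset.prod_mul_distrib, Finset.prod_ite_eq,
    if_pos (Finset.mem_univ j)]

theorem SeA_span (pi : Fin n → B) (N : ℕ) :
    Ideal.span (Set.range pi) ^ N ≤ Ideal.span ((fun α : Fin n →₀ ℕ => ∏ j, pi j ^ α j) ''
      ((Finset.finsuppAntidiag Finset.univ N : Finset (Fin n →₀ ℕ)) : Set (Fin n →₀ ℕ))) := by
  induction N with
  | zero =>
    have h : (1 : B) ∈ Ideal.span ((fun α : Fin n →₀ ℕ => ∏ j, pi j ^ α j) ''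
      ((Finset.finsuppAntidiag Finset.univ 0 : Finset (Fin n →₀ ℕ)) : Set (Fin n →₀ ℕ))) := by
      refine Ideal.subset_span ⟨0, ?_, ?_⟩
      · rw [Finset.mem_coe, MIB_mem_antidiag, map_zero]
      · simp
    rw [(Ideal.eq_top_iff_one _).2 h]
    exact le_top
  | succ N ih =>
    rw [pow_succ]
    refine (Ideal.mul_mono_left ih).trans ?_
    rw [Ideal.span_mul_span', Ideal.span_le]
    rintro _ ⟨_, ⟨α, hα, rfl⟩, _, ⟨j, rfl⟩, rfl⟩
    rw [Finset.mem_coe, MIB_mem_antidiag] at hα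
    refine Ideal.subset_span ⟨α + Finsupp.single j 1, ?_, ?_⟩
    · rw [Finset.mem_coe, MIB_mem_antidiag, map_add, hα, Finsupp.degree_single]
    · exact (SeA_mono_mul pi α j).symm

theorem SeA_prod_mem (pi : Fin n → B) (α : Fin n →₀ ℕ) (s : Finset (Fin n)) :
    ∏ j ∈ s, pi j ^ α j ∈ Ideal.span (Set.range pi) ^ (∑ j ∈ s, α j) := by
  classical
  induction s using Finset.induction_on with
  | empty => simp
  | insert j s hj ih =>
    rw [Finset.prod_insert hj, Finset.sum_insert hj, pow_add]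
    have hj' : pi j ∈ Ideal.span (Set.range pi) := Ideal.subset_span (Set.mem_range_self j)
    exact Ideal.mul_mem_mul (Ideal.pow_mem_pow hj' _) ih

/-- Approximate surjectivity.

Proof. Induction on `N`; `N = 0` trivial. Step: `a - Φ x ∈ m^N`; write it modulo `m^(N+1)` as `Σ_{|α|=N} a_α y^α` (`sub_homog_mem_mI`). Choose `x_α` with `constantCoeff (Φ x_α) = a_α / Π c_j^(α_j)` and `x' = x + Σ_{|α|=N} x_α Π pi_j^(α_j)`: `Φ (Π pi_j^(α_j)) ≡ Π c_j^(α_j) y^α` modulo `m^(N+1)` (product of `Φ(pi_j) ≡ c_j y_j` modulo `m^2`, all in `m`), and `Φ(x_α) ≡ ` its constant coefficient modulo `m`. -/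
theorem series_surj (Φ : B →+* MvPowerSeries (Fin n) κ) (pi : Fin n → B) (c : Fin n → κ)
    (hs : ∀ a : κ, ∃ x, constantCoeff (Φ x) = a) (hc : ∀ j, c j ≠ 0)
    (hpi : ∀ j, Φ (pi j) - C (c j) * X j ∈ mI n κ 2) (N : ℕ) (a : MvPowerSeries (Fin n) κ) :
    ∃ x, a - Φ x ∈ mI n κ N := by
  induction N with
  | zero => exact ⟨0, by rw [mI_zero]; trivial⟩
  | succ N ih =>
    obtain ⟨x, hx⟩ := ih
    have hp : ∀ α : Fin n →₀ ℕ, (∏ j, c j ^ α j) ≠ 0 := fun α =>
      Finset.prod_ne_zero_iff.2 fun j _ => pow_ne_zero _ (hc j)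
    choose s hs' using hs
    let b : (Fin n →₀ ℕ) → B := fun α => s (coeff α (a - Φ x) / ∏ j, c j ^ α j)
    have hb : ∀ α, constantCoeff (Φ (b α)) * ∏ j, c j ^ α j = coeff α (a - Φ x) := by
      intro α
      rw [hs', div_mul_cancel₀ _ (hp α)]
    have h1 := SeA_sum Φ pi c hpi N b
    simp only [hb] at h1
    have h2 := sub_homog_mem_mI hx
    refine ⟨x + ∑ α ∈ Finset.finsuppAntidiag Finset.univ N, b α * ∏ j, pi j ^ α j, ?_⟩
    have h3 := (mI n κ (N + 1)).sub_mem h2 h1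
    have e : a - Φ (x + ∑ α ∈ Finset.finsuppAntidiag Finset.univ N, b α * ∏ j, pi j ^ α j) =
        (a - Φ x - homog N (a - Φ x)) -
        (Φ (∑ α ∈ Finset.finsuppAntidiag Finset.univ N, b α * ∏ j, pi j ^ α j) -
          ∑ α ∈ Finset.finsuppAntidiag Finset.univ N, monomial α (coeff α (a - Φ x))) := by
      rw [map_add, homog]
      ring
    rw [e]
    exact h3

/-- The kernel modulo `(y)^N` is contained in the power of the ideal generated by the parameters.

Proof. Induction on `N`. `N = 0` trivial, `N = 1` is `h1` (`mem_mI_one`). Step `N → N+1`, `N ≥ 1`: `Φ x ∈ m^(N+1) ⊆ m^N` so `x ∈ (pi)^N`, hence `x = Σ_{|α|=N} b_α Π pi_j^(α_j)` (the power of a finitely generated ideal is generated by the monomials; `Ideal.span_pow_eq..`, or induct: `Ideal.mem_span_pow..`; alternatively prove: every element of `span(range pi)^N` has this form by induction on `N` with `Submodule.mul_induction_on` and `Ideal.mem_span_range_iff_exists_fun`). Then `Φ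 x ≡ Σ_α (constantCoeff (Φ b_α)) Π c_j^(α_j) y^α` modulo `m^(N+1)` (as in `series_surj`), so all `constantCoeff (Φ b_α) = 0`, `b_α ∈ (pi)` by `h1`, and `x ∈ (pi)^(N+1)`. -/
theorem series_ker (Φ : B →+* MvPowerSeries (Fin n) κ) (pi : Fin n → B) (c : Fin n → κ)
    (hc : ∀ j, c j ≠ 0) (hpi : ∀ j, Φ (pi j) - C (c j) * X j ∈ mI n κ 2)
    (h1 : ∀ x, constantCoeff (Φ x) = 0 → x ∈ Ideal.span (Set.range pi)) (N : ℕ) (x : B)
    (hx : Φ x ∈ mI n κ N) : x ∈ Ideal.span (Set.range pi) ^ N := by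
  induction N with
  | zero =>
    rw [pow_zero, Ideal.one_eq_top]
    trivial
  | succ N ih =>
    have h2 := SeA_span pi N (ih (mI_anti (Nat.le_succ N) hx))
    obtain ⟨b, hb⟩ := (Submodule.mem_span_image_finset_iff_exists_fun' (R := B)).1 h2
    simp only [smul_eq_mul] at hb
    have h3 := SeA_sum Φ pi c hpi N b
    rw [hb] at h3
    have h4 := (mI n κ (N + 1)).sub_mem hx h3
    rw [sub_sub_cancel] at h4
    have hp : ∀ α : Fin n →₀ ℕ, (∏ j, c j ^ α j) ≠ 0 := fun α =>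
      Finset.prod_ne_zero_iff.2 fun j _ => pow_ne_zero _ (hc j)
    have h5 : ∀ α ∈ Finset.finsuppAntidiag (Finset.univ : Finset (Fin n)) N,
        constantCoeff (Φ (b α)) = 0 := by
      classical
      intro α hα
      have hα' := MIB_mem_antidiag.1 hα
      have h6 := h4 α (by omega)
      rw [map_sum, Finset.sum_eq_single α] at h6
      · rw [coeff_monomial_same] at h6
        exact (mul_eq_zero.1 h6).resolve_right (hp α)
      · intro β _ hβ
        rw [coeff_monomial, if_neg (Ne.symm hβ)]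
      · intro h7
        exact absurd hα h7
    rw [← hb]
    refine Ideal.sum_mem _ fun α hα => ?_
    rw [pow_succ']
    refine Ideal.mul_mem_mul (h1 _ (h5 α hα)) ?_
    have h8 := SeA_prod_mem pi α Finset.univ
    rw [← Finsupp.degree_eq_sum, MIB_mem_antidiag.1 hα] at h8
    exact h8

end B5a
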