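import Pool.Agent.H.MP_b5a980_ag.LoC
import Pool.Agent.H.MP_b5a980_ag.LoD
import Pool.Agent.H.MP_b5a980_ag.SeA
import Pool.Agent.H.MP_b5a980_ag.TaB

set_option autoImplicit false
set_option linter.unusedSectionVars false
set_option linter.style.longLine false

/-!
The local ring at a curve prime and `κ[[y]]` (MP_b5a980_ag, A6).
-/

namespace B5a

universe u v w

open MvPowerSeries

variable {n : ℕ} {k : Type u} [Field k]

variable (i0 : Fin (n + 1)) (q : Ideal (RR n k)) [q.IsPrime]

/-- The map on the localisation. -/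
theorem LoE_lift [CharZero k] : ∃ Φ : Localization.AtPrime q →+* MvPowerSeries (Fin n) (kap q),
    (∀ g : RR n k, Φ (algebraMap (RR n k) (Localization.AtPrime q) g) = Phi i0 (rho q) g) := by
  have hu : ∀ h : q.primeCompl, IsUnit (Phi i0 (rho q) (h : RR n k)) := by
    intro h
    rw [MvPowerSeries.isUnit_iff_constantCoeff, constantCoeff_Phi]
    have h1 : (h : RR n k) ∉ q := h.2
    rw [isUnit_iff_ne_zero]
    intro h2
    exact h1 ((rho_eq_zero_iff q _).1 h2)
  refine ⟨IsLocalization.lift hu, fun g => ?_⟩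
  exact IsLocalization.lift_eq hu g

section

variable (hz : X i0 ∉ q) (e : ℕ) (he : mI (n + 1) k e ≤ q ⊔ Ideal.span {X i0})
include hz he

/-- The local statement.

Proof. `Φ = IsLocalization.lift`: for `h ∉ q`, `Phi i0 (rho q) h` is a unit of `κ[[y]]` since its constant coefficient `rho q h` is nonzero. `exists_params`: `P`. Use `series_surj` and `series_ker` for `Φ` and `pi j` = the image of `param i0 P j`: `hs`: `rho_frac`; `c j = (rho q) (P_j'(x_j)) ≠ 0`; `hpi`: `Phi_eval` and `rho q (param j) = 0`; `h1`: if `constantCoeff (Φ x) = 0`, `x = g/h`, then `rho q g = 0`, `g ∈ q`, and `exists_mul_mem_span` gives `x ∈ span (range pi)`. Finally `span (range pi) ≤ maximalIdeal` (`param j ∈ q`), so the powers are contained (`Ideal.pow_right_mono`). -/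
theorem exists_phiq [CharZero k] : ∃ Φ : Localization.AtPrime q →+* MvPowerSeries (Fin n) (kap q),
    (∀ g : RR n k, Φ (algebraMap (RR n k) (Localization.AtPrime q) g) = Phi i0 (rho q) g) ∧
    (∀ (N : ℕ) (a : MvPowerSeries (Fin n) (kap q)), ∃ x, a - Φ x ∈ mI n (kap q) N) ∧
    (∀ (N : ℕ) (x : Localization.AtPrime q), Φ x ∈ mI n (kap q) N →
      x ∈ IsLocalRing.maximalIdeal (Localization.AtPrime q) ^ N) := by
  obtain ⟨Φ, hΦ⟩ := LoE_lift (k := k) i0 q
  obtain ⟨P, hP0, hP1, e', he'⟩ := exists_params i0 q hz e he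
  let pi : Fin n → Localization.AtPrime q := fun j =>
    algebraMap (RR n k) (Localization.AtPrime q) (param i0 P j)
  let c : Fin n → kap q := fun j => (Polynomial.derivative (P j)).eval₂ ((rho q).comp (zemb i0))
        (rho q (X (i0.succAbove j)))
  have hmk : ∀ (g : RR n k) (h : q.primeCompl),
      constantCoeff (Φ (IsLocalization.mk' (Localization.AtPrime q) g h)) * rho q (h : RR n k) =
        rho q g := by
    intro g h
    have h1 := IsLocalization.mk'_spec (Localization.AtPrime q) g h
    have h2 := congrArg (fun x => constantCoeff (Φ x)) h1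
    simp only [map_mul, hΦ, constantCoeff_Phi] at h2
    exact h2
  have hs : ∀ a : kap q, ∃ x, constantCoeff (Φ x) = a := by
    intro a
    obtain ⟨g, h, hh, hgh⟩ := rho_frac q a
    have hne : rho q h ≠ 0 := fun h2 => hh ((rho_eq_zero_iff q _).1 h2)
    refine ⟨IsLocalization.mk' (Localization.AtPrime q) g (⟨h, hh⟩ : q.primeCompl), ?_⟩
    have h3 := hmk g (⟨h, hh⟩ : q.primeCompl)
    rw [hgh, eq_div_iff hne]
    exact h3
  have hc : ∀ j, c j ≠ 0 := by
    intro j h2
    apply hP1 j
    rw [← rho_eq_zero_iff q, Polynomial.hom_eval₂]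
    exact h2
  have hpi : ∀ j, Φ (pi j) - C (c j) * X j ∈ mI n (kap q) 2 := by
    intro j
    have h1 := Phi_eval i0 (rho q) j (P j)
    have h2 : (P j).eval₂ ((rho q).comp (zemb i0)) (rho q (X (i0.succAbove j))) = 0 := by
      rw [← Polynomial.hom_eval₂]
      exact (rho_eq_zero_iff q _).2 (hP0 j)
    rw [h2, map_zero, sub_zero] at h1
    have h3 : Φ (pi j) = Phi i0 (rho q) ((P j).eval₂ (zemb i0) (X (i0.succAbove j))) := hΦ _
    rw [h3]
    exact h1
  have h1 : ∀ x, constantCoeff (Φ x) = 0 → x ∈ Ideal.span (Set.range pi) := by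
    intro x hx
    obtain ⟨g, h, rfl⟩ := IsLocalization.exists_mk'_eq q.primeCompl x
    have h3 := hmk g h
    rw [hx, zero_mul] at h3
    have hg : g ∈ q := (rho_eq_zero_iff q _).1 h3.symm
    obtain ⟨h', hh', hmem⟩ := exists_mul_mem_span i0 q hz P hP0 hP1 e' he' g hg
    have h4 : algebraMap (RR n k) (Localization.AtPrime q) (h' * g) ∈ Ideal.span (Set.range pi) := by
      have h5 := Ideal.mem_map_of_mem (algebraMap (RR n k) (Localization.AtPrime q)) hmem
      rw [Ideal.map_span, ← Set.range_comp] at h5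
      exact h5
    rw [map_mul] at h4
    have hu' : IsUnit (algebraMap (RR n k) (Localization.AtPrime q) h') :=
      IsLocalization.map_units (Localization.AtPrime q) (⟨h', hh'⟩ : q.primeCompl)
    have h6 : algebraMap (RR n k) (Localization.AtPrime q) g ∈ Ideal.span (Set.range pi) :=
      (Ideal.unit_mul_mem_iff_mem _ hu').1 h4
    have hu : IsUnit (algebraMap (RR n k) (Localization.AtPrime q) (h : RR n k)) :=
      IsLocalization.map_units (Localization.AtPrime q) h
    rw [← Ideal.mul_unit_mem_iff_mem _ hu, IsLocalization.mk'_spec]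
    exact h6
  have hle : Ideal.span (Set.range pi) ≤ IsLocalRing.maximalIdeal (Localization.AtPrime q) := by
    rw [Ideal.span_le]
    rintro _ ⟨j, rfl⟩
    exact (IsLocalization.AtPrime.to_map_mem_maximal_iff (Localization.AtPrime q) q _).2 (hP0 j)
  refine ⟨Φ, hΦ, fun N a => series_surj Φ pi c hs hc hpi N a, fun N x hx => ?_⟩
  exact Ideal.pow_right_mono hle N (series_ker Φ pi c hc hpi h1 N x hx)

/-- Proof. If `Phi i0 (rho q) g = 0` then the image of `g` in the localisation lies in all powers of the maximal ideal (`exists_phiq`), so it is zero (Krull: `Ideal.iInf_pow_eq_bot_of_isLocalRing`), and `g = 0` since `R` is a domain. -/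
theorem Phi_injective [CharZero k] : Function.Injective (Phi i0 (rho q)) := by
  obtain ⟨Φ, hΦ, -, h3⟩ := exists_phiq i0 q hz e he
  rw [injective_iff_map_eq_zero]
  intro g hg
  have : IsNoetherianRing (Localization.AtPrime q) :=
    IsLocalization.isNoetherianRing q.primeCompl (Localization.AtPrime q) inferInstance
  have h4 : ∀ N, algebraMap (RR n k) (Localization.AtPrime q) g ∈
      IsLocalRing.maximalIdeal (Localization.AtPrime q) ^ N := by
    intro N
    apply h3 N
    rw [hΦ, hg]
    exact Ideal.zero_mem _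
  have h5 : algebraMap (RR n k) (Localization.AtPrime q) g ∈
      (⨅ N : ℕ, IsLocalRing.maximalIdeal (Localization.AtPrime q) ^ N) := by
    rw [Ideal.mem_iInf]
    exact h4
  rw [Ideal.iInf_pow_eq_bot_of_isLocalRing _ (IsLocalRing.maximalIdeal.isMaximal _).ne_top,
    Ideal.mem_bot] at h5
  have h6 : Function.Injective (algebraMap (RR n k) (Localization.AtPrime q)) :=
    IsLocalization.injective (Localization.AtPrime q) q.primeCompl_le_nonZeroDivisors
  exact h6 (by rw [h5, map_zero])

end

end B5a
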