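import Pool.Agent.H.MP_b5a980_ag.MIA
import Pool.Agent.H.MP_b5a980_ag.MIB
import Pool.Agent.H.MP_b5a980_ag.MIC

set_option autoImplicit false
set_option linter.unusedSectionVars false
set_option linter.style.longLine false

/-!
Collects the files on powers of the maximal ideal (MP_b5a980_ag).
-/

namespace B5a

universe u v w



end B5a
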