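import Pool.Agent.H.MP_b5a980_ag.MI0

set_option autoImplicit false
set_option linter.unusedSectionVars false
set_option linter.style.longLine false

/-!
Powers of the maximal ideal: elementary facts (MP_b5a980_ag).
-/

namespace B5a

universe u v w

open MvPowerSeries

variable {n : ℕ} {K : Type u} [Field K]

theorem mul_mem_mI {e e' : ℕ} {g h : MvPowerSeries (Fin n) K} (hg : g ∈ mI n K e)
    (hh : h ∈ mI n K e') : g * h ∈ mI n K (e + e') := by
  intro β hβ
  rw [coeff_mul]
  refine Finset.sum_eq_zero fun p hp => ?_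
  have h2 : p.1 + p.2 = β := by simpa using hp
  have h4 : p.1.degree + p.2.degree = β.degree := by rw [← h2, map_add]
  rcases lt_or_ge p.1.degree e with h3 | h3
  · rw [hg p.1 h3, zero_mul]
  · rw [hh p.2 (by omega), mul_zero]

theorem monomial_mem_mI {e : ℕ} {β : Fin n →₀ ℕ} (h : e ≤ β.degree) (c : K) :
    monomial β c ∈ mI n K e := by
  classical
  intro γ hγ
  rw [coeff_monomial, if_neg]
  rintro rfl
  omega

theorem X_mem_mI (i : Fin n) : (X i : MvPowerSeries (Fin n) K) ∈ mI n K 1 := by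
  rw [X_def]
  exact monomial_mem_mI (by simp) 1

theorem pderiv_mem_mI {e : ℕ} {g : MvPowerSeries (Fin n) K} (hg : g ∈ mI n K (e + 1))
    (i : Fin n) : pderiv K i g ∈ mI n K e := by
  intro β hβ
  rw [coeff_pderiv, hg, zero_mul]
  rw [map_add, Finsupp.degree_single]
  omega

theorem mem_mI_one {g : MvPowerSeries (Fin n) K} : g ∈ mI n K 1 ↔ constantCoeff g = 0 := by
  constructor
  · intro h
    rw [← coeff_zero_eq_constantCoeff_apply]
    exact h 0 (by simp)
  · intro h β hβ
    have h0 : β = 0 := by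
      rw [← Finsupp.degree_eq_zero_iff]
      omega
    rw [h0, coeff_zero_eq_constantCoeff_apply, h]

theorem isUnit_or_mem_mI_one (g : MvPowerSeries (Fin n) K) : IsUnit g ∨ g ∈ mI n K 1 := by
  by_cases h : constantCoeff g = 0
  · exact Or.inr (mem_mI_one.2 h)
  · exact Or.inl (MvPowerSeries.isUnit_iff_constantCoeff.2 (isUnit_iff_ne_zero.2 h))

theorem pow_mem_mI {g : MvPowerSeries (Fin n) K} (hg : g ∈ mI n K 1) (e : ℕ) :
    g ^ e ∈ mI n K e := by
  induction e with
  | zero => rw [mI_zero]; trivial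
  | succ e ih => rw [pow_succ]; exact mul_mem_mI ih hg

theorem eq_zero_of_forall_mem_mI {g : MvPowerSeries (Fin n) K} (hg : ∀ e, g ∈ mI n K e) :
    g = 0 := by
  ext β
  rw [coeff_zero]
  exact hg (β.degree + 1) β (Nat.lt_succ_self _)

theorem MIA_coeff_homog (e : ℕ) (g : MvPowerSeries (Fin n) K) (β : Fin n →₀ ℕ)
    (h : β.degree = e) : coeff β (homog e g) = coeff β g := by
  classical
  rw [homog, map_sum, Finset.sum_eq_single β]
  · rw [coeff_monomial_same]
  · intro γ _ hγ
    rw [coeff_monomial, if_neg (Ne.symm hγ)]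
  · intro hβ
    exfalso
    apply hβ
    rw [Finset.mem_finsuppAntidiag]
    refine ⟨?_, Finset.subset_univ _⟩
    rw [← h, Finsupp.degree_eq_sum]

theorem MIA_coeff_homog' (e : ℕ) (g : MvPowerSeries (Fin n) K) (β : Fin n →₀ ℕ)
    (h : β.degree ≠ e) : coeff β (homog e g) = 0 := by
  classical
  rw [homog, map_sum]
  refine Finset.sum_eq_zero fun γ hγ => ?_
  rw [coeff_monomial, if_neg]
  rintro rfl
  rw [Finset.mem_finsuppAntidiag] at hγ
  apply h
  rw [← hγ.1, Finsupp.degree_eq_sum]

theorem sub_homog_mem_mI {e : ℕ} {g : MvPowerSeries (Fin n) K} (hg : g ∈ mI n K e) :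
    g - homog e g ∈ mI n K (e + 1) := by
  intro β hβ
  rw [map_sub]
  by_cases h : β.degree = e
  · rw [MIA_coeff_homog e g β h, sub_self]
  · rw [MIA_coeff_homog' e g β h, hg β (by omega), sub_zero]

end B5a
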