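import Pool.Agent.H.MP_b5a980_ag.PMB

set_option autoImplicit false
set_option linter.unusedSectionVars false
set_option linter.style.longLine false

/-!
The shift `s -> s + 1` on `F[s]` (MP_b5a980_ag).
-/

namespace B5a

universe u v w

open MvPowerSeries

variable {n : ℕ} {k : Type u} [Field k]

section PMC_aux

variable {A : Type u} [CommRing A]

theorem PMC_pmap_one (φ : A →+ A) (hφ : ∀ a b, φ (a * b) = φ a * b + a * φ b) :
    pmap φ (1 : Polynomial A) = 0 := by
  have h : φ 1 = 0 := by
    have h1 := hφ 1 1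
    rw [mul_one, mul_one, one_mul] at h1
    simpa using h1
  rw [← Polynomial.C_1, pmap_C, h, Polynomial.C_0]

theorem PMC_pmap_X (φ : A →+ A) (hφ : ∀ a b, φ (a * b) = φ a * b + a * φ b) :
    pmap φ (Polynomial.X : Polynomial A) = 0 := by
  rw [← mul_one (Polynomial.X : Polynomial A), pmap_X_mul, PMC_pmap_one φ hφ, mul_zero]

theorem PMC_pmap_pow (φ : A →+ A) (hφ : ∀ a b, φ (a * b) = φ a * b + a * φ b) (m : ℕ) :
    pmap φ ((Polynomial.X + 1 : Polynomial A) ^ m) = 0 := by
  induction m with
  | zero => rw [pow_zero, PMC_pmap_one φ hφ]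
  | succ m ih =>
    rw [pow_succ, pmap_mul φ hφ, ih, map_add, PMC_pmap_X φ hφ, PMC_pmap_one φ hφ]
    ring

theorem PMC_pmap_comp (φ : A →+ A) (hφ : ∀ a b, φ (a * b) = φ a * b + a * φ b)
    (p : Polynomial A) :
    pmap φ (p.comp (Polynomial.X + 1)) = (pmap φ p).comp (Polynomial.X + 1) := by
  induction p using Polynomial.induction_on' with
  | add p q hp hq =>
    rw [Polynomial.add_comp, map_add, hp, hq, map_add, Polynomial.add_comp]
  | monomial m a =>
    have h1 : pmap φ (Polynomial.monomial m a) = Polynomial.monomial m (φ a) := by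
      ext i
      rw [coeff_pmap, Polynomial.coeff_monomial, Polynomial.coeff_monomial]
      split_ifs
      · rfl
      · exact map_zero φ
    rw [h1, Polynomial.monomial_comp, Polynomial.monomial_comp, pmap_mul φ hφ, pmap_C,
      PMC_pmap_pow φ hφ m]
    ring

end PMC_aux

section ND

variable (f : MvPowerSeries (Fin n) k) (hf : f ≠ 0)

/-- The shift `s -> s + 1`. -/
noncomputable def Sh (f : MvPowerSeries (Fin n) k) : FS n k →+ FS n k where
  toFun p := p.comp (Polynomial.X + 1) * Polynomial.C (inc n k f)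
  map_zero' := by simp
  map_add' p q := by
    rw [Polynomial.add_comp, add_mul]

theorem Sh_apply (p : FS n k) :
    Sh f p = p.comp (Polynomial.X + 1) * Polynomial.C (inc n k f) := rfl

theorem PMC_comp_sub (p : FS n k) :
    (p.comp (Polynomial.X - 1)).comp (Polynomial.X + 1) = p := by
  rw [Polynomial.comp_assoc, Polynomial.sub_comp, Polynomial.X_comp, Polynomial.one_comp,
    add_sub_cancel_right, Polynomial.comp_X]

theorem PMC_comp_add (p : FS n k) :
    (p.comp (Polynomial.X + 1)).comp (Polynomial.X - 1) = p := by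
  rw [Polynomial.comp_assoc, Polynomial.add_comp, Polynomial.X_comp, Polynomial.one_comp,
    sub_add_cancel, Polynomial.comp_X]

include hf in
/-- The shift is bijective. -/
theorem Sh_bijective : Function.Bijective (Sh f) := by
  have h0 := inc_ne_zero (n := n) hf
  have hC : (Polynomial.C (inc n k f) : FS n k) ≠ 0 := by
    rw [Ne, Polynomial.C_eq_zero]
    exact h0
  constructor
  · intro p q hpq
    rw [Sh_apply, Sh_apply] at hpq
    have h1 := mul_right_cancel₀ hC hpq
    rw [← PMC_comp_add p, h1, PMC_comp_add]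
  · intro q
    refine ⟨(q * Polynomial.C (inc n k f)⁻¹).comp (Polynomial.X - 1), ?_⟩
    rw [Sh_apply, PMC_comp_sub, mul_assoc, ← Polynomial.C_mul, inv_mul_cancel₀ h0,
      Polynomial.C_1, mul_one]

include hf in
/-- The shift commutes with the connection. -/
theorem Sh_nab (i : Fin n) (p : FS n k) : Sh f ((pconn f).nab i p) = (pconn f).nab i (Sh f p) := by
  have h0 := inc_ne_zero (n := n) hf
  have hφ : ∀ a b, derAdd (dF n k i) (a * b) = derAdd (dF n k i) a * b + a * derAdd (dF n k i) b := by
    intro a b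
    rw [derAdd_apply, derAdd_apply, derAdd_apply, Derivation.leibniz, smul_eq_mul, smul_eq_mul]
    ring
  have hld : dF n k i (inc n k f) = ld f i * inc n k f := by
    rw [dF_inc, ld, div_mul_cancel₀ _ h0]
  rw [pconn_nab, pconn_nab, Sh_apply, Sh_apply, Polynomial.add_comp, Polynomial.mul_comp,
    Polynomial.mul_comp, Polynomial.X_comp, Polynomial.C_comp, pmap_mul _ hφ, pmap_C,
    PMC_pmap_comp _ hφ, derAdd_apply, hld, Polynomial.C_mul]
  ring

include hf in
theorem Sh_fz (j : ℤ) : Sh f (fz f j) = fz f (j + 1) := by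
  rw [Sh_apply, fz, fz, Polynomial.C_comp, ← Polynomial.C_mul, zpow_add_one₀ (inc_ne_zero hf)]

theorem Sh_emb_mul (b : Polynomial k) (p : FS n k) :
    Sh f (emb n k b * p) = emb n k (b.comp (Polynomial.X + 1)) * Sh f p := by
  have h1 : emb n k (b.comp (Polynomial.X + 1)) = (emb n k b).comp (Polynomial.X + 1) := by
    rw [emb, Polynomial.coe_mapRingHom, Polynomial.map_comp, Polynomial.map_add,
      Polynomial.map_X, Polynomial.map_one]
  rw [Sh_apply, Sh_apply, Polynomial.mul_comp, h1, mul_assoc]

theorem Sh_smul (r : MvPowerSeries (Fin n) k) (p : FS n k) : Sh f (r • p) = r • Sh f p := by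
  rw [Sh_apply, Sh_apply, Polynomial.smul_comp, smul_mul_assoc]

theorem PMC_Sh_X (p : FS n k) :
    Sh f (Polynomial.X * p) = Polynomial.X * Sh f p + Sh f p := by
  rw [Sh_apply, Sh_apply, Polynomial.mul_comp, Polynomial.X_comp]
  ring

include hf in
/-- The shift maps `N_j` onto `N_(j+1)`. -/
theorem Sh_mem_ND (j : ℤ) (p : FS n k) : Sh f p ∈ ND f (j + 1) ↔ p ∈ ND f j := by
  let L : FS n k →ₗ[MvPowerSeries (Fin n) k] FS n k :=
    { toFun := Sh f
      map_add' := map_add (Sh f)
      map_smul' := fun r q => Sh_smul f r q }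
  have hL : ∀ q, L q = Sh f q := fun q => rfl
  constructor
  · intro h
    have h1 : ND f (j + 1) ≤ (ND f j).map L := by
      refine ND_le f (j + 1) ?_ ?_ ?_
      · exact ⟨fz f j, fz_mem_ND f j, Sh_fz f hf j⟩
      · rintro _ ⟨q, hq, rfl⟩
        refine ⟨Polynomial.X * q - q, Submodule.sub_mem _ (X_mul_mem_ND f j hq) hq, ?_⟩
        rw [map_sub, hL, hL, PMC_Sh_X, add_sub_cancel_right]
      · rintro i _ ⟨q, hq, rfl⟩
        exact ⟨(pconn f).nab i q, nab_mem_ND f j hq i, Sh_nab f hf i q⟩
    obtain ⟨q, hq, hqp⟩ := h1 h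
    have h2 : q = p := (Sh_bijective f hf).1 hqp
    rw [← h2]
    exact hq
  · intro h
    have h1 : ND f j ≤ (ND f (j + 1)).comap L := by
      refine ND_le f j ?_ ?_ ?_
      · rw [Submodule.mem_comap, hL, Sh_fz f hf]
        exact fz_mem_ND f (j + 1)
      · intro q hq
        rw [Submodule.mem_comap, hL] at hq ⊢
        rw [PMC_Sh_X]
        exact Submodule.add_mem _ (X_mul_mem_ND f _ hq) hq
      · intro i q hq
        rw [Submodule.mem_comap, hL] at hq ⊢
        rw [Sh_nab f hf]
        exact nab_mem_ND f _ hq i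
    exact h1 h

theorem PMC_comp_shift (b : Polynomial k) (c : k) :
    (b.comp (Polynomial.X + Polynomial.C c)).comp (Polynomial.X + 1) =
      b.comp (Polynomial.X + Polynomial.C (c + 1)) := by
  rw [Polynomial.comp_assoc, Polynomial.add_comp, Polynomial.X_comp, Polynomial.C_comp,
    Polynomial.C_add, Polynomial.C_1, add_assoc, add_comm (1 : Polynomial k)]

include hf in
theorem PMC_Sh_elem (b : Polynomial k) (r : MvPowerSeries (Fin n) k) (a : ℤ) (c : k) :
    Sh f (emb n k (b.comp (Polynomial.X + Polynomial.C c)) * (r • fz f a)) =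
      emb n k (b.comp (Polynomial.X + Polynomial.C (c + 1))) * (r • fz f (a + 1)) := by
  rw [Sh_emb_mul, Sh_smul, Sh_fz f hf, PMC_comp_shift]

include hf in
/-- shifting a membership relation: if `b g` lies in `N_j`, then `b(s+i) (g shifted)` lies in
`N_(j+i)`; here for `g = r f^a` with `r` in `R`. -/
theorem shift_mem (b : Polynomial k) (r : MvPowerSeries (Fin n) k) (a j i : ℤ)
    (h : emb n k b * (r • fz f a) ∈ ND f j) :
    emb n k (b.comp (Polynomial.X + Polynomial.C (i : k))) * (r • fz f (a + i)) ∈ ND f (j + i) := by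
  induction i using Int.induction_on with
  | zero =>
    simp only [Int.cast_zero, Polynomial.C_0, add_zero, Polynomial.comp_X]
    exact h
  | succ i ih =>
    rw [← add_assoc, ← add_assoc, Int.cast_add, Int.cast_one, ← PMC_Sh_elem f hf, Sh_mem_ND f hf]
    exact ih
  | pred i ih =>
    rw [← Sh_mem_ND f hf, PMC_Sh_elem f hf, Int.cast_sub, Int.cast_one, sub_add_cancel,
      add_assoc, sub_add_cancel, add_assoc, sub_add_cancel]
    exact ih

end ND

end B5a
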