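import Pool.Agent.H.MP_b5a980_ag.MIB

set_option autoImplicit false
set_option linter.unusedSectionVars false
set_option linter.style.longLine false

/-!
Existence of curve primes (MP_b5a980_ag, A6).
-/

namespace B5a

universe u v w

open MvPowerSeries

variable {n : ℕ} {k : Type u} [Field k]

/-- abbreviation: power series in `n+1` variables -/
abbrev RR (n : ℕ) (k : Type u) [Field k] := MvPowerSeries (Fin (n + 1)) k

/-- Existence of a curve prime: a prime containing `I` that contains no power of the maximal ideal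
but does so after adding some variable.

Proof. `R` is Noetherian: among the ideals containing `I` and containing no `mI e` there is a maximal one `q` (`set_has_maximal_iff_noetherian` or `WellFounded`). `q` is proper (`mI 0 = ⊤`). Prime: if `a b ∈ q`, `a, b ∉ q`, then `q + (a) ≥ mI i`, `q + (b) ≥ mI j`, and `mI (i+j) ≤ mI i * mI j ≤ (q+(a))(q+(b)) ≤ q` (`mI_eq_pow`): contradiction. Some variable is not in `q`, otherwise `mI 1 ≤ q` (`exists_sum_X_mI`). For this variable `q + (x_i)` is strictly larger than `q` and contains `I`, so it contains some `mI e`. -/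
theorem exists_curve_prime (I : Ideal (RR n k)) (hI : ∀ e, ¬ mI (n + 1) k e ≤ I) :
    ∃ q : Ideal (RR n k), I ≤ q ∧ q.IsPrime ∧
      ∃ i0 : Fin (n + 1), X i0 ∉ q ∧ ∃ e : ℕ, mI (n + 1) k e ≤ q ⊔ Ideal.span {X i0} := by
  have hnoeth : IsNoetherianRing (RR n k) := inferInstance
  obtain ⟨q, ⟨hIq, hq⟩, hmax⟩ := set_has_maximal_iff_noetherian.2 hnoeth
    {J : Ideal (RR n k) | I ≤ J ∧ ∀ e, ¬ mI (n + 1) k e ≤ J} ⟨I, le_rfl, hI⟩
  have hbig : ∀ J : Ideal (RR n k), q < J → ∃ e, mI (n + 1) k e ≤ J := by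
    intro J hJ
    by_contra hcon
    push Not at hcon
    exact hmax J ⟨hIq.trans hJ.le, hcon⟩ hJ
  have hlt : ∀ a : RR n k, a ∉ q → q < q ⊔ Ideal.span {a} := by
    intro a ha
    refine lt_of_le_of_ne le_sup_left fun h => ha ?_
    rw [h]
    exact Ideal.mem_sup_right (Ideal.mem_span_singleton_self a)
  refine ⟨q, hIq, ⟨?_, ?_⟩, ?_⟩
  · intro h
    refine hq 0 ?_
    rw [h]
    exact le_top
  · intro a b hab
    by_contra hcon
    push Not at hcon
    obtain ⟨i, hi⟩ := hbig _ (hlt a hcon.1)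
    obtain ⟨j, hj⟩ := hbig _ (hlt b hcon.2)
    refine hq (i + j) ?_
    have h1 : mI (n + 1) k (i + j) = mI (n + 1) k i * mI (n + 1) k j := by
      rw [mI_eq_pow, mI_eq_pow, mI_eq_pow, pow_add]
    rw [h1]
    refine (Ideal.mul_mono hi hj).trans ?_
    rw [Ideal.sup_mul, Ideal.mul_sup, Ideal.mul_sup, Ideal.span_singleton_mul_span_singleton]
    refine sup_le (sup_le Ideal.mul_le_left Ideal.mul_le_left)
      (sup_le Ideal.mul_le_right ?_)
    rw [Ideal.span_singleton_le_iff_mem]
    exact hab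
  · have hex : ∃ i0 : Fin (n + 1), (X i0 : RR n k) ∉ q := by
      by_contra hcon
      push Not at hcon
      refine hq 1 fun g hg => ?_
      obtain ⟨c, _, rfl⟩ := exists_sum_X_mI (e := 0) hg
      exact Ideal.sum_mem _ fun i _ => Ideal.mul_mem_right _ _ (hcon i)
    obtain ⟨i0, hi0⟩ := hex
    exact ⟨i0, hi0, hbig _ (hlt _ hi0)⟩

end B5a
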