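import Pool.Agent.H.MP_b5a980_ag.PrA

set_option autoImplicit false
set_option linter.unusedSectionVars false
set_option linter.style.longLine false

/-!
The subring `k[[z]]` (MP_b5a980_ag, A6).
-/

namespace B5a

universe u v w

open MvPowerSeries

variable {n : ℕ} {k : Type u} [Field k]

/-- the inclusion `k[[z]] -> k[[x]]`, `z -> x_(i0)` -/
noncomputable def zemb (i0 : Fin (n + 1)) : PowerSeries k →+* RR n k :=
  (MvPowerSeries.rename (R := k) (fun _ : Unit => i0) :
    MvPowerSeries Unit k →ₐ[k] MvPowerSeries (Fin (n + 1)) k).toRingHom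

theorem zemb_C (i0 : Fin (n + 1)) (c : k) : zemb i0 (PowerSeries.C c) = C c :=
  MvPowerSeries.rename_C (fun _ : Unit => i0) c

/-- the embedding of the variable -/
def PrB_e (i0 : Fin (n + 1)) : Unit ↪ Fin (n + 1) := ⟨fun _ => i0, fun _ _ _ => rfl⟩

theorem PrB_zemb (i0 : Fin (n + 1)) (a : PowerSeries k) :
    zemb i0 a = MvPowerSeries.rename (R := k) (PrB_e i0) a := rfl

theorem PrB_emb (i0 : Fin (n + 1)) (m : ℕ) :
    Finsupp.embDomain (PrB_e i0) (Finsupp.single () m) = Finsupp.single i0 m :=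
  Finsupp.embDomain_single _ _ _

/-- Proof. `MvPowerSeries.coeff_rename` / `coeff_embDomain_rename` with the embedding `Unit ↪ Fin (n+1)`; `PowerSeries.coeff m = MvPowerSeries.coeff (single () m)`. -/
theorem coeff_single_zemb (i0 : Fin (n + 1)) (a : PowerSeries k) (m : ℕ) :
    coeff (Finsupp.single i0 m) (zemb i0 a) = PowerSeries.coeff m a := by
  rw [← PrB_emb, PrB_zemb, MvPowerSeries.coeff_embDomain_rename]
  rfl

/-- Proof. `MvPowerSeries.coeff_rename_eq_zero` or `coeff_rename` with an empty sum. -/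
theorem coeff_zemb_of_ne (i0 : Fin (n + 1)) (a : PowerSeries k) (β : Fin (n + 1) →₀ ℕ)
    (h : ∀ m, β ≠ Finsupp.single i0 m) : coeff β (zemb i0 a) = 0 := by
  rw [PrB_zemb]
  refine MvPowerSeries.coeff_rename_eq_zero _ _ ?_
  rintro ⟨x, hx⟩
  refine h (x ()) ?_
  rw [← hx, ← Finsupp.embDomain_eq_mapDomain, ← PrB_emb]
  congr 1
  ext
  simp

theorem zemb_X (i0 : Fin (n + 1)) : zemb i0 (PowerSeries.X : PowerSeries k) = X i0 :=
  MvPowerSeries.rename_X (fun _ : Unit => i0) ()

theorem zemb_injective (i0 : Fin (n + 1)) : Function.Injective (zemb (k := k) i0) := by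
  intro a b h
  ext m
  rw [← coeff_single_zemb i0, h, coeff_single_zemb]

theorem pderiv_zemb_self (i0 : Fin (n + 1)) (a : PowerSeries k) :
    pderiv k i0 (zemb i0 a) = zemb i0 (PowerSeries.derivative k a) := by
  ext β
  rw [coeff_pderiv]
  by_cases h : ∃ m, β = Finsupp.single i0 m
  · obtain ⟨m, rfl⟩ := h
    rw [← Finsupp.single_add, coeff_single_zemb, coeff_single_zemb,
      PowerSeries.coeff_derivative, Finsupp.single_eq_same]
  · push Not at h
    rw [coeff_zemb_of_ne i0 _ β h, coeff_zemb_of_ne, zero_mul]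
    intro m hm
    refine h (m - 1) ?_
    ext j
    have hj := DFunLike.congr_fun hm j
    rw [Finsupp.add_apply] at hj
    by_cases hji : j = i0
    · subst hji
      rw [Finsupp.single_eq_same, Finsupp.single_eq_same] at hj
      rw [Finsupp.single_eq_same]
      omega
    · rw [Finsupp.single_eq_of_ne hji, Finsupp.single_eq_of_ne hji] at hj
      rw [Finsupp.single_eq_of_ne hji]
      omega

theorem pderiv_zemb_of_ne (i0 i : Fin (n + 1)) (h : i ≠ i0) (a : PowerSeries k) :
    pderiv k i (zemb i0 a) = 0 := by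
  ext β
  rw [coeff_pderiv, coeff_zemb_of_ne, zero_mul, coeff_zero]
  intro m hm
  have hj := DFunLike.congr_fun hm i
  rw [Finsupp.add_apply, Finsupp.single_eq_same, Finsupp.single_eq_of_ne h] at hj
  omega

/-- a prime ideal not containing `z` contains no nonzero power series in `z`

Proof. `a = X^m * unit` (`PowerSeries.eq_divided_by_X_pow_order_iff`-like lemma, or `a = X^order * (unit)`); `zemb a = X_{i0}^m * unit`; if it is in the prime `q` then `X_{i0} ∈ q` (or `q = ⊤`). -/
theorem zemb_not_mem {i0 : Fin (n + 1)} {q : Ideal (RR n k)} (hq : q.IsPrime) (hz : X i0 ∉ q)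
    {a : PowerSeries k} (ha : a ≠ 0) : zemb i0 a ∉ q := by
  intro hmem
  have h1 : IsUnit (PowerSeries.divXPowOrder a) := PowerSeries.isUnit_divided_by_X_pow_order ha
  have h2 : zemb i0 a = X i0 ^ a.order.toNat * zemb i0 (PowerSeries.divXPowOrder a) := by
    conv_lhs => rw [← PowerSeries.X_pow_order_mul_divXPowOrder (f := a)]
    rw [map_mul, map_pow, zemb_X]
  rw [h2] at hmem
  rcases hq.mem_or_mem hmem with h | h
  · exact hz (hq.mem_of_pow_mem _ h)
  · exact hq.ne_top (Ideal.eq_top_of_isUnit_mem _ h (h1.map (zemb i0)))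

end B5a
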