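import Pool.Agent.H.MP_b5a980_ag.MIB

set_option autoImplicit false
set_option linter.unusedSectionVars false
set_option linter.style.longLine false

/-!
Automorphisms attached to lifts of the coefficient field (MP_b5a980_ag).
-/

namespace B5a

universe u v w

open MvPowerSeries

variable {n : ℕ} {K : Type u} [Field K]

/-- the multi-indices of degree `< N` -/
noncomputable def PsA_D (n N : ℕ) : Finset (Fin n →₀ ℕ) :=
  (Finset.range N).biUnion fun e => Finset.finsuppAntidiag Finset.univ e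

theorem PsA_mem_D {N : ℕ} {α : Fin n →₀ ℕ} : α ∈ PsA_D n N ↔ α.degree < N := by
  classical
  unfold PsA_D
  rw [Finset.mem_biUnion]
  constructor
  · rintro ⟨e, he, hα⟩
    rw [MIB_mem_antidiag] at hα
    rw [hα]
    exact Finset.mem_range.1 he
  · intro h
    exact ⟨α.degree, Finset.mem_range.2 h, MIB_mem_antidiag.2 rfl⟩

/-- the truncation as a polynomial -/
noncomputable def PsA_tr (N : ℕ) (g : MvPowerSeries (Fin n) K) : MvPolynomial (Fin n) K :=
  ∑ α ∈ PsA_D n N, MvPolynomial.monomial α (coeff α g)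

theorem PsA_coeff_tr (N : ℕ) (g : MvPowerSeries (Fin n) K) (β : Fin n →₀ ℕ) :
    MvPolynomial.coeff β (PsA_tr N g) = if β.degree < N then coeff β g else 0 := by
  classical
  unfold PsA_tr
  rw [MvPolynomial.coeff_sum]
  simp only [MvPolynomial.coeff_monomial]
  rw [Finset.sum_ite_eq' (PsA_D n N) β]
  simp only [PsA_mem_D]

theorem PsA_sub_tr (N : ℕ) (g : MvPowerSeries (Fin n) K) :
    g - (PsA_tr N g : MvPowerSeries (Fin n) K) ∈ mI n K N := by
  intro β hβ
  rw [map_sub, MvPolynomial.coeff_coe, PsA_coeff_tr, if_pos hβ, sub_self]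

/-- the homomorphism on polynomials -/
noncomputable def PsA_hom (τ : K →+* MvPowerSeries (Fin n) K) :
    MvPolynomial (Fin n) K →+* MvPowerSeries (Fin n) K :=
  MvPolynomial.eval₂Hom τ X

theorem PsA_hom_eq (τ : K →+* MvPowerSeries (Fin n) K) (p : MvPolynomial (Fin n) K) :
    PsA_hom τ p = ∑ α ∈ p.support, τ (MvPolynomial.coeff α p) * monomial α 1 := by
  rw [PsA_hom, MvPolynomial.coe_eval₂Hom, MvPolynomial.eval₂_eq']
  refine Finset.sum_congr rfl fun α _ => ?_
  congr 1
  rw [monomial_one_eq, Finsupp.prod_fintype]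
  intro i
  exact pow_zero _

theorem PsA_coe_eq (p : MvPolynomial (Fin n) K) :
    (p : MvPowerSeries (Fin n) K) =
      ∑ α ∈ p.support, C (MvPolynomial.coeff α p) * monomial α 1 := by
  classical
  ext β
  rw [MvPolynomial.coeff_coe, map_sum]
  have h : ∀ α ∈ p.support, coeff β (C (MvPolynomial.coeff α p) * monomial α (1 : K)) =
      if α = β then MvPolynomial.coeff α p else 0 := by
    intro α _
    rw [coeff_C_mul, coeff_monomial]
    by_cases hab : β = α
    · rw [if_pos hab, if_pos hab.symm, mul_one]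
    · rw [if_neg hab, if_neg (Ne.symm hab), mul_zero]
  rw [Finset.sum_congr rfl h, Finset.sum_ite_eq' p.support β]
  split_ifs with h1
  · rfl
  · exact MvPolynomial.notMem_support_iff.1 h1

theorem PsA_degree {N : ℕ} {p : MvPolynomial (Fin n) K}
    (hp : (p : MvPowerSeries (Fin n) K) ∈ mI n K N) {α : Fin n →₀ ℕ} (hα : α ∈ p.support) :
    N ≤ α.degree := by
  by_contra hcon
  have h1 := hp α (not_le.1 hcon)
  rw [MvPolynomial.coeff_coe] at h1
  exact MvPolynomial.mem_support_iff.1 hα h1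

theorem PsA_hom_mem (τ : K →+* MvPowerSeries (Fin n) K) {N : ℕ} {p : MvPolynomial (Fin n) K}
    (hp : (p : MvPowerSeries (Fin n) K) ∈ mI n K N) : PsA_hom τ p ∈ mI n K N := by
  rw [PsA_hom_eq]
  exact Ideal.sum_mem _ fun α hα =>
    Ideal.mul_mem_left _ _ (monomial_mem_mI (PsA_degree hp hα) 1)

theorem PsA_hom_sub_mem (τ : K →+* MvPowerSeries (Fin n) K)
    (hτ : ∀ c, constantCoeff (τ c) = c) {N : ℕ} {p : MvPolynomial (Fin n) K}
    (hp : (p : MvPowerSeries (Fin n) K) ∈ mI n K N) :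
    PsA_hom τ p - (p : MvPowerSeries (Fin n) K) ∈ mI n K (N + 1) := by
  rw [PsA_hom_eq, PsA_coe_eq, ← Finset.sum_sub_distrib]
  refine Ideal.sum_mem _ fun α hα => ?_
  rw [← sub_mul]
  have h1 : τ (MvPolynomial.coeff α p) - C (MvPolynomial.coeff α p) ∈ mI n K 1 := by
    rw [mem_mI_one, map_sub, hτ, constantCoeff_C, sub_self]
  have h2 := mul_mem_mI h1 (monomial_mem_mI (K := K) (PsA_degree hp hα) 1)
  rwa [add_comm] at h2

/-- the endomorphism as a function -/
noncomputable def PsA_fun (τ : K →+* MvPowerSeries (Fin n) K) (g : MvPowerSeries (Fin n) K) :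
    MvPowerSeries (Fin n) K := fun β => coeff β (PsA_hom τ (PsA_tr (β.degree + 1) g))

theorem PsA_fun_coeff (τ : K →+* MvPowerSeries (Fin n) K) (g : MvPowerSeries (Fin n) K)
    (β : Fin n →₀ ℕ) :
    coeff β (PsA_fun τ g) = coeff β (PsA_hom τ (PsA_tr (β.degree + 1) g)) := rfl

theorem PsA_fun_sub (τ : K →+* MvPowerSeries (Fin n) K) {N : ℕ}
    {g : MvPowerSeries (Fin n) K} {p : MvPolynomial (Fin n) K}
    (h : g - (p : MvPowerSeries (Fin n) K) ∈ mI n K N) :
    PsA_fun τ g - PsA_hom τ p ∈ mI n K N := by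
  intro β hβ
  rw [map_sub, PsA_fun_coeff, ← map_sub, ← map_sub]
  have h1 : ((PsA_tr (β.degree + 1) g - p : MvPolynomial (Fin n) K) :
      MvPowerSeries (Fin n) K) ∈ mI n K (β.degree + 1) := by
    have h2 := (mI n K (β.degree + 1)).sub_mem (mI_anti (by omega : β.degree + 1 ≤ N) h)
      (PsA_sub_tr (β.degree + 1) g)
    rw [sub_sub_sub_cancel_left] at h2
    have h3 : ((PsA_tr (β.degree + 1) g - p : MvPolynomial (Fin n) K) :
        MvPowerSeries (Fin n) K) = (PsA_tr (β.degree + 1) g : MvPowerSeries (Fin n) K) -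
          (p : MvPowerSeries (Fin n) K) :=
      map_sub (MvPolynomial.coeToMvPowerSeries.ringHom (σ := Fin n) (R := K)) _ _
    rw [h3]
    exact h2
  exact PsA_hom_mem τ h1 β (Nat.lt_succ_self _)

theorem PsA_ext {g h : MvPowerSeries (Fin n) K} (H : ∀ N, g - h ∈ mI n K N) : g = h :=
  sub_eq_zero.1 (eq_zero_of_forall_mem_mI H)

/-- The endomorphism `Σ g_β x^β ↦ Σ τ(g_β) x^β`.

Proof. Define `(Ψ g)_β = Σ_{α + α' = β} coeff α' (τ (coeff α g))` (sum over the antidiagonal). It is additive and multiplicative: both `Ψ (g h)` and `Ψ g Ψ h` have `β`-coefficient `Σ coeff γ (τ(g_α)) coeff δ (τ(h_α')) ` over `α + α' + γ + δ = β` (for polynomials in `x` with coefficients in `K` it is clear; by continuity, i.e. modulo `mI N`, it suffices to treat `g, h` modulo `mI N`: `Ψ (mI N) ⊆ mI N`, and every series is modulo `mI N` a finite sum of monomials). `Ψ (X j) = X j`, `Ψ (C c) = τ c`. -/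
theorem exists_psi_hom (τ : K →+* MvPowerSeries (Fin n) K) (hτ : ∀ c, constantCoeff (τ c) = c) :
    ∃ Ψ : MvPowerSeries (Fin n) K →+* MvPowerSeries (Fin n) K, (∀ j, Ψ (X j) = X j) ∧
      (∀ c, Ψ (C c) = τ c) ∧ ∀ (N : ℕ) (g), g ∈ mI n K N → Ψ g - g ∈ mI n K (N + 1) := by
  have key : ∀ (g : MvPowerSeries (Fin n) K) (x : MvPowerSeries (Fin n) K),
      (∀ N, ∃ p : MvPolynomial (Fin n) K, g - (p : MvPowerSeries (Fin n) K) ∈ mI n K N ∧
        x - PsA_hom τ p ∈ mI n K N) → PsA_fun τ g = x := by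
    intro g x h
    refine PsA_ext fun N => ?_
    obtain ⟨p, h1, h2⟩ := h N
    have h3 := (mI n K N).sub_mem (PsA_fun_sub τ h1) h2
    rwa [sub_sub_sub_cancel_right] at h3
  have hT := fun (N : ℕ) (g : MvPowerSeries (Fin n) K) => PsA_fun_sub τ (PsA_sub_tr N g)
  refine ⟨{ toFun := PsA_fun τ, map_one' := ?_, map_mul' := ?_, map_zero' := ?_,
            map_add' := ?_ }, ?_, ?_, ?_⟩
  · refine key 1 1 fun N => ⟨1, ?_, ?_⟩
    · rw [MvPolynomial.coe_one, sub_self]
      exact (mI n K N).zero_mem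
    · rw [map_one, sub_self]
      exact (mI n K N).zero_mem
  · intro g h
    refine key _ _ fun N => ⟨PsA_tr N g * PsA_tr N h, ?_, ?_⟩
    · rw [MvPolynomial.coe_mul]
      have e : g * h - (PsA_tr N g : MvPowerSeries (Fin n) K) *
          (PsA_tr N h : MvPowerSeries (Fin n) K) =
          h * (g - (PsA_tr N g : MvPowerSeries (Fin n) K)) +
          (PsA_tr N g : MvPowerSeries (Fin n) K) *
            (h - (PsA_tr N h : MvPowerSeries (Fin n) K)) := by ring
      rw [e]
      exact (mI n K N).add_mem (Ideal.mul_mem_left _ _ (PsA_sub_tr N g))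
        (Ideal.mul_mem_left _ _ (PsA_sub_tr N h))
    · rw [map_mul]
      have e : PsA_fun τ g * PsA_fun τ h - PsA_hom τ (PsA_tr N g) * PsA_hom τ (PsA_tr N h) =
          PsA_fun τ h * (PsA_fun τ g - PsA_hom τ (PsA_tr N g)) +
          PsA_hom τ (PsA_tr N g) * (PsA_fun τ h - PsA_hom τ (PsA_tr N h)) := by ring
      rw [e]
      exact (mI n K N).add_mem (Ideal.mul_mem_left _ _ (hT N g))
        (Ideal.mul_mem_left _ _ (hT N h))
  · refine key 0 0 fun N => ⟨0, ?_, ?_⟩
    · rw [MvPolynomial.coe_zero, sub_self]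
      exact (mI n K N).zero_mem
    · rw [map_zero, sub_self]
      exact (mI n K N).zero_mem
  · intro g h
    refine key _ _ fun N => ⟨PsA_tr N g + PsA_tr N h, ?_, ?_⟩
    · rw [MvPolynomial.coe_add, add_sub_add_comm]
      exact (mI n K N).add_mem (PsA_sub_tr N g) (PsA_sub_tr N h)
    · rw [map_add, add_sub_add_comm]
      exact (mI n K N).add_mem (hT N g) (hT N h)
  · intro j
    refine key _ _ fun N => ⟨MvPolynomial.X j, ?_, ?_⟩
    · rw [MvPolynomial.coe_X, sub_self]
      exact (mI n K N).zero_mem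
    · rw [PsA_hom, MvPolynomial.eval₂Hom_X', sub_self]
      exact (mI n K N).zero_mem
  · intro c
    refine key _ _ fun N => ⟨MvPolynomial.C c, ?_, ?_⟩
    · rw [MvPolynomial.coe_C, sub_self]
      exact (mI n K N).zero_mem
    · rw [PsA_hom, MvPolynomial.eval₂Hom_C, sub_self]
      exact (mI n K N).zero_mem
  · intro N g hg
    change PsA_fun τ g - g ∈ mI n K (N + 1)
    have h1 := hT (N + 1) g
    have h2 := PsA_sub_tr (N + 1) g
    have h3 : ((PsA_tr (N + 1) g : MvPolynomial (Fin n) K) : MvPowerSeries (Fin n) K) ∈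
        mI n K N := by
      have h4 := (mI n K N).sub_mem hg (mI_anti (Nat.le_succ N) h2)
      rwa [sub_sub_cancel] at h4
    have h5 := PsA_hom_sub_mem τ hτ h3
    have h6 := (mI n K (N + 1)).sub_mem ((mI n K (N + 1)).add_mem h1 h5) h2
    have e : PsA_fun τ g - PsA_hom τ (PsA_tr (N + 1) g) + (PsA_hom τ (PsA_tr (N + 1) g) -
        ((PsA_tr (N + 1) g : MvPolynomial (Fin n) K) : MvPowerSeries (Fin n) K)) -
        (g - ((PsA_tr (N + 1) g : MvPolynomial (Fin n) K) : MvPowerSeries (Fin n) K)) =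
        PsA_fun τ g - g := by ring
    rwa [e] at h6

/-- Proof. Injective: if `Ψ g = 0` and `g ∈ mI N` then `g ∈ mI (N+1)`; so `g = 0` (`eq_zero_of_forall_mem_mI`). Surjective: given `h` construct `g_0 = 0`, `g_(N+1) = g_N + (h - Ψ g_N)`: by induction `h - Ψ g_N ∈ mI N`; the sequence converges: `g β = coeff β (g_(|β|+1))`, `g - g_N ∈ mI N`, and `h - Ψ g ∈ mI N` for all `N`. -/
theorem exists_psi (τ : K →+* MvPowerSeries (Fin n) K) (hτ : ∀ c, constantCoeff (τ c) = c) :
    ∃ Ψ : MvPowerSeries (Fin n) K ≃+* MvPowerSeries (Fin n) K, (∀ j, Ψ (X j) = X j) ∧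
      ∀ c, Ψ (C c) = τ c := by
  obtain ⟨Ψ, hX, hC, hΨ⟩ := exists_psi_hom τ hτ
  have hmem : ∀ N g, g ∈ mI n K N → Ψ g ∈ mI n K N := by
    intro N g hg
    have h1 := (mI n K N).add_mem (mI_anti (Nat.le_succ N) (hΨ N g hg)) hg
    rwa [sub_add_cancel] at h1
  have hinj : Function.Injective Ψ := by
    rw [injective_iff_map_eq_zero]
    intro g hg
    refine eq_zero_of_forall_mem_mI fun N => ?_
    induction N with
    | zero => rw [mI_zero]; trivial
    | succ N ih =>
      have h1 := hΨ N g ih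
      rw [hg, zero_sub] at h1
      exact (Submodule.neg_mem_iff _).1 h1
  have hsurj : Function.Surjective Ψ := by
    intro h
    obtain ⟨G, hG0, hG⟩ : ∃ G : ℕ → MvPowerSeries (Fin n) K, G 0 = 0 ∧
        ∀ N, G (N + 1) = G N + (h - Ψ (G N)) :=
      ⟨fun N => Nat.rec 0 (fun _ x => x + (h - Ψ x)) N, rfl, fun _ => rfl⟩
    have hr : ∀ N, h - Ψ (G N) ∈ mI n K N := by
      intro N
      induction N with
      | zero => rw [mI_zero]; trivial
      | succ N ih =>
        have h1 := hΨ N _ ih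
        have e : h - Ψ (G (N + 1)) = -(Ψ (h - Ψ (G N)) - (h - Ψ (G N))) := by
          rw [hG, map_add]
          ring
        rw [e]
        exact (Submodule.neg_mem_iff _).2 h1
    have hstab : ∀ (β : Fin n →₀ ℕ) (N : ℕ), β.degree + 1 ≤ N →
        coeff β (G N) = coeff β (G (β.degree + 1)) := by
      intro β N hN
      induction N, hN using Nat.le_induction with
      | base => rfl
      | succ N hN ih =>
        rw [hG, map_add, hr N β (by omega), add_zero, ih]
    let g : MvPowerSeries (Fin n) K := fun β => coeff β (G (β.degree + 1))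
    have hg : ∀ N, g - G N ∈ mI n K N := by
      intro N β hβ
      rw [map_sub, hstab β N (by omega)]
      exact sub_self _
    refine ⟨g, ?_⟩
    refine (PsA_ext fun N => ?_).symm
    have h1 := (mI n K N).sub_mem (hr N) (hmem N _ (hg N))
    have e : h - Ψ (G N) - Ψ (g - G N) = h - Ψ g := by
      rw [map_sub]
      ring
    rwa [e] at h1
  exact ⟨RingEquiv.ofBijective Ψ ⟨hinj, hsurj⟩, fun j => hX j, fun c => hC c⟩

end B5a
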