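import Pool.Agent.H.MP_b5a980_ag.SSB

set_option autoImplicit false
set_option linter.unusedSectionVars false
set_option linter.style.longLine false

/-!
Maps of filtered complexes and abutments (MP_b5a980_ag).
-/

namespace B5a

universe u v w

variable {K : Type u} [Field K] {T : Type v} [AddCommGroup T] [Module K T] {T' : Type w}
  [AddCommGroup T'] [Module K T'] {X : FCx K T} {Y : FCx K T'} {φ : T →ₗ[K] T'}

theorem SSC_inj_aux {n : ℤ} (hX : X.Bounded n) (hY : Y.Bounded n) (h : FMap X Y φ)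
    (hi : EInj X Y φ 2) (hs : ESurj X Y φ 2) (m : ℤ) (k : ℕ) :
    ∀ (p : ℤ), p = n + 1 - k → ∀ x : T, x ∈ X.F p m → X.d x = 0 → φ x ∈ Y.Bd m → x ∈ X.Bd m := by
  induction k with
  | zero =>
    intro p hp x hx _ _
    have hb : X.F p m = ⊥ := hX.2 p m (by rw [hp]; push_cast; omega)
    rw [hb, Submodule.mem_bot] at hx
    rw [hx]
    exact Submodule.zero_mem _
  | succ k ih =>
    intro p hp x hx hd hφ
    obtain ⟨y', hy', hye⟩ := hφ
    obtain ⟨r, hr2, hrp⟩ : ∃ r : ℤ, 2 ≤ r ∧ p - r + 1 ≤ 0 :=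
      ⟨max 2 (p + 1), le_max_left _ _, by have := le_max_right (2 : ℤ) (p + 1); omega⟩
    have hyF : y' ∈ Y.F (p - r + 1) (m - 1) := by
      rw [hY.1 _ _ hrp]
      rw [← Y.Tot_eq hY (m - 1)]
      exact hy'
    have hφF : φ x ∈ Y.F p m := h.map p m x hx
    have hyZ : y' ∈ Y.Z (r - 1) (p - r + 1) (m - 1) := by
      refine ⟨hyF, ?_⟩
      show Y.d y' ∈ Y.F (p - r + 1 + (r - 1)) (m - 1 + 1)
      have e1 : p - r + 1 + (r - 1) = p := by ring
      have e2 : m - 1 + 1 = m := by ring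
      rw [e1, e2, hye]
      exact hφF
    have hB : φ x ∈ Y.B r p m := Submodule.mem_sup_right ⟨y', hyZ, hye⟩
    have hxZ : x ∈ X.Z r p m := by
      refine ⟨hx, ?_⟩
      show X.d x ∈ X.F (p + r) (m + 1)
      rw [hd]
      exact Submodule.zero_mem _
    have hxB := (e_all h hi hs r hr2).1 p m x hxZ hB
    obtain ⟨z, hz, dw, hdw, hsum⟩ := Submodule.mem_sup.mp hxB
    obtain ⟨w, hw, rfl⟩ := hdw
    have hdd : X.d (X.d w) = 0 := X.dd _ _ w hw.1
    have hdz : X.d z = 0 := by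
      have h1 := congrArg X.d hsum
      rw [map_add, hdd, add_zero, hd] at h1
      exact h1
    have hzF : z ∈ X.F (p + 1) m := hz.1
    have hwB : X.d w ∈ X.Bd m := ⟨w, X.mem_Tot_of_mem hw.1, rfl⟩
    have hφz : φ z ∈ Y.Bd m := by
      have h2 : φ z = Y.d y' - Y.d (φ w) := by
        rw [hye, ← hsum, map_add, h.comm _ _ w hw.1]
        abel
      rw [h2]
      exact Submodule.sub_mem _ ⟨y', hy', rfl⟩ ⟨φ w, Y.mem_Tot_of_mem (h.map _ _ w hw.1), rfl⟩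
    have hzB := ih (p + 1) (by rw [hp]; push_cast; ring) z hzF hdz hφz
    rw [← hsum]
    exact Submodule.add_mem _ hzB hwB

theorem SSC_surj_aux {n : ℤ} (hX : X.Bounded n) (hY : Y.Bounded n) (h : FMap X Y φ)
    (hi : EInj X Y φ 2) (hs : ESurj X Y φ 2) (m : ℤ) (k : ℕ) :
    ∀ (p : ℤ), n + 1 - k ≤ p → ∀ y : T', y ∈ Y.F p m → Y.d y = 0 →
      ∃ x ∈ X.F p m, X.d x = 0 ∧ φ x - y ∈ Y.Bd m := by
  induction k with
  | zero =>
    intro p hp y hy _
    have hb : Y.F p m = ⊥ := hY.2 p m (by push_cast at hp; omega)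
    rw [hb, Submodule.mem_bot] at hy
    refine ⟨0, Submodule.zero_mem _, map_zero _, ?_⟩
    rw [hy, map_zero, sub_zero]
    exact Submodule.zero_mem _
  | succ k ih =>
    intro p hp y hy hd
    obtain ⟨r, hr2, hrp, hrn⟩ : ∃ r : ℤ, 2 ≤ r ∧ p - r + 1 ≤ 0 ∧ n < p + r :=
      ⟨max 2 (max (p + 1) (n - p + 1)), le_max_left _ _, by
        have := le_max_right (2 : ℤ) (max (p + 1) (n - p + 1))
        have h2 := le_max_left (p + 1) (n - p + 1)
        omega, by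
        have := le_max_right (2 : ℤ) (max (p + 1) (n - p + 1))
        have h2 := le_max_right (p + 1) (n - p + 1)
        omega⟩
    have hyZ : y ∈ Y.Z r p m := by
      refine ⟨hy, ?_⟩
      show Y.d y ∈ Y.F (p + r) (m + 1)
      rw [hd]
      exact Submodule.zero_mem _
    obtain ⟨x, hxZ, hxB⟩ := (e_all h hi hs r hr2).2 p m y hyZ
    obtain ⟨z', hz', dw, hdw, hsum⟩ := Submodule.mem_sup.mp hxB
    obtain ⟨w', hw', rfl⟩ := hdw
    have hdx : X.d x = 0 := by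
      have h1 : X.d x ∈ X.F (p + r) (m + 1) := hxZ.2
      rw [hX.2 _ _ hrn, Submodule.mem_bot] at h1
      exact h1
    have hdd : Y.d (Y.d w') = 0 := Y.dd _ _ w' hw'.1
    have hdz : Y.d z' = 0 := by
      have h1 := congrArg Y.d hsum
      rw [map_add, hdd, add_zero, map_sub, ← h.comm _ _ x hxZ.1, hdx, map_zero, hd, sub_zero] at h1
      exact h1
    obtain ⟨x1, hx1, hdx1, hb1⟩ := ih (p + 1) (by push_cast at hp; omega) z' hz'.1 hdz
    refine ⟨x - x1, Submodule.sub_mem _ hxZ.1 (X.anti p m hx1), ?_, ?_⟩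
    · rw [map_sub, hdx, hdx1, sub_zero]
    · have h3 : φ (x - x1) - y = Y.d w' - (φ x1 - z') := by
        have h4 : φ x - y = z' + Y.d w' := hsum.symm
        rw [map_sub]
        have h5 : φ x - φ x1 - y = (φ x - y) - φ x1 := by abel
        rw [h5, h4]
        abel
      rw [h3]
      exact Submodule.sub_mem _ ⟨w', Y.mem_Tot_of_mem hw'.1, rfl⟩ hb1

/-- Proof. Descending induction on `p` (from `n + 1`, where `F = ⊥`) for `x ∈ X.F p m`; start of the application: `p = 0` (`Tot_eq`). Let `x ∈ F p m`, `d x = 0`, `φ x = d y'`, `y' ∈ Tot' = F'^0`. Take `r ≥ 2` with `p - r + 1 ≤ 0`: `y' ∈ Z'_(r-1)^(p-r+1)`, so `φ x ∈ B'_r^p`, so `x ∈ B_r^p` : `x = z + d w`, `z ∈ Z_(r-1)^(p+1)`, `d z = 0`, and `φ z = φ x - d (φ w)` is a boundary; `z` is a boundary by induction. -/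
theorem h_inj {n : ℤ} (hX : X.Bounded n) (hY : Y.Bounded n) (h : FMap X Y φ)
    (hi : EInj X Y φ 2) (hs : ESurj X Y φ 2) (m : ℤ) (x : T) (hx : x ∈ X.Cyc m)
    (hφ : φ x ∈ Y.Bd m) : x ∈ X.Bd m := by
  obtain ⟨hxT, hxk⟩ := hx
  have hd : X.d x = 0 := hxk
  rw [X.Tot_eq hX m] at hxT
  obtain ⟨k, p, hk, hp⟩ : ∃ (k : ℕ) (p : ℤ), p = n + 1 - k ∧ p ≤ 0 :=
    ⟨(n + 1).toNat, n + 1 - (n + 1).toNat, rfl, by have := Int.self_le_toNat (n + 1); omega⟩
  rw [← hX.1 p m hp] at hxT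
  exact SSC_inj_aux hX hY h hi hs m k p hk x hxT hd hφ

/-- Proof. Descending induction on `p`. For `p > n`: `y = 0`. Let `y ∈ F' p m`, `d y = 0`. Take `r ≥ 2` with `p + r > n` and `p - r + 1 ≤ 0`: `y ∈ Z'_r^p`, so `φ x - y = z' + d w'` with `x ∈ Z_r^p` (`d x ∈ F^(p+r) = ⊥`, so `d x = 0`), `z' ∈ F'^(p+1)`, `d z' = 0`. By induction `z' = φ x1 +` boundary, `x1 ∈ F^(p+1)`, `d x1 = 0`. Take `x - x1`. -/
theorem h_surj {n : ℤ} (hX : X.Bounded n) (hY : Y.Bounded n) (h : FMap X Y φ)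
    (hi : EInj X Y φ 2) (hs : ESurj X Y φ 2) (p m : ℤ) (y : T') (hy : y ∈ Y.F p m)
    (hd : Y.d y = 0) : ∃ x ∈ X.F p m, X.d x = 0 ∧ φ x - y ∈ Y.Bd m := by
  obtain ⟨k, hk⟩ : ∃ k : ℕ, n + 1 - k ≤ p :=
    ⟨(n + 1 - p).toNat, by have := Int.self_le_toNat (n + 1 - p); omega⟩
  exact SSC_surj_aux hX hY h hi hs m k p hk y hy hd

end B5a
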