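import Mathlib

set_option autoImplicit false
set_option linter.unusedSectionVars false
set_option linter.style.longLine false

/-!
MP_b5a980_ag: the definitions used in the statement of the main theorem, in terms of plain functions
and sets.
-/

namespace B5s

universe u v w

open MvPowerSeries

/-! ### Filtered complexes and their spectral sequences -/

/-- A filtered complex of `K`-vector spaces, given inside an additive group `T` by plain data: the
multiplication `sm` by scalars, the differential `d`, the set `N` of the elements which are regarded as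
zero, and, for integers `p` and `m`, the set `F p m` of the elements of total degree `m` in the `p`-th
step of the (decreasing) filtration. -/
structure Cx (K : Type u) (T : Type v) where
  sm : K → T → T
  d : T → T
  N : T → Prop
  F : ℤ → ℤ → T → Prop

/-- `Z_r` in filtration degree `p` and total degree `m`: `z` in `F^p` with `d z` in `F^(p+r)`. -/
def Cx.Z {K : Type u} {T : Type v} (X : Cx K T) (r p m : ℤ) (z : T) : Prop :=
  X.F p m z ∧ X.F (p + r) (m + 1) (X.d z)

/-- `B_r = Z_(r-1)^(p+1) + d Z_(r-1)^(p-r+1)`. The page is `E_r^(p,m-p) = Z_r / B_r`. -/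
def Cx.B {K : Type u} {T : Type v} [AddCommGroup T] (X : Cx K T) (r p m : ℤ) (z : T) : Prop :=
  ∃ a b, X.Z (r - 1) (p + 1) m a ∧ X.Z (r - 1) (p - r + 1) (m - 1) b ∧ z = a + X.d b

/-- The cocycles of total degree `m`. -/
def Cx.Cyc {K : Type u} {T : Type v} (X : Cx K T) (m : ℤ) (z : T) : Prop :=
  (∃ p, X.F p m z) ∧ X.N (X.d z)

/-- The coboundaries of total degree `m`. The abutment is `H^m = Cyc / Bd`. -/
def Cx.Bd {K : Type u} {T : Type v} [AddCommGroup T] (X : Cx K T) (m : ℤ) (z : T) : Prop :=
  ∃ p b, X.F p (m - 1) b ∧ X.N (z - X.d b)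

/-- The cocycles whose class lies in `F^p H^m`: those cohomologous to a cocycle in `F^p`. -/
def Cx.FH {K : Type u} {T : Type v} [AddCommGroup T] (X : Cx K T) (p m : ℤ) (z : T) : Prop :=
  ∃ a, X.F p m a ∧ X.N (X.d a) ∧ X.Bd m (z - a)

/-- `φ` induces an isomorphism of `K`-vector spaces from `S / R` to `S' / R'`, where `K` acts by `sm` and
`sm'`. -/
structure QI {K : Type u} {T : Type v} {T' : Type w} [AddCommGroup T] [AddCommGroup T']
    (sm : K → T → T) (sm' : K → T' → T') (S R : T → Prop) (S' R' : T' → Prop) (φ : T → T') :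
    Prop where
  map : ∀ z, S z → S' (φ z)
  add : ∀ z y, S z → S y → R' (φ (z + y) - (φ z + φ y))
  smul : ∀ c z, S z → R' (φ (sm c z) - sm' c (φ z))
  inj : ∀ z, S z → (R z ↔ R' (φ z))
  surj : ∀ y, S' y → ∃ z, S z ∧ R' (y - φ z)

/-- An isomorphism of the spectral sequences of two filtered complexes from `E_2` on, with their
abutments: `K`-linear isomorphisms `e` of all pages `E_r`, `r ≥ 2`, which commute with the differentials
`d_r` (`comm`) and such that the isomorphism of `E_(r+1)` is induced by the one of `E_r` (`turn`);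
isomorphisms `h` of the abutments respecting the filtrations, and compatible with the isomorphisms of
the pages `E_r` for large `r`, where `E_r` is the graded space of the abutment (`lim`). -/
structure SSI {K : Type u} {T : Type v} {T' : Type w} [AddCommGroup T] [AddCommGroup T']
    (X : Cx K T) (Y : Cx K T') where
  e : ℤ → ℤ → ℤ → T → T'
  iso : ∀ r p m : ℤ, 2 ≤ r →
    QI X.sm Y.sm (X.Z r p m) (X.B r p m) (Y.Z r p m) (Y.B r p m) (e r p m)
  comm : ∀ r p m : ℤ, 2 ≤ r → ∀ z, X.Z r p m z →
    Y.B r (p + r) (m + 1) (e r (p + r) (m + 1) (X.d z) - Y.d (e r p m z))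
  turn : ∀ r p m : ℤ, 2 ≤ r → ∀ z z', X.Z (r + 1) p m z → Y.Z (r + 1) p m z' →
    Y.B r p m (e r p m z - z') → Y.B (r + 1) p m (e (r + 1) p m z - z')
  h : ℤ → T → T'
  iso_h : ∀ m : ℤ, QI X.sm Y.sm (X.Cyc m) (X.Bd m) (Y.Cyc m) (Y.Bd m) (h m)
  fil_h : ∀ p m : ℤ, ∀ z, X.Cyc m z → (X.FH p m z ↔ Y.FH p m (h m z))
  lim : ∀ p m : ℤ, ∀ z z', X.F p m z → X.N (X.d z) → Y.F p m z' → Y.N (Y.d z') →
    Y.FH (p + 1) m (h m z - z') → ∃ r₀ : ℤ, ∀ r, 2 ≤ r → r₀ ≤ r → Y.B r p m (e r p m z - z')

/-! ### Derivatives and localisations in the fraction field of `K[[x_1..x_n]]` -/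

/-- The sign of moving `i` in front of the elements of `I` smaller than `i`. -/
def sgn {n : ℕ} (i : Fin n) (I : Finset (Fin n)) : ℤ := (-1) ^ (I.filter fun j => j < i).card

/-- The derivative `∂ / ∂x_i` on the fraction field of `K[[x_1..x_n]]`: `(∂a · b - a · ∂b) / b²` for the
representation `a / b` of `x` chosen by `IsLocalization.sec`. -/
noncomputable def fd {n : ℕ} {K : Type u} [Field K] (i : Fin n)
    (x : FractionRing (MvPowerSeries (Fin n) K)) : FractionRing (MvPowerSeries (Fin n) K) :=
  IsLocalization.mk' (FractionRing (MvPowerSeries (Fin n) K))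
    (pderiv K i (IsLocalization.sec (nonZeroDivisors (MvPowerSeries (Fin n) K)) x).1 *
        (IsLocalization.sec (nonZeroDivisors (MvPowerSeries (Fin n) K)) x).2 -
      (IsLocalization.sec (nonZeroDivisors (MvPowerSeries (Fin n) K)) x).1 *
        pderiv K i ((IsLocalization.sec (nonZeroDivisors (MvPowerSeries (Fin n) K)) x).2 :
          MvPowerSeries (Fin n) K))
    ((IsLocalization.sec (nonZeroDivisors (MvPowerSeries (Fin n) K)) x).2 *
      (IsLocalization.sec (nonZeroDivisors (MvPowerSeries (Fin n) K)) x).2)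

/-- `x` lies in `J R_g`, the extension of the ideal `J` of `R = K[[x_1..x_n]]` to the localisation
`R_g` (`g ≠ 0`), inside the fraction field: `g^k x ∈ J` for some `k`. For `J = ⊤`: `x ∈ R_g`. -/
def InL {n : ℕ} {K : Type u} [Field K] (J : Ideal (MvPowerSeries (Fin n) K))
    (g : MvPowerSeries (Fin n) K) (x : FractionRing (MvPowerSeries (Fin n) K)) : Prop :=
  ∃ k : ℕ, ∃ a ∈ J, algebraMap (MvPowerSeries (Fin n) K) (FractionRing (MvPowerSeries (Fin n) K))
    (g ^ k) * x = algebraMap (MvPowerSeries (Fin n) K) (FractionRing (MvPowerSeries (Fin n) K)) a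

/-- The inclusion of `K` in the fraction field. -/
noncomputable def cst {n : ℕ} {K : Type u} [Field K] (c : K) :
    FractionRing (MvPowerSeries (Fin n) K) :=
  algebraMap (MvPowerSeries (Fin n) K) (FractionRing (MvPowerSeries (Fin n) K)) (C c)

/-! ### The homology spectral sequence -/

/-- The filtered complex whose spectral sequence is the homology spectral sequence
`E_1^(p,q) = H^q_I(Ω^p)`, `I = (f_1..f_r)`. The elements are the families `φ I S`, the coefficient of
`dx_I` in the component `S` of a Cech cochain, an element of `R_(f_S)`, where `f_S` is the product of the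
`f_s`, `s ∈ S`. The differential is the de Rham differential plus `(-1)^|I|` times the Cech differential,
the total degree is `|I| + |S|`, the filtration is by the degree `|I|` of the forms. -/
noncomputable def homCx {n r : ℕ} {K : Type u} [Field K] (f : Fin r → MvPowerSeries (Fin n) K) :
    Cx K (Finset (Fin n) → Finset (Fin r) → FractionRing (MvPowerSeries (Fin n) K)) where
  sm c φ := fun I S => cst c * φ I S
  d φ := fun I S => ∑ i ∈ I, sgn i I • fd i (φ (I.erase i) S) +
    (-1 : ℤ) ^ I.card • ∑ s ∈ S, sgn s S • φ I (S.erase s)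
  N φ := ∀ I S, φ I S = 0
  F p m φ := ∀ I S, InL ⊤ (∏ s ∈ S, f s) (φ I S) ∧
    ((I.card : ℤ) + S.card ≠ m ∨ (I.card : ℤ) < p → φ I S = 0)

/-! ### The cohomology spectral sequence -/

/-- `c` is a sequence in `R_g` with `c_(s+1) - c_s ∈ J^s R_g`. The `J`-adic completion
`lim R_g / J^s R_g` of `R_g` is the space of these sequences modulo the null sequences. -/
def Coh {n : ℕ} {K : Type u} [Field K] (J : Ideal (MvPowerSeries (Fin n) K))
    (g : MvPowerSeries (Fin n) K) (c : ℕ → FractionRing (MvPowerSeries (Fin n) K)) : Prop :=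
  ∀ s, InL ⊤ g (c s) ∧ InL (J ^ s) g (c (s + 1) - c s)

/-- `c` is a null sequence: `c_s ∈ J^s R_g` for all `s`. -/
def Nul {n : ℕ} {K : Type u} [Field K] (J : Ideal (MvPowerSeries (Fin n) K))
    (g : MvPowerSeries (Fin n) K) (c : ℕ → FractionRing (MvPowerSeries (Fin n) K)) : Prop :=
  ∀ s, InL (J ^ s) g (c s)

/-- The filtered complex whose spectral sequence is the cohomology spectral sequence
`E_1^(p,q) = H^q_P(X^, Ω^p)`, `X^` the formal completion of `Spec K[[x_1..x_n]]` along `V(J)`, `P` the
closed point. The elements are the families `φ I S`, the coefficient of `dx_I` in the component `S` of a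
Cech cochain, an element of the `J`-adic completion of `R_(x_S)`, `x_S` the product of the `x_t`, `t ∈ S`,
represented by a sequence `φ I S s`. The derivatives shift the index of the sequences by one. -/
noncomputable def cohCx {n : ℕ} {K : Type u} [Field K] (J : Ideal (MvPowerSeries (Fin n) K)) :
    Cx K (Finset (Fin n) → Finset (Fin n) → ℕ → FractionRing (MvPowerSeries (Fin n) K)) where
  sm c φ := fun I S s => cst c * φ I S s
  d φ := fun I S s => ∑ i ∈ I, sgn i I • fd i (φ (I.erase i) S (s + 1)) +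
    (-1 : ℤ) ^ I.card • ∑ t ∈ S, sgn t S • φ I (S.erase t) s
  N φ := ∀ I S, Nul J (∏ t ∈ S, X t) (φ I S)
  F p m φ := ∀ I S, Coh J (∏ t ∈ S, X t) (φ I S) ∧
    ((I.card : ℤ) + S.card ≠ m ∨ (I.card : ℤ) < p → Nul J (∏ t ∈ S, X t) (φ I S))

/-! ### The numbers `rho` -/

/-- Cech cocycles of degree `q` with components in the `R_(f_S)`. -/
def CZ {n r : ℕ} {K : Type u} [Field K] (f : Fin r → MvPowerSeries (Fin n) K) (q : ℤ)
    (c : Finset (Fin r) → FractionRing (MvPowerSeries (Fin n) K)) : Prop :=
  (∀ S, InL ⊤ (∏ s ∈ S, f s) (c S) ∧ ((S.card : ℤ) ≠ q → c S = 0)) ∧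
    ∀ S, ∑ s ∈ S, sgn s S • c (S.erase s) = 0

/-- Cech coboundaries of degree `q`: `H^q_I(R)` is the quotient of the cocycles by them. -/
def CB {n r : ℕ} {K : Type u} [Field K] (f : Fin r → MvPowerSeries (Fin n) K) (q : ℤ)
    (c : Finset (Fin r) → FractionRing (MvPowerSeries (Fin n) K)) : Prop :=
  ∃ b : Finset (Fin r) → FractionRing (MvPowerSeries (Fin n) K),
    (∀ S, InL ⊤ (∏ s ∈ S, f s) (b S) ∧ ((S.card : ℤ) ≠ q - 1 → b S = 0)) ∧
      ∀ S, c S = ∑ s ∈ S, sgn s S • b (S.erase s)

/-- The de Rham differential on forms `Σ ω_I dx_I` whose coefficients are Cech cochains. -/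
noncomputable def dfm {n r : ℕ} {K : Type u} [Field K]
    (ω : Finset (Fin n) → Finset (Fin r) → FractionRing (MvPowerSeries (Fin n) K)) :
    Finset (Fin n) → Finset (Fin r) → FractionRing (MvPowerSeries (Fin n) K) :=
  fun I S => ∑ i ∈ I, sgn i I • fd i (ω (I.erase i) S)

/-- `ω` is a form of degree `p` with coefficients in `H^q_I(R)`, represented by cocycles. -/
def HF {n r : ℕ} {K : Type u} [Field K] (f : Fin r → MvPowerSeries (Fin n) K) (p q : ℤ)
    (ω : Finset (Fin n) → Finset (Fin r) → FractionRing (MvPowerSeries (Fin n) K)) : Prop :=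
  ∀ I, CZ f q (ω I) ∧ ((I.card : ℤ) ≠ p → CB f q (ω I))

/-- Closed forms of degree `p` with coefficients in `H^q_I(R)`. -/
def HZ {n r : ℕ} {K : Type u} [Field K] (f : Fin r → MvPowerSeries (Fin n) K) (p q : ℤ)
    (ω : Finset (Fin n) → Finset (Fin r) → FractionRing (MvPowerSeries (Fin n) K)) : Prop :=
  HF f p q ω ∧ ∀ I, CB f q (dfm ω I)

/-- Exact forms of degree `p` with coefficients in `H^q_I(R)`: `H^p_dR(H^q_I(R)) = HZ / HB`. -/
def HB {n r : ℕ} {K : Type u} [Field K] (f : Fin r → MvPowerSeries (Fin n) K) (p q : ℤ)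
    (ω : Finset (Fin n) → Finset (Fin r) → FractionRing (MvPowerSeries (Fin n) K)) : Prop :=
  ∃ η, HF f (p - 1) q η ∧ ∀ I, CB f q (ω I - dfm η I)

/-- `rho_(p,q)`: the dimension of `H^(n-p)_dR(H^(n-q)_I(R))`, that is the smallest size of a family of
closed forms whose classes span it (`0` if there is no finite one). -/
noncomputable def rho {n r : ℕ} {K : Type u} [Field K] (f : Fin r → MvPowerSeries (Fin n) K)
    (p q : ℤ) : ℕ :=
  sInf {k : ℕ | ∃ v : Fin k → Finset (Fin n) → Finset (Fin r) →
      FractionRing (MvPowerSeries (Fin n) K),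
    (∀ j, HZ f ((n : ℤ) - p) ((n : ℤ) - q) (v j)) ∧
      ∀ ω, HZ f ((n : ℤ) - p) ((n : ℤ) - q) ω → ∃ c : Fin k → K,
        HB f ((n : ℤ) - p) ((n : ℤ) - q) fun I S => ω I S - ∑ j, cst (c j) * v j I S}

end B5s
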