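import Pool.Agent.H.MP_b5a980_ag.SSA
import Pool.Agent.H.MP_b5a980_ag.Sx0

set_option autoImplicit false
set_option linter.unusedSectionVars false
set_option linter.style.longLine false

/-!
MP_b5a980_ag: comparison of the plain definitions of the file Sx0 with filtered complexes.
-/

namespace B5s

universe u v w v' w'

open B5a

section

variable {K : Type u} {T : Type v} [AddCommGroup T] {V : Type w} [Field K] [AddCommGroup V] [Module K V]

/-- `θ` identifies `S / R` with `V`. -/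
structure Pres (sm : K → T → T) (S R : T → Prop) (θ : T → V) : Prop where
  add_mem : ∀ z w, S z → S w → S (z + w)
  neg_mem : ∀ z, S z → S (-z)
  sm_mem : ∀ c z, S z → S (sm c z)
  map_add : ∀ z w, S z → S w → θ (z + w) = θ z + θ w
  map_neg : ∀ z, S z → θ (-z) = - θ z
  map_smul : ∀ c z, S z → θ (sm c z) = c • θ z
  ker : ∀ z, S z → (R z ↔ θ z = 0)
  surj : ∀ v, ∃ z, S z ∧ θ z = v

namespace Pres

variable {sm : K → T → T} {S R : T → Prop} {θ : T → V} (h : Pres sm S R θ)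

include h

theorem sub_mem {z w : T} (hz : S z) (hw : S w) : S (z - w) := by
  rw [sub_eq_add_neg]
  exact h.add_mem _ _ hz (h.neg_mem _ hw)

theorem map_sub {z w : T} (hz : S z) (hw : S w) : θ (z - w) = θ z - θ w := by
  rw [sub_eq_add_neg, h.map_add _ _ hz (h.neg_mem _ hw), h.map_neg _ hw, sub_eq_add_neg]

theorem rel_iff {z w : T} (hz : S z) (hw : S w) : R (z - w) ↔ θ z = θ w := by
  rw [h.ker _ (h.sub_mem hz hw), h.map_sub hz hw, sub_eq_zero]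

end Pres

variable {T' : Type v'} [AddCommGroup T'] {V' : Type w'} [AddCommGroup V'] [Module K V']

/-- The map on representatives defined by a linear isomorphism. -/
noncomputable def lft {sm' : K → T' → T'} {S' R' : T' → Prop} {θ' : T' → V'}
    (h' : Pres sm' S' R' θ') (e : V ≃ₗ[K] V') (θ : T → V) (z : T) : T' :=
  (h'.surj (e (θ z))).choose

theorem lft_mem {sm' : K → T' → T'} {S' R' : T' → Prop} {θ' : T' → V'}
    (h' : Pres sm' S' R' θ') (e : V ≃ₗ[K] V') (θ : T → V) (z : T) : S' (lft h' e θ z) :=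
  (h'.surj (e (θ z))).choose_spec.1

theorem lft_map {sm' : K → T' → T'} {S' R' : T' → Prop} {θ' : T' → V'}
    (h' : Pres sm' S' R' θ') (e : V ≃ₗ[K] V') (θ : T → V) (z : T) : θ' (lft h' e θ z) = e (θ z) :=
  (h'.surj (e (θ z))).choose_spec.2

theorem qi_of_pres {sm : K → T → T} {S R : T → Prop} {θ : T → V} (h : Pres sm S R θ)
    {sm' : K → T' → T'} {S' R' : T' → Prop} {θ' : T' → V'}
    (h' : Pres sm' S' R' θ') (e : V ≃ₗ[K] V') : QI sm sm' S R S' R' (lft h' e θ) where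
  map z _ := lft_mem h' e θ z
  add z w hz hw := by
    rw [h'.rel_iff (lft_mem h' e θ _) (h'.add_mem _ _ (lft_mem h' e θ z) (lft_mem h' e θ w)),
      h'.map_add _ _ (lft_mem h' e θ z) (lft_mem h' e θ w), lft_map h' e θ, lft_map h' e θ, lft_map h' e θ,
      h.map_add _ _ hz hw, map_add]
  smul c z hz := by
    rw [h'.rel_iff (lft_mem h' e θ _) (h'.sm_mem _ _ (lft_mem h' e θ z)),
      h'.map_smul _ _ (lft_mem h' e θ z), lft_map h' e θ, lft_map h' e θ, h.map_smul _ _ hz, map_smul]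
  inj z hz := by
    rw [h.ker _ hz, h'.ker _ (lft_mem h' e θ z), lft_map h' e θ, LinearEquiv.map_eq_zero_iff]
  surj y hy := by
    obtain ⟨z, hz, hzy⟩ := h.surj (e.symm (θ' y))
    refine ⟨z, hz, ?_⟩
    rw [h'.rel_iff hy (lft_mem h' e θ z), lft_map h' e θ, hzy, LinearEquiv.apply_symm_apply]

end

section

variable {K : Type u} [Field K] {T : Type v} [AddCommGroup T] {V : Type w} [AddCommGroup V]
  [Module K V]

/-- The plain complex `X` describes the filtered complex `Y` through the map `θ`, defined on the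
elements satisfying `G`. -/
structure Mdl (X : Cx K T) (Y : FCx K V) (G : T → Prop) (θ : T → V) : Prop where
  gadd : ∀ z w, G z → G w → G (z + w)
  gneg : ∀ z, G z → G (-z)
  gsm : ∀ c z, G z → G (X.sm c z)
  gd : ∀ z, G z → G (X.d z)
  add : ∀ z w, G z → G w → θ (z + w) = θ z + θ w
  neg : ∀ z, G z → θ (-z) = - θ z
  smul : ∀ c z, G z → θ (X.sm c z) = c • θ z
  hd : ∀ z, G z → θ (X.d z) = Y.d (θ z)
  hF : ∀ p m z, X.F p m z ↔ G z ∧ θ z ∈ Y.F p m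
  hN : ∀ z, X.N z ↔ G z ∧ θ z = 0
  surj : ∀ v, ∃ z, G z ∧ θ z = v

namespace Mdl

variable {X : Cx K T} {Y : FCx K V} {G : T → Prop} {θ : T → V} (h : Mdl X Y G θ)

include h

theorem gsub {z w : T} (hz : G z) (hw : G w) : G (z - w) := by
  rw [sub_eq_add_neg]
  exact h.gadd _ _ hz (h.gneg _ hw)

theorem sub {z w : T} (hz : G z) (hw : G w) : θ (z - w) = θ z - θ w := by
  rw [sub_eq_add_neg, h.add _ _ hz (h.gneg _ hw), h.neg _ hw, sub_eq_add_neg]

theorem Z_iff {r p m : ℤ} {z : T} : X.Z r p m z ↔ G z ∧ θ z ∈ Y.Z r p m := by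
  constructor
  · rintro ⟨h1, h2⟩
    have h1' := (h.hF _ _ _).1 h1
    have h2' := (h.hF _ _ _).1 h2
    rw [h.hd _ h1'.1] at h2'
    exact ⟨h1'.1, h1'.2, h2'.2⟩
  · rintro ⟨hg, h1, h2⟩
    refine ⟨(h.hF _ _ _).2 ⟨hg, h1⟩, (h.hF _ _ _).2 ⟨h.gd _ hg, ?_⟩⟩
    rw [h.hd _ hg]
    exact h2

theorem B_iff {r p m : ℤ} {z : T} : X.B r p m z ↔ G z ∧ θ z ∈ Y.B r p m := by
  constructor
  · rintro ⟨a, b, ha, hb, rfl⟩
    have ha' := h.Z_iff.1 ha
    have hb' := h.Z_iff.1 hb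
    refine ⟨h.gadd _ _ ha'.1 (h.gd _ hb'.1), ?_⟩
    rw [h.add _ _ ha'.1 (h.gd _ hb'.1), h.hd _ hb'.1]
    exact Submodule.add_mem_sup ha'.2 ⟨_, hb'.2, rfl⟩
  · rintro ⟨hg, hB⟩
    obtain ⟨a', ha', c', ⟨b', hb', rfl⟩, hab⟩ := Submodule.mem_sup.mp hB
    obtain ⟨b, hb, rfl⟩ := h.surj b'
    refine ⟨z - X.d b, b, h.Z_iff.2 ⟨h.gsub hg (h.gd _ hb), ?_⟩, h.Z_iff.2 ⟨hb, hb'⟩, by abel⟩
    rw [h.sub hg (h.gd _ hb), h.hd _ hb, ← hab, add_sub_cancel_right]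
    exact ha'

theorem Tot_iff {m : ℤ} {z : T} : (∃ p, X.F p m z) ↔ G z ∧ θ z ∈ Y.Tot m := by
  have hdir : Directed (· ≤ ·) fun p => Y.F p m := by
    intro a b
    exact ⟨min a b, Y.F_le (min_le_left a b) m, Y.F_le (min_le_right a b) m⟩
  have h1 : θ z ∈ Y.Tot m ↔ ∃ p, θ z ∈ Y.F p m := Submodule.mem_iSup_of_directed _ hdir
  rw [h1]
  constructor
  · rintro ⟨p, hp⟩
    exact ⟨((h.hF _ _ _).1 hp).1, p, ((h.hF _ _ _).1 hp).2⟩
  · rintro ⟨hg, p, hp⟩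
    exact ⟨p, (h.hF _ _ _).2 ⟨hg, hp⟩⟩

theorem Cyc_iff {m : ℤ} {z : T} : X.Cyc m z ↔ G z ∧ θ z ∈ Y.Cyc m := by
  unfold Cx.Cyc
  rw [h.Tot_iff]
  constructor
  · rintro ⟨⟨hg, ht⟩, hn⟩
    refine ⟨hg, ht, ?_⟩
    have h1 := ((h.hN _).1 hn).2
    rw [h.hd _ hg] at h1
    exact h1
  · rintro ⟨hg, ht, hk⟩
    refine ⟨⟨hg, ht⟩, (h.hN _).2 ⟨h.gd _ hg, ?_⟩⟩
    rw [h.hd _ hg]
    exact hk

theorem Bd_iff {m : ℤ} {z : T} : X.Bd m z ↔ G z ∧ θ z ∈ Y.Bd m := by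
  constructor
  · rintro ⟨p, b, hb, hn⟩
    have hb' := (h.Tot_iff (m := m - 1)).1 ⟨p, hb⟩
    have hn' := (h.hN _).1 hn
    have hg : G z := by
      have := h.gadd _ _ hn'.1 (h.gd _ hb'.1)
      rwa [sub_add_cancel] at this
    refine ⟨hg, θ b, hb'.2, ?_⟩
    have h1 := hn'.2
    rw [h.sub hg (h.gd _ hb'.1), h.hd _ hb'.1, sub_eq_zero] at h1
    exact h1.symm
  · rintro ⟨hg, b', hb', hz⟩
    obtain ⟨b, hb, rfl⟩ := h.surj b'
    obtain ⟨p, hp⟩ := (h.Tot_iff (m := m - 1)).2 ⟨hb, hb'⟩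
    refine ⟨p, b, hp, (h.hN _).2 ⟨h.gsub hg (h.gd _ hb), ?_⟩⟩
    rw [h.sub hg (h.gd _ hb), h.hd _ hb, hz, sub_self]

theorem FH_iff {p m : ℤ} {z : T} (hz : G z) (hz' : θ z ∈ Y.Cyc m) :
    X.FH p m z ↔ Y.hcls m (θ z) hz' ∈ Y.FH p m := by
  constructor
  · rintro ⟨a, ha, hda, hza⟩
    have ha' := (h.hF _ _ _).1 ha
    have hda' := ((h.hN _).1 hda).2
    rw [h.hd _ ha'.1] at hda'
    have hza' := (h.Bd_iff.1 hza).2
    rw [h.sub hz ha'.1] at hza'
    have hc : θ a ∈ Y.Cyc m := ⟨Y.mem_Tot_of_mem ha'.2, hda'⟩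
    refine ⟨⟨θ a, hc⟩, ⟨ha'.2, hda'⟩, ?_⟩
    exact ((Y.hcls_eq_iff hz' hc).2 hza').symm
  · rintro ⟨⟨a', hc⟩, ⟨ha', hda'⟩, haz⟩
    obtain ⟨a, ha, rfl⟩ := h.surj a'
    refine ⟨a, (h.hF _ _ _).2 ⟨ha, ha'⟩, (h.hN _).2 ⟨h.gd _ ha, ?_⟩, h.Bd_iff.2 ⟨h.gsub hz ha, ?_⟩⟩
    · rw [h.hd _ ha]
      exact hda'
    · rw [h.sub hz ha]
      exact (Y.hcls_eq_iff hz' hc).1 haz.symm

open Classical in
/-- The class in the page. -/
noncomputable def thE {X : Cx K T} {Y : FCx K V} {G : T → Prop} {θ : T → V} (_h : Mdl X Y G θ)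
    (r p m : ℤ) (z : T) : Y.E r p m :=
  if hz : θ z ∈ Y.Z r p m then Y.cls r p m (θ z) hz else 0

omit h in
theorem thE_eq (h : Mdl X Y G θ) {r p m : ℤ} {z : T} (hz : θ z ∈ Y.Z r p m) :
    h.thE r p m z = Y.cls r p m (θ z) hz := dif_pos hz

open Classical in
/-- The class in the abutment. -/
noncomputable def thH {X : Cx K T} {Y : FCx K V} {G : T → Prop} {θ : T → V} (_h : Mdl X Y G θ)
    (m : ℤ) (z : T) : Y.H m :=
  if hz : θ z ∈ Y.Cyc m then Y.hcls m (θ z) hz else 0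

omit h in
theorem thH_eq (h : Mdl X Y G θ) {m : ℤ} {z : T} (hz : θ z ∈ Y.Cyc m) :
    h.thH m z = Y.hcls m (θ z) hz := dif_pos hz

/-- The pages. -/
theorem presE (r p m : ℤ) : Pres X.sm (X.Z r p m) (X.B r p m) (h.thE r p m) where
  add_mem z w hz hw := by
    have hz' := h.Z_iff.1 hz
    have hw' := h.Z_iff.1 hw
    refine h.Z_iff.2 ⟨h.gadd _ _ hz'.1 hw'.1, ?_⟩
    rw [h.add _ _ hz'.1 hw'.1]
    exact Submodule.add_mem _ hz'.2 hw'.2
  neg_mem z hz := by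
    have hz' := h.Z_iff.1 hz
    refine h.Z_iff.2 ⟨h.gneg _ hz'.1, ?_⟩
    rw [h.neg _ hz'.1]
    exact Submodule.neg_mem _ hz'.2
  sm_mem c z hz := by
    have hz' := h.Z_iff.1 hz
    refine h.Z_iff.2 ⟨h.gsm _ _ hz'.1, ?_⟩
    rw [h.smul _ _ hz'.1]
    exact Submodule.smul_mem _ _ hz'.2
  map_add z w hz hw := by
    have hz' := h.Z_iff.1 hz
    have hw' := h.Z_iff.1 hw
    have h1 := h.add _ _ hz'.1 hw'.1
    have h2 : θ (z + w) ∈ Y.Z r p m := by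
      rw [h1]
      exact Submodule.add_mem _ hz'.2 hw'.2
    rw [h.thE_eq h2, h.thE_eq hz'.2, h.thE_eq hw'.2]
    unfold FCx.cls
    rw [← Submodule.Quotient.mk_add]
    exact congrArg _ (Subtype.ext h1)
  map_neg z hz := by
    have hz' := h.Z_iff.1 hz
    have h1 := h.neg _ hz'.1
    have h2 : θ (-z) ∈ Y.Z r p m := by
      rw [h1]
      exact Submodule.neg_mem _ hz'.2
    rw [h.thE_eq h2, h.thE_eq hz'.2]
    unfold FCx.cls
    rw [← Submodule.Quotient.mk_neg]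
    exact congrArg _ (Subtype.ext h1)
  map_smul c z hz := by
    have hz' := h.Z_iff.1 hz
    have h1 := h.smul c _ hz'.1
    have h2 : θ (X.sm c z) ∈ Y.Z r p m := by
      rw [h1]
      exact Submodule.smul_mem _ _ hz'.2
    rw [h.thE_eq h2, h.thE_eq hz'.2]
    unfold FCx.cls
    rw [← Submodule.Quotient.mk_smul]
    exact congrArg _ (Subtype.ext h1)
  ker z hz := by
    have hz' := h.Z_iff.1 hz
    rw [h.B_iff, h.thE_eq hz'.2]
    unfold FCx.cls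
    rw [Submodule.Quotient.mk_eq_zero]
    exact ⟨fun h1 => h1.2, fun h1 => ⟨hz'.1, h1⟩⟩
  surj v := by
    obtain ⟨y, hy, rfl⟩ := Y.exists_cls v
    obtain ⟨z, hz, rfl⟩ := h.surj y
    exact ⟨z, h.Z_iff.2 ⟨hz, hy⟩, h.thE_eq hy⟩

/-- The abutment. -/
theorem presH (m : ℤ) : Pres X.sm (X.Cyc m) (X.Bd m) (h.thH m) where
  add_mem z w hz hw := by
    have hz' := h.Cyc_iff.1 hz
    have hw' := h.Cyc_iff.1 hw
    refine h.Cyc_iff.2 ⟨h.gadd _ _ hz'.1 hw'.1, ?_⟩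
    rw [h.add _ _ hz'.1 hw'.1]
    exact Submodule.add_mem _ hz'.2 hw'.2
  neg_mem z hz := by
    have hz' := h.Cyc_iff.1 hz
    refine h.Cyc_iff.2 ⟨h.gneg _ hz'.1, ?_⟩
    rw [h.neg _ hz'.1]
    exact Submodule.neg_mem _ hz'.2
  sm_mem c z hz := by
    have hz' := h.Cyc_iff.1 hz
    refine h.Cyc_iff.2 ⟨h.gsm _ _ hz'.1, ?_⟩
    rw [h.smul _ _ hz'.1]
    exact Submodule.smul_mem _ _ hz'.2
  map_add z w hz hw := by
    have hz' := h.Cyc_iff.1 hz
    have hw' := h.Cyc_iff.1 hw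
    have h1 := h.add _ _ hz'.1 hw'.1
    have h2 : θ (z + w) ∈ Y.Cyc m := by
      rw [h1]
      exact Submodule.add_mem _ hz'.2 hw'.2
    rw [h.thH_eq h2, h.thH_eq hz'.2, h.thH_eq hw'.2]
    unfold FCx.hcls
    rw [← Submodule.Quotient.mk_add]
    exact congrArg _ (Subtype.ext h1)
  map_neg z hz := by
    have hz' := h.Cyc_iff.1 hz
    have h1 := h.neg _ hz'.1
    have h2 : θ (-z) ∈ Y.Cyc m := by
      rw [h1]
      exact Submodule.neg_mem _ hz'.2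
    rw [h.thH_eq h2, h.thH_eq hz'.2]
    unfold FCx.hcls
    rw [← Submodule.Quotient.mk_neg]
    exact congrArg _ (Subtype.ext h1)
  map_smul c z hz := by
    have hz' := h.Cyc_iff.1 hz
    have h1 := h.smul c _ hz'.1
    have h2 : θ (X.sm c z) ∈ Y.Cyc m := by
      rw [h1]
      exact Submodule.smul_mem _ _ hz'.2
    rw [h.thH_eq h2, h.thH_eq hz'.2]
    unfold FCx.hcls
    rw [← Submodule.Quotient.mk_smul]
    exact congrArg _ (Subtype.ext h1)
  ker z hz := by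
    have hz' := h.Cyc_iff.1 hz
    rw [h.Bd_iff, h.thH_eq hz'.2]
    unfold FCx.hcls
    rw [Submodule.Quotient.mk_eq_zero]
    exact ⟨fun h1 => h1.2, fun h1 => ⟨hz'.1, h1⟩⟩
  surj v := by
    obtain ⟨⟨y, hy⟩, rfl⟩ := Submodule.Quotient.mk_surjective _ v
    obtain ⟨z, hz, rfl⟩ := h.surj y
    exact ⟨z, h.Cyc_iff.2 ⟨hz, hy⟩, h.thH_eq hy⟩

end Mdl

variable {T' : Type v'} [AddCommGroup T'] {V' : Type w'} [AddCommGroup V'] [Module K V']

/-- An isomorphism of spectral sequences of filtered complexes gives one of the plain complexes which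
describe them. -/
theorem ssi_of_mdl {X : Cx K T} {Y : FCx K V} {G : T → Prop} {θ : T → V} (h : Mdl X Y G θ)
    {X' : Cx K T'} {Y' : FCx K V'} {G' : T' → Prop} {θ' : T' → V'} (h' : Mdl X' Y' G' θ')
    (s : SSIso Y Y') : Nonempty (SSI X X') := by
  classical
  refine ⟨{ e := fun r p m => if hr : 2 ≤ r then lft (h'.presE r p m) (s.e r hr p m) (h.thE r p m)
              else fun _ => 0
            iso := ?_, comm := ?_, turn := ?_,
            h := fun m => lft (h'.presH m) (s.h m) (h.thH m), iso_h := ?_, fil_h := ?_, lim := ?_ }⟩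
  · intro r p m hr
    rw [dif_pos hr]
    exact qi_of_pres (h.presE r p m) (h'.presE r p m) (s.e r hr p m)
  · intro r p m hr z hz
    rw [dif_pos hr, dif_pos hr]
    have hz' := h.Z_iff.1 hz
    have m1 := lft_mem (h'.presE r p m) (s.e r hr p m) (h.thE r p m) z
    have m2 := lft_mem (h'.presE r (p + r) (m + 1)) (s.e r hr (p + r) (m + 1))
      (h.thE r (p + r) (m + 1)) (X.d z)
    have e1 := lft_map (h'.presE r p m) (s.e r hr p m) (h.thE r p m) z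
    have e2 := lft_map (h'.presE r (p + r) (m + 1)) (s.e r hr (p + r) (m + 1))
      (h.thE r (p + r) (m + 1)) (X.d z)
    generalize lft (h'.presE r p m) (s.e r hr p m) (h.thE r p m) z = y at m1 e1 ⊢
    generalize lft (h'.presE r (p + r) (m + 1)) (s.e r hr (p + r) (m + 1))
      (h.thE r (p + r) (m + 1)) (X.d z) = y2 at m2 e2 ⊢
    have m1' := h'.Z_iff.1 m1
    have m3 : X'.Z r (p + r) (m + 1) (X'.d y) := by
      refine h'.Z_iff.2 ⟨h'.gd _ m1'.1, ?_⟩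
      rw [h'.hd _ m1'.1]
      exact Y'.d_mem_Z m1'.2
    rw [(h'.presE r (p + r) (m + 1)).rel_iff m2 m3, e2]
    have k1 : θ (X.d z) ∈ Y.Z r (p + r) (m + 1) := by
      rw [h.hd _ hz'.1]
      exact Y.d_mem_Z hz'.2
    have k2 : θ' (X'.d y) ∈ Y'.Z r (p + r) (m + 1) := by
      rw [h'.hd _ m1'.1]
      exact Y'.d_mem_Z m1'.2
    rw [h.thE_eq k1, h'.thE_eq k2]
    rw [h.thE_eq hz'.2, h'.thE_eq m1'.2] at e1
    have c1 := s.comm r hr p m (Y.cls r p m (θ z) hz'.2)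
    rw [Y.dE_cls hz'.2, ← e1, Y'.dE_cls m1'.2] at c1
    have a1 : Y.cls r (p + r) (m + 1) (θ (X.d z)) k1 =
        Y.cls r (p + r) (m + 1) (Y.d (θ z)) (Y.d_mem_Z hz'.2) := by
      unfold FCx.cls
      exact congrArg _ (Subtype.ext (h.hd _ hz'.1))
    have a2 : Y'.cls r (p + r) (m + 1) (θ' (X'.d y)) k2 =
        Y'.cls r (p + r) (m + 1) (Y'.d (θ' y)) (Y'.d_mem_Z m1'.2) := by
      unfold FCx.cls
      exact congrArg _ (Subtype.ext (h'.hd _ m1'.1))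
    rw [a1, a2]
    exact c1
  · intro r p m hr z z' hz hz' hB
    have hr1 : 2 ≤ r + 1 := by omega
    rw [dif_pos hr] at hB
    rw [dif_pos hr1]
    have hz1 := h.Z_iff.1 hz
    have hz1' := h'.Z_iff.1 hz'
    have hz2 := Y.Z_anti r p m hz1.2
    have hz2' := Y'.Z_anti r p m hz1'.2
    have m1 := lft_mem (h'.presE r p m) (s.e r hr p m) (h.thE r p m) z
    have e1 := lft_map (h'.presE r p m) (s.e r hr p m) (h.thE r p m) z
    generalize lft (h'.presE r p m) (s.e r hr p m) (h.thE r p m) z = y at m1 e1 hB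
    have m2 := lft_mem (h'.presE (r + 1) p m) (s.e (r + 1) hr1 p m) (h.thE (r + 1) p m) z
    have e2 := lft_map (h'.presE (r + 1) p m) (s.e (r + 1) hr1 p m) (h.thE (r + 1) p m) z
    generalize lft (h'.presE (r + 1) p m) (s.e (r + 1) hr1 p m) (h.thE (r + 1) p m) z = y2 at m2 e2 ⊢
    rw [(h'.presE r p m).rel_iff m1 (h'.Z_iff.2 ⟨hz1'.1, hz2'⟩), e1, h.thE_eq hz2,
      h'.thE_eq hz2'] at hB
    rw [(h'.presE (r + 1) p m).rel_iff m2 hz', e2, h.thE_eq hz1.2, h'.thE_eq hz1'.2]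
    exact s.turn r hr hr1 p m (θ z) hz2 hz1.2 (θ' z') hz2' hz1'.2 hB
  · intro m
    exact qi_of_pres (h.presH m) (h'.presH m) (s.h m)
  · intro p m z hz
    have hz' := h.Cyc_iff.1 hz
    have m1 := lft_mem (h'.presH m) (s.h m) (h.thH m) z
    have e1 := lft_map (h'.presH m) (s.h m) (h.thH m) z
    generalize lft (h'.presH m) (s.h m) (h.thH m) z = y at m1 e1 ⊢
    have m1' := h'.Cyc_iff.1 m1
    rw [h.thH_eq hz'.2, h'.thH_eq m1'.2] at e1
    rw [h.FH_iff hz'.1 hz'.2, h'.FH_iff m1'.1 m1'.2, e1, ← s.hF p m]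
    exact (Submodule.mem_map_equiv (e := s.h m) (p := Y.FH p m)
      (x := s.h m (Y.hcls m (θ z) hz'.2))).trans (by rw [LinearEquiv.symm_apply_apply]) |>.symm
  · intro p m z z' hz hdz hz' hdz' hF
    have a1 := (h.hF _ _ _).1 hz
    have a2 := (h'.hF _ _ _).1 hz'
    have hc : X.Cyc m z := ⟨⟨p, hz⟩, hdz⟩
    have hc' : X'.Cyc m z' := ⟨⟨p, hz'⟩, hdz'⟩
    have b1 := h.Cyc_iff.1 hc
    have b2 := h'.Cyc_iff.1 hc'
    have m1 := lft_mem (h'.presH m) (s.h m) (h.thH m) z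
    have e1 := lft_map (h'.presH m) (s.h m) (h.thH m) z
    generalize lft (h'.presH m) (s.h m) (h.thH m) z = y at m1 e1 hF
    have m1' := h'.Cyc_iff.1 m1
    have hs := (h'.presH m).sub_mem m1 hc'
    have hs' := h'.Cyc_iff.1 hs
    rw [h'.FH_iff hs'.1 hs'.2, ← h'.thH_eq hs'.2, (h'.presH m).map_sub m1 hc', e1,
      h.thH_eq b1.2, h'.thH_eq b2.2] at hF
    obtain ⟨r0, hr0⟩ := s.lim p m (θ z) b1.2 (θ' z') b2.2 a1.2 a2.2 hF
    refine ⟨r0, fun r hr hrr => ?_⟩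
    rw [dif_pos hr]
    have c1 : θ z ∈ Y.Z r p m := by
      refine ⟨a1.2, ?_⟩
      have hk : Y.d (θ z) = 0 := b1.2.2
      show Y.d (θ z) ∈ Y.F (p + r) (m + 1)
      rw [hk]
      exact Submodule.zero_mem _
    have c2 : θ' z' ∈ Y'.Z r p m := by
      refine ⟨a2.2, ?_⟩
      have hk : Y'.d (θ' z') = 0 := b2.2.2
      show Y'.d (θ' z') ∈ Y'.F (p + r) (m + 1)
      rw [hk]
      exact Submodule.zero_mem _
    rw [(h'.presE r p m).rel_iff (lft_mem _ _ _ _) (h'.Z_iff.2 ⟨a2.1, c2⟩),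
      lft_map (h'.presE r p m) (s.e r hr p m) (h.thE r p m), h.thE_eq c1,
      h'.thE_eq c2]
    exact hr0 r hr hrr c1 c2

end

end B5s
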