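import Pool.Agent.H.MP_b5a980_ag.CeA
import Pool.Agent.H.MP_b5a980_ag.Sx1

set_option autoImplicit false
set_option linter.unusedSectionVars false
set_option linter.style.longLine false

/-!
MP_b5a980_ag: the plain description of the complex of the homology spectral sequence.
-/

namespace B5s

universe u

open B5a MvPowerSeries

variable {n r : ℕ} {K : Type u} [Field K]

theorem fd_eq (i : Fin n) (x : FractionRing (MvPowerSeries (Fin n) K)) : fd i x = dF n K i x := by
  set a : MvPowerSeries (Fin n) K :=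
    (IsLocalization.sec (nonZeroDivisors (MvPowerSeries (Fin n) K)) x).1 with ha
  set b : nonZeroDivisors (MvPowerSeries (Fin n) K) :=
    (IsLocalization.sec (nonZeroDivisors (MvPowerSeries (Fin n) K)) x).2 with hb
  have h1 : x * inc n K (b : MvPowerSeries (Fin n) K) = inc n K a :=
    IsLocalization.sec_spec (nonZeroDivisors (MvPowerSeries (Fin n) K)) x
  have hb0 : inc n K (b : MvPowerSeries (Fin n) K) ≠ 0 :=
    inc_ne_zero (nonZeroDivisors.ne_zero b.2)
  have h2 : fd i x * inc n K ((b * b : nonZeroDivisors (MvPowerSeries (Fin n) K)) :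
      MvPowerSeries (Fin n) K) =
      inc n K (pderiv K i a * (b : MvPowerSeries (Fin n) K) - a * pderiv K i (b : MvPowerSeries (Fin n) K)) :=
    IsLocalization.mk'_spec (FractionRing (MvPowerSeries (Fin n) K)) _ (b * b)
  have h3 := congrArg (fun y => dF n K i y) h1
  simp only [Derivation.leibniz, dF_inc, smul_eq_mul] at h3
  rw [Submonoid.coe_mul, map_mul, map_sub, map_mul, map_mul, ← h3, ← h1] at h2
  apply mul_right_cancel₀ (mul_ne_zero hb0 hb0)
  rw [h2]
  ring

theorem InL_top {g : MvPowerSeries (Fin n) K} {x : FractionRing (MvPowerSeries (Fin n) K)} :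
    InL ⊤ g x ↔ x ∈ loc g := by
  constructor
  · rintro ⟨k, a, -, h⟩
    refine ⟨k, a, ?_⟩
    rw [← map_pow]
    exact h
  · rintro ⟨k, a, h⟩
    refine ⟨k, a, trivial, ?_⟩
    rw [map_pow]
    exact h

theorem cst_mul (c : K) (x : FractionRing (MvPowerSeries (Fin n) K)) : cst c * x = c • x := by
  rw [Algebra.smul_def]
  rfl

theorem dTot_apply (φ : Fm n (Fm r (FF n K))) (I : Finset (Fin n)) (S : Finset (Fin r)) :
    dTot n r K φ I S = ∑ i ∈ I, sg i I • dF n K i (φ (I.erase i) S) +
      ((-1 : ℤ) ^ I.card) • ∑ s ∈ S, sg s S • φ I (S.erase s) := by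
  have h1 : (∑ i ∈ I, sg i I • (cconn n r K).nab i (φ (I.erase i))) S =
      ∑ i ∈ I, sg i I • dF n K i (φ (I.erase i) S) := by
    rw [Finset.sum_apply]
    rfl
  rw [← h1]
  rfl

/-- The homology complex. -/
theorem mdl_hom (f : Fin r → MvPowerSeries (Fin n) K) :
    Mdl (homCx f) (homSS f) (fun _ => True) (fun φ => φ) where
  gadd _ _ _ _ := trivial
  gneg _ _ := trivial
  gsm _ _ _ := trivial
  gd _ _ := trivial
  add _ _ _ _ := rfl
  neg _ _ := rfl
  smul c φ _ := by
    funext I S
    exact cst_mul c (φ I S)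
  hd φ _ := by
    funext I S
    refine Eq.trans ?_ (dTot_apply φ I S).symm
    show ∑ i ∈ I, sgn i I • fd i (φ (I.erase i) S) +
      (-1 : ℤ) ^ I.card • ∑ s ∈ S, sgn s S • φ I (S.erase s) = _
    congr 1
    exact Finset.sum_congr rfl fun i _ => by rw [fd_eq]; rfl
  hF p m φ := by
    constructor
    · intro h
      exact ⟨trivial, fun I S => ⟨InL_top.1 (h I S).1, (h I S).2⟩⟩
    · rintro ⟨-, h⟩ I S
      exact ⟨InL_top.2 (h I S).1, (h I S).2⟩
  hN φ := by
    constructor
    · intro h
      exact ⟨trivial, funext fun I => funext fun S => h I S⟩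
    · rintro ⟨-, h⟩ I S
      exact congrFun (congrFun h I) S
  surj φ := ⟨φ, trivial, rfl⟩

theorem ssi_hom {f f' : Fin r → MvPowerSeries (Fin n) K} (h : Nonempty (SSIso (homSS f) (homSS f'))) :
    Nonempty (SSI (homCx f) (homCx f')) :=
  h.elim fun s => ssi_of_mdl (mdl_hom f) (mdl_hom f') s

end B5s
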