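import Pool.Agent.H.MP_b5a980_ag.KhA
import Pool.Agent.H.MP_b5a980_ag.Sx2

set_option autoImplicit false
set_option linter.unusedSectionVars false
set_option linter.style.longLine false

/-!
MP_b5a980_ag: the plain description of the completions of the localisations.
-/

namespace B5s

universe u

open B5a MvPowerSeries

variable {n : ℕ} {K : Type u} [Field K]

theorem InL_add {J : Ideal (MvPowerSeries (Fin n) K)} {g : MvPowerSeries (Fin n) K}
    {x y : FractionRing (MvPowerSeries (Fin n) K)} (hx : InL J g x) (hy : InL J g y) :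
    InL J g (x + y) := by
  obtain ⟨k, a, ha, hx⟩ := hx
  obtain ⟨l, b, hb, hy⟩ := hy
  refine ⟨k + l, g ^ l * a + g ^ k * b,
    Ideal.add_mem _ (Ideal.mul_mem_left _ _ ha) (Ideal.mul_mem_left _ _ hb), ?_⟩
  rw [map_add, map_mul, map_mul, ← hx, ← hy, pow_add, map_mul]
  ring

theorem InL_mono {J J' : Ideal (MvPowerSeries (Fin n) K)} (h : J ≤ J')
    {g : MvPowerSeries (Fin n) K} {x : FractionRing (MvPowerSeries (Fin n) K)} (hx : InL J g x) :
    InL J' g x := by
  obtain ⟨k, a, ha, hx⟩ := hx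
  exact ⟨k, a, h ha, hx⟩

theorem smul_top_iff {J : Ideal (MvPowerSeries (Fin n) K)} {g : MvPowerSeries (Fin n) K}
    (hg : g ≠ 0) (x : loc g) :
    x ∈ (J • ⊤ : Submodule (MvPowerSeries (Fin n) K) (loc g)) ↔ InL J g (x : FF n K) := by
  constructor
  · intro h
    refine Submodule.smul_induction_on h ?_ ?_
    · rintro a ha y -
      obtain ⟨k, b, hb⟩ := y.2
      refine ⟨k, a * b, Ideal.mul_mem_right _ _ ha, ?_⟩
      rw [Submodule.coe_smul, Algebra.smul_def, map_mul, ← hb, map_pow]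
      ring
    · intro x y hx hy
      rw [Submodule.coe_add]
      exact InL_add hx hy
  · rintro ⟨k, a, ha, h⟩
    have hg0 : inc n K g ≠ 0 := inc_ne_zero hg
    have hgk : inc n K g ^ k ≠ 0 := pow_ne_zero _ hg0
    have hy : (inc n K g ^ k)⁻¹ ∈ loc g := ⟨k, 1, by rw [mul_inv_cancel₀ hgk, map_one]⟩
    have hx : x = a • (⟨(inc n K g ^ k)⁻¹, hy⟩ : loc g) := by
      refine Subtype.ext ?_
      rw [Submodule.coe_smul, Algebra.smul_def, ← h, map_pow, mul_comm (inc n K g ^ k), mul_assoc,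
        mul_inv_cancel₀ hgk, mul_one]
    rw [hx]
    exact Submodule.smul_mem_smul ha trivial

/-- The sequence `c` represents the element `x` of the completion of `R_g`. -/
def Rep (J : Ideal (MvPowerSeries (Fin n) K)) (g : MvPowerSeries (Fin n) K)
    (c : ℕ → FractionRing (MvPowerSeries (Fin n) K)) (x : AdicCompletion J (loc g)) : Prop :=
  ∀ s, ∃ h : c s ∈ loc g, x.val s = Submodule.Quotient.mk ⟨c s, h⟩

variable {J : Ideal (MvPowerSeries (Fin n) K)} {g : MvPowerSeries (Fin n) K}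
  {c c' : ℕ → FractionRing (MvPowerSeries (Fin n) K)} {x x' : AdicCompletion J (loc g)}

theorem rep_coh (hg : g ≠ 0) (h : Rep J g c x) : Coh J g c := by
  intro s
  obtain ⟨h1, h2⟩ := h s
  obtain ⟨h3, h4⟩ := h (s + 1)
  refine ⟨InL_top.2 h1, ?_⟩
  have h5 := Ah0_val_le J x (Nat.le_succ s) h4
  rw [h2] at h5
  exact (smul_top_iff hg _).1 ((Submodule.Quotient.eq _).1 h5.symm)

theorem coh_rep (hg : g ≠ 0) (h : Coh J g c) : ∃ x : AdicCompletion J (loc g), Rep J g c x := by
  have hm : ∀ s, c s ∈ loc g := fun s => InL_top.1 (h s).1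
  have h1 : ∀ s, (⟨c (s + 1), hm (s + 1)⟩ : loc g) - ⟨c s, hm s⟩ ∈
      (J ^ s • ⊤ : Submodule (MvPowerSeries (Fin n) K) (loc g)) := fun s =>
    (smul_top_iff hg _).2 (h s).2
  have h2 : ∀ s t, s ≤ t → (⟨c t, hm t⟩ : loc g) - ⟨c s, hm s⟩ ∈
      (J ^ s • ⊤ : Submodule (MvPowerSeries (Fin n) K) (loc g)) := by
    intro s t hst
    induction t, hst using Nat.le_induction with
    | base => rw [sub_self]; exact Submodule.zero_mem _
    | succ t hst ih =>
      have h3 := Submodule.smul_mono_left (N := (⊤ : Submodule (MvPowerSeries (Fin n) K) (loc g)))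
        (Ideal.pow_le_pow_right (I := J) hst) (h1 t)
      have h4 := Submodule.add_mem _ h3 ih
      rwa [sub_add_sub_cancel] at h4
  refine ⟨⟨fun s => Submodule.Quotient.mk ⟨c s, hm s⟩, ?_⟩, fun s => ⟨hm s, rfl⟩⟩
  intro s t hst
  exact (Submodule.Quotient.eq _).2 (h2 s t hst)

theorem rep_unique (h : Rep J g c x) (h' : Rep J g c x') : x = x' := by
  refine AdicCompletion.ext fun s => ?_
  obtain ⟨h1, h2⟩ := h s
  obtain ⟨h3, h4⟩ := h' s
  rw [h2, h4]

theorem rep_exists (x : AdicCompletion J (loc g)) : ∃ c, Rep J g c x := by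
  choose m hm using fun s => Ah0_exists J x s
  exact ⟨fun s => m s, fun s => ⟨(m s).2, hm s⟩⟩

theorem rep_zero : Rep J g (fun _ => 0) (0 : AdicCompletion J (loc g)) := fun _ =>
  ⟨Submodule.zero_mem _, rfl⟩

theorem rep_add (h : Rep J g c x) (h' : Rep J g c' x') :
    Rep J g (fun s => c s + c' s) (x + x') := by
  intro s
  obtain ⟨h1, h2⟩ := h s
  obtain ⟨h3, h4⟩ := h' s
  refine ⟨Submodule.add_mem _ h1 h3, ?_⟩
  rw [AdicCompletion.val_add_apply, h2, h4]
  rfl

theorem rep_neg (h : Rep J g c x) : Rep J g (fun s => - c s) (-x) := by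
  intro s
  obtain ⟨h1, h2⟩ := h s
  refine ⟨Submodule.neg_mem _ h1, ?_⟩
  rw [AdicCompletion.val_neg_apply, h2]
  rfl

theorem rep_smul (a : K) (h : Rep J g c x) : Rep J g (fun s => cst a * c s) (a • x) := by
  intro s
  obtain ⟨h1, h2⟩ := h s
  have h3 : cst a * c s = (C a : MvPowerSeries (Fin n) K) • c s := by
    rw [Algebra.smul_def]
    rfl
  refine ⟨?_, ?_⟩
  · show cst a * c s ∈ loc g
    rw [h3]
    exact Submodule.smul_mem _ _ h1
  · rw [AdicCompletion.val_smul_apply, h2]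
    show Submodule.Quotient.mk (a • (⟨c s, h1⟩ : loc g)) = _
    refine congrArg _ (Subtype.ext ?_)
    exact (cst_mul a (c s)).symm

theorem rep_zsmul (a : ℤ) (h : Rep J g c x) : Rep J g (fun s => a • c s) (a • x) := by
  intro s
  obtain ⟨h1, h2⟩ := h s
  refine ⟨zsmul_mem h1 a, ?_⟩
  rw [← AdicCompletion.eval_apply, map_zsmul, AdicCompletion.eval_apply, h2]
  rfl

theorem rep_sum {ι : Type*} (I : Finset ι) {c : ι → ℕ → FractionRing (MvPowerSeries (Fin n) K)}
    {x : ι → AdicCompletion J (loc g)} (h : ∀ i ∈ I, Rep J g (c i) (x i)) :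
    Rep J g (fun s => ∑ i ∈ I, c i s) (∑ i ∈ I, x i) := by
  classical
  induction I using Finset.induction_on with
  | empty =>
    simp only [Finset.sum_empty]
    exact rep_zero
  | insert i I hi ih =>
    rw [Finset.sum_insert hi]
    have h1 := rep_add (h i (Finset.mem_insert_self i I))
      (ih fun j hj => h j (Finset.mem_insert_of_mem hj))
    refine Eq.mp ?_ h1
    congr 1
    funext s
    rw [Finset.sum_insert hi]

theorem rep_nul (hg : g ≠ 0) (h : Rep J g c x) : Nul J g c ↔ x = 0 := by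
  constructor
  · intro hn
    refine AdicCompletion.ext fun s => ?_
    obtain ⟨h1, h2⟩ := h s
    rw [h2, AdicCompletion.val_zero_apply, Submodule.Quotient.mk_eq_zero]
    exact (smul_top_iff hg _).2 (hn s)
  · intro hx s
    obtain ⟨h1, h2⟩ := h s
    rw [hx, AdicCompletion.val_zero_apply] at h2
    exact (smul_top_iff hg ⟨c s, h1⟩).1 ((Submodule.Quotient.mk_eq_zero _).1 h2.symm)

theorem nul_rep (hg : g ≠ 0) (h : Nul J g c) : Rep J g c 0 := by
  intro s
  have h1 : c s ∈ loc g := InL_top.1 (InL_mono le_top (h s))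
  refine ⟨h1, ?_⟩
  rw [AdicCompletion.val_zero_apply]
  exact ((Submodule.Quotient.mk_eq_zero _).2 ((smul_top_iff hg ⟨c s, h1⟩).2 (h s))).symm

/-- the product of the variables `x_t`, `t ∈ S` -/
theorem fS_X_ne (S : Finset (Fin n)) :
    fS (fun t : Fin n => (X t : MvPowerSeries (Fin n) K)) S ≠ 0 := by
  refine Finset.prod_ne_zero_iff.2 fun t _ => ?_
  intro h
  have h1 := congrArg (coeff (Finsupp.single t 1)) h
  rw [coeff_index_single_self_X, map_zero] at h1
  exact one_ne_zero h1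

theorem rep_nab (S : Finset (Fin n)) (i : Fin n) {x : AdicCompletion J (RxT n K S)}
    (h : Rep J (fS (fun t : Fin n => (X t : MvPowerSeries (Fin n) K)) S) c x) :
    Rep J (fS (fun t : Fin n => (X t : MvPowerSeries (Fin n) K)) S) (fun s => fd i (c (s + 1)))
      ((hconn (xconn n K S) J).nab i x) := by
  intro s
  obtain ⟨h1, h2⟩ := h (s + 1)
  have h3 := hconn_val_mk (xconn n K S) J i x s ⟨c (s + 1), h1⟩ h2
  refine ⟨?_, ?_⟩
  · show fd i (c (s + 1)) ∈ loc (fS (fun t : Fin n => (X t : MvPowerSeries (Fin n) K)) S)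
    rw [fd_eq]
    exact dF_mem_loc' _ i h1
  · rw [h3]
    refine congrArg _ (Subtype.ext ?_)
    exact (fd_eq i (c (s + 1))).symm

theorem rep_incl {S' S : Finset (Fin n)} (hS : S' ⊆ S) {x : AdicCompletion J (RxT n K S')}
    (h : Rep J (fS (fun t : Fin n => (X t : MvPowerSeries (Fin n) K)) S') c x) :
    Rep J (fS (fun t : Fin n => (X t : MvPowerSeries (Fin n) K)) S) c (hmap J (incT hS) x) := by
  intro s
  obtain ⟨h1, h2⟩ := h s
  refine ⟨loc_mono _ hS h1, ?_⟩
  rw [hmap_val J (incT hS) x s ⟨c s, h1⟩ h2]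
  rfl

/-- All components are coherent sequences. -/
def GC (J : Ideal (MvPowerSeries (Fin n) K))
    (φ : Finset (Fin n) → Finset (Fin n) → ℕ → FractionRing (MvPowerSeries (Fin n) K)) : Prop :=
  ∀ I S, Coh J (∏ t ∈ S, X t) (φ I S)

open Classical in
/-- The element of the completion represented by a family of coherent sequences. -/
noncomputable def thC (J : Ideal (MvPowerSeries (Fin n) K))
    (φ : Finset (Fin n) → Finset (Fin n) → ℕ → FractionRing (MvPowerSeries (Fin n) K)) :
    Fm n (Kh J) := fun I S =>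
  if h : ∃ x : AdicCompletion J (RxT n K S),
    Rep J (fS (fun t : Fin n => (X t : MvPowerSeries (Fin n) K)) S) (φ I S) x then h.choose else 0

theorem thC_rep {φ : Finset (Fin n) → Finset (Fin n) → ℕ → FractionRing (MvPowerSeries (Fin n) K)}
    (h : GC J φ) (I S : Finset (Fin n)) :
    Rep J (fS (fun t : Fin n => (X t : MvPowerSeries (Fin n) K)) S) (φ I S) (thC J φ I S) := by
  have h1 : ∃ x : AdicCompletion J (RxT n K S),
      Rep J (fS (fun t : Fin n => (X t : MvPowerSeries (Fin n) K)) S) (φ I S) x :=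
    coh_rep (fS_X_ne S) (h I S)
  have h2 : thC J φ I S = h1.choose := dif_pos h1
  rw [h2]
  exact h1.choose_spec

theorem thC_eq {φ : Finset (Fin n) → Finset (Fin n) → ℕ → FractionRing (MvPowerSeries (Fin n) K)}
    {ψ : Fm n (Kh J)}
    (h : ∀ I S, Rep J (fS (fun t : Fin n => (X t : MvPowerSeries (Fin n) K)) S) (φ I S) (ψ I S)) :
    GC J φ ∧ thC J φ = ψ := by
  have h1 : GC J φ := fun I S => rep_coh (fS_X_ne S) (h I S)
  exact ⟨h1, funext fun I => funext fun S => rep_unique (thC_rep h1 I S) (h I S)⟩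

theorem cohSS_d_apply (ψ : Fm n (Kh J)) (I S : Finset (Fin n)) :
    (cohSS J).d ψ I S = ∑ i ∈ I, sg i I • (hconn (xconn n K S) J).nab i (ψ (I.erase i) S) +
      ((-1 : ℤ) ^ I.card) • ∑ t ∈ S, sg t S • hmap J (incT (Finset.erase_subset t S))
        (ψ I (S.erase t)) := by
  have h1 : (∑ i ∈ I, sg i I • (kconn J).nab i (ψ (I.erase i))) S =
      ∑ i ∈ I, sg i I • (hconn (xconn n K S) J).nab i (ψ (I.erase i) S) := by
    rw [Finset.sum_apply]
    rfl
  rw [← h1]
  rfl

theorem rep_d {φ : Finset (Fin n) → Finset (Fin n) → ℕ → FractionRing (MvPowerSeries (Fin n) K)}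
    (h : GC J φ) (I S : Finset (Fin n)) :
    Rep J (fS (fun t : Fin n => (X t : MvPowerSeries (Fin n) K)) S) ((cohCx J).d φ I S)
      ((cohSS J).d (thC J φ) I S) := by
  rw [cohSS_d_apply]
  refine rep_add (rep_sum I fun i _ => ?_) (rep_zsmul _ (rep_sum S fun t _ => ?_))
  · exact rep_zsmul _ (rep_nab S i (thC_rep h (I.erase i) S))
  · exact rep_zsmul _ (rep_incl (Finset.erase_subset t S) (thC_rep h I (S.erase t)))

/-- The cohomology complex. -/
theorem mdl_coh (J : Ideal (MvPowerSeries (Fin n) K)) :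
    Mdl (cohCx J) (cohSS J) (GC J) (thC J) where
  gadd φ ψ h h' := (thC_eq (ψ := thC J φ + thC J ψ) fun I S =>
    rep_add (thC_rep h I S) (thC_rep h' I S)).1
  gneg φ h := (thC_eq (ψ := - thC J φ) fun I S => rep_neg (thC_rep h I S)).1
  gsm c φ h := (thC_eq (ψ := c • thC J φ) fun I S => rep_smul c (thC_rep h I S)).1
  gd φ h := (thC_eq (rep_d h)).1
  add φ ψ h h' := (thC_eq (ψ := thC J φ + thC J ψ) fun I S =>
    rep_add (thC_rep h I S) (thC_rep h' I S)).2
  neg φ h := (thC_eq (ψ := - thC J φ) fun I S => rep_neg (thC_rep h I S)).2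
  smul c φ h := (thC_eq (ψ := c • thC J φ) fun I S => rep_smul c (thC_rep h I S)).2
  hd φ h := (thC_eq (rep_d h)).2
  hF p m φ := by
    constructor
    · intro h
      have hG : GC J φ := fun I S => (h I S).1
      exact ⟨hG, fun I S hc => (rep_nul (fS_X_ne S) (thC_rep hG I S)).1 ((h I S).2 hc)⟩
    · rintro ⟨hG, h⟩ I S
      exact ⟨hG I S, fun hc => (rep_nul (fS_X_ne S) (thC_rep hG I S)).2 (h I S hc)⟩
  hN φ := by
    constructor
    · intro h
      exact thC_eq (ψ := 0) fun I S => nul_rep (fS_X_ne S) (h I S)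
    · rintro ⟨hG, h⟩ I S
      exact (rep_nul (fS_X_ne S) (thC_rep hG I S)).2 (congrFun (congrFun h I) S)
  surj ψ := by
    choose c hc using fun I S => rep_exists (g := fS (fun t : Fin n => (X t : MvPowerSeries (Fin n) K)) S)
      (J := J) (ψ I S)
    exact ⟨c, thC_eq hc⟩

theorem ssi_coh {J J' : Ideal (MvPowerSeries (Fin n) K)} (h : Nonempty (SSIso (cohSS J) (cohSS J'))) :
    Nonempty (SSI (cohCx J) (cohCx J')) :=
  h.elim fun s => ssi_of_mdl (mdl_coh J) (mdl_coh J') s

end B5s
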