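import Pool.Agent.H.MP_b5a980_ag.Hd0
import Pool.Agent.H.MP_b5a980_ag.Sx2

set_option autoImplicit false
set_option linter.unusedSectionVars false
set_option linter.style.longLine false

/-!
MP_b5a980_ag: the plain description of the de Rham cohomology of the local cohomology modules.
-/

namespace B5s

universe u v w

open B5a MvPowerSeries

variable {n r : ℕ} {K : Type u} [Field K]

theorem cech_apply (c : Fm r (FF n K)) (S : Finset (Fin r)) :
    cech n r K c S = ∑ s ∈ S, sgn s S • c (S.erase s) := rfl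

theorem cz_iff {f : Fin r → MvPowerSeries (Fin n) K} {q : ℤ} {c : Fm r (FF n K)} :
    CZ f q c ↔ c ∈ Zq f q := by
  constructor
  · rintro ⟨h1, h2⟩
    refine ⟨fun S => ⟨InL_top.1 (h1 S).1, (h1 S).2⟩, ?_⟩
    show cech n r K c = 0
    funext S
    rw [cech_apply]
    exact h2 S
  · rintro ⟨h1, h2⟩
    have h3 : cech n r K c = 0 := h2
    refine ⟨fun S => ⟨InL_top.2 (h1 S).1, (h1 S).2⟩, fun S => ?_⟩
    rw [← cech_apply, h3]
    rfl

theorem cb_iff {f : Fin r → MvPowerSeries (Fin n) K} {q : ℤ} {c : Fm r (FF n K)} :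
    CB f q c ↔ c ∈ (Lq f (q - 1)).map (cech n r K) := by
  constructor
  · rintro ⟨b, h1, h2⟩
    refine ⟨b, fun S => ⟨InL_top.1 (h1 S).1, (h1 S).2⟩, ?_⟩
    funext S
    rw [cech_apply]
    exact (h2 S).symm
  · rintro ⟨b, h1, h2⟩
    refine ⟨b, fun S => ⟨InL_top.2 (h1 S).1, (h1 S).2⟩, fun S => ?_⟩
    rw [← h2, cech_apply]

/-- The cocycle `c` represents the class `x`. -/
def RepL (f : Fin r → MvPowerSeries (Fin n) K) (q : ℤ) (c : Fm r (FF n K)) (x : LC f q) : Prop :=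
  ∃ h : c ∈ Zq f q, x = Submodule.Quotient.mk ⟨c, h⟩

variable {f : Fin r → MvPowerSeries (Fin n) K} {q : ℤ} {c c' : Fm r (FF n K)} {x x' : LC f q}

theorem repL_unique (h : RepL f q c x) (h' : RepL f q c x') : x = x' := by
  obtain ⟨h1, h2⟩ := h
  obtain ⟨h3, h4⟩ := h'
  rw [h2, h4]

theorem repL_exists (x : LC f q) : ∃ c, RepL f q c x := by
  obtain ⟨c, rfl⟩ := Submodule.Quotient.mk_surjective _ x
  exact ⟨c, c.2, rfl⟩

theorem repL_of_cz (h : CZ f q c) : ∃ x, RepL f q c x := ⟨_, cz_iff.1 h, rfl⟩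

theorem repL_cz (h : RepL f q c x) : CZ f q c := cz_iff.2 h.1

theorem repL_cb (h : RepL f q c x) : CB f q c ↔ x = 0 := by
  obtain ⟨h1, rfl⟩ := h
  rw [cb_iff, Submodule.Quotient.mk_eq_zero]
  rfl

theorem repL_zero : RepL f q 0 (0 : LC f q) := ⟨Submodule.zero_mem _, rfl⟩

theorem repL_add (h : RepL f q c x) (h' : RepL f q c' x') : RepL f q (c + c') (x + x') := by
  obtain ⟨h1, rfl⟩ := h
  obtain ⟨h2, rfl⟩ := h'
  exact ⟨Submodule.add_mem _ h1 h2, rfl⟩

theorem repL_neg (h : RepL f q c x) : RepL f q (-c) (-x) := by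
  obtain ⟨h1, rfl⟩ := h
  exact ⟨Submodule.neg_mem _ h1, rfl⟩

theorem repL_zsmul (a : ℤ) (h : RepL f q c x) : RepL f q (a • c) (a • x) := by
  obtain ⟨h1, rfl⟩ := h
  exact ⟨zsmul_mem h1 a, rfl⟩

theorem repL_smul (a : K) (h : RepL f q c x) : RepL f q (fun S => cst a * c S) (a • x) := by
  obtain ⟨h1, rfl⟩ := h
  have h3 : (fun S => cst a * c S) = (C a : MvPowerSeries (Fin n) K) • c := by
    funext S
    rw [Pi.smul_apply, Algebra.smul_def]
    rfl
  have h4 : (fun S => cst a * c S) ∈ Zq f q := by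
    rw [h3]
    exact Submodule.smul_mem _ _ h1
  refine ⟨h4, ?_⟩
  have h5 : (a • (⟨c, h1⟩ : Zq f q)) = ⟨fun S => cst a * c S, h4⟩ := by
    refine Subtype.ext ?_
    funext S
    exact (cst_mul a (c S)).symm
  rw [← h5]
  rfl

theorem repL_sum {ι : Type*} (I : Finset ι) {c : ι → Fm r (FF n K)} {x : ι → LC f q}
    (h : ∀ i ∈ I, RepL f q (c i) (x i)) : RepL f q (∑ i ∈ I, c i) (∑ i ∈ I, x i) := by
  classical
  induction I using Finset.induction_on with
  | empty =>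
    rw [Finset.sum_empty, Finset.sum_empty]
    exact repL_zero
  | insert i I hi ih =>
    rw [Finset.sum_insert hi, Finset.sum_insert hi]
    exact repL_add (h i (Finset.mem_insert_self i I))
      (ih fun j hj => h j (Finset.mem_insert_of_mem hj))

theorem repL_nab (i : Fin n) (h : RepL f q c x) :
    RepL f q (fun S => fd i (c S)) ((LCconn f q).nab i x) := by
  obtain ⟨h1, rfl⟩ := h
  have h3 : (fun S => fd i (c S)) = (cconn n r K).nab i c := by
    funext S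
    exact fd_eq i (c S)
  rw [h3, LCconn_mk]
  exact ⟨((zconn f q).nab i ⟨c, h1⟩).2, rfl⟩

/-- `ω` represents the form `y` with coefficients in the local cohomology module. -/
def RepF (f : Fin r → MvPowerSeries (Fin n) K) (q : ℤ) (ω : Fm n (Fm r (FF n K)))
    (y : Fm n (LC f q)) : Prop := ∀ I, RepL f q (ω I) (y I)

theorem repF_exists (y : Fm n (LC f q)) : ∃ ω, RepF f q ω y := by
  choose ω hω using fun I => repL_exists (y I)
  exact ⟨ω, hω⟩

theorem repF_dR {ω : Fm n (Fm r (FF n K))} {y : Fm n (LC f q)} (h : RepF f q ω y) :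
    RepF f q (dfm ω) (dR (LCconn f q) y) := by
  intro I
  have h1 : dfm ω I = ∑ i ∈ I, sgn i I • (fun S => fd i (ω (I.erase i) S)) := by
    funext S
    rw [Finset.sum_apply]
    rfl
  rw [h1]
  exact repL_sum I fun i _ => repL_zsmul _ (repL_nab i (h (I.erase i)))

theorem hf_iff {p : ℤ} {ω : Fm n (Fm r (FF n K))} :
    HF f p q ω ↔ ∃ y, RepF f q ω y ∧ IsFm p y := by
  constructor
  · intro h
    choose y hy using fun I => repL_of_cz (h I).1
    exact ⟨y, hy, fun I hI => (repL_cb (hy I)).1 ((h I).2 hI)⟩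
  · rintro ⟨y, hy, hy'⟩ I
    exact ⟨repL_cz (hy I), fun hI => (repL_cb (hy I)).2 (hy' I hI)⟩

theorem hz_iff {p : ℤ} {ω : Fm n (Fm r (FF n K))} :
    HZ f p q ω ↔ ∃ y : dRZ (LCconn f q) p, RepF f q ω y := by
  constructor
  · rintro ⟨h1, h2⟩
    obtain ⟨y, hy, hy'⟩ := hf_iff.1 h1
    refine ⟨⟨y, hy', ?_⟩, hy⟩
    funext I
    exact (repL_cb (repF_dR hy I)).1 (h2 I)
  · rintro ⟨⟨y, hy', hd⟩, hy⟩
    refine ⟨hf_iff.2 ⟨y, hy, hy'⟩, fun I => (repL_cb (repF_dR hy I)).2 ?_⟩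
    exact congrFun hd I

theorem hb_iff {p : ℤ} {ω : Fm n (Fm r (FF n K))} {y : Fm n (LC f q)} (h : RepF f q ω y) :
    HB f p q ω ↔ y ∈ dRB (LCconn f q) p := by
  have key : ∀ (η : Fm n (Fm r (FF n K))) (y' : Fm n (LC f q)), RepF f q η y' → ∀ I,
      (CB f q (ω I - dfm η I) ↔ y I = dR (LCconn f q) y' I) := by
    intro η y' hy' I
    have h1 := repL_add (h I) (repL_neg (repF_dR hy' I))
    rw [← sub_eq_add_neg, ← sub_eq_add_neg] at h1
    rw [repL_cb h1, sub_eq_zero]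
  constructor
  · rintro ⟨η, h1, h2⟩
    obtain ⟨y', hy, hy'⟩ := hf_iff.1 h1
    exact ⟨y', hy', funext fun I => (key η y' hy I).1 (h2 I)⟩
  · rintro ⟨y', hy', h2⟩
    obtain ⟨η, hη⟩ := repF_exists y'
    exact ⟨η, hf_iff.2 ⟨y', hη, hy'⟩, fun I => (key η y' hη I).2 (congrFun h2 I)⟩

open Classical in
/-- The de Rham class of a form. -/
noncomputable def thL (f : Fin r → MvPowerSeries (Fin n) K) (p q : ℤ)
    (ω : Fm n (Fm r (FF n K))) : HdR (LCconn f q) p :=
  if h : ∃ y : dRZ (LCconn f q) p, RepF f q ω y then Submodule.Quotient.mk h.choose else 0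

theorem thL_eq {p : ℤ} {ω : Fm n (Fm r (FF n K))} {y : dRZ (LCconn f q) p} (h : RepF f q ω y) :
    thL f p q ω = Submodule.Quotient.mk y := by
  have h1 : ∃ y : dRZ (LCconn f q) p, RepF f q ω y := ⟨y, h⟩
  have h2 : thL f p q ω = Submodule.Quotient.mk h1.choose := dif_pos h1
  rw [h2]
  refine congrArg _ (Subtype.ext ?_)
  funext I
  exact repL_unique (h1.choose_spec I) (h I)

theorem pres_rho (f : Fin r → MvPowerSeries (Fin n) K) (p q : ℤ) :
    Pres (fun (c : K) (φ : Fm n (Fm r (FF n K))) => fun I S => cst c * φ I S) (HZ f p q)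
      (HB f p q) (thL f p q) where
  add_mem z w hz hw := by
    obtain ⟨y, hy⟩ := hz_iff.1 hz
    obtain ⟨y', hy'⟩ := hz_iff.1 hw
    exact hz_iff.2 ⟨y + y', fun I => repL_add (hy I) (hy' I)⟩
  neg_mem z hz := by
    obtain ⟨y, hy⟩ := hz_iff.1 hz
    exact hz_iff.2 ⟨-y, fun I => repL_neg (hy I)⟩
  sm_mem c z hz := by
    obtain ⟨y, hy⟩ := hz_iff.1 hz
    exact hz_iff.2 ⟨c • y, fun I => repL_smul c (hy I)⟩
  map_add z w hz hw := by
    obtain ⟨y, hy⟩ := hz_iff.1 hz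
    obtain ⟨y', hy'⟩ := hz_iff.1 hw
    rw [thL_eq hy, thL_eq hy', thL_eq (ω := z + w) (y := y + y') fun I => repL_add (hy I) (hy' I)]
    rfl
  map_neg z hz := by
    obtain ⟨y, hy⟩ := hz_iff.1 hz
    rw [thL_eq hy, thL_eq (ω := -z) (y := -y) fun I => repL_neg (hy I)]
    rfl
  map_smul c z hz := by
    obtain ⟨y, hy⟩ := hz_iff.1 hz
    rw [thL_eq hy, thL_eq (y := c • y) fun I => repL_smul c (hy I)]
    rfl
  ker z hz := by
    obtain ⟨y, hy⟩ := hz_iff.1 hz
    rw [thL_eq hy, hb_iff hy, Submodule.Quotient.mk_eq_zero]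
    rfl
  surj v := by
    obtain ⟨y, rfl⟩ := Submodule.Quotient.mk_surjective _ v
    obtain ⟨ω, hω⟩ := repF_exists (y : Fm n (LC f q))
    exact ⟨ω, hz_iff.2 ⟨y, hω⟩, thL_eq hω⟩

section

variable {T : Type v} [AddCommGroup T] {V : Type w} [AddCommGroup V] [Module K V]

theorem pres_span {sm : K → T → T} {S R : T → Prop} {θ : T → V} (h : Pres sm S R θ) (k : ℕ) :
    (∃ v : Fin k → T, (∀ j, S (v j)) ∧ ∀ ω, S ω → ∃ c : Fin k → K, R (ω - ∑ j, sm (c j) (v j))) ↔
      ∃ v : Fin k → V, ∀ x, ∃ c : Fin k → K, x = ∑ j, c j • v j := by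
  have key : ∀ (v : Fin k → T), (∀ j, S (v j)) → ∀ (c : Fin k → K) (I : Finset (Fin k)) (ω : T),
      S ω → S (ω - ∑ j ∈ I, sm (c j) (v j)) ∧
        θ (ω - ∑ j ∈ I, sm (c j) (v j)) = θ ω - ∑ j ∈ I, c j • θ (v j) := by
    intro v hv c I
    classical
    induction I using Finset.induction_on with
    | empty =>
      intro ω hω
      simpa using hω
    | insert i I hi ih =>
      intro ω hω
      have h1 := ih ω hω
      have h2 := h.sm_mem (c i) _ (hv i)
      have h3 : ω - ∑ j ∈ insert i I, sm (c j) (v j) =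
          (ω - ∑ j ∈ I, sm (c j) (v j)) - sm (c i) (v i) := by
        rw [Finset.sum_insert hi]
        abel
      rw [h3]
      refine ⟨h.sub_mem h1.1 h2, ?_⟩
      rw [h.map_sub h1.1 h2, h1.2, h.map_smul _ _ (hv i), Finset.sum_insert hi]
      abel
  constructor
  · rintro ⟨v, hv, hs⟩
    refine ⟨fun j => θ (v j), fun x => ?_⟩
    obtain ⟨ω, hω, rfl⟩ := h.surj x
    obtain ⟨c, hc⟩ := hs ω hω
    refine ⟨c, ?_⟩
    have h1 := key v hv c Finset.univ ω hω
    rw [h.ker _ h1.1, h1.2, sub_eq_zero] at hc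
    exact hc
  · rintro ⟨v, hs⟩
    choose w hw hwv using fun j => h.surj (v j)
    refine ⟨w, hw, fun ω hω => ?_⟩
    obtain ⟨c, hc⟩ := hs (θ ω)
    refine ⟨c, ?_⟩
    have h1 := key w hw c Finset.univ ω hω
    rw [h.ker _ h1.1, h1.2, hc, sub_eq_zero]
    exact Finset.sum_congr rfl fun j _ => by rw [hwv]

end

theorem rho_eq_sInf (f : Fin r → MvPowerSeries (Fin n) K) (p q : ℤ) :
    rho f p q = sInf {k : ℕ | ∃ v : Fin k → HdR (LCconn f ((n : ℤ) - q)) ((n : ℤ) - p),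
      ∀ x, ∃ c : Fin k → K, x = ∑ j, c j • v j} := by
  unfold rho
  congr 1
  ext k
  rw [Set.mem_ofPred_eq, Set.mem_ofPred_eq,
    ← pres_span (pres_rho f ((n : ℤ) - p) ((n : ℤ) - q)) k]
  refine exists_congr fun v => and_congr_right fun _ => forall_congr' fun ω =>
    imp_congr_right fun _ => exists_congr fun c => ?_
  have h1 : (ω - ∑ j, fun I S => cst (c j) * v j I S) =
      fun I S => ω I S - ∑ j, cst (c j) * v j I S := by
    funext I S
    rw [Pi.sub_apply, Pi.sub_apply, Finset.sum_apply, Finset.sum_apply]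
  rw [h1]

theorem rho_congr {f f' : Fin r → MvPowerSeries (Fin n) K} {p q : ℤ}
    (e : HdR (LCconn f ((n : ℤ) - q)) ((n : ℤ) - p) ≃ₗ[K]
      HdR (LCconn f' ((n : ℤ) - q)) ((n : ℤ) - p)) : rho f p q = rho f' p q := by
  rw [rho_eq_sInf, rho_eq_sInf]
  congr 1
  ext k
  constructor
  · rintro ⟨v, hv⟩
    refine ⟨fun j => e (v j), fun x => ?_⟩
    obtain ⟨c, hc⟩ := hv (e.symm x)
    refine ⟨c, ?_⟩
    rw [← e.apply_symm_apply x, hc, map_sum]
    exact Finset.sum_congr rfl fun j _ => map_smul _ _ _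
  · rintro ⟨v, hv⟩
    refine ⟨fun j => e.symm (v j), fun x => ?_⟩
    obtain ⟨c, hc⟩ := hv (e x)
    refine ⟨c, ?_⟩
    rw [← e.symm_apply_apply x, hc, map_sum]
    exact Finset.sum_congr rfl fun j _ => map_smul _ _ _

end B5s
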