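import Pool.Agent.H.MP_b5a980_ag.Fi0
import Pool.Agent.H.MP_b5a980_ag.Sx3
import Pool.Agent.H.MP_b5a980_ag.Sx4

set_option autoImplicit false
set_option linter.unusedSectionVars false
set_option linter.style.longLine false

/-!
MP_b5a980_ag: the main theorem in terms of the plain definitions of the file Sx0.
-/

namespace B5s

universe u

open B5a MvPowerSeries

theorem plain_result {A : Type u} [CommRing A] [IsLocalRing A] [Algebra ℚ A]
    (σ σ' : IsLocalRing.ResidueField A →+* A)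
    (hσ : ∀ x, IsLocalRing.residue A (σ x) = x) (hσ' : ∀ x, IsLocalRing.residue A (σ' x) = x)
    {n r : ℕ} (π : MvPowerSeries (Fin n) (IsLocalRing.ResidueField A) →+* A)
    (hπ : Function.Surjective π) (hπσ : ∀ c, π (C c) = σ c)
    (f : Fin r → MvPowerSeries (Fin n) (IsLocalRing.ResidueField A)) (hf0 : ∀ s, f s ≠ 0)
    (hf : Ideal.span (Set.range f) = RingHom.ker π) :
    ∃ (π' : MvPowerSeries (Fin n) (IsLocalRing.ResidueField A) →+* A)
      (f' : Fin r → MvPowerSeries (Fin n) (IsLocalRing.ResidueField A)),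
      Function.Surjective π' ∧ (∀ c, π' (C c) = σ' c) ∧ (∀ s, f' s ≠ 0) ∧
      Ideal.span (Set.range f') = RingHom.ker π' ∧
      Nonempty (SSI (homCx f) (homCx f')) ∧
      Nonempty (SSI (cohCx (RingHom.ker π)) (cohCx (RingHom.ker π'))) ∧
      ∀ p q : ℤ, rho f p q = rho f' p q := by
  obtain ⟨π', f', h1, h2, h3, h4, h5, h6, -⟩ := full_result σ σ' hσ hσ' π hπ hπσ f hf0 hf
  refine ⟨π', f', h1, h2, h3, h4, ssi_hom h5, ssi_coh h6, fun p q => ?_⟩
  obtain ⟨s⟩ := h5
  obtain ⟨e1⟩ := e2_equiv f ((n : ℤ) - p) ((n : ℤ) - q)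
  obtain ⟨e2⟩ := e2_equiv f' ((n : ℤ) - p) ((n : ℤ) - q)
  exact rho_congr ((e1.symm.trans (s.e 2 le_rfl _ _)).trans e2)

end B5s
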